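import Mathlib
import Pool.Agent.W262.RK.Defs2
import Pool.Agent.W262.RK.Bas
import Pool.Agent.W262.RK.SymL
import Pool.Agent.H474R2.PG.Defs

/-!
# Moments of ranks in twist families given by polynomials: definitions
-/

set_option autoImplicit false

namespace Run7.h69

open Finset Polynomial
open Pool.Agent.W262.RK (PS PP hh Jr x4 Tup Sym NL LL)

/-- the multiplicative function with the given values at the primes -/
noncomputable def gm (a : ℕ → ℝ) (d : ℕ) : ℝ := ∏ p ∈ d.primeFactors, a p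

/-- the number of the roots modulo `p` -/
noncomputable abbrev rho (f : ℤ[X]) (p : ℕ) : ℕ := Pool.Agent.H474R2.PG.rho f p

/-- the sieve weight `ρ(p) / (p - deg f)` -/
noncomputable def br (f : ℤ[X]) (p : ℕ) : ℝ := (rho f p : ℝ) / ((p : ℝ) - f.natDegree)

/-- all the primes above `z` are good for `f` -/
structure Gd (f : ℤ[X]) (z : ℕ) : Prop where
  big : 2 * f.natDegree + 2 ≤ z
  few : ∀ p : ℕ, p.Prime → z < p → rho f p ≤ f.natDegree
  simp : ∀ p : ℕ, p.Prime → z < p → ∀ t : ℤ, (p : ℤ) ∣ f.eval t →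
    ¬ (p : ℤ) ∣ (derivative f).eval t

/-- Mertens' theorem for the roots -/
def Mer (f : ℤ[X]) (g : ℕ) : Prop := ∃ C : ℝ, ∀ y : ℕ, 3 ≤ y →
  |∑ p ∈ (Icc 1 y).filter Nat.Prime, (rho f p : ℝ) / p - g * Real.log (Real.log y)| ≤ C

/-- the bound for the twisted sums over the primes -/
def Utw (f : ℤ[X]) (z : ℕ) : Prop := ∀ κ : ℤ, κ ≠ 0 → κ.natAbs ≤ z →
  ∃ B C : ℝ, ∀ (y r : ℕ) (e : Bool), z < y → 1 < r → Squarefree r →
    (∀ p : ℕ, p.Prime → p ∣ r → z < p) →
    ∑ p ∈ PS z y, (rho f p : ℝ) / p * (Jr p r * Jr κ p * x4 e p) ≤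
      B * Real.log (Real.log r) + C

end Run7.h69
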