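import Mathlib
import Pool.Agent.Run7.h69.Defs
import Pool.Agent.W262.RK.AT3

/-! The abstract bound for linked variables with general weights: preparations. -/

set_option autoImplicit false

namespace Run7.h69

open Finset
open Pool.Agent.W262.RK hiding LL ff s1 s2
open Pool.Agent.W262.RK.AT (VV YY VV_ge three_le_VV VV_le_YY one_le_log_VV VV_le log_YY_ge log_YY_le
  log_VV_le log_VV_pow_le exp_neg_pow hh_mul_le hh_prod_le lk_primes squarefree_prod sum_others
  BW lg)

namespace AT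

lemma gm_one (a : ℕ → ℝ) : gm a 1 = 1 := by simp [gm]

lemma gm_nonneg {b : ℕ → ℝ} {z y d : ℕ} (hb : ∀ p : ℕ, p.Prime → z < p → 0 ≤ b p)
    (hd : d ∈ (PP z y).divisors) : 0 ≤ gm b d := by
  unfold gm
  apply prod_nonneg
  intro p hp
  have h := Nat.prime_of_mem_primeFactors hp
  exact hb p h (dv_prime hd h (Nat.dvd_of_mem_primeFactors hp)).1

lemma abs_gm_le {a b : ℕ → ℝ} {z y d : ℕ} (hb : ∀ p : ℕ, p.Prime → z < p → |a p| ≤ b p)
    (hd : d ∈ (PP z y).divisors) : |gm a d| ≤ gm b d := by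
  unfold gm
  rw [abs_prod]
  apply prod_le_prod (fun _ _ => abs_nonneg _)
  intro p hp
  have h := Nat.prime_of_mem_primeFactors hp
  exact hb p h (dv_prime hd h (Nat.dvd_of_mem_primeFactors hp)).1

lemma gm_le {b : ℕ → ℝ} {z y d : ℕ} (h0 : ∀ p : ℕ, p.Prime → z < p → 0 ≤ b p)
    (hb : ∀ p : ℕ, p.Prime → z < p → b p ≤ 1 / (p : ℝ))
    (hd : d ∈ (PP z y).divisors) : gm b d ≤ 1 / (d : ℝ) := by
  have hsq := dv_squarefree hd
  have h0' : (1 : ℝ) / d = ∏ p ∈ d.primeFactors, (1 / (p : ℝ)) := by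
    rw [prod_div_distrib, prod_const_one]
    congr 1
    rw [← Nat.cast_prod, Nat.prod_primeFactors_of_squarefree hsq]
  rw [h0']
  unfold gm
  apply prod_le_prod
  · intro p hp
    have h := Nat.prime_of_mem_primeFactors hp
    exact h0 p h (dv_prime hd h (Nat.dvd_of_mem_primeFactors hp)).1
  · intro p hp
    have h := Nat.prime_of_mem_primeFactors hp
    exact hb p h (dv_prime hd h (Nat.dvd_of_mem_primeFactors hp)).1

variable {ι : Type} [Fintype ι] [DecidableEq ι]

/-- no constants -/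
def k1 : ι → ℤ := fun _ => 1

lemma Jr_one_left (n : ℕ) : Jr 1 n = 1 := by simp [Jr]

open Classical in
/-- the summand -/
noncomputable def HH (a : ι → ℕ → ℝ) (L : ι → ι → Bool) (d : ι → ℕ) : ℝ :=
  if (∀ i j, i ≠ j → (d i).Coprime (d j)) then (∏ i, gm (a i) (d i)) * Sym L k1 d else 0

lemma total_eq (a : ι → ℕ → ℝ) (L : ι → ι → Bool) (z y : ℕ) :
    ∑ d ∈ Tup ι z y, (∏ i, gm (a i) (d i)) * Sym L k1 d =
      ∑ d ∈ Fintype.piFinset (fun _ : ι => (PP z y).divisors), HH a L d := by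
  unfold Tup HH
  rw [sum_filter]

/-- the bounds used (for fixed `z`) -/
structure Bd (e : ι → ℝ) (a b : ι → ℕ → ℝ) (z : ℕ) (C : ℝ) (B : ℕ) : Prop where
  e0 : ∀ i, 0 < e i
  e1 : ∀ i, e i ≤ 1
  z2 : 2 ≤ z
  ab : ∀ i, ∀ p : ℕ, p.Prime → z < p → |a i p| ≤ b i p
  b1 : ∀ i, ∀ p : ℕ, p.Prime → z < p → b i p ≤ 1 / (p : ℝ)
  C1 : 1 ≤ C
  F1 : ∀ i y, z < y → ∑ d ∈ (PP z y).divisors, gm (b i) d * hh d ≤ C * (Real.log y) ^ (e i)
  F2 : ∀ i (y V : ℕ), z < y → 3 ≤ V →
    ∑ d ∈ (PP z y).divisors.filter (fun d => d ≤ V), gm (b i) d * hh d ≤ C * (Real.log V) ^ (e i)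
  F3 : ∀ i (y Y : ℕ), z < y → 1 ≤ Y →
    ∑ d ∈ (PP z y).divisors.filter (fun d => Y < d), gm (b i) d * hh d ≤
      C * Real.exp (-(Real.log Y / Real.log y)) * (Real.log y) ^ 2
  E : ∀ i (y R r : ℕ) (x : Bool), z < y → R ≠ 0 → 1 < r → Squarefree r →
    (∀ p : ℕ, p.Prime → p ∣ r → z < p) →
    |∑ d ∈ (PP z y).divisors.filter (fun d => d.Coprime R),
        gm (a i) d * (Jr d r * x4 x d)| ≤ C * (1 + Real.log r) ^ B * hh R

variable {e : ι → ℝ} {a b : ι → ℕ → ℝ} {L : ι → ι → Bool} {z B : ℕ} {C : ℝ}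

lemma Bd.b0 (hB : Bd e a b z C B) (i : ι) (p : ℕ) (hp : p.Prime) (hz : z < p) : 0 ≤ b i p :=
  (abs_nonneg _).trans (hB.ab i p hp hz)

lemma Bd.gb0 (hB : Bd e a b z C B) (i : ι) {y d : ℕ} (hd : d ∈ (PP z y).divisors) :
    0 ≤ gm (b i) d := gm_nonneg (hB.b0 i) hd

lemma Bd.gab (hB : Bd e a b z C B) (i : ι) {y d : ℕ} (hd : d ∈ (PP z y).divisors) :
    |gm (a i) d| ≤ gm (b i) d := abs_gm_le (hB.ab i) hd

lemma Bd.gb1 (hB : Bd e a b z C B) (i : ι) {y d : ℕ} (hd : d ∈ (PP z y).divisors) :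
    gm (b i) d ≤ 1 / (d : ℝ) := gm_le (hB.b0 i) (hB.b1 i) hd

lemma abs_HH_le (hB : Bd e a b z C B) {y : ℕ} {d : ι → ℕ} (hd : ∀ i, d i ∈ (PP z y).divisors) :
    |HH a L d| ≤ ∏ i, gm (b i) (d i) := by
  have h0 : 0 ≤ ∏ i, gm (b i) (d i) := prod_nonneg fun i _ => hB.gb0 i (hd i)
  unfold HH
  split_ifs
  · rw [abs_mul]
    have h1 : |∏ i, gm (a i) (d i)| ≤ ∏ i, gm (b i) (d i) := by
      rw [abs_prod]
      exact prod_le_prod (fun _ _ => abs_nonneg _) fun i _ => hB.gab i (hd i)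
    calc |∏ i, gm (a i) (d i)| * |Sym L k1 d| ≤ (∏ i, gm (b i) (d i)) * 1 :=
          mul_le_mul h1 (abs_Sym_le _ _ _) (abs_nonneg _) h0
      _ = _ := mul_one _
  · simpa using h0

/-- trivial bound -/
lemma triv (hB : Bd e a b z C B) {y : ℕ} {t : ι → Finset ℕ} (ht : ∀ i, t i ⊆ (PP z y).divisors) :
    |∑ d ∈ Fintype.piFinset t, HH a L d| ≤ ∏ i, ∑ m ∈ t i, gm (b i) m := by
  rw [prod_univ_sum]
  refine (abs_sum_le_sum_abs _ _).trans (sum_le_sum fun d hd => ?_)
  rw [Fintype.mem_piFinset] at hd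
  exact abs_HH_le hB fun i => ht i (hd i)

/-- the summand as a function of one variable -/
lemma HH_update {y : ℕ} (i : ι) (hL : L i i = false) (hz : 2 ≤ z) {v : ι → ℕ}
    (hv : ∀ k, v k ∈ (PP z y).divisors) :
    (∀ m, HH a L (Function.update v i m) = 0) ∨
      (∀ j k, j ≠ i → k ≠ i → j ≠ k → (v j).Coprime (v k)) ∧ ∃ t : Bool, ∀ m ∈ (PP z y).divisors,
      HH a L (Function.update v i m) =
        if m.Coprime (∏ k ∈ univ.erase i, v k) then
          ((∏ k ∈ univ.erase i, gm (a k) (v k)) * RR L k1 i v) *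
            (gm (a i) m * (Jr m (lk L i v) * x4 t m)) else 0 := by
  classical
  by_cases hcop : ∀ j k, j ≠ i → k ≠ i → j ≠ k → (v j).Coprime (v k)
  · right
    refine ⟨hcop, ?_⟩
    obtain ⟨t, ht⟩ := XX_char L i v (fun k => dv_odd hz (hv k))
    refine ⟨t, fun m hm => ?_⟩
    have hiff : m.Coprime (∏ k ∈ univ.erase i, v k) ↔ ∀ k, k ≠ i → m.Coprime (v k) := by
      rw [Nat.coprime_prod_right_iff]
      simp
    have hiff2 : (∀ j k, j ≠ k → (Function.update v i m j).Coprime (Function.update v i m k)) ↔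
        ∀ k, k ≠ i → m.Coprime (v k) := by
      constructor
      · intro h k hk
        have := h i k (Ne.symm hk)
        rwa [Function.update_self, Function.update_of_ne hk] at this
      · intro h j k hjk
        by_cases hj : j = i
        · subst hj
          rw [Function.update_self, Function.update_of_ne (Ne.symm hjk)]
          exact h k (Ne.symm hjk)
        · by_cases hk : k = i
          · subst hk
            rw [Function.update_self, Function.update_of_ne hj]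
            exact (h j hj).symm
          · rw [Function.update_of_ne hj, Function.update_of_ne hk]
            exact hcop j k hj hk hjk
    unfold HH
    by_cases h : ∀ k, k ≠ i → m.Coprime (v k)
    · rw [if_pos (hiff2.2 h), if_pos (hiff.2 h), sym_update L k1 i hL, ht m (dv_odd hz hm) h,
        ← mul_prod_erase univ _ (mem_univ i), Function.update_self]
      have : ∏ k ∈ univ.erase i, gm (a k) (Function.update v i m k) =
          ∏ k ∈ univ.erase i, gm (a k) (v k) := by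
        apply prod_congr rfl
        intro k hk
        rw [Function.update_of_ne (mem_erase.1 hk).1]
      rw [this]
      have e1 : Jr (k1 i) m = 1 := Jr_one_left m
      rw [e1]
      ring
    · rw [if_neg (fun h' => h (hiff2.1 h')), if_neg (fun h' => h (hiff.1 h'))]
  · left
    intro m
    unfold HH
    rw [if_neg]
    intro h
    apply hcop
    intro j k hj hk hjk
    have := h j k hjk
    rwa [Function.update_of_ne hj, Function.update_of_ne hk] at this

end AT

end Run7.h69
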