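import Mathlib
import Pool.Agent.Run7.h69.AT1
import Pool.Agent.W762.RK2.EXP4b

/-!
# Expansion of the moments of the Selmer count of twists into symbols
-/

set_option autoImplicit false
set_option linter.unusedSectionVars false

namespace Run7.h69

open Finset
open Pool.Agent.W262.RK hiding lk ff s1 s2
open Pool.Agent.W108.RK
open Pool.Agent.W762.RK2 (Pr Pr_prime nb nb_eq_prod nb_pf nb_ne_zero mem_Ts dvd_nb nb_inj nb_dvd
  nb_true nb_dvd_PP nb_eq prod_pf nb_coprime Dl Dl_mem lab lab_eq Dl_lab sum_Tup prod_Dl sg sg_sg0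
  sgn_nb Jr_dvd_ne ind lk Sym_Dl Dl_inj prod_ind avg Jr_nb_right)
open AT (k1)

/-- the local conditions; `E` is the set of the primes with negative sign -/
def LE (κ : Fin 3 → ℤ) (E : Finset ℕ) (p : ℕ) (v w h g : Bool) : Prop :=
  LL 3 κ (decide (p ∈ E)) p v w h g

/-- the average over the signs of the `k`-th power of the Selmer count -/
noncomputable def NBk (k : ℕ) (κ : Fin 3 → ℤ) (s : ℕ) : ℝ :=
  (1 / 2) ^ s.primeFactors.card * ∑ E ∈ s.primeFactors.powerset, (NL s (LE κ E) : ℝ) ^ k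

namespace XP

/-- the vectors -/
abbrev Vk (k : ℕ) : Type := Fin k → Bool × Bool

/-- bits -/
def bz (b : Bool) : ZMod 2 := if b = true then 1 else 0

/-- the pairing of two pairs of bits -/
def dt (x v : Bool × Bool) : ZMod 2 := bz x.1 * bz v.1 + bz x.2 * bz v.2

/-- the pairing -/
def dot {k : ℕ} (x v : Vk k) : ZMod 2 := ∑ l, dt (x l) (v l)

/-- the sign -/
noncomputable def sz (a : ZMod 2) : ℝ := if a = 0 then 1 else -1

lemma zmod2 (a : ZMod 2) : a = 0 ∨ a = 1 := by
  revert a; decide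

lemma sz_zero : sz 0 = 1 := by simp [sz]

lemma sz_one : sz 1 = -1 := by simp [sz]

lemma sz_add (a b : ZMod 2) : sz (a + b) = sz a * sz b := by
  have h11 : (1 : ZMod 2) + 1 = 0 := by decide
  rcases zmod2 a with rfl | rfl <;> rcases zmod2 b with rfl | rfl <;>
    simp [sz_zero, sz_one, h11]

lemma sz_sum {α : Type*} (s : Finset α) (f : α → ZMod 2) : sz (∑ i ∈ s, f i) = ∏ i ∈ s, sz (f i) := by
  classical
  induction s using Finset.induction_on with
  | empty => simp [sz_zero]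
  | insert a s ha ih => rw [sum_insert ha, prod_insert ha, sz_add, ih]

/-- the index set -/
def Ik (k : ℕ) : Type := {i : Vk k × Vk k // dot i.2 i.1 = 0}

instance (k : ℕ) : Fintype (Ik k) := by unfold Ik; infer_instance

instance (k : ℕ) : DecidableEq (Ik k) := by unfold Ik; infer_instance

/-- the link -/
def Lk {k : ℕ} (i i' : Ik k) : Bool := decide (dot i'.1.2 i.1.1 ≠ 0)

/-- the constant for one coordinate -/
def kq (κ : Fin 3 → ℤ) (v x : Bool × Bool) : ℤ :=
  (if x.1 = true then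
    (if v = (true, false) then κ 0 else if v = (false, true) then κ 0 * κ 1
      else if v = (true, true) then κ 1 else 1) else 1) *
  (if x.2 = true then
    (if v = (true, false) then κ 0 * κ 2 else if v = (false, true) then -κ 0
      else if v = (true, true) then -κ 2 else 1) else 1)

/-- the constants -/
def κk {k : ℕ} (κ : Fin 3 → ℤ) (i : Ik k) : ℤ := ∏ l, kq κ (i.1.1 l) (i.1.2 l)

lemma one_id (κ : Fin 3 → ℤ) {p : ℕ} (hp : p.Prime) (hk : ∀ i, ¬ (p : ℤ) ∣ κ i) (neg : Bool)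
    (v : Bool × Bool) (h g : Bool) :
    ind (LL 3 κ neg p v.1 v.2 h g) =
      ∑ x : Bool × Bool, 1 / 4 * Jr (kq κ v x) p * (if neg = true then sz (dt x v) else 1) *
        ((if x.1 = true then sg h else 1) * (if x.2 = true then sg g else 1)) := by
  have hmul : ∀ i j, ¬ (p : ℤ) ∣ κ i * κ j := by
    intro i j hd
    rcases (Nat.prime_iff_prime_int.1 hp).dvd_or_dvd hd with h' | h'
    · exact hk i h'
    · exact hk j h'
  have hneg : ∀ i, ¬ (p : ℤ) ∣ -κ i := fun i h' => hk i ((dvd_neg).1 h')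
  have hm : ∀ a b : ℤ, Jr (a * b) p = Jr a p * Jr b p := fun a b => Jr_mul_left a b p
  have e1 : Jr (κ 0 * κ 2) p = sg (sg0 p (κ 0 * κ 2)) := Jr_dvd_ne hp (hmul 0 2)
  have e2 : Jr (κ 0 * κ 1) p = sg (sg0 p (κ 0 * κ 1)) := Jr_dvd_ne hp (hmul 0 1)
  have e3 : Jr (κ 0) p = sg (sg0 p (κ 0)) := Jr_dvd_ne hp (hk 0)
  have e4 : Jr (-κ 0) p = sg (sg0 p (-κ 0)) := Jr_dvd_ne hp (hneg 0)
  have e5 : Jr (κ 1) p = sg (sg0 p (κ 1)) := Jr_dvd_ne hp (hk 1)
  have e6 : Jr (-κ 2) p = sg (sg0 p (-κ 2)) := Jr_dvd_ne hp (hneg 2)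
  have e7 : Jr 1 p = 1 := Jr_one_left p
  have h11 : (1 : ZMod 2) + 1 = 0 := by decide
  obtain ⟨v1, v2⟩ := v
  simp only [Fintype.sum_prod_type, Fintype.sum_bool, kq, hm]
  cases v1 <;> cases v2 <;>
    simp [e1, e2, e3, e4, e5, e6, e7, LL, ind, dt, bz, sz_zero, sz_one, h11] <;>
    generalize sg0 p (κ 0) = a1 <;> generalize sg0 p (κ 0 * κ 2) = a2 <;>
    generalize sg0 p (κ 0 * κ 1) = a3 <;> generalize sg0 p (-κ 0) = a4 <;>
    generalize sg0 p (κ 1) = a5 <;> generalize sg0 p (-κ 2) = a6 <;>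
    cases neg <;> cases h <;> cases g <;> cases a1 <;> cases a2 <;> cases a3 <;> cases a4 <;>
      cases a5 <;> cases a6 <;> simp [sg] <;> norm_num

lemma Jr_prod {α : Type*} (s : Finset α) (f : α → ℤ) (n : ℕ) :
    Jr (∏ i ∈ s, f i) n = ∏ i ∈ s, Jr (f i) n := by
  classical
  induction s using Finset.induction_on with
  | empty => simp [AT.Jr_one_left]
  | insert a s ha ih => rw [prod_insert ha, prod_insert ha, Jr_mul_left, ih]

/-- the local identity -/
lemma loc_id {k : ℕ} (κ : Fin 3 → ℤ) {p : ℕ} (hp : p.Prime) (hk : ∀ i, ¬ (p : ℤ) ∣ κ i)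
    (v : Vk k) (h g : Fin k → Bool) :
    (∏ l, ind (LL 3 κ true p (v l).1 (v l).2 (h l) (g l)) +
      ∏ l, ind (LL 3 κ false p (v l).1 (v l).2 (h l) (g l))) / 2 =
      ∑ x : Vk k, if dot x v = 0 then (1 / 4) ^ k * Jr (∏ l, kq κ (v l) (x l)) p *
        ∏ l, ((if (x l).1 = true then sg (h l) else 1) * (if (x l).2 = true then sg (g l) else 1))
        else 0 := by
  have h1 : ∀ neg : Bool, ∏ l, ind (LL 3 κ neg p (v l).1 (v l).2 (h l) (g l)) =
      ∑ x : Vk k, (1 / 4) ^ k * Jr (∏ l, kq κ (v l) (x l)) p *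
        (if neg = true then sz (dot x v) else 1) *
        ∏ l, ((if (x l).1 = true then sg (h l) else 1) * (if (x l).2 = true then sg (g l) else 1)) := by
    intro neg
    rw [prod_congr rfl fun l _ => one_id κ hp hk neg (v l) (h l) (g l)]
    rw [Finset.prod_univ_sum]
    rw [Fintype.piFinset_univ]
    refine sum_congr rfl fun x _ => ?_
    rw [prod_mul_distrib, prod_mul_distrib, prod_mul_distrib, prod_const, Jr_prod]
    have h2 : ∏ l : Fin k, (if neg = true then sz (dt (x l) (v l)) else 1) =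
        if neg = true then sz (dot x v) else 1 := by
      cases neg
      · simp
      · simp only [if_true]
        unfold dot
        rw [sz_sum]
    rw [h2]
    simp only [card_univ, Fintype.card_fin]
  rw [h1, h1, ← sum_add_distrib, sum_div]
  refine sum_congr rfl fun x _ => ?_
  simp only [if_true, Bool.false_eq_true, if_false]
  rcases zmod2 (dot x v) with h2 | h2
  · rw [h2, sz_zero, if_pos rfl]
    ring
  · rw [h2, sz_one, if_neg (by decide)]
    ring

end XP

end Run7.h69
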