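import Mathlib
import Pool.Agent.Run7.h69.XP

/-!
# The largest unlinked set
-/

set_option autoImplicit false
set_option linter.unusedSectionVars false

namespace Run7.h69

open Finset

namespace XP

lemma four (x x' : Bool × Bool) :
    ∑ v : Bool × Bool, sz (dt x v) * sz (dt x' v) = if x = x' then 4 else 0 := by
  have h11 : (1 : ZMod 2) + 1 = 0 := by decide
  obtain ⟨x1, x2⟩ := x
  obtain ⟨x3, x4⟩ := x'
  simp only [Fintype.sum_prod_type, Fintype.sum_bool, dt, bz]
  cases x1 <;> cases x2 <;> cases x3 <;> cases x4 <;>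
    simp [sz_zero, sz_one, h11] <;> norm_num

lemma dt_comm (x v : Bool × Bool) : dt x v = dt v x := by
  unfold dt
  ring

lemma sz_dot {k : ℕ} (x v : Vk k) : sz (dot x v) = ∏ l, sz (dt (x l) (v l)) := by
  unfold dot
  exact sz_sum _ _

lemma fourk {k : ℕ} (x x' : Vk k) :
    ∑ v : Vk k, sz (dot x v) * sz (dot x' v) = if x = x' then 4 ^ k else 0 := by
  have h1 : ∀ v : Vk k, sz (dot x v) * sz (dot x' v) =
      ∏ l, (sz (dt (x l) (v l)) * sz (dt (x' l) (v l))) := by
    intro v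
    rw [sz_dot, sz_dot, ← prod_mul_distrib]
  rw [sum_congr rfl fun v _ => h1 v]
  have h2 := Finset.prod_univ_sum (fun _ : Fin k => (univ : Finset (Bool × Bool)))
    (fun l w => sz (dt (x l) w) * sz (dt (x' l) w))
  rw [Fintype.piFinset_univ] at h2
  rw [← h2]
  rw [prod_congr rfl fun l _ => four (x l) (x' l)]
  by_cases h : x = x'
  · rw [if_pos h, h]
    simp
  · rw [if_neg h]
    have : ∃ l, x l ≠ x' l := by
      by_contra hcon
      push Not at hcon
      exact h (funext hcon)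
    obtain ⟨l, hl⟩ := this
    exact prod_eq_zero (mem_univ l) (if_neg hl)

/-- the sign of the alternating pairing -/
noncomputable def Ms {k : ℕ} (u w : Vk k × Vk k) : ℝ := sz (dot u.2 w.1) * sz (dot w.2 u.1)

lemma dot_comm {k : ℕ} (x v : Vk k) : dot x v = dot v x := by
  unfold dot
  exact sum_congr rfl fun l _ => dt_comm _ _

lemma Ms_orth {k : ℕ} (u u' : Vk k × Vk k) :
    ∑ w : Vk k × Vk k, Ms u w * Ms u' w = if u = u' then 16 ^ k else 0 := by
  have h1 : ∀ w : Vk k × Vk k, Ms u w * Ms u' w =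
      (sz (dot u.2 w.1) * sz (dot u'.2 w.1)) * (sz (dot u.1 w.2) * sz (dot u'.1 w.2)) := by
    intro w
    unfold Ms
    rw [dot_comm w.2 u.1, dot_comm w.2 u'.1]
    ring
  rw [sum_congr rfl fun w _ => h1 w, Fintype.sum_prod_type]
  simp only
  rw [← sum_mul_sum, fourk, fourk]
  by_cases h2 : u.2 = u'.2
  · by_cases h3 : u.1 = u'.1
    · have h4 : u = u' := Prod.ext h3 h2
      rw [if_pos h2, if_pos h3, if_pos h4, ← mul_pow]
      norm_num
    · have h4 : u ≠ u' := fun h => h3 (by rw [h])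
      rw [if_neg h3, if_neg h4, mul_zero]
  · have h4 : u ≠ u' := fun h => h2 (by rw [h])
    rw [if_neg h2, if_neg h4, zero_mul]

/-- the largest unlinked set -/
theorem comb {k : ℕ} (U : Finset (Ik k)) (hU : ∀ i ∈ U, ∀ j ∈ U, Lk i j = Lk j i) :
    U.card ≤ 4 ^ k := by
  classical
  have hM : ∀ i ∈ U, ∀ j ∈ U, Ms i.1 j.1 = 1 := by
    intro i hi j hj
    have h := hU i hi j hj
    unfold Lk at h
    have h2 : dot j.1.2 i.1.1 = dot i.1.2 j.1.1 := by
      have h3 := decide_eq_decide.1 h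
      rcases zmod2 (dot j.1.2 i.1.1) with h4 | h4 <;> rcases zmod2 (dot i.1.2 j.1.1) with h5 | h5
      · rw [h4, h5]
      · rw [h4, h5] at h3
        exact absurd (h3.2 (by decide)) (by simp)
      · rw [h4, h5] at h3
        exact absurd (h3.1 (by decide)) (by simp)
      · rw [h4, h5]
    unfold Ms
    rw [h2]
    rcases zmod2 (dot i.1.2 j.1.1) with h5 | h5 <;> rw [h5]
    · rw [sz_zero]; norm_num
    · rw [sz_one]; norm_num
  set S : Vk k × Vk k → ℝ := fun w => ∑ i ∈ U, Ms i.1 w with hS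
  have h1 : ∑ w ∈ U, S w.1 = (U.card : ℝ) ^ 2 := by
    have : ∀ w ∈ U, S w.1 = U.card := by
      intro w hw
      simp only [hS]
      rw [sum_congr rfl fun i hi => hM i hi w hw]
      simp
    rw [sum_congr rfl this]
    simp
    ring
  have h2 : ∑ w : Vk k × Vk k, S w ^ 2 = 16 ^ k * (U.card : ℝ) := by
    have e1 : ∀ w, S w ^ 2 = ∑ i ∈ U, ∑ j ∈ U, Ms i.1 w * Ms j.1 w := by
      intro w
      simp only [hS]
      rw [sq, sum_mul_sum]
    rw [sum_congr rfl fun w _ => e1 w, sum_comm]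
    rw [sum_congr rfl fun i _ => sum_comm]
    have e2 : ∀ i ∈ U, ∑ j ∈ U, ∑ w : Vk k × Vk k, Ms i.1 w * Ms j.1 w = 16 ^ k := by
      intro i hi
      rw [sum_congr rfl fun j _ => Ms_orth i.1 j.1, sum_eq_single i]
      · rw [if_pos rfl]
      · intro j _ hji
        rw [if_neg]
        intro h
        exact hji (Subtype.ext h.symm)
      · intro h
        exact absurd hi h
    rw [sum_congr rfl e2]
    simp
    ring
  have h3 : (∑ w ∈ U, S w.1) ^ 2 ≤ U.card * ∑ w ∈ U, S w.1 ^ 2 := by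
    exact sq_sum_le_card_mul_sum_sq
  have h4 : ∑ w ∈ U, S w.1 ^ 2 ≤ ∑ w : Vk k × Vk k, S w ^ 2 := by
    have e1 : ∑ w ∈ U, S w.1 ^ 2 = ∑ w ∈ U.image (fun i : Ik k => i.1), S w ^ 2 := by
      rw [sum_image]
      intro i _ j _ hij
      exact Subtype.ext hij
    rw [e1]
    exact sum_le_sum_of_subset_of_nonneg (subset_univ _) fun w _ _ => sq_nonneg _
  rw [h1] at h3
  rw [h2] at h4
  have h5 : ((U.card : ℝ) ^ 2) ^ 2 ≤ U.card * (16 ^ k * U.card) :=
    h3.trans (mul_le_mul_of_nonneg_left h4 (Nat.cast_nonneg _))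
  rcases Nat.eq_zero_or_pos U.card with h6 | h6
  · rw [h6]; positivity
  have h7 : (0 : ℝ) < U.card := by exact_mod_cast h6
  have h8 : (U.card : ℝ) ^ 2 ≤ 16 ^ k := by
    have h9 : (U.card : ℝ) ^ 2 * (U.card : ℝ) ^ 2 ≤ 16 ^ k * (U.card : ℝ) ^ 2 := by nlinarith
    exact le_of_mul_le_mul_right h9 (by positivity)
  have h10 : (U.card : ℝ) ^ 2 ≤ ((4 : ℝ) ^ k) ^ 2 := by
    calc (U.card : ℝ) ^ 2 ≤ 16 ^ k := h8
      _ = ((4 : ℝ) ^ k) ^ 2 := by rw [← pow_mul, mul_comm k 2, pow_mul]; norm_num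
  have h11 : (U.card : ℝ) ≤ (4 : ℝ) ^ k := le_of_sq_le_sq h10 (by positivity)
  exact_mod_cast h11

end XP

end Run7.h69
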