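import Mathlib
import Pool.Agent.Run7.h69.AT1

/-! The abstract bound for linked variables with general weights: the cases. -/

set_option autoImplicit false
set_option linter.unusedSectionVars false

namespace Run7.h69

open Finset
open Pool.Agent.W262.RK hiding LL ff s1 s2
open Pool.Agent.W262.RK.AT (VV YY VV_ge three_le_VV VV_le_YY one_le_log_VV VV_le log_YY_ge log_YY_le
  log_VV_le log_VV_pow_le exp_neg_pow hh_mul_le hh_prod_le lk_primes squarefree_prod sum_others
  BW lg)

namespace AT

variable {ι : Type} [Fintype ι] [DecidableEq ι]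

variable {e : ι → ℝ} {a b : ι → ℕ → ℝ} {L : ι → ι → Bool} {z B : ℕ} {C : ℝ}

lemma gb_le_hh (hB : Bd e a b z C B) (i : ι) {y m : ℕ} (hm : m ∈ (PP z y).divisors) :
    gm (b i) m ≤ gm (b i) m * hh m :=
  le_mul_of_one_le_right (hB.gb0 i hm) (one_le_hh m)

/-- the sum over one large variable with a nonprincipal character -/
lemma inner (hB : Bd e a b z C B) (i : ι) (hL : L i i = false) {y V Y : ℕ} (hy : z < y)
    (hV : 3 ≤ V) (hVY : V ≤ Y) {v : ι → ℕ} (hv : ∀ k, v k ∈ (PP z y).divisors)
    (hr : 1 < lk L i v) :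
    |∑ m ∈ (PP z y).divisors.filter (fun m => V < m ∧ m ≤ Y), HH a L (Function.update v i m)| ≤
      (∏ k ∈ univ.erase i, gm (b k) (v k) * hh (v k)) *
        (C * (1 + Real.log (lk L i v)) ^ B + C * (Real.log V) ^ (e i) +
          C * Real.exp (-(Real.log Y / Real.log y)) * (Real.log y) ^ 2) := by
  have hC0 : 0 ≤ C := zero_le_one.trans hB.C1
  have hV' : 0 ≤ Real.log V := Real.log_natCast_nonneg V
  have hr' : 0 ≤ Real.log (lk L i v) := Real.log_natCast_nonneg _
  have hP0 : 0 ≤ ∏ k ∈ univ.erase i, gm (b k) (v k) * hh (v k) :=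
    prod_nonneg fun k _ => mul_nonneg (hB.gb0 k (hv k)) (hh_nonneg _)
  have hB0 : 0 ≤ C * (1 + Real.log (lk L i v)) ^ B + C * (Real.log V) ^ (e i) +
      C * Real.exp (-(Real.log Y / Real.log y)) * (Real.log y) ^ 2 := by positivity
  rcases HH_update (a := a) i hL hB.z2 hv with h | ⟨hcop, t, ht⟩
  · rw [sum_eq_zero fun m _ => h m, abs_zero]
    exact mul_nonneg hP0 hB0
  · set R := ∏ k ∈ univ.erase i, v k with hR
    set P := ∏ k ∈ univ.erase i, gm (a k) (v k) with hP
    set P' := ∏ k ∈ univ.erase i, gm (b k) (v k) with hP'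
    set f : ℕ → ℝ := fun m => gm (a i) m * (Jr m (lk L i v) * x4 t m) with hf
    have hPn : 0 ≤ P' := prod_nonneg fun k _ => hB.gb0 k (hv k)
    have hPP : |P| ≤ P' := by
      rw [hP, hP', abs_prod]
      exact prod_le_prod (fun _ _ => abs_nonneg _) fun k _ => hB.gab k (hv k)
    have hRne : R ≠ 0 := prod_ne_zero_iff.2 fun k _ => dv_ne_zero (hv k)
    have h1 : ∑ m ∈ (PP z y).divisors.filter (fun m => V < m ∧ m ≤ Y),
        HH a L (Function.update v i m) =
        P * RR L k1 i v * ∑ m ∈ ((PP z y).divisors.filter (fun m => m.Coprime R)).filter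
          (fun m => V < m ∧ m ≤ Y), f m := by
      rw [filter_filter, mul_sum]
      have h2 : (PP z y).divisors.filter (fun m => m.Coprime R ∧ V < m ∧ m ≤ Y) =
          ((PP z y).divisors.filter (fun m => V < m ∧ m ≤ Y)).filter (fun m => m.Coprime R) := by
        rw [filter_filter]
        apply filter_congr
        intro m _
        tauto
      rw [h2]
      symm
      rw [sum_filter]
      apply sum_congr rfl
      intro m hm
      rw [ht m (mem_filter.1 hm).1]
    set D := (PP z y).divisors.filter (fun m => m.Coprime R) with hD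
    have hDs : D ⊆ (PP z y).divisors := filter_subset _ _
    have h3 : ∑ m ∈ D.filter (fun m => V < m ∧ m ≤ Y), f m =
        ∑ m ∈ D, f m - ∑ m ∈ D.filter (fun m => m ≤ V), f m - ∑ m ∈ D.filter (fun m => Y < m), f m := by
      have e1 : ∑ m ∈ D.filter (fun m => V < m ∧ m ≤ Y), f m + ∑ m ∈ D.filter (fun m => Y < m), f m =
          ∑ m ∈ D.filter (fun m => ¬ m ≤ V), f m := by
        rw [← sum_union]
        · apply sum_congr _ (fun _ _ => rfl)
          ext m
          simp only [mem_union, mem_filter]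
          constructor
          · rintro (⟨h1, h2, h3⟩ | ⟨h1, h2⟩)
            · exact ⟨h1, by omega⟩
            · exact ⟨h1, by omega⟩
          · rintro ⟨h1, h2⟩
            by_cases h3 : m ≤ Y
            · exact Or.inl ⟨h1, by omega, h3⟩
            · exact Or.inr ⟨h1, by omega⟩
        · rw [disjoint_filter]
          intro m _ h1 h2
          omega
      have e2 := sum_filter_add_sum_filter_not D (fun m => m ≤ V) f
      linarith
    have hfa : ∀ m ∈ (PP z y).divisors, |f m| ≤ gm (b i) m * hh m := by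
      intro m hm
      have g0 := hB.gb0 i hm
      rw [hf]
      simp only
      rw [abs_mul]
      have : |Jr m (lk L i v) * x4 t m| ≤ 1 := by
        rw [abs_mul]
        exact mul_le_one₀ (abs_Jr_le _ _) (abs_nonneg _) (abs_x4_le _ _)
      calc |gm (a i) m| * |Jr m (lk L i v) * x4 t m| ≤ gm (b i) m * 1 :=
            mul_le_mul (hB.gab i hm) this (abs_nonneg _) g0
        _ ≤ gm (b i) m * hh m := mul_le_mul_of_nonneg_left (one_le_hh m) g0
    have hnn : ∀ m ∈ (PP z y).divisors, 0 ≤ gm (b i) m * hh m := fun m hm =>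
      mul_nonneg (hB.gb0 i hm) (hh_nonneg _)
    have h4 : |∑ m ∈ D.filter (fun m => m ≤ V), f m| ≤ C * (Real.log V) ^ (e i) := by
      refine (abs_sum_le_sum_abs _ _).trans ?_
      refine le_trans ?_ (hB.F2 i y V hy hV)
      calc ∑ m ∈ D.filter (fun m => m ≤ V), |f m| ≤ ∑ m ∈ D.filter (fun m => m ≤ V),
            gm (b i) m * hh m := sum_le_sum fun m hm => hfa m (hDs (mem_filter.1 hm).1)
        _ ≤ _ := sum_le_sum_of_subset_of_nonneg (filter_subset_filter _ hDs)
          fun m hm _ => hnn m (mem_filter.1 hm).1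
    have h5 : |∑ m ∈ D.filter (fun m => Y < m), f m| ≤
        C * Real.exp (-(Real.log Y / Real.log y)) * (Real.log y) ^ 2 := by
      refine (abs_sum_le_sum_abs _ _).trans ?_
      refine le_trans ?_ (hB.F3 i y Y hy (by omega))
      calc ∑ m ∈ D.filter (fun m => Y < m), |f m| ≤ ∑ m ∈ D.filter (fun m => Y < m),
            gm (b i) m * hh m := sum_le_sum fun m hm => hfa m (hDs (mem_filter.1 hm).1)
        _ ≤ _ := sum_le_sum_of_subset_of_nonneg (filter_subset_filter _ hDs)
          fun m hm _ => hnn m (mem_filter.1 hm).1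
    have hsq : Squarefree (lk L i v) := by
      unfold lk
      apply squarefree_prod
      · intro k _
        exact dv_squarefree (hv k)
      · intro j hj k hk hjk
        exact hcop j k (mem_erase.1 (mem_filter.1 hj).1).1 (mem_erase.1 (mem_filter.1 hk).1).1 hjk
    have h6 : |∑ m ∈ D, f m| ≤ C * (1 + Real.log (lk L i v)) ^ B * hh R :=
      hB.E i y R (lk L i v) t hy hRne hr hsq fun p hp hpr => lk_primes hv hp hpr
    have h7 : hh R ≤ ∏ k ∈ univ.erase i, hh (v k) :=
      hh_prod_le _ _ fun k _ => dv_ne_zero (hv k)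
    have h8 : (1 : ℝ) ≤ ∏ k ∈ univ.erase i, hh (v k) := by
      calc (1 : ℝ) = ∏ k ∈ univ.erase i, (1 : ℝ) := by simp
        _ ≤ _ := prod_le_prod (fun _ _ => zero_le_one) fun k _ => one_le_hh _
    have hRR := abs_RR_le L k1 i v
    rw [h1, abs_mul, abs_mul, prod_mul_distrib]
    set H := ∏ k ∈ univ.erase i, hh (v k) with hH
    have h9 : |∑ m ∈ D.filter (fun m => V < m ∧ m ≤ Y), f m| ≤
        H * (C * (1 + Real.log (lk L i v)) ^ B + C * (Real.log V) ^ (e i) +
          C * Real.exp (-(Real.log Y / Real.log y)) * (Real.log y) ^ 2) := by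
      rw [h3]
      have a1 : |∑ m ∈ D, f m - ∑ m ∈ D.filter (fun m => m ≤ V), f m -
          ∑ m ∈ D.filter (fun m => Y < m), f m| ≤ |∑ m ∈ D, f m| +
          |∑ m ∈ D.filter (fun m => m ≤ V), f m| + |∑ m ∈ D.filter (fun m => Y < m), f m| := by
        refine (abs_sub _ _).trans ?_
        have := abs_sub (∑ m ∈ D, f m) (∑ m ∈ D.filter (fun m => m ≤ V), f m)
        linarith
      have b1 : 0 ≤ C * (1 + Real.log (lk L i v)) ^ B := by positivity
      have b2 : 0 ≤ C * (Real.log V) ^ (e i) := by positivity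
      have b3 : 0 ≤ C * Real.exp (-(Real.log Y / Real.log y)) * (Real.log y) ^ 2 := by positivity
      have a2 : |∑ m ∈ D, f m| ≤ H * (C * (1 + Real.log (lk L i v)) ^ B) := by
        refine h6.trans ?_
        rw [mul_comm]
        exact mul_le_mul_of_nonneg_right h7 b1
      have a3 := le_mul_of_one_le_left b2 h8
      have a4 := le_mul_of_one_le_left b3 h8
      calc _ ≤ _ := a1
        _ ≤ H * (C * (1 + Real.log (lk L i v)) ^ B) + H * (C * (Real.log V) ^ (e i)) +
            H * (C * Real.exp (-(Real.log Y / Real.log y)) * (Real.log y) ^ 2) := by linarith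
        _ = _ := by ring
    have hX : 0 ≤ C * (1 + Real.log (lk L i v)) ^ B + C * (Real.log V) ^ (e i) +
          C * Real.exp (-(Real.log Y / Real.log y)) * (Real.log y) ^ 2 := hB0
    calc |P| * |RR L k1 i v| * |∑ m ∈ D.filter (fun m => V < m ∧ m ≤ Y), f m|
        ≤ P' * 1 * (H * (C * (1 + Real.log (lk L i v)) ^ B + C * (Real.log V) ^ (e i) +
          C * Real.exp (-(Real.log Y / Real.log y)) * (Real.log y) ^ 2)) := by
          apply mul_le_mul (mul_le_mul hPP hRR (abs_nonneg _) hPn) h9 (abs_nonneg _)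
          positivity
      _ = _ := by ring

/-- the case of a maximal unlinked set of large variables and a small linked variable -/
lemma char_case (hB : Bd e a b z C B) (i : ι) (hL : L i i = false) {y V Y : ℕ} (hy : z < y)
    (hV : 3 ≤ V) (hVY : V ≤ Y) {t : ι → Finset ℕ} (ht : ∀ k, t k ⊆ (PP z y).divisors)
    (hti : t i = (PP z y).divisors.filter (fun m => V < m ∧ m ≤ Y)) (M : ℕ)
    (hlk : ∀ v ∈ Fintype.piFinset (Function.update t i {1}), 1 < lk L i v ∧ lk L i v ≤ V ^ M) :
    |∑ d ∈ Fintype.piFinset t, HH a L d| ≤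
      (∏ k ∈ univ.erase i, ∑ m ∈ t k, gm (b k) m * hh m) *
        (C * (1 + M * Real.log V) ^ B + C * (Real.log V) ^ (e i) +
          C * Real.exp (-(Real.log Y / Real.log y)) * (Real.log y) ^ 2) := by
  have hC0 : 0 ≤ C := zero_le_one.trans hB.C1
  have hV' : 0 ≤ Real.log V := Real.log_natCast_nonneg V
  rw [sum_update t i]
  refine (abs_sum_le_sum_abs _ _).trans ?_
  rw [← sum_others i t (fun k m => gm (b k) m * hh m), sum_mul]
  apply sum_le_sum
  intro v hv
  obtain ⟨hr1, hr2⟩ := hlk v hv
  have hv' : ∀ k, v k ∈ (PP z y).divisors := by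
    intro k
    have := Fintype.mem_piFinset.1 hv k
    by_cases hb : k = i
    · subst hb
      rw [Function.update_self, mem_singleton] at this
      rw [this]
      exact one_mem_dv z y
    · rw [Function.update_of_ne hb] at this
      exact ht k this
  rw [hti]
  refine (inner hB i hL hy hV hVY hv' hr1).trans ?_
  apply mul_le_mul_of_nonneg_left
  · have h1 : Real.log (lk L i v) ≤ M * Real.log V := by
      rw [← Real.log_pow]
      apply Real.log_le_log (by exact_mod_cast (by omega : 0 < lk L i v))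
      exact_mod_cast hr2
    have h0 : 0 ≤ Real.log (lk L i v) := Real.log_natCast_nonneg _
    have h2 : (1 + Real.log (lk L i v)) ^ B ≤ (1 + M * Real.log V) ^ B :=
      pow_le_pow_left₀ (by linarith) (by linarith) B
    have h3 := mul_le_mul_of_nonneg_left h2 hC0
    linarith
  · exact prod_nonneg fun k _ => mul_nonneg (hB.gb0 k (hv' k)) (hh_nonneg _)

end AT

end Run7.h69
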