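import Mathlib
import Pool.Agent.Run7.h69.AT2

/-! The abstract bound for linked variables with general weights: two linked large variables. -/

set_option autoImplicit false
set_option linter.unusedSectionVars false

namespace Run7.h69

open Finset
open Pool.Agent.W262.RK hiding LL ff s1 s2
open Pool.Agent.W262.RK.AT (VV YY VV_ge three_le_VV VV_le_YY one_le_log_VV VV_le log_YY_ge log_YY_le
  log_VV_le log_VV_pow_le exp_neg_pow hh_mul_le hh_prod_le lk_primes squarefree_prod sum_others
  BW lg)

namespace AT

variable {ι : Type} [Fintype ι] [DecidableEq ι]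

variable {e : ι → ℝ} {a b : ι → ℕ → ℝ} {L : ι → ι → Bool} {z B : ℕ} {C : ℝ}

/-- the summand as a function of two linked variables -/
lemma HH_pair (hB : Bd e a b z C B) {i j : ι} (hij : i ≠ j) (hLi : L i i = false)
    (hL1 : L i j = true) (hL2 : L j i = false) {y : ℕ} {v : ι → ℕ}
    (hv : ∀ k, v k ∈ (PP z y).divisors) :
    ∃ (q : ℝ) (f g : ℕ → ℝ), |q| ≤ ∏ k ∈ (univ.erase i).erase j, gm (b k) (v k) ∧
      (∀ m, |f m| ≤ 1) ∧ (∀ m, |g m| ≤ 1) ∧
      ∀ m ∈ (PP z y).divisors, ∀ n ∈ (PP z y).divisors,
        HH a L (Function.update (Function.update v j n) i m) =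
          q * (gm (a i) m * f m) * (gm (a j) n * g n) * Jr m n := by
  classical
  have hjm : j ∈ univ.erase i := mem_erase.2 ⟨hij.symm, mem_univ j⟩
  set q : ℝ := if (∀ k l, k ≠ i → l ≠ i → k ≠ j → l ≠ j → k ≠ l → (v k).Coprime (v l)) then
    ∏ k ∈ (univ.erase i).erase j, gm (a k) (v k) else 0 with hq
  set X' : ℕ → ℝ := fun m => ∏ k ∈ (univ.erase i).erase j,
    (if L i k then Jr m (v k) else 1) * (if L k i then Jr (v k) m else 1) with hX'
  set f : ℕ → ℝ := fun m => if (∀ k, k ≠ i → k ≠ j → m.Coprime (v k)) then X' m * Jr (k1 i) m else 0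
    with ha
  set g : ℕ → ℝ := fun n => if (∀ k, k ≠ i → k ≠ j → n.Coprime (v k)) then
    RR L k1 i (Function.update v j n) else 0 with hb
  have hP0 : 0 ≤ ∏ k ∈ (univ.erase i).erase j, gm (b k) (v k) :=
    prod_nonneg fun k _ => hB.gb0 k (hv k)
  refine ⟨q, f, g, ?_, ?_, ?_, ?_⟩
  · rw [hq]
    split_ifs
    · rw [abs_prod]
      exact prod_le_prod (fun _ _ => abs_nonneg _) fun k _ => hB.gab k (hv k)
    · simpa using hP0
  · intro m
    rw [ha]
    simp only
    split_ifs
    · rw [abs_mul]
      apply mul_le_one₀ _ (abs_nonneg _) (abs_Jr_le _ _)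
      rw [hX']
      apply abs_prod_le_one
      intro k _
      rw [abs_mul]
      exact mul_le_one₀ (abs_ite_Jr _ _ _) (abs_nonneg _) (abs_ite_Jr _ _ _)
    · simp
  · intro n
    rw [hb]
    simp only
    split_ifs
    · exact abs_RR_le _ _ _ _
    · simp
  · intro m hm n hn
    have hm0 := dv_ne_zero hm
    have hn0 := dv_ne_zero hn
    by_cases hmn : m.Coprime n
    · have hXX : XX L i (Function.update v j n) m = Jr m n * X' m := by
        unfold XX
        rw [← mul_prod_erase _ _ hjm, Function.update_self, hL1, hL2]
        simp only [if_true, Bool.false_eq_true, if_false, mul_one]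
        rw [hX']
        congr 1
        apply prod_congr rfl
        intro k hk
        rw [Function.update_of_ne (mem_erase.1 hk).1]
      have hgw : ∏ k, gm (a k) (Function.update (Function.update v j n) i m k) =
          gm (a i) m * (gm (a j) n * ∏ k ∈ (univ.erase i).erase j, gm (a k) (v k)) := by
        rw [← mul_prod_erase univ _ (mem_univ i), Function.update_self]
        congr 1
        rw [← mul_prod_erase _ _ hjm, Function.update_of_ne hij.symm, Function.update_self]
        congr 1
        apply prod_congr rfl
        intro k hk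
        have h1 := mem_erase.1 hk
        rw [Function.update_of_ne (mem_erase.1 h1.2).1, Function.update_of_ne h1.1]
      have hcond : (∀ k l, k ≠ l → (Function.update (Function.update v j n) i m k).Coprime
          (Function.update (Function.update v j n) i m l)) ↔
          (∀ k l, k ≠ i → l ≠ i → k ≠ j → l ≠ j → k ≠ l → (v k).Coprime (v l)) ∧
          (∀ k, k ≠ i → k ≠ j → m.Coprime (v k)) ∧ (∀ k, k ≠ i → k ≠ j → n.Coprime (v k)) := by
        constructor
        · intro h
          refine ⟨?_, ?_, ?_⟩
          · intro k l h1 h2 h3 h4 h5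
            have := h k l h5
            rwa [Function.update_of_ne h1, Function.update_of_ne h3, Function.update_of_ne h2,
              Function.update_of_ne h4] at this
          · intro k h1 h2
            have := h i k h1.symm
            rwa [Function.update_self, Function.update_of_ne h1, Function.update_of_ne h2] at this
          · intro k h1 h2
            have := h j k h2.symm
            rwa [Function.update_of_ne hij.symm, Function.update_self, Function.update_of_ne h1,
              Function.update_of_ne h2] at this
        · rintro ⟨h1, h2, h3⟩ k l hkl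
          by_cases hk : k = i
          · subst hk
            rw [Function.update_self, Function.update_of_ne hkl.symm]
            by_cases hl : l = j
            · subst hl
              rw [Function.update_self]
              exact hmn
            · rw [Function.update_of_ne hl]
              exact h2 l hkl.symm hl
          · rw [Function.update_of_ne hk]
            by_cases hl : l = i
            · subst hl
              rw [Function.update_self]
              by_cases hk' : k = j
              · subst hk'
                rw [Function.update_self]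
                exact hmn.symm
              · rw [Function.update_of_ne hk']
                exact (h2 k hk hk').symm
            · rw [Function.update_of_ne hl]
              by_cases hk' : k = j
              · subst hk'
                rw [Function.update_self, Function.update_of_ne hkl.symm]
                exact h3 l hl hkl.symm
              · rw [Function.update_of_ne hk']
                by_cases hl' : l = j
                · subst hl'
                  rw [Function.update_self]
                  exact (h3 k hk hk').symm
                · rw [Function.update_of_ne hl']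
                  exact h1 k l hk hl hk' hl' hkl
      unfold HH
      rw [sym_update L k1 i hLi, hXX, hgw]
      by_cases c1 : ∀ k l, k ≠ i → l ≠ i → k ≠ j → l ≠ j → k ≠ l → (v k).Coprime (v l)
      · by_cases c2 : ∀ k, k ≠ i → k ≠ j → m.Coprime (v k)
        · by_cases c3 : ∀ k, k ≠ i → k ≠ j → n.Coprime (v k)
          · rw [if_pos (hcond.2 ⟨c1, c2, c3⟩), hq, if_pos c1, ha, hb]
            simp only
            rw [if_pos c2, if_pos c3]
            ring
          · rw [if_neg (fun h => c3 (hcond.1 h).2.2), hb]
            simp only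
            rw [if_neg c3]
            ring
        · rw [if_neg (fun h => c2 (hcond.1 h).2.1), ha]
          simp only
          rw [if_neg c2]
          ring
      · rw [if_neg (fun h => c1 (hcond.1 h).1), hq, if_neg c1]
        ring
    · rw [Jr_eq_zero hn0 hmn, mul_zero]
      unfold HH
      rw [if_neg]
      intro h
      have := h i j hij
      rw [Function.update_self, Function.update_of_ne hij.symm, Function.update_self] at this
      exact hmn this

lemma pair_inner (hB : Bd e a b z C B) {C2 : ℝ} {E2 : ℕ} (h2 : BW C2 E2) {i j : ι} (hij : i ≠ j)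
    (hLi : L i i = false) (hL1 : L i j = true) (hL2 : L j i = false) {y V Y : ℕ} (hV : 2 ≤ V)
    (hVY : V ≤ Y) {v : ι → ℕ} (hv : ∀ k, v k ∈ (PP z y).divisors) :
    |∑ n ∈ lg z y V Y, ∑ m ∈ lg z y V Y,
        HH a L (Function.update (Function.update v j n) i m)| ≤
      (∏ k ∈ (univ.erase i).erase j, gm (b k) (v k)) *
        (C2 * (Real.log Y) ^ E2 * (V : ℝ) ^ (-(1 / 6 : ℝ))) := by
  classical
  obtain ⟨q, f, g, hq, ha, hb, h⟩ := HH_pair (L := L) hB hij hLi hL1 hL2 hv
  have hP0 : 0 ≤ ∏ k ∈ (univ.erase i).erase j, gm (b k) (v k) :=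
    prod_nonneg fun k _ => hB.gb0 k (hv k)
  set a' : ℕ → ℝ := fun m => if m ∈ lg z y V Y then gm (a i) m * f m else 0 with ha'
  set b' : ℕ → ℝ := fun m => if m ∈ lg z y V Y then gm (a j) m * g m else 0 with hb'
  have hsub : lg z y V Y ⊆ Ioc V Y := by
    intro m hm
    rw [mem_Ioc]
    exact (mem_filter.1 hm).2
  have hDv : ∀ m ∈ lg z y V Y, m ∈ (PP z y).divisors := fun m hm => (mem_filter.1 hm).1
  have bd : ∀ (k : ι) (f : ℕ → ℝ), (∀ m, |f m| ≤ 1) → ∀ m,
      |if m ∈ lg z y V Y then gm (a k) m * f m else 0| ≤ 1 / (m : ℝ) := by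
    intro k f hf m
    split_ifs with hm
    · have g0 := hB.gb0 k (hDv m hm)
      rw [abs_mul]
      calc |gm (a k) m| * |f m| ≤ gm (b k) m * 1 :=
            mul_le_mul (hB.gab k (hDv m hm)) (hf m) (abs_nonneg _) g0
        _ = gm (b k) m := mul_one _
        _ ≤ _ := hB.gb1 k (hDv m hm)
    · simp
  have od : ∀ (k : ι) (f : ℕ → ℝ) (m : ℕ),
      (if m ∈ lg z y V Y then gm (a k) m * f m else 0) ≠ 0 → Odd m ∧ Squarefree m := by
    intro k f m hm
    by_cases h1 : m ∈ lg z y V Y
    · exact ⟨dv_odd hB.z2 (hDv m h1), dv_squarefree (hDv m h1)⟩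
    · rw [if_neg h1] at hm
      exact absurd rfl hm
  have hmain := h2 V Y hV hVY a' b' (bd i f ha) (bd j g hb) (od i f) (od j g)
  have heq : ∑ n ∈ lg z y V Y, ∑ m ∈ lg z y V Y,
      HH a L (Function.update (Function.update v j n) i m) =
      q * ∑ m ∈ Ioc V Y, ∑ n ∈ Ioc V Y, a' m * b' n * Jr m n := by
    rw [sum_comm]
    have e1 : ∑ m ∈ Ioc V Y, ∑ n ∈ Ioc V Y, a' m * b' n * Jr m n =
        ∑ m ∈ lg z y V Y, ∑ n ∈ lg z y V Y, a' m * b' n * Jr m n := by
      rw [← sum_subset hsub]
      · apply sum_congr rfl
        intro m _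
        rw [← sum_subset hsub]
        intro n _ hn
        rw [hb']
        simp only
        rw [if_neg hn]
        ring
      · intro m _ hm
        apply sum_eq_zero
        intro n _
        rw [ha']
        simp only
        rw [if_neg hm]
        ring
    rw [e1, mul_sum]
    apply sum_congr rfl
    intro m hm
    rw [mul_sum]
    apply sum_congr rfl
    intro n hn
    rw [h m (hDv m hm) n (hDv n hn), ha', hb']
    simp only
    rw [if_pos hm, if_pos hn]
    ring
  rw [heq, abs_mul]
  exact mul_le_mul hq hmain (abs_nonneg _) hP0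

lemma one_le_log {z y : ℕ} (hz : 2 ≤ z) (hy : z < y) : 1 ≤ Real.log y := by
  have h3 : 3 ≤ y := by omega
  rw [Real.le_log_iff_exp_le (by exact_mod_cast (by omega : 0 < y))]
  have h1 : (3 : ℝ) ≤ y := by exact_mod_cast h3
  have h2 := Real.exp_one_lt_d9
  linarith

/-- two linked large variables -/
lemma pair_case (hB : Bd e a b z C B) {C2 : ℝ} {E2 : ℕ} (hC2 : 0 ≤ C2) (h2 : BW C2 E2) {i j : ι}
    (hij : i ≠ j) (hLi : L i i = false) (hL1 : L i j = true) (hL2 : L j i = false)
    {y V Y : ℕ} (hy : z < y) (hV : 2 ≤ V) (hVY : V ≤ Y) {t : ι → Finset ℕ}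
    (ht : ∀ k, t k ⊆ (PP z y).divisors) (hti : t i = lg z y V Y) (htj : t j = lg z y V Y) :
    |∑ d ∈ Fintype.piFinset t, HH a L d| ≤
      (C * Real.log y) ^ (Fintype.card ι) * (C2 * (Real.log Y) ^ E2 * (V : ℝ) ^ (-(1 / 6 : ℝ))) := by
  classical
  have hC0 : 0 ≤ C := zero_le_one.trans hB.C1
  have hly : 1 ≤ Real.log y := one_le_log hB.z2 hy
  have hlY : 0 ≤ Real.log Y := Real.log_natCast_nonneg Y
  rw [sum_update t i, sum_update (Function.update t i {1}) j, Function.update_of_ne hij.symm, hti, htj]
  refine (abs_sum_le_sum_abs _ _).trans ?_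
  have hQ : 0 ≤ C2 * (Real.log Y) ^ E2 * (V : ℝ) ^ (-(1 / 6 : ℝ)) := by positivity
  have hstep : ∀ v ∈ Fintype.piFinset (Function.update (Function.update t i {1}) j {1}),
      |∑ n ∈ lg z y V Y, ∑ m ∈ lg z y V Y,
        HH a L (Function.update (Function.update v j n) i m)| ≤
      (∏ k ∈ univ.erase j, (if k = i then 1 else gm (b k) (v k))) *
        (C2 * (Real.log Y) ^ E2 * (V : ℝ) ^ (-(1 / 6 : ℝ))) := by
    intro v hv
    have hv' : ∀ k, v k ∈ (PP z y).divisors := by
      intro k
      have := Fintype.mem_piFinset.1 hv k
      by_cases hb : k = j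
      · subst hb
        rw [Function.update_self, mem_singleton] at this
        rw [this]
        exact one_mem_dv z y
      · rw [Function.update_of_ne hb] at this
        by_cases hb' : k = i
        · subst hb'
          rw [Function.update_self, mem_singleton] at this
          rw [this]
          exact one_mem_dv z y
        · rw [Function.update_of_ne hb'] at this
          exact ht k this
    refine (pair_inner hB h2 hij hLi hL1 hL2 hV hVY hv').trans ?_
    apply mul_le_mul_of_nonneg_right _ hQ
    apply le_of_eq
    have him : i ∈ univ.erase j := mem_erase.2 ⟨hij, mem_univ i⟩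
    rw [← mul_prod_erase _ _ him, if_pos rfl, one_mul]
    have : (univ.erase i).erase j = (univ.erase j).erase i := by
      ext k
      simp only [mem_erase, mem_univ, and_true]
      tauto
    rw [this]
    apply prod_congr rfl
    intro k hk
    rw [if_neg (mem_erase.1 hk).1]
  refine (sum_le_sum hstep).trans ?_
  rw [← sum_mul, sum_others j (Function.update t i {1}) (fun k m => if k = i then 1 else gm (b k) m)]
  apply mul_le_mul_of_nonneg_right _ hQ
  have hCl : 1 ≤ C * Real.log y := by nlinarith [hB.C1]
  have hf : ∀ k ∈ univ.erase j, ∑ m ∈ Function.update t i {1} k,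
      (if k = i then 1 else gm (b k) m) ≤ C * Real.log y := by
    intro k _
    by_cases hk : k = i
    · subst hk
      rw [Function.update_self]
      simpa using hCl
    · rw [Function.update_of_ne hk]
      simp only [if_neg hk]
      calc ∑ m ∈ t k, gm (b k) m ≤ ∑ m ∈ (PP z y).divisors, gm (b k) m :=
            sum_le_sum_of_subset_of_nonneg (ht k) fun m hm _ => hB.gb0 k hm
        _ ≤ ∑ m ∈ (PP z y).divisors, gm (b k) m * hh m := sum_le_sum fun m hm => gb_le_hh hB k hm
        _ ≤ C * (Real.log y) ^ (e k) := hB.F1 k y hy
        _ ≤ C * Real.log y := by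
          apply mul_le_mul_of_nonneg_left _ hC0
          calc (Real.log y) ^ (e k) ≤ (Real.log y) ^ (1 : ℝ) :=
                Real.rpow_le_rpow_of_exponent_le hly (hB.e1 k)
            _ = Real.log y := Real.rpow_one _
  have hf0 : ∀ k ∈ univ.erase j, 0 ≤ ∑ m ∈ Function.update t i {1} k,
      (if k = i then 1 else gm (b k) m) := by
    intro k _
    apply sum_nonneg
    intro m hm
    by_cases hk : k = i
    · rw [if_pos hk]; exact zero_le_one
    · rw [if_neg hk]
      rw [Function.update_of_ne hk] at hm
      exact hB.gb0 k (ht k hm)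
  calc ∏ k ∈ univ.erase j, ∑ m ∈ Function.update t i {1} k, (if k = i then 1 else gm (b k) m)
      ≤ ∏ k ∈ univ.erase j, (C * Real.log y) := prod_le_prod hf0 hf
    _ = (C * Real.log y) ^ (univ.erase j).card := by rw [prod_const]
    _ ≤ (C * Real.log y) ^ (Fintype.card ι) := by
      apply pow_le_pow_right₀ hCl
      exact (card_le_card (erase_subset _ _)).trans (le_of_eq card_univ)

end AT

end Run7.h69
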