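import Mathlib
import Pool.Agent.Run7.h69.AT4
import Pool.Agent.W655.RK.Ep

/-! The bounds for the Euler products from the bounds for the sums over primes. -/

set_option autoImplicit false
set_option linter.unusedSectionVars false

namespace Run7.h69

open Finset
open Pool.Agent.W262.RK hiding LL ff s1 s2
open Pool.Agent.W655.RK (PS_prime PS_lt PS_le prod_primes_squarefree sum_mult prod_le_exp
  sum_inv_sq chr chr_prod chr_abs exp_small)

namespace AT

lemma gm_hh (b : ℕ → ℝ) (d : ℕ) : gm b d * hh d =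
    ∏ p ∈ d.primeFactors, (b p * (1 + 2 / (p : ℝ))) := by
  unfold gm hh
  rw [Finset.prod_mul_distrib]

lemma dv_pf {z y d : ℕ} (hd : d ∈ (PP z y).divisors) : d.primeFactors ⊆ PS z y := by
  rw [← PP_primeFactors]
  exact Nat.primeFactors_mono (Nat.dvd_of_mem_divisors hd) (Nat.mem_divisors.1 hd).2

lemma log_pos' {y : ℕ} (hy : 2 ≤ y) : 0 < Real.log y :=
  Real.log_pos (by exact_mod_cast (by omega : 1 < y))

lemma log_ge1 {y : ℕ} (hy : 3 ≤ y) : 1 ≤ Real.log y := one_le_log (z := 2) le_rfl (by omega)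

section single

variable {b : ℕ → ℝ} {z : ℕ} {e C0 : ℝ}

lemma phi_sum (hz : 2 ≤ z) (hb0 : ∀ p : ℕ, p.Prime → z < p → 0 ≤ b p)
    (hb1 : ∀ p : ℕ, p.Prime → z < p → b p ≤ 1 / (p : ℝ)) (he : 0 < e)
    (hS : ∀ y, z < y → ∑ p ∈ PS z y, b p ≤ e * Real.log (Real.log y) + C0) :
    ∃ B : ℝ, 0 ≤ B ∧ ∀ y, 3 ≤ y → ∑ p ∈ PS z y, b p * (1 + 2 / (p : ℝ)) ≤
      e * Real.log (Real.log y) + B := by
  obtain ⟨K, hK, hsq⟩ := sum_inv_sq
  refine ⟨|C0| + 2 * K, by positivity, fun y hy => ?_⟩
  have hll : 0 ≤ Real.log (Real.log y) := Real.log_nonneg (log_ge1 hy)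
  have h1 : ∑ p ∈ PS z y, b p ≤ e * Real.log (Real.log y) + |C0| := by
    rcases Nat.lt_or_ge z y with h | h
    · have := hS y h
      have := le_abs_self C0
      linarith
    · have : PS z y = ∅ := by
        unfold PS
        rw [Finset.Ioc_eq_empty (by omega)]
        rfl
      rw [this, sum_empty]
      positivity
  have h2 : ∑ p ∈ PS z y, b p * (2 / (p : ℝ)) ≤ 2 * K := by
    calc ∑ p ∈ PS z y, b p * (2 / (p : ℝ)) ≤ ∑ p ∈ PS z y, 2 * (1 / (p : ℝ) ^ 2) := by
          apply sum_le_sum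
          intro p hp
          have h3 := hb1 p (PS_prime hp) (PS_lt hp)
          have hp0 : (0 : ℝ) < p := by exact_mod_cast (PS_prime hp).pos
          calc b p * (2 / (p : ℝ)) ≤ (1 / (p : ℝ)) * (2 / (p : ℝ)) :=
                mul_le_mul_of_nonneg_right h3 (by positivity)
            _ = _ := by field_simp
      _ = 2 * ∑ p ∈ PS z y, (1 / (p : ℝ) ^ 2) := by rw [mul_sum]
      _ ≤ _ := mul_le_mul_of_nonneg_left (hsq _) (by norm_num)
  calc ∑ p ∈ PS z y, b p * (1 + 2 / (p : ℝ)) = ∑ p ∈ PS z y, b p +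
        ∑ p ∈ PS z y, b p * (2 / (p : ℝ)) := by
        rw [← sum_add_distrib]
        exact sum_congr rfl fun p _ => by ring
    _ ≤ _ := by linarith

lemma Fs (hz : 2 ≤ z) (hb0 : ∀ p : ℕ, p.Prime → z < p → 0 ≤ b p)
    (hb1 : ∀ p : ℕ, p.Prime → z < p → b p ≤ 1 / (p : ℝ)) (he : 0 < e) (he1 : e ≤ 1 / 2)
    (hS : ∀ y, z < y → ∑ p ∈ PS z y, b p ≤ e * Real.log (Real.log y) + C0) :
    ∃ C : ℝ, 1 ≤ C ∧
    (∀ y, z < y → ∑ d ∈ (PP z y).divisors, gm b d * hh d ≤ C * (Real.log y) ^ e) ∧
    (∀ (y V : ℕ), z < y → 3 ≤ V →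
      ∑ d ∈ (PP z y).divisors.filter (fun d => d ≤ V), gm b d * hh d ≤ C * (Real.log V) ^ e) ∧
    (∀ (y Y : ℕ), z < y → 1 ≤ Y →
      ∑ d ∈ (PP z y).divisors.filter (fun d => Y < d), gm b d * hh d ≤
        C * Real.exp (-(Real.log Y / Real.log y)) * (Real.log y) ^ 2) := by
  obtain ⟨B, hB0, hsum⟩ := phi_sum hz hb0 hb1 he hS
  set φ : ℕ → ℝ := fun p => b p * (1 + 2 / (p : ℝ)) with hφ
  have hφ0 : ∀ y, ∀ p ∈ PS z y, 0 ≤ φ p := fun y p hp =>
    mul_nonneg (hb0 p (PS_prime hp) (PS_lt hp)) (by positivity)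
  have main : ∀ y : ℕ, 3 ≤ y → ∑ d ∈ (PP z y).divisors, gm b d * hh d ≤
      Real.exp B * (Real.log y) ^ e := by
    intro y hy
    simp only [gm_hh]
    unfold PP
    rw [sum_mult (PS z y) (fun p hp => PS_prime hp) φ]
    refine (prod_le_exp _ _ fun p hp => by have := hφ0 y p hp; linarith).trans ?_
    rw [Real.rpow_def_of_pos (log_pos' (by omega)), ← Real.exp_add, Real.exp_le_exp]
    have := hsum y hy
    linarith
  have hnn : ∀ y d, d ∈ (PP z y).divisors → 0 ≤ gm b d * hh d := by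
    intro y d hd
    rw [gm_hh]
    exact Finset.prod_nonneg fun p hp => hφ0 y p (dv_pf hd hp)
  refine ⟨Real.exp (3 * (B + 1)), Real.one_le_exp (by positivity), ?_, ?_, ?_⟩
  · intro y hy
    refine (main y (by omega)).trans ?_
    refine mul_le_mul_of_nonneg_right ?_ (Real.rpow_nonneg (log_pos' (by omega)).le _)
    rw [Real.exp_le_exp]
    linarith
  · intro y V hy hV
    have hsub : (PP z y).divisors.filter (fun d => d ≤ V) ⊆ (PP z (min y V)).divisors := by
      intro d hd
      rw [mem_filter] at hd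
      have h1 := dv_pf hd.1
      have h2 : Squarefree d := dv_squarefree hd.1
      rw [Nat.mem_divisors]
      refine ⟨?_, PP_ne_zero _ _⟩
      rw [← Nat.prod_primeFactors_of_squarefree h2]
      refine Finset.prod_dvd_prod_of_subset _ _ _ fun p hp => ?_
      have h3 := h1 hp
      have h4 : p ≤ d := Nat.le_of_mem_primeFactors hp
      exact mem_filter.2 ⟨mem_Ioc.2 ⟨PS_lt h3, le_min (PS_le h3) (h4.trans hd.2)⟩, PS_prime h3⟩
    have h1 : ∑ d ∈ (PP z y).divisors.filter (fun d => d ≤ V), gm b d * hh d ≤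
        ∑ d ∈ (PP z (min y V)).divisors, gm b d * hh d :=
      Finset.sum_le_sum_of_subset_of_nonneg hsub fun d hd _ => hnn _ d hd
    have hmin2 : 3 ≤ min y V := le_min (by omega) hV
    refine h1.trans ((main _ hmin2).trans ?_)
    have h2 : (Real.log (min y V : ℕ)) ^ e ≤ (Real.log V) ^ e := by
      refine Real.rpow_le_rpow (log_pos' (by omega)).le ?_ he.le
      exact Real.log_le_log (by exact_mod_cast (by omega : 0 < min y V))
        (by exact_mod_cast min_le_right y V)
    refine mul_le_mul ?_ h2 (Real.rpow_nonneg (log_pos' (by omega)).le _) (Real.exp_pos _).le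
    rw [Real.exp_le_exp]
    linarith
  · intro y Y hy hY
    have hy3 : 3 ≤ y := by omega
    have hly : 0 < Real.log y := log_pos' (by omega)
    have hly1 : 1 ≤ Real.log y := log_ge1 hy3
    have hY0 : (0:ℝ) < Y := by exact_mod_cast hY
    set ψ : ℕ → ℝ := fun p => φ p * Real.exp (Real.log p / Real.log y) with hψ
    have hterm : ∀ d ∈ (PP z y).divisors.filter (fun d => Y < d), gm b d * hh d ≤
        Real.exp (-(Real.log Y / Real.log y)) * ∏ p ∈ d.primeFactors, ψ p := by
      intro d hd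
      rw [mem_filter] at hd
      have h1 := dv_pf hd.1
      have hd0 : 0 < d := Nat.pos_of_mem_divisors hd.1
      have h2 : Squarefree d := dv_squarefree hd.1
      have h3 : ∏ p ∈ d.primeFactors, Real.exp (Real.log p / Real.log y) =
          Real.exp (Real.log d / Real.log y) := by
        rw [← Real.exp_sum, ← Finset.sum_div, ← Real.log_prod]
        · congr 3
          conv_rhs => rw [← Nat.prod_primeFactors_of_squarefree h2]
          push_cast
          rfl
        · intro p hp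
          exact_mod_cast (Nat.prime_of_mem_primeFactors hp).ne_zero
      rw [hψ, Finset.prod_mul_distrib, h3, gm_hh]
      have h4 : 0 ≤ ∏ p ∈ d.primeFactors, φ p :=
        Finset.prod_nonneg fun p hp => hφ0 y p (h1 hp)
      have h5 : 1 ≤ Real.exp (-(Real.log Y / Real.log y)) * Real.exp (Real.log d / Real.log y) := by
        rw [← Real.exp_add]
        apply Real.one_le_exp
        rw [neg_add_eq_sub, ← sub_div]
        refine div_nonneg (sub_nonneg.2 (Real.log_le_log hY0 ?_)) hly.le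
        exact_mod_cast hd.2.le
      calc ∏ p ∈ d.primeFactors, φ p = (∏ p ∈ d.primeFactors, φ p) * 1 := (mul_one _).symm
        _ ≤ (∏ p ∈ d.primeFactors, φ p) * (Real.exp (-(Real.log Y / Real.log y)) *
            Real.exp (Real.log d / Real.log y)) := mul_le_mul_of_nonneg_left h5 h4
        _ = _ := by ring
    have hψ0 : ∀ p ∈ PS z y, 0 ≤ ψ p := fun p hp => mul_nonneg (hφ0 y p hp) (Real.exp_pos _).le
    have hψe : ∀ p ∈ PS z y, ψ p ≤ φ p * Real.exp 1 := by
      intro p hp
      refine mul_le_mul_of_nonneg_left ?_ (hφ0 y p hp)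
      rw [Real.exp_le_exp, div_le_one hly]
      exact Real.log_le_log (by exact_mod_cast (PS_prime hp).pos) (by exact_mod_cast PS_le hp)
    calc ∑ d ∈ (PP z y).divisors.filter (fun d => Y < d), gm b d * hh d
        ≤ ∑ d ∈ (PP z y).divisors.filter (fun d => Y < d),
            Real.exp (-(Real.log Y / Real.log y)) * ∏ p ∈ d.primeFactors, ψ p :=
          Finset.sum_le_sum hterm
      _ ≤ ∑ d ∈ (PP z y).divisors,
            Real.exp (-(Real.log Y / Real.log y)) * ∏ p ∈ d.primeFactors, ψ p := by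
          refine Finset.sum_le_sum_of_subset_of_nonneg (filter_subset _ _) fun d hd _ => ?_
          exact mul_nonneg (Real.exp_pos _).le (Finset.prod_nonneg fun p hp => hψ0 p (dv_pf hd hp))
      _ = Real.exp (-(Real.log Y / Real.log y)) * ∏ p ∈ PS z y, (1 + ψ p) := by
          rw [← Finset.mul_sum]
          congr 1
          exact sum_mult (PS z y) (fun p hp => PS_prime hp) ψ
      _ ≤ Real.exp (-(Real.log Y / Real.log y)) *
            (Real.exp (3 * (B + 1)) * (Real.log y) ^ 2) := by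
          refine mul_le_mul_of_nonneg_left ?_ (Real.exp_pos _).le
          refine (prod_le_exp _ _ fun p hp => by have := hψ0 p hp; linarith).trans ?_
          have h6 : (Real.log y) ^ 2 = Real.exp (2 * Real.log (Real.log y)) := by
            rw [mul_comm, Real.exp_mul, Real.exp_log hly]
            norm_num
          rw [h6, ← Real.exp_add, Real.exp_le_exp]
          have h7 : ∑ p ∈ PS z y, ψ p ≤ (e * Real.log (Real.log y) + B) * Real.exp 1 := by
            calc ∑ p ∈ PS z y, ψ p ≤ ∑ p ∈ PS z y, φ p * Real.exp 1 := Finset.sum_le_sum hψe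
              _ = (∑ p ∈ PS z y, φ p) * Real.exp 1 := by rw [Finset.sum_mul]
              _ ≤ _ := mul_le_mul_of_nonneg_right (hsum y (by omega)) (Real.exp_pos _).le
          have h8 : 0 ≤ Real.log (Real.log y) := Real.log_nonneg hly1
          have h9 := Real.exp_one_lt_d9
          have h10 : e * Real.exp 1 ≤ 2 := by nlinarith [Real.exp_pos 1]
          have h11 : e * Real.log (Real.log y) * Real.exp 1 ≤ 2 * Real.log (Real.log y) := by
            calc e * Real.log (Real.log y) * Real.exp 1 = (e * Real.exp 1) * Real.log (Real.log y) := by ring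
              _ ≤ _ := mul_le_mul_of_nonneg_right h10 h8
          have h12 : B * Real.exp 1 ≤ 3 * B := by nlinarith
          linarith
      _ = _ := by ring

lemma Es {a : ℕ → ℝ} (hz : 2 ≤ z) (hab : ∀ p : ℕ, p.Prime → z < p → |a p| ≤ b p)
    (hb1 : ∀ p : ℕ, p.Prime → z < p → b p ≤ 1 / (p : ℝ)) {B0 C1 : ℝ}
    (hT : ∀ (y r : ℕ) (x : Bool), z < y → 1 < r → Squarefree r →
      (∀ p : ℕ, p.Prime → p ∣ r → z < p) →
      ∑ p ∈ PS z y, a p * (Jr p r * x4 x p) ≤ B0 * Real.log (Real.log r) + C1) :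
    ∃ C : ℝ, 0 ≤ C ∧ ∀ (B : ℕ), B0 ≤ B → ∀ (y R r : ℕ) (x : Bool), z < y → R ≠ 0 → 1 < r →
      Squarefree r → (∀ p : ℕ, p.Prime → p ∣ r → z < p) →
      |∑ d ∈ (PP z y).divisors.filter (fun d => d.Coprime R),
        gm a d * (Jr d r * x4 x d)| ≤ C * (1 + Real.log r) ^ B * hh R := by
  refine ⟨Real.exp C1, (Real.exp_pos _).le, fun B hBB y R r x hy hR hr hrs hrp => ?_⟩
  classical
  have hr3 : 3 ≤ r := by
    obtain ⟨p, hp, hpr⟩ := Nat.exists_prime_and_dvd (by omega : r ≠ 1)
    have h1 := hrp p hp hpr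
    have h2 := Nat.le_of_dvd (by omega) hpr
    omega
  have hlr : 1 ≤ Real.log r := log_ge1 hr3
  set S' := (PS z y).filter (fun p => ¬ p ∣ R) with hS'
  have hS'p : ∀ p ∈ S', p.Prime := fun p hp => PS_prime (mem_filter.1 hp).1
  have hset : (PP z y).divisors.filter (fun d => d.Coprime R) = (∏ p ∈ S', p).divisors := by
    have hsq1 := prod_primes_squarefree (PS z y) fun p hp => PS_prime hp
    have hsq2 := prod_primes_squarefree S' hS'p
    ext d
    rw [mem_filter, Nat.mem_divisors, Nat.mem_divisors]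
    constructor
    · rintro ⟨⟨hd, -⟩, hc⟩
      refine ⟨?_, hsq2.ne_zero⟩
      have hsd : Squarefree d := hsq1.squarefree_of_dvd hd
      rw [← Nat.prod_primeFactors_of_squarefree hsd]
      refine Finset.prod_dvd_prod_of_subset _ _ _ fun p hp => ?_
      have hpp := Nat.prime_of_mem_primeFactors hp
      have hpd := Nat.dvd_of_mem_primeFactors hp
      have h1 : p ∈ PS z y := by
        rw [← Nat.primeFactors_prod (s := PS z y) fun p hp => PS_prime hp]
        exact Nat.primeFactors_mono hd hsq1.ne_zero hp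
      refine mem_filter.2 ⟨h1, fun hpR => ?_⟩
      have := Nat.dvd_gcd hpd hpR
      rw [hc.gcd_eq_one] at this
      exact hpp.one_lt.ne' (Nat.dvd_one.1 this)
    · rintro ⟨hd, -⟩
      refine ⟨⟨hd.trans (Finset.prod_dvd_prod_of_subset _ _ _ (filter_subset _ _)),
        hsq1.ne_zero⟩, ?_⟩
      refine Nat.Coprime.coprime_dvd_left hd ?_
      exact Nat.Coprime.prod_left fun p hp =>
        ((hS'p p hp).coprime_iff_not_dvd).2 (mem_filter.1 hp).2
  have hchr : ∀ d : ℕ, Jr d r * x4 x d = chr 1 r x d := by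
    intro d
    unfold chr
    rw [Jr_one_left, mul_one]
  set φ : ℕ → ℝ := fun p => a p * chr 1 r x p with hφ
  have hsum : ∑ d ∈ (PP z y).divisors.filter (fun d => d.Coprime R),
      gm a d * (Jr d r * x4 x d) = ∏ p ∈ S', (1 + φ p) := by
    rw [hset, ← sum_mult S' hS'p φ]
    refine Finset.sum_congr rfl fun d hd => ?_
    have hsd : Squarefree d :=
      (prod_primes_squarefree S' hS'p).squarefree_of_dvd (Nat.dvd_of_mem_divisors hd)
    rw [hchr]
    have h1 : chr 1 r x d = ∏ p ∈ d.primeFactors, chr 1 r x p := by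
      rw [← chr_prod 1 r x _ fun p hp => Nat.prime_of_mem_primeFactors hp,
        Nat.prod_primeFactors_of_squarefree hsd]
    rw [h1, gm, ← Finset.prod_mul_distrib]
  rw [hsum]
  have hp3 : ∀ p ∈ PS z y, (3 : ℝ) ≤ p := fun p hp => by
    have := PS_lt hp
    exact_mod_cast (by omega : 3 ≤ p)
  have hφa : ∀ p ∈ PS z y, |φ p| ≤ 1 / (p : ℝ) := by
    intro p hp
    have h1 := hab p (PS_prime hp) (PS_lt hp)
    have h2 := hb1 p (PS_prime hp) (PS_lt hp)
    simp only [hφ]
    rw [abs_mul]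
    calc |a p| * |chr 1 r x p| ≤ |a p| * 1 :=
          mul_le_mul_of_nonneg_left (chr_abs _ _ _ _) (abs_nonneg _)
      _ ≤ 1 / (p : ℝ) := by linarith
  have hfac : ∀ p ∈ S', 0 ≤ 1 + φ p := by
    intro p hp
    have h0 := (mem_filter.1 hp).1
    have h1 := (abs_le.1 (hφa p h0)).1
    have h2 := hp3 p h0
    have h3 : 1 / (p : ℝ) ≤ 1 := by
      rw [div_le_one (by linarith)]
      linarith
    linarith
  rw [abs_of_nonneg (Finset.prod_nonneg hfac)]
  refine (prod_le_exp S' φ hfac).trans ?_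
  have hexp : ∑ p ∈ S', φ p ≤ (B0 * Real.log (Real.log r) + C1) +
      ∑ p ∈ (PS z y).filter (fun p => p ∣ R), 1 / (p : ℝ) := by
    have hub : ∑ p ∈ PS z y, φ p ≤ B0 * Real.log (Real.log r) + C1 := by
      refine le_trans (le_of_eq ?_) (hT y r x hy hr hrs hrp)
      exact sum_congr rfl fun p _ => by simp only [hφ]; rw [hchr]
    have hsplit := Finset.sum_filter_add_sum_filter_not (PS z y) (fun p => p ∣ R) φ
    have h2 : -∑ p ∈ (PS z y).filter (fun p => p ∣ R), 1 / (p : ℝ) ≤
        ∑ p ∈ (PS z y).filter (fun p => p ∣ R), φ p := by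
      rw [← Finset.sum_neg_distrib]
      exact Finset.sum_le_sum fun p hp => (abs_le.1 (hφa p (mem_filter.1 hp).1)).1
    linarith
  have hhh : Real.exp (∑ p ∈ (PS z y).filter (fun p => p ∣ R), 1 / (p : ℝ)) ≤ hh R := by
    rw [Real.exp_sum]
    unfold hh
    have hsub : (PS z y).filter (fun p => p ∣ R) ⊆ R.primeFactors := by
      intro p hp
      rw [mem_filter] at hp
      exact Nat.mem_primeFactors.2 ⟨PS_prime hp.1, hp.2, hR⟩
    calc ∏ p ∈ (PS z y).filter (fun p => p ∣ R), Real.exp (1 / (p : ℝ))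
        ≤ ∏ p ∈ (PS z y).filter (fun p => p ∣ R), (1 + 2 / (p : ℝ)) := by
          refine Finset.prod_le_prod (fun p _ => (Real.exp_pos _).le) fun p hp => ?_
          have h1 := hp3 p (mem_filter.1 hp).1
          have hp0 : (0:ℝ) < p := by linarith
          have h2 : 1 / (p : ℝ) ≤ 1 / 2 := by
            rw [div_le_iff₀ hp0]
            linarith
          refine (exp_small _ (by positivity) h2).trans ?_
          have h4 : 2 / (p : ℝ) = 2 * (1 / p) := by ring
          rw [h4]
      _ ≤ ∏ p ∈ R.primeFactors, (1 + 2 / (p : ℝ)) := by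
          refine Finset.prod_le_prod_of_subset_of_one_le hsub (fun p _ => by positivity)
            fun p _ _ => ?_
          have : (0:ℝ) ≤ 2 / (p : ℝ) := by positivity
          linarith
  have hpow : Real.exp (B0 * Real.log (Real.log r)) ≤ (1 + Real.log r) ^ B := by
    have h1 : Real.exp (B0 * Real.log (Real.log r)) = (Real.log r) ^ B0 := by
      rw [Real.rpow_def_of_pos (by linarith), mul_comm]
    rw [h1]
    calc (Real.log r) ^ B0 ≤ (Real.log r) ^ (B : ℝ) := Real.rpow_le_rpow_of_exponent_le hlr hBB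
      _ = (Real.log r) ^ B := Real.rpow_natCast _ _
      _ ≤ _ := pow_le_pow_left₀ (by linarith) (by linarith) B
  calc Real.exp (∑ p ∈ S', φ p) ≤ Real.exp ((B0 * Real.log (Real.log r) + C1) +
        ∑ p ∈ (PS z y).filter (fun p => p ∣ R), 1 / (p : ℝ)) := Real.exp_le_exp.2 hexp
    _ = Real.exp C1 * Real.exp (B0 * Real.log (Real.log r)) *
        Real.exp (∑ p ∈ (PS z y).filter (fun p => p ∣ R), 1 / (p : ℝ)) := by
        rw [← Real.exp_add, ← Real.exp_add]
        congr 1
        ring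
    _ ≤ _ := by
        apply mul_le_mul _ hhh (Real.exp_pos _).le (by positivity)
        exact mul_le_mul_of_nonneg_left hpow (Real.exp_pos _).le

end single

/-- all the bounds -/
theorem bd_of {ι : Type} [Fintype ι] [DecidableEq ι] {e : ι → ℝ} {a b : ι → ℕ → ℝ} {z : ℕ}
    (hz : 2 ≤ z) (he0 : ∀ i, 0 < e i) (he1 : ∀ i, e i ≤ 1 / 2)
    (hab : ∀ i, ∀ p : ℕ, p.Prime → z < p → |a i p| ≤ b i p)
    (hb1 : ∀ i, ∀ p : ℕ, p.Prime → z < p → b i p ≤ 1 / (p : ℝ))
    (hS : ∀ i, ∃ C0 : ℝ, ∀ y, z < y → ∑ p ∈ PS z y, b i p ≤ e i * Real.log (Real.log y) + C0)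
    (hT : ∀ i, ∃ B0 C1 : ℝ, ∀ (y r : ℕ) (x : Bool), z < y → 1 < r → Squarefree r →
      (∀ p : ℕ, p.Prime → p ∣ r → z < p) →
      ∑ p ∈ PS z y, a i p * (Jr p r * x4 x p) ≤ B0 * Real.log (Real.log r) + C1) :
    ∃ (C : ℝ) (B : ℕ), Bd e a b z C B := by
  classical
  choose C0 hC0 using hS
  choose B0 C1 hC1 using hT
  choose CF hCF1 hF1 hF2 hF3 using fun i => Fs hz
    (fun p hp hpz => (abs_nonneg _).trans (hab i p hp hpz)) (hb1 i) (he0 i) (he1 i) (hC0 i)
  choose CE hCE0 hCE using fun i => Es hz (hab i) (hb1 i) (hC1 i)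
  set C : ℝ := 1 + ∑ i, (CF i + CE i) with hC
  have hnn : ∀ i, 0 ≤ CF i + CE i := fun i => by
    have := hCF1 i
    have := hCE0 i
    linarith
  have hCi : ∀ i, CF i + CE i ≤ C := by
    intro i
    have h1 : CF i + CE i ≤ ∑ i, (CF i + CE i) :=
      single_le_sum (f := fun i => CF i + CE i) (fun j _ => hnn j) (mem_univ i)
    linarith
  have hCF' : ∀ i, CF i ≤ C := fun i => by
    have := hCE0 i
    linarith [hCi i]
  have hCE' : ∀ i, CE i ≤ C := fun i => by
    have := hCF1 i
    linarith [hCi i]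
  set B : ℕ := univ.sup (fun i => ⌈B0 i⌉₊) with hBdef
  have hB0 : ∀ i, B0 i ≤ B := fun i => by
    have h1 : ⌈B0 i⌉₊ ≤ B := le_sup (f := fun i => ⌈B0 i⌉₊) (mem_univ i)
    exact (Nat.le_ceil _).trans (by exact_mod_cast h1)
  refine ⟨C, B, ?_⟩
  exact
    { e0 := he0
      e1 := fun i => (he1 i).trans (by norm_num)
      z2 := hz
      ab := hab
      b1 := hb1
      C1 := by
        have : 0 ≤ ∑ i, (CF i + CE i) := sum_nonneg fun i _ => hnn i
        linarith
      F1 := fun i y hy => (hF1 i y hy).trans (mul_le_mul_of_nonneg_right (hCF' i)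
        (Real.rpow_nonneg (Real.log_natCast_nonneg y) _))
      F2 := fun i y V hy hV => (hF2 i y V hy hV).trans (mul_le_mul_of_nonneg_right (hCF' i)
        (Real.rpow_nonneg (Real.log_natCast_nonneg V) _))
      F3 := fun i y Y hy hY => (hF3 i y Y hy hY).trans (by
        apply mul_le_mul_of_nonneg_right _ (by positivity)
        exact mul_le_mul_of_nonneg_right (hCF' i) (Real.exp_pos _).le)
      E := fun i y R r x hy hR hr hs hp => (hCE i B (hB0 i) y R r x hy hR hr hs hp).trans (by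
        apply mul_le_mul_of_nonneg_right _ (hh_nonneg _)
        apply mul_le_mul_of_nonneg_right (hCE' i)
        have := Real.log_natCast_nonneg r
        positivity) }

end AT

end Run7.h69
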