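import Mathlib
import Pool.Agent.Run7.h69.XP

/-!
# Expansion of the moments of the Selmer count of twists into symbols, second part
-/

set_option autoImplicit false
set_option linter.unusedSectionVars false

namespace Run7.h69

open Finset
open Pool.Agent.W262.RK hiding lk ff s1 s2
open Pool.Agent.W108.RK
open Pool.Agent.W762.RK2 (Pr Pr_prime nb nb_eq_prod nb_pf nb_ne_zero mem_Ts dvd_nb nb_inj nb_dvd
  nb_true nb_dvd_PP nb_eq prod_pf nb_coprime Dl Dl_mem lab lab_eq Dl_lab sum_Tup prod_Dl sg sg_sg0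
  sgn_nb Jr_dvd_ne ind lk Sym_Dl Dl_inj prod_ind avg Jr_nb_right)
open AT (k1)

namespace XP

variable {k : ℕ} {z y : ℕ}

/-- the number -/
def Sn (ξ : Pr z y → Option (Vk k)) : ℕ := nb fun p => (ξ p).isSome

/-- first divisors -/
def Dn1 (ξ : Pr z y → Option (Vk k)) (l : Fin k) : ℕ := nb fun p => (ξ p).elim false fun v => (v l).1

/-- second divisors -/
def Dn2 (ξ : Pr z y → Option (Vk k)) (l : Fin k) : ℕ := nb fun p => (ξ p).elim false fun v => (v l).2

lemma Dn1_dvd (ξ : Pr z y → Option (Vk k)) (l : Fin k) : Dn1 ξ l ∣ Sn ξ := by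
  refine nb_dvd fun p hp => ?_
  cases h : ξ p with
  | none => rw [h] at hp; exact absurd hp (by simp)
  | some a => rfl

lemma Dn2_dvd (ξ : Pr z y → Option (Vk k)) (l : Fin k) : Dn2 ξ l ∣ Sn ξ := by
  refine nb_dvd fun p hp => ?_
  cases h : ξ p with
  | none => rw [h] at hp; exact absurd hp (by simp)
  | some a => rfl

lemma sum_big (F : ℕ → (Fin k → ℕ × ℕ) → ℝ) :
    ∑ s ∈ (PP z y).divisors, ∑ d ∈ Fintype.piFinset (fun _ : Fin k => s.divisors ×ˢ s.divisors),
      F s d = ∑ ξ : Pr z y → Option (Vk k), F (Sn ξ) (fun l => (Dn1 ξ l, Dn2 ξ l)) := by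
  rw [Finset.sum_sigma']
  symm
  refine Finset.sum_bij (fun ξ _ => ⟨Sn ξ, fun l => (Dn1 ξ l, Dn2 ξ l)⟩) ?_ ?_ ?_ (fun _ _ => rfl)
  · intro ξ _
    rw [Finset.mem_sigma, Fintype.mem_piFinset]
    refine ⟨Nat.mem_divisors.2 ⟨nb_dvd_PP _, Pool.Agent.W262.RK.PP_ne_zero z y⟩, fun l => ?_⟩
    rw [Finset.mem_product]
    have hne : Sn ξ ≠ 0 := nb_ne_zero _
    exact ⟨Nat.mem_divisors.2 ⟨Dn1_dvd ξ l, hne⟩, Nat.mem_divisors.2 ⟨Dn2_dvd ξ l, hne⟩⟩
  · intro ξ _ ξ' _ h
    have h1 : Sn ξ = Sn ξ' := congrArg Sigma.fst h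
    have h2 : (fun l => (Dn1 ξ l, Dn2 ξ l)) = (fun l => (Dn1 ξ' l, Dn2 ξ' l)) :=
      congrArg Sigma.snd h
    funext p
    have e1 : (ξ p).isSome = (ξ' p).isSome := congrFun (nb_inj h1) p
    have e2 : ∀ l, (ξ p).elim false (fun v => (v l).1) = (ξ' p).elim false (fun v => (v l).1) :=
      fun l => by
        have h5 : Dn1 ξ l = Dn1 ξ' l := congrArg Prod.fst (congrFun h2 l)
        exact congrFun (nb_inj h5) p
    have e3 : ∀ l, (ξ p).elim false (fun v => (v l).2) = (ξ' p).elim false (fun v => (v l).2) :=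
      fun l => by
        have h5 : Dn2 ξ l = Dn2 ξ' l := congrArg Prod.snd (congrFun h2 l)
        exact congrFun (nb_inj h5) p
    cases hx : ξ p with
    | none =>
      cases hx' : ξ' p with
      | none => rfl
      | some a' => rw [hx, hx'] at e1; exact absurd e1 (by simp)
    | some a =>
      cases hx' : ξ' p with
      | none => rw [hx, hx'] at e1; exact absurd e1 (by simp)
      | some a' =>
        rw [hx, hx'] at e2 e3
        congr 1
        funext l
        exact Prod.ext (e2 l) (e3 l)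
  · rintro ⟨s, d⟩ hs
    rw [Finset.mem_sigma, Fintype.mem_piFinset] at hs
    obtain ⟨hs, hd⟩ := hs
    simp only at hs hd
    have hsP : s ∣ PP z y := Nat.dvd_of_mem_divisors hs
    have hd1 : ∀ l, (d l).1 ∣ s := fun l => Nat.dvd_of_mem_divisors (Finset.mem_product.1 (hd l)).1
    have hd2 : ∀ l, (d l).2 ∣ s := fun l => Nat.dvd_of_mem_divisors (Finset.mem_product.1 (hd l)).2
    classical
    refine ⟨fun p => if (p : ℕ) ∣ s then
      some (fun l => (decide ((p : ℕ) ∣ (d l).1), decide ((p : ℕ) ∣ (d l).2))) else none,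
      Finset.mem_univ _, ?_⟩
    have e1 : Sn (fun p : Pr z y => if (p : ℕ) ∣ s then
        some (fun l => (decide ((p : ℕ) ∣ (d l).1), decide ((p : ℕ) ∣ (d l).2))) else none) = s := by
      unfold Sn
      conv_rhs => rw [← nb_eq hsP]
      congr 1
      funext p
      by_cases h : (p : ℕ) ∣ s <;> simp [h]
    have e2 : ∀ l, Dn1 (fun p : Pr z y => if (p : ℕ) ∣ s then
        some (fun l => (decide ((p : ℕ) ∣ (d l).1), decide ((p : ℕ) ∣ (d l).2))) else none) l =
        (d l).1 := by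
      intro l
      unfold Dn1
      conv_rhs => rw [← nb_eq ((hd1 l).trans hsP)]
      congr 1
      funext p
      by_cases h : (p : ℕ) ∣ s
      · simp [h]
      · have : ¬ (p : ℕ) ∣ (d l).1 := fun h' => h (h'.trans (hd1 l))
        simp [h, this]
    have e3 : ∀ l, Dn2 (fun p : Pr z y => if (p : ℕ) ∣ s then
        some (fun l => (decide ((p : ℕ) ∣ (d l).1), decide ((p : ℕ) ∣ (d l).2))) else none) l =
        (d l).2 := by
      intro l
      unfold Dn2
      conv_rhs => rw [← nb_eq ((hd2 l).trans hsP)]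
      congr 1
      funext p
      by_cases h : (p : ℕ) ∣ s
      · simp [h]
      · have : ¬ (p : ℕ) ∣ (d l).2 := fun h' => h (h'.trans (hd2 l))
        simp [h, this]
    have e4 : (fun l => (Dn1 (fun p : Pr z y => if (p : ℕ) ∣ s then
        some (fun l => (decide ((p : ℕ) ∣ (d l).1), decide ((p : ℕ) ∣ (d l).2))) else none) l,
        Dn2 (fun p : Pr z y => if (p : ℕ) ∣ s then
        some (fun l => (decide ((p : ℕ) ∣ (d l).1), decide ((p : ℕ) ∣ (d l).2))) else none) l)) =
        d := by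
      funext l
      rw [e2, e3]
    rw [e1, e4]

/-- the local indicator -/
noncomputable def Ind (κ : Fin 3 → ℤ) (d : Fin k → ℕ × ℕ) (neg : Bool) (p : ℕ) : ℝ :=
  ∏ l, ind (LL 3 κ neg p (dv p (d l).1) (dv p (d l).2) (sgn p (d l).1) (sgn p (d l).2))

lemma NBk_eq (κ : Fin 3 → ℤ) (s : ℕ) :
    NBk k κ s = ∑ d ∈ Fintype.piFinset (fun _ : Fin k => s.divisors ×ˢ s.divisors),
      ∏ p ∈ s.primeFactors, (Ind κ d true p + Ind κ d false p) / 2 := by
  classical
  have h1 : ∀ E : Finset ℕ, (NL s (LE κ E) : ℝ) ^ k =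
      ∑ d ∈ Fintype.piFinset (fun _ : Fin k => s.divisors ×ˢ s.divisors),
        ∏ p ∈ s.primeFactors, Ind κ d (decide (p ∈ E)) p := by
    intro E
    have h2 : (NL s (LE κ E) : ℝ) = ∑ d ∈ s.divisors ×ˢ s.divisors,
        ind (∀ p ∈ s.primeFactors, LE κ E p (dv p d.1) (dv p d.2) (sgn p d.1) (sgn p d.2)) := by
      unfold NL
      rw [Finset.card_filter]
      push_cast
      refine Finset.sum_congr rfl fun d _ => ?_
      unfold ind
      congr
    have h3 : (NL s (LE κ E) : ℝ) ^ k = ∏ _l : Fin k, (NL s (LE κ E) : ℝ) := by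
      rw [Finset.prod_const, Finset.card_univ, Fintype.card_fin]
    rw [h3, h2, Finset.prod_univ_sum]
    refine Finset.sum_congr rfl fun d _ => ?_
    unfold Ind
    rw [Finset.prod_comm]
    refine Finset.prod_congr rfl fun l _ => ?_
    rw [← prod_ind s.primeFactors fun p => LE κ E p (dv p (d l).1) (dv p (d l).2)
      (sgn p (d l).1) (sgn p (d l).2)]
    rfl
  unfold NBk
  rw [Finset.sum_congr rfl fun E _ => h1 E, Finset.sum_comm, Finset.mul_sum]
  refine Finset.sum_congr rfl fun d _ => ?_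
  exact avg s.primeFactors s.primeFactors (Finset.Subset.refl _) (Ind κ d)
    (fun p hp hpA => absurd hp hpA)

/-- the local term -/
noncomputable def Tm (κ : Fin 3 → ℤ) (b : ℕ → ℝ) (ξ : Pr z y → Option (Vk k)) (p : Pr z y) : ℝ :=
  (ξ p).elim 1 fun v => b p * ((∏ l, ind (LL 3 κ true p (v l).1 (v l).2
    (sgn p (Dn1 ξ l)) (sgn p (Dn2 ξ l))) + ∏ l, ind (LL 3 κ false p (v l).1 (v l).2
    (sgn p (Dn1 ξ l)) (sgn p (Dn2 ξ l)))) / 2)

lemma lhs_eq (κ : Fin 3 → ℤ) (b : ℕ → ℝ) :
    ∑ s ∈ (PP z y).divisors, NBk k κ s * gm b s =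
      ∑ ξ : Pr z y → Option (Vk k), ∏ p, Tm κ b ξ p := by
  have h1 : ∀ s ∈ (PP z y).divisors, NBk k κ s * gm b s =
      ∑ d ∈ Fintype.piFinset (fun _ : Fin k => s.divisors ×ˢ s.divisors),
        (∏ p ∈ s.primeFactors, (Ind κ d true p + Ind κ d false p) / 2) * gm b s := by
    intro s hs
    rw [NBk_eq κ, Finset.sum_mul]
  rw [Finset.sum_congr rfl h1, sum_big fun s d =>
    (∏ p ∈ s.primeFactors, (Ind κ d true p + Ind κ d false p) / 2) * gm b s]
  refine Finset.sum_congr rfl fun ξ _ => ?_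
  have h2 : gm b (Sn ξ) = ∏ p : Pr z y, if (ξ p).isSome = true then b p else 1 := by
    unfold gm Sn
    exact prod_pf _ b
  have h3 : ∏ p ∈ (Sn ξ).primeFactors, (Ind κ (fun l => (Dn1 ξ l, Dn2 ξ l)) true p +
      Ind κ (fun l => (Dn1 ξ l, Dn2 ξ l)) false p) / 2 =
      ∏ p : Pr z y, if (ξ p).isSome = true then (Ind κ (fun l => (Dn1 ξ l, Dn2 ξ l)) true p +
      Ind κ (fun l => (Dn1 ξ l, Dn2 ξ l)) false p) / 2 else 1 :=
    prod_pf _ fun p => (Ind κ (fun l => (Dn1 ξ l, Dn2 ξ l)) true p +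
      Ind κ (fun l => (Dn1 ξ l, Dn2 ξ l)) false p) / 2
  rw [h2, h3, ← Finset.prod_mul_distrib]
  refine Finset.prod_congr rfl fun p _ => ?_
  unfold Tm
  cases hx : ξ p with
  | none => simp
  | some v =>
    have h4 : ∀ neg, Ind κ (fun l => (Dn1 ξ l, Dn2 ξ l)) neg p =
        ∏ l, ind (LL 3 κ neg p (v l).1 (v l).2 (sgn p (Dn1 ξ l)) (sgn p (Dn2 ξ l))) := by
      intro neg
      unfold Ind
      refine Finset.prod_congr rfl fun l _ => ?_
      have e1 : dv p (Dn1 ξ l : ℤ) = (v l).1 := by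
        have : (ξ p).elim false (fun v => (v l).1) = (v l).1 := by rw [hx]; rfl
        rw [← this]
        unfold dv
        rw [Bool.eq_iff_iff, decide_eq_true_iff, Int.natCast_dvd_natCast]
        exact dvd_nb _ p
      have e2 : dv p (Dn2 ξ l : ℤ) = (v l).2 := by
        have : (ξ p).elim false (fun v => (v l).2) = (v l).2 := by rw [hx]; rfl
        rw [← this]
        unfold dv
        rw [Bool.eq_iff_iff, decide_eq_true_iff, Int.natCast_dvd_natCast]
        exact dvd_nb _ p
      simp only [e1, e2]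
    simp only [h4, Option.isSome_some, if_true, Option.elim]
    ring

lemma prod_gm {ι : Type} [Fintype ι] [DecidableEq ι] (a : ι → ℕ → ℝ) (l : Pr z y → Option ι) :
    ∏ i, gm (a i) (Dl l i) = ∏ p : Pr z y, (l p).elim 1 fun i => a i p := by
  have h1 : ∀ i, gm (a i) (Dl l i) = ∏ p : Pr z y, if l p = some i then a i p else 1 := by
    intro i
    unfold gm Dl
    rw [prod_pf _ fun p : ℕ => a i p]
    simp only [decide_eq_true_eq]
  rw [Finset.prod_congr rfl fun i _ => h1 i, Finset.prod_comm]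
  refine Finset.prod_congr rfl fun p _ => ?_
  cases h : l p with
  | none => simp
  | some j => simp

/-- forget the character -/
def fg (x : Option (Ik k)) : Option (Vk k) := x.map fun i => i.1.1

/-- the weights -/
noncomputable def ak (κ : Fin 3 → ℤ) (b : ℕ → ℝ) (i : Ik k) (p : ℕ) : ℝ :=
  (1 / 4) ^ k * b p * Jr (κk κ i) p

/-- the local factor -/
noncomputable def G (κ : Fin 3 → ℤ) (b : ℕ → ℝ) (ξ : Pr z y → Option (Vk k)) (p : Pr z y)
    (x : Option (Ik k)) : ℝ :=
  x.elim 1 fun i => ak κ b i p * ∏ l,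
    ((if (i.1.2 l).1 = true then sg (sgn p (Dn1 ξ l)) else 1) *
      (if (i.1.2 l).2 = true then sg (sgn p (Dn2 ξ l)) else 1))

lemma sum_Ik (F : Vk k × Vk k → ℝ) :
    ∑ i : Ik k, F i.1 = ∑ r, if dot r.2 r.1 = 0 then F r else 0 := by
  rw [← Finset.sum_filter]
  exact (Finset.sum_subtype (univ.filter fun r : Vk k × Vk k =>
    dot r.2 r.1 = 0) (fun x => by simp) F).symm

lemma sum_G (κ : Fin 3 → ℤ) (b : ℕ → ℝ)
    (ξ : Pr z y → Option (Vk k)) (p : Pr z y) (hk : ∀ i, ¬ ((p : ℕ) : ℤ) ∣ κ i) :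
    ∑ x ∈ univ.filter (fun x : Option (Ik k) => fg x = ξ p), G κ b ξ p x =
      Tm κ b ξ p := by
  rw [Finset.sum_filter, Fintype.sum_option]
  unfold Tm
  cases hx : ξ p with
  | none => simp [fg, G]
  | some v =>
    have h0 : (if fg (none : Option (Ik k)) = some v then G κ b ξ p none else 0) = 0 := by
      rw [if_neg]
      simp [fg]
    rw [h0, zero_add]
    set F : Vk k × Vk k → ℝ := fun r : Vk k × Vk k =>
          if r.1 = v then ((1 / 4) ^ k * b p * Jr (∏ l, kq κ (r.1 l) (r.2 l)) p) * ∏ l,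
            ((if (r.2 l).1 = true then sg (sgn p (Dn1 ξ l)) else 1) *
            (if (r.2 l).2 = true then sg (sgn p (Dn2 ξ l)) else 1)) else 0 with hF
    have h1 : ∀ i : Ik k, (if fg (some i) = some v then G κ b ξ p (some i) else 0) =
        F i.1 := by
      intro i
      refine if_congr ?_ rfl rfl
      simp only [fg, Option.map_some, Option.some.injEq]
    refine (Finset.sum_congr rfl fun i _ => h1 i).trans ((sum_Ik F).trans ?_)
    rw [Fintype.sum_prod_type, Finset.sum_eq_single v]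
    · show _ = b p * _
      rw [loc_id κ (Pr_prime p) hk v, Finset.mul_sum]
      refine Finset.sum_congr rfl fun x _ => ?_
      simp only [hF, if_true, mul_ite, mul_zero]
      split_ifs
      · ring
      · rfl
    · intro v' _ hv'
      refine Finset.sum_eq_zero fun x _ => ?_
      simp [hF, hv']
    · intro h
      exact absurd (Finset.mem_univ _) h

lemma prod_sz {α : Type*} (s : Finset α) (f : α → ZMod 2) (J : ℝ) (hJ : J * J = 1) :
    (if ∑ i ∈ s, f i = 0 then (1 : ℝ) else J) = ∏ i ∈ s, (if f i = 0 then 1 else J) := by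
  classical
  have h11 : (1 : ZMod 2) + 1 = 0 := by decide
  induction s using Finset.induction_on with
  | empty => simp
  | insert a s ha ih =>
    rw [sum_insert ha, prod_insert ha, ← ih]
    rcases zmod2 (f a) with h1 | h1 <;> rcases zmod2 (∑ i ∈ s, f i) with h2 | h2 <;>
      simp [h1, h2, hJ, h11]

lemma bits_eq (q p : Pr z y) (x v : Vk k) (h : q = p → dot x v = 0) :
    (if dot x v = 0 then (1 : ℝ) else Jr (q : ℕ) p) =
      ∏ l, ((if (x l).1 = true then (if q ≠ p ∧ (v l).1 = true then Jr (q : ℕ) p else 1) else 1) *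
      (if (x l).2 = true then (if q ≠ p ∧ (v l).2 = true then Jr (q : ℕ) p else 1) else 1)) := by
  have h11 : (1 : ZMod 2) + 1 = 0 := by decide
  by_cases hqp : q = p
  · rw [if_pos (h hqp)]
    simp [hqp]
  · have hJ : Jr (q : ℕ) p * Jr (q : ℕ) p = 1 := by
      have hnd : ¬ ((p : ℕ) : ℤ) ∣ ((q : ℕ) : ℤ) := by
        rw [Int.natCast_dvd_natCast]
        intro hd
        exact hqp (Subtype.ext ((Nat.prime_dvd_prime_iff_eq (Pr_prime p) (Pr_prime q)).1 hd).symm)
      rw [← sg_sg0 (Pr_prime p) hnd]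
      unfold sg
      split_ifs <;> norm_num
    unfold dot
    rw [prod_sz _ _ _ hJ]
    refine Finset.prod_congr rfl fun l _ => ?_
    unfold dt bz
    rcases h1 : (x l).1 <;> rcases h2 : (x l).2 <;> rcases h3 : (v l).1 <;>
      rcases h4 : (v l).2 <;> simp [hqp, hJ, h11]

lemma rhs_term (κ : Fin 3 → ℤ) (b : ℕ → ℝ)
    (ξ : Pr z y → Option (Vk k)) (l : Pr z y → Option (Ik k))
    (h : ∀ p, fg (l p) = ξ p) :
    (∏ i, gm (ak κ b i) (Dl l i)) * Pool.Agent.W262.RK.Sym Lk k1 (Dl l) =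
      ∏ p, G κ b ξ p (l p) := by
  rw [prod_gm, Sym_Dl, ← Finset.prod_mul_distrib, ← Finset.prod_mul_distrib]
  refine Finset.prod_congr rfl fun p _ => ?_
  cases hl : l p with
  | none =>
    have h0 : ∀ q, lk Lk (l q) (none : Option (Ik k)) = false := by
      intro q
      cases l q <;> rfl
    simp [h0, G]
  | some i =>
    have hAl : dot i.1.2 i.1.1 = 0 := i.2
    have hk1 : Jr (k1 i) p = 1 := AT.Jr_one_left p
    have h1 : ∀ q, (if lk Lk (l q) (some i) = true then Jr (q : ℕ) p else 1) =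
        ∏ m, ((if (i.1.2 m).1 = true then
          (if q ≠ p ∧ (ξ q).elim false (fun v => (v m).1) = true then Jr (q : ℕ) p else 1) else 1) *
        (if (i.1.2 m).2 = true then
          (if q ≠ p ∧ (ξ q).elim false (fun v => (v m).2) = true then Jr (q : ℕ) p else 1)
            else 1)) := by
      intro q
      rw [← h q]
      cases hq : l q with
      | none => simp [lk, fg]
      | some i' =>
        have e1 : lk Lk (some i') (some i) = decide (dot i.1.2 i'.1.1 ≠ 0) := rfl
        have e2 : (if lk Lk (some i') (some i) = true then Jr (q : ℕ) p else 1) =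
            (if dot i.1.2 i'.1.1 = 0 then (1 : ℝ) else Jr (q : ℕ) p) := by
          rw [e1]
          by_cases h5 : dot i.1.2 i'.1.1 = 0 <;> simp [h5]
        rw [e2, bits_eq q p i.1.2 i'.1.1]
        · rfl
        · intro hqp
          subst hqp
          rw [hl] at hq
          have : i = i' := Option.some.inj hq
          rw [← this]
          exact hAl
    have h2 : ∏ q : Pr z y, (if lk Lk (l q) (some i) = true then Jr (q : ℕ) p else 1) =
        ∏ m, ((if (i.1.2 m).1 = true then sg (sgn p (Dn1 ξ m)) else 1) *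
      (if (i.1.2 m).2 = true then sg (sgn p (Dn2 ξ m)) else 1)) := by
      have h3 : ∀ a : Bool, ∀ c : Pr z y → Bool, (if a = true then sg (sgn p (nb c : ℤ)) else 1) =
          ∏ q : Pr z y, if a = true then (if q ≠ p ∧ c q = true then Jr (q : ℕ) p else 1)
            else 1 := by
        intro a c
        cases a
        · simp
        · simp only [if_true]
          exact sgn_nb c p
      unfold Dn1 Dn2
      rw [Finset.prod_congr rfl fun q _ => h1 q, Finset.prod_comm]
      refine Finset.prod_congr rfl fun m _ => ?_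
      rw [h3, h3, ← Finset.prod_mul_distrib]
    rw [h2]
    simp only [G, Option.elim, hk1]
    ring

/-- the expansion -/
theorem expand (κ : Fin 3 → ℤ) (b : ℕ → ℝ) (hκ : ∀ i, κ i ≠ 0) (hκz : ∀ i, (κ i).natAbs ≤ z) :
    ∑ s ∈ (PP z y).divisors, NBk k κ s * gm b s =
      ∑ d ∈ Tup (Ik k) z y, (∏ i, gm (ak κ b i) (d i)) * Pool.Agent.W262.RK.Sym Lk k1 d := by
  classical
  rw [lhs_eq, sum_Tup, ← Finset.sum_fiberwise univ
    (fun (l : Pr z y → Option (Ik k)) => fun p => fg (l p))]
  refine Finset.sum_congr rfl fun ξ _ => ?_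
  have h1 : (univ.filter fun l : Pr z y → Option (Ik k) => (fun p => fg (l p)) = ξ) =
      Fintype.piFinset (fun p => univ.filter (fun x : Option (Ik k) => fg x = ξ p)) := by
    ext l
    simp only [Finset.mem_filter, Finset.mem_univ, true_and, Fintype.mem_piFinset, funext_iff]
  have hk : ∀ p : Pr z y, ∀ i, ¬ ((p : ℕ) : ℤ) ∣ κ i := by
    intro p i hd
    have hz : z < p := by
      have := p.2
      unfold PS at this
      exact (Finset.mem_Ioc.1 (Finset.mem_filter.1 this).1).1
    have h3 := Nat.le_of_dvd (Int.natAbs_pos.mpr (hκ i)) (Int.natCast_dvd.1 hd)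
    have h4 := hκz i
    omega
  rw [h1, Finset.prod_congr rfl fun p _ => (sum_G κ b ξ p (hk p)).symm, Finset.prod_univ_sum]
  refine Finset.sum_congr rfl fun l hl => ?_
  rw [Fintype.mem_piFinset] at hl
  exact (rhs_term κ b ξ l fun p => (Finset.mem_filter.1 (hl p)).2).symm

end XP

end Run7.h69
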