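import Mathlib
import Pool.Agent.Run7.h69.EU
import Pool.Agent.Run7.h69.XP2
import Pool.Agent.Run7.h69.CB
import Pool.Agent.W262.RK.MA

/-!
# The average of the moments of the Selmer count of twists
-/

set_option autoImplicit false
set_option linter.unusedSectionVars false

namespace Run7.h69

open Finset Polynomial
open Pool.Agent.W262.RK hiding lk ff s1 s2
open Pool.Agent.W655.RK (PS_prime PS_lt PS_le sum_inv_sq)
open AT (k1)

lemma kq_ne {κ : Fin 3 → ℤ} (h : ∀ i, κ i ≠ 0) (v x : Bool × Bool) : XP.kq κ v x ≠ 0 := by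
  unfold XP.kq
  apply mul_ne_zero
  · split_ifs
    · exact h _
    · exact mul_ne_zero (h _) (h _)
    · exact h _
    · exact one_ne_zero
    · exact one_ne_zero
  · split_ifs
    · exact mul_ne_zero (h _) (h _)
    · exact neg_ne_zero.2 (h _)
    · exact neg_ne_zero.2 (h _)
    · exact one_ne_zero
    · exact one_ne_zero

lemma κk_ne {k : ℕ} {κ : Fin 3 → ℤ} (h : ∀ i, κ i ≠ 0) (i : XP.Ik k) : XP.κk κ i ≠ 0 :=
  prod_ne_zero_iff.2 fun _ _ => kq_ne h _ _

lemma Lk_self {k : ℕ} (i : XP.Ik k) : XP.Lk i i = false := by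
  unfold XP.Lk
  rw [decide_eq_false_iff_not, not_not]
  exact i.2

section

variable {f : ℤ[X]} {z : ℕ}

lemma br_diff (hz : Gd f z) {p : ℕ} (hp : p.Prime) (hpz : z < p) :
    0 ≤ (rho f p : ℝ) / p ∧ (rho f p : ℝ) / p ≤ br f p ∧
      br f p ≤ (rho f p : ℝ) / p + 2 * (f.natDegree : ℝ) ^ 2 * (1 / (p : ℝ) ^ 2) := by
  have h1 : (rho f p : ℝ) ≤ f.natDegree := by exact_mod_cast hz.few p hp hpz
  have h2 : (2 * f.natDegree + 3 : ℝ) ≤ p := by
    have := hz.big
    exact_mod_cast (by omega : 2 * f.natDegree + 3 ≤ p)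
  have hn : (0 : ℝ) ≤ f.natDegree := Nat.cast_nonneg _
  have hr : (0 : ℝ) ≤ rho f p := Nat.cast_nonneg _
  have hp0 : (0 : ℝ) < p := by linarith
  have hpn : (0 : ℝ) < (p : ℝ) - f.natDegree := by linarith
  refine ⟨by positivity, ?_, ?_⟩
  · unfold br
    exact div_le_div_of_nonneg_left hr hpn (by linarith)
  · unfold br
    have e1 : (rho f p : ℝ) / ((p : ℝ) - f.natDegree) = (rho f p : ℝ) / p +
        (rho f p : ℝ) * f.natDegree / (p * (p - f.natDegree)) := by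
      field_simp
      ring
    rw [e1]
    have e2 : (rho f p : ℝ) * f.natDegree / (p * (p - f.natDegree)) ≤
        2 * (f.natDegree : ℝ) ^ 2 * (1 / (p : ℝ) ^ 2) := by
      rw [mul_one_div, div_le_div_iff₀ (by positivity) (by positivity)]
      have e3 : (rho f p : ℝ) * f.natDegree ≤ (f.natDegree : ℝ) ^ 2 := by nlinarith
      have e4 : (p : ℝ) ^ 2 ≤ 2 * (p * (p - f.natDegree)) := by nlinarith
      calc (rho f p : ℝ) * f.natDegree * (p : ℝ) ^ 2
          ≤ (f.natDegree : ℝ) ^ 2 * (2 * (p * (p - f.natDegree))) :=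
            mul_le_mul e3 e4 (by positivity) (by positivity)
        _ = _ := by ring
    linarith

lemma br_nonneg (hz : Gd f z) {p : ℕ} (hp : p.Prime) (hpz : z < p) : 0 ≤ br f p :=
  (br_diff hz hp hpz).1.trans (br_diff hz hp hpz).2.1

lemma br_le (hz : Gd f z) {p : ℕ} (hp : p.Prime) (hpz : z < p) :
    br f p ≤ 2 * (f.natDegree : ℝ) * (1 / (p : ℝ)) := by
  have h1 : (rho f p : ℝ) ≤ f.natDegree := by exact_mod_cast hz.few p hp hpz
  have h2 : (2 * f.natDegree + 3 : ℝ) ≤ p := by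
    have := hz.big
    exact_mod_cast (by omega : 2 * f.natDegree + 3 ≤ p)
  have hn : (0 : ℝ) ≤ f.natDegree := Nat.cast_nonneg _
  have hp0 : (0 : ℝ) < p := by linarith
  have hpn : (0 : ℝ) < (p : ℝ) - f.natDegree := by linarith
  unfold br
  rw [mul_one_div, div_le_div_iff₀ hpn hp0]
  nlinarith

lemma sum_rho (hz : Gd f z) {g : ℕ} (hM : Mer f g) : ∃ C : ℝ, 0 ≤ C ∧ ∀ y, z < y →
    ∑ p ∈ PS z y, (rho f p : ℝ) / p ≤ g * Real.log (Real.log y) + C := by
  obtain ⟨C, hC⟩ := hM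
  refine ⟨|C|, abs_nonneg _, fun y hy => ?_⟩
  have hy3 : 3 ≤ y := by
    have := hz.big
    omega
  have h1 : ∑ p ∈ PS z y, (rho f p : ℝ) / p ≤
      ∑ p ∈ (Icc 1 y).filter Nat.Prime, (rho f p : ℝ) / p := by
    apply sum_le_sum_of_subset_of_nonneg
    · intro p hp
      exact mem_filter.2 ⟨mem_Icc.2 ⟨(PS_prime hp).one_lt.le, PS_le hp⟩, PS_prime hp⟩
    · intro p _ _
      positivity
  have h2 := (abs_le.1 (hC y hy3)).2
  have := le_abs_self C
  linarith

lemma sum_br (hz : Gd f z) {g : ℕ} (hM : Mer f g) : ∃ C : ℝ, 0 ≤ C ∧ ∀ y, z < y →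
    ∑ p ∈ PS z y, br f p ≤ g * Real.log (Real.log y) + C := by
  obtain ⟨C, hC0, hC⟩ := sum_rho hz hM
  obtain ⟨K, hK, hsq⟩ := sum_inv_sq
  refine ⟨C + 2 * (f.natDegree : ℝ) ^ 2 * K, by positivity, fun y hy => ?_⟩
  calc ∑ p ∈ PS z y, br f p ≤ ∑ p ∈ PS z y, ((rho f p : ℝ) / p +
        2 * (f.natDegree : ℝ) ^ 2 * (1 / (p : ℝ) ^ 2)) :=
        sum_le_sum fun p hp => (br_diff hz (PS_prime hp) (PS_lt hp)).2.2
    _ = ∑ p ∈ PS z y, (rho f p : ℝ) / p + 2 * (f.natDegree : ℝ) ^ 2 *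
        ∑ p ∈ PS z y, (1 / (p : ℝ) ^ 2) := by rw [sum_add_distrib, mul_sum]
    _ ≤ (g * Real.log (Real.log y) + C) + 2 * (f.natDegree : ℝ) ^ 2 * K :=
        add_le_add (hC y hy) (mul_le_mul_of_nonneg_left (hsq _) (by positivity))
    _ = _ := by ring

end

/-- the average is bounded by `(log y) ^ g` -/
theorem avg_bound (hb : BLW) {f : ℤ[X]} {z g k : ℕ} {κ : Fin 3 → ℤ} (hz : Gd f z) (hg : 1 ≤ g)
    (hM : Mer f g) (hU : Utw f z) (hκ : ∀ i, κ i ≠ 0) (hκz : ∀ i, (κ i).natAbs ≤ z)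
    (hκk : ∀ i : XP.Ik k, (XP.κk κ i).natAbs ≤ z) (hk : 2 * f.natDegree ≤ 4 ^ k)
    (hk2 : 2 * g ≤ 4 ^ k) :
    ∃ C : ℝ, ∀ y, z < y → ∑ s ∈ (PP z y).divisors, NBk k κ s * gm (br f) s ≤
      C * (Real.log y) ^ g := by
  have hz2 : 2 ≤ z := by have := hz.big; omega
  have h4 : (0 : ℝ) < 4 ^ k := by positivity
  have hq : ((1 : ℝ) / 4) ^ k = 1 / 4 ^ k := by rw [div_pow, one_pow]
  have hgr : (1 : ℝ) ≤ g := by exact_mod_cast hg
  have hkr : 2 * (f.natDegree : ℝ) ≤ 4 ^ k := by exact_mod_cast hk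
  have hk2r : 2 * (g : ℝ) ≤ 4 ^ k := by exact_mod_cast hk2
  obtain ⟨Cb, hCb0, hCb⟩ := sum_br hz hM
  obtain ⟨K, hK, hsq⟩ := sum_inv_sq
  set e : XP.Ik k → ℝ := fun _ => (1 / 4) ^ k * g with he
  set b : XP.Ik k → ℕ → ℝ := fun _ p => (1 / 4) ^ k * br f p with hbdef
  obtain ⟨C, B, hB⟩ := AT.bd_of (ι := XP.Ik k) (e := e) (a := fun i => XP.ak κ (br f) i) (b := b)
    (z := z) hz2
    (fun i => by simp only [he]; positivity)
    (fun i => by
      simp only [he]
      rw [hq, one_div_mul_eq_div, div_le_iff₀ h4]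
      linarith)
    (fun i p hp hpz => by
      have h1 := br_nonneg hz hp hpz
      simp only [hbdef, XP.ak]
      rw [abs_mul, abs_of_nonneg (by positivity : 0 ≤ (1 / 4 : ℝ) ^ k * br f p)]
      exact mul_le_of_le_one_right (by positivity) (abs_Jr_le _ _))
    (fun i p hp hpz => by
      have h1 := br_le hz hp hpz
      have hp0 : (0 : ℝ) < p := by exact_mod_cast hp.pos
      simp only [hbdef]
      rw [hq]
      calc 1 / 4 ^ k * br f p ≤ 1 / 4 ^ k * (2 * (f.natDegree : ℝ) * (1 / (p : ℝ))) :=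
            mul_le_mul_of_nonneg_left h1 (by positivity)
        _ = (2 * (f.natDegree : ℝ) / 4 ^ k) * (1 / (p : ℝ)) := by ring
        _ ≤ 1 * (1 / (p : ℝ)) := by
            apply mul_le_mul_of_nonneg_right _ (by positivity)
            rw [div_le_one h4]
            exact hkr
        _ = _ := one_mul _)
    (fun i => by
      refine ⟨(1 / 4) ^ k * Cb, fun y hy => ?_⟩
      simp only [hbdef, he]
      rw [← mul_sum, mul_assoc, ← mul_add]
      exact mul_le_mul_of_nonneg_left (hCb y hy) (by positivity))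
    (fun i => by
      obtain ⟨B0, C1, h⟩ := hU (XP.κk κ i) (κk_ne hκ i) (hκk i)
      refine ⟨(1 / 4) ^ k * B0, (1 / 4) ^ k * (C1 + 2 * (f.natDegree : ℝ) ^ 2 * K),
        fun y r x hy hr hrs hrp => ?_⟩
      have h1 := h y r x hy hr hrs hrp
      have h2 : ∑ p ∈ PS z y, XP.ak κ (br f) i p * (Jr p r * x4 x p) ≤
          (1 / 4) ^ k * (∑ p ∈ PS z y, (rho f p : ℝ) / p * (Jr p r * Jr (XP.κk κ i) p * x4 x p) +
            2 * (f.natDegree : ℝ) ^ 2 * ∑ p ∈ PS z y, (1 / (p : ℝ) ^ 2)) := by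
        rw [mul_sum, ← sum_add_distrib, mul_sum]
        apply sum_le_sum
        intro p hp
        obtain ⟨d1, d2, d3⟩ := br_diff hz (PS_prime hp) (PS_lt hp)
        set c : ℝ := Jr p r * Jr (XP.κk κ i) p * x4 x p with hc
        have hc1 : |c| ≤ 1 := by
          rw [hc, abs_mul, abs_mul]
          exact mul_le_one₀ (mul_le_one₀ (abs_Jr_le _ _) (abs_nonneg _) (abs_Jr_le _ _))
            (abs_nonneg _) (abs_x4_le _ _)
        have hc2 := (abs_le.1 hc1)
        have e1 : XP.ak κ (br f) i p * (Jr p r * x4 x p) = (1 / 4) ^ k * (br f p * c) := by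
          unfold XP.ak
          rw [hc]
          ring
        rw [e1]
        apply mul_le_mul_of_nonneg_left _ (by positivity)
        nlinarith
      refine h2.trans ?_
      have e0 : (1 / 4 : ℝ) ^ k * B0 * Real.log (Real.log r) +
          (1 / 4) ^ k * (C1 + 2 * (f.natDegree : ℝ) ^ 2 * K) =
          (1 / 4) ^ k * (B0 * Real.log (Real.log r) + (C1 + 2 * (f.natDegree : ℝ) ^ 2 * K)) := by
        ring
      rw [e0]
      apply mul_le_mul_of_nonneg_left _ (by positivity)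
      have h3 := mul_le_mul_of_nonneg_left (hsq (PS z y))
        (by positivity : 0 ≤ 2 * (f.natDegree : ℝ) ^ 2)
      linarith)
  obtain ⟨C', hC'⟩ := AT.main (L := XP.Lk) hb hB Lk_self (g : ℝ) (by
    intro U hU
    have h1 := XP.comb U hU
    have h2 : (U.card : ℝ) ≤ 4 ^ k := by exact_mod_cast h1
    simp only [he]
    rw [sum_const, nsmul_eq_mul, hq]
    calc (U.card : ℝ) * (1 / 4 ^ k * g) = (U.card / 4 ^ k) * g := by ring
      _ ≤ 1 * g := by
          apply mul_le_mul_of_nonneg_right _ (by linarith)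
          rw [div_le_one h4]
          exact h2
      _ = g := one_mul _)
  refine ⟨C', fun y hy => ?_⟩
  rw [XP.expand κ (br f) hκ hκz]
  refine (le_trans (le_abs_self _) (hC' y hy)).trans (le_of_eq ?_)
  rw [Real.rpow_natCast]

end Run7.h69
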