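import Mathlib
import Pool.Agent.Run7.h69.AV
import Pool.Agent.H373R2.T7.Fund

/-!
# Upper bound sieve for polynomial values in short intervals and residue classes
-/

set_option autoImplicit false
set_option linter.unusedSectionVars false

namespace Run7.h69

open Finset Polynomial
open Pool.Agent.W262.RK hiding lk ff s1 s2
open Pool.Agent.W655.RK (PS_prime PS_lt PS_le)
open Pool.Agent.H373R2.T7 (nuB PerB pz sys_fund mem_pz)

namespace SV

/-- sums over the residues -/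
lemma sum_zmod {p : ℕ} [NeZero p] (F : ZMod p → ℕ) :
    ∑ x ∈ range p, F (x : ZMod p) = ∑ a : ZMod p, F a := by
  refine sum_nbij' (fun x : ℕ => (x : ZMod p)) ZMod.val ?_ ?_ ?_ ?_ ?_
  · intro x _
    exact mem_univ _
  · intro a _
    exact mem_range.2 (ZMod.val_lt a)
  · intro x hx
    exact ZMod.val_natCast_of_lt (mem_range.1 hx)
  · intro a _
    exact ZMod.natCast_zmod_val a
  · intro x _
    rfl

lemma dvd_eval_iff (f : ℤ[X]) (p : ℕ) (v : ℤ) :
    (p : ℤ) ∣ f.eval v ↔ (f.map (Int.castRingHom (ZMod p))).eval (v : ZMod p) = 0 := by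
  rw [eval_intCast_map, ← ZMod.intCast_zmod_eq_zero_iff_dvd]
  rfl

/-- the excluded classes -/
def QQ (f : ℤ[X]) (z y m : ℕ) (r0 : ℤ) (p n : ℕ) : Prop :=
  p ∈ PS z y ∧ ¬ p ∣ m ∧ (p : ℤ) ∣ f.eval (r0 + m * ((n : ℤ) - 1))

lemma QQ_per (f : ℤ[X]) (z y m : ℕ) (r0 : ℤ) (p n : ℕ) :
    QQ f z y m r0 p n ↔ QQ f z y m r0 p (n % p) := by
  unfold QQ
  have h : (p : ℤ) ∣ f.eval (r0 + m * ((n : ℤ) - 1)) - f.eval (r0 + m * (((n % p : ℕ) : ℤ) - 1)) := by
    refine Dvd.dvd.trans ?_ (sub_dvd_eval_sub _ _ f)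
    have h1 : r0 + m * ((n : ℤ) - 1) - (r0 + m * (((n % p : ℕ) : ℤ) - 1)) =
        m * ((n : ℤ) - ((n % p : ℕ) : ℤ)) := by ring
    rw [h1]
    apply Dvd.dvd.mul_left
    have h2 := Nat.mod_add_div n p
    have h3 : (n : ℤ) - ((n % p : ℕ) : ℤ) = p * ((n / p : ℕ) : ℤ) := by
      zify at h2
      push_cast
      linarith
    rw [h3]
    exact Dvd.intro _ rfl
  constructor
  · rintro ⟨h1, h2, h3⟩
    exact ⟨h1, h2, (dvd_sub_right h3).1 h⟩
  · rintro ⟨h1, h2, h3⟩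
    refine ⟨h1, h2, ?_⟩
    have := dvd_add h h3
    rwa [sub_add_cancel] at this

open Classical in
lemma nu_eq (f : ℤ[X]) {z y m : ℕ} (r0 : ℤ) {p : ℕ} (hp : p ∈ PS z y) (hpm : ¬ p ∣ m) :
    nuB (QQ f z y m r0) p = rho f p := by
  have hpp := PS_prime hp
  have : Fact p.Prime := ⟨hpp⟩
  set F : (ZMod p)[X] := f.map (Int.castRingHom (ZMod p)) with hF
  have hm0 : (m : ZMod p) ≠ 0 := by
    rw [Ne, ZMod.natCast_eq_zero_iff]
    exact hpm
  set F1 : ZMod p → ℕ := fun b => if F.eval b = 0 then 1 else 0 with hF1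
  have h1 : nuB (QQ f z y m r0) p =
      ∑ x ∈ range p, (fun b : ZMod p => F1 ((r0 : ZMod p) + m * (b - 1))) (x : ZMod p) := by
    unfold nuB
    rw [card_filter]
    refine sum_congr rfl fun x _ => ?_
    simp only [hF1]
    refine if_congr ?_ rfl rfl
    unfold QQ
    rw [dvd_eval_iff]
    push_cast
    exact ⟨fun h => h.2.2, fun h => ⟨hp, hpm, h⟩⟩
  have h2 : rho f p = ∑ x ∈ range p, F1 (x : ZMod p) := by
    show ((Finset.range p).filter (fun a : ℕ => (p : ℤ) ∣ f.eval (a : ℤ))).card = _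
    rw [card_filter]
    refine sum_congr rfl fun x _ => ?_
    simp only [hF1]
    refine if_congr ?_ rfl rfl
    rw [dvd_eval_iff]
    push_cast
    rfl
  rw [h1, h2, sum_zmod (fun b : ZMod p => F1 ((r0 : ZMod p) + m * (b - 1))), sum_zmod F1]
  have hb : Function.Bijective (fun b : ZMod p => (r0 : ZMod p) + m * (b - 1)) := by
    apply Function.bijective_iff_has_inverse.2
    refine ⟨fun c => (m : ZMod p)⁻¹ * (c - r0) + 1, fun b => ?_, fun c => ?_⟩
    · field_simp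
      ring
    · field_simp
      ring
  exact hb.sum_comp F1

open Classical in
lemma count_le (f : ℤ[X]) (z y H m : ℕ) (x r : ℤ) (hm : 0 < m) :
    ∃ r0 : ℤ, ((Ioc x (x + H)).filter (fun t : ℤ => (m : ℤ) ∣ t - r ∧ ∀ p ∈ PS z y, ¬ p ∣ m →
      ¬ (p : ℤ) ∣ f.eval t)).card ≤
      ((Icc 1 (H / m + 1)).filter (fun n : ℕ => ∀ p ∈ pz y, ¬ QQ f z y m r0 p n)).card := by
  have hmz : (0 : ℤ) < m := by exact_mod_cast hm
  set r0 : ℤ := x + 1 + (r - x - 1) % m with hr0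
  have h0 : 0 ≤ (r - x - 1) % m := Int.emod_nonneg _ hmz.ne'
  have h1 : (r - x - 1) % m < m := Int.emod_lt_of_pos _ hmz
  have hr : (m : ℤ) ∣ r - r0 := by
    rw [hr0]
    have h2 : r - (x + 1 + (r - x - 1) % m) = (r - x - 1) - (r - x - 1) % m := by ring
    rw [h2]
    exact Int.dvd_self_sub_emod
  have key : ∀ t : ℤ, (m : ℤ) ∣ t - r → x < t → ∃ n : ℕ, 1 ≤ n ∧ t = r0 + m * ((n : ℤ) - 1) := by
    intro t ht hxt
    obtain ⟨q, hq⟩ := dvd_add ht hr
    have e1 : t - r0 = m * q := by linarith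
    have hq0 : 0 ≤ q := by
      by_contra hneg
      have h3 : q ≤ -1 := by omega
      have h4 : (m : ℤ) * q ≤ -m := by nlinarith
      linarith
    refine ⟨(q + 1).toNat, by omega, ?_⟩
    rw [Int.toNat_of_nonneg (by omega)]
    linarith
  refine ⟨r0, ?_⟩
  apply card_le_card_of_injOn (fun t => ((t - r0) / m).toNat + 1)
  · intro t ht
    have ht' := Finset.mem_coe.1 ht
    obtain ⟨ht1, ht2⟩ := mem_filter.1 ht'
    have htX := mem_Ioc.1 ht1
    obtain ⟨hmod, hnd⟩ := ht2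
    obtain ⟨n, hn1, hn⟩ := key t hmod htX.1
    have e2 : (t - r0) / m = (n : ℤ) - 1 := by
      rw [hn, add_sub_cancel_left]
      exact Int.mul_ediv_cancel_left _ hmz.ne'
    have e3 : ((t - r0) / m).toNat + 1 = n := by
      rw [e2]
      omega
    simp only
    rw [Finset.mem_coe, mem_filter, e3, mem_Icc]
    refine ⟨⟨hn1, ?_⟩, fun p _ hQ => ?_⟩
    · have h3 : (m : ℤ) * ((n : ℤ) - 1) ≤ H := by
        have : t ≤ x + H := htX.2
        linarith
      have h4 : m * (n - 1) ≤ H := by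
        zify [hn1]
        exact h3
      have h5 : n - 1 ≤ H / m := by
        rw [Nat.le_div_iff_mul_le hm, mul_comm]
        exact h4
      omega
    · obtain ⟨hpPS, hpm, hj⟩ := hQ
      rw [← hn] at hj
      exact hnd p hpPS hpm hj
  · intro a ha b hb hab
    obtain ⟨ha1, ha2⟩ := mem_filter.1 (Finset.mem_coe.1 ha)
    obtain ⟨hb1, hb2⟩ := mem_filter.1 (Finset.mem_coe.1 hb)
    obtain ⟨n, hn1, hn⟩ := key a ha2.1 (mem_Ioc.1 ha1).1
    obtain ⟨n', hn1', hn'⟩ := key b hb2.1 (mem_Ioc.1 hb1).1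
    have e2 : (a - r0) / m = (n : ℤ) - 1 := by
      rw [hn, add_sub_cancel_left]
      exact Int.mul_ediv_cancel_left _ hmz.ne'
    have e2' : (b - r0) / m = (n' : ℤ) - 1 := by
      rw [hn', add_sub_cancel_left]
      exact Int.mul_ediv_cancel_left _ hmz.ne'
    simp only at hab
    rw [e2, e2'] at hab
    have : n = n' := by omega
    rw [hn, hn', this]

/-- the product over the primes -/
lemma prod_le {f : ℤ[X]} {z g : ℕ} (hz : Gd f z) (hM : Mer f g) : ∃ C : ℝ, 0 ≤ C ∧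
    ∀ y : ℕ, 3 ≤ y → z < y → ∏ p ∈ PS z y, (1 - (rho f p : ℝ) / p) ≤ C / (Real.log y) ^ g := by
  obtain ⟨C, hC⟩ := hM
  set D : ℝ := ∑ p ∈ (Icc 1 z).filter Nat.Prime, (rho f p : ℝ) / p with hD
  refine ⟨Real.exp (|C| + D), (Real.exp_pos _).le, fun y hy3 hy => ?_⟩
  have hly : 0 < Real.log y := Real.log_pos (by exact_mod_cast (by omega : 1 < y))
  have h1 : ∏ p ∈ PS z y, (1 - (rho f p : ℝ) / p) ≤ Real.exp (-∑ p ∈ PS z y, (rho f p : ℝ) / p) := by
    rw [← sum_neg_distrib, Real.exp_sum]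
    apply prod_le_prod
    · intro p hp
      have h2 : (rho f p : ℝ) ≤ f.natDegree := by
        exact_mod_cast hz.few p (PS_prime hp) (PS_lt hp)
      have h3 : (f.natDegree : ℝ) ≤ p := by
        have := hz.big
        have := PS_lt hp
        exact_mod_cast (by omega : f.natDegree ≤ p)
      have hp0 : (0 : ℝ) < p := by exact_mod_cast (PS_prime hp).pos
      rw [sub_nonneg, div_le_one hp0]
      linarith
    · intro p _
      have := Real.add_one_le_exp (-((rho f p : ℝ) / p))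
      linarith
  have h2 : ∑ p ∈ (Icc 1 y).filter Nat.Prime, (rho f p : ℝ) / p ≤
      D + ∑ p ∈ PS z y, (rho f p : ℝ) / p := by
    have hsub : (Icc 1 y).filter Nat.Prime ⊆ (Icc 1 z).filter Nat.Prime ∪ PS z y := by
      intro p hp
      rw [mem_filter, mem_Icc] at hp
      rw [mem_union, mem_filter, mem_Icc, mem_PS]
      by_cases h : p ≤ z
      · exact Or.inl ⟨⟨hp.1.1, h⟩, hp.2⟩
      · exact Or.inr ⟨⟨by omega, hp.1.2⟩, hp.2⟩
    refine (sum_le_sum_of_subset_of_nonneg hsub fun p _ _ => by positivity).trans ?_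
    rw [hD, ← sum_union_inter]
    exact le_add_of_nonneg_right (sum_nonneg fun p _ => by positivity)
  have h3 := (abs_le.1 (hC y hy3)).1
  have h4 : -∑ p ∈ PS z y, (rho f p : ℝ) / p ≤ (|C| + D) - g * Real.log (Real.log y) := by
    have := le_abs_self C
    linarith
  have h5 : Real.exp ((|C| + D) - g * Real.log (Real.log y)) =
      Real.exp (|C| + D) / (Real.log y) ^ g := by
    rw [Real.exp_sub]
    congr 1
    rw [← Real.log_pow, Real.exp_log (by positivity)]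
  rw [← h5]
  exact h1.trans (Real.exp_le_exp.2 h4)

set_option maxHeartbeats 1000000 in
/-- the sieve -/
theorem sieve {f : ℤ[X]} {z g : ℕ} (hz : Gd f z) (hM : Mer f g) :
    ∃ (C : ℝ) (K y0 : ℕ), 0 ≤ C ∧ 1 ≤ K ∧ ∀ (x : ℤ) (H y : ℕ), y0 ≤ y → z < y → y ^ K ≤ H →
    ∀ (m : ℕ) (r : ℤ), 1 ≤ m → m ^ 4 ≤ H →
      (((Ioc x (x + H)).filter (fun t : ℤ => (m : ℤ) ∣ t - r ∧ ∀ p ∈ PS z y, ¬ p ∣ m →
        ¬ (p : ℤ) ∣ f.eval t)).card : ℝ) ≤
      C * (H / m) * (∏ p ∈ m.primeFactors.filter (fun p => p ∈ PS z y),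
        (p : ℝ) / ((p : ℝ) - f.natDegree)) / (Real.log y) ^ g := by
  classical
  obtain ⟨c, hc⟩ : ∃ c, c = f.natDegree := ⟨_, rfl⟩
  obtain ⟨K', x0', hK', hF⟩ := sys_fund (c + 1) (by omega) 1 one_pos
  obtain ⟨C1, hC1, hP⟩ := prod_le hz hM
  have hzb := hz.big
  rw [← hc] at hzb
  refine ⟨4 * C1 + 1, 2 * (K' + g), max x0' 3, by positivity, by omega,
    fun x X y hy hzy hyX m r hm1 hmX4 => ?_⟩
  rw [← hc]
  have hy0 : x0' ≤ y := (le_max_left _ _).trans hy
  have hy3 : 3 ≤ y := (le_max_right _ _).trans hy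
  have hmpos : 0 < m := hm1
  have hm0 : m ≠ 0 := hmpos.ne'
  obtain ⟨r0, hr⟩ := count_le f z y X m x r hmpos
  have hnu : ∀ p ∈ PS z y, ¬ p ∣ m → nuB (QQ f z y m r0) p = rho f p := fun p hp hpm =>
    nu_eq f r0 hp hpm
  have hnu0 : ∀ p, ¬ (p ∈ PS z y ∧ ¬ p ∣ m) → nuB (QQ f z y m r0) p = 0 := by
    intro p hp
    unfold nuB
    rw [card_eq_zero, filter_eq_empty_iff]
    intro n _ hn
    exact hp ⟨hn.1, hn.2.1⟩
  have hrc : ∀ p ∈ PS z y, (rho f p : ℝ) ≤ c := by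
    intro p hp
    rw [hc]
    exact_mod_cast hz.few p (PS_prime hp) (PS_lt hp)
  have hPer : PerB (QQ f z y m r0) (c + 1) := by
    refine ⟨fun p n => QQ_per f z y m r0 p n, fun p _ => ?_⟩
    by_cases h : p ∈ PS z y ∧ ¬ p ∣ m
    · rw [hnu p h.1 h.2]
      have h1 : rho f p ≤ c := by
        rw [hc]
        exact hz.few p (PS_prime h.1) (PS_lt h.1)
      omega
    · rw [hnu0 p h]
      exact Nat.zero_le _
  have hfund := hF (y ^ K') y hy0 le_rfl (QQ f z y m r0) hPer (X / m + 1)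
  have hprod : ∏ p ∈ pz y, (1 - ((nuB (QQ f z y m r0) p : ℕ) : ℝ) / p) =
      ∏ p ∈ (PS z y).filter (fun p => ¬ p ∣ m), (1 - (rho f p : ℝ) / p) := by
    have h1 : ∏ p ∈ (PS z y).filter (fun p => ¬ p ∣ m),
        (1 - ((nuB (QQ f z y m r0) p : ℕ) : ℝ) / p) =
        ∏ p ∈ pz y, (1 - ((nuB (QQ f z y m r0) p : ℕ) : ℝ) / p) := by
      apply prod_subset
      · intro p hp
        rw [mem_filter, mem_PS] at hp
        exact mem_pz.2 ⟨hp.1.1.2, hp.1.2⟩
      · intro p _ hp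
        rw [mem_filter] at hp
        rw [hnu0 p hp]
        simp
    rw [← h1]
    refine prod_congr rfl fun p hp => ?_
    rw [mem_filter] at hp
    rw [hnu p hp.1 hp.2]
  rw [hprod] at hfund
  obtain ⟨A, hA⟩ : ∃ A : ℝ, A = ∏ p ∈ (PS z y).filter (fun p => ¬ p ∣ m),
    (1 - (rho f p : ℝ) / p) := ⟨_, rfl⟩
  obtain ⟨B, hB⟩ : ∃ B : ℝ, B = ∏ p ∈ m.primeFactors.filter (fun p => p ∈ PS z y),
    (1 - (rho f p : ℝ) / p) := ⟨_, rfl⟩
  obtain ⟨D, hD⟩ : ∃ D : ℝ, D = ∏ p ∈ m.primeFactors.filter (fun p => p ∈ PS z y),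
    ((p : ℝ) / ((p : ℝ) - c)) := ⟨_, rfl⟩
  have hc0 : (0 : ℝ) ≤ c := Nat.cast_nonneg c
  have hzc : ∀ p ∈ PS z y, (c : ℝ) + 1 ≤ p := by
    intro p hp
    have h1 := PS_lt hp
    exact_mod_cast (by omega : c + 1 ≤ p)
  have hfpos : ∀ p ∈ PS z y, 0 < 1 - (rho f p : ℝ) / p := by
    intro p hp
    have h1 := hzc p hp
    have h2 := hrc p hp
    have hp0 : (0 : ℝ) < p := by exact_mod_cast (PS_prime hp).pos
    rw [sub_pos, div_lt_one hp0]
    linarith
  have hApos : 0 < A := by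
    rw [hA]; exact prod_pos fun p hp => hfpos p (mem_filter.1 hp).1
  have hBpos : 0 < B := by
    rw [hB]; exact prod_pos fun p hp => hfpos p (mem_filter.1 hp).2
  have hAB : A * B = ∏ p ∈ PS z y, (1 - (rho f p : ℝ) / p) := by
    have h1 : m.primeFactors.filter (fun p => p ∈ PS z y) = (PS z y).filter (fun p => ¬ ¬ p ∣ m) := by
      ext p
      rw [mem_filter, mem_filter, not_not]
      constructor
      · rintro ⟨hp, hp2⟩
        exact ⟨hp2, Nat.dvd_of_mem_primeFactors hp⟩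
      · rintro ⟨h2, h3⟩
        exact ⟨Nat.mem_primeFactors.2 ⟨PS_prime h2, h3, hm0⟩, h2⟩
    rw [hA, hB, h1]
    exact prod_filter_mul_prod_filter_not _ _ _
  have hDB : 1 ≤ D * B := by
    rw [hD, hB, ← prod_mul_distrib]
    have h1 : ∀ p ∈ m.primeFactors.filter (fun p => p ∈ PS z y),
        (1 : ℝ) ≤ (p : ℝ) / ((p : ℝ) - c) * (1 - (rho f p : ℝ) / p) := by
      intro p hp
      have h1 := hzc p (mem_filter.1 hp).2
      have h2 := hrc p (mem_filter.1 hp).2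
      have hp0 : (0 : ℝ) < p := by linarith
      have h3 : 0 < (p : ℝ) - c := by linarith
      have h4 : (p : ℝ) / ((p : ℝ) - c) * (1 - (rho f p : ℝ) / p) =
          ((p : ℝ) - rho f p) / (p - c) := by
        field_simp
      rw [h4, le_div_iff₀ h3]
      linarith
    calc (1 : ℝ) = ∏ p ∈ m.primeFactors.filter (fun p => p ∈ PS z y), (1 : ℝ) := by
          rw [prod_const_one]
      _ ≤ _ := prod_le_prod (fun _ _ => zero_le_one) h1
  have hD1 : 1 ≤ D := by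
    rw [hD]
    have h1 : ∀ p ∈ m.primeFactors.filter (fun p => p ∈ PS z y),
        (1 : ℝ) ≤ (p : ℝ) / ((p : ℝ) - c) := by
      intro p hp
      have h1 := hzc p (mem_filter.1 hp).2
      have h2 : 0 < (p : ℝ) - c := by linarith
      rw [le_div_iff₀ h2]
      linarith
    calc (1 : ℝ) = ∏ p ∈ m.primeFactors.filter (fun p => p ∈ PS z y), (1 : ℝ) := by
          rw [prod_const_one]
      _ ≤ _ := prod_le_prod (fun _ _ => zero_le_one) h1
  have hDpos : 0 < D := by linarith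
  have hAle : A ≤ (C1 / (Real.log y) ^ g) * D := by
    calc A = A * 1 := (mul_one _).symm
      _ ≤ A * (D * B) := mul_le_mul_of_nonneg_left hDB hApos.le
      _ = (A * B) * D := by ring
      _ ≤ _ := by
          rw [hAB]
          exact mul_le_mul_of_nonneg_right (hP y hy3 hzy) hDpos.le
  have hyr : (3 : ℝ) ≤ y := by exact_mod_cast hy3
  have hl1 : 1 < Real.log y := by
    rw [Real.lt_log_iff_exp_lt (by linarith)]
    have := Real.exp_one_lt_d9
    linarith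
  have hly : Real.log y ≤ y := by
    have := Real.log_le_sub_one_of_pos (by linarith : (0 : ℝ) < y)
    linarith
  have hLpos : 0 < (Real.log y) ^ g := by positivity
  have hmX : m * y ^ (K' + g) ≤ X := by
    have h1 : (m * y ^ (K' + g)) ^ 4 ≤ X ^ 4 := by
      calc (m * y ^ (K' + g)) ^ 4 = m ^ 4 * (y ^ (K' + g)) ^ 4 := by rw [mul_pow]
        _ ≤ m ^ 4 * (y ^ (K' + g)) ^ 6 := by
          apply Nat.mul_le_mul_left
          exact Nat.pow_le_pow_right (pow_pos (by omega) _) (by norm_num)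
        _ = m ^ 4 * (y ^ (2 * (K' + g))) ^ 3 := by ring
        _ ≤ X * X ^ 3 := Nat.mul_le_mul hmX4 (Nat.pow_le_pow_left hyX 3)
        _ = X ^ 4 := by ring
    exact (Nat.pow_le_pow_iff_left (by norm_num)).1 h1
  have hmX' : m ≤ X := by
    refine le_trans ?_ hmX
    exact Nat.le_mul_of_pos_right _ (pow_pos (by omega) _)
  have hmr : (0 : ℝ) < m := by exact_mod_cast hmpos
  have hcnt : (((Ioc x (x + X)).filter (fun t : ℤ => (m : ℤ) ∣ t - r ∧ ∀ p ∈ PS z y, ¬ p ∣ m →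
      ¬ (p : ℤ) ∣ f.eval t)).card : ℝ) ≤
      2 * (((X / m + 1 : ℕ) : ℝ) * A) + √((y ^ K' : ℕ) : ℝ) := by
    have h1 : (((Ioc x (x + X)).filter (fun t : ℤ => (m : ℤ) ∣ t - r ∧ ∀ p ∈ PS z y, ¬ p ∣ m →
        ¬ (p : ℤ) ∣ f.eval t)).card : ℝ) ≤
      (((Icc 1 (X / m + 1)).filter
        (fun n : ℕ => ∀ p ∈ pz y, ¬ QQ f z y m r0 p n)).card : ℝ) := by
      exact_mod_cast hr
    have h2 := (abs_le.1 hfund).2
    rw [one_mul, ← hA] at h2
    linarith
  have hX' : ((X / m + 1 : ℕ) : ℝ) ≤ 2 * (X / m) := by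
    have h1 : (X / m + 1) * m ≤ 2 * X := by
      have := Nat.div_mul_le_self X m
      rw [add_mul, one_mul]
      omega
    have h2 : ((X / m + 1 : ℕ) : ℝ) * m ≤ 2 * X := by exact_mod_cast h1
    rw [← mul_div_assoc, le_div_iff₀ hmr]
    exact h2
  have hsq : √((y ^ K' : ℕ) : ℝ) ≤ (X / m) * D / (Real.log y) ^ g := by
    have h1 : (1 : ℝ) ≤ ((y ^ K' : ℕ) : ℝ) := by
      exact_mod_cast Nat.one_le_iff_ne_zero.2 (pow_ne_zero _ (by omega))
    have h2 : √((y ^ K' : ℕ) : ℝ) ≤ ((y ^ K' : ℕ) : ℝ) := by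
      rw [Real.sqrt_le_left (by linarith)]
      nlinarith
    refine h2.trans ?_
    rw [le_div_iff₀ hLpos]
    have h3 : (Real.log y) ^ g ≤ (y : ℝ) ^ g := pow_le_pow_left₀ (by linarith) hly _
    have h4 : (m : ℝ) * (y : ℝ) ^ (K' + g) ≤ X := by exact_mod_cast hmX
    have h5 : (y : ℝ) ^ (K' + g) ≤ X / m := by
      rw [le_div_iff₀ hmr, mul_comm]
      exact h4
    push_cast
    calc (y : ℝ) ^ K' * (Real.log y) ^ g ≤ (y : ℝ) ^ K' * (y : ℝ) ^ g :=
          mul_le_mul_of_nonneg_left h3 (by positivity)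
      _ = (y : ℝ) ^ (K' + g) := by rw [pow_add]
      _ ≤ X / m := h5
      _ = (X / m) * 1 := (mul_one _).symm
      _ ≤ (X / m) * D := mul_le_mul_of_nonneg_left hD1 (by positivity)
  have hmain : 2 * (((X / m + 1 : ℕ) : ℝ) * A) ≤ 4 * C1 * (X / m) * D / (Real.log y) ^ g := by
    calc 2 * (((X / m + 1 : ℕ) : ℝ) * A) ≤
        2 * ((2 * (X / m)) * ((C1 / (Real.log y) ^ g) * D)) := by gcongr
      _ = _ := by ring
  rw [← hD]
  calc (((Ioc x (x + X)).filter (fun t : ℤ => (m : ℤ) ∣ t - r ∧ ∀ p ∈ PS z y, ¬ p ∣ m →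
      ¬ (p : ℤ) ∣ f.eval t)).card : ℝ)
      ≤ 2 * (((X / m + 1 : ℕ) : ℝ) * A) + √((y ^ K' : ℕ) : ℝ) := hcnt
    _ ≤ 4 * C1 * (X / m) * D / (Real.log y) ^ g + (X / m) * D / (Real.log y) ^ g :=
        add_le_add hmain hsq
    _ = (4 * C1 + 1) * (X / m) * D / (Real.log y) ^ g := by ring

end SV

end Run7.h69
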