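import Mathlib
import Pool.Agent.Run7.h69.SV
import Pool.Agent.W372.RK2.CNT4

/-!
# The number of `t` with given small prime factors of `f(t)` and given signs
-/

set_option autoImplicit false
set_option linter.unusedSectionVars false

namespace Run7.h69

open Finset Polynomial
open Pool.Agent.W262.RK hiding lk ff s1 s2
open Pool.Agent.W655.RK (PS_prime PS_lt PS_le)
open Pool.Agent.W372.RK2 (sq_pow_dvd card_W WW)

/-- the product of the primes of `(z, y]` that divide `f(t)` exactly once -/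
noncomputable def t1 (f : ℤ[X]) (z y : ℕ) (t : ℤ) : ℕ :=
  ∏ p ∈ (PS z y).filter (fun p : ℕ => (p : ℤ) ∣ f.eval t ∧ ¬ (p : ℤ) ^ 2 ∣ f.eval t), p

/-- the product of the primes of `(z, y]` whose square divides `f(t)` -/
noncomputable def t2 (f : ℤ[X]) (z y : ℕ) (t : ℤ) : ℕ :=
  ∏ p ∈ (PS z y).filter (fun p : ℕ => (p : ℤ) ^ 2 ∣ f.eval t), p

/-- the primes with negative sign -/
noncomputable def ng (f : ℤ[X]) (t : ℤ) (s : ℕ) : Finset ℕ :=
  s.primeFactors.filter (fun p => jacobiSym (f.eval t / p) p = -1)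

/-- the sieve weight for the medium primes -/
noncomputable def ru (f : ℤ[X]) (p : ℕ) : ℝ := (rho f p : ℝ) / p

namespace CN

variable {f : ℤ[X]} {z y : ℕ}

lemma dvd_t1 {t : ℤ} {p : ℕ} (hp : p.Prime) :
    p ∣ t1 f z y t ↔ p ∈ PS z y ∧ (p : ℤ) ∣ f.eval t ∧ ¬ (p : ℤ) ^ 2 ∣ f.eval t := by
  unfold t1
  constructor
  · intro h
    obtain ⟨q, hq, hpq⟩ := (hp.prime.dvd_finsetProd_iff _).1 h
    rw [mem_filter] at hq
    rw [(Nat.prime_dvd_prime_iff_eq hp (mem_PS.1 hq.1).2).1 hpq]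
    exact hq
  · intro h
    exact dvd_prod_of_mem _ (mem_filter.2 h)

lemma dvd_t2 {t : ℤ} {p : ℕ} (hp : p.Prime) :
    p ∣ t2 f z y t ↔ p ∈ PS z y ∧ (p : ℤ) ^ 2 ∣ f.eval t := by
  unfold t2
  constructor
  · intro h
    obtain ⟨q, hq, hpq⟩ := (hp.prime.dvd_finsetProd_iff _).1 h
    rw [mem_filter] at hq
    rw [(Nat.prime_dvd_prime_iff_eq hp (mem_PS.1 hq.1).2).1 hpq]
    exact hq
  · intro h
    exact dvd_prod_of_mem _ (mem_filter.2 h)

/-- the roots modulo `p` -/
noncomputable def Rt (f : ℤ[X]) (p : ℕ) : Finset ℕ :=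
  (range p).filter (fun a : ℕ => (p : ℤ) ∣ f.eval (a : ℤ))

lemma card_Rt (f : ℤ[X]) (p : ℕ) : (Rt f p).card = rho f p := rfl

lemma mem_Rt {t : ℤ} {p : ℕ} (hp : p.Prime) (h : (p : ℤ) ∣ f.eval t) :
    (t % p).toNat ∈ Rt f p := by
  have hpos : (0 : ℤ) < p := by exact_mod_cast hp.pos
  have h0 := Int.emod_nonneg t hpos.ne'
  have h1 := Int.emod_lt_of_pos t hpos
  unfold Rt
  rw [mem_filter, mem_range]
  refine ⟨by omega, ?_⟩
  rw [Int.toNat_of_nonneg h0]
  have h2 : (p : ℤ) ∣ f.eval t - f.eval (t % p) :=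
    Dvd.dvd.trans Int.dvd_self_sub_emod (sub_dvd_eval_sub _ _ f)
  exact (dvd_sub_right h).1 h2

/-- uniqueness in Hensel's lemma -/
lemma hensel (hz : Gd f z) {p : ℕ} (hp : p.Prime) (hpz : z < p) {t t' : ℤ}
    (ht : (p : ℤ) ∣ f.eval t') (h1 : (p : ℤ) ∣ t - t')
    (h2 : (p : ℤ) ^ 2 ∣ f.eval t - f.eval t') : (p : ℤ) ^ 2 ∣ t - t' := by
  obtain ⟨k, hk⟩ := Polynomial.binomExpansion f t' (t - t')
  have e : t' + (t - t') = t := by ring
  rw [e] at hk
  have h3 : f.eval t - f.eval t' = (t - t') * ((derivative f).eval t' + k * (t - t')) := by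
    rw [hk]; ring
  rw [h3] at h2
  have hpp := Nat.prime_iff_prime_int.1 hp
  have h4 : ¬ (p : ℤ) ∣ (derivative f).eval t' + k * (t - t') := by
    intro h5
    apply hz.simp p hp hpz t' ht
    exact (dvd_add_left (h1.mul_left k)).1 h5
  exact hpp.pow_dvd_of_dvd_mul_right 2 h4 h2

lemma mod_eq_dvd {p : ℕ} (hp : p.Prime) {t t' : ℤ} (h : (t % p).toNat = (t' % p).toNat) :
    (p : ℤ) ∣ t - t' := by
  have hpos : (0 : ℤ) < p := by exact_mod_cast hp.pos
  have h0 := Int.emod_nonneg t hpos.ne'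
  have h1 := Int.emod_nonneg t' hpos.ne'
  have h2 : t % p = t' % p := by omega
  exact Int.ModEq.dvd h2.symm

/-- the facts about the counted `t` -/
structure Good (f : ℤ[X]) (z y s v u : ℕ) (t : ℤ) : Prop where
  hs : t1 f z y t = s
  hv : t2 f z y t = v
  hu : (u : ℤ) ∣ f.eval t

variable {Y s v u : ℕ} {t : ℤ}

lemma Good.fs (g : Good f z y s v u t) {p : ℕ} (hp : p.Prime) (h : p ∣ s) :
    p ∈ PS z y ∧ (p : ℤ) ∣ f.eval t ∧ ¬ (p : ℤ) ^ 2 ∣ f.eval t := by
  rw [← g.hs] at h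
  exact (dvd_t1 hp).1 h

lemma Good.fv (g : Good f z y s v u t) {p : ℕ} (hp : p.Prime) (h : p ∣ v) :
    p ∈ PS z y ∧ (p : ℤ) ^ 2 ∣ f.eval t := by
  rw [← g.hv] at h
  exact (dvd_t2 hp).1 h

lemma Good.fu (g : Good f z y s v u t) (hu : u ∣ PP y Y) {p : ℕ} (hp : p.Prime)
    (h : p ∣ u) : p ∈ PS y Y ∧ (p : ℤ) ∣ f.eval t :=
  ⟨(prime_dvd_PP hp).1 (h.trans hu), (Int.natCast_dvd_natCast.2 h).trans g.hu⟩

/-- the residues of the quotients -/
noncomputable def Phi (f : ℤ[X]) (s v u : ℕ) (t : ℤ) :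
    ((s * v * u).primeFactors → ℕ) × (s.primeFactors → ℕ) :=
  (fun p => (t % (p.1 : ℤ)).toNat, fun p => ((f.eval t / (p.1 : ℤ)) % (p.1 : ℤ)).toNat)

/-- the possible values -/
noncomputable def Cod (f : ℤ[X]) (s v u : ℕ) (E : Finset ℕ) :
    Finset (((s * v * u).primeFactors → ℕ) × (s.primeFactors → ℕ)) :=
  Fintype.piFinset (fun p : (s * v * u).primeFactors => Rt f p.1) ×ˢ
    Fintype.piFinset (fun p : s.primeFactors => WW E p.1)

lemma Phi_mem (hz : Gd f z) (g : Good f z y s v u t) (hu : u ∣ PP y Y) {E : Finset ℕ}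
    (hE : ng f t s = E) : Phi f s v u t ∈ Cod f s v u E := by
  unfold Phi Cod
  rw [mem_product, Fintype.mem_piFinset, Fintype.mem_piFinset]
  constructor
  · rintro ⟨p, hp0⟩
    have hp : p.Prime := Nat.prime_of_mem_primeFactors hp0
    have hd := Nat.dvd_of_mem_primeFactors hp0
    simp only
    apply mem_Rt hp
    rcases hp.dvd_mul.1 hd with h | h
    · rcases hp.dvd_mul.1 h with h | h
      · exact (g.fs hp h).2.1
      · exact (dvd_pow_self (p : ℤ) two_ne_zero).trans (g.fv hp h).2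
    · exact (g.fu hu hp h).2
  · rintro ⟨p, hp3⟩
    have hp : p.Prime := Nat.prime_of_mem_primeFactors hp3
    have hps := Nat.dvd_of_mem_primeFactors hp3
    unfold WW
    simp only
    obtain ⟨hP, hd, hd2⟩ := g.fs hp hps
    have hpos : (0 : ℤ) < p := by exact_mod_cast hp.pos
    have h0 : 0 ≤ (f.eval t / (p : ℤ)) % (p : ℤ) := Int.emod_nonneg _ hpos.ne'
    rw [mem_filter, mem_range]
    constructor
    · have h1 := Int.emod_lt_of_pos (f.eval t / (p : ℤ)) hpos
      omega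
    · rw [Int.toNat_of_nonneg h0, ← jacobiSym.mod_left]
      split_ifs with hpE
      · rw [← hE] at hpE
        unfold ng at hpE
        rw [mem_filter] at hpE
        exact hpE.2
      · have h1 : jacobiSym (f.eval t / (p : ℤ)) p ≠ -1 := by
          intro h
          apply hpE
          rw [← hE]
          unfold ng
          exact mem_filter.2 ⟨hp3, h⟩
        have h2 : jacobiSym (f.eval t / (p : ℤ)) p ≠ 0 := by
          have : NeZero p := ⟨hp.ne_zero⟩
          rw [Ne, jacobiSym.eq_zero_iff_not_coprime, not_not, Int.gcd_comm]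
          rw [Int.gcd_eq_natAbs, Int.natAbs_natCast]
          apply (hp.coprime_iff_not_dvd).2
          intro h
          apply hd2
          have h3 : (p : ℤ) ∣ f.eval t / (p : ℤ) := Int.natCast_dvd.2 h
          have h4 : f.eval t = p * (f.eval t / p) := (Int.mul_ediv_cancel' hd).symm
          rw [h4, sq]
          exact mul_dvd_mul_left _ h3
        rcases jacobiSym.trichotomy (f.eval t / (p : ℤ)) p with h | h | h
        · exact absurd h h2
        · exact h
        · exact absurd h h1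

/-- the modulus -/
def md (s v u : ℕ) : ℕ := s ^ 2 * v ^ 2 * u

/-- two counted `t` with the same residues are congruent -/
lemma congr_of (hz : Gd f z) (hzy : z < y) (hs : s ∣ PP z y) (hv : v ∣ PP z y)
    (hu : u ∣ PP y Y) {t t' : ℤ} (g : Good f z y s v u t) (g' : Good f z y s v u t')
    (h : Phi f s v u t = Phi f s v u t') : ((md s v u : ℕ) : ℤ) ∣ t - t' := by
  have hs0 : s ≠ 0 := fun h => PP_ne_zero z y (Nat.eq_zero_of_zero_dvd (h ▸ hs))
  have hv0 : v ≠ 0 := fun h => PP_ne_zero z y (Nat.eq_zero_of_zero_dvd (h ▸ hv))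
  have hu0 : u ≠ 0 := fun h => PP_ne_zero y Y (Nat.eq_zero_of_zero_dvd (h ▸ hu))
  have hsq := (PP_squarefree z y).squarefree_of_dvd hs
  have hvq := (PP_squarefree z y).squarefree_of_dvd hv
  have huq := (PP_squarefree y Y).squarefree_of_dvd hu
  have h1 : ∀ p : ℕ, p.Prime → p ∣ s * v * u → (p : ℤ) ∣ t - t' := by
    intro p hp hd
    have h2 := congrFun (congrArg Prod.fst h) ⟨p, Nat.mem_primeFactors.2
      ⟨hp, hd, mul_ne_zero (mul_ne_zero hs0 hv0) hu0⟩⟩
    exact mod_eq_dvd hp h2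
  have h2 : ((s : ℤ)) ^ 2 ∣ t - t' := by
    apply sq_pow_dvd hsq 2
    intro p hp hps
    obtain ⟨a1, a2, a3⟩ := g.fs hp hps
    obtain ⟨b1, b2, b3⟩ := g'.fs hp hps
    apply hensel hz hp (PS_lt a1) b2 (h1 p hp ((hps.mul_right _).mul_right _))
    have h3 := congrFun (congrArg Prod.snd h) ⟨p, Nat.mem_primeFactors.2 ⟨hp, hps, hs0⟩⟩
    have h4 : (p : ℤ) ∣ f.eval t / p - f.eval t' / p := mod_eq_dvd hp h3
    have e1 : f.eval t = p * (f.eval t / p) := (Int.mul_ediv_cancel' a2).symm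
    have e2 : f.eval t' = p * (f.eval t' / p) := (Int.mul_ediv_cancel' b2).symm
    rw [e1, e2, ← mul_sub, sq]
    exact mul_dvd_mul_left _ h4
  have h3 : ((v : ℤ)) ^ 2 ∣ t - t' := by
    apply sq_pow_dvd hvq 2
    intro p hp hps
    obtain ⟨a1, a2⟩ := g.fv hp hps
    obtain ⟨b1, b2⟩ := g'.fv hp hps
    exact hensel hz hp (PS_lt a1) ((dvd_pow_self (p : ℤ) two_ne_zero).trans b2)
      (h1 p hp ((hps.mul_left _).mul_right _)) (dvd_sub a2 b2)
  have h4 : (u : ℤ) ∣ t - t' := by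
    have := sq_pow_dvd huq 1 (t - t') (fun p hp hps => by
      rw [pow_one]
      exact h1 p hp (hps.mul_left _))
    rwa [pow_one] at this
  have hcop1 : IsCoprime ((s : ℤ) ^ 2) ((v : ℤ) ^ 2) := by
    apply IsCoprime.pow
    rw [Nat.isCoprime_iff_coprime]
    apply Nat.coprime_of_dvd
    intro p hp hps hpv
    exact (g.fs hp hps).2.2 (g.fv hp hpv).2
  have hcop2 : IsCoprime ((s : ℤ) ^ 2 * (v : ℤ) ^ 2) (u : ℤ) := by
    rw [← mul_pow]
    apply IsCoprime.pow_left
    rw [← Nat.cast_mul, Nat.isCoprime_iff_coprime]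
    apply Nat.coprime_of_dvd
    intro p hp hps hpu
    have h8 := PS_lt (g.fu hu hp hpu).1
    have h9 : p ≤ y := by
      rcases hp.dvd_mul.1 hps with h | h
      · exact PS_le (g.fs hp h).1
      · exact PS_le (g.fv hp h).1
    omega
  unfold md
  push_cast
  exact hcop2.mul_dvd (hcop1.mul_dvd h2 h3) h4

lemma gm_mul (a b : ℕ → ℝ) (d : ℕ) : gm (fun p => a p * b p) d = gm a d * gm b d := by
  unfold gm
  exact prod_mul_distrib

lemma gm_id {d : ℕ} (hd : Squarefree d) : gm (fun p => (p : ℝ)) d = d := by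
  unfold gm
  rw [← Nat.cast_prod, Nat.prod_primeFactors_of_squarefree hd]

lemma gm_coprime (a : ℕ → ℝ) {m n : ℕ} (h : m.Coprime n) : gm a (m * n) = gm a m * gm a n := by
  unfold gm
  rw [h.primeFactors_mul, prod_union h.disjoint_primeFactors]

lemma card_Cod (hz : 2 ≤ z) (hs : s ∣ PP z y) (E : Finset ℕ) :
    ((Cod f s v u E).card : ℝ) ≤
      gm (fun p => (rho f p : ℝ)) (s * v * u) * ((1 / 2) ^ s.primeFactors.card * s) := by
  unfold Cod
  rw [card_product, Fintype.card_piFinset, Fintype.card_piFinset, Nat.cast_mul]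
  have h0 : ∏ p : (s * v * u).primeFactors, (Rt f p.1).card =
      ∏ p ∈ (s * v * u).primeFactors, (Rt f p).card :=
    prod_coe_sort (s * v * u).primeFactors (fun p => (Rt f p).card)
  have h0' : ∏ p : s.primeFactors, (WW E p.1).card = ∏ p ∈ s.primeFactors, (WW E p).card :=
    prod_coe_sort s.primeFactors (fun p => (WW E p).card)
  rw [h0, h0']
  have h1 : ∀ p ∈ s.primeFactors, (((WW E p).card : ℕ) : ℝ) ≤ (1 / 2) * (p : ℝ) := by
    intro p hp
    have hpp := Nat.prime_of_mem_primeFactors hp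
    have hp2 : p ≠ 2 := by
      have := PS_lt ((prime_dvd_PP hpp).1 ((Nat.dvd_of_mem_primeFactors hp).trans hs))
      omega
    have h2 := card_W hpp hp2 (if p ∈ E then -1 else 1) (by split_ifs <;> simp)
    have h3 : 2 * (WW E p).card ≤ p := by
      unfold WW
      omega
    have h4 : (2 : ℝ) * ((WW E p).card : ℝ) ≤ p := by exact_mod_cast h3
    linarith
  have h2 : ((∏ p ∈ s.primeFactors, (WW E p).card : ℕ) : ℝ) ≤ (1 / 2) ^ s.primeFactors.card * s := by
    rw [Nat.cast_prod]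
    refine (prod_le_prod (fun _ _ => Nat.cast_nonneg _) h1).trans ?_
    rw [prod_mul_distrib, prod_const]
    apply mul_le_mul_of_nonneg_left _ (by positivity)
    rw [← Nat.cast_prod, Nat.prod_primeFactors_of_squarefree
      ((PP_squarefree z y).squarefree_of_dvd hs)]
  have h3 : ((∏ p ∈ (s * v * u).primeFactors, (Rt f p).card : ℕ) : ℝ) =
      gm (fun p => (rho f p : ℝ)) (s * v * u) := by
    rw [Nat.cast_prod]
    rfl
  rw [h3]
  exact mul_le_mul_of_nonneg_left h2 (prod_nonneg fun p _ => Nat.cast_nonneg _)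

/-- the count -/
theorem count {g : ℕ} (hz : Gd f z) (hM : Mer f g) :
    ∃ (C : ℝ) (K y0 : ℕ), 0 ≤ C ∧ 1 ≤ K ∧ ∀ (x : ℤ) (X y Y : ℕ), y0 ≤ y → z < y → y ^ K ≤ X →
    ∀ s v u : ℕ, s ∣ PP z y → v ∣ PP z y → u ∣ PP y Y → (s * v * u) ^ 8 ≤ X → ∀ E : Finset ℕ,
    (((Ioc x (x + X)).filter (fun t : ℤ => t1 f z y t = s ∧ t2 f z y t = v ∧
      (u : ℤ) ∣ f.eval t ∧ ng f t s = E)).card : ℝ) ≤
      C * X * (1 / 2) ^ s.primeFactors.card * gm (br f) s * (gm (br f) v / v) * gm (ru f) u /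
        (Real.log y) ^ g := by
  obtain ⟨C, K, y0, hC, hK, hSV⟩ := SV.sieve hz hM
  refine ⟨C, K, y0, hC, hK, ?_⟩
  intro x X y Y hy0 hzy hX s v u hs hv hu hsvu E
  have hzb := hz.big
  have hz2 : 2 ≤ z := by omega
  have hs' : s ∈ (PP z y).divisors := Nat.mem_divisors.2 ⟨hs, PP_ne_zero z y⟩
  have hv' : v ∈ (PP z y).divisors := Nat.mem_divisors.2 ⟨hv, PP_ne_zero z y⟩
  have hu' : u ∈ (PP y Y).divisors := Nat.mem_divisors.2 ⟨hu, PP_ne_zero y Y⟩
  have hs0 := dv_ne_zero hs'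
  have hv0 := dv_ne_zero hv'
  have hu0 := dv_ne_zero hu'
  have hsq := dv_squarefree hs'
  have hvq := dv_squarefree hv'
  have huq := dv_squarefree hu'
  have hlog : 0 ≤ (Real.log y) ^ g := pow_nonneg (Real.log_natCast_nonneg y) _
  have hbr : ∀ {w : ℕ}, w ∈ (PP z y).divisors → 0 ≤ gm (br f) w := fun hw =>
    AT.gm_nonneg (fun p hp hpz => br_nonneg hz hp hpz) hw
  have hru : 0 ≤ gm (ru f) u := prod_nonneg fun p _ => by unfold ru; positivity
  set T := (Ioc x (x + X)).filter (fun t : ℤ => t1 f z y t = s ∧ t2 f z y t = v ∧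
      (u : ℤ) ∣ f.eval t ∧ ng f t s = E) with hT
  have hgood : ∀ t ∈ T, Good f z y s v u t ∧ ng f t s = E := by
    intro t ht
    rw [hT, mem_filter] at ht
    exact ⟨⟨ht.2.1, ht.2.2.1, ht.2.2.2.1⟩, ht.2.2.2.2⟩
  rcases T.eq_empty_or_nonempty with hTe | ⟨t0, ht0⟩
  · rw [hTe, card_empty, Nat.cast_zero]
    apply div_nonneg _ hlog
    have h1 := hbr hs'
    have h2 := hbr hv'
    positivity
  set m := md s v u with hm
  have hm1 : 1 ≤ m := by
    rw [hm]
    unfold md
    exact Nat.succ_le_of_lt (by positivity)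
  have hm4 : m ^ 4 ≤ X := by
    refine le_trans ?_ hsvu
    have h1 : m ≤ (s * v * u) ^ 2 := by
      rw [hm]
      unfold md
      have h3 : 1 ≤ u := Nat.one_le_iff_ne_zero.2 hu0
      calc s ^ 2 * v ^ 2 * u ≤ s ^ 2 * v ^ 2 * (u * u) :=
            Nat.mul_le_mul_left _ (Nat.le_mul_of_pos_left u h3)
        _ = (s * v * u) ^ 2 := by ring
    calc m ^ 4 ≤ ((s * v * u) ^ 2) ^ 4 := Nat.pow_le_pow_left h1 4
      _ = (s * v * u) ^ 8 := by rw [← pow_mul]
  have hg0 := (hgood t0 ht0).1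
  have hcsv : s.Coprime v := by
    apply Nat.coprime_of_dvd
    intro p hp hps hpv
    exact (hg0.fs hp hps).2.2 (hg0.fv hp hpv).2
  have hcu : (s * v).Coprime u := by
    apply Nat.coprime_of_dvd
    intro p hp hps hpu
    have h8 := PS_lt (hg0.fu hu hp hpu).1
    have h9 : p ≤ y := by
      rcases hp.dvd_mul.1 hps with h | h
      · exact PS_le (hg0.fs hp h).1
      · exact PS_le (hg0.fv hp h).1
    omega
  -- bound for a fibre
  set B : ℝ := C * (X / m) * (∏ p ∈ m.primeFactors.filter (fun p => p ∈ PS z y),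
        (p : ℝ) / ((p : ℝ) - f.natDegree)) / (Real.log y) ^ g with hBdef
  have hfib : ∀ φ, ((T.filter (fun t : ℤ => Phi f s v u t = φ)).card : ℝ) ≤ B := by
    intro φ
    rcases (T.filter (fun t : ℤ => Phi f s v u t = φ)).eq_empty_or_nonempty with
      he | ⟨r, hr⟩
    · rw [he, card_empty, Nat.cast_zero]
      exact le_trans (Nat.cast_nonneg _) (hSV x X y hy0 hzy hX m 0 hm1 hm4)
    · refine le_trans ?_ (hSV x X y hy0 hzy hX m r hm1 hm4)
      rw [Nat.cast_le]
      apply card_le_card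
      intro t ht
      rw [mem_filter] at ht hr
      have g := (hgood t ht.1).1
      have g' := (hgood r hr.1).1
      have htX : t ∈ Ioc x (x + X) := (mem_filter.1 ht.1).1
      rw [mem_filter]
      refine ⟨htX, ?_, ?_⟩
      · exact congr_of hz hzy hs hv hu g g' (ht.2.trans hr.2.symm)
      · intro p hpP hpm hpf
        have hp := (mem_PS.1 hpP).2
        apply hpm
        rw [hm]
        unfold md
        by_cases h2 : (p : ℤ) ^ 2 ∣ f.eval t
        · have h3 : p ∣ v := by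
            rw [← g.hv]
            exact (dvd_t2 hp).2 ⟨hpP, h2⟩
          exact ((h3.pow two_ne_zero).mul_left _).mul_right _
        · have h3 : p ∣ s := by
            rw [← g.hs]
            exact (dvd_t1 hp).2 ⟨hpP, hpf, h2⟩
          exact ((h3.pow two_ne_zero).mul_right _).mul_right _
  have hB0 : 0 ≤ B := le_trans (Nat.cast_nonneg _) (hSV x X y hy0 hzy hX m 0 hm1 hm4)
  have hcard : (T.card : ℝ) ≤ ((Cod f s v u E).card : ℝ) * B := by
    rw [card_eq_sum_card_fiberwise (f := fun t : ℤ => Phi f s v u t)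
      (t := Cod f s v u E)
      (fun t ht => Phi_mem hz (hgood t ht).1 hu (hgood t ht).2)]
    rw [Nat.cast_sum]
    refine (sum_le_sum fun φ _ => hfib φ).trans ?_
    rw [sum_const, nsmul_eq_mul]
  refine hcard.trans ((mul_le_mul_of_nonneg_right (card_Cod hz2 hs E) hB0).trans ?_)
  -- the product over the primes
  have hpf : m.primeFactors.filter (fun p => p ∈ PS z y) = (s * v).primeFactors := by
    ext p
    rw [mem_filter, Nat.mem_primeFactors, Nat.mem_primeFactors]
    constructor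
    · rintro ⟨⟨hp, hd, -⟩, hpP⟩
      refine ⟨hp, ?_, mul_ne_zero hs0 hv0⟩
      rw [hm] at hd
      unfold md at hd
      rcases hp.dvd_mul.1 hd with h | h
      · rcases hp.dvd_mul.1 h with h | h
        · exact (hp.dvd_of_dvd_pow h).mul_right _
        · exact (hp.dvd_of_dvd_pow h).mul_left _
      · exfalso
        have h1 := PS_lt (hg0.fu hu hp h).1
        have h2 := PS_le hpP
        omega
    · rintro ⟨hp, hd, -⟩
      have h1 : p ∈ PS z y := by
        rcases hp.dvd_mul.1 hd with h | h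
        · exact (hg0.fs hp h).1
        · exact (hg0.fv hp h).1
      refine ⟨⟨hp, ?_, by omega⟩, h1⟩
      rw [hm]
      unfold md
      rcases hp.dvd_mul.1 hd with h | h
      · exact ((h.pow two_ne_zero).mul_right _).mul_right _
      · exact ((h.pow two_ne_zero).mul_left _).mul_right _
  have hprod : ∏ p ∈ m.primeFactors.filter (fun p => p ∈ PS z y),
      (p : ℝ) / ((p : ℝ) - f.natDegree) =
      (s * gm (fun p => 1 / ((p : ℝ) - f.natDegree)) s) *
        (v * gm (fun p => 1 / ((p : ℝ) - f.natDegree)) v) := by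
    rw [hpf]
    have h1 : ∏ p ∈ (s * v).primeFactors, (p : ℝ) / ((p : ℝ) - f.natDegree) =
        gm (fun p => (p : ℝ) * (1 / ((p : ℝ) - f.natDegree))) (s * v) := by
      unfold gm
      exact prod_congr rfl fun p _ => by ring
    rw [h1, gm_coprime _ hcsv, gm_mul, gm_mul, gm_id hsq, gm_id hvq]
  have hρ : gm (fun p => (rho f p : ℝ)) (s * v * u) = gm (fun p => (rho f p : ℝ)) s *
      gm (fun p => (rho f p : ℝ)) v * gm (fun p => (rho f p : ℝ)) u := by
    rw [gm_coprime _ hcu, gm_coprime _ hcsv]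
  have hb : ∀ w : ℕ, gm (br f) w = gm (fun p => (rho f p : ℝ)) w *
      gm (fun p => 1 / ((p : ℝ) - f.natDegree)) w := by
    intro w
    rw [← gm_mul]
    unfold gm
    exact prod_congr rfl fun p _ => by unfold br; ring
  have hru' : gm (ru f) u * u = gm (fun p => (rho f p : ℝ)) u := by
    conv_lhs => rw [← gm_id huq]
    rw [← gm_mul]
    unfold gm
    refine prod_congr rfl fun p hp => ?_
    have : (p : ℝ) ≠ 0 := by exact_mod_cast (Nat.prime_of_mem_primeFactors hp).ne_zero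
    unfold ru
    field_simp
  have hsr : (s : ℝ) ≠ 0 := Nat.cast_ne_zero.2 hs0
  have hvr : (v : ℝ) ≠ 0 := Nat.cast_ne_zero.2 hv0
  have hur : (u : ℝ) ≠ 0 := Nat.cast_ne_zero.2 hu0
  have hmr : (m : ℝ) = (s : ℝ) ^ 2 * (v : ℝ) ^ 2 * u := by
    rw [hm]
    unfold md
    push_cast
    ring
  rw [hBdef, hprod, hρ, hb s, hb v, ← hru', hmr]
  apply le_of_eq
  field_simp

end CN

end Run7.h69
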