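import Mathlib
import Pool.Agent.Run7.h69.AV
import Pool.Agent.W405.RK2.RS
import Pool.Agent.W591.RK2.RVRU

/-!
# Rankin's trick for the weighted sums over divisors
-/

set_option autoImplicit false
set_option linter.unusedSectionVars false

namespace Run7.h69

open Finset Polynomial
open Pool.Agent.W262.RK hiding lk ff s1 s2
open Pool.Agent.W405.RK2 (HH HH_nonneg rpow_expand exp_sub_one_le)
open Pool.Agent.W591.RK2 (sum_dv cast_eq sum_sq_le log_bd sum_inv_le)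

namespace RX

lemma gm_nn {z y : ℕ} {a : ℕ → ℝ} (ha : ∀ p ∈ PS z y, 0 ≤ a p) {s : ℕ} (hs : s ∣ PP z y) :
    0 ≤ gm a s := by
  unfold gm
  refine prod_nonneg fun p hp => ha p ?_
  have hp' := Nat.prime_of_mem_primeFactors hp
  exact (prime_dvd_PP hp').1 ((Nat.dvd_of_mem_primeFactors hp).trans hs)

lemma gm_cop (a : ℕ → ℝ) {m n : ℕ} (h : m.Coprime n) : gm a (m * n) = gm a m * gm a n := by
  unfold gm
  rw [Nat.Coprime.primeFactors_mul h, Finset.prod_union (Nat.Coprime.disjoint_primeFactors h)]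

theorem main (z y : ℕ) (a G : ℕ → ℝ) (A δ : ℝ) (hA : 0 ≤ A) (hδ : 0 ≤ δ)
    (ha : ∀ p ∈ PS z y, 0 ≤ a p) (hG : ∀ s, 0 ≤ G s)
    (hg : ∀ s e, s * e ∣ PP z y → G (s * e) ≤ A ^ e.primeFactors.card * G s) :
    ∑ s ∈ (PP z y).divisors, G s * gm a s * (s : ℝ) ^ δ ≤
      Real.exp (∑ p ∈ PS z y, A * a p * ((p : ℝ) ^ δ - 1)) *
        ∑ s ∈ (PP z y).divisors, G s * gm a s := by
  classical
  set F : ℕ × ℕ → ℝ := fun x =>
    (A ^ x.2.primeFactors.card * gm a x.2 * HH δ x.2) * (G x.1 * gm a x.1) with hF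
  have hR : (∑ e ∈ (PP z y).divisors, A ^ e.primeFactors.card * gm a e * HH δ e) *
        ∑ s ∈ (PP z y).divisors, G s * gm a s =
      ∑ x ∈ (PP z y).divisors ×ˢ (PP z y).divisors, F x := by
    rw [sum_mul_sum, sum_product, sum_comm]
  have hFn : ∀ x ∈ (PP z y).divisors ×ˢ (PP z y).divisors, 0 ≤ F x := by
    intro x hx
    rw [mem_product] at hx
    have h1 := gm_nn ha (Nat.dvd_of_mem_divisors hx.1)
    have h2 := gm_nn ha (Nat.dvd_of_mem_divisors hx.2)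
    exact mul_nonneg (mul_nonneg (mul_nonneg (by positivity) h2) (HH_nonneg hδ _))
      (mul_nonneg (hG _) h1)
  have hL : ∀ s ∈ (PP z y).divisors, G s * gm a s * (s : ℝ) ^ δ =
      ∑ e ∈ s.divisors, G s * gm a s * HH δ e := by
    intro s hs
    rw [← mul_sum, rpow_expand δ (dv_squarefree hs)]
  have hexp : ∑ e ∈ (PP z y).divisors, A ^ e.primeFactors.card * gm a e * HH δ e ≤
      Real.exp (∑ p ∈ PS z y, A * a p * ((p : ℝ) ^ δ - 1)) := by
    have h1 : ∀ e ∈ (PP z y).divisors, A ^ e.primeFactors.card * gm a e * HH δ e =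
        ∏ p ∈ e.primeFactors, (A * a p * ((p : ℝ) ^ δ - 1)) := by
      intro e _
      unfold gm HH
      rw [← prod_const, ← prod_mul_distrib, ← prod_mul_distrib]
    rw [sum_congr rfl h1, sum_dv z y (fun p => A * a p * ((p : ℝ) ^ δ - 1)), Real.exp_sum]
    have hnn : ∀ p ∈ PS z y, 0 ≤ A * a p * ((p : ℝ) ^ δ - 1) := by
      intro p hp
      have hp1 : (1 : ℝ) ≤ p := by exact_mod_cast (mem_PS.1 hp).2.one_lt.le
      have := Real.one_le_rpow hp1 hδ
      exact mul_nonneg (mul_nonneg hA (ha p hp)) (by linarith)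
    refine prod_le_prod (fun p hp => by linarith [hnn p hp]) fun p _ => ?_
    linarith [Real.add_one_le_exp (A * a p * ((p : ℝ) ^ δ - 1))]
  refine le_trans ?_ (mul_le_mul_of_nonneg_right hexp
    (sum_nonneg fun s hs => mul_nonneg (hG s) (gm_nn ha (Nat.dvd_of_mem_divisors hs))))
  rw [sum_congr rfl hL, sum_sigma', hR]
  set φ : (Σ _ : ℕ, ℕ) → ℕ × ℕ := fun x => (x.1 / x.2, x.2) with hφ
  have key : ∀ x ∈ (PP z y).divisors.sigma (fun s => s.divisors), x.2 ∣ x.1 ∧ x.1 ∣ PP z y := by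
    intro x hx
    rw [mem_sigma] at hx
    exact ⟨Nat.dvd_of_mem_divisors hx.2, Nat.dvd_of_mem_divisors hx.1⟩
  have hinj : Set.InjOn φ ((PP z y).divisors.sigma (fun s => s.divisors) : Set _) := by
    intro x hx x' hx' hxx
    have k1 := key x (Finset.mem_coe.1 hx)
    have k2 := key x' (Finset.mem_coe.1 hx')
    have e2 : x.2 = x'.2 := congrArg Prod.snd hxx
    have e1 : x.1 / x.2 = x'.1 / x'.2 := congrArg Prod.fst hxx
    have e3 : x.1 = x'.1 := by
      have h4 := Nat.div_mul_cancel k1.1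
      have h5 := Nat.div_mul_cancel k2.1
      rw [← h4, ← h5, e1, e2]
    cases x; cases x'
    simp only at e2 e3
    subst e2; subst e3; rfl
  have hmaps : ∀ x ∈ (PP z y).divisors.sigma (fun s => s.divisors),
      φ x ∈ (PP z y).divisors ×ˢ (PP z y).divisors := by
    intro x hx
    have k := key x hx
    rw [mem_product]
    exact ⟨Nat.mem_divisors.2 ⟨(Nat.div_dvd_of_dvd k.1).trans k.2, PP_ne_zero z y⟩,
      Nat.mem_divisors.2 ⟨k.1.trans k.2, PP_ne_zero z y⟩⟩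
  have hterm : ∀ x ∈ (PP z y).divisors.sigma (fun s => s.divisors),
      G x.1 * gm a x.1 * HH δ x.2 ≤ F (φ x) := by
    intro x hx
    have k := key x hx
    have e0 : (x.1 / x.2) * x.2 = x.1 := Nat.div_mul_cancel k.1
    have h1 : G x.1 ≤ A ^ x.2.primeFactors.card * G (x.1 / x.2) := by
      have := hg (x.1 / x.2) x.2 (by rw [e0]; exact k.2)
      rwa [e0] at this
    have hsq : Squarefree ((x.1 / x.2) * x.2) := by
      rw [e0]
      exact (dv_squarefree (Nat.mem_divisors.2 ⟨k.2, PP_ne_zero z y⟩))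
    have h2 : gm a x.1 = gm a (x.1 / x.2) * gm a x.2 := by
      conv_lhs => rw [← e0]
      exact gm_cop a (Nat.coprime_of_squarefree_mul hsq)
    have n1 : 0 ≤ gm a (x.1 / x.2) := gm_nn ha ((Nat.div_dvd_of_dvd k.1).trans k.2)
    have n2 : 0 ≤ gm a x.2 := gm_nn ha (k.1.trans k.2)
    have n3 : 0 ≤ HH δ x.2 := HH_nonneg hδ _
    have h4 : F (φ x) = A ^ x.2.primeFactors.card * G (x.1 / x.2) *
        (gm a (x.1 / x.2) * gm a x.2 * HH δ x.2) := by
      simp only [hF, hφ]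
      ring
    rw [h4, h2]
    calc G x.1 * (gm a (x.1 / x.2) * gm a x.2) * HH δ x.2
        = G x.1 * (gm a (x.1 / x.2) * gm a x.2 * HH δ x.2) := by ring
      _ ≤ _ := mul_le_mul_of_nonneg_right h1 (mul_nonneg (mul_nonneg n1 n2) n3)
  calc ∑ x ∈ (PP z y).divisors.sigma (fun s => s.divisors), G x.1 * gm a x.1 * HH δ x.2
      ≤ ∑ x ∈ (PP z y).divisors.sigma (fun s => s.divisors), F (φ x) := sum_le_sum hterm
    _ = ∑ w ∈ ((PP z y).divisors.sigma (fun s => s.divisors)).image φ, F w :=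
        (sum_image hinj).symm
    _ ≤ ∑ x ∈ (PP z y).divisors ×ˢ (PP z y).divisors, F x := by
        refine sum_le_sum_of_subset_of_nonneg ?_ fun x hx _ => hFn x hx
        intro w hw
        obtain ⟨x, hx, rfl⟩ := mem_image.1 hw
        exact hmaps x hx

/-- the bracket -/
lemma bracket (z : ℕ) (a : ℕ → ℝ) (A M lam : ℝ) (hz : 2 ≤ z) (hA : 0 ≤ A) (hM : 0 ≤ M)
    (hlam : 0 ≤ lam) (ha : ∀ p : ℕ, p.Prime → z < p → 0 ≤ a p ∧ a p ≤ M / p) :
    ∃ E : ℝ, ∀ y : ℕ, z < y →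
      ∑ p ∈ PS z y, A * a p * ((p : ℝ) ^ (lam / Real.log y) - 1) ≤ E := by
  obtain ⟨C1, hC1⟩ := Pool.Agent.Helper256.KM.mertens_log
  refine ⟨A * M * (lam * Real.exp lam * (1 + |C1|)), fun y hy => ?_⟩
  have hy3 : 3 ≤ y := by omega
  have hyr : (3 : ℝ) ≤ y := by exact_mod_cast hy3
  have hl1 : 1 < Real.log y := by
    rw [Real.lt_log_iff_exp_lt (by linarith)]
    have := Real.exp_one_lt_d9
    linarith
  set δ : ℝ := lam / Real.log y with hδd
  have hδ : 0 ≤ δ := div_nonneg hlam (by linarith)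
  have hψn : ∀ p ∈ PS z y, A * a p * ((p : ℝ) ^ δ - 1) ≤
      A * M * (δ * Real.exp lam) * (Real.log p / p) := by
    intro p hp
    obtain ⟨⟨hpz, hpy⟩, hpp⟩ := mem_PS.1 hp
    have hp1' : (1 : ℝ) ≤ p := by exact_mod_cast hpp.one_lt.le
    have hp0 : (0:ℝ) < p := by linarith
    have hlogp : 0 ≤ Real.log p := Real.log_nonneg hp1'
    have hlogy : Real.log p ≤ Real.log y := Real.log_le_log hp0 (by exact_mod_cast hpy)
    have hx : δ * Real.log p ≤ lam := by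
      rw [hδd, div_mul_eq_mul_div, div_le_iff₀ (by linarith)]
      exact mul_le_mul_of_nonneg_left hlogy hlam
    have hge : 1 ≤ (p : ℝ) ^ δ := Real.one_le_rpow hp1' hδ
    have hle : (p : ℝ) ^ δ - 1 ≤ δ * Real.log p * Real.exp lam := by
      rw [Real.rpow_def_of_pos hp0, mul_comm (Real.log p) δ]
      refine exp_sub_one_le.trans ?_
      exact mul_le_mul_of_nonneg_left (Real.exp_le_exp.2 hx) (mul_nonneg hδ hlogp)
    have h1 := ha p hpp hpz
    calc A * a p * ((p : ℝ) ^ δ - 1) ≤ A * (M / p) * (δ * Real.log p * Real.exp lam) :=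
          mul_le_mul (mul_le_mul_of_nonneg_left h1.2 hA) hle (by linarith) (by positivity)
      _ = A * M * (δ * Real.exp lam) * (Real.log p / p) := by ring
  have a1 : ∑ p ∈ PS z y, A * a p * ((p : ℝ) ^ δ - 1) ≤
      ∑ p ∈ PS z y, A * M * (δ * Real.exp lam) * (Real.log p / p) := sum_le_sum hψn
  rw [← mul_sum] at a1
  have a2 : ∑ p ∈ PS z y, Real.log p / p ≤ ∑ p ∈ (Finset.Icc 1 y).filter Nat.Prime,
      Real.log p / p := by
    refine sum_le_sum_of_subset_of_nonneg ?_ fun p hp _ => ?_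
    · intro p hp
      obtain ⟨⟨hpz, hpy⟩, hpp⟩ := mem_PS.1 hp
      exact mem_filter.2 ⟨mem_Icc.2 ⟨hpp.one_lt.le, hpy⟩, hpp⟩
    · have : (1 : ℝ) ≤ p := by exact_mod_cast (mem_filter.1 hp).2.one_lt.le
      exact div_nonneg (Real.log_nonneg this) (by linarith)
  have a3 := (abs_le.1 (hC1 y (by omega))).2
  have a4 : ∑ p ∈ PS z y, Real.log p / p ≤ Real.log y * (1 + |C1|) := by
    have := le_abs_self C1
    have := abs_nonneg C1
    nlinarith
  have a5 : 0 ≤ A * M * (δ * Real.exp lam) := by positivity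
  calc ∑ p ∈ PS z y, A * a p * ((p : ℝ) ^ δ - 1)
      ≤ A * M * (δ * Real.exp lam) * ∑ p ∈ PS z y, Real.log p / p := a1
    _ ≤ A * M * (δ * Real.exp lam) * (Real.log y * (1 + |C1|)) :=
        mul_le_mul_of_nonneg_left a4 a5
    _ = A * M * ((δ * Real.log y) * Real.exp lam * (1 + |C1|)) := by ring
    _ = _ := by
      have : δ * Real.log y = lam := by
        rw [hδd]
        exact div_mul_cancel₀ _ (by linarith)
      rw [this]

theorem rs (z : ℕ) (a G : ℕ → ℝ) (A M lam : ℝ) (g : ℕ) (C' : ℝ) (hz : 2 ≤ z) (hA : 0 ≤ A)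
    (hM : 0 ≤ M) (hlam : 0 ≤ lam) (ha : ∀ p : ℕ, p.Prime → z < p → 0 ≤ a p ∧ a p ≤ M / p)
    (hG : ∀ s, 0 ≤ G s)
    (hg : ∀ y s e, s * e ∣ PP z y → G (s * e) ≤ A ^ e.primeFactors.card * G s)
    (hS : ∀ y : ℕ, z < y → ∑ s ∈ (PP z y).divisors, G s * gm a s ≤ C' * (Real.log y) ^ g) :
    ∃ A1 : ℝ, 0 ≤ A1 ∧ ∀ y : ℕ, z < y →
      ∑ s ∈ (PP z y).divisors, G s * gm a s * (s : ℝ) ^ (lam / Real.log y) ≤
        A1 * (Real.log y) ^ g := by
  obtain ⟨E, hE⟩ := bracket z a A M lam hz hA hM hlam ha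
  have haP : ∀ y, ∀ p ∈ PS z y, 0 ≤ a p := fun y p hp =>
    (ha p (mem_PS.1 hp).2 (mem_PS.1 hp).1.1).1
  refine ⟨Real.exp E * |C'|, by positivity, fun y hy => ?_⟩
  have hyr : (1 : ℝ) ≤ y := by exact_mod_cast (by omega : 1 ≤ y)
  have hl : 0 ≤ Real.log y := Real.log_nonneg hyr
  have h1 := main z y a G A (lam / Real.log y) hA (div_nonneg hlam hl) (haP y) hG (hg y)
  have h2 : 0 ≤ ∑ s ∈ (PP z y).divisors, G s * gm a s :=
    sum_nonneg fun s hs => mul_nonneg (hG s) (gm_nn (haP y) (Nat.dvd_of_mem_divisors hs))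
  calc _ ≤ _ := h1
    _ ≤ Real.exp E * (|C'| * (Real.log y) ^ g) :=
        mul_le_mul (Real.exp_le_exp.2 (hE y hy)) ((hS y hy).trans
          (mul_le_mul_of_nonneg_right (le_abs_self _) (by positivity))) h2 (Real.exp_pos _).le
    _ = _ := by ring

lemma gen (a b : ℕ) (h : ℕ → ℝ) (hh : ∀ p ∈ PS a b, 0 ≤ h p) :
    ∑ d ∈ (PP a b).divisors, gm h d ≤ Real.exp (∑ p ∈ PS a b, h p) := by
  unfold gm
  rw [sum_dv, Real.exp_sum]
  refine prod_le_prod (fun p hp => by linarith [hh p hp]) fun p _ => ?_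
  linarith [Real.add_one_le_exp (h p)]

lemma gm_rpow (a : ℕ → ℝ) (δ : ℝ) {d : ℕ} (hd : Squarefree d) :
    gm a d * (d : ℝ) ^ δ = gm (fun p => a p * (p : ℝ) ^ δ) d := by
  unfold gm
  rw [prod_mul_distrib]
  congr 1
  rw [cast_eq hd, ← Real.finsetProd_rpow _ _ (fun p _ => Nat.cast_nonneg _)]

theorem rv (z : ℕ) (a : ℕ → ℝ) (A M lam : ℝ) (hz : 2 ≤ z) (hA : 0 ≤ A)
    (hM : 0 ≤ M) (hlam : 0 ≤ lam) (ha : ∀ p : ℕ, p.Prime → z < p → 0 ≤ a p ∧ a p ≤ M / p) :
    ∃ A2 : ℝ, 0 ≤ A2 ∧ ∀ y : ℕ, z < y →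
      ∑ v ∈ (PP z y).divisors, (A ^ v.primeFactors.card * (gm a v / v)) *
        (v : ℝ) ^ (lam / Real.log y) ≤ A2 := by
  refine ⟨Real.exp (A * M * Real.exp lam), by positivity, fun y hy => ?_⟩
  have hyr : (3 : ℝ) ≤ y := by exact_mod_cast (by omega : 3 ≤ y)
  have hl : 0 < Real.log y := Real.log_pos (by linarith)
  set δ := lam / Real.log y with hδ
  have hδ0 : 0 ≤ δ := div_nonneg hlam hl.le
  set h : ℕ → ℝ := fun p => (A * (a p / p)) * (p : ℝ) ^ δ with hh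
  have e : ∀ v ∈ (PP z y).divisors, (A ^ v.primeFactors.card * (gm a v / v)) *
      (v : ℝ) ^ δ = gm h v := by
    intro v hv
    have hsq := dv_squarefree hv
    rw [hh, ← gm_rpow _ _ hsq]
    congr 1
    unfold gm
    rw [prod_mul_distrib, prod_const, prod_div_distrib, ← cast_eq hsq]
  rw [sum_congr rfl e]
  have hnn : ∀ p ∈ PS z y, 0 ≤ h p := by
    intro p hp
    have h1 := (ha p (mem_PS.1 hp).2 (mem_PS.1 hp).1.1).1
    simp only [hh]
    positivity
  refine (gen z y h hnn).trans (Real.exp_le_exp.2 ?_)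
  have hb : ∀ p ∈ PS z y, h p ≤ A * M * Real.exp lam * (1 / (p : ℝ) ^ 2) := by
    intro p hp
    have h1 := ha p (mem_PS.1 hp).2 (mem_PS.1 hp).1.1
    have h2 : (0 : ℝ) < p := by exact_mod_cast (mem_PS.1 hp).2.pos
    have h4 : (p : ℝ) ^ δ ≤ Real.exp lam := by
      have h5 : (p : ℝ) ≤ y := by exact_mod_cast (mem_PS.1 hp).1.2
      calc (p : ℝ) ^ δ ≤ (y : ℝ) ^ δ := Real.rpow_le_rpow h2.le h5 hδ0
        _ = Real.exp lam := by
          rw [Real.rpow_def_of_pos (by linarith), hδ]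
          congr 1
          field_simp
    have h6 : a p / p ≤ M * (1 / (p : ℝ) ^ 2) := by
      calc a p / p ≤ (M / p) / p := div_le_div_of_nonneg_right h1.2 h2.le
        _ = _ := by field_simp
    calc h p ≤ (A * (M * (1 / (p : ℝ) ^ 2))) * Real.exp lam :=
          mul_le_mul (mul_le_mul_of_nonneg_left h6 hA) h4 (by positivity) (by positivity)
      _ = _ := by ring
  calc ∑ p ∈ PS z y, h p ≤ ∑ p ∈ PS z y, A * M * Real.exp lam * (1 / (p : ℝ) ^ 2) :=
        sum_le_sum hb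
    _ = A * M * Real.exp lam * ∑ p ∈ PS z y, 1 / (p : ℝ) ^ 2 := by rw [mul_sum]
    _ ≤ A * M * Real.exp lam * 1 :=
        mul_le_mul_of_nonneg_left (sum_sq_le z y (by omega)) (by positivity)
    _ = _ := mul_one _

theorem ru' (z : ℕ) (a : ℕ → ℝ) (M lam : ℝ) (hz : 2 ≤ z)
    (hM : 0 ≤ M) (hlam : 0 ≤ lam) (ha : ∀ p : ℕ, p.Prime → z < p → 0 ≤ a p ∧ a p ≤ M / p) :
    ∃ A3 : ℝ, 0 ≤ A3 ∧ ∀ y Y : ℕ, z < y → Y ≤ (y + 1) ^ 2 →
      ∑ u ∈ (PP y Y).divisors, gm a u * (u : ℝ) ^ (lam / Real.log y) ≤ A3 := by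
  obtain ⟨C, hC⟩ := sum_inv_le
  refine ⟨Real.exp (M * Real.exp (3 * lam) * C), by positivity, fun y Y hy hY => ?_⟩
  have hyr : (3 : ℝ) ≤ y := by exact_mod_cast (by omega : 3 ≤ y)
  have hl : 0 < Real.log y := Real.log_pos (by linarith)
  set δ := lam / Real.log y with hδ
  have hδ0 : 0 ≤ δ := div_nonneg hlam hl.le
  set h : ℕ → ℝ := fun p => a p * (p : ℝ) ^ δ with hh
  have hza : ∀ p ∈ PS y Y, z < p := fun p hp => lt_trans hy (mem_PS.1 hp).1.1
  have hnn : ∀ p ∈ PS y Y, 0 ≤ h p := by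
    intro p hp
    have h1 := (ha p (mem_PS.1 hp).2 (hza p hp)).1
    simp only [hh]
    positivity
  have e : ∀ u ∈ (PP y Y).divisors, gm a u * (u : ℝ) ^ δ = gm h u := by
    intro u hu
    rw [hh, gm_rpow _ _ (dv_squarefree hu)]
  rw [sum_congr rfl e]
  refine (gen y Y h hnn).trans (Real.exp_le_exp.2 ?_)
  have hb : ∀ p ∈ PS y Y, h p ≤ M * Real.exp (3 * lam) * (1 / (p : ℝ)) := by
    intro p hp
    have h1 := ha p (mem_PS.1 hp).2 (hza p hp)
    have h2 : (0 : ℝ) < p := by exact_mod_cast (mem_PS.1 hp).2.pos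
    have h4 : (p : ℝ) ^ δ ≤ Real.exp (3 * lam) := by
      have h5 : (p : ℝ) ≤ (((y + 1) ^ 2 : ℕ) : ℝ) := by
        exact_mod_cast (mem_PS.1 hp).1.2.trans hY
      calc (p : ℝ) ^ δ ≤ ((((y + 1) ^ 2 : ℕ)) : ℝ) ^ δ := Real.rpow_le_rpow h2.le h5 hδ0
        _ ≤ Real.exp (3 * lam) := by
          rw [Real.rpow_def_of_pos (by positivity)]
          refine Real.exp_le_exp.2 ?_
          calc Real.log (((y + 1) ^ 2 : ℕ) : ℝ) * δ ≤ 3 * Real.log y * δ :=
                mul_le_mul_of_nonneg_right (log_bd y (by omega)) hδ0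
            _ = 3 * lam := by
                rw [hδ]
                field_simp
    calc h p ≤ (M / p) * Real.exp (3 * lam) :=
          mul_le_mul h1.2 h4 (by positivity) (by positivity)
      _ = _ := by ring
  calc ∑ p ∈ PS y Y, h p ≤ ∑ p ∈ PS y Y, M * Real.exp (3 * lam) * (1 / (p : ℝ)) :=
        sum_le_sum hb
    _ = M * Real.exp (3 * lam) * ∑ p ∈ PS y Y, 1 / (p : ℝ) := by rw [mul_sum]
    _ ≤ M * Real.exp (3 * lam) * C :=
        mul_le_mul_of_nonneg_left (hC y Y (by omega) hY) (by positivity)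

end RX

end Run7.h69
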