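import Mathlib
import Pool.Agent.Run7.h69.RX
import Pool.Agent.Run7.h69.CN
import Pool.Agent.W262.RK.NT3
import Pool.Agent.W358.RK2.GR

/-!
# The decomposition into levels, in short intervals
-/

set_option autoImplicit false
set_option linter.unusedSectionVars false

namespace Run7.h69

open Finset Polynomial
open Pool.Agent.W262.RK hiding lk ff s1 s2

namespace NX

/-- GR for a single modulus -/
lemma gr1 {z y Y X s v g : ℕ} (hzy : z ≤ y) (hyY : y ≤ Y) (hY : Y ^ 16 ≤ X)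
    (hg : g ∣ PP y Y) (h1 : (s * v) ^ 8 ≤ X) (h2 : X < (s * v * g) ^ 8) :
    ∃ u, u ∣ g ∧ (s * v * u) ^ 8 ≤ X ∧ X < (s * v * u) ^ 16 := by
  obtain ⟨u, -, hu2, hu3, hu4⟩ := Pool.Agent.W358.RK2.gr Unit z y Y X hzy hyY hY
    (fun _ => s) (fun _ => v) (fun _ => g)
    (Pool.Agent.W358.RK2.gr_mem_Tup.2 ⟨fun _ => hg, fun i j hij => absurd rfl hij⟩)
    (by simpa using h1) (by simpa using h2)
  exact ⟨u (), hu2 (), by simpa using hu3, by simpa using hu4⟩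

/-- the weight of `v` -/
noncomputable def bV (f : ℤ[X]) (A : ℝ) (v : ℕ) : ℝ := A ^ v.primeFactors.card * (gm (br f) v / v)

variable {f : ℤ[X]} {z : ℕ}

lemma t1_mul_t2 (z y : ℕ) (t : ℤ) : t1 f z y t * t2 f z y t = rp z y (f.eval t) := by
  unfold t1 t2 rp
  rw [← prod_union]
  · congr 1
    ext p
    rw [mem_union, mem_filter, mem_filter, mem_filter]
    constructor
    · rintro (⟨h1, h2, _⟩ | ⟨h1, h2⟩)
      · exact ⟨h1, h2⟩
      · exact ⟨h1, (Dvd.intro_left _ (by ring : (p : ℤ) * p = (p : ℤ) ^ 2)).trans h2⟩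
    · rintro ⟨h1, h2⟩
      by_cases h : (p : ℤ) ^ 2 ∣ f.eval t
      · exact Or.inr ⟨h1, h⟩
      · exact Or.inl ⟨h1, h2, h⟩
  · rw [disjoint_left]
    intro p hp hp'
    exact (mem_filter.1 hp).2.2 (mem_filter.1 hp').2

lemma t1_dvd (z y : ℕ) (t : ℤ) : t1 f z y t ∣ PP z y :=
  prod_dvd_prod_of_subset _ _ _ (filter_subset _ _)

lemma t2_dvd (z y : ℕ) (t : ℤ) : t2 f z y t ∣ PP z y :=
  prod_dvd_prod_of_subset _ _ _ (filter_subset _ _)

lemma mem_dv {z y d : ℕ} : d ∈ (PP z y).divisors ↔ d ∣ PP z y :=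
  ⟨Nat.dvd_of_mem_divisors, fun h => Nat.mem_divisors.2 ⟨h, PP_ne_zero z y⟩⟩

lemma dpos {z y d : ℕ} (h : d ∣ PP z y) : 1 ≤ d :=
  Nat.pos_of_ne_zero fun h0 => PP_ne_zero z y (Nat.eq_zero_of_zero_dvd (h0 ▸ h))

open Classical in
/-- splitting the sum over `t` -/
lemma split {α : Type} {T : Finset α} {ι : Type} {A : Finset ι} {S : ι → Finset α} {R : α → ℝ}
    (hR : ∀ t, 0 ≤ R t) (h : ∀ t ∈ T, ∃ q ∈ A, t ∈ S q) :
    ∑ t ∈ T, R t ≤ ∑ q ∈ A, ∑ t ∈ S q, R t := by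
  calc ∑ t ∈ T, R t ≤ ∑ t ∈ T, ∑ q ∈ A, (if t ∈ S q then R t else 0) := by
        refine sum_le_sum fun t ht => ?_
        obtain ⟨q, hq, htq⟩ := h t ht
        have h1 := single_le_sum (f := fun q => if t ∈ S q then R t else 0) (s := A)
          (fun q _ => by split_ifs; exacts [hR t, le_rfl]) hq
        simp only [htq, if_true] at h1
        exact h1
    _ = ∑ q ∈ A, ∑ t ∈ T, (if t ∈ S q then R t else 0) := sum_comm
    _ ≤ _ := by
        refine sum_le_sum fun q _ => ?_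
        rw [← sum_filter]
        refine sum_le_sum_of_subset_of_nonneg ?_ (fun t _ _ => hR t)
        intro t ht
        exact (mem_filter.1 ht).2

/-- the interval, without the zeros of `f` -/
noncomputable def II (f : ℤ[X]) (x : ℤ) (X : ℕ) : Finset ℤ :=
  (Ioc x (x + X)).filter (fun t => f.eval t ≠ 0)

/-- the local hypothesis -/
def HH (f : ℤ[X]) (z : ℕ) (G : ℕ → ℝ) (R : ℤ → ℝ) (Q : ℤ → ℕ → Prop) (A C D : ℝ)
    (g K y0 : ℕ) : Prop :=
  ∀ (x : ℤ) (X y Y k : ℕ), Q x X → y0 ≤ y → z < y → y ^ K ≤ X → X < (y + 1) ^ k →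
    ∀ s v u : ℕ, s ∣ PP z y → v ∣ PP z y → u ∣ PP y Y → (s * v * u) ^ 8 ≤ X →
      ∑ t ∈ (II f x X).filter (fun t : ℤ => t1 f z y t = s ∧ t2 f z y t = v ∧
        (u : ℤ) ∣ f.eval t), R t ≤
        C * D ^ k * X * (G s * gm (br f) s) * bV f A v * gm (ru f) u / (Real.log y) ^ g

section

variable {G : ℕ → ℝ} {R : ℤ → ℝ} {Q : ℤ → ℕ → Prop} {A C D A1 A2 A3 lam : ℝ} {g K y0 : ℕ}

lemma ru_nonneg (f : ℤ[X]) (p : ℕ) : 0 ≤ ru f p := by unfold ru; positivity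

lemma gmr_nonneg (f : ℤ[X]) (u : ℕ) : 0 ≤ gm (ru f) u :=
  prod_nonneg fun _ _ => ru_nonneg f _

lemma gmb_nonneg (hz : Gd f z) {y s : ℕ} (hs : s ∣ PP z y) : 0 ≤ gm (br f) s :=
  RX.gm_nn (fun p hp => br_nonneg hz (mem_PS.1 hp).2 (mem_PS.1 hp).1.1) hs

lemma bV_nonneg (hz : Gd f z) (hA : 0 ≤ A) {y v : ℕ} (hv : v ∣ PP z y) : 0 ≤ bV f A v :=
  mul_nonneg (by positivity) (div_nonneg (gmb_nonneg hz hv) (by positivity))

/-- one level -/
lemma lev (hz : Gd f z) (hG : ∀ s, 0 ≤ G s) (hR : ∀ t, 0 ≤ R t) (hA : 0 ≤ A)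
    (hC : 0 ≤ C) (hD : 1 ≤ D) (hA1 : 0 ≤ A1) (hA2 : 0 ≤ A2) (hA3 : 0 ≤ A3)
    (hlam : lam = 16 * (Real.log D + 1))
    (h1 : ∀ y : ℕ, z < y → ∑ s ∈ (PP z y).divisors, G s * gm (br f) s *
      (s : ℝ) ^ (lam / Real.log y) ≤ A1 * (Real.log y) ^ g)
    (h2 : ∀ y : ℕ, z < y → ∑ v ∈ (PP z y).divisors, bV f A v *
      (v : ℝ) ^ (lam / Real.log y) ≤ A2)
    (h3 : ∀ y Y : ℕ, z < y → Y ≤ (y + 1) ^ 2 → ∑ u ∈ (PP y Y).divisors, gm (ru f) u *
      (u : ℝ) ^ (lam / Real.log y) ≤ A3)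
    (hH : HH f z G R Q A C D g K y0)
    {x : ℤ} {X y Y k : ℕ} (hQ : Q x X) (hy0 : y0 ≤ y) (hzy : z < y) (hyK : y ^ K ≤ X)
    (hyk : y ^ k ≤ X) (hk : X < (y + 1) ^ k) (hyY : y ≤ Y) (hY : Y ≤ (y + 1) ^ 2)
    (hY16 : Y ^ 16 ≤ X) :
    ∑ t ∈ (II f x X).filter (fun t : ℤ => (rp z y (f.eval t)) ^ 8 ≤ X ∧
      X < (rp z Y (f.eval t)) ^ 8), R t ≤ C * A1 * A2 * A3 * X * Real.exp (-k) := by
  classical
  have hz2 : 2 ≤ z := by have := hz.big; omega
  have hX1 : 1 ≤ X := le_trans (Nat.one_le_pow _ _ (by omega)) hyk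
  have hXr : (1 : ℝ) ≤ X := by exact_mod_cast hX1
  have hyr : (3 : ℝ) ≤ y := by exact_mod_cast (by omega : 3 ≤ y)
  have hlogy : 0 < Real.log y := Real.log_pos (by linarith)
  have hlogD : 0 ≤ Real.log D := Real.log_nonneg hD
  have hlam0 : 0 < lam := by rw [hlam]; linarith
  set δ := lam / Real.log y with hδ
  have hδ0 : 0 < δ := div_pos hlam0 hlogy
  set B := (((PP z y).divisors ×ˢ (PP z y).divisors) ×ˢ (PP y Y).divisors).filter (fun q =>
    (q.1.1 * q.1.2 * q.2) ^ 8 ≤ X ∧ X < (q.1.1 * q.1.2 * q.2) ^ 16) with hB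
  set S : (ℕ × ℕ) × ℕ → Finset ℤ := fun q => (II f x X).filter (fun t : ℤ =>
    t1 f z y t = q.1.1 ∧ t2 f z y t = q.1.2 ∧ (q.2 : ℤ) ∣ f.eval t) with hS
  have hcov : ∀ t ∈ (II f x X).filter (fun t : ℤ => (rp z y (f.eval t)) ^ 8 ≤ X ∧
      X < (rp z Y (f.eval t)) ^ 8), ∃ q ∈ B, t ∈ S q := by
    intro t ht
    rw [mem_filter] at ht
    obtain ⟨ht1, ht2, ht3⟩ := ht
    obtain ⟨u, hug, hu8, hu16⟩ := gr1 (s := t1 f z y t) (v := t2 f z y t)
      (g := rp y Y (f.eval t)) hzy.le hyY hY16 (rp_dvd _ _ _)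
      (by rw [t1_mul_t2]; exact ht2)
      (by rw [t1_mul_t2, ← rp_mul hzy.le hyY]; exact ht3)
    refine ⟨((t1 f z y t, t2 f z y t), u), ?_, ?_⟩
    · rw [hB, mem_filter, mem_product, mem_product]
      exact ⟨⟨⟨mem_dv.2 (t1_dvd _ _ _), mem_dv.2 (t2_dvd _ _ _)⟩,
        mem_dv.2 (hug.trans (rp_dvd _ _ _))⟩, hu8, hu16⟩
    · rw [hS, mem_filter]
      refine ⟨ht1, rfl, rfl, ?_⟩
      have h4 : (rp y Y (f.eval t) : ℤ) ∣ f.eval t :=
        prodS_dvd (fun p hp => (mem_PS.1 (mem_filter.1 hp).1).2) (fun p hp => (mem_filter.1 hp).2)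
      exact (Int.natCast_dvd_natCast.2 hug).trans h4
  refine (split hR hcov).trans ?_
  -- the bound for each `q`
  set W : ℝ := C * D ^ k * X / (Real.log y) ^ g * (X : ℝ) ^ (-(δ / 16)) with hW
  have hW0 : 0 ≤ W := by positivity
  have hq : ∀ q ∈ B, ∑ t ∈ S q, R t ≤ W *
      ((G q.1.1 * gm (br f) q.1.1 * (q.1.1 : ℝ) ^ δ) * (bV f A q.1.2 * (q.1.2 : ℝ) ^ δ) *
        (gm (ru f) q.2 * (q.2 : ℝ) ^ δ)) := by
    intro q hq
    rw [hB, mem_filter, mem_product, mem_product, mem_dv, mem_dv, mem_dv] at hq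
    obtain ⟨⟨⟨hs, hv⟩, hu⟩, hq8, hq16⟩ := hq
    refine (hH x X y Y k hQ hy0 hzy hyK hk q.1.1 q.1.2 q.2 hs hv hu hq8).trans ?_
    have ha : 0 ≤ G q.1.1 * gm (br f) q.1.1 := mul_nonneg (hG _) (gmb_nonneg hz hs)
    have hb : 0 ≤ bV f A q.1.2 := bV_nonneg hz hA hv
    have hc : 0 ≤ gm (ru f) q.2 := gmr_nonneg f _
    have hp1 : (1 : ℝ) ≤ q.1.1 := by exact_mod_cast dpos hs
    have hp2 : (1 : ℝ) ≤ q.1.2 := by exact_mod_cast dpos hv
    have hp3 : (1 : ℝ) ≤ q.2 := by exact_mod_cast dpos hu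
    have hfac : 1 ≤ (X : ℝ) ^ (-(δ / 16)) * ((q.1.1 : ℝ) ^ δ * (q.1.2 : ℝ) ^ δ *
        (q.2 : ℝ) ^ δ) := by
      rw [← Real.mul_rpow (by positivity) (by positivity),
        ← Real.mul_rpow (by positivity) (by positivity)]
      set P : ℝ := (q.1.1 : ℝ) * q.1.2 * q.2 with hP
      have hP1 : 1 ≤ P := by
        rw [hP]
        exact one_le_mul_of_one_le_of_one_le (one_le_mul_of_one_le_of_one_le hp1 hp2) hp3
      have hPX : (X : ℝ) ≤ P ^ (16 : ℕ) := by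
        have h5 : (X : ℝ) ≤ (((q.1.1 * q.1.2 * q.2) ^ 16 : ℕ) : ℝ) := by
          exact_mod_cast hq16.le
        push_cast at h5
        exact h5
      have hPd : (X : ℝ) ^ (δ / 16) ≤ P ^ δ := by
        calc (X : ℝ) ^ (δ / 16) ≤ (P ^ (16 : ℕ)) ^ (δ / 16) :=
              Real.rpow_le_rpow (by positivity) hPX (by positivity)
          _ = P ^ δ := by
              rw [← Real.rpow_natCast, ← Real.rpow_mul (by positivity)]
              congr 1
              push_cast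
              ring
      rw [Real.rpow_neg (by positivity)]
      have h6 : 0 < (X : ℝ) ^ (δ / 16) := by positivity
      rw [inv_mul_eq_div, one_le_div h6]
      exact hPd
    have hbase : 0 ≤ C * D ^ k * X / (Real.log y) ^ g * ((G q.1.1 * gm (br f) q.1.1) *
        bV f A q.1.2 * gm (ru f) q.2) :=
      mul_nonneg (by positivity) (mul_nonneg (mul_nonneg ha hb) hc)
    calc C * D ^ k * X * (G q.1.1 * gm (br f) q.1.1) * bV f A q.1.2 * gm (ru f) q.2 /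
          (Real.log y) ^ g
        = C * D ^ k * X / (Real.log y) ^ g * ((G q.1.1 * gm (br f) q.1.1) *
        bV f A q.1.2 * gm (ru f) q.2) := by ring
      _ ≤ C * D ^ k * X / (Real.log y) ^ g * ((G q.1.1 * gm (br f) q.1.1) *
        bV f A q.1.2 * gm (ru f) q.2) * ((X : ℝ) ^ (-(δ / 16)) *
          ((q.1.1 : ℝ) ^ δ * (q.1.2 : ℝ) ^ δ * (q.2 : ℝ) ^ δ)) :=
          le_mul_of_one_le_right hbase hfac
      _ = _ := by rw [hW]; ring
  refine (sum_le_sum hq).trans ?_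
  rw [← mul_sum]
  have hfull : ∑ q ∈ B, ((G q.1.1 * gm (br f) q.1.1 * (q.1.1 : ℝ) ^ δ) *
        (bV f A q.1.2 * (q.1.2 : ℝ) ^ δ) * (gm (ru f) q.2 * (q.2 : ℝ) ^ δ)) ≤
      (∑ s ∈ (PP z y).divisors, G s * gm (br f) s * (s : ℝ) ^ δ) *
      (∑ v ∈ (PP z y).divisors, bV f A v * (v : ℝ) ^ δ) *
      (∑ u ∈ (PP y Y).divisors, gm (ru f) u * (u : ℝ) ^ δ) := by
    rw [sum_mul_sum, ← sum_product', sum_mul_sum, ← sum_product']
    refine sum_le_sum_of_subset_of_nonneg (filter_subset _ _) (fun q hq _ => ?_)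
    rw [mem_product, mem_product, mem_dv, mem_dv, mem_dv] at hq
    obtain ⟨⟨hs, hv⟩, hu⟩ := hq
    refine mul_nonneg (mul_nonneg ?_ ?_) ?_
    · exact mul_nonneg (mul_nonneg (hG _) (gmb_nonneg hz hs)) (by positivity)
    · exact mul_nonneg (bV_nonneg hz hA hv) (by positivity)
    · exact mul_nonneg (gmr_nonneg f _) (by positivity)
  have hs0 : 0 ≤ ∑ s ∈ (PP z y).divisors, G s * gm (br f) s * (s : ℝ) ^ δ :=
    sum_nonneg fun s hs =>
      mul_nonneg (mul_nonneg (hG _) (gmb_nonneg hz (mem_dv.1 hs))) (by positivity)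
  have hv0 : 0 ≤ ∑ v ∈ (PP z y).divisors, bV f A v * (v : ℝ) ^ δ :=
    sum_nonneg fun v hv => mul_nonneg (bV_nonneg hz hA (mem_dv.1 hv)) (by positivity)
  have hu0 : 0 ≤ ∑ u ∈ (PP y Y).divisors, gm (ru f) u * (u : ℝ) ^ δ :=
    sum_nonneg fun u hu => mul_nonneg (gmr_nonneg f _) (by positivity)
  have hbd : (∑ s ∈ (PP z y).divisors, G s * gm (br f) s * (s : ℝ) ^ δ) *
      (∑ v ∈ (PP z y).divisors, bV f A v * (v : ℝ) ^ δ) *
      (∑ u ∈ (PP y Y).divisors, gm (ru f) u * (u : ℝ) ^ δ) ≤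
      (A1 * (Real.log y) ^ g) * A2 * A3 := by
    have e1 := h1 y hzy
    have e2 := h2 y hzy
    have e3 := h3 y Y hzy hY
    exact mul_le_mul (mul_le_mul e1 e2 hv0 (hs0.trans e1)) e3 hu0
      (mul_nonneg (hs0.trans e1) hA2)
  have hfin := mul_le_mul_of_nonneg_left (hfull.trans hbd) hW0
  refine hfin.trans ?_
  -- the exponential saving
  have hexp : D ^ k * (X : ℝ) ^ (-(δ / 16)) ≤ Real.exp (-k) := by
    have hXpos : (0 : ℝ) < X := by linarith
    have hlX : k * Real.log y ≤ Real.log X := by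
      rw [← Real.log_pow]
      exact Real.log_le_log (by positivity) (by exact_mod_cast hyk)
    have e1 : D ^ k = Real.exp (k * Real.log D) := by
      rw [← Real.log_pow, Real.exp_log (by positivity)]
    have e2 : (X : ℝ) ^ (-(δ / 16)) = Real.exp (-(δ / 16) * Real.log X) := by
      rw [Real.rpow_def_of_pos hXpos, mul_comm]
    rw [e1, e2, ← Real.exp_add]
    apply Real.exp_le_exp.2
    have e3 : δ / 16 * (k * Real.log y) ≤ δ / 16 * Real.log X :=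
      mul_le_mul_of_nonneg_left hlX (by positivity)
    have e4 : δ / 16 * (k * Real.log y) = k * (Real.log D + 1) := by
      rw [hδ, hlam]
      field_simp
    rw [e4] at e3
    linarith
  have hL : (Real.log y) ^ g ≠ 0 := by positivity
  calc W * (A1 * (Real.log y) ^ g * A2 * A3)
      = (C * A1 * A2 * A3 * X) * (D ^ k * (X : ℝ) ^ (-(δ / 16))) := by
        rw [hW]; field_simp
    _ ≤ (C * A1 * A2 * A3 * X) * Real.exp (-k) :=
        mul_le_mul_of_nonneg_left hexp (by positivity)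

/-- the first level -/
lemma lev0 (hz : Gd f z) (hG : ∀ s, 0 ≤ G s) (hR : ∀ t, 0 ≤ R t) (hA : 0 ≤ A)
    (hC : 0 ≤ C) (hD : 1 ≤ D) (hlam : 0 ≤ lam)
    (h1 : ∀ y : ℕ, z < y → ∑ s ∈ (PP z y).divisors, G s * gm (br f) s *
      (s : ℝ) ^ (lam / Real.log y) ≤ A1 * (Real.log y) ^ g)
    (h2 : ∀ y : ℕ, z < y → ∑ v ∈ (PP z y).divisors, bV f A v *
      (v : ℝ) ^ (lam / Real.log y) ≤ A2)
    (hH : HH f z G R Q A C D g K y0)
    {x : ℤ} {X y k : ℕ} (hQ : Q x X) (hy0 : y0 ≤ y) (hzy : z < y) (hyK : y ^ K ≤ X)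
    (hk : X < (y + 1) ^ k) :
    ∑ t ∈ (II f x X).filter (fun t : ℤ => (rp z y (f.eval t)) ^ 8 ≤ X), R t ≤
      C * D ^ k * A1 * A2 * X := by
  classical
  have hz2 : 2 ≤ z := by have := hz.big; omega
  have hyr : (3 : ℝ) ≤ y := by exact_mod_cast (by omega : 3 ≤ y)
  have hlogy : 0 < Real.log y := Real.log_pos (by linarith)
  set δ := lam / Real.log y with hδ
  have hδ0 : 0 ≤ δ := div_nonneg hlam hlogy.le
  set B := ((PP z y).divisors ×ˢ (PP z y).divisors).filter (fun q => (q.1 * q.2) ^ 8 ≤ X)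
    with hB
  set S : ℕ × ℕ → Finset ℤ := fun q => (II f x X).filter (fun t : ℤ =>
    t1 f z y t = q.1 ∧ t2 f z y t = q.2 ∧ ((1 : ℕ) : ℤ) ∣ f.eval t) with hS
  have hcov : ∀ t ∈ (II f x X).filter (fun t : ℤ => (rp z y (f.eval t)) ^ 8 ≤ X),
      ∃ q ∈ B, t ∈ S q := by
    intro t ht
    rw [mem_filter] at ht
    obtain ⟨ht1, ht2⟩ := ht
    refine ⟨(t1 f z y t, t2 f z y t), ?_, ?_⟩
    · rw [hB, mem_filter, mem_product]
      refine ⟨⟨mem_dv.2 (t1_dvd _ _ _), mem_dv.2 (t2_dvd _ _ _)⟩, ?_⟩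
      rw [t1_mul_t2]
      exact ht2
    · rw [hS, mem_filter]
      exact ⟨ht1, rfl, rfl, by simp⟩
  refine (split hR hcov).trans ?_
  set W : ℝ := C * D ^ k * X / (Real.log y) ^ g with hW
  have hW0 : 0 ≤ W := by positivity
  have hq : ∀ q ∈ B, ∑ t ∈ S q, R t ≤ W *
      ((G q.1 * gm (br f) q.1 * (q.1 : ℝ) ^ δ) * (bV f A q.2 * (q.2 : ℝ) ^ δ)) := by
    intro q hq
    rw [hB, mem_filter, mem_product, mem_dv, mem_dv] at hq
    obtain ⟨⟨hs, hv⟩, hq8⟩ := hq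
    refine (hH x X y y k hQ hy0 hzy hyK hk q.1 q.2 1 hs hv (one_dvd _)
      (by rw [mul_one]; exact hq8)).trans ?_
    have ha : 0 ≤ G q.1 * gm (br f) q.1 := mul_nonneg (hG _) (gmb_nonneg hz hs)
    have hb : 0 ≤ bV f A q.2 := bV_nonneg hz hA hv
    have hp1 := Real.one_le_rpow (by exact_mod_cast dpos hs : (1 : ℝ) ≤ q.1) hδ0
    have hp2 := Real.one_le_rpow (by exact_mod_cast dpos hv : (1 : ℝ) ≤ q.2) hδ0
    have hg1 : gm (ru f) 1 = 1 := by simp [gm]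
    calc C * D ^ k * X * (G q.1 * gm (br f) q.1) * bV f A q.2 * gm (ru f) 1 /
          (Real.log y) ^ g
        = W * ((G q.1 * gm (br f) q.1) * bV f A q.2) := by
          rw [hW, hg1]; ring
      _ ≤ W * (((G q.1 * gm (br f) q.1) * (q.1 : ℝ) ^ δ) * (bV f A q.2 * (q.2 : ℝ) ^ δ)) :=
          mul_le_mul_of_nonneg_left (mul_le_mul (le_mul_of_one_le_right ha hp1)
            (le_mul_of_one_le_right hb hp2) hb (mul_nonneg ha (by linarith))) hW0
      _ = _ := by ring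
  refine (sum_le_sum hq).trans ?_
  rw [← mul_sum]
  have hfull : ∑ q ∈ B, ((G q.1 * gm (br f) q.1 * (q.1 : ℝ) ^ δ) *
        (bV f A q.2 * (q.2 : ℝ) ^ δ)) ≤
      (∑ s ∈ (PP z y).divisors, G s * gm (br f) s * (s : ℝ) ^ δ) *
      (∑ v ∈ (PP z y).divisors, bV f A v * (v : ℝ) ^ δ) := by
    rw [sum_mul_sum, ← sum_product']
    refine sum_le_sum_of_subset_of_nonneg (filter_subset _ _) (fun q hq _ => ?_)
    rw [mem_product, mem_dv, mem_dv] at hq
    obtain ⟨hs, hv⟩ := hq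
    refine mul_nonneg ?_ ?_
    · exact mul_nonneg (mul_nonneg (hG _) (gmb_nonneg hz hs)) (by positivity)
    · exact mul_nonneg (bV_nonneg hz hA hv) (by positivity)
  have hs0 : 0 ≤ ∑ s ∈ (PP z y).divisors, G s * gm (br f) s * (s : ℝ) ^ δ :=
    sum_nonneg fun s hs =>
      mul_nonneg (mul_nonneg (hG _) (gmb_nonneg hz (mem_dv.1 hs))) (by positivity)
  have hv0 : 0 ≤ ∑ v ∈ (PP z y).divisors, bV f A v * (v : ℝ) ^ δ :=
    sum_nonneg fun v hv => mul_nonneg (bV_nonneg hz hA (mem_dv.1 hv)) (by positivity)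
  have hbd : (∑ s ∈ (PP z y).divisors, G s * gm (br f) s * (s : ℝ) ^ δ) *
      (∑ v ∈ (PP z y).divisors, bV f A v * (v : ℝ) ^ δ) ≤ (A1 * (Real.log y) ^ g) * A2 :=
    mul_le_mul (h1 y hzy) (h2 y hzy) hv0 (hs0.trans (h1 y hzy))
  refine (mul_le_mul_of_nonneg_left (hfull.trans hbd) hW0).trans (le_of_eq ?_)
  have hL : (Real.log y) ^ g ≠ 0 := by positivity
  rw [hW]; field_simp

end

theorem nt {G : ℕ → ℝ} {R : ℤ → ℝ} {Q : ℤ → ℕ → Prop} {A C D C' : ℝ} {g K y0 : ℕ}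
    (hz : Gd f z) (hG : ∀ s, 0 ≤ G s) (hR : ∀ t, 0 ≤ R t) (hA : 0 ≤ A)
    (hC : 0 ≤ C) (hD : 1 ≤ D)
    (hsub : ∀ y s e, s * e ∣ PP z y → G (s * e) ≤ A ^ e.primeFactors.card * G s)
    (havg : ∀ y : ℕ, z < y → ∑ s ∈ (PP z y).divisors, G s * gm (br f) s ≤
      C' * (Real.log y) ^ g)
    (hH : HH f z G R Q A C D g K y0) :
    ∃ (X0 : ℕ) (B : ℝ), ∀ (x : ℤ) (X : ℕ), Q x X → X0 ≤ X → ∑ t ∈ II f x X, R t ≤ B * X := by
  classical
  have hz2 : 2 ≤ z := by have := hz.big; omega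
  have hlogD : 0 ≤ Real.log D := Real.log_nonneg hD
  set lam : ℝ := 16 * (Real.log D + 1) with hlam
  have hlam0 : 0 ≤ lam := by rw [hlam]; linarith
  have hbr : ∀ p : ℕ, p.Prime → z < p → 0 ≤ br f p ∧ br f p ≤ (2 * f.natDegree : ℝ) / p :=
    fun p hp hpz => ⟨br_nonneg hz hp hpz, by
      have h1 : (rho f p : ℝ) ≤ f.natDegree := by exact_mod_cast hz.few p hp hpz
      have h2 : (2 * f.natDegree + 3 : ℝ) ≤ p := by
        have := hz.big
        exact_mod_cast (by omega : 2 * f.natDegree + 3 ≤ p)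
      have hn : (0 : ℝ) ≤ f.natDegree := Nat.cast_nonneg _
      have hr : (0 : ℝ) ≤ rho f p := Nat.cast_nonneg _
      unfold br
      rw [div_le_div_iff₀ (by linarith) (by linarith)]
      nlinarith⟩
  have hru : ∀ p : ℕ, p.Prime → z < p → 0 ≤ ru f p ∧ ru f p ≤ (f.natDegree : ℝ) / p :=
    fun p hp hpz => ⟨ru_nonneg f p, by
      have h1 : (rho f p : ℝ) ≤ f.natDegree := by exact_mod_cast hz.few p hp hpz
      unfold ru
      gcongr⟩
  obtain ⟨A1, hA10, hA1⟩ := RX.rs z (br f) G A (2 * f.natDegree) lam g C' hz2 hA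
    (by positivity) hlam0 hbr hG hsub havg
  obtain ⟨A2, hA20, hA2⟩ := RX.rv z (br f) A (2 * f.natDegree) lam hz2 hA
    (by positivity) hlam0 hbr
  obtain ⟨A3, hA30, hA3⟩ := RX.ru' z (ru f) f.natDegree lam hz2 (by positivity) hlam0 hru
  set K0 : ℕ := K + 16 with hK0
  have hK01 : 1 ≤ K0 := by omega
  set Ys : ℕ := y0 + z + 3 with hYs
  set M : ℕ := PP z (Ys ^ 2) with hM
  set X0 : ℕ := Ys ^ K0 + M ^ 8 with hX0
  set B0 : ℝ := C * D ^ K0 * A1 * A2 with hB0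
  set B1 : ℝ := C * A1 * A2 * A3 with hB1
  have hB00 : 0 ≤ B0 := by positivity
  have hB10 : 0 ≤ B1 := by positivity
  refine ⟨X0, B0 + B1 * 2, fun x X hQ hXX => ?_⟩
  have hX : 1 ≤ X := by
    have h1 : 1 ≤ Ys ^ K0 := Nat.one_le_pow _ _ (by omega)
    omega
  have hXr : (1 : ℝ) ≤ X := by exact_mod_cast hX
  -- the last level
  have hex : ∃ i, yy K0 X (i + 1) < Ys := by
    refine ⟨X, ?_⟩
    by_contra hcon
    have h1 : 2 ≤ yy K0 X (X + 1) := by omega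
    have h2 := (yy_pow hK01 hX (X + 1)).2
    have h3 : 2 ^ X ≤ (yy K0 X (X + 1)) ^ (K0 * 2 ^ (X + 1)) := by
      refine (Nat.pow_le_pow_left h1 X).trans (Nat.pow_le_pow_right (by omega) ?_)
      have h4 : X < 2 ^ X := Nat.lt_two_pow_self
      have h5 : 2 ^ (X + 1) = 2 * 2 ^ X := by rw [pow_succ, mul_comm]
      nlinarith
    have h4 : X < 2 ^ X := Nat.lt_two_pow_self
    exact absurd (h3.trans h2) (not_le.2 h4)
  set I := Nat.find hex with hI
  have hI1 : yy K0 X (I + 1) < Ys := Nat.find_spec hex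
  have hIge : ∀ i, i ≤ I → Ys ≤ yy K0 X i := by
    intro i hi
    rcases Nat.eq_zero_or_pos i with h | h
    · subst h
      apply le_yy hK01
      rw [pow_zero, mul_one]
      exact le_trans (Nat.le_add_right _ _) hXX
    · have h2 := Nat.find_min hex (m := i - 1) (by omega)
      rw [show i - 1 + 1 = i by omega] at h2
      omega
  -- the level sets
  set T0 := (II f x X).filter (fun t : ℤ => (rp z (yy K0 X 0) (f.eval t)) ^ 8 ≤ X) with hT0
  set T : ℕ → Finset ℤ := fun i => (II f x X).filter (fun t : ℤ =>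
      (rp z (yy K0 X (i + 1)) (f.eval t)) ^ 8 ≤ X ∧
      X < (rp z (yy K0 X i) (f.eval t)) ^ 8) with hT
  have hlast : ∀ t : ℤ, (rp z (yy K0 X I) (f.eval t)) ^ 8 ≤ X := by
    intro t
    have h1 : rp z (yy K0 X I) (f.eval t) ∣ PP z (yy K0 X I) := rp_dvd _ _ _
    have h2 : yy K0 X I ≤ Ys ^ 2 :=
      (yy_sq hK01 hX I).le.trans (Nat.pow_le_pow_left (by omega) 2)
    have h3 : PP z (yy K0 X I) ∣ M := by
      apply prod_dvd_prod_of_subset
      intro p hp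
      rw [mem_PS] at hp ⊢
      exact ⟨⟨hp.1.1, hp.1.2.trans h2⟩, hp.2⟩
    have h4 : rp z (yy K0 X I) (f.eval t) ≤ M :=
      Nat.le_of_dvd (Nat.pos_of_ne_zero (PP_ne_zero _ _)) (h1.trans h3)
    have h5 := Nat.pow_le_pow_left h4 8
    exact h5.trans (le_trans (Nat.le_add_left _ _) hXX)
  have hcov : II f x X ⊆ T0 ∪ (range I).biUnion T := by
    intro t ht
    have hex2 : ∃ i, (rp z (yy K0 X i) (f.eval t)) ^ 8 ≤ X := ⟨I, hlast t⟩
    have hle : Nat.find hex2 ≤ I := Nat.find_min' hex2 (hlast t)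
    rw [mem_union]
    rcases Nat.eq_zero_or_pos (Nat.find hex2) with h | h
    · left
      rw [hT0, mem_filter]
      refine ⟨ht, ?_⟩
      have := Nat.find_spec hex2
      rwa [h] at this
    · right
      rw [mem_biUnion]
      refine ⟨Nat.find hex2 - 1, mem_range.2 (by omega), ?_⟩
      rw [hT, mem_filter, show Nat.find hex2 - 1 + 1 = Nat.find hex2 by omega]
      refine ⟨ht, Nat.find_spec hex2, ?_⟩
      have := Nat.find_min hex2 (m := Nat.find hex2 - 1) (by omega)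
      omega
  have hT0b : ∑ t ∈ T0, R t ≤ B0 * X := by
    have hz0 := hIge 0 (Nat.zero_le _)
    have hp := yy_pow hK01 hX 0
    have hl := yy_lt (X := X) hK01 0
    rw [pow_zero, mul_one] at hp hl
    exact lev0 hz hG hR hA hC hD hlam0 hA1 hA2 hH hQ (X := X) (y := yy K0 X 0) (k := K0)
      (by omega) (by omega) (le_trans (Nat.pow_le_pow_right hp.1 (by omega)) hp.2) hl
  have hTb : ∀ i ∈ range I, ∑ t ∈ T i, R t ≤ B1 * X * (1 / 2) ^ i := by
    intro i hi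
    rw [mem_range] at hi
    have hz0 := hIge (i + 1) (by omega)
    have hp := yy_pow hK01 hX (i + 1)
    have hp' := yy_pow hK01 hX i
    have hl := yy_lt (X := X) hK01 (i + 1)
    have hk1 : K0 ≤ K0 * 2 ^ (i + 1) := Nat.le_mul_of_pos_right _ (by positivity)
    have hk2 : K0 ≤ K0 * 2 ^ i := Nat.le_mul_of_pos_right _ (by positivity)
    have h1 := lev hz hG hR hA hC hD hA10 hA20 hA30 hlam hA1 hA2 hA3 hH (X := X)
      (y := yy K0 X (i + 1)) (Y := yy K0 X i) (k := K0 * 2 ^ (i + 1)) hQ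
      (by omega) (by omega)
      (le_trans (Nat.pow_le_pow_right hp.1 (by omega)) hp.2) hp.2 hl
      (yy_anti hK01 hX i) (yy_sq hK01 hX i).le
      (le_trans (Nat.pow_le_pow_right hp'.1 (by omega)) hp'.2)
    refine h1.trans ?_
    refine mul_le_mul_of_nonneg_left ?_ (by positivity)
    have h2 : (i : ℝ) ≤ ((K0 * 2 ^ (i + 1) : ℕ) : ℝ) := by
      have h3 : i < 2 ^ i := Nat.lt_two_pow_self
      have h4 : 2 ^ (i + 1) = 2 * 2 ^ i := by rw [pow_succ, mul_comm]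
      exact_mod_cast (by nlinarith : i ≤ K0 * 2 ^ (i + 1))
    calc Real.exp (-((K0 * 2 ^ (i + 1) : ℕ) : ℝ)) ≤ Real.exp (-(i : ℝ)) :=
          Real.exp_le_exp.2 (by linarith)
      _ = (Real.exp (-1)) ^ i := by rw [← Real.exp_nat_mul]; congr 1; ring
      _ ≤ (1 / 2) ^ i := by
          apply pow_le_pow_left₀ (Real.exp_pos _).le
          rw [Real.exp_neg, ← one_div]
          apply one_div_le_one_div_of_le (by norm_num)
          have := Real.exp_one_gt_d9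
          linarith
  have hgeo : ∑ i ∈ range I, ((1 : ℝ) / 2) ^ i ≤ 2 := by
    rw [geom_sum_eq (by norm_num)]
    have h1 : (0 : ℝ) ≤ (1 / 2 : ℝ) ^ I := by positivity
    rw [div_le_iff_of_neg (by norm_num)]
    linarith
  calc ∑ t ∈ II f x X, R t
      ≤ ∑ t ∈ T0 ∪ (range I).biUnion T, R t :=
        sum_le_sum_of_subset_of_nonneg hcov (fun t _ _ => hR t)
    _ ≤ ∑ t ∈ T0, R t + ∑ t ∈ (range I).biUnion T, R t := by
        rw [← sum_union_inter]
        exact le_add_of_nonneg_right (sum_nonneg fun t _ => hR t)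
    _ ≤ ∑ t ∈ T0, R t + ∑ i ∈ range I, ∑ t ∈ T i, R t := by
        gcongr
        apply split hR
        intro t ht
        rw [mem_biUnion] at ht
        exact ht
    _ ≤ B0 * X + ∑ i ∈ range I, B1 * X * (1 / 2) ^ i := add_le_add hT0b (sum_le_sum hTb)
    _ ≤ B0 * X + B1 * X * 2 := by
        rw [← mul_sum]
        gcongr
    _ = (B0 + B1 * 2) * X := by ring

end NX

end Run7.h69
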