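import Mathlib
import Pool.Agent.Run7.h69.XP
import Pool.Agent.W125.RK2.SUBB
import Pool.Agent.W342.RK2.LocL

/-!
# Submultiplicativity of the average of the powers of the Selmer count
-/

set_option autoImplicit false
set_option linter.unusedSectionVars false

namespace Run7.h69

open Finset
open Pool.Agent.W262.RK hiding lk ff s1 s2
open Pool.Agent.W125.RK2 (sum_inter NL_congr sub4)

theorem subk (k : ℕ) {κ : Fin 3 → ℤ} {z y s e : ℕ} (hz : 2 ≤ z) (hκ0 : ∀ i, κ i ≠ 0)
    (hκz : ∀ i, (κ i).natAbs ≤ z) (h : s * e ∣ PP z y) :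
    NBk k κ (s * e) ≤ (4 ^ k) ^ e.primeFactors.card * NBk k κ s := by
  classical
  have hse : s * e ∈ (PP z y).divisors := Nat.mem_divisors.2 ⟨h, PP_ne_zero z y⟩
  have hsq := dv_squarefree hse
  have hcop := Nat.coprime_of_squarefree_mul hsq
  have hdis : Disjoint s.primeFactors e.primeFactors := hcop.disjoint_primeFactors
  have hXC : ∀ E : Finset ℕ, ∀ p, p.Prime → p ∣ s → XC (LE κ E p) := by
    intro E p hp hps
    have hzp : z < p := (dv_prime hse hp (hps.mul_right _)).1
    have h1 : XC (LL 3 κ (decide (p ∈ E)) p) := by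
      apply Pool.Agent.W342.RK2.xcl _ _ _ p hp (by omega)
      intro i hk
      have h2 := Int.natAbs_dvd_natAbs.2 hk
      rw [Int.natAbs_natCast] at h2
      have h3 := Nat.le_of_dvd (Int.natAbs_pos.2 (hκ0 i)) h2
      have h4 := hκz i
      omega
    exact h1
  have hNL : ∀ E : Finset ℕ, NL s (LE κ E) = NL s (LE κ (E ∩ s.primeFactors)) := by
    intro E
    apply NL_congr
    intro p hp
    funext v w h g
    unfold LE
    congr 1
    simp [mem_inter, hp]
  have h1 : ∀ E : Finset ℕ, (NL (s * e) (LE κ E) : ℝ) ^ k ≤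
      (4 ^ k) ^ e.primeFactors.card * (NL s (LE κ (E ∩ s.primeFactors)) : ℝ) ^ k := by
    intro E
    have h2 := sub4 s e (LE κ E) hsq (hXC E)
    rw [hNL E] at h2
    have h3 : (NL (s * e) (LE κ E) : ℝ) ≤
        4 ^ e.primeFactors.card * (NL s (LE κ (E ∩ s.primeFactors)) : ℝ) := by exact_mod_cast h2
    calc (NL (s * e) (LE κ E) : ℝ) ^ k ≤
        (4 ^ e.primeFactors.card * (NL s (LE κ (E ∩ s.primeFactors)) : ℝ)) ^ k :=
          pow_le_pow_left₀ (Nat.cast_nonneg _) h3 k
      _ = _ := by rw [mul_pow, ← pow_mul, ← pow_mul, mul_comm]; ring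
  have hpf : (s * e).primeFactors = s.primeFactors ∪ e.primeFactors := hcop.primeFactors_mul
  have hcard : (s * e).primeFactors.card = s.primeFactors.card + e.primeFactors.card := by
    rw [hpf, card_union_of_disjoint hdis]
  unfold NBk
  calc (1 / 2 : ℝ) ^ (s * e).primeFactors.card *
        ∑ E ∈ (s * e).primeFactors.powerset, (NL (s * e) (LE κ E) : ℝ) ^ k
      ≤ (1 / 2 : ℝ) ^ (s * e).primeFactors.card *
        ∑ E ∈ (s * e).primeFactors.powerset, (4 ^ k) ^ e.primeFactors.card *
          (NL s (LE κ (E ∩ s.primeFactors)) : ℝ) ^ k :=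
        mul_le_mul_of_nonneg_left (sum_le_sum fun E _ => h1 E) (by positivity)
    _ = (1 / 2 : ℝ) ^ (s.primeFactors.card + e.primeFactors.card) *
        ((4 ^ k) ^ e.primeFactors.card * (2 ^ e.primeFactors.card *
          ∑ E ∈ s.primeFactors.powerset, (NL s (LE κ E) : ℝ) ^ k)) := by
        rw [hcard, ← mul_sum, hpf,
          sum_inter s.primeFactors e.primeFactors hdis fun E => (NL s (LE κ E) : ℝ) ^ k]
    _ = _ := by
        rw [pow_add]
        have h5 : (1 / 2 : ℝ) ^ e.primeFactors.card * 2 ^ e.primeFactors.card = 1 := by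
          rw [← mul_pow]; norm_num
        calc (1 / 2 : ℝ) ^ s.primeFactors.card * (1 / 2 : ℝ) ^ e.primeFactors.card *
            ((4 ^ k) ^ e.primeFactors.card * (2 ^ e.primeFactors.card *
              ∑ E ∈ s.primeFactors.powerset, (NL s (LE κ E) : ℝ) ^ k))
            = ((1 / 2 : ℝ) ^ e.primeFactors.card * 2 ^ e.primeFactors.card) *
              ((4 ^ k) ^ e.primeFactors.card * ((1 / 2 : ℝ) ^ s.primeFactors.card *
                ∑ E ∈ s.primeFactors.powerset, (NL s (LE κ E) : ℝ) ^ k)) := by ring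
          _ = _ := by rw [h5, one_mul]

lemma NBk_nonneg (k : ℕ) (κ : Fin 3 → ℤ) (s : ℕ) : 0 ≤ NBk k κ s := by
  unfold NBk
  positivity

end Run7.h69
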