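import Mathlib
import Pool.Agent.Run7.h69.NX
import Pool.Agent.Run7.h69.SB
import Pool.Agent.W262.RK.F4a
import Pool.Agent.W342.RK2.LocL
import Pool.Agent.W214.RK2.Desc4
import Pool.Agent.W655.RK.Full
import Pool.Agent.W37.RK.BL2
import Pool.Agent.W505.RK.LS

/-!
# Moments of `2 ^ rank` for the twists by the values of a polynomial: the case of good data
-/

set_option autoImplicit false
set_option linter.unusedSectionVars false

namespace Run7.h69

open Finset Polynomial
open Pool.Agent.W262.RK hiding lk ff s1 s2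

namespace RK

/-- the constants -/
def kp (a b : ℤ) (k : Fin 3) : ℤ := if k = 0 then a else if k = 1 then b else a - b

lemma kp0 (a b : ℤ) : kp a b 0 = a := rfl
lemma kp1 (a b : ℤ) : kp a b 1 = b := rfl
lemma kp2 (a b : ℤ) : kp a b 2 = a - b := rfl

lemma fin3 (P : Fin 3 → Prop) (h0 : P 0) (h1 : P 1) (h2 : P 2) (k : Fin 3) : P k := by
  have : k = 0 ∨ k = 1 ∨ k = 2 := by
    revert k
    decide
  rcases this with h | h | h <;> subst h <;> assumption

/-- the polynomial growth of the values -/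
lemma growth (f : ℤ[X]) : ∃ c L : ℕ, ∀ t : ℤ, (f.eval t).natAbs ≤ c * (t.natAbs + 1) ^ L := by
  induction f using Polynomial.induction_on' with
  | add p q hp hq =>
    obtain ⟨c, L, h⟩ := hp
    obtain ⟨c', L', h'⟩ := hq
    refine ⟨c + c', L + L', fun t => ?_⟩
    rw [eval_add]
    have h1 := Int.natAbs_add_le (p.eval t) (q.eval t)
    have h2 := h t
    have h3 := h' t
    have h4 : (t.natAbs + 1) ^ L ≤ (t.natAbs + 1) ^ (L + L') :=
      Nat.pow_le_pow_right (by omega) (by omega)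
    have h5 : (t.natAbs + 1) ^ L' ≤ (t.natAbs + 1) ^ (L + L') :=
      Nat.pow_le_pow_right (by omega) (by omega)
    have h6 := Nat.mul_le_mul_left c h4
    have h7 := Nat.mul_le_mul_left c' h5
    rw [add_mul]
    omega
  | monomial n a =>
    refine ⟨a.natAbs, n, fun t => ?_⟩
    rw [eval_monomial, Int.natAbs_mul, Int.natAbs_pow]
    exact Nat.mul_le_mul_left _ (Nat.pow_le_pow_left (by omega) _)

variable {f : ℤ[X]} {z : ℕ}

lemma t1_pf {y : ℕ} {t : ℤ} {p : ℕ} (hp : p.Prime) (h : p ∣ t1 f z y t) :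
    z < p ∧ (p : ℤ) ∣ f.eval t ∧ ¬ (p : ℤ) ^ 2 ∣ f.eval t := by
  have h1 := (CN.dvd_t1 hp).1 h
  exact ⟨(mem_PS.1 h1.1).1.1, h1.2.1, h1.2.2⟩

/-- the local hypotheses hold -/
lemma locH {a b : ℤ} {p : ℕ} (hp : p.Prime) {F : ℤ} (ha : ¬ (p : ℤ) ∣ a) (hb : ¬ (p : ℤ) ∣ b)
    (hab : ¬ (p : ℤ) ∣ a - b) (h1 : (p : ℤ) ∣ F) (h2 : ¬ (p : ℤ) ^ 2 ∣ F) {neg : Bool}
    (hneg : neg = true ↔ jacobiSym (F / p) p = -1) :
    LocH 3 (kp a b) neg p (a * F) (b * F) := by
  have hpi : Prime (p : ℤ) := Nat.prime_iff_prime_int.1 hp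
  have hp0 : (p : ℤ) ≠ 0 := hpi.ne_zero
  have hsq : ∀ c : ℤ, ¬ (p : ℤ) ∣ c → ¬ (p : ℤ) ^ 2 ∣ c * F := by
    intro c hc h
    have hco : IsCoprime ((p : ℤ) ^ 2) c :=
      IsCoprime.pow_left ((Prime.coprime_iff_not_dvd hpi).2 hc)
    exact h2 (hco.dvd_of_dvd_mul_left h)
  have hsub : a * F - b * F = (a - b) * F := by ring
  obtain ⟨q, hq⟩ := h1
  have h1 : (p : ℤ) ∣ F := ⟨q, hq⟩
  have hdiv : ∀ c : ℤ, c * F / p = c * q := by
    intro c
    rw [hq, mul_left_comm, Int.mul_ediv_cancel_left _ hp0]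
  have hq2 : F / p = q := by rw [hq, Int.mul_ediv_cancel_left _ hp0]
  have hnq : ¬ (p : ℤ) ∣ q := by
    intro h
    apply h2
    rw [hq, pow_two]
    exact mul_dvd_mul_left _ h
  have hJ : jacobiSym q p = if neg = true then -1 else 1 := by
    rw [hq2] at hneg
    split_ifs with h5
    · exact hneg.1 h5
    · have h6 : jacobiSym q p ≠ -1 := fun h7 => h5 (hneg.2 h7)
      have h7 : q.gcd p = 1 := by
        rw [← Int.isCoprime_iff_gcd_eq_one]
        exact IsCoprime.symm ((Prime.coprime_iff_not_dvd hpi).2 hnq)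
      rcases jacobiSym.eq_one_or_neg_one h7 with h8 | h8
      · exact h8
      · exact absurd h8 h6
  have hsy : ∀ c : ℤ, ¬ (p : ℤ) ∣ c → jacobiSym (c * (c * F / p)) p =
      if neg = true then -1 else 1 := by
    intro c hc
    rw [hdiv, ← mul_assoc, ← pow_two, jacobiSym.mul_left]
    have h8 : jacobiSym (c ^ 2) p = 1 := by
      apply jacobiSym.sq_one'
      rw [← Int.isCoprime_iff_gcd_eq_one]
      exact IsCoprime.symm ((Prime.coprime_iff_not_dvd hpi).2 hc)
    rw [h8, one_mul, hJ]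
  unfold LocH
  rw [if_neg (by decide), if_neg (by decide), if_neg (by decide), kp0, kp1, kp2, hsub]
  exact ⟨h1.mul_left _, h1.mul_left _, hsq a ha, hsq b hb, hsq _ hab, hsy a ha, hsy b hb,
    hsy _ hab⟩

/-- the number of the bad primes -/
lemma bad {a b : ℤ} (hz : 2 ≤ z) (ha : a ≠ 0) (hb : b ≠ 0) (hab : a ≠ b) (haz : a.natAbs ≤ z)
    (hbz : b.natAbs ≤ z) (habz : (a - b).natAbs ≤ z) {t : ℤ} {y N : ℕ} (hy : 1 ≤ y)
    (h0 : f.eval t ≠ 0) (hN : (f.eval t).natAbs < (y + 1) ^ N) :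
    ((2 * (a * f.eval t) * (b * f.eval t) *
      (a * f.eval t - b * f.eval t)).natAbs.primeFactors.filter
        (fun q => ¬ q ∣ t1 f z y t)).card ≤ z + N + (t2 f z y t).primeFactors.card := by
  set F := f.eval t with hF
  have hsub : ((2 * (a * F) * (b * F) * (a * F - b * F)).natAbs.primeFactors.filter
      (fun q => ¬ q ∣ t1 f z y t)) ⊆
      ((Icc 1 z) ∪ F.natAbs.primeFactors.filter (y < ·)) ∪ (t2 f z y t).primeFactors := by
    intro q hq
    rw [mem_filter] at hq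
    have hp := Nat.prime_of_mem_primeFactors hq.1
    have hdv := Nat.dvd_of_mem_primeFactors hq.1
    rw [mem_union, mem_union, mem_Icc]
    rcases Nat.lt_or_ge z q with h | h
    swap
    · exact Or.inl (Or.inl ⟨hp.one_lt.le, h⟩)
    · have hqi : Prime (q : ℤ) := Nat.prime_iff_prime_int.1 hp
      have hno : ∀ c : ℤ, c ≠ 0 → c.natAbs ≤ z → ¬ (q : ℤ) ∣ c := by
        intro c hc hcz hd
        have := Nat.le_of_dvd (Int.natAbs_pos.2 hc) (Int.natCast_dvd.1 hd)
        omega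
      have hdv2 : (q : ℤ) ∣ (2 * a * b * (a - b)) * F ^ 3 := by
        have h1 : (q : ℤ) ∣ 2 * (a * F) * (b * F) * (a * F - b * F) := Int.natCast_dvd.2 hdv
        have e : 2 * (a * F) * (b * F) * (a * F - b * F) = (2 * a * b * (a - b)) * F ^ 3 := by ring
        rwa [e] at h1
      have hqF : (q : ℤ) ∣ F := by
        rcases hqi.dvd_or_dvd hdv2 with h1 | h1
        · exfalso
          rcases hqi.dvd_or_dvd h1 with h2 | h2
          · rcases hqi.dvd_or_dvd h2 with h3 | h3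
            · rcases hqi.dvd_or_dvd h3 with h4 | h4
              · exact hno 2 (by norm_num) (by simpa using hz) h4
              · exact hno a ha haz h4
            · exact hno b hb hbz h3
          · exact hno (a - b) (sub_ne_zero.2 hab) habz h2
        · exact hqi.dvd_of_dvd_pow h1
      rcases Nat.lt_or_ge y q with hyq | hyq
      · left; right
        rw [mem_filter, Nat.mem_primeFactors]
        exact ⟨⟨hp, Int.natCast_dvd.1 hqF, Int.natAbs_ne_zero.2 h0⟩, hyq⟩
      · right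
        have hPS : q ∈ PS z y := mem_PS.2 ⟨⟨h, hyq⟩, hp⟩
        have hsq : (q : ℤ) ^ 2 ∣ f.eval t := by
          by_contra hcon
          exact hq.2 ((CN.dvd_t1 hp).2 ⟨hPS, hqF, hcon⟩)
        rw [Nat.mem_primeFactors]
        refine ⟨hp, (CN.dvd_t2 hp).2 ⟨hPS, hsq⟩, ?_⟩
        exact Nat.one_le_iff_ne_zero.1 (NX.dpos (NX.t2_dvd z y t))
  have hone : (F.natAbs.primeFactors.filter (y < ·)).card ≤ N := by
    set S := F.natAbs.primeFactors.filter (y < ·) with hS
    have h1 : (y + 1) ^ S.card ≤ ∏ q ∈ S, q :=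
      Finset.pow_card_le_prod _ _ _ (fun q hq => by
        have := (mem_filter.1 hq).2
        omega)
    have h2 : ∏ q ∈ S, q ∣ F.natAbs :=
      (prod_dvd_prod_of_subset _ _ _ (filter_subset _ _)).trans (Nat.prod_primeFactors_dvd _)
    have h3 : ∏ q ∈ S, q ≤ F.natAbs :=
      Nat.le_of_dvd (Nat.pos_of_ne_zero (Int.natAbs_ne_zero.2 h0)) h2
    have h4 : (y + 1) ^ S.card < (y + 1) ^ N := (h1.trans h3).trans_lt hN
    exact ((Nat.pow_lt_pow_iff_right (by omega)).1 h4).le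
  refine (card_le_card hsub).trans ((card_union_le _ _).trans (add_le_add
    ((card_union_le _ _).trans (add_le_add ?_ hone)) le_rfl))
  simp

/-- the rank is bounded by the local count -/
lemma rank {a b : ℤ} (hz : 2 ≤ z) (ha : a ≠ 0) (hb : b ≠ 0) (hab : a ≠ b) (haz : a.natAbs ≤ z)
    (hbz : b.natAbs ≤ z) (habz : (a - b).natAbs ≤ z) {t : ℤ} {y N : ℕ} (hy : 1 ≤ y)
    (h0 : f.eval t ≠ 0) (hN : (f.eval t).natAbs < (y + 1) ^ N) :
    2 ^ Module.finrank ℤ (EAB (a * f.eval t) (b * f.eval t)).toAffine.Point ≤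
      4 ^ (z + 2) * 4 ^ N * 4 ^ ((t2 f z y t).primeFactors.card) *
        NL (t1 f z y t) (LE (kp a b) (ng f t (t1 f z y t))) := by
  set F := f.eval t with hF
  set s := t1 f z y t with hs
  have hno : ∀ p : ℕ, z < p → ∀ c : ℤ, c ≠ 0 → c.natAbs ≤ z → ¬ (p : ℤ) ∣ c := by
    intro p hzp c hc hcz hd
    have := Nat.le_of_dvd (Int.natAbs_pos.2 hc) (Int.natCast_dvd.1 hd)
    omega
  have hkp : ∀ p : ℕ, z < p → ∀ k, ¬ (p : ℤ) ∣ kp a b k := by
    intro p hzp
    exact fin3 _ (hno p hzp a ha haz) (hno p hzp b hb hbz)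
      (hno p hzp (a - b) (sub_ne_zero.2 hab) habz)
  have hsd : s ∣ PP z y := NX.t1_dvd z y t
  have hs0 : s ≠ 0 := Nat.one_le_iff_ne_zero.1 (NX.dpos hsd)
  have hodd : ∀ p : ℕ, p.Prime → p ∣ s → p ≠ 2 := by
    intro p hp h
    have h1 := (t1_pf hp h).1
    omega
  have hd := Pool.Agent.W214.RK2.desc4 s (LE (kp a b) (ng f t s)) (a * F) (b * F)
    (mul_ne_zero ha h0) (mul_ne_zero hb h0) (fun h => hab (mul_right_cancel₀ h0 h))
    (by
      rw [← Nat.not_even_iff_odd, even_iff_two_dvd]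
      intro h
      exact hodd 2 Nat.prime_two h rfl)
    ((PP_squarefree z y).squarefree_of_dvd hsd)
    (fun p hp hpd => Pool.Agent.W342.RK2.xcl _ _ _ p hp (hodd p hp hpd)
      (hkp p (t1_pf hp hpd).1))
    (fun p hpf hpd x x' hx' hcurve e1 e2 he1 he2 hsq1 hsq2 => by
      have hpp : p.Prime := Fact.out
      obtain ⟨hzp, h1, h2⟩ := t1_pf hpp hpd
      refine Pool.Agent.W342.RK2.locl 3 (kp a b) _ p _ _ (hodd p hpp hpd) (hkp p hzp)
        (locH hpp (hno p hzp a ha haz) (hno p hzp b hb hbz)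
          (hno p hzp (a - b) (sub_ne_zero.2 hab) habz) h1 h2 ?_)
        x x' hx' hcurve e1 e2 he1 he2 hsq1 hsq2
      rw [decide_eq_true_eq]
      unfold ng
      rw [mem_filter, Nat.mem_primeFactors]
      exact ⟨fun h => h.2, fun h => ⟨⟨hpp, hpd, hs0⟩, h⟩⟩)
  refine hd.trans (Nat.mul_le_mul_right _ ?_)
  have hc := bad (f := f) (t := t) hz ha hb hab haz hbz habz hy h0 hN
  rw [← hF, ← hs] at hc
  calc _ ≤ 4 ^ ((z + 2) + N + (t2 f z y t).primeFactors.card) :=
        Nat.pow_le_pow_right (by norm_num) (by omega)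
    _ = _ := by rw [pow_add, pow_add]

/-- the moments for good data -/
theorem moments {a b : ℤ} {g m : ℕ} (M : ℕ) (ha : a ≠ 0) (hb : b ≠ 0) (hab : a ≠ b)
    (haz : a.natAbs ≤ z) (hbz : b.natAbs ≤ z) (habz : (a - b).natAbs ≤ z) (hz : Gd f z)
    (hg : 1 ≤ g) (hM : Mer f g) (hU : Utw f z)
    (hκk : ∀ i : XP.Ik m, (XP.κk (kp a b) i).natAbs ≤ z) (hk : 2 * f.natDegree ≤ 4 ^ m)
    (hk2 : 2 * g ≤ 4 ^ m) :
    ∃ (X0 : ℕ) (B : ℝ), ∀ (x : ℤ) (X : ℕ), x.natAbs ≤ X ^ M → X0 ≤ X →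
      ∑ t ∈ NX.II f x X, ((2 : ℝ) ^ Module.finrank ℤ
        (EAB (a * f.eval t) (b * f.eval t)).toAffine.Point) ^ m ≤ B * X := by
  classical
  have hz2 : 2 ≤ z := by have := hz.big; omega
  have hκ0 : ∀ k, kp a b k ≠ 0 := fin3 _ ha hb (sub_ne_zero.2 hab)
  have hκz : ∀ k, (kp a b k).natAbs ≤ z := fin3 _ haz hbz habz
  obtain ⟨C', hC'⟩ := avg_bound
    (Pool.Agent.W655.RK.blw_of (_root_.W37.RK.bl_of Pool.Agent.W505.RK.ls)) hz hg hM hU hκ0 hκz
    hκk hk hk2
  obtain ⟨C, K, y0, hC0, hK1, hcn⟩ := CN.count hz hM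
  obtain ⟨c, L, hcL⟩ := growth f
  -- the size of the values
  set L1 : ℕ := (M + 3) * L + 1 with hL1
  set y1 : ℕ := y0 + c + 3 with hy1
  have hval : ∀ (x : ℤ) (X : ℕ), x.natAbs ≤ X ^ M → y1 ≤ X → ∀ t ∈ Ioc x (x + X),
      (f.eval t).natAbs ≤ X ^ L1 := by
    intro x X hx hX t ht
    rw [mem_Ioc] at ht
    have hX2 : 2 ≤ X := by omega
    have h1 : t.natAbs + 1 ≤ x.natAbs + X + 1 := by omega
    have h2 : x.natAbs + X + 1 ≤ X ^ (M + 3) := by
      have h3 : X ^ (M + 3) = X ^ M * (X ^ 3) := pow_add _ _ _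
      have h4 : 1 ≤ X ^ M := Nat.one_le_pow _ _ (by omega)
      have h5 : X + 1 + 1 ≤ X ^ 3 := by nlinarith [Nat.mul_le_mul hX2 hX2, sq_nonneg (X - 2)]
      calc x.natAbs + X + 1 ≤ X ^ M * 1 + 1 * (X + 1) := by omega
        _ ≤ X ^ M * 1 + X ^ M * (X + 1) := Nat.add_le_add_left (Nat.mul_le_mul_right _ h4) _
        _ = X ^ M * (X + 1 + 1) := by ring
        _ ≤ X ^ M * X ^ 3 := Nat.mul_le_mul_left _ h5
        _ = _ := h3.symm
    calc (f.eval t).natAbs ≤ c * (t.natAbs + 1) ^ L := hcL t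
      _ ≤ X * (X ^ (M + 3)) ^ L :=
          Nat.mul_le_mul (by omega) (Nat.pow_le_pow_left (h1.trans h2) _)
      _ = X ^ L1 := by rw [hL1, ← pow_mul, pow_succ, mul_comm]
  obtain ⟨X0, B, hB⟩ := NX.nt (G := NBk m (kp a b))
    (R := fun t => ((2 : ℝ) ^ Module.finrank ℤ
      (EAB (a * f.eval t) (b * f.eval t)).toAffine.Point) ^ m)
    (Q := fun x X => x.natAbs ≤ X ^ M ∧ y1 ≤ X) (A := 4 ^ m) (C := C * (4 ^ (z + 2)) ^ m)
    (D := (4 ^ L1) ^ m) (C' := C') (g := g) (K := K) (y0 := y1)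
    hz (NBk_nonneg m _) (fun t => by positivity) (by positivity) (by positivity)
    (one_le_pow₀ (one_le_pow₀ (by norm_num)))
    (fun y s e hse => subk m hz2 hκ0 hκz hse) hC' (by
      intro x X y Y k hQ hy0 hzy hyK hXk s v u hs hv hu hsvu
      obtain ⟨hx, hX⟩ := hQ
      have hy00 : y0 ≤ y := by omega
      set S := (NX.II f x X).filter (fun t : ℤ => t1 f z y t = s ∧ t2 f z y t = v ∧
        (u : ℤ) ∣ f.eval t) with hS
      set G : Finset ℕ → ℝ := fun E => (NL s (LE (kp a b) E) : ℝ) ^ m with hG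
      have hG0 : ∀ E, 0 ≤ G E := fun E => by simp only [hG]; positivity
      have h1 : ∀ t ∈ S, ((2 : ℝ) ^ Module.finrank ℤ
          (EAB (a * f.eval t) (b * f.eval t)).toAffine.Point) ^ m ≤
          (4 ^ (z + 2)) ^ m * ((4 ^ L1) ^ m) ^ k * (4 ^ m) ^ v.primeFactors.card *
            G (ng f t s) := by
        intro t ht
        rw [hS, mem_filter] at ht
        obtain ⟨ht1, hts, htv, _⟩ := ht
        unfold NX.II at ht1
        rw [mem_filter] at ht1
        have hN : (f.eval t).natAbs < (y + 1) ^ (k * L1) := by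
          calc (f.eval t).natAbs ≤ X ^ L1 := hval x X hx hX t ht1.1
            _ < ((y + 1) ^ k) ^ L1 := Nat.pow_lt_pow_left hXk (by omega)
            _ = _ := by rw [← pow_mul]
        have hr := rank hz2 ha hb hab haz hbz habz (t := t) (y := y) (N := k * L1) (by omega)
          ht1.2 hN
        rw [hts, htv] at hr
        have hr' : (2 : ℝ) ^ Module.finrank ℤ
            (EAB (a * f.eval t) (b * f.eval t)).toAffine.Point ≤
            4 ^ (z + 2) * 4 ^ (k * L1) * 4 ^ (v.primeFactors.card) *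
              (NL s (LE (kp a b) (ng f t s)) : ℝ) := by exact_mod_cast hr
        refine (pow_le_pow_left₀ (by positivity) hr' m).trans (le_of_eq ?_)
        simp only [hG]
        rw [mul_pow, mul_pow, mul_pow]
        congr 2
        · congr 1
          rw [← pow_mul, ← pow_mul, ← pow_mul]
          congr 1
          ring
        · rw [← pow_mul, ← pow_mul, mul_comm]
      have hneg : ∀ t ∈ S, ng f t s ∈ s.primeFactors.powerset := by
        intro t _
        rw [mem_powerset]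
        exact filter_subset _ _
      have h2 : ∑ t ∈ S, G (ng f t s) =
          ∑ E ∈ s.primeFactors.powerset,
            ((S.filter (fun t : ℤ => ng f t s = E)).card : ℝ) * G E := by
        rw [← sum_fiberwise_of_maps_to hneg]
        refine sum_congr rfl fun E _ => ?_
        rw [← nsmul_eq_mul, ← sum_const]
        refine sum_congr rfl fun t ht => ?_
        rw [(mem_filter.1 ht).2]
      set Q : ℝ := C * X * (1 / 2) ^ s.primeFactors.card * gm (br f) s * (gm (br f) v / v) *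
        gm (ru f) u / (Real.log y) ^ g with hQ
      have h3 : ∀ E ∈ s.primeFactors.powerset,
          ((S.filter (fun t : ℤ => ng f t s = E)).card : ℝ) * G E ≤ Q * G E := by
        intro E _
        refine mul_le_mul_of_nonneg_right ?_ (hG0 E)
        refine le_trans ?_ (hcn x X y Y hy00 hzy hyK s v u hs hv hu hsvu E)
        have h4 : S.filter (fun t : ℤ => ng f t s = E) ⊆
            (Ioc x (x + X)).filter (fun t : ℤ => t1 f z y t = s ∧ t2 f z y t = v ∧
              (u : ℤ) ∣ f.eval t ∧ ng f t s = E) := by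
          intro t ht
          rw [mem_filter, hS, mem_filter] at ht
          unfold NX.II at ht
          rw [mem_filter] at ht
          rw [mem_filter]
          exact ⟨ht.1.1.1, ht.1.2.1, ht.1.2.2.1, ht.1.2.2.2, ht.2⟩
        exact_mod_cast card_le_card h4
      calc ∑ t ∈ S, ((2 : ℝ) ^ Module.finrank ℤ
              (EAB (a * f.eval t) (b * f.eval t)).toAffine.Point) ^ m
          ≤ ∑ t ∈ S, (4 ^ (z + 2)) ^ m * ((4 ^ L1) ^ m) ^ k * (4 ^ m) ^ v.primeFactors.card *
            G (ng f t s) := sum_le_sum h1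
        _ = (4 ^ (z + 2)) ^ m * ((4 ^ L1) ^ m) ^ k * (4 ^ m) ^ v.primeFactors.card *
              ∑ E ∈ s.primeFactors.powerset,
                ((S.filter (fun t : ℤ => ng f t s = E)).card : ℝ) * G E := by
            rw [← mul_sum, h2]
        _ ≤ (4 ^ (z + 2)) ^ m * ((4 ^ L1) ^ m) ^ k * (4 ^ m) ^ v.primeFactors.card *
              ∑ E ∈ s.primeFactors.powerset, Q * G E :=
            mul_le_mul_of_nonneg_left (sum_le_sum h3) (by positivity)
        _ = _ := by
            have e1 : NBk m (kp a b) s = (1 / 2) ^ s.primeFactors.card *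
                ∑ E ∈ s.primeFactors.powerset, G E := rfl
            have e2 : NX.bV f (4 ^ m) v = (4 ^ m) ^ v.primeFactors.card *
                (gm (br f) v / v) := rfl
            rw [← mul_sum, e1, e2, hQ]
            ring)
  refine ⟨X0 + y1, B, fun x X hx hX => ?_⟩
  exact hB x X ⟨hx, by omega⟩ (by omega)

end RK

end Run7.h69
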