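import Mathlib
import Pool.Agent.Y773.HK.Eul
import Pool.Agent.H921R2.TatePole.Homs
import Pool.Agent.W586.RK.UB

/-!
# The logarithm of the L-function of a ray class character
-/

set_option autoImplicit false
set_option linter.unusedSectionVars false

open NumberField Complex Filter Topology IsDedekindDomain

namespace Run7.h69.HL

open Pool.Agent.Y773 (LI zz norm_zz_lt hasSum_log)
open Pool.Agent.Y772.DK (LA ee LI_eq_exp)
open Pool.Agent.H921R2.TatePole (nm nm_ne_zero two_le_nm nm_summable tsum_fiber below below_le_nm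
  fiber_card_le summable_fiber summable_primes_rpow W)

variable {K : Type} [Field K] [NumberField K]

/-- prime ideals and places -/
def eqv : {𝔭 : Ideal (𝓞 K) // Prime 𝔭} ≃ HeightOneSpectrum (𝓞 K) where
  toFun 𝔭 := ⟨𝔭.1, Ideal.isPrime_of_prime 𝔭.2, 𝔭.2.ne_zero⟩
  invFun v := ⟨v.asIdeal, v.prime⟩
  left_inv _ := rfl
  right_inv _ := rfl

variable (K) in
/-- the sum of the squares -/
noncomputable def S2 : ℝ := ∑' v : HeightOneSpectrum (𝓞 K), (nm v : ℝ) ^ (-(2 : ℝ))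

lemma S2_nonneg : 0 ≤ S2 K := tsum_nonneg fun v => by positivity

lemma hasSum_v {ψ : Ideal (𝓞 K) →*₀ ℂ} (hψ : ∀ 𝔞, ‖ψ 𝔞‖ ≤ 1) {s : ℂ} (hs : 1 < s.re) :
    HasSum (fun v : HeightOneSpectrum (𝓞 K) => -Complex.log (1 - zz ψ s v.asIdeal))
      (LA (ee ψ) s) := by
  have h := hasSum_log hψ hs
  rw [← Equiv.hasSum_iff (eqv (K := K)).symm] at h
  exact h

lemma norm_zz_le {ψ : Ideal (𝓞 K) →*₀ ℂ} (hψ : ∀ 𝔞, ‖ψ 𝔞‖ ≤ 1) (s : ℂ)
    (v : HeightOneSpectrum (𝓞 K)) : ‖zz ψ s v.asIdeal‖ ≤ (nm v : ℝ) ^ (-s.re) := by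
  unfold zz
  have h2 := two_le_nm v
  rw [norm_mul, Complex.norm_natCast_cpow_of_pos (by unfold nm at h2; omega)]
  calc _ ≤ 1 * ((Ideal.absNorm v.asIdeal : ℕ) : ℝ) ^ (-s).re :=
        mul_le_mul_of_nonneg_right (hψ _) (by positivity)
    _ = _ := by rw [one_mul, neg_re]; rfl

lemma rpow_anti {x x' : ℝ} (h : x ≤ x') (v : HeightOneSpectrum (𝓞 K)) :
    (nm v : ℝ) ^ (-x') ≤ (nm v : ℝ) ^ (-x) := by
  have h2 : (1 : ℝ) ≤ nm v := by exact_mod_cast (one_le_two.trans (two_le_nm v))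
  exact Real.rpow_le_rpow_of_exponent_le h2 (by linarith)

lemma norm_zz_half {ψ : Ideal (𝓞 K) →*₀ ℂ} (hψ : ∀ 𝔞, ‖ψ 𝔞‖ ≤ 1) {s : ℂ} (hs : 1 < s.re)
    (v : HeightOneSpectrum (𝓞 K)) : ‖zz ψ s v.asIdeal‖ ≤ 1 / 2 := by
  refine (norm_zz_le hψ s v).trans ((rpow_anti hs.le v).trans ?_)
  have h2 : (2 : ℝ) ≤ nm v := by exact_mod_cast two_le_nm v
  rw [Real.rpow_neg_one, one_div]
  exact inv_anti₀ (by norm_num) h2

lemma term {ψ : Ideal (𝓞 K) →*₀ ℂ} (hψ : ∀ 𝔞, ‖ψ 𝔞‖ ≤ 1) {s : ℂ} (hs : 1 < s.re)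
    (v : HeightOneSpectrum (𝓞 K)) :
    ‖-Complex.log (1 - zz ψ s v.asIdeal) - zz ψ s v.asIdeal‖ ≤ (nm v : ℝ) ^ (-(2 : ℝ)) := by
  set z := zz ψ s v.asIdeal with hz
  have h1 : ‖z‖ ≤ 1 / 2 := norm_zz_half hψ hs v
  have h2 : ‖-z‖ < 1 := by rw [norm_neg]; linarith
  have h3 := Complex.norm_log_one_add_sub_self_le h2
  have e : -Complex.log (1 - z) - z = -(Complex.log (1 + -z) - -z) := by ring_nf
  rw [e, norm_neg]
  refine h3.trans ?_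
  rw [norm_neg]
  have h4 : (1 - ‖z‖)⁻¹ ≤ 2 := by
    rw [inv_le_comm₀ (by linarith) (by norm_num)]
    linarith
  have h5 : ‖z‖ ≤ (nm v : ℝ) ^ (-(1 : ℝ)) := (norm_zz_le hψ s v).trans (rpow_anti hs.le v)
  have h6 : ‖z‖ ^ 2 ≤ (nm v : ℝ) ^ (-(2 : ℝ)) := by
    calc ‖z‖ ^ 2 ≤ ((nm v : ℝ) ^ (-(1 : ℝ))) ^ 2 := pow_le_pow_left₀ (norm_nonneg _) h5 2
      _ = (nm v : ℝ) ^ (-(2 : ℝ)) := by
        rw [← Real.rpow_natCast, ← Real.rpow_mul (by positivity)]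
        norm_num
  have h7 : 0 ≤ ‖z‖ ^ 2 := by positivity
  calc ‖z‖ ^ 2 * (1 - ‖z‖)⁻¹ / 2 ≤ ‖z‖ ^ 2 * 2 / 2 := by gcongr
    _ = ‖z‖ ^ 2 := by ring
    _ ≤ _ := h6

lemma zz_summable {ψ : Ideal (𝓞 K) →*₀ ℂ} (hψ : ∀ 𝔞, ‖ψ 𝔞‖ ≤ 1) {s : ℂ} (hs : 1 < s.re) :
    Summable (fun v : HeightOneSpectrum (𝓞 K) => zz ψ s v.asIdeal) :=
  Summable.of_norm_bounded (nm_summable hs) (norm_zz_le hψ s)

lemma LI_ne {ψ : Ideal (𝓞 K) →*₀ ℂ} (hψ : ∀ 𝔞, ‖ψ 𝔞‖ ≤ 1) {s : ℂ} (hs : 1 < s.re) :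
    LI ψ s ≠ 0 := by
  rw [LI_eq_exp ψ hψ hs]
  exact Complex.exp_ne_zero _

/-- the logarithm of the L-function -/
theorem log_LI {ψ : Ideal (𝓞 K) →*₀ ℂ} (hψ : ∀ 𝔞, ‖ψ 𝔞‖ ≤ 1) {s : ℂ} (hs : 1 < s.re) :
    |Real.log ‖LI ψ s‖ - (∑' v : HeightOneSpectrum (𝓞 K), zz ψ s v.asIdeal).re| ≤ S2 K := by
  have h1 := hasSum_v hψ hs
  have h2 := (zz_summable hψ hs).hasSum
  have h3 := h1.sub h2
  have h4 : ‖LA (ee ψ) s - ∑' v : HeightOneSpectrum (𝓞 K), zz ψ s v.asIdeal‖ ≤ S2 K := by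
    rw [← h3.tsum_eq]
    exact tsum_of_norm_bounded (nm_summable (x := 2) (by norm_num)).hasSum (term hψ hs)
  rw [LI_eq_exp ψ hψ hs, Complex.norm_exp, Real.log_exp, ← sub_re]
  exact (Complex.abs_re_le_norm _).trans h4

lemma tsum_nm_le {x : ℝ} (hx : 1 < x) :
    ∑' v : HeightOneSpectrum (𝓞 K), (nm v : ℝ) ^ (-x) ≤ Module.finrank ℚ K * W x := by
  rw [tsum_fiber (nm_summable hx)]
  unfold W
  rw [← tsum_mul_left]
  refine Summable.tsum_le_tsum (fun p => ?_) (summable_fiber (nm_summable hx))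
    ((summable_primes_rpow hx).mul_left _)
  have hp0 : (0 : ℝ) < ((p : ℕ) : ℝ) := by exact_mod_cast p.2.pos
  calc ∑ v : {v : HeightOneSpectrum (𝓞 K) // below v = p}, (nm v.1 : ℝ) ^ (-x)
      ≤ ∑ v : {v : HeightOneSpectrum (𝓞 K) // below v = p}, ((p : ℕ) : ℝ) ^ (-x) := by
        refine Finset.sum_le_sum fun v _ => ?_
        refine Real.rpow_le_rpow_of_nonpos hp0 ?_ (by linarith)
        have := below_le_nm v.1
        rw [v.2] at this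
        exact_mod_cast this
    _ = (Fintype.card {v : HeightOneSpectrum (𝓞 K) // below v = p} : ℝ) * ((p : ℕ) : ℝ) ^ (-x) := by
        rw [Finset.sum_const, Finset.card_univ, nsmul_eq_mul]
    _ ≤ _ := mul_le_mul_of_nonneg_right (by exact_mod_cast fiber_card_le p) (by positivity)

/-- the sum over the primes -/
lemma W_le {σ : ℝ} (h0 : 0 < σ) (h1 : σ ≤ 1) : W (1 + σ) ≤ Real.log (2 / σ) := by
  unfold W
  refine Real.tsum_le_of_sum_le (fun p => by positivity) fun T => ?_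
  have h := Pool.Agent.W586.RK.UB.euler_lower
    ({ toFun := fun n => if n = 0 then 0 else 1
       map_zero' := by simp
       map_one' := by simp
       map_mul' := fun a b => by
        by_cases ha : a = 0 <;> by_cases hb : b = 0 <;> simp [ha, hb] } : ℕ →*₀ ℝ)
    (fun n => by
      change |if n = 0 then (0 : ℝ) else 1| ≤ 1
      split_ifs <;> simp) σ h0 h1 T
  obtain ⟨-, h⟩ := h
  have hz := (Pool.Agent.H304R3.MO.zeta_bound σ h0 h1)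
  have e1 : ∑' n : ℕ, (n : ℝ) ^ (-(1 + σ)) * (if n = 0 then (0 : ℝ) else 1) ≤ 2 / σ := by
    refine le_trans (le_of_eq ?_) hz.2
    refine tsum_congr fun n => ?_
    by_cases hn : n = 0
    · subst hn
      rw [if_pos rfl, mul_zero, Nat.cast_zero, Real.zero_rpow (by linarith)]
    · rw [if_neg hn, mul_one]
  have e2 : ∀ p : Nat.Primes, (1 + (if (p : ℕ) = 0 then (0 : ℝ) else 1)) *
      ((p : ℕ) : ℝ) ^ (-(1 + σ)) = 2 * ((p : ℕ) : ℝ) ^ (-(1 + σ)) := by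
    intro p
    rw [if_neg p.2.ne_zero]
    norm_num
  have h' : Real.exp (∑ p ∈ T, (1 + (if (p : ℕ) = 0 then (0 : ℝ) else 1)) *
      ((p : ℕ) : ℝ) ^ (-(1 + σ))) ≤ 2 / σ * ∑' n : ℕ, (n : ℝ) ^ (-(1 + σ)) *
        (if n = 0 then (0 : ℝ) else 1) := h
  rw [Finset.sum_congr rfl fun p _ => e2 p, ← Finset.mul_sum] at h'
  have hpos : (0 : ℝ) < 2 / σ := by positivity
  have h2 : Real.exp (2 * ∑ p ∈ T, ((p : ℕ) : ℝ) ^ (-(1 + σ))) ≤ (2 / σ) * (2 / σ) :=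
    h'.trans (mul_le_mul_of_nonneg_left e1 hpos.le)
  have h3 := Real.log_le_log (Real.exp_pos _) h2
  rw [Real.log_exp, Real.log_mul hpos.ne' hpos.ne'] at h3
  linarith

/-- the trivial bound -/
theorem LI_le {ψ : Ideal (𝓞 K) →*₀ ℂ} (hψ : ∀ 𝔞, ‖ψ 𝔞‖ ≤ 1) {η : ℝ} (h0 : 0 < η) (h1 : η ≤ 1)
    {s : ℂ} (hs : 1 + η ≤ s.re) :
    ‖LI ψ s‖ ≤ Real.exp (S2 K) * (2 / η) ^ Module.finrank ℚ K := by
  have hs1 : 1 < s.re := by linarith
  have h2 := (abs_le.1 (log_LI hψ hs1)).2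
  have h3 : (∑' v : HeightOneSpectrum (𝓞 K), zz ψ s v.asIdeal).re ≤
      Module.finrank ℚ K * Real.log (2 / η) := by
    calc (∑' v : HeightOneSpectrum (𝓞 K), zz ψ s v.asIdeal).re
        ≤ ‖∑' v : HeightOneSpectrum (𝓞 K), zz ψ s v.asIdeal‖ := Complex.re_le_norm _
      _ ≤ ∑' v : HeightOneSpectrum (𝓞 K), (nm v : ℝ) ^ (-(1 + η)) :=
          tsum_of_norm_bounded (nm_summable (by linarith)).hasSum
            fun v => (norm_zz_le hψ s v).trans (rpow_anti hs v)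
      _ ≤ Module.finrank ℚ K * W (1 + η) := tsum_nm_le (by linarith)
      _ ≤ _ := mul_le_mul_of_nonneg_left (W_le h0 h1) (by positivity)
  have h4 : Real.log ‖LI ψ s‖ ≤ S2 K + Module.finrank ℚ K * Real.log (2 / η) := by linarith
  have hpos : (0 : ℝ) < ‖LI ψ s‖ := norm_pos_iff.2 (LI_ne hψ hs1)
  rw [← Real.exp_log hpos]
  refine (Real.exp_le_exp.2 h4).trans (le_of_eq ?_)
  rw [Real.exp_add, ← Real.log_pow, Real.exp_log (by positivity)]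

end Run7.h69.HL
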