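import Mathlib
import Pool.Agent.Run7.h69.HL1
import Pool.Agent.Y772.FE.Main

/-!
# The size near `1` of a function with a functional equation
-/

set_option autoImplicit false
set_option linter.unusedSectionVars false

open Complex Filter Topology Set Asymptotics
open Pool.Agent.Y773 (GG FEd)
open Pool.Agent.Y772.FE (F_left_edge inv_GG_le GG_ne sp3_ne)

namespace Run7.h69.HL

variable {ι : Type} [Fintype ι]

/-- the auxiliary function -/
noncomputable def HH (R b : ℝ) (d : ℕ) (F : ℂ → ℂ) (s : ℂ) : ℂ :=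
  F s * (R : ℂ) ^ ((s - b) / ((b + 1 / 2 : ℝ) : ℂ)) * ((s + 3) ^ d)⁻¹

theorem HH_bound {R b B : ℝ} (hR : 1 ≤ R) (hb : 1 ≤ b) (hb2 : b ≤ 3 / 2) {e : ι → ℕ} {F : ℂ → ℂ}
    (hF : FEd R e F) (hB : ∀ s : ℂ, b ≤ s.re → ‖F s‖ ≤ B) (s : ℂ) (h1 : -1 / 2 ≤ s.re)
    (h2 : s.re ≤ b) : ‖HH R b (Fintype.card ι) F s‖ ≤ B := by
  have hB0 : 0 ≤ B := (norm_nonneg _).trans (hB b (by simp))
  set d := Fintype.card ι with hd
  have hR0 : (0 : ℝ) < R := by linarith
  have hRC : (R : ℂ) ≠ 0 := by exact_mod_cast hR0.ne'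
  have hb0 : (0 : ℝ) < b + 1 / 2 := by linarith
  have hqn : ∀ z : ℂ, ‖(R : ℂ) ^ ((z - b) / ((b + 1 / 2 : ℝ) : ℂ))‖ =
      R ^ ((z.re - b) / (b + 1 / 2)) := by
    intro z
    rw [Complex.norm_cpow_eq_rpow_re_of_pos hR0]
    congr 1
    rw [Complex.div_ofReal_re, Complex.sub_re, Complex.ofReal_re]
  have hs3 : ∀ z : ℂ, ‖((z + 3) ^ d)⁻¹‖ = (‖z + 3‖ ^ d)⁻¹ := by
    intro z; rw [norm_inv, norm_pow]
  have hge1 : ∀ z : ℂ, -1 / 2 ≤ z.re → 1 ≤ ‖z + 3‖ := by
    intro z hz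
    have h5 := (le_abs_self _).trans (Complex.abs_re_le_norm (z + 3))
    have h6 : (z + 3).re = z.re + 3 := by simp
    rw [h6] at h5
    linarith
  refine PhragmenLindelof.vertical_strip (f := HH R b d F) (a := -1 / 2) (b := b) ?_ ?_ ?_ ?_ h1 h2
  · have hdd : DifferentiableOn ℂ (HH R b d F) {z : ℂ | -3 < z.re} := by
      intro z hz
      have hz3 : (z + 3) ^ d ≠ 0 := pow_ne_zero _ (sp3_ne hz)
      apply DifferentiableAt.differentiableWithinAt
      unfold HH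
      refine ((hF.diff z).mul ?_).mul ?_
      · exact DifferentiableAt.const_cpow (by fun_prop) (Or.inl hRC)
      · exact DifferentiableAt.inv (by fun_prop) hz3
    apply DifferentiableOn.diffContOnCl
    apply hdd.mono
    refine (Complex.continuous_re.closure_preimage_subset _).trans ?_
    intro z hz
    have hz' : z.re ∈ closure (Ioo (-1 / 2 : ℝ) b) := hz
    rw [closure_Ioo (by linarith)] at hz'
    have := hz'.1
    change -3 < z.re
    linarith
  · obtain ⟨M, hM0, hM⟩ := inv_GG_le hR0 hF.he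
    obtain ⟨C, hC'⟩ := hF.vert (-1 / 2) (3 / 2)
    refine ⟨1, ?_, d * Real.pi, ?_⟩
    · rw [lt_div_iff₀ (by linarith)]
      linarith [Real.pi_gt_three]
    refine IsBigO.of_bound (M * C) ?_
    rw [eventually_inf_principal]
    have hev : ∀ᶠ z : ℂ in comap (abs ∘ Complex.im) atTop, 2 ≤ |z.im| :=
      (eventually_ge_atTop (2 : ℝ)).comap (abs ∘ Complex.im)
    filter_upwards [hev] with z hz1 hz2
    have hz2' : z.re ∈ Ioo (-1 / 2 : ℝ) b := hz2
    have e1 := hM z hz2'.1.le (hz2'.2.le.trans hb2) hz1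
    have e2 := hC' z hz2'.1.le (hz2'.2.le.trans hb2) (by linarith)
    have hz0 : z.im ≠ 0 := by
      intro h; rw [h, abs_zero] at hz1; linarith
    have hg := GG_ne hR0 e hz0
    have e4 : R ^ ((z.re - b) / (b + 1 / 2)) ≤ 1 :=
      Real.rpow_le_one_of_one_le_of_nonpos hR
        (div_nonpos_of_nonpos_of_nonneg (by linarith [hz2'.2]) hb0.le)
    have e5 : (‖z + 3‖ ^ d)⁻¹ ≤ 1 :=
      inv_le_one_of_one_le₀ (one_le_pow₀ (hge1 z hz2'.1.le))
    have hC0' : 0 ≤ C := (norm_nonneg _).trans e2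
    have e7 : F z = (GG R e z)⁻¹ * (GG R e z * F z) := by
      rw [← mul_assoc, inv_mul_cancel₀ hg, one_mul]
    unfold HH
    rw [norm_mul, norm_mul, hqn, hs3, e7, norm_mul, Real.norm_eq_abs,
      abs_of_pos (Real.exp_pos _)]
    have e6 : Real.exp (d * Real.pi * |z.im|) ≤ Real.exp (d * Real.pi * Real.exp (1 * |z.im|)) := by
      apply Real.exp_le_exp.mpr
      apply mul_le_mul_of_nonneg_left _ (by positivity)
      rw [one_mul]
      linarith [Real.add_one_le_exp |z.im|]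
    have hE := (Real.exp_pos (d * Real.pi * |z.im|)).le
    calc ‖(GG R e z)⁻¹‖ * ‖GG R e z * F z‖ *
          R ^ ((z.re - b) / (b + 1 / 2)) * (‖z + 3‖ ^ d)⁻¹
        ≤ (M * Real.exp (d * Real.pi * |z.im|)) * C * 1 * 1 := by gcongr
      _ = M * C * Real.exp (d * Real.pi * |z.im|) := by ring
      _ ≤ M * C * Real.exp (d * Real.pi * Real.exp (1 * |z.im|)) := by
          apply mul_le_mul_of_nonneg_left e6
          positivity
  · intro z hz
    have e1 := F_left_edge hR0 hF (fun s hs => hB s (hb2.trans hs)) z hz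
    rw [← hd] at e1
    unfold HH
    rw [norm_mul, norm_mul, hqn, hs3, hz]
    have e2 : R ^ (((-1 : ℝ) / 2 - b) / (b + 1 / 2)) = R⁻¹ := by
      rw [show ((-1 : ℝ) / 2 - b) / (b + 1 / 2) = -1 by field_simp; ring, Real.rpow_neg_one]
    rw [e2]
    have e4 : 0 < ‖z + 3‖ ^ d := by
      have := hge1 z (by rw [hz])
      positivity
    calc ‖F z‖ * R⁻¹ * (‖z + 3‖ ^ d)⁻¹
        ≤ (B * R * ‖z + 3‖ ^ d) * R⁻¹ * (‖z + 3‖ ^ d)⁻¹ := by gcongr
      _ = B := by field_simp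
  · intro z hz
    have e1 := hB z (by rw [hz])
    unfold HH
    rw [norm_mul, norm_mul, hqn, hs3, hz, sub_self, zero_div, Real.rpow_zero, mul_one]
    have e4 : 1 ≤ ‖z + 3‖ ^ d := one_le_pow₀ (hge1 z (by rw [hz]; linarith))
    calc ‖F z‖ * (‖z + 3‖ ^ d)⁻¹ ≤ B * 1 := by
          apply mul_le_mul e1 (inv_le_one_of_one_le₀ e4) (by positivity) hB0
      _ = B := mul_one _

/-- the size near `1` -/
theorem near_one {R R1 B : ℝ} (hR1 : 1 ≤ R) (hRR : R ≤ R1) (hR : Real.exp 2 ≤ R1) {e : ι → ℕ}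
    {F : ℂ → ℂ} (hF : FEd R e F) (hB : ∀ s : ℂ, 1 + 1 / Real.log R1 ≤ s.re → ‖F s‖ ≤ B)
    {σ : ℝ} (h0 : 0 < σ) (h1 : σ ≤ 1 / Real.log R1) :
    ‖F ((1 + σ : ℝ) : ℂ)‖ ≤ B * Real.exp 1 * 5 ^ Fintype.card ι := by
  have hR0 : 0 < R := by linarith
  have hl : 2 ≤ Real.log R1 := by
    have := Real.log_le_log (Real.exp_pos _) hR
    rwa [Real.log_exp] at this
  have hlR : Real.log R ≤ Real.log R1 := Real.log_le_log hR0 hRR
  have hlR0 : 0 ≤ Real.log R := Real.log_nonneg hR1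
  have hη0 : 0 < 1 / Real.log R1 := by positivity
  have hη : 1 / Real.log R1 ≤ 1 / 2 := one_div_le_one_div_of_le (by norm_num) hl
  set b : ℝ := 1 + 1 / Real.log R1 with hb
  have hbr : b + 1 / 2 ≥ 1 := by linarith
  have hk := HH_bound hR1 (by linarith : 1 ≤ b) (by linarith) hF hB ((1 + σ : ℝ) : ℂ)
    (by rw [Complex.ofReal_re]; linarith) (by rw [Complex.ofReal_re]; linarith)
  have hB0 : 0 ≤ B := (norm_nonneg _).trans (hB b (by simp))
  unfold HH at hk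
  rw [norm_mul, norm_mul, Complex.norm_cpow_eq_rpow_re_of_pos hR0, Complex.div_ofReal_re,
    Complex.sub_re, Complex.ofReal_re, Complex.ofReal_re, norm_inv, norm_pow] at hk
  have e1 : ‖((1 + σ : ℝ) : ℂ) + 3‖ ≤ 5 := by
    have : ((1 + σ : ℝ) : ℂ) + 3 = ((4 + σ : ℝ) : ℂ) := by push_cast; ring
    rw [this, Complex.norm_real, Real.norm_of_nonneg (by linarith)]
    linarith
  have e0 : (0 : ℝ) < ‖((1 + σ : ℝ) : ℂ) + 3‖ := by
    have : ((1 + σ : ℝ) : ℂ) + 3 = ((4 + σ : ℝ) : ℂ) := by push_cast; ring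
    rw [this, Complex.norm_real, Real.norm_of_nonneg (by linarith)]
    linarith
  have e2 : Real.exp (-1) ≤ R ^ ((1 + σ - b) / (b + 1 / 2)) := by
    rw [Real.rpow_def_of_pos hR0]
    apply Real.exp_le_exp.2
    have e3 : -(1 / Real.log R1) ≤ (1 + σ - b) / (b + 1 / 2) := by
      rw [le_div_iff₀ (by linarith)]
      have : 1 + σ - b = σ - 1 / Real.log R1 := by rw [hb]; ring
      rw [this]
      nlinarith
    have e6 : Real.log R * (1 / Real.log R1) ≤ 1 := by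
      rw [mul_one_div, div_le_one (by linarith)]
      exact hlR
    calc (-1 : ℝ) ≤ Real.log R * (-(1 / Real.log R1)) := by linarith
      _ ≤ _ := mul_le_mul_of_nonneg_left e3 hlR0
  have e4 : (5 ^ Fintype.card ι : ℝ)⁻¹ ≤ (‖((1 + σ : ℝ) : ℂ) + 3‖ ^ Fintype.card ι)⁻¹ :=
    inv_anti₀ (by positivity) (pow_le_pow_left₀ e0.le e1 _)
  have e5 : ‖F ((1 + σ : ℝ) : ℂ)‖ * Real.exp (-1) * (5 ^ Fintype.card ι : ℝ)⁻¹ ≤ B := by
    refine le_trans ?_ hk
    gcongr
  rw [mul_inv_le_iff₀ (by positivity), Real.exp_neg, mul_inv_le_iff₀ (Real.exp_pos _)] at e5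
  linarith

end Run7.h69.HL
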