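import Mathlib
import Pool.Agent.N784.AD.Ray
import Pool.Agent.Y772.TW.CaseB
import Pool.Agent.Y772.TW.Pos

/-!
# The primitive ray class character that induces a real character of the norm
-/

set_option autoImplicit false
set_option linter.unusedSectionVars false

open NumberField

namespace Run7.h69.HL

open Pool.Agent.Y773 (TPos)
open Pool.Agent.Y767 (Mq)
open Pool.Agent.Y773.G (IsPrimChar)
open Pool.Agent.Y772.TW (coprime_q norm_eq_of_sub norm_surj absNorm_tpos exists_tpos)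
open Pool.Agent.N784.AD (T1 pi1 T1_one T1_tp exists_prim)

variable {K : Type} [Field K] [NumberField K]

lemma span_ne_top {q : ℕ} (hq : 2 ≤ q) : (Ideal.span {(q : 𝓞 K)} : Ideal (𝓞 K)) ≠ ⊤ := by
  intro h
  have h1 := Ideal.absNorm_span_natCast (S := 𝓞 K) q
  rw [h, Ideal.absNorm_top] at h1
  have h2 : 0 < Module.finrank ℤ (𝓞 K) := Module.finrank_pos
  have h3 : 1 < q ^ Module.finrank ℤ (𝓞 K) := Nat.one_lt_pow h2.ne' (by omega)
  omega

lemma span_ne_bot {q : ℕ} (hq : 2 ≤ q) : (Ideal.span {(q : 𝓞 K)} : Ideal (𝓞 K)) ≠ ⊥ := by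
  rw [Ne, Ideal.span_singleton_eq_bot]
  exact_mod_cast (by omega : q ≠ 0)

lemma per_congr {c : ℕ →*₀ ℝ} {q : ℕ} (hper : Function.Periodic c q) {m n : ℕ}
    (h : (m : ZMod q) = (n : ZMod q)) : c m = c n := by
  have h1 : m ≡ n [MOD q] := (ZMod.natCast_eq_natCast_iff m n q).1 h
  rw [← hper.map_mod_nat m, ← hper.map_mod_nat n, h1]

/-- the value of the norm -/
lemma val_tpos {x : 𝓞 K} (hx : x ≠ 0) (hp : TPos K x) (q : ℕ) :
    ((Ideal.absNorm (Ideal.span {x}) : ℕ) : ZMod q) = ((Algebra.norm ℤ x : ℤ) : ZMod q) := by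
  rw [← absNorm_tpos hx hp]
  simp

/-- **the primitive character** -/
theorem exists_char {c : ℕ →*₀ ℝ} {q p : ℕ} {n0 : ℕ} (hq : 2 ≤ q) (hper : Function.Periodic c q)
    (hpm : ∀ n : ℕ, n.Coprime q → c n = 1 ∨ c n = -1) (hp : p.Prime) (hpq : p ∣ q)
    (hd : ¬ (p : ℤ) ∣ discr K) (hn0 : n0.Coprime q) (hn1 : ((q / p : ℕ) : ℤ) ∣ (n0 : ℤ) - 1)
    (hc : c n0 = -1) :
    ∃ (𝔣 : Ideal (𝓞 K)) (ψ : Ideal (𝓞 K) →*₀ ℂ), 𝔣 ∣ Ideal.span {(q : 𝓞 K)} ∧ 𝔣 ≠ ⊤ ∧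
      IsPrimChar K 𝔣 ψ ∧ ∀ 𝔞 : Ideal (𝓞 K), (Ideal.absNorm 𝔞).Coprime q →
        ψ 𝔞 = ((c (Ideal.absNorm 𝔞) : ℝ) : ℂ) := by
  have hbot := span_ne_bot (K := K) hq
  have htop := span_ne_top (K := K) hq
  have hne : ∀ n : ℕ, n.Coprime q → ((c n : ℝ) : ℂ) ≠ 0 := by
    intro n hn
    rcases hpm n hn with h | h <;> rw [h] <;> norm_num
  let F : Mq (Ideal.span {(q : 𝓞 K)}) →* ℂˣ :=
    { toFun := fun 𝔞 => Units.mk0 ((c (Ideal.absNorm (𝔞 : Ideal (𝓞 K))) : ℝ) : ℂ)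
        (hne _ (coprime_q.1 𝔞.2))
      map_one' := by
        apply Units.ext
        change ((c (Ideal.absNorm (1 : Ideal (𝓞 K))) : ℝ) : ℂ) = 1
        rw [map_one, map_one, Complex.ofReal_one]
      map_mul' := fun 𝔞 𝔟 => by
        apply Units.ext
        change ((c (Ideal.absNorm ((𝔞 : Ideal (𝓞 K)) * (𝔟 : Ideal (𝓞 K)))) : ℝ) : ℂ) =
          ((c (Ideal.absNorm (𝔞 : Ideal (𝓞 K))) : ℝ) : ℂ) *
            ((c (Ideal.absNorm (𝔟 : Ideal (𝓞 K))) : ℝ) : ℂ)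
        rw [map_mul, map_mul, Complex.ofReal_mul] }
  have hFv : ∀ 𝔞 : Mq (Ideal.span {(q : 𝓞 K)}), ((F 𝔞 : ℂˣ) : ℂ) =
      ((c (Ideal.absNorm (𝔞 : Ideal (𝓞 K))) : ℝ) : ℂ) := fun _ => rfl
  have hF : ∀ x : T1 htop, F (pi1 htop x) = 1 := by
    intro x
    apply Units.ext
    rw [hFv, Units.val_one]
    have hx1 := T1_one x
    have hx0 : (x : 𝓞 K) ≠ 0 := by
      intro h0
      rw [h0, zero_sub] at hx1
      apply htop
      rw [Ideal.eq_top_iff_one]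
      have := neg_mem hx1
      rwa [neg_neg] at this
    have h1 : c (Ideal.absNorm (Ideal.span {(x : 𝓞 K)})) = c 1 := by
      apply per_congr hper
      rw [val_tpos hx0 (T1_tp x), norm_eq_of_sub hx1, map_one]
      simp
    change ((c (Ideal.absNorm (Ideal.span {(x : 𝓞 K)})) : ℝ) : ℂ) = 1
    rw [h1, map_one, Complex.ofReal_one]
  rcases exists_prim hbot htop F hF with h | h
  · exfalso
    -- a prime ideal above `p`
    have hPtop := span_ne_top (K := K) hp.two_le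
    obtain ⟨P, hPm, hPle⟩ := Ideal.exists_le_maximal _ hPtop
    obtain ⟨P', hP'⟩ := Ideal.dvd_iff_le.2 hPle
    obtain ⟨y, -, hy⟩ := norm_surj (by omega : 0 < q) hp hpq hd hPm.isPrime hP'.symm (n0 : ℤ) hn1
    obtain ⟨k, hk1, hk2⟩ := exists_tpos y (c := q) (by omega)
    set x : 𝓞 K := y + (k : 𝓞 K) * (q : 𝓞 K) with hx
    have hxy : x - y ∈ Ideal.span {(q : 𝓞 K)} := by
      rw [hx, add_sub_cancel_left]
      exact Ideal.mul_mem_left _ _ (Ideal.mem_span_singleton_self _)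
    have hval : ((Ideal.absNorm (Ideal.span {x}) : ℕ) : ZMod q) = ((n0 : ℕ) : ZMod q) := by
      rw [val_tpos hk2 hk1, norm_eq_of_sub hxy, hy]
      simp
    have hcop : (Ideal.absNorm (Ideal.span {x})).Coprime q := by
      rw [← ZMod.isUnit_iff_coprime, hval, ZMod.isUnit_iff_coprime]
      exact hn0
    have h1 := h x (coprime_q.2 hcop) hk1
    have h2 := congrArg (fun u : ℂˣ => (u : ℂ)) h1
    simp only [hFv, Units.val_one] at h2
    rw [per_congr hper hval, hc] at h2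
    norm_num at h2
  · obtain ⟨𝔣, ψ, h1, h2, h3, h4⟩ := h
    refine ⟨𝔣, ψ, h1, h2, h3, fun 𝔞 h𝔞 => ?_⟩
    exact h4 ⟨𝔞, coprime_q.2 h𝔞⟩

end Run7.h69.HL
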