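import Mathlib
import Pool.Agent.Run7.h69.HL2
import Pool.Agent.Run7.h69.HL3
import Pool.Agent.Y773.HG.FeK
import Pool.Agent.Y772.HG.Sgn

/-!
# The upper bound for the sums of a real character over the primes of degree one
-/

set_option autoImplicit false
set_option linter.unusedSectionVars false

open NumberField Complex Filter Topology IsDedekindDomain

namespace Run7.h69.HL

open Pool.Agent.Y773 (LI zz FEd)
open Pool.Agent.Y773.G (IsPrimChar IsModChar fe_prim ex)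
open Pool.Agent.H921R2.TatePole (nm nm_ne_zero two_le_nm nm_summable nm_eq tsum_fiber below
  below_le_nm fiber_card_le summable_fiber summable_primes_rpow W R R_le deg deg_two_bound w
  w_nonneg C0 C0_nonneg bddmul_summable)

variable {K : Type} [Field K] [NumberField K]

lemma norm_le {𝔣 : Ideal (𝓞 K)} {ψ : Ideal (𝓞 K) →*₀ ℂ} (h : IsPrimChar K 𝔣 ψ)
    (𝔞 : Ideal (𝓞 K)) : ‖ψ 𝔞‖ ≤ 1 := by
  by_cases h0 : 𝔞 = ⊥
  · rw [h0]
    have h1 : ψ (⊥ : Ideal (𝓞 K)) = 0 := map_zero ψ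
    rw [h1, norm_zero]
    norm_num
  · by_cases hc : IsCoprime 𝔞 𝔣
    · obtain ⟨e, -, -, hsig⟩ := Pool.Agent.Y772.G.t_sig K 𝔣 ψ h.ne_bot h.ray
      obtain ⟨k, x, hk, hx0, hx1, hx⟩ := Pool.Agent.Y773.exists_pow h.ne_bot h0 hc
      have h1 := hsig x hx0 hx1
      rw [← hx, map_pow] at h1
      have h2 := congrArg norm h1
      rw [norm_pow, Pool.Agent.Y773.G.norm_sg (by exact_mod_cast hx0)] at h2
      exact ((pow_eq_one_iff_of_nonneg (norm_nonneg _) hk.ne').mp h2).le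
    · have : ψ 𝔞 = 0 := by
        by_contra h1
        exact hc ((h.supp 𝔞 h0).mp h1)
      rw [this, norm_zero]
      norm_num

/-- a primitive character of conductor `≠ 1` is a character modulo its conductor -/
lemma modChar {𝔣 : Ideal (𝓞 K)} {ψ : Ideal (𝓞 K) →*₀ ℂ} (h : IsPrimChar K 𝔣 ψ)
    (htop : 𝔣 ≠ ⊤) : ∃ e : InfinitePlace K → ℕ, IsModChar 𝔣 e ψ := by
  obtain ⟨e, he, hc, hsig⟩ := Pool.Agent.Y772.G.t_sig K 𝔣 ψ h.ne_bot h.ray
  refine ⟨e, h.ne_bot, htop, he, hc, fun 𝔞 => ?_, hsig⟩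
  by_cases h0 : 𝔞 = ⊥
  · subst h0
    have h1 : ψ (⊥ : Ideal (𝓞 K)) = 0 := map_zero ψ
    constructor
    · intro h2
      exact absurd h1 h2
    · intro h2
      exfalso
      rw [Ideal.isCoprime_iff_sup_eq, bot_sup_eq] at h2
      exact htop h2
  · exact h.supp 𝔞 h0

/-- the size of the L-function near `1` -/
theorem LI_near (K : Type) [Field K] [NumberField K] : ∃ C : ℝ, ∀ (q : ℕ) (𝔣 : Ideal (𝓞 K))
    (ψ : Ideal (𝓞 K) →*₀ ℂ), 3 ≤ q → 𝔣 ∣ Ideal.span {(q : 𝓞 K)} → 𝔣 ≠ ⊤ →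
    IsPrimChar K 𝔣 ψ → ∀ σ : ℝ, 0 < σ → σ ≤ 1 →
      Real.log ‖LI ψ ((1 + σ : ℝ) : ℂ)‖ ≤ Module.finrank ℚ K * Real.log (Real.log q) + C := by
  set n := Module.finrank ℚ K with hn
  set d := Fintype.card (K →+* ℂ) with hd
  set D : ℕ := Ideal.absNorm (differentIdeal ℤ (𝓞 K)) with hD
  have hD1 : 1 ≤ D := by
    rw [hD, Nat.one_le_iff_ne_zero, Ne, Ideal.absNorm_eq_zero_iff]
    exact differentIdeal_ne_bot
  have hDr : (1 : ℝ) ≤ D := by exact_mod_cast hD1
  set C1 : ℝ := 2 * (2 + n + Real.log D) with hC1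
  have hlD : 0 ≤ Real.log D := Real.log_nonneg hDr
  have hC10 : 0 < C1 := by positivity
  refine ⟨n * Real.log C1 + S2 K + 1 + d * Real.log 5, ?_⟩
  intro q 𝔣 ψ hq hdvd htop hprim σ hσ0 hσ1
  have hψ : ∀ 𝔞, ‖ψ 𝔞‖ ≤ 1 := norm_le hprim
  obtain ⟨e, he⟩ := modChar hprim htop
  obtain ⟨F, hF, hFL⟩ := fe_prim hprim he
  have hqr : (3 : ℝ) ≤ q := by exact_mod_cast hq
  have hlq : 1 < Real.log q := by
    rw [Real.lt_log_iff_exp_lt (by linarith)]
    have := Real.exp_one_lt_d9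
    linarith
  -- the conductor
  have hN1 : 1 ≤ Ideal.absNorm 𝔣 := by
    rw [Nat.one_le_iff_ne_zero, Ne, Ideal.absNorm_eq_zero_iff]
    exact hprim.ne_bot
  have hN2 : Ideal.absNorm 𝔣 ≤ q ^ n := by
    have h1 : Ideal.absNorm 𝔣 ∣ Ideal.absNorm (Ideal.span {(q : 𝓞 K)}) := map_dvd _ hdvd
    rw [Ideal.absNorm_span_natCast, RingOfIntegers.rank] at h1
    exact Nat.le_of_dvd (pow_pos (by omega) _) h1
  set R0 : ℝ := ((Ideal.absNorm 𝔣 * D : ℕ) : ℝ) with hR0
  set R1 : ℝ := Real.exp 2 * ((q : ℝ) ^ n * D) with hR1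
  have hR01 : 1 ≤ R0 := by
    rw [hR0]
    exact_mod_cast Nat.one_le_iff_ne_zero.2 (Nat.mul_ne_zero (by omega) (by omega))
  have hqn : (1 : ℝ) ≤ (q : ℝ) ^ n * D :=
    one_le_mul_of_one_le_of_one_le (one_le_pow₀ (by linarith)) hDr
  have hRR : R0 ≤ R1 := by
    have h1 : R0 ≤ (q : ℝ) ^ n * D := by
      rw [hR0]
      push_cast
      exact mul_le_mul_of_nonneg_right (by exact_mod_cast hN2) (by positivity)
    have h2 : (1 : ℝ) ≤ Real.exp 2 := Real.one_le_exp (by norm_num)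
    calc R0 ≤ 1 * ((q : ℝ) ^ n * D) := by rw [one_mul]; exact h1
      _ ≤ _ := mul_le_mul_of_nonneg_right h2 (by positivity)
  have hR12 : Real.exp 2 ≤ R1 := le_mul_of_one_le_right (Real.exp_pos _).le hqn
  have hlR1 : Real.log R1 = 2 + (n * Real.log q + Real.log D) := by
    rw [hR1, Real.log_mul (Real.exp_pos _).ne' (by positivity), Real.log_exp,
      Real.log_mul (by positivity) (by positivity), Real.log_pow]
  have hl2 : 2 ≤ Real.log R1 := by
    have := Real.log_le_log (Real.exp_pos _) hR12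
    rwa [Real.log_exp] at this
  have hlC : 2 * Real.log R1 ≤ C1 * Real.log q := by
    rw [hlR1, hC1]
    nlinarith
  set η : ℝ := 1 / Real.log R1 with hη
  have hη0 : 0 < η := by positivity
  have hη1 : η ≤ 1 := by
    rw [hη, div_le_one (by linarith)]
    linarith
  set B : ℝ := Real.exp (S2 K) * (2 / η) ^ n with hB
  have hB0 : 0 < B := by positivity
  have h2η : 2 / η = 2 * Real.log R1 := by rw [hη]; field_simp
  have hre : ∀ σ : ℝ, (((1 + σ : ℝ) : ℂ)).re = 1 + σ := fun σ => Complex.ofReal_re _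
  -- the bound
  have hmain : ‖LI ψ ((1 + σ : ℝ) : ℂ)‖ ≤ B * Real.exp 1 * 5 ^ d := by
    rcases le_or_gt σ η with h | h
    · rw [← hFL _ (by rw [hre]; linarith)]
      refine near_one hR01 hRR hR12 hF (fun s hs => ?_) hσ0 h
      rw [hFL s (by linarith)]
      exact LI_le hψ hη0 hη1 hs
    · have h1 : ‖LI ψ ((1 + σ : ℝ) : ℂ)‖ ≤ B :=
        LI_le hψ hη0 hη1 (by rw [hre]; linarith)
      have h2 : (1 : ℝ) ≤ Real.exp 1 * 5 ^ d :=
        one_le_mul_of_one_le_of_one_le (Real.one_le_exp (by norm_num))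
          (one_le_pow₀ (by norm_num))
      calc _ ≤ B := h1
        _ ≤ B * (Real.exp 1 * 5 ^ d) := le_mul_of_one_le_right hB0.le h2
        _ = _ := by ring
  have hpos : 0 < ‖LI ψ ((1 + σ : ℝ) : ℂ)‖ :=
    norm_pos_iff.2 (LI_ne hψ (by rw [hre]; linarith))
  have h1 := Real.log_le_log hpos hmain
  rw [Real.log_mul (by positivity) (by positivity), Real.log_mul (by positivity) (by positivity),
    hB, Real.log_mul (by positivity) (by positivity), Real.log_exp, Real.log_exp, Real.log_pow,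
    Real.log_pow, h2η] at h1
  have h2 : Real.log (2 * Real.log R1) ≤ Real.log C1 + Real.log (Real.log q) := by
    rw [← Real.log_mul (by positivity) (by positivity)]
    exact Real.log_le_log (by positivity) hlC
  have h3 := mul_le_mul_of_nonneg_left h2 (Nat.cast_nonneg n : (0 : ℝ) ≤ n)
  linarith

/-- the real part of the local term -/
lemma zz_re (ψ : Ideal (𝓞 K) →*₀ ℂ) (x : ℝ) (v : HeightOneSpectrum (𝓞 K)) :
    (zz ψ ((x : ℝ) : ℂ) v.asIdeal).re = (ψ v.asIdeal).re * (nm v : ℝ) ^ (-x) := by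
  unfold zz
  have h : ((Ideal.absNorm v.asIdeal : ℕ) : ℂ) ^ (-((x : ℝ) : ℂ)) = (((nm v : ℝ) ^ (-x) : ℝ) : ℂ) := by
    rw [Complex.ofReal_cpow (by positivity)]
    unfold nm
    push_cast
    rfl
  rw [h, Complex.re_mul_ofReal]

/-- the sum over the primes of degree one -/
theorem sum_R (K : Type) [Field K] [NumberField K] : ∃ C : ℝ, ∀ (c : ℕ →*₀ ℝ) (q p n0 : ℕ),
    3 ≤ q → Function.Periodic c q → (∀ n, |c n| ≤ 1) →
    (∀ n : ℕ, n.Coprime q → c n = 1 ∨ c n = -1) → p.Prime → p ∣ q →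
    ¬ (p : ℤ) ∣ discr K → n0.Coprime q → ((q / p : ℕ) : ℤ) ∣ (n0 : ℤ) - 1 → c n0 = -1 →
    ∀ σ : ℝ, 0 < σ → σ ≤ 1 →
      ∑' l : Nat.Primes, (c l * (R K l : ℝ)) * w (1 + σ) l ≤
        Module.finrank ℚ K * Real.log (Real.log q) + C +
          2 * Module.finrank ℚ K * ∑ l ∈ q.primeFactors, 1 / (l : ℝ) := by
  classical
  obtain ⟨C, hC⟩ := LI_near K
  set n := Module.finrank ℚ K with hn
  refine ⟨C + S2 K + n * C0, ?_⟩
  intro c q p n0 hq hper hc1 hpm hp hpq hd hn0 hn1 hc σ hσ0 hσ1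
  obtain ⟨𝔣, ψ, h𝔣, htop, hprim, hval⟩ := exists_char (K := K) (by omega : 2 ≤ q) hper hpm hp hpq
    hd hn0 hn1 hc
  have hψ : ∀ 𝔞, ‖ψ 𝔞‖ ≤ 1 := norm_le hprim
  have h1 := hC q 𝔣 ψ hq h𝔣 htop hprim σ hσ0 hσ1
  have hx : 1 < 1 + σ := by linarith
  have hre : 1 < (((1 + σ : ℝ) : ℂ)).re := by rw [Complex.ofReal_re]; exact hx
  have h2 := (abs_le.1 (log_LI hψ hre)).1
  have h3 : (∑' v : HeightOneSpectrum (𝓞 K), zz ψ ((1 + σ : ℝ) : ℂ) v.asIdeal).re =
      ∑' v : HeightOneSpectrum (𝓞 K), (ψ v.asIdeal).re * (nm v : ℝ) ^ (-(1 + σ)) := by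
    rw [Complex.re_tsum (zz_summable hψ hre)]
    exact tsum_congr fun v => zz_re ψ (1 + σ) v
  have hg : ∀ v : HeightOneSpectrum (𝓞 K), |(ψ v.asIdeal).re| ≤ 1 := fun v =>
    (Complex.abs_re_le_norm _).trans (hψ _)
  have h4 := (abs_le.1 (deg_two_bound hx hg)).1
  rw [h3] at h2
  rw [one_mul, ← hn] at h4
  set a : Nat.Primes → ℝ := fun l => ∑ v : {v : HeightOneSpectrum (𝓞 K) // below v = l},
    if deg v.1 = 1 then (ψ v.1.asIdeal).re else 0 with ha
  -- the local terms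
  have hR : ∀ l : Nat.Primes, (R K l : ℝ) =
      ∑ v : {v : HeightOneSpectrum (𝓞 K) // below v = l}, if deg v.1 = 1 then (1 : ℝ) else 0 := by
    intro l
    unfold R
    rw [Finset.sum_boole]
  have haR : ∀ l : Nat.Primes, |a l| ≤ n := by
    intro l
    calc |a l| ≤ ∑ v : {v : HeightOneSpectrum (𝓞 K) // below v = l},
          |if deg v.1 = 1 then (ψ v.1.asIdeal).re else 0| := Finset.abs_sum_le_sum_abs _ _
      _ ≤ ∑ v : {v : HeightOneSpectrum (𝓞 K) // below v = l}, (1 : ℝ) := by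
          refine Finset.sum_le_sum fun v _ => ?_
          split_ifs
          · exact hg _
          · simp
      _ = (Fintype.card {v : HeightOneSpectrum (𝓞 K) // below v = l} : ℝ) := by simp
      _ ≤ n := by exact_mod_cast fiber_card_le l
  have hRn : ∀ l : Nat.Primes, |c l * (R K l : ℝ)| ≤ n := by
    intro l
    rw [abs_mul, abs_of_nonneg (Nat.cast_nonneg (R K l) : (0 : ℝ) ≤ R K l)]
    calc |c l| * (R K l : ℝ) ≤ 1 * (n : ℝ) :=
          mul_le_mul (hc1 l) (by exact_mod_cast R_le l) (by positivity) zero_le_one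
      _ = n := one_mul _
  have heq : ∀ l : Nat.Primes, ¬ (l : ℕ) ∣ q → c l * (R K l : ℝ) = a l := by
    intro l hl
    rw [hR, Finset.mul_sum, ha]
    refine Finset.sum_congr rfl fun v _ => ?_
    split_ifs with h5
    · have h6 : nm v.1 = (l : ℕ) := by
        have := (nm_eq v.1).1
        rw [h5, pow_one, v.2] at this
        exact this
      have h7 : (Ideal.absNorm v.1.asIdeal).Coprime q := by
        have : Ideal.absNorm v.1.asIdeal = (l : ℕ) := h6
        rw [this]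
        exact (Nat.Prime.coprime_iff_not_dvd l.2).2 hl
      rw [hval _ h7, Complex.ofReal_re]
      have : Ideal.absNorm v.1.asIdeal = (l : ℕ) := h6
      rw [this, mul_one]
    · rw [mul_zero]
  have hs1 : Summable (fun l : Nat.Primes => (c l * (R K l : ℝ)) * w (1 + σ) l) :=
    bddmul_summable hx hRn
  have hs2 : Summable (fun l : Nat.Primes => a l * w (1 + σ) l) := bddmul_summable hx haR
  -- the difference
  have hdiff : ∑' l : Nat.Primes, (c l * (R K l : ℝ)) * w (1 + σ) l -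
      ∑' l : Nat.Primes, a l * w (1 + σ) l ≤ 2 * n * ∑ l ∈ q.primeFactors, 1 / (l : ℝ) := by
    rw [← Summable.tsum_sub hs1 hs2]
    have hq0 : q ≠ 0 := by omega
    set T : Finset Nat.Primes := Finset.subtype Nat.Prime q.primeFactors with hT
    have h5 : ∑ l ∈ q.primeFactors, 1 / (l : ℝ) = ∑ l ∈ T, 1 / ((l : ℕ) : ℝ) := by
      have h6 := Finset.sum_subtype_eq_sum_filter (s := q.primeFactors) (p := Nat.Prime)
        (fun l : ℕ => 1 / (l : ℝ))
      rw [Finset.filter_true_of_mem fun l hl => Nat.prime_of_mem_primeFactors hl] at h6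
      exact h6.symm
    have hmem : ∀ l : Nat.Primes, l ∉ T → ¬ (l : ℕ) ∣ q := by
      intro l hl hd
      apply hl
      rw [hT]
      exact Finset.mem_subtype.2 (Nat.mem_primeFactors.2 ⟨l.2, hd, hq0⟩)
    rw [h5, tsum_eq_sum (s := T)]
    · rw [Finset.mul_sum]
      refine Finset.sum_le_sum fun l _ => ?_
      have hl0 : (1 : ℝ) ≤ ((l : ℕ) : ℝ) := by exact_mod_cast l.2.one_lt.le
      have hw : w (1 + σ) l ≤ 1 / ((l : ℕ) : ℝ) := by
        unfold w
        rw [one_div, ← Real.rpow_neg_one]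
        exact Real.rpow_le_rpow_of_exponent_le hl0 (by linarith)
      have hw0 := w_nonneg (1 + σ) l
      have h7 : c l * (R K l : ℝ) - a l ≤ 2 * n := by
        have := (abs_le.1 (hRn l)).2
        have := (abs_le.1 (haR l)).1
        linarith
      rw [← sub_mul]
      calc (c l * (R K l : ℝ) - a l) * w (1 + σ) l ≤ (2 * n) * w (1 + σ) l :=
            mul_le_mul_of_nonneg_right h7 hw0
        _ ≤ _ := mul_le_mul_of_nonneg_left hw (by positivity)
    · intro l hl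
      rw [heq l (hmem l hl), sub_self]
  linarith

end Run7.h69.HL
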