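import Mathlib
import Pool.Agent.Run7.h69.HL4
import Pool.Agent.Helper256.KM.Mertens
import Pool.Agent.H474R2.PG.HomsLower

/-!
# The finite sums of a real character over the primes of degree one
-/

set_option autoImplicit false
set_option linter.unusedSectionVars false

open NumberField Filter Topology IsDedekindDomain

namespace Run7.h69.HL

open Pool.Agent.H921R2.TatePole (W R R_le w w_nonneg w_summable bddmul_summable R_eq_hc hc)

/-- the sum over the primes at most `y` -/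
theorem fin_R (K : Type) [Field K] [NumberField K] : ∃ C : ℝ, ∀ (c : ℕ →*₀ ℝ) (q p n0 : ℕ),
    3 ≤ q → Function.Periodic c q → (∀ n, |c n| ≤ 1) →
    (∀ n : ℕ, n.Coprime q → c n = 1 ∨ c n = -1) → p.Prime → p ∣ q →
    ¬ (p : ℤ) ∣ discr K → n0.Coprime q → ((q / p : ℕ) : ℤ) ∣ (n0 : ℤ) - 1 → c n0 = -1 →
    ∀ y : ℕ, 3 ≤ y → ∑ l ∈ (Finset.Icc 1 y).filter Nat.Prime,
      c l * ((Nat.card (𝓞 K →+* ZMod l) : ℝ) / l) ≤
        Module.finrank ℚ K * Real.log (Real.log q) + C +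
          2 * Module.finrank ℚ K * ∑ l ∈ q.primeFactors, 1 / (l : ℝ) := by
  classical
  obtain ⟨C, hC⟩ := sum_R K
  obtain ⟨M1, hM1⟩ := Pool.Agent.Helper256.KM.mertens_log
  obtain ⟨M2, hM2⟩ := Pool.Agent.Helper256.KM.mertens_inv
  have hM10 : 0 ≤ M1 := (abs_nonneg _).trans (hM1 1 le_rfl)
  set n := Module.finrank ℚ K with hn
  refine ⟨C + n * (Real.log 2 + M2 + 2 * (1 + M1)), ?_⟩
  intro c q p n0 hq hper hc1 hpm hp hpq hd hn0 hn1 hc' y hy
  have hyr : (3 : ℝ) ≤ y := by exact_mod_cast hy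
  have hl1 : 1 < Real.log y := by
    rw [Real.lt_log_iff_exp_lt (by linarith)]
    have := Real.exp_one_lt_d9
    linarith
  set σ : ℝ := 1 / Real.log y with hσ
  have hσ0 : 0 < σ := by positivity
  have hσ1 : σ ≤ 1 := by
    rw [hσ, div_le_one (by linarith)]
    linarith
  have h1 := hC c q p n0 hq hper hc1 hpm hp hpq hd hn0 hn1 hc' σ hσ0 hσ1
  have hx : 1 < 1 + σ := by linarith
  set s : Finset Nat.Primes := Finset.subtype Nat.Prime (Finset.Icc 1 y) with hs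
  have htrans : ∀ f : ℕ → ℝ, ∑ l ∈ s, f (l : ℕ) = ∑ l ∈ (Finset.Icc 1 y).filter Nat.Prime, f l := by
    intro f
    exact Finset.sum_subtype_eq_sum_filter (s := Finset.Icc 1 y) (p := Nat.Prime) f
  have hRn : ∀ l : Nat.Primes, |c l * (R K l : ℝ)| ≤ n := by
    intro l
    rw [abs_mul, abs_of_nonneg (Nat.cast_nonneg (R K l) : (0 : ℝ) ≤ R K l)]
    calc |c l| * (R K l : ℝ) ≤ 1 * (n : ℝ) :=
          mul_le_mul (hc1 l) (by exact_mod_cast R_le l) (by positivity) zero_le_one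
      _ = n := one_mul _
  have hs1 : Summable (fun l : Nat.Primes => (c l * (R K l : ℝ)) * w (1 + σ) l) :=
    bddmul_summable hx hRn
  have hs2 : Summable (fun l : Nat.Primes => (n : ℝ) * w (1 + σ) l) := (w_summable hx).mul_left _
  -- the tail
  have h2 : ∑ l ∈ s, ((c l * (R K l : ℝ)) * w (1 + σ) l + (n : ℝ) * w (1 + σ) l) ≤
      ∑' l : Nat.Primes, (c l * (R K l : ℝ)) * w (1 + σ) l + n * W (1 + σ) := by
    have e : ∑' l : Nat.Primes, (c l * (R K l : ℝ)) * w (1 + σ) l + n * W (1 + σ) =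
        ∑' l : Nat.Primes, ((c l * (R K l : ℝ)) * w (1 + σ) l + (n : ℝ) * w (1 + σ) l) := by
      rw [Summable.tsum_add hs1 hs2, tsum_mul_left]
      rfl
    rw [e]
    refine (hs1.add hs2).sum_le_tsum s fun l _ => ?_
    have h3 := (abs_le.1 (hRn l)).1
    have h4 := w_nonneg (1 + σ) l
    nlinarith
  rw [Finset.sum_add_distrib, ← Finset.mul_sum] at h2
  have hW := W_le hσ0 hσ1
  have hWl : Real.log (2 / σ) = Real.log 2 + Real.log (Real.log y) := by
    rw [hσ, div_div_eq_mul_div, div_one, Real.log_mul (by norm_num) (by linarith)]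
  rw [hWl] at hW
  -- the comparison
  have hcmp : ∀ l : Nat.Primes, l ∈ s → 0 ≤ 1 / ((l : ℕ) : ℝ) - w (1 + σ) l ∧
      1 / ((l : ℕ) : ℝ) - w (1 + σ) l ≤ Real.log (l : ℕ) / (l : ℕ) / Real.log y := by
    intro l _
    have hp0 : (0 : ℝ) < ((l : ℕ) : ℝ) := by exact_mod_cast l.2.pos
    have hp1 : (1 : ℝ) ≤ ((l : ℕ) : ℝ) := by exact_mod_cast l.2.one_lt.le
    have e1 : w (1 + σ) l = (1 / ((l : ℕ) : ℝ)) * Real.exp (-(Real.log (l : ℕ) / Real.log y)) := by
      unfold w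
      rw [Real.rpow_def_of_pos hp0, hσ,
        show Real.log (l : ℕ) * -(1 + 1 / Real.log y) =
          -Real.log (l : ℕ) + -(Real.log (l : ℕ) / Real.log y) by ring,
        Real.exp_add, Real.exp_neg, Real.exp_log hp0]
      simp
    have h3 := Real.add_one_le_exp (-(Real.log (l : ℕ) / Real.log y))
    have h7 : (0 : ℝ) ≤ Real.log (l : ℕ) / Real.log y :=
      div_nonneg (Real.log_nonneg hp1) (by linarith)
    have h8 : Real.exp (-(Real.log (l : ℕ) / Real.log y)) ≤ 1 := by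
      rw [Real.exp_le_one_iff]
      linarith
    have h9 : (0 : ℝ) ≤ 1 / ((l : ℕ) : ℝ) := by positivity
    have e2 : Real.log (l : ℕ) / (l : ℕ) / Real.log y =
        (1 / ((l : ℕ) : ℝ)) * (Real.log (l : ℕ) / Real.log y) := by ring
    rw [e1, e2]
    constructor <;> nlinarith
  have hΔ : ∑ l ∈ s, (1 / ((l : ℕ) : ℝ) - w (1 + σ) l) ≤ 1 + M1 := by
    have h3 : ∑ l ∈ s, (1 / ((l : ℕ) : ℝ) - w (1 + σ) l) ≤
        ∑ l ∈ s, Real.log (l : ℕ) / (l : ℕ) / Real.log y :=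
      Finset.sum_le_sum fun l hl => (hcmp l hl).2
    refine h3.trans ?_
    rw [← Finset.sum_div, htrans (fun l => Real.log l / l), div_le_iff₀ (by linarith)]
    have h4 := (abs_le.1 (hM1 y (by omega))).2
    nlinarith
  have hinv := (abs_le.1 (hM2 y hy)).1
  rw [← htrans (fun l => (1 : ℝ) / l)] at hinv
  rw [Finset.sum_sub_distrib] at hΔ
  -- the main terms
  have h5 : ∑ l ∈ (Finset.Icc 1 y).filter Nat.Prime,
      c l * ((Nat.card (𝓞 K →+* ZMod l) : ℝ) / l) ≤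
      ∑ l ∈ s, (c l * (R K l : ℝ)) * w (1 + σ) l +
        n * ∑ l ∈ s, (1 / ((l : ℕ) : ℝ) - w (1 + σ) l) := by
    rw [← htrans (fun l => c l * ((Nat.card (𝓞 K →+* ZMod l) : ℝ) / l)), Finset.mul_sum,
      ← Finset.sum_add_distrib]
    refine Finset.sum_le_sum fun l hl => ?_
    have hR : (Nat.card (𝓞 K →+* ZMod (l : ℕ)) : ℝ) = (R K l : ℝ) := by
      rw [R_eq_hc]; rfl
    rw [hR]
    have h6 := (hcmp l hl).1
    have h7 := (abs_le.1 (hRn l)).2
    have e : c l * ((R K l : ℝ) / ((l : ℕ) : ℝ)) = (c l * (R K l : ℝ)) * w (1 + σ) l +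
        (c l * (R K l : ℝ)) * (1 / ((l : ℕ) : ℝ) - w (1 + σ) l) := by ring
    rw [e]
    have := mul_le_mul_of_nonneg_right h7 h6
    linarith
  rw [Finset.sum_sub_distrib] at h5
  have hn0' : (0 : ℝ) ≤ n := Nat.cast_nonneg n
  have h8 := mul_le_mul_of_nonneg_left hW hn0'
  have h9 := mul_le_mul_of_nonneg_left hinv hn0'
  have h10 := mul_le_mul_of_nonneg_left hΔ hn0'
  nlinarith

end Run7.h69.HL
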