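import Mathlib
import Pool.Agent.Run7.h69.HL5
import Pool.Agent.Run7.h69.Defs
import Pool.Agent.H474R2.GE.FA
import Pool.Agent.H474R2.PG.HomsRho

/-!
# The twisted sums for an irreducible polynomial
-/

set_option autoImplicit false
set_option linter.unusedSectionVars false

namespace Run7.h69

open Finset Polynomial NumberField
open Pool.Agent.W262.RK (PS PP Jr x4 mem_PS)
open Pool.Agent.W586.RK.UB (ff ff_apply ff_abs ff_per)

namespace UT

/-- the field of an irreducible polynomial -/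
theorem field_of (f : ℤ[X]) (hf : Irreducible f) (hd : 0 < f.natDegree) :
    ∃ (K : Type) (_ : Field K) (_ : NumberField K), ∃ B : ℕ, ∀ p : ℕ, p.Prime → B < p →
      rho f p = Nat.card (𝓞 K →+* ZMod p) := by
  have hprim : f.IsPrimitive := hf.isPrimitive hd.ne'
  have hF : Irreducible (f.map (Int.castRingHom ℚ)) :=
    (IsPrimitive.Int.irreducible_iff_irreducible_map_cast hprim).1 hf
  have hfact : Fact (Irreducible (f.map (Int.castRingHom ℚ))) := ⟨hF⟩
  have hadj : ∀ x : AdjoinRoot (f.map (Int.castRingHom ℚ)), ∃ q : ℚ[X],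
      eval₂ (Rat.castHom (AdjoinRoot (f.map (Int.castRingHom ℚ))))
        (AdjoinRoot.root (f.map (Int.castRingHom ℚ))) q = x := by
    intro x
    obtain ⟨q, rfl⟩ := AdjoinRoot.mk_surjective x
    refine ⟨q, ?_⟩
    have h2 : Rat.castHom (AdjoinRoot (f.map (Int.castRingHom ℚ))) =
        AdjoinRoot.of (f.map (Int.castRingHom ℚ)) := Subsingleton.elim _ _
    rw [h2]
    have h3 := AdjoinRoot.aeval_eq (f := f.map (Int.castRingHom ℚ)) q
    rw [← h3]
    rfl
  obtain ⟨B1, hB1⟩ := Pool.Agent.H474R2.GE.M1_core _ f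
    (AdjoinRoot.root (f.map (Int.castRingHom ℚ))) (by
      intro A hA
      have h1 : AdjoinRoot.mk (f.map (Int.castRingHom ℚ)) (A.map (Int.castRingHom ℚ)) = 0 := by
        have h3 := AdjoinRoot.aeval_eq (f := f.map (Int.castRingHom ℚ)) (A.map (Int.castRingHom ℚ))
        rw [← h3, aeval_def, eval₂_map]
        have hg : ∀ g : ℤ →+* AdjoinRoot (f.map (Int.castRingHom ℚ)),
            eval₂ g (AdjoinRoot.root (f.map (Int.castRingHom ℚ))) A = 0 := by
          intro g
          rw [RingHom.ext_int g (Int.castRingHom _)]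
          exact hA
        exact hg _
      rw [AdjoinRoot.mk_eq_zero] at h1
      exact (IsPrimitive.Int.dvd_iff_map_cast_dvd_map_cast f A hprim).2 h1) hadj
  obtain ⟨B2, hB2⟩ := Pool.Agent.H474R2.PG.P2_core _ f hd
    (AdjoinRoot.root (f.map (Int.castRingHom ℚ))) (by
      have h1 := AdjoinRoot.eval₂_root (f.map (Int.castRingHom ℚ))
      rw [eval₂_map] at h1
      have h2 : (AdjoinRoot.of (f.map (Int.castRingHom ℚ))).comp (Int.castRingHom ℚ) =
          Int.castRingHom (AdjoinRoot (f.map (Int.castRingHom ℚ))) := RingHom.ext_int _ _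
      rw [h2] at h1
      exact h1) hadj
  refine ⟨AdjoinRoot (f.map (Int.castRingHom ℚ)), inferInstance, inferInstance, B1 + B2,
    fun p hp hpB => ?_⟩
  exact le_antisymm (hB1 p hp (by omega)) (hB2 p hp (by omega))

/-- a number with character value `-1`, congruent to `1` modulo the cofactor -/
lemma exists_n0 (κ : ℤ) (z r : ℕ) (e : Bool) (hκ : κ ≠ 0) (hz : 2 ≤ z) (hκz : κ.natAbs ≤ z)
    (hr1 : 1 < r) (hr : Squarefree r) (hrp : ∀ p : ℕ, p.Prime → p ∣ r → z < p) :
    ∃ p n0 : ℕ, p.Prime ∧ p ∣ r ∧ Nat.Coprime n0 (4 * κ.natAbs * r) ∧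
      (((4 * κ.natAbs * r) / p : ℕ) : ℤ) ∣ (n0 : ℤ) - 1 ∧ ff κ r e n0 = -1 := by
  obtain ⟨p, hp, hpr⟩ := Nat.exists_prime_and_dvd hr1.ne'
  obtain ⟨m, hm⟩ := hpr
  have hzp := hrp p hp ⟨m, hm⟩
  have hfp : Fact p.Prime := ⟨hp⟩
  have hm0 : m ≠ 0 := by rintro rfl; omega
  have hcpm : Nat.Coprime p m := by
    rw [hm] at hr
    exact Nat.coprime_of_squarefree_mul hr
  have hκ0 : 0 < κ.natAbs := Int.natAbs_pos.2 hκ
  have hcp4 : Nat.Coprime p 4 := by
    rw [Nat.Prime.coprime_iff_not_dvd hp]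
    intro h
    have := (Nat.Prime.dvd_of_dvd_pow hp (show p ∣ 2 ^ 2 from h))
    have := Nat.le_of_dvd (by norm_num) this
    omega
  have hcpκ : Nat.Coprime p κ.natAbs := by
    rw [Nat.Prime.coprime_iff_not_dvd hp]
    intro h
    have := Nat.le_of_dvd hκ0 h
    omega
  have hcop : Nat.Coprime p (4 * κ.natAbs * m) := (hcp4.mul_right hcpκ).mul_right hcpm
  obtain ⟨b, hb⟩ := FiniteField.exists_nonsquare (F := ZMod p)
    (by rw [ZMod.ringChar_zmod_n]; omega)
  obtain ⟨a, ha1, ha2⟩ := Nat.chineseRemainder hcop b.val 1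
  have h1 : jacobiSym a p = -1 := by
    rw [← jacobiSym.legendreSym.to_jacobiSym, legendreSym.eq_neg_one_iff]
    have : ((a : ℤ) : ZMod p) = b := by
      have := (ZMod.natCast_eq_natCast_iff a b.val p).2 ha1
      push_cast
      rw [this, ZMod.natCast_zmod_val]
    rwa [this]
  have ha4κ : a ≡ 1 [MOD 4 * κ.natAbs] := ha2.of_mul_right _
  have ham : a ≡ 1 [MOD m] := by
    have : a ≡ 1 [MOD m * (4 * κ.natAbs)] := by rw [mul_comm]; exact ha2
    exact this.of_mul_right _
  have ha4 : a ≡ 1 [MOD 4] := ha4κ.of_mul_right _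
  have haodd : Odd a := by
    have : a % 4 = 1 % 4 := ha4
    rw [Nat.odd_iff]
    omega
  have h2 : jacobiSym a m = 1 := by
    have : jacobiSym a m = jacobiSym (1 : ℤ) m := by
      apply jacobiSym.mod_left'
      exact_mod_cast ham
    rw [this, jacobiSym.one_left]
  have h3 : jacobiSym a r = -1 := by
    rw [hm, jacobiSym.mul_right' _ hp.ne_zero hm0, h1, h2]; norm_num
  have h4 : jacobiSym κ a = 1 := by
    rw [jacobiSym.mod_right κ haodd]
    have : a % (4 * κ.natAbs) = 1 := by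
      have h5 : a % (4 * κ.natAbs) = 1 % (4 * κ.natAbs) := ha4κ
      rw [h5]
      exact Nat.mod_eq_of_lt (by omega)
    rw [this, jacobiSym.one_right]
  have h5 : x4 e a = 1 := by
    unfold x4
    have : (a : ZMod 4) = 1 := by
      have := (ZMod.natCast_eq_natCast_iff a 1 4).2 ha4
      simpa using this
    rw [this]
    simp
  have hq : 4 * κ.natAbs * r = p * (4 * κ.natAbs * m) := by rw [hm]; ring
  refine ⟨p, a, hp, ⟨m, hm⟩, ?_, ?_, ?_⟩
  · have hap : Nat.Coprime a p := by
      by_contra hc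
      have : jacobiSym a p = 0 := by
        rw [jacobiSym.eq_zero_iff]
        refine ⟨hp.ne_zero, ?_⟩
        rw [Int.gcd_natCast_natCast]; exact hc
      rw [h1] at this
      norm_num at this
    have ha' : Nat.Coprime a (4 * κ.natAbs * m) := by
      have := ha2.gcd_eq
      unfold Nat.Coprime
      rw [this]; simp
    rw [hq]
    exact hap.mul_right ha'
  · rw [hq, Nat.mul_div_cancel_left _ hp.pos]
    have h6 : (a : ℤ) ≡ 1 [ZMOD ((4 * κ.natAbs * m : ℕ) : ℤ)] := by
      have := Int.natCast_modEq_iff.2 ha2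
      simpa using this
    exact (Int.modEq_iff_dvd.1 h6.symm)
  · rw [ff_apply, if_pos haodd]
    unfold Jr
    rw [h3, h4, h5]
    norm_num

/-- the values are signs -/
lemma ff_pm (κ : ℤ) (r : ℕ) (e : Bool) (n : ℕ) (hn : n.Coprime (4 * κ.natAbs * r)) :
    ff κ r e n = 1 ∨ ff κ r e n = -1 := by
  have h4 : n.Coprime 4 := (Nat.Coprime.coprime_mul_right_right (Nat.Coprime.coprime_mul_right_right hn))
  have hκ : n.Coprime κ.natAbs :=
    (Nat.Coprime.coprime_mul_left_right (Nat.Coprime.coprime_mul_right_right hn))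
  have hr : n.Coprime r := Nat.Coprime.coprime_mul_left_right hn
  have hodd : Odd n := by
    rw [← Nat.not_even_iff_odd, even_iff_two_dvd]
    intro h
    have h5 : 2 ∣ Nat.gcd n 4 := Nat.dvd_gcd h (by norm_num)
    rw [h4] at h5
    omega
  have e1 : Jr n r = 1 ∨ Jr n r = -1 := by
    unfold Jr
    have : jacobiSym (n : ℤ) r = 1 ∨ jacobiSym (n : ℤ) r = -1 :=
      jacobiSym.eq_one_or_neg_one (by rw [Int.gcd_natCast_natCast]; exact hr)
    rcases this with h | h <;> rw [h] <;> norm_num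
  have e2 : Jr κ n = 1 ∨ Jr κ n = -1 := by
    unfold Jr
    have : jacobiSym κ n = 1 ∨ jacobiSym κ n = -1 := by
      apply jacobiSym.eq_one_or_neg_one
      rw [Int.gcd_comm]
      have : Int.gcd (n : ℤ) κ = Nat.gcd n κ.natAbs := rfl
      rw [this]
      exact hκ
    rcases this with h | h <;> rw [h] <;> norm_num
  have e3 : x4 e n = 1 ∨ x4 e n = -1 := by
    unfold x4
    split_ifs
    · rcases Nat.odd_mod_four_iff.1 (Nat.odd_iff.1 hodd) with h | h
      · left; rw [ZMod.χ₄_nat_one_mod_four h]; norm_num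
      · right; rw [ZMod.χ₄_nat_three_mod_four h]; norm_num
    · left; rfl
  rw [ff_apply, if_pos hodd]
  rcases e1 with h | h <;> rcases e2 with h' | h' <;> rcases e3 with h'' | h'' <;>
    rw [h, h', h''] <;> norm_num

/-- the sum of the inverses of the prime factors -/
lemma sum_inv_pf {q : ℕ} (hq : 3 ≤ q) :
    ∑ l ∈ q.primeFactors, 1 / (l : ℝ) ≤ Real.log (Real.log q) + 4 := by
  have hqr : (3 : ℝ) ≤ q := by exact_mod_cast hq
  have hlq : 1 < Real.log q := by
    rw [Real.lt_log_iff_exp_lt (by linarith)]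
    have := Real.exp_one_lt_d9
    linarith
  set m := q.primeFactors.card with hm
  have hm1 : 1 ≤ m := by
    rw [hm, Nat.one_le_iff_ne_zero, Ne, Finset.card_eq_zero, Nat.primeFactors_eq_empty]
    omega
  have hmr : (1 : ℝ) ≤ m := by exact_mod_cast hm1
  have h1 : ∑ l ∈ q.primeFactors, 1 / (l : ℝ) ≤ 1 + Real.log m + 1 := by
    rw [← Finset.sum_filter_add_sum_filter_not q.primeFactors (fun l => l ≤ m)]
    apply add_le_add
    · calc ∑ l ∈ q.primeFactors.filter (fun l => l ≤ m), 1 / (l : ℝ)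
          ≤ ∑ l ∈ Icc 1 m, 1 / (l : ℝ) := by
            refine sum_le_sum_of_subset_of_nonneg ?_ fun _ _ _ => by positivity
            intro l hl
            rw [mem_filter] at hl
            exact mem_Icc.2 ⟨(Nat.prime_of_mem_primeFactors hl.1).one_lt.le, hl.2⟩
        _ = ((harmonic m : ℚ) : ℝ) := by
            rw [harmonic_eq_sum_Icc]
            push_cast
            exact sum_congr rfl fun i _ => one_div _
        _ ≤ _ := harmonic_le_one_add_log m
    · calc ∑ l ∈ q.primeFactors.filter (fun l => ¬ l ≤ m), 1 / (l : ℝ)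
          ≤ ∑ l ∈ q.primeFactors.filter (fun l => ¬ l ≤ m), 1 / (m : ℝ) := by
            refine sum_le_sum fun l hl => ?_
            rw [mem_filter] at hl
            have : (m : ℝ) ≤ l := by exact_mod_cast (not_le.1 hl.2).le
            exact one_div_le_one_div_of_le (by linarith) this
        _ ≤ ∑ l ∈ q.primeFactors, 1 / (m : ℝ) :=
            sum_le_sum_of_subset_of_nonneg (filter_subset _ _) fun _ _ _ => by positivity
        _ = 1 := by
            rw [sum_const, ← hm, nsmul_eq_mul]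
            field_simp
  have h2 : (2 : ℝ) ^ m ≤ q := by
    have h3 : 2 ^ m ≤ ∏ l ∈ q.primeFactors, l := by
      rw [hm, ← prod_const]
      exact prod_le_prod' fun l hl => (Nat.prime_of_mem_primeFactors hl).two_le
    have h4 : ∏ l ∈ q.primeFactors, l ≤ q :=
      Nat.le_of_dvd (by omega) (Nat.prod_primeFactors_dvd q)
    exact_mod_cast h3.trans h4
  have h3 : m * Real.log 2 ≤ Real.log q := by
    rw [← Real.log_pow]
    exact Real.log_le_log (by positivity) h2
  have h4 : (m : ℝ) ≤ 2 * Real.log q := by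
    have := Real.log_two_gt_d9
    nlinarith
  have h5 : Real.log m ≤ Real.log 2 + Real.log (Real.log q) := by
    rw [← Real.log_mul (by norm_num) (by linarith)]
    exact Real.log_le_log (by linarith) h4
  have := Real.log_two_lt_d9
  linarith

/-- the twisted sums for an irreducible polynomial -/
theorem utw_irr (f : ℤ[X]) (hf : Irreducible f) (hd : 0 < f.natDegree) :
    ∃ z0 : ℕ, ∀ z, z0 ≤ z → Utw f z := by
  obtain ⟨K, iF, iN, B, hB⟩ := field_of f hf hd
  obtain ⟨C, hC⟩ := HL.fin_R K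
  set n := Module.finrank ℚ K with hn
  refine ⟨B + (discr K).natAbs + 2, fun z hz κ hκ hκz => ?_⟩
  have hκ0 : 0 < κ.natAbs := Int.natAbs_pos.2 hκ
  have hκr : (1 : ℝ) ≤ κ.natAbs := by exact_mod_cast hκ0
  set A : ℝ := Real.log (4 * κ.natAbs) + 1 with hA
  have hA1 : 1 ≤ A := by
    have : 0 ≤ Real.log (4 * κ.natAbs : ℝ) := Real.log_nonneg (by linarith)
    linarith
  refine ⟨3 * n, 3 * n * Real.log A + C + 2 * n * 4 + ∑ l ∈ (Icc 1 z).filter Nat.Prime, (n : ℝ) / l,
    fun y r e hy hr hrs hrp => ?_⟩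
  obtain ⟨p, n0, hp, hpr, hn0, hn1, hc⟩ := exists_n0 κ z r e hκ (by omega) hκz hr hrs hrp
  have hz3 : z < r := by
    have h1 := hrp p hp hpr
    have := Nat.le_of_dvd (by omega) hpr
    omega
  have hrr : (3 : ℝ) ≤ r := by exact_mod_cast (by omega : 3 ≤ r)
  have hlr : 1 < Real.log r := by
    rw [Real.lt_log_iff_exp_lt (by linarith)]
    have := Real.exp_one_lt_d9
    linarith
  set q := 4 * κ.natAbs * r with hq
  have hq3 : 3 ≤ q := by
    rw [hq]
    nlinarith
  have h1 := hC (ff κ r e) q p n0 hq3 (ff_per κ r e) (ff_abs κ r e) (ff_pm κ r e) hp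
    (hpr.trans (Dvd.intro_left _ rfl)) (by
      intro h
      have h2 := Nat.le_of_dvd (Int.natAbs_pos.2 (discr_ne_zero K)) (Int.natCast_dvd.1 h)
      have h3 := hrp p hp hpr
      omega) hn0 hn1 hc y (by omega)
  have hinv := sum_inv_pf hq3
  -- `log log q`
  have hlq : Real.log q ≤ A * Real.log r := by
    have : ((q : ℕ) : ℝ) = (4 * κ.natAbs : ℝ) * r := by rw [hq]; push_cast; ring
    rw [this, Real.log_mul (by positivity) (by positivity), hA]
    have : 0 ≤ Real.log (4 * κ.natAbs : ℝ) := Real.log_nonneg (by linarith)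
    nlinarith
  have hlq1 : 1 < Real.log q := by
    rw [Real.lt_log_iff_exp_lt (by positivity)]
    have := Real.exp_one_lt_d9
    have h3 : (3 : ℝ) ≤ q := by exact_mod_cast hq3
    linarith
  have hllq : Real.log (Real.log q) ≤ Real.log A + Real.log (Real.log r) := by
    rw [← Real.log_mul (by linarith) (by linarith)]
    exact Real.log_le_log (by linarith) hlq
  -- the sum
  have h2 : ∑ l ∈ PS z y, (rho f l : ℝ) / l * (Jr l r * Jr κ l * x4 e l) ≤
      ∑ l ∈ (Icc 1 y).filter Nat.Prime, ff κ r e l * ((Nat.card (𝓞 K →+* ZMod l) : ℝ) / l) +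
        ∑ l ∈ (Icc 1 z).filter Nat.Prime, (n : ℝ) / l := by
    have e1 : (Icc 1 y).filter Nat.Prime = PS z y ∪ (Icc 1 z).filter Nat.Prime := by
      ext l
      rw [mem_union, mem_filter, mem_filter, mem_Icc, mem_Icc, mem_PS]
      constructor
      · rintro ⟨⟨h1, h2⟩, h3⟩
        rcases Nat.lt_or_ge z l with h | h
        · exact Or.inl ⟨⟨h, h2⟩, h3⟩
        · exact Or.inr ⟨⟨h1, h⟩, h3⟩
      · rintro (⟨⟨h1, h2⟩, h3⟩ | ⟨⟨h1, h2⟩, h3⟩)
        · exact ⟨⟨h3.pos, h2⟩, h3⟩
        · exact ⟨⟨h1, by omega⟩, h3⟩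
    have e2 : Disjoint (PS z y) ((Icc 1 z).filter Nat.Prime) := by
      rw [disjoint_left]
      intro l hl hl'
      rw [mem_PS] at hl
      rw [mem_filter, mem_Icc] at hl'
      omega
    rw [e1, sum_union e2]
    have e3 : ∑ l ∈ PS z y, (rho f l : ℝ) / l * (Jr l r * Jr κ l * x4 e l) =
        ∑ l ∈ PS z y, ff κ r e l * ((Nat.card (𝓞 K →+* ZMod l) : ℝ) / l) := by
      refine sum_congr rfl fun l hl => ?_
      rw [mem_PS] at hl
      have hodd : Odd l := hl.2.odd_of_ne_two (by omega)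
      rw [hB l hl.2 (by omega), ff_apply, if_pos hodd]
      ring
    rw [e3]
    have e4 : ∑ l ∈ (Icc 1 z).filter Nat.Prime, -((n : ℝ) / l) ≤
        ∑ l ∈ (Icc 1 z).filter Nat.Prime,
          ff κ r e l * ((Nat.card (𝓞 K →+* ZMod l) : ℝ) / l) := by
      refine sum_le_sum fun l hl => ?_
      have hlp := (mem_filter.1 hl).2
      have h3 : (Nat.card (𝓞 K →+* ZMod l) : ℝ) ≤ n := by
        have h4 := Pool.Agent.H921R2.TatePole.R_le (K := K) (⟨l, hlp⟩ : Nat.Primes)
        rw [Pool.Agent.H921R2.TatePole.R_eq_hc] at h4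
        exact_mod_cast h4
      have h5 := (abs_le.1 (ff_abs κ r e l)).1
      have h6 : (0 : ℝ) ≤ (Nat.card (𝓞 K →+* ZMod l) : ℝ) / l := by positivity
      have h7 : (Nat.card (𝓞 K →+* ZMod l) : ℝ) / l ≤ (n : ℝ) / l := by gcongr
      nlinarith
    rw [sum_neg_distrib] at e4
    linarith
  have hn0' : (0 : ℝ) ≤ n := Nat.cast_nonneg n
  have h3 := mul_le_mul_of_nonneg_left hinv (by positivity : (0 : ℝ) ≤ 2 * n)
  have h4 := mul_le_mul_of_nonneg_left hllq (by positivity : (0 : ℝ) ≤ 3 * n)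
  nlinarith

end UT

end Run7.h69
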