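import Mathlib
import Pool.Agent.Run7.h69.UT1

/-!
# Squarefree polynomials: Mertens' theorem, the twisted sums and the good primes
-/

set_option autoImplicit false
set_option linter.unusedSectionVars false

namespace Run7.h69

open Finset Polynomial NumberField
open Pool.Agent.W262.RK (PS PP Jr x4 mem_PS)

namespace UT

/-- clearing denominators -/
lemma bez {f g : ℤ[X]} (h : IsCoprime (f.map (Int.castRingHom ℚ)) (g.map (Int.castRingHom ℚ))) :
    ∃ (u v : ℤ[X]) (N : ℤ), N ≠ 0 ∧ u * f + v * g = C N := by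
  obtain ⟨U, V, hUV⟩ := h
  obtain ⟨b1, hb1', h1⟩ := IsLocalization.integerNormalization_spec (nonZeroDivisors ℤ) U
  obtain ⟨b2, hb2', h2⟩ := IsLocalization.integerNormalization_spec (nonZeroDivisors ℤ) V
  have hb1 : b1 ≠ 0 := nonZeroDivisors.ne_zero hb1'
  have hb2 : b2 ≠ 0 := nonZeroDivisors.ne_zero hb2'
  refine ⟨C b2 * IsLocalization.integerNormalization (nonZeroDivisors ℤ) U,
    C b1 * IsLocalization.integerNormalization (nonZeroDivisors ℤ) V, b1 * b2,
    mul_ne_zero hb1 hb2, ?_⟩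
  apply Polynomial.map_injective (Int.castRingHom ℚ) Int.cast_injective
  have e1 : (IsLocalization.integerNormalization (nonZeroDivisors ℤ) U).map (Int.castRingHom ℚ) =
      C (b1 : ℚ) * U := by
    rw [show (Int.castRingHom ℚ) = algebraMap ℤ ℚ from rfl, h1, zsmul_eq_mul]
    simp
  have e2 : (IsLocalization.integerNormalization (nonZeroDivisors ℤ) V).map (Int.castRingHom ℚ) =
      C (b2 : ℚ) * V := by
    rw [show (Int.castRingHom ℚ) = algebraMap ℤ ℚ from rfl, h2, zsmul_eq_mul]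
    simp
  rw [Polynomial.map_add, Polynomial.map_mul, Polynomial.map_mul, Polynomial.map_mul,
    Polynomial.map_mul, e1, e2, Polynomial.map_C, Polynomial.map_C, Polynomial.map_C]
  simp only [eq_intCast, Int.cast_mul, map_mul]
  linear_combination (C (b1 : ℚ) * C (b2 : ℚ)) * hUV

/-- additivity of the number of roots -/
lemma rho_add {f g : ℤ[X]} {u v : ℤ[X]} {N : ℤ} (hN : N ≠ 0) (h : u * f + v * g = C N) {p : ℕ}
    (hp : p.Prime) (hpN : N.natAbs < p) : rho (f * g) p = rho f p + rho g p := by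
  classical
  have hpi : Prime (p : ℤ) := Nat.prime_iff_prime_int.1 hp
  unfold rho Pool.Agent.H474R2.PG.rho
  rw [← card_union_of_disjoint]
  · congr 1
    ext a
    rw [mem_union, mem_filter, mem_filter, mem_filter, eval_mul]
    constructor
    · rintro ⟨h1, h2⟩
      rcases hpi.dvd_or_dvd h2 with h3 | h3
      · exact Or.inl ⟨h1, h3⟩
      · exact Or.inr ⟨h1, h3⟩
    · rintro (⟨h1, h2⟩ | ⟨h1, h2⟩)
      · exact ⟨h1, h2.mul_right _⟩
      · exact ⟨h1, h2.mul_left _⟩
  · rw [disjoint_left]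
    intro a ha ha'
    rw [mem_filter] at ha ha'
    have h1 := congrArg (Polynomial.eval (a : ℤ)) h
    rw [eval_add, eval_mul, eval_mul, eval_C] at h1
    have h2 : (p : ℤ) ∣ N := by
      rw [← h1]
      exact dvd_add (ha.2.mul_left _) (ha'.2.mul_left _)
    have h3 := Nat.le_of_dvd (Int.natAbs_pos.2 hN) (Int.natCast_dvd.1 h2)
    omega

lemma rho_C {c : ℤ} (hc : c ≠ 0) {p : ℕ} (hp : c.natAbs < p) : rho (C c) p = 0 := by
  unfold rho Pool.Agent.H474R2.PG.rho
  rw [card_eq_zero, filter_eq_empty_iff]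
  intro a _ h
  rw [eval_C] at h
  have h3 := Nat.le_of_dvd (Int.natAbs_pos.2 hc) (Int.natCast_dvd.1 h)
  omega

lemma rho_div_le_one (f : ℤ[X]) (p : ℕ) : (rho f p : ℝ) / p ≤ 1 := by
  have h : rho f p ≤ p := by
    unfold rho Pool.Agent.H474R2.PG.rho
    refine (card_filter_le _ _).trans ?_
    rw [card_range]
  exact div_le_one_of_le₀ (by exact_mod_cast h) (by positivity)

lemma mer_add {f f1 f2 : ℤ[X]} {g1 g2 p0 : ℕ} (h1 : Mer f1 g1) (h2 : Mer f2 g2)
    (h : ∀ p : ℕ, p.Prime → p0 < p → rho f p = rho f1 p + rho f2 p) : Mer f (g1 + g2) := by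
  obtain ⟨C1, hC1⟩ := h1
  obtain ⟨C2, hC2⟩ := h2
  refine ⟨C1 + C2 + 3 * p0, fun y hy => ?_⟩
  have e : ∑ p ∈ (Icc 1 y).filter Nat.Prime, (rho f p : ℝ) / p -
      ((g1 + g2 : ℕ) : ℝ) * Real.log (Real.log y) =
      (∑ p ∈ (Icc 1 y).filter Nat.Prime, (rho f1 p : ℝ) / p - g1 * Real.log (Real.log y)) +
      (∑ p ∈ (Icc 1 y).filter Nat.Prime, (rho f2 p : ℝ) / p - g2 * Real.log (Real.log y)) +
      ∑ p ∈ (Icc 1 y).filter Nat.Prime,
        ((rho f p : ℝ) / p - (rho f1 p : ℝ) / p - (rho f2 p : ℝ) / p) := by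
    rw [sum_sub_distrib, sum_sub_distrib]
    push_cast
    ring
  have h3 : |∑ p ∈ (Icc 1 y).filter Nat.Prime,
      ((rho f p : ℝ) / p - (rho f1 p : ℝ) / p - (rho f2 p : ℝ) / p)| ≤ 3 * p0 := by
    refine (abs_sum_le_sum_abs _ _).trans ?_
    calc ∑ p ∈ (Icc 1 y).filter Nat.Prime,
          |(rho f p : ℝ) / p - (rho f1 p : ℝ) / p - (rho f2 p : ℝ) / p|
        ≤ ∑ p ∈ (Icc 1 y).filter Nat.Prime, (if p ≤ p0 then 3 else 0 : ℝ) := by
          refine sum_le_sum fun p hp => ?_
          have hpp := (mem_filter.1 hp).2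
          split_ifs with h4
          · have a1 := rho_div_le_one f p
            have a2 := rho_div_le_one f1 p
            have a3 := rho_div_le_one f2 p
            have b1 : 0 ≤ (rho f p : ℝ) / p := by positivity
            have b2 : 0 ≤ (rho f1 p : ℝ) / p := by positivity
            have b3 : 0 ≤ (rho f2 p : ℝ) / p := by positivity
            rw [abs_le]
            constructor <;> linarith
          · rw [h p hpp (not_le.1 h4)]
            push_cast
            rw [add_div, show (rho f1 p : ℝ) / p + (rho f2 p : ℝ) / p - (rho f1 p : ℝ) / p -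
              (rho f2 p : ℝ) / p = 0 by ring, abs_zero]
      _ = ∑ p ∈ ((Icc 1 y).filter Nat.Prime).filter (fun p => p ≤ p0), (3 : ℝ) :=
          (sum_filter (s := (Icc 1 y).filter Nat.Prime) (fun p => p ≤ p0) _).symm
      _ ≤ ∑ p ∈ Icc 1 p0, (3 : ℝ) := by
          refine sum_le_sum_of_subset_of_nonneg ?_ fun _ _ _ => by norm_num
          intro p hp
          rw [mem_filter, mem_filter, mem_Icc] at hp
          exact mem_Icc.2 ⟨hp.1.1.1, hp.2⟩
      _ = 3 * p0 := by
          rw [sum_const, Nat.card_Icc, nsmul_eq_mul]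
          push_cast
          ring
  rw [e]
  refine (abs_add_le _ _).trans (add_le_add ((abs_add_le _ _).trans (add_le_add (hC1 y hy)
    (hC2 y hy))) h3)

lemma utw_add {f f1 f2 : ℤ[X]} {z p0 : ℕ} (h1 : Utw f1 z) (h2 : Utw f2 z) (hz : p0 ≤ z)
    (h : ∀ p : ℕ, p.Prime → p0 < p → rho f p = rho f1 p + rho f2 p) : Utw f z := by
  intro κ hκ hκz
  obtain ⟨B1, C1, hC1⟩ := h1 κ hκ hκz
  obtain ⟨B2, C2, hC2⟩ := h2 κ hκ hκz
  refine ⟨B1 + B2, C1 + C2, fun y r e hy hr hrs hrp => ?_⟩
  have e1 : ∑ p ∈ PS z y, (rho f p : ℝ) / p * (Jr p r * Jr κ p * x4 e p) =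
      ∑ p ∈ PS z y, (rho f1 p : ℝ) / p * (Jr p r * Jr κ p * x4 e p) +
      ∑ p ∈ PS z y, (rho f2 p : ℝ) / p * (Jr p r * Jr κ p * x4 e p) := by
    rw [← sum_add_distrib]
    refine sum_congr rfl fun p hp => ?_
    rw [mem_PS] at hp
    rw [h p hp.2 (by omega)]
    push_cast
    ring
  rw [e1]
  have h3 := hC1 y r e hy hr hrs hrp
  have h4 := hC2 y r e hy hr hrs hrp
  linarith

/-- the property of an irreducible element -/
lemma irr (i : ℤ[X]) (hi : Irreducible i) : ∃ g z0 : ℕ, (0 < i.natDegree → 1 ≤ g) ∧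
    g ≤ i.natDegree ∧ Mer i g ∧ ∀ z, z0 ≤ z → Utw i z := by
  rcases Nat.eq_zero_or_pos i.natDegree with hd | hd
  · obtain ⟨c, hc⟩ := natDegree_eq_zero.1 hd
    have hc0 : c ≠ 0 := by
      rintro rfl
      rw [map_zero] at hc
      exact hi.ne_zero hc.symm
    subst hc
    refine ⟨0, c.natAbs, fun h => by omega, Nat.zero_le _, ⟨c.natAbs, fun y hy => ?_⟩,
      fun z hz κ _ _ => ⟨0, 0, fun y r e hy _ _ _ => ?_⟩⟩
    · rw [Nat.cast_zero, zero_mul, sub_zero, abs_of_nonneg (sum_nonneg fun p _ => by positivity)]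
      calc ∑ p ∈ (Icc 1 y).filter Nat.Prime, (rho (C c) p : ℝ) / p
          ≤ ∑ p ∈ (Icc 1 y).filter Nat.Prime, (if p ≤ c.natAbs then 1 else 0 : ℝ) := by
            refine sum_le_sum fun p _ => ?_
            split_ifs with h4
            · exact rho_div_le_one _ p
            · rw [rho_C hc0 (not_le.1 h4)]
              simp
        _ = ∑ p ∈ ((Icc 1 y).filter Nat.Prime).filter (fun p => p ≤ c.natAbs), (1 : ℝ) :=
            (sum_filter (s := (Icc 1 y).filter Nat.Prime) (fun p => p ≤ c.natAbs) _).symm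
        _ ≤ ∑ p ∈ Icc 1 c.natAbs, (1 : ℝ) := by
            refine sum_le_sum_of_subset_of_nonneg ?_ fun _ _ _ => by norm_num
            intro p hp
            rw [mem_filter, mem_filter, mem_Icc] at hp
            exact mem_Icc.2 ⟨hp.1.1.1, hp.2⟩
        _ = _ := by
            rw [sum_const, Nat.card_Icc, nsmul_eq_mul]
            push_cast
            ring
    · rw [zero_mul, zero_add]
      apply le_of_eq
      apply sum_eq_zero
      intro p hp
      rw [mem_PS] at hp
      rw [rho_C hc0 (by omega)]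
      simp
  · obtain ⟨z0, hz0⟩ := utw_irr i hi hd
    obtain ⟨C, hC0, hC⟩ := Pool.Agent.H474R2.GE.mertens_rho i hi hd
    refine ⟨1, z0, fun _ => le_rfl, hd, ⟨C, fun y hy => ?_⟩, hz0⟩
    have h1 := hC y (by exact_mod_cast hy)
    unfold Pool.Agent.H474R2.PG.Sg Pool.Agent.H474R2.PG.PR at h1
    rw [Nat.floor_natCast] at h1
    rw [Nat.cast_one, one_mul]
    exact h1

lemma irr_sep (i : ℤ[X]) (hi : Irreducible i) : (i.map (Int.castRingHom ℚ)).Separable := by
  rcases Nat.eq_zero_or_pos i.natDegree with hd | hd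
  · obtain ⟨c, hc⟩ := natDegree_eq_zero.1 hd
    have hc0 : c ≠ 0 := by
      rintro rfl
      rw [map_zero] at hc
      exact hi.ne_zero hc.symm
    subst hc
    rw [map_C, separable_C]
    exact (isUnit_iff_ne_zero).2 (by simpa using hc0)
  · have hprim : i.IsPrimitive := hi.isPrimitive hd.ne'
    exact ((IsPrimitive.Int.irreducible_iff_irreducible_map_cast hprim).1 hi).separable

/-- the coprimality of an irreducible element and a polynomial not divisible by it -/
lemma irr_cop (i a : ℤ[X]) (hi : Irreducible i) (h : ¬ i ∣ a) :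
    IsCoprime (i.map (Int.castRingHom ℚ)) (a.map (Int.castRingHom ℚ)) := by
  rcases Nat.eq_zero_or_pos i.natDegree with hd | hd
  · obtain ⟨c, hc⟩ := natDegree_eq_zero.1 hd
    have hc0 : c ≠ 0 := by
      rintro rfl
      rw [map_zero] at hc
      exact hi.ne_zero hc.symm
    subst hc
    rw [map_C]
    have hu : IsUnit (C ((Int.castRingHom ℚ) c) : ℚ[X]) := by
      rw [isUnit_C]
      exact (isUnit_iff_ne_zero).2 (by simpa using hc0)
    obtain ⟨w, hw⟩ := hu.exists_left_inv
    exact ⟨w, 0, by rw [hw]; ring⟩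
  · have hprim : i.IsPrimitive := hi.isPrimitive hd.ne'
    have hF := (IsPrimitive.Int.irreducible_iff_irreducible_map_cast hprim).1 hi
    refine (Irreducible.coprime_iff_not_dvd hF).2 fun h2 => h ?_
    exact (IsPrimitive.Int.dvd_iff_map_cast_dvd_map_cast i a hprim).2 h2

/-- **squarefree polynomials** -/
theorem sqf (a : ℤ[X]) : Squarefree a → a ≠ 0 → (a.map (Int.castRingHom ℚ)).Separable ∧
    ∃ g z0 : ℕ, (0 < a.natDegree → 1 ≤ g) ∧ g ≤ a.natDegree ∧ Mer a g ∧
      ∀ z, z0 ≤ z → Utw a z := by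
  induction a using WfDvdMonoid.induction_on_irreducible with
  | zero => intro _ h; exact absurd rfl h
  | unit u hu =>
    intro _ _
    have hd : u.natDegree = 0 := natDegree_eq_zero_of_isUnit hu
    obtain ⟨c, hc⟩ := natDegree_eq_zero.1 hd
    subst hc
    have hc1 : IsUnit c := isUnit_C.1 hu
    have hc0 : c ≠ 0 := hc1.ne_zero
    have hcn : c.natAbs = 1 := Int.isUnit_iff_natAbs_eq.1 hc1
    have hrho : ∀ p : ℕ, p.Prime → rho (C c) p = 0 := fun p hp =>
      rho_C hc0 (by rw [hcn]; exact hp.one_lt)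
    refine ⟨?_, 0, 0, fun h => by omega, Nat.zero_le _, ⟨0, fun y hy => ?_⟩,
      fun z hz κ _ _ => ⟨0, 0, fun y r e hy _ _ _ => ?_⟩⟩
    · rw [map_C, separable_C]
      exact hc1.map _
    · rw [Nat.cast_zero, zero_mul, sub_zero, sum_eq_zero, abs_zero]
      intro p hp
      rw [hrho p (mem_filter.1 hp).2]
      simp
    · rw [zero_mul, zero_add]
      apply le_of_eq
      apply sum_eq_zero
      intro p hp
      rw [mem_PS] at hp
      rw [hrho p hp.2]
      simp
  | mul a i ha hi ih =>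
    intro hsq _
    have hsqa : Squarefree a := hsq.squarefree_of_dvd (Dvd.intro_left _ rfl)
    obtain ⟨hsep, g, z0, hg1, hg2, hM, hU⟩ := ih hsqa ha
    have hia : ¬ i ∣ a := by
      rintro ⟨b, rfl⟩
      have h1 := hsq i ⟨b, by ring⟩
      exact hi.not_isUnit h1
    have hcop := irr_cop i a hi hia
    obtain ⟨u, v, N, hN, huv⟩ := bez hcop
    obtain ⟨g', z0', hg1', hg2', hM', hU'⟩ := irr i hi
    have hadd : ∀ p : ℕ, p.Prime → N.natAbs < p → rho (i * a) p = rho i p + rho a p :=
      fun p hp hpN => rho_add hN huv hp hpN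
    have hdeg : (i * a).natDegree = i.natDegree + a.natDegree := natDegree_mul hi.ne_zero ha
    refine ⟨?_, g' + g, z0 + z0' + N.natAbs, fun h => ?_, ?_, mer_add hM' hM hadd,
      fun z hz => utw_add (hU' z (by omega)) (hU z (by omega)) (by omega : N.natAbs ≤ z) hadd⟩
    · rw [Polynomial.map_mul]
      exact (irr_sep i hi).mul hsep hcop
    · rw [hdeg] at h
      rcases Nat.eq_zero_or_pos i.natDegree with h1 | h1
      · have := hg1 (by omega)
        omega
      · have := hg1' h1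
        omega
    · rw [hdeg]
      omega

/-- the large primes are good -/
theorem good (a : ℤ[X]) (ha : a ≠ 0) (hsep : (a.map (Int.castRingHom ℚ)).Separable) :
    ∃ z0 : ℕ, ∀ z, z0 ≤ z → Gd a z := by
  have hcop : IsCoprime (a.map (Int.castRingHom ℚ))
      ((derivative a).map (Int.castRingHom ℚ)) := by
    rw [← derivative_map]
    exact hsep
  obtain ⟨u, v, N, hN, huv⟩ := bez hcop
  obtain ⟨B, hB⟩ := Pool.Agent.H474R2.PG.rho_le a ha
  refine ⟨B + N.natAbs + (2 * a.natDegree + 2), fun z hz => ⟨by omega, fun p hp hpz => ?_,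
    fun p hp hpz t ht ht' => ?_⟩⟩
  · exact hB p hp (by omega)
  · have h1 := congrArg (Polynomial.eval t) huv
    rw [eval_add, eval_mul, eval_mul, eval_C] at h1
    have h2 : (p : ℤ) ∣ N := by
      rw [← h1]
      exact dvd_add (ht.mul_left _) (ht'.mul_left _)
    have h3 := Nat.le_of_dvd (Int.natAbs_pos.2 hN) (Int.natCast_dvd.1 h2)
    omega

/-- every polynomial is a square times a squarefree polynomial -/
theorem sq_mul (a : ℤ[X]) : a ≠ 0 → ∃ g h : ℤ[X], a = g ^ 2 * h ∧ Squarefree h ∧ h ≠ 0 ∧ g ≠ 0 := by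
  induction a using WfDvdMonoid.induction_on_irreducible with
  | zero => intro h; exact absurd rfl h
  | unit u hu => intro _; exact ⟨1, u, by ring, hu.squarefree, hu.ne_zero, one_ne_zero⟩
  | mul a i ha hi ih =>
    intro _
    obtain ⟨g, h, h1, h2, h3, h4⟩ := ih ha
    by_cases hih : i ∣ h
    · obtain ⟨h', rfl⟩ := hih
      refine ⟨g * i, h', by rw [h1]; ring, h2.squarefree_of_dvd (Dvd.intro_left _ rfl), ?_,
        mul_ne_zero h4 hi.ne_zero⟩
      rintro rfl
      exact h3 (mul_zero _)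
    · refine ⟨g, i * h, by rw [h1]; ring, ?_, mul_ne_zero hi.ne_zero h3, h4⟩
      rw [squarefree_mul_iff]
      exact ⟨(hi.isRelPrime_iff_not_dvd).2 hih, hi.squarefree, h2⟩

end UT

end Run7.h69
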