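import Mathlib
import Pool.Agent.Run7.h69.CN

/-!
# The number of `t` with given small prime factors of `f(t)`, given signs and given residues
-/

set_option autoImplicit false
set_option linter.unusedSectionVars false

namespace Run7.h69

open Finset Polynomial
open Pool.Agent.W262.RK hiding lk ff s1 s2
open Pool.Agent.W655.RK (PS_prime PS_lt PS_le)
open Pool.Agent.W372.RK2 (sq_pow_dvd card_W WW)

namespace CN2

open CN

variable {f : ℤ[X]} {z y Y s v u : ℕ} {t : ℤ}

/-- the possible values -/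
noncomputable def Cod2 (f : ℤ[X]) (s v u : ℕ) (E : Finset ℕ) (R : ℕ → ℕ) :
    Finset (((s * v * u).primeFactors → ℕ) × (s.primeFactors → ℕ)) :=
  Fintype.piFinset (fun p : (s * v * u).primeFactors => if p.1 ∣ s then {R p.1} else Rt f p.1) ×ˢ
    Fintype.piFinset (fun p : s.primeFactors => WW E p.1)

lemma Phi_mem2 (hz : Gd f z) (g : Good f z y s v u t) (hu : u ∣ PP y Y) {E : Finset ℕ}
    (hE : ng f t s = E) {R : ℕ → ℕ}
    (hR : ∀ p ∈ s.primeFactors, (t % (p : ℤ)).toNat = R p) :
    Phi f s v u t ∈ Cod2 f s v u E R := by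
  have h := Phi_mem hz g hu hE
  unfold Cod at h
  unfold Cod2
  rw [mem_product, Fintype.mem_piFinset, Fintype.mem_piFinset] at h ⊢
  refine ⟨fun p => ?_, h.2⟩
  split_ifs with h1
  · rw [mem_singleton]
    exact hR p.1 (Nat.mem_primeFactors.2 ⟨Nat.prime_of_mem_primeFactors p.2, h1, fun h =>
      (Nat.mem_primeFactors.1 p.2).2.2 (by rw [h, zero_mul, zero_mul])⟩)
  · exact h.1 p

lemma card_Cod2 (hz : 2 ≤ z) (hs : s ∣ PP z y) (hsv : s.Coprime v) (hsu : (s * v).Coprime u)
    (E : Finset ℕ) (R : ℕ → ℕ) :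
    ((Cod2 f s v u E R).card : ℝ) ≤
      gm (fun p => (rho f p : ℝ)) v * gm (fun p => (rho f p : ℝ)) u *
        ((1 / 2) ^ s.primeFactors.card * s) := by
  unfold Cod2
  rw [card_product, Fintype.card_piFinset, Fintype.card_piFinset, Nat.cast_mul]
  have h0 : ∏ p : (s * v * u).primeFactors, (if p.1 ∣ s then {R p.1} else Rt f p.1).card =
      ∏ p ∈ (s * v * u).primeFactors, (if p ∣ s then {R p} else Rt f p).card :=
    prod_coe_sort (s * v * u).primeFactors (fun p => (if p ∣ s then {R p} else Rt f p).card)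
  have h0' : ∏ p : s.primeFactors, (WW E p.1).card = ∏ p ∈ s.primeFactors, (WW E p).card :=
    prod_coe_sort s.primeFactors (fun p => (WW E p).card)
  rw [h0, h0']
  have h1 : ∀ p ∈ s.primeFactors, (((WW E p).card : ℕ) : ℝ) ≤ (1 / 2) * (p : ℝ) := by
    intro p hp
    have hpp := Nat.prime_of_mem_primeFactors hp
    have hp2 : p ≠ 2 := by
      have := PS_lt ((prime_dvd_PP hpp).1 ((Nat.dvd_of_mem_primeFactors hp).trans hs))
      omega
    have h2 := card_W hpp hp2 (if p ∈ E then -1 else 1) (by split_ifs <;> simp)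
    have h3 : 2 * (WW E p).card ≤ p := by
      unfold WW
      omega
    have h4 : (2 : ℝ) * ((WW E p).card : ℝ) ≤ p := by exact_mod_cast h3
    linarith
  have h2 : ((∏ p ∈ s.primeFactors, (WW E p).card : ℕ) : ℝ) ≤ (1 / 2) ^ s.primeFactors.card * s := by
    rw [Nat.cast_prod]
    refine (prod_le_prod (fun _ _ => Nat.cast_nonneg _) h1).trans ?_
    rw [prod_mul_distrib, prod_const]
    apply mul_le_mul_of_nonneg_left _ (by positivity)
    rw [← Nat.cast_prod, Nat.prod_primeFactors_of_squarefree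
      ((PP_squarefree z y).squarefree_of_dvd hs)]
  have hsu' : s.Coprime u := Nat.Coprime.coprime_mul_right hsu
  have h3 : ((∏ p ∈ (s * v * u).primeFactors, (if p ∣ s then {R p} else Rt f p).card : ℕ) : ℝ) =
      gm (fun p => (rho f p : ℝ)) v * gm (fun p => (rho f p : ℝ)) u := by
    have e1 : ((∏ p ∈ (s * v * u).primeFactors, (if p ∣ s then {R p} else Rt f p).card : ℕ) : ℝ) =
        gm (fun p => if p ∣ s then 1 else (rho f p : ℝ)) (s * v * u) := by
      rw [Nat.cast_prod]
      unfold gm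
      refine prod_congr rfl fun p _ => ?_
      by_cases h : p ∣ s
      · simp [h]
      · simp only [h, if_false]
        rfl
    have e2 : ∀ w : ℕ, s.Coprime w → gm (fun p => if p ∣ s then 1 else (rho f p : ℝ)) w =
        gm (fun p => (rho f p : ℝ)) w := by
      intro w hw
      unfold gm
      refine prod_congr rfl fun p hp => if_neg fun h => ?_
      have hpp := Nat.prime_of_mem_primeFactors hp
      exact Nat.not_coprime_of_dvd_of_dvd hpp.one_lt h (Nat.dvd_of_mem_primeFactors hp) hw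
    have e3 : gm (fun p => if p ∣ s then 1 else (rho f p : ℝ)) s = 1 := by
      unfold gm
      exact prod_eq_one fun p hp => if_pos (Nat.dvd_of_mem_primeFactors hp)
    rw [e1, gm_coprime _ hsu, gm_coprime _ hsv, e2 v hsv, e2 u hsu', e3, one_mul]
  rw [h3]
  exact mul_le_mul_of_nonneg_left h2 (mul_nonneg (prod_nonneg fun p _ => Nat.cast_nonneg _)
    (prod_nonneg fun p _ => Nat.cast_nonneg _))

/-- the count with prescribed residues -/
theorem count {g : ℕ} (hz : Gd f z) (hM : Mer f g) :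
    ∃ (C : ℝ) (K y0 : ℕ), 0 ≤ C ∧ 1 ≤ K ∧ ∀ (x : ℤ) (X y Y : ℕ), y0 ≤ y → z < y → y ^ K ≤ X →
    ∀ s v u : ℕ, s ∣ PP z y → v ∣ PP z y → u ∣ PP y Y → (s * v * u) ^ 8 ≤ X → ∀ (E : Finset ℕ)
    (R : ℕ → ℕ),
    (((Ioc x (x + X)).filter (fun t : ℤ => (t1 f z y t = s ∧ t2 f z y t = v ∧
      (u : ℤ) ∣ f.eval t ∧ ng f t s = E) ∧
      ∀ p ∈ s.primeFactors, (t % (p : ℤ)).toNat = R p)).card : ℝ) ≤
      C * X * (1 / 2) ^ s.primeFactors.card * gm (fun p => 1 / ((p : ℝ) - f.natDegree)) s *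
        (gm (br f) v / v) * gm (ru f) u / (Real.log y) ^ g := by
  obtain ⟨C, K, y0, hC, hK, hSV⟩ := SV.sieve hz hM
  refine ⟨C, K, y0, hC, hK, ?_⟩
  intro x X y Y hy0 hzy hX s v u hs hv hu hsvu E R
  have hzb := hz.big
  have hz2 : 2 ≤ z := by omega
  have hs' : s ∈ (PP z y).divisors := Nat.mem_divisors.2 ⟨hs, PP_ne_zero z y⟩
  have hv' : v ∈ (PP z y).divisors := Nat.mem_divisors.2 ⟨hv, PP_ne_zero z y⟩
  have hu' : u ∈ (PP y Y).divisors := Nat.mem_divisors.2 ⟨hu, PP_ne_zero y Y⟩
  have hs0 := dv_ne_zero hs'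
  have hv0 := dv_ne_zero hv'
  have hu0 := dv_ne_zero hu'
  have hsq := dv_squarefree hs'
  have hvq := dv_squarefree hv'
  have huq := dv_squarefree hu'
  have hlog : 0 ≤ (Real.log y) ^ g := pow_nonneg (Real.log_natCast_nonneg y) _
  have hbr : ∀ {w : ℕ}, w ∈ (PP z y).divisors → 0 ≤ gm (br f) w := fun hw =>
    AT.gm_nonneg (fun p hp hpz => br_nonneg hz hp hpz) hw
  have hru : 0 ≤ gm (ru f) u := prod_nonneg fun p _ => by unfold ru; positivity
  set T := (Ioc x (x + X)).filter (fun t : ℤ => (t1 f z y t = s ∧ t2 f z y t = v ∧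
      (u : ℤ) ∣ f.eval t ∧ ng f t s = E) ∧
      ∀ p ∈ s.primeFactors, (t % (p : ℤ)).toNat = R p) with hT
  have hgood : ∀ t ∈ T, Good f z y s v u t ∧ ng f t s = E := by
    intro t ht
    rw [hT, mem_filter] at ht
    exact ⟨⟨ht.2.1.1, ht.2.1.2.1, ht.2.1.2.2.1⟩, ht.2.1.2.2.2⟩
  have hres : ∀ t ∈ T, ∀ p ∈ s.primeFactors, (t % (p : ℤ)).toNat = R p := by
    intro t ht
    rw [hT, mem_filter] at ht
    exact ht.2.2
  have hinv : ∀ {w : ℕ}, w ∈ (PP z y).divisors → 0 ≤ gm (fun p => 1 / ((p : ℝ) - f.natDegree)) w :=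
    fun hw => AT.gm_nonneg (fun p hp hpz => by
      have h1 : (2 * f.natDegree + 2 : ℝ) ≤ p := by exact_mod_cast (by omega : 2 * f.natDegree + 2 ≤ p)
      have h2 : (0 : ℝ) ≤ f.natDegree := Nat.cast_nonneg _
      apply div_nonneg zero_le_one
      linarith) hw
  rcases T.eq_empty_or_nonempty with hTe | ⟨t0, ht0⟩
  · rw [hTe, card_empty, Nat.cast_zero]
    apply div_nonneg _ hlog
    have h1 := hinv hs'
    have h2 := hbr hv'
    positivity
  set m := md s v u with hm
  have hm1 : 1 ≤ m := by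
    rw [hm]
    unfold md
    exact Nat.succ_le_of_lt (by positivity)
  have hm4 : m ^ 4 ≤ X := by
    refine le_trans ?_ hsvu
    have h1 : m ≤ (s * v * u) ^ 2 := by
      rw [hm]
      unfold md
      have h3 : 1 ≤ u := Nat.one_le_iff_ne_zero.2 hu0
      calc s ^ 2 * v ^ 2 * u ≤ s ^ 2 * v ^ 2 * (u * u) :=
            Nat.mul_le_mul_left _ (Nat.le_mul_of_pos_left u h3)
        _ = (s * v * u) ^ 2 := by ring
    calc m ^ 4 ≤ ((s * v * u) ^ 2) ^ 4 := Nat.pow_le_pow_left h1 4
      _ = (s * v * u) ^ 8 := by rw [← pow_mul]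
  have hg0 := (hgood t0 ht0).1
  have hcsv : s.Coprime v := by
    apply Nat.coprime_of_dvd
    intro p hp hps hpv
    exact (hg0.fs hp hps).2.2 (hg0.fv hp hpv).2
  have hcu : (s * v).Coprime u := by
    apply Nat.coprime_of_dvd
    intro p hp hps hpu
    have h8 := PS_lt (hg0.fu hu hp hpu).1
    have h9 : p ≤ y := by
      rcases hp.dvd_mul.1 hps with h | h
      · exact PS_le (hg0.fs hp h).1
      · exact PS_le (hg0.fv hp h).1
    omega
  -- bound for a fibre
  set B : ℝ := C * (X / m) * (∏ p ∈ m.primeFactors.filter (fun p => p ∈ PS z y),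
        (p : ℝ) / ((p : ℝ) - f.natDegree)) / (Real.log y) ^ g with hBdef
  have hfib : ∀ φ, ((T.filter (fun t : ℤ => Phi f s v u t = φ)).card : ℝ) ≤ B := by
    intro φ
    rcases (T.filter (fun t : ℤ => Phi f s v u t = φ)).eq_empty_or_nonempty with
      he | ⟨r, hr⟩
    · rw [he, card_empty, Nat.cast_zero]
      exact le_trans (Nat.cast_nonneg _) (hSV x X y hy0 hzy hX m 0 hm1 hm4)
    · refine le_trans ?_ (hSV x X y hy0 hzy hX m r hm1 hm4)
      rw [Nat.cast_le]
      apply card_le_card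
      intro t ht
      rw [mem_filter] at ht hr
      have g := (hgood t ht.1).1
      have g' := (hgood r hr.1).1
      have htX : t ∈ Ioc x (x + X) := (mem_filter.1 ht.1).1
      rw [mem_filter]
      refine ⟨htX, ?_, ?_⟩
      · exact congr_of hz hzy hs hv hu g g' (ht.2.trans hr.2.symm)
      · intro p hpP hpm hpf
        have hp := (mem_PS.1 hpP).2
        apply hpm
        rw [hm]
        unfold md
        by_cases h2 : (p : ℤ) ^ 2 ∣ f.eval t
        · have h3 : p ∣ v := by
            rw [← g.hv]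
            exact (dvd_t2 hp).2 ⟨hpP, h2⟩
          exact ((h3.pow two_ne_zero).mul_left _).mul_right _
        · have h3 : p ∣ s := by
            rw [← g.hs]
            exact (dvd_t1 hp).2 ⟨hpP, hpf, h2⟩
          exact ((h3.pow two_ne_zero).mul_right _).mul_right _
  have hB0 : 0 ≤ B := le_trans (Nat.cast_nonneg _) (hSV x X y hy0 hzy hX m 0 hm1 hm4)
  have hcard : (T.card : ℝ) ≤ ((Cod2 f s v u E R).card : ℝ) * B := by
    rw [card_eq_sum_card_fiberwise (f := fun t : ℤ => Phi f s v u t)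
      (t := Cod2 f s v u E R)
      (fun t ht => Phi_mem2 hz (hgood t ht).1 hu (hgood t ht).2 (hres t ht))]
    rw [Nat.cast_sum]
    refine (sum_le_sum fun φ _ => hfib φ).trans ?_
    rw [sum_const, nsmul_eq_mul]
  refine hcard.trans ((mul_le_mul_of_nonneg_right (card_Cod2 hz2 hs hcsv hcu E R) hB0).trans ?_)
  -- the product over the primes
  have hpf : m.primeFactors.filter (fun p => p ∈ PS z y) = (s * v).primeFactors := by
    ext p
    rw [mem_filter, Nat.mem_primeFactors, Nat.mem_primeFactors]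
    constructor
    · rintro ⟨⟨hp, hd, -⟩, hpP⟩
      refine ⟨hp, ?_, mul_ne_zero hs0 hv0⟩
      rw [hm] at hd
      unfold md at hd
      rcases hp.dvd_mul.1 hd with h | h
      · rcases hp.dvd_mul.1 h with h | h
        · exact (hp.dvd_of_dvd_pow h).mul_right _
        · exact (hp.dvd_of_dvd_pow h).mul_left _
      · exfalso
        have h1 := PS_lt (hg0.fu hu hp h).1
        have h2 := PS_le hpP
        omega
    · rintro ⟨hp, hd, -⟩
      have h1 : p ∈ PS z y := by
        rcases hp.dvd_mul.1 hd with h | h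
        · exact (hg0.fs hp h).1
        · exact (hg0.fv hp h).1
      refine ⟨⟨hp, ?_, by omega⟩, h1⟩
      rw [hm]
      unfold md
      rcases hp.dvd_mul.1 hd with h | h
      · exact ((h.pow two_ne_zero).mul_right _).mul_right _
      · exact ((h.pow two_ne_zero).mul_left _).mul_right _
  have hprod : ∏ p ∈ m.primeFactors.filter (fun p => p ∈ PS z y),
      (p : ℝ) / ((p : ℝ) - f.natDegree) =
      (s * gm (fun p => 1 / ((p : ℝ) - f.natDegree)) s) *
        (v * gm (fun p => 1 / ((p : ℝ) - f.natDegree)) v) := by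
    rw [hpf]
    have h1 : ∏ p ∈ (s * v).primeFactors, (p : ℝ) / ((p : ℝ) - f.natDegree) =
        gm (fun p => (p : ℝ) * (1 / ((p : ℝ) - f.natDegree))) (s * v) := by
      unfold gm
      exact prod_congr rfl fun p _ => by ring
    rw [h1, gm_coprime _ hcsv, gm_mul, gm_mul, gm_id hsq, gm_id hvq]
  have hb : ∀ w : ℕ, gm (br f) w = gm (fun p => (rho f p : ℝ)) w *
      gm (fun p => 1 / ((p : ℝ) - f.natDegree)) w := by
    intro w
    rw [← gm_mul]
    unfold gm
    exact prod_congr rfl fun p _ => by unfold br; ring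
  have hru' : gm (ru f) u * u = gm (fun p => (rho f p : ℝ)) u := by
    conv_lhs => rw [← gm_id huq]
    rw [← gm_mul]
    unfold gm
    refine prod_congr rfl fun p hp => ?_
    have : (p : ℝ) ≠ 0 := by exact_mod_cast (Nat.prime_of_mem_primeFactors hp).ne_zero
    unfold ru
    field_simp
  have hsr : (s : ℝ) ≠ 0 := Nat.cast_ne_zero.2 hs0
  have hvr : (v : ℝ) ≠ 0 := Nat.cast_ne_zero.2 hv0
  have hur : (u : ℝ) ≠ 0 := Nat.cast_ne_zero.2 hu0
  have hmr : (m : ℝ) = (s : ℝ) ^ 2 * (v : ℝ) ^ 2 * u := by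
    rw [hm]
    unfold md
    push_cast
    ring
  rw [hBdef, hprod, hb v, ← hru', hmr]
  apply le_of_eq
  field_simp

end CN2

end Run7.h69
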