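import Mathlib
import Pool.Agent.Run7.h69.RK
import Pool.Agent.Run7.h69.CN2

/-!
# The local data of a family `y² = x (x - D G₀) (x - D G₁)`
-/

set_option autoImplicit false
set_option linter.unusedSectionVars false

namespace Run7.h69.FM

open Finset Polynomial
open Pool.Agent.W262.RK hiding lk ff s1 s2

/-- the four factors -/
noncomputable def GG (D G0 G1 : ℤ[X]) (c : Fin 4) : ℤ[X] :=
  if c = 3 then D else if c = 0 then G0 else if c = 1 then G1 else G0 - G1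

/-- the product -/
noncomputable def PQ (D G0 G1 : ℤ[X]) : ℤ[X] := D * (G0 * (G1 * (G0 - G1)))

/-- the constants of the classes -/
noncomputable def KP (D G0 G1 : ℤ[X]) (c : Fin 4) (k : Fin 3) : ℤ[X] :=
  if c = 0 then -(D * G1) else if c = 1 then -(D * G0) else if c = 2 then D * G0
  else if k = 0 then G1 * (G0 - G1) else if k = 1 then G0 * (G0 - G1) else G0 * G1

/-- the class of a residue -/
noncomputable def cl (D G0 G1 : ℤ[X]) (p : ℕ) (r : ℤ) : Fin 4 :=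
  if (p : ℤ) ∣ D.eval r then 3 else if (p : ℤ) ∣ G0.eval r then 0
    else if (p : ℤ) ∣ G1.eval r then 1 else 2

/-- the local conditions for given types -/
def LT (D G0 G1 : ℤ[X]) (τ : ℕ → ℕ × Bool) (p : ℕ) : Bool → Bool → Bool → Bool → Prop :=
  LL (cl D G0 G1 p ((τ p).1 : ℤ))
    (fun k => (KP D G0 G1 (cl D G0 G1 p ((τ p).1 : ℤ)) k).eval ((τ p).1 : ℤ)) (τ p).2 p

lemma fin4 (P : Fin 4 → Prop) (h0 : P 0) (h1 : P 1) (h2 : P 2) (h3 : P 3) (k : Fin 4) : P k := by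
  have : k = 0 ∨ k = 1 ∨ k = 2 ∨ k = 3 := by
    revert k
    decide
  rcases this with h | h | h | h <;> subst h <;> assumption

variable {D G0 G1 : ℤ[X]} {z : ℕ}

lemma GG0 : GG D G0 G1 0 = G0 := rfl
lemma GG1 : GG D G0 G1 1 = G1 := rfl
lemma GG2 : GG D G0 G1 2 = G0 - G1 := rfl
lemma GG3 : GG D G0 G1 3 = D := rfl

lemma PQ_eval (t : ℤ) : (PQ D G0 G1).eval t =
    D.eval t * (G0.eval t * (G1.eval t * (G0 - G1).eval t)) := by
  unfold PQ
  rw [eval_mul, eval_mul, eval_mul]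

/-- at a root, two different factors do not vanish -/
lemma excl (hz : Gd (PQ D G0 G1) z) {p : ℕ} (hp : p.Prime) (hpz : z < p) {t : ℤ} :
    ∀ c c' : Fin 4, c ≠ c' → (p : ℤ) ∣ (GG D G0 G1 c).eval t → ¬ (p : ℤ) ∣ (GG D G0 G1 c').eval t := by
  have hpi : Prime (p : ℤ) := Nat.prime_iff_prime_int.1 hp
  have key : ∀ A B R : ℤ[X], PQ D G0 G1 = A * (B * R) → (p : ℤ) ∣ A.eval t → ¬ (p : ℤ) ∣ B.eval t := by
    intro A B R h h1 h2
    have h3 : (p : ℤ) ∣ (PQ D G0 G1).eval t := by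
      rw [h, eval_mul]
      exact h1.mul_right _
    apply hz.simp p hp hpz t h3
    rw [h, derivative_mul, eval_add, eval_mul, eval_mul, eval_mul]
    exact dvd_add ((h2.mul_right _).mul_left _) (h1.mul_right _)
  refine fin4 _ (fin4 _ ?_ ?_ ?_ ?_) (fin4 _ ?_ ?_ ?_ ?_) (fin4 _ ?_ ?_ ?_ ?_)
    (fin4 _ ?_ ?_ ?_ ?_)
  all_goals first
    | (intro h; exact absurd rfl h)
    | skip
  all_goals intro _
  all_goals simp only [GG0, GG1, GG2, GG3]
  · exact key G0 G1 (D * (G0 - G1)) (by unfold PQ; ring)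
  · exact key G0 (G0 - G1) (D * G1) (by unfold PQ; ring)
  · exact key G0 D (G1 * (G0 - G1)) (by unfold PQ; ring)
  · exact key G1 G0 (D * (G0 - G1)) (by unfold PQ; ring)
  · exact key G1 (G0 - G1) (D * G0) (by unfold PQ; ring)
  · exact key G1 D (G0 * (G0 - G1)) (by unfold PQ; ring)
  · exact key (G0 - G1) G0 (D * G1) (by unfold PQ; ring)
  · exact key (G0 - G1) G1 (D * G0) (by unfold PQ; ring)
  · exact key (G0 - G1) D (G0 * G1) (by unfold PQ; ring)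
  · exact key D G0 (G1 * (G0 - G1)) (by unfold PQ; ring)
  · exact key D G1 (G0 * (G0 - G1)) (by unfold PQ; ring)
  · exact key D (G0 - G1) (G0 * G1) (by unfold PQ; ring)

lemma cl_dvd {p : ℕ} (hp : p.Prime) {t : ℤ} (h : (p : ℤ) ∣ (PQ D G0 G1).eval t) :
    (p : ℤ) ∣ (GG D G0 G1 (cl D G0 G1 p t)).eval t := by
  have hpi : Prime (p : ℤ) := Nat.prime_iff_prime_int.1 hp
  rw [PQ_eval] at h
  unfold cl
  split_ifs with h1 h2 h3
  · exact h1
  · exact h2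
  · exact h3
  · rw [GG2]
    rcases hpi.dvd_or_dvd h with h | h
    · exact absurd h h1
    · rcases hpi.dvd_or_dvd h with h | h
      · exact absurd h h2
      · rcases hpi.dvd_or_dvd h with h | h
        · exact absurd h h3
        · exact h

lemma GG_dvd_PQ (c : Fin 4) : GG D G0 G1 c ∣ PQ D G0 G1 := by
  revert c
  refine fin4 _ ?_ ?_ ?_ ?_
  · exact ⟨D * (G1 * (G0 - G1)), by rw [GG0]; unfold PQ; ring⟩
  · exact ⟨D * (G0 * (G0 - G1)), by rw [GG1]; unfold PQ; ring⟩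
  · exact ⟨D * (G0 * G1), by rw [GG2]; unfold PQ; ring⟩
  · exact ⟨G0 * (G1 * (G0 - G1)), by rw [GG3]; rfl⟩

lemma PQ_of_GG {p : ℕ} {t : ℤ} {c : Fin 4} (h : (p : ℤ) ∣ (GG D G0 G1 c).eval t) :
    (p : ℤ) ∣ (PQ D G0 G1).eval t := by
  obtain ⟨q, hq⟩ := GG_dvd_PQ (D := D) (G0 := G0) (G1 := G1) c
  rw [hq, eval_mul]
  exact h.mul_right _

lemma cl_eq (hz : Gd (PQ D G0 G1) z) {p : ℕ} (hp : p.Prime) (hpz : z < p) {t : ℤ} {c : Fin 4}
    (h : (p : ℤ) ∣ (GG D G0 G1 c).eval t) : cl D G0 G1 p t = c := by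
  by_contra hne
  exact excl hz hp hpz _ _ hne (cl_dvd hp (PQ_of_GG h)) h

lemma cl_congr {p : ℕ} {t r : ℤ} (h : (p : ℤ) ∣ t - r) : cl D G0 G1 p t = cl D G0 G1 p r := by
  have h1 : ∀ A : ℤ[X], (p : ℤ) ∣ A.eval t ↔ (p : ℤ) ∣ A.eval r := by
    intro A
    have h2 : (p : ℤ) ∣ A.eval t - A.eval r := h.trans (sub_dvd_eval_sub t r A)
    exact ⟨fun h3 => (dvd_sub_right h3).1 h2, fun h3 => (dvd_sub_left h3).1 h2⟩
  unfold cl
  simp only [h1]

lemma KP_ndvd (hz : Gd (PQ D G0 G1) z) {p : ℕ} (hp : p.Prime) (hpz : z < p) {t : ℤ}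
    (h : (p : ℤ) ∣ (PQ D G0 G1).eval t) (k : Fin 3) :
    ¬ (p : ℤ) ∣ (KP D G0 G1 (cl D G0 G1 p t) k).eval t := by
  have hpi : Prime (p : ℤ) := Nat.prime_iff_prime_int.1 hp
  have h1 := cl_dvd hp h
  have h2 := excl hz hp hpz (t := t) (cl D G0 G1 p t)
  generalize cl D G0 G1 p t = c at *
  have e : ∀ c' : Fin 4, c ≠ c' → ¬ (p : ℤ) ∣ (GG D G0 G1 c').eval t := fun c' hc => h2 c' hc h1
  clear h2 h1
  have hmul : ∀ a b : ℤ, ¬ (p : ℤ) ∣ a → ¬ (p : ℤ) ∣ b → ¬ (p : ℤ) ∣ a * b := fun a b ha hb hab =>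
    (hpi.dvd_or_dvd hab).elim ha hb
  revert e
  revert c
  refine fin4 _ ?_ ?_ ?_ ?_
  · intro e
    have e1 : KP D G0 G1 0 k = -(D * G1) := rfl
    rw [e1, eval_neg, eval_mul, dvd_neg]
    exact hmul _ _ (e 3 (by decide)) (e 1 (by decide))
  · intro e
    have e1 : KP D G0 G1 1 k = -(D * G0) := rfl
    rw [e1, eval_neg, eval_mul, dvd_neg]
    exact hmul _ _ (e 3 (by decide)) (e 0 (by decide))
  · intro e
    have e1 : KP D G0 G1 2 k = D * G0 := rfl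
    rw [e1, eval_mul]
    exact hmul _ _ (e 3 (by decide)) (e 0 (by decide))
  · intro e
    revert k
    refine RK.fin3 _ ?_ ?_ ?_
    · have e1 : KP D G0 G1 3 0 = G1 * (G0 - G1) := rfl
      rw [e1, eval_mul]
      exact hmul _ _ (e 1 (by decide)) (e 2 (by decide))
    · have e1 : KP D G0 G1 3 1 = G0 * (G0 - G1) := rfl
      rw [e1, eval_mul]
      exact hmul _ _ (e 0 (by decide)) (e 2 (by decide))
    · have e1 : KP D G0 G1 3 2 = G0 * G1 := rfl
      rw [e1, eval_mul]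
      exact hmul _ _ (e 0 (by decide)) (e 1 (by decide))

lemma jac_congr {p : ℕ} {a b : ℤ} (h : (p : ℤ) ∣ a - b) : jacobiSym a p = jacobiSym b p := by
  rw [jacobiSym.mod_left, jacobiSym.mod_left b]
  congr 1
  exact ((Int.modEq_iff_dvd.2 (by rwa [← dvd_neg, neg_sub] : (p : ℤ) ∣ b - a)))

lemma jac_sq {p : ℕ} (hp : p.Prime) {a b : ℤ} (ha : ¬ (p : ℤ) ∣ a) (h : (p : ℤ) ∣ a - b) :
    jacobiSym (a * b) p = 1 := by
  have hpi : Prime (p : ℤ) := Nat.prime_iff_prime_int.1 hp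
  have h1 : jacobiSym (a * b) p = jacobiSym (a ^ 2) p := by
    apply jac_congr
    have e : a * b - a ^ 2 = -(a * (a - b)) := by ring
    rw [e, dvd_neg]
    exact h.mul_left _
  rw [h1]
  apply jacobiSym.sq_one'
  rw [← Int.isCoprime_iff_gcd_eq_one]
  exact IsCoprime.symm ((Prime.coprime_iff_not_dvd hpi).2 ha)

end Run7.h69.FM
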