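import Mathlib
import Pool.Agent.Run7.h69.LD

/-!
# The rank is bounded by the local count
-/

set_option autoImplicit false
set_option linter.unusedSectionVars false

namespace Run7.h69.FM

open Finset Polynomial
open Pool.Agent.W262.RK hiding lk ff s1 s2

variable {D G0 G1 : ℤ[X]} {z : ℕ}

lemma dvd_ev {p : ℕ} {t r : ℤ} (h : (p : ℤ) ∣ t - r) (A : ℤ[X]) : (p : ℤ) ∣ A.eval t - A.eval r :=
  h.trans (sub_dvd_eval_sub t r A)

/-- the local hypotheses hold -/
lemma locH (hz : Gd (PQ D G0 G1) z) {p : ℕ} (hp : p.Prime) (hpz : z < p) {t r : ℤ}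
    (hr : (p : ℤ) ∣ t - r) (h1 : (p : ℤ) ∣ (PQ D G0 G1).eval t)
    (h2 : ¬ (p : ℤ) ^ 2 ∣ (PQ D G0 G1).eval t) {neg : Bool}
    (hneg : neg = true ↔ jacobiSym ((PQ D G0 G1).eval t / p) p = -1) :
    LocH (cl D G0 G1 p r) (fun k => (KP D G0 G1 (cl D G0 G1 p r) k).eval r) neg p
      ((D * G0).eval t) ((D * G1).eval t) := by
  have hpi : Prime (p : ℤ) := Nat.prime_iff_prime_int.1 hp
  have hp0 : (p : ℤ) ≠ 0 := hpi.ne_zero
  have hmul : ∀ a b : ℤ, ¬ (p : ℤ) ∣ a → ¬ (p : ℤ) ∣ b → ¬ (p : ℤ) ∣ a * b := fun a b ha hb hab =>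
    (hpi.dvd_or_dvd hab).elim ha hb
  have hcl : cl D G0 G1 p t = cl D G0 G1 p r := cl_congr hr
  have hd := cl_dvd hp h1
  have hex := excl hz hp hpz (t := t) (cl D G0 G1 p t)
  rw [hcl] at hd hex
  have hne : ∀ c' : Fin 4, cl D G0 G1 p r ≠ c' → ¬ (p : ℤ) ∣ (GG D G0 G1 c').eval t :=
    fun c' hc => hex c' hc hd
  clear hex
  -- squares
  have hsq : ∀ A : ℤ[X], A ∣ PQ D G0 G1 → ¬ (p : ℤ) ^ 2 ∣ A.eval t := by
    rintro A ⟨q, hq⟩ h
    apply h2
    rw [hq, eval_mul]
    exact h.mul_right _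
  have hsub : (D * G0).eval t - (D * G1).eval t = (D * (G0 - G1)).eval t := by
    rw [← eval_sub]
    congr 1
    ring
  have d0 : D * G0 ∣ PQ D G0 G1 := ⟨G1 * (G0 - G1), by unfold PQ; ring⟩
  have d1 : D * G1 ∣ PQ D G0 G1 := ⟨G0 * (G0 - G1), by unfold PQ; ring⟩
  have d2 : D * (G0 - G1) ∣ PQ D G0 G1 := ⟨G0 * G1, by unfold PQ; ring⟩
  generalize hc : cl D G0 G1 p r = c at *
  clear hcl
  have key : c = 0 ∨ c = 1 ∨ c = 2 ∨ c = 3 := by
    revert c
    exact fun c => fin4 (fun c => _ → _ → _ → c = 0 ∨ c = 1 ∨ c = 2 ∨ c = 3)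
      (fun _ _ _ => by simp) (fun _ _ _ => by simp) (fun _ _ _ => by simp)
      (fun _ _ _ => by simp) c
  rcases key with h | h | h | h <;> subst h
  · unfold LocH
    rw [if_pos rfl]
    have e1 : ∀ k, KP D G0 G1 0 k = -(D * G1) := fun _ => rfl
    have hB : ¬ (p : ℤ) ∣ (D * G1).eval t := by
      rw [eval_mul]
      exact hmul _ _ (hne 3 (by decide)) (hne 1 (by decide))
    refine ⟨by rw [eval_mul]; exact hd.mul_left _, hsq _ d0, hB, ?_⟩
    simp only [e1]
    rw [mul_comm]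
    refine jac_sq hp (by rwa [dvd_neg]) ?_
    rw [← eval_neg]
    exact dvd_ev hr _
  · unfold LocH
    rw [if_neg (by decide), if_pos rfl]
    have e1 : ∀ k, KP D G0 G1 1 k = -(D * G0) := fun _ => rfl
    have hB : ¬ (p : ℤ) ∣ (D * G0).eval t := by
      rw [eval_mul]
      exact hmul _ _ (hne 3 (by decide)) (hne 0 (by decide))
    refine ⟨by rw [eval_mul]; exact hd.mul_left _, hsq _ d1, hB, ?_⟩
    simp only [e1]
    rw [mul_comm]
    refine jac_sq hp (by rwa [dvd_neg]) ?_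
    rw [← eval_neg]
    exact dvd_ev hr _
  · unfold LocH
    rw [if_neg (by decide), if_neg (by decide), if_pos rfl]
    have e1 : ∀ k, KP D G0 G1 2 k = D * G0 := fun _ => rfl
    have hB : ¬ (p : ℤ) ∣ (D * G0).eval t := by
      rw [eval_mul]
      exact hmul _ _ (hne 3 (by decide)) (hne 0 (by decide))
    rw [hsub]
    refine ⟨by rw [eval_mul]; exact hd.mul_left _, hsq _ d2, hB, ?_⟩
    simp only [e1]
    rw [mul_comm]
    exact jac_sq hp hB (dvd_ev hr _)
  · unfold LocH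
    rw [if_neg (by decide), if_neg (by decide), if_neg (by decide), hsub]
    rw [GG3] at hd
    obtain ⟨q, hq⟩ := hd
    have hd : (p : ℤ) ∣ D.eval t := ⟨q, hq⟩
    have hdiv : ∀ A : ℤ[X], (D * A).eval t / p = q * A.eval t := by
      intro A
      rw [eval_mul, hq, mul_assoc, Int.mul_ediv_cancel_left _ hp0]
    have hP : (PQ D G0 G1).eval t / p = q * (G0.eval t * (G1.eval t * (G0 - G1).eval t)) := by
      rw [PQ_eval, hq, mul_assoc, Int.mul_ediv_cancel_left _ hp0]
    have hnq : ¬ (p : ℤ) ∣ q := by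
      rintro ⟨q', hq'⟩
      apply h2
      rw [PQ_eval, hq, hq']
      exact ⟨q' * (G0.eval t * (G1.eval t * (G0 - G1).eval t)), by ring⟩
    have hn0 : ¬ (p : ℤ) ∣ G0.eval t := hne 0 (by decide)
    have hn1 : ¬ (p : ℤ) ∣ G1.eval t := hne 1 (by decide)
    have hn2 : ¬ (p : ℤ) ∣ (G0 - G1).eval t := hne 2 (by decide)
    have hnP : ¬ (p : ℤ) ∣ q * (G0.eval t * (G1.eval t * (G0 - G1).eval t)) :=
      hmul _ _ hnq (hmul _ _ hn0 (hmul _ _ hn1 hn2))
    have hJ : jacobiSym (q * (G0.eval t * (G1.eval t * (G0 - G1).eval t))) p =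
        if neg = true then -1 else 1 := by
      rw [hP] at hneg
      split_ifs with h5
      · exact hneg.1 h5
      · have h6 := fun h7 => h5 (hneg.2 h7)
        have h7 : (q * (G0.eval t * (G1.eval t * (G0 - G1).eval t))).gcd p = 1 := by
          rw [← Int.isCoprime_iff_gcd_eq_one]
          exact IsCoprime.symm ((Prime.coprime_iff_not_dvd hpi).2 hnP)
        rcases jacobiSym.eq_one_or_neg_one h7 with h8 | h8
        · exact h8
        · exact absurd h8 h6
    have hfin : ∀ (K A : ℤ[X]), K * A = G0 * (G1 * (G0 - G1)) →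
        jacobiSym (K.eval r * ((D * A).eval t / p)) p = if neg = true then -1 else 1 := by
      intro K A hKA
      rw [← hJ, hdiv]
      apply jac_congr
      have e2 : G0.eval t * (G1.eval t * (G0 - G1).eval t) = K.eval t * A.eval t := by
        rw [← eval_mul, ← eval_mul, ← eval_mul, hKA]
      rw [e2]
      have e3 : K.eval r * (q * A.eval t) - q * (K.eval t * A.eval t) =
          -(q * A.eval t * (K.eval t - K.eval r)) := by ring
      rw [e3, dvd_neg]
      exact (dvd_ev hr K).mul_left _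
    refine ⟨?_, ?_, hsq _ d0, hsq _ d1, hsq _ d2, ?_, ?_, ?_⟩
    · rw [eval_mul]
      exact hd.mul_right _
    · rw [eval_mul]
      exact hd.mul_right _
    · exact hfin (G1 * (G0 - G1)) G0 (by ring)
    · exact hfin (G0 * (G0 - G1)) G1 (by ring)
    · exact hfin (G0 * G1) (G0 - G1) (by ring)

/-- the number of the bad primes -/
lemma bad (hz : 2 ≤ z) {t : ℤ} {y N : ℕ} (hy : 1 ≤ y)
    (h0 : (PQ D G0 G1).eval t ≠ 0) (hN : ((PQ D G0 G1).eval t).natAbs < (y + 1) ^ N) :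
    ((2 * ((D * G0).eval t) * ((D * G1).eval t) *
      ((D * G0).eval t - (D * G1).eval t)).natAbs.primeFactors.filter
        (fun q => ¬ q ∣ t1 (PQ D G0 G1) z y t)).card ≤
      z + N + (t2 (PQ D G0 G1) z y t).primeFactors.card := by
  set P := PQ D G0 G1 with hPdef
  have hsub : ((2 * ((D * G0).eval t) * ((D * G1).eval t) *
      ((D * G0).eval t - (D * G1).eval t)).natAbs.primeFactors.filter
      (fun q => ¬ q ∣ t1 P z y t)) ⊆
      ((Icc 1 z) ∪ (P.eval t).natAbs.primeFactors.filter (y < ·)) ∪ (t2 P z y t).primeFactors := by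
    intro q hq
    rw [mem_filter] at hq
    have hp := Nat.prime_of_mem_primeFactors hq.1
    have hdv := Nat.dvd_of_mem_primeFactors hq.1
    rw [mem_union, mem_union, mem_Icc]
    rcases Nat.lt_or_ge z q with h | h
    swap
    · exact Or.inl (Or.inl ⟨hp.one_lt.le, h⟩)
    · have hqi : Prime (q : ℤ) := Nat.prime_iff_prime_int.1 hp
      have hdv2 : (q : ℤ) ∣ 2 * (D.eval t) ^ 2 * P.eval t := by
        have h1 : (q : ℤ) ∣ 2 * ((D * G0).eval t) * ((D * G1).eval t) *
          ((D * G0).eval t - (D * G1).eval t) := Int.natCast_dvd.2 hdv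
        have e : 2 * ((D * G0).eval t) * ((D * G1).eval t) *
            ((D * G0).eval t - (D * G1).eval t) = 2 * (D.eval t) ^ 2 * P.eval t := by
          rw [hPdef, PQ_eval, eval_mul, eval_mul, eval_sub]
          ring
        rwa [e] at h1
      have hqF : (q : ℤ) ∣ P.eval t := by
        rcases hqi.dvd_or_dvd hdv2 with h1 | h1
        · rcases hqi.dvd_or_dvd h1 with h2 | h2
          · exfalso
            have := Int.le_of_dvd (by norm_num) h2
            omega
          · have h3 := hqi.dvd_of_dvd_pow h2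
            rw [hPdef, PQ_eval]
            exact h3.mul_right _
        · exact h1
      rcases Nat.lt_or_ge y q with hyq | hyq
      · left; right
        rw [mem_filter, Nat.mem_primeFactors]
        exact ⟨⟨hp, Int.natCast_dvd.1 hqF, Int.natAbs_ne_zero.2 h0⟩, hyq⟩
      · right
        have hPS : q ∈ PS z y := mem_PS.2 ⟨⟨h, hyq⟩, hp⟩
        have hsq : (q : ℤ) ^ 2 ∣ P.eval t := by
          by_contra hcon
          exact hq.2 ((CN.dvd_t1 hp).2 ⟨hPS, hqF, hcon⟩)
        rw [Nat.mem_primeFactors]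
        refine ⟨hp, (CN.dvd_t2 hp).2 ⟨hPS, hsq⟩, ?_⟩
        exact Nat.one_le_iff_ne_zero.1 (NX.dpos (NX.t2_dvd z y t))
  have hone : ((P.eval t).natAbs.primeFactors.filter (y < ·)).card ≤ N := by
    set S := (P.eval t).natAbs.primeFactors.filter (y < ·) with hS
    have h1 : (y + 1) ^ S.card ≤ ∏ q ∈ S, q :=
      Finset.pow_card_le_prod _ _ _ (fun q hq => by
        have := (mem_filter.1 hq).2
        omega)
    have h2 : ∏ q ∈ S, q ∣ (P.eval t).natAbs :=
      (prod_dvd_prod_of_subset _ _ _ (filter_subset _ _)).trans (Nat.prod_primeFactors_dvd _)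
    have h3 : ∏ q ∈ S, q ≤ (P.eval t).natAbs :=
      Nat.le_of_dvd (Nat.pos_of_ne_zero (Int.natAbs_ne_zero.2 h0)) h2
    have h4 : (y + 1) ^ S.card < (y + 1) ^ N := (h1.trans h3).trans_lt hN
    exact ((Nat.pow_lt_pow_iff_right (by omega)).1 h4).le
  refine (card_le_card hsub).trans ((card_union_le _ _).trans (add_le_add
    ((card_union_le _ _).trans (add_le_add ?_ hone)) le_rfl))
  simp

/-- the type of `t` -/
noncomputable def ty (f : ℤ[X]) (t : ℤ) (s p : ℕ) : ℕ × Bool :=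
  ((t % (p : ℤ)).toNat, decide (p ∈ ng f t s))

lemma emod_nat {p : ℕ} (hp : p.Prime) (t : ℤ) : (p : ℤ) ∣ t - (((t % (p : ℤ)).toNat : ℕ) : ℤ) := by
  have hpos : (0 : ℤ) < p := by exact_mod_cast hp.pos
  rw [Int.toNat_of_nonneg (Int.emod_nonneg t hpos.ne')]
  exact ⟨t / p, by have := Int.emod_add_mul_ediv t p; linarith⟩

/-- the conditions are subgroups -/
lemma xcl (hz : Gd (PQ D G0 G1) z) (τ : ℕ → ℕ × Bool) {p : ℕ} (hp : p.Prime) (hpz : z < p)
    (h : (p : ℤ) ∣ (PQ D G0 G1).eval ((τ p).1 : ℤ)) : XC (LT D G0 G1 τ p) := by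
  have := hz.big
  exact Pool.Agent.W342.RK2.xcl _ _ _ p hp (by omega) (KP_ndvd hz hp hpz h)

/-- the rank is bounded by the local count -/
lemma rank (hz : Gd (PQ D G0 G1) z) {t : ℤ} {y N : ℕ} (hy : 1 ≤ y)
    (h0 : (PQ D G0 G1).eval t ≠ 0) (hN : ((PQ D G0 G1).eval t).natAbs < (y + 1) ^ N) :
    2 ^ Module.finrank ℤ (EAB ((D * G0).eval t) ((D * G1).eval t)).toAffine.Point ≤
      4 ^ (z + 2) * 4 ^ N * 4 ^ ((t2 (PQ D G0 G1) z y t).primeFactors.card) *
        NL (t1 (PQ D G0 G1) z y t) (LT D G0 G1 (ty (PQ D G0 G1) t (t1 (PQ D G0 G1) z y t))) := by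
  set P := PQ D G0 G1 with hPdef
  set s := t1 P z y t with hs
  have hz2 : 2 ≤ z := by have := hz.big; omega
  have hsd : s ∣ PP z y := NX.t1_dvd z y t
  have hs0 : s ≠ 0 := Nat.one_le_iff_ne_zero.1 (NX.dpos hsd)
  have hodd : ∀ p : ℕ, p.Prime → p ∣ s → p ≠ 2 := by
    intro p hp h
    have h1 := (RK.t1_pf hp h).1
    omega
  have hPne : D.eval t ≠ 0 ∧ G0.eval t ≠ 0 ∧ G1.eval t ≠ 0 ∧ (G0 - G1).eval t ≠ 0 := by
    rw [hPdef, PQ_eval] at h0
    refine ⟨left_ne_zero_of_mul h0, left_ne_zero_of_mul (right_ne_zero_of_mul h0),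
      left_ne_zero_of_mul (right_ne_zero_of_mul (right_ne_zero_of_mul h0)),
      right_ne_zero_of_mul (right_ne_zero_of_mul (right_ne_zero_of_mul h0))⟩
  have hAB : (D * G0).eval t ≠ (D * G1).eval t := by
    rw [← sub_ne_zero]
    have e : (D * G0).eval t - (D * G1).eval t = D.eval t * (G0 - G1).eval t := by
      rw [eval_mul, eval_mul, eval_sub]
      ring
    rw [e]
    exact mul_ne_zero hPne.1 hPne.2.2.2
  have hroot : ∀ p : ℕ, p.Prime → p ∣ s → (p : ℤ) ∣ P.eval ((ty P t s p).1 : ℤ) := by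
    intro p hp h
    have h1 := (RK.t1_pf hp h).2.1
    exact (dvd_sub_right h1).1 (dvd_ev (emod_nat hp t) P)
  have hd := Pool.Agent.W214.RK2.desc4 s (LT D G0 G1 (ty P t s)) ((D * G0).eval t)
    ((D * G1).eval t) (by rw [eval_mul]; exact mul_ne_zero hPne.1 hPne.2.1)
    (by rw [eval_mul]; exact mul_ne_zero hPne.1 hPne.2.2.1) hAB
    (by
      rw [← Nat.not_even_iff_odd, even_iff_two_dvd]
      intro h
      exact hodd 2 Nat.prime_two h rfl)
    ((PP_squarefree z y).squarefree_of_dvd hsd)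
    (fun p hp hpd => xcl hz _ hp (RK.t1_pf hp hpd).1 (hroot p hp hpd))
    (fun p hpf hpd x x' hx' hcurve e1 e2 he1 he2 hsq1 hsq2 => by
      have hpp : p.Prime := Fact.out
      obtain ⟨hzp, h1, h2⟩ := RK.t1_pf hpp hpd
      refine Pool.Agent.W342.RK2.locl _ _ _ p _ _ (hodd p hpp hpd)
        (KP_ndvd hz hpp hzp (hroot p hpp hpd))
        (locH hz hpp hzp (emod_nat hpp t) h1 h2 ?_)
        x x' hx' hcurve e1 e2 he1 he2 hsq1 hsq2
      unfold ty ng
      simp only [decide_eq_true_eq]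
      rw [mem_filter, Nat.mem_primeFactors]
      exact ⟨fun h => h.2, fun h => ⟨⟨hpp, hpd, hs0⟩, h⟩⟩)
  refine hd.trans (Nat.mul_le_mul_right _ ?_)
  have hc := bad (D := D) (G0 := G0) (G1 := G1) (t := t) hz2 hy h0 hN
  rw [← hPdef, ← hs] at hc
  calc _ ≤ 4 ^ ((z + 2) + N + (t2 P z y t).primeFactors.card) :=
        Nat.pow_le_pow_right (by norm_num) (by omega)
    _ = _ := by rw [pow_add, pow_add]

end Run7.h69.FM
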