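import Mathlib
import Pool.Agent.Run7.h69.LD2

/-!
# The averages over the types
-/

set_option autoImplicit false
set_option linter.unusedSectionVars false

namespace Run7.h69.FM

open Finset Polynomial
open Pool.Agent.W262.RK hiding lk ff s1 s2
open Pool.Agent.W125.RK2 (NL_congr sub4)

variable {D G0 G1 : ℤ[X]} {z : ℕ}

/-- the types at a prime -/
noncomputable def Ty (D G0 G1 : ℤ[X]) (p : ℕ) : Finset (ℕ × Bool) :=
  CN.Rt (PQ D G0 G1) p ×ˢ (univ : Finset Bool)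

/-- the types at the primes of `s` -/
noncomputable def TS (D G0 G1 : ℤ[X]) (s : ℕ) : Finset (s.primeFactors → ℕ × Bool) :=
  Fintype.piFinset (fun p => Ty D G0 G1 p.1)

/-- the extension to all the primes -/
noncomputable def ex (s : ℕ) (τ : s.primeFactors → ℕ × Bool) (p : ℕ) : ℕ × Bool :=
  if h : p ∈ s.primeFactors then τ ⟨p, h⟩ else (0, false)

/-- the average over the types -/
noncomputable def GS (D G0 G1 : ℤ[X]) (δ : ℝ) (s : ℕ) : ℝ :=
  (∏ p ∈ s.primeFactors, 1 / (2 * (rho (PQ D G0 G1) p : ℝ))) *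
    ∑ τ ∈ TS D G0 G1 s, (NL s (LT D G0 G1 (ex s τ)) : ℝ) ^ δ

lemma card_Ty (p : ℕ) : (Ty D G0 G1 p).card = 2 * rho (PQ D G0 G1) p := by
  unfold Ty
  rw [card_product, CN.card_Rt, card_univ, Fintype.card_bool, mul_comm]

lemma GS_nonneg (δ : ℝ) (s : ℕ) : 0 ≤ GS D G0 G1 δ s := by
  unfold GS
  positivity

lemma card_TS (s : ℕ) : ((TS D G0 G1 s).card : ℝ) =
    ∏ p ∈ s.primeFactors, (2 * (rho (PQ D G0 G1) p : ℝ)) := by
  unfold TS
  rw [Fintype.card_piFinset]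
  have h0 : ∏ p : s.primeFactors, (Ty D G0 G1 p.1).card =
      ∏ p ∈ s.primeFactors, (Ty D G0 G1 p).card :=
    prod_coe_sort s.primeFactors (fun p => (Ty D G0 G1 p).card)
  rw [h0, Nat.cast_prod]
  refine prod_congr rfl fun p _ => ?_
  rw [card_Ty]
  push_cast
  rfl

lemma ex_root {s : ℕ} {τ : s.primeFactors → ℕ × Bool} (hτ : τ ∈ TS D G0 G1 s) {p : ℕ}
    (hp : p ∈ s.primeFactors) :
    (ex s τ p).1 ∈ CN.Rt (PQ D G0 G1) p := by
  unfold TS at hτ
  rw [Fintype.mem_piFinset] at hτ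
  have h := hτ ⟨p, hp⟩
  unfold Ty at h
  rw [mem_product] at h
  unfold ex
  rw [dif_pos hp]
  exact h.1

lemma Rt_dvd {f : ℤ[X]} {p r : ℕ} (h : r ∈ CN.Rt f p) : (p : ℤ) ∣ f.eval (r : ℤ) := by
  unfold CN.Rt at h
  exact (mem_filter.1 h).2

/-- submultiplicativity -/
theorem subG {δ : ℝ} (hδ0 : 0 ≤ δ) (hδ1 : δ ≤ 1) (hz : Gd (PQ D G0 G1) z) {y s e : ℕ}
    (h : s * e ∣ PP z y) :
    GS D G0 G1 δ (s * e) ≤ 4 ^ e.primeFactors.card * GS D G0 G1 δ s := by
  classical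
  have hse : s * e ∈ (PP z y).divisors := Nat.mem_divisors.2 ⟨h, PP_ne_zero z y⟩
  have hsq := dv_squarefree hse
  have hcop := Nat.coprime_of_squarefree_mul hsq
  have hdis : Disjoint s.primeFactors e.primeFactors := hcop.disjoint_primeFactors
  have hpf : (s * e).primeFactors = s.primeFactors ∪ e.primeFactors := hcop.primeFactors_mul
  have hs : s.primeFactors ⊆ (s * e).primeFactors := by rw [hpf]; exact subset_union_left
  have he : e.primeFactors ⊆ (s * e).primeFactors := by rw [hpf]; exact subset_union_right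
  set rs : ((s * e).primeFactors → ℕ × Bool) → (s.primeFactors → ℕ × Bool) :=
    fun τ p => τ ⟨p.1, hs p.2⟩ with hrs
  set re : ((s * e).primeFactors → ℕ × Bool) → (e.primeFactors → ℕ × Bool) :=
    fun τ p => τ ⟨p.1, he p.2⟩ with hre
  set F : (s.primeFactors → ℕ × Bool) → ℝ := fun σ => (NL s (LT D G0 G1 (ex s σ)) : ℝ) ^ δ with hF
  have hF0 : ∀ σ, 0 ≤ F σ := fun σ => by rw [hF]; positivity
  have h1 : ∀ τ ∈ TS D G0 G1 (s * e), (NL (s * e) (LT D G0 G1 (ex (s * e) τ)) : ℝ) ^ δ ≤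
      4 ^ e.primeFactors.card * F (rs τ) := by
    intro τ hτ
    have h2 := sub4 s e (LT D G0 G1 (ex (s * e) τ)) hsq (fun p hp hps => by
      have hpm : p ∈ (s * e).primeFactors := Nat.mem_primeFactors.2
        ⟨hp, hps.mul_right _, hsq.ne_zero⟩
      exact xcl hz _ hp (dv_prime hse hp (hps.mul_right _)).1 (Rt_dvd (ex_root hτ hpm)))
    have h3 : NL s (LT D G0 G1 (ex (s * e) τ)) = NL s (LT D G0 G1 (ex s (rs τ))) := by
      apply NL_congr
      intro p hp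
      have h4 : ex (s * e) τ p = ex s (rs τ) p := by
        unfold ex
        rw [dif_pos (hs hp), dif_pos hp]
      unfold LT
      rw [h4]
    rw [h3] at h2
    have h5 : (NL (s * e) (LT D G0 G1 (ex (s * e) τ)) : ℝ) ≤
        4 ^ e.primeFactors.card * (NL s (LT D G0 G1 (ex s (rs τ))) : ℝ) := by exact_mod_cast h2
    calc (NL (s * e) (LT D G0 G1 (ex (s * e) τ)) : ℝ) ^ δ
        ≤ (4 ^ e.primeFactors.card * (NL s (LT D G0 G1 (ex s (rs τ))) : ℝ)) ^ δ :=
          Real.rpow_le_rpow (Nat.cast_nonneg _) h5 hδ0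
      _ = ((4 : ℝ) ^ e.primeFactors.card) ^ δ * F (rs τ) := by
          rw [Real.mul_rpow (by positivity) (Nat.cast_nonneg _)]
      _ ≤ 4 ^ e.primeFactors.card * F (rs τ) := by
          refine mul_le_mul_of_nonneg_right ?_ (hF0 _)
          calc ((4 : ℝ) ^ e.primeFactors.card) ^ δ ≤ ((4 : ℝ) ^ e.primeFactors.card) ^ (1 : ℝ) :=
                Real.rpow_le_rpow_of_exponent_le (one_le_pow₀ (by norm_num)) hδ1
            _ = _ := Real.rpow_one _
  have h2 : ∑ τ ∈ TS D G0 G1 (s * e), F (rs τ) ≤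
      ((TS D G0 G1 e).card : ℝ) * ∑ σ ∈ TS D G0 G1 s, F σ := by
    have hinj : ∀ τ ∈ TS D G0 G1 (s * e), ∀ τ' ∈ TS D G0 G1 (s * e),
        (rs τ, re τ) = (rs τ', re τ') → τ = τ' := by
      intro τ _ τ' _ heq
      have e1 : rs τ = rs τ' := congrArg Prod.fst heq
      have e2 : re τ = re τ' := congrArg Prod.snd heq
      funext p
      have hp : p.1 ∈ s.primeFactors ∪ e.primeFactors := hpf ▸ p.2
      rw [mem_union] at hp
      rcases hp with hp | hp
      · exact congrFun e1 ⟨p.1, hp⟩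
      · exact congrFun e2 ⟨p.1, hp⟩
    have himg : (TS D G0 G1 (s * e)).image (fun τ => (rs τ, re τ)) ⊆
        (TS D G0 G1 s) ×ˢ (TS D G0 G1 e) := by
      intro x hx
      rw [mem_image] at hx
      obtain ⟨τ, hτ, rfl⟩ := hx
      unfold TS at hτ ⊢
      rw [Fintype.mem_piFinset] at hτ
      rw [mem_product, Fintype.mem_piFinset, Fintype.mem_piFinset]
      exact ⟨fun p => hτ ⟨p.1, hs p.2⟩, fun p => hτ ⟨p.1, he p.2⟩⟩
    calc ∑ τ ∈ TS D G0 G1 (s * e), F (rs τ)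
        = ∑ x ∈ (TS D G0 G1 (s * e)).image (fun τ => (rs τ, re τ)), F x.1 := by
          rw [sum_image hinj]
      _ ≤ ∑ x ∈ (TS D G0 G1 s) ×ˢ (TS D G0 G1 e), F x.1 :=
          sum_le_sum_of_subset_of_nonneg himg fun x _ _ => hF0 _
      _ = _ := by
          rw [sum_product]
          simp only [sum_const, nsmul_eq_mul]
          rw [mul_sum]
  have h3 : (∏ p ∈ e.primeFactors, 1 / (2 * (rho (PQ D G0 G1) p : ℝ))) *
      ((TS D G0 G1 e).card : ℝ) ≤ 1 := by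
    rw [card_TS, ← prod_mul_distrib]
    refine prod_le_one (fun p _ => by positivity) fun p _ => ?_
    rcases eq_or_ne (2 * (rho (PQ D G0 G1) p : ℝ)) 0 with h0 | h0
    · rw [h0]; norm_num
    · rw [one_div, inv_mul_cancel₀ h0]
  have h4 : 0 ≤ ∑ σ ∈ TS D G0 G1 s, F σ := sum_nonneg fun σ _ => hF0 σ
  have h5 : 0 ≤ ∏ p ∈ s.primeFactors, 1 / (2 * (rho (PQ D G0 G1) p : ℝ)) :=
    prod_nonneg fun p _ => by positivity
  have h6 : 0 ≤ ∏ p ∈ e.primeFactors, 1 / (2 * (rho (PQ D G0 G1) p : ℝ)) :=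
    prod_nonneg fun p _ => by positivity
  have h7 : ∏ p ∈ (s * e).primeFactors, 1 / (2 * (rho (PQ D G0 G1) p : ℝ)) =
      (∏ p ∈ s.primeFactors, 1 / (2 * (rho (PQ D G0 G1) p : ℝ))) *
        (∏ p ∈ e.primeFactors, 1 / (2 * (rho (PQ D G0 G1) p : ℝ))) := by
    rw [hpf, prod_union hdis]
  unfold GS
  rw [h7]
  calc (∏ p ∈ s.primeFactors, 1 / (2 * (rho (PQ D G0 G1) p : ℝ))) *
        (∏ p ∈ e.primeFactors, 1 / (2 * (rho (PQ D G0 G1) p : ℝ))) *
        ∑ τ ∈ TS D G0 G1 (s * e), (NL (s * e) (LT D G0 G1 (ex (s * e) τ)) : ℝ) ^ δ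
      ≤ (∏ p ∈ s.primeFactors, 1 / (2 * (rho (PQ D G0 G1) p : ℝ))) *
        (∏ p ∈ e.primeFactors, 1 / (2 * (rho (PQ D G0 G1) p : ℝ))) *
        (4 ^ e.primeFactors.card * (((TS D G0 G1 e).card : ℝ) * ∑ σ ∈ TS D G0 G1 s, F σ)) := by
        refine mul_le_mul_of_nonneg_left ?_ (mul_nonneg h5 h6)
        refine (sum_le_sum h1).trans ?_
        rw [← mul_sum]
        exact mul_le_mul_of_nonneg_left h2 (by positivity)
    _ = ((∏ p ∈ e.primeFactors, 1 / (2 * (rho (PQ D G0 G1) p : ℝ))) *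
        ((TS D G0 G1 e).card : ℝ)) * (4 ^ e.primeFactors.card *
          ((∏ p ∈ s.primeFactors, 1 / (2 * (rho (PQ D G0 G1) p : ℝ))) *
            ∑ σ ∈ TS D G0 G1 s, F σ)) := by ring
    _ ≤ 1 * (4 ^ e.primeFactors.card *
          ((∏ p ∈ s.primeFactors, 1 / (2 * (rho (PQ D G0 G1) p : ℝ))) *
            ∑ σ ∈ TS D G0 G1 s, F σ)) := by
        refine mul_le_mul_of_nonneg_right h3 ?_
        positivity
    _ = _ := by rw [one_mul]

end Run7.h69.FM
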