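import Mathlib
import Pool.Agent.Run7.h69.BT1
import Pool.Agent.Run7.h69.XP2
import Pool.Agent.Run7.h69.EU
import Pool.Agent.W655.RK.Ep

/-! The abstract bound for linked variables, second version: several free variables that are not
linked with each other. -/

set_option autoImplicit false
set_option linter.unusedSectionVars false

namespace Run7.h69

open Finset
open Pool.Agent.W262.RK hiding LL ff s1 s2
open Pool.Agent.W262.RK.AT (VV YY VV_ge three_le_VV VV_le_YY one_le_log_VV VV_le log_YY_ge log_YY_le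
  log_VV_le log_VV_pow_le exp_neg_pow hh_mul_le hh_prod_le lk_primes squarefree_prod sum_others
  BW lg)
open Pool.Agent.W655.RK (PS_prime PS_lt PS_le prod_primes_squarefree sum_mult prod_le_exp
  sum_inv_sq chr chr_prod chr_abs exp_small)
open Pool.Agent.W762.RK2 (Pr sum_Tup Dl)
open Run7.h69.AT (gm_one gm_nonneg abs_gm_le gm_le k1 Jr_one_left HH total_eq HH_update one_le_log)

namespace BT

variable {ι : Type} [Fintype ι] [DecidableEq ι]

/-- decomposition into the coordinates outside and inside `A` -/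
lemma sum_mix (A : Finset ι) (t : ι → Finset ℕ) (F : (ι → ℕ) → ℝ) :
    ∑ d ∈ Fintype.piFinset t, F d =
      ∑ v ∈ Fintype.piFinset (fun k => if k ∈ A then {1} else t k),
        ∑ w ∈ Fintype.piFinset (fun k => if k ∈ A then t k else {1}), F (fun k => v k * w k) := by
  classical
  rw [← sum_product']
  refine sum_bij' (fun d _ => ((fun k => if k ∈ A then 1 else d k),
    (fun k => if k ∈ A then d k else 1))) (fun q _ => fun k => q.1 k * q.2 k) ?_ ?_ ?_ ?_ ?_
  · intro d hd
    rw [Fintype.mem_piFinset] at hd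
    rw [mem_product, Fintype.mem_piFinset, Fintype.mem_piFinset]
    constructor
    · intro k
      by_cases hk : k ∈ A <;> simp [hk, hd k]
    · intro k
      by_cases hk : k ∈ A <;> simp [hk, hd k]
  · rintro ⟨v, w⟩ hq
    rw [mem_product, Fintype.mem_piFinset, Fintype.mem_piFinset] at hq
    rw [Fintype.mem_piFinset]
    intro k
    have h1 := hq.1 k
    have h2 := hq.2 k
    simp only at h1 h2 ⊢
    by_cases hk : k ∈ A
    · simp only [hk, if_true, mem_singleton] at h1 h2
      rw [h1, one_mul]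
      exact h2
    · simp only [hk, if_false, mem_singleton] at h1 h2
      rw [h2, mul_one]
      exact h1
  · intro d _
    funext k
    by_cases hk : k ∈ A <;> simp [hk]
  · rintro ⟨v, w⟩ hq
    rw [mem_product, Fintype.mem_piFinset, Fintype.mem_piFinset] at hq
    refine Prod.ext (funext fun k => ?_) (funext fun k => ?_)
    · have h1 := hq.1 k
      have h2 := hq.2 k
      simp only at h1 h2 ⊢
      by_cases hk : k ∈ A
      · simp only [hk, if_true, mem_singleton] at h1 ⊢
        exact h1.symm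
      · simp only [hk, if_false, mem_singleton] at h2 ⊢
        rw [h2, mul_one]
    · have h1 := hq.1 k
      have h2 := hq.2 k
      simp only at h1 h2 ⊢
      by_cases hk : k ∈ A
      · simp only [hk, if_true, mem_singleton] at h1 ⊢
        rw [h1, one_mul]
      · simp only [hk, if_false, mem_singleton] at h2 ⊢
        exact h2.symm
  · intro d _
    congr 1
    funext k
    by_cases hk : k ∈ A <;> simp [hk]

lemma XX_one (L : ι → ι → Bool) (j : ι) (v : ι → ℕ) : XX L j v 1 = 1 := by
  unfold XX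
  refine prod_eq_one fun b _ => ?_
  have e1 : Jr ((1 : ℕ) : ℤ) (v b) = 1 := by simp [Jr]
  rw [e1, Jr_one_right]
  simp

/-- the symbols with the variables in `B` -/
lemma Sym_mix {L : ι → ι → Bool} (hL : ∀ i, L i i = false) {A : Finset ι}
    (hA : ∀ i ∈ A, ∀ j ∈ A, L i j = false) {v : ι → ℕ} (hv : ∀ k ∈ A, v k = 1) (w : ι → ℕ)
    (B : Finset ι) : B ⊆ A →
    Sym L k1 (fun k => if k ∈ B then w k else v k) =
      Sym L k1 v * ∏ j ∈ B, XX L j v (w j) := by
  classical
  induction B using Finset.induction_on with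
  | empty => intro _; simp
  | insert j s hj ih =>
    intro hs
    have hjA : j ∈ A := hs (mem_insert_self j s)
    have hsA : s ⊆ A := (subset_insert j s).trans hs
    set u : ι → ℕ := fun k => if k ∈ s then w k else v k with hu
    have e1 : (fun k => if k ∈ insert j s then w k else v k) = Function.update u j (w j) := by
      funext k
      by_cases hk : k = j
      · subst hk
        rw [Function.update_self, if_pos (mem_insert_self k s)]
      · rw [Function.update_of_ne hk, hu]
        simp [mem_insert, hk]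
    have e2 : u = Function.update u j 1 := by
      funext k
      by_cases hk : k = j
      · subst hk
        rw [Function.update_self, hu]
        simp [hj, hv k hjA]
      · rw [Function.update_of_ne hk]
    have hJ : ∀ m : ℕ, Jr (k1 j) m = 1 := fun m => Jr_one_left m
    have h1 : Sym L k1 u = RR L k1 j u := by
      conv_lhs => rw [e2]
      rw [sym_update L k1 j (hL j), XX_one, hJ, one_mul, one_mul]
    have h2 : XX L j u (w j) = XX L j v (w j) := by
      unfold XX
      refine prod_congr rfl fun b hb => ?_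
      by_cases hbs : b ∈ s
      · rw [hA j hjA b (hsA hbs), hA b (hsA hbs) j hjA]
        simp
      · rw [hu]
        simp [hbs]
    rw [e1, sym_update L k1 j (hL j), hJ, mul_one, h2, ← h1, ih hsA, prod_insert hj]
    ring

lemma cop_mix {A : Finset ι} {v w : ι → ℕ} (hv : ∀ k ∈ A, v k = 1) (hw : ∀ k, k ∉ A → w k = 1) :
    (∀ i j, i ≠ j → (v i * w i).Coprime (v j * w j)) ↔
      (∀ i j, i ≠ j → (v i).Coprime (v j)) ∧ (∀ i j, i ≠ j → (w i).Coprime (w j)) ∧
        ∀ j ∈ A, (w j).Coprime (∏ k, v k) := by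
  constructor
  · intro h
    refine ⟨fun i j hij => (h i j hij).coprime_mul_right.coprime_mul_right_right,
      fun i j hij => (h i j hij).coprime_mul_left.coprime_mul_left_right, fun j hj => ?_⟩
    rw [Nat.coprime_prod_right_iff]
    intro k _
    by_cases hk : j = k
    · subst hk
      rw [hv j hj]
      exact Nat.coprime_one_right _
    · exact (h j k hk).coprime_mul_left.coprime_mul_right_right
  · rintro ⟨h1, h2, h3⟩ i j hij
    have h4 : ∀ j k, (w j).Coprime (v k) := by
      intro j k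
      by_cases hj : j ∈ A
      · exact (Nat.coprime_prod_right_iff.1 (h3 j hj)) k (mem_univ k)
      · rw [hw j hj]
        exact Nat.coprime_one_left _
    exact Nat.Coprime.mul_left (Nat.Coprime.mul_right (h1 i j hij) (h4 j i).symm)
      (Nat.Coprime.mul_right (h4 i j) (h2 i j hij))

lemma gm_zero {d : ℕ} (hd : 1 < d) : gm (fun _ => 0) d = 0 := by
  unfold gm
  obtain ⟨p, hp, hpd⟩ := Nat.exists_prime_and_dvd (by omega : d ≠ 1)
  exact prod_eq_zero (Nat.mem_primeFactors.2 ⟨hp, hpd, by omega⟩) rfl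

lemma gm_phi (a : ℕ → ℝ) (r : ℕ) (x : Bool) (R : ℕ) {w : ℕ} (hw : Squarefree w) :
    gm (fun p => if p ∣ R then 0 else a p * chr 1 r x p) w =
      if w.Coprime R then gm a w * chr 1 r x w else 0 := by
  by_cases h : w.Coprime R
  · rw [if_pos h]
    have h1 : chr 1 r x w = ∏ p ∈ w.primeFactors, chr 1 r x p := by
      rw [← chr_prod 1 r x _ fun p hp => Nat.prime_of_mem_primeFactors hp,
        Nat.prod_primeFactors_of_squarefree hw]
    rw [h1]
    unfold gm
    rw [← prod_mul_distrib]
    refine prod_congr rfl fun p hp => ?_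
    beta_reduce
    rw [if_neg]
    intro hpR
    have h2 := Nat.dvd_gcd (Nat.dvd_of_mem_primeFactors hp) hpR
    rw [h.gcd_eq_one] at h2
    exact (Nat.prime_of_mem_primeFactors hp).one_lt.ne' (Nat.dvd_one.1 h2)
  · rw [if_neg h]
    obtain ⟨p, hp, h1, h2⟩ := Nat.Prime.not_coprime_iff_dvd.1 h
    unfold gm
    exact prod_eq_zero (Nat.mem_primeFactors.2 ⟨hp, h1, hw.ne_zero⟩) (if_pos h2)

/-- the Euler product -/
lemma sum_Tup_gm (φ : ι → ℕ → ℝ) (z y : ℕ) :
    ∑ w ∈ Tup ι z y, ∏ k, gm (φ k) (w k) = ∏ p ∈ PS z y, (1 + ∑ k, φ k p) := by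
  classical
  rw [sum_Tup]
  have h1 : ∀ l : Pr z y → Option ι, ∏ k, gm (φ k) (Dl l k) =
      ∏ p : Pr z y, (l p).elim 1 fun i => φ i p := fun l => XP.prod_gm φ l
  rw [sum_congr rfl fun l _ => h1 l]
  have h2 := Finset.prod_univ_sum (fun _ : Pr z y => (univ : Finset (Option ι)))
    (fun p x => x.elim 1 fun i => φ i (p : ℕ))
  rw [Fintype.piFinset_univ] at h2
  rw [← h2, ← prod_coe_sort (PS z y) (fun p => (1 + ∑ k, φ k p))]
  refine prod_congr rfl fun p _ => ?_
  rw [Fintype.sum_option]
  rfl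

/-- the local function -/
noncomputable def ph (A : Finset ι) (a : ι → ℕ → ℝ) (r : ι → ℕ) (x : ι → Bool) (R : ℕ) (k : ι)
    (p : ℕ) : ℝ :=
  if k ∈ A then (if p ∣ R then 0 else a k p * chr 1 (r k) (x k) p) else 0

/-- the hypothesis on the sums over the primes -/
def TT (a : ℕ → ℝ) (z : ℕ) (B0 C1 : ℝ) : Prop := ∀ (y r : ℕ) (x : Bool), z < y → 1 < r →
  Squarefree r → (∀ p : ℕ, p.Prime → p ∣ r → z < p) →
  ∑ p ∈ PS z y, a p * (Jr p r * x4 x p) ≤ B0 * Real.log (Real.log r) + C1

/-- the bound for the Euler product -/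
lemma pb {A : Finset ι} {a b : ι → ℕ → ℝ} {z : ℕ} (hz : 2 ≤ z) (hcard : A.card ≤ z)
    (hab : ∀ i, ∀ p : ℕ, p.Prime → z < p → |a i p| ≤ b i p)
    (hb1 : ∀ i, ∀ p : ℕ, p.Prime → z < p → b i p ≤ 1 / (p : ℝ)) {B : ℕ} {C1 : ℝ}
    (hT : ∀ i ∈ A, TT (a i) z B C1) {y R : ℕ} {r : ι → ℕ} {x : ι → Bool}
    (hy : z < y) (hR : R ≠ 0) (hr : ∀ i ∈ A, 1 < r i ∧ Squarefree (r i) ∧
      ∀ p : ℕ, p.Prime → p ∣ r i → z < p) {lam : ℝ} (hlam : ∀ i ∈ A, Real.log (r i) ≤ lam) :
    |∏ p ∈ PS z y, (1 + ∑ k, ph A a r x R k p)| ≤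
      (Real.exp C1 * (1 + lam) ^ B * hh R) ^ A.card := by
  classical
  have hp3 : ∀ p ∈ PS z y, (3 : ℝ) ≤ p := fun p hp => by
    have := PS_lt hp
    exact_mod_cast (by omega : 3 ≤ p)
  have hpa : ∀ i, ∀ p ∈ PS z y, |a i p * chr 1 (r i) (x i) p| ≤ 1 / (p : ℝ) := by
    intro i p hp
    have h1 := hab i p (PS_prime hp) (PS_lt hp)
    have h2 := hb1 i p (PS_prime hp) (PS_lt hp)
    rw [abs_mul]
    calc |a i p| * |chr 1 (r i) (x i) p| ≤ |a i p| * 1 :=
          mul_le_mul_of_nonneg_left (chr_abs _ _ _ _) (abs_nonneg _)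
      _ ≤ 1 / (p : ℝ) := by linarith
  have hph : ∀ k, ∀ p ∈ PS z y, |ph A a r x R k p| ≤ if k ∈ A then 1 / (p : ℝ) else 0 := by
    intro k p hp
    unfold ph
    by_cases hk : k ∈ A
    · rw [if_pos hk, if_pos hk]
      split_ifs
      · rw [abs_zero]; positivity
      · exact hpa k p hp
    · rw [if_neg hk, if_neg hk, abs_zero]
  have hfac : ∀ p ∈ PS z y, 0 ≤ 1 + ∑ k, ph A a r x R k p := by
    intro p hp
    have hp0 : (0 : ℝ) < p := by have := hp3 p hp; linarith
    have h1 : |∑ k, ph A a r x R k p| ≤ 1 := by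
      calc |∑ k, ph A a r x R k p| ≤ ∑ k, |ph A a r x R k p| := abs_sum_le_sum_abs _ _
        _ ≤ ∑ k, (if k ∈ A then 1 / (p : ℝ) else 0) := sum_le_sum fun k _ => hph k p hp
        _ = A.card * (1 / (p : ℝ)) := by
          rw [← sum_filter, sum_const, nsmul_eq_mul]
          congr 2
          congr 1
          ext k
          simp
        _ ≤ 1 := by
          rw [mul_one_div, div_le_one hp0]
          have := PS_lt hp
          exact_mod_cast (by omega : A.card ≤ p)
    have := (abs_le.1 h1).1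
    linarith
  rw [abs_of_nonneg (prod_nonneg hfac)]
  refine (prod_le_exp _ _ hfac).trans ?_
  have hhh : Real.exp (∑ p ∈ (PS z y).filter (fun p => p ∣ R), 1 / (p : ℝ)) ≤ hh R := by
    rw [Real.exp_sum]
    unfold hh
    have hsub : (PS z y).filter (fun p => p ∣ R) ⊆ R.primeFactors := by
      intro p hp
      rw [mem_filter] at hp
      exact Nat.mem_primeFactors.2 ⟨PS_prime hp.1, hp.2, hR⟩
    calc ∏ p ∈ (PS z y).filter (fun p => p ∣ R), Real.exp (1 / (p : ℝ))
        ≤ ∏ p ∈ (PS z y).filter (fun p => p ∣ R), (1 + 2 / (p : ℝ)) := by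
          refine Finset.prod_le_prod (fun p _ => (Real.exp_pos _).le) fun p hp => ?_
          have h1 := hp3 p (mem_filter.1 hp).1
          have hp0 : (0:ℝ) < p := by linarith
          have h2 : 1 / (p : ℝ) ≤ 1 / 2 := by
            rw [div_le_iff₀ hp0]
            linarith
          refine (exp_small _ (by positivity) h2).trans ?_
          have h4 : 2 / (p : ℝ) = 2 * (1 / p) := by ring
          rw [h4]
      _ ≤ ∏ p ∈ R.primeFactors, (1 + 2 / (p : ℝ)) := by
          refine Finset.prod_le_prod_of_subset_of_one_le hsub (fun p _ => by positivity)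
            fun p _ _ => ?_
          have : (0:ℝ) ≤ 2 / (p : ℝ) := by positivity
          linarith
  have hk : ∀ k ∈ A, ∑ p ∈ PS z y, ph A a r x R k p ≤ (B * Real.log (Real.log (r k)) + C1) +
      ∑ p ∈ (PS z y).filter (fun p => p ∣ R), 1 / (p : ℝ) := by
    intro k hkA
    obtain ⟨h1, h2, h3⟩ := hr k hkA
    have hub : ∑ p ∈ PS z y, a k p * chr 1 (r k) (x k) p ≤
        B * Real.log (Real.log (r k)) + C1 := by
      refine le_trans (le_of_eq ?_) (hT k hkA y (r k) (x k) hy h1 h2 h3)
      refine sum_congr rfl fun p _ => ?_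
      unfold chr
      rw [Jr_one_left, mul_one]
    have e1 : ∑ p ∈ PS z y, ph A a r x R k p = ∑ p ∈ (PS z y).filter (fun p => ¬ p ∣ R),
        a k p * chr 1 (r k) (x k) p := by
      rw [sum_filter]
      refine sum_congr rfl fun p _ => ?_
      unfold ph
      rw [if_pos hkA]
      by_cases hpR : p ∣ R <;> simp [hpR]
    have hsplit := Finset.sum_filter_add_sum_filter_not (PS z y) (fun p => p ∣ R)
      (fun p => a k p * chr 1 (r k) (x k) p)
    have h2 : -∑ p ∈ (PS z y).filter (fun p => p ∣ R), 1 / (p : ℝ) ≤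
        ∑ p ∈ (PS z y).filter (fun p => p ∣ R), a k p * chr 1 (r k) (x k) p := by
      rw [← Finset.sum_neg_distrib]
      exact Finset.sum_le_sum fun p hp => (abs_le.1 (hpa k p (mem_filter.1 hp).1)).1
    rw [e1]
    linarith
  have hsum : ∑ p ∈ PS z y, ∑ k, ph A a r x R k p = ∑ k ∈ A, ∑ p ∈ PS z y, ph A a r x R k p := by
    rw [sum_comm]
    symm
    apply sum_subset (subset_univ A)
    intro k _ hk
    refine sum_eq_zero fun p _ => ?_
    unfold ph
    rw [if_neg hk]
  rw [hsum, Real.exp_sum, ← prod_const]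
  refine prod_le_prod (fun k _ => (Real.exp_pos _).le) fun k hkA => ?_
  obtain ⟨h1, h2, h3⟩ := hr k hkA
  have hr3 : 3 ≤ r k := by
    obtain ⟨p, hp, hpr⟩ := Nat.exists_prime_and_dvd (by omega : r k ≠ 1)
    have h1 := h3 p hp hpr
    have h2 := Nat.le_of_dvd (by omega) hpr
    omega
  have hlr : 1 ≤ Real.log (r k) := Run7.h69.AT.log_ge1 hr3
  have hpow : Real.exp (B * Real.log (Real.log (r k))) ≤ (1 + lam) ^ B := by
    have e1 : Real.exp (B * Real.log (Real.log (r k))) = (Real.log (r k)) ^ B := by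
      rw [Real.exp_nat_mul, Real.exp_log (by linarith)]
    rw [e1]
    exact pow_le_pow_left₀ (by linarith) (by linarith [hlam k hkA]) B
  have hlam0 : 0 ≤ (1 + lam) ^ B := by
    have := hlam k hkA
    exact pow_nonneg (by linarith) _
  calc Real.exp (∑ p ∈ PS z y, ph A a r x R k p)
      ≤ Real.exp ((B * Real.log (Real.log (r k)) + C1) +
        ∑ p ∈ (PS z y).filter (fun p => p ∣ R), 1 / (p : ℝ)) := Real.exp_le_exp.2 (hk k hkA)
    _ = Real.exp C1 * Real.exp (B * Real.log (Real.log (r k))) *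
        Real.exp (∑ p ∈ (PS z y).filter (fun p => p ∣ R), 1 / (p : ℝ)) := by
        rw [← Real.exp_add, ← Real.exp_add]
        congr 1
        ring
    _ ≤ _ := by
        apply mul_le_mul _ hhh (Real.exp_pos _).le (mul_nonneg (Real.exp_pos _).le hlam0)
        exact mul_le_mul_of_nonneg_left hpow (Real.exp_pos _).le

variable {e : ι → ℝ} {a b : ι → ℕ → ℝ} {L : ι → ι → Bool} {z N : ℕ} {C : ℝ}

/-- the sum over the free variables for fixed other variables -/
lemma free_eq (hL : ∀ i, L i i = false) (hz : 2 ≤ z) {A : Finset ι}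
    (hA : ∀ i ∈ A, ∀ j ∈ A, L i j = false) {y : ℕ} {v : ι → ℕ}
    (hvd : ∀ k, v k ∈ (PP z y).divisors) (hv : ∀ k ∈ A, v k = 1) :
    ∃ x : ι → Bool, ∑ w ∈ Fintype.piFinset (fun k => if k ∈ A then (PP z y).divisors else {1}),
      HH a L (fun k => v k * w k) =
      HH a L v * ∏ p ∈ PS z y, (1 + ∑ k, ph A a (fun k => lk L k v) x (∏ k, v k) k p) := by
  classical
  choose x hx using fun k => XX_char L k v (fun k => dv_odd hz (hvd k))
  refine ⟨x, ?_⟩
  rw [← sum_Tup_gm, mul_sum]
  have hT : Tup ι z y ⊆ Fintype.piFinset (fun _ => (PP z y).divisors) := filter_subset _ _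
  set T' := (Tup ι z y).filter (fun w => ∀ k, k ∉ A → w k = 1) with hT'
  have h1 : ∑ w ∈ Tup ι z y, HH a L v *
      ∏ k, gm (ph A a (fun k => lk L k v) x (∏ k, v k) k) (w k) =
      ∑ w ∈ T', HH a L v * ∏ k, gm (ph A a (fun k => lk L k v) x (∏ k, v k) k) (w k) := by
    symm
    apply sum_subset (filter_subset _ _)
    intro w hw hw'
    have : ∃ k, k ∉ A ∧ w k ≠ 1 := by
      by_contra hcon
      push Not at hcon
      exact hw' (mem_filter.2 ⟨hw, hcon⟩)
    obtain ⟨k, hk, hk1⟩ := this
    have h2 : 1 < w k := by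
      have := dv_pos (Fintype.mem_piFinset.1 (hT hw) k)
      omega
    rw [prod_eq_zero (mem_univ k), mul_zero]
    have : ph A a (fun k => lk L k v) x (∏ k, v k) k = fun _ => 0 := by
      funext p
      unfold ph
      rw [if_neg hk]
    rw [this]
    exact gm_zero h2
  have h2 : ∑ w ∈ Fintype.piFinset (fun k => if k ∈ A then (PP z y).divisors else {1}),
      HH a L (fun k => v k * w k) = ∑ w ∈ T', HH a L (fun k => v k * w k) := by
    symm
    apply sum_subset
    · intro w hw
      rw [hT', mem_filter] at hw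
      rw [Fintype.mem_piFinset]
      intro k
      by_cases hk : k ∈ A
      · rw [if_pos hk]
        exact Fintype.mem_piFinset.1 (hT hw.1) k
      · rw [if_neg hk, mem_singleton]
        exact hw.2 k hk
    · intro w hw hw'
      rw [Fintype.mem_piFinset] at hw
      have hw1 : ∀ k, k ∉ A → w k = 1 := by
        intro k hk
        have := hw k
        rw [if_neg hk, mem_singleton] at this
        exact this
      unfold HH
      rw [if_neg]
      intro h
      apply hw'
      rw [hT', mem_filter]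
      refine ⟨?_, hw1⟩
      unfold Tup
      rw [mem_filter, Fintype.mem_piFinset]
      refine ⟨fun k => ?_, ((cop_mix hv hw1).1 h).2.1⟩
      by_cases hk : k ∈ A
      · have := hw k
        rwa [if_pos hk] at this
      · rw [hw1 k hk]
        exact one_mem_dv z y
  rw [h1, h2]
  refine sum_congr rfl fun w hw => ?_
  rw [hT', mem_filter] at hw
  have hwd : ∀ k, w k ∈ (PP z y).divisors := fun k => Fintype.mem_piFinset.1 (hT hw.1) k
  have hwc : ∀ i j, i ≠ j → (w i).Coprime (w j) := by
    have := hw.1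
    unfold Tup at this
    exact (mem_filter.1 this).2
  have hcm := cop_mix hv hw.2
  have hgm : ∀ k, gm (ph A a (fun k => lk L k v) x (∏ k, v k) k) (w k) =
      if k ∈ A then (if (w k).Coprime (∏ k, v k) then gm (a k) (w k) * chr 1 (lk L k v) (x k) (w k)
        else 0) else 1 := by
    intro k
    by_cases hk : k ∈ A
    · rw [if_pos hk, ← gm_phi _ _ _ _ (dv_squarefree (hwd k))]
      congr 1
      funext p
      unfold ph
      rw [if_pos hk]
    · rw [if_neg hk, hw.2 k hk, gm_one]
  rw [prod_congr rfl fun k _ => hgm k]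
  by_cases hc : ∀ j ∈ A, (w j).Coprime (∏ k, v k)
  · have e1 : ∏ k, (if k ∈ A then (if (w k).Coprime (∏ k, v k) then
        gm (a k) (w k) * chr 1 (lk L k v) (x k) (w k) else 0) else 1) =
        ∏ k ∈ A, (gm (a k) (w k) * XX L k v (w k)) := by
      rw [← prod_filter_mul_prod_filter_not univ (fun k => k ∈ A)]
      have e2 : ∏ k ∈ univ.filter (fun k => ¬ k ∈ A), (if k ∈ A then
          (if (w k).Coprime (∏ k, v k) then gm (a k) (w k) * chr 1 (lk L k v) (x k) (w k) else 0)
          else 1) = 1 := by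
        refine prod_eq_one fun k hk => ?_
        rw [if_neg (mem_filter.1 hk).2]
      rw [e2, mul_one]
      have e3 : univ.filter (fun k => k ∈ A) = A := by ext k; simp
      rw [e3]
      refine prod_congr rfl fun k hk => ?_
      rw [if_pos hk, if_pos (hc k hk)]
      congr 1
      rw [hx k (w k) (dv_odd hz (hwd k))
        (fun b _ => (Nat.coprime_prod_right_iff.1 (hc k hk)) b (mem_univ b))]
      unfold chr
      rw [Jr_one_left, mul_one]
    rw [e1]
    by_cases hvc : ∀ i j, i ≠ j → (v i).Coprime (v j)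
    · have e4 : (fun k => v k * w k) = fun k => if k ∈ A then w k else v k := by
        funext k
        by_cases hk : k ∈ A
        · rw [if_pos hk, hv k hk, one_mul]
        · rw [if_neg hk, hw.2 k hk, mul_one]
      have e5 : ∏ i, gm (a i) (v i * w i) = (∏ i, gm (a i) (v i)) * ∏ k ∈ A, gm (a k) (w k) := by
        have : ∏ k ∈ A, gm (a k) (w k) = ∏ k, gm (a k) (w k) := by
          apply prod_subset (subset_univ A)
          intro k _ hk
          rw [hw.2 k hk, gm_one]
        rw [this, ← prod_mul_distrib]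
        refine prod_congr rfl fun k _ => ?_
        by_cases hk : k ∈ A
        · rw [hv k hk, one_mul, gm_one, one_mul]
        · rw [hw.2 k hk, mul_one, gm_one, mul_one]
      unfold HH
      rw [if_pos (hcm.2 ⟨hvc, hwc, hc⟩), if_pos hvc, e5, e4,
        Sym_mix hL hA hv w A (Subset.refl A), prod_mul_distrib]
      ring
    · unfold HH
      rw [if_neg (fun h => hvc (hcm.1 h).1), if_neg hvc, zero_mul]
  · have e1 : HH a L (fun k => v k * w k) = 0 := by
      unfold HH
      rw [if_neg (fun h => hc (hcm.1 h).2.2)]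
    push Not at hc
    obtain ⟨j, hj, hjc⟩ := hc
    rw [e1, prod_eq_zero (mem_univ j), mul_zero]
    rw [if_pos hj, if_neg hjc]

/-- the sum with free variables -/
lemma merged (hB : Bb e a b z C N) (hL : ∀ i, L i i = false) {A : Finset ι}
    (hA : ∀ i ∈ A, ∀ j ∈ A, L i j = false) (hAN : A.card ≤ N) (hAz : A.card ≤ z) {B : ℕ} {C1 : ℝ}
    (hT : ∀ i ∈ A, TT (a i) z B C1) {y V M : ℕ} (hy : z < y) {t : ι → Finset ℕ}
    (ht : ∀ k, t k ⊆ (PP z y).divisors) (htA : ∀ k ∈ A, t k = (PP z y).divisors)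
    (hlk : ∀ v ∈ Fintype.piFinset (fun k => if k ∈ A then {1} else t k), ∀ j ∈ A,
      1 < lk L j v ∧ lk L j v ≤ V ^ M) :
    |∑ d ∈ Fintype.piFinset t, HH a L d| ≤
      (∏ k ∈ univ.filter (fun k => k ∉ A), ∑ m ∈ t k, gm (bt N b k) m) *
        (Real.exp C1 * (1 + M * Real.log V) ^ B) ^ A.card := by
  classical
  rw [sum_mix A t]
  have hlV : 0 ≤ Real.log V := Real.log_natCast_nonneg V
  have hX0 : 0 ≤ Real.exp C1 * (1 + M * Real.log V) ^ B := by positivity
  have hprod : ∑ v ∈ Fintype.piFinset (fun k => if k ∈ A then ({1} : Finset ℕ) else t k),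
      ∏ k, gm (bt N b k) (v k) =
      ∏ k ∈ univ.filter (fun k => k ∉ A), ∑ m ∈ t k, gm (bt N b k) m := by
    rw [← prod_univ_sum, ← prod_filter_mul_prod_filter_not univ (fun k => k ∈ A)]
    have e1 : ∏ k ∈ univ.filter (fun k => k ∈ A), ∑ m ∈ (if k ∈ A then ({1} : Finset ℕ) else t k),
        gm (bt N b k) m = 1 := by
      refine prod_eq_one fun k hk => ?_
      rw [if_pos (mem_filter.1 hk).2, sum_singleton, gm_one]
    rw [e1, one_mul]
    refine prod_congr rfl fun k hk => ?_
    rw [if_neg (mem_filter.1 hk).2]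
  rw [← hprod, sum_mul]
  refine (abs_sum_le_sum_abs _ _).trans (sum_le_sum fun v hv => ?_)
  have hvA : ∀ k ∈ A, v k = 1 := by
    intro k hk
    have := Fintype.mem_piFinset.1 hv k
    rw [if_pos hk, mem_singleton] at this
    exact this
  have hvd : ∀ k, v k ∈ (PP z y).divisors := by
    intro k
    by_cases hk : k ∈ A
    · rw [hvA k hk]
      exact one_mem_dv z y
    · have := Fintype.mem_piFinset.1 hv k
      rw [if_neg hk] at this
      exact ht k this
  have hset : (fun k => if k ∈ A then t k else ({1} : Finset ℕ)) =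
      fun k => if k ∈ A then (PP z y).divisors else {1} := by
    funext k
    by_cases hk : k ∈ A
    · rw [if_pos hk, if_pos hk, htA k hk]
    · rw [if_neg hk, if_neg hk]
  obtain ⟨x, hx⟩ := free_eq (a := a) hL hB.z2 hA hvd hvA
  rw [hset, hx, abs_mul]
  by_cases hvc : ∀ i j, i ≠ j → (v i).Coprime (v j)
  · have hRne : ∏ k, v k ≠ 0 := prod_ne_zero_iff.2 fun k _ => dv_ne_zero (hvd k)
    have h1 := pb (a := a) (b := b) (B := B) (C1 := C1) (R := ∏ k, v k) (r := fun k => lk L k v)
      (x := x) (lam := M * Real.log V) hB.z2 hAz hB.ab hB.b1 hT hy hRne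
      (fun i hi => ⟨(hlk v hv i hi).1, by
        unfold lk
        apply squarefree_prod
        · intro k _
          exact dv_squarefree (hvd k)
        · intro j _ k _ hjk
          exact hvc j k hjk, fun p hp hpr => lk_primes hvd hp hpr⟩)
      (fun i hi => by
        rw [← Real.log_pow]
        have h2 := hlk v hv i hi
        apply Real.log_le_log (by exact_mod_cast (by omega : 0 < lk L i v))
        exact_mod_cast h2.2)
    have h3 := abs_HH_le (L := L) hB hvd
    have h4 : hh (∏ k, v k) ≤ ∏ k, hh (v k) := hh_prod_le _ _ fun k _ => dv_ne_zero (hvd k)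
    have h5 : (1 : ℝ) ≤ ∏ k, hh (v k) := by
      calc (1 : ℝ) = ∏ k : ι, (1 : ℝ) := by simp
        _ ≤ _ := prod_le_prod (fun _ _ => zero_le_one) fun k _ => one_le_hh _
    have h6 : (hh (∏ k, v k)) ^ A.card ≤ (∏ k, hh (v k)) ^ N :=
      (pow_le_pow_left₀ (hh_nonneg _) h4 _).trans (pow_le_pow_right₀ h5 hAN)
    have hgb : 0 ≤ ∏ i, gm (b i) (v i) := prod_nonneg fun i _ => hB.gb0 i (hvd i)
    calc |HH a L v| * |∏ p ∈ PS z y, (1 + ∑ k, ph A a (fun k => lk L k v) x (∏ k, v k) k p)|
        ≤ (∏ i, gm (b i) (v i)) * (Real.exp C1 * (1 + M * Real.log V) ^ B *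
            hh (∏ k, v k)) ^ A.card := mul_le_mul h3 h1 (abs_nonneg _) hgb
      _ = (∏ i, gm (b i) (v i)) * (hh (∏ k, v k)) ^ A.card *
            (Real.exp C1 * (1 + M * Real.log V) ^ B) ^ A.card := by rw [mul_pow]; ring
      _ ≤ (∏ i, gm (b i) (v i)) * (∏ k, hh (v k)) ^ N *
            (Real.exp C1 * (1 + M * Real.log V) ^ B) ^ A.card := by
          apply mul_le_mul_of_nonneg_right _ (pow_nonneg hX0 _)
          exact mul_le_mul_of_nonneg_left h6 hgb
      _ = _ := by
          rw [← prod_pow, ← prod_mul_distrib]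
          congr 1
          exact prod_congr rfl fun k _ => (gm_bt N b k (v k)).symm
  · have : HH a L v = 0 := by
      unfold HH
      rw [if_neg hvc]
    rw [this, abs_zero, zero_mul]
    exact mul_nonneg (prod_nonneg fun k _ => bt_nonneg hB k (hvd k)) (pow_nonneg hX0 _)

end BT

end Run7.h69
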