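import Mathlib
import Pool.Agent.Run7.h69.BT2

/-! The abstract bound for linked variables, second version: all patterns. -/

set_option autoImplicit false
set_option linter.unusedSectionVars false

namespace Run7.h69

open Finset
open Pool.Agent.W262.RK hiding LL ff s1 s2
open Pool.Agent.W262.RK.AT (VV YY VV_ge three_le_VV VV_le_YY one_le_log_VV VV_le log_YY_ge log_YY_le
  log_VV_le log_VV_pow_le exp_neg_pow hh_mul_le hh_prod_le lk_primes squarefree_prod sum_others
  BW lg cl cell cell_sub cell_zero cell_one cell_two cell_three patterns)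
open Run7.h69.AT (gm_one gm_nonneg abs_gm_le gm_le k1 Jr_one_left HH total_eq HH_update one_le_log)

namespace BT

variable {ι : Type} [Fintype ι] [DecidableEq ι]

variable {e : ι → ℝ} {a b : ι → ℕ → ℝ} {L : ι → ι → Bool} {z N : ℕ} {C : ℝ}

/-- every cell -/
lemma cs_any (hB : Bb e a b z C N) {y : ℕ} (hy : z < y) (V Y : ℕ) (k : ι) (r : Fin 4) :
    ∑ m ∈ cell z y V Y r, gm (bt N b k) m ≤ C * Real.log y := by
  have hC0 : 0 ≤ C := zero_le_one.trans hB.C1
  have hly := one_le_log hB.z2 hy
  calc ∑ m ∈ cell z y V Y r, gm (bt N b k) m ≤ ∑ m ∈ (PP z y).divisors, gm (bt N b k) m :=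
        sum_le_sum_of_subset_of_nonneg (cell_sub _ _ _ _ _) fun m hm _ => bt_nonneg hB k hm
    _ ≤ C * (Real.log y) ^ (e k) := hB.F1 k y hy
    _ ≤ C * Real.log y := by
      apply mul_le_mul_of_nonneg_left _ hC0
      calc (Real.log y) ^ (e k) ≤ (Real.log y) ^ (1 : ℝ) :=
            Real.rpow_le_rpow_of_exponent_le hly (hB.e1 k)
        _ = Real.log y := Real.rpow_one _

/-- the cells of the kinds 0, 1, 2 -/
lemma cs_low (hB : Bb e a b z C N) {y : ℕ} (hy : z < y) {V Y : ℕ} (hV : 3 ≤ V) (k : ι) {r : Fin 4}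
    (hr : r ≠ 3) : ∑ m ∈ cell z y V Y r, gm (bt N b k) m ≤
      C * (if r = 2 then (Real.log y) ^ (e k) else Real.log V) := by
  have hC0 : 0 ≤ C := zero_le_one.trans hB.C1
  have hlV : 1 ≤ Real.log V := by
    rw [Real.le_log_iff_exp_le (by exact_mod_cast (by omega : 0 < V))]
    have h1 : (3 : ℝ) ≤ V := by exact_mod_cast hV
    have h2 := Real.exp_one_lt_d9
    linarith
  by_cases h2 : r = 2
  · rw [if_pos h2]
    calc ∑ m ∈ cell z y V Y r, gm (bt N b k) m ≤ ∑ m ∈ (PP z y).divisors, gm (bt N b k) m :=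
          sum_le_sum_of_subset_of_nonneg (cell_sub _ _ _ _ _) fun m hm _ => bt_nonneg hB k hm
      _ ≤ C * (Real.log y) ^ (e k) := hB.F1 k y hy
  · rw [if_neg h2]
    have hsub : cell z y V Y r ⊆ (PP z y).divisors.filter (fun d => d ≤ V) := by
      intro m hm
      rw [mem_filter]
      refine ⟨cell_sub _ _ _ _ _ hm, ?_⟩
      have : r = 0 ∨ r = 1 := by
        fin_cases r
        · exact Or.inl rfl
        · exact Or.inr rfl
        · exact absurd rfl h2
        · exact absurd rfl hr
      rcases this with h | h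
      · subst h
        have := cell_zero hm
        omega
      · subst h
        exact (cell_one hm).2
    calc ∑ m ∈ cell z y V Y r, gm (bt N b k) m
        ≤ ∑ m ∈ (PP z y).divisors.filter (fun d => d ≤ V), gm (bt N b k) m :=
          sum_le_sum_of_subset_of_nonneg hsub fun m hm _ => bt_nonneg hB k (mem_filter.1 hm).1
      _ ≤ C * (Real.log V) ^ (e k) := hB.F2 k y V hy (by omega)
      _ ≤ C * Real.log V := by
        apply mul_le_mul_of_nonneg_left _ hC0
        calc (Real.log V) ^ (e k) ≤ (Real.log V) ^ (1 : ℝ) :=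
              Real.rpow_le_rpow_of_exponent_le hlV (hB.e1 k)
          _ = Real.log V := Real.rpow_one _

/-- product of the sums over cells of kinds 0, 1, 2 -/
lemma prod_low (hB : Bb e a b z C N) {y : ℕ} (hy : z < y) {V Y : ℕ} (hV : 3 ≤ V) (π : ι → Fin 4)
    (s : Finset ι) (hs : ∀ k ∈ s, π k ≠ 3) :
    ∏ k ∈ s, ∑ m ∈ cell z y V Y (π k), gm (bt N b k) m ≤
      C ^ (Fintype.card ι) * (Real.log y) ^ (∑ k ∈ s.filter (fun k => π k = 2), e k) *
        (Real.log V) ^ (Fintype.card ι) := by
  have hC0 : 0 ≤ C := zero_le_one.trans hB.C1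
  have hly := one_le_log hB.z2 hy
  have hly0 : 0 < Real.log y := by linarith
  have hlV : 1 ≤ Real.log V := by
    rw [Real.le_log_iff_exp_le (by exact_mod_cast (by omega : 0 < V))]
    have h1 : (3 : ℝ) ≤ V := by exact_mod_cast hV
    have h2 := Real.exp_one_lt_d9
    linarith
  have hcard : s.card ≤ Fintype.card ι := (card_le_card (subset_univ s)).trans (le_of_eq card_univ)
  calc ∏ k ∈ s, ∑ m ∈ cell z y V Y (π k), gm (bt N b k) m
      ≤ ∏ k ∈ s, (C * (if π k = 2 then (Real.log y) ^ (e k) else Real.log V)) := by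
        apply prod_le_prod
        · intro k _
          exact sum_nonneg fun m hm => bt_nonneg hB k (cell_sub _ _ _ _ _ hm)
        · intro k hk
          exact cs_low hB hy hV k (hs k hk)
    _ = C ^ s.card * ((∏ k ∈ s.filter (fun k => π k = 2), (Real.log y) ^ (e k)) *
          ∏ k ∈ s.filter (fun k => ¬ π k = 2), Real.log V) := by
        rw [prod_mul_distrib, prod_const, prod_ite]
    _ ≤ C ^ (Fintype.card ι) * ((Real.log y) ^ (∑ k ∈ s.filter (fun k => π k = 2), e k) *
          (Real.log V) ^ (Fintype.card ι)) := by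
        apply mul_le_mul (pow_le_pow_right₀ hB.C1 hcard) _ _ (by positivity)
        · apply mul_le_mul
          · rw [← Real.rpow_sum_of_pos hly0]
          · rw [prod_const]
            exact pow_le_pow_right₀ hlV ((card_filter_le _ _).trans hcard)
          · positivity
          · positivity
        · apply mul_nonneg
          · exact prod_nonneg fun _ _ => by positivity
          · exact prod_nonneg fun _ _ => by positivity
    _ = _ := by ring

/-- two linked large variables -/
lemma link_case (hB : Bb e a b z C N) {C2 : ℝ} {E2 : ℕ} (hC2 : 0 ≤ C2) (h2 : BW C2 E2)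
    (hL : ∀ i, L i i = false) {A : ℕ} (hA : 6 * (Fintype.card ι + 2 * E2) ≤ A) {K : ℝ} (hK : 0 ≤ K)
    (π : ι → Fin 4) {i j : ι} (hi : π i = 2) (hj : π j = 2) (hij : L i j ≠ L j i) :
    ∃ C' : ℝ, ∀ y, z < y →
      |∑ d ∈ Fintype.piFinset (fun b => cell z y (VV A (Real.log y)) (YY A (Real.log y)) (π b)),
        HH a L d| ≤ C' * (Real.log y) ^ K := by
  have hC0 : 0 ≤ C := zero_le_one.trans hB.C1
  refine ⟨C ^ (Fintype.card ι) * C2 * (A + 3) ^ E2, fun y hy => ?_⟩
  have hly := one_le_log hB.z2 hy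
  have hly0 : 0 < Real.log y := by linarith
  set l := Real.log y with hl
  set V := VV A l with hV
  set Y := YY A l with hY
  have hV3 : 3 ≤ V := three_le_VV A l
  have hVY : V ≤ Y := VV_le_YY A l
  have hne : i ≠ j := by rintro rfl; exact hij rfl
  have hc2 : ∀ b, π b = 2 → cell z y V Y (π b) = lg z y V Y := fun b hb => by
    rw [hb]; exact cell_two (by omega)
  have hmain : |∑ d ∈ Fintype.piFinset (fun b => cell z y V Y (π b)), HH a L d| ≤
      (C * l) ^ (Fintype.card ι) * (C2 * (Real.log Y) ^ E2 * (V : ℝ) ^ (-(1 / 6 : ℝ))) := by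
    rcases h1 : L i j with _ | _
    · rcases h1' : L j i with _ | _
      · rw [h1, h1'] at hij; exact absurd rfl hij
      · exact pair_case hB hC2 h2 hne.symm (hL j) h1' h1 hy (by omega) hVY
          (fun b => cell_sub _ _ _ _ _) (hc2 j hj) (hc2 i hi)
    · rcases h1' : L j i with _ | _
      · exact pair_case hB hC2 h2 hne (hL i) h1 h1' hy (by omega) hVY
          (fun b => cell_sub _ _ _ _ _) (hc2 i hi) (hc2 j hj)
      · rw [h1, h1'] at hij; exact absurd rfl hij
  refine hmain.trans ?_
  have h3 : Real.log Y ≤ (A + 3) * l ^ 2 := log_YY_le hly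
  have h3' : 0 ≤ Real.log Y := Real.log_natCast_nonneg Y
  have h4 : (V : ℝ) ^ (-(1 / 6 : ℝ)) ≤ (l ^ (Fintype.card ι + 2 * E2))⁻¹ := by
    have h5 : l ^ (6 * (Fintype.card ι + 2 * E2)) ≤ V :=
      (pow_le_pow_right₀ hly hA).trans (VV_ge A l)
    have h6 : (0 : ℝ) < l ^ (6 * (Fintype.card ι + 2 * E2)) := by positivity
    have h7 : (V : ℝ) ^ (-(1 / 6 : ℝ)) ≤ (l ^ (6 * (Fintype.card ι + 2 * E2))) ^ (-(1 / 6 : ℝ)) :=
      Real.rpow_le_rpow_of_nonpos h6 h5 (by norm_num)
    refine h7.trans (le_of_eq ?_)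
    rw [← Real.rpow_natCast l, ← Real.rpow_mul hly0.le, ← Real.rpow_natCast l,
      ← Real.rpow_neg hly0.le]
    congr 1
    push_cast
    ring
  have h8 : (1 : ℝ) ≤ l ^ K := Real.one_le_rpow hly hK
  calc (C * l) ^ (Fintype.card ι) * (C2 * (Real.log Y) ^ E2 * (V : ℝ) ^ (-(1 / 6 : ℝ)))
      ≤ (C * l) ^ (Fintype.card ι) * (C2 * ((A + 3) * l ^ 2) ^ E2 *
          (l ^ (Fintype.card ι + 2 * E2))⁻¹) := by
        apply mul_le_mul_of_nonneg_left _ (by positivity)
        apply mul_le_mul _ h4 (by positivity) (by positivity)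
        exact mul_le_mul_of_nonneg_left (pow_le_pow_left₀ h3' h3 _) hC2
    _ = C ^ (Fintype.card ι) * C2 * (A + 3) ^ E2 := by
        rw [mul_pow, mul_pow, ← pow_mul, pow_add]
        field_simp
    _ ≤ _ := le_mul_of_one_le_right (by positivity) h8

/-- all variables are 1 or large and unlinked -/
lemma diag_case (hB : Bb e a b z C N) (A : ℕ) {K : ℝ} (π : ι → Fin 4)
    (h3 : ∀ k, π k = 0 ∨ π k = 2) (hK : ∑ k ∈ univ.filter (fun k => π k = 2), e k ≤ K) :
    ∃ C' : ℝ, ∀ y, z < y →
      |∑ d ∈ Fintype.piFinset (fun b => cell z y (VV A (Real.log y)) (YY A (Real.log y)) (π b)),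
        HH a L d| ≤ C' * (Real.log y) ^ K := by
  have hC0 : 0 ≤ C := zero_le_one.trans hB.C1
  refine ⟨C ^ (Fintype.card ι), fun y hy => ?_⟩
  have hly := one_le_log hB.z2 hy
  have hly0 : 0 < Real.log y := by linarith
  set l := Real.log y with hl
  set V := VV A l with hV
  set Y := YY A l with hY
  refine (triv hB fun i => cell_sub _ _ _ _ _).trans ?_
  have e1 : ∀ k ∈ (univ : Finset ι), ∑ m ∈ cell z y V Y (π k), gm (b k) m ≤
      C * (if π k = 2 then l ^ (e k) else 1) := by
    intro k _
    rcases h3 k with h | h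
    · rw [h, if_neg (by decide)]
      calc ∑ m ∈ cell z y V Y 0, gm (b k) m ≤ ∑ m ∈ ({1} : Finset ℕ), gm (b k) m := by
            apply sum_le_sum_of_subset_of_nonneg
            · intro m hm
              rw [mem_singleton]
              exact cell_zero hm
            · intro m hm _
              rw [mem_singleton] at hm
              rw [hm, gm_one]
              exact zero_le_one
        _ ≤ C * 1 := by
            rw [sum_singleton, gm_one, mul_one]
            exact hB.C1
    · rw [if_pos h]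
      calc ∑ m ∈ cell z y V Y (π k), gm (b k) m ≤ ∑ m ∈ cell z y V Y (π k), gm (bt N b k) m :=
            sum_le_sum fun m hm => gb_le_bt hB k (cell_sub _ _ _ _ _ hm)
        _ ≤ ∑ m ∈ (PP z y).divisors, gm (bt N b k) m :=
            sum_le_sum_of_subset_of_nonneg (cell_sub _ _ _ _ _) fun m hm _ => bt_nonneg hB k hm
        _ ≤ _ := hB.F1 k y hy
  calc ∏ k, ∑ m ∈ cell z y V Y (π k), gm (b k) m
      ≤ ∏ k, (C * (if π k = 2 then l ^ (e k) else 1)) := by
        apply prod_le_prod _ e1
        intro k _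
        exact sum_nonneg fun m hm => hB.gb0 k (cell_sub _ _ _ _ _ hm)
    _ = C ^ (Fintype.card ι) * l ^ (∑ k ∈ univ.filter (fun k => π k = 2), e k) := by
        rw [prod_mul_distrib, prod_const, prod_ite, prod_const_one, mul_one,
          ← Real.rpow_sum_of_pos hly0, card_univ]
    _ ≤ _ := by
        apply mul_le_mul_of_nonneg_left _ (by positivity)
        exact Real.rpow_le_rpow_of_exponent_le hly hK


/-- a huge variable -/
lemma tail_gen (hB : Bb e a b z C N) (A : ℕ) {y : ℕ} (hy : z < y) {t : ι → Finset ℕ}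
    (ht : ∀ k, t k ⊆ (PP z y).divisors) {k : ι}
    (hk : t k ⊆ (PP z y).divisors.filter (fun d => YY A (Real.log y) < d)) :
    |∑ d ∈ Fintype.piFinset t, HH a L d| ≤
      C ^ (Fintype.card ι + 1) * (Fintype.card ι + 2).factorial := by
  have hC0 : 0 ≤ C := zero_le_one.trans hB.C1
  have hly := one_le_log hB.z2 hy
  have hly0 : 0 < Real.log y := by linarith
  set l := Real.log y with hl
  set V := VV A l with hV
  set Y := YY A l with hY
  have hall : ∀ k, ∑ m ∈ t k, gm (bt N b k) m ≤ C * l := by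
    intro k
    calc ∑ m ∈ t k, gm (bt N b k) m ≤ ∑ m ∈ (PP z y).divisors, gm (bt N b k) m :=
          sum_le_sum_of_subset_of_nonneg (ht k) fun m hm _ => bt_nonneg hB k hm
      _ ≤ C * (Real.log y) ^ (e k) := hB.F1 k y hy
      _ ≤ C * l := by
        apply mul_le_mul_of_nonneg_left _ hC0
        calc (Real.log y) ^ (e k) ≤ (Real.log y) ^ (1 : ℝ) :=
              Real.rpow_le_rpow_of_exponent_le hly (hB.e1 k)
          _ = Real.log y := Real.rpow_one _
  refine (triv hB ht).trans ?_
  have h1 : ∏ i, ∑ m ∈ t i, gm (b i) m ≤ ∏ i, ∑ m ∈ t i, gm (bt N b i) m := by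
    apply prod_le_prod
    · intro i _
      exact sum_nonneg fun m hm => hB.gb0 i (ht i hm)
    · intro i _
      exact sum_le_sum fun m hm => gb_le_bt hB i (ht i hm)
  refine h1.trans ?_
  rw [← mul_prod_erase univ _ (mem_univ k)]
  have h2 : ∑ m ∈ t k, gm (bt N b k) m ≤ C * Real.exp (-l) * l ^ 2 := by
    have hV3 := three_le_VV A l
    have hVY := VV_le_YY A l
    calc ∑ m ∈ t k, gm (bt N b k) m
        ≤ ∑ m ∈ (PP z y).divisors.filter (fun d => Y < d), gm (bt N b k) m := by
          apply sum_le_sum_of_subset_of_nonneg hk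
          intro m hm _
          exact bt_nonneg hB k (mem_filter.1 hm).1
      _ ≤ C * Real.exp (-(Real.log Y / Real.log y)) * (Real.log y) ^ 2 :=
          hB.F3 k y Y hy (by omega)
      _ ≤ C * Real.exp (-l) * l ^ 2 := by
          apply mul_le_mul_of_nonneg_right _ (by positivity)
          apply mul_le_mul_of_nonneg_left _ hC0
          apply Real.exp_le_exp.2
          rw [neg_le_neg_iff, le_div_iff₀ hly0]
          have := log_YY_ge A l
          nlinarith
  have h3 : ∏ j ∈ univ.erase k, ∑ m ∈ t j, gm (bt N b j) m ≤ (C * l) ^ (Fintype.card ι) := by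
    have hCl : 1 ≤ C * l := by nlinarith [hB.C1]
    calc _ ≤ ∏ j ∈ univ.erase k, (C * l) := by
          apply prod_le_prod
          · intro j _
            exact sum_nonneg fun m hm => bt_nonneg hB j (ht j hm)
          · intro j _
            exact hall j
      _ = (C * l) ^ (univ.erase k).card := by rw [prod_const]
      _ ≤ _ := by
          apply pow_le_pow_right₀ hCl
          exact (card_le_card (erase_subset _ _)).trans (le_of_eq card_univ)
  have h5 := exp_neg_pow (Fintype.card ι + 2) hly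
  calc _ ≤ C * Real.exp (-l) * l ^ 2 * (C * l) ^ (Fintype.card ι) := by
        apply mul_le_mul h2 h3 _ (by positivity)
        exact prod_nonneg fun j _ => sum_nonneg fun m hm => bt_nonneg hB j (ht j hm)
    _ = C ^ (Fintype.card ι + 1) * (Real.exp (-l) * l ^ (Fintype.card ι + 2)) := by ring
    _ ≤ C ^ (Fintype.card ι + 1) * (Fintype.card ι + 2).factorial :=
        mul_le_mul_of_nonneg_left h5 (by positivity)

/-- large equals all minus small minus huge -/
lemma split3 (z y V Y : ℕ) (hVY : V ≤ Y) (f : ℕ → ℝ) :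
    ∑ m ∈ lg z y V Y, f m = ∑ m ∈ (PP z y).divisors, f m -
      ∑ m ∈ (PP z y).divisors.filter (fun m => m ≤ V), f m -
      ∑ m ∈ (PP z y).divisors.filter (fun m => Y < m), f m := by
  set D := (PP z y).divisors with hD
  have e1 : ∑ m ∈ D.filter (fun m => V < m ∧ m ≤ Y), f m + ∑ m ∈ D.filter (fun m => Y < m), f m =
      ∑ m ∈ D.filter (fun m => ¬ m ≤ V), f m := by
    rw [← sum_union]
    · apply sum_congr _ (fun _ _ => rfl)
      ext m
      simp only [mem_union, mem_filter]
      constructor
      · rintro (⟨h1, h2, h3⟩ | ⟨h1, h2⟩)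
        · exact ⟨h1, by omega⟩
        · exact ⟨h1, by omega⟩
      · rintro ⟨h1, h2⟩
        by_cases h3 : m ≤ Y
        · exact Or.inl ⟨h1, by omega, h3⟩
        · exact Or.inr ⟨h1, by omega⟩
    · rw [disjoint_filter]
      intro m _ h1 h2
      omega
  have e2 := sum_filter_add_sum_filter_not D (fun m => m ≤ V) f
  unfold lg
  rw [← hD]
  linarith

lemma split3' (z y V Y : ℕ) (hVY : V ≤ Y) (t : ι → Finset ℕ) (j : ι) (hj : t j = lg z y V Y)
    (F : (ι → ℕ) → ℝ) :
    ∑ d ∈ Fintype.piFinset t, F d =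
      ∑ d ∈ Fintype.piFinset (Function.update t j (PP z y).divisors), F d -
      ∑ d ∈ Fintype.piFinset (Function.update t j ((PP z y).divisors.filter (fun m => m ≤ V))), F d -
      ∑ d ∈ Fintype.piFinset (Function.update t j ((PP z y).divisors.filter (fun m => Y < m))),
        F d := by
  have h1 : ∀ X : Finset ℕ, ∑ d ∈ Fintype.piFinset (Function.update t j X), F d =
      ∑ v ∈ Fintype.piFinset (Function.update t j {1}), ∑ m ∈ X, F (Function.update v j m) := by
    intro X
    rw [sum_update (Function.update t j X) j, Function.update_idem, Function.update_self]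
  rw [h1, h1, h1, sum_update t j, ← sum_sub_distrib, ← sum_sub_distrib]
  refine sum_congr rfl fun v _ => ?_
  rw [hj]
  exact split3 z y V Y hVY _

/-- the sums with free, small or huge variables in `J` -/
lemma base (hB : Bb e a b z C N) (hL : ∀ i, L i i = false) (hN : Fintype.card ι ≤ N)
    (hz : Fintype.card ι ≤ z) (A : ℕ) {B : ℕ} {C1 : ℝ} (hC1 : 0 ≤ C1) {K : ℝ}
    (π : ι → Fin 4) (h3 : ∀ k, π k ≠ 3) {J : Finset ι} (hJ2 : ∀ j ∈ J, π j = 2)
    (hun : ∀ i j, π i = 2 → π j = 2 → L i j = L j i)
    (hT : ∀ i ∈ J, TT (a i) z B C1) (hJt : ∀ j ∈ J, ∃ t, π t = 1 ∧ L j t ≠ L t j)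
    (hJL : ∀ i ∈ J, ∀ j ∈ J, L i j = false) (hK0 : 0 ≤ K)
    (hK : ∑ k ∈ univ.filter (fun k => π k = 2 ∧ k ∉ J), e k < K) :
    ∃ C' : ℝ, 0 ≤ C' ∧ ∀ y, z < y → ∀ t : ι → Finset ℕ,
      (∀ k, k ∉ J → t k = cell z y (VV A (Real.log y)) (YY A (Real.log y)) (π k)) →
      (∀ k ∈ J, t k = (PP z y).divisors ∨
        t k = (PP z y).divisors.filter (fun m => m ≤ VV A (Real.log y)) ∨
        t k = (PP z y).divisors.filter (fun m => YY A (Real.log y) < m)) →
      |∑ d ∈ Fintype.piFinset t, HH a L d| ≤ C' * (Real.log y) ^ K := by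
  classical
  have hC0 : 0 ≤ C := zero_le_one.trans hB.C1
  set S := ∑ k ∈ univ.filter (fun k => π k = 2 ∧ k ∉ J), e k with hS
  set M := Fintype.card ι with hM
  obtain ⟨C2, hC2, h2⟩ := log_VV_pow_le A (M + B * M) (sub_pos.2 hK)
  set D : ℝ := (Real.exp C1 * (1 + M) ^ B) ^ M with hD
  have hD0 : 0 ≤ D := by positivity
  have hcon : 0 ≤ C ^ (M + 1) * ((M + 2).factorial : ℝ) := by positivity
  refine ⟨C ^ (M + 1) * ((M + 2).factorial : ℝ) + C ^ M * D * C2, by positivity,
    fun y hy t ht1 ht2 => ?_⟩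
  have hly := one_le_log hB.z2 hy
  have hly0 : 0 < Real.log y := by linarith
  set l := Real.log y with hl
  set V := VV A l with hV
  set Y := YY A l with hY
  have hV3 : 3 ≤ V := three_le_VV A l
  have hVY : V ≤ Y := VV_le_YY A l
  have hlV : 1 ≤ Real.log V := one_le_log_VV A l
  have hlK : 1 ≤ l ^ K := Real.one_le_rpow hly hK0
  have htd : ∀ k, t k ⊆ (PP z y).divisors := by
    intro k
    by_cases hk : k ∈ J
    · rcases ht2 k hk with h | h | h <;> rw [h]
      · exact filter_subset _ _
      · exact filter_subset _ _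
    · rw [ht1 k hk]
      exact cell_sub _ _ _ _ _
  by_cases hhuge : ∃ k ∈ J, t k = (PP z y).divisors.filter (fun m => Y < m)
  · obtain ⟨k, _, hk⟩ := hhuge
    refine (tail_gen hB A hy htd (k := k) (by rw [hk])).trans ?_
    rw [← hM]
    have h4 : 0 ≤ C ^ M * D * C2 := by positivity
    nlinarith
  push Not at hhuge
  set Af := J.filter (fun k => t k = (PP z y).divisors) with hAf
  have hAJ : Af ⊆ J := filter_subset _ _
  have hcardA : Af.card ≤ M := (card_le_card (subset_univ _)).trans (le_of_eq card_univ)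
  have hlow : ∀ k ∈ J, k ∉ Af → t k = (PP z y).divisors.filter (fun m => m ≤ V) := by
    intro k hk hkA
    rcases ht2 k hk with h | h | h
    · exact absurd (mem_filter.2 ⟨hk, h⟩) hkA
    · exact h
    · exact absurd h (hhuge k hk)
  have hmain := merged (L := L) (A := Af) (V := V) (M := M) hB hL
    (fun i hi j hj => hJL i (hAJ hi) j (hAJ hj)) (hcardA.trans hN) (hcardA.trans hz)
    (fun i hi => hT i (hAJ hi)) hy htd (fun k hk => (mem_filter.1 hk).2) (by
      intro v hv j hj
      have hjJ := hAJ hj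
      have hmem : ∀ k, k ∉ J → v k ∈ cell z y V Y (π k) := by
        intro k hk
        have := Fintype.mem_piFinset.1 hv k
        rw [if_neg (fun h => hk (hAJ h)), ht1 k hk] at this
        exact this
      have hlin : ∀ k, L j k ≠ L k j → k ∉ J ∧ π k ≠ 2 := by
        intro k hk
        have h5 : π k ≠ 2 := fun h => hk (hun j k (hJ2 j hjJ) h)
        exact ⟨fun h => h5 (hJ2 k h), h5⟩
      obtain ⟨t0, ht0, hjt0⟩ := hJt j hjJ
      have hne : t0 ≠ j := by rintro rfl; exact hjt0 rfl
      have hjf : t0 ∈ (univ.erase j).filter (fun b => L j b ≠ L b j) := by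
        rw [mem_filter, mem_erase]
        exact ⟨⟨hne, mem_univ t0⟩, hjt0⟩
      have hje : 1 < v t0 ∧ v t0 ≤ V := by
        have := hmem t0 (hlin t0 hjt0).1
        rw [ht0] at this
        exact cell_one this
      have hpos : ∀ b ∈ (univ.erase j).filter (fun b => L j b ≠ L b j), 0 < v b ∧ v b ≤ V := by
        intro b hb
        rw [mem_filter, mem_erase] at hb
        obtain ⟨h6, h7⟩ := hlin b hb.2
        have hm := hmem b h6
        refine ⟨dv_pos (cell_sub _ _ _ _ _ hm), ?_⟩
        have : π b = 0 ∨ π b = 1 := by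
          have h3b := h3 b
          revert h7 h3b
          generalize π b = r
          revert r
          decide
        rcases this with h | h
        · rw [h] at hm
          have := cell_zero hm
          omega
        · rw [h] at hm
          exact (cell_one hm).2
      constructor
      · unfold lk
        rw [← mul_prod_erase _ _ hjf]
        have : 0 < ∏ b ∈ ((univ.erase j).filter (fun b => L j b ≠ L b j)).erase t0, v b :=
          prod_pos fun b hb => (hpos b (mem_erase.1 hb).2).1
        nlinarith [hje.1]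
      · unfold lk
        calc ∏ b ∈ (univ.erase j).filter (fun b => L j b ≠ L b j), v b
            ≤ ∏ b ∈ (univ.erase j).filter (fun b => L j b ≠ L b j), V :=
              prod_le_prod' fun b hb => (hpos b hb).2
          _ = V ^ ((univ.erase j).filter (fun b => L j b ≠ L b j)).card := by rw [prod_const]
          _ ≤ V ^ M := Nat.pow_le_pow_right (by omega)
              ((card_le_card (subset_univ _)).trans (le_of_eq card_univ)))
  have hcell : ∀ k ∈ univ.filter (fun k => k ∉ Af), ∑ m ∈ t k, gm (bt N b k) m ≤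
      C * (if π k = 2 ∧ k ∉ J then l ^ (e k) else Real.log V) := by
    intro k hk
    have hkA := (mem_filter.1 hk).2
    by_cases hkJ : k ∈ J
    · rw [if_neg (fun h => h.2 hkJ), hlow k hkJ hkA]
      calc _ ≤ C * (Real.log V) ^ (e k) := hB.F2 k y V hy (by omega)
        _ ≤ C * Real.log V := by
          apply mul_le_mul_of_nonneg_left _ hC0
          calc (Real.log V) ^ (e k) ≤ (Real.log V) ^ (1 : ℝ) :=
                Real.rpow_le_rpow_of_exponent_le hlV (hB.e1 k)
            _ = Real.log V := Real.rpow_one _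
    · rw [ht1 k hkJ]
      refine (cs_low hB hy (by omega) k (h3 k)).trans (le_of_eq ?_)
      congr 1
      by_cases h5 : π k = 2
      · rw [if_pos h5, if_pos ⟨h5, hkJ⟩]
      · rw [if_neg h5, if_neg (fun h => h5 h.1)]
  have hcd : ∀ s : Finset ι, s.card ≤ M := fun s =>
    (card_le_card (subset_univ s)).trans (le_of_eq card_univ)
  have hPL : ∏ k ∈ univ.filter (fun k => k ∉ Af), ∑ m ∈ t k, gm (bt N b k) m ≤
      C ^ M * l ^ S * (Real.log V) ^ M := by
    calc ∏ k ∈ univ.filter (fun k => k ∉ Af), ∑ m ∈ t k, gm (bt N b k) m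
        ≤ ∏ k ∈ univ.filter (fun k => k ∉ Af),
            (C * (if π k = 2 ∧ k ∉ J then l ^ (e k) else Real.log V)) := by
          apply prod_le_prod _ hcell
          intro k _
          exact sum_nonneg fun m hm => bt_nonneg hB k (htd k hm)
      _ = C ^ (univ.filter (fun k => k ∉ Af)).card *
            ((∏ k ∈ (univ.filter (fun k => k ∉ Af)).filter (fun k => π k = 2 ∧ k ∉ J),
              l ^ (e k)) * ∏ k ∈ (univ.filter (fun k => k ∉ Af)).filter
                (fun k => ¬ (π k = 2 ∧ k ∉ J)), Real.log V) := by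
          rw [prod_mul_distrib, prod_const, prod_ite]
      _ ≤ C ^ M * (l ^ S * (Real.log V) ^ M) := by
          apply mul_le_mul (pow_le_pow_right₀ hB.C1 (hcd _)) _ _ (by positivity)
          · apply mul_le_mul
            · apply le_of_eq
              rw [hS, Real.rpow_sum_of_pos hly0]
              apply prod_congr _ (fun _ _ => rfl)
              ext k
              simp only [mem_filter, mem_univ, true_and]
              constructor
              · rintro ⟨_, h⟩
                exact h
              · intro h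
                exact ⟨fun h' => h.2 (hAJ h'), h⟩
            · rw [prod_const]
              exact pow_le_pow_right₀ hlV (hcd _)
            · exact prod_nonneg fun _ _ => by positivity
            · positivity
          · apply mul_nonneg
            · exact prod_nonneg fun _ _ => by positivity
            · exact prod_nonneg fun _ _ => by positivity
      _ = _ := by ring
  have hbr : (Real.exp C1 * (1 + M * Real.log V) ^ B) ^ Af.card ≤ D * (Real.log V) ^ (B * M) := by
    have hM0 : (0 : ℝ) ≤ M := Nat.cast_nonneg M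
    have e1 : Real.exp C1 * (1 + M * Real.log V) ^ B ≤
        Real.exp C1 * (1 + M) ^ B * (Real.log V) ^ B := by
      rw [mul_assoc, ← mul_pow]
      apply mul_le_mul_of_nonneg_left _ (Real.exp_pos _).le
      apply pow_le_pow_left₀ (by positivity)
      nlinarith
    have e2 : (1 : ℝ) ≤ Real.exp C1 * (1 + M * Real.log V) ^ B := by
      have h5 : 1 ≤ Real.exp C1 := Real.one_le_exp hC1
      have h6 : (1 : ℝ) ≤ (1 + M * Real.log V) ^ B := one_le_pow₀ (by nlinarith)
      nlinarith
    calc (Real.exp C1 * (1 + M * Real.log V) ^ B) ^ Af.card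
        ≤ (Real.exp C1 * (1 + M * Real.log V) ^ B) ^ M := pow_le_pow_right₀ e2 hcardA
      _ ≤ (Real.exp C1 * (1 + M) ^ B * (Real.log V) ^ B) ^ M :=
          pow_le_pow_left₀ (by linarith) e1 M
      _ = _ := by rw [mul_pow, hD, ← pow_mul]
  refine hmain.trans ?_
  have hVp := h2 l hly
  calc _ ≤ (C ^ M * l ^ S * (Real.log V) ^ M) * (D * (Real.log V) ^ (B * M)) :=
        mul_le_mul hPL hbr (by positivity) (by positivity)
    _ = C ^ M * D * l ^ S * (Real.log V) ^ (M + B * M) := by rw [pow_add]; ring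
    _ ≤ C ^ M * D * l ^ S * (C2 * l ^ (K - S)) :=
        mul_le_mul_of_nonneg_left hVp (by positivity)
    _ = C ^ M * D * C2 * (l ^ S * l ^ (K - S)) := by ring
    _ = C ^ M * D * C2 * l ^ K := by rw [← Real.rpow_add hly0]; congr 2; ring
    _ ≤ _ := by
        apply mul_le_mul_of_nonneg_right _ (by linarith)
        linarith

/-- the large variables in `J` -/
lemma merged_case (hB : Bb e a b z C N) (hL : ∀ i, L i i = false) (hN : Fintype.card ι ≤ N)
    (hz : Fintype.card ι ≤ z) (A : ℕ) {B : ℕ} {C1 : ℝ} (hC1 : 0 ≤ C1) {K : ℝ}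
    (π : ι → Fin 4) (h3 : ∀ k, π k ≠ 3) {J : Finset ι} (hJ2 : ∀ j ∈ J, π j = 2)
    (hun : ∀ i j, π i = 2 → π j = 2 → L i j = L j i)
    (hT : ∀ i ∈ J, TT (a i) z B C1) (hJt : ∀ j ∈ J, ∃ t, π t = 1 ∧ L j t ≠ L t j)
    (hJL : ∀ i ∈ J, ∀ j ∈ J, L i j = false) (hK0 : 0 ≤ K)
    (hK : ∑ k ∈ univ.filter (fun k => π k = 2 ∧ k ∉ J), e k < K) :
    ∃ C' : ℝ, ∀ y, z < y →
      |∑ d ∈ Fintype.piFinset (fun b => cell z y (VV A (Real.log y)) (YY A (Real.log y)) (π b)),
        HH a L d| ≤ C' * (Real.log y) ^ K := by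
  classical
  obtain ⟨C', hC', h⟩ := base (L := L) hB hL hN hz A hC1 π h3 hJ2 hun hT hJt hJL hK0 hK
  have key : ∀ S : Finset ι, S ⊆ J → ∀ y, z < y → ∀ t : ι → Finset ℕ,
      (∀ k, k ∉ J → t k = cell z y (VV A (Real.log y)) (YY A (Real.log y)) (π k)) →
      (∀ k ∈ S, t k = lg z y (VV A (Real.log y)) (YY A (Real.log y))) →
      (∀ k ∈ J, k ∉ S → t k = (PP z y).divisors ∨
        t k = (PP z y).divisors.filter (fun m => m ≤ VV A (Real.log y)) ∨
        t k = (PP z y).divisors.filter (fun m => YY A (Real.log y) < m)) →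
      |∑ d ∈ Fintype.piFinset t, HH a L d| ≤ 3 ^ S.card * (C' * (Real.log y) ^ K) := by
    intro S
    induction S using Finset.induction_on with
    | empty =>
      intro _ y hy t h1 _ h2
      rw [card_empty, pow_zero, one_mul]
      exact h y hy t h1 fun k hk => h2 k hk (notMem_empty k)
    | insert j S hj ih =>
      intro hS y hy t h1 h2 h4
      have hjJ : j ∈ J := hS (mem_insert_self j S)
      have hSJ : S ⊆ J := (subset_insert j S).trans hS
      rw [split3' z y (VV A (Real.log y)) (YY A (Real.log y)) (VV_le_YY A _) t j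
        (h2 j (mem_insert_self j S))]
      have hX : ∀ X : Finset ℕ, (X = (PP z y).divisors ∨
          X = (PP z y).divisors.filter (fun m => m ≤ VV A (Real.log y)) ∨
          X = (PP z y).divisors.filter (fun m => YY A (Real.log y) < m)) →
          |∑ d ∈ Fintype.piFinset (Function.update t j X), HH a L d| ≤
            3 ^ S.card * (C' * (Real.log y) ^ K) := by
        intro X hX
        apply ih hSJ y hy
        · intro k hk
          rw [Function.update_of_ne (by rintro rfl; exact hk hjJ)]
          exact h1 k hk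
        · intro k hk
          rw [Function.update_of_ne (by rintro rfl; exact hj hk)]
          exact h2 k (mem_insert_of_mem hk)
        · intro k hk hkS
          by_cases hkj : k = j
          · subst hkj
            rw [Function.update_self]
            exact hX
          · rw [Function.update_of_ne hkj]
            apply h4 k hk
            rw [mem_insert]
            rintro (h | h)
            · exact hkj h
            · exact hkS h
      have a1 := abs_le.1 (hX _ (Or.inl rfl))
      have a2 := abs_le.1 (hX _ (Or.inr (Or.inl rfl)))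
      have a3 := abs_le.1 (hX _ (Or.inr (Or.inr rfl)))
      rw [card_insert_of_notMem hj, pow_succ, abs_le]
      constructor <;> linarith [a1.1, a1.2, a2.1, a2.2, a3.1, a3.2]
  refine ⟨3 ^ J.card * C', fun y hy => ?_⟩
  refine (key J (Subset.refl J) y hy _ (fun k _ => rfl) (fun k hk => ?_)
    (fun k hk hk' => absurd hk hk')).trans (le_of_eq (by ring))
  rw [hJ2 k hk]
  exact cell_two (by have := three_le_VV A (Real.log y); omega)

/-- all patterns -/
lemma pat (hB : Bb e a b z C N) {C2 : ℝ} {E2 : ℕ} (hC2 : 0 ≤ C2) (h2 : BW C2 E2)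
    (hL : ∀ i, L i i = false) (hN : Fintype.card ι ≤ N) (hz : Fintype.card ι ≤ z)
    (hT : ∀ i, (∃ j, L i j ≠ L j i) → ∃ B0 C1 : ℝ, TT (a i) z B0 C1) {K : ℝ} (hK0 : 0 ≤ K)
    (π : ι → Fin 4)
    (hK : ∀ U T : Finset ι, (∀ k, π k ≠ 3) → (∀ i, i ∈ U ↔ π i = 2) → (∀ i, i ∈ T ↔ π i = 1) →
      Disjoint U T →
      (∀ i ∈ U ∪ T, e i ≠ 0) → (∀ i ∈ U, ∀ j ∈ U, L i j = L j i) →
      (T = ∅ ∧ ∑ i ∈ U, e i ≤ K) ∨ ∃ J ⊆ U, (∀ j ∈ J, ∃ t ∈ T, L j t ≠ L t j) ∧
        (∀ i ∈ J, ∀ j ∈ J, L i j = false) ∧ ∑ i ∈ U \ J, e i < K) :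
    ∃ C' : ℝ, ∀ y, z < y →
      |∑ d ∈ Fintype.piFinset (fun b => cell z y (VV (6 * (Fintype.card ι + 2 * E2)) (Real.log y))
        (YY (6 * (Fintype.card ι + 2 * E2)) (Real.log y)) (π b)), HH a L d| ≤
        C' * (Real.log y) ^ K := by
  classical
  set A := 6 * (Fintype.card ι + 2 * E2) with hA
  by_cases hnull : ∃ k, e k = 0 ∧ π k ≠ 0
  · obtain ⟨k, hek, hk⟩ := hnull
    refine ⟨0, fun y hy => ?_⟩
    rw [zero_mul]
    apply le_of_eq
    rw [abs_eq_zero]
    refine sum_eq_zero fun d hd => ?_
    rw [Fintype.mem_piFinset] at hd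
    have h1 := abs_HH_le (L := L) hB (d := d) fun i => cell_sub _ _ _ _ _ (hd i)
    have h5 : 1 < d k := by
      have h6 := dv_pos (cell_sub _ _ _ _ _ (hd k))
      by_contra hcon
      have h7 : d k = 1 := by omega
      have h8 := (mem_filter.1 (hd k)).2
      rw [h7] at h8
      apply hk
      rw [← h8]
      unfold cl
      rw [if_pos le_rfl]
    have h6 : gm (b k) (d k) = 0 := by
      obtain ⟨p, hp, hpd⟩ := Nat.exists_prime_and_dvd (by omega : d k ≠ 1)
      have h7 := dv_prime (cell_sub _ _ _ _ _ (hd k)) hp hpd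
      unfold gm
      exact prod_eq_zero (Nat.mem_primeFactors.2 ⟨hp, hpd, by omega⟩) (hB.null k hek p hp h7.1)
    rw [prod_eq_zero (mem_univ k) h6] at h1
    exact abs_nonpos_iff.1 h1
  push Not at hnull
  by_cases h3 : ∃ k, π k = 3
  · obtain ⟨k, hk⟩ := h3
    refine ⟨C ^ (Fintype.card ι + 1) * (Fintype.card ι + 2).factorial, fun y hy => ?_⟩
    have hly := one_le_log hB.z2 hy
    have hC0 : 0 ≤ C := zero_le_one.trans hB.C1
    refine (tail_gen hB A hy (fun k => cell_sub _ _ _ _ _) (k := k) ?_).trans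
      (le_mul_of_one_le_right (by positivity) (Real.one_le_rpow hly hK0))
    intro m hm
    simp only [hk] at hm
    rw [mem_filter]
    exact ⟨cell_sub _ _ _ _ _ hm, cell_three hm⟩
  push Not at h3
  by_cases hl : ∃ i j, π i = 2 ∧ π j = 2 ∧ L i j ≠ L j i
  · obtain ⟨i, j, hi, hj, hij⟩ := hl
    exact link_case hB hC2 h2 hL le_rfl hK0 π hi hj hij
  push Not at hl
  rcases hK (univ.filter (fun k => π k = 2)) (univ.filter (fun k => π k = 1)) h3
    (fun i => by simp) (fun i => by simp) (by
      rw [disjoint_filter]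
      intro i _ h1 h4
      rw [h1] at h4
      exact absurd h4 (by decide))
    (by
      intro i hi h4
      have h5 := hnull i h4
      rw [mem_union, mem_filter, mem_filter, h5] at hi
      rcases hi with h | h
      · exact absurd h.2 (by decide)
      · exact absurd h.2 (by decide))
    (fun i hi j hj => hl i j (mem_filter.1 hi).2 (mem_filter.1 hj).2) with h | h
  · obtain ⟨h1, hS⟩ := h
    refine diag_case hB _ π (fun k => ?_) hS
    have a1 : π k ≠ 1 := fun h4 => by
      have : k ∈ univ.filter (fun k => π k = 1) := by simp [h4]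
      rw [h1] at this
      exact absurd this (notMem_empty k)
    have a3 := h3 k
    revert a1 a3
    generalize π k = r
    revert r
    decide
  · obtain ⟨J, hJU, hJt, hJL, hS⟩ := h
    have hJlink : ∀ i ∈ J, ∃ B0 C1 : ℝ, TT (a i) z B0 C1 := fun i hi =>
      hT i ((hJt i hi).imp fun t ht => ht.2)
    choose! B0 C1 hBC using hJlink
    set B : ℕ := J.sup (fun i => ⌈B0 i⌉₊) with hBdef
    set C3 : ℝ := ∑ i ∈ J, |C1 i| with hC3
    have hC30 : 0 ≤ C3 := sum_nonneg fun i _ => abs_nonneg _
    have hTT : ∀ i ∈ J, TT (a i) z B C3 := by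
      intro i hi y r x hy hr hrs hrp
      refine (hBC i hi y r x hy hr hrs hrp).trans ?_
      have hr3 : 3 ≤ r := by
        obtain ⟨p, hp, hpr⟩ := Nat.exists_prime_and_dvd (by omega : r ≠ 1)
        have h1 := hrp p hp hpr
        have h2 := Nat.le_of_dvd (by omega) hpr
        have := hB.z2
        omega
      have hll : 0 ≤ Real.log (Real.log r) := Real.log_nonneg (Run7.h69.AT.log_ge1 hr3)
      have h5 : B0 i ≤ B := by
        have h1 : ⌈B0 i⌉₊ ≤ B := le_sup (f := fun i => ⌈B0 i⌉₊) hi
        exact (Nat.le_ceil _).trans (by exact_mod_cast h1)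
      have h6 : C1 i ≤ C3 := (le_abs_self _).trans
        (single_le_sum (f := fun i => |C1 i|) (fun j _ => abs_nonneg _) hi)
      exact add_le_add (mul_le_mul_of_nonneg_right h5 hll) h6
    refine merged_case (L := L) hB hL hN hz A hC30 π h3 (J := J)
      (fun j hj => (mem_filter.1 (hJU hj)).2) (fun i j hi hj => hl i j hi hj) hTT
      (fun j hj => by
        obtain ⟨t, ht, hjt⟩ := hJt j hj
        exact ⟨t, (mem_filter.1 ht).2, hjt⟩) hJL hK0 ?_
    refine lt_of_le_of_lt (le_of_eq ?_) hS
    apply sum_congr _ (fun _ _ => rfl)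
    ext k
    simp only [mem_filter, mem_univ, true_and, mem_sdiff]

/-- the support -/
def supp (d : ι → ℕ) : Finset ι := univ.filter (fun i => d i ≠ 1)

open Classical in
/-- **The abstract bound, second version** -/
theorem main2 (hb : BLW) (hB : Bb e a b z C N) (hL : ∀ i, L i i = false)
    (hN : Fintype.card ι ≤ N) (hz : Fintype.card ι ≤ z)
    (hT : ∀ i, (∃ j, L i j ≠ L j i) → ∃ B0 C1 : ℝ, TT (a i) z B0 C1) {K : ℝ} (hK0 : 0 ≤ K)
    (ok : Finset ι → Prop)
    (hK : ∀ U T : Finset ι, Disjoint U T →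
      (∀ i ∈ U ∪ T, e i ≠ 0) → (∀ i ∈ U, ∀ j ∈ U, L i j = L j i) → ok (U ∪ T) →
      (T = ∅ ∧ ∑ i ∈ U, e i ≤ K) ∨ ∃ J ⊆ U, (∀ j ∈ J, ∃ t ∈ T, L j t ≠ L t j) ∧
        (∀ i ∈ J, ∀ j ∈ J, L i j = false) ∧ ∑ i ∈ U \ J, e i < K) :
    ∃ C' : ℝ, ∀ y, z < y →
      |∑ d ∈ (Tup ι z y).filter (fun d => ok (supp d)), (∏ i, gm (a i) (d i)) * Sym L k1 d| ≤
        C' * (Real.log y) ^ K := by
  obtain ⟨C2, E2, h2⟩ := hb
  have h2' : BW |C2| E2 := fun V Y hV hVY a b ha hb ha' hb' =>
    (h2 V Y hV hVY a b ha hb ha' hb').trans (by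
      apply mul_le_mul_of_nonneg_right _ (by positivity)
      exact mul_le_mul_of_nonneg_right (le_abs_self C2)
        (pow_nonneg (Real.log_natCast_nonneg Y) _))
  set A := 6 * (Fintype.card ι + 2 * E2) with hA
  -- the support of a pattern
  have hsupp : ∀ (y : ℕ) (π : ι → Fin 4), ∀ d ∈ Fintype.piFinset (fun b =>
      cell z y (VV A (Real.log y)) (YY A (Real.log y)) (π b)),
      supp d = univ.filter (fun k => π k ≠ 0) := by
    intro y π d hd
    rw [Fintype.mem_piFinset] at hd
    unfold supp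
    apply filter_congr
    intro k _
    have h6 := dv_pos (cell_sub _ _ _ _ _ (hd k))
    have h8 := (mem_filter.1 (hd k)).2
    constructor
    · intro h1 h0
      have := hd k
      rw [h0] at this
      exact h1 (cell_zero this)
    · intro h1 h0
      apply h1
      rw [← h8, h0]
      unfold cl
      rw [if_pos le_rfl]
  have hall : ∀ π : ι → Fin 4, ∃ C' : ℝ, ∀ y, z < y →
      |∑ d ∈ Fintype.piFinset (fun b => cell z y (VV A (Real.log y)) (YY A (Real.log y)) (π b)),
        (if ok (supp d) then HH a L d else 0)| ≤ C' * (Real.log y) ^ K := by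
    intro π
    by_cases hok : ok (univ.filter (fun k => π k ≠ 0))
    · obtain ⟨C', hC'⟩ := pat hB (abs_nonneg C2) h2' hL hN hz hT hK0 π
        (fun U T h3 hU hTT hd hn hun => hK U T hd hn hun (by
          have : U ∪ T = univ.filter (fun k => π k ≠ 0) := by
            ext k
            rw [mem_union, hU, hTT, mem_filter]
            simp only [mem_univ, true_and]
            have a3 := h3 k
            revert a3
            generalize π k = r
            revert r
            decide
          rw [this]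
          exact hok))
      refine ⟨C', fun y hy => ?_⟩
      refine le_trans (le_of_eq ?_) (hC' y hy)
      congr 1
      refine sum_congr rfl fun d hd => ?_
      rw [hsupp y π d hd, if_pos hok]
    · refine ⟨0, fun y hy => ?_⟩
      rw [zero_mul]
      apply le_of_eq
      rw [abs_eq_zero]
      refine sum_eq_zero fun d hd => ?_
      rw [hsupp y π d hd, if_neg hok]
  choose C' hC' using hall
  refine ⟨∑ π, C' π, fun y hy => ?_⟩
  have e1 : ∑ d ∈ (Tup ι z y).filter (fun d => ok (supp d)),
      (∏ i, gm (a i) (d i)) * Sym L k1 d =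
      ∑ d ∈ Fintype.piFinset (fun _ : ι => (PP z y).divisors),
        (if ok (supp d) then HH a L d else 0) := by
    unfold Tup
    rw [filter_filter, sum_filter]
    refine sum_congr rfl fun d _ => ?_
    unfold HH
    by_cases h1 : ok (supp d) <;> by_cases h2 : ∀ i j, i ≠ j → (d i).Coprime (d j) <;>
      simp [h1, h2]
  rw [e1, patterns z y (VV A (Real.log y)) (YY A (Real.log y)), sum_mul]
  exact (abs_sum_le_sum_abs _ _).trans (sum_le_sum fun π _ => hC' π y hy)

end BT

end Run7.h69
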