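import Mathlib
import Pool.Agent.Run7.h69.BT3

/-!
# The expansion of local conditions on tuples of divisors into symbols, general form
-/

set_option autoImplicit false
set_option linter.unusedSectionVars false

namespace Run7.h69

open Finset
open Pool.Agent.W262.RK hiding lk ff s1 s2
open Pool.Agent.W762.RK2 (Pr Pr_prime nb nb_eq_prod nb_pf nb_ne_zero mem_Ts dvd_nb nb_inj nb_dvd
  nb_true nb_dvd_PP nb_eq prod_pf nb_coprime Dl Dl_mem lab lab_eq Dl_lab sum_Tup prod_Dl sg sg_sg0
  sgn_nb Jr_dvd_ne ind lk Sym_Dl Dl_inj prod_ind avg Jr_nb_right)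
open AT (k1)
open XP (bz zmod2 prod_sz)

namespace EX

/-- the vectors -/
abbrev Bk (k : ℕ) : Type := Fin k → Bool

/-- the pairing -/
def dot {k : ℕ} (x v : Bk k) : ZMod 2 := ∑ l, bz (x l) * bz (v l)

/-- the character -/
noncomputable def ch {k : ℕ} (x h : Bk k) : ℝ := ∏ l, (if x l = true then sg (h l) else 1)

variable {k : ℕ} {z y : ℕ}

/-- the number -/
def Sn (ξ : Pr z y → Option (Bk k)) : ℕ := nb fun p => (ξ p).isSome

/-- the divisors -/
def Dn (ξ : Pr z y → Option (Bk k)) (l : Fin k) : ℕ := nb fun p => (ξ p).elim false fun v => v l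

lemma Dn_dvd (ξ : Pr z y → Option (Bk k)) (l : Fin k) : Dn ξ l ∣ Sn ξ := by
  refine nb_dvd fun p hp => ?_
  cases h : ξ p with
  | none => rw [h] at hp; exact absurd hp (by simp)
  | some a => rfl

lemma sum_big (F : ℕ → (Fin k → ℕ) → ℝ) :
    ∑ s ∈ (PP z y).divisors, ∑ d ∈ Fintype.piFinset (fun _ : Fin k => s.divisors),
      F s d = ∑ ξ : Pr z y → Option (Bk k), F (Sn ξ) (Dn ξ) := by
  rw [Finset.sum_sigma']
  symm
  refine Finset.sum_bij (fun ξ _ => ⟨Sn ξ, Dn ξ⟩) ?_ ?_ ?_ (fun _ _ => rfl)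
  · intro ξ _
    rw [Finset.mem_sigma, Fintype.mem_piFinset]
    refine ⟨Nat.mem_divisors.2 ⟨nb_dvd_PP _, Pool.Agent.W262.RK.PP_ne_zero z y⟩, fun l => ?_⟩
    have hne : Sn ξ ≠ 0 := nb_ne_zero _
    exact Nat.mem_divisors.2 ⟨Dn_dvd ξ l, hne⟩
  · intro ξ _ ξ' _ h
    have h1 : Sn ξ = Sn ξ' := congrArg Sigma.fst h
    have h2 : Dn ξ = Dn ξ' := congrArg Sigma.snd h
    funext p
    have e1 : (ξ p).isSome = (ξ' p).isSome := congrFun (nb_inj h1) p
    have e2 : ∀ l, (ξ p).elim false (fun v => v l) = (ξ' p).elim false (fun v => v l) :=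
      fun l => by
        have h5 : Dn ξ l = Dn ξ' l := congrFun h2 l
        exact congrFun (nb_inj h5) p
    cases hx : ξ p with
    | none =>
      cases hx' : ξ' p with
      | none => rfl
      | some a' => rw [hx, hx'] at e1; exact absurd e1 (by simp)
    | some a =>
      cases hx' : ξ' p with
      | none => rw [hx, hx'] at e1; exact absurd e1 (by simp)
      | some a' =>
        rw [hx, hx'] at e2
        congr 1
        funext l
        exact e2 l
  · rintro ⟨s, d⟩ hs
    rw [Finset.mem_sigma, Fintype.mem_piFinset] at hs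
    obtain ⟨hs, hd⟩ := hs
    simp only at hs hd
    have hsP : s ∣ PP z y := Nat.dvd_of_mem_divisors hs
    have hd1 : ∀ l, d l ∣ s := fun l => Nat.dvd_of_mem_divisors (hd l)
    classical
    refine ⟨fun p => if (p : ℕ) ∣ s then some (fun l => decide ((p : ℕ) ∣ d l)) else none,
      Finset.mem_univ _, ?_⟩
    have e1 : Sn (fun p : Pr z y => if (p : ℕ) ∣ s then
        some (fun l => decide ((p : ℕ) ∣ d l)) else none) = s := by
      unfold Sn
      conv_rhs => rw [← nb_eq hsP]
      congr 1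
      funext p
      by_cases h : (p : ℕ) ∣ s <;> simp [h]
    have e2 : Dn (fun p : Pr z y => if (p : ℕ) ∣ s then
        some (fun l => decide ((p : ℕ) ∣ d l)) else none) = d := by
      funext l
      unfold Dn
      conv_rhs => rw [← nb_eq ((hd1 l).trans hsP)]
      congr 1
      funext p
      by_cases h : (p : ℕ) ∣ s
      · simp [h]
      · have : ¬ (p : ℕ) ∣ d l := fun h' => h (h'.trans (hd1 l))
        simp [h, this]
    rw [e1, e2]

variable {ι : Type} [Fintype ι] [DecidableEq ι]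

/-- the link -/
def LX (vec chr : ι → Bk k) (i i' : ι) : Bool := decide (dot (chr i') (vec i) ≠ 0)

/-- the local term -/
noncomputable def Tm (T : ℕ → Bk k → Bk k → ℝ) (ξ : Pr z y → Option (Bk k)) (p : Pr z y) : ℝ :=
  (ξ p).elim 1 fun v => T p v (fun l => sgn p (Dn ξ l))

lemma dv_Dn (ξ : Pr z y → Option (Bk k)) (p : Pr z y) {v : Bk k} (hx : ξ p = some v) :
    (fun l => dv p (Dn ξ l)) = v := by
  funext l
  have : (ξ p).elim false (fun v => v l) = v l := by rw [hx]; rfl
  rw [← this]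
  unfold dv
  rw [Bool.eq_iff_iff, decide_eq_true_iff, Int.natCast_dvd_natCast]
  exact dvd_nb _ p

lemma mem_Sn (ξ : Pr z y → Option (Bk k)) (p : ℕ) :
    p ∈ (Sn ξ).primeFactors ↔ ∃ h : p ∈ PS z y, (ξ ⟨p, h⟩).isSome = true := by
  unfold Sn
  constructor
  · intro h
    have hp := Nat.prime_of_mem_primeFactors h
    have hd := Nat.dvd_of_mem_primeFactors h
    have h1 : p ∈ PS z y := by
      have := hd.trans (nb_dvd_PP _)
      exact (Pool.Agent.W262.RK.prime_dvd_PP hp).1 this
    exact ⟨h1, (dvd_nb _ ⟨p, h1⟩).1 hd⟩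
  · rintro ⟨h, h2⟩
    have := (dvd_nb (fun p => (ξ p).isSome) ⟨p, h⟩).2 h2
    exact Nat.mem_primeFactors.2 ⟨(mem_PS.1 h).2, this, nb_ne_zero _⟩

lemma prod_T (T : ℕ → Bk k → Bk k → ℝ) (ξ : Pr z y → Option (Bk k)) :
    ∏ p ∈ (Sn ξ).primeFactors, T p (fun l => dv p (Dn ξ l)) (fun l => sgn p (Dn ξ l)) =
      ∏ p : Pr z y, Tm T ξ p := by
  have h3 : ∏ p ∈ (Sn ξ).primeFactors, T p (fun l => dv p (Dn ξ l)) (fun l => sgn p (Dn ξ l)) =
      ∏ p : Pr z y, if (ξ p).isSome = true then
        T p (fun l => dv p (Dn ξ l)) (fun l => sgn p (Dn ξ l)) else 1 :=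
    prod_pf _ fun p => T p (fun l => dv p (Dn ξ l)) (fun l => sgn p (Dn ξ l))
  rw [h3]
  refine Finset.prod_congr rfl fun p _ => ?_
  unfold Tm
  cases hx : ξ p with
  | none => simp
  | some v =>
    rw [dv_Dn ξ p hx]
    simp

/-- forget the character -/
def fg (vec : ι → Bk k) (x : Option ι) : Option (Bk k) := x.map vec

/-- the local factor -/
noncomputable def G (chr : ι → Bk k) (a : ι → ℕ → ℝ) (ξ : Pr z y → Option (Bk k)) (p : Pr z y)
    (x : Option ι) : ℝ :=
  x.elim 1 fun i => a i p * ch (chr i) (fun l => sgn p (Dn ξ l))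

lemma sum_G {vec chr : ι → Bk k} {a : ι → ℕ → ℝ} {T : ℕ → Bk k → Bk k → ℝ}
    (ξ : Pr z y → Option (Bk k)) (p : Pr z y)
    (hT : ∀ v h, T p v h = ∑ i, if vec i = v then a i p * ch (chr i) h else 0) :
    ∑ x ∈ univ.filter (fun x : Option ι => fg vec x = ξ p), G chr a ξ p x = Tm T ξ p := by
  rw [Finset.sum_filter, Fintype.sum_option]
  unfold Tm
  cases hx : ξ p with
  | none => simp [fg, G]
  | some v =>
    have h0 : (if fg vec (none : Option ι) = some v then G chr a ξ p none else 0) = 0 := by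
      rw [if_neg]
      simp [fg]
    rw [h0, zero_add]
    simp only [Option.elim]
    rw [hT]
    refine sum_congr rfl fun i _ => ?_
    refine if_congr ?_ rfl rfl
    simp only [fg, Option.map_some, Option.some.injEq]

lemma bits_eq (q p : Pr z y) (x v : Bk k) (h : q = p → dot x v = 0) :
    (if dot x v = 0 then (1 : ℝ) else Jr (q : ℕ) p) =
      ∏ l, (if x l = true then (if q ≠ p ∧ v l = true then Jr (q : ℕ) p else 1) else 1) := by
  have h11 : (1 : ZMod 2) + 1 = 0 := by decide
  by_cases hqp : q = p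
  · rw [if_pos (h hqp)]
    simp [hqp]
  · have hJ : Jr (q : ℕ) p * Jr (q : ℕ) p = 1 := by
      have hnd : ¬ ((p : ℕ) : ℤ) ∣ ((q : ℕ) : ℤ) := by
        rw [Int.natCast_dvd_natCast]
        intro hd
        exact hqp (Subtype.ext ((Nat.prime_dvd_prime_iff_eq (Pr_prime p) (Pr_prime q)).1 hd).symm)
      rw [← sg_sg0 (Pr_prime p) hnd]
      unfold sg
      split_ifs <;> norm_num
    unfold dot
    rw [prod_sz _ _ _ hJ]
    refine Finset.prod_congr rfl fun l _ => ?_
    unfold bz
    rcases h1 : x l <;> rcases h3 : v l <;> simp [hqp]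

lemma rhs_term {vec chr : ι → Bk k} (hdot : ∀ i, dot (chr i) (vec i) = 0) (a : ι → ℕ → ℝ)
    (ξ : Pr z y → Option (Bk k)) (l : Pr z y → Option ι)
    (h : ∀ p, fg vec (l p) = ξ p) :
    (∏ i, gm (a i) (Dl l i)) * Pool.Agent.W262.RK.Sym (LX vec chr) k1 (Dl l) =
      ∏ p, G chr a ξ p (l p) := by
  rw [XP.prod_gm, Sym_Dl, ← Finset.prod_mul_distrib, ← Finset.prod_mul_distrib]
  refine Finset.prod_congr rfl fun p _ => ?_
  cases hl : l p with
  | none =>
    have h0 : ∀ q, lk (LX vec chr) (l q) (none : Option ι) = false := by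
      intro q
      cases l q <;> rfl
    simp [h0, G]
  | some i =>
    have hk1 : Jr (k1 i) p = 1 := AT.Jr_one_left p
    have h1 : ∀ q, (if lk (LX vec chr) (l q) (some i) = true then Jr (q : ℕ) p else 1) =
        ∏ m, (if chr i m = true then
          (if q ≠ p ∧ (ξ q).elim false (fun v => v m) = true then Jr (q : ℕ) p else 1) else 1) := by
      intro q
      rw [← h q]
      cases hq : l q with
      | none => simp [lk, fg]
      | some i' =>
        have e1 : lk (LX vec chr) (some i') (some i) = decide (dot (chr i) (vec i') ≠ 0) := rfl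
        have e2 : (if lk (LX vec chr) (some i') (some i) = true then Jr (q : ℕ) p else 1) =
            (if dot (chr i) (vec i') = 0 then (1 : ℝ) else Jr (q : ℕ) p) := by
          rw [e1]
          by_cases h5 : dot (chr i) (vec i') = 0 <;> simp [h5]
        rw [e2, bits_eq q p (chr i) (vec i')]
        · rfl
        · intro hqp
          subst hqp
          rw [hl] at hq
          have : i = i' := Option.some.inj hq
          rw [← this]
          exact hdot i
    have h2 : ∏ q : Pr z y, (if lk (LX vec chr) (l q) (some i) = true then Jr (q : ℕ) p else 1) =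
        ch (chr i) (fun m => sgn p (Dn ξ m)) := by
      have h3 : ∀ a : Bool, ∀ c : Pr z y → Bool, (if a = true then sg (sgn p (nb c : ℤ)) else 1) =
          ∏ q : Pr z y, if a = true then (if q ≠ p ∧ c q = true then Jr (q : ℕ) p else 1)
            else 1 := by
        intro a c
        cases a
        · simp
        · simp only [if_true]
          exact sgn_nb c p
      unfold Dn ch
      rw [Finset.prod_congr rfl fun q _ => h1 q, Finset.prod_comm]
      refine Finset.prod_congr rfl fun m _ => ?_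
      rw [h3]
    rw [h2]
    simp only [G, Option.elim, hk1]
    ring

/-- the condition on the support -/
def okU {κ : Type} (Q : κ → Bk k → Prop) (vec : ι → Bk k) (U : Finset ι) : Prop :=
  ∀ m, ∃ i ∈ U, Q m (vec i)

/-- the condition on the divisors -/
def okD {κ : Type} (Q : κ → Bk k → Prop) (s : ℕ) (d : Fin k → ℕ) : Prop :=
  ∀ m, ∃ p ∈ s.primeFactors, Q m (fun l => dv p (d l))

lemma okD_iff {κ : Type} (Q : κ → Bk k → Prop) (ξ : Pr z y → Option (Bk k)) :
    okD Q (Sn ξ) (Dn ξ) ↔ ∀ m, ∃ (p : Pr z y) (v : Bk k), ξ p = some v ∧ Q m v := by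
  unfold okD
  refine forall_congr' fun m => ?_
  constructor
  · rintro ⟨p, hp, hQ⟩
    obtain ⟨h, h2⟩ := (mem_Sn ξ p).1 hp
    obtain ⟨v, hv⟩ := Option.isSome_iff_exists.1 h2
    refine ⟨⟨p, h⟩, v, hv, ?_⟩
    have := dv_Dn ξ ⟨p, h⟩ hv
    rw [← this]
    exact hQ
  · rintro ⟨p, v, hv, hQ⟩
    refine ⟨p, (mem_Sn ξ p).2 ⟨p.2, by rw [Subtype.coe_eta, hv]; rfl⟩, ?_⟩
    rw [dv_Dn ξ p hv]
    exact hQ

lemma okU_iff {κ : Type} (Q : κ → Bk k → Prop) (vec : ι → Bk k) (l : Pr z y → Option ι)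
    (ξ : Pr z y → Option (Bk k)) (h : ∀ p, fg vec (l p) = ξ p) :
    okU Q vec (BT.supp (Dl l)) ↔ ∀ m, ∃ (p : Pr z y) (v : Bk k), ξ p = some v ∧ Q m v := by
  unfold okU
  refine forall_congr' fun m => ?_
  constructor
  · rintro ⟨i, hi, hQ⟩
    unfold BT.supp at hi
    rw [mem_filter] at hi
    have h1 : Dl l i ≠ 1 := hi.2
    have : ∃ p : Pr z y, l p = some i := by
      by_contra hcon
      push Not at hcon
      apply h1
      unfold Dl nb
      refine prod_eq_one fun p _ => ?_
      rw [if_neg]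
      simp [hcon p]
    obtain ⟨p, hp⟩ := this
    refine ⟨p, vec i, ?_, hQ⟩
    rw [← h p, hp]
    rfl
  · rintro ⟨p, v, hv, hQ⟩
    rw [← h p] at hv
    cases hl : l p with
    | none => rw [hl] at hv; exact absurd hv (by simp [fg])
    | some i =>
      rw [hl] at hv
      have hvi : vec i = v := by simpa [fg] using hv
      refine ⟨i, ?_, by rw [hvi]; exact hQ⟩
      unfold BT.supp
      rw [mem_filter]
      refine ⟨mem_univ _, fun h1 => ?_⟩
      have h2 : (p : ℕ) ∣ Dl l i := by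
        unfold Dl
        exact (dvd_nb _ p).2 (by simp [hl])
      rw [h1] at h2
      exact (Pr_prime p).one_lt.ne' (Nat.dvd_one.1 h2)

open Classical in
/-- the expansion -/
theorem expand {κ : Type} (Q : κ → Bk k → Prop) {vec chr : ι → Bk k}
    (hdot : ∀ i, dot (chr i) (vec i) = 0) {a : ι → ℕ → ℝ} {T : ℕ → Bk k → Bk k → ℝ}
    (hT : ∀ p : ℕ, p.Prime → z < p → ∀ v h, T p v h =
      ∑ i, if vec i = v then a i p * ch (chr i) h else 0) (y : ℕ) :
    ∑ s ∈ (PP z y).divisors, ∑ d ∈ Fintype.piFinset (fun _ : Fin k => s.divisors),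
      (if okD Q s d then ∏ p ∈ s.primeFactors, T p (fun l => dv p (d l)) (fun l => sgn p (d l))
        else 0) =
      ∑ d ∈ (Tup ι z y).filter (fun d => okU Q vec (BT.supp d)),
        (∏ i, gm (a i) (d i)) * Pool.Agent.W262.RK.Sym (LX vec chr) k1 d := by
  rw [sum_big fun s d => if okD Q s d then
      ∏ p ∈ s.primeFactors, T p (fun l => dv p (d l)) (fun l => sgn p (d l)) else 0]
  rw [sum_filter, sum_Tup fun d => if okU Q vec (BT.supp d) then
    (∏ i, gm (a i) (d i)) * Pool.Agent.W262.RK.Sym (LX vec chr) k1 d else 0]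
  rw [← Finset.sum_fiberwise univ
    (fun (l : Pr z y → Option ι) => fun p => fg vec (l p))]
  refine Finset.sum_congr rfl fun ξ _ => ?_
  have h1 : (univ.filter fun l : Pr z y → Option ι => (fun p => fg vec (l p)) = ξ) =
      Fintype.piFinset (fun p => univ.filter (fun x : Option ι => fg vec x = ξ p)) := by
    ext l
    simp only [Finset.mem_filter, Finset.mem_univ, true_and, Fintype.mem_piFinset, funext_iff]
  have hp : ∀ p : Pr z y, (p : ℕ).Prime ∧ z < p := fun p =>
    ⟨(mem_PS.1 p.2).2, (mem_PS.1 p.2).1.1⟩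
  by_cases hok : ∀ m, ∃ (p : Pr z y) (v : Bk k), ξ p = some v ∧ Q m v
  · rw [if_pos ((okD_iff Q ξ).2 hok), prod_T]
    rw [h1, Finset.prod_congr rfl fun p _ => (sum_G ξ p (hT p (hp p).1 (hp p).2)).symm,
      Finset.prod_univ_sum]
    refine Finset.sum_congr rfl fun l hl => ?_
    rw [Fintype.mem_piFinset] at hl
    have h2 : ∀ p, fg vec (l p) = ξ p := fun p => (Finset.mem_filter.1 (hl p)).2
    rw [if_pos ((okU_iff Q vec l ξ h2).2 hok)]
    exact (rhs_term hdot a ξ l h2).symm
  · rw [if_neg (fun h => hok ((okD_iff Q ξ).1 h))]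
    symm
    refine sum_eq_zero fun l hl => ?_
    have h2 : ∀ p, fg vec (l p) = ξ p := fun p => congrFun (mem_filter.1 hl).2 p
    rw [if_neg (fun h => hok ((okU_iff Q vec l ξ h2).1 h))]

end EX

end Run7.h69
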