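import Mathlib
import Pool.Agent.Run7.h69.EX
import Pool.Agent.W262.RK.MA4

/-!
# The universal family: local conditions, indices, the largest unlinked set
-/

set_option autoImplicit false
set_option linter.unusedSectionVars false

namespace Run7.h69.UF

open Finset
open Pool.Agent.W262.RK hiding lk ff s1 s2
open EX (Bk dot ch LX)

/-- the local conditions for the class `c` and the sign `e` -/
def LE (c : Fin 3) (e : Bool) (v w h g : Bool) : Bool :=
  if c = 0 then (v == w) && (xor h g == (v && e))
  else if c = 1 then (w == false) && (g == (v && e))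
  else (v == false) && (h == (w && e))

/-- pairs of vectors of length two -/
abbrev PV : Type := (Bool × Bool) × (Bool × Bool)

/-- the quadratic form -/
def qf (u : PV) : Bool := xor (u.1.1 && u.2.1) (u.1.2 && u.2.2)

/-- the symplectic form -/
def sp (u v : PV) : Bool :=
  xor (xor (u.1.1 && v.2.1) (u.1.2 && v.2.2)) (xor (v.1.1 && u.2.1) (v.1.2 && u.2.2))

/-- the divisibility vector -/
def ve (c : Fin 3) (x : Bool × Bool) : Bk 4 :=
  if c = 0 then ![x.1, x.1, x.2, x.2] else if c = 1 then ![x.1, false, x.2, false]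
  else ![false, x.1, false, x.2]

/-- the character vector -/
def cv (c : Fin 3) (x : Bool × Bool) : Bk 4 :=
  if c = 0 then ![x.1, x.1, x.2, x.2] else if c = 1 then ![false, x.1, false, x.2]
  else ![x.1, false, x.2, false]

/-- the indices -/
abbrev IX : Type := {i : Fin 3 × PV // qf i.2 = false}

/-- the vectors -/
def vec (i : IX) : Bk 4 := ve i.1.1 i.1.2.1

/-- the characters -/
def chr (i : IX) : Bk 4 := cv i.1.1 i.1.2.2

lemma hdot (i : IX) : dot (chr i) (vec i) = 0 := by
  revert i
  decide +kernel

/-- the integral character -/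
def chZ (x h : Bk 4) : ℤ := ∏ l, (if x l = true then (if h l = true then -1 else 1) else 1)

/-- the finite Fourier expansion -/
lemma fourier : ∀ v h : Bk 4,
    (2 : ℤ) * ∑ c : Fin 3, ∑ e : Bool, (if LE c e (v 0) (v 1) (h 0) (h 1) = true ∧
      LE c e (v 2) (v 3) (h 2) (h 3) = true then 1 else 0) =
    ∑ i : IX, (if vec i = v then chZ (chr i) h else 0) := by
  decide +kernel

lemma card0 : ∀ A : Finset PV, (∀ u ∈ A, qf u = false) → A.card ≤ 10 := by
  intro A hA
  have h : A ⊆ univ.filter (fun u : PV => qf u = false) := fun u hu => by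
    rw [mem_filter]
    exact ⟨mem_univ _, hA u hu⟩
  exact (card_le_card h).trans (by decide +kernel)

lemma card1 : ∀ v : PV, qf v = false → v ≠ ((false, false), (false, false)) →
    (univ.filter (fun u : PV => qf u = false ∧ sp u v = false)).card ≤ 6 := by
  decide +kernel

/-- the test of a pair -/
def tst (v v' : PV) : Bool :=
  qf v || qf v' || decide (v = ((false, false), (false, false))) ||
    decide (v' = ((false, false), (false, false))) || decide (v = v') ||
    decide ((univ.filter (fun u : PV => qf u = false ∧ sp u v = false ∧ sp u v' = false)).card ≤ 4)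

lemma tst_all : ∀ v v' : PV, tst v v' = true := by
  decide +kernel

lemma card2 (v v' : PV) (h1 : qf v = false) (h2 : qf v' = false)
    (h3 : v ≠ ((false, false), (false, false))) (h4 : v' ≠ ((false, false), (false, false)))
    (h5 : v ≠ v') :
    (univ.filter (fun u : PV => qf u = false ∧ sp u v = false ∧ sp u v' = false)).card ≤ 4 := by
  have h := tst_all v v'
  unfold tst at h
  simpa [h1, h2, h3, h4, h5] using h

lemma two_of (A B : Finset PV) (hA : ∀ u ∈ A, qf u = false) (hB : ∀ u ∈ B, qf u = false)
    (h : ∀ u ∈ A, ∀ v ∈ B, sp u v = false) :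
    (7 ≤ A.card → B.card ≤ 1) ∧ (5 ≤ A.card → B.card ≤ 2) := by
  have hsub : B ⊆ insert ((false, false), (false, false))
      (B.erase ((false, false), (false, false))) := by
    intro x hx
    rw [mem_insert, mem_erase]
    by_cases h0 : x = ((false, false), (false, false))
    · exact Or.inl h0
    · exact Or.inr ⟨h0, hx⟩
  have hc := (card_le_card hsub).trans (card_insert_le _ _)
  constructor
  · intro h7
    by_contra hcon
    have h1 : 0 < (B.erase ((false, false), (false, false))).card := by omega
    obtain ⟨v, hv⟩ := card_pos.1 h1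
    rw [mem_erase] at hv
    have h2 := card1 v (hB v hv.2) hv.1
    have h3 : A ⊆ univ.filter (fun u : PV => qf u = false ∧ sp u v = false) := fun u hu => by
      rw [mem_filter]
      exact ⟨mem_univ _, hA u hu, h u hu v hv.2⟩
    have := card_le_card h3
    omega
  · intro h5
    by_contra hcon
    have h1 : 1 < (B.erase ((false, false), (false, false))).card := by omega
    obtain ⟨v, hv, v', hv', hne⟩ := one_lt_card.1 h1
    rw [mem_erase] at hv hv'
    have h2 := card2 v v' (hB v hv.2) (hB v' hv'.2) hv.1 hv'.1 hne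
    have h3 : A ⊆ univ.filter (fun u : PV => qf u = false ∧ sp u v = false ∧ sp u v' = false) :=
      fun u hu => by
        rw [mem_filter]
        exact ⟨mem_univ _, hA u hu, h u hu v hv.2, h u hu v' hv'.2⟩
    have := card_le_card h3
    omega

lemma sp_comm (u v : PV) : sp u v = sp v u := by
  revert u v
  decide +kernel

lemma card3 (A B C : Finset PV) (hA : ∀ u ∈ A, qf u = false) (hB : ∀ u ∈ B, qf u = false)
    (hC : ∀ u ∈ C, qf u = false) (hAB : ∀ u ∈ A, ∀ v ∈ B, sp u v = false)
    (hAC : ∀ u ∈ A, ∀ v ∈ C, sp u v = false) (hBC : ∀ u ∈ B, ∀ v ∈ C, sp u v = false) :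
    A.card + B.card + C.card ≤ 12 := by
  have hBA : ∀ u ∈ B, ∀ v ∈ A, sp u v = false := fun u hu v hv => by
    rw [sp_comm]; exact hAB v hv u hu
  have hCA : ∀ u ∈ C, ∀ v ∈ A, sp u v = false := fun u hu v hv => by
    rw [sp_comm]; exact hAC v hv u hu
  have hCB : ∀ u ∈ C, ∀ v ∈ B, sp u v = false := fun u hu v hv => by
    rw [sp_comm]; exact hBC v hv u hu
  have a := card0 A hA
  have b := card0 B hB
  have c := card0 C hC
  have h1 := two_of A B hA hB hAB
  have h2 := two_of A C hA hC hAC
  have h3 := two_of B A hB hA hBA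
  have h4 := two_of B C hB hC hBC
  have h5 := two_of C A hC hA hCA
  have h6 := two_of C B hC hB hCB
  omega

lemma link : ∀ c c' : Fin 3, c ≠ c' → ∀ u u' : PV,
    decide (dot (cv c' u'.2) (ve c u.1) ≠ 0) = decide (dot (cv c u.2) (ve c' u'.1) ≠ 0) →
    sp u u' = false := by
  decide +kernel

/-- the part of a class -/
def prt (U : Finset IX) (c : Fin 3) : Finset PV :=
  (U.filter (fun i => i.1.1 = c)).image (fun i => i.1.2)

lemma card_prt (U : Finset IX) (c : Fin 3) : (prt U c).card = (U.filter (fun i => i.1.1 = c)).card := by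
  unfold prt
  rw [card_image_of_injOn]
  intro i hi j hj hij
  have hi' := (mem_filter.1 hi).2
  have hj' := (mem_filter.1 hj).2
  exact Subtype.ext (Prod.ext (hi'.trans hj'.symm) hij)

lemma prt_q (U : Finset IX) (c : Fin 3) : ∀ u ∈ prt U c, qf u = false := by
  intro u hu
  unfold prt at hu
  obtain ⟨i, _, rfl⟩ := mem_image.1 hu
  exact i.2

lemma prt_sp (U : Finset IX) (hU : ∀ i ∈ U, ∀ j ∈ U, LX vec chr i j = LX vec chr j i)
    {c c' : Fin 3} (hc : c ≠ c') : ∀ u ∈ prt U c, ∀ v ∈ prt U c', sp u v = false := by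
  intro u hu v hv
  unfold prt at hu hv
  obtain ⟨i, hi, rfl⟩ := mem_image.1 hu
  obtain ⟨j, hj, rfl⟩ := mem_image.1 hv
  rw [mem_filter] at hi hj
  have h := hU i hi.1 j hj.1
  unfold LX vec chr at h
  rw [hi.2, hj.2] at h
  exact link c c' hc _ _ h

/-- the largest unlinked set -/
theorem comb (U : Finset IX) (hU : ∀ i ∈ U, ∀ j ∈ U, LX vec chr i j = LX vec chr j i) :
    U.card ≤ 12 := by
  have h0 : U.card = (prt U 0).card + (prt U 1).card + (prt U 2).card := by
    rw [card_prt, card_prt, card_prt]
    have h1 : ∀ i ∈ U, i.1.1 ∈ (univ : Finset (Fin 3)) := fun _ _ => mem_univ _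
    rw [card_eq_sum_card_fiberwise h1, Fin.sum_univ_three]
  rw [h0]
  exact card3 _ _ _ (prt_q U 0) (prt_q U 1) (prt_q U 2) (prt_sp U hU (by decide))
    (prt_sp U hU (by decide)) (prt_sp U hU (by decide))

end Run7.h69.UF
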