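import Mathlib
import Pool.Agent.Run7.h69.UA1
import Pool.Agent.Run7.h69.LD3

/-!
# The universal family: the average of the square of the local count
-/

set_option autoImplicit false
set_option linter.unusedSectionVars false

namespace Run7.h69.UF

open Finset
open Pool.Agent.W262.RK hiding lk ff s1 s2
open Pool.Agent.W125.RK2 (NL_congr sub4)
open EX (Bk dot ch LX)
open AT (k1)

/-- the local conditions for given types -/
def LT (τ : ℕ → Fin 3 × Bool) (p : ℕ) (v w h g : Bool) : Prop :=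
  LE (τ p).1 (τ p).2 v w h g = true

lemma LE_add : ∀ (c : Fin 3) (e v w h g v' w' h' g' : Bool),
    (LE c e v w h g && LE c e v' w' h' g' && !(LE c e (xor v v') (xor w w') (xor h h') (xor g g')))
      = false := by
  decide +kernel

lemma xcl (τ : ℕ → Fin 3 × Bool) (p : ℕ) : XC (LT τ p) := by
  refine ⟨?_, ?_⟩
  · unfold LT
    generalize (τ p).1 = c
    generalize (τ p).2 = e
    revert c e
    decide
  · intro a b c d a' b' c' d' h h'
    unfold LT at h h' ⊢
    have := LE_add (τ p).1 (τ p).2 a b c d a' b' c' d'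
    rw [h, h'] at this
    simpa using this

/-- the extension to all the primes -/
def exf (s : ℕ) (τ : s.primeFactors → Fin 3 × Bool) (p : ℕ) : Fin 3 × Bool :=
  if h : p ∈ s.primeFactors then τ ⟨p, h⟩ else (0, false)

/-- the average over the types -/
noncomputable def GS (s : ℕ) : ℝ :=
  (1 / 6) ^ s.primeFactors.card * ∑ τ : s.primeFactors → Fin 3 × Bool, (NL s (LT (exf s τ)) : ℝ) ^ 2

lemma GS_nonneg (s : ℕ) : 0 ≤ GS s := by
  unfold GS
  positivity

/-- submultiplicativity -/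
theorem subG {z y s e : ℕ} (h : s * e ∣ PP z y) : GS (s * e) ≤ 16 ^ e.primeFactors.card * GS s := by
  classical
  have hse : s * e ∈ (PP z y).divisors := Nat.mem_divisors.2 ⟨h, PP_ne_zero z y⟩
  have hsq := dv_squarefree hse
  have hcop := Nat.coprime_of_squarefree_mul hsq
  have hdis : Disjoint s.primeFactors e.primeFactors := hcop.disjoint_primeFactors
  have hpf : (s * e).primeFactors = s.primeFactors ∪ e.primeFactors := hcop.primeFactors_mul
  have hs : s.primeFactors ⊆ (s * e).primeFactors := by rw [hpf]; exact subset_union_left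
  have he : e.primeFactors ⊆ (s * e).primeFactors := by rw [hpf]; exact subset_union_right
  set rs : ((s * e).primeFactors → Fin 3 × Bool) → (s.primeFactors → Fin 3 × Bool) :=
    fun τ p => τ ⟨p.1, hs p.2⟩ with hrs
  set re : ((s * e).primeFactors → Fin 3 × Bool) → (e.primeFactors → Fin 3 × Bool) :=
    fun τ p => τ ⟨p.1, he p.2⟩ with hre
  set F : (s.primeFactors → Fin 3 × Bool) → ℝ := fun σ => (NL s (LT (exf s σ)) : ℝ) ^ 2 with hF
  have hF0 : ∀ σ, 0 ≤ F σ := fun σ => by rw [hF]; positivity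
  have h1 : ∀ τ : (s * e).primeFactors → Fin 3 × Bool,
      (NL (s * e) (LT (exf (s * e) τ)) : ℝ) ^ 2 ≤ 16 ^ e.primeFactors.card * F (rs τ) := by
    intro τ
    have h2 := sub4 s e (LT (exf (s * e) τ)) hsq (fun p hp hps => xcl _ p)
    have h3 : NL s (LT (exf (s * e) τ)) = NL s (LT (exf s (rs τ))) := by
      apply NL_congr
      intro p hp
      have h4 : exf (s * e) τ p = exf s (rs τ) p := by
        unfold exf
        rw [dif_pos (hs hp), dif_pos hp]
      unfold LT
      rw [h4]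
    rw [h3] at h2
    have h5 : (NL (s * e) (LT (exf (s * e) τ)) : ℝ) ≤
        4 ^ e.primeFactors.card * (NL s (LT (exf s (rs τ))) : ℝ) := by exact_mod_cast h2
    calc (NL (s * e) (LT (exf (s * e) τ)) : ℝ) ^ 2
        ≤ (4 ^ e.primeFactors.card * (NL s (LT (exf s (rs τ))) : ℝ)) ^ 2 :=
          pow_le_pow_left₀ (Nat.cast_nonneg _) h5 2
      _ = _ := by
          rw [mul_pow, ← pow_mul, mul_comm _ 2, pow_mul, hF]
          norm_num
  have h2 : ∑ τ : (s * e).primeFactors → Fin 3 × Bool, F (rs τ) ≤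
      6 ^ e.primeFactors.card * ∑ σ : s.primeFactors → Fin 3 × Bool, F σ := by
    have hinj : Function.Injective (fun τ : (s * e).primeFactors → Fin 3 × Bool => (rs τ, re τ)) := by
      intro τ τ' heq
      have e1 : rs τ = rs τ' := congrArg Prod.fst heq
      have e2 : re τ = re τ' := congrArg Prod.snd heq
      funext p
      have hp : p.1 ∈ s.primeFactors ∪ e.primeFactors := hpf ▸ p.2
      rw [mem_union] at hp
      rcases hp with hp | hp
      · exact congrFun e1 ⟨p.1, hp⟩
      · exact congrFun e2 ⟨p.1, hp⟩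
    calc ∑ τ : (s * e).primeFactors → Fin 3 × Bool, F (rs τ)
        = ∑ x ∈ univ.image (fun τ : (s * e).primeFactors → Fin 3 × Bool => (rs τ, re τ)), F x.1 := by
          rw [sum_image (fun a _ b _ hab => hinj hab)]
      _ ≤ ∑ x : (s.primeFactors → Fin 3 × Bool) × (e.primeFactors → Fin 3 × Bool), F x.1 :=
          sum_le_sum_of_subset_of_nonneg (subset_univ _) (fun x _ _ => hF0 _)
      _ = _ := by
          rw [Fintype.sum_prod_type]
          simp only [sum_const, card_univ, nsmul_eq_mul]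
          rw [← mul_sum, Fintype.card_fun, Fintype.card_prod, Fintype.card_fin, Fintype.card_bool,
            Fintype.card_coe]
          push_cast
          norm_num
  unfold GS
  have hc : (s * e).primeFactors.card = s.primeFactors.card + e.primeFactors.card := by
    rw [hpf, card_union_of_disjoint hdis]
  calc (1 / 6 : ℝ) ^ (s * e).primeFactors.card *
        ∑ τ : (s * e).primeFactors → Fin 3 × Bool, (NL (s * e) (LT (exf (s * e) τ)) : ℝ) ^ 2
      ≤ (1 / 6 : ℝ) ^ (s * e).primeFactors.card *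
        ∑ τ : (s * e).primeFactors → Fin 3 × Bool, 16 ^ e.primeFactors.card * F (rs τ) :=
        mul_le_mul_of_nonneg_left (sum_le_sum fun τ _ => h1 τ) (by positivity)
    _ ≤ (1 / 6 : ℝ) ^ (s * e).primeFactors.card * (16 ^ e.primeFactors.card *
        (6 ^ e.primeFactors.card * ∑ σ : s.primeFactors → Fin 3 × Bool, F σ)) := by
        rw [← mul_sum]
        exact mul_le_mul_of_nonneg_left (mul_le_mul_of_nonneg_left h2 (by positivity))
          (by positivity)
    _ = _ := by
        rw [hc, pow_add]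
        have e1 : (1 / 6 : ℝ) ^ e.primeFactors.card * 6 ^ e.primeFactors.card = 1 := by
          rw [← mul_pow]
          norm_num
        calc (1 / 6 : ℝ) ^ s.primeFactors.card * (1 / 6) ^ e.primeFactors.card *
              (16 ^ e.primeFactors.card * (6 ^ e.primeFactors.card *
                ∑ σ : s.primeFactors → Fin 3 × Bool, F σ))
            = ((1 / 6 : ℝ) ^ e.primeFactors.card * 6 ^ e.primeFactors.card) *
              (16 ^ e.primeFactors.card * ((1 / 6 : ℝ) ^ s.primeFactors.card *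
                ∑ σ : s.primeFactors → Fin 3 × Bool, F σ)) := by ring
          _ = _ := by rw [e1, one_mul]

/-- the weight at a prime -/
noncomputable def bb (p : ℕ) : ℝ := 3 / ((p : ℝ) - 3)

/-- the local function -/
noncomputable def TF (p : ℕ) (v h : Bk 4) : ℝ :=
  1 / (2 * ((p : ℝ) - 3)) * ∑ x : Fin 3 × Bool, (if LE x.1 x.2 (v 0) (v 1) (h 0) (h 1) = true ∧
      LE x.1 x.2 (v 2) (v 3) (h 2) (h 3) = true then 1 else 0)

lemma TF_eq (p : ℕ) (v h : Bk 4) : TF p v h =
    ∑ i : IX, if vec i = v then (1 / 4) / ((p : ℝ) - 3) * ch (chr i) h else 0 := by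
  have h1 := fourier v h
  have h2 : (2 : ℝ) * ∑ x : Fin 3 × Bool, (if LE x.1 x.2 (v 0) (v 1) (h 0) (h 1) = true ∧
      LE x.1 x.2 (v 2) (v 3) (h 2) (h 3) = true then (1 : ℝ) else 0) =
      ∑ i : IX, (if vec i = v then ch (chr i) h else 0) := by
    rw [Fintype.sum_prod_type]
    have h3 := congrArg (fun n : ℤ => (n : ℝ)) h1
    push_cast at h3
    rw [h3]
    refine sum_congr rfl fun i _ => ?_
    split_ifs
    · unfold chZ ch Pool.Agent.W762.RK2.sg
      push_cast
      rfl
    · rfl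
  unfold TF
  have e : (1 : ℝ) / (2 * ((p : ℝ) - 3)) * ∑ x : Fin 3 × Bool,
      (if LE x.1 x.2 (v 0) (v 1) (h 0) (h 1) = true ∧
      LE x.1 x.2 (v 2) (v 3) (h 2) (h 3) = true then (1 : ℝ) else 0) =
      (1 / 4) / ((p : ℝ) - 3) * (2 * ∑ x : Fin 3 × Bool,
      (if LE x.1 x.2 (v 0) (v 1) (h 0) (h 1) = true ∧
      LE x.1 x.2 (v 2) (v 3) (h 2) (h 3) = true then (1 : ℝ) else 0)) := by
    rw [mul_comm (2 : ℝ) ((p : ℝ) - 3), one_div, mul_inv]
    ring
  rw [e, h2, mul_sum]
  refine sum_congr rfl fun i _ => ?_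
  split_ifs
  · rfl
  · rw [mul_zero]

lemma sum4 (D : Finset ℕ) (f : ℕ → ℕ → ℕ → ℕ → ℝ) :
    ∑ d ∈ Fintype.piFinset (fun _ : Fin 4 => D), f (d 0) (d 1) (d 2) (d 3) =
      ∑ x ∈ (D ×ˢ D) ×ˢ (D ×ˢ D), f x.1.1 x.1.2 x.2.1 x.2.2 := by
  refine sum_bij' (fun d _ => ((d 0, d 1), (d 2, d 3)))
    (fun x _ => ![x.1.1, x.1.2, x.2.1, x.2.2]) ?_ ?_ ?_ ?_ ?_
  · intro d hd
    rw [Fintype.mem_piFinset] at hd
    simp only [mem_product]
    exact ⟨⟨hd 0, hd 1⟩, ⟨hd 2, hd 3⟩⟩
  · intro x hx
    simp only [mem_product] at hx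
    rw [Fintype.mem_piFinset]
    intro i
    fin_cases i
    · exact hx.1.1
    · exact hx.1.2
    · exact hx.2.1
    · exact hx.2.2
  · intro d _
    funext i
    fin_cases i <;> rfl
  · intro x _
    rfl
  · intro d _
    rfl

lemma NL_sq (s : ℕ) (τ : ℕ → Fin 3 × Bool) : ((NL s (LT τ) : ℕ) : ℝ) ^ 2 =
    ∑ d ∈ Fintype.piFinset (fun _ : Fin 4 => s.divisors), ∏ p ∈ s.primeFactors,
      (if LE (τ p).1 (τ p).2 (dv p (d 0)) (dv p (d 1)) (sgn p (d 0)) (sgn p (d 1)) = true ∧
        LE (τ p).1 (τ p).2 (dv p (d 2)) (dv p (d 3)) (sgn p (d 2)) (sgn p (d 3)) = true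
        then (1 : ℝ) else 0) := by
  classical
  have h1 : ((NL s (LT τ) : ℕ) : ℝ) = ∑ d ∈ s.divisors ×ˢ s.divisors, ∏ p ∈ s.primeFactors,
      (if LE (τ p).1 (τ p).2 (dv p d.1) (dv p d.2) (sgn p d.1) (sgn p d.2) = true
        then (1 : ℝ) else 0) := by
    unfold NL LT
    rw [card_filter, Nat.cast_sum]
    refine sum_congr rfl fun d _ => ?_
    rw [prod_ite_zero, prod_const_one]
    push_cast
    congr 1
  rw [sum4 s.divisors (fun a b c e => ∏ p ∈ s.primeFactors,
      (if LE (τ p).1 (τ p).2 (dv p a) (dv p b) (sgn p a) (sgn p b) = true ∧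
        LE (τ p).1 (τ p).2 (dv p c) (dv p e) (sgn p c) (sgn p e) = true
        then (1 : ℝ) else 0)), sum_product, sq, h1, sum_mul_sum]
  refine sum_congr rfl fun x _ => sum_congr rfl fun x' _ => ?_
  rw [← prod_mul_distrib]
  refine prod_congr rfl fun p _ => ?_
  by_cases h2 : LE (τ p).1 (τ p).2 (dv p x.1) (dv p x.2) (sgn p x.1) (sgn p x.2) = true <;>
  by_cases h3 : LE (τ p).1 (τ p).2 (dv p x'.1) (dv p x'.2) (sgn p x'.1) (sgn p x'.2) = true <;>
  simp [h2, h3]

/-- the average as a sum of local products -/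
lemma GS_expand (s : ℕ) : GS s * gm bb s =
    ∑ d ∈ Fintype.piFinset (fun _ : Fin 4 => s.divisors), ∏ p ∈ s.primeFactors,
      TF p (fun l => dv p (d l)) (fun l => sgn p (d l)) := by
  classical
  have h0 : (1 / 6 : ℝ) ^ s.primeFactors.card * gm bb s =
      ∏ p ∈ s.primeFactors, 1 / (2 * ((p : ℝ) - 3)) := by
    unfold gm
    rw [← prod_const, ← prod_mul_distrib]
    refine prod_congr rfl fun p _ => ?_
    unfold bb
    rw [one_div, one_div, mul_inv, div_eq_mul_inv, ← mul_assoc]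
    norm_num
  unfold GS
  have h1 : ∀ τ : s.primeFactors → Fin 3 × Bool, ((NL s (LT (exf s τ)) : ℕ) : ℝ) ^ 2 =
      ∑ d ∈ Fintype.piFinset (fun _ : Fin 4 => s.divisors), ∏ p : s.primeFactors,
      (if LE (τ p).1 (τ p).2 (dv p (d 0)) (dv p (d 1)) (sgn p (d 0)) (sgn p (d 1)) = true ∧
        LE (τ p).1 (τ p).2 (dv p (d 2)) (dv p (d 3)) (sgn p (d 2)) (sgn p (d 3)) = true
        then (1 : ℝ) else 0) := by
    intro τ
    rw [NL_sq]
    refine sum_congr rfl fun d _ => ?_
    rw [← prod_coe_sort]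
    refine prod_congr rfl fun p _ => ?_
    have : exf s τ p.1 = τ p := by
      unfold exf
      rw [dif_pos p.2]
    rw [this]
  rw [sum_congr rfl fun τ _ => h1 τ, sum_comm, mul_assoc, mul_comm (∑ d ∈ _, _) (gm bb s),
    ← mul_assoc, h0, mul_sum]
  refine sum_congr rfl fun d _ => ?_
  have h2 : ∑ τ : s.primeFactors → Fin 3 × Bool, ∏ p : s.primeFactors,
      (if LE (τ p).1 (τ p).2 (dv p (d 0)) (dv p (d 1)) (sgn p (d 0)) (sgn p (d 1)) = true ∧
        LE (τ p).1 (τ p).2 (dv p (d 2)) (dv p (d 3)) (sgn p (d 2)) (sgn p (d 3)) = true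
        then (1 : ℝ) else 0) =
      ∏ p : s.primeFactors, ∑ x : Fin 3 × Bool,
        (if LE x.1 x.2 (dv p (d 0)) (dv p (d 1)) (sgn p (d 0)) (sgn p (d 1)) = true ∧
        LE x.1 x.2 (dv p (d 2)) (dv p (d 3)) (sgn p (d 2)) (sgn p (d 3)) = true
        then (1 : ℝ) else 0) := by
    rw [prod_univ_sum, Fintype.piFinset_univ]
  rw [h2, ← prod_coe_sort s.primeFactors (fun p => 1 / (2 * ((p : ℝ) - 3))),
    ← prod_mul_distrib, ← prod_coe_sort s.primeFactors (fun p =>
      TF p (fun l => dv p (d l)) (fun l => sgn p (d l)))]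
  rfl

/-- **the average of the square of the local count** -/
theorem avg : ∃ z0 : ℕ, ∀ z, z0 ≤ z → ∃ C : ℝ, ∀ y : ℕ, z < y →
    ∑ s ∈ (PP z y).divisors, GS s * gm bb s ≤ C * (Real.log y) ^ 3 := by
  classical
  obtain ⟨z0, hz0⟩ := at_thm IX (fun _ => 1 / 4) (LX vec chr) k1 3 3
    (fun _ => by norm_num) (fun i => by
      unfold LX
      rw [hdot i]
      simp)
    (fun i => by unfold k1; exact one_ne_zero) (fun U hU => by
      have h := comb U hU
      rw [sum_const, nsmul_eq_mul]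
      have h' : ((U.card : ℕ) : ℝ) ≤ 12 := by exact_mod_cast h
      linarith)
  refine ⟨max z0 3, fun z hz => ?_⟩
  obtain ⟨C, hC⟩ := hz0 z (le_trans (le_max_left _ _) hz)
  have hz3 : 3 ≤ z := le_trans (le_max_right _ _) hz
  refine ⟨C, fun y hy => ?_⟩
  have h1 : ∑ s ∈ (PP z y).divisors, GS s * gm bb s =
      ∑ s ∈ (PP z y).divisors, ∑ d ∈ Fintype.piFinset (fun _ : Fin 4 => s.divisors),
      (if EX.okD (κ := PEmpty) (fun _ _ => True) s d then ∏ p ∈ s.primeFactors,
        TF p (fun l => dv p (d l)) (fun l => sgn p (d l)) else 0) := by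
    refine sum_congr rfl fun s hs => ?_
    rw [GS_expand s]
    refine sum_congr rfl fun d _ => ?_
    rw [if_pos]
    intro m
    exact m.elim
  rw [h1, EX.expand (κ := PEmpty) (fun _ _ => True) (vec := vec) (chr := chr) hdot
    (a := fun _ p => (1 / 4) / ((p : ℝ) - 3)) (T := TF) (z := z)
    (fun p _ _ v h => TF_eq p v h) y]
  have h2 : (Tup IX z y).filter (fun d => EX.okU (κ := PEmpty) (fun _ _ => True) vec
      (BT.supp d)) = Tup IX z y := by
    apply filter_true_of_mem
    intro d _ m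
    exact m.elim
  rw [h2]
  have h3 := hC y hy
  have h4 : ∀ d : IX → ℕ, ∏ i : IX, gm (fun p => (1 / 4 : ℝ) / ((p : ℝ) - 3)) (d i) =
      ∏ i : IX, gw (1 / 4) 3 (d i) := by
    intro d
    refine prod_congr rfl fun i _ => ?_
    unfold gm gw
    push_cast
    rfl
  simp only [h4]
  refine (le_abs_self _).trans (h3.trans (le_of_eq ?_))
  rw [show (3 : ℝ) = ((3 : ℕ) : ℝ) by norm_num, Real.rpow_natCast]

end Run7.h69.UF
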