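import Mathlib
import Pool.Agent.Run7.h69.NA
import Pool.Agent.W340.RT.SVR2

/-!
# The sieve in a square
-/

set_option autoImplicit false
set_option linter.unusedSectionVars false

namespace Run7.h69.UF

open Finset
open Pool.Agent.W262.RK hiding lk ff s1 s2

/-- no prime of `(z, y]` prime to `m` divides `a - β j` -/
def Sl {J : Type} (z y m : ℕ) (β : J → ℤ) (a : ℤ) : Prop :=
  ∀ p ∈ PS z y, ¬ p ∣ m → ∀ j, ¬ (p : ℤ) ∣ a - β j

open Classical in
/-- one slice -/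
lemma slice (J : Type) [Fintype J] [DecidableEq J] {z : ℕ} (hz : 2 * Fintype.card J + 2 ≤ z) :
    ∃ (C : ℝ) (K y0 : ℕ), 0 ≤ C ∧ 1 ≤ K ∧ ∀ X y : ℕ, y0 ≤ y → z < y → y ^ K ≤ X →
      ∀ (x r : ℤ) (m : ℕ) (β : J → ℤ), 1 ≤ m → m ^ 4 ≤ X →
      (∀ p ∈ PS z y, ¬ p ∣ m → ∀ j l, j ≠ l → ¬ (p : ℤ) ∣ β j - β l) →
      (((Ioc x (x + X)).filter (fun a : ℤ => (m : ℤ) ∣ a - r ∧ Sl z y m β a)).card : ℝ) ≤
        C * (X / m) * (∏ p ∈ m.primeFactors.filter (fun p => p ∈ PS z y),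
          (p : ℝ) / ((p : ℝ) - Fintype.card J)) / (Real.log y) ^ (Fintype.card J) := by
  obtain ⟨C, K, y0, hC, hK, h⟩ := Pool.Agent.W340.RT.SVR2.svr2 J z hz
  refine ⟨C, K, y0, hC, hK, ?_⟩
  intro X y hy0 hzy hyK x r m β hm hm4 hβ
  have hm0 : (0 : ℤ) < m := by exact_mod_cast hm
  have h1 := h X y hy0 hzy hyK (fun _ => 1) (fun j => x - β j) m m ((r - x) % m).toNat hm
    dvd_rfl (by omega) hm4 (by
      intro p hp hpm
      have hpp := (mem_PS.1 hp).2
      refine ⟨fun j => ?_, fun j l hjl => ?_⟩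
      · intro h2
        have h3 := Int.natCast_dvd_natCast.1 (by simpa using h2 : (p : ℤ) ∣ ((1 : ℕ) : ℤ))
        exact hpp.one_lt.ne' (Nat.dvd_one.1 h3)
      · intro h2
        apply hβ p hp hpm j l hjl
        unfold Res at h2
        have e : (1 : ℤ) * (x - β l) - 1 * (x - β j) = β j - β l := by ring
        rwa [e] at h2)
  refine le_trans ?_ h1
  rw [Nat.cast_le]
  refine card_le_card_of_injOn (fun a => (a - x).toNat) ?_ ?_
  · intro a ha
    rw [mem_coe, mem_filter, mem_Ioc] at ha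
    obtain ⟨⟨h2, h3⟩, h4, h5⟩ := ha
    have hcast : (((a - x).toNat : ℕ) : ℤ) = a - x := Int.toNat_of_nonneg (by omega)
    rw [mem_coe, mem_filter, mem_Icc]
    beta_reduce
    refine ⟨⟨by omega, by omega⟩, ?_, ?_⟩
    · rw [← Int.natCast_modEq_iff, hcast, Int.toNat_of_nonneg (Int.emod_nonneg _ hm0.ne')]
      have h6 : (r - x) % m ≡ r - x [ZMOD m] := Int.mod_modEq _ _
      refine Int.ModEq.trans ?_ h6.symm
      rw [Int.modEq_iff_dvd]
      have e : r - x - (a - x) = -(a - r) := by ring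
      rw [e, dvd_neg]
      exact h4
    · intro p hp hpm j h6
      apply h5 p hp hpm j
      unfold Pool.Agent.W262.RK.ff at h6
      rw [hcast] at h6
      have e : (1 : ℤ) * (a - x) + (x - β j) = a - β j := by ring
      rwa [e] at h6
  · intro a ha a' ha' haa
    rw [mem_coe, mem_filter, mem_Ioc] at ha ha'
    simp only at haa
    omega

/-- the square -/
noncomputable def Bx (x : ℤ × ℤ) (X : ℕ) : Finset (ℤ × ℤ) := Ioc x.1 (x.1 + X) ×ˢ Ioc x.2 (x.2 + X)

/-- the product -/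
def FF (t : ℤ × ℤ) : ℤ := t.1 * t.2 * (t.1 - t.2)

/-- the sieve in the square -/
theorem sieve {z : ℕ} (hz : 6 ≤ z) :
    ∃ (C : ℝ) (K y0 : ℕ), 0 ≤ C ∧ 1 ≤ K ∧ ∀ X y : ℕ, y0 ≤ y → z < y → y ^ K ≤ X →
      ∀ (x r : ℤ × ℤ) (m : ℕ), 1 ≤ m → m ^ 4 ≤ X →
      (((Bx x X).filter (fun t : ℤ × ℤ => ((m : ℤ) ∣ t.1 - r.1 ∧ (m : ℤ) ∣ t.2 - r.2) ∧
        ∀ p ∈ PS z y, ¬ p ∣ m → ¬ (p : ℤ) ∣ FF t)).card : ℝ) ≤
        C * (X / m) ^ 2 * (∏ p ∈ m.primeFactors.filter (fun p => p ∈ PS z y),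
          (p : ℝ) / ((p : ℝ) - 3)) / (Real.log y) ^ 3 := by
  classical
  obtain ⟨C1, K1, y1, hC1, hK1, h1⟩ := slice (Fin 1) (z := z) (by rw [Fintype.card_fin]; omega)
  obtain ⟨C2, K2, y2, hC2, hK2, h2⟩ := slice (Fin 2) (z := z) (by rw [Fintype.card_fin]; omega)
  rw [Fintype.card_fin] at h1 h2
  refine ⟨C1 * C2, K1 + K2, y1 + y2, by positivity, by omega, ?_⟩
  intro X y hy0 hzy hyK x r m hm hm4
  have hy1 : 1 ≤ y := by omega
  have hyK1 : y ^ K1 ≤ X := le_trans (Nat.pow_le_pow_right hy1 (by omega)) hyK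
  have hyK2 : y ^ K2 ≤ X := le_trans (Nat.pow_le_pow_right hy1 (by omega)) hyK
  have hyr : (3 : ℝ) ≤ y := by exact_mod_cast (by omega : 3 ≤ y)
  have hlog : 0 < Real.log y := Real.log_pos (by linarith)
  set S := (Bx x X).filter (fun t : ℤ × ℤ => ((m : ℤ) ∣ t.1 - r.1 ∧ (m : ℤ) ∣ t.2 - r.2) ∧
        ∀ p ∈ PS z y, ¬ p ∣ m → ¬ (p : ℤ) ∣ FF t) with hS
  set T := (Ioc x.2 (x.2 + X)).filter (fun b : ℤ => (m : ℤ) ∣ b - r.2 ∧
    Sl z y m (fun _ : Fin 1 => (0 : ℤ)) b) with hT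
  set P1 : ℝ := ∏ p ∈ m.primeFactors.filter (fun p => p ∈ PS z y), (p : ℝ) / ((p : ℝ) - (1 : ℕ))
    with hP1
  set P2 : ℝ := ∏ p ∈ m.primeFactors.filter (fun p => p ∈ PS z y), (p : ℝ) / ((p : ℝ) - (2 : ℕ))
    with hP2
  have hmap : ∀ t ∈ S, t.2 ∈ T := by
    intro t ht
    rw [hS, mem_filter] at ht
    obtain ⟨ht1, ⟨ht2, ht3⟩, ht4⟩ := ht
    unfold Bx at ht1
    rw [mem_product] at ht1
    rw [hT, mem_filter]
    refine ⟨ht1.2, ht3, fun p hp hpm j => ?_⟩
    rw [sub_zero]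
    intro h3
    apply ht4 p hp hpm
    unfold FF
    exact (h3.mul_left _).mul_right _
  have hfib : ∀ b ∈ T, ((S.filter (fun t => t.2 = b)).card : ℝ) ≤
      C2 * (X / m) * P2 / (Real.log y) ^ 2 := by
    intro b hb
    rw [hT, mem_filter] at hb
    obtain ⟨hb1, hb2, hb3⟩ := hb
    have h3 := h2 X y (by omega) hzy hyK2 x.1 r.1 m (fun j : Fin 2 => if j = 0 then 0 else b) hm hm4
      (by
        intro p hp hpm j l hjl
        have h4 := hb3 p hp hpm 0
        rw [sub_zero] at h4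
        have h5 : ∀ j l : Fin 2, j ≠ l → (j = 0 ∧ l = 1) ∨ (j = 1 ∧ l = 0) := by decide
        rcases h5 j l hjl with ⟨e1, e2⟩ | ⟨e1, e2⟩ <;> subst e1 <;> subst e2
        · simpa using h4
        · simpa using h4)
    refine le_trans ?_ h3
    rw [Nat.cast_le]
    refine card_le_card_of_injOn (fun t => t.1) ?_ ?_
    · intro t ht
      rw [mem_coe, mem_filter, hS, mem_filter] at ht
      obtain ⟨⟨ht1, ⟨ht2, ht3⟩, ht4⟩, ht5⟩ := ht
      unfold Bx at ht1
      rw [mem_product] at ht1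
      rw [mem_coe, mem_filter]
      refine ⟨ht1.1, ht2, fun p hp hpm j => ?_⟩
      have h4 := ht4 p hp hpm
      unfold FF at h4
      have h5 : ∀ j : Fin 2, j = 0 ∨ j = 1 := by decide
      rcases h5 j with e | e <;> subst e
      · beta_reduce
        rw [if_pos rfl, sub_zero]
        intro h6
        exact h4 ((h6.mul_right _).mul_right _)
      · beta_reduce
        rw [if_neg (by decide), ← ht5]
        intro h6
        exact h4 (h6.mul_left _)
    · intro t ht t' ht' htt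
      rw [mem_coe, mem_filter] at ht ht'
      exact Prod.ext htt (ht.2.trans ht'.2.symm)
  have hTc : (T.card : ℝ) ≤ C1 * (X / m) * P1 / (Real.log y) ^ 1 := by
    have h3 := h1 X y (by omega) hzy hyK1 x.2 r.2 m (fun _ : Fin 1 => 0) hm hm4
      (by
        intro p hp hpm j l hjl
        exact absurd (Subsingleton.elim j l) hjl)
    exact h3
  have hP : ∀ p ∈ m.primeFactors.filter (fun p => p ∈ PS z y), (7 : ℝ) ≤ p := by
    intro p hp
    have h3 := (mem_PS.1 (mem_filter.1 hp).2).1.1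
    exact_mod_cast (by omega : 7 ≤ p)
  have hP10 : 0 ≤ P1 := prod_nonneg fun p hp => by
    have := hP p hp
    push_cast
    exact div_nonneg (by linarith) (by linarith)
  have hP20 : 0 ≤ P2 := prod_nonneg fun p hp => by
    have := hP p hp
    push_cast
    exact div_nonneg (by linarith) (by linarith)
  have hPP : P1 * P2 ≤ ∏ p ∈ m.primeFactors.filter (fun p => p ∈ PS z y), (p : ℝ) / ((p : ℝ) - 3) := by
    rw [hP1, hP2, ← prod_mul_distrib]
    refine prod_le_prod (fun p hp => ?_) (fun p hp => ?_)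
    · have := hP p hp
      push_cast
      exact mul_nonneg (div_nonneg (by linarith) (by linarith))
        (div_nonneg (by linarith) (by linarith))
    · have := hP p hp
      push_cast
      rw [div_mul_div_comm, div_le_div_iff₀ (by nlinarith) (by linarith)]
      nlinarith
  have hcard : (S.card : ℝ) ≤ (T.card : ℝ) * (C2 * (X / m) * P2 / (Real.log y) ^ 2) := by
    rw [card_eq_sum_card_fiberwise (f := fun t : ℤ × ℤ => t.2) (t := T) (fun t ht => hmap t ht)]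
    rw [Nat.cast_sum]
    refine (sum_le_sum fun b hb => hfib b hb).trans ?_
    rw [sum_const, nsmul_eq_mul]
  have hnn : 0 ≤ C2 * (X / m) * P2 / (Real.log y) ^ 2 := by positivity
  calc (S.card : ℝ) ≤ (T.card : ℝ) * (C2 * (X / m) * P2 / (Real.log y) ^ 2) := hcard
    _ ≤ (C1 * (X / m) * P1 / (Real.log y) ^ 1) * (C2 * (X / m) * P2 / (Real.log y) ^ 2) :=
        mul_le_mul_of_nonneg_right hTc hnn
    _ = C1 * C2 * (X / m) ^ 2 * (P1 * P2) / (Real.log y) ^ 3 := by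
        field_simp
    _ ≤ _ := by gcongr

end Run7.h69.UF
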