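import Mathlib
import Pool.Agent.Run7.h69.UA2
import Pool.Agent.Run7.h69.UA3
import Pool.Agent.Run7.h69.LD2

/-!
# The universal family: the rank is bounded by the local count
-/

set_option autoImplicit false
set_option linter.unusedSectionVars false

namespace Run7.h69.UF

open Finset
open Pool.Agent.W262.RK hiding lk ff s1 s2
open NA (T1 T2)

/-- the class of a point -/
def cl (p : ℕ) (t : ℤ × ℤ) : Fin 3 :=
  if (p : ℤ) ∣ t.1 then 0 else if (p : ℤ) ∣ t.2 then 1 else 2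

/-- the constant -/
def kp (c : Fin 3) (t : ℤ × ℤ) : ℤ := if c = 0 then -t.2 else if c = 1 then -t.1 else t.1

/-- the type -/
def ty (t : ℤ × ℤ) (p : ℕ) : Fin 3 × Bool := (cl p t, sg0 p (kp (cl p t) t))

lemma three (c : Fin 3) : c = 0 ∨ c = 1 ∨ c = 2 := by
  revert c
  decide

lemma LL_LE (c : Fin 3) (κ : ℤ) (p : ℕ) (v w h g : Bool)
    (H : LL c.castSucc (fun _ => κ) false p v w h g) : LE c (sg0 p κ) v w h g = true := by
  rcases three c with e | e | e <;> subst e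
  · unfold LL at H
    rw [if_pos (by decide)] at H
    obtain ⟨h1, h2⟩ := H
    subst h1
    unfold LE
    rw [if_pos rfl, h2]
    simp
  · unfold LL at H
    rw [if_neg (by decide), if_pos (by decide)] at H
    obtain ⟨h1, h2⟩ := H
    unfold LE
    rw [if_neg (by decide), if_pos rfl, h1, h2]
    simp
  · unfold LL at H
    rw [if_neg (by decide), if_neg (by decide), if_pos (by decide)] at H
    obtain ⟨h1, h2⟩ := H
    unfold LE
    rw [if_neg (by decide), if_neg (by decide), h1, h2]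
    simp

/-- the facts at a prime that divides the product once -/
lemma facts {p : ℕ} (hp : p.Prime) {t : ℤ × ℤ} (h1 : (p : ℤ) ∣ FF t) (h2 : ¬ (p : ℤ) ^ 2 ∣ FF t) :
    (cl p t = 0 → (p : ℤ) ∣ t.1 ∧ ¬ (p : ℤ) ^ 2 ∣ t.1 ∧ ¬ (p : ℤ) ∣ t.2) ∧
    (cl p t = 1 → (p : ℤ) ∣ t.2 ∧ ¬ (p : ℤ) ^ 2 ∣ t.2 ∧ ¬ (p : ℤ) ∣ t.1) ∧
    (cl p t = 2 → (p : ℤ) ∣ t.1 - t.2 ∧ ¬ (p : ℤ) ^ 2 ∣ t.1 - t.2 ∧ ¬ (p : ℤ) ∣ t.1 ∧
      ¬ (p : ℤ) ∣ t.2) := by
  have hpi : Prime (p : ℤ) := Nat.prime_iff_prime_int.1 hp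
  have d1 : ∀ x y u : ℤ, FF t = x * y * u → (p : ℤ) ∣ x → ¬ (p : ℤ) ∣ y := by
    intro x y u h hx hy
    apply h2
    rw [h, sq]
    exact (mul_dvd_mul hx hy).mul_right _
  have d2 : ∀ x u : ℤ, FF t = x * u → ¬ (p : ℤ) ^ 2 ∣ x := by
    intro x u h hx
    apply h2
    rw [h]
    exact hx.mul_right _
  refine ⟨fun hc => ?_, fun hc => ?_, fun hc => ?_⟩
  · unfold cl at hc
    split_ifs at hc with h3 h4
    · refine ⟨h3, d2 t.1 (t.2 * (t.1 - t.2)) (by unfold FF; ring), ?_⟩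
      exact d1 t.1 t.2 (t.1 - t.2) (by unfold FF; ring) h3
    · exact absurd hc (by decide)
    · exact absurd hc (by decide)
  · unfold cl at hc
    split_ifs at hc with h3 h4
    · exact absurd hc (by decide)
    · exact ⟨h4, d2 t.2 (t.1 * (t.1 - t.2)) (by unfold FF; ring), h3⟩
    · exact absurd hc (by decide)
  · unfold cl at hc
    split_ifs at hc with h3 h4
    · exact absurd hc (by decide)
    · exact absurd hc (by decide)
    · refine ⟨?_, d2 (t.1 - t.2) (t.1 * t.2) (by unfold FF; ring), h3, h4⟩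
      unfold FF at h1
      rcases hpi.dvd_or_dvd h1 with h | h
      · rcases hpi.dvd_or_dvd h with h | h
        · exact absurd h h3
        · exact absurd h h4
      · exact h

lemma kp_ndvd {p : ℕ} (hp : p.Prime) {t : ℤ × ℤ} (h1 : (p : ℤ) ∣ FF t)
    (h2 : ¬ (p : ℤ) ^ 2 ∣ FF t) : ¬ (p : ℤ) ∣ kp (cl p t) t := by
  obtain ⟨f0, f1, f2⟩ := facts hp h1 h2
  rcases three (cl p t) with e | e | e
  · rw [e]
    unfold kp
    rw [if_pos rfl, dvd_neg]
    exact (f0 e).2.2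
  · rw [e]
    unfold kp
    rw [if_neg (by decide), if_pos rfl, dvd_neg]
    exact (f1 e).2.2
  · rw [e]
    unfold kp
    rw [if_neg (by decide), if_neg (by decide)]
    exact (f2 e).2.2.1

lemma jac_self {p : ℕ} (hp : p.Prime) {a : ℤ} (ha : ¬ (p : ℤ) ∣ a) : jacobiSym (a * a) p = 1 :=
  FM.jac_sq hp ha (by simp)

lemma locH {p : ℕ} (hp : p.Prime) {t : ℤ × ℤ} (h1 : (p : ℤ) ∣ FF t) (h2 : ¬ (p : ℤ) ^ 2 ∣ FF t) :
    LocH (cl p t).castSucc (fun _ => kp (cl p t) t) false p t.1 t.2 := by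
  obtain ⟨f0, f1, f2⟩ := facts hp h1 h2
  rcases three (cl p t) with e | e | e
  · obtain ⟨g1, g2, g3⟩ := f0 e
    rw [e]
    unfold LocH kp
    rw [if_pos (by decide)]
    refine ⟨g1, g2, g3, ?_⟩
    beta_reduce
    rw [if_pos rfl]
    exact jac_self hp (by rwa [dvd_neg])
  · obtain ⟨g1, g2, g3⟩ := f1 e
    rw [e]
    unfold LocH kp
    rw [if_neg (by decide), if_pos (by decide)]
    refine ⟨g1, g2, g3, ?_⟩
    beta_reduce
    rw [if_neg (by decide), if_pos rfl]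
    exact jac_self hp (by rwa [dvd_neg])
  · obtain ⟨g1, g2, g3, g4⟩ := f2 e
    rw [e]
    unfold LocH kp
    rw [if_neg (by decide), if_neg (by decide), if_pos (by decide)]
    refine ⟨g1, g2, g3, ?_⟩
    beta_reduce
    rw [if_neg (by decide), if_neg (by decide)]
    exact jac_self hp g3

/-- the number of the bad primes -/
lemma bad {z : ℕ} (hz : 2 ≤ z) {t : ℤ × ℤ} {y N : ℕ} (hy : 1 ≤ y)
    (h0 : FF t ≠ 0) (hN : (FF t).natAbs < (y + 1) ^ N) :
    ((2 * t.1 * t.2 * (t.1 - t.2)).natAbs.primeFactors.filter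
        (fun q => ¬ q ∣ T1 z y (FF t))).card ≤
      z + N + (T2 z y (FF t)).primeFactors.card := by
  have hsub : ((2 * t.1 * t.2 * (t.1 - t.2)).natAbs.primeFactors.filter
        (fun q => ¬ q ∣ T1 z y (FF t))) ⊆
      ((Icc 1 z) ∪ (FF t).natAbs.primeFactors.filter (y < ·)) ∪
        (T2 z y (FF t)).primeFactors := by
    intro q hq
    rw [mem_filter] at hq
    have hp := Nat.prime_of_mem_primeFactors hq.1
    have hdv := Nat.dvd_of_mem_primeFactors hq.1
    rw [mem_union, mem_union, mem_Icc]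
    rcases Nat.lt_or_ge z q with h | h
    swap
    · exact Or.inl (Or.inl ⟨hp.one_lt.le, h⟩)
    · have hqi : Prime (q : ℤ) := Nat.prime_iff_prime_int.1 hp
      have hqF : (q : ℤ) ∣ FF t := by
        have h1 : (q : ℤ) ∣ 2 * t.1 * t.2 * (t.1 - t.2) := Int.natCast_dvd.2 hdv
        have e : 2 * t.1 * t.2 * (t.1 - t.2) = 2 * FF t := by unfold FF; ring
        rw [e] at h1
        rcases hqi.dvd_or_dvd h1 with h2 | h2
        · exfalso
          have := Int.le_of_dvd (by norm_num) h2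
          omega
        · exact h2
      rcases Nat.lt_or_ge y q with hyq | hyq
      · left; right
        rw [mem_filter, Nat.mem_primeFactors]
        exact ⟨⟨hp, Int.natCast_dvd.1 hqF, Int.natAbs_ne_zero.2 h0⟩, hyq⟩
      · right
        have hPS : q ∈ PS z y := mem_PS.2 ⟨⟨h, hyq⟩, hp⟩
        have hsq : (q : ℤ) ^ 2 ∣ FF t := by
          by_contra hcon
          exact hq.2 ((NA.dvd_T1 hp).2 ⟨hPS, hqF, hcon⟩)
        rw [Nat.mem_primeFactors]
        refine ⟨hp, (NA.dvd_T2 hp).2 ⟨hPS, hsq⟩, ?_⟩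
        exact Nat.one_le_iff_ne_zero.1 (NX.dpos (NA.T2_dvd z y (FF t)))
  have hone : ((FF t).natAbs.primeFactors.filter (y < ·)).card ≤ N := by
    set S := (FF t).natAbs.primeFactors.filter (y < ·) with hS
    have h1 : (y + 1) ^ S.card ≤ ∏ q ∈ S, q :=
      Finset.pow_card_le_prod _ _ _ (fun q hq => by
        have := (mem_filter.1 hq).2
        omega)
    have h2 : ∏ q ∈ S, q ∣ (FF t).natAbs :=
      (prod_dvd_prod_of_subset _ _ _ (filter_subset _ _)).trans (Nat.prod_primeFactors_dvd _)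
    have h3 : ∏ q ∈ S, q ≤ (FF t).natAbs :=
      Nat.le_of_dvd (Nat.pos_of_ne_zero (Int.natAbs_ne_zero.2 h0)) h2
    have h4 : (y + 1) ^ S.card < (y + 1) ^ N := (h1.trans h3).trans_lt hN
    exact ((Nat.pow_lt_pow_iff_right (by omega)).1 h4).le
  refine (card_le_card hsub).trans ((card_union_le _ _).trans (add_le_add
    ((card_union_le _ _).trans (add_le_add ?_ hone)) le_rfl))
  simp

lemma T1_facts {z y p : ℕ} (hp : p.Prime) {n : ℤ} (h : p ∣ T1 z y n) :
    z < p ∧ (p : ℤ) ∣ n ∧ ¬ (p : ℤ) ^ 2 ∣ n := by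
  obtain ⟨h1, h2, h3⟩ := (NA.dvd_T1 hp).1 h
  exact ⟨(mem_PS.1 h1).1.1, h2, h3⟩

/-- the rank is bounded by the local count -/
lemma rank {z : ℕ} (hz : 2 ≤ z) {t : ℤ × ℤ} {y N : ℕ} (hy : 1 ≤ y)
    (h0 : FF t ≠ 0) (hN : (FF t).natAbs < (y + 1) ^ N) :
    2 ^ Module.finrank ℤ (EAB t.1 t.2).toAffine.Point ≤
      4 ^ (z + 2) * 4 ^ N * 4 ^ ((T2 z y (FF t)).primeFactors.card) *
        NL (T1 z y (FF t)) (LT (ty t)) := by
  set s := T1 z y (FF t) with hs
  have hsd : s ∣ PP z y := NA.T1_dvd z y _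
  have hs0 : s ≠ 0 := Nat.one_le_iff_ne_zero.1 (NX.dpos hsd)
  have hodd : ∀ p : ℕ, p.Prime → p ∣ s → p ≠ 2 := by
    intro p hp h
    have h1 := (T1_facts hp h).1
    omega
  have hne : t.1 ≠ 0 ∧ t.2 ≠ 0 ∧ t.1 ≠ t.2 := by
    unfold FF at h0
    refine ⟨left_ne_zero_of_mul (left_ne_zero_of_mul h0),
      right_ne_zero_of_mul (left_ne_zero_of_mul h0), ?_⟩
    have := right_ne_zero_of_mul h0
    exact sub_ne_zero.1 this
  have hd := Pool.Agent.W214.RK2.desc4 s (LT (ty t)) t.1 t.2 hne.1 hne.2.1 hne.2.2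
    (by
      rw [← Nat.not_even_iff_odd, even_iff_two_dvd]
      intro h
      exact hodd 2 Nat.prime_two h rfl)
    ((PP_squarefree z y).squarefree_of_dvd hsd)
    (fun p hp hpd => xcl _ p)
    (fun p hpf hpd x x' hx' hcurve e1 e2 he1 he2 hsq1 hsq2 => by
      have hpp : p.Prime := Fact.out
      obtain ⟨hzp, h1, h2⟩ := T1_facts hpp hpd
      exact LL_LE _ _ _ _ _ _ _ (Pool.Agent.W342.RK2.locl _ _ _ p _ _ (hodd p hpp hpd)
        (fun _ => kp_ndvd hpp h1 h2) (locH hpp h1 h2)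
        x x' hx' hcurve e1 e2 he1 he2 hsq1 hsq2))
  refine hd.trans (Nat.mul_le_mul_right _ ?_)
  have hc := bad hz hy h0 hN
  rw [← hs] at hc
  calc _ ≤ 4 ^ ((z + 2) + N + (T2 z y (FF t)).primeFactors.card) :=
        Nat.pow_le_pow_right (by norm_num) (by omega)
    _ = _ := by rw [pow_add, pow_add]

end Run7.h69.UF
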