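import Mathlib
import Pool.Agent.Run7.h69.UA4

/-!
# The universal family: the number of the points with given small prime factors and given types
-/

set_option autoImplicit false
set_option linter.unusedSectionVars false

namespace Run7.h69.UF

open Finset
open Pool.Agent.W262.RK hiding lk ff s1 s2
open Pool.Agent.W655.RK (PS_prime PS_lt PS_le)
open Pool.Agent.W372.RK2 (sq_pow_dvd card_W)
open NA (T1 T2)
open CN (gm_mul gm_id gm_coprime)

/-- the residue -/
def rs (M : ℕ) (a : ℤ) : ℕ := (a % (M : ℤ)).toNat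

lemma rs_cast {M : ℕ} (hM : 0 < M) (a : ℤ) : ((rs M a : ℕ) : ℤ) = a % M :=
  Int.toNat_of_nonneg (Int.emod_nonneg _ (by exact_mod_cast hM.ne'))

lemma rs_lt {M : ℕ} (hM : 0 < M) (a : ℤ) : rs M a < M := by
  have h1 := rs_cast hM a
  have h2 := Int.emod_lt_of_pos a (by exact_mod_cast hM : (0 : ℤ) < M)
  omega

lemma rs_dvd {M : ℕ} (hM : 0 < M) (a : ℤ) : (M : ℤ) ∣ a - (rs M a : ℕ) := by
  rw [rs_cast hM]
  exact Int.dvd_self_sub_emod

lemma rs_eq {M : ℕ} (hM : 0 < M) {a b : ℤ} (h : rs M a = rs M b) : (M : ℤ) ∣ a - b := by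
  have h1 := rs_dvd hM a
  have h2 := rs_dvd hM b
  rw [h] at h1
  have e : a - b = (a - (rs M b : ℕ)) - (b - (rs M b : ℕ)) := by ring
  rw [e]
  exact dvd_sub h1 h2

lemma FF_congr {M : ℤ} {t t' : ℤ × ℤ} (h1 : M ∣ t.1 - t'.1) (h2 : M ∣ t.2 - t'.2) :
    M ∣ FF t - FF t' := by
  obtain ⟨a, ha⟩ := h1
  obtain ⟨b, hb⟩ := h2
  refine ⟨a * (t.2 * (t.1 - t.2)) + t'.1 * (b * (t.1 - t.2) + t'.2 * (a - b)), ?_⟩
  unfold FF
  linear_combination (t.2 * (t.1 - t.2) + t'.1 * t'.2) * ha +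
    (t'.1 * (t.1 - t.2) - t'.1 * t'.2) * hb

/-- the sign of the coordinate -/
def ev (x : Fin 3 × Bool) (p : ℕ) : ℤ :=
  (if x.2 = true then -1 else 1) * (if x.1 = 2 then 1 else jacobiSym (-1) p)

/-- the coordinate -/
def wc (c : Fin 3) (t : ℤ × ℤ) : ℤ := if c = 0 then t.2 else t.1

/-- the residues at a prime that divides once -/
def Ws (x : Fin 3 × Bool) (p : ℕ) : Finset ℕ :=
  (range p).filter (fun w : ℕ => jacobiSym w p = ev x p)

/-- the residues modulo `p ^ 2` -/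
def Rv (p : ℕ) : Finset (ℕ × ℕ) :=
  ((range (p ^ 2)) ×ˢ (range (p ^ 2))).filter (fun r => (p : ℤ) ^ 2 ∣ FF ((r.1 : ℤ), (r.2 : ℤ)))

/-- the residues modulo `p` -/
def Ru (p : ℕ) : Finset (ℕ × ℕ) :=
  ((range p) ×ˢ (range p)).filter (fun r => (p : ℤ) ∣ FF ((r.1 : ℤ), (r.2 : ℤ)))

lemma jac_m1 (p : ℕ) : jacobiSym (-1) p = 1 ∨ jacobiSym (-1) p = -1 := by
  apply jacobiSym.eq_one_or_neg_one
  rw [← Int.isCoprime_iff_gcd_eq_one]
  exact isCoprime_one_left.neg_left

lemma ev_pm (x : Fin 3 × Bool) (p : ℕ) : ev x p = 1 ∨ ev x p = -1 := by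
  unfold ev
  rcases jac_m1 p with h | h
  · rw [h]
    split_ifs <;> simp
  · rw [h]
    split_ifs <;> simp

lemma card_Ws (x : Fin 3 × Bool) {p : ℕ} (hp : p.Prime) (hp2 : p ≠ 2) : 2 * (Ws x p).card ≤ p := by
  have h := card_W hp hp2 (ev x p) (ev_pm x p)
  unfold Ws
  omega

lemma jac_pm {p : ℕ} (hp : p.Prime) {a : ℤ} (ha : ¬ (p : ℤ) ∣ a) :
    jacobiSym a p = 1 ∨ jacobiSym a p = -1 := by
  apply jacobiSym.eq_one_or_neg_one
  rw [← Int.isCoprime_iff_gcd_eq_one]
  exact IsCoprime.symm ((Prime.coprime_iff_not_dvd (Nat.prime_iff_prime_int.1 hp)).2 ha)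

lemma jac_of_sg {p : ℕ} (hp : p.Prime) {a : ℤ} (ha : ¬ (p : ℤ) ∣ a) :
    jacobiSym a p = if sg0 p a = true then -1 else 1 := by
  unfold sg0
  rcases jac_pm hp ha with h | h <;> rw [h] <;> simp

lemma jac_neg (p : ℕ) (a : ℤ) :
    jacobiSym a p = jacobiSym (-a) p * jacobiSym (-1) p := by
  rw [← jacobiSym.mul_left]
  congr 1
  ring

/-- the coordinate lies in the set of residues -/
lemma mem_Ws {p : ℕ} (hp : p.Prime) {t : ℤ × ℤ} (h1 : (p : ℤ) ∣ FF t)
    (h2 : ¬ (p : ℤ) ^ 2 ∣ FF t) : rs p (wc (cl p t) t) ∈ Ws (ty t p) p := by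
  have hk := jac_of_sg hp (kp_ndvd hp h1 h2)
  unfold Ws
  rw [mem_filter, mem_range]
  refine ⟨rs_lt hp.pos _, ?_⟩
  have h3 : jacobiSym ((rs p (wc (cl p t) t) : ℕ) : ℤ) p = jacobiSym (wc (cl p t) t) p := by
    apply FM.jac_congr
    rw [← dvd_neg, neg_sub]
    exact rs_dvd hp.pos _
  rw [h3]
  unfold ty ev
  simp only
  have n02 : ¬ (0 : Fin 3) = 2 := by decide
  have n12 : ¬ (1 : Fin 3) = 2 := by decide
  have n10 : ¬ (1 : Fin 3) = 0 := by decide
  have n20 : ¬ (2 : Fin 3) = 0 := by decide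
  have n21 : ¬ (2 : Fin 3) = 1 := by decide
  rcases three (cl p t) with e | e | e
  · rw [e] at hk ⊢
    unfold kp at hk ⊢
    unfold wc
    rw [if_pos rfl] at hk
    rw [if_pos rfl, if_neg n02, jac_neg p, hk, if_pos rfl]
  · rw [e] at hk ⊢
    unfold kp at hk ⊢
    unfold wc
    rw [if_neg n10, if_pos rfl] at hk
    rw [if_neg n10, if_neg n12, jac_neg p, hk, if_neg n10, if_pos rfl]
  · rw [e] at hk ⊢
    unfold kp at hk ⊢
    unfold wc
    rw [if_neg n20, if_neg n21] at hk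
    rw [if_neg n20, hk, if_neg n20, if_neg n21, if_pos rfl, mul_one]

/-- the two coordinates are determined by one -/
lemma wc_dvd {p : ℕ} (hp : p.Prime) {t t' : ℤ × ℤ} (h1 : (p : ℤ) ∣ FF t)
    (h2 : ¬ (p : ℤ) ^ 2 ∣ FF t) (h1' : (p : ℤ) ∣ FF t') (h2' : ¬ (p : ℤ) ^ 2 ∣ FF t')
    (hc : cl p t = cl p t') (h : (p : ℤ) ∣ wc (cl p t) t - wc (cl p t) t') :
    (p : ℤ) ∣ t.1 - t'.1 ∧ (p : ℤ) ∣ t.2 - t'.2 := by
  obtain ⟨f0, f1, f2⟩ := facts hp h1 h2
  obtain ⟨g0, g1, g2⟩ := facts hp h1' h2'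
  rcases three (cl p t) with e | e | e
  · have e' := hc.symm.trans e
    rw [e] at h
    unfold wc at h
    rw [if_pos rfl] at h
    exact ⟨dvd_sub (f0 e).1 (g0 e').1, h⟩
  · have e' := hc.symm.trans e
    rw [e] at h
    unfold wc at h
    rw [if_neg (by decide)] at h
    exact ⟨h, dvd_sub (f1 e).1 (g1 e').1⟩
  · have e' := hc.symm.trans e
    rw [e] at h
    unfold wc at h
    rw [if_neg (by decide)] at h
    refine ⟨h, ?_⟩
    have h3 := dvd_sub (f2 e).1 (g2 e').1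
    have e3 : t.2 - t'.2 = (t.1 - t'.1) - ((t.1 - t.2) - (t'.1 - t'.2)) := by ring
    rw [e3]
    exact dvd_sub h h3

lemma lt_zero_of {M r : ℕ} (h : r < M) (hd : (M : ℤ) ∣ (r : ℤ)) : r = 0 := by
  rw [Int.natCast_dvd_natCast] at hd
  exact Nat.eq_zero_of_dvd_of_lt hd h

lemma eq_of_dvd {M r r' : ℕ} (h : r < M) (h' : r' < M) (hd : (M : ℤ) ∣ (r : ℤ) - r') : r = r' := by
  by_contra hne
  have h1 : (r : ℤ) - r' ≠ 0 := by
    intro h2
    apply hne
    omega
  have h2 := Int.le_of_dvd (abs_pos.2 h1) ((dvd_abs _ _).2 hd)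
  have h3 : |(r : ℤ) - r'| < M := by
    rw [abs_lt]
    omega
  omega

lemma card_Ru {p : ℕ} (hp : p.Prime) : (Ru p).card ≤ 3 * p := by
  classical
  have hpi : Prime (p : ℤ) := Nat.prime_iff_prime_int.1 hp
  have hsub : Ru p ⊆ ((range p).image (fun w => ((0 : ℕ), w)) ∪
      (range p).image (fun w => (w, (0 : ℕ)))) ∪ (range p).image (fun w => (w, w)) := by
    intro r hr
    unfold Ru at hr
    rw [mem_filter, mem_product, mem_range, mem_range] at hr
    obtain ⟨⟨h1, h2⟩, h3⟩ := hr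
    unfold FF at h3
    simp only at h3
    rw [mem_union, mem_union, mem_image, mem_image, mem_image]
    rcases hpi.dvd_or_dvd h3 with h | h
    · rcases hpi.dvd_or_dvd h with h | h
      · left; left
        exact ⟨r.2, mem_range.2 h2, Prod.ext (lt_zero_of h1 h).symm rfl⟩
      · left; right
        exact ⟨r.1, mem_range.2 h1, Prod.ext rfl (lt_zero_of h2 h).symm⟩
    · right
      exact ⟨r.1, mem_range.2 h1, Prod.ext rfl (eq_of_dvd h1 h2 h)⟩
  refine (card_le_card hsub).trans ?_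
  have e1 : ((range p).image (fun w => ((0 : ℕ), w))).card ≤ p := card_image_le.trans (by simp)
  have e2 : ((range p).image (fun w => (w, (0 : ℕ)))).card ≤ p := card_image_le.trans (by simp)
  have e3 : ((range p).image (fun w => (w, w))).card ≤ p := card_image_le.trans (by simp)
  have e4 := card_union_le ((range p).image (fun w => ((0 : ℕ), w)) ∪
      (range p).image (fun w => (w, (0 : ℕ)))) ((range p).image (fun w => (w, w)))
  have e5 := card_union_le ((range p).image (fun w => ((0 : ℕ), w)))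
    ((range p).image (fun w => (w, (0 : ℕ))))
  omega

lemma card_Rv {p : ℕ} (hp : p.Prime) : (Rv p).card ≤ 4 * p ^ 2 := by
  classical
  have hpi : Prime (p : ℤ) := Nat.prime_iff_prime_int.1 hp
  have hcop : ∀ x : ℤ, ¬ (p : ℤ) ∣ x → IsCoprime ((p : ℤ) ^ 2) x := fun x hx =>
    IsCoprime.pow_left ((Prime.coprime_iff_not_dvd hpi).2 hx)
  have hsub : Rv p ⊆ (((range (p ^ 2)).image (fun w => ((0 : ℕ), w)) ∪
      (range (p ^ 2)).image (fun w => (w, (0 : ℕ)))) ∪ (range (p ^ 2)).image (fun w => (w, w))) ∪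
      ((range p) ×ˢ (range p)).image (fun w => (p * w.1, p * w.2)) := by
    intro r hr
    unfold Rv at hr
    rw [mem_filter, mem_product, mem_range, mem_range] at hr
    obtain ⟨⟨h1, h2⟩, h3⟩ := hr
    unfold FF at h3
    simp only at h3
    rw [mem_union, mem_union, mem_union, mem_image, mem_image, mem_image, mem_image]
    have hc : ((p ^ 2 : ℕ) : ℤ) = (p : ℤ) ^ 2 := by push_cast; ring
    by_cases hd : (p : ℤ) ∣ (r.1 : ℤ) ∧ (p : ℤ) ∣ (r.2 : ℤ)
    · right
      obtain ⟨⟨a, ha⟩, ⟨b, hb⟩⟩ := And.intro (Int.natCast_dvd_natCast.1 hd.1)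
        (Int.natCast_dvd_natCast.1 hd.2)
      refine ⟨(a, b), ?_, Prod.ext ha.symm hb.symm⟩
      rw [mem_product, mem_range, mem_range]
      have hpp := hp.pos
      constructor
      · simp only
        by_contra hcon
        have := Nat.mul_le_mul_left p (not_lt.1 hcon)
        rw [ha, sq] at h1
        omega
      · simp only
        by_contra hcon
        have := Nat.mul_le_mul_left p (not_lt.1 hcon)
        rw [hb, sq] at h2
        omega
    · left
      by_cases hd1 : (p : ℤ) ∣ (r.1 : ℤ)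
      · have hd2 : ¬ (p : ℤ) ∣ (r.2 : ℤ) := fun h => hd ⟨hd1, h⟩
        have hd3 : ¬ (p : ℤ) ∣ (r.1 : ℤ) - r.2 := fun h => hd2 ((dvd_sub_right hd1).1 h)
        left; left
        have h4 := (hcop _ hd2).dvd_of_dvd_mul_right ((hcop _ hd3).dvd_of_dvd_mul_right h3)
        exact ⟨r.2, mem_range.2 h2, Prod.ext (lt_zero_of h1 (by rw [hc]; exact h4)).symm rfl⟩
      · by_cases hd2 : (p : ℤ) ∣ (r.2 : ℤ)
        · have hd3 : ¬ (p : ℤ) ∣ (r.1 : ℤ) - r.2 := fun h => hd1 ((dvd_sub_left hd2).1 h)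
          left; right
          have h4 := (hcop _ hd1).dvd_of_dvd_mul_left ((hcop _ hd3).dvd_of_dvd_mul_right h3)
          exact ⟨r.1, mem_range.2 h1, Prod.ext rfl (lt_zero_of h2 (by rw [hc]; exact h4)).symm⟩
        · right
          have h4 := (hcop _ hd1).dvd_of_dvd_mul_left ((hcop _ hd2).dvd_of_dvd_mul_left
            (by rw [← mul_assoc, mul_comm (r.2 : ℤ)]; exact h3))
          exact ⟨r.1, mem_range.2 h1, Prod.ext rfl (eq_of_dvd h1 h2 (by rw [hc]; exact h4))⟩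
  refine (card_le_card hsub).trans ?_
  have e1 : ((range (p ^ 2)).image (fun w => ((0 : ℕ), w))).card ≤ p ^ 2 :=
    card_image_le.trans (by simp)
  have e2 : ((range (p ^ 2)).image (fun w => (w, (0 : ℕ)))).card ≤ p ^ 2 :=
    card_image_le.trans (by simp)
  have e3 : ((range (p ^ 2)).image (fun w => (w, w))).card ≤ p ^ 2 := card_image_le.trans (by simp)
  have e6 : (((range p) ×ˢ (range p)).image (fun w => (p * w.1, p * w.2))).card ≤ p ^ 2 :=
    card_image_le.trans (by rw [card_product, card_range, sq])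
  have e4 := card_union_le ((range (p ^ 2)).image (fun w => ((0 : ℕ), w)) ∪
      (range (p ^ 2)).image (fun w => (w, (0 : ℕ)))) ((range (p ^ 2)).image (fun w => (w, w)))
  have e5 := card_union_le ((range (p ^ 2)).image (fun w => ((0 : ℕ), w)))
    ((range (p ^ 2)).image (fun w => (w, (0 : ℕ))))
  have e7 := card_union_le (((range (p ^ 2)).image (fun w => ((0 : ℕ), w)) ∪
      (range (p ^ 2)).image (fun w => (w, (0 : ℕ)))) ∪ (range (p ^ 2)).image (fun w => (w, w)))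
      (((range p) ×ˢ (range p)).image (fun w => (p * w.1, p * w.2)))
  omega

end Run7.h69.UF
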