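import Mathlib
import Pool.Agent.Run7.h69.UA5

/-!
# The universal family: the number of the points with given small prime factors and given types
-/

set_option autoImplicit false
set_option linter.unusedSectionVars false

namespace Run7.h69.UF

open Finset
open Pool.Agent.W262.RK hiding lk ff s1 s2
open Pool.Agent.W655.RK (PS_prime PS_lt PS_le)
open Pool.Agent.W372.RK2 (sq_pow_dvd card_W)
open NA (T1 T2)
open CN (gm_mul gm_id gm_coprime)

/-- the weight of the squares -/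
noncomputable def bv (p : ℕ) : ℝ := 4 / ((p : ℝ) - 3)

/-- the weight of the medium primes -/
noncomputable def bu (p : ℕ) : ℝ := 3 / (p : ℝ)

/-- the facts about the counted points -/
structure Good (z y s v u : ℕ) (τ : ℕ → Fin 3 × Bool) (t : ℤ × ℤ) : Prop where
  hs : T1 z y (FF t) = s
  hv : T2 z y (FF t) = v
  hu : (u : ℤ) ∣ FF t
  ht : ∀ p ∈ s.primeFactors, ty t p = τ p

variable {z y Y s v u : ℕ} {τ : ℕ → Fin 3 × Bool} {t t' : ℤ × ℤ}

lemma Good.fs (g : Good z y s v u τ t) {p : ℕ} (hp : p.Prime) (h : p ∣ s) :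
    p ∈ PS z y ∧ (p : ℤ) ∣ FF t ∧ ¬ (p : ℤ) ^ 2 ∣ FF t := by
  rw [← g.hs] at h
  exact (NA.dvd_T1 hp).1 h

lemma Good.fv (g : Good z y s v u τ t) {p : ℕ} (hp : p.Prime) (h : p ∣ v) :
    p ∈ PS z y ∧ (p : ℤ) ^ 2 ∣ FF t := by
  rw [← g.hv] at h
  exact (NA.dvd_T2 hp).1 h

lemma Good.fu (g : Good z y s v u τ t) (hu : u ∣ PP y Y) {p : ℕ} (hp : p.Prime)
    (h : p ∣ u) : p ∈ PS y Y ∧ (p : ℤ) ∣ FF t :=
  ⟨(prime_dvd_PP hp).1 (h.trans hu), (Int.natCast_dvd_natCast.2 h).trans g.hu⟩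

/-- the residues -/
def Phi (s v u : ℕ) (τ : ℕ → Fin 3 × Bool) (t : ℤ × ℤ) :
    (s.primeFactors → ℕ) × ((v.primeFactors → ℕ × ℕ) × (u.primeFactors → ℕ × ℕ)) :=
  (fun p => rs p.1 (wc (τ p.1).1 t), (fun p => (rs (p.1 ^ 2) t.1, rs (p.1 ^ 2) t.2),
    fun p => (rs p.1 t.1, rs p.1 t.2)))

/-- the possible values -/
noncomputable def Cod (s v u : ℕ) (τ : ℕ → Fin 3 × Bool) :
    Finset ((s.primeFactors → ℕ) × ((v.primeFactors → ℕ × ℕ) × (u.primeFactors → ℕ × ℕ))) :=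
  Fintype.piFinset (fun p : s.primeFactors => Ws (τ p.1) p.1) ×ˢ
    (Fintype.piFinset (fun p : v.primeFactors => Rv p.1) ×ˢ
      Fintype.piFinset (fun p : u.primeFactors => Ru p.1))

lemma Phi_mem (hu : u ∣ PP y Y) (g : Good z y s v u τ t) : Phi s v u τ t ∈ Cod s v u τ := by
  unfold Phi Cod
  rw [mem_product, mem_product, Fintype.mem_piFinset, Fintype.mem_piFinset, Fintype.mem_piFinset]
  refine ⟨?_, ?_, ?_⟩
  · rintro ⟨p, hp0⟩
    have hp := Nat.prime_of_mem_primeFactors hp0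
    obtain ⟨_, h1, h2⟩ := g.fs hp (Nat.dvd_of_mem_primeFactors hp0)
    have h3 := g.ht p hp0
    have h4 := mem_Ws hp h1 h2
    rw [h3] at h4
    have h5 : (τ p).1 = cl p t := by rw [← h3]; rfl
    simp only [h5]
    exact h4
  · rintro ⟨p, hp0⟩
    have hp := Nat.prime_of_mem_primeFactors hp0
    obtain ⟨_, h2⟩ := g.fv hp (Nat.dvd_of_mem_primeFactors hp0)
    have hpos : 0 < p ^ 2 := pow_pos hp.pos 2
    simp only
    unfold Rv
    rw [mem_filter, mem_product, mem_range, mem_range]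
    refine ⟨⟨rs_lt hpos _, rs_lt hpos _⟩, ?_⟩
    have h3 : (p : ℤ) ^ 2 ∣ FF t - FF (((rs (p ^ 2) t.1 : ℕ) : ℤ), ((rs (p ^ 2) t.2 : ℕ) : ℤ)) := by
      apply FF_congr
      · have := rs_dvd hpos t.1
        push_cast at this
        exact this
      · have := rs_dvd hpos t.2
        push_cast at this
        exact this
    exact (dvd_sub_right h2).1 h3
  · rintro ⟨p, hp0⟩
    have hp := Nat.prime_of_mem_primeFactors hp0
    obtain ⟨_, h2⟩ := g.fu hu hp (Nat.dvd_of_mem_primeFactors hp0)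
    simp only
    unfold Ru
    rw [mem_filter, mem_product, mem_range, mem_range]
    refine ⟨⟨rs_lt hp.pos _, rs_lt hp.pos _⟩, ?_⟩
    have h3 : (p : ℤ) ∣ FF t - FF (((rs p t.1 : ℕ) : ℤ), ((rs p t.2 : ℕ) : ℤ)) :=
      FF_congr (rs_dvd hp.pos _) (rs_dvd hp.pos _)
    exact (dvd_sub_right h2).1 h3

/-- the modulus -/
def md (s v u : ℕ) : ℕ := s * v ^ 2 * u

/-- two counted points with the same residues are congruent -/
lemma congr_of (hs : s ∣ PP z y) (hv : v ∣ PP z y)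
    (hu : u ∣ PP y Y) (g : Good z y s v u τ t) (g' : Good z y s v u τ t')
    (h : Phi s v u τ t = Phi s v u τ t') :
    ((md s v u : ℕ) : ℤ) ∣ t.1 - t'.1 ∧ ((md s v u : ℕ) : ℤ) ∣ t.2 - t'.2 := by
  have hs0 : s ≠ 0 := fun h => PP_ne_zero z y (Nat.eq_zero_of_zero_dvd (h ▸ hs))
  have hv0 : v ≠ 0 := fun h => PP_ne_zero z y (Nat.eq_zero_of_zero_dvd (h ▸ hv))
  have hu0 : u ≠ 0 := fun h => PP_ne_zero y Y (Nat.eq_zero_of_zero_dvd (h ▸ hu))
  have hsq := (PP_squarefree z y).squarefree_of_dvd hs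
  have hvq := (PP_squarefree z y).squarefree_of_dvd hv
  have huq := (PP_squarefree y Y).squarefree_of_dvd hu
  have k1 : ∀ p : ℕ, p.Prime → p ∣ s → (p : ℤ) ∣ t.1 - t'.1 ∧ (p : ℤ) ∣ t.2 - t'.2 := by
    intro p hp hps
    have hmem : p ∈ s.primeFactors := Nat.mem_primeFactors.2 ⟨hp, hps, hs0⟩
    obtain ⟨_, a2, a3⟩ := g.fs hp hps
    obtain ⟨_, b2, b3⟩ := g'.fs hp hps
    have h1 : rs p (wc (τ p).1 t) = rs p (wc (τ p).1 t') := congrFun (congrArg Prod.fst h) ⟨p, hmem⟩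
    have h2 := rs_eq hp.pos h1
    have h3 : (τ p).1 = cl p t := by rw [← g.ht p hmem]; rfl
    have h4 : (τ p).1 = cl p t' := by rw [← g'.ht p hmem]; rfl
    rw [h3] at h2
    exact wc_dvd hp a2 a3 b2 b3 (h3.symm.trans h4) h2
  have k2 : ∀ p : ℕ, p.Prime → p ∣ v → (p : ℤ) ^ 2 ∣ t.1 - t'.1 ∧ (p : ℤ) ^ 2 ∣ t.2 - t'.2 := by
    intro p hp hps
    have hmem : p ∈ v.primeFactors := Nat.mem_primeFactors.2 ⟨hp, hps, hv0⟩
    have h1 : (rs (p ^ 2) t.1, rs (p ^ 2) t.2) = (rs (p ^ 2) t'.1, rs (p ^ 2) t'.2) :=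
      congrFun (congrArg (fun q => q.2.1) h) ⟨p, hmem⟩
    rw [Prod.mk.injEq] at h1
    have hpos : 0 < p ^ 2 := pow_pos hp.pos 2
    have e1 := rs_eq hpos h1.1
    have e2 := rs_eq hpos h1.2
    push_cast at e1 e2
    exact ⟨e1, e2⟩
  have k3 : ∀ p : ℕ, p.Prime → p ∣ u → (p : ℤ) ∣ t.1 - t'.1 ∧ (p : ℤ) ∣ t.2 - t'.2 := by
    intro p hp hps
    have hmem : p ∈ u.primeFactors := Nat.mem_primeFactors.2 ⟨hp, hps, hu0⟩
    have h1 : (rs p t.1, rs p t.2) = (rs p t'.1, rs p t'.2) :=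
      congrFun (congrArg (fun q => q.2.2) h) ⟨p, hmem⟩
    rw [Prod.mk.injEq] at h1
    exact ⟨rs_eq hp.pos h1.1, rs_eq hp.pos h1.2⟩
  have hcop1 : IsCoprime (s : ℤ) ((v : ℤ) ^ 2) := by
    apply IsCoprime.pow_right
    rw [Nat.isCoprime_iff_coprime]
    apply Nat.coprime_of_dvd
    intro p hp hps hpv
    exact (g.fs hp hps).2.2 (g.fv hp hpv).2
  have hcop2 : IsCoprime ((s : ℤ) * (v : ℤ) ^ 2) (u : ℤ) := by
    refine IsCoprime.mul_left ?_ (IsCoprime.pow_left ?_)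
    · rw [Nat.isCoprime_iff_coprime]
      apply Nat.coprime_of_dvd
      intro p hp hps hpu
      have h8 := PS_lt (g.fu hu hp hpu).1
      have h9 := PS_le (g.fs hp hps).1
      omega
    · rw [Nat.isCoprime_iff_coprime]
      apply Nat.coprime_of_dvd
      intro p hp hps hpu
      have h8 := PS_lt (g.fu hu hp hpu).1
      have h9 := PS_le (g.fv hp hps).1
      omega
  have key : ∀ n : ℤ, (∀ p : ℕ, p.Prime → p ∣ s → (p : ℤ) ∣ n) →
      (∀ p : ℕ, p.Prime → p ∣ v → (p : ℤ) ^ 2 ∣ n) → (∀ p : ℕ, p.Prime → p ∣ u → (p : ℤ) ∣ n) →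
      ((md s v u : ℕ) : ℤ) ∣ n := by
    intro n h1 h2 h3
    have e1 : (s : ℤ) ∣ n := by
      have := sq_pow_dvd hsq 1 n (fun p hp hps => by
        rw [pow_one]
        exact h1 p hp hps)
      rwa [pow_one] at this
    have e2 : (v : ℤ) ^ 2 ∣ n := sq_pow_dvd hvq 2 n h2
    have e3 : (u : ℤ) ∣ n := by
      have := sq_pow_dvd huq 1 n (fun p hp hps => by
        rw [pow_one]
        exact h3 p hp hps)
      rwa [pow_one] at this
    unfold md
    push_cast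
    exact hcop2.mul_dvd (hcop1.mul_dvd e1 e2) e3
  exact ⟨key _ (fun p hp h => (k1 p hp h).1) (fun p hp h => (k2 p hp h).1)
    (fun p hp h => (k3 p hp h).1), key _ (fun p hp h => (k1 p hp h).2)
    (fun p hp h => (k2 p hp h).2) (fun p hp h => (k3 p hp h).2)⟩

lemma card_Cod (hz : 2 ≤ z) (hs : s ∣ PP z y) :
    ((Cod s v u τ).card : ℝ) ≤ gm (fun p => (p : ℝ) / 2) s *
      (gm (fun p => 4 * (p : ℝ) ^ 2) v * gm (fun p => 3 * (p : ℝ)) u) := by
  unfold Cod
  rw [card_product, card_product, Fintype.card_piFinset, Fintype.card_piFinset,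
    Fintype.card_piFinset, Nat.cast_mul, Nat.cast_mul]
  have h0 : ∏ p : s.primeFactors, (Ws (τ p.1) p.1).card = ∏ p ∈ s.primeFactors, (Ws (τ p) p).card :=
    prod_coe_sort s.primeFactors (fun p => (Ws (τ p) p).card)
  have h1 : ∏ p : v.primeFactors, (Rv p.1).card = ∏ p ∈ v.primeFactors, (Rv p).card :=
    prod_coe_sort v.primeFactors (fun p => (Rv p).card)
  have h2 : ∏ p : u.primeFactors, (Ru p.1).card = ∏ p ∈ u.primeFactors, (Ru p).card :=
    prod_coe_sort u.primeFactors (fun p => (Ru p).card)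
  rw [h0, h1, h2]
  have g0 : ((∏ p ∈ s.primeFactors, (Ws (τ p) p).card : ℕ) : ℝ) ≤ gm (fun p => (p : ℝ) / 2) s := by
    rw [Nat.cast_prod]
    unfold gm
    refine prod_le_prod (fun _ _ => Nat.cast_nonneg _) (fun p hp => ?_)
    have hpp := Nat.prime_of_mem_primeFactors hp
    have hp2 : p ≠ 2 := by
      have := PS_lt ((prime_dvd_PP hpp).1 ((Nat.dvd_of_mem_primeFactors hp).trans hs))
      omega
    have h4 : (2 : ℝ) * ((Ws (τ p) p).card : ℝ) ≤ p := by exact_mod_cast card_Ws (τ p) hpp hp2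
    linarith
  have g1 : ((∏ p ∈ v.primeFactors, (Rv p).card : ℕ) : ℝ) ≤ gm (fun p => 4 * (p : ℝ) ^ 2) v := by
    rw [Nat.cast_prod]
    unfold gm
    refine prod_le_prod (fun _ _ => Nat.cast_nonneg _) (fun p hp => ?_)
    exact_mod_cast card_Rv (Nat.prime_of_mem_primeFactors hp)
  have g2 : ((∏ p ∈ u.primeFactors, (Ru p).card : ℕ) : ℝ) ≤ gm (fun p => 3 * (p : ℝ)) u := by
    rw [Nat.cast_prod]
    unfold gm
    refine prod_le_prod (fun _ _ => Nat.cast_nonneg _) (fun p hp => ?_)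
    exact_mod_cast card_Ru (Nat.prime_of_mem_primeFactors hp)
  have n0 : (0 : ℝ) ≤ gm (fun p => (p : ℝ) / 2) s := prod_nonneg fun p _ => by positivity
  have n1 : (0 : ℝ) ≤ gm (fun p => 4 * (p : ℝ) ^ 2) v := prod_nonneg fun p _ => by positivity
  exact mul_le_mul g0 (mul_le_mul g1 g2 (Nat.cast_nonneg _) n1) (by positivity) n0

/-- the count -/
theorem count {z : ℕ} (hz : 6 ≤ z) :
    ∃ (C : ℝ) (K y0 : ℕ), 0 ≤ C ∧ 1 ≤ K ∧ ∀ (x : ℤ × ℤ) (X y Y : ℕ), y0 ≤ y → z < y → y ^ K ≤ X →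
    ∀ s v u : ℕ, s ∣ PP z y → v ∣ PP z y → u ∣ PP y Y → (s * v * u) ^ 8 ≤ X →
    ∀ (τ : ℕ → Fin 3 × Bool),
    (((Bx x X).filter (fun t : ℤ × ℤ => (T1 z y (FF t) = s ∧ T2 z y (FF t) = v ∧
      (u : ℤ) ∣ FF t) ∧ ∀ p ∈ s.primeFactors, ty t p = τ p)).card : ℝ) ≤
      C * X ^ 2 * gm (fun p => 1 / (2 * ((p : ℝ) - 3))) s * (gm bv v / v) * gm bu u /
        (Real.log y) ^ 3 := by
  classical
  obtain ⟨C, K, y0, hC, hK, hSV⟩ := sieve hz
  refine ⟨C, K, y0, hC, hK, ?_⟩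
  intro x X y Y hy0 hzy hX s v u hs hv hu hsvu τ
  have hs' : s ∈ (PP z y).divisors := Nat.mem_divisors.2 ⟨hs, PP_ne_zero z y⟩
  have hv' : v ∈ (PP z y).divisors := Nat.mem_divisors.2 ⟨hv, PP_ne_zero z y⟩
  have hu' : u ∈ (PP y Y).divisors := Nat.mem_divisors.2 ⟨hu, PP_ne_zero y Y⟩
  have hs0 := dv_ne_zero hs'
  have hv0 := dv_ne_zero hv'
  have hu0 := dv_ne_zero hu'
  have hsq := dv_squarefree hs'
  have hvq := dv_squarefree hv'
  have huq := dv_squarefree hu'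
  have hlog : 0 ≤ (Real.log y) ^ 3 := pow_nonneg (Real.log_natCast_nonneg y) _
  have hp7 : ∀ w : ℕ, w ∣ PP z y → ∀ p ∈ w.primeFactors, (7 : ℝ) ≤ p := by
    intro w hw p hp
    have h := PS_lt ((prime_dvd_PP (Nat.prime_of_mem_primeFactors hp)).1
      ((Nat.dvd_of_mem_primeFactors hp).trans hw))
    exact_mod_cast (by omega : 7 ≤ p)
  have hn1 : 0 ≤ gm (fun p => 1 / (2 * ((p : ℝ) - 3))) s := prod_nonneg fun p hp => by
    have := hp7 s hs p hp
    exact div_nonneg zero_le_one (by linarith)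
  have hn2 : 0 ≤ gm bv v := prod_nonneg fun p hp => by
    have := hp7 v hv p hp
    unfold bv
    exact div_nonneg (by norm_num) (by linarith)
  have hn3 : 0 ≤ gm bu u := prod_nonneg fun p _ => by unfold bu; positivity
  set T := (Bx x X).filter (fun t : ℤ × ℤ => (T1 z y (FF t) = s ∧ T2 z y (FF t) = v ∧
      (u : ℤ) ∣ FF t) ∧ ∀ p ∈ s.primeFactors, ty t p = τ p) with hT
  have hgood : ∀ t ∈ T, Good z y s v u τ t := by
    intro t ht
    rw [hT, mem_filter] at ht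
    exact ⟨ht.2.1.1, ht.2.1.2.1, ht.2.1.2.2, ht.2.2⟩
  rcases T.eq_empty_or_nonempty with hTe | ⟨t0, ht0⟩
  · rw [hTe, card_empty, Nat.cast_zero]
    apply div_nonneg _ hlog
    positivity
  set m := md s v u with hm
  have hm1 : 1 ≤ m := by
    rw [hm]
    unfold md
    exact Nat.succ_le_of_lt (by positivity)
  have hm4 : m ^ 4 ≤ X := by
    refine le_trans ?_ hsvu
    have h1 : m ≤ (s * v * u) ^ 2 := by
      rw [hm]
      unfold md
      have h2 : 1 ≤ s := Nat.one_le_iff_ne_zero.2 hs0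
      have h3 : 1 ≤ u := Nat.one_le_iff_ne_zero.2 hu0
      calc s * v ^ 2 * u = 1 * (s * v ^ 2 * u) := (one_mul _).symm
        _ ≤ (s * u) * (s * v ^ 2 * u) := Nat.mul_le_mul_right _ (Nat.one_le_iff_ne_zero.2
            (mul_ne_zero hs0 hu0))
        _ = (s * v * u) ^ 2 := by ring
    calc m ^ 4 ≤ ((s * v * u) ^ 2) ^ 4 := Nat.pow_le_pow_left h1 4
      _ = (s * v * u) ^ 8 := by rw [← pow_mul]
  have hg0 := hgood t0 ht0
  have hcsv : s.Coprime v := by
    apply Nat.coprime_of_dvd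
    intro p hp hps hpv
    exact (hg0.fs hp hps).2.2 (hg0.fv hp hpv).2
  -- bound for a fibre
  set B : ℝ := C * (X / m) ^ 2 * (∏ p ∈ m.primeFactors.filter (fun p => p ∈ PS z y),
        (p : ℝ) / ((p : ℝ) - 3)) / (Real.log y) ^ 3 with hBdef
  have hfib : ∀ φ, ((T.filter (fun t : ℤ × ℤ => Phi s v u τ t = φ)).card : ℝ) ≤ B := by
    intro φ
    rcases (T.filter (fun t : ℤ × ℤ => Phi s v u τ t = φ)).eq_empty_or_nonempty with
      he | ⟨r, hr⟩
    · rw [he, card_empty, Nat.cast_zero]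
      exact le_trans (Nat.cast_nonneg _) (hSV X y hy0 hzy hX x 0 m hm1 hm4)
    · refine le_trans ?_ (hSV X y hy0 hzy hX x r m hm1 hm4)
      rw [Nat.cast_le]
      apply card_le_card
      intro t ht
      rw [mem_filter] at ht hr
      have g := hgood t ht.1
      have g' := hgood r hr.1
      have htX : t ∈ Bx x X := (mem_filter.1 ht.1).1
      rw [mem_filter]
      refine ⟨htX, ?_, ?_⟩
      · exact congr_of hs hv hu g g' (ht.2.trans hr.2.symm)
      · intro p hpP hpm hpf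
        have hp := (mem_PS.1 hpP).2
        apply hpm
        rw [hm]
        unfold md
        by_cases h2 : (p : ℤ) ^ 2 ∣ FF t
        · have h3 : p ∣ v := by
            rw [← g.hv]
            exact (NA.dvd_T2 hp).2 ⟨hpP, h2⟩
          exact ((h3.pow two_ne_zero).mul_left _).mul_right _
        · have h3 : p ∣ s := by
            rw [← g.hs]
            exact (NA.dvd_T1 hp).2 ⟨hpP, hpf, h2⟩
          exact (h3.mul_right _).mul_right _
  have hB0 : 0 ≤ B := le_trans (Nat.cast_nonneg _) (hSV X y hy0 hzy hX x 0 m hm1 hm4)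
  have hcard : (T.card : ℝ) ≤ ((Cod s v u τ).card : ℝ) * B := by
    rw [card_eq_sum_card_fiberwise (f := fun t : ℤ × ℤ => Phi s v u τ t)
      (t := Cod s v u τ) (fun t ht => Phi_mem hu (hgood t ht))]
    rw [Nat.cast_sum]
    refine (sum_le_sum fun φ _ => hfib φ).trans ?_
    rw [sum_const, nsmul_eq_mul]
  refine hcard.trans ((mul_le_mul_of_nonneg_right (card_Cod (by omega) hs) hB0).trans ?_)
  -- the product over the primes
  have hpf : m.primeFactors.filter (fun p => p ∈ PS z y) = (s * v).primeFactors := by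
    ext p
    rw [mem_filter, Nat.mem_primeFactors, Nat.mem_primeFactors]
    constructor
    · rintro ⟨⟨hp, hd, -⟩, hpP⟩
      refine ⟨hp, ?_, mul_ne_zero hs0 hv0⟩
      rw [hm] at hd
      unfold md at hd
      rcases hp.dvd_mul.1 hd with h | h
      · rcases hp.dvd_mul.1 h with h | h
        · exact h.mul_right _
        · exact (hp.dvd_of_dvd_pow h).mul_left _
      · exfalso
        have h1 := PS_lt (hg0.fu hu hp h).1
        have h2 := PS_le hpP
        omega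
    · rintro ⟨hp, hd, -⟩
      have h1 : p ∈ PS z y := by
        rcases hp.dvd_mul.1 hd with h | h
        · exact (hg0.fs hp h).1
        · exact (hg0.fv hp h).1
      refine ⟨⟨hp, ?_, by omega⟩, h1⟩
      rw [hm]
      unfold md
      rcases hp.dvd_mul.1 hd with h | h
      · exact (h.mul_right _).mul_right _
      · exact ((h.pow two_ne_zero).mul_left _).mul_right _
  have hprod : ∏ p ∈ m.primeFactors.filter (fun p => p ∈ PS z y),
      (p : ℝ) / ((p : ℝ) - 3) = gm (fun p => (p : ℝ) / ((p : ℝ) - 3)) s *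
        gm (fun p => (p : ℝ) / ((p : ℝ) - 3)) v := by
    rw [hpf, ← gm_coprime _ hcsv]
    rfl
  have e1 : gm (fun p => (p : ℝ) / 2) s * gm (fun p => (p : ℝ) / ((p : ℝ) - 3)) s =
      gm (fun p => 1 / (2 * ((p : ℝ) - 3))) s * (s : ℝ) ^ 2 := by
    have h1 : (s : ℝ) ^ 2 = gm (fun p => (p : ℝ) ^ 2) s := by
      conv_lhs => rw [← gm_id hsq]
      unfold gm
      rw [prod_pow]
    rw [h1, ← gm_mul, ← gm_mul]
    unfold gm
    refine prod_congr rfl fun p hp => ?_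
    have h7 := hp7 s hs p hp
    have h8 : (p : ℝ) - 3 ≠ 0 := by linarith
    field_simp
  have e2 : gm (fun p => 4 * (p : ℝ) ^ 2) v * gm (fun p => (p : ℝ) / ((p : ℝ) - 3)) v =
      gm bv v * (v : ℝ) ^ 3 := by
    have h1 : (v : ℝ) ^ 3 = gm (fun p => (p : ℝ) ^ 3) v := by
      conv_lhs => rw [← gm_id hvq]
      unfold gm
      rw [prod_pow]
    rw [h1, ← gm_mul, ← gm_mul]
    unfold gm bv
    refine prod_congr rfl fun p hp => ?_
    have h7 := hp7 v hv p hp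
    have h8 : (p : ℝ) - 3 ≠ 0 := by linarith
    field_simp
  have e3 : gm (fun p => 3 * (p : ℝ)) u = gm bu u * (u : ℝ) ^ 2 := by
    have h1 : (u : ℝ) ^ 2 = gm (fun p => (p : ℝ) ^ 2) u := by
      conv_lhs => rw [← gm_id huq]
      unfold gm
      rw [prod_pow]
    rw [h1, ← gm_mul]
    unfold gm bu
    refine prod_congr rfl fun p hp => ?_
    have : (p : ℝ) ≠ 0 := by exact_mod_cast (Nat.prime_of_mem_primeFactors hp).ne_zero
    field_simp
  have hsr : (s : ℝ) ≠ 0 := Nat.cast_ne_zero.2 hs0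
  have hvr : (v : ℝ) ≠ 0 := Nat.cast_ne_zero.2 hv0
  have hur : (u : ℝ) ≠ 0 := Nat.cast_ne_zero.2 hu0
  have hmr : (m : ℝ) = (s : ℝ) * (v : ℝ) ^ 2 * u := by
    rw [hm]
    unfold md
    push_cast
    ring
  rw [hBdef, hprod, e3, hmr]
  apply le_of_eq
  calc gm (fun p => (p : ℝ) / 2) s * (gm (fun p => 4 * (p : ℝ) ^ 2) v * (gm bu u * (u : ℝ) ^ 2)) *
        (C * ((X : ℝ) / ((s : ℝ) * (v : ℝ) ^ 2 * u)) ^ 2 *
          (gm (fun p => (p : ℝ) / ((p : ℝ) - 3)) s * gm (fun p => (p : ℝ) / ((p : ℝ) - 3)) v) /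
            (Real.log y) ^ 3)
      = (gm (fun p => (p : ℝ) / 2) s * gm (fun p => (p : ℝ) / ((p : ℝ) - 3)) s) *
        (gm (fun p => 4 * (p : ℝ) ^ 2) v * gm (fun p => (p : ℝ) / ((p : ℝ) - 3)) v) *
        (gm bu u * (u : ℝ) ^ 2) * (C * ((X : ℝ) / ((s : ℝ) * (v : ℝ) ^ 2 * u)) ^ 2 /
            (Real.log y) ^ 3) := by ring
    _ = _ := by
      rw [e1, e2]
      field_simp

end Run7.h69.UF
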