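import Mathlib
import Pool.Agent.W605.RT.PAR4
import Pool.Agent.W29.RT.LOW4
import Pool.Agent.W261.RT.Iso
import Pool.Agent.W307.RT.Tors

/-!
# The curves with full rational 2-torsion, by height
-/

set_option autoImplicit false
set_option linter.unusedSectionVars false

namespace Run7.h69.UH

open Finset Pool.Agent.W307.RT WeierstrassCurve
open Pool.Agent.W262.RK (EAB)
open Pool.Agent.W605.RT (sh_eq two_tors int_root)
open Pool.Agent.W29.RT (nons neg_y top_root abs_le_cube abs_le_sq card_SS)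

/-- the three roots -/
theorem core {A B : ℤ} (hT : HasT 2 (Sh A B)) :
    ∃ E1 E2 : ℤ, E1 ≠ E2 ∧ A = -(E1 ^ 2 + E1 * E2 + E2 ^ 2) ∧ B = E1 * E2 * (E1 + E2) := by
  obtain ⟨P, Q, hP, hQ, hPQ⟩ := hT
  obtain ⟨e1, h1, hP'⟩ := two_tors hP
  obtain ⟨e2, h2, hQ'⟩ := two_tors hQ
  have hne : e1 ≠ e2 := by
    intro h
    subst h
    apply hPQ
    rw [hQ', ← hP']
    exact AddSubgroup.mem_zmultiples P
  have r1 := sh_eq.mp h1.1
  have r2 := sh_eq.mp h2.1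
  obtain ⟨E1, hE1⟩ := int_root (A := A) (B := B) (e := e1) (by linarith)
  obtain ⟨E2, hE2⟩ := int_root (A := A) (B := B) (e := e2) (by linarith)
  have hs : e1 ^ 2 + e1 * e2 + e2 ^ 2 + A = 0 := by
    have : (e1 - e2) * (e1 ^ 2 + e1 * e2 + e2 ^ 2 + A) = 0 := by linear_combination r2 - r1
    exact (mul_eq_zero.mp this).resolve_left (sub_ne_zero.mpr hne)
  have hA : A = -(E1 ^ 2 + E1 * E2 + E2 ^ 2) := by
    have h3 : ((A : ℤ) : ℚ) = ((-(E1 ^ 2 + E1 * E2 + E2 ^ 2) : ℤ) : ℚ) := by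
      push_cast
      rw [hE1, hE2]
      linear_combination hs
    exact_mod_cast h3
  refine ⟨E1, E2, ?_, hA, ?_⟩
  · intro h
    apply hne
    rw [← hE1, ← hE2, h]
  · have h4 : ((B : ℤ) : ℚ) = ((E1 * E2 * (E1 + E2) : ℤ) : ℚ) := by
      push_cast
      rw [hE1, hE2]
      linear_combination (-1 : ℚ) * r1 - e1 * hs
    exact_mod_cast h4

/-- the relation between a curve and its parameters -/
def Rel (c t : ℤ × ℤ) : Prop := ∃ E1 E2 : ℤ, t = (E2 - E1, -E1 - E2 - E1) ∧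
  c = (-(E1 ^ 2 + E1 * E2 + E2 ^ 2), E1 * E2 * (E1 + E2)) ∧ t.1 ≠ 0 ∧ t.2 ≠ 0 ∧ t.1 ≠ t.2

theorem rel_of {A B : ℤ} (hD : 4 * A ^ 3 + 27 * B ^ 2 ≠ 0) (hT : HasT 2 (Sh A B)) :
    ∃ t, Rel (A, B) t := by
  obtain ⟨E1, E2, hne, hA, hB⟩ := core hT
  have hD' : 4 * A ^ 3 + 27 * B ^ 2 =
      -((E1 - E2) ^ 2 * (2 * E1 + E2) ^ 2 * (E1 + 2 * E2) ^ 2) := by
    rw [hA, hB]
    ring
  rw [hD'] at hD
  refine ⟨(E2 - E1, -E1 - E2 - E1), E1, E2, rfl, by rw [← hA, ← hB], ?_, ?_, ?_⟩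
  · exact sub_ne_zero.2 hne.symm
  · intro h
    apply hD
    have h' : (-E1 - E2 - E1 : ℤ) = 0 := h
    have : 2 * E1 + E2 = 0 := by linarith
    rw [this]
    ring
  · intro h
    apply hD
    have h' : (E2 - E1 : ℤ) = -E1 - E2 - E1 := h
    have : E1 + 2 * E2 = 0 := by linarith
    rw [this]
    ring

lemma rel_inj {c c' t : ℤ × ℤ} (h : Rel c t) (h' : Rel c' t) : c = c' := by
  obtain ⟨E1, E2, ht, hc, _⟩ := h
  obtain ⟨E1', E2', ht', hc', _⟩ := h'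
  rw [ht, Prod.mk.injEq] at ht'
  have e1 : E1 = E1' := by linarith [ht'.1, ht'.2]
  have e2 : E2 = E2' := by linarith [ht'.1, ht'.2]
  rw [hc, hc', e1, e2]

lemma rel_rank {c t : ℤ × ℤ} (h : Rel c t) : Module.finrank ℤ (Sh c.1 c.2).toAffine.Point =
    Module.finrank ℤ (EAB t.1 t.2).toAffine.Point := by
  obtain ⟨E1, E2, ht, hc, _⟩ := h
  obtain ⟨φ⟩ := Pool.Agent.W261.RT.iso 0 c.1 c.2 E1 1 one_ne_zero
  have hW : (⟨0, ((0 : ℚ) + 3 * E1) / (1 : ℚ) ^ 2, 0,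
      ((c.1 : ℚ) + 2 * E1 * 0 + 3 * (E1 : ℚ) ^ 2) / (1 : ℚ) ^ 4,
      ((c.2 : ℚ) + E1 * c.1 + (E1 : ℚ) ^ 2 * 0 + (E1 : ℚ) ^ 3) / (1 : ℚ) ^ 6⟩ : WeierstrassCurve ℚ)
      = EAB t.1 t.2 := by
    unfold EAB
    simp only [WeierstrassCurve.mk.injEq, true_and]
    rw [ht, hc]
    push_cast
    refine ⟨?_, ?_, ?_⟩ <;> ring
  rw [hW] at φ
  change Module.finrank ℤ (Sh c.1 c.2).toAffine.Point =
    Module.finrank ℤ (EAB t.1 t.2).toAffine.Point
  exact LinearEquiv.finrank_eq φ.toIntLinearEquiv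

lemma rel_size {c t : ℤ × ℤ} (h : Rel c t) {H : ℕ} (hH : 4 * |c.1| ^ 3 ≤ H) :
    t.1.natAbs ^ 6 ≤ 16 * H ∧ t.2.natAbs ^ 6 ≤ 16 * H := by
  obtain ⟨E1, E2, ht, hc, _⟩ := h
  have habs : |c.1| = E1 ^ 2 + E1 * E2 + E2 ^ 2 := by
    rw [hc]
    simp only
    rw [abs_neg, abs_of_nonneg]
    nlinarith [sq_nonneg (E1 + E2), sq_nonneg E1, sq_nonneg E2]
  have key : ∀ x : ℤ, x ^ 2 ≤ 4 * |c.1| → x.natAbs ^ 6 ≤ 16 * H := by
    intro x hx
    have h0 : 0 ≤ x ^ 2 := sq_nonneg x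
    have h1 : (x ^ 2) ^ 3 ≤ (4 * |c.1|) ^ 3 := pow_le_pow_left₀ h0 hx 3
    have h2 : ((x.natAbs ^ 6 : ℕ) : ℤ) = (x ^ 2) ^ 3 := by
      push_cast
      rw [← sq_abs x]
      ring
    have h3 : ((x.natAbs ^ 6 : ℕ) : ℤ) ≤ ((16 * H : ℕ) : ℤ) := by
      rw [h2]
      push_cast
      calc (x ^ 2) ^ 3 ≤ (4 * |c.1|) ^ 3 := h1
        _ = 16 * (4 * |c.1| ^ 3) := by ring
        _ ≤ 16 * H := by linarith
    exact_mod_cast h3
  rw [ht]
  constructor
  · apply key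
    rw [habs]
    simp only
    nlinarith [sq_nonneg (E1 + E2)]
  · apply key
    rw [habs]
    simp only
    nlinarith [sq_nonneg E2]

/-- points of order two -/
lemma hasT2 {A B : ℤ} {a b : ℤ} (hA : A = -(a ^ 2 + a * b + b ^ 2)) (hB : B = a * b * (a + b))
    (h1 : a ≠ b) (h2 : 2 * a + b ≠ 0) (h3 : a + 2 * b ≠ 0) : HasT 2 (Sh A B) := by
  have h1q : (a : ℚ) - b ≠ 0 := by
    intro h
    apply h1
    have : (a : ℚ) = b := by linarith
    exact_mod_cast this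
  have h2q : 2 * (a : ℚ) + b ≠ 0 := by exact_mod_cast h2
  have h3q : (a : ℚ) + 2 * b ≠ 0 := by exact_mod_cast h3
  have hP : (Sh A B).toAffine.Nonsingular (a : ℚ) 0 := by
    apply nons _ (Or.inr _)
    · rw [hA, hB]; push_cast; ring
    · rw [hA]
      push_cast
      have : 3 * (a : ℚ) ^ 2 + -((a : ℚ) ^ 2 + a * b + b ^ 2) = (a - b) * (2 * a + b) := by ring
      rw [this]
      exact mul_ne_zero h1q h2q
  have hQ : (Sh A B).toAffine.Nonsingular (b : ℚ) 0 := by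
    apply nons _ (Or.inr _)
    · rw [hA, hB]; push_cast; ring
    · rw [hA]
      push_cast
      have : 3 * (b : ℚ) ^ 2 + -((a : ℚ) ^ 2 + a * b + b ^ 2) = -((a - b) * (a + 2 * b)) := by ring
      rw [this]
      exact neg_ne_zero.2 (mul_ne_zero h1q h3q)
  set P : (Sh A B).toAffine.Point := .some _ _ hP with hPd
  set Q : (Sh A B).toAffine.Point := .some _ _ hQ with hQd
  have hPP : P + P = 0 := by
    rw [hPd]
    apply Affine.Point.add_self_of_Y_eq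
    rw [neg_y]; simp
  have hQQ : Q + Q = 0 := by
    rw [hQd]
    apply Affine.Point.add_self_of_Y_eq
    rw [neg_y]; simp
  have hP0 : P ≠ 0 := Affine.Point.some_ne_zero hP
  have hQ0 : Q ≠ 0 := Affine.Point.some_ne_zero hQ
  have hne : P ≠ Q := by
    rw [hPd, hQd, Ne, Affine.Point.some.injEq]
    rintro ⟨h, -⟩
    exact h1q (by linarith)
  refine ⟨P, Q, addOrderOf_eq_prime (by rw [two_nsmul, hPP]) hP0,
    addOrderOf_eq_prime (by rw [two_nsmul, hQQ]) hQ0, ?_⟩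
  intro hmem
  obtain ⟨k, hk⟩ := AddSubgroup.mem_zmultiples_iff.1 hmem
  rcases Int.even_or_odd k with ⟨i, hi⟩ | ⟨i, hi⟩
  · apply hQ0
    rw [← hk, hi, ← two_mul, mul_comm, mul_zsmul, two_zsmul, hPP, zsmul_zero]
  · apply hne
    rw [← hk, hi, add_zsmul, one_zsmul, mul_comm, mul_zsmul, two_zsmul, hPP, zsmul_zero, zero_add]

/-- the coefficients -/
def cf (t : ℕ × ℕ) : ℤ × ℤ :=
  (-((t.1 : ℤ) ^ 2 + t.1 * t.2 + (t.2 : ℤ) ^ 2), (t.1 : ℤ) * t.2 * (t.1 + t.2))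

lemma minim {a b : ℤ} (h : IsCoprime a b) {p : ℕ} (hp : p.Prime)
    (h1 : (p : ℤ) ^ 4 ∣ -(a ^ 2 + a * b + b ^ 2)) (h2 : (p : ℤ) ^ 6 ∣ a * b * (a + b)) :
    False := by
  have hpI : Prime (p : ℤ) := Nat.prime_iff_prime_int.1 hp
  have hnot : ¬ ((p : ℤ) ∣ a ∧ (p : ℤ) ∣ b) := by
    rintro ⟨ha, hb⟩
    exact hpI.not_isUnit (h.isUnit_of_dvd' ha hb)
  have e1 : (p : ℤ) ∣ a ^ 2 + a * b + b ^ 2 :=
    dvd_neg.1 ((dvd_pow_self _ (by norm_num)).trans h1)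
  have e2 : (p : ℤ) ∣ a * b * (a + b) := (dvd_pow_self _ (by norm_num)).trans h2
  apply hnot
  rcases hpI.dvd_or_dvd e2 with e3 | e3
  · rcases hpI.dvd_or_dvd e3 with e4 | e4
    · refine ⟨e4, hpI.dvd_of_dvd_pow (n := 2) ?_⟩
      have e : b ^ 2 = (a ^ 2 + a * b + b ^ 2) - a * (a + b) := by ring
      rw [e]
      exact dvd_sub e1 (e4.mul_right _)
    · refine ⟨hpI.dvd_of_dvd_pow (n := 2) ?_, e4⟩
      have e : a ^ 2 = (a ^ 2 + a * b + b ^ 2) - b * (a + b) := by ring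
      rw [e]
      exact dvd_sub e1 (e4.mul_right _)
  · have e5 : (p : ℤ) ∣ a ^ 2 := by
      have e : a ^ 2 = (a ^ 2 + a * b + b ^ 2) - b * (a + b) := by ring
      rw [e]
      exact dvd_sub e1 (e3.mul_left _)
    have e6 := hpI.dvd_of_dvd_pow e5
    exact ⟨e6, (dvd_add_right e6).1 e3⟩

lemma cf_inj {a b a' b' : ℤ} (hb : 1 ≤ b) (hab : b < a) (hb' : 1 ≤ b') (hab' : b' < a')
    (h1 : -(a ^ 2 + a * b + b ^ 2) = -(a' ^ 2 + a' * b' + b' ^ 2))
    (h2 : a * b * (a + b) = a' * b' * (a' + b')) : a = a' ∧ b = b' := by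
  have H : ∀ x : ℤ, (x - a) * (x - b) * (x - (-(a + b))) =
      (x - a') * (x - b') * (x - (-(a' + b'))) := by
    intro x
    linear_combination x * h1 + h2
  have t1 := top_root H (by linarith) (by linarith) (by linarith) (by linarith)
  have H2 : ∀ x : ℤ, (x - (a + b)) * (x - (-a)) * (x - (-b)) =
      (x - (a' + b')) * (x - (-a')) * (x - (-b')) := by
    intro x
    have := H (-x)
    linear_combination (-1) * this
  have t2 := top_root H2 (by linarith) (by linarith) (by linarith) (by linarith)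
  exact ⟨t1, by linarith⟩

theorem mem_cv {T H a b : ℕ} (hb : 1 ≤ b) (hab : b < a) (haT : a ≤ T) (hc : a.Coprime b)
    (hH : 108 * T ^ 6 ≤ H) : cf (a, b) ∈ Cv 2 H := by
  have hcI : IsCoprime (a : ℤ) (b : ℤ) := Nat.isCoprime_iff_coprime.2 hc
  have hbI : (1 : ℤ) ≤ b := by exact_mod_cast hb
  have habI : (b : ℤ) < a := by exact_mod_cast hab
  have haTI : (a : ℤ) ≤ T := by exact_mod_cast haT
  have hHI : 108 * (T : ℤ) ^ 6 ≤ H := by exact_mod_cast hH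
  have hT0 : (0 : ℤ) ≤ T := by positivity
  have hA : |(cf (a, b)).1| ≤ 3 * (T : ℤ) ^ 2 := by
    simp only [cf]
    rw [abs_neg, abs_of_nonneg (by positivity)]
    nlinarith
  have hB : |(cf (a, b)).2| ≤ 2 * (T : ℤ) ^ 3 := by
    simp only [cf]
    rw [abs_of_nonneg (by positivity)]
    calc (a : ℤ) * b * (a + b) ≤ T * T * (T + T) := by gcongr <;> linarith
      _ = 2 * (T : ℤ) ^ 3 := by ring
  have hA3 : 4 * |(cf (a, b)).1| ^ 3 ≤ H := by
    calc 4 * |(cf (a, b)).1| ^ 3 ≤ 4 * (3 * (T : ℤ) ^ 2) ^ 3 := by gcongr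
      _ = 108 * (T : ℤ) ^ 6 := by ring
      _ ≤ H := hHI
  have hB2 : 27 * (cf (a, b)).2 ^ 2 ≤ H := by
    calc 27 * (cf (a, b)).2 ^ 2 = 27 * |(cf (a, b)).2| ^ 2 := by rw [sq_abs]
      _ ≤ 27 * (2 * (T : ℤ) ^ 3) ^ 2 := by gcongr
      _ = 108 * (T : ℤ) ^ 6 := by ring
      _ ≤ H := hHI
  unfold Cv
  simp only [mem_filter, mem_product, mem_Icc]
  have a1 := abs_le_cube (cf (a, b)).1
  have a2 := abs_le_sq (cf (a, b)).2
  have a3 := neg_abs_le (cf (a, b)).1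
  have a4 := le_abs_self (cf (a, b)).1
  have a5 := neg_abs_le (cf (a, b)).2
  have a6 := le_abs_self (cf (a, b)).2
  have a7 : 0 ≤ |(cf (a, b)).1| ^ 3 := by positivity
  have a8 : 0 ≤ (cf (a, b)).2 ^ 2 := by positivity
  refine ⟨⟨⟨by linarith, by linarith⟩, ⟨by linarith, by linarith⟩⟩, ?_, hA3, hB2, ?_, ?_⟩
  · simp only [cf]
    have : 4 * (-((a : ℤ) ^ 2 + a * b + (b : ℤ) ^ 2)) ^ 3 + 27 * ((a : ℤ) * b * (a + b)) ^ 2 =
        -(((a : ℤ) - b) ^ 2 * (2 * a + b) ^ 2 * (a + 2 * b) ^ 2) := by ring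
    rw [this]
    have h3 : (a : ℤ) - b ≠ 0 := by intro h; linarith
    have : 0 < ((a : ℤ) - b) ^ 2 * (2 * a + b) ^ 2 * (a + 2 * b) ^ 2 := by positivity
    intro h
    linarith
  · intro p hp hh
    exact minim hcI hp hh.1 hh.2
  · exact hasT2 (a := (a : ℤ)) (b := (b : ℤ)) rfl rfl (by omega) (by omega) (by omega)

theorem low : ∀ T H : ℕ, 5 ≤ T → 108 * T ^ 6 ≤ H →
    (1 / 24 : ℝ) * T ^ 2 ≤ ((Cv 2 H).card : ℝ) := by
  intro T H hT hH
  have h1 : (Pool.Agent.W29.RT.SS T).card ≤ (Cv 2 H).card := by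
    apply card_le_card_of_injOn (fun t => cf (t.1, t.2))
    · intro t ht
      have ht' : t ∈ Pool.Agent.W29.RT.SS T := ht
      unfold Pool.Agent.W29.RT.SS at ht'
      rw [mem_sigma, mem_Icc, mem_filter, mem_range] at ht'
      obtain ⟨⟨k1, k2⟩, k3, k4⟩ := ht'
      have hb : 1 ≤ t.2 := by
        rcases Nat.eq_zero_or_pos t.2 with h | h
        · rw [h, Nat.coprime_zero_right] at k4; omega
        · exact h
      exact mem_cv hb k3 k2 k4 hH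
    · intro t ht t' ht' h
      have ht1 : t ∈ Pool.Agent.W29.RT.SS T := ht
      have ht1' : t' ∈ Pool.Agent.W29.RT.SS T := ht'
      unfold Pool.Agent.W29.RT.SS at ht1 ht1'
      rw [mem_sigma, mem_Icc, mem_filter, mem_range] at ht1 ht1'
      obtain ⟨⟨k1, k2⟩, k3, k4⟩ := ht1
      obtain ⟨⟨k1', k2'⟩, k3', k4'⟩ := ht1'
      have hb : 1 ≤ t.2 := by
        rcases Nat.eq_zero_or_pos t.2 with h | h
        · rw [h, Nat.coprime_zero_right] at k4; omega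
        · exact h
      have hb' : 1 ≤ t'.2 := by
        rcases Nat.eq_zero_or_pos t'.2 with h | h
        · rw [h, Nat.coprime_zero_right] at k4'; omega
        · exact h
      have h' : cf (t.1, t.2) = cf (t'.1, t'.2) := h
      simp only [cf, Prod.mk.injEq] at h'
      obtain ⟨e1, e2⟩ := cf_inj (by exact_mod_cast hb) (by exact_mod_cast k3)
        (by exact_mod_cast hb') (by exact_mod_cast k3') h'.1 h'.2
      have e1' : t.1 = t'.1 := by exact_mod_cast e1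
      have e2' : t.2 = t'.2 := by exact_mod_cast e2
      exact Sigma.ext e1' (heq_of_eq e2')
  have h2 := card_SS T hT
  have h3 : (T : ℝ) ^ 2 ≤ 24 * ((Pool.Agent.W29.RT.SS T).card : ℝ) := by exact_mod_cast h2
  have h4 : ((Pool.Agent.W29.RT.SS T).card : ℝ) ≤ ((Cv 2 H).card : ℝ) := by exact_mod_cast h1
  linarith

theorem low2 : LOW 2 6 := ⟨1 / 24, 108, 5, by norm_num, fun T H hT hH => low T H hT hH⟩

end Run7.h69.UH
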