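import Mathlib
import Pool.Agent.Run7.h69.UA7
import Pool.Agent.Run7.h69.UA8

/-!
# The curves with full rational 2-torsion, by height: the average
-/

set_option autoImplicit false
set_option linter.unusedSectionVars false

namespace Run7.h69.UH

open Finset Pool.Agent.W307.RT WeierstrassCurve
open Pool.Agent.W262.RK (EAB)

/-- the pairs of size at most `T` -/
noncomputable def BT (T : ℕ) : Finset (ℤ × ℤ) :=
  ((Icc (-(T : ℤ)) T) ×ˢ (Icc (-(T : ℤ)) T)).filter (fun t => UF.FF t ≠ 0)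

lemma box : ∃ C : ℝ, 0 ≤ C ∧ ∀ T : ℕ, 1 ≤ T → ∑ t ∈ BT T, UF.RR t ≤ C * (T : ℝ) ^ 2 := by
  obtain ⟨C, hC, h⟩ := UF.box 1
  refine ⟨9 * C, by positivity, fun T hT => ?_⟩
  have h1 := h (-(T : ℤ) - 1, -(T : ℤ) - 1) (2 * T + 1) (by omega)
    (by rw [pow_one]; simp only; omega) (by rw [pow_one]; simp only; omega)
  have hsub : BT T ⊆ UF.SS (-(T : ℤ) - 1, -(T : ℤ) - 1) (2 * T + 1) := by
    intro t ht
    unfold BT at ht
    rw [mem_filter, mem_product, mem_Icc, mem_Icc] at ht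
    unfold UF.SS UF.Bx
    rw [mem_filter, mem_product, mem_Ioc, mem_Ioc]
    simp only
    obtain ⟨⟨⟨a1, a2⟩, a3, a4⟩, a5⟩ := ht
    refine ⟨⟨⟨by omega, by push_cast; omega⟩, ⟨by omega, by push_cast; omega⟩⟩, a5⟩
  refine (sum_le_sum_of_subset_of_nonneg hsub fun t _ _ => UF.RR_nonneg t).trans (h1.trans ?_)
  have hTr : (1 : ℝ) ≤ T := by exact_mod_cast hT
  push_cast
  have e : (2 * (T : ℝ) + 1) ^ 2 ≤ 9 * (T : ℝ) ^ 2 := by nlinarith
  calc C * (2 * (T : ℝ) + 1) ^ 2 ≤ C * (9 * (T : ℝ) ^ 2) := mul_le_mul_of_nonneg_left e hC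
    _ = _ := by ring

open Classical in
/-- the parameters of a curve -/
noncomputable def F (c : ℤ × ℤ) : ℤ × ℤ := if h : ∃ t, Rel c t then h.choose else (0, 0)

lemma F_spec {H : ℕ} {c : ℤ × ℤ} (hc : c ∈ Cv 2 H) : Rel c (F c) := by
  classical
  unfold Cv at hc
  rw [mem_filter] at hc
  have h : ∃ t, Rel c t := rel_of (A := c.1) (B := c.2) hc.2.1 hc.2.2.2.2.2
  unfold F
  rw [dif_pos h]
  exact h.choose_spec

/-- the average by height -/
theorem height : ∃ C : ℝ, ∀ H : ℕ, ∑ c ∈ Cv 2 H,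
    (4 : ℝ) ^ Module.finrank ℤ (Sh c.1 c.2).toAffine.Point ≤ C * (Cv 2 H).card := by
  classical
  obtain ⟨C, hC, hb⟩ := box
  obtain ⟨k, hk⟩ : ∃ k : ℕ, k = 6 := ⟨_, rfl⟩
  obtain ⟨c, hc'⟩ : ∃ c : ℝ, c = 1 / 24 := ⟨_, rfl⟩
  have hc : 0 < c := by rw [hc']; norm_num
  obtain ⟨C1, hC1⟩ : ∃ C1 : ℕ, C1 = 108 := ⟨_, rfl⟩
  obtain ⟨T0, hT0⟩ : ∃ T0 : ℕ, T0 = 5 := ⟨_, rfl⟩
  have hlow : ∀ T H : ℕ, T0 ≤ T → C1 * T ^ k ≤ H → c * T ^ 2 ≤ ((Cv 2 H).card : ℝ) := by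
    subst hk hc' hC1 hT0
    exact low
  obtain ⟨C0, hC0⟩ : ∃ C0 : ℕ, C0 = 16 := ⟨_, rfl⟩
  have hF' : ∀ H : ℕ, ∀ x ∈ Cv 2 H, (F x).1.natAbs ^ k ≤ C0 * H ∧ (F x).2.natAbs ^ k ≤ C0 * H := by
    intro H x hx
    have h1 := F_spec hx
    unfold Cv at hx
    rw [mem_filter] at hx
    rw [hk, hC0]
    exact rel_size h1 hx.2.2.1
  set D := C0 * C1 + 1 with hD
  have hD1 : 1 ≤ D := by omega
  -- the sum is at most `C T ^ 2`
  have hsum : ∀ H T : ℕ, 1 ≤ T → (∀ x ∈ Cv 2 H, (F x).1.natAbs ≤ T ∧ (F x).2.natAbs ≤ T) →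
      ∑ x ∈ Cv 2 H, (4 : ℝ) ^ Module.finrank ℤ (Sh x.1 x.2).toAffine.Point ≤ C * (T : ℝ) ^ 2 := by
    intro H T hT hx
    refine le_trans ?_ (hb T hT)
    have hinj : Set.InjOn F (Cv 2 H : Set (ℤ × ℤ)) := by
      intro x hx x' hx' h
      have r := F_spec (mem_coe.1 hx)
      have r' := F_spec (mem_coe.1 hx')
      rw [← h] at r'
      exact rel_inj r r'
    have h3 : ∑ x ∈ Cv 2 H, (4 : ℝ) ^ Module.finrank ℤ (Sh x.1 x.2).toAffine.Point =
        ∑ t ∈ (Cv 2 H).image F, UF.RR t := by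
      rw [sum_image hinj]
      apply sum_congr rfl
      intro x hx'
      rw [rel_rank (F_spec hx')]
      rfl
    rw [h3]
    apply sum_le_sum_of_subset_of_nonneg
    · intro t ht
      obtain ⟨x, hx', rfl⟩ := mem_image.1 ht
      obtain ⟨_, _, _, _, a1, a2, a3⟩ := F_spec hx'
      obtain ⟨b1, b2⟩ := hx x hx'
      unfold BT
      rw [mem_filter, mem_product, mem_Icc, mem_Icc]
      refine ⟨⟨⟨by omega, by omega⟩, ⟨by omega, by omega⟩⟩, ?_⟩
      unfold UF.FF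
      exact mul_ne_zero (mul_ne_zero a1 a2) (sub_ne_zero.2 a3)
    · intro t _ _
      exact UF.RR_nonneg t
  refine ⟨C * ((D * (T0 + 1) : ℕ) : ℝ) ^ 2 + C * (2 * (D : ℝ)) ^ 2 / c, fun H => ?_⟩
  set K := (Cv 2 H).card with hK
  by_cases hK0 : K = 0
  · have : Cv 2 H = ∅ := card_eq_zero.1 hK0
    rw [this, sum_empty, hK0]
    simp
  have hK1 : (1 : ℝ) ≤ K := by exact_mod_cast Nat.one_le_iff_ne_zero.2 hK0
  have hq0 : 0 ≤ C * (2 * (D : ℝ)) ^ 2 / c := by positivity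
  have hr0 : 0 ≤ C * ((D * (T0 + 1) : ℕ) : ℝ) ^ 2 := by positivity
  set T := Nat.findGreatest (fun t => t ^ k ≤ C0 * H) (C0 * H) with hT
  have hle : ∀ x : ℕ, x ^ k ≤ C0 * H → x ≤ T := by
    intro x hx
    apply Nat.le_findGreatest
    · exact (Nat.le_self_pow (by omega) x).trans hx
    · exact hx
  have hTk : T ^ k ≤ C0 * H := by
    have : (fun t => t ^ k ≤ C0 * H) T :=
      Nat.findGreatest_spec (P := fun t => t ^ k ≤ C0 * H) (Nat.zero_le _)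
        (by rw [zero_pow (by omega)]; exact Nat.zero_le _)
    exact this
  have hxT : ∀ x ∈ Cv 2 H, (F x).1.natAbs ≤ T ∧ (F x).2.natAbs ≤ T := fun x hx =>
    ⟨hle _ (hF' H x hx).1, hle _ (hF' H x hx).2⟩
  rcases Nat.lt_or_ge T (D * (T0 + 1)) with hlt | hge
  · have h1 := hsum H (D * (T0 + 1)) (Nat.mul_pos hD1 (Nat.succ_pos _)) fun x hx =>
      ⟨(hxT x hx).1.trans hlt.le, (hxT x hx).2.trans hlt.le⟩
    calc _ ≤ C * ((D * (T0 + 1) : ℕ) : ℝ) ^ 2 := h1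
      _ ≤ C * ((D * (T0 + 1) : ℕ) : ℝ) ^ 2 * K := le_mul_of_one_le_right hr0 hK1
      _ ≤ _ := by
        apply mul_le_mul_of_nonneg_right _ (by linarith)
        linarith
  · have hT1 : 1 ≤ T := (Nat.mul_pos hD1 (Nat.succ_pos _)).trans_le hge
    have h1 := hsum H T hT1 hxT
    set T' := T / D with hT'
    have hT'0 : T0 + 1 ≤ T' := by
      rw [hT', Nat.le_div_iff_mul_le hD1, mul_comm]
      exact hge
    have h2 : T' * D ≤ T := Nat.div_mul_le_self T D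
    have h3 : C1 * T' ^ k ≤ H := by
      have a1 : (T' * D) ^ k ≤ C0 * H := (Nat.pow_le_pow_left h2 k).trans hTk
      rw [mul_pow] at a1
      have a2 : D ≤ D ^ k := Nat.le_self_pow (by omega) D
      have a3 : T' ^ k * (C0 * C1) ≤ C0 * H :=
        (Nat.mul_le_mul_left _ (by omega : C0 * C1 ≤ D ^ k)).trans a1
      have a4 : C0 * (C1 * T' ^ k) ≤ C0 * H := by
        calc C0 * (C1 * T' ^ k) = T' ^ k * (C0 * C1) := by ring
          _ ≤ _ := a3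
      exact Nat.le_of_mul_le_mul_left a4 (by omega)
    have h4 := hlow T' H (by omega) h3
    have h5 : T ≤ 2 * D * T' := by
      have a1 : T < D * (T' + 1) := by
        rw [mul_comm]
        exact Nat.lt_mul_of_div_lt (by rw [← hT']; omega) hD1
      have a2 : D * (T' + 1) ≤ 2 * D * T' := by nlinarith
      omega
    have h6 : (T : ℝ) ≤ 2 * D * T' := by exact_mod_cast h5
    calc _ ≤ C * (T : ℝ) ^ 2 := h1
      _ ≤ C * (2 * D * T') ^ 2 := by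
        apply mul_le_mul_of_nonneg_left _ hC
        exact pow_le_pow_left₀ (Nat.cast_nonneg T) h6 2
      _ = C * (2 * (D : ℝ)) ^ 2 / c * (c * (T' : ℝ) ^ 2) := by
        field_simp
      _ ≤ C * (2 * (D : ℝ)) ^ 2 / c * K := mul_le_mul_of_nonneg_left h4 hq0
      _ ≤ _ := by
        apply mul_le_mul_of_nonneg_right _ (by linarith)
        linarith

end Run7.h69.UH
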