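import Mathlib

/-!
# The sum and the difference of two points on `y² = x (x - A) (x - B)`
-/

set_option autoImplicit false
set_option linter.unusedSectionVars false

namespace Run7.h69

namespace PA

open WeierstrassCurve WeierstrassCurve.Affine

/-- the curve `y² = x (x - A) (x - B)` -/
def WW (A B : ℚ) : WeierstrassCurve ℚ := ⟨0, -(A + B), 0, A * B, 0⟩

variable {A B : ℚ}

lemma eqn {x y : ℚ} : (WW A B).toAffine.Equation x y ↔ y ^ 2 = x * (x - A) * (x - B) := by
  rw [Affine.equation_iff]
  unfold WW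
  constructor
  · intro h
    simp only at h
    linear_combination h
  · intro h
    simp only
    linear_combination h

/-- the three quadratic forms -/
def F0 (A B : ℚ) (v : Fin 3 → ℚ) : ℚ := (v 0 - A * B * v 2) ^ 2

/-- the three quadratic forms -/
def F1 (A B : ℚ) (v : Fin 3 → ℚ) : ℚ :=
  2 * v 1 * v 0 - 4 * (A + B) * v 0 * v 2 + 2 * (A * B) * v 1 * v 2

/-- the three quadratic forms -/
def F2 (v : Fin 3 → ℚ) : ℚ := v 1 ^ 2 - 4 * v 0 * v 2

/-- the map -/
def FF (A B : ℚ) (v : Fin 3 → ℚ) : Fin 3 → ℚ := ![F0 A B v, F1 A B v, F2 v]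

lemma FF_eq (v : Fin 3 → ℚ) :
    (fun i => (addSubMap (WW A B) i).eval v) = FF A B v := by
  funext i
  fin_cases i
  · simp [addSubMap, FF, F0, WW, WeierstrassCurve.b₂, WeierstrassCurve.b₄, WeierstrassCurve.b₆,
      WeierstrassCurve.b₈]
    ring
  · simp [addSubMap, FF, F1, WW, WeierstrassCurve.b₂, WeierstrassCurve.b₄, WeierstrassCurve.b₆,
      WeierstrassCurve.b₈]
    ring
  · simp [addSubMap, FF, F2, WW]

lemma negY (x y : ℚ) : (WW A B).toAffine.negY x y = -y := by
  unfold Affine.negY WW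
  ring

lemma addX (x₁ x₂ l : ℚ) : (WW A B).toAffine.addX x₁ x₂ l = l ^ 2 + (A + B) - x₁ - x₂ := by
  unfold Affine.addX WW
  ring

lemma nons {x y : ℚ} (h : (WW A B).toAffine.Nonsingular x y) (hy : y = 0) : x ^ 2 ≠ A * B := by
  intro hx
  have h1 := eqn.1 h.1
  rw [hy] at h1
  have h2 := ((WW A B).toAffine.nonsingular_iff x y).1 h
  obtain ⟨_, h2⟩ := h2
  have h3 : A * B * (2 * x - A - B) = 0 := by linear_combination -h1 - (x - A - B) * hx
  rcases h2 with h2 | h2
  · apply h2
    unfold WW
    simp only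
    rcases mul_eq_zero.1 h3 with h4 | h4
    · rw [h4] at hx
      have hx0 : x = 0 := pow_eq_zero_iff (two_ne_zero) |>.mp hx
      rw [hx0, h4]
      ring
    · have h5 : 2 * x = A + B := by linear_combination h4
      linear_combination hx - 2 * x * h5
  · apply h2
    unfold WW
    simp only
    rw [hy]
    ring

/-- doubling -/
lemma dbl (P : (WW A B).toAffine.Point) :
    ∃ c : ℚ, c ≠ 0 ∧ Point.sym2x (P + P) 0 = c • FF A B (Point.sym2x P P) := by
  rcases P with _ | ⟨x, y, h⟩
  · refine ⟨1, one_ne_zero, ?_⟩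
    rw [← Point.zero_def, add_zero, Point.sym2x_zero_zero, one_smul]
    unfold FF F0 F1 F2
    simp
  · have h1 := eqn.1 h.1
    rw [Point.sym2x_some_some]
    by_cases hy : y = 0
    · have h2 := nons h hy
      rw [Point.add_self_of_Y_eq (by rw [negY, hy, neg_zero]), Point.sym2x_zero_zero]
      refine ⟨1 / (x ^ 2 - A * B) ^ 2, by
        have : x ^ 2 - A * B ≠ 0 := sub_ne_zero.2 h2
        positivity, ?_⟩
      have h3 : x ^ 2 - A * B ≠ 0 := sub_ne_zero.2 h2
      have h4 : x * (x - A) * (x - B) = 0 := by rw [← h1, hy]; ring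
      unfold FF F0 F1 F2
      funext i
      fin_cases i
      · simp
        field_simp
      · simp
        right
        linear_combination 4 * h4
      · simp
        right
        ring
    · have hne : y ≠ (WW A B).toAffine.negY x y := by
        rw [negY]
        intro h2
        apply hy
        linarith
      rw [Point.add_self_of_Y_ne hne, Point.sym2x_some_zero, addX,
        Affine.slope_of_Y_ne rfl hne, negY]
      refine ⟨1 / (4 * y ^ 2), by positivity, ?_⟩
      unfold FF F0 F1 F2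
      funext i
      fin_cases i
      · simp [WW]
        field_simp
        linear_combination (16 * (A + B) - 32 * x) * h1
      · simp
        field_simp
        linear_combination 4 * h1
      · simp
        right
        ring

/-- **the sum and the difference** -/
theorem sym2_add (P Q : (WW A B).toAffine.Point) :
    ∃ c : ℚ, c ≠ 0 ∧ Point.sym2x (P + Q) (P - Q) = c • FF A B (Point.sym2x P Q) := by
  have hsame : ∀ P : (WW A B).toAffine.Point, Point.sym2x P P =
      FF A B (Point.sym2x P 0) := by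
    intro P
    rcases P with _ | ⟨x, y, h⟩
    · rw [← Point.zero_def, Point.sym2x_zero_zero]
      unfold FF F0 F1 F2
      simp
    · rw [Point.sym2x_some_some, Point.sym2x_some_zero]
      unfold FF F0 F1 F2
      funext i
      fin_cases i <;> simp <;> ring
  by_cases hP : P = 0
  · refine ⟨1, one_ne_zero, ?_⟩
    rw [hP, zero_add, zero_sub, Point.sym2x_neg_right, one_smul, Point.sym2x_comm 0 Q]
    exact hsame Q
  by_cases hQ : Q = 0
  · refine ⟨1, one_ne_zero, ?_⟩
    rw [hQ, add_zero, sub_zero, one_smul]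
    exact hsame P
  by_cases hPQ : P = Q
  · rw [← hPQ, sub_self]
    exact dbl P
  by_cases hPQ' : P = -Q
  · have e1 : P + Q = 0 := by rw [hPQ']; simp
    have e2 : P - Q = P + P := by rw [hPQ']; abel
    have e3 : Q = -P := by rw [hPQ', neg_neg]
    rw [e1, e2, Point.sym2x_comm, e3, Point.sym2x_neg_right]
    exact dbl P
  rcases P with _ | ⟨x₁, y₁, h₁⟩
  · exact absurd rfl hP
  rcases Q with _ | ⟨x₂, y₂, h₂⟩
  · exact absurd rfl hQ
  have hx : x₁ ≠ x₂ := by
    intro hx
    rcases Point.X_eq_iff.1 hx with h | h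
    · exact hPQ h
    · exact hPQ' h
  have hy₁ := eqn.1 h₁.1
  have hy₂ := eqn.1 h₂.1
  have hd : x₁ - x₂ ≠ 0 := sub_ne_zero.2 hx
  rw [sub_eq_add_neg, Point.neg_some, Point.add_of_X_ne hx, Point.add_of_X_ne hx,
    Point.sym2x_some_some, Point.sym2x_some_some, addX, addX, Affine.slope_of_X_ne hx,
    Affine.slope_of_X_ne hx, negY]
  refine ⟨1 / (x₁ - x₂) ^ 2, by positivity, ?_⟩
  unfold FF F0 F1 F2
  funext i
  fin_cases i
  · simp
    field_simp
    linear_combination (y₁ ^ 2 - y₂ ^ 2 + x₁ * (x₁ - A) * (x₁ - B) - x₂ * (x₂ - A) * (x₂ - B) +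
      2 * (A + B - x₁ - x₂) * (x₁ - x₂) ^ 2) * hy₁ +
      (-(y₁ ^ 2 - y₂ ^ 2 + x₁ * (x₁ - A) * (x₁ - B) - x₂ * (x₂ - A) * (x₂ - B)) +
      2 * (A + B - x₁ - x₂) * (x₁ - x₂) ^ 2) * hy₂
  · simp
    field_simp
    linear_combination 2 * hy₁ + 2 * hy₂
  · simp
    field_simp
    ring

end PA

end Run7.h69
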