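import Mathlib
import Pool.Agent.Run7.h69.PA1

/-!
# The parallelogram law, uniformly over the quadratic twists
-/

set_option autoImplicit false
set_option linter.unusedSectionVars false

namespace Run7.h69

namespace PA

open WeierstrassCurve WeierstrassCurve.Affine Height

/-- the coordinates of the point `x / D` of the projective line -/
noncomputable def xr {A B : ℚ} (D : ℚ) (P : (WW A B).toAffine.Point) : Fin 2 → ℚ :=
  ![P.xRep 0, D * P.xRep 1]

/-- the height of `x / D` -/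
noncomputable def hh {A B : ℚ} (D : ℚ) (P : (WW A B).toAffine.Point) : ℝ := logHeight (xr D P)

variable {A B D : ℚ}

lemma hh_nonneg (P : (WW A B).toAffine.Point) : 0 ≤ hh D P := logHeight_nonneg _

lemma hh_zero : hh D (0 : (WW A B).toAffine.Point) = 0 := by
  unfold hh xr
  rw [Point.xRep_zero]
  have e : (![(![1, 0] : Fin 2 → ℚ) 0, D * (![1, 0] : Fin 2 → ℚ) 1] : Fin 2 → ℚ) = ![1, 0] := by
    simp
  rw [e, logHeight_swap, ← logHeight₁_eq_logHeight, logHeight₁_zero]

lemma hh_neg (P : (WW A B).toAffine.Point) : hh D (-P) = hh D P := by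
  unfold hh xr
  rw [Point.xRep_neg]

lemma hh_some (hD : D ≠ 0) {x y : ℚ} (h : (WW A B).toAffine.Nonsingular x y) :
    hh D (Point.some x y h) = logHeight₁ (x / D) := by
  unfold hh xr
  rw [Point.xRep_some, logHeight₁_div_eq_logHeight]
  simp

lemma xr_ne (hD : D ≠ 0) (P : (WW A B).toAffine.Point) : xr D P ≠ 0 := by
  rcases P with _ | ⟨x, y, h⟩
  · intro h0
    have := congrFun h0 0
    rw [← Point.zero_def] at this
    simp [xr] at this
  · intro h0
    have := congrFun h0 1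
    simp [xr] at this
    exact hD this

/-- the symmetric functions of the two points `x / D` -/
noncomputable def sy (D : ℚ) (P Q : (WW A B).toAffine.Point) : Fin 3 → ℚ :=
  ![xr D P 0 * xr D Q 0, xr D P 0 * xr D Q 1 + xr D P 1 * xr D Q 0, xr D P 1 * xr D Q 1]

/-- the scaling -/
def dg (D : ℚ) (v : Fin 3 → ℚ) : Fin 3 → ℚ := ![v 0, D * v 1, D ^ 2 * v 2]

lemma sy_eq (P Q : (WW A B).toAffine.Point) : sy D P Q = dg D (Point.sym2x P Q) := by
  unfold sy dg xr Point.sym2x
  funext i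
  fin_cases i <;> simp <;> ring

lemma dg_smul (c : ℚ) (v : Fin 3 → ℚ) : dg D (c • v) = c • dg D v := by
  unfold dg
  funext i
  fin_cases i <;> simp <;> ring

lemma FF_dg (a b : ℚ) (v : Fin 3 → ℚ) : dg D (FF (a * D) (b * D) v) = FF a b (dg D v) := by
  unfold dg FF F0 F1 F2
  funext i
  fin_cases i <;> simp <;> ring

lemma sy_add {a b : ℚ} (P Q : (WW (a * D) (b * D)).toAffine.Point) :
    ∃ c : ℚ, c ≠ 0 ∧ sy D (P + Q) (P - Q) = c • FF a b (sy D P Q) := by
  obtain ⟨c, hc, h⟩ := sym2_add P Q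
  refine ⟨c, hc, ?_⟩
  rw [sy_eq, sy_eq, h, dg_smul, FF_dg]

/-- **the parallelogram law**, uniformly over the twists -/
theorem para {a b : ℚ} (ha : a ≠ 0) (hb : b ≠ 0) (hab : a ≠ b) :
    ∃ C : ℝ, ∀ (D : ℚ), D ≠ 0 → ∀ P Q : (WW (a * D) (b * D)).toAffine.Point,
      |hh D (P + Q) + hh D (P - Q) - 2 * (hh D P + hh D Q)| ≤ C := by
  haveI : (WW a b).IsElliptic := by
    constructor
    rw [isUnit_iff_ne_zero]
    have e : (WW a b).Δ = 16 * (a ^ 2 * b ^ 2 * (a - b) ^ 2) := by
      unfold WW WeierstrassCurve.Δ WeierstrassCurve.b₂ WeierstrassCurve.b₄ WeierstrassCurve.b₆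
        WeierstrassCurve.b₈
      simp only
      ring
    rw [e]
    have := sub_ne_zero.2 hab
    positivity
  obtain ⟨C1, h1⟩ := abs_logHeight_addSubMap_sub_two_mul_logHeight_le (WW a b)
  obtain ⟨C2, h2⟩ := abs_logHeight_sym2_sub_le ℚ
  refine ⟨C1 + 3 * C2, fun D hD P Q => ?_⟩
  have key : ∀ P Q : (WW (a * D) (b * D)).toAffine.Point,
      |logHeight (sy D P Q) - (hh D P + hh D Q)| ≤ C2 := by
    intro P Q
    have e1 : ∀ P : (WW (a * D) (b * D)).toAffine.Point, xr D P = ![xr D P 0, xr D P 1] := by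
      intro P
      funext i
      fin_cases i <;> rfl
    have hP := xr_ne hD P
    have hQ := xr_ne hD Q
    unfold hh sy
    rw [e1 P] at hP ⊢
    rw [e1 Q] at hQ ⊢
    exact h2 hP hQ
  obtain ⟨c, hc, h3⟩ := sy_add P Q
  have h4 := h1 (sy D P Q)
  rw [FF_eq, ← logHeight_smul_eq_logHeight _ hc, ← h3] at h4
  have h5 := key P Q
  have h6 := key (P + Q) (P - Q)
  rw [abs_le] at h4 h5 h6 ⊢
  constructor <;> linarith [h4.1, h4.2, h5.1, h5.2, h6.1, h6.2]

end PA

end Run7.h69
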