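import Mathlib
import Pool.Agent.Run7.h69.PA2

/-!
# A lower bound for the height of the points that are not of order two
-/

set_option autoImplicit false
set_option linter.unusedSectionVars false

namespace Run7.h69

namespace PA

open WeierstrassCurve WeierstrassCurve.Affine Height

/-- a square `D * G` with `G ≠ 0` bounds the squarefree part of `D` -/
lemma sqf_le {D G : ℤ} (hD : D ≠ 0) (hG : G ≠ 0) (h : IsSquare (D * G)) :
    ∃ d s : ℤ, D = d * s ^ 2 ∧ |d| ≤ |G| ∧ d ≠ 0 := by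
  obtain ⟨e, s, hes, he⟩ := Nat.sq_mul_squarefree D.natAbs
  obtain ⟨m, hm⟩ := h
  have hs0 : (s : ℤ) ≠ 0 := by
    rintro h0
    have h1 : s = 0 := by exact_mod_cast h0
    rw [h1] at hes
    apply hD
    rw [← Int.natAbs_eq_zero, ← hes]
    ring
  obtain ⟨d, hd, hde⟩ : ∃ d : ℤ, D = d * (s : ℤ) ^ 2 ∧ d.natAbs = e := by
    rcases Int.natAbs_eq D with h1 | h1
    · refine ⟨e, ?_, Int.natAbs_natCast e⟩
      rw [h1, ← hes]
      push_cast
      ring
    · refine ⟨-e, ?_, by rw [Int.natAbs_neg, Int.natAbs_natCast]⟩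
      rw [h1, ← hes]
      push_cast
      ring
  have hd0 : d ≠ 0 := by
    rintro rfl
    apply hD
    rw [hd, zero_mul]
  have hdsq : Squarefree d := by
    rw [← Int.squarefree_natAbs, hde]
    exact he
  have h1 : (s : ℤ) ^ 2 ∣ m ^ 2 := by
    rw [pow_two m, ← hm, hd]
    exact ⟨d * G, by ring⟩
  have h2 : (s : ℤ) ∣ m := (Int.pow_dvd_pow_iff two_ne_zero).1 h1
  obtain ⟨m', hm'⟩ := h2
  have h3 : d * G = m' ^ 2 := by
    have h4 : (s : ℤ) ^ 2 * (d * G) = (s : ℤ) ^ 2 * m' ^ 2 := by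
      calc (s : ℤ) ^ 2 * (d * G) = D * G := by rw [hd]; ring
        _ = m * m := hm
        _ = _ := by rw [hm']; ring
    exact mul_left_cancel₀ (pow_ne_zero 2 hs0) h4
  have h4 : d ∣ m' := (hdsq.dvd_pow_iff_dvd two_ne_zero).1 (by rw [← h3]; exact Dvd.intro _ rfl)
  obtain ⟨m'', hm''⟩ := h4
  have h5 : G = d * m'' ^ 2 := by
    have h6 : d * G = d * (d * m'' ^ 2) := by
      rw [h3, hm'']
      ring
    exact mul_left_cancel₀ hd0 h6
  have h6 : m'' ≠ 0 := by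
    rintro rfl
    apply hG
    rw [h5]
    ring
  refine ⟨d, s, hd, ?_, hd0⟩
  rw [h5, abs_mul, abs_pow]
  have h7 : 1 ≤ |m''| := Int.one_le_abs h6
  have h8 : 1 ≤ |m''| ^ 2 := one_le_pow₀ h7
  nlinarith [abs_nonneg d]

/-- **the lower bound** -/
theorem low (a b : ℤ) {D : ℤ} (hD : D ≠ 0)
    (P : (WW ((a : ℚ) * D) ((b : ℚ) * D)).toAffine.Point) (hP : P + P ≠ 0) :
    ∃ d s : ℤ, D = d * s ^ 2 ∧
      Real.log |(d : ℝ)| ≤ 4 * hh (D : ℚ) P + Real.log ((1 + |(a : ℝ)|) * (1 + |(b : ℝ)|)) := by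
  have hDq : (D : ℚ) ≠ 0 := by exact_mod_cast hD
  rcases P with _ | ⟨x, y, h⟩
  · exact absurd (by rw [← Point.zero_def, add_zero]) hP
  have hy : y ≠ 0 := by
    intro hy
    apply hP
    exact Point.add_self_of_Y_eq (by rw [negY, hy, neg_zero])
  rw [hh_some hDq]
  set ξ : ℚ := x / D with hξ
  have hx : x = D * ξ := by rw [hξ]; field_simp
  have h1 := eqn.1 h.1
  set u : ℤ := ξ.num with hu
  set v : ℤ := (ξ.den : ℤ) with hv
  have hv0 : (v : ℚ) ≠ 0 := by
    rw [hv]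
    exact_mod_cast ξ.den_nz
  have huv : ξ = u / v := by
    rw [hu, hv]
    push_cast
    exact (Rat.num_div_den ξ).symm
  set G : ℤ := u * v * (u - a * v) * (u - b * v) with hG
  have h2 : ((D * G : ℤ) : ℚ) = (y * v ^ 2 / D) * (y * v ^ 2 / D) := by
    have h3 : (y * v ^ 2 / D) * (y * v ^ 2 / D) = y ^ 2 * v ^ 4 / D ^ 2 := by
      field_simp
    rw [h3, h1, hx, huv, hG]
    push_cast
    field_simp
  have hG0 : G ≠ 0 := by
    intro h0
    rw [h0, mul_zero, Int.cast_zero] at h2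
    have h3 : y * v ^ 2 / D = 0 := mul_self_eq_zero.1 h2.symm
    have h4 : y * v ^ 2 / D ≠ 0 := by positivity
    exact h4 h3
  have hsq : IsSquare (D * G) := Rat.isSquare_intCast_iff.1 ⟨_, h2⟩
  obtain ⟨d, s, hd, hdG, hd0⟩ := sqf_le hD hG0 hsq
  refine ⟨d, s, hd, ?_⟩
  rw [Rat.logHeight₁_eq_log_max]
  set M : ℕ := max ξ.num.natAbs ξ.den with hM
  have hM1 : 1 ≤ M := le_trans ξ.den_pos (le_max_right _ _)
  have hMr : (1 : ℝ) ≤ M := by exact_mod_cast hM1
  have hu1 : |(u : ℝ)| ≤ M := by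
    have : ((u.natAbs : ℕ) : ℝ) ≤ M := by exact_mod_cast le_max_left _ _
    rwa [Nat.cast_natAbs, Int.cast_abs] at this
  have hv1 : |(v : ℝ)| ≤ M := by
    have : ((ξ.den : ℕ) : ℝ) ≤ M := by exact_mod_cast le_max_right _ _
    rw [hv]
    push_cast
    rwa [abs_of_nonneg (by positivity)]
  have hlin : ∀ c : ℤ, |(u : ℝ) - c * v| ≤ (1 + |(c : ℝ)|) * M := by
    intro c
    calc |(u : ℝ) - c * v| ≤ |(u : ℝ)| + |(c : ℝ) * v| := abs_sub _ _
      _ ≤ M + |(c : ℝ)| * M := by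
          rw [abs_mul]
          exact add_le_add hu1 (mul_le_mul_of_nonneg_left hv1 (abs_nonneg _))
      _ = _ := by ring
  have h5 : |(d : ℝ)| ≤ (M : ℝ) ^ 4 * ((1 + |(a : ℝ)|) * (1 + |(b : ℝ)|)) := by
    have h6 : |(d : ℝ)| ≤ |(G : ℝ)| := by exact_mod_cast hdG
    refine h6.trans ?_
    rw [hG]
    push_cast
    rw [abs_mul, abs_mul, abs_mul]
    calc |(u : ℝ)| * |(v : ℝ)| * |(u : ℝ) - a * v| * |(u : ℝ) - b * v|
        ≤ M * M * ((1 + |(a : ℝ)|) * M) * ((1 + |(b : ℝ)|) * M) := by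
          have := hlin a
          have := hlin b
          gcongr
      _ = _ := by ring
  have hdpos : 0 < |(d : ℝ)| := abs_pos.2 (by exact_mod_cast hd0)
  calc Real.log |(d : ℝ)| ≤ Real.log ((M : ℝ) ^ 4 * ((1 + |(a : ℝ)|) * (1 + |(b : ℝ)|))) :=
        Real.log_le_log hdpos h5
    _ = _ := by
        rw [Real.log_mul (by positivity) (by positivity), Real.log_pow]
        push_cast
        rfl

end PA

end Run7.h69
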