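import Mathlib
import Pool.Agent.Run7.h69.PA3

/-!
# Counting the points of bounded height
-/

set_option autoImplicit false
set_option linter.unusedSectionVars false

namespace Run7.h69

namespace PA

open Finset

variable {G : Type} [AddCommGroup G] {h : G → ℝ} {C : ℝ}

/-- doubling -/
lemma h_two (h0 : h 0 = 0)
    (hpar : ∀ P Q, |h (P + Q) + h (P - Q) - 2 * (h P + h Q)| ≤ C) (P : G) :
    4 * (h P - C / 3) ≤ h ((2 : ℕ) • P) - C / 3 := by
  have h1 := hpar P P
  rw [sub_self, h0, abs_le] at h1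
  rw [two_nsmul]
  linarith [h1.1, h1.2]

/-- repeated doubling -/
lemma h_pow (h0 : h 0 = 0)
    (hpar : ∀ P Q, |h (P + Q) + h (P - Q) - 2 * (h P + h Q)| ≤ C) (P : G) (m : ℕ) :
    4 ^ m * (h P - C / 3) ≤ h ((2 ^ m : ℕ) • P) - C / 3 := by
  induction m with
  | zero => simp
  | succ m ih =>
    have h1 := h_two h0 hpar ((2 ^ m : ℕ) • P)
    rw [pow_succ (2 : ℕ), mul_comm (2 ^ m) 2, mul_nsmul' P 2 (2 ^ m)]
    calc (4 : ℝ) ^ (m + 1) * (h P - C / 3) = 4 * (4 ^ m * (h P - C / 3)) := by ring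
      _ ≤ 4 * (h ((2 ^ m : ℕ) • P) - C / 3) := by linarith
      _ ≤ _ := h1

/-- the height of a torsion point -/
lemma h_tors (h0 : h 0 = 0)
    (hpar : ∀ P Q, |h (P + Q) + h (P - Q) - 2 * (h P + h Q)| ≤ C) {P : G}
    (hP : IsOfFinAddOrder P) : h P ≤ C / 3 := by
  by_contra hcon
  push Not at hcon
  have hfin : (AddSubgroup.zmultiples P : Set G).Finite := by
    have := hP.finite_zmultiples
    exact this
  have hinf : ¬ Function.Injective (fun m : ℕ => (2 ^ m : ℕ) • P) := by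
    intro hinj
    apply Set.infinite_range_of_injective hinj
    refine hfin.subset ?_
    rintro _ ⟨m, rfl⟩
    exact AddSubgroup.nsmul_mem _ (AddSubgroup.mem_zmultiples P) _
  rw [Function.Injective] at hinf
  push Not at hinf
  obtain ⟨i, j, hij, hne⟩ := hinf
  wlog hlt : i < j generalizing i j
  · exact this j i hij.symm hne.symm (lt_of_le_of_ne (not_lt.1 hlt) hne.symm)
  have h1 : 0 < h ((2 ^ i : ℕ) • P) - C / 3 := by
    have h2 := h_pow h0 hpar P i
    have h3 : 0 < (4 : ℝ) ^ i * (h P - C / 3) := by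
      have : 0 < h P - C / 3 := by linarith
      positivity
    linarith
  have h2 := h_pow h0 hpar ((2 ^ i : ℕ) • P) (j - i)
  have h3 : (2 ^ (j - i) : ℕ) • ((2 ^ i : ℕ) • P) = (2 ^ j : ℕ) • P := by
    rw [← mul_nsmul', ← pow_add]
    congr 2
    omega
  have hij' : (2 ^ i : ℕ) • P = (2 ^ j : ℕ) • P := hij
  rw [h3, ← hij'] at h2
  have h4 : (4 : ℝ) ≤ 4 ^ (j - i) := by
    calc (4 : ℝ) = 4 ^ 1 := by norm_num
      _ ≤ 4 ^ (j - i) := pow_le_pow_right₀ (by norm_num) (by omega)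
  nlinarith

/-- coordinates modulo `n` and torsion -/
lemma coord (hG : AddGroup.FG G) (n : ℕ) (hn : 1 ≤ n) :
    ∃ φ : G → (Fin (Module.finrank ℤ G) → ZMod n), ∀ P Q, φ P = φ Q →
      ∃ R τ : G, P - Q = n • R + τ ∧ IsOfFinAddOrder τ := by
  classical
  have : Module.Finite ℤ G := Module.Finite.iff_addGroup_fg.mpr hG
  let M := G ⧸ Submodule.torsion ℤ G
  have hr : Module.finrank ℤ M = Module.finrank ℤ G :=
    finrank_quotient_eq_of_le_torsion le_rfl
  rw [← hr]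
  have : Module.Finite ℤ M := inferInstance
  have : Module.Free ℤ M := inferInstance
  let b : Module.Basis (Fin (Module.finrank ℤ M)) ℤ M := Module.finBasis ℤ M
  refine ⟨fun g i => ((b.repr ((Submodule.torsion ℤ G).mkQ g) i : ℤ) : ZMod n),
    fun P Q hPQ => ?_⟩
  have h1 : ∀ i, (n : ℤ) ∣ b.repr ((Submodule.torsion ℤ G).mkQ (P - Q)) i := by
    intro i
    have h2 := congrFun hPQ i
    simp only at h2
    rw [← ZMod.intCast_zmod_eq_zero_iff_dvd, map_sub, map_sub, Finsupp.sub_apply, Int.cast_sub,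
      h2, sub_self]
  choose c hc using h1
  obtain ⟨R, hR⟩ := (Submodule.torsion ℤ G).mkQ_surjective (b.equivFun.symm c)
  refine ⟨R, P - Q - n • R, by abel, ?_⟩
  have h2 : (Submodule.torsion ℤ G).mkQ (P - Q - n • R) = 0 := by
    apply b.equivFun.injective
    rw [map_sub, map_nsmul, hR, map_sub, map_nsmul, LinearEquiv.apply_symm_apply, map_zero]
    funext i
    rw [Pi.sub_apply, Module.Basis.equivFun_apply, hc i]
    simp
  have h3 : P - Q - n • R ∈ Submodule.torsion ℤ G := by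
    rwa [Submodule.mkQ_apply, Submodule.Quotient.mk_eq_zero] at h2
  obtain ⟨k, hk⟩ := (Submodule.mem_torsion_iff _).1 h3
  have hk0 : (k : ℤ) ≠ 0 := nonZeroDivisors.ne_zero k.2
  rw [isOfFinAddOrder_iff_zsmul_eq_zero]
  exact ⟨k, hk0, hk⟩

/-- **the count** -/
theorem count (hG : AddGroup.FG G) (h0 : h 0 = 0) (hnn : ∀ P, 0 ≤ h P) (hC : 0 ≤ C)
    (hpar : ∀ P Q, |h (P + Q) + h (P - Q) - 2 * (h P + h Q)| ≤ C) {l T : ℝ} {m : ℕ} (hm : 1 ≤ m)
    (hlow : ∀ P, P + P ≠ 0 → l ≤ h P) (hbig : 6 * T + 7 * C < 4 ^ m * (l - C / 3))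
    {N : ℕ} (hN : ∀ S : Finset G, (∀ P ∈ S, h P ≤ C) → S.card ≤ N)
    (S : Finset G) (hS : ∀ P ∈ S, h P ≤ T) :
    S.card ≤ N * (2 ^ m) ^ Module.finrank ℤ G := by
  classical
  obtain ⟨φ, hφ⟩ := coord hG (2 ^ m) Nat.one_le_two_pow
  haveI : NeZero (2 ^ m) := ⟨by positivity⟩
  have h1 : (S.image φ).card ≤ (2 ^ m) ^ Module.finrank ℤ G := by
    refine (card_le_univ _).trans (le_of_eq ?_)
    rw [Fintype.card_fun, ZMod.card, Fintype.card_fin]
  refine (card_le_mul_card_image S N fun v hv => ?_).trans (Nat.mul_le_mul_left _ h1)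
  obtain ⟨Q, hQ, hQv⟩ := mem_image.1 hv
  have hinj : Set.InjOn (fun P => P - Q) ((S.filter (fun P => φ P = v) : Finset G) : Set G) :=
    fun P _ P' _ hPP => sub_left_injective hPP
  rw [← card_image_of_injOn hinj]
  apply hN
  intro τ' hτ'
  obtain ⟨P, hP, rfl⟩ := mem_image.1 hτ'
  rw [mem_filter] at hP
  obtain ⟨R, τ, hRτ, hτ⟩ := hφ P Q (by rw [hP.2, hQv])
  have hTP := hS P hP.1
  have hTQ := hS Q hQ
  have hτh := h_tors h0 hpar hτ
  have hτ0 := hnn τ
  -- the point `Q + τ`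
  have e1 : h (Q + τ) ≤ 2 * T + 3 * C := by
    have h2 := hpar Q τ
    rw [abs_le] at h2
    have h3 := hnn (Q - τ)
    linarith [h2.2]
  have e2 : h (P - (Q + τ)) ≤ 6 * T + 7 * C := by
    have h2 := hpar P (Q + τ)
    rw [abs_le] at h2
    have h3 := hnn (P + (Q + τ))
    linarith [h2.2]
  have e3 : P - (Q + τ) = (2 ^ m : ℕ) • R := by
    have : P - (Q + τ) = P - Q - τ := by abel
    rw [this, hRτ]
    abel
  have e4 : R + R = 0 := by
    by_contra hne
    have h2 := hlow R hne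
    have h3 := h_pow h0 hpar R m
    rw [← e3] at h3
    have h4 : (4 : ℝ) ^ m * (l - C / 3) ≤ 4 ^ m * (h R - C / 3) :=
      mul_le_mul_of_nonneg_left (by linarith) (by positivity)
    linarith
  have e5 : (2 ^ m : ℕ) • R = 0 := by
    obtain ⟨k, rfl⟩ : ∃ k, m = k + 1 := ⟨m - 1, by omega⟩
    rw [pow_succ, mul_nsmul', two_nsmul, e4, nsmul_zero]
  have e6 : P - Q = τ := by rw [hRτ, e5, zero_add]
  rw [e6]
  linarith

end PA

end Run7.h69
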