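import Mathlib
import Pool.Agent.Run7.h69.PA4
import Pool.Agent.Q286.EQ.MW

/-!
# The points of bounded height on the quadratic twists
-/

set_option autoImplicit false
set_option linter.unusedSectionVars false

namespace Run7.h69

namespace PA

open Finset Height
open WeierstrassCurve WeierstrassCurve.Affine

/-- the number of points of bounded height, uniformly over the twists -/
lemma northcott (B : ℝ) : ∃ N : ℕ, ∀ (A₁ B₁ D : ℚ), D ≠ 0 →
    ∀ S : Finset (WW A₁ B₁).toAffine.Point, (∀ P ∈ S, hh D P ≤ B) → S.card ≤ N := by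
  classical
  have hfin := NumberField.finite_setOfPred_logHeight₁_le ℚ B
  set F : Finset ℚ := hfin.toFinset with hF
  refine ⟨2 * (insert none (F.image some) : Finset (Option ℚ)).card, fun A₁ B₁ D hD S hS => ?_⟩
  set g : (WW A₁ B₁).toAffine.Point → Option ℚ := fun P => match P with
    | 0 => none
    | .some x _ _ => some (x / D) with hg
  have hg0 : g 0 = none := rfl
  have hgs : ∀ {x y : ℚ} (h : (WW A₁ B₁).toAffine.Nonsingular x y), g (.some x y h) = some (x / D) :=
    fun _ => rfl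
  have h1 : S.image g ⊆ insert none (F.image some) := by
    intro v hv
    obtain ⟨P, hP, rfl⟩ := mem_image.1 hv
    rcases P with _ | ⟨x, y, h⟩
    · exact mem_insert_self _ _
    · rw [hgs h]
      apply mem_insert_of_mem
      apply mem_image_of_mem
      rw [hF, Set.Finite.mem_toFinset]
      have := hS _ hP
      rw [hh_some hD] at this
      exact this
  refine (card_le_mul_card_image S 2 fun v hv => ?_).trans
    (Nat.mul_le_mul_left _ (card_le_card h1))
  obtain ⟨Q, hQ, rfl⟩ := mem_image.1 hv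
  refine (card_le_card (t := {Q, -Q}) ?_).trans card_le_two
  intro P hP
  rw [mem_filter] at hP
  obtain ⟨_, hPQ⟩ := hP
  rw [mem_insert, mem_singleton]
  apply Point.eq_or_eq_neg_of_xRep_eq_xRep
  rcases P with _ | ⟨x, y, h⟩
  · rcases Q with _ | ⟨x', y', h'⟩
    · rfl
    · rw [hgs h'] at hPQ
      exact absurd hPQ.symm (by simp [← Point.zero_def, hg0])
  · rcases Q with _ | ⟨x', y', h'⟩
    · rw [hgs h] at hPQ
      exact absurd hPQ (by simp [← Point.zero_def, hg0])
    · rw [hgs h, hgs h', Option.some.injEq, div_left_inj' hD] at hPQ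
      rw [Point.xRep_some, Point.xRep_some, hPQ]

/-- **the number of the points of bounded height** -/
theorem points_le (a b : ℤ) (ha : a ≠ 0) (hb : b ≠ 0) (hab : a ≠ b) :
    ∃ (C : ℝ) (N : ℕ), 0 ≤ C ∧ ∀ (D : ℤ), D ≠ 0 → ∀ (L T : ℝ) (m : ℕ), 1 ≤ m →
      (∀ d s : ℤ, D = d * s ^ 2 → L ≤ Real.log |(d : ℝ)|) →
      6 * T + 7 * C < 4 ^ m * (L / 4 - C) →
      ∀ S : Finset (WW ((a : ℚ) * D) ((b : ℚ) * D)).toAffine.Point, (∀ P ∈ S, hh (D : ℚ) P ≤ T) →
        S.card ≤ N * (2 ^ m) ^
          Module.finrank ℤ (WW ((a : ℚ) * D) ((b : ℚ) * D)).toAffine.Point := by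
  classical
  have haq : (a : ℚ) ≠ 0 := by exact_mod_cast ha
  have hbq : (b : ℚ) ≠ 0 := by exact_mod_cast hb
  have habq : (a : ℚ) ≠ b := by exact_mod_cast hab
  obtain ⟨C1, hC1⟩ := para haq hbq habq
  set K : ℝ := Real.log ((1 + |(a : ℝ)|) * (1 + |(b : ℝ)|)) with hK
  have hK0 : 0 ≤ K := by
    apply Real.log_nonneg
    have h1 := abs_nonneg (a : ℝ)
    have h2 := abs_nonneg (b : ℝ)
    nlinarith
  set C : ℝ := |C1| + K with hC
  have hC0 : 0 ≤ C := by positivity
  obtain ⟨N, hN⟩ := northcott C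
  refine ⟨C, N, hC0, fun D hD L T m hm hL hbig S hS => ?_⟩
  have hDq : (D : ℚ) ≠ 0 := by exact_mod_cast hD
  have hcurve : (WW ((a : ℚ) * D) ((b : ℚ) * D)).Δ ≠ 0 := by
    have e : (WW ((a : ℚ) * D) ((b : ℚ) * D)).Δ = 16 * (a ^ 2 * b ^ 2 * (a - b) ^ 2 * D ^ 6) := by
      unfold WW WeierstrassCurve.Δ WeierstrassCurve.b₂ WeierstrassCurve.b₄ WeierstrassCurve.b₆
        WeierstrassCurve.b₈
      simp only
      ring
    rw [e]
    have := sub_ne_zero.2 habq
    positivity
  have hfg : AddGroup.FG (WW ((a : ℚ) * D) ((b : ℚ) * D)).toAffine.Point :=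
    Pool.Agent.Q286.EQ.mordell_weil ℚ _ hcurve
  refine count hfg (h := hh (D : ℚ)) (C := C) hh_zero hh_nonneg hC0
    (fun P Q => (hC1 D hDq P Q).trans ((le_abs_self _).trans (by rw [hC]; linarith)))
    (l := L / 4 - K / 4) hm (fun P hP => ?_) (hbig.trans_le ?_) (fun S hS => hN _ _ D hDq S hS) S hS
  · obtain ⟨d, s, hds, hlog⟩ := low a b hD P hP
    have h1 := hL d s hds
    rw [← hK] at hlog
    linarith
  · apply mul_le_mul_of_nonneg_left _ (by positivity)
    have h1 := abs_nonneg C1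
    rw [hC]
    linarith

end PA

end Run7.h69
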