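import Mathlib
import Pool.Agent.Run7.h69.PA5

/-!
# The points of bounded height on the curves `D y² = φ(x) (φ(x) - a) (φ(x) - b)`
-/

set_option autoImplicit false
set_option linter.unusedSectionVars false

namespace Run7.h69

namespace PA

open Finset Height Polynomial
open WeierstrassCurve WeierstrassCurve.Affine

/-- the points of bounded height -/
def pts (φ : ℚ[X]) (a b d : ℤ) (B : ℝ) : Set (ℚ × ℚ) :=
  {p | (d : ℚ) * p.2 ^ 2 = φ.eval p.1 * (φ.eval p.1 - a) * (φ.eval p.1 - b) ∧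
    |(p.1.num : ℝ)| ≤ B ∧ (p.1.den : ℝ) ≤ B}

/-- the height of the value of a polynomial -/
lemma height_poly (φ : ℚ[X]) : ∃ c : ℝ, 0 ≤ c ∧ ∀ u : ℚ,
    logHeight₁ (φ.eval u) ≤ c * (1 + logHeight₁ u) := by
  set n := φ.natDegree with hn
  set W : ℝ := (totalWeight ℚ : ℝ) * Real.log ((range (n + 1)).card : ℝ) with hW
  have hW0 : 0 ≤ W := by
    apply mul_nonneg (Nat.cast_nonneg _)
    exact Real.log_natCast_nonneg _
  set S : ℝ := ∑ i ∈ range (n + 1), logHeight₁ (φ.coeff i) with hS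
  have hS0 : 0 ≤ S := sum_nonneg fun i _ => zero_le_logHeight₁ _
  set T : ℝ := ∑ i ∈ range (n + 1), (i : ℝ) with hT
  have hT0 : 0 ≤ T := sum_nonneg fun i _ => Nat.cast_nonneg _
  refine ⟨W + S + T, by positivity, fun u => ?_⟩
  have hu := zero_le_logHeight₁ u
  rw [eval_eq_sum_range]
  calc logHeight₁ (∑ i ∈ range (n + 1), φ.coeff i * u ^ i)
      ≤ W + ∑ i ∈ range (n + 1), logHeight₁ (φ.coeff i * u ^ i) := logHeight₁_sum_le _ _
    _ ≤ W + ∑ i ∈ range (n + 1), (logHeight₁ (φ.coeff i) + i * logHeight₁ u) := by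
        gcongr with i hi
        refine (logHeight₁_mul_le _ _).trans ?_
        rw [logHeight₁_pow]
    _ = W + S + T * logHeight₁ u := by
        rw [sum_add_distrib, ← sum_mul]
        ring
    _ ≤ _ := by nlinarith [mul_nonneg (add_nonneg hW0 hS0) hu]

lemma height_le {u : ℚ} {B : ℝ} (hB : 1 ≤ B) (h1 : |(u.num : ℝ)| ≤ B) (h2 : (u.den : ℝ) ≤ B) :
    logHeight₁ u ≤ Real.log B := by
  rw [Rat.logHeight₁_eq_log_max]
  apply Real.log_le_log
  · have : 0 < max u.num.natAbs u.den := lt_of_lt_of_le u.den_pos (le_max_right _ _)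
    exact_mod_cast this
  · rw [Nat.cast_max, max_le_iff]
    refine ⟨?_, h2⟩
    rw [Nat.cast_natAbs, Int.cast_abs]
    exact h1

/-- the box of the numbers of bounded height -/
lemma box_finite (B : ℝ) : ∃ M : ℕ, ∀ S : Finset ℚ,
    (∀ u ∈ S, |(u.num : ℝ)| ≤ B ∧ (u.den : ℝ) ≤ B) → S.card ≤ M := by
  classical
  set F : Finset (ℤ × ℕ) := Icc (-⌈|B|⌉) ⌈|B|⌉ ×ˢ range (⌈|B|⌉₊ + 1) with hF
  refine ⟨F.card, fun S hS => ?_⟩
  refine card_le_card_of_injOn (fun u => (u.num, u.den)) (fun u hu => ?_) ?_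
  · obtain ⟨h1, h2⟩ := hS u hu
    have h3 : |(u.num : ℝ)| ≤ ⌈|B|⌉ := (h1.trans (le_abs_self B)).trans (Int.le_ceil _)
    rw [abs_le] at h3
    rw [hF, mem_coe, mem_product, mem_Icc, mem_range]
    refine ⟨⟨by exact_mod_cast h3.1, by exact_mod_cast h3.2⟩, ?_⟩
    have h4 : (u.den : ℝ) ≤ ⌈|B|⌉₊ := (h2.trans (le_abs_self B)).trans (Nat.le_ceil _)
    have h5 : u.den ≤ ⌈|B|⌉₊ := by exact_mod_cast h4
    simp only
    omega
  · intro u _ v _ huv
    simp only [Prod.mk.injEq] at huv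
    exact Rat.ext huv.1 huv.2

/-- a bound independent of `d` -/
lemma pts_trivial (φ : ℚ[X]) (a b : ℤ) (B : ℝ) : ∃ M : ℕ, ∀ d : ℤ, d ≠ 0 →
    ∀ S : Finset (ℚ × ℚ), (∀ p ∈ S, p ∈ pts φ a b d B) → S.card ≤ M := by
  classical
  obtain ⟨M, hM⟩ := box_finite B
  refine ⟨2 * M, fun d hd S hS => ?_⟩
  have hdq : (d : ℚ) ≠ 0 := by exact_mod_cast hd
  have h1 : (S.image Prod.fst).card ≤ M := by
    apply hM
    intro u hu
    obtain ⟨p, hp, rfl⟩ := mem_image.1 hu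
    exact (hS p hp).2
  refine (card_le_mul_card_image S 2 fun u hu => ?_).trans (Nat.mul_le_mul_left _ h1)
  obtain ⟨q, hq, rfl⟩ := mem_image.1 hu
  refine (card_le_card (t := {(q.1, q.2), (q.1, -q.2)}) ?_).trans card_le_two
  intro p hp
  rw [mem_filter] at hp
  obtain ⟨hp, hpq⟩ := hp
  have h2 := (hS p hp).1
  have h3 := (hS q hq).1
  rw [hpq, ← h3] at h2
  have h4 : p.2 ^ 2 = q.2 ^ 2 := mul_left_cancel₀ hdq h2
  rw [mem_insert, mem_singleton]
  rcases sq_eq_sq_iff_eq_or_eq_neg.1 h4 with h5 | h5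
  · exact Or.inl (Prod.ext hpq h5)
  · exact Or.inr (Prod.ext hpq h5)

/-- **the bound by the rank** -/
theorem pts_le (a b : ℤ) (ha : a ≠ 0) (hb : b ≠ 0) (hab : a ≠ b) (φ : ℚ[X])
    (hφ : 0 < φ.natDegree) :
    ∃ (C : ℝ) (N : ℕ), 0 ≤ C ∧ ∀ (D : ℤ), D ≠ 0 → ∀ (L T : ℝ) (m : ℕ), 1 ≤ m → 0 ≤ T →
      (∀ d s : ℤ, D = d * s ^ 2 → L ≤ Real.log |(d : ℝ)|) →
      C * (1 + T) < 4 ^ m * (L / 4 - C) →
      ∀ S : Finset (ℚ × ℚ), (∀ p ∈ S, p ∈ pts φ a b D (Real.exp T)) →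
        S.card ≤ N * (2 ^ m) ^
          Module.finrank ℤ (WW ((a : ℚ) * D) ((b : ℚ) * D)).toAffine.Point := by
  classical
  obtain ⟨C, N, hC0, hCN⟩ := points_le a b ha hb hab
  obtain ⟨c, hc0, hc⟩ := height_poly φ
  refine ⟨6 * c + 7 * C, φ.natDegree * N, by positivity, fun D hD L T m hm hT hL hbig S hS => ?_⟩
  have hDq : (D : ℚ) ≠ 0 := by exact_mod_cast hD
  have haq : (a : ℚ) ≠ 0 := by exact_mod_cast ha
  have hbq : (b : ℚ) ≠ 0 := by exact_mod_cast hb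
  have habq : (a : ℚ) ≠ b := by exact_mod_cast hab
  have hcurve : (WW ((a : ℚ) * D) ((b : ℚ) * D)).Δ ≠ 0 := by
    have e : (WW ((a : ℚ) * D) ((b : ℚ) * D)).Δ = 16 * (a ^ 2 * b ^ 2 * (a - b) ^ 2 * D ^ 6) := by
      unfold WW WeierstrassCurve.Δ WeierstrassCurve.b₂ WeierstrassCurve.b₄ WeierstrassCurve.b₆
        WeierstrassCurve.b₈
      simp only
      ring
    rw [e]
    have := sub_ne_zero.2 habq
    positivity
  have hns : ∀ p ∈ S, (WW ((a : ℚ) * D) ((b : ℚ) * D)).toAffine.Nonsingular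
      (D * φ.eval p.1) (D ^ 2 * p.2) := by
    intro p hp
    rw [← Affine.equation_iff_nonsingular_of_Δ_ne_zero hcurve, eqn]
    have h1 := (hS p hp).1
    calc ((D : ℚ) ^ 2 * p.2) ^ 2 = (D : ℚ) ^ 3 * (D * p.2 ^ 2) := by ring
      _ = _ := by rw [h1]; ring
  set g : ℚ × ℚ → (WW ((a : ℚ) * D) ((b : ℚ) * D)).toAffine.Point := fun p =>
    if h : p ∈ S then .some _ _ (hns p h) else 0 with hg
  have hgS : ∀ p (hp : p ∈ S), g p = .some _ _ (hns p hp) := fun p hp => by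
    rw [hg]
    simp only
    rw [dif_pos hp]
  have h1 : (S.image g).card ≤ N * (2 ^ m) ^
      Module.finrank ℤ (WW ((a : ℚ) * D) ((b : ℚ) * D)).toAffine.Point := by
    refine hCN D hD L (c * (1 + T)) m hm hL ?_ _ fun P hP => ?_
    · have h2 : (4 : ℝ) ^ m * (L / 4 - (6 * c + 7 * C)) ≤ 4 ^ m * (L / 4 - C) :=
        mul_le_mul_of_nonneg_left (by linarith) (by positivity)
      have h3 : 0 ≤ C * T := mul_nonneg hC0 hT
      nlinarith
    · obtain ⟨p, hp, rfl⟩ := mem_image.1 hP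
      rw [hgS p hp, hh_some hDq, mul_div_cancel_left₀ _ hDq]
      refine (hc _).trans ?_
      have h2 := height_le (Real.one_le_exp hT) (hS p hp).2.1 (hS p hp).2.2
      rw [Real.log_exp] at h2
      exact mul_le_mul_of_nonneg_left (by linarith) hc0
  rw [mul_assoc]
  refine (card_le_mul_card_image S φ.natDegree fun P hP => ?_).trans
    (Nat.mul_le_mul_left _ h1)
  obtain ⟨q, hq, rfl⟩ := mem_image.1 hP
  have h2 : (S.filter (fun p => g p = g q)) ⊆
      (φ - Polynomial.C (φ.eval q.1)).roots.toFinset ×ˢ {q.2} := by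
    intro p hp
    rw [mem_filter] at hp
    obtain ⟨hp, hpq⟩ := hp
    rw [hgS p hp, hgS q hq, Point.some.injEq] at hpq
    have h3 : φ.eval p.1 = φ.eval q.1 := mul_left_cancel₀ hDq hpq.1
    have h4 : p.2 = q.2 := mul_left_cancel₀ (pow_ne_zero 2 hDq) hpq.2
    rw [mem_product, mem_singleton, Multiset.mem_toFinset, mem_roots']
    refine ⟨⟨fun h0 => ?_, ?_⟩, h4⟩
    · have h5 : φ = Polynomial.C (φ.eval q.1) := sub_eq_zero.1 h0
      rw [h5, natDegree_C] at hφ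
      exact absurd hφ (lt_irrefl _)
    · rw [IsRoot.def, eval_sub, eval_C, h3, sub_self]
  refine (card_le_card h2).trans ?_
  rw [card_product, card_singleton, mul_one]
  refine (Multiset.toFinset_card_le _).trans ((card_roots' _).trans ?_)
  exact (natDegree_sub_C).le

end PA

end Run7.h69
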