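import Mathlib
import Pool.Agent.Run7.h69.PA6
import Pool.Agent.Run7.h69.TM

/-!
# Moments of the number of the points of polynomial height
-/

set_option autoImplicit false
set_option linter.unusedSectionVars false

namespace Run7.h69

namespace PA

open Finset Height Polynomial
open WeierstrassCurve WeierstrassCurve.Affine

open Classical in
/-- **the moments** -/
theorem moments (a b : ℤ) (ha : a ≠ 0) (hb : b ≠ 0) (hab : a ≠ b) (φ : ℚ[X])
    (hφ : 0 < φ.natDegree) (f : ℤ[X]) (k M : ℕ) (A δ : ℝ) (hδ : 0 < δ) :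
    ∃ C : ℝ, ∀ (x : ℤ) (H : ℕ), 1 ≤ H → x.natAbs ≤ H ^ M →
      ∑ t ∈ (Ioc x (x + H)).filter (fun t => f.eval t ≠ 0 ∧
          ∀ d s : ℤ, f.eval t = d * s ^ 2 → (H : ℝ) ^ δ ≤ |(d : ℝ)|),
        ((pts φ a b (f.eval t) ((H : ℝ) ^ A)).ncard : ℝ) ^ k ≤ C * H := by
  classical
  obtain ⟨C, N, hC0, hCN⟩ := pts_le a b ha hb hab φ hφ
  -- the exponent
  set A' : ℝ := |A| with hA'
  have hA0 : 0 ≤ A' := abs_nonneg A
  obtain ⟨m0, hm0⟩ := pow_unbounded_of_one_lt (8 * (C * A' + 1) / δ) (by norm_num : (1 : ℝ) < 4)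
  set m : ℕ := m0 + 1 with hm
  have hm1 : 8 * (C * A' + 1) < 4 ^ m * δ := by
    have h1 : 8 * (C * A' + 1) < 4 ^ m0 * δ := by rwa [div_lt_iff₀ hδ] at hm0
    have h2 : (4 : ℝ) ^ m0 * δ ≤ 4 ^ m * δ :=
      mul_le_mul_of_nonneg_right (pow_le_pow_right₀ (by norm_num) (by omega)) hδ.le
    linarith
  -- the threshold
  set Λ : ℝ := 8 * C / δ + C + 1 with hΛ
  obtain ⟨H0, hH0⟩ := exists_nat_ge (Real.exp Λ)
  have hnc : ∀ (S : Set (ℚ × ℚ)) (K : ℕ), (∀ s : Finset (ℚ × ℚ), (∀ p ∈ s, p ∈ S) → s.card ≤ K) →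
      S.ncard ≤ K := by
    intro S K h
    by_cases hS : S.Finite
    · rw [Set.ncard_eq_toFinset_card S hS]
      exact h _ fun p hp => hS.mem_toFinset.1 hp
    · rw [Set.Infinite.ncard hS]
      exact Nat.zero_le _
  have hbig : ∀ (H : ℕ) (d : ℤ), 1 ≤ H → H0 ≤ H → d ≠ 0 →
      (∀ e s : ℤ, d = e * s ^ 2 → (H : ℝ) ^ δ ≤ |(e : ℝ)|) →
      (pts φ a b d ((H : ℝ) ^ A)).ncard ≤ N * (2 ^ m) ^
          Module.finrank ℤ (WW ((a : ℚ) * d) ((b : ℚ) * d)).toAffine.Point := by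
    intro H d hH hHH hd hcond
    have hHr : (1 : ℝ) ≤ H := by exact_mod_cast hH
    have hH00 : (0 : ℝ) < H := by linarith
    set l : ℝ := Real.log H with hl
    have hlΛ : Λ ≤ l := by
      rw [hl, Real.le_log_iff_exp_le hH00]
      exact hH0.trans (by exact_mod_cast hHH)
    have hl1 : 8 * C / δ ≤ l := by linarith
    have hl0 : 0 ≤ l := Real.log_nonneg hHr
    have hlC : C + 1 ≤ l := by
      have : 0 ≤ 8 * C / δ := by positivity
      linarith
    have hδl : 8 * C ≤ δ * l := by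
      have := (div_le_iff₀ hδ).1 hl1
      linarith [mul_comm δ l]
    apply hnc
    intro S hS
    refine hCN d hd (δ * l) (A' * l) m (by omega) (by positivity) (fun e s hes => ?_) ?_ S
      (fun p hp => ?_)
    · have h1 := hcond e s hes
      rw [hl, ← Real.log_rpow hH00]
      exact Real.log_le_log (by positivity) h1
    · have h4 : (1 : ℝ) ≤ 4 ^ m := one_le_pow₀ (by norm_num)
      have h5 : 0 < (4 : ℝ) ^ m := by positivity
      have h6 : 4 ^ m * (δ * l / 8) ≤ 4 ^ m * (δ * l / 4 - C) :=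
        mul_le_mul_of_nonneg_left (by linarith) h5.le
      have h7 : (C * A' + 1) * l ≤ 4 ^ m * (δ * l / 8) := by nlinarith
      have h8 : C * (1 + A' * l) < (C * A' + 1) * l := by nlinarith
      linarith
    · have h1 := hS p hp
      have h2 : (H : ℝ) ^ A ≤ Real.exp (A' * l) := by
        rw [Real.rpow_def_of_pos hH00, ← hl, mul_comm]
        apply Real.exp_le_exp.2
        exact mul_le_mul_of_nonneg_right (le_abs_self A) hl0
      exact ⟨h1.1, h1.2.1.trans h2, h1.2.2.trans h2⟩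
  obtain ⟨C', hC'⟩ := TM.main ha hb hab f (m * k) M
  have hsmall : ∀ H : ℕ, ∃ K : ℕ, ∀ d : ℤ, d ≠ 0 → (pts φ a b d ((H : ℝ) ^ A)).ncard ≤ K := by
    intro H
    obtain ⟨K, hK⟩ := pts_trivial φ a b ((H : ℝ) ^ A)
    exact ⟨K, fun d hd => hnc _ _ fun S hS => hK d hd S hS⟩
  choose K hK using hsmall
  set K0 : ℕ := ∑ H ∈ range H0, K H with hK0
  refine ⟨(N : ℝ) ^ k * |C'| + (K0 : ℝ) ^ k, fun x H hH hx => ?_⟩
  have hHr : (1 : ℝ) ≤ H := by exact_mod_cast hH
  set J := (Ioc x (x + H)).filter (fun t => f.eval t ≠ 0 ∧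
          ∀ d s : ℤ, f.eval t = d * s ^ 2 → (H : ℝ) ^ δ ≤ |(d : ℝ)|) with hJ
  rcases Nat.lt_or_ge H H0 with hHH | hHH
  · have h1 : ∀ t ∈ J, ((pts φ a b (f.eval t) ((H : ℝ) ^ A)).ncard : ℝ) ^ k ≤ (K0 : ℝ) ^ k := by
      intro t ht
      rw [hJ, mem_filter] at ht
      refine pow_le_pow_left₀ (Nat.cast_nonneg _) ?_ k
      have h2 := hK H (f.eval t) ht.2.1
      have h3 : K H ≤ K0 := single_le_sum (f := K) (fun _ _ => Nat.zero_le _) (mem_range.2 hHH)
      exact_mod_cast h2.trans h3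
    have h2 : (J.card : ℝ) ≤ H := by
      have h3 : J.card ≤ H := by
        refine (card_filter_le _ _).trans ?_
        rw [Int.card_Ioc]
        simp
      exact_mod_cast h3
    calc _ ≤ ∑ t ∈ J, (K0 : ℝ) ^ k := sum_le_sum h1
      _ = J.card * (K0 : ℝ) ^ k := by rw [sum_const, nsmul_eq_mul]
      _ ≤ H * (K0 : ℝ) ^ k := mul_le_mul_of_nonneg_right h2 (by positivity)
      _ ≤ _ := by
          have : 0 ≤ (N : ℝ) ^ k * |C'| * H := by positivity
          rw [add_mul]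
          linarith [mul_comm (H : ℝ) ((K0 : ℝ) ^ k)]
  · have h1 : ∀ t ∈ J, ((pts φ a b (f.eval t) ((H : ℝ) ^ A)).ncard : ℝ) ^ k ≤
        (N : ℝ) ^ k * TM.rr a b (f.eval t) ^ (m * k) := by
      intro t ht
      rw [hJ, mem_filter] at ht
      have h2 := hbig H (f.eval t) hH hHH ht.2.1 ht.2.2
      have h3 : ((pts φ a b (f.eval t) ((H : ℝ) ^ A)).ncard : ℝ) ≤
          N * TM.rr a b (f.eval t) ^ m := by
        have h4 : (WW ((a : ℚ) * (f.eval t : ℤ)) ((b : ℚ) * (f.eval t : ℤ))) =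
            Pool.Agent.W262.RK.EAB (a * f.eval t) (b * f.eval t) := by
          unfold WW Pool.Agent.W262.RK.EAB
          push_cast
          rfl
        rw [h4] at h2
        unfold TM.rr
        rw [← pow_mul, mul_comm _ m, pow_mul]
        exact_mod_cast h2
      calc _ ≤ (N * TM.rr a b (f.eval t) ^ m) ^ k :=
            pow_le_pow_left₀ (Nat.cast_nonneg _) h3 k
        _ = _ := by rw [mul_pow, ← pow_mul]
    have h2 := hC' x H hH hx
    have h3 : ∑ t ∈ J, TM.rr a b (f.eval t) ^ (m * k) ≤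
        ∑ t ∈ NX.II f x H, TM.rr a b (f.eval t) ^ (m * k) := by
      refine sum_le_sum_of_subset_of_nonneg ?_ fun t _ _ => by
        have := TM.one_le_rr a b (f.eval t)
        positivity
      intro t ht
      rw [hJ, mem_filter] at ht
      unfold NX.II
      rw [mem_filter]
      exact ⟨ht.1, ht.2.1⟩
    calc _ ≤ ∑ t ∈ J, (N : ℝ) ^ k * TM.rr a b (f.eval t) ^ (m * k) := sum_le_sum h1
      _ = (N : ℝ) ^ k * ∑ t ∈ J, TM.rr a b (f.eval t) ^ (m * k) := by rw [mul_sum]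
      _ ≤ (N : ℝ) ^ k * (|C'| * H) := by
          apply mul_le_mul_of_nonneg_left _ (by positivity)
          exact (h3.trans h2).trans (mul_le_mul_of_nonneg_right (le_abs_self _) (by positivity))
      _ ≤ _ := by
          have : 0 ≤ (K0 : ℝ) ^ k * H := by positivity
          rw [add_mul]
          linarith [mul_assoc ((N : ℝ) ^ k) |C'| (H : ℝ)]

end PA

end Run7.h69
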