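import Mathlib
import Pool.Agent.Run7.h69.LD3

/-!
# Moments of `2 ^ rank` in a family, given the average of the local counts
-/

set_option autoImplicit false
set_option linter.unusedSectionVars false

namespace Run7.h69.FM

open Finset Polynomial
open Pool.Agent.W262.RK hiding lk ff s1 s2
open Pool.Agent.W125.RK2 (NL_congr)

variable {D G0 G1 : ℤ[X]} {z : ℕ}

lemma LT_congr {s : ℕ} {τ τ' : ℕ → ℕ × Bool} (h : ∀ p ∈ s.primeFactors, τ p = τ' p) :
    NL s (LT D G0 G1 τ) = NL s (LT D G0 G1 τ') := by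
  apply NL_congr
  intro p hp
  unfold LT
  rw [h p hp]

lemma GS_mul (hz : Gd (PQ D G0 G1) z) (δ : ℝ) {s : ℕ} :
    GS D G0 G1 δ s * gm (br (PQ D G0 G1)) s =
      ((1 / 2) ^ s.primeFactors.card *
        gm (fun p => 1 / ((p : ℝ) - (PQ D G0 G1).natDegree)) s) *
        ∑ τ ∈ TS D G0 G1 s, (NL s (LT D G0 G1 (ex s τ)) : ℝ) ^ δ := by
  unfold GS
  rcases (TS D G0 G1 s).eq_empty_or_nonempty with h | ⟨τ, hτ⟩
  · rw [h, sum_empty]
    ring
  · have h1 : ∀ p ∈ s.primeFactors, (rho (PQ D G0 G1) p : ℝ) ≠ 0 := by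
      intro p hp
      have h2 := ex_root hτ hp
      have h3 : (CN.Rt (PQ D G0 G1) p).card ≠ 0 := card_ne_zero_of_mem h2
      rw [CN.card_Rt] at h3
      exact_mod_cast h3
    have h2 : (∏ p ∈ s.primeFactors, 1 / (2 * (rho (PQ D G0 G1) p : ℝ))) *
        gm (br (PQ D G0 G1)) s = (1 / 2) ^ s.primeFactors.card *
        gm (fun p => 1 / ((p : ℝ) - (PQ D G0 G1).natDegree)) s := by
      unfold gm
      rw [← prod_const, ← prod_mul_distrib, ← prod_mul_distrib]
      refine prod_congr rfl fun p hp => ?_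
      have h3 := h1 p hp
      unfold br
      field_simp
    rw [← h2]
    ring

/-- the moments -/
theorem moments {δ C' : ℝ} {g : ℕ} (M : ℕ) (hδ0 : 0 ≤ δ) (hδ1 : δ ≤ 1)
    (hz : Gd (PQ D G0 G1) z) (hM : Mer (PQ D G0 G1) g)
    (havg : ∀ y : ℕ, z < y → ∑ s ∈ (PP z y).divisors, GS D G0 G1 δ s * gm (br (PQ D G0 G1)) s ≤
      C' * (Real.log y) ^ g) :
    ∃ (X0 : ℕ) (B : ℝ), ∀ (x : ℤ) (X : ℕ), x.natAbs ≤ X ^ M → X0 ≤ X →
      ∑ t ∈ NX.II (PQ D G0 G1) x X, ((2 : ℝ) ^ Module.finrank ℤ
        (EAB ((D * G0).eval t) ((D * G1).eval t)).toAffine.Point) ^ δ ≤ B * X := by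
  classical
  set f := PQ D G0 G1 with hf
  have hz2 : 2 ≤ z := by have := hz.big; omega
  obtain ⟨C, K, y0, hC0, hK1, hcn⟩ := CN2.count hz hM
  obtain ⟨c, L, hcL⟩ := RK.growth f
  -- the size of the values
  set L1 : ℕ := (M + 3) * L + 1 with hL1
  set y1 : ℕ := y0 + c + 3 with hy1
  have hval : ∀ (x : ℤ) (X : ℕ), x.natAbs ≤ X ^ M → y1 ≤ X → ∀ t ∈ Ioc x (x + X),
      (f.eval t).natAbs ≤ X ^ L1 := by
    intro x X hx hX t ht
    rw [mem_Ioc] at ht
    have hX2 : 2 ≤ X := by omega
    have h1 : t.natAbs + 1 ≤ x.natAbs + X + 1 := by omega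
    have h2 : x.natAbs + X + 1 ≤ X ^ (M + 3) := by
      have h3 : X ^ (M + 3) = X ^ M * (X ^ 3) := pow_add _ _ _
      have h4 : 1 ≤ X ^ M := Nat.one_le_pow _ _ (by omega)
      have h5 : X + 1 + 1 ≤ X ^ 3 := by nlinarith [Nat.mul_le_mul hX2 hX2, sq_nonneg (X - 2)]
      calc x.natAbs + X + 1 ≤ X ^ M * 1 + 1 * (X + 1) := by omega
        _ ≤ X ^ M * 1 + X ^ M * (X + 1) := Nat.add_le_add_left (Nat.mul_le_mul_right _ h4) _
        _ = X ^ M * (X + 1 + 1) := by ring
        _ ≤ X ^ M * X ^ 3 := Nat.mul_le_mul_left _ h5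
        _ = _ := h3.symm
    calc (f.eval t).natAbs ≤ c * (t.natAbs + 1) ^ L := hcL t
      _ ≤ X * (X ^ (M + 3)) ^ L :=
          Nat.mul_le_mul (by omega) (Nat.pow_le_pow_left (h1.trans h2) _)
      _ = X ^ L1 := by rw [hL1, ← pow_mul, pow_succ, mul_comm]
  obtain ⟨X0, B, hB⟩ := NX.nt (G := GS D G0 G1 δ)
    (R := fun t => ((2 : ℝ) ^ Module.finrank ℤ
      (EAB ((D * G0).eval t) ((D * G1).eval t)).toAffine.Point) ^ δ)
    (Q := fun x X => x.natAbs ≤ X ^ M ∧ y1 ≤ X) (A := 4) (C := C * 4 ^ (z + 2))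
    (D := 4 ^ L1) (C' := C') (g := g) (K := K) (y0 := y1)
    hz (GS_nonneg δ) (fun t => by positivity) (by norm_num) (by positivity)
    (one_le_pow₀ (by norm_num))
    (fun y s e hse => subG hδ0 hδ1 hz hse) havg (by
      intro x X y Y k hQ hy0 hzy hyK hXk s v u hs hv hu hsvu
      obtain ⟨hx, hX⟩ := hQ
      have hy00 : y0 ≤ y := by omega
      have hs0 : s ≠ 0 := Nat.one_le_iff_ne_zero.1 (NX.dpos hs)
      set S := (NX.II f x X).filter (fun t : ℤ => t1 f z y t = s ∧ t2 f z y t = v ∧
        (u : ℤ) ∣ f.eval t) with hS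
      set Gt : (s.primeFactors → ℕ × Bool) → ℝ :=
        fun τ => (NL s (LT D G0 G1 (ex s τ)) : ℝ) ^ δ with hG
      have hG0 : ∀ τ, 0 ≤ Gt τ := fun τ => by rw [hG]; positivity
      set tt : ℤ → (s.primeFactors → ℕ × Bool) := fun t p => ty f t s p.1 with htt
      have hex : ∀ t, NL s (LT D G0 G1 (ex s (tt t))) = NL s (LT D G0 G1 (ty f t s)) := by
        intro t
        apply LT_congr
        intro p hp
        unfold ex
        rw [dif_pos hp]
      have h1 : ∀ t ∈ S, ((2 : ℝ) ^ Module.finrank ℤ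
          (EAB ((D * G0).eval t) ((D * G1).eval t)).toAffine.Point) ^ δ ≤
          4 ^ (z + 2) * (4 ^ L1) ^ k * 4 ^ v.primeFactors.card * Gt (tt t) := by
        intro t ht
        rw [hS, mem_filter] at ht
        obtain ⟨ht1, hts, htv, _⟩ := ht
        unfold NX.II at ht1
        rw [mem_filter] at ht1
        have hN : (f.eval t).natAbs < (y + 1) ^ (k * L1) := by
          calc (f.eval t).natAbs ≤ X ^ L1 := hval x X hx hX t ht1.1
            _ < ((y + 1) ^ k) ^ L1 := Nat.pow_lt_pow_left hXk (by omega)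
            _ = _ := by rw [← pow_mul]
        have hr := rank hz (t := t) (y := y) (N := k * L1) (by omega) ht1.2 hN
        rw [← hf, hts, htv] at hr
        have hr' : (2 : ℝ) ^ Module.finrank ℤ
            (EAB ((D * G0).eval t) ((D * G1).eval t)).toAffine.Point ≤
            4 ^ (z + 2) * 4 ^ (k * L1) * 4 ^ (v.primeFactors.card) *
              (NL s (LT D G0 G1 (ty f t s)) : ℝ) := by exact_mod_cast hr
        have h2 : ∀ n : ℕ, ((4 : ℝ) ^ n) ^ δ ≤ 4 ^ n := by
          intro n
          calc ((4 : ℝ) ^ n) ^ δ ≤ ((4 : ℝ) ^ n) ^ (1 : ℝ) :=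
                Real.rpow_le_rpow_of_exponent_le (one_le_pow₀ (by norm_num)) hδ1
            _ = _ := Real.rpow_one _
        refine (Real.rpow_le_rpow (by positivity) hr' hδ0).trans ?_
        rw [← pow_add, ← pow_add, Real.mul_rpow (by positivity) (Nat.cast_nonneg _)]
        rw [hG]
        simp only
        rw [hex, ← pow_mul, mul_comm L1 k, ← pow_add, ← pow_add]
        exact mul_le_mul_of_nonneg_right (h2 _) (by positivity)
      have hneg : ∀ t ∈ S, tt t ∈ TS D G0 G1 s := by
        intro t ht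
        rw [hS, mem_filter] at ht
        unfold TS
        rw [Fintype.mem_piFinset]
        rintro ⟨p, hp⟩
        unfold Ty
        rw [mem_product]
        refine ⟨?_, mem_univ _⟩
        have hpp := Nat.prime_of_mem_primeFactors hp
        have h3 := Nat.dvd_of_mem_primeFactors hp
        rw [← ht.2.1] at h3
        exact CN.mem_Rt hpp (RK.t1_pf hpp h3).2.1
      have h2 : ∑ t ∈ S, Gt (tt t) = ∑ τ ∈ TS D G0 G1 s,
            ((S.filter (fun t : ℤ => tt t = τ)).card : ℝ) * Gt τ := by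
        rw [← sum_fiberwise_of_maps_to hneg]
        refine sum_congr rfl fun E _ => ?_
        rw [← nsmul_eq_mul, ← sum_const]
        refine sum_congr rfl fun t ht => ?_
        rw [(mem_filter.1 ht).2]
      set Q : ℝ := C * X * (1 / 2) ^ s.primeFactors.card *
        gm (fun p => 1 / ((p : ℝ) - f.natDegree)) s * (gm (br f) v / v) *
        gm (ru f) u / (Real.log y) ^ g with hQ
      have h3 : ∀ τ ∈ TS D G0 G1 s,
          ((S.filter (fun t : ℤ => tt t = τ)).card : ℝ) * Gt τ ≤ Q * Gt τ := by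
        intro τ _
        refine mul_le_mul_of_nonneg_right ?_ (hG0 τ)
        refine le_trans ?_ (hcn x X y Y hy00 hzy hyK s v u hs hv hu hsvu
          (s.primeFactors.filter (fun p => (ex s τ p).2 = true)) (fun p => (ex s τ p).1))
        have h4 : S.filter (fun t : ℤ => tt t = τ) ⊆
            (Ioc x (x + X)).filter (fun t : ℤ => (t1 f z y t = s ∧ t2 f z y t = v ∧
              (u : ℤ) ∣ f.eval t ∧
              ng f t s = s.primeFactors.filter (fun p => (ex s τ p).2 = true)) ∧
              ∀ p ∈ s.primeFactors, (t % (p : ℤ)).toNat = (ex s τ p).1) := by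
          intro t ht
          rw [mem_filter, hS, mem_filter] at ht
          unfold NX.II at ht
          rw [mem_filter] at ht
          obtain ⟨⟨⟨h5, h6⟩, h7, h8, h9⟩, h10⟩ := ht
          have h11 : ∀ p ∈ s.primeFactors, ex s τ p = ty f t s p := by
            intro p hp
            unfold ex
            rw [dif_pos hp, ← h10]
          rw [mem_filter]
          refine ⟨h5, ⟨h7, h8, h9, ?_⟩, fun p hp => ?_⟩
          · ext p
            rw [mem_filter]
            constructor
            · intro hp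
              have hp1 : p ∈ s.primeFactors := by
                unfold ng at hp
                exact (mem_filter.1 hp).1
              refine ⟨hp1, ?_⟩
              rw [h11 p hp1]
              unfold ty
              simpa using hp
            · rintro ⟨hp1, hp2⟩
              rw [h11 p hp1] at hp2
              unfold ty at hp2
              simpa using hp2
          · rw [h11 p hp]
            rfl
        exact_mod_cast card_le_card h4
      calc ∑ t ∈ S, ((2 : ℝ) ^ Module.finrank ℤ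
              (EAB ((D * G0).eval t) ((D * G1).eval t)).toAffine.Point) ^ δ
          ≤ ∑ t ∈ S, 4 ^ (z + 2) * (4 ^ L1) ^ k * 4 ^ v.primeFactors.card * Gt (tt t) :=
            sum_le_sum h1
        _ = 4 ^ (z + 2) * (4 ^ L1) ^ k * 4 ^ v.primeFactors.card *
              ∑ τ ∈ TS D G0 G1 s,
                ((S.filter (fun t : ℤ => tt t = τ)).card : ℝ) * Gt τ := by
            rw [← mul_sum, h2]
        _ ≤ 4 ^ (z + 2) * (4 ^ L1) ^ k * 4 ^ v.primeFactors.card *
              ∑ τ ∈ TS D G0 G1 s, Q * Gt τ :=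
            mul_le_mul_of_nonneg_left (sum_le_sum h3) (by positivity)
        _ = _ := by
            have e1 := GS_mul hz δ (s := s)
            have e2 : NX.bV f 4 v = 4 ^ v.primeFactors.card * (gm (br f) v / v) := rfl
            rw [← hf] at e1
            rw [← mul_sum, e1, e2, hQ]
            ring)
  refine ⟨X0 + y1, B, fun x X hx hX => ?_⟩
  exact hB x X ⟨hx, by omega⟩ (by omega)

end Run7.h69.FM
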