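import Mathlib
import Pool.Agent.Run7.h69.LD4
import Pool.Agent.Run7.h69.EX

/-!
# The decomposition of the local count
-/

set_option autoImplicit false
set_option linter.unusedSectionVars false

namespace Run7.h69.FM

open Finset Polynomial
open Pool.Agent.W262.RK hiding lk ff s1 s2
open Pool.Agent.W762.RK2 (ind prod_ind)
open EX (Bk okD)

variable {D G0 G1 : ℤ[X]} {z : ℕ}

/-- the local condition of a type -/
def Lp (D G0 G1 : ℤ[X]) (p : ℕ) (y : ℕ × Bool) : Bool → Bool → Bool → Bool → Prop :=
  LL (cl D G0 G1 p (y.1 : ℤ))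
    (fun k => (KP D G0 G1 (cl D G0 G1 p (y.1 : ℤ)) k).eval (y.1 : ℤ)) y.2 p

lemma LT_eq (τ : ℕ → ℕ × Bool) (p : ℕ) : LT D G0 G1 τ p = Lp D G0 G1 p (τ p) := rfl

/-- the indicator of a pair of divisors -/
noncomputable def In (D G0 G1 : ℤ[X]) (s : ℕ) (τ : ℕ → ℕ × Bool) (d : Fin 2 → ℕ) : ℝ :=
  ∏ p ∈ s.primeFactors, ind (Lp D G0 G1 p (τ p) (dv p (d 0)) (dv p (d 1)) (sgn p (d 0)) (sgn p (d 1)))

/-- the pair of the direction -/
def dr (c : Fin 4) (m : ℕ) : Fin 2 → ℕ := ![if (ec c).1 then m else 1, if (ec c).2 then m else 1]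

/-- the three conditions -/
def Q2 (m : Fin 3) (v : Bk 2) : Prop :=
  if m = 0 then v 0 = true else if m = 1 then v 1 = true else v 0 ≠ v 1

/-- the condition -/
def Q1 (_ : Unit) (v : Bk 1) : Prop := v 0 = true

lemma In_nonneg (s : ℕ) (τ : ℕ → ℕ × Bool) (d : Fin 2 → ℕ) : 0 ≤ In D G0 G1 s τ d := by
  unfold In
  exact prod_nonneg fun p _ => by unfold ind; split_ifs <;> norm_num

lemma In_le (s : ℕ) (τ : ℕ → ℕ × Bool) (d : Fin 2 → ℕ) : In D G0 G1 s τ d ≤ 1 := by
  unfold In
  exact prod_le_one (fun p _ => by unfold ind; split_ifs <;> norm_num)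
    (fun p _ => by unfold ind; split_ifs <;> norm_num)

lemma NL_eq (s : ℕ) (τ : ℕ → ℕ × Bool) : (NL s (LT D G0 G1 τ) : ℝ) =
    ∑ d ∈ Fintype.piFinset (fun _ : Fin 2 => s.divisors), In D G0 G1 s τ d := by
  classical
  unfold NL
  rw [card_filter]
  push_cast
  have h1 : ∑ d ∈ Fintype.piFinset (fun _ : Fin 2 => s.divisors), In D G0 G1 s τ d =
      ∑ d ∈ s.divisors ×ˢ s.divisors, In D G0 G1 s τ ![d.1, d.2] := by
    symm
    refine sum_bij (fun d _ => ![d.1, d.2]) ?_ ?_ ?_ (fun _ _ => rfl)
    · intro d hd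
      rw [mem_product] at hd
      rw [Fintype.mem_piFinset]
      intro l
      fin_cases l
      · exact hd.1
      · exact hd.2
    · intro d _ d' _ h
      have e0 := congrFun h 0
      have e1 := congrFun h 1
      simp at e0 e1
      exact Prod.ext e0 e1
    · intro d hd
      rw [Fintype.mem_piFinset] at hd
      refine ⟨(d 0, d 1), mem_product.2 ⟨hd 0, hd 1⟩, ?_⟩
      funext l
      fin_cases l <;> rfl
  rw [h1]
  refine sum_congr rfl fun d _ => ?_
  unfold In
  rw [prod_ind]
  unfold ind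
  by_cases h : ∀ p ∈ s.primeFactors, Lp D G0 G1 p (τ p) (dv p (d.1 : ℤ)) (dv p (d.2 : ℤ))
      (sgn p (d.1 : ℤ)) (sgn p (d.2 : ℤ))
  · exact (if_pos h).trans (if_pos h).symm
  · exact (if_neg h).trans (if_neg h).symm

/-- a divisor is determined by its primes -/
lemma dv_eq {y s a b : ℕ} (hs : s ∣ PP z y) (ha : a ∣ s) (hb : b ∣ s)
    (h : ∀ p ∈ s.primeFactors, dv p (a : ℤ) = dv p (b : ℤ)) : a = b := by
  have hs0 : s ≠ 0 := Nat.one_le_iff_ne_zero.1 (NX.dpos hs)
  have hsq := (PP_squarefree z y).squarefree_of_dvd hs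
  have h1 : ∀ c : ℕ, c ∣ s → c = ∏ p ∈ s.primeFactors.filter (fun p => dv p (c : ℤ) = true), p := by
    intro c hc
    have e1 : s.primeFactors.filter (fun p => dv p (c : ℤ) = true) = c.primeFactors := by
      ext p
      unfold dv
      rw [mem_filter, Nat.mem_primeFactors, Nat.mem_primeFactors, decide_eq_true_eq,
        Int.natCast_dvd_natCast]
      constructor
      · rintro ⟨⟨h1, h2, h3⟩, h4⟩
        exact ⟨h1, h4, fun h => by rw [h] at hc; exact h3 (Nat.eq_zero_of_zero_dvd hc)⟩
      · rintro ⟨h1, h2, h3⟩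
        exact ⟨⟨h1, h2.trans hc, hs0⟩, h2⟩
    rw [e1, Nat.prod_primeFactors_of_squarefree (hsq.squarefree_of_dvd hc)]
  rw [h1 a ha, h1 b hb]
  refine prod_congr ?_ fun _ _ => rfl
  exact filter_congr fun p hp => by rw [h p hp]

open Classical in
/-- the decomposition -/
theorem dec {y s : ℕ} (hs : s ∣ PP z y) (τ : ℕ → ℕ × Bool) :
    (NL s (LT D G0 G1 τ) : ℝ) ≤ 1 +
      (∑ d ∈ Fintype.piFinset (fun _ : Fin 2 => s.divisors),
        (if okD Q2 s d then In D G0 G1 s τ d else 0)) +
      ∑ c ∈ ({0, 1, 2} : Finset (Fin 4)), ∑ d ∈ Fintype.piFinset (fun _ : Fin 1 => s.divisors),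
        (if okD Q1 s d then In D G0 G1 s τ (dr c (d 0)) else 0) := by
  have hs0 : s ≠ 0 := Nat.one_le_iff_ne_zero.1 (NX.dpos hs)
  rw [NL_eq]
  set S2 := Fintype.piFinset (fun _ : Fin 2 => s.divisors) with hS2
  set S1 := Fintype.piFinset (fun _ : Fin 1 => s.divisors) with hS1
  have hcov : S2 ⊆ ({fun _ => 1} ∪ S2.filter (fun d => okD Q2 s d)) ∪
      (({0, 1, 2} : Finset (Fin 4)) ×ˢ (S1.filter (fun d => okD Q1 s d))).image
        (fun x => dr x.1 (x.2 0)) := by
    intro d hd
    have hd2 := hd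
    rw [hS2, Fintype.mem_piFinset] at hd2
    have hd3 : ∀ l, d l ∣ s := fun l => Nat.dvd_of_mem_divisors (hd2 l)
    have hone : (1 : ℕ) ∣ s := one_dvd s
    have hdv1 : ∀ p ∈ s.primeFactors, dv p ((1 : ℕ) : ℤ) = false := by
      intro p hp
      unfold dv
      rw [decide_eq_false_iff_not]
      have := Nat.prime_of_mem_primeFactors hp
      exact_mod_cast fun h => this.one_lt.ne' (Nat.dvd_one.1 (by exact_mod_cast h))
    have hok1 : ∀ m : ℕ, m ∣ s → m ≠ 1 → (fun _ : Fin 1 => m) ∈ S1.filter (fun d => okD Q1 s d) := by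
      intro m hm hm1
      rw [mem_filter, hS1, Fintype.mem_piFinset]
      refine ⟨fun _ => Nat.mem_divisors.2 ⟨hm, hs0⟩, fun _ => ?_⟩
      by_contra hcon
      push Not at hcon
      apply hm1
      refine dv_eq hs hm hone fun p hp => ?_
      rw [hdv1 p hp]
      have h := hcon p hp
      unfold Q1 at h
      simpa using h
    have himg : ∀ (c : Fin 4) (m : ℕ), c ∈ ({0, 1, 2} : Finset (Fin 4)) → m ∣ s → m ≠ 1 →
        d = dr c m → d ∈ (({0, 1, 2} : Finset (Fin 4)) ×ˢ (S1.filter (fun d => okD Q1 s d))).image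
          (fun x => dr x.1 (x.2 0)) := by
      intro c m hc hm hm1 he
      rw [mem_image]
      exact ⟨(c, fun _ => m), mem_product.2 ⟨hc, hok1 m hm hm1⟩, he.symm⟩
    rw [mem_union, mem_union, mem_singleton, mem_filter]
    by_cases hok : okD Q2 s d
    · exact Or.inl (Or.inr ⟨hd, hok⟩)
    · unfold okD at hok
      push Not at hok
      obtain ⟨m, hm⟩ := hok
      have hm3 : ∀ m : Fin 3, m = 0 ∨ m = 1 ∨ m = 2 := by decide
      rcases hm3 m with h | h | h <;> subst h
      · -- d 0 = 1
        have e0 : d 0 = 1 := by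
          refine dv_eq hs (hd3 0) hone fun p hp => ?_
          rw [hdv1 p hp]
          have h := hm p hp
          unfold Q2 at h
          simpa using h
        by_cases e1 : d 1 = 1
        · left; left
          funext l
          fin_cases l
          · exact e0
          · exact e1
        · right
          refine himg 2 (d 1) (by simp) (hd3 1) e1 ?_
          funext l
          fin_cases l
          · simp [dr, ec, e0]
          · simp [dr, ec]
      · have e0 : d 1 = 1 := by
          refine dv_eq hs (hd3 1) hone fun p hp => ?_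
          rw [hdv1 p hp]
          have h := hm p hp
          unfold Q2 at h
          simpa using h
        by_cases e1 : d 0 = 1
        · left; left
          funext l
          fin_cases l
          · exact e1
          · exact e0
        · right
          refine himg 1 (d 0) (by simp) (hd3 0) e1 ?_
          funext l
          fin_cases l
          · simp [dr, ec]
          · simp [dr, ec, e0]
      · have e0 : d 0 = d 1 := by
          refine dv_eq hs (hd3 0) (hd3 1) fun p hp => ?_
          have h := hm p hp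
          unfold Q2 at h
          simpa using h
        by_cases e1 : d 0 = 1
        · left; left
          funext l
          fin_cases l
          · exact e1
          · rw [← e1]; exact e0.symm
        · right
          refine himg 0 (d 0) (by simp) (hd3 0) e1 ?_
          funext l
          fin_cases l
          · simp [dr, ec]
          · simp [dr, ec, e0]
  have hun : ∀ A B : Finset (Fin 2 → ℕ), ∑ d ∈ A ∪ B, In D G0 G1 s τ d ≤
      ∑ d ∈ A, In D G0 G1 s τ d + ∑ d ∈ B, In D G0 G1 s τ d := by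
    intro A B
    rw [← sum_union_inter]
    exact le_add_of_nonneg_right (sum_nonneg fun d _ => In_nonneg s τ d)
  refine (sum_le_sum_of_subset_of_nonneg hcov fun d _ _ => In_nonneg s τ d).trans ?_
  refine (hun _ _).trans (add_le_add ((hun _ _).trans (add_le_add ?_ ?_)) ?_)
  · rw [sum_singleton]
    exact In_le _ _ _
  · rw [sum_filter]
  · have h1 : ∑ c ∈ ({0, 1, 2} : Finset (Fin 4)), ∑ d ∈ S1,
        (if okD Q1 s d then In D G0 G1 s τ (dr c (d 0)) else 0) =
        ∑ x ∈ ({0, 1, 2} : Finset (Fin 4)) ×ˢ (S1.filter (fun d => okD Q1 s d)),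
          In D G0 G1 s τ (dr x.1 (x.2 0)) := by
      rw [sum_product]
      refine sum_congr rfl fun c _ => ?_
      rw [sum_filter]
    rw [h1]
    exact sum_image_le_of_nonneg fun _ _ => In_nonneg _ _ _

end Run7.h69.FM
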