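import Mathlib
import Pool.Agent.Run7.h69.AG1

/-!
# The average of the local counts as sums over tuples of divisors
-/

set_option autoImplicit false
set_option linter.unusedSectionVars false

namespace Run7.h69.FM

open Finset Polynomial
open Pool.Agent.W262.RK hiding lk ff s1 s2
open Pool.Agent.W762.RK2 (ind prod_ind)
open EX (Bk okD)

variable {D G0 G1 : ℤ[X]} {z : ℕ}

/-- the weight of a type for the direction `c` -/
noncomputable def wt (D G0 G1 : ℤ[X]) (c : Fin 4) (p : ℕ) (y : ℕ × Bool) : ℝ :=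
  if cl D G0 G1 p (y.1 : ℤ) = 3 then 1 else if cl D G0 G1 p (y.1 : ℤ) = c then
    (if Jr ((KP D G0 G1 c 0).eval (y.1 : ℤ)) p = 1 then 2 else 1) else 1 / 2

/-- the weight of a prime -/
noncomputable def iv (D G0 G1 : ℤ[X]) (p : ℕ) : ℝ := 1 / ((p : ℝ) - (PQ D G0 G1).natDegree)

/-- the local term, two divisors -/
noncomputable def T2 (D G0 G1 : ℤ[X]) (p : ℕ) (v h : Bk 2) : ℝ :=
  iv D G0 G1 p / 2 * ∑ y ∈ Ty D G0 G1 p, ind (Lp D G0 G1 p y (v 0) (v 1) (h 0) (h 1))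

/-- the local term, one divisor -/
noncomputable def T1 (D G0 G1 : ℤ[X]) (c : Fin 4) (δ : ℝ) (p : ℕ) (v h : Bk 1) : ℝ :=
  iv D G0 G1 p / 2 * ∑ y ∈ Ty D G0 G1 p, (wt D G0 G1 c p y) ^ (δ - 1) *
    ind (Lp D G0 G1 p y ((ec c).1 && v 0) ((ec c).2 && v 0) ((ec c).1 && h 0) ((ec c).2 && h 0))

/-- the Euler factor of the weights -/
noncomputable def E1 (D G0 G1 : ℤ[X]) (c : Fin 4) (δ : ℝ) (p : ℕ) : ℝ :=
  iv D G0 G1 p / 2 * ∑ y ∈ Ty D G0 G1 p, (wt D G0 G1 c p y) ^ δ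

lemma wt_pos (c : Fin 4) (p : ℕ) (y : ℕ × Bool) : 0 < wt D G0 G1 c p y := by
  unfold wt
  split_ifs <;> norm_num

lemma pow_split {x t δ : ℝ} (hx : 0 ≤ x) (ht : 0 < t) (h0 : 0 < δ) (h1 : δ ≤ 1) :
    x ^ δ ≤ t ^ (δ - 1) * x + t ^ δ := by
  rcases le_or_gt x t with h | h
  · have h2 := Real.rpow_le_rpow hx h h0.le
    have h3 : 0 ≤ t ^ (δ - 1) * x := by positivity
    linarith
  · have hx0 : 0 < x := ht.trans h
    have h2 : x ^ δ = x ^ (δ - 1) * x := by
      rw [← Real.rpow_add_one hx0.ne']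
      congr 1
      ring
    have h3 : x ^ (δ - 1) ≤ t ^ (δ - 1) :=
      Real.rpow_le_rpow_of_nonpos ht h.le (by linarith)
    have h4 := mul_le_mul_of_nonneg_right h3 hx
    have h5 : 0 ≤ t ^ δ := by positivity
    linarith

lemma five {n x a b c ta tb tc δ : ℝ} (hn : 0 ≤ n) (h : n ≤ 1 + x + (a + (b + c))) (hx : 0 ≤ x)
    (ha : 0 ≤ a) (hb : 0 ≤ b) (hc : 0 ≤ c) (hta : 0 < ta) (htb : 0 < tb) (htc : 0 < tc)
    (h0 : 0 < δ) (h1 : δ ≤ 1) :
    n ^ δ ≤ 2 + x + ((ta ^ (δ - 1) * a + ta ^ δ) + ((tb ^ (δ - 1) * b + tb ^ δ) +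
      (tc ^ (δ - 1) * c + tc ^ δ))) := by
  have e1 : n ^ δ ≤ 1 ^ δ + x ^ δ + (a ^ δ + (b ^ δ + c ^ δ)) := by
    refine (Real.rpow_le_rpow hn h h0.le).trans ?_
    refine (Real.rpow_add_le_add_rpow (by linarith) (by linarith) h0.le h1).trans ?_
    refine add_le_add (Real.rpow_add_le_add_rpow (by norm_num) hx h0.le h1) ?_
    refine (Real.rpow_add_le_add_rpow ha (by linarith) h0.le h1).trans ?_
    exact add_le_add le_rfl (Real.rpow_add_le_add_rpow hb hc h0.le h1)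
  have e2 := pow_split hx one_pos h0 h1
  rw [Real.one_rpow, Real.one_rpow, one_mul] at e2
  have b0 := pow_split ha hta h0 h1
  have b1 := pow_split hb htb h0 h1
  have b2 := pow_split hc htc h0 h1
  rw [Real.one_rpow] at e1
  linarith

lemma dv_one {p : ℕ} (hp : p.Prime) : dv p ((1 : ℕ) : ℤ) = false := by
  unfold dv
  rw [decide_eq_false_iff_not]
  intro h
  exact hp.one_lt.ne' (Nat.dvd_one.1 (by exact_mod_cast h))

lemma sgn_one (p : ℕ) : sgn p ((1 : ℕ) : ℤ) = false := by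
  unfold sgn sg0
  rw [decide_eq_false_iff_not]
  have : ((1 : ℕ) : ℤ) / ((Int.gcd ((1 : ℕ) : ℤ) (p : ℤ) : ℕ) : ℤ) = 1 := by
    rw [Nat.cast_one, Int.gcd_comm, Int.gcd_one_right]
    norm_num
  rw [this, jacobiSym.one_left]
  norm_num

lemma dv_dr {p : ℕ} (hp : p.Prime) (c : Fin 4) (m : ℕ) : dv p ((dr c m 0 : ℕ) : ℤ) =
    ((ec c).1 && dv p (m : ℤ)) ∧ dv p ((dr c m 1 : ℕ) : ℤ) = ((ec c).2 && dv p (m : ℤ)) := by
  unfold dr
  constructor
  · cases h : (ec c).1
    · simpa [h] using dv_one hp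
    · simp [h]
  · cases h : (ec c).2
    · simpa [h] using dv_one hp
    · simp [h]

lemma sgn_dr (p : ℕ) (c : Fin 4) (m : ℕ) : sgn p ((dr c m 0 : ℕ) : ℤ) =
    ((ec c).1 && sgn p (m : ℤ)) ∧ sgn p ((dr c m 1 : ℕ) : ℤ) = ((ec c).2 && sgn p (m : ℤ)) := by
  unfold dr
  constructor
  · cases h : (ec c).1
    · simpa [h] using sgn_one p
    · simp [h]
  · cases h : (ec c).2
    · simpa [h] using sgn_one p
    · simp [h]

/-- the sums over the types -/
lemma prod_types (s : ℕ) (W : ℕ → ℕ × Bool → ℝ) :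
    ∑ τ ∈ TS D G0 G1 s, ∏ p ∈ s.primeFactors, W p (ex s τ p) =
      ∏ p ∈ s.primeFactors, ∑ y ∈ Ty D G0 G1 p, W p y := by
  unfold TS
  have h1 : ∏ p ∈ s.primeFactors, ∑ y ∈ Ty D G0 G1 p, W p y =
      ∏ p : s.primeFactors, ∑ y ∈ Ty D G0 G1 p.1, W p.1 y :=
    (prod_coe_sort s.primeFactors (fun p => ∑ y ∈ Ty D G0 G1 p, W p y)).symm
  rw [h1, prod_univ_sum]
  refine sum_congr rfl fun τ _ => ?_
  rw [← prod_coe_sort s.primeFactors (fun p => W p (ex s τ p))]
  refine prod_congr rfl fun p _ => ?_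
  unfold ex
  rw [dif_pos p.2]

open Classical in
/-- **the average of the local counts** -/
theorem avg_dec {δ : ℝ} (h0 : 0 < δ) (h1 : δ ≤ 1) (hz : Gd (PQ D G0 G1) z) {y s : ℕ}
    (hs : s ∣ PP z y) :
    GS D G0 G1 δ s * gm (br (PQ D G0 G1)) s ≤ 2 * gm (br (PQ D G0 G1)) s +
      (∑ d ∈ Fintype.piFinset (fun _ : Fin 2 => s.divisors),
        (if okD Q2 s d then ∏ p ∈ s.primeFactors, T2 D G0 G1 p (fun l => dv p (d l))
          (fun l => sgn p (d l)) else 0)) +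
      ∑ c ∈ ({0, 1, 2} : Finset (Fin 4)),
        (∑ d ∈ Fintype.piFinset (fun _ : Fin 1 => s.divisors),
          (if okD Q1 s d then ∏ p ∈ s.primeFactors, T1 D G0 G1 c δ p (fun l => dv p (d l))
            (fun l => sgn p (d l)) else 0) + gm (E1 D G0 G1 c δ) s) := by
  set f := PQ D G0 G1 with hf
  have hprime : ∀ p ∈ s.primeFactors, p.Prime ∧ z < p := fun p hp => by
    have hpp := Nat.prime_of_mem_primeFactors hp
    exact ⟨hpp, (mem_PS.1 ((prime_dvd_PP hpp).1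
      ((Nat.dvd_of_mem_primeFactors hp).trans hs))).1.1⟩
  have hiv : ∀ p ∈ s.primeFactors, 0 < iv D G0 G1 p := by
    intro p hp
    obtain ⟨hpp, hzp⟩ := hprime p hp
    have hb := hz.big
    unfold iv
    rw [← hf]
    have h3 : (2 * f.natDegree + 2 : ℝ) ≤ p := by exact_mod_cast (by omega : 2 * f.natDegree + 2 ≤ p)
    have h4 : (0 : ℝ) ≤ f.natDegree := Nat.cast_nonneg _
    apply div_pos one_pos
    linarith
  set c0 : ℝ := (1 / 2) ^ s.primeFactors.card * gm (fun p => 1 / ((p : ℝ) - f.natDegree)) s with hc0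
  have hc0' : c0 = ∏ p ∈ s.primeFactors, iv D G0 G1 p / 2 := by
    rw [hc0]
    unfold gm iv
    rw [← prod_const, ← prod_mul_distrib]
    exact prod_congr rfl fun p _ => by rw [← hf]; ring
  have hc00 : 0 ≤ c0 := by
    rw [hc0']
    exact prod_nonneg fun p hp => by have := hiv p hp; positivity
  -- the sums over the types with the constant
  have hpt : ∀ W : ℕ → ℕ × Bool → ℝ, c0 * ∑ τ ∈ TS D G0 G1 s, ∏ p ∈ s.primeFactors,
      W p (ex s τ p) = ∏ p ∈ s.primeFactors, (iv D G0 G1 p / 2 * ∑ y ∈ Ty D G0 G1 p, W p y) := by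
    intro W
    rw [prod_types, hc0', ← prod_mul_distrib]
  set W : Fin 4 → (s.primeFactors → ℕ × Bool) → ℝ :=
    fun c τ => ∏ p ∈ s.primeFactors, wt D G0 G1 c p (ex s τ p) with hW
  have hWpos : ∀ c τ, 0 < W c τ := fun c τ => prod_pos fun p _ => wt_pos c p _
  have hWpow : ∀ c τ (x : ℝ), (W c τ) ^ x =
      ∏ p ∈ s.primeFactors, (wt D G0 G1 c p (ex s τ p)) ^ x := fun c τ x =>
    (Real.finsetProd_rpow _ _ (fun p _ => (wt_pos c p _).le) x).symm
  set A2 : (s.primeFactors → ℕ × Bool) → ℝ := fun τ =>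
    ∑ d ∈ Fintype.piFinset (fun _ : Fin 2 => s.divisors),
      (if okD Q2 s d then In D G0 G1 s (ex s τ) d else 0) with hA2
  set A1 : Fin 4 → (s.primeFactors → ℕ × Bool) → ℝ := fun c τ =>
    ∑ d ∈ Fintype.piFinset (fun _ : Fin 1 => s.divisors),
      (if okD Q1 s d then In D G0 G1 s (ex s τ) (dr c (d 0)) else 0) with hA1
  have hA20 : ∀ τ, 0 ≤ A2 τ := fun τ => sum_nonneg fun d _ => by
    split_ifs
    · exact In_nonneg _ _ _
    · exact le_rfl
  have hA10 : ∀ c τ, 0 ≤ A1 c τ := fun c τ => sum_nonneg fun d _ => by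
    split_ifs
    · exact In_nonneg _ _ _
    · exact le_rfl
  have hpw : ∀ τ, (NL s (LT D G0 G1 (ex s τ)) : ℝ) ^ δ ≤ 2 + A2 τ +
      ∑ c ∈ ({0, 1, 2} : Finset (Fin 4)), ((W c τ) ^ (δ - 1) * A1 c τ + (W c τ) ^ δ) := by
    intro τ
    have h2 := dec (D := D) (G0 := G0) (G1 := G1) hs (ex s τ)
    have hsum : ∀ g : Fin 4 → ℝ, ∑ c ∈ ({0, 1, 2} : Finset (Fin 4)), g c = g 0 + (g 1 + g 2) := by
      intro g
      rw [sum_insert (by decide), sum_insert (by decide), sum_singleton]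
    rw [hsum] at h2 ⊢
    exact five (Nat.cast_nonneg _) h2 (hA20 τ) (hA10 0 τ) (hA10 1 τ) (hA10 2 τ) (hWpos 0 τ)
      (hWpos 1 τ) (hWpos 2 τ) h0 h1
  rw [GS_mul hz, ← hf, ← hc0]
  refine (mul_le_mul_of_nonneg_left (sum_le_sum fun τ _ => hpw τ) hc00).trans (le_of_eq ?_)
  rw [sum_add_distrib, sum_add_distrib, mul_add, mul_add]
  congr 1
  · congr 1
    · have h2 := hpt (fun _ _ => 1)
      simp only [prod_const_one, sum_const, nsmul_eq_mul, mul_one] at h2 ⊢
      rw [← mul_assoc, h2, mul_comm]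
      congr 1
      unfold gm
      refine prod_congr rfl fun p _ => ?_
      rw [card_Ty]
      unfold br iv
      rw [← hf]
      push_cast
      ring
    · rw [hA2]
      simp only
      rw [sum_comm, mul_sum]
      refine sum_congr rfl fun d _ => ?_
      by_cases hok : okD Q2 s d
      · simp only [hok, if_true]
        unfold In
        rw [hpt (fun p y => ind (Lp D G0 G1 p y (dv p (d 0)) (dv p (d 1)) (sgn p (d 0))
          (sgn p (d 1))))]
        rfl
      · simp only [hok, if_false, sum_const_zero, mul_zero]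
  · rw [sum_comm, mul_sum]
    refine sum_congr rfl fun c _ => ?_
    rw [sum_add_distrib, mul_add]
    congr 1
    · rw [hA1]
      simp only [mul_sum]
      rw [sum_comm]
      refine sum_congr rfl fun d _ => ?_
      by_cases hok : okD Q1 s d
      · simp only [hok, if_true]
        have h2 := hpt (fun p y => (wt D G0 G1 c p y) ^ (δ - 1) *
          ind (Lp D G0 G1 p y ((ec c).1 && dv p (d 0)) ((ec c).2 && dv p (d 0))
            ((ec c).1 && sgn p (d 0)) ((ec c).2 && sgn p (d 0))))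
        rw [← mul_sum]
        refine Eq.trans ?_ h2
        congr 1
        refine sum_congr rfl fun τ _ => ?_
        rw [hWpow, prod_mul_distrib]
        congr 1
        unfold In
        refine prod_congr rfl fun p hp => ?_
        obtain ⟨hpp, _⟩ := hprime p hp
        rw [(dv_dr hpp c (d 0)).1, (dv_dr hpp c (d 0)).2, (sgn_dr p c (d 0)).1,
          (sgn_dr p c (d 0)).2]
      · simp only [hok, if_false, sum_const_zero, mul_zero]
    · have h2 := hpt (fun p y => (wt D G0 G1 c p y) ^ δ)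
      refine Eq.trans ?_ h2
      congr 1
      exact sum_congr rfl fun τ _ => hWpow c τ δ

end Run7.h69.FM
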