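import Mathlib
import Pool.Agent.N793.CF.DB
import Pool.Agent.H921R2.TatePole.Homs
import Pool.Agent.H921R2.TatePole.Tensor
import Pool.Agent.H921R2.TatePole.Radical

/-!
# Quadratic extensions: homomorphisms to the prime fields and the discriminant
-/

set_option autoImplicit false
set_option linter.unusedSectionVars false

open NumberField Polynomial

namespace Run7.h69.QE

open Pool.Agent.H921R2.TatePole (extend_hom restrict_injective exists_int_mul)

/-- primes that divide `β d` exactly once divide the discriminant if `β d` is a square -/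
theorem dvd_discr {K : Type} [Field K] [NumberField K] {p : ℕ} (hp : p.Prime) (z β γ : 𝓞 K)
    (m n : ℤ) (hz : z ^ 2 = β * (((p : ℤ) * m : ℤ) : 𝓞 K)) (hγ : γ * β = (n : 𝓞 K))
    (hm : ¬ (p : ℤ) ∣ m) (hn : ¬ (p : ℤ) ∣ n) :
    (p : ℤ) ∣ NumberField.discr K := by
  have hpZ : _root_.Prime (p : ℤ) := Nat.prime_iff_prime_int.mp hp
  by_contra h
  rw [NumberField.not_dvd_discr_iff_forall_liesOver K (𝓞 K) hpZ] at h
  have hmax : (Ideal.span {(p : ℤ)}).IsMaximal :=
    PrincipalIdealRing.isMaximal_of_irreducible hpZ.irreducible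
  obtain ⟨P, hP, hPl⟩ :=
    Ideal.exists_maximal_ideal_liesOver_of_isIntegral (S := 𝓞 K) (Ideal.span {(p : ℤ)})
  have hu := h P hP hPl
  have hspan : P.under ℤ = Ideal.span {(p : ℤ)} := hPl.over.symm
  have hle : Ideal.map (algebraMap ℤ (𝓞 K)) (Ideal.span {(p : ℤ)}) ≤ P := by
    rw [← hspan]; exact Ideal.map_comap_le
  have hPne : P ≠ ⊥ := by
    refine Ideal.ne_bot_of_liesOver_of_ne_bot (p := Ideal.span {(p : ℤ)}) ?_ P
    rw [Ne, Ideal.span_singleton_eq_bot]
    exact hpZ.ne_zero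
  let := Localization.AtPrime.algebraOfLiesOver (Ideal.span {(p : ℤ)}) P
  have hmap := ((Algebra.isUnramifiedAt_iff_map_eq ℤ (Ideal.span {(p : ℤ)}) P).mp hu).2
  have he := (Ideal.IsDedekindDomain.ramificationIdx'_eq_one_iff hPne hle).mpr hmap
  have hmem : ((p : ℤ) : 𝓞 K) ∈ P := by
    have : (p : ℤ) ∈ P.under ℤ := by rw [hspan]; exact Ideal.mem_span_singleton_self _
    rw [Ideal.mem_comap] at this
    simpa using this
  have hzP : z ∈ P := by
    refine hP.isPrime.mem_of_pow_mem 2 ?_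
    rw [hz]
    push_cast
    exact Ideal.mul_mem_left _ _ (Ideal.mul_mem_right _ _ (by simpa using hmem))
  have hz2 : (((p : ℤ) * (n * m) : ℤ) : 𝓞 K) ∈ P ^ 2 := by
    have h1 : (((p : ℤ) * (n * m) : ℤ) : 𝓞 K) = γ * z ^ 2 := by
      rw [hz]
      calc (((p : ℤ) * (n * m) : ℤ) : 𝓞 K) = (n : 𝓞 K) * (((p : ℤ) * m : ℤ) : 𝓞 K) := by
            push_cast
            ring
        _ = γ * (β * (((p : ℤ) * m : ℤ) : 𝓞 K)) := by rw [← hγ, mul_assoc]
    rw [h1]
    exact Ideal.mul_mem_left _ _ (Ideal.pow_mem_pow hzP 2)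
  have hnm : ¬ (p : ℤ) ∣ n * m := fun h => (hpZ.dvd_or_dvd h).elim hn hm
  obtain ⟨a, b, hab⟩ : IsCoprime (p : ℤ) (n * m) := (hpZ.coprime_iff_not_dvd).mpr hnm
  have hp2 : ((p : ℤ) : 𝓞 K) ∈ P ^ 2 := by
    have h1 : (p : ℤ) = a * (p : ℤ) ^ 2 + b * ((p : ℤ) * (n * m)) := by
      have : (p : ℤ) = (a * p + b * (n * m)) * p := by rw [hab, one_mul]
      linarith
    have h2 : ((p : ℤ) : 𝓞 K) = (a : 𝓞 K) * (((p : ℤ) : 𝓞 K)) ^ 2 +
        (b : 𝓞 K) * ((((p : ℤ) * (n * m) : ℤ)) : 𝓞 K) := by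
      conv_lhs => rw [h1]
      push_cast
      ring
    rw [h2]
    exact Ideal.add_mem _ (Ideal.mul_mem_left _ _ (Ideal.pow_mem_pow hmem 2))
      (Ideal.mul_mem_left _ _ hz2)
  refine (Ideal.ramificationIdx'_ne_one_iff hle).mpr ?_ he
  rw [Ideal.map_span, Set.image_singleton, Ideal.span_singleton_le_iff_mem]
  simpa using hp2

/-- a multiple which is an integer -/
lemma exists_mul {K : Type} [Field K] [NumberField K] {β : 𝓞 K} (hβ : β ≠ 0) :
    ∃ (γ : 𝓞 K) (n : ℤ), n ≠ 0 ∧ γ * β = (n : 𝓞 K) := by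
  have hβK : (β : K) ≠ 0 := fun h => hβ (RingOfIntegers.coe_eq_zero_iff.1 h)
  obtain ⟨n, hn, γ, hγ⟩ := exists_int_mul (K := K) ((β : K)⁻¹)
  refine ⟨γ, n, hn, ?_⟩
  apply RingOfIntegers.ext
  refine (map_mul (algebraMap (𝓞 K) K) γ β).trans ?_
  have h1 : algebraMap (𝓞 K) K γ = (n : K) * (β : K)⁻¹ := hγ
  rw [h1, mul_assoc]
  have h2 : (β : K)⁻¹ * algebraMap (𝓞 K) K β = 1 := inv_mul_cancel₀ hβK
  rw [h2, mul_one]
  simp

/-- not a square -/
theorem nonsq {K : Type} [Field K] [NumberField K] {β : 𝓞 K} (hβ : β ≠ 0) : ∃ z0 : ℕ,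
    ∀ (d : ℤ) (p : ℕ), p.Prime → z0 < p → (p : ℤ) ∣ d → ¬ (p : ℤ) ^ 2 ∣ d →
      ¬ ∃ x : K, x ^ 2 = (β : K) * d := by
  obtain ⟨γ, n, hn, hγ⟩ := exists_mul hβ
  refine ⟨n.natAbs + (discr K).natAbs, fun d p hp hpz hpd hpd2 => ?_⟩
  rintro ⟨x, hx⟩
  have hint : IsIntegral ℤ x := by
    apply IsIntegral.of_pow (n := 2) (by norm_num)
    rw [hx]
    exact (RingOfIntegers.isIntegral_coe β).mul (isIntegral_intCast d)
  obtain ⟨m, rfl⟩ := hpd
  have h1 : (⟨x, hint⟩ : 𝓞 K) ^ 2 = β * (((p : ℤ) * m : ℤ) : 𝓞 K) := by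
    apply RingOfIntegers.ext
    refine (map_pow (algebraMap (𝓞 K) K) _ 2).trans (hx.trans ?_)
    refine Eq.trans ?_ (map_mul (algebraMap (𝓞 K) K) β _).symm
    rw [map_intCast]
  have hbig : ∀ c : ℤ, c ≠ 0 → c.natAbs < p → ¬ (p : ℤ) ∣ c := by
    intro c hc hcp hd
    have := Nat.le_of_dvd (Int.natAbs_pos.2 hc) (Int.natCast_dvd.1 hd)
    omega
  have h2 := dvd_discr hp _ β γ m n h1 hγ (fun h => hpd2 (by
    rw [sq]; exact mul_dvd_mul_left _ h)) (hbig n hn (by omega))
  exact hbig _ (discr_ne_zero K) (by omega) h2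

/-- homomorphisms of a quadratic extension -/
theorem hom_card {A B : Type} [CommRing A] [CommRing B] (j : A →+* B) (α : A) (θ : B)
    (hθ : θ ^ 2 = j α) {N : ℤ} (hN : ∀ b : B, ∃ a a' : A, j a + j a' * θ = (N : B) * b)
    (hinj : ∀ a a' : A, j a + j a' * θ = 0 → a = 0 ∧ a' = 0) (l : ℕ) [Fact l.Prime]
    (hl : ¬ (l : ℤ) ∣ N) :
    Nat.card (B →+* ZMod l) = Nat.card {q : (A →+* ZMod l) × ZMod l // q.2 ^ 2 = q.1 α} := by
  classical
  set f : A[X] →+* B := eval₂RingHom j θ with hf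
  have hfs : ∀ b : B, ∃ a : A[X], f a = (N : B) * b := by
    intro b
    obtain ⟨a, a', h⟩ := hN b
    refine ⟨C a + C a' * X, ?_⟩
    rw [hf, coe_eval₂RingHom, eval₂_add, eval₂_mul, eval₂_C, eval₂_C, eval₂_X]
    exact h
  refine Nat.card_congr (Equiv.ofBijective (fun ψ => ⟨(ψ.comp j, ψ θ), ?_⟩) ⟨?_, ?_⟩)
  · show (ψ θ) ^ 2 = (ψ.comp j) α
    rw [← map_pow, hθ]
    rfl
  · intro ψ ψ' h
    have h1 : ψ.comp j = ψ'.comp j := congrArg (fun q => q.1.1) h
    have h2 : ψ θ = ψ' θ := congrArg (fun q => q.1.2) h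
    refine restrict_injective f hfs hl ?_
    apply Polynomial.ringHom_ext
    · intro a
      have := RingHom.congr_fun h1 a
      simpa [hf] using this
    · simpa [hf] using h2
  · rintro ⟨⟨φ, s⟩, hs⟩
    simp only at hs
    have hker : RingHom.ker f ≤ RingHom.ker (eval₂RingHom φ s) := by
      intro q hq
      rw [RingHom.mem_ker] at hq ⊢
      have hmon : (X ^ 2 - C α : A[X]).Monic := monic_X_pow_sub_C α (by norm_num)
      rcases subsingleton_or_nontrivial A with hA | hA
      · have : q = 0 := Subsingleton.elim _ _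
        rw [this, map_zero]
      have h1 := modByMonic_add_div q (X ^ 2 - C α : A[X])
      set r := q %ₘ (X ^ 2 - C α) with hr
      have hdeg : r.degree < 2 := by
        have h2 := degree_modByMonic_lt q hmon
        rwa [degree_X_pow_sub_C (by norm_num) α] at h2
      have hr2 : r = C (r.coeff 0) + C (r.coeff 1) * X := by
        have h3 : r.degree ≤ 1 := by
          rw [degree_le_iff_coeff_zero]
          intro m hm
          apply coeff_eq_zero_of_degree_lt
          refine lt_of_lt_of_le hdeg ?_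
          have h9 : 1 < m := by exact_mod_cast hm
          exact_mod_cast (by omega : 2 ≤ m)
        have h4 := eq_X_add_C_of_degree_le_one h3
        rw [add_comm]
        exact h4
      have hf1 : f (X ^ 2 - C α) = 0 := by
        rw [hf, coe_eval₂RingHom, eval₂_sub, eval₂_pow, eval₂_X, eval₂_C, hθ, sub_self]
      have hφ1 : eval₂RingHom φ s (X ^ 2 - C α) = 0 := by
        rw [coe_eval₂RingHom, eval₂_sub, eval₂_pow, eval₂_X, eval₂_C, hs, sub_self]
      have hfr : f r = 0 := by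
        have : f q = f r := by
          rw [← h1, map_add, map_mul, hf1, zero_mul, add_zero]
        rw [← this, hq]
      have hr0 : r = 0 := by
        rw [hr2, hf, coe_eval₂RingHom, eval₂_add, eval₂_mul, eval₂_C, eval₂_C, eval₂_X] at hfr
        obtain ⟨h5, h6⟩ := hinj _ _ hfr
        rw [hr2, h5, h6]
        simp
      rw [← h1, hr0, zero_add, map_mul, hφ1, zero_mul]
    obtain ⟨ψ, hψ⟩ := extend_hom f hfs hl (eval₂RingHom φ s) hker
    refine ⟨ψ, ?_⟩
    apply Subtype.ext
    apply Prod.ext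
    · refine RingHom.ext fun a => ?_
      have := RingHom.congr_fun hψ (C a)
      simpa [hf] using this
    · have := RingHom.congr_fun hψ X
      simpa [hf] using this

lemma basis_zero {R : Type} [CommRing R] (a b : R) : (QuadraticAlgebra.basis a b) 0 = 1 := by
  simp only [QuadraticAlgebra.basis, Module.Basis.coe_ofEquivFun]
  ext
  · simp
    rfl
  · simp
    rfl

lemma basis_one {R : Type} [CommRing R] (a b : R) :
    (QuadraticAlgebra.basis a b) 1 = QuadraticAlgebra.omega := by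
  simp only [QuadraticAlgebra.basis, Module.Basis.coe_ofEquivFun]
  ext <;> simp

lemma q1 {K : Type} [Field K] (a : K) (b : QuadraticAlgebra K a 0) :
    algebraMap K (QuadraticAlgebra K a 0) (2 * b.re) = b + star b := by
  ext
  · simp [-map_mul, QuadraticAlgebra.algebraMap_re]
    ring
  · simp [-map_mul]

lemma q2 {K : Type} [Field K] (a : K) (b : QuadraticAlgebra K a 0) :
    algebraMap K (QuadraticAlgebra K a 0) (2 * a * b.im) =
      (b - star b) * QuadraticAlgebra.omega := by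
  ext
  · simp [-map_mul]
    ring
  · simp [-map_mul]

lemma q3 {K : Type} [Field K] (a : K) (x y : K) :
    algebraMap K (QuadraticAlgebra K a 0) x +
      algebraMap K (QuadraticAlgebra K a 0) y * QuadraticAlgebra.omega = ⟨x, y⟩ := by
  ext <;> simp

lemma q4 {K : Type} [Field K] (a : K) (z : ℤ) (b : QuadraticAlgebra K a 0) :
    (z : QuadraticAlgebra K a 0) * b = ⟨z * b.re, z * b.im⟩ := by
  ext <;> simp

/-- **quadratic extensions** -/
theorem quad (K : Type) [Field K] [NumberField K] (β : 𝓞 K) (hβ : β ≠ 0) :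
    ∃ (C : ℝ) (N : ℤ), 0 ≤ C ∧ N ≠ 0 ∧ ∀ d : ℤ, d ≠ 0 → (¬ ∃ x : K, x ^ 2 = (β : K) * d) →
      ∃ (E : Type) (_ : Field E) (_ : NumberField E),
        Module.finrank ℚ E = 2 * Module.finrank ℚ K ∧
        |((discr E : ℤ) : ℝ)| ≤ C * |(d : ℝ)| ^ (2 * Module.finrank ℚ K) ∧
        ∀ (l : ℕ) [Fact l.Prime], ¬ (l : ℤ) ∣ N * d → Nat.card (𝓞 E →+* ZMod l) =
          Nat.card {q : (𝓞 K →+* ZMod l) × ZMod l // q.2 ^ 2 = q.1 (β * (d : 𝓞 K))} := by
  classical
  obtain ⟨γ, n, hn, hγ⟩ := exists_mul hβ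
  set ι := Module.Free.ChooseBasisIndex ℤ (𝓞 K) with hι
  set g := Module.finrank ℚ K with hg
  -- a bound for the conjugates
  obtain ⟨M, hM1, hMb, hMβ⟩ : ∃ M : ℝ, 1 ≤ M ∧
      (∀ (τ : K →+* ℂ) (i : ι), ‖τ (integralBasis K i)‖ ≤ M) ∧ ∀ τ : K →+* ℂ, ‖τ (β : K)‖ ≤ M := by
    refine ⟨1 + ∑ τ : K →+* ℂ, (∑ i : ι, ‖τ (integralBasis K i)‖ + ‖τ (β : K)‖), ?_, ?_, ?_⟩
    · have : 0 ≤ ∑ τ : K →+* ℂ, (∑ i : ι, ‖τ (integralBasis K i)‖ + ‖τ (β : K)‖) := by positivity
      linarith
    · intro τ i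
      have h1 : (∑ i : ι, ‖τ (integralBasis K i)‖ + ‖τ (β : K)‖) ≤
          ∑ τ : K →+* ℂ, (∑ i : ι, ‖τ (integralBasis K i)‖ + ‖τ (β : K)‖) :=
        Finset.single_le_sum (f := fun τ : K →+* ℂ =>
        (∑ i : ι, ‖τ (integralBasis K i)‖ + ‖τ (β : K)‖)) (fun τ _ => by positivity)
        (Finset.mem_univ τ)
      have h2 : ‖τ (integralBasis K i)‖ ≤ ∑ i : ι, ‖τ (integralBasis K i)‖ :=
        Finset.single_le_sum (f := fun i : ι => ‖τ (integralBasis K i)‖)
        (fun i _ => norm_nonneg _) (Finset.mem_univ i)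
      have h3 := norm_nonneg (τ (β : K))
      linarith
    · intro τ
      have h1 : (∑ i : ι, ‖τ (integralBasis K i)‖ + ‖τ (β : K)‖) ≤
          ∑ τ : K →+* ℂ, (∑ i : ι, ‖τ (integralBasis K i)‖ + ‖τ (β : K)‖) :=
        Finset.single_le_sum (f := fun τ : K →+* ℂ =>
        (∑ i : ι, ‖τ (integralBasis K i)‖ + ‖τ (β : K)‖)) (fun τ _ => by positivity)
        (Finset.mem_univ τ)
      have h2 : 0 ≤ ∑ i : ι, ‖τ (integralBasis K i)‖ := by positivity
      linarith
  refine ⟨((Nat.factorial (g * 2) : ℝ) * (M ^ g * (M * M) ^ g)) ^ 2, 2 * n, by positivity,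
    mul_ne_zero two_ne_zero hn, fun d hd hns => ?_⟩
  set a : K := (β : K) * d with ha
  have hβK : (β : K) ≠ 0 := fun h => hβ (RingOfIntegers.coe_eq_zero_iff.1 h)
  have ha0 : a ≠ 0 := mul_ne_zero hβK (by exact_mod_cast hd)
  have hfact : Fact (∀ r : K, r ^ 2 ≠ a + 0 * r) :=
    ⟨fun r h => hns ⟨r, by rw [h, zero_mul, add_zero]⟩⟩
  let E := QuadraticAlgebra K a 0
  have hNF : NumberField E := NumberField.of_module_finite K E
  have hω : (QuadraticAlgebra.omega : E) ^ 2 = algebraMap K E a := by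
    rw [sq, QuadraticAlgebra.omega_mul_omega_eq_algebraMap, map_zero, zero_mul, add_zero]
  have hai : IsIntegral ℤ a := (RingOfIntegers.isIntegral_coe β).mul (isIntegral_intCast d)
  have hωi : IsIntegral ℤ (QuadraticAlgebra.omega : E) := by
    apply IsIntegral.of_pow (n := 2) (by norm_num)
    rw [hω]
    exact hai.map (algebraMap K E).toIntAlgHom
  refine ⟨E, inferInstance, hNF, ?_, ?_, ?_⟩
  · have h1 := Module.finrank_mul_finrank ℚ K E
    rw [QuadraticAlgebra.finrank_eq_two] at h1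
    rw [← h1, mul_comm]
  · -- the discriminant
    obtain ⟨b, hb⟩ : ∃ b : Module.Basis (ι × Fin 2) ℚ E,
        b = (integralBasis K).smulTower (QuadraticAlgebra.basis a 0) := ⟨_, rfl⟩
    have hb0 : ∀ i, b (i, 0) = algebraMap K E (integralBasis K i) := by
      intro i
      rw [hb, Module.Basis.smulTower_apply, basis_zero, Algebra.smul_def, mul_one]
    have hb1 : ∀ i, b (i, 1) = algebraMap K E (integralBasis K i) * QuadraticAlgebra.omega := by
      intro i
      rw [hb, Module.Basis.smulTower_apply, basis_one, Algebra.smul_def]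
    have hibi : ∀ i, IsIntegral ℤ (algebraMap K E (integralBasis K i)) := by
      intro i
      rw [integralBasis_apply]
      exact (RingOfIntegers.isIntegral_coe _).map (algebraMap K E).toIntAlgHom
    have hbint : ∀ k, IsIntegral ℤ (b k) := by
      rintro ⟨i, k⟩
      fin_cases k
      · show IsIntegral ℤ (b (i, 0))
        rw [hb0]
        exact hibi i
      · show IsIntegral ℤ (b (i, 1))
        rw [hb1]
        exact (hibi i).mul hωi
    have h1 := Pool.Agent.N793.CF.discr_le b hbint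
    have hd1 : 1 ≤ |(d : ℝ)| := by
      have : (1 : ℤ) ≤ |d| := Int.one_le_abs hd
      exact_mod_cast this
    have h2 := Pool.Agent.N793.CF.discr_bound b (fun k => M * (M * |(d : ℝ)|) ^ (k.2 : ℕ)) (by
      intro τ k
      obtain ⟨i, k⟩ := k
      fin_cases k
      · show ‖τ (b (i, 0))‖ ≤ M * (M * |(d : ℝ)|) ^ 0
        rw [hb0, pow_zero, mul_one]
        exact hMb (τ.comp (algebraMap K E)) i
      · show ‖τ (b (i, 1))‖ ≤ M * (M * |(d : ℝ)|) ^ 1
        rw [hb1, map_mul, norm_mul, pow_one]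
        have h3 : ‖τ (QuadraticAlgebra.omega : E)‖ ^ 2 ≤ (M * |(d : ℝ)|) ^ 2 := by
          rw [← norm_pow, ← map_pow, hω]
          have h4 : ‖τ (algebraMap K E ((β : K) * d))‖ = ‖(τ.comp (algebraMap K E)) (β : K)‖ *
              |(d : ℝ)| := by
            rw [map_mul, map_mul, norm_mul, map_intCast, map_intCast, Complex.norm_intCast]
            rfl
          refine (le_of_eq h4).trans ?_
          have h5 := hMβ (τ.comp (algebraMap K E))
          have h6 : 1 ≤ M * |(d : ℝ)| := by nlinarith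
          calc ‖(τ.comp (algebraMap K E)) (β : K)‖ * |(d : ℝ)| ≤ M * |(d : ℝ)| :=
                mul_le_mul_of_nonneg_right h5 (abs_nonneg _)
            _ ≤ _ := by nlinarith
        have h7 := abs_le_of_sq_le_sq' h3 (by positivity)
        exact mul_le_mul (hMb (τ.comp (algebraMap K E)) i) h7.2 (norm_nonneg _) (by linarith))
    have hcard : Fintype.card ι = g := by
      rw [hg, Module.finrank_eq_card_basis (integralBasis K)]
    have h3 : ∏ k : ι × Fin 2, (M * (M * |(d : ℝ)|) ^ (k.2 : ℕ)) =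
        M ^ g * (M * M) ^ g * |(d : ℝ)| ^ g := by
      rw [Fintype.prod_prod_type]
      simp only [Fin.prod_univ_two, Fin.val_zero, pow_zero, mul_one, Fin.val_one, pow_one]
      rw [Finset.prod_const, Finset.card_univ, hcard]
      ring
    rw [h3, Fintype.card_prod, Fintype.card_fin, hcard] at h2
    have h4 : |((discr E : ℤ) : ℝ)| ≤ ((|Algebra.discr ℚ b| : ℚ) : ℝ) := by
      have h5 := (Rat.cast_le (K := ℝ)).2 h1
      rw [Rat.cast_abs, Rat.cast_intCast] at h5
      exact h5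
    refine h4.trans (h2.trans (le_of_eq ?_))
    ring
  · intro l hl hld
    have hstar : ∀ b : E, IsIntegral ℤ b → IsIntegral ℤ (star b) := by
      intro b hb
      exact hb.map (starRingEnd E).toIntAlgHom
    have halg : ∀ c : K, IsIntegral ℤ (algebraMap K E c) → IsIntegral ℤ c := by
      intro c hc
      exact (isIntegral_algebraMap_iff (algebraMap K E).injective).1 hc
    have hre : ∀ b : 𝓞 E, IsIntegral ℤ (2 * (b : E).re) := by
      intro b
      apply halg
      have h1 := (RingOfIntegers.isIntegral_coe b).add (hstar _ (RingOfIntegers.isIntegral_coe b))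
      have h2 : algebraMap K E (2 * (b : E).re) = (b : E) + star (b : E) := q1 a _
      rw [h2]
      exact h1
    have him : ∀ b : 𝓞 E, IsIntegral ℤ (2 * a * (b : E).im) := by
      intro b
      apply halg
      have h1 := ((RingOfIntegers.isIntegral_coe b).sub
        (hstar _ (RingOfIntegers.isIntegral_coe b))).mul hωi
      have h2 : algebraMap K E (2 * a * (b : E).im) =
          ((b : E) - star (b : E)) * QuadraticAlgebra.omega := q2 a _
      rw [h2]
      exact h1
    have hmain := hom_card (algebraMap (𝓞 K) (𝓞 E)) (β * (d : 𝓞 K))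
      (⟨QuadraticAlgebra.omega, hωi⟩ : 𝓞 E) (by
        apply RingOfIntegers.ext
        refine (map_pow (algebraMap (𝓞 E) E) _ 2).trans (hω.trans ?_)
        have h1 : algebraMap (𝓞 E) E (algebraMap (𝓞 K) (𝓞 E) (β * (d : 𝓞 K))) =
          algebraMap K E (algebraMap (𝓞 K) K (β * (d : 𝓞 K))) := rfl
        have h2 : a = algebraMap (𝓞 K) K (β * (d : 𝓞 K)) := by
          rw [map_mul (algebraMap (𝓞 K) K), map_intCast]
        exact (congrArg (algebraMap K E) h2).trans h1.symm) (N := 2 * n * d) (by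
        intro b
        refine ⟨(n : 𝓞 K) * (d : 𝓞 K) * ⟨_, hre b⟩, γ * ⟨_, him b⟩, ?_⟩
        apply RingOfIntegers.ext
        have h1 : algebraMap (𝓞 E) E (algebraMap (𝓞 K) (𝓞 E)
            ((n : 𝓞 K) * (d : 𝓞 K) * ⟨_, hre b⟩) + algebraMap (𝓞 K) (𝓞 E) (γ * ⟨_, him b⟩) *
            ⟨QuadraticAlgebra.omega, hωi⟩) =
            algebraMap K E (algebraMap (𝓞 K) K ((n : 𝓞 K) * (d : 𝓞 K) * ⟨_, hre b⟩)) +
            algebraMap K E (algebraMap (𝓞 K) K (γ * ⟨_, him b⟩)) * QuadraticAlgebra.omega := by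
          rw [map_add, map_mul (algebraMap (𝓞 E) E)]
          rfl
        have h2 : algebraMap (𝓞 E) E (((2 * n * d : ℤ) : 𝓞 E) * b) =
            ((2 * n * d : ℤ) : E) * (b : E) := by
          rw [map_mul, map_intCast]
        refine h1.trans ((q3 a _ _).trans (Eq.trans ?_ ((q4 a (2 * n * d) _).symm.trans h2.symm)))
        have hγK : algebraMap (𝓞 K) K γ * (β : K) = n := by
          have := congrArg (algebraMap (𝓞 K) K) hγ
          rw [map_mul, map_intCast] at this
          exact this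
        have e1 : algebraMap (𝓞 K) K ((n : 𝓞 K) * (d : 𝓞 K) * ⟨_, hre b⟩) =
            ((2 * n * d : ℤ) : K) * (b : E).re := by
          rw [map_mul, map_mul, map_intCast, map_intCast]
          show (n : K) * d * (2 * (b : E).re) = _
          push_cast
          ring
        have e2 : algebraMap (𝓞 K) K (γ * ⟨_, him b⟩) = ((2 * n * d : ℤ) : K) * (b : E).im := by
          rw [map_mul]
          show algebraMap (𝓞 K) K γ * (2 * ((β : K) * d) * (b : E).im) = _
          push_cast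
          rw [← hγK]
          ring
        rw [e1, e2]) (by
        intro a1 a2 h
        have h1 : algebraMap K E (algebraMap (𝓞 K) K a1) +
            algebraMap K E (algebraMap (𝓞 K) K a2) * QuadraticAlgebra.omega = 0 := by
          have h2 := congrArg (algebraMap (𝓞 E) E) h
          rw [map_add, map_mul, map_zero] at h2
          exact h2
        have h2 := (q3 a (algebraMap (𝓞 K) K a1) (algebraMap (𝓞 K) K a2)).symm.trans h1
        have h3 : algebraMap (𝓞 K) K a1 = 0 := congrArg QuadraticAlgebra.re h2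
        have h4 : algebraMap (𝓞 K) K a2 = 0 := congrArg QuadraticAlgebra.im h2
        exact ⟨RingOfIntegers.coe_eq_zero_iff.1 h3, RingOfIntegers.coe_eq_zero_iff.1 h4⟩) l hld
    exact hmain

end Run7.h69.QE
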