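import Mathlib
import Pool.Agent.Run7.h69.QE
import Pool.Agent.Run7.h69.UT1
import Pool.Agent.Run7.h69.CN

/-!
# The symbols of a polynomial at the roots of an irreducible polynomial modulo the primes
-/

set_option autoImplicit false
set_option linter.unusedSectionVars false

namespace Run7.h69.PK

open Finset Polynomial NumberField
open Pool.Agent.W262.RK (Jr)
open Pool.Agent.H474R2.PG (P2_ne_zero)

/-- the sum of the symbols of `κ` over the roots of `f` -/
noncomputable def xs (f κ : ℤ[X]) (p : ℕ) : ℝ := ∑ r ∈ CN.Rt f p, Jr (κ.eval (r : ℤ)) p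

/-- `κ` is a square modulo `f` -/
def SqM (f κ : ℤ[X]) : Prop :=
  ∃ q : ℚ[X], f.map (Int.castRingHom ℚ) ∣ κ.map (Int.castRingHom ℚ) - q ^ 2

/-- the scaled polynomial -/
noncomputable def scp (κ : ℤ[X]) (N0 : ℤ) : ℤ[X] :=
  ∑ i ∈ range (κ.natDegree + 1), C (κ.coeff i * N0 ^ (2 * κ.natDegree - i)) * X ^ i

lemma scp_eval {R : Type} [CommRing R] (g : ℤ →+* R) (x : R) (κ : ℤ[X]) (N0 : ℤ) :
    eval₂ g (g N0 * x) (scp κ N0) = g N0 ^ (2 * κ.natDegree) * eval₂ g x κ := by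
  unfold scp
  rw [eval₂_finset_sum, eval₂_eq_sum_range, mul_sum]
  refine sum_congr rfl fun i hi => ?_
  rw [mem_range] at hi
  rw [eval₂_mul, eval₂_C, eval₂_pow, eval₂_X, map_mul, map_pow, mul_pow]
  have h : 2 * κ.natDegree = (2 * κ.natDegree - i) + i := by omega
  conv_rhs => rw [h, pow_add]
  ring

theorem core (K : Type) [Field K] [NumberField K] (f : ℤ[X]) (hd : 0 < f.natDegree) (α : K)
    (hker : ∀ A : ℤ[X], eval₂ (Int.castRingHom K) α A = 0 → f ∣ A)
    (hαf : eval₂ (Int.castRingHom K) α f = 0)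
    (hadj : ∀ x : K, ∃ q : ℚ[X], eval₂ (Rat.castHom K) α q = x) (κ : ℤ[X]) :
    ∃ (β : 𝓞 K) (M : ℤ), M ≠ 0 ∧ (β : K) = (M : K) ^ 2 * eval₂ (Int.castRingHom K) α κ ∧
      ∃ B : ℕ, ∀ (p : ℕ) [Fact p.Prime], B < p →
        ∃ e : (𝓞 K →+* ZMod p) ≃ {r : ℕ // r ∈ CN.Rt f p}, ∀ φ : 𝓞 K →+* ZMod p,
          φ β = (M : ZMod p) ^ 2 * ((κ.eval ((e φ : ℕ) : ℤ) : ℤ) : ZMod p) := by
  classical
  obtain ⟨B1, hB1⟩ := Pool.Agent.H474R2.GE.M1_core K f α hker hadj
  obtain ⟨N0, hN0, b, hb⟩ := Pool.Agent.H921R2.TatePole.exists_int_mul (K := K) α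
  have hN0K : (N0 : K) ≠ 0 := by exact_mod_cast hN0
  have htop : Algebra.adjoin ℚ {(b : K)} = ⊤ := by
    rw [eq_top_iff]
    intro x _
    obtain ⟨q, hq⟩ := hadj x
    have hα : α ∈ Algebra.adjoin ℚ {(b : K)} := by
      have h2 : α = ((1 / (N0 : ℚ) : ℚ)) • (b : K) := by
        have h5 : algebraMap ℚ K (1 / (N0 : ℚ)) = 1 / (N0 : K) := by
          rw [map_div₀, map_one, map_intCast]
        rw [hb, Algebra.smul_def, h5]
        field_simp
      rw [h2]
      exact Subalgebra.smul_mem _ (Algebra.subset_adjoin (Set.mem_singleton _)) _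
    have h3 : x = aeval α q := by
      rw [← hq, aeval_def]
      congr 1
    rw [h3]
    have h4 := Polynomial.aeval_mem_adjoin_singleton ℚ (p := q) α
    exact (Algebra.adjoin_le (S := Algebra.adjoin ℚ {(b : K)}) (by
      intro y hy
      rw [Set.mem_singleton_iff] at hy
      rw [hy]
      exact hα)) h4
  obtain ⟨N1, hN1, hind⟩ := Pool.Agent.H921R2.TatePole.exists_index (K := K) htop
  have hαf' : aeval α f = 0 := by
    rw [aeval_def]
    exact hαf
  have hbf : aeval b (scaleRoots f N0) = 0 := by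
    have h1 : aeval (algebraMap ℤ K N0 * α) (scaleRoots f N0) = 0 := scaleRoots_aeval_eq_zero hαf'
    have h2 : aeval (b : K) (scaleRoots f N0) = 0 := by
      rw [hb]
      simpa using h1
    apply RingOfIntegers.ext
    have h3 : ((aeval b (scaleRoots f N0) : 𝓞 K) : K) = aeval (b : K) (scaleRoots f N0) :=
      (Polynomial.aeval_algebraMap_apply K b (scaleRoots f N0)).symm
    rw [h3, h2]
    simp
  refine ⟨aeval b (scp κ N0), N0 ^ κ.natDegree, pow_ne_zero _ hN0, ?_, B1 + N0.natAbs + N1.natAbs,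
    fun p hpF hpB => ?_⟩
  · have h3 : ((aeval b (scp κ N0) : 𝓞 K) : K) = aeval (b : K) (scp κ N0) :=
      (Polynomial.aeval_algebraMap_apply K b (scp κ N0)).symm
    rw [h3, hb, aeval_def]
    have h4 := scp_eval (Int.castRingHom K) α κ N0
    have h5 : eval₂ (algebraMap ℤ K) ((N0 : K) * α) (scp κ N0) =
        eval₂ (Int.castRingHom K) ((Int.castRingHom K) N0 * α) (scp κ N0) := rfl
    rw [h5, h4]
    simp only [eq_intCast]
    push_cast
    ring
  have hp : p.Prime := hpF.out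
  have h0p : ((N0 : ℤ) : ZMod p) ≠ 0 := P2_ne_zero hN0 (by omega)
  have h1p : ((N1 : ℤ) : ZMod p) ≠ 0 := P2_ne_zero hN1 (by omega)
  set rt : (𝓞 K →+* ZMod p) → ZMod p := fun φ => φ b / (N0 : ZMod p) with hrt
  have hφb : ∀ φ : 𝓞 K →+* ZMod p, φ b = (N0 : ZMod p) * rt φ := by
    intro φ
    rw [hrt]
    field_simp
  have hev : ∀ (φ : 𝓞 K →+* ZMod p) (A : ℤ[X]), ((A.eval (((rt φ).val : ℕ) : ℤ) : ℤ) : ZMod p) =
      eval₂ (Int.castRingHom (ZMod p)) (rt φ) A := by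
    intro φ A
    have h5 := Polynomial.eval_intCast_map (Int.castRingHom (ZMod p)) A (((rt φ).val : ℕ) : ℤ)
    rw [eval₂_eq_eval_map]
    have h6 : (((((rt φ).val : ℕ) : ℤ)) : ZMod p) = rt φ := by
      push_cast
      exact ZMod.natCast_zmod_val _
    rw [h6] at h5
    exact h5.symm
  have hroot : ∀ φ : 𝓞 K →+* ZMod p, (p : ℤ) ∣ f.eval (((rt φ).val : ℕ) : ℤ) := by
    intro φ
    have h1 : aeval (φ b) (scaleRoots f N0) = 0 := by
      have := Polynomial.aeval_algHom_apply φ.toIntAlgHom b (scaleRoots f N0)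
      rw [hbf, map_zero] at this
      exact this
    have h2 : eval₂ (Int.castRingHom (ZMod p)) ((Int.castRingHom (ZMod p)) N0 * rt φ)
        (scaleRoots f N0) = (Int.castRingHom (ZMod p)) N0 ^ f.natDegree *
          eval₂ (Int.castRingHom (ZMod p)) (rt φ) f := scaleRoots_eval₂_mul _ _ _
    have h3 : aeval (φ b) (scaleRoots f N0) = eval₂ (Int.castRingHom (ZMod p))
        ((Int.castRingHom (ZMod p)) N0 * rt φ) (scaleRoots f N0) := by
      rw [hφb φ]
      rfl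
    rw [h3, h2] at h1
    have h4 : eval₂ (Int.castRingHom (ZMod p)) (rt φ) f = 0 := by
      rcases mul_eq_zero.1 h1 with h | h
      · exact absurd (eq_zero_of_pow_eq_zero h) (by simpa using h0p)
      · exact h
    rw [← ZMod.intCast_zmod_eq_zero_iff_dvd, hev, h4]
  have hmem : ∀ φ : 𝓞 K →+* ZMod p, (rt φ).val ∈ CN.Rt f p := by
    intro φ
    unfold CN.Rt
    rw [Finset.mem_filter, Finset.mem_range]
    exact ⟨ZMod.val_lt _, hroot φ⟩
  have hinj : Function.Injective (fun φ : 𝓞 K →+* ZMod p =>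
      (⟨(rt φ).val, hmem φ⟩ : {a : ℕ // a ∈ CN.Rt f p})) := by
    intro φ ψ h
    simp only [Subtype.mk.injEq] at h
    have h1 : rt φ = rt ψ := ZMod.val_injective p h
    have h2 : φ b = ψ b := by rw [hφb φ, hφb ψ, h1]
    refine RingHom.ext fun x => ?_
    obtain ⟨A, hA⟩ := hind x
    have h3 : φ ((N1 : 𝓞 K) * x) = ψ ((N1 : 𝓞 K) * x) := by
      rw [hA]
      have e1 := Polynomial.aeval_algHom_apply φ.toIntAlgHom b A
      have e2 := Polynomial.aeval_algHom_apply ψ.toIntAlgHom b A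
      have e3 : φ.toIntAlgHom b = ψ.toIntAlgHom b := h2
      rw [e3] at e1
      have e4 : φ.toIntAlgHom (aeval b A) = ψ.toIntAlgHom (aeval b A) := by rw [← e1, e2]
      exact e4
    rw [map_mul, map_mul, map_intCast, map_intCast] at h3
    exact mul_left_cancel₀ h1p h3
  have hle : Nat.card {a : ℕ // a ∈ CN.Rt f p} ≤ Nat.card (𝓞 K →+* ZMod p) := by
    rw [Nat.card_eq_fintype_card (α := {a : ℕ // a ∈ CN.Rt f p}), Fintype.card_coe]
    exact hB1 p hp (by omega)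
  have hbij := hinj.bijective_of_nat_card_le hle
  refine ⟨Equiv.ofBijective _ hbij, fun φ => ?_⟩
  have h1 : φ (aeval b (scp κ N0)) = aeval (φ b) (scp κ N0) :=
    (Polynomial.aeval_algHom_apply φ.toIntAlgHom b (scp κ N0)).symm
  have h2 : aeval (φ b) (scp κ N0) = eval₂ (Int.castRingHom (ZMod p))
      ((Int.castRingHom (ZMod p)) N0 * rt φ) (scp κ N0) := by
    rw [hφb φ]
    rfl
  rw [h1, h2, scp_eval]
  show _ = (((N0 ^ κ.natDegree : ℤ)) : ZMod p) ^ 2 *
    ((κ.eval ((((rt φ).val : ℕ)) : ℤ) : ℤ) : ZMod p)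
  rw [hev]
  simp only [eq_intCast]
  push_cast
  ring

/-- **the field of an irreducible polynomial** -/
theorem data (f : ℤ[X]) (hf : Irreducible f) (hd : 0 < f.natDegree) :
    ∃ (K : Type) (_ : Field K) (_ : NumberField K) (α : K),
      (∀ κ : ℤ[X], eval₂ (Int.castRingHom K) α κ = 0 → f ∣ κ) ∧
      (∀ κ : ℤ[X], (∃ x : K, x ^ 2 = eval₂ (Int.castRingHom K) α κ) → SqM f κ) ∧
      ∀ κ : ℤ[X], ∃ (β : 𝓞 K) (M : ℤ), M ≠ 0 ∧
        (β : K) = (M : K) ^ 2 * eval₂ (Int.castRingHom K) α κ ∧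
        ∃ B : ℕ, ∀ (p : ℕ) [Fact p.Prime], B < p →
          ∃ e : (𝓞 K →+* ZMod p) ≃ {r : ℕ // r ∈ CN.Rt f p}, ∀ φ : 𝓞 K →+* ZMod p,
            φ β = (M : ZMod p) ^ 2 * ((κ.eval ((e φ : ℕ) : ℤ) : ℤ) : ZMod p) := by
  have hprim : f.IsPrimitive := hf.isPrimitive hd.ne'
  have hF : Irreducible (f.map (Int.castRingHom ℚ)) :=
    (IsPrimitive.Int.irreducible_iff_irreducible_map_cast hprim).1 hf
  have hfact : Fact (Irreducible (f.map (Int.castRingHom ℚ))) := ⟨hF⟩
  have hadj : ∀ x : AdjoinRoot (f.map (Int.castRingHom ℚ)), ∃ q : ℚ[X],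
      eval₂ (Rat.castHom (AdjoinRoot (f.map (Int.castRingHom ℚ))))
        (AdjoinRoot.root (f.map (Int.castRingHom ℚ))) q = x := by
    intro x
    obtain ⟨q, rfl⟩ := AdjoinRoot.mk_surjective x
    refine ⟨q, ?_⟩
    have h2 : Rat.castHom (AdjoinRoot (f.map (Int.castRingHom ℚ))) =
        AdjoinRoot.of (f.map (Int.castRingHom ℚ)) := Subsingleton.elim _ _
    rw [h2]
    have h3 := AdjoinRoot.aeval_eq (f := f.map (Int.castRingHom ℚ)) q
    rw [← h3]
    rfl
  have hmk : ∀ A : ℤ[X], AdjoinRoot.mk (f.map (Int.castRingHom ℚ)) (A.map (Int.castRingHom ℚ)) =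
      eval₂ (Int.castRingHom _) (AdjoinRoot.root (f.map (Int.castRingHom ℚ))) A := by
    intro A
    have h3 := AdjoinRoot.aeval_eq (f := f.map (Int.castRingHom ℚ)) (A.map (Int.castRingHom ℚ))
    rw [← h3, aeval_def, eval₂_map]
    have hg : ∀ g : ℤ →+* AdjoinRoot (f.map (Int.castRingHom ℚ)),
        eval₂ g (AdjoinRoot.root (f.map (Int.castRingHom ℚ))) A =
        eval₂ (Int.castRingHom _) (AdjoinRoot.root (f.map (Int.castRingHom ℚ))) A := by
      intro g
      rw [RingHom.ext_int g (Int.castRingHom _)]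
    exact hg _
  have hker : ∀ A : ℤ[X], eval₂ (Int.castRingHom _)
      (AdjoinRoot.root (f.map (Int.castRingHom ℚ))) A = 0 → f ∣ A := by
    intro A hA
    have h1 : AdjoinRoot.mk (f.map (Int.castRingHom ℚ)) (A.map (Int.castRingHom ℚ)) = 0 := by
      rw [hmk, hA]
    rw [AdjoinRoot.mk_eq_zero] at h1
    exact (IsPrimitive.Int.dvd_iff_map_cast_dvd_map_cast f A hprim).2 h1
  have hαf : eval₂ (Int.castRingHom _) (AdjoinRoot.root (f.map (Int.castRingHom ℚ))) f = 0 := by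
    rw [← hmk, AdjoinRoot.mk_eq_zero]
  refine ⟨AdjoinRoot (f.map (Int.castRingHom ℚ)), inferInstance, inferInstance,
    AdjoinRoot.root (f.map (Int.castRingHom ℚ)), hker, ?_, fun κ => core _ f hd _ hker hαf hadj κ⟩
  rintro κ ⟨x, hx⟩
  obtain ⟨q, rfl⟩ := AdjoinRoot.mk_surjective x
  refine ⟨q, ?_⟩
  rw [← AdjoinRoot.mk_eq_zero, map_sub, map_pow, hmk, hx, sub_self]

end Run7.h69.PK
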