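import Mathlib
import Pool.Agent.R362.NearOrd2
import Pool.Agent.Run7.h69.HL5

/-!
# A uniform upper bound for the sum over the primes of degree one
-/

set_option autoImplicit false
set_option linter.unusedSectionVars false

open NumberField Filter Topology IsDedekindDomain

namespace Run7.h69.UM

open Pool.Agent.Y773 (LI zz)
open Pool.Agent.R362.Near (triv triv_norm LI_real IsXi lgd exists_xi triv_apply)
open Pool.Agent.H921R2.TatePole (W R R_le w w_nonneg w_summable bddmul_summable R_eq_hc hc nm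
  nm_summable deg_two_bound C0 below deg)
open Run7.h69.HL (S2 log_LI LI_ne LI_le tsum_nm_le W_le zz_re zz_summable)

/-- the zeta function at real points, as a real number -/
noncomputable def fz (E : Type) [Field E] [NumberField E] (x : ℝ) : ℝ := (LI (triv E) (x : ℂ)).re

section

variable {E : Type} [Field E] [NumberField E]

lemma fz_eq (x : ℝ) : LI (triv E) (x : ℂ) = ((fz E x : ℝ) : ℂ) := by
  unfold fz
  rw [LI_real, Complex.ofReal_re]

lemma fz_pos {x : ℝ} (hx : 1 < x) : 0 < fz E x := by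
  have h1 : LI (triv E) (x : ℂ) ≠ 0 := LI_ne triv_norm (by rw [Complex.ofReal_re]; exact hx)
  have h2 : 0 ≤ fz E x := by
    unfold fz
    rw [LI_real, Complex.ofReal_re]
    exact tsum_nonneg fun 𝔞 => mul_nonneg (Pool.Agent.R362.Near.triv_re 𝔞) (by positivity)
  rcases h2.lt_or_eq with h | h
  · exact h
  · exfalso
    apply h1
    rw [fz_eq, ← h]
    simp

lemma norm_LI {x : ℝ} (hx : 1 < x) : ‖LI (triv E) (x : ℂ)‖ = fz E x := by
  rw [fz_eq, Complex.norm_real, Real.norm_eq_abs, abs_of_pos (fz_pos hx)]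

lemma fz_deriv {x : ℝ} (hx : 1 < x) : HasDerivAt (fz E) (deriv (LI (triv E)) (x : ℂ)).re x := by
  obtain ⟨A', hA', hd⟩ := Pool.Agent.Y772.DK.t_dirK E
  obtain ⟨-, hdif, -, -⟩ := hd (triv E) triv_norm
  exact (hdif (x : ℂ) (by rw [Complex.ofReal_re]; exact hx)).hasDerivAt.real_of_complex

lemma logDeriv_re {x : ℝ} (hx : 1 < x) :
    (logDeriv (LI (triv E)) (x : ℂ)).re = (deriv (LI (triv E)) (x : ℂ)).re / fz E x := by
  rw [logDeriv_apply, fz_eq, Complex.div_ofReal_re]

lemma lgd_le : lgd E ≤ Real.log (|((discr E : ℤ) : ℝ)| + 3) := by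
  unfold lgd
  have h1 : (((discr E).natAbs : ℕ) : ℝ) = |((discr E : ℤ) : ℝ)| := by
    rw [Nat.cast_natAbs, Int.cast_abs]
  rw [h1]
  apply Real.log_le_log
  · exact abs_pos.2 (by exact_mod_cast discr_ne_zero E)
  · linarith

/-- the monotone function -/
lemma mono (hn : 1 < Module.finrank ℚ E) : MonotoneOn
    (fun x => Real.log (fz E x) + Real.log (x - 1) + lgd E / 2 * x) (Set.Ioc 1 (12 / 5)) := by
  obtain ⟨X, hX⟩ := exists_xi E
  have hX' : IsXi E X := hX
  have hD : ∀ x : ℝ, 1 < x → HasDerivAt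
      (fun x => Real.log (fz E x) + Real.log (x - 1) + lgd E / 2 * x)
      ((deriv (LI (triv E)) (x : ℂ)).re / fz E x + 1 / (x - 1) + lgd E / 2 * 1) x := by
    intro x hx
    have h1 := (fz_deriv (E := E) hx).log (fz_pos hx).ne'
    have h2 : HasDerivAt (fun x : ℝ => Real.log (x - 1)) (1 / (x - 1)) x :=
      ((hasDerivAt_id x).sub_const 1).log (by simp only [id]; linarith)
    exact (h1.add h2).add ((hasDerivAt_id x).const_mul _)
  refine monotoneOn_of_deriv_nonneg (convex_Ioc _ _) ?_ ?_ ?_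
  · intro x hx
    exact (hD x hx.1).continuousAt.continuousWithinAt
  · intro x hx
    rw [interior_Ioc] at hx
    exact (hD x hx.1).differentiableAt.differentiableWithinAt
  · intro x hx
    rw [interior_Ioc] at hx
    rw [(hD x hx.1).deriv, ← logDeriv_re hx.1, mul_one]
    have := hX'.LI_lower hn hx.1 hx.2.le
    linarith

lemma S2_le : S2 E ≤ Module.finrank ℚ E * W 2 := by
  unfold S2
  exact tsum_nm_le (x := 2) (by norm_num)

lemma log_fz_triv {η : ℝ} (h0 : 0 < η) (h1 : η ≤ 1) :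
    Real.log (fz E (1 + η)) ≤ Module.finrank ℚ E * W 2 +
      Module.finrank ℚ E * (Real.log 2 + Real.log (1 / η)) := by
  have h2 := LI_le (K := E) triv_norm h0 h1 (s := ((1 + η : ℝ) : ℂ))
    (by rw [Complex.ofReal_re])
  rw [norm_LI (by linarith)] at h2
  have h3 := Real.log_le_log (fz_pos (by linarith)) h2
  rw [Real.log_mul (Real.exp_pos _).ne' (by positivity), Real.log_exp, Real.log_pow] at h3
  have h4 : Real.log (2 / η) = Real.log 2 + Real.log (1 / η) := by
    rw [← Real.log_mul (by norm_num) (by positivity)]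
    congr 1
    ring
  rw [h4] at h3
  have := S2_le (E := E)
  linarith

/-- the upper bound for the zeta function near `1` -/
lemma log_fz (hn : 1 < Module.finrank ℚ E) {η : ℝ} (h0 : 0 < η) (h1 : η ≤ 1) :
    Real.log (fz E (1 + η)) ≤ Real.log (1 / η) +
      Module.finrank ℚ E * Real.log (Real.log (|((discr E : ℤ) : ℝ)| + 3)) +
      (Module.finrank ℚ E * (W 2 + Real.log 2) + 1 / 2) := by
  set D : ℝ := |((discr E : ℤ) : ℝ)| + 3 with hD
  set n : ℝ := (Module.finrank ℚ E : ℝ) with hn'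
  have hn1 : 1 ≤ n := by rw [hn']; exact_mod_cast hn.le
  have hD3 : 3 ≤ D := by rw [hD]; linarith [abs_nonneg ((discr E : ℤ) : ℝ)]
  have hL1 : 1 ≤ Real.log D := by
    rw [Real.le_log_iff_exp_le (by linarith)]
    have := Real.exp_one_lt_d9
    linarith
  have hLL : 0 ≤ Real.log (Real.log D) := Real.log_nonneg hL1
  set η1 : ℝ := 1 / Real.log D with hη1
  have hη10 : 0 < η1 := by positivity
  have hη11 : η1 ≤ 1 := by rw [hη1, div_le_one (by linarith)]; exact hL1
  have hlη1 : Real.log (1 / η1) = Real.log (Real.log D) := by rw [hη1, one_div_one_div]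
  rcases le_total η η1 with h | h
  · have hm := mono (E := E) hn (a := 1 + η) (b := 1 + η1) ⟨by linarith, by linarith⟩
      ⟨by linarith, by linarith⟩ (by linarith)
    simp only [add_sub_cancel_left] at hm
    have h2 := log_fz_triv (E := E) hη10 hη11
    rw [hlη1] at h2
    have h3 : Real.log (1 / η) = -Real.log η := by rw [one_div, Real.log_inv]
    have h4 : Real.log η1 = -Real.log (Real.log D) := by rw [hη1, one_div, Real.log_inv]
    have h5 : lgd E / 2 * η1 ≤ 1 / 2 := by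
      have h6 := lgd_le (E := E)
      rw [← hD] at h6
      have h7 : lgd E * η1 ≤ 1 := by
        rw [hη1, mul_one_div, div_le_one (by linarith)]
        exact h6
      linarith
    have h6 : 0 ≤ lgd E / 2 * η := by
      have : 0 ≤ lgd E := by
        unfold lgd
        exact Real.log_natCast_nonneg _
      positivity
    rw [h3]
    rw [h4] at hm
    nlinarith
  · have h2 := log_fz_triv (E := E) h0 h1
    have h3 : Real.log (1 / η) ≤ Real.log (Real.log D) := by
      rw [← hlη1]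
      apply Real.log_le_log (by positivity)
      exact one_div_le_one_div_of_le hη10 h
    have h4 : 0 ≤ Real.log (1 / η) := Real.log_nonneg (by rw [le_div_iff₀ h0]; linarith)
    have h5 : (n - 1) * Real.log (1 / η) ≤ (n - 1) * Real.log (Real.log D) :=
      mul_le_mul_of_nonneg_left h3 (by linarith)
    nlinarith

end

/-- the sum over the primes at most `y` -/
theorem um (n : ℕ) (hn1 : 1 < n) : ∃ C : ℝ, ∀ (E : Type) [Field E] [NumberField E],
    Module.finrank ℚ E = n → ∀ y : ℕ, 3 ≤ y → ∑ l ∈ (Finset.Icc 1 y).filter Nat.Prime,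
      ((Nat.card (𝓞 E →+* ZMod l) : ℝ) / l) ≤ Real.log (Real.log y) +
        n * Real.log (Real.log (|((discr E : ℤ) : ℝ)| + 3)) + C := by
  classical
  obtain ⟨M1, hM1⟩ := Pool.Agent.Helper256.KM.mertens_log
  have hM10 : 0 ≤ M1 := (abs_nonneg _).trans (hM1 1 le_rfl)
  refine ⟨(n * (W 2 + Real.log 2) + 1 / 2) + n * W 2 + n * C0 + n * (1 + M1), ?_⟩
  intro E _ _ hnE y hy
  have hyr : (3 : ℝ) ≤ y := by exact_mod_cast hy
  have hl1 : 1 < Real.log y := by
    rw [Real.lt_log_iff_exp_lt (by linarith)]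
    have := Real.exp_one_lt_d9
    linarith
  set σ : ℝ := 1 / Real.log y with hσ
  have hσ0 : 0 < σ := by positivity
  have hσ1 : σ ≤ 1 := by
    rw [hσ, div_le_one (by linarith)]
    linarith
  have hx : 1 < 1 + σ := by linarith
  have h1 := log_fz (E := E) (by rw [hnE]; exact hn1) hσ0 hσ1
  rw [hnE] at h1
  have hlσ : Real.log (1 / σ) = Real.log (Real.log y) := by rw [hσ, one_div_one_div]
  rw [hlσ] at h1
  have hre : 1 < (((1 + σ : ℝ) : ℂ)).re := by rw [Complex.ofReal_re]; exact hx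
  have h2 := (abs_le.1 (log_LI (K := E) triv_norm hre)).1
  rw [norm_LI hx] at h2
  have h3 : (∑' v : HeightOneSpectrum (𝓞 E), zz (triv E) ((1 + σ : ℝ) : ℂ) v.asIdeal).re =
      ∑' v : HeightOneSpectrum (𝓞 E), 1 * (nm v : ℝ) ^ (-(1 + σ)) := by
    rw [Complex.re_tsum (zz_summable triv_norm hre)]
    refine tsum_congr fun v => ?_
    rw [zz_re, triv_apply v.ne_bot, Complex.one_re]
  have hS2 := S2_le (E := E)
  rw [hnE] at hS2
  have h4 := (abs_le.1 (deg_two_bound (K := E) (g := fun _ => (1 : ℝ)) (C := 1) hx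
    (fun v => by simp))).1
  rw [h3] at h2
  rw [hnE, one_mul] at h4
  have hR : ∀ l : Nat.Primes, (∑ v : {v : HeightOneSpectrum (𝓞 E) // below v = l},
      if deg v.1 = 1 then (1 : ℝ) else 0) = (R E l : ℝ) := by
    intro l
    unfold R
    rw [Finset.sum_boole]
  have h5 : ∑' l : Nat.Primes, (R E l : ℝ) * w (1 + σ) l ≤ Real.log (Real.log y) +
      n * Real.log (Real.log (|((discr E : ℤ) : ℝ)| + 3)) +
      (n * (W 2 + Real.log 2) + 1 / 2) + n * W 2 + n * C0 := by
    have h6 : ∑' l : Nat.Primes, (∑ v : {v : HeightOneSpectrum (𝓞 E) // below v = l},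
      if deg v.1 = 1 then (1 : ℝ) else 0) * w (1 + σ) l =
        ∑' l : Nat.Primes, (R E l : ℝ) * w (1 + σ) l := tsum_congr fun l => by rw [hR]
    rw [h6] at h4
    linarith
  set s : Finset Nat.Primes := Finset.subtype Nat.Prime (Finset.Icc 1 y) with hs
  have htrans : ∀ f : ℕ → ℝ, ∑ l ∈ s, f (l : ℕ) = ∑ l ∈ (Finset.Icc 1 y).filter Nat.Prime, f l := by
    intro f
    exact Finset.sum_subtype_eq_sum_filter (s := Finset.Icc 1 y) (p := Nat.Prime) f
  have hRn : ∀ l : Nat.Primes, |(R E l : ℝ)| ≤ n := by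
    intro l
    rw [abs_of_nonneg (Nat.cast_nonneg (R E l) : (0 : ℝ) ≤ R E l), ← hnE]
    exact_mod_cast R_le l
  have hs1 : Summable (fun l : Nat.Primes => (R E l : ℝ) * w (1 + σ) l) :=
    bddmul_summable hx hRn
  have h6 : ∑ l ∈ s, (R E l : ℝ) * w (1 + σ) l ≤ ∑' l : Nat.Primes, (R E l : ℝ) * w (1 + σ) l :=
    hs1.sum_le_tsum s fun l _ => mul_nonneg (Nat.cast_nonneg _) (w_nonneg _ _)
  -- the comparison
  have hcmp : ∀ l : Nat.Primes, l ∈ s → 0 ≤ 1 / ((l : ℕ) : ℝ) - w (1 + σ) l ∧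
      1 / ((l : ℕ) : ℝ) - w (1 + σ) l ≤ Real.log (l : ℕ) / (l : ℕ) / Real.log y := by
    intro l _
    have hp0 : (0 : ℝ) < ((l : ℕ) : ℝ) := by exact_mod_cast l.2.pos
    have hp1 : (1 : ℝ) ≤ ((l : ℕ) : ℝ) := by exact_mod_cast l.2.one_lt.le
    have e1 : w (1 + σ) l = (1 / ((l : ℕ) : ℝ)) * Real.exp (-(Real.log (l : ℕ) / Real.log y)) := by
      unfold w
      rw [Real.rpow_def_of_pos hp0, hσ,
        show Real.log (l : ℕ) * -(1 + 1 / Real.log y) =
          -Real.log (l : ℕ) + -(Real.log (l : ℕ) / Real.log y) by ring,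
        Real.exp_add, Real.exp_neg, Real.exp_log hp0]
      simp
    have h3 := Real.add_one_le_exp (-(Real.log (l : ℕ) / Real.log y))
    have h7 : (0 : ℝ) ≤ Real.log (l : ℕ) / Real.log y :=
      div_nonneg (Real.log_nonneg hp1) (by linarith)
    have h8 : Real.exp (-(Real.log (l : ℕ) / Real.log y)) ≤ 1 := by
      rw [Real.exp_le_one_iff]
      linarith
    have h9 : (0 : ℝ) ≤ 1 / ((l : ℕ) : ℝ) := by positivity
    have e2 : Real.log (l : ℕ) / (l : ℕ) / Real.log y =
        (1 / ((l : ℕ) : ℝ)) * (Real.log (l : ℕ) / Real.log y) := by ring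
    rw [e1, e2]
    constructor <;> nlinarith
  have hΔ : ∑ l ∈ s, (1 / ((l : ℕ) : ℝ) - w (1 + σ) l) ≤ 1 + M1 := by
    have h3 : ∑ l ∈ s, (1 / ((l : ℕ) : ℝ) - w (1 + σ) l) ≤
        ∑ l ∈ s, Real.log (l : ℕ) / (l : ℕ) / Real.log y :=
      Finset.sum_le_sum fun l hl => (hcmp l hl).2
    refine h3.trans ?_
    rw [← Finset.sum_div, htrans (fun l => Real.log l / l), div_le_iff₀ (by linarith)]
    have h4 := (abs_le.1 (hM1 y (by omega))).2
    nlinarith
  have h7 : ∑ l ∈ (Finset.Icc 1 y).filter Nat.Prime, ((Nat.card (𝓞 E →+* ZMod l) : ℝ) / l) ≤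
      ∑ l ∈ s, (R E l : ℝ) * w (1 + σ) l +
        n * ∑ l ∈ s, (1 / ((l : ℕ) : ℝ) - w (1 + σ) l) := by
    rw [← htrans (fun l => ((Nat.card (𝓞 E →+* ZMod l) : ℝ) / l)), Finset.mul_sum,
      ← Finset.sum_add_distrib]
    refine Finset.sum_le_sum fun l hl => ?_
    have hR : (Nat.card (𝓞 E →+* ZMod (l : ℕ)) : ℝ) = (R E l : ℝ) := by
      rw [R_eq_hc]; rfl
    rw [hR]
    have h6 := (hcmp l hl).1
    have h7 := (abs_le.1 (hRn l)).2
    have e : (R E l : ℝ) / ((l : ℕ) : ℝ) = (R E l : ℝ) * w (1 + σ) l +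
        (R E l : ℝ) * (1 / ((l : ℕ) : ℝ) - w (1 + σ) l) := by ring
    rw [e]
    have := mul_le_mul_of_nonneg_right h7 h6
    linarith
  have hn0 : (0 : ℝ) ≤ n := Nat.cast_nonneg n
  have h8 := mul_le_mul_of_nonneg_left hΔ hn0
  linarith

end Run7.h69.UM
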