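import Mathlib
import Pool.Agent.Run7.h69.PK1
import Pool.Agent.Run7.h69.UM
import Pool.Agent.Run7.h69.UT2
import Pool.Agent.H474R2.GE.HomsUpper
import Pool.Agent.H474R2.PG.HomsLower

/-!
# The sums of the symbols over the primes
-/

set_option autoImplicit false
set_option linter.unusedSectionVars false

namespace Run7.h69.PK

open Finset Polynomial NumberField
open Pool.Agent.W262.RK (Jr x4 PS mem_PS)
open Pool.Agent.W262.RK (recip x4_mul Jr_eq_zero)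

lemma Jr_quad {p : ℕ} [Fact p.Prime] (a : ℤ) :
    Jr a p = ((quadraticChar (ZMod p) (a : ZMod p) : ℤ) : ℝ) := by
  unfold Jr
  rw [← jacobiSym.legendreSym.to_jacobiSym]
  rfl

/-- the number of the pairs -/
lemma card_pairs {K : Type} [Field K] [NumberField K] {f κ : ℤ[X]} {β : 𝓞 K} {M : ℤ} {p : ℕ}
    [hpF : Fact p.Prime] (hp2 : p ≠ 2) (hM : ¬ (p : ℤ) ∣ M)
    (e : (𝓞 K →+* ZMod p) ≃ {r : ℕ // r ∈ CN.Rt f p})
    (he : ∀ φ : 𝓞 K →+* ZMod p,
      φ β = (M : ZMod p) ^ 2 * ((κ.eval ((e φ : ℕ) : ℤ) : ℤ) : ZMod p)) (d : ℤ) :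
    (Nat.card {q : (𝓞 K →+* ZMod p) × ZMod p // q.2 ^ 2 = q.1 (β * (d : 𝓞 K))} : ℝ) =
      rho f p + Jr d p * xs f κ p := by
  classical
  have hfin : Fintype (𝓞 K →+* ZMod p) := Fintype.ofEquiv _ e.symm
  have hM0 : (M : ZMod p) ≠ 0 := by rwa [Ne, ZMod.intCast_zmod_eq_zero_iff_dvd]
  rw [Nat.card_eq_fintype_card, Fintype.card_subtype, card_filter, Fintype.sum_prod_type]
  have h1 : ∀ φ : 𝓞 K →+* ZMod p, ((∑ s : ZMod p, (if s ^ 2 = φ (β * (d : 𝓞 K)) then 1 else 0) : ℕ) : ℝ) =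
      1 + Jr d p * Jr (κ.eval ((e φ : ℕ) : ℤ)) p := by
    intro φ
    have h2 := quadraticChar_card_sqrts (F := ZMod p) (by rw [ZMod.ringChar_zmod_n]; exact hp2)
      (φ (β * (d : 𝓞 K)))
    have h3 : ((∑ s : ZMod p, (if s ^ 2 = φ (β * (d : 𝓞 K)) then 1 else 0) : ℕ) : ℤ) =
        quadraticChar (ZMod p) (φ (β * (d : 𝓞 K))) + 1 := by
      rw [← h2, ← card_filter]
      congr 2
      ext s
      simp
    have h4 : φ (β * (d : 𝓞 K)) = (M : ZMod p) ^ 2 * (((κ.eval ((e φ : ℕ) : ℤ) : ℤ) : ZMod p) *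
        ((d : ℤ) : ZMod p)) := by
      rw [map_mul, he, map_intCast]
      ring
    have h5 : quadraticChar (ZMod p) (φ (β * (d : 𝓞 K))) =
        quadraticChar (ZMod p) (((κ.eval ((e φ : ℕ) : ℤ) : ℤ) : ZMod p)) *
          quadraticChar (ZMod p) ((d : ℤ) : ZMod p) := by
      rw [h4, map_mul, map_mul, quadraticChar_sq_one' hM0, one_mul]
    have h6 : ((∑ s : ZMod p, (if s ^ 2 = φ (β * (d : 𝓞 K)) then 1 else 0) : ℕ) : ℝ) =
        (((quadraticChar (ZMod p) (φ (β * (d : 𝓞 K))) + 1 : ℤ)) : ℝ) := by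
      rw [← h3]
      norm_cast
    rw [h6, h5, Jr_quad, Jr_quad]
    push_cast
    ring
  push_cast
  have h2 : ∀ φ : 𝓞 K →+* ZMod p, (∑ s : ZMod p, (if s ^ 2 = φ (β * (d : 𝓞 K)) then (1 : ℝ) else 0)) =
      1 + Jr d p * Jr (κ.eval ((e φ : ℕ) : ℤ)) p := by
    intro φ
    rw [← h1 φ]
    push_cast
    rfl
  have h3 : ∀ φ : 𝓞 K →+* ZMod p, (∑ s : ZMod p, (if s ^ 2 = φ β * (d : ZMod p) then (1 : ℝ) else 0)) =
      1 + Jr d p * Jr (κ.eval ((e φ : ℕ) : ℤ)) p := by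
    intro φ
    rw [← h2 φ, map_mul, map_intCast]
  have h4 : ∑ φ : 𝓞 K →+* ZMod p, (1 + Jr d p * Jr (κ.eval ((e φ : ℕ) : ℤ)) p) =
      rho f p + Jr d p * xs f κ p := by
    rw [Equiv.sum_comp e (fun r : {r : ℕ // r ∈ CN.Rt f p} => 1 + Jr d p * Jr (κ.eval ((r : ℕ) : ℤ)) p),
      sum_add_distrib, ← mul_sum]
    congr 1
    · rw [sum_const, card_univ, Fintype.card_coe, nsmul_eq_mul, mul_one]
      rfl
    · congr 1
      unfold xs
      exact sum_coe_sort (CN.Rt f p) (fun r : ℕ => Jr (κ.eval (r : ℤ)) p)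
  rw [← h4]
  refine sum_congr rfl fun φ _ => ?_
  rw [← h2 φ]

/-- the twist -/
lemma jr_d {r : ℕ} (hr : Odd r) (x : Bool) : ∃ d : ℤ, d.natAbs = r ∧ ∀ p : ℕ, Odd p →
    Jr p r * x4 x p = Jr d p := by
  have h1 : ∀ p : ℕ, Odd p → Jr p r * x4 x p = Jr r p * x4 (xor (decide (r % 4 = 3)) x) p := by
    intro p hp
    have h2 := recip hr hp
    rw [h2, mul_assoc, x4_mul hp]
    congr 2
    cases x <;> cases (decide (r % 4 = 3)) <;> rfl
  rcases hx : xor (decide (r % 4 = 3)) x with _ | _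
  · refine ⟨r, Int.natAbs_natCast r, fun p hp => ?_⟩
    rw [h1 p hp, hx]
    simp [x4]
  · refine ⟨-r, by rw [Int.natAbs_neg, Int.natAbs_natCast], fun p hp => ?_⟩
    rw [h1 p hp, hx]
    have h3 : x4 true p = Jr (-1) p := by
      unfold x4 Jr
      rw [jacobiSym.at_neg_one hp]
      simp
    rw [h3]
    unfold Jr
    rw [neg_eq_neg_one_mul (r : ℤ), jacobiSym.mul_left]
    push_cast
    ring

lemma PR_nat (y : ℕ) : Pool.Agent.H474R2.PG.PR (y : ℝ) = (Icc 1 y).filter Nat.Prime := by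
  unfold Pool.Agent.H474R2.PG.PR
  rw [Nat.floor_natCast]

/-- **the twisted sums** -/
theorem tw (f κ : ℤ[X]) (hf : Irreducible f) (hd : 0 < f.natDegree) (hκ : ¬ f ∣ κ) :
    ∃ z0 : ℕ, ∀ z, z0 ≤ z → ∃ B C : ℝ, ∀ (y r : ℕ) (x : Bool), z < y → 1 < r → Squarefree r →
      (∀ p : ℕ, p.Prime → p ∣ r → z < p) →
      ∑ p ∈ PS z y, xs f κ p / p * (Jr p r * x4 x p) ≤ B * Real.log (Real.log r) + C := by
  classical
  obtain ⟨K, iF, iN, α, hker, -, hdata⟩ := data f hf hd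
  obtain ⟨β, M, hM0, hβ, B1, hB1⟩ := hdata κ
  have hβ0 : β ≠ 0 := by
    rintro rfl
    have h1 : eval₂ (Int.castRingHom K) α κ ≠ 0 := fun h => hκ (hker κ h)
    have h2 : (M : K) ≠ 0 := by exact_mod_cast hM0
    have h3 : ((0 : 𝓞 K) : K) = 0 := map_zero _
    rw [h3] at hβ
    exact mul_ne_zero (pow_ne_zero 2 h2) h1 hβ.symm
  obtain ⟨z1, hz1⟩ := QE.nonsq hβ0
  obtain ⟨Cq, N, hCq, hN, hq⟩ := QE.quad K β hβ0
  set n := Module.finrank ℚ K with hn
  have hn1 : 1 ≤ n := Module.finrank_pos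
  obtain ⟨CU, hCU⟩ := UM.um (2 * n) (by omega)
  obtain ⟨CF, hCF0, hCF⟩ := Pool.Agent.H474R2.GE.mertens_rho f hf hd
  obtain ⟨BR, hBR⟩ := Pool.Agent.H474R2.PG.rho_le f hf.ne_zero
  refine ⟨2 + B1 + z1 + M.natAbs + N.natAbs + BR, fun z hz => ?_⟩
  set D : ℝ := ((f.natDegree : ℕ) : ℝ) with hD
  refine ⟨2 * n + D, CU + 2 * n * Real.log (Real.log (Cq + 3) + 2 * n) + CF + z + 4 * D, ?_⟩
  intro y r x hy hr hrs hrp
  obtain ⟨p0, hp0, hp0r⟩ := Nat.exists_prime_and_dvd (by omega : r ≠ 1)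
  have hp0z := hrp p0 hp0 hp0r
  have hr3 : 3 ≤ r := by
    have := Nat.le_of_dvd (by omega) hp0r
    omega
  have hrodd : Odd r := by
    rw [← Nat.not_even_iff_odd, even_iff_two_dvd]
    intro h
    have := hrp 2 Nat.prime_two h
    omega
  obtain ⟨d, hdr, hdJ⟩ := jr_d hrodd x
  have hd0 : d ≠ 0 := by
    rintro rfl
    simp at hdr
    omega
  have hns : ¬ ∃ x : K, x ^ 2 = (β : K) * d := by
    refine hz1 d p0 hp0 (by omega) ?_ ?_
    · rw [Int.natCast_dvd, hdr]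
      exact hp0r
    · intro h
      have h1 : p0 ^ 2 ∣ r := by
        have := Int.natAbs_dvd_natAbs.2 h
        rwa [hdr, Int.natAbs_pow, Int.natAbs_natCast] at this
      have h2 := hrs p0 (by rwa [sq] at h1)
      exact hp0.one_lt.ne' (Nat.isUnit_iff.1 h2)
  obtain ⟨E, iEF, iEN, hEn, hEd, hEc⟩ := hq d hd0 hns
  have hU := hCU E hEn y (by omega)
  have hlr : 1 ≤ Real.log r := Run7.h69.AT.log_ge1 hr3
  have hllr : 0 ≤ Real.log (Real.log r) := Real.log_nonneg hlr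
  -- the discriminant
  have hn0 : (0 : ℝ) ≤ n := Nat.cast_nonneg n
  have hdisc : Real.log (Real.log (|((discr E : ℤ) : ℝ)| + 3)) ≤
      Real.log (Real.log (Cq + 3) + 2 * n) + Real.log (Real.log r) := by
    have hrr : (1 : ℝ) ≤ r := by exact_mod_cast (by omega : 1 ≤ r)
    have hdr' : |(d : ℝ)| = r := by
      have : ((d.natAbs : ℕ) : ℝ) = |(d : ℝ)| := by rw [Nat.cast_natAbs, Int.cast_abs]
      rw [← this, hdr]
    rw [hdr'] at hEd
    have h1 : |((discr E : ℤ) : ℝ)| + 3 ≤ (Cq + 3) * (r : ℝ) ^ (2 * n) := by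
      have h2 : (1 : ℝ) ≤ (r : ℝ) ^ (2 * n) := one_le_pow₀ hrr
      nlinarith
    have h3 : Real.log (|((discr E : ℤ) : ℝ)| + 3) ≤ (Real.log (Cq + 3) + 2 * n) * Real.log r := by
      have h4 := Real.log_le_log (by positivity) h1
      rw [Real.log_mul (by positivity) (by positivity), Real.log_pow] at h4
      have h5 : 0 ≤ Real.log (Cq + 3) := Real.log_nonneg (by linarith)
      push_cast at h4
      nlinarith
    have h6 : 0 < Real.log (|((discr E : ℤ) : ℝ)| + 3) :=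
      Real.log_pos (by linarith [abs_nonneg ((discr E : ℤ) : ℝ)])
    have h7 : 0 < Real.log (Cq + 3) := Real.log_pos (by linarith)
    have h8 := Real.log_le_log h6 h3
    rwa [Real.log_mul (by positivity) (by positivity)] at h8
  -- the terms
  have hterm : ∀ p ∈ PS z y, xs f κ p / p * (Jr p r * x4 x p) =
      if p ∣ r then 0 else (Nat.card (𝓞 E →+* ZMod p) : ℝ) / p - (rho f p : ℝ) / p := by
    intro p hp
    obtain ⟨⟨hzp, hpy⟩, hpp⟩ := mem_PS.1 hp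
    have hpF : Fact p.Prime := ⟨hpp⟩
    have hodd : Odd p := hpp.odd_of_ne_two (by omega)
    by_cases hpr : p ∣ r
    · rw [if_pos hpr, Jr_eq_zero (by omega) (fun h => ?_), zero_mul, mul_zero]
      have := Nat.dvd_gcd dvd_rfl hpr
      rw [h.gcd_eq_one] at this
      exact hpp.one_lt.ne' (Nat.dvd_one.1 this)
    · rw [if_neg hpr, hdJ p hodd]
      have hbig : ∀ c : ℤ, c ≠ 0 → c.natAbs ≤ z → ¬ (p : ℤ) ∣ c := by
        intro c hc hcp h
        have := Nat.le_of_dvd (Int.natAbs_pos.2 hc) (Int.natCast_dvd.1 h)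
        omega
      obtain ⟨e, he⟩ := hB1 p (by omega)
      have h1 := card_pairs (f := f) (κ := κ) (by omega) (hbig M hM0 (by omega)) e he d
      have h2 := hEc p (fun h => by
        rcases (Nat.prime_iff_prime_int.1 hpp).dvd_or_dvd h with h3 | h3
        · exact hbig N hN (by omega) h3
        · apply hpr
          rw [Int.natCast_dvd, hdr] at h3
          exact h3)
      rw [← h2] at h1
      rw [h1]
      ring
  rw [sum_congr rfl hterm]
  have hmert := (abs_le.1 (hCF (y : ℝ) (by exact_mod_cast (by omega : 3 ≤ y)))).1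
  unfold Pool.Agent.H474R2.PG.Sg at hmert
  rw [PR_nat] at hmert
  have hrho0 : ∀ p : ℕ, 0 ≤ (rho f p : ℝ) / p := fun p => by positivity
  have hsub : PS z y ⊆ (Icc 1 y).filter Nat.Prime := by
    intro p hp
    rw [mem_PS] at hp
    rw [mem_filter, mem_Icc]
    exact ⟨⟨hp.2.one_lt.le, hp.1.2⟩, hp.2⟩
  have h1 : ∑ p ∈ PS z y, (if p ∣ r then 0 else
      (Nat.card (𝓞 E →+* ZMod p) : ℝ) / p - (rho f p : ℝ) / p) ≤
      ∑ p ∈ (Icc 1 y).filter Nat.Prime, (Nat.card (𝓞 E →+* ZMod p) : ℝ) / p -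
      (∑ p ∈ (Icc 1 y).filter Nat.Prime, (rho f p : ℝ) / p - z - ∑ p ∈ r.primeFactors, D * (1 / p)) := by
    have e1 : ∑ p ∈ PS z y, (if p ∣ r then 0 else
        (Nat.card (𝓞 E →+* ZMod p) : ℝ) / p - (rho f p : ℝ) / p) =
        ∑ p ∈ (PS z y).filter (fun p => ¬ p ∣ r), (Nat.card (𝓞 E →+* ZMod p) : ℝ) / p -
        ∑ p ∈ (PS z y).filter (fun p => ¬ p ∣ r), (rho f p : ℝ) / p := by
      rw [← sum_sub_distrib, sum_filter]
      refine sum_congr rfl fun p _ => ?_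
      by_cases h : p ∣ r <;> simp [h]
    have e2 : ∑ p ∈ (PS z y).filter (fun p => ¬ p ∣ r), (Nat.card (𝓞 E →+* ZMod p) : ℝ) / p ≤
        ∑ p ∈ (Icc 1 y).filter Nat.Prime, (Nat.card (𝓞 E →+* ZMod p) : ℝ) / p :=
      sum_le_sum_of_subset_of_nonneg ((filter_subset _ _).trans hsub) fun p _ _ => by positivity
    have e3 : ∑ p ∈ (Icc 1 y).filter Nat.Prime, (rho f p : ℝ) / p ≤
        ∑ p ∈ (PS z y).filter (fun p => ¬ p ∣ r), (rho f p : ℝ) / p + z +
          ∑ p ∈ r.primeFactors, D * (1 / p) := by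
      have hcov : (Icc 1 y).filter Nat.Prime ⊆ ((PS z y).filter (fun p => ¬ p ∣ r) ∪ Icc 1 z) ∪
          (PS z y).filter (fun p => p ∣ r) := by
        intro p hp
        rw [mem_filter, mem_Icc] at hp
        rw [mem_union, mem_union, mem_filter, mem_filter, mem_Icc]
        by_cases h1 : p ≤ z
        · exact Or.inl (Or.inr ⟨hp.1.1, h1⟩)
        · have h2 : p ∈ PS z y := mem_PS.2 ⟨⟨by omega, hp.1.2⟩, hp.2⟩
          by_cases h3 : p ∣ r
          · exact Or.inr ⟨h2, h3⟩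
          · exact Or.inl (Or.inl ⟨h2, h3⟩)
      have e4 := sum_le_sum_of_subset_of_nonneg (f := fun p : ℕ => (rho f p : ℝ) / p) hcov
        (fun p _ _ => hrho0 p)
      have e5 : ∀ A B : Finset ℕ, ∑ p ∈ A ∪ B, (rho f p : ℝ) / p ≤
          ∑ p ∈ A, (rho f p : ℝ) / p + ∑ p ∈ B, (rho f p : ℝ) / p := by
        intro A B
        rw [← sum_union_inter]
        exact le_add_of_nonneg_right (sum_nonneg fun p _ => hrho0 p)
      have e6 : ∑ p ∈ Icc 1 z, (rho f p : ℝ) / p ≤ z := by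
        calc ∑ p ∈ Icc 1 z, (rho f p : ℝ) / p ≤ ∑ p ∈ Icc 1 z, (1 : ℝ) :=
              sum_le_sum fun p _ => UT.rho_div_le_one f p
          _ = z := by simp
      have e7 : ∑ p ∈ (PS z y).filter (fun p => p ∣ r), (rho f p : ℝ) / p ≤
          ∑ p ∈ r.primeFactors, D * (1 / p) := by
        calc ∑ p ∈ (PS z y).filter (fun p => p ∣ r), (rho f p : ℝ) / p
            ≤ ∑ p ∈ (PS z y).filter (fun p => p ∣ r), D * (1 / p) := by
              refine sum_le_sum fun p hp => ?_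
              obtain ⟨⟨hzp, hpy⟩, hpp⟩ := mem_PS.1 (mem_filter.1 hp).1
              have h8 : (rho f p : ℝ) ≤ D := by
                rw [hD]
                exact_mod_cast hBR p hpp (by omega)
              rw [mul_one_div]
              exact div_le_div_of_nonneg_right h8 (Nat.cast_nonneg p)
          _ ≤ _ := by
              refine sum_le_sum_of_subset_of_nonneg ?_ fun p _ _ => by positivity
              intro p hp
              rw [mem_filter] at hp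
              exact Nat.mem_primeFactors.2 ⟨(mem_PS.1 hp.1).2, hp.2, by omega⟩
      have e8 := e5 ((PS z y).filter (fun p => ¬ p ∣ r) ∪ Icc 1 z) ((PS z y).filter (fun p => p ∣ r))
      have e9 := e5 ((PS z y).filter (fun p => ¬ p ∣ r)) (Icc 1 z)
      linarith
    rw [e1]
    linarith
  have h2 : ∑ p ∈ r.primeFactors, D * (1 / (p : ℝ)) ≤ D * (Real.log (Real.log r) + 4) := by
    rw [← mul_sum]
    exact mul_le_mul_of_nonneg_left (UT.sum_inv_pf hr3) (by positivity)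
  push_cast at hU
  have h3 := mul_le_mul_of_nonneg_left hdisc (by positivity : (0 : ℝ) ≤ 2 * n)
  nlinarith

/-- **the sums for a nonsquare** -/
theorem nsq (f κ : ℤ[X]) (hf : Irreducible f) (hd : 0 < f.natDegree) (hκ : ¬ f ∣ κ)
    (hs : ¬ SqM f κ) :
    ∃ z0 : ℕ, ∀ z, z0 ≤ z → ∃ C : ℝ, ∀ y : ℕ, z < y → |∑ p ∈ PS z y, xs f κ p / p| ≤ C := by
  classical
  obtain ⟨K, iF, iN, α, hker, hsq, hdata⟩ := data f hf hd
  obtain ⟨β, M, hM0, hβ, B1, hB1⟩ := hdata κ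
  have hMK : (M : K) ≠ 0 := by exact_mod_cast hM0
  have hβ0 : β ≠ 0 := by
    rintro rfl
    have h1 : eval₂ (Int.castRingHom K) α κ ≠ 0 := fun h => hκ (hker κ h)
    have h3 : ((0 : 𝓞 K) : K) = 0 := map_zero _
    rw [h3] at hβ
    exact mul_ne_zero (pow_ne_zero 2 hMK) h1 hβ.symm
  obtain ⟨Cq, N, hCq, hN, hq⟩ := QE.quad K β hβ0
  have hns : ¬ ∃ x : K, x ^ 2 = (β : K) * ((1 : ℤ) : K) := by
    rintro ⟨x, hx⟩
    apply hs
    apply hsq κ
    refine ⟨x / M, ?_⟩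
    rw [div_pow, hx, hβ]
    push_cast
    field_simp
  obtain ⟨E, iEF, iEN, hEn, hEd, hEc⟩ := hq 1 one_ne_zero hns
  obtain ⟨CL, hCL⟩ := Pool.Agent.H474R2.PG.homs_lower E
  obtain ⟨CU, hCU⟩ := Pool.Agent.H474R2.GE.homs_upper E
  obtain ⟨CF, hCF0, hCF⟩ := Pool.Agent.H474R2.GE.mertens_rho f hf hd
  refine ⟨2 + B1 + M.natAbs + N.natAbs, fun z hz => ?_⟩
  set S0 : ℝ := ∑ p ∈ (Icc 1 z).filter Nat.Prime,
    ((Nat.card (𝓞 E →+* ZMod p) : ℝ) / p - (rho f p : ℝ) / p) with hS0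
  refine ⟨|CL| + |CU| + CF + |S0|, fun y hy => ?_⟩
  have hterm : ∀ p ∈ PS z y, xs f κ p / p =
      (Nat.card (𝓞 E →+* ZMod p) : ℝ) / p - (rho f p : ℝ) / p := by
    intro p hp
    obtain ⟨⟨hzp, hpy⟩, hpp⟩ := mem_PS.1 hp
    have hpF : Fact p.Prime := ⟨hpp⟩
    have hodd : Odd p := hpp.odd_of_ne_two (by omega)
    have hbig : ∀ c : ℤ, c ≠ 0 → c.natAbs ≤ z → ¬ (p : ℤ) ∣ c := by
      intro c hc hcp h
      have := Nat.le_of_dvd (Int.natAbs_pos.2 hc) (Int.natCast_dvd.1 h)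
      omega
    obtain ⟨e, he⟩ := hB1 p (by omega)
    have h1 := card_pairs (f := f) (κ := κ) (by omega) (hbig M hM0 (by omega)) e he 1
    have h2 := hEc p (fun h => hbig N hN (by omega) (by rwa [mul_one] at h))
    rw [← h2] at h1
    rw [h1]
    have h3 : Jr 1 p = 1 := by
      unfold Jr
      rw [jacobiSym.one_left]
      norm_num
    rw [h3]
    ring
  rw [sum_congr rfl hterm]
  have hy3 : (3 : ℝ) ≤ (y : ℝ) := by exact_mod_cast (by omega : 3 ≤ y)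
  have hm1 := (abs_le.1 (hCF (y : ℝ) hy3)).1
  have hm2 := (abs_le.1 (hCF (y : ℝ) hy3)).2
  have hl := hCL (y : ℝ) hy3
  have hu := hCU (y : ℝ) hy3
  unfold Pool.Agent.H474R2.PG.Sg at hm1 hm2
  rw [PR_nat] at hm1 hm2 hl hu
  have hsplit : (Icc 1 y).filter Nat.Prime = (Icc 1 z).filter Nat.Prime ∪ PS z y := by
    ext p
    rw [mem_union, mem_filter, mem_filter, mem_Icc, mem_Icc, mem_PS]
    constructor
    · rintro ⟨⟨h1, h2⟩, h3⟩
      by_cases h4 : p ≤ z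
      · exact Or.inl ⟨⟨h1, h4⟩, h3⟩
      · exact Or.inr ⟨⟨by omega, h2⟩, h3⟩
    · rintro (⟨⟨h1, h2⟩, h3⟩ | ⟨⟨h1, h2⟩, h3⟩)
      · exact ⟨⟨h1, by omega⟩, h3⟩
      · exact ⟨⟨by omega, h2⟩, h3⟩
  have hdisj : Disjoint ((Icc 1 z).filter Nat.Prime) (PS z y) := by
    rw [disjoint_left]
    intro p hp hp'
    rw [mem_filter, mem_Icc] at hp
    rw [mem_PS] at hp'
    omega
  have hall : ∑ p ∈ (Icc 1 y).filter Nat.Prime,
      ((Nat.card (𝓞 E →+* ZMod p) : ℝ) / p - (rho f p : ℝ) / p) =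
      S0 + ∑ p ∈ PS z y, ((Nat.card (𝓞 E →+* ZMod p) : ℝ) / p - (rho f p : ℝ) / p) := by
    rw [hsplit, sum_union hdisj]
  rw [sum_sub_distrib] at hall
  rw [abs_le]
  have a1 := le_abs_self CL
  have a2 := le_abs_self CU
  have a3 := le_abs_self S0
  have a4 := neg_abs_le S0
  have a5 := abs_nonneg CL
  have a6 := abs_nonneg CU
  constructor <;> linarith

end Run7.h69.PK
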