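import Mathlib
import Pool.Agent.Run7.h69.PK2

/-!
# The sums of the symbols over the primes for a squarefree polynomial
-/

set_option autoImplicit false
set_option linter.unusedSectionVars false

namespace Run7.h69.PK

open Finset Polynomial NumberField
open Pool.Agent.W262.RK (Jr x4 PS mem_PS)
open UniqueFactorizationMonoid

/-- the coefficients as rational numbers -/
noncomputable abbrev qq (F : ℤ[X]) : ℚ[X] := F.map (Int.castRingHom ℚ)

open Classical in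
/-- the number of the monic irreducible factors over `ℚ` with a property -/
noncomputable def cnt (F : ℤ[X]) (S : ℚ[X] → Prop) : ℕ :=
  ((normalizedFactors (qq F)).toFinset.filter S).card

lemma qq_ne {F : ℤ[X]} (h : F ≠ 0) : qq F ≠ 0 := by
  rwa [Ne, Polynomial.map_eq_zero_iff (Int.castRingHom ℚ).injective_int]

lemma cnt_mul {F G : ℤ[X]} (hF : F ≠ 0) (hG : G ≠ 0) (h : IsCoprime (qq F) (qq G))
    (S : ℚ[X] → Prop) : cnt (F * G) S = cnt F S + cnt G S := by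
  classical
  unfold cnt
  rw [← card_union_of_disjoint]
  · congr 1
    rw [← filter_union]
    congr 1
    ext q
    rw [mem_union, Multiset.mem_toFinset, Multiset.mem_toFinset, Multiset.mem_toFinset]
    rw [show qq (F * G) = qq F * qq G from Polynomial.map_mul _,
      normalizedFactors_mul (qq_ne hF) (qq_ne hG), Multiset.mem_add]
  · rw [disjoint_left]
    intro q h1 h2
    rw [mem_filter, Multiset.mem_toFinset] at h1 h2
    have hirr := irreducible_of_normalized_factor q h1.1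
    have d1 := dvd_of_mem_normalizedFactors h1.1
    have d2 := dvd_of_mem_normalizedFactors h2.1
    exact hirr.not_isUnit (h.isUnit_of_dvd' d1 d2)

lemma cnt_C {c : ℤ} (hc : c ≠ 0) (S : ℚ[X] → Prop) : cnt (C c) S = 0 := by
  classical
  unfold cnt
  rw [card_eq_zero, filter_eq_empty_iff]
  intro q hq
  rw [Multiset.mem_toFinset] at hq
  have h1 := dvd_of_mem_normalizedFactors hq
  have hirr := irreducible_of_normalized_factor q hq
  exfalso
  apply hirr.not_isUnit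
  refine isUnit_of_dvd_unit h1 ?_
  unfold qq
  rw [map_C, isUnit_C, isUnit_iff_ne_zero]
  simpa using hc

lemma qq_irr {i : ℤ[X]} (hi : Irreducible i) (hd : 0 < i.natDegree) : Irreducible (qq i) :=
  (IsPrimitive.Int.irreducible_iff_irreducible_map_cast (hi.isPrimitive hd.ne')).1 hi

open Classical in
lemma cnt_irr {i : ℤ[X]} (hi : Irreducible i) (hd : 0 < i.natDegree) (S : ℚ[X] → Prop) :
    cnt i S = if S (normalize (qq i)) then 1 else 0 := by
  unfold cnt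
  rw [normalizedFactors_irreducible (qq_irr hi hd), Multiset.toFinset_singleton, filter_singleton]
  split_ifs <;> rfl

/-- the roots of a product -/
lemma Rt_mul {f g : ℤ[X]} {u v : ℤ[X]} {N : ℤ} (hN : N ≠ 0) (h : u * f + v * g = C N) {p : ℕ}
    (hp : p.Prime) (hpN : N.natAbs < p) :
    CN.Rt (f * g) p = CN.Rt f p ∪ CN.Rt g p ∧ Disjoint (CN.Rt f p) (CN.Rt g p) := by
  classical
  have hpi : Prime (p : ℤ) := Nat.prime_iff_prime_int.1 hp
  unfold CN.Rt
  constructor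
  · ext a
    rw [mem_union, mem_filter, mem_filter, mem_filter, eval_mul]
    constructor
    · rintro ⟨h1, h2⟩
      rcases hpi.dvd_or_dvd h2 with h3 | h3
      · exact Or.inl ⟨h1, h3⟩
      · exact Or.inr ⟨h1, h3⟩
    · rintro (⟨h1, h2⟩ | ⟨h1, h2⟩)
      · exact ⟨h1, h2.mul_right _⟩
      · exact ⟨h1, h2.mul_left _⟩
  · rw [disjoint_left]
    intro a ha ha'
    rw [mem_filter] at ha ha'
    have h1 := congrArg (Polynomial.eval (a : ℤ)) h
    rw [eval_add, eval_mul, eval_mul, eval_C] at h1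
    have h2 : (p : ℤ) ∣ N := by
      rw [← h1]
      exact dvd_add (ha.2.mul_left _) (ha'.2.mul_left _)
    have h3 := Nat.le_of_dvd (Int.natAbs_pos.2 hN) (Int.natCast_dvd.1 h2)
    omega

lemma Rt_C {c : ℤ} (hc : c ≠ 0) {p : ℕ} (hp : c.natAbs < p) : CN.Rt (C c) p = ∅ := by
  unfold CN.Rt
  rw [filter_eq_empty_iff]
  intro a _ h
  rw [eval_C] at h
  have h3 := Nat.le_of_dvd (Int.natAbs_pos.2 hc) (Int.natCast_dvd.1 h)
  omega

lemma xs_mul {f g : ℤ[X]} (κ : ℤ[X]) {u v : ℤ[X]} {N : ℤ} (hN : N ≠ 0)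
    (h : u * f + v * g = C N) {p : ℕ} (hp : p.Prime) (hpN : N.natAbs < p) :
    xs (f * g) κ p = xs f κ p + xs g κ p := by
  obtain ⟨h1, h2⟩ := Rt_mul hN h hp hpN
  unfold xs
  rw [h1, sum_union h2]

/-- a square has trivial symbols -/
lemma sq_one {f κ : ℤ[X]} (hc : IsCoprime (qq f) (qq κ)) (h : SqM f κ) :
    ∃ z0 : ℕ, ∀ p : ℕ, p.Prime → z0 < p → ∀ r ∈ CN.Rt f p, Jr (κ.eval (r : ℤ)) p = 1 := by
  obtain ⟨q, w, hw⟩ := h
  obtain ⟨u, v, N, hN, huv⟩ := UT.bez hc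
  obtain ⟨b, hb', hbQ⟩ := IsLocalization.integerNormalization_spec (nonZeroDivisors ℤ) q
  obtain ⟨b', hb'', hbW⟩ := IsLocalization.integerNormalization_spec (nonZeroDivisors ℤ) w
  have hb0 : b ≠ 0 := nonZeroDivisors.ne_zero hb'
  have hb0' : b' ≠ 0 := nonZeroDivisors.ne_zero hb''
  set Q := IsLocalization.integerNormalization (nonZeroDivisors ℤ) q with hQ
  set W := IsLocalization.integerNormalization (nonZeroDivisors ℤ) w with hW
  have e1 : Q.map (Int.castRingHom ℚ) = C (b : ℚ) * q := by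
    rw [show (Int.castRingHom ℚ) = algebraMap ℤ ℚ from rfl, hbQ, zsmul_eq_mul]
    simp
  have e2 : W.map (Int.castRingHom ℚ) = C (b' : ℚ) * w := by
    rw [show (Int.castRingHom ℚ) = algebraMap ℤ ℚ from rfl, hbW, zsmul_eq_mul]
    simp
  have hid : C (b ^ 2 * b') * κ - C b' * Q ^ 2 = f * (C (b ^ 2) * W) := by
    apply Polynomial.map_injective (Int.castRingHom ℚ) Int.cast_injective
    rw [Polynomial.map_sub, Polynomial.map_mul, Polynomial.map_mul, Polynomial.map_mul,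
      Polynomial.map_mul, Polynomial.map_pow, e1, e2, Polynomial.map_C, Polynomial.map_C,
      Polynomial.map_C]
    simp only [eq_intCast, Int.cast_mul, Int.cast_pow, map_mul, map_pow]
    linear_combination (C (b : ℚ) ^ 2 * C (b' : ℚ)) * hw
  refine ⟨2 + N.natAbs + b.natAbs + b'.natAbs, fun p hp hpz r hr => ?_⟩
  have hpi : Prime (p : ℤ) := Nat.prime_iff_prime_int.1 hp
  have hpf : (p : ℤ) ∣ f.eval (r : ℤ) := by
    unfold CN.Rt at hr
    exact (mem_filter.1 hr).2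
  have hbig : ∀ c : ℤ, c ≠ 0 → c.natAbs ≤ 2 + N.natAbs + b.natAbs + b'.natAbs → ¬ (p : ℤ) ∣ c := by
    intro c hc hcp h
    have := Nat.le_of_dvd (Int.natAbs_pos.2 hc) (Int.natCast_dvd.1 h)
    omega
  have hκ : ¬ (p : ℤ) ∣ κ.eval (r : ℤ) := by
    intro h1
    have h2 := congrArg (Polynomial.eval (r : ℤ)) huv
    rw [eval_add, eval_mul, eval_mul, eval_C] at h2
    apply hbig N hN (by omega)
    rw [← h2]
    exact dvd_add (hpf.mul_left _) (h1.mul_left _)
  have h1 := congrArg (Polynomial.eval (r : ℤ)) hid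
  rw [eval_sub, eval_mul, eval_mul, eval_mul, eval_pow, eval_C, eval_C] at h1
  have h2 : (p : ℤ) ∣ b' * (b ^ 2 * κ.eval (r : ℤ) - (Q.eval (r : ℤ)) ^ 2) := by
    have : b' * (b ^ 2 * κ.eval (r : ℤ) - (Q.eval (r : ℤ)) ^ 2) =
        b ^ 2 * b' * κ.eval (r : ℤ) - b' * (Q.eval (r : ℤ)) ^ 2 := by ring
    rw [this, h1]
    exact hpf.mul_right _
  have h3 : (p : ℤ) ∣ b ^ 2 * κ.eval (r : ℤ) - (Q.eval (r : ℤ)) ^ 2 :=
    (hpi.dvd_or_dvd h2).resolve_left (hbig b' hb0' (by omega))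
  have hbp : ¬ (p : ℤ) ∣ b := hbig b hb0 (by omega)
  have hQp : ¬ (p : ℤ) ∣ Q.eval (r : ℤ) := by
    intro h4
    have h5 : (p : ℤ) ∣ (Q.eval (r : ℤ)) ^ 2 := dvd_pow h4 two_ne_zero
    have h6 : (p : ℤ) ∣ b ^ 2 * κ.eval (r : ℤ) := (dvd_sub_left h5).1 h3
    rcases hpi.dvd_or_dvd h6 with h7 | h7
    · exact hbp (hpi.dvd_of_dvd_pow h7)
    · exact hκ h7
  have hsq1 : ∀ c : ℤ, ¬ (p : ℤ) ∣ c → jacobiSym (c ^ 2) p = 1 := by
    intro c hc
    apply jacobiSym.sq_one'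
    rw [← Int.isCoprime_iff_gcd_eq_one]
    exact IsCoprime.symm ((Prime.coprime_iff_not_dvd hpi).2 hc)
  have h4 : jacobiSym (b ^ 2 * κ.eval (r : ℤ)) p = jacobiSym ((Q.eval (r : ℤ)) ^ 2) p := by
    rw [jacobiSym.mod_left, jacobiSym.mod_left ((Q.eval (r : ℤ)) ^ 2)]
    congr 1
    exact (Int.modEq_iff_dvd.2 (by rwa [← dvd_neg, neg_sub]))
  rw [hsq1 _ hQp, jacobiSym.mul_left, hsq1 _ hbp, one_mul] at h4
  unfold Jr
  rw [h4]
  norm_num

/-- the bound for the twisted sums -/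
def TX (f κ : ℤ[X]) (z : ℕ) : Prop := ∃ B C : ℝ, ∀ (y r : ℕ) (x : Bool), z < y → 1 < r →
  Squarefree r → (∀ p : ℕ, p.Prime → p ∣ r → z < p) →
    ∑ p ∈ PS z y, xs f κ p / p * (Jr p r * x4 x p) ≤ B * Real.log (Real.log r) + C

/-- the sum with a main term -/
def MX (f κ : ℤ[X]) (m z : ℕ) : Prop := ∃ C : ℝ, ∀ y : ℕ, z < y →
  |∑ p ∈ PS z y, xs f κ p / p - m * Real.log (Real.log y)| ≤ C

lemma loglog_bd {z y : ℕ} (hz : 3 ≤ z) (hy : z < y) : 0 ≤ Real.log (Real.log y) :=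
  Real.log_nonneg (Run7.h69.AT.log_ge1 (by omega))

lemma TX_mul {f g κ : ℤ[X]} {z : ℕ} (h1 : TX f κ z) (h2 : TX g κ z)
    (h : ∀ p : ℕ, p.Prime → z < p → xs (f * g) κ p = xs f κ p + xs g κ p) : TX (f * g) κ z := by
  obtain ⟨B1, C1, hC1⟩ := h1
  obtain ⟨B2, C2, hC2⟩ := h2
  refine ⟨B1 + B2, C1 + C2, fun y r e hy hr hrs hrp => ?_⟩
  have e1 : ∑ p ∈ PS z y, xs (f * g) κ p / p * (Jr p r * x4 e p) =
      ∑ p ∈ PS z y, xs f κ p / p * (Jr p r * x4 e p) +
      ∑ p ∈ PS z y, xs g κ p / p * (Jr p r * x4 e p) := by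
    rw [← sum_add_distrib]
    refine sum_congr rfl fun p hp => ?_
    rw [mem_PS] at hp
    rw [h p hp.2 (by omega)]
    ring
  rw [e1]
  have h3 := hC1 y r e hy hr hrs hrp
  have h4 := hC2 y r e hy hr hrs hrp
  linarith

lemma MX_mul {f g κ : ℤ[X]} {m n z : ℕ} (h1 : MX f κ m z) (h2 : MX g κ n z)
    (h : ∀ p : ℕ, p.Prime → z < p → xs (f * g) κ p = xs f κ p + xs g κ p) :
    MX (f * g) κ (m + n) z := by
  obtain ⟨C1, hC1⟩ := h1
  obtain ⟨C2, hC2⟩ := h2
  refine ⟨C1 + C2, fun y hy => ?_⟩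
  have e1 : ∑ p ∈ PS z y, xs (f * g) κ p / p - ((m + n : ℕ) : ℝ) * Real.log (Real.log y) =
      (∑ p ∈ PS z y, xs f κ p / p - m * Real.log (Real.log y)) +
      (∑ p ∈ PS z y, xs g κ p / p - n * Real.log (Real.log y)) := by
    have e2 : ∑ p ∈ PS z y, xs (f * g) κ p / p =
        ∑ p ∈ PS z y, xs f κ p / p + ∑ p ∈ PS z y, xs g κ p / p := by
      rw [← sum_add_distrib]
      refine sum_congr rfl fun p hp => ?_
      rw [mem_PS] at hp
      rw [h p hp.2 (by omega)]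
      ring
    rw [e2]
    push_cast
    ring
  rw [e1]
  exact (abs_add_le _ _).trans (add_le_add (hC1 y hy) (hC2 y hy))

/-- the property of `κ` and a factor -/
def SqQ (κ : ℤ[X]) (q : ℚ[X]) : Prop := ∃ s : ℚ[X], q ∣ qq κ - s ^ 2

lemma const_case {c : ℤ} (hc : c ≠ 0) (κ : ℤ[X]) {z : ℕ} (hz : c.natAbs ≤ z) :
    TX (C c) κ z ∧ MX (C c) κ (cnt (C c) (SqQ κ)) z := by
  have h0 : ∀ p : ℕ, z < p → xs (C c) κ p = 0 := by
    intro p hp
    unfold xs
    rw [Rt_C hc (by omega), sum_empty]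
  constructor
  · refine ⟨0, 0, fun y r e hy _ _ _ => ?_⟩
    rw [zero_mul, zero_add]
    apply le_of_eq
    apply sum_eq_zero
    intro p hp
    rw [mem_PS] at hp
    rw [h0 p hp.1.1]
    simp
  · refine ⟨0, fun y hy => ?_⟩
    rw [cnt_C hc, Nat.cast_zero, zero_mul, sub_zero, sum_eq_zero, abs_zero]
    intro p hp
    rw [mem_PS] at hp
    rw [h0 p hp.1.1]
    simp

lemma irr_case (i κ : ℤ[X]) (hi : Irreducible i) (hd : 0 < i.natDegree)
    (hc : IsCoprime (qq i) (qq κ)) :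
    ∃ z0 : ℕ, ∀ z, z0 ≤ z → TX i κ z ∧ MX i κ (cnt i (SqQ κ)) z := by
  classical
  have hirr := qq_irr hi hd
  have hprim : i.IsPrimitive := hi.isPrimitive hd.ne'
  have hκ : ¬ i ∣ κ := by
    intro h
    have h1 := (IsPrimitive.Int.dvd_iff_map_cast_dvd_map_cast i κ hprim).1 h
    exact hirr.not_isUnit (hc.isUnit_of_dvd' dvd_rfl h1)
  obtain ⟨z1, hz1⟩ := tw i κ hi hd hκ
  have hSS : SqQ κ (normalize (qq i)) ↔ SqM i κ := by
    unfold SqQ SqM
    simp only [normalize_dvd_iff]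
  by_cases hs : SqM i κ
  · obtain ⟨z2, hz2⟩ := sq_one hc hs
    obtain ⟨CF, hCF0, hCF⟩ := Pool.Agent.H474R2.GE.mertens_rho i hi hd
    refine ⟨z1 + z2 + 3, fun z hz => ⟨hz1 z (by omega), ?_⟩⟩
    rw [cnt_irr hi hd, if_pos (hSS.2 hs)]
    refine ⟨CF + z, fun y hy => ?_⟩
    have h1 : ∑ p ∈ PS z y, xs i κ p / p = ∑ p ∈ PS z y, (rho i p : ℝ) / p := by
      refine sum_congr rfl fun p hp => ?_
      rw [mem_PS] at hp
      congr 1
      unfold xs
      rw [sum_congr rfl fun r hr => hz2 p hp.2 (by omega) r hr, sum_const, nsmul_eq_mul, mul_one]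
      rfl
    have h2 := abs_le.1 (hCF (y : ℝ) (by exact_mod_cast (by omega : 3 ≤ y)))
    unfold Pool.Agent.H474R2.PG.Sg at h2
    rw [PR_nat] at h2
    have hsplit : (Icc 1 y).filter Nat.Prime = (Icc 1 z).filter Nat.Prime ∪ PS z y := by
      ext p
      rw [mem_union, mem_filter, mem_filter, mem_Icc, mem_Icc, mem_PS]
      constructor
      · rintro ⟨⟨h1, h2⟩, h3⟩
        by_cases h4 : p ≤ z
        · exact Or.inl ⟨⟨h1, h4⟩, h3⟩
        · exact Or.inr ⟨⟨by omega, h2⟩, h3⟩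
      · rintro (⟨⟨h1, h2⟩, h3⟩ | ⟨⟨h1, h2⟩, h3⟩)
        · exact ⟨⟨h1, by omega⟩, h3⟩
        · exact ⟨⟨by omega, h2⟩, h3⟩
    have hdisj : Disjoint ((Icc 1 z).filter Nat.Prime) (PS z y) := by
      rw [disjoint_left]
      intro p hp hp'
      rw [mem_filter, mem_Icc] at hp
      rw [mem_PS] at hp'
      omega
    rw [hsplit, sum_union hdisj] at h2
    have h3 : ∑ p ∈ (Icc 1 z).filter Nat.Prime, (rho i p : ℝ) / p ≤ z := by
      calc ∑ p ∈ (Icc 1 z).filter Nat.Prime, (rho i p : ℝ) / p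
          ≤ ∑ p ∈ (Icc 1 z).filter Nat.Prime, (1 : ℝ) :=
            sum_le_sum fun p _ => UT.rho_div_le_one i p
        _ ≤ ∑ p ∈ Icc 1 z, (1 : ℝ) :=
            sum_le_sum_of_subset_of_nonneg (filter_subset _ _) fun _ _ _ => by norm_num
        _ = z := by simp
    have h4 : 0 ≤ ∑ p ∈ (Icc 1 z).filter Nat.Prime, (rho i p : ℝ) / p :=
      sum_nonneg fun p _ => by positivity
    have hz0 : (0 : ℝ) ≤ z := Nat.cast_nonneg z
    rw [h1, Nat.cast_one, one_mul, abs_le]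
    constructor <;> linarith [h2.1, h2.2]
  · obtain ⟨z2, hz2⟩ := nsq i κ hi hd hκ hs
    refine ⟨z1 + z2 + 3, fun z hz => ⟨hz1 z (by omega), ?_⟩⟩
    rw [cnt_irr hi hd, if_neg (fun h => hs (hSS.1 h))]
    obtain ⟨C, hC⟩ := hz2 z (by omega)
    refine ⟨C, fun y hy => ?_⟩
    rw [Nat.cast_zero, zero_mul, sub_zero]
    exact hC y hy

/-- **squarefree polynomials** -/
theorem sums (κ : ℤ[X]) (a : ℤ[X]) : Squarefree (qq a) → a ≠ 0 → IsCoprime (qq a) (qq κ) →
    ∃ z0 : ℕ, ∀ z, z0 ≤ z → TX a κ z ∧ MX a κ (cnt a (SqQ κ)) z := by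
  induction a using WfDvdMonoid.induction_on_irreducible with
  | zero => intro _ h; exact absurd rfl h
  | unit u hu =>
    intro _ _ _
    have hd : u.natDegree = 0 := natDegree_eq_zero_of_isUnit hu
    obtain ⟨c, hc⟩ := natDegree_eq_zero.1 hd
    subst hc
    have hc1 : IsUnit c := isUnit_C.1 hu
    exact ⟨c.natAbs, fun z hz => const_case hc1.ne_zero κ hz⟩
  | mul a i ha hi ih =>
    intro hsq _ hcop
    have hm : qq (i * a) = qq i * qq a := Polynomial.map_mul _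
    rw [hm] at hsq hcop
    have hsq' := hsq
    rw [squarefree_mul_iff] at hsq'
    obtain ⟨hrel, hsqi, hsqa⟩ := hsq'
    have hia : IsCoprime (qq i) (qq a) := hrel.isCoprime
    obtain ⟨z0, hz0⟩ := ih hsqa ha hcop.of_mul_left_right
    obtain ⟨u, v, N, hN, huv⟩ := UT.bez hia
    have hadd : ∀ p : ℕ, p.Prime → N.natAbs < p → xs (i * a) κ p = xs i κ p + xs a κ p :=
      fun p hp hpN => xs_mul κ hN huv hp hpN
    have hcnt := cnt_mul hi.ne_zero ha hia (SqQ κ)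
    have hi' : ∃ z1 : ℕ, ∀ z, z1 ≤ z → TX i κ z ∧ MX i κ (cnt i (SqQ κ)) z := by
      rcases Nat.eq_zero_or_pos i.natDegree with hd | hd
      · obtain ⟨c, hc⟩ := natDegree_eq_zero.1 hd
        have hc0 : c ≠ 0 := by
          rintro rfl
          rw [map_zero] at hc
          exact hi.ne_zero hc.symm
        subst hc
        exact ⟨c.natAbs, fun z hz => const_case hc0 κ hz⟩
      · exact irr_case i κ hi hd hcop.of_mul_left_left
    obtain ⟨z1, hz1⟩ := hi'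
    refine ⟨z0 + z1 + N.natAbs, fun z hz => ?_⟩
    have h1 := hz0 z (by omega)
    have h2 := hz1 z (by omega)
    have hadd' : ∀ p : ℕ, p.Prime → z < p → xs (i * a) κ p = xs i κ p + xs a κ p :=
      fun p hp hpz => hadd p hp (by omega)
    rw [hcnt]
    exact ⟨TX_mul h2.1 h1.1 hadd', MX_mul h2.2 h1.2 hadd'⟩

end Run7.h69.PK
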