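import Mathlib
import Pool.Agent.Run7.h69.AG2
import Pool.Agent.Run7.h69.PK3

/-!
# Linear combinations of the sums of symbols
-/

set_option autoImplicit false
set_option linter.unusedSectionVars false

namespace Run7.h69.FM

open Finset Polynomial
open Pool.Agent.W262.RK hiding lk ff s1 s2
open Pool.Agent.W655.RK (PS_prime PS_lt PS_le sum_inv_sq)
open PK (xs TX MX)

variable {D G0 G1 : ℤ[X]} {z : ℕ}

/-- the linear combinations -/
noncomputable def LCm (D G0 G1 : ℤ[X]) (u w : Fin 4 → ℝ) (κ : Fin 4 → ℤ[X]) (p : ℕ) : ℝ :=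
  iv D G0 G1 p * ∑ c, (u c * xs (GG D G0 G1 c) 1 p + w c * xs (GG D G0 G1 c) (κ c) p)

lemma xs_one (f : ℤ[X]) (p : ℕ) : xs f 1 p = rho f p := by
  unfold xs
  have h : ∀ r ∈ CN.Rt f p, Jr ((1 : ℤ[X]).eval (r : ℤ)) p = 1 := by
    intro r _
    unfold Jr
    rw [eval_one, jacobiSym.one_left]
    norm_num
  rw [sum_congr rfl h, sum_const, nsmul_eq_mul, mul_one]
  rfl

lemma abs_xs_le (f κ : ℤ[X]) (p : ℕ) : |xs f κ p| ≤ rho f p := by
  unfold xs
  refine (abs_sum_le_sum_abs _ _).trans ?_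
  refine (sum_le_sum fun r _ => abs_Jr_le _ _).trans ?_
  rw [sum_const, nsmul_eq_mul, mul_one]
  rfl

/-- the sums over the roots of the product -/
lemma sum_Rt (hz : Gd (PQ D G0 G1) z) {p : ℕ} (hp : p.Prime) (hpz : z < p) {α : Type*}
    [AddCommMonoid α] (F : ℕ → α) :
    ∑ r ∈ CN.Rt (PQ D G0 G1) p, F r = ∑ c : Fin 4, ∑ r ∈ CN.Rt (GG D G0 G1 c) p, F r := by
  classical
  have h1 : CN.Rt (PQ D G0 G1) p = (univ : Finset (Fin 4)).biUnion
      (fun c => CN.Rt (GG D G0 G1 c) p) := by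
    ext r
    unfold CN.Rt
    rw [mem_biUnion, mem_filter]
    constructor
    · rintro ⟨h1, h2⟩
      exact ⟨cl D G0 G1 p r, mem_univ _, mem_filter.2 ⟨h1, cl_dvd hp h2⟩⟩
    · rintro ⟨c, _, h2⟩
      rw [mem_filter] at h2
      exact ⟨h2.1, PQ_of_GG h2.2⟩
  rw [h1, sum_biUnion]
  intro c _ c' _ hne
  rw [Function.onFun, disjoint_left]
  intro r h2 h3
  unfold CN.Rt at h2 h3
  rw [mem_filter] at h2 h3
  exact excl hz hp hpz c c' hne h2.2 h3.2

lemma sum_rho_c (hz : Gd (PQ D G0 G1) z) {p : ℕ} (hp : p.Prime) (hpz : z < p) :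
    ∑ c : Fin 4, (rho (GG D G0 G1 c) p : ℝ) = rho (PQ D G0 G1) p := by
  have h := sum_Rt hz hp hpz (fun _ => (1 : ℝ))
  simp only [sum_const, nsmul_eq_mul, mul_one, CN.card_Rt] at h
  exact h.symm

lemma rho_le_n (hz : Gd (PQ D G0 G1) z) {p : ℕ} (hp : p.Prime) (hpz : z < p) (c : Fin 4) :
    (rho (GG D G0 G1 c) p : ℝ) ≤ (PQ D G0 G1).natDegree := by
  have h1 : (rho (PQ D G0 G1) p : ℝ) ≤ (PQ D G0 G1).natDegree := by
    exact_mod_cast hz.few p hp hpz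
  rw [← sum_rho_c hz hp hpz] at h1
  exact (single_le_sum (f := fun c => (rho (GG D G0 G1 c) p : ℝ))
    (fun c _ => Nat.cast_nonneg _) (mem_univ c)).trans h1

lemma iv_bd (hz : Gd (PQ D G0 G1) z) {p : ℕ} (hpz : z < p) :
    0 < iv D G0 G1 p ∧ iv D G0 G1 p ≤ 2 / p ∧ 1 / (p : ℝ) ≤ iv D G0 G1 p ∧
      iv D G0 G1 p - 1 / p ≤ 2 * (PQ D G0 G1).natDegree * (1 / (p : ℝ) ^ 2) := by
  have h2 : (2 * ((PQ D G0 G1).natDegree : ℝ) + 3 : ℝ) ≤ p := by
    have := hz.big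
    exact_mod_cast (by omega : 2 * (PQ D G0 G1).natDegree + 3 ≤ p)
  set n : ℝ := ((PQ D G0 G1).natDegree : ℝ) with hn'
  have hn : (0 : ℝ) ≤ n := Nat.cast_nonneg _
  have hp0 : (0 : ℝ) < p := by linarith
  have hpn : (0 : ℝ) < (p : ℝ) - n := by linarith
  unfold iv
  rw [← hn']
  refine ⟨by positivity, ?_, ?_, ?_⟩
  · rw [div_le_div_iff₀ hpn hp0]
    linarith
  · exact one_div_le_one_div_of_le hpn (by linarith)
  · have e1 : 1 / ((p : ℝ) - n) - 1 / p = n / (p * (p - n)) := by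
      field_simp
      ring
    rw [e1, mul_one_div, div_le_div_iff₀ (by positivity) (by positivity)]
    have e4 : (p : ℝ) ^ 2 ≤ 2 * (p * (p - n)) := by nlinarith
    calc n * (p : ℝ) ^ 2 ≤ n * (2 * (p * (p - n))) := mul_le_mul_of_nonneg_left e4 hn
      _ = _ := by ring

lemma part_bd (hz : Gd (PQ D G0 G1) z) {p : ℕ} (hp : p.Prime) (hpz : z < p) (u w : Fin 4 → ℝ)
    (κ : Fin 4 → ℤ[X]) :
    |∑ c, (u c * xs (GG D G0 G1 c) 1 p + w c * xs (GG D G0 G1 c) (κ c) p)| ≤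
      (∑ c, (|u c| + |w c|)) * (PQ D G0 G1).natDegree := by
  refine (abs_sum_le_sum_abs _ _).trans ?_
  rw [sum_mul]
  refine sum_le_sum fun c _ => (abs_add_le _ _).trans ?_
  rw [abs_mul, abs_mul, add_mul]
  have h1 := rho_le_n hz hp hpz c
  exact add_le_add (mul_le_mul_of_nonneg_left ((abs_xs_le _ _ _).trans h1) (abs_nonneg _))
    (mul_le_mul_of_nonneg_left ((abs_xs_le _ _ _).trans h1) (abs_nonneg _))

/-- the twisted sums of a linear combination -/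
theorem lc_TT (hz : Gd (PQ D G0 G1) z) {u w : Fin 4 → ℝ} {κ : Fin 4 → ℤ[X]}
    (hu : ∀ c, 0 ≤ u c) (hw : ∀ c, 0 ≤ w c) (h1 : ∀ c, TX (GG D G0 G1 c) 1 z)
    (h2 : ∀ c, w c ≠ 0 → TX (GG D G0 G1 c) (κ c) z) :
    ∃ B C : ℝ, BT.TT (LCm D G0 G1 u w κ) z B C := by
  obtain ⟨K, hK, hsq⟩ := sum_inv_sq
  have h2' : ∀ c, ∃ B C : ℝ, ∀ (y r : ℕ) (x : Bool), z < y → 1 < r →
      Squarefree r → (∀ p : ℕ, p.Prime → p ∣ r → z < p) →
      w c * ∑ p ∈ PS z y, xs (GG D G0 G1 c) (κ c) p / p * (Jr p r * x4 x p) ≤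
        B * Real.log (Real.log r) + C := by
    intro c
    by_cases hwc : w c = 0
    · refine ⟨0, 0, fun y r x _ _ _ _ => ?_⟩
      rw [hwc]
      simp
    · obtain ⟨B, C, h⟩ := h2 c hwc
      refine ⟨w c * B, w c * C, fun y r x hy hr hrs hrp => ?_⟩
      have := mul_le_mul_of_nonneg_left (h y r x hy hr hrs hrp) (hw c)
      linarith
  choose B1 C1 hC1 using h1
  choose B2 C2 hC2 using h2'
  set n : ℝ := ((PQ D G0 G1).natDegree : ℝ) with hn'
  have hn : 0 ≤ n := Nat.cast_nonneg _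
  set Kw : ℝ := (∑ c, (|u c| + |w c|)) * n with hKw
  have hKw0 : 0 ≤ Kw := by rw [hKw]; positivity
  refine ⟨∑ c, (u c * B1 c + B2 c), ∑ c, (u c * C1 c + C2 c) + 2 * n * Kw * K,
    fun y r x hy hr hrs hrp => ?_⟩
  have e1 : ∀ p ∈ PS z y, LCm D G0 G1 u w κ p * (Jr p r * x4 x p) ≤
      ∑ c, (u c * (xs (GG D G0 G1 c) 1 p / p * (Jr p r * x4 x p)) +
        w c * (xs (GG D G0 G1 c) (κ c) p / p * (Jr p r * x4 x p))) +
        2 * n * Kw * (1 / (p : ℝ) ^ 2) := by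
    intro p hp
    obtain ⟨i1, i2, i3, i4⟩ := iv_bd hz (PS_lt hp)
    have hb := part_bd hz (PS_prime hp) (PS_lt hp) u w κ
    rw [← hn', ← hKw] at hb
    set S : ℝ := ∑ c, (u c * xs (GG D G0 G1 c) 1 p + w c * xs (GG D G0 G1 c) (κ c) p) with hS
    set χ : ℝ := Jr p r * x4 x p with hχ
    have hχ1 : |χ| ≤ 1 := by
      rw [hχ, abs_mul]
      exact mul_le_one₀ (abs_Jr_le _ _) (abs_nonneg _) (abs_x4_le _ _)
    have e2 : ∑ c, (u c * (xs (GG D G0 G1 c) 1 p / p * χ) +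
        w c * (xs (GG D G0 G1 c) (κ c) p / p * χ)) = (1 / (p : ℝ)) * S * χ := by
      rw [hS, mul_sum, sum_mul]
      exact sum_congr rfl fun c _ => by ring
    rw [e2]
    have e3 : LCm D G0 G1 u w κ p * χ = (1 / (p : ℝ)) * S * χ +
        (iv D G0 G1 p - 1 / p) * (S * χ) := by
      unfold LCm
      rw [← hS]
      ring
    rw [e3]
    have e4 : S * χ ≤ Kw := by
      refine (le_abs_self _).trans ?_
      rw [abs_mul]
      calc |S| * |χ| ≤ Kw * 1 := mul_le_mul hb hχ1 (abs_nonneg _) hKw0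
        _ = Kw := mul_one _
    have e5 : (iv D G0 G1 p - 1 / p) * (S * χ) ≤ 2 * n * Kw * (1 / (p : ℝ) ^ 2) := by
      calc (iv D G0 G1 p - 1 / p) * (S * χ) ≤ (iv D G0 G1 p - 1 / p) * Kw :=
            mul_le_mul_of_nonneg_left e4 (by linarith)
        _ ≤ (2 * n * (1 / (p : ℝ) ^ 2)) * Kw := mul_le_mul_of_nonneg_right i4 hKw0
        _ = _ := by ring
    linarith
  refine (sum_le_sum e1).trans ?_
  rw [sum_add_distrib, ← mul_sum, sum_comm]
  have e6 : 2 * n * Kw * ∑ p ∈ PS z y, (1 / (p : ℝ) ^ 2) ≤ 2 * n * Kw * K :=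
    mul_le_mul_of_nonneg_left (hsq _) (by positivity)
  have e7 : ∑ c, ∑ p ∈ PS z y, (u c * (xs (GG D G0 G1 c) 1 p / p * (Jr p r * x4 x p)) +
        w c * (xs (GG D G0 G1 c) (κ c) p / p * (Jr p r * x4 x p))) ≤
      ∑ c, ((u c * B1 c + B2 c) * Real.log (Real.log r) + (u c * C1 c + C2 c)) := by
    refine sum_le_sum fun c _ => ?_
    rw [sum_add_distrib, ← mul_sum, ← mul_sum]
    have a1 := mul_le_mul_of_nonneg_left (hC1 c y r x hy hr hrs hrp) (hu c)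
    have a2 := hC2 c y r x hy hr hrs hrp
    linarith
  rw [sum_add_distrib, ← sum_mul] at e7
  linarith

/-- the sums of a linear combination -/
theorem lc_S (hz : Gd (PQ D G0 G1) z) {u w : Fin 4 → ℝ} {κ : Fin 4 → ℤ[X]}
    {n m : Fin 4 → ℕ} (h1 : ∀ c, MX (GG D G0 G1 c) 1 (n c) z)
    (h2 : ∀ c, w c ≠ 0 → MX (GG D G0 G1 c) (κ c) (m c) z) :
    ∃ C : ℝ, ∀ y, z < y → ∑ p ∈ PS z y, LCm D G0 G1 u w κ p ≤
      (∑ c, (u c * n c + w c * m c)) * Real.log (Real.log y) + C := by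
  obtain ⟨K, hK, hsq⟩ := sum_inv_sq
  have h2' : ∀ c, ∃ C : ℝ, ∀ y : ℕ, z < y →
      w c * ∑ p ∈ PS z y, xs (GG D G0 G1 c) (κ c) p / p ≤
        w c * m c * Real.log (Real.log y) + C := by
    intro c
    by_cases hwc : w c = 0
    · refine ⟨0, fun y _ => ?_⟩
      rw [hwc]
      simp
    · obtain ⟨C, h⟩ := h2 c hwc
      refine ⟨|w c| * C, fun y hy => ?_⟩
      have h3 := h y hy
      have h4 : w c * (∑ p ∈ PS z y, xs (GG D G0 G1 c) (κ c) p / p -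
          m c * Real.log (Real.log y)) ≤ |w c| * C := by
        refine (le_abs_self _).trans ?_
        rw [abs_mul]
        exact mul_le_mul_of_nonneg_left h3 (abs_nonneg _)
      linarith
  have h1' : ∀ c, ∃ C : ℝ, ∀ y : ℕ, z < y →
      u c * ∑ p ∈ PS z y, xs (GG D G0 G1 c) 1 p / p ≤
        u c * n c * Real.log (Real.log y) + C := by
    intro c
    obtain ⟨C, h⟩ := h1 c
    refine ⟨|u c| * C, fun y hy => ?_⟩
    have h3 := h y hy
    have h4 : u c * (∑ p ∈ PS z y, xs (GG D G0 G1 c) 1 p / p -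
        n c * Real.log (Real.log y)) ≤ |u c| * C := by
      refine (le_abs_self _).trans ?_
      rw [abs_mul]
      exact mul_le_mul_of_nonneg_left h3 (abs_nonneg _)
    linarith
  choose C1 hC1 using h1'
  choose C2 hC2 using h2'
  set nn : ℝ := ((PQ D G0 G1).natDegree : ℝ) with hn'
  have hn : 0 ≤ nn := Nat.cast_nonneg _
  set Kw : ℝ := (∑ c, (|u c| + |w c|)) * nn with hKw
  have hKw0 : 0 ≤ Kw := by rw [hKw]; positivity
  refine ⟨∑ c, (C1 c + C2 c) + 2 * nn * Kw * K, fun y hy => ?_⟩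
  have e1 : ∀ p ∈ PS z y, LCm D G0 G1 u w κ p ≤
      ∑ c, (u c * (xs (GG D G0 G1 c) 1 p / p) + w c * (xs (GG D G0 G1 c) (κ c) p / p)) +
        2 * nn * Kw * (1 / (p : ℝ) ^ 2) := by
    intro p hp
    obtain ⟨i1, i2, i3, i4⟩ := iv_bd hz (PS_lt hp)
    have hb := part_bd hz (PS_prime hp) (PS_lt hp) u w κ
    rw [← hn', ← hKw] at hb
    set S : ℝ := ∑ c, (u c * xs (GG D G0 G1 c) 1 p + w c * xs (GG D G0 G1 c) (κ c) p) with hS
    have e2 : ∑ c, (u c * (xs (GG D G0 G1 c) 1 p / p) +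
        w c * (xs (GG D G0 G1 c) (κ c) p / p)) = (1 / (p : ℝ)) * S := by
      rw [hS, mul_sum]
      exact sum_congr rfl fun c _ => by ring
    rw [e2]
    have e3 : LCm D G0 G1 u w κ p = (1 / (p : ℝ)) * S + (iv D G0 G1 p - 1 / p) * S := by
      unfold LCm
      rw [← hS]
      ring
    rw [e3]
    have e4 : S ≤ Kw := (le_abs_self _).trans hb
    have e5 : (iv D G0 G1 p - 1 / p) * S ≤ 2 * nn * Kw * (1 / (p : ℝ) ^ 2) := by
      calc (iv D G0 G1 p - 1 / p) * S ≤ (iv D G0 G1 p - 1 / p) * Kw :=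
            mul_le_mul_of_nonneg_left e4 (by linarith)
        _ ≤ (2 * nn * (1 / (p : ℝ) ^ 2)) * Kw := mul_le_mul_of_nonneg_right i4 hKw0
        _ = _ := by ring
    linarith
  refine (sum_le_sum e1).trans ?_
  rw [sum_add_distrib, ← mul_sum, sum_comm]
  have e6 : 2 * nn * Kw * ∑ p ∈ PS z y, (1 / (p : ℝ) ^ 2) ≤ 2 * nn * Kw * K :=
    mul_le_mul_of_nonneg_left (hsq _) (by positivity)
  have e7 : ∑ c, ∑ p ∈ PS z y, (u c * (xs (GG D G0 G1 c) 1 p / p) +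
        w c * (xs (GG D G0 G1 c) (κ c) p / p)) ≤
      ∑ c, ((u c * n c + w c * m c) * Real.log (Real.log y) + (C1 c + C2 c)) := by
    refine sum_le_sum fun c _ => ?_
    rw [sum_add_distrib, ← mul_sum, ← mul_sum]
    have a1 := hC1 c y hy
    have a2 := hC2 c y hy
    linarith
  rw [sum_add_distrib, ← sum_mul] at e7
  linarith

end Run7.h69.FM
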