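import Mathlib
import Pool.Agent.Run7.h69.AG3

/-!
# The combinatorics of the ten types
-/

set_option autoImplicit false
set_option linter.unusedSectionVars false

namespace Run7.h69.FM

open Finset
open Pool.Agent.W262.RK (Al ec)

/-- pairs of vectors -/
abbrev VX : Type := (Bool × Bool) × (Bool × Bool)

/-- the link -/
def lnk (i j : VX) : Bool := xor (j.2.1 && i.1.1) (j.2.2 && i.1.2)

/-- the zero vector -/
def vz : VX := ((false, false), (false, false))

/-- singular pairs -/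
def sgl (i : VX) : Bool := Al 3 i.1 i.2

/-- the two types are equal -/
def eqb (i j : VX) : Bool := decide (i = j)

lemma factA0 : ∀ c : Fin 4, ∀ w i i' : VX, (!(eqb i i') && (decide (c ≠ 3) && sgl w &&
    !(Al c w.1 w.2) && Al c i.1 i.2 && Al c i'.1 i'.2 && !(eqb i vz) && !(eqb i' vz) &&
    decide (lnk w i = lnk i w) && decide (lnk w i' = lnk i' w))) = false := by
  decide +kernel

lemma factA (c : Fin 4) (hc : c ≠ 3) (w i i' : VX) (h1 : sgl w = true)
    (h2 : Al c w.1 w.2 = false) (h3 : Al c i.1 i.2 = true) (h4 : Al c i'.1 i'.2 = true)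
    (h5 : i ≠ vz) (h6 : i' ≠ vz) (h7 : lnk w i = lnk i w) (h8 : lnk w i' = lnk i' w) :
    i = i' := by
  have h := factA0 c w i i'
  unfold eqb at h
  simpa [hc, h1, h2, h3, h4, h5, h6, h7, h8] using h

lemma factB : ∀ c : Fin 4, c ≠ 3 → ∀ i j : VX, Al c i.1 i.2 = true → Al c j.1 j.2 = true →
    lnk i j = false := by
  decide +kernel

lemma factC0 : ∀ c : Fin 4, ∀ t i i' : VX, (!(eqb i i') && (decide (c ≠ 3) && sgl t &&
    decide (t.1 ≠ (false, false)) && decide (t.1 ≠ ec c) && Al c i.1 i.2 && Al c i'.1 i'.2 &&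
    !(eqb i vz) && !(eqb i' vz) && decide (lnk t i = lnk i t) &&
    decide (lnk t i' = lnk i' t))) = false := by
  decide +kernel

/-- for a vector outside of the direction, at most one nonzero type is not linked -/
lemma factC (c : Fin 4) (hc : c ≠ 3) (t i i' : VX) (h1 : sgl t = true)
    (h0 : t.1 ≠ (false, false)) (h2 : t.1 ≠ ec c) (h3 : Al c i.1 i.2 = true)
    (h4 : Al c i'.1 i'.2 = true) (h5 : i ≠ vz) (h6 : i' ≠ vz) (h7 : lnk t i = lnk i t)
    (h8 : lnk t i' = lnk i' t) : i = i' := by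
  have h := factC0 c t i i'
  unfold eqb at h
  simpa [hc, h0, h1, h2, h3, h4, h5, h6, h7, h8] using h

lemma factD : ∀ i : VX, sgl i = true → i ≠ vz →
    (Al 0 i.1 i.2 = true ∧ Al 1 i.1 i.2 = false ∧ Al 2 i.1 i.2 = false) ∨
    (Al 0 i.1 i.2 = false ∧ Al 1 i.1 i.2 = true ∧ Al 2 i.1 i.2 = false) ∨
    (Al 0 i.1 i.2 = false ∧ Al 1 i.1 i.2 = false ∧ Al 2 i.1 i.2 = true) := by
  decide +kernel

lemma factE : ∀ c : Fin 4, ∀ i : VX, Al c i.1 i.2 = true → sgl i = true := by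
  decide +kernel

lemma factF : ∀ c : Fin 4, Al c vz.1 vz.2 = true := by
  decide +kernel

lemma factG : ∀ c : Fin 4, c ≠ 3 → ∀ i : VX, Al c i.1 i.2 = true →
    i.1 = (false, false) ∨ i.1 = ec c := by
  decide +kernel

/-- the weights -/
noncomputable def e0 (n : Fin 4 → ℝ) (i : VX) : ℝ :=
  (if Al 0 i.1 i.2 = true then n 0 / 2 else 0) + (if Al 1 i.1 i.2 = true then n 1 / 2 else 0) +
    (if Al 2 i.1 i.2 = true then n 2 / 2 else 0) + (if Al 3 i.1 i.2 = true then n 3 / 4 else 0)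

lemma e0_nonneg {n : Fin 4 → ℝ} (hn : ∀ c, 0 ≤ n c) (i : VX) : 0 ≤ e0 n i := by
  unfold e0
  have h0 := hn 0
  have h1 := hn 1
  have h2 := hn 2
  have h3 := hn 3
  split_ifs <;> positivity

lemma e0_z (n : Fin 4 → ℝ) : e0 n vz = n 0 / 2 + n 1 / 2 + n 2 / 2 + n 3 / 4 := by
  unfold e0
  rw [if_pos (factF 0), if_pos (factF 1), if_pos (factF 2), if_pos (factF 3)]

/-- the number of the nonzero types on a line -/
def kc (W : Finset VX) (c : Fin 4) : ℕ := (W.filter (fun i => i ≠ vz ∧ Al c i.1 i.2 = true)).card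

lemma sum_e0 {n : Fin 4 → ℝ} (hn : ∀ c, 0 ≤ n c) {W : Finset VX} (hW : ∀ i ∈ W, sgl i = true) :
    ∑ i ∈ W, e0 n i ≤ n 0 / 2 + n 1 / 2 + n 2 / 2 + n 3 / 4 +
      (kc W 0 * (n 0 / 2 + n 3 / 4) + kc W 1 * (n 1 / 2 + n 3 / 4) +
        kc W 2 * (n 2 / 2 + n 3 / 4)) := by
  have h1 : ∀ i ∈ W.filter (fun i => i ≠ vz), e0 n i =
      (if Al 0 i.1 i.2 = true then (n 0 / 2 + n 3 / 4) else 0) +
      (if Al 1 i.1 i.2 = true then (n 1 / 2 + n 3 / 4) else 0) +
      (if Al 2 i.1 i.2 = true then (n 2 / 2 + n 3 / 4) else 0) := by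
    intro i hi
    rw [mem_filter] at hi
    have hs := hW i hi.1
    have hs' : Al 3 i.1 i.2 = true := hs
    unfold e0
    rw [if_pos hs']
    rcases factD i hs hi.2 with ⟨a, b, c⟩ | ⟨a, b, c⟩ | ⟨a, b, c⟩ <;>
      simp [a, b, c]
  have h2 : ∑ i ∈ W, e0 n i ≤ e0 n vz + ∑ i ∈ W.filter (fun i => i ≠ vz), e0 n i := by
    have h3 : W ⊆ insert vz (W.filter (fun i => i ≠ vz)) := by
      intro i hi
      rw [mem_insert, mem_filter]
      by_cases h : i = vz
      · exact Or.inl h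
      · exact Or.inr ⟨hi, h⟩
    refine (sum_le_sum_of_subset_of_nonneg h3 fun i _ _ => e0_nonneg hn i).trans ?_
    rw [sum_insert (by simp)]
  have h3 : ∀ (c : Fin 4) (x : ℝ), ∑ i ∈ W.filter (fun i => i ≠ vz),
      (if Al c i.1 i.2 = true then x else 0) = kc W c * x := by
    intro c x
    rw [← sum_filter, filter_filter, sum_const, nsmul_eq_mul]
    rfl
  rw [sum_congr rfl h1, sum_add_distrib, sum_add_distrib, h3, h3, h3, e0_z] at h2
  exact h2

/-- an unlinked set which is not on a line -/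
lemma caseA {n : Fin 4 → ℝ} (hn : ∀ c, 0 ≤ n c) {W : Finset VX} (hW : ∀ i ∈ W, sgl i = true)
    (hU : ∀ i ∈ W, ∀ j ∈ W, lnk i j = lnk j i)
    (hc : ∀ c : Fin 4, c ≠ 3 → ∃ i ∈ W, Al c i.1 i.2 = false) :
    ∑ i ∈ W, e0 n i ≤ n 0 + n 1 + n 2 + n 3 := by
  have h1 : ∀ c : Fin 4, c ≠ 3 → (kc W c : ℝ) ≤ 1 := by
    intro c hc3
    obtain ⟨w, hw, hwc⟩ := hc c hc3
    have h2 : kc W c ≤ 1 := by
      unfold kc
      rw [card_le_one]
      intro i hi i' hi'
      rw [mem_filter] at hi hi'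
      exact factA c hc3 w i i' (hW w hw) hwc hi.2.2 hi'.2.2 hi.2.1 hi'.2.1 (hU w hw i hi.1)
        (hU w hw i' hi'.1)
    exact_mod_cast h2
  have h2 := sum_e0 hn hW
  have a0 := mul_le_mul_of_nonneg_right (h1 0 (by decide))
    (by have := hn 0; have := hn 3; positivity : 0 ≤ n 0 / 2 + n 3 / 4)
  have a1 := mul_le_mul_of_nonneg_right (h1 1 (by decide))
    (by have := hn 1; have := hn 3; positivity : 0 ≤ n 1 / 2 + n 3 / 4)
  have a2 := mul_le_mul_of_nonneg_right (h1 2 (by decide))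
    (by have := hn 2; have := hn 3; positivity : 0 ≤ n 2 / 2 + n 3 / 4)
  linarith

/-- a part of a line, not linked to an outside vector -/
lemma caseB {n : Fin 4 → ℝ} (hn : ∀ c, 0 ≤ n c) {W : Finset VX} {c : Fin 4} (hc3 : c ≠ 3)
    (hW : ∀ i ∈ W, Al c i.1 i.2 = true) {t : VX} (ht : sgl t = true)
    (ht0 : t.1 ≠ (false, false)) (htc : t.1 ≠ ec c) (hU : ∀ i ∈ W, lnk t i = lnk i t) :
    ∑ i ∈ W, e0 n i ≤ n 0 / 2 + n 1 / 2 + n 2 / 2 + n 3 / 2 + n c / 2 := by
  have hWs : ∀ i ∈ W, sgl i = true := fun i hi => factE c i (hW i hi)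
  have h1 : (kc W c : ℝ) ≤ 1 := by
    have h2 : kc W c ≤ 1 := by
      unfold kc
      rw [card_le_one]
      intro i hi i' hi'
      rw [mem_filter] at hi hi'
      exact factC c hc3 t i i' ht ht0 htc hi.2.2 hi'.2.2 hi.2.1 hi'.2.1 (hU i hi.1) (hU i' hi'.1)
    exact_mod_cast h2
  have h0 : ∀ c' : Fin 4, c' ≠ 3 → c' ≠ c → kc W c' = 0 := by
    intro c' hc' hcc
    unfold kc
    rw [card_eq_zero, filter_eq_empty_iff]
    rintro i hi ⟨h2, h3⟩
    have h4 := hW i hi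
    have key : ∀ c c' : Fin 4, c ≠ 3 → c' ≠ 3 → c' ≠ c → ∀ i : VX, i ≠ vz →
        Al c' i.1 i.2 = true → Al c i.1 i.2 = true → False := by decide +kernel
    exact key c c' hc3 hc' hcc i h2 h3 h4
  have h2 := sum_e0 hn hWs
  have key0 : ∀ c : Fin 4, c ≠ 3 → c = 0 ∨ c = 1 ∨ c = 2 := by decide
  have key := key0 c hc3
  have hn0 := hn 0
  have hn1 := hn 1
  have hn2 := hn 2
  have hn3 := hn 3
  rcases key with rfl | rfl | rfl
  · rw [h0 1 (by decide) (by decide), h0 2 (by decide) (by decide)] at h2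
    push_cast at h2
    have a0 := mul_le_mul_of_nonneg_right h1 (by positivity : 0 ≤ n 0 / 2 + n 3 / 4)
    linarith
  · rw [h0 0 (by decide) (by decide), h0 2 (by decide) (by decide)] at h2
    push_cast at h2
    have a0 := mul_le_mul_of_nonneg_right h1 (by positivity : 0 ≤ n 1 / 2 + n 3 / 4)
    linarith
  · rw [h0 0 (by decide) (by decide), h0 1 (by decide) (by decide)] at h2
    push_cast at h2
    have a0 := mul_le_mul_of_nonneg_right h1 (by positivity : 0 ≤ n 2 / 2 + n 3 / 4)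
    linarith

end Run7.h69.FM
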