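import Mathlib
import Pool.Agent.Run7.h69.AG4

/-!
# The local identity for two divisors
-/

set_option autoImplicit false
set_option linter.unusedSectionVars false

namespace Run7.h69.FM

open Finset Polynomial
open Pool.Agent.W262.RK hiding lk ff s1 s2
open Pool.Agent.W762.RK2 (ind wc loc_id sg)
open EX (Bk ch)
open PK (xs)

variable {D G0 G1 : ℤ[X]} {z : ℕ}

/-- the constants of the types -/
noncomputable def kcP (D G0 G1 : ℤ[X]) (c : Fin 4) (v x : Bool × Bool) : ℤ[X] :=
  if v = (false, false) ∨ x = (false, false) then 1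
  else if c = 3 then
    (if v = (true, false) then KP D G0 G1 c 0 * KP D G0 G1 c 2
      else if v = (false, true) then KP D G0 G1 c 0 * KP D G0 G1 c 1
      else -(KP D G0 G1 c 1 * KP D G0 G1 c 2))
  else KP D G0 G1 c 0

lemma kcP_eval (c : Fin 4) (v x : Bool × Bool) (r : ℤ) :
    Pool.Agent.W762.RK2.kc c (fun k => (KP D G0 G1 c k).eval r) v x =
      (kcP D G0 G1 c v x).eval r := by
  unfold Pool.Agent.W762.RK2.kc kcP
  split_ifs <;> simp [eval_mul]

/-- the local identity -/
lemma T2_loc (hz : Gd (PQ D G0 G1) z) {p : ℕ} (hp : p.Prime) (hpz : z < p) (v h : Bk 2) :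
    T2 D G0 G1 p v h = ∑ x : Bool × Bool,
      LCm D G0 G1 0 (fun c => if Al c (v 0, v 1) x = true then wc c else 0)
        (fun c => kcP D G0 G1 c (v 0, v 1) x) p *
      ((if x.1 = true then sg (h 0) else 1) * (if x.2 = true then sg (h 1) else 1)) := by
  classical
  set χ : Bool × Bool → ℝ := fun x =>
    (if x.1 = true then sg (h 0) else 1) * (if x.2 = true then sg (h 1) else 1) with hχ
  set F : ℕ → ℝ := fun r => ∑ x : Bool × Bool, if Al (cl D G0 G1 p r) (v 0, v 1) x = true then
    wc (cl D G0 G1 p r) * Jr ((kcP D G0 G1 (cl D G0 G1 p r) (v 0, v 1) x).eval (r : ℤ)) p * χ x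
      else 0 with hF
  have h1 : ∀ r ∈ CN.Rt (PQ D G0 G1) p,
      ∑ b : Bool, ind (Lp D G0 G1 p (r, b) (v 0) (v 1) (h 0) (h 1)) = 2 * F r := by
    intro r hr
    have h2 := loc_id (cl D G0 G1 p r) (fun k => (KP D G0 G1 (cl D G0 G1 p r) k).eval (r : ℤ)) hp
      (KP_ndvd hz hp hpz (Rt_dvd hr)) (v 0, v 1) (h 0) (h 1)
    rw [Fintype.sum_bool]
    unfold Lp
    have h3 : F r = ∑ x : Bool × Bool, if Al (cl D G0 G1 p r) (v 0, v 1) x = true then
        wc (cl D G0 G1 p r) * Jr (Pool.Agent.W762.RK2.kc (cl D G0 G1 p r)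
          (fun k => (KP D G0 G1 (cl D G0 G1 p r) k).eval (r : ℤ)) (v 0, v 1) x) p *
        ((if x.1 = true then sg (h 0) else 1) * (if x.2 = true then sg (h 1) else 1)) else 0 := by
      rw [hF]
      refine sum_congr rfl fun x _ => ?_
      rw [kcP_eval]
    rw [h3, ← h2]
    ring
  unfold T2 Ty
  rw [sum_product, sum_congr rfl h1, ← mul_sum, sum_Rt hz hp hpz F]
  have h4 : ∀ c : Fin 4, ∑ r ∈ CN.Rt (GG D G0 G1 c) p, F r = ∑ x : Bool × Bool,
      (if Al c (v 0, v 1) x = true then wc c else 0) *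
        xs (GG D G0 G1 c) (kcP D G0 G1 c (v 0, v 1) x) p * χ x := by
    intro c
    have h5 : ∀ r ∈ CN.Rt (GG D G0 G1 c) p, F r = ∑ x : Bool × Bool,
        (if Al c (v 0, v 1) x = true then wc c else 0) *
          Jr ((kcP D G0 G1 c (v 0, v 1) x).eval (r : ℤ)) p * χ x := by
      intro r hr
      rw [hF]
      simp only
      rw [cl_eq hz hp hpz (Rt_dvd hr)]
      refine sum_congr rfl fun x _ => ?_
      split_ifs <;> ring
    rw [sum_congr rfl h5, sum_comm]
    refine sum_congr rfl fun x _ => ?_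
    unfold xs
    rw [mul_sum, sum_mul]
  rw [sum_congr rfl fun c _ => h4 c, sum_comm]
  unfold LCm
  have e1 : ∀ S : ℝ, iv D G0 G1 p / 2 * (2 * S) = iv D G0 G1 p * S := fun S => by ring
  rw [e1, mul_sum]
  refine sum_congr rfl fun x _ => ?_
  rw [mul_assoc]
  congr 1
  rw [← sum_mul]
  congr 1
  refine sum_congr rfl fun c _ => ?_
  rw [Pi.zero_apply, zero_mul, zero_add]

/-- the ten types -/
abbrev I2 : Type := {i : VX // sgl i = true}

/-- the vector -/
def vc2 {M : ℕ} (i : I2 × Fin M) : Bk 2 := ![i.1.1.1.1, i.1.1.1.2]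

/-- the character -/
def ch2 {M : ℕ} (i : I2 × Fin M) : Bk 2 := ![i.1.1.2.1, i.1.1.2.2]

lemma dot2 (a b c d : Bool) : EX.dot ![a, b] ![c, d] = 0 ↔ xor (a && c) (b && d) = false := by
  unfold EX.dot
  rw [Fin.sum_univ_two]
  cases a <;> cases b <;> cases c <;> cases d <;> (simp [XP.bz]; try decide)

lemma dot_vc2 {M : ℕ} (i : I2 × Fin M) : EX.dot (ch2 i) (vc2 i) = 0 := by
  obtain ⟨⟨⟨⟨a, b⟩, ⟨c, d⟩⟩, hi⟩, m⟩ := i
  unfold ch2 vc2
  rw [dot2]
  unfold sgl Al at hi
  simpa using hi

lemma LX_lnk {M : ℕ} (i j : I2 × Fin M) : EX.LX vc2 ch2 i j = lnk i.1.1 j.1.1 := by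
  obtain ⟨⟨⟨⟨a, b⟩, ⟨c, d⟩⟩, hi⟩, m⟩ := i
  obtain ⟨⟨⟨⟨a', b'⟩, ⟨c', d'⟩⟩, hi'⟩, m'⟩ := j
  unfold EX.LX lnk ch2 vc2
  simp only
  have h := dot2 c' d' a b
  rcases h1 : xor (c' && a) (d' && b) with _ | _
  · rw [h1] at h
    rw [decide_eq_false_iff_not, not_not]
    exact h.2 rfl
  · rw [h1] at h
    rw [decide_eq_true_eq]
    intro h2
    have := h.1 h2
    exact absurd this (by simp)

lemma LCm_div (w : Fin 4 → ℝ) (κ : Fin 4 → ℤ[X]) (p : ℕ) (x : ℝ) :
    LCm D G0 G1 0 (fun c => w c / x) κ p = LCm D G0 G1 0 w κ p / x := by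
  unfold LCm
  rw [mul_div_assoc, sum_div]
  congr 1
  refine sum_congr rfl fun c _ => ?_
  rw [Pi.zero_apply]
  ring

/-- the coefficients -/
noncomputable def aA (D G0 G1 : ℤ[X]) (M : ℕ) (i : I2 × Fin M) (p : ℕ) : ℝ :=
  LCm D G0 G1 0 (fun c => (if Al c i.1.1.1 i.1.1.2 = true then wc c else 0) / M)
    (fun c => kcP D G0 G1 c i.1.1.1 i.1.1.2) p

lemma ch_two (a b : Bool) (h : Bk 2) : ch ![a, b] h =
    (if a = true then sg (h 0) else 1) * (if b = true then sg (h 1) else 1) := by
  unfold ch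
  rw [Fin.prod_univ_two]
  rfl

lemma factH : ∀ c : Fin 4, ∀ i : VX, sgl i = false → Al c i.1 i.2 = false := by
  decide +kernel

/-- the local identity in the form needed -/
lemma T2_hT (hz : Gd (PQ D G0 G1) z) {M : ℕ} (hM : 1 ≤ M) (p : ℕ) (hp : p.Prime) (hpz : z < p)
    (v h : Bk 2) : T2 D G0 G1 p v h = ∑ i : I2 × Fin M,
      if vc2 i = v then aA D G0 G1 M i p * ch (ch2 i) h else 0 := by
  classical
  set A : VX → ℝ := fun q => LCm D G0 G1 0 (fun c => if Al c q.1 q.2 = true then wc c else 0)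
        (fun c => kcP D G0 G1 c q.1 q.2) p with hA
  have hM0 : (M : ℝ) ≠ 0 := by exact_mod_cast (by omega : M ≠ 0)
  have h1 : ∑ i : I2 × Fin M, (if vc2 i = v then aA D G0 G1 M i p * ch (ch2 i) h else 0) =
      ∑ q : I2, (if q.1.1 = (v 0, v 1) then A q.1 *
        ((if q.1.2.1 = true then sg (h 0) else 1) * (if q.1.2.2 = true then sg (h 1) else 1))
        else 0) := by
    rw [Fintype.sum_prod_type]
    refine sum_congr rfl fun q _ => ?_
    have hc : ∀ m : Fin M, (vc2 (q, m) = v ↔ q.1.1 = (v 0, v 1)) := by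
      intro m
      unfold vc2
      constructor
      · intro h5
        rw [← h5]
        rfl
      · intro h5
        have a0 : q.1.1.1 = v 0 := congrArg Prod.fst h5
        have a1 : q.1.1.2 = v 1 := congrArg Prod.snd h5
        funext l
        fin_cases l
        · exact a0
        · exact a1
    have h2 : ∀ m : Fin M, (if vc2 (q, m) = v then aA D G0 G1 M (q, m) p * ch (ch2 (q, m)) h
        else 0) = (if q.1.1 = (v 0, v 1) then A q.1 *
        ((if q.1.2.1 = true then sg (h 0) else 1) * (if q.1.2.2 = true then sg (h 1) else 1))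
        else 0) / M := by
      intro m
      by_cases h3 : q.1.1 = (v 0, v 1)
      · rw [if_pos h3, if_pos ((hc m).2 h3)]
        unfold aA ch2
        simp only
        rw [LCm_div, ch_two, hA]
        ring
      · rw [if_neg h3, if_neg (fun h4 => h3 ((hc m).1 h4)), zero_div]
    rw [sum_congr rfl fun m _ => h2 m, sum_const, card_univ, Fintype.card_fin, nsmul_eq_mul]
    field_simp
  rw [h1, T2_loc hz hp hpz v h]
  have h2 : ∑ q : I2, (if q.1.1 = (v 0, v 1) then A q.1 *
        ((if q.1.2.1 = true then sg (h 0) else 1) * (if q.1.2.2 = true then sg (h 1) else 1))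
        else 0) = ∑ q : VX, (if q.1 = (v 0, v 1) then A q *
        ((if q.2.1 = true then sg (h 0) else 1) * (if q.2.2 = true then sg (h 1) else 1))
        else 0) := by
    rw [← sum_subtype (s := (univ : Finset VX).filter (fun q => sgl q = true))
      (p := fun q => sgl q = true) (fun q => by simp)
      (fun q : VX => if q.1 = (v 0, v 1) then A q *
        ((if q.2.1 = true then sg (h 0) else 1) * (if q.2.2 = true then sg (h 1) else 1))
        else 0)]
    refine sum_subset (filter_subset _ _) fun q _ hq => ?_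
    have hq' : sgl q = false := by
      rw [mem_filter, not_and] at hq
      have := hq (mem_univ _)
      simpa using this
    have hA0 : A q = 0 := by
      rw [hA]
      unfold LCm
      simp only [factH _ q hq', Pi.zero_apply, zero_mul]
      simp
    rw [hA0]
    simp
  have h3 : ∑ q : VX, (if q.1 = (v 0, v 1) then A q *
        ((if q.2.1 = true then sg (h 0) else 1) * (if q.2.2 = true then sg (h 1) else 1))
        else 0) = ∑ x : Bool × Bool, A ((v 0, v 1), x) *
        ((if x.1 = true then sg (h 0) else 1) * (if x.2 = true then sg (h 1) else 1)) := by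
    rw [Fintype.sum_prod_type (f := fun q : VX => (if q.1 = (v 0, v 1) then A q *
        ((if q.2.1 = true then sg (h 0) else 1) * (if q.2.2 = true then sg (h 1) else 1))
        else 0))]
    rw [sum_eq_single (v 0, v 1) (fun b _ hb => by
        refine sum_eq_zero fun x _ => ?_
        rw [if_neg hb]) (fun h => absurd (mem_univ _) h)]
    refine sum_congr rfl fun x _ => ?_
    rw [if_pos rfl]
  rw [h2, h3]

end Run7.h69.FM
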