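import Mathlib
import Pool.Agent.Run7.h69.BT3

/-! The bounds for the Euler products from the bounds for the sums over primes, second version. -/

set_option autoImplicit false
set_option linter.unusedSectionVars false

namespace Run7.h69

open Finset
open Pool.Agent.W262.RK hiding LL ff s1 s2
open Pool.Agent.W655.RK (PS_prime PS_lt PS_le prod_primes_squarefree sum_mult prod_le_exp
  sum_inv_sq chr chr_prod chr_abs exp_small)
open Run7.h69.AT (dv_pf log_pos' log_ge1)

namespace BT

/-- the enlarged weight -/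
noncomputable def bs (N : ℕ) (b : ℕ → ℝ) (p : ℕ) : ℝ := b p * (1 + 2 / (p : ℝ)) ^ N

lemma bern (N : ℕ) {x : ℝ} (h0 : 0 ≤ x) (h1 : x ≤ 1) : (1 + x) ^ N ≤ 1 + 2 ^ N * x := by
  have key : (1 + x) ^ N ≤ 1 + (2 ^ N - 1) * x := by
    induction N with
    | zero => simp
    | succ n ih =>
      have h2 : (0 : ℝ) ≤ 2 ^ n - 1 := by
        have := one_le_pow₀ (by norm_num : (1 : ℝ) ≤ 2) (n := n)
        linarith
      calc (1 + x) ^ (n + 1) = (1 + x) ^ n * (1 + x) := pow_succ _ _
        _ ≤ (1 + (2 ^ n - 1) * x) * (1 + x) := mul_le_mul_of_nonneg_right ih (by linarith)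
        _ ≤ _ := by
          rw [pow_succ]
          nlinarith [mul_nonneg h2 (mul_nonneg h0 (sub_nonneg.2 h1))]
  nlinarith

lemma gm_bs (N : ℕ) (b : ℕ → ℝ) (d : ℕ) : gm (bs N b) d =
    ∏ p ∈ d.primeFactors, (b p * (1 + 2 / (p : ℝ)) ^ N) := rfl

section single

variable {b : ℕ → ℝ} {z : ℕ} {e C0 : ℝ}

lemma phi_sum (N : ℕ) (_hz : 2 ≤ z) (hb0 : ∀ p : ℕ, p.Prime → z < p → 0 ≤ b p)
    (hb1 : ∀ p : ℕ, p.Prime → z < p → b p ≤ 1 / (p : ℝ)) (he : 0 ≤ e)
    (hS : ∀ y, z < y → ∑ p ∈ PS z y, b p ≤ e * Real.log (Real.log y) + C0) :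
    ∃ B : ℝ, 0 ≤ B ∧ ∀ y, 3 ≤ y → ∑ p ∈ PS z y, b p * (1 + 2 / (p : ℝ)) ^ N ≤
      e * Real.log (Real.log y) + B := by
  obtain ⟨K, hK, hsq⟩ := sum_inv_sq
  refine ⟨|C0| + 2 ^ N * 2 * K, by positivity, fun y hy => ?_⟩
  have hll : 0 ≤ Real.log (Real.log y) := Real.log_nonneg (log_ge1 hy)
  have h1 : ∑ p ∈ PS z y, b p ≤ e * Real.log (Real.log y) + |C0| := by
    rcases Nat.lt_or_ge z y with h | h
    · have := hS y h
      have := le_abs_self C0
      linarith
    · have : PS z y = ∅ := by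
        unfold PS
        rw [Finset.Ioc_eq_empty (by omega)]
        rfl
      rw [this, sum_empty]
      positivity
  have h2 : ∑ p ∈ PS z y, (2 ^ N * 2) * (1 / (p : ℝ) ^ 2) ≤ 2 ^ N * 2 * K := by
    rw [← mul_sum]
    exact mul_le_mul_of_nonneg_left (hsq _) (by positivity)
  have h3 : ∀ p ∈ PS z y, b p * (1 + 2 / (p : ℝ)) ^ N ≤ b p + (2 ^ N * 2) * (1 / (p : ℝ) ^ 2) := by
    intro p hp
    have h3 := hb1 p (PS_prime hp) (PS_lt hp)
    have h4 := hb0 p (PS_prime hp) (PS_lt hp)
    have hp0 : (0 : ℝ) < p := by exact_mod_cast (PS_prime hp).pos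
    have hp2 : (2 : ℝ) ≤ p := by exact_mod_cast (PS_prime hp).two_le
    have h5 := bern N (x := 2 / (p : ℝ)) (by positivity) (by rw [div_le_one hp0]; exact hp2)
    calc b p * (1 + 2 / (p : ℝ)) ^ N ≤ b p * (1 + 2 ^ N * (2 / (p : ℝ))) :=
          mul_le_mul_of_nonneg_left h5 h4
      _ = b p + (2 ^ N * 2) * (b p * (1 / (p : ℝ))) := by ring
      _ ≤ b p + (2 ^ N * 2) * (1 / (p : ℝ) * (1 / (p : ℝ))) := by
          gcongr
      _ = _ := by field_simp
  calc ∑ p ∈ PS z y, b p * (1 + 2 / (p : ℝ)) ^ N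
      ≤ ∑ p ∈ PS z y, (b p + (2 ^ N * 2) * (1 / (p : ℝ) ^ 2)) := sum_le_sum h3
    _ ≤ _ := by
      rw [sum_add_distrib]
      linarith

lemma Fs (N : ℕ) (hz : 2 ≤ z) (hb0 : ∀ p : ℕ, p.Prime → z < p → 0 ≤ b p)
    (hb1 : ∀ p : ℕ, p.Prime → z < p → b p ≤ 1 / (p : ℝ)) (he : 0 ≤ e) (he1 : e ≤ 1 / 2)
    (hS : ∀ y, z < y → ∑ p ∈ PS z y, b p ≤ e * Real.log (Real.log y) + C0) :
    ∃ C : ℝ, 1 ≤ C ∧
    (∀ y, z < y → ∑ d ∈ (PP z y).divisors, gm (bs N b) d ≤ C * (Real.log y) ^ e) ∧
    (∀ (y V : ℕ), z < y → 3 ≤ V →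
      ∑ d ∈ (PP z y).divisors.filter (fun d => d ≤ V), gm (bs N b) d ≤ C * (Real.log V) ^ e) ∧
    (∀ (y Y : ℕ), z < y → 1 ≤ Y →
      ∑ d ∈ (PP z y).divisors.filter (fun d => Y < d), gm (bs N b) d ≤
        C * Real.exp (-(Real.log Y / Real.log y)) * (Real.log y) ^ 2) := by
  obtain ⟨B, hB0, hsum⟩ := phi_sum N hz hb0 hb1 he hS
  set φ : ℕ → ℝ := fun p => b p * (1 + 2 / (p : ℝ)) ^ N with hφ
  have hφ0 : ∀ y, ∀ p ∈ PS z y, 0 ≤ φ p := fun y p hp =>
    mul_nonneg (hb0 p (PS_prime hp) (PS_lt hp)) (by positivity)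
  have main : ∀ y : ℕ, 3 ≤ y → ∑ d ∈ (PP z y).divisors, gm (bs N b) d ≤
      Real.exp B * (Real.log y) ^ e := by
    intro y hy
    simp only [gm_bs]
    unfold PP
    rw [sum_mult (PS z y) (fun p hp => PS_prime hp) φ]
    refine (prod_le_exp _ _ fun p hp => by have := hφ0 y p hp; linarith).trans ?_
    rw [Real.rpow_def_of_pos (log_pos' (by omega)), ← Real.exp_add, Real.exp_le_exp]
    have := hsum y hy
    linarith
  have hnn : ∀ y d, d ∈ (PP z y).divisors → 0 ≤ gm (bs N b) d := by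
    intro y d hd
    rw [gm_bs]
    exact Finset.prod_nonneg fun p hp => hφ0 y p (dv_pf hd hp)
  refine ⟨Real.exp (3 * (B + 1)), Real.one_le_exp (by positivity), ?_, ?_, ?_⟩
  · intro y hy
    refine (main y (by omega)).trans ?_
    refine mul_le_mul_of_nonneg_right ?_ (Real.rpow_nonneg (log_pos' (by omega)).le _)
    rw [Real.exp_le_exp]
    linarith
  · intro y V hy hV
    have hsub : (PP z y).divisors.filter (fun d => d ≤ V) ⊆ (PP z (min y V)).divisors := by
      intro d hd
      rw [mem_filter] at hd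
      have h1 := dv_pf hd.1
      have h2 : Squarefree d := dv_squarefree hd.1
      rw [Nat.mem_divisors]
      refine ⟨?_, PP_ne_zero _ _⟩
      rw [← Nat.prod_primeFactors_of_squarefree h2]
      refine Finset.prod_dvd_prod_of_subset _ _ _ fun p hp => ?_
      have h3 := h1 hp
      have h4 : p ≤ d := Nat.le_of_mem_primeFactors hp
      exact mem_filter.2 ⟨mem_Ioc.2 ⟨PS_lt h3, le_min (PS_le h3) (h4.trans hd.2)⟩, PS_prime h3⟩
    have h1 : ∑ d ∈ (PP z y).divisors.filter (fun d => d ≤ V), gm (bs N b) d ≤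
        ∑ d ∈ (PP z (min y V)).divisors, gm (bs N b) d :=
      Finset.sum_le_sum_of_subset_of_nonneg hsub fun d hd _ => hnn _ d hd
    have hmin2 : 3 ≤ min y V := le_min (by omega) hV
    refine h1.trans ((main _ hmin2).trans ?_)
    have h2 : (Real.log (min y V : ℕ)) ^ e ≤ (Real.log V) ^ e := by
      refine Real.rpow_le_rpow (log_pos' (by omega)).le ?_ he
      exact Real.log_le_log (by exact_mod_cast (by omega : 0 < min y V))
        (by exact_mod_cast min_le_right y V)
    refine mul_le_mul ?_ h2 (Real.rpow_nonneg (log_pos' (by omega)).le _) (Real.exp_pos _).le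
    rw [Real.exp_le_exp]
    linarith
  · intro y Y hy hY
    have hy3 : 3 ≤ y := by omega
    have hly : 0 < Real.log y := log_pos' (by omega)
    have hly1 : 1 ≤ Real.log y := log_ge1 hy3
    have hY0 : (0:ℝ) < Y := by exact_mod_cast hY
    set ψ : ℕ → ℝ := fun p => φ p * Real.exp (Real.log p / Real.log y) with hψ
    have hterm : ∀ d ∈ (PP z y).divisors.filter (fun d => Y < d), gm (bs N b) d ≤
        Real.exp (-(Real.log Y / Real.log y)) * ∏ p ∈ d.primeFactors, ψ p := by
      intro d hd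
      rw [mem_filter] at hd
      have h1 := dv_pf hd.1
      have hd0 : 0 < d := Nat.pos_of_mem_divisors hd.1
      have h2 : Squarefree d := dv_squarefree hd.1
      have h3 : ∏ p ∈ d.primeFactors, Real.exp (Real.log p / Real.log y) =
          Real.exp (Real.log d / Real.log y) := by
        rw [← Real.exp_sum, ← Finset.sum_div, ← Real.log_prod]
        · congr 3
          conv_rhs => rw [← Nat.prod_primeFactors_of_squarefree h2]
          push_cast
          rfl
        · intro p hp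
          exact_mod_cast (Nat.prime_of_mem_primeFactors hp).ne_zero
      rw [hψ, Finset.prod_mul_distrib, h3, gm_bs]
      have h4 : 0 ≤ ∏ p ∈ d.primeFactors, φ p :=
        Finset.prod_nonneg fun p hp => hφ0 y p (h1 hp)
      have h5 : 1 ≤ Real.exp (-(Real.log Y / Real.log y)) * Real.exp (Real.log d / Real.log y) := by
        rw [← Real.exp_add]
        apply Real.one_le_exp
        rw [neg_add_eq_sub, ← sub_div]
        refine div_nonneg (sub_nonneg.2 (Real.log_le_log hY0 ?_)) hly.le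
        exact_mod_cast hd.2.le
      calc ∏ p ∈ d.primeFactors, φ p = (∏ p ∈ d.primeFactors, φ p) * 1 := (mul_one _).symm
        _ ≤ (∏ p ∈ d.primeFactors, φ p) * (Real.exp (-(Real.log Y / Real.log y)) *
            Real.exp (Real.log d / Real.log y)) := mul_le_mul_of_nonneg_left h5 h4
        _ = _ := by ring
    have hψ0 : ∀ p ∈ PS z y, 0 ≤ ψ p := fun p hp => mul_nonneg (hφ0 y p hp) (Real.exp_pos _).le
    have hψe : ∀ p ∈ PS z y, ψ p ≤ φ p * Real.exp 1 := by
      intro p hp
      refine mul_le_mul_of_nonneg_left ?_ (hφ0 y p hp)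
      rw [Real.exp_le_exp, div_le_one hly]
      exact Real.log_le_log (by exact_mod_cast (PS_prime hp).pos) (by exact_mod_cast PS_le hp)
    calc ∑ d ∈ (PP z y).divisors.filter (fun d => Y < d), gm (bs N b) d
        ≤ ∑ d ∈ (PP z y).divisors.filter (fun d => Y < d),
            Real.exp (-(Real.log Y / Real.log y)) * ∏ p ∈ d.primeFactors, ψ p :=
          Finset.sum_le_sum hterm
      _ ≤ ∑ d ∈ (PP z y).divisors,
            Real.exp (-(Real.log Y / Real.log y)) * ∏ p ∈ d.primeFactors, ψ p := by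
          refine Finset.sum_le_sum_of_subset_of_nonneg (filter_subset _ _) fun d hd _ => ?_
          exact mul_nonneg (Real.exp_pos _).le (Finset.prod_nonneg fun p hp => hψ0 p (dv_pf hd hp))
      _ = Real.exp (-(Real.log Y / Real.log y)) * ∏ p ∈ PS z y, (1 + ψ p) := by
          rw [← Finset.mul_sum]
          congr 1
          exact sum_mult (PS z y) (fun p hp => PS_prime hp) ψ
      _ ≤ Real.exp (-(Real.log Y / Real.log y)) *
            (Real.exp (3 * (B + 1)) * (Real.log y) ^ 2) := by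
          refine mul_le_mul_of_nonneg_left ?_ (Real.exp_pos _).le
          refine (prod_le_exp _ _ fun p hp => by have := hψ0 p hp; linarith).trans ?_
          have h6 : (Real.log y) ^ 2 = Real.exp (2 * Real.log (Real.log y)) := by
            rw [mul_comm, Real.exp_mul, Real.exp_log hly]
            norm_num
          rw [h6, ← Real.exp_add, Real.exp_le_exp]
          have h7 : ∑ p ∈ PS z y, ψ p ≤ (e * Real.log (Real.log y) + B) * Real.exp 1 := by
            calc ∑ p ∈ PS z y, ψ p ≤ ∑ p ∈ PS z y, φ p * Real.exp 1 := Finset.sum_le_sum hψe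
              _ = (∑ p ∈ PS z y, φ p) * Real.exp 1 := by rw [Finset.sum_mul]
              _ ≤ _ := mul_le_mul_of_nonneg_right (hsum y (by omega)) (Real.exp_pos _).le
          have h8 : 0 ≤ Real.log (Real.log y) := Real.log_nonneg hly1
          have h9 := Real.exp_one_lt_d9
          have h10 : e * Real.exp 1 ≤ 2 := by nlinarith [Real.exp_pos 1]
          have h11 : e * Real.log (Real.log y) * Real.exp 1 ≤ 2 * Real.log (Real.log y) := by
            calc e * Real.log (Real.log y) * Real.exp 1 = (e * Real.exp 1) * Real.log (Real.log y) := by ring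
              _ ≤ _ := mul_le_mul_of_nonneg_right h10 h8
          have h12 : B * Real.exp 1 ≤ 3 * B := by nlinarith
          linarith
      _ = _ := by ring


end single

/-- all the bounds -/
theorem bb_of {ι : Type} [Fintype ι] [DecidableEq ι] {e : ι → ℝ} {a b : ι → ℕ → ℝ} {z : ℕ}
    (N : ℕ) (hz : 2 ≤ z) (he0 : ∀ i, 0 ≤ e i) (he1 : ∀ i, e i ≤ 1 / 2)
    (hnull : ∀ i, e i = 0 → ∀ p : ℕ, p.Prime → z < p → b i p = 0)
    (hab : ∀ i, ∀ p : ℕ, p.Prime → z < p → |a i p| ≤ b i p)
    (hb1 : ∀ i, ∀ p : ℕ, p.Prime → z < p → b i p ≤ 1 / (p : ℝ))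
    (hS : ∀ i, ∃ C0 : ℝ, ∀ y, z < y → ∑ p ∈ PS z y, b i p ≤ e i * Real.log (Real.log y) + C0) :
    ∃ C : ℝ, Bb e a b z C N := by
  classical
  choose C0 hC0 using hS
  choose CF hCF1 hF1 hF2 hF3 using fun i => Fs N hz
    (fun p hp hpz => (abs_nonneg _).trans (hab i p hp hpz)) (hb1 i) (he0 i) (he1 i) (hC0 i)
  set C : ℝ := 1 + ∑ i, CF i with hC
  have hnn : ∀ i, 0 ≤ CF i := fun i => by
    have := hCF1 i
    linarith
  have hCF' : ∀ i, CF i ≤ C := by
    intro i
    have h1 : CF i ≤ ∑ i, CF i :=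
      single_le_sum (f := fun i => CF i) (fun j _ => hnn j) (mem_univ i)
    linarith
  refine ⟨C, ?_⟩
  exact
    { e0 := he0
      null := hnull
      e1 := fun i => (he1 i).trans (by norm_num)
      z2 := hz
      ab := hab
      b1 := hb1
      C1 := by
        have : 0 ≤ ∑ i, CF i := sum_nonneg fun i _ => hnn i
        linarith
      F1 := fun i y hy => (hF1 i y hy).trans (mul_le_mul_of_nonneg_right (hCF' i)
        (Real.rpow_nonneg (Real.log_natCast_nonneg y) _))
      F2 := fun i y V hy hV => (hF2 i y V hy hV).trans (mul_le_mul_of_nonneg_right (hCF' i)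
        (Real.rpow_nonneg (Real.log_natCast_nonneg V) _))
      F3 := fun i y Y hy hY => (hF3 i y Y hy hY).trans (by
        apply mul_le_mul_of_nonneg_right _ (by positivity)
        exact mul_le_mul_of_nonneg_right (hCF' i) (Real.exp_pos _).le) }

end BT

end Run7.h69
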