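import Mathlib
import Pool.Agent.Run7.h69.AG5
import Pool.Agent.Run7.h69.BU

/-!
# The terms with two different divisors
-/

set_option autoImplicit false
set_option linter.unusedSectionVars false

namespace Run7.h69.FM

open Finset Polynomial
open Pool.Agent.W262.RK hiding lk ff s1 s2
open Pool.Agent.W762.RK2 (ind wc loc_id sg)
open EX (Bk ch okD okU)
open PK (xs TX MX)

variable {D G0 G1 : ℤ[X]} {z : ℕ}

/-- the analytic data of a family -/
structure Fam (D G0 G1 : ℤ[X]) (z M : ℕ) (n m : Fin 4 → ℕ) : Prop where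
  gd : Gd (PQ D G0 G1) z
  mer : Mer (PQ D G0 G1) (n 0 + n 1 + n 2 + n 3)
  zM : 16 * M ≤ z
  nM : 2 * (PQ D G0 G1).natDegree ≤ M
  sM : 2 * (n 0 + n 1 + n 2 + n 3) ≤ M
  M1 : 1 ≤ M
  tx : ∀ c v x, TX (GG D G0 G1 c) (kcP D G0 G1 c v x) z
  m1 : ∀ c, MX (GG D G0 G1 c) 1 (n c) z
  mc : ∀ c, c ≠ 3 → MX (GG D G0 G1 c) (KP D G0 G1 c 0) (m c) z
  null : ∀ c, n c = 0 → ∀ p : ℕ, p.Prime → z < p → rho (GG D G0 G1 c) p = 0

lemma lc_abs (hz : Gd (PQ D G0 G1) z) {p : ℕ} (hpz : z < p) {w : Fin 4 → ℝ}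
    (hw : ∀ c, 0 ≤ w c) (κ κ' : Fin 4 → ℤ[X]) :
    |LCm D G0 G1 0 w κ p| ≤ LCm D G0 G1 w 0 κ' p := by
  unfold LCm
  have h1 := (iv_bd hz hpz).1
  rw [abs_mul, abs_of_pos h1]
  refine mul_le_mul_of_nonneg_left ?_ h1.le
  refine (abs_sum_le_sum_abs _ _).trans (sum_le_sum fun c _ => ?_)
  rw [Pi.zero_apply, zero_mul, zero_mul, zero_add, add_zero, abs_mul,
    abs_of_nonneg (hw c), xs_one]
  exact mul_le_mul_of_nonneg_left (abs_xs_le _ _ _) (hw c)

lemma lc_le (hz : Gd (PQ D G0 G1) z) {p : ℕ} (hp : p.Prime) (hpz : z < p) {M : ℕ} (hM1 : 1 ≤ M)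
    (hM : 2 * (PQ D G0 G1).natDegree ≤ M) {u : Fin 4 → ℝ} (hu : ∀ c, u c ≤ 1 / M)
    (κ : Fin 4 → ℤ[X]) : LCm D G0 G1 u 0 κ p ≤ 1 / p := by
  unfold LCm
  obtain ⟨h1, h2, -, -⟩ := iv_bd hz hpz
  have hM0 : (0 : ℝ) < M := by exact_mod_cast hM1
  have hp0 : (0 : ℝ) < p := by exact_mod_cast hp.pos
  have hMr : 2 * ((PQ D G0 G1).natDegree : ℝ) ≤ M := by exact_mod_cast hM
  have h3 : (rho (PQ D G0 G1) p : ℝ) ≤ (PQ D G0 G1).natDegree := by
    exact_mod_cast hz.few p hp hpz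
  have h4 : ∑ c, (u c * xs (GG D G0 G1 c) 1 p + (0 : Fin 4 → ℝ) c * xs (GG D G0 G1 c) (κ c) p) ≤
      1 / M * (rho (PQ D G0 G1) p : ℝ) := by
    rw [← sum_rho_c hz hp hpz, mul_sum]
    refine sum_le_sum fun c _ => ?_
    rw [Pi.zero_apply, zero_mul, add_zero, xs_one]
    exact mul_le_mul_of_nonneg_right (hu c) (Nat.cast_nonneg _)
  have h5 : 1 / (M : ℝ) * (rho (PQ D G0 G1) p : ℝ) ≤ 1 / 2 := by
    rw [one_div_mul_eq_div, div_le_iff₀ hM0]
    linarith
  calc iv D G0 G1 p * ∑ c, (u c * xs (GG D G0 G1 c) 1 p +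
        (0 : Fin 4 → ℝ) c * xs (GG D G0 G1 c) (κ c) p)
      ≤ iv D G0 G1 p * (1 / 2) := mul_le_mul_of_nonneg_left (h4.trans h5) h1.le
    _ ≤ 2 / p * (1 / 2) := mul_le_mul_of_nonneg_right h2 (by norm_num)
    _ = 1 / p := by ring

lemma lc_null {n : Fin 4 → ℕ} (hnull : ∀ c, n c = 0 → ∀ p : ℕ, p.Prime → z < p →
    rho (GG D G0 G1 c) p = 0) {u : Fin 4 → ℝ} (h : ∀ c, u c = 0 ∨ n c = 0) (κ : Fin 4 → ℤ[X])
    {p : ℕ} (hp : p.Prime) (hpz : z < p) : LCm D G0 G1 u 0 κ p = 0 := by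
  unfold LCm
  rw [sum_eq_zero, mul_zero]
  intro c _
  rw [Pi.zero_apply, zero_mul, add_zero, xs_one]
  rcases h c with h1 | h1
  · rw [h1, zero_mul]
  · rw [hnull c h1 p hp hpz, Nat.cast_zero, mul_zero]

/-- the coefficients for the majorant -/
noncomputable def uA (M : ℕ) (q : VX) (c : Fin 4) : ℝ :=
  (if Al c q.1 q.2 = true then wc c else 0) / M

lemma uA_nonneg (M : ℕ) (q : VX) (c : Fin 4) : 0 ≤ uA M q c := by
  unfold uA wc
  split_ifs <;> positivity

lemma uA_le {M : ℕ} (hM : 1 ≤ M) (q : VX) (c : Fin 4) : uA M q c ≤ 1 / M := by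
  have hM0 : (0 : ℝ) < M := by exact_mod_cast hM
  unfold uA wc
  refine div_le_div_of_nonneg_right ?_ hM0.le
  split_ifs <;> norm_num

lemma uA_sum (n : Fin 4 → ℕ) (M : ℕ) (q : VX) :
    ∑ c, uA M q c * n c = e0 (fun c => (n c : ℝ)) q / M := by
  rw [Fin.sum_univ_four]
  unfold uA e0 wc
  rw [if_neg (by decide : ¬ (0 : Fin 4) = 3), if_neg (by decide : ¬ (1 : Fin 4) = 3),
    if_neg (by decide : ¬ (2 : Fin 4) = 3), if_pos rfl]
  split_ifs <;> ring

/-- sums over copies -/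
lemma sum_copy {M : ℕ} (hM : 1 ≤ M) {n : Fin 4 → ℝ} (hn : ∀ c, 0 ≤ n c)
    (W : Finset (I2 × Fin M)) : ∑ i ∈ W, e0 n i.1.1 / M ≤ ∑ q ∈ W.image (fun i => i.1.1), e0 n q := by
  have hM0 : (0 : ℝ) < M := by exact_mod_cast hM
  rw [← sum_fiberwise_of_maps_to (t := W.image (fun i => i.1.1)) (g := fun i => i.1.1)
    (fun i hi => mem_image_of_mem _ hi)]
  refine sum_le_sum fun q _ => ?_
  rw [sum_congr rfl fun i hi => by rw [(mem_filter.1 hi).2], sum_const, nsmul_eq_mul]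
  have h1 : (W.filter (fun i => i.1.1 = q)).card ≤ M := by
    calc (W.filter (fun i => i.1.1 = q)).card ≤ (univ : Finset (Fin M)).card := by
          refine card_le_card_of_injOn (fun i => i.2) (fun _ _ => mem_coe.2 (mem_univ _)) ?_
          intro i hi j hj hij
          rw [mem_coe, mem_filter] at hi hj
          have h2 : i.1 = j.1 := Subtype.ext (hi.2.trans hj.2.symm)
          exact Prod.ext h2 hij
      _ = M := by rw [card_univ, Fintype.card_fin]
  have h2 : ((W.filter (fun i => i.1.1 = q)).card : ℝ) ≤ M := by exact_mod_cast h1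
  calc ((W.filter (fun i => i.1.1 = q)).card : ℝ) * (e0 n q / M) ≤ M * (e0 n q / M) :=
        mul_le_mul_of_nonneg_right h2 (div_nonneg (e0_nonneg hn q) hM0.le)
    _ = e0 n q := by field_simp

/-- the combinatorial hypothesis -/
lemma hKA {M : ℕ} (hM : 1 ≤ M) {n : Fin 4 → ℝ} (hn : ∀ c, 0 ≤ n c)
    (hpos : ∀ c : Fin 4, c ≠ 3 → n c < n 0 + n 1 + n 2 + n 3) (U T : Finset (I2 × Fin M))
    (_hUT : Disjoint U T) (he : ∀ i ∈ U ∪ T, e0 n i.1.1 / M ≠ 0)
    (hU : ∀ i ∈ U, ∀ j ∈ U, EX.LX vc2 ch2 i j = EX.LX vc2 ch2 j i)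
    (hok : okU Q2 vc2 (U ∪ T)) :
    (T = ∅ ∧ ∑ i ∈ U, e0 n i.1.1 / M ≤ n 0 + n 1 + n 2 + n 3) ∨
      ∃ J ⊆ U, (∀ j ∈ J, ∃ t ∈ T, EX.LX vc2 ch2 j t ≠ EX.LX vc2 ch2 t j) ∧
        (∀ i ∈ J, ∀ j ∈ J, EX.LX vc2 ch2 i j = false) ∧
        ∑ i ∈ U \ J, e0 n i.1.1 / M < n 0 + n 1 + n 2 + n 3 := by
  classical
  have hM0 : (0 : ℝ) < M := by exact_mod_cast hM
  have hepos : ∀ i ∈ U ∪ T, 0 < e0 n i.1.1 / M := fun i hi =>
    lt_of_le_of_ne (div_nonneg (e0_nonneg hn _) hM0.le) (he i hi).symm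
  simp only [LX_lnk] at hU ⊢
  have hsgl : ∀ W : Finset (I2 × Fin M), ∀ q ∈ W.image (fun i => i.1.1), sgl q = true := by
    intro W q hq
    rw [mem_image] at hq
    obtain ⟨i, _, rfl⟩ := hq
    exact i.1.2
  have sumle : ∀ W : Finset (I2 × Fin M), (∀ i ∈ W, ∀ j ∈ W, lnk i.1.1 j.1.1 = lnk j.1.1 i.1.1) →
      (∀ c : Fin 4, c ≠ 3 → ∃ i ∈ W, Al c i.1.1.1 i.1.1.2 = false) →
      ∑ i ∈ W, e0 n i.1.1 / M ≤ n 0 + n 1 + n 2 + n 3 := by
    intro W h1 h2
    refine (sum_copy hM hn W).trans (caseA hn (hsgl W) ?_ ?_)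
    · intro q hq q' hq'
      rw [mem_image] at hq hq'
      obtain ⟨i, hi, rfl⟩ := hq
      obtain ⟨j, hj, rfl⟩ := hq'
      exact h1 i hi j hj
    · intro c hc
      obtain ⟨i, hi, h3⟩ := h2 c hc
      exact ⟨i.1.1, mem_image_of_mem _ hi, h3⟩
  by_cases hcase : ∀ c : Fin 4, c ≠ 3 → ∃ i ∈ U, Al c i.1.1.1 i.1.1.2 = false
  · by_cases hT : T = ∅
    · exact Or.inl ⟨hT, sumle U hU hcase⟩
    · right
      by_cases hl : ∃ j ∈ U, ∃ t ∈ T, lnk j.1.1 t.1.1 ≠ lnk t.1.1 j.1.1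
      · obtain ⟨j, hj, t, ht, hjt⟩ := hl
        refine ⟨{j}, singleton_subset_iff.2 hj, ?_, ?_, ?_⟩
        · intro i hi
          rw [mem_singleton] at hi
          rw [hi]
          exact ⟨t, ht, hjt⟩
        · intro i hi i' hi'
          rw [mem_singleton] at hi hi'
          rw [hi, hi']
          have h := j.1.2
          unfold sgl Al at h
          unfold lnk
          simpa using h
        · have h1 := sumle U hU hcase
          have h2 := hepos j (mem_union_left _ hj)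
          have h3 := sum_sdiff (f := fun i : I2 × Fin M => e0 n i.1.1 / M)
            (singleton_subset_iff.2 hj)
          rw [sum_singleton] at h3
          linarith
      · push Not at hl
        obtain ⟨t, ht⟩ := nonempty_iff_ne_empty.2 hT
        refine ⟨∅, empty_subset _, by simp, by simp, ?_⟩
        rw [sdiff_empty]
        have htU : t ∉ U := fun h => (disjoint_left.1 _hUT) h ht
        have h1 := sumle (insert t U) (by
          intro i hi j hj
          rw [mem_insert] at hi hj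
          rcases hi with rfl | hi
          · rcases hj with h5 | hj
            · rw [h5]
            · exact (hl j hj i ht).symm
          · rcases hj with rfl | hj
            · exact hl i hi j ht
            · exact hU i hi j hj) (fun c hc => by
          obtain ⟨i, hi, h3⟩ := hcase c hc
          exact ⟨i, mem_insert_of_mem hi, h3⟩)
        rw [sum_insert htU] at h1
        have h2 := hepos t (mem_union_right _ ht)
        linarith
  · push Not at hcase
    obtain ⟨c, hc3, hc⟩ := hcase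
    have hc' : ∀ i ∈ U, Al c i.1.1.1 i.1.1.2 = true := fun i hi => by
      have := hc i hi
      simpa using this
    have hvU : ∀ i ∈ U, i.1.1.1 = (false, false) ∨ i.1.1.1 = ec c := fun i hi =>
      factG c hc3 _ (hc' i hi)
    -- the outside vector
    have ht : ∃ t ∈ T, t.1.1.1 ≠ (false, false) ∧ t.1.1.1 ≠ ec c := by
      have key0 : ∀ c : Fin 4, c ≠ 3 → c = 0 ∨ c = 1 ∨ c = 2 := by decide
      have key := key0 c hc3
      have hex : ∀ m : Fin 3, (∀ v : Bool × Bool, (v = (false, false) ∨ v = ec c) →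
          ¬ Q2 m ![v.1, v.2]) → ∃ t ∈ T, t.1.1.1 ≠ (false, false) ∧ t.1.1.1 ≠ ec c := by
        intro m hm
        obtain ⟨i, hi, hQ⟩ := hok m
        have hQ' : Q2 m ![i.1.1.1.1, i.1.1.1.2] := hQ
        have h1 : ¬ (i.1.1.1 = (false, false) ∨ i.1.1.1 = ec c) := fun h => hm _ h hQ'
        push Not at h1
        rcases mem_union.1 hi with h2 | h2
        · exact absurd (hvU i h2) (by push Not; exact h1)
        · exact ⟨i, h2, h1⟩
      rcases key with rfl | rfl | rfl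
      · refine hex 2 ?_
        rintro v (rfl | rfl) <;> simp [Q2, ec]
      · refine hex 1 ?_
        rintro v (rfl | rfl) <;> simp [Q2, ec]
      · refine hex 0 ?_
        rintro v (rfl | rfl) <;> simp [Q2, ec]
    obtain ⟨t, htT, ht0, htc⟩ := ht
    right
    refine ⟨U.filter (fun i => lnk i.1.1 t.1.1 ≠ lnk t.1.1 i.1.1), filter_subset _ _, ?_, ?_, ?_⟩
    · intro j hj
      exact ⟨t, htT, (mem_filter.1 hj).2⟩
    · intro i hi j hj
      exact factB c hc3 _ _ (hc' i (mem_filter.1 hi).1) (hc' j (mem_filter.1 hj).1)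
    · set W := U \ U.filter (fun i => lnk i.1.1 t.1.1 ≠ lnk t.1.1 i.1.1) with hW
      have hWm : ∀ i ∈ W, i ∈ U ∧ lnk i.1.1 t.1.1 = lnk t.1.1 i.1.1 := by
        intro i hi
        rw [hW, mem_sdiff, mem_filter, not_and, not_not] at hi
        exact ⟨hi.1, hi.2 hi.1⟩
      have h1 := caseB (n := n) hn (W := W.image (fun i => i.1.1)) hc3 (by
        intro q hq
        rw [mem_image] at hq
        obtain ⟨i, hi, rfl⟩ := hq
        exact hc' i (hWm i hi).1) t.1.2 ht0 htc (by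
        intro q hq
        rw [mem_image] at hq
        obtain ⟨i, hi, rfl⟩ := hq
        exact (hWm i hi).2.symm)
      have h2 := sum_copy hM hn W
      have h3 := hpos c hc3
      linarith

open Classical in
/-- **the terms with two different divisors** -/
theorem sumA {M : ℕ} {n m : Fin 4 → ℕ} (F : Fam D G0 G1 z M n m)
    (hpos : ∀ c : Fin 4, c ≠ 3 → n c < n 0 + n 1 + n 2 + n 3) :
    ∃ C : ℝ, ∀ y, z < y → ∑ s ∈ (PP z y).divisors,
      ∑ d ∈ Fintype.piFinset (fun _ : Fin 2 => s.divisors),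
        (if okD Q2 s d then ∏ p ∈ s.primeFactors, T2 D G0 G1 p (fun l => dv p (d l))
          (fun l => sgn p (d l)) else 0) ≤
      C * (Real.log y) ^ (n 0 + n 1 + n 2 + n 3) := by
  have hM := F.M1
  have hM0 : (0 : ℝ) < M := by exact_mod_cast hM
  have hz := F.gd
  have hzM := F.zM
  have hn : ∀ c, 0 ≤ (fun c => (n c : ℝ)) c := fun c => Nat.cast_nonneg _
  have hsM : 2 * ((n 0 : ℝ) + n 1 + n 2 + n 3) ≤ M := by exact_mod_cast F.sM
  have hcard : Fintype.card (I2 × Fin M) ≤ 16 * M := by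
    rw [Fintype.card_prod, Fintype.card_fin]
    refine Nat.mul_le_mul_right M ?_
    calc Fintype.card I2 ≤ Fintype.card VX := Fintype.card_subtype_le _
      _ = 16 := by decide
  obtain ⟨C, hB⟩ := BT.bb_of (ι := I2 × Fin M) (e := fun i => e0 (fun c => (n c : ℝ)) i.1.1 / M)
    (a := aA D G0 G1 M) (b := fun i => LCm D G0 G1 (uA M i.1.1) 0 (fun _ => 1)) (z := z)
    (Fintype.card (I2 × Fin M)) (by omega)
    (fun i => div_nonneg (e0_nonneg hn _) hM0.le)
    (fun i => by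
      rw [div_le_iff₀ hM0]
      have h1 : e0 (fun c => (n c : ℝ)) i.1.1 ≤ (n 0 : ℝ) / 2 + n 1 / 2 + n 2 / 2 + n 3 / 2 := by
        have h0 : (0 : ℝ) ≤ n 0 := Nat.cast_nonneg _
        have h1 : (0 : ℝ) ≤ n 1 := Nat.cast_nonneg _
        have h2 : (0 : ℝ) ≤ n 2 := Nat.cast_nonneg _
        have h3 : (0 : ℝ) ≤ n 3 := Nat.cast_nonneg _
        unfold e0
        split_ifs <;> linarith
      linarith)
    (fun i hi p hp hpz => by
      refine lc_null F.null (fun c => ?_) _ hp hpz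
      have hi' : e0 (fun c => (n c : ℝ)) i.1.1 / M = 0 := hi
      rw [← uA_sum] at hi'
      have h1 := (sum_eq_zero_iff_of_nonneg (fun c _ =>
        mul_nonneg (uA_nonneg M i.1.1 c) (Nat.cast_nonneg (n c)))).1 hi' c (mem_univ _)
      rcases mul_eq_zero.1 h1 with h2 | h2
      · exact Or.inl h2
      · exact Or.inr (by exact_mod_cast h2))
    (fun i p hp hpz => lc_abs hz hpz (fun c => uA_nonneg M i.1.1 c) _ _)
    (fun i p hp hpz => lc_le hz hp hpz hM F.nM (fun c => uA_le hM i.1.1 c) _)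
    (fun i => by
      obtain ⟨C0, hC0⟩ := lc_S hz (u := uA M i.1.1) (w := 0) (κ := fun _ => 1) (n := n) (m := n)
        F.m1 (fun c hc => absurd rfl hc)
      refine ⟨C0, fun y hy => ?_⟩
      have h1 := hC0 y hy
      have h2 : ∑ c, (uA M i.1.1 c * n c + (0 : Fin 4 → ℝ) c * n c) =
          e0 (fun c => (n c : ℝ)) i.1.1 / M := by
        rw [← uA_sum]
        exact sum_congr rfl fun c _ => by rw [Pi.zero_apply]; ring
      rw [h2] at h1
      exact h1)
  obtain ⟨C', hC'⟩ := BT.main2 (Pool.Agent.W655.RK.blw_of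
      (_root_.W37.RK.bl_of Pool.Agent.W505.RK.ls)) hB
    (L := EX.LX vc2 ch2)
    (fun i => by
      unfold EX.LX
      rw [decide_eq_false_iff_not, not_not]
      exact dot_vc2 i) le_rfl (by omega)
    (fun i _ => by
      have h := lc_TT hz (u := 0) (w := uA M i.1.1)
        (κ := fun c => kcP D G0 G1 c i.1.1.1 i.1.1.2) (fun _ => le_rfl)
        (fun c => uA_nonneg M i.1.1 c) (fun c => F.tx c (false, false) (false, false))
        (fun c _ => F.tx c _ _)
      exact h)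
    (K := (n 0 : ℝ) + n 1 + n 2 + n 3) (by positivity) (okU Q2 vc2)
    (fun U T h1 h2 h3 h4 => hKA hM (n := fun c => (n c : ℝ)) hn
      (fun c hc => by exact_mod_cast hpos c hc) U T h1 h2 h3 h4)
  refine ⟨C', fun y hy => ?_⟩
  have h1 := EX.expand (k := 2) Q2 (z := z) (ι := I2 × Fin M) (vec := vc2) (chr := ch2) dot_vc2
    (a := aA D G0 G1 M) (T := T2 D G0 G1) (fun p hp hpz v h => T2_hT hz hM p hp hpz v h) y
  have h2 := (le_abs_self _).trans (hC' y hy)
  have h3 : (Real.log y) ^ ((n 0 : ℝ) + n 1 + n 2 + n 3) =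
      (Real.log y) ^ (n 0 + n 1 + n 2 + n 3) := by
    rw [← Real.rpow_natCast]
    push_cast
    rfl
  rw [h3] at h2
  refine le_trans (le_of_eq ?_) h2
  convert h1 using 2

end Run7.h69.FM
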