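import Mathlib
import Pool.Agent.Run7.h69.AG6

/-!
# The local identity for one divisor
-/

set_option autoImplicit false
set_option linter.unusedSectionVars false

namespace Run7.h69.FM

open Finset Polynomial
open Pool.Agent.W262.RK hiding lk ff s1 s2
open Pool.Agent.W762.RK2 (ind wc loc_id sg)
open EX (Bk ch okD okU)
open PK (xs TX MX)

variable {D G0 G1 : ℤ[X]} {z : ℕ}

/-- the constant sign attached to a class and a direction -/
noncomputable def κB (D G0 G1 : ℤ[X]) (c c' : Fin 4) : ℤ[X] :=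
  if c' = c then KP D G0 G1 c 0 else kcP D G0 G1 3 (ec c) (true, true)

/-- the sum over the characters -/
noncomputable def sS (c c' : Fin 4) (k : Fin 3 → ℤ) (p : ℕ) (v h : Bool) : ℝ :=
  ∑ x : Bool × Bool, if Al c' ((ec c).1 && v, (ec c).2 && v) x = true then
    wc c' * Jr (Pool.Agent.W762.RK2.kc c' k ((ec c).1 && v, (ec c).2 && v) x) p *
      ((if x.1 = true then sg ((ec c).1 && h) else 1) *
        (if x.2 = true then sg ((ec c).2 && h) else 1)) else 0

lemma three {c : Fin 4} (hc : c ≠ 3) : c = 0 ∨ c = 1 ∨ c = 2 := by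
  revert c
  decide

lemma sS_same (c : Fin 4) (hc : c ≠ 3) (k : Fin 3 → ℤ) (p : ℕ) (v h : Bool) :
    sS c c k p v h = if v = true then (1 + Jr (k 0) p) / 2 else 1 := by
  have e5 : Jr 1 p = 1 := AT.Jr_one_left p
  unfold sS
  rcases three hc with rfl | rfl | rfl <;> cases v <;> cases h <;>
    simp [Fintype.sum_prod_type, Al, ec, wc, Pool.Agent.W762.RK2.kc, sg, e5] <;> ring

lemma sS_other (c c' : Fin 4) (hc : c ≠ 3) (hc' : c' ≠ 3) (hcc : c' ≠ c) (k : Fin 3 → ℤ) (p : ℕ)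
    (v h : Bool) : sS c c' k p v h = if v = true then 0 else (1 + sg h) / 2 := by
  have e5 : Jr 1 p = 1 := AT.Jr_one_left p
  unfold sS
  rcases three hc with rfl | rfl | rfl <;> rcases three hc' with rfl | rfl | rfl <;>
    first
    | exact absurd rfl hcc
    | (cases v <;> cases h <;>
        simp [Fintype.sum_prod_type, Al, ec, wc, Pool.Agent.W762.RK2.kc, sg, e5] <;> norm_num)

lemma sS_three (c : Fin 4) (hc : c ≠ 3) (k : Fin 3 → ℤ) (p : ℕ) (v h : Bool) :
    sS c 3 k p v h = if v = true then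
      (1 + Jr (Pool.Agent.W762.RK2.kc 3 k (ec c) (true, true)) p) / 4 else (1 + sg h) / 2 := by
  have e5 : Jr 1 p = 1 := AT.Jr_one_left p
  unfold sS
  rcases three hc with rfl | rfl | rfl <;> cases v <;> cases h <;>
    simp [Fintype.sum_prod_type, Al, ec, wc, Pool.Agent.W762.RK2.kc, sg, e5] <;> ring

/-- the coefficients -/
noncomputable def uB (c : Fin 4) (δ : ℝ) (j : Fin 3) (c' : Fin 4) : ℝ :=
  if c' = 3 then (if j = 2 then 1 / 4 else 1 / 2)
  else if c' = c then
    (if j = 0 then ((2 : ℝ) ^ (δ - 1) + 1) / 2 else if j = 1 then 0 else (2 : ℝ) ^ (δ - 1) / 2)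
  else (if j = 2 then 0 else (1 / 2 : ℝ) ^ (δ - 1) / 2)

/-- the coefficients of the symbols -/
noncomputable def wB (c : Fin 4) (δ : ℝ) (j : Fin 3) (c' : Fin 4) : ℝ :=
  if c' = 3 then (if j = 2 then 1 / 4 else 0)
  else if c' = c then
    (if j = 0 then ((2 : ℝ) ^ (δ - 1) - 1) / 2 else if j = 1 then 0 else (2 : ℝ) ^ (δ - 1) / 2)
  else 0

lemma Jr_pm {p : ℕ} (hp : p.Prime) {a : ℤ} (h : ¬ (p : ℤ) ∣ a) : Jr a p = 1 ∨ Jr a p = -1 := by
  have hpi : Prime (p : ℤ) := Nat.prime_iff_prime_int.1 hp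
  have h7 : a.gcd p = 1 := by
    rw [← Int.isCoprime_iff_gcd_eq_one]
    exact IsCoprime.symm ((Prime.coprime_iff_not_dvd hpi).2 h)
  unfold Jr
  rcases jacobiSym.eq_one_or_neg_one h7 with h8 | h8 <;> rw [h8] <;> norm_num

/-- the value at a root of a class -/
lemma val_c (hz : Gd (PQ D G0 G1) z) {p : ℕ} (hp : p.Prime) (hpz : z < p) {c : Fin 4}
    (hc : c ≠ 3) (δ : ℝ) {c' : Fin 4} {r : ℕ} (hr : r ∈ CN.Rt (GG D G0 G1 c') p) (b : Bool)
    (v h : Bool) :
    (wt D G0 G1 c p (r, b)) ^ (δ - 1) *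
      sS c c' (fun k => (KP D G0 G1 c' k).eval (r : ℤ)) p v h =
      if v = true then uB c δ 2 c' + wB c δ 2 c' * Jr ((κB D G0 G1 c c').eval (r : ℤ)) p
      else (uB c δ 0 c' + wB c δ 0 c' * Jr ((κB D G0 G1 c c').eval (r : ℤ)) p) +
        (uB c δ 1 c' + wB c δ 1 c' * Jr ((κB D G0 G1 c c').eval (r : ℤ)) p) * sg h := by
  have hcl := cl_eq hz hp hpz (Rt_dvd hr)
  unfold wt
  simp only [hcl]
  by_cases h3 : c' = 3
  · subst h3
    rw [sS_three c hc, kcP_eval]
    have e1 : κB D G0 G1 c 3 = kcP D G0 G1 3 (ec c) (true, true) := by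
      unfold κB
      rw [if_neg (fun h => hc h.symm)]
    rw [e1]
    unfold uB wB
    have d02 : ¬ (0 : Fin 3) = 2 := by decide
    have d12 : ¬ (1 : Fin 3) = 2 := by decide
    simp only [if_true, if_false, Real.one_rpow, one_mul, d02, d12]
    split_ifs <;> ring
  · by_cases hcc : c' = c
    · subst hcc
      rw [sS_same c' hc]
      have e1 : κB D G0 G1 c' c' = KP D G0 G1 c' 0 := by
        unfold κB
        rw [if_pos rfl]
      rw [e1]
      have hnd : ¬ (p : ℤ) ∣ (KP D G0 G1 c' 0).eval (r : ℤ) := by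
        have := KP_ndvd hz hp hpz (PQ_of_GG (Rt_dvd hr)) 0
        rwa [hcl] at this
      unfold uB wB
      have d20 : ¬ (2 : Fin 3) = 0 := by decide
      have d21 : ¬ (2 : Fin 3) = 1 := by decide
      have d10 : ¬ (1 : Fin 3) = 0 := by decide
      simp only [h3, if_true, if_false, d20, d21, d10]
      rcases Jr_pm hp hnd with hJ | hJ
      · simp only [hJ, if_true]
        split_ifs <;> ring
      · simp only [hJ]
        rw [if_neg (by norm_num : ¬ (-1 : ℝ) = 1), Real.one_rpow]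
        split_ifs <;> ring
    · rw [sS_other c c' hc h3 hcc]
      unfold uB wB
      have d02 : ¬ (0 : Fin 3) = 2 := by decide
      have d12 : ¬ (1 : Fin 3) = 2 := by decide
      simp only [h3, hcc, if_true, if_false, d02, d12]
      split_ifs <;> ring

/-- the local identity for one divisor -/
lemma T1_loc (hz : Gd (PQ D G0 G1) z) {p : ℕ} (hp : p.Prime) (hpz : z < p) {c : Fin 4}
    (hc : c ≠ 3) (δ : ℝ) (v h : Bk 1) :
    T1 D G0 G1 c δ p v h = if v 0 = true then LCm D G0 G1 (uB c δ 2) (wB c δ 2) (κB D G0 G1 c) p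
      else LCm D G0 G1 (uB c δ 0) (wB c δ 0) (κB D G0 G1 c) p +
        LCm D G0 G1 (uB c δ 1) (wB c δ 1) (κB D G0 G1 c) p * sg (h 0) := by
  classical
  set F : ℕ → ℝ := fun r => (wt D G0 G1 c p (r, true)) ^ (δ - 1) *
    sS c (cl D G0 G1 p r) (fun k => (KP D G0 G1 (cl D G0 G1 p r) k).eval (r : ℤ)) p (v 0) (h 0)
    with hF
  have h1 : ∀ r ∈ CN.Rt (PQ D G0 G1) p,
      ∑ b : Bool, (wt D G0 G1 c p (r, b)) ^ (δ - 1) *
        ind (Lp D G0 G1 p (r, b) ((ec c).1 && v 0) ((ec c).2 && v 0) ((ec c).1 && h 0)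
          ((ec c).2 && h 0)) = 2 * F r := by
    intro r hr
    have h2 := loc_id (cl D G0 G1 p r) (fun k => (KP D G0 G1 (cl D G0 G1 p r) k).eval (r : ℤ)) hp
      (KP_ndvd hz hp hpz (Rt_dvd hr)) ((ec c).1 && v 0, (ec c).2 && v 0) ((ec c).1 && h 0)
      ((ec c).2 && h 0)
    rw [Fintype.sum_bool]
    have h3 : wt D G0 G1 c p (r, false) = wt D G0 G1 c p (r, true) := rfl
    have h4 : F r = (wt D G0 G1 c p (r, true)) ^ (δ - 1) *
        ((ind (LL (cl D G0 G1 p r) (fun k => (KP D G0 G1 (cl D G0 G1 p r) k).eval (r : ℤ)) true p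
          ((ec c).1 && v 0) ((ec c).2 && v 0) ((ec c).1 && h 0) ((ec c).2 && h 0)) +
        ind (LL (cl D G0 G1 p r) (fun k => (KP D G0 G1 (cl D G0 G1 p r) k).eval (r : ℤ)) false p
          ((ec c).1 && v 0) ((ec c).2 && v 0) ((ec c).1 && h 0) ((ec c).2 && h 0))) / 2) := by
      rw [hF]
      simp only
      congr 1
      exact h2.symm
    rw [h3, h4]
    unfold Lp
    ring
  unfold T1 Ty
  rw [sum_product, sum_congr rfl h1, ← mul_sum, sum_Rt hz hp hpz F]
  have h4 : ∀ c' : Fin 4, ∑ r ∈ CN.Rt (GG D G0 G1 c') p, F r =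
      if v 0 = true then uB c δ 2 c' * xs (GG D G0 G1 c') 1 p +
          wB c δ 2 c' * xs (GG D G0 G1 c') (κB D G0 G1 c c') p
      else (uB c δ 0 c' * xs (GG D G0 G1 c') 1 p +
          wB c δ 0 c' * xs (GG D G0 G1 c') (κB D G0 G1 c c') p) +
        (uB c δ 1 c' * xs (GG D G0 G1 c') 1 p +
          wB c δ 1 c' * xs (GG D G0 G1 c') (κB D G0 G1 c c') p) * sg (h 0) := by
    intro c'
    have h5 : ∀ r ∈ CN.Rt (GG D G0 G1 c') p, F r = if v 0 = true then
        uB c δ 2 c' + wB c δ 2 c' * Jr ((κB D G0 G1 c c').eval (r : ℤ)) p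
      else (uB c δ 0 c' + wB c δ 0 c' * Jr ((κB D G0 G1 c c').eval (r : ℤ)) p) +
        (uB c δ 1 c' + wB c δ 1 c' * Jr ((κB D G0 G1 c c').eval (r : ℤ)) p) * sg (h 0) := by
      intro r hr
      rw [hF]
      simp only
      rw [cl_eq hz hp hpz (Rt_dvd hr)]
      exact val_c hz hp hpz hc δ hr true (v 0) (h 0)
    have h6 : ∀ u w : ℝ, ∑ r ∈ CN.Rt (GG D G0 G1 c') p,
        (u + w * Jr ((κB D G0 G1 c c').eval (r : ℤ)) p) =
        u * xs (GG D G0 G1 c') 1 p + w * xs (GG D G0 G1 c') (κB D G0 G1 c c') p := by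
      intro u w
      rw [sum_add_distrib, sum_const, nsmul_eq_mul, ← mul_sum, xs_one, mul_comm]
      rfl
    rw [sum_congr rfl h5]
    by_cases hv : v 0 = true
    · simp only [hv, if_true]
      exact h6 _ _
    · have hv' : v 0 = false := by simpa using hv
      simp only [hv', Bool.false_eq_true, if_false]
      rw [sum_add_distrib, ← sum_mul, h6, h6]
  rw [sum_congr rfl fun c' _ => h4 c']
  have e1 : ∀ S : ℝ, iv D G0 G1 p / 2 * (2 * S) = iv D G0 G1 p * S := fun S => by ring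
  rw [e1]
  unfold LCm
  by_cases hv : v 0 = true
  · simp only [hv, if_true]
  · have hv' : v 0 = false := by simpa using hv
    simp only [hv', Bool.false_eq_true, if_false]
    rw [sum_add_distrib, ← sum_mul]
    ring

/-- the vector -/
def vc1 {M : ℕ} (i : Fin 3 × Fin M) : Bk 1 := fun _ => decide (i.1 = 2)

/-- the character -/
def ch1 {M : ℕ} (i : Fin 3 × Fin M) : Bk 1 := fun _ => decide (i.1 = 1)

/-- the coefficients -/
noncomputable def aB (D G0 G1 : ℤ[X]) (c : Fin 4) (δ : ℝ) (M : ℕ) (i : Fin 3 × Fin M) (p : ℕ) : ℝ :=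
  LCm D G0 G1 (fun c' => uB c δ i.1 c' / M) (fun c' => wB c δ i.1 c' / M) (κB D G0 G1 c) p

lemma LCm_div2 (u w : Fin 4 → ℝ) (κ : Fin 4 → ℤ[X]) (p : ℕ) (x : ℝ) :
    LCm D G0 G1 (fun c => u c / x) (fun c => w c / x) κ p = LCm D G0 G1 u w κ p / x := by
  unfold LCm
  rw [mul_div_assoc, sum_div]
  congr 1
  exact sum_congr rfl fun c _ => by ring

lemma T1_hT (hz : Gd (PQ D G0 G1) z) {c : Fin 4} (hc : c ≠ 3) (δ : ℝ) {M : ℕ} (hM : 1 ≤ M)
    (p : ℕ) (hp : p.Prime) (hpz : z < p) (v h : Bk 1) :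
    T1 D G0 G1 c δ p v h = ∑ i : Fin 3 × Fin M,
      if vc1 i = v then aB D G0 G1 c δ M i p * ch (ch1 i) h else 0 := by
  classical
  have hM0 : (M : ℝ) ≠ 0 := by exact_mod_cast (by omega : M ≠ 0)
  rw [T1_loc hz hp hpz hc, Fintype.sum_prod_type, Fin.sum_univ_three]
  have hv : ∀ j : Fin 3, ∀ m : Fin M, (vc1 (j, m) = v ↔ decide (j = 2) = v 0) := by
    intro j m
    unfold vc1
    constructor
    · intro h5
      rw [← h5]
    · intro h5
      funext l
      have : l = 0 := Subsingleton.elim _ _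
      rw [this]
      exact h5
  have hch : ∀ j : Fin 3, ∀ m : Fin M, ch (ch1 (j, m)) h = if j = 1 then sg (h 0) else 1 := by
    intro j m
    unfold ch ch1
    rw [Fin.prod_univ_one]
    simp
  have hs : ∀ j : Fin 3, ∑ m : Fin M, (if vc1 (j, m) = v then
      aB D G0 G1 c δ M (j, m) p * ch (ch1 (j, m)) h else 0) =
      if decide (j = 2) = v 0 then
        LCm D G0 G1 (uB c δ j) (wB c δ j) (κB D G0 G1 c) p * (if j = 1 then sg (h 0) else 1)
      else 0 := by
    intro j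
    have h2 : ∀ m : Fin M, (if vc1 (j, m) = v then
        aB D G0 G1 c δ M (j, m) p * ch (ch1 (j, m)) h else 0) =
        (if decide (j = 2) = v 0 then
        LCm D G0 G1 (uB c δ j) (wB c δ j) (κB D G0 G1 c) p * (if j = 1 then sg (h 0) else 1)
      else 0) / M := by
      intro m
      rw [hch]
      by_cases h3 : decide (j = 2) = v 0
      · rw [if_pos h3, if_pos ((hv j m).2 h3)]
        unfold aB
        simp only
        rw [LCm_div2]
        ring
      · rw [if_neg h3, if_neg (fun h4 => h3 ((hv j m).1 h4)), zero_div]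
    rw [sum_congr rfl fun m _ => h2 m, sum_const, card_univ, Fintype.card_fin, nsmul_eq_mul]
    field_simp
  rw [hs, hs, hs]
  cases hv0 : v 0 <;> simp

end Run7.h69.FM
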