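import Mathlib
import Pool.Agent.Run7.h69.AG7

/-!
# The terms with one divisor
-/

set_option autoImplicit false
set_option linter.unusedSectionVars false

namespace Run7.h69.FM

open Finset Polynomial
open Pool.Agent.W262.RK hiding lk ff s1 s2
open Pool.Agent.W762.RK2 (ind wc loc_id sg)
open EX (Bk ch okD okU)
open PK (xs TX MX)

variable {D G0 G1 : ℤ[X]} {z : ℕ}

lemma lc_abs2 (hz : Gd (PQ D G0 G1) z) {p : ℕ} (hpz : z < p) {u w u' w' : Fin 4 → ℝ}
    (κ : Fin 4 → ℤ[X])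
    (h : ∀ c, ∀ ρ X : ℝ, |X| ≤ ρ → |u c * ρ + w c * X| ≤ u' c * ρ + w' c * X) :
    |LCm D G0 G1 u w κ p| ≤ LCm D G0 G1 u' w' κ p := by
  unfold LCm
  have h1 := (iv_bd hz hpz).1
  rw [abs_mul, abs_of_pos h1]
  refine mul_le_mul_of_nonneg_left ?_ h1.le
  refine (abs_sum_le_sum_abs _ _).trans (sum_le_sum fun c _ => ?_)
  rw [xs_one]
  exact h c _ _ (abs_xs_le _ _ _)

lemma lc_le2 (hz : Gd (PQ D G0 G1) z) {p : ℕ} (hp : p.Prime) (hpz : z < p) {M : ℕ} (hM1 : 1 ≤ M)
    (hM : 2 * (PQ D G0 G1).natDegree ≤ M) {u w : Fin 4 → ℝ} (hu : ∀ c, u c + |w c| ≤ 1 / M)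
    (κ : Fin 4 → ℤ[X]) : LCm D G0 G1 u w κ p ≤ 1 / p := by
  unfold LCm
  obtain ⟨h1, h2, -, -⟩ := iv_bd hz hpz
  have hM0 : (0 : ℝ) < M := by exact_mod_cast hM1
  have hp0 : (0 : ℝ) < p := by exact_mod_cast hp.pos
  have hMr : 2 * ((PQ D G0 G1).natDegree : ℝ) ≤ M := by exact_mod_cast hM
  have h3 : (rho (PQ D G0 G1) p : ℝ) ≤ (PQ D G0 G1).natDegree := by
    exact_mod_cast hz.few p hp hpz
  have h4 : ∑ c, (u c * xs (GG D G0 G1 c) 1 p + w c * xs (GG D G0 G1 c) (κ c) p) ≤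
      1 / M * (rho (PQ D G0 G1) p : ℝ) := by
    rw [← sum_rho_c hz hp hpz, mul_sum]
    refine sum_le_sum fun c _ => ?_
    rw [xs_one]
    have h5 := abs_xs_le (GG D G0 G1 c) (κ c) p
    have h6 : w c * xs (GG D G0 G1 c) (κ c) p ≤ |w c| * rho (GG D G0 G1 c) p := by
      refine (le_abs_self _).trans ?_
      rw [abs_mul]
      exact mul_le_mul_of_nonneg_left h5 (abs_nonneg _)
    have h7 := mul_le_mul_of_nonneg_right (hu c)
      (Nat.cast_nonneg (rho (GG D G0 G1 c) p) : (0 : ℝ) ≤ _)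
    rw [add_mul] at h7
    linarith
  have h5 : 1 / (M : ℝ) * (rho (PQ D G0 G1) p : ℝ) ≤ 1 / 2 := by
    rw [one_div_mul_eq_div, div_le_iff₀ hM0]
    linarith
  calc iv D G0 G1 p * ∑ c, (u c * xs (GG D G0 G1 c) 1 p + w c * xs (GG D G0 G1 c) (κ c) p)
      ≤ iv D G0 G1 p * (1 / 2) := mul_le_mul_of_nonneg_left (h4.trans h5) h1.le
    _ ≤ 2 / p * (1 / 2) := mul_le_mul_of_nonneg_right h2 (by norm_num)
    _ = 1 / p := by ring

lemma lc_null2 {n : Fin 4 → ℕ} (hnull : ∀ c, n c = 0 → ∀ p : ℕ, p.Prime → z < p →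
    rho (GG D G0 G1 c) p = 0) {u w : Fin 4 → ℝ} (h : ∀ c, (u c = 0 ∧ w c = 0) ∨ n c = 0)
    (κ : Fin 4 → ℤ[X]) {p : ℕ} (hp : p.Prime) (hpz : z < p) : LCm D G0 G1 u w κ p = 0 := by
  unfold LCm
  rw [sum_eq_zero, mul_zero]
  intro c _
  rcases h c with ⟨h1, h2⟩ | h1
  · rw [h1, h2, zero_mul, zero_mul, add_zero]
  · have h3 := hnull c h1 p hp hpz
    have h4 := abs_xs_le (GG D G0 G1 c) (κ c) p
    rw [h3, Nat.cast_zero] at h4
    have h5 := abs_nonpos_iff.1 h4
    rw [xs_one, h3, h5, Nat.cast_zero, mul_zero, mul_zero, add_zero]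

/-- the majorants -/
noncomputable def uC (c : Fin 4) (δ : ℝ) (j : Fin 3) (c' : Fin 4) : ℝ :=
  if c' = 3 then 1 / 2 else uB c δ j c'

/-- the majorants -/
noncomputable def wC (c : Fin 4) (δ : ℝ) (j : Fin 3) (c' : Fin 4) : ℝ :=
  if c' = 3 then 0 else wB c δ j c'

lemma lam_bd {δ : ℝ} (h0 : 0 < δ) (h1 : δ ≤ 1) : 0 < (2 : ℝ) ^ (δ - 1) ∧ (2 : ℝ) ^ (δ - 1) ≤ 1 ∧
    0 < (1 / 2 : ℝ) ^ (δ - 1) ∧ (1 / 2 : ℝ) ^ (δ - 1) ≤ 2 := by
  refine ⟨by positivity, Real.rpow_le_one_of_one_le_of_nonpos (by norm_num) (by linarith),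
    by positivity, ?_⟩
  calc (1 / 2 : ℝ) ^ (δ - 1) ≤ (1 / 2 : ℝ) ^ (-1 : ℝ) :=
        Real.rpow_le_rpow_of_exponent_ge (by norm_num) (by norm_num) (by linarith)
    _ = 2 := by rw [Real.rpow_neg_one]; norm_num

lemma fin3cases (j : Fin 3) : j = 0 ∨ j = 1 ∨ j = 2 := by
  revert j
  decide

lemma d02 : ¬ (0 : Fin 3) = 2 := by decide
lemma d12 : ¬ (1 : Fin 3) = 2 := by decide
lemma d20 : ¬ (2 : Fin 3) = 0 := by decide
lemma d21 : ¬ (2 : Fin 3) = 1 := by decide
lemma d10 : ¬ (1 : Fin 3) = 0 := by decide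

/-- the list of the coefficients -/
lemma coef {c : Fin 4} (hc : c ≠ 3) (δ : ℝ) (c' : Fin 4) :
    (c' = 3 ∧ (∀ j, uC c δ j c' = 1 / 2) ∧ (∀ j, wC c δ j c' = 0) ∧
      (∀ j, (uB c δ j c' = 1 / 2 ∧ wB c δ j c' = 0) ∨ (uB c δ j c' = 1 / 4 ∧ wB c δ j c' = 1 / 4))) ∨
    (c' ≠ 3 ∧ c' = c ∧ (∀ j, uC c δ j c' = uB c δ j c' ∧ wC c δ j c' = wB c δ j c') ∧
      uB c δ 0 c' = ((2 : ℝ) ^ (δ - 1) + 1) / 2 ∧ wB c δ 0 c' = ((2 : ℝ) ^ (δ - 1) - 1) / 2 ∧
      uB c δ 1 c' = 0 ∧ wB c δ 1 c' = 0 ∧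
      uB c δ 2 c' = (2 : ℝ) ^ (δ - 1) / 2 ∧ wB c δ 2 c' = (2 : ℝ) ^ (δ - 1) / 2) ∨
    (c' ≠ 3 ∧ c' ≠ c ∧ (∀ j, uC c δ j c' = uB c δ j c' ∧ wC c δ j c' = wB c δ j c') ∧
      uB c δ 0 c' = (1 / 2 : ℝ) ^ (δ - 1) / 2 ∧ wB c δ 0 c' = 0 ∧
      uB c δ 1 c' = (1 / 2 : ℝ) ^ (δ - 1) / 2 ∧ wB c δ 1 c' = 0 ∧
      uB c δ 2 c' = 0 ∧ wB c δ 2 c' = 0) := by
  by_cases h3 : c' = 3
  · left
    refine ⟨h3, fun j => ?_, fun j => ?_, fun j => ?_⟩
    · unfold uC
      rw [if_pos h3]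
    · unfold wC
      rw [if_pos h3]
    · unfold uB wB
      rw [if_pos h3, if_pos h3]
      by_cases hj : j = 2
      · right
        rw [if_pos hj, if_pos hj]
        exact ⟨rfl, rfl⟩
      · left
        rw [if_neg hj, if_neg hj]
        exact ⟨rfl, rfl⟩
  · have hCC : ∀ j, uC c δ j c' = uB c δ j c' ∧ wC c δ j c' = wB c δ j c' := by
      intro j
      unfold uC wC
      rw [if_neg h3, if_neg h3]
      exact ⟨rfl, rfl⟩
    right
    by_cases hcc : c' = c
    · left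
      refine ⟨h3, hcc, hCC, ?_⟩
      unfold uB wB
      simp only [h3, hcc, hc, if_true, if_false, d20, d21, d10]
      simp
    · right
      refine ⟨h3, hcc, hCC, ?_⟩
      unfold uB wB
      simp only [h3, hcc, if_true, if_false, d02, d12]
      simp

/-- the exponents -/
noncomputable def EB (c : Fin 4) (δ : ℝ) (n m : Fin 4 → ℕ) (j : Fin 3) : ℝ :=
  ∑ c', (uC c δ j c' * n c' + wC c δ j c' * m c')

lemma uw_cases {c : Fin 4} (hc : c ≠ 3) {δ : ℝ} (h0 : 0 < δ) (h1 : δ ≤ 1) (j : Fin 3)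
    (c' : Fin 4) : ((uC c δ j c' = 0 ∧ wC c δ j c' = 0) ∨
      (0 < uC c δ j c' ∧ 0 < uC c δ j c' + wC c δ j c')) ∧ uC c δ j c' + |wC c δ j c'| ≤ 1 := by
  obtain ⟨a1, a2, a3, a4⟩ := lam_bd h0 h1
  rcases coef hc δ c' with ⟨h, hu, hw, -⟩ | ⟨h, -, hCC, b1, b2, b3, b4, b5, b6⟩ |
    ⟨h, -, hCC, b1, b2, b3, b4, b5, b6⟩
  · rw [hu j, hw j]
    norm_num
  · obtain ⟨e1, e2⟩ := hCC j
    rw [e1, e2]
    rcases fin3cases j with rfl | rfl | rfl
    · rw [b1, b2]
      refine ⟨Or.inr ⟨by linarith, by linarith⟩, ?_⟩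
      rw [abs_of_nonpos (by linarith)]
      linarith
    · rw [b3, b4]
      norm_num
    · rw [b5, b6]
      refine ⟨Or.inr ⟨by linarith, by linarith⟩, ?_⟩
      rw [abs_of_nonneg (by linarith)]
      linarith
  · obtain ⟨e1, e2⟩ := hCC j
    rw [e1, e2]
    rcases fin3cases j with rfl | rfl | rfl
    · rw [b1, b2]
      refine ⟨Or.inr ⟨by linarith, by linarith⟩, ?_⟩
      rw [abs_zero]
      linarith
    · rw [b3, b4]
      refine ⟨Or.inr ⟨by linarith, by linarith⟩, ?_⟩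
      rw [abs_zero]
      linarith
    · rw [b5, b6]
      norm_num

lemma term_nonneg {u w : ℝ} (h : (u = 0 ∧ w = 0) ∨ (0 < u ∧ 0 < u + w)) {n m : ℕ} (hm : m ≤ n) :
    0 ≤ u * n + w * m ∧ (u * n + w * m = 0 → (u = 0 ∧ w = 0) ∨ n = 0) := by
  have hmr : (m : ℝ) ≤ n := by exact_mod_cast hm
  have hm0 : (0 : ℝ) ≤ m := Nat.cast_nonneg m
  rcases h with ⟨h1, h2⟩ | ⟨h1, h2⟩
  · rw [h1, h2]
    simp
  · have e : u * n + w * m = u * (n - m) + (u + w) * m := by ring
    have a1 : 0 ≤ u * (n - m) := mul_nonneg h1.le (by linarith)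
    have a2 : 0 ≤ (u + w) * m := mul_nonneg h2.le hm0
    refine ⟨by rw [e]; positivity, fun h3 => Or.inr ?_⟩
    rw [e] at h3
    have a3 : u * ((n : ℝ) - m) = 0 := by linarith
    have a4 : (u + w) * (m : ℝ) = 0 := by linarith
    have a5 : (n : ℝ) - m = 0 := (mul_eq_zero.1 a3).resolve_left h1.ne'
    have a6 : (m : ℝ) = 0 := (mul_eq_zero.1 a4).resolve_left h2.ne'
    have a7 : (n : ℝ) = 0 := by linarith
    exact_mod_cast a7

lemma EB_nonneg {c : Fin 4} (hc : c ≠ 3) {δ : ℝ} (h0 : 0 < δ) (h1 : δ ≤ 1) {n m : Fin 4 → ℕ}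
    (hm : ∀ c, m c ≤ n c) (j : Fin 3) : 0 ≤ EB c δ n m j := by
  unfold EB
  exact sum_nonneg fun c' _ => (term_nonneg (uw_cases hc h0 h1 j c').1 (hm c')).1

lemma EB_le {c : Fin 4} (hc : c ≠ 3) {δ : ℝ} (h0 : 0 < δ) (h1 : δ ≤ 1) {n m : Fin 4 → ℕ}
    (hm : ∀ c, m c ≤ n c) (j : Fin 3) : EB c δ n m j ≤ (n 0 : ℝ) + n 1 + n 2 + n 3 := by
  unfold EB
  rw [Fin.sum_univ_four]
  have key : ∀ c', uC c δ j c' * n c' + wC c δ j c' * m c' ≤ n c' := by
    intro c'
    have h2 := (uw_cases hc h0 h1 j c').2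
    have hmr : (m c' : ℝ) ≤ n c' := by exact_mod_cast hm c'
    have hm0 : (0 : ℝ) ≤ m c' := Nat.cast_nonneg _
    have hn0 : (0 : ℝ) ≤ n c' := Nat.cast_nonneg _
    have h3 : wC c δ j c' * m c' ≤ |wC c δ j c'| * n c' := by
      calc wC c δ j c' * m c' ≤ |wC c δ j c'| * m c' :=
            mul_le_mul_of_nonneg_right (le_abs_self _) hm0
        _ ≤ _ := mul_le_mul_of_nonneg_left hmr (abs_nonneg _)
    have h4 := mul_le_mul_of_nonneg_right h2 hn0
    rw [add_mul] at h4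
    linarith
  have k0 := key 0
  have k1 := key 1
  have k2 := key 2
  have k3 := key 3
  linarith

/-- the links -/
lemma LX1 {M : ℕ} (i j : Fin 3 × Fin M) :
    EX.LX vc1 ch1 i j = (decide (i.1 = 2) && decide (j.1 = 1)) := by
  unfold EX.LX EX.dot vc1 ch1
  rw [Fin.sum_univ_one]
  by_cases h1 : i.1 = 2 <;> by_cases h2 : j.1 = 1 <;> simp [h1, h2, XP.bz]

/-- sums over copies -/
lemma sum_copy1 {M : ℕ} (hM : 1 ≤ M) {E : Fin 3 → ℝ} (hE : ∀ j, 0 ≤ E j)
    (W : Finset (Fin 3 × Fin M)) {S : Finset (Fin 3)} (hS : ∀ i ∈ W, i.1 ∈ S) :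
    ∑ i ∈ W, E i.1 / M ≤ ∑ j ∈ S, E j := by
  have hM0 : (0 : ℝ) < M := by exact_mod_cast hM
  rw [← sum_fiberwise_of_maps_to (t := S) (g := fun i => i.1) hS]
  refine sum_le_sum fun q _ => ?_
  rw [sum_congr rfl fun i hi => by rw [(mem_filter.1 hi).2], sum_const, nsmul_eq_mul]
  have h1 : (W.filter (fun i => i.1 = q)).card ≤ M := by
    calc (W.filter (fun i => i.1 = q)).card ≤ (univ : Finset (Fin M)).card := by
          refine card_le_card_of_injOn (fun i => i.2) (fun _ _ => mem_coe.2 (mem_univ _)) ?_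
          intro i hi j hj hij
          rw [mem_coe, mem_filter] at hi hj
          exact Prod.ext (hi.2.trans hj.2.symm) hij
      _ = M := by rw [card_univ, Fintype.card_fin]
  have h2 : ((W.filter (fun i => i.1 = q)).card : ℝ) ≤ M := by exact_mod_cast h1
  calc ((W.filter (fun i => i.1 = q)).card : ℝ) * (E q / M) ≤ M * (E q / M) :=
        mul_le_mul_of_nonneg_right h2 (div_nonneg (hE q) hM0.le)
    _ = E q := by field_simp

/-- the combinatorial hypothesis -/
lemma hKB {M : ℕ} (hM : 1 ≤ M) {E : Fin 3 → ℝ} (hE : ∀ j, 0 ≤ E j) {K : ℝ}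
    (hcond : E 0 + E 2 ≤ K) (U T : Finset (Fin 3 × Fin M)) (hUT : Disjoint U T)
    (he : ∀ i ∈ U ∪ T, E i.1 / M ≠ 0)
    (hU : ∀ i ∈ U, ∀ j ∈ U, EX.LX vc1 ch1 i j = EX.LX vc1 ch1 j i)
    (hok : okU Q1 vc1 (U ∪ T)) :
    (T = ∅ ∧ ∑ i ∈ U, E i.1 / M ≤ K) ∨
      ∃ J ⊆ U, (∀ j ∈ J, ∃ t ∈ T, EX.LX vc1 ch1 j t ≠ EX.LX vc1 ch1 t j) ∧
        (∀ i ∈ J, ∀ j ∈ J, EX.LX vc1 ch1 i j = false) ∧ ∑ i ∈ U \ J, E i.1 / M < K := by
  classical
  have hM0 : (0 : ℝ) < M := by exact_mod_cast hM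
  simp only [LX1] at hU ⊢
  have hepos : ∀ i ∈ U ∪ T, 0 < E i.1 := fun i hi => by
    refine lt_of_le_of_ne (hE _) fun h => he i hi ?_
    rw [← h, zero_div]
  -- an element of the third kind
  obtain ⟨i2, hi2, hQ⟩ := hok ()
  have hi22 : i2.1 = 2 := by
    unfold Q1 vc1 at hQ
    simpa using hQ
  have hE2 : 0 < E 2 := by
    have := hepos i2 hi2
    rwa [hi22] at this
  by_cases hUex : ∃ u ∈ U, u.1 = 2
  · obtain ⟨u, hu, hu2⟩ := hUex
    have hU1 : ∀ i ∈ U, i.1 ≠ 1 := by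
      intro i hi h1
      have := hU u hu i hi
      rw [hu2, h1] at this
      simp at this
    have hU02 : ∀ i ∈ U, i.1 ∈ ({0, 2} : Finset (Fin 3)) := by
      intro i hi
      rcases fin3cases i.1 with h | h | h
      · rw [h]; simp
      · exact absurd h (hU1 i hi)
      · rw [h]; simp
    have hsU : ∑ i ∈ U, E i.1 / M ≤ E 0 + E 2 := by
      refine (sum_copy1 hM hE U hU02).trans (le_of_eq ?_)
      rw [sum_insert (by decide), sum_singleton]
    by_cases hT : T = ∅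
    · exact Or.inl ⟨hT, hsU.trans hcond⟩
    right
    by_cases hT1 : ∃ t ∈ T, t.1 = 1
    · obtain ⟨t, ht, ht1⟩ := hT1
      refine ⟨U.filter (fun i => i.1 = 2), filter_subset _ _, ?_, ?_, ?_⟩
      · intro j hj
        refine ⟨t, ht, ?_⟩
        rw [(mem_filter.1 hj).2, ht1]
        simp
      · intro i hi j hj
        rw [(mem_filter.1 hi).2, (mem_filter.1 hj).2]
        simp
      · have h1 : ∀ i ∈ U \ U.filter (fun i => i.1 = 2), i.1 ∈ ({0} : Finset (Fin 3)) := by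
          intro i hi
          rw [mem_sdiff, mem_filter, not_and] at hi
          have h2 := hU02 i hi.1
          rw [mem_insert, mem_singleton] at h2
          rw [mem_singleton]
          rcases h2 with h | h
          · exact h
          · exact absurd h (hi.2 hi.1)
        have h2 := sum_copy1 hM hE _ h1
        rw [sum_singleton] at h2
        linarith
    · refine ⟨∅, empty_subset _, by simp, by simp, ?_⟩
      rw [sdiff_empty]
      obtain ⟨t, ht⟩ := nonempty_iff_ne_empty.2 hT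
      have htU : t ∉ U := fun h => (disjoint_left.1 hUT) h ht
      have hins : ∀ i ∈ insert t U, i.1 ∈ ({0, 2} : Finset (Fin 3)) := by
        intro i hi
        rw [mem_insert] at hi
        rcases hi with rfl | hi
        · rcases fin3cases i.1 with h | h | h
          · rw [h]; simp
          · exact absurd ⟨i, ht, h⟩ hT1
          · rw [h]; simp
        · exact hU02 i hi
      have h1 := sum_copy1 hM hE _ hins
      rw [sum_insert htU, sum_insert (by decide), sum_singleton] at h1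
      have h2 : 0 < E t.1 / M := div_pos (hepos t (mem_union_right _ ht)) hM0
      linarith
  · have hi2T : i2 ∈ T := by
      rcases mem_union.1 hi2 with h | h
      · exact absurd ⟨i2, h, hi22⟩ hUex
      · exact h
    right
    refine ⟨U.filter (fun i => i.1 = 1), filter_subset _ _, ?_, ?_, ?_⟩
    · intro j hj
      refine ⟨i2, hi2T, ?_⟩
      rw [(mem_filter.1 hj).2, hi22]
      simp
    · intro i hi j hj
      rw [(mem_filter.1 hi).2, (mem_filter.1 hj).2]
      simp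
    · have h1 : ∀ i ∈ U \ U.filter (fun i => i.1 = 1), i.1 ∈ ({0} : Finset (Fin 3)) := by
        intro i hi
        rw [mem_sdiff, mem_filter, not_and] at hi
        rw [mem_singleton]
        rcases fin3cases i.1 with h | h | h
        · exact h
        · exact absurd h (hi.2 hi.1)
        · exact absurd ⟨i, hi.1, h⟩ hUex
      have h2 := sum_copy1 hM hE _ h1
      rw [sum_singleton] at h2
      linarith

open Classical in
/-- **the terms with one divisor** -/
theorem sumB {M : ℕ} {n m : Fin 4 → ℕ} (F : Fam D G0 G1 z M n m) (hm : ∀ c, m c ≤ n c)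
    {c : Fin 4} (hc : c ≠ 3) {δ : ℝ} (h0 : 0 < δ) (h1 : δ ≤ 1)
    (hcond : EB c δ n m 0 + EB c δ n m 2 ≤ (n 0 : ℝ) + n 1 + n 2 + n 3) :
    ∃ C : ℝ, ∀ y, z < y → ∑ s ∈ (PP z y).divisors,
      ∑ d ∈ Fintype.piFinset (fun _ : Fin 1 => s.divisors),
        (if okD Q1 s d then ∏ p ∈ s.primeFactors, T1 D G0 G1 c δ p (fun l => dv p (d l))
          (fun l => sgn p (d l)) else 0) ≤
      C * (Real.log y) ^ (n 0 + n 1 + n 2 + n 3) := by
  have hM := F.M1
  have hM0 : (0 : ℝ) < M := by exact_mod_cast hM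
  have hz := F.gd
  have hzM := F.zM
  have hsM : 2 * ((n 0 : ℝ) + n 1 + n 2 + n 3) ≤ M := by exact_mod_cast F.sM
  have hE0 : ∀ j, 0 ≤ EB c δ n m j := EB_nonneg hc h0 h1 hm
  have hcard : Fintype.card (Fin 3 × Fin M) = 3 * M := by
    rw [Fintype.card_prod, Fintype.card_fin, Fintype.card_fin]
  obtain ⟨a1, a2, a3, a4⟩ := lam_bd h0 h1
  obtain ⟨C, hB⟩ := BT.bb_of (ι := Fin 3 × Fin M) (e := fun i => EB c δ n m i.1 / M)
    (a := aB D G0 G1 c δ M)
    (b := fun i => LCm D G0 G1 (fun c' => uC c δ i.1 c' / M) (fun c' => wC c δ i.1 c' / M)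
      (κB D G0 G1 c)) (z := z)
    (Fintype.card (Fin 3 × Fin M)) (by omega)
    (fun i => div_nonneg (hE0 _) hM0.le)
    (fun i => by
      rw [div_le_iff₀ hM0]
      have := EB_le hc h0 h1 hm i.1
      linarith)
    (fun i hi p hp hpz => by
      have hi' : EB c δ n m i.1 / M = 0 := hi
      have hi2 : EB c δ n m i.1 = 0 := (div_eq_zero_iff.1 hi').resolve_right hM0.ne'
      unfold EB at hi2
      have h3 := (sum_eq_zero_iff_of_nonneg (fun c' _ =>
        (term_nonneg (uw_cases hc h0 h1 i.1 c').1 (hm c')).1)).1 hi2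
      refine lc_null2 F.null (fun c' => ?_) _ hp hpz
      rcases (term_nonneg (uw_cases hc h0 h1 i.1 c').1 (hm c')).2 (h3 c' (mem_univ _)) with
        ⟨h4, h5⟩ | h4
      · left
        rw [h4, h5, zero_div]
        exact ⟨rfl, rfl⟩
      · exact Or.inr h4)
    (fun i p hp hpz => by
      refine lc_abs2 hz hpz _ fun c' ρ X hX => ?_
      have hρ : 0 ≤ ρ := (abs_nonneg _).trans hX
      have hX1 := (abs_le.1 hX).1
      have hX2 := (abs_le.1 hX).2
      have key : |uB c δ i.1 c' * ρ + wB c δ i.1 c' * X| ≤ uC c δ i.1 c' * ρ + wC c δ i.1 c' * X := by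
        rcases coef hc δ c' with ⟨h, hu, hw, hub⟩ | ⟨h, -, hCC, b1, b2, b3, b4, b5, b6⟩ |
          ⟨h, -, hCC, b1, b2, b3, b4, b5, b6⟩
        · rw [hu, hw]
          rcases hub i.1 with ⟨h5, h6⟩ | ⟨h5, h6⟩
          · rw [h5, h6, abs_of_nonneg (by linarith)]
          · rw [h5, h6, abs_of_nonneg (by linarith)]
            linarith
        · obtain ⟨e1, e2⟩ := hCC i.1
          rw [e1, e2]
          refine le_of_eq (abs_of_nonneg ?_)
          rcases fin3cases i.1 with hj | hj | hj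
          · rw [hj, b1, b2]
            nlinarith
          · rw [hj, b3, b4]
            simp
          · rw [hj, b5, b6]
            nlinarith
        · obtain ⟨e1, e2⟩ := hCC i.1
          rw [e1, e2]
          refine le_of_eq (abs_of_nonneg ?_)
          rcases fin3cases i.1 with hj | hj | hj
          · rw [hj, b1, b2, zero_mul, add_zero]
            positivity
          · rw [hj, b3, b4, zero_mul, add_zero]
            positivity
          · rw [hj, b5, b6]
            simp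
      have e3 : uB c δ i.1 c' / M * ρ + wB c δ i.1 c' / M * X =
          (uB c δ i.1 c' * ρ + wB c δ i.1 c' * X) / M := by ring
      have e4 : uC c δ i.1 c' / M * ρ + wC c δ i.1 c' / M * X =
          (uC c δ i.1 c' * ρ + wC c δ i.1 c' * X) / M := by ring
      rw [e3, e4, abs_div, abs_of_pos hM0]
      exact div_le_div_of_nonneg_right key hM0.le)
    (fun i p hp hpz => lc_le2 hz hp hpz hM F.nM (fun c' => by
      have := (uw_cases hc h0 h1 i.1 c').2
      rw [abs_div, abs_of_pos hM0, ← add_div]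
      exact div_le_div_of_nonneg_right this hM0.le) _)
    (fun i => by
      obtain ⟨C0, hC0⟩ := lc_S hz (u := fun c' => uC c δ i.1 c' / M)
        (w := fun c' => wC c δ i.1 c' / M) (κ := κB D G0 G1 c) (n := n) (m := m)
        F.m1 (fun c' hc' => by
          have hw : wC c δ i.1 c' ≠ 0 := fun h => hc' (by rw [h, zero_div])
          rcases coef hc δ c' with ⟨h, hu, hw', -⟩ | ⟨h, h', -⟩ |
            ⟨h, -, hCC, b1, b2, b3, b4, b5, b6⟩
          · exact absurd (hw' i.1) hw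
          · have e1 : κB D G0 G1 c c' = KP D G0 G1 c' 0 := by
              unfold κB
              rw [if_pos h', h']
            rw [e1]
            exact F.mc c' h
          · exfalso
            apply hw
            rw [(hCC i.1).2]
            rcases fin3cases i.1 with hj | hj | hj
            · rw [hj, b2]
            · rw [hj, b4]
            · rw [hj, b6])
      refine ⟨C0, fun y hy => ?_⟩
      have h1 := hC0 y hy
      have h2 : ∑ c', (uC c δ i.1 c' / M * n c' + wC c δ i.1 c' / M * m c') =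
          EB c δ n m i.1 / M := by
        unfold EB
        rw [sum_div]
        exact sum_congr rfl fun c' _ => by ring
      rw [h2] at h1
      exact h1)
  obtain ⟨C', hC'⟩ := BT.main2 (Pool.Agent.W655.RK.blw_of
      (_root_.W37.RK.bl_of Pool.Agent.W505.RK.ls)) hB
    (L := EX.LX vc1 ch1)
    (fun i => by
      rw [LX1]
      by_cases h : i.1 = 2
      · rw [h]; simp
      · simp [h]) le_rfl (by omega)
    (fun i hi => by
      obtain ⟨j, hj⟩ := hi
      rw [LX1, LX1] at hj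
      have hi0 : i.1 ≠ 0 := by
        intro h
        rw [h] at hj
        simp at hj
      refine lc_TT hz (u := fun c' => uB c δ i.1 c' / M) (w := fun c' => wB c δ i.1 c' / M)
        (κ := κB D G0 G1 c) (fun c' => ?_) (fun c' => ?_) (fun c' => ?_) (fun c' hwc => ?_)
      · refine div_nonneg ?_ hM0.le
        unfold uB
        split_ifs <;> positivity
      · refine div_nonneg ?_ hM0.le
        unfold wB
        simp only [hi0, if_false]
        split_ifs <;> positivity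
      · have := F.tx c' (false, false) (false, false)
        unfold kcP at this
        rwa [if_pos (Or.inl rfl)] at this
      · by_cases hcc : c' = c
        · have e1 : κB D G0 G1 c c' = kcP D G0 G1 c' (true, true) (true, true) := by
            unfold κB kcP
            rw [if_pos hcc, if_neg (by decide), if_neg (by rw [hcc]; exact hc), hcc]
          rw [e1]
          exact F.tx c' _ _
        · by_cases h3 : c' = 3
          · have e1 : κB D G0 G1 c c' = kcP D G0 G1 c' (ec c) (true, true) := by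
              unfold κB
              rw [if_neg hcc, h3]
            rw [e1]
            exact F.tx c' _ _
          · exfalso
            apply hwc
            unfold wB
            rw [if_neg h3, if_neg hcc, zero_div])
    (K := (n 0 : ℝ) + n 1 + n 2 + n 3) (by positivity) (okU Q1 vc1)
    (fun U T h1 h2 h3 h4 => hKB hM hE0 hcond U T h1 h2 h3 h4)
  refine ⟨C', fun y hy => ?_⟩
  have h1 := EX.expand (k := 1) Q1 (z := z) (ι := Fin 3 × Fin M) (vec := vc1) (chr := ch1)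
    (fun i => by
      unfold EX.dot vc1 ch1
      rw [Fin.sum_univ_one]
      rcases fin3cases i.1 with h | h | h <;> rw [h] <;> simp [XP.bz])
    (a := aB D G0 G1 c δ M) (T := T1 D G0 G1 c δ)
    (fun p hp hpz v h => T1_hT hz hc δ hM p hp hpz v h) y
  have h2 := (le_abs_self _).trans (hC' y hy)
  have h3 : (Real.log y) ^ ((n 0 : ℝ) + n 1 + n 2 + n 3) =
      (Real.log y) ^ (n 0 + n 1 + n 2 + n 3) := by
    rw [← Real.rpow_natCast]
    push_cast
    rfl
  rw [h3] at h2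
  refine le_trans (le_of_eq ?_) h2
  convert h1 using 2

end Run7.h69.FM
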