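import Mathlib
import Pool.Agent.Run7.h69.AG8

/-!
# The average of the local counts is bounded
-/

set_option autoImplicit false
set_option linter.unusedSectionVars false

namespace Run7.h69.FM

open Finset Polynomial
open Pool.Agent.W262.RK hiding lk ff s1 s2
open Pool.Agent.W655.RK (PS_prime PS_lt PS_le sum_inv_sq)
open Pool.Agent.W762.RK2 (ind wc loc_id sg)
open EX (Bk ch okD okU)
open PK (xs TX MX)

variable {D G0 G1 : ℤ[X]} {z : ℕ}

/-- the coefficients of the Euler factor -/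
noncomputable def uE (c : Fin 4) (δ : ℝ) (c' : Fin 4) : ℝ :=
  if c' = 3 then 1 else if c' = c then ((2 : ℝ) ^ δ + 1) / 2 else (1 / 2 : ℝ) ^ δ

/-- the coefficients of the Euler factor -/
noncomputable def wE (c : Fin 4) (δ : ℝ) (c' : Fin 4) : ℝ :=
  if c' = 3 then 0 else if c' = c then ((2 : ℝ) ^ δ - 1) / 2 else 0

lemma E1_eq (hz : Gd (PQ D G0 G1) z) {p : ℕ} (hp : p.Prime) (hpz : z < p) {c : Fin 4}
    (δ : ℝ) :
    E1 D G0 G1 c δ p = LCm D G0 G1 (uE c δ) (wE c δ) (κB D G0 G1 c) p := by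
  classical
  set F : ℕ → ℝ := fun r => (wt D G0 G1 c p (r, true)) ^ δ with hF
  have h1 : ∀ r ∈ CN.Rt (PQ D G0 G1) p,
      ∑ b : Bool, (wt D G0 G1 c p (r, b)) ^ δ = 2 * F r := by
    intro r hr
    rw [Fintype.sum_bool]
    have h3 : wt D G0 G1 c p (r, false) = wt D G0 G1 c p (r, true) := rfl
    rw [h3, hF]
    ring
  unfold E1 Ty
  rw [sum_product, sum_congr rfl h1, ← mul_sum, sum_Rt hz hp hpz F]
  have h4 : ∀ c' : Fin 4, ∑ r ∈ CN.Rt (GG D G0 G1 c') p, F r =
      uE c δ c' * xs (GG D G0 G1 c') 1 p + wE c δ c' * xs (GG D G0 G1 c') (κB D G0 G1 c c') p := by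
    intro c'
    have h5 : ∀ r ∈ CN.Rt (GG D G0 G1 c') p, F r =
        uE c δ c' + wE c δ c' * Jr ((κB D G0 G1 c c').eval (r : ℤ)) p := by
      intro r hr
      have hcl := cl_eq hz hp hpz (Rt_dvd hr)
      rw [hF]
      unfold wt uE wE
      simp only [hcl]
      by_cases h3 : c' = 3
      · simp only [h3, if_true, Real.one_rpow]
        ring
      · by_cases hcc : c' = c
        · have e1 : κB D G0 G1 c c' = KP D G0 G1 c 0 := by
            unfold κB
            rw [if_pos hcc]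
          have hnd : ¬ (p : ℤ) ∣ (KP D G0 G1 c 0).eval (r : ℤ) := by
            have := KP_ndvd hz hp hpz (PQ_of_GG (Rt_dvd hr)) 0
            rwa [hcl, hcc] at this
          rw [e1]
          simp only [h3, if_false]
          rw [if_pos hcc, if_pos hcc, if_pos hcc]
          rcases Jr_pm hp hnd with hJ | hJ
          · rw [hJ, if_pos rfl]
            ring
          · rw [hJ, if_neg (by norm_num : ¬ (-1 : ℝ) = 1), Real.one_rpow]
            ring
        · simp only [h3, hcc, if_false]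
          ring
    rw [sum_congr rfl h5, sum_add_distrib, sum_const, nsmul_eq_mul, ← mul_sum, xs_one, mul_comm]
    rfl
  rw [sum_congr rfl fun c' _ => h4 c']
  have e1 : ∀ S : ℝ, iv D G0 G1 p / 2 * (2 * S) = iv D G0 G1 p * S := fun S => by ring
  rw [e1]
  rfl

/-- Euler products -/
lemma euler {h : ℕ → ℝ} {K C0 : ℝ} {N : ℕ} (hz : 2 ≤ z) (hh : ∀ p : ℕ, p.Prime → z < p → 0 ≤ h p)
    (hS : ∀ y, z < y → ∑ p ∈ PS z y, h p ≤ K * Real.log (Real.log y) + C0) (hK : K ≤ N) :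
    ∃ C : ℝ, ∀ y, z < y → ∑ s ∈ (PP z y).divisors, gm h s ≤ C * (Real.log y) ^ N := by
  refine ⟨Real.exp C0, fun y hy => ?_⟩
  refine (RX.gen z y h fun p hp => hh p (PS_prime hp) (PS_lt hp)).trans ?_
  have hl1 : 1 ≤ Real.log y := AT.log_ge1 (by omega)
  have hll : 0 ≤ Real.log (Real.log y) := Real.log_nonneg hl1
  have h1 : ∑ p ∈ PS z y, h p ≤ N * Real.log (Real.log y) + C0 := by
    have := hS y hy
    have := mul_le_mul_of_nonneg_right hK hll
    linarith
  calc Real.exp (∑ p ∈ PS z y, h p) ≤ Real.exp (N * Real.log (Real.log y) + C0) :=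
        Real.exp_le_exp.2 h1
    _ = Real.exp C0 * (Real.log y) ^ N := by
        rw [Real.exp_add, mul_comm, ← Real.exp_log (by linarith : 0 < Real.log y), ← Real.exp_nat_mul,
          Real.log_exp]

lemma E1_nonneg (hz : Gd (PQ D G0 G1) z) {p : ℕ} (hpz : z < p) (c : Fin 4) (δ : ℝ) :
    0 ≤ E1 D G0 G1 c δ p := by
  unfold E1
  have h1 := (iv_bd hz hpz).1
  exact mul_nonneg (by linarith) (sum_nonneg fun y _ => (Real.rpow_nonneg (wt_pos c p y).le _))

/-- the sums of the Euler factors -/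
theorem sumE {M : ℕ} {n m : Fin 4 → ℕ} (F : Fam D G0 G1 z M n m) {c : Fin 4} {δ : ℝ}
    (hcond : ∑ c', (uE c δ c' * n c' + wE c δ c' * m c') ≤ ((n 0 + n 1 + n 2 + n 3 : ℕ) : ℝ)) :
    ∃ C : ℝ, ∀ y, z < y → ∑ s ∈ (PP z y).divisors, gm (E1 D G0 G1 c δ) s ≤
      C * (Real.log y) ^ (n 0 + n 1 + n 2 + n 3) := by
  have hz := F.gd
  have hzM := F.zM
  have hM := F.M1
  obtain ⟨C0, hC0⟩ := lc_S hz (u := uE c δ) (w := wE c δ) (κ := κB D G0 G1 c) (n := n) (m := m)
    F.m1 (fun c' hc' => by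
      have h3 : c' ≠ 3 := by
        intro h
        apply hc'
        unfold wE
        rw [if_pos h]
      have hcc : c' = c := by
        by_contra h
        apply hc'
        unfold wE
        rw [if_neg h3, if_neg h]
      have e1 : κB D G0 G1 c c' = KP D G0 G1 c' 0 := by
        unfold κB
        rw [if_pos hcc, hcc]
      rw [e1]
      exact F.mc c' h3)
  refine euler (by omega) (fun p hp hpz => E1_nonneg hz hpz c δ) (fun y hy => ?_) hcond (C0 := C0)
  refine le_trans (le_of_eq ?_) (hC0 y hy)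
  exact sum_congr rfl fun p hp => E1_eq hz (PS_prime hp) (PS_lt hp) δ

/-- **the average** -/
theorem avg {M : ℕ} {n m : Fin 4 → ℕ} (F : Fam D G0 G1 z M n m) (hm : ∀ c, m c ≤ n c)
    (hpos : ∀ c : Fin 4, c ≠ 3 → n c < n 0 + n 1 + n 2 + n 3) {δ : ℝ} (h0 : 0 < δ) (h1 : δ ≤ 1)
    (hcond : ∀ c : Fin 4, c ≠ 3 →
      EB c δ n m 0 + EB c δ n m 2 ≤ (n 0 : ℝ) + n 1 + n 2 + n 3 ∧
      ∑ c', (uE c δ c' * n c' + wE c δ c' * m c') ≤ ((n 0 + n 1 + n 2 + n 3 : ℕ) : ℝ)) :
    ∃ C : ℝ, ∀ y, z < y → ∑ s ∈ (PP z y).divisors,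
      GS D G0 G1 δ s * gm (br (PQ D G0 G1)) s ≤ C * (Real.log y) ^ (n 0 + n 1 + n 2 + n 3) := by
  classical
  have hz := F.gd
  have hzM := F.zM
  have hM := F.M1
  set N := n 0 + n 1 + n 2 + n 3 with hN
  obtain ⟨C1, hC1⟩ := sumA F (by simpa [hN] using hpos)
  have hB : ∀ c : Fin 4, ∃ C : ℝ, c ≠ 3 → ∀ y, z < y → ∑ s ∈ (PP z y).divisors,
      (∑ d ∈ Fintype.piFinset (fun _ : Fin 1 => s.divisors),
        (if okD Q1 s d then ∏ p ∈ s.primeFactors, T1 D G0 G1 c δ p (fun l => dv p (d l))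
          (fun l => sgn p (d l)) else 0) + gm (E1 D G0 G1 c δ) s) ≤ C * (Real.log y) ^ N := by
    intro c
    by_cases hc : c = 3
    · exact ⟨0, fun h => absurd hc h⟩
    obtain ⟨Ca, hCa⟩ := sumB F hm hc h0 h1 (hcond c hc).1
    obtain ⟨Cb, hCb⟩ := sumE F (hcond c hc).2
    refine ⟨Ca + Cb, fun _ y hy => ?_⟩
    rw [sum_add_distrib, add_mul]
    refine add_le_add (le_trans (le_of_eq ?_) (hCa y hy)) (hCb y hy)
    refine sum_congr rfl fun s _ => sum_congr rfl fun d _ => ?_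
    congr 1
  choose CB hCB using hB
  obtain ⟨Cs, hCs0, hCs⟩ := sum_br hz F.mer
  obtain ⟨Cd, hCd⟩ := euler (z := z) (h := br (PQ D G0 G1)) (K := ((N : ℕ) : ℝ)) (C0 := Cs)
    (N := N) (by omega) (fun p hp hpz => br_nonneg hz hp hpz) hCs le_rfl
  refine ⟨2 * Cd + C1 + (CB 0 + (CB 1 + CB 2)), fun y hy => ?_⟩
  have hdec : ∀ s ∈ (PP z y).divisors, _ := fun s hs =>
    avg_dec (D := D) (G0 := G0) (G1 := G1) h0 h1 hz (y := y) (s := s) (Nat.dvd_of_mem_divisors hs)
  refine (sum_le_sum hdec).trans ?_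
  rw [sum_add_distrib, sum_add_distrib, ← mul_sum]
  have e1 := hCd y hy
  have e2 := hC1 y hy
  have e3 : ∑ s ∈ (PP z y).divisors, ∑ c ∈ ({0, 1, 2} : Finset (Fin 4)),
      (∑ d ∈ Fintype.piFinset (fun _ : Fin 1 => s.divisors),
          (if okD Q1 s d then ∏ p ∈ s.primeFactors, T1 D G0 G1 c δ p (fun l => dv p (d l))
            (fun l => sgn p (d l)) else 0) + gm (E1 D G0 G1 c δ) s) ≤
      (CB 0 + (CB 1 + CB 2)) * (Real.log y) ^ N := by
    rw [sum_comm, sum_insert (by decide), sum_insert (by decide), sum_singleton, add_mul, add_mul]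
    exact add_le_add (hCB 0 (by decide) y hy) (add_le_add (hCB 1 (by decide) y hy)
      (hCB 2 (by decide) y hy))
  have e2' : ∑ s ∈ (PP z y).divisors, ∑ d ∈ Fintype.piFinset (fun _ : Fin 2 => s.divisors),
        (if okD Q2 s d then ∏ p ∈ s.primeFactors, T2 D G0 G1 p (fun l => dv p (d l))
          (fun l => sgn p (d l)) else 0) ≤ C1 * (Real.log y) ^ N := by
    refine le_trans (le_of_eq ?_) e2
    refine sum_congr rfl fun s _ => sum_congr rfl fun d _ => ?_
    congr 1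
  calc _ ≤ 2 * (Cd * (Real.log y) ^ N) + C1 * (Real.log y) ^ N +
        (CB 0 + (CB 1 + CB 2)) * (Real.log y) ^ N := by
        refine add_le_add (add_le_add (by linarith) ?_) ?_
        · refine le_trans (le_of_eq ?_) e2'
          refine sum_congr rfl fun s _ => sum_congr rfl fun d _ => ?_
          congr 1
        · refine le_trans (le_of_eq ?_) e3
          refine sum_congr rfl fun s _ => sum_congr rfl fun c _ => ?_
          congr 1
    _ = _ := by ring

/-- the numerical condition -/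
lemma cond_of {n m : Fin 4 → ℕ} {δ : ℝ} (h0 : 0 < δ) {c : Fin 4} (hc : c ≠ 3)
    (h : (2 : ℝ) ^ δ * (n c + m c) ≤ 2 * ((n 0 : ℝ) + n 1 + n 2 - n c)) :
    EB c δ n m 0 + EB c δ n m 2 ≤ (n 0 : ℝ) + n 1 + n 2 + n 3 ∧
      ∑ c', (uE c δ c' * n c' + wE c δ c' * m c') ≤ ((n 0 + n 1 + n 2 + n 3 : ℕ) : ℝ) := by
  set t : ℝ := (2 : ℝ) ^ δ with ht
  have ht1 : 1 < t := Real.one_lt_rpow (by norm_num) h0
  have ht0 : 0 < t := by linarith
  have el : (2 : ℝ) ^ (δ - 1) = t / 2 := by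
    rw [Real.rpow_sub_one (by norm_num)]
  have eh : (1 / 2 : ℝ) ^ δ = 1 / t := by
    rw [one_div, Real.inv_rpow (by norm_num), one_div]
  have em : (1 / 2 : ℝ) ^ (δ - 1) = 2 / t := by
    rw [Real.rpow_sub_one (by norm_num), eh]
    field_simp
  have eh' : (2⁻¹ : ℝ) ^ δ = 1 / t := by rw [← one_div, eh]
  have em' : (2⁻¹ : ℝ) ^ (δ - 1) = 2 / t := by rw [← one_div, em]
  set A : ℝ := (n 0 : ℝ) + n 1 + n 2 - n c with hA
  set S : ℝ := (n c : ℝ) + m c with hS
  have hkey : (t - 1) / 2 * S ≤ A * (1 - 1 / t) := by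
    have h2 : A * (1 - 1 / t) = (t - 1) / 2 * (2 * A / t) := by field_simp
    rw [h2]
    refine mul_le_mul_of_nonneg_left ?_ (by linarith)
    rw [le_div_iff₀ ht0]
    linarith
  have hAe : A * (1 - 1 / t) = A - A / t := by ring
  constructor
  · have e : EB c δ n m 0 + EB c δ n m 2 = t / 2 * S + ((n c : ℝ) - m c) / 2 + A / t + n 3 := by
      unfold EB
      rw [Fin.sum_univ_four, Fin.sum_univ_four]
      rcases three hc with h | h | h <;> subst h <;>
        simp [uC, wC, uB, wB, el, em', hA, hS] <;> ring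
    rw [e]
    have : (n 0 : ℝ) + n 1 + n 2 + n 3 = n c + A + n 3 := by rw [hA]; ring
    rw [this]
    have h3 : t / 2 * S + ((n c : ℝ) - m c) / 2 = (t - 1) / 2 * S + n c := by rw [hS]; ring
    linarith
  · have e : ∑ c', (uE c δ c' * n c' + wE c δ c' * m c') =
        (t - 1) / 2 * S + n c + A / t + n 3 := by
      rw [Fin.sum_univ_four]
      rcases three hc with h | h | h <;> subst h <;>
        simp [uE, wE, ← ht, eh', hA, hS] <;> ring
    rw [e]
    push_cast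
    have : (n 0 : ℝ) + n 1 + n 2 + n 3 = n c + A + n 3 := by rw [hA]; ring
    rw [this]
    linarith

end Run7.h69.FM
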