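import Mathlib
import Pool.Agent.Run7.h69.AG9

/-!
# The analytic data of a family
-/

set_option autoImplicit false
set_option linter.unusedSectionVars false

namespace Run7.h69.FM

open Finset Polynomial
open Pool.Agent.W262.RK hiding lk ff s1 s2
open Pool.Agent.W655.RK (PS_prime PS_lt PS_le sum_inv_sq)
open PK (xs TX MX cnt qq SqQ)
open UniqueFactorizationMonoid

variable {D G0 G1 : ℤ[X]} {z : ℕ}

/-- the algebraic hypotheses -/
structure Cop (D G0 G1 : ℤ[X]) : Prop where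
  ne : ∀ c, GG D G0 G1 c ≠ 0
  sq : ∀ c, Squarefree (qq (GG D G0 G1 c))
  cop : ∀ c c', c ≠ c' → IsCoprime (qq (GG D G0 G1 c)) (qq (GG D G0 G1 c'))

lemma cop_KP (h : Cop D G0 G1) (c : Fin 4) (k : Fin 3) :
    IsCoprime (qq (GG D G0 G1 c)) (qq (KP D G0 G1 c k)) := by
  have hm : ∀ A B : ℤ[X], qq (A * B) = qq A * qq B := fun A B => Polynomial.map_mul _
  have hn : ∀ A : ℤ[X], qq (-A) = -qq A := fun A => Polynomial.map_neg _
  have h4 : c = 0 ∨ c = 1 ∨ c = 2 ∨ c = 3 := by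
    revert c
    decide
  have e0 : ∀ c, c ≠ 0 → IsCoprime (qq (GG D G0 G1 c)) (qq G0) := fun c hc => h.cop c 0 hc
  have e1 : ∀ c, c ≠ 1 → IsCoprime (qq (GG D G0 G1 c)) (qq G1) := fun c hc => h.cop c 1 hc
  have e2 : ∀ c, c ≠ 2 → IsCoprime (qq (GG D G0 G1 c)) (qq (G0 - G1)) := fun c hc => h.cop c 2 hc
  have e3 : ∀ c, c ≠ 3 → IsCoprime (qq (GG D G0 G1 c)) (qq D) := fun c hc => h.cop c 3 hc
  rcases h4 with rfl | rfl | rfl | rfl
  · have : KP D G0 G1 0 k = -(D * G1) := rfl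
    rw [this, hn, hm]
    exact ((e3 0 (by decide)).mul_right (e1 0 (by decide))).neg_right
  · have : KP D G0 G1 1 k = -(D * G0) := rfl
    rw [this, hn, hm]
    exact ((e3 1 (by decide)).mul_right (e0 1 (by decide))).neg_right
  · have : KP D G0 G1 2 k = D * G0 := rfl
    rw [this, hm]
    exact (e3 2 (by decide)).mul_right (e0 2 (by decide))
  · rcases fin3cases k with rfl | rfl | rfl
    · have : KP D G0 G1 3 0 = G1 * (G0 - G1) := rfl
      rw [this, hm]
      exact (e1 3 (by decide)).mul_right (e2 3 (by decide))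
    · have : KP D G0 G1 3 1 = G0 * (G0 - G1) := rfl
      rw [this, hm]
      exact (e0 3 (by decide)).mul_right (e2 3 (by decide))
    · have : KP D G0 G1 3 2 = G0 * G1 := rfl
      rw [this, hm]
      exact (e0 3 (by decide)).mul_right (e1 3 (by decide))

lemma cop_kcP (h : Cop D G0 G1) (c : Fin 4) (v x : Bool × Bool) :
    IsCoprime (qq (GG D G0 G1 c)) (qq (kcP D G0 G1 c v x)) := by
  have hm : ∀ A B : ℤ[X], qq (A * B) = qq A * qq B := fun A B => Polynomial.map_mul _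
  have hn : ∀ A : ℤ[X], qq (-A) = -qq A := fun A => Polynomial.map_neg _
  unfold kcP
  split_ifs
  · have : qq (1 : ℤ[X]) = 1 := Polynomial.map_one _
    rw [this]
    exact isCoprime_one_right
  · rw [hm]
    exact (cop_KP h c 0).mul_right (cop_KP h c 2)
  · rw [hm]
    exact (cop_KP h c 0).mul_right (cop_KP h c 1)
  · rw [hn, hm]
    exact ((cop_KP h c 1).mul_right (cop_KP h c 2)).neg_right
  · exact cop_KP h c 0

lemma sq_PQ (h : Cop D G0 G1) : Squarefree (qq (PQ D G0 G1)) := by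
  have hm : ∀ A B : ℤ[X], qq (A * B) = qq A * qq B := fun A B => Polynomial.map_mul _
  have s0 : Squarefree (qq G0) := h.sq 0
  have s1 : Squarefree (qq G1) := h.sq 1
  have s2 : Squarefree (qq (G0 - G1)) := h.sq 2
  have s3 : Squarefree (qq D) := h.sq 3
  have c12 : IsCoprime (qq G1) (qq (G0 - G1)) := h.cop 1 2 (by decide)
  have c01 : IsCoprime (qq G0) (qq G1) := h.cop 0 1 (by decide)
  have c02 : IsCoprime (qq G0) (qq (G0 - G1)) := h.cop 0 2 (by decide)
  have c30 : IsCoprime (qq D) (qq G0) := h.cop 3 0 (by decide)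
  have c31 : IsCoprime (qq D) (qq G1) := h.cop 3 1 (by decide)
  have c32 : IsCoprime (qq D) (qq (G0 - G1)) := h.cop 3 2 (by decide)
  unfold PQ
  rw [hm, hm, hm, squarefree_mul_iff, squarefree_mul_iff, squarefree_mul_iff]
  exact ⟨(c30.mul_right (c31.mul_right c32)).isRelPrime, s3,
    (c01.mul_right c02).isRelPrime, s0, c12.isRelPrime, s1, s2⟩

lemma ne_PQ (h : Cop D G0 G1) : PQ D G0 G1 ≠ 0 := by
  unfold PQ
  exact mul_ne_zero (h.ne 3) (mul_ne_zero (h.ne 0) (mul_ne_zero (h.ne 1) (h.ne 2)))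

lemma cnt_ne (a : ℤ[X]) {S : ℚ[X] → Prop} {q : ℚ[X]} (hq : q ∈ normalizedFactors (qq a))
    (hS : S q) : cnt a S ≠ 0 := by
  classical
  unfold cnt
  refine card_ne_zero_of_mem (a := q) ?_
  rw [mem_filter]
  exact ⟨Multiset.mem_toFinset.2 hq, hS⟩

lemma cnt_zero {a : ℤ[X]} (ha : a ≠ 0) (h : cnt a (fun _ => True) = 0) :
    ∃ k : ℤ, k ≠ 0 ∧ a = C k := by
  have h1 : normalizedFactors (qq a) = 0 := by
    by_contra hne
    obtain ⟨q, hq⟩ := Multiset.exists_mem_of_ne_zero hne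
    exact cnt_ne a (S := fun _ => True) hq trivial h
  have h2 : IsUnit (qq a) := by
    have h3 := prod_normalizedFactors (PK.qq_ne ha)
    rw [h1, Multiset.prod_zero] at h3
    exact (associated_one_iff_isUnit.1 h3.symm)
  have h3 : (qq a).natDegree = 0 := natDegree_eq_zero_of_isUnit h2
  unfold qq at h3
  rw [natDegree_map_eq_of_injective (Int.castRingHom ℚ).injective_int] at h3
  obtain ⟨k, hk⟩ := natDegree_eq_zero.1 h3
  refine ⟨k, ?_, hk.symm⟩
  rintro rfl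
  rw [map_zero] at hk
  exact ha hk.symm

lemma cnt_mono (a : ℤ[X]) {S T : ℚ[X] → Prop} (h : ∀ q, S q → T q) : cnt a S ≤ cnt a T := by
  classical
  unfold cnt
  apply card_le_card
  intro q hq
  rw [mem_filter] at hq ⊢
  exact ⟨hq.1, h q hq.2⟩

lemma cnt_one (a : ℤ[X]) : cnt a (SqQ 1) = cnt a (fun _ => True) := by
  refine le_antisymm (cnt_mono a fun _ _ => trivial) (cnt_mono a fun q _ => ?_)
  refine ⟨1, ?_⟩
  have : qq (1 : ℤ[X]) = 1 := Polynomial.map_one _
  rw [this]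
  simp

lemma mer_of (hz : Gd (PQ D G0 G1) z) {n : Fin 4 → ℕ} (h : ∀ c, MX (GG D G0 G1 c) 1 (n c) z) :
    Mer (PQ D G0 G1) (n 0 + n 1 + n 2 + n 3) := by
  choose C hC using h
  have hb := hz.big
  set N : ℕ := n 0 + n 1 + n 2 + n 3 with hN
  set S0 : ℝ := ∑ p ∈ (Icc 1 z).filter Nat.Prime, (rho (PQ D G0 G1) p : ℝ) / p with hS0
  have hS00 : 0 ≤ S0 := sum_nonneg fun p _ => by positivity
  set LL0 : ℝ := ∑ y ∈ range (z + 1), |Real.log (Real.log (y : ℝ))| with hLL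
  have hLL0 : 0 ≤ LL0 := sum_nonneg fun y _ => abs_nonneg _
  have hsmall : ∀ y ≤ z, ∑ p ∈ (Icc 1 y).filter Nat.Prime, (rho (PQ D G0 G1) p : ℝ) / p ≤ S0 := by
    intro y hy
    refine sum_le_sum_of_subset_of_nonneg ?_ fun p _ _ => by positivity
    exact filter_subset_filter _ (Icc_subset_Icc le_rfl hy)
  refine ⟨∑ c, |C c| + S0 + N * LL0, fun y hy => ?_⟩
  have hC0 : 0 ≤ ∑ c, |C c| := sum_nonneg fun c _ => abs_nonneg _
  rcases Nat.lt_or_ge z y with hzy | hzy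
  · have hsplit : (Icc 1 y).filter Nat.Prime = (Icc 1 z).filter Nat.Prime ∪ PS z y := by
      ext p
      rw [mem_union, mem_filter, mem_filter, mem_Icc, mem_Icc, mem_PS]
      constructor
      · rintro ⟨⟨h1, h2⟩, h3⟩
        by_cases h4 : p ≤ z
        · exact Or.inl ⟨⟨h1, h4⟩, h3⟩
        · exact Or.inr ⟨⟨by omega, h2⟩, h3⟩
      · rintro (⟨⟨h1, h2⟩, h3⟩ | ⟨⟨h1, h2⟩, h3⟩)
        · exact ⟨⟨h1, by omega⟩, h3⟩
        · exact ⟨⟨by omega, h2⟩, h3⟩
    have hdisj : Disjoint ((Icc 1 z).filter Nat.Prime) (PS z y) := by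
      rw [disjoint_left]
      intro p hp hp'
      rw [mem_filter, mem_Icc] at hp
      rw [mem_PS] at hp'
      omega
    rw [hsplit, sum_union hdisj, ← hS0]
    have h1 : ∑ p ∈ PS z y, (rho (PQ D G0 G1) p : ℝ) / p - N * Real.log (Real.log y) =
        ∑ c, (∑ p ∈ PS z y, xs (GG D G0 G1 c) 1 p / p - n c * Real.log (Real.log y)) := by
      have h2 : ∑ p ∈ PS z y, (rho (PQ D G0 G1) p : ℝ) / p =
          ∑ c, ∑ p ∈ PS z y, xs (GG D G0 G1 c) 1 p / p := by
        rw [sum_comm]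
        refine sum_congr rfl fun p hp => ?_
        rw [← sum_rho_c hz (PS_prime hp) (PS_lt hp), sum_div]
        exact sum_congr rfl fun c _ => by rw [xs_one]
      rw [h2, sum_sub_distrib, ← sum_mul, Fin.sum_univ_four (f := fun c => (n c : ℝ)), hN]
      push_cast
      ring
    have h2 : |∑ c, (∑ p ∈ PS z y, xs (GG D G0 G1 c) 1 p / p - n c * Real.log (Real.log y))| ≤
        ∑ c, |C c| := by
      refine (abs_sum_le_sum_abs _ _).trans (sum_le_sum fun c _ => ?_)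
      exact (hC c y hzy).trans (le_abs_self _)
    rw [← h1] at h2
    have h3 : 0 ≤ (N : ℝ) * LL0 := by positivity
    rw [abs_le] at h2 ⊢
    constructor <;> linarith [h2.1, h2.2]
  · have h1 := hsmall y hzy
    have h2 : 0 ≤ ∑ p ∈ (Icc 1 y).filter Nat.Prime, (rho (PQ D G0 G1) p : ℝ) / p :=
      sum_nonneg fun p _ => by positivity
    have h3 : |Real.log (Real.log (y : ℝ))| ≤ LL0 :=
      single_le_sum (f := fun y : ℕ => |Real.log (Real.log (y : ℝ))|) (fun _ _ => abs_nonneg _)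
        (mem_range.2 (by omega))
    have h4 : |(N : ℝ) * Real.log (Real.log y)| ≤ N * LL0 := by
      rw [abs_mul, abs_of_nonneg (Nat.cast_nonneg N)]
      exact mul_le_mul_of_nonneg_left h3 (Nat.cast_nonneg N)
    rw [abs_le] at h4 ⊢
    constructor <;> linarith [h4.1, h4.2]

/-- **the analytic data exist** -/
theorem exists_fam (h : Cop D G0 G1) : ∃ z M : ℕ,
    Fam D G0 G1 z M (fun c => cnt (GG D G0 G1 c) (fun _ => True))
      (fun c => if c = 3 then 0 else cnt (GG D G0 G1 c) (SqQ (KP D G0 G1 c 0))) := by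
  classical
  set n : Fin 4 → ℕ := fun c => cnt (GG D G0 G1 c) (fun _ => True) with hn
  have hS : ∀ i : Fin 4 × (Bool × Bool) × (Bool × Bool), ∃ z0 : ℕ, ∀ z, z0 ≤ z →
      TX (GG D G0 G1 i.1) (kcP D G0 G1 i.1 i.2.1 i.2.2) z ∧
        MX (GG D G0 G1 i.1) (kcP D G0 G1 i.1 i.2.1 i.2.2)
          (cnt (GG D G0 G1 i.1) (SqQ (kcP D G0 G1 i.1 i.2.1 i.2.2))) z := fun i =>
    PK.sums _ _ (h.sq i.1) (h.ne i.1) (cop_kcP h i.1 i.2.1 i.2.2)
  choose z0 hz0 using hS
  have hsep : ((PQ D G0 G1).map (Int.castRingHom ℚ)).Separable :=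
    (PerfectField.separable_iff_squarefree).2 (sq_PQ h)
  obtain ⟨z1, hz1⟩ := UT.good (PQ D G0 G1) (ne_PQ h) hsep
  have hK : ∀ c : Fin 4, ∃ k : ℕ, n c = 0 → ∀ p : ℕ, k < p → rho (GG D G0 G1 c) p = 0 := by
    intro c
    by_cases h0 : n c = 0
    · obtain ⟨k, hk, hk2⟩ := cnt_zero (h.ne c) h0
      refine ⟨k.natAbs, fun _ p hp => ?_⟩
      rw [hk2]
      exact UT.rho_C hk hp
    · exact ⟨0, fun h1 => absurd h1 h0⟩
  choose k hk using hK
  set M : ℕ := 1 + 2 * (PQ D G0 G1).natDegree + 2 * (n 0 + n 1 + n 2 + n 3) with hM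
  set z : ℕ := 16 * M + z1 + ∑ i, z0 i + ∑ c, k c with hz
  have hz0' : ∀ i, z0 i ≤ z := by
    intro i
    have := single_le_sum (f := z0) (fun _ _ => Nat.zero_le _) (mem_univ i)
    omega
  have hk' : ∀ c, k c ≤ z := by
    intro c
    have := single_le_sum (f := k) (fun _ _ => Nat.zero_le _) (mem_univ c)
    omega
  have hgd := hz1 z (by omega)
  have hone : ∀ c, kcP D G0 G1 c (false, false) (false, false) = 1 := fun c => by
    unfold kcP
    rw [if_pos (Or.inl rfl)]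
  have hm1 : ∀ c, MX (GG D G0 G1 c) 1 (n c) z := by
    intro c
    have h1 := (hz0 (c, (false, false), (false, false)) z (hz0' _)).2
    simp only [hone, cnt_one] at h1
    exact h1
  refine ⟨z, M, ⟨hgd, mer_of hgd hm1, by omega, by omega, by omega, by omega,
    fun c v x => (hz0 (c, v, x) z (hz0' _)).1, hm1, fun c hc => ?_,
    fun c h0 p _ hp => hk c h0 p (lt_of_le_of_lt (hk' c) hp)⟩⟩
  have h1 := (hz0 (c, (true, true), (true, true)) z (hz0' _)).2
  have h2 : kcP D G0 G1 c (true, true) (true, true) = KP D G0 G1 c 0 := by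
    unfold kcP
    rw [if_neg (by decide), if_neg hc]
  simp only [h2] at h1
  rw [if_neg hc]
  exact h1

/-- the moments for given data -/
theorem fam_moments (h : Cop D G0 G1) {n m : Fin 4 → ℕ}
    (hn : n = fun c => cnt (GG D G0 G1 c) (fun _ => True))
    (hm : m = fun c => if c = 3 then 0 else cnt (GG D G0 G1 c) (SqQ (KP D G0 G1 c 0)))
    (hpos : ∀ c : Fin 4, c ≠ 3 → n c < n 0 + n 1 + n 2 + n 3) {δ : ℝ} (h0 : 0 < δ) (h1 : δ ≤ 1)
    (hcond : ∀ c : Fin 4, c ≠ 3 →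
      (2 : ℝ) ^ δ * (n c + m c) ≤ 2 * ((n 0 : ℝ) + n 1 + n 2 - n c)) (L : ℕ) :
    ∃ (X0 : ℕ) (B : ℝ), ∀ (x : ℤ) (X : ℕ), x.natAbs ≤ X ^ L → X0 ≤ X →
      ∑ t ∈ NX.II (PQ D G0 G1) x X, ((2 : ℝ) ^ Module.finrank ℤ
        (EAB ((D * G0).eval t) ((D * G1).eval t)).toAffine.Point) ^ δ ≤ B * X := by
  obtain ⟨z, M, F⟩ := exists_fam h
  rw [← hn, ← hm] at F
  have hmn : ∀ c, m c ≤ n c := by
    intro c
    rw [hm, hn]
    simp only
    split_ifs
    · exact Nat.zero_le _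
    · exact cnt_mono _ fun _ _ => trivial
  obtain ⟨C', hC'⟩ := avg F hmn hpos h0 h1 (fun c hc => cond_of h0 hc (hcond c hc))
  exact moments L h0.le h1 F.gd F.mer hC'

end Run7.h69.FM
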