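import Mathlib
import Pool.Agent.Run7.h69.FN

/-!
# Moments of `2 ^ rank` in the families `y² = x (x - F₀(t)) (x - F₁(t))`
-/

set_option autoImplicit false
set_option linter.unusedSectionVars false

namespace Run7.h69.FZ

open Finset Polynomial
open Pool.Agent.W262.RK hiding lk ff s1 s2
open PK (cnt qq SqQ)
open FM
open UniqueFactorizationMonoid

/-- the three polynomials -/
noncomputable def FF (F0 F1 : ℤ[X]) (c : Fin 3) : ℤ[X] :=
  if c = 0 then F0 else if c = 1 then F1 else F0 - F1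

/-- the three signs -/
noncomputable def gam (F0 F1 : ℤ[X]) (c : Fin 3) : ℤ[X] :=
  if c = 0 then -F1 else if c = 1 then -F0 else F0

open Classical in
/-- the number of the proper factors with a property -/
noncomputable def num (F0 F1 : ℤ[X]) (c : Fin 3) (S : ℚ[X] → Prop) : ℕ :=
  ((normalizedFactors (qq (FF F0 F1 c))).toFinset.filter
    (fun q => ¬ q ∣ qq (FF F0 F1 (c + 1)) ∧ S q)).card

lemma relprime_coprime (a b : ℤ[X]) : a ≠ 0 → IsRelPrime a b → IsCoprime (qq a) (qq b) := by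
  induction a using WfDvdMonoid.induction_on_irreducible with
  | zero => intro h; exact absurd rfl h
  | unit u hu =>
    intro _ _
    have h1 : IsUnit (qq u) := hu.map (Polynomial.mapRingHom (Int.castRingHom ℚ))
    obtain ⟨w, hw⟩ := h1.exists_left_inv
    exact ⟨w, 0, by rw [hw]; ring⟩
  | mul a i ha hi ih =>
    intro _ h
    have hm : qq (i * a) = qq i * qq a := Polynomial.map_mul _
    rw [hm]
    refine IsCoprime.mul_left ?_ (ih ha (h.of_mul_left_right))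
    refine UT.irr_cop i b hi fun hib => ?_
    exact hi.not_isUnit (h (Dvd.intro _ rfl) hib)

lemma num_eq {D A B : ℤ[X]} (hD : D ≠ 0) (hA : A ≠ 0) (hDA : IsCoprime (qq A) (qq D))
    (hAB : IsCoprime (qq A) (qq B)) (S : ℚ[X] → Prop) (s : Finset ℚ[X])
    (hs : ∀ q, q ∈ s ↔ q ∈ normalizedFactors (qq (D * A)) ∧ ¬ q ∣ qq (D * B) ∧ S q) :
    s.card = cnt A S := by
  classical
  have hm : ∀ A B : ℤ[X], qq (A * B) = qq A * qq B := fun A B => Polynomial.map_mul _
  unfold cnt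
  congr 1
  ext q
  rw [hs, mem_filter, Multiset.mem_toFinset, hm, hm,
    normalizedFactors_mul (PK.qq_ne hD) (PK.qq_ne hA), Multiset.mem_add]
  constructor
  · rintro ⟨h1 | h1, h2, h3⟩
    · exact absurd ((dvd_of_mem_normalizedFactors h1).mul_right _) h2
    · exact ⟨h1, h3⟩
  · rintro ⟨h1, h3⟩
    refine ⟨Or.inr h1, fun h2 => ?_, h3⟩
    have hirr := irreducible_of_normalized_factor q h1
    have hqA := dvd_of_mem_normalizedFactors h1
    exact hirr.not_isUnit ((hDA.mul_right hAB).isUnit_of_dvd' hqA h2)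

/-- the algebraic data -/
theorem exists_data (F0 F1 : ℤ[X]) (hsq : ∀ c : Fin 3, Squarefree (qq (FF F0 F1 c))) :
    ∃ D G0 G1 : ℤ[X], F0 = D * G0 ∧ F1 = D * G1 ∧ Cop D G0 G1 ∧
      ∀ (c : Fin 3) (S : ℚ[X] → Prop), num F0 F1 c S = cnt (GG D G0 G1 c.castSucc) S := by
  classical
  have hm : ∀ A B : ℤ[X], qq (A * B) = qq A * qq B := fun A B => Polynomial.map_mul _
  have hs0 : Squarefree (qq F0) := hsq 0
  have hs1 : Squarefree (qq F1) := hsq 1
  have hs2 : Squarefree (qq (F0 - F1)) := hsq 2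
  have hne : ∀ A : ℤ[X], Squarefree (qq A) → A ≠ 0 := by
    rintro A h rfl
    have : qq (0 : ℤ[X]) = 0 := Polynomial.map_zero _
    rw [this] at h
    exact not_squarefree_zero h
  have hF0 := hne F0 hs0
  have hF1 := hne F1 hs1
  have hF2 := hne (F0 - F1) hs2
  obtain ⟨G0, G1, D, hrel, h0, h1⟩ := exists_reduced_factors F0 hF0 F1
  have h2 : D * (G0 - G1) = F0 - F1 := by rw [mul_sub, h0, h1]
  have hD0 : D ≠ 0 := by
    rintro rfl
    rw [zero_mul] at h0
    exact hF0 h0.symm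
  have hG0 : G0 ≠ 0 := by
    rintro rfl
    rw [mul_zero] at h0
    exact hF0 h0.symm
  have hG1 : G1 ≠ 0 := by
    rintro rfl
    rw [mul_zero] at h1
    exact hF1 h1.symm
  have hG2 : G0 - G1 ≠ 0 := by
    intro h
    rw [h, mul_zero] at h2
    exact hF2 h2.symm
  have hc01 : IsCoprime (qq G0) (qq G1) := relprime_coprime G0 G1 hG0 hrel
  have hms : qq (G0 - G1) = qq G0 - qq G1 := Polynomial.map_sub _
  have hc02 : IsCoprime (qq G0) (qq (G0 - G1)) := by
    rw [hms]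
    obtain ⟨u, v, huv⟩ := hc01
    exact ⟨u + v, -v, by linear_combination huv⟩
  have hc12 : IsCoprime (qq G1) (qq (G0 - G1)) := by
    rw [hms]
    obtain ⟨u, v, huv⟩ := hc01
    exact ⟨u + v, u, by linear_combination huv⟩
  rw [← h0, hm, squarefree_mul_iff] at hs0
  rw [← h1, hm, squarefree_mul_iff] at hs1
  rw [← h2, hm, squarefree_mul_iff] at hs2
  have hd0 : IsCoprime (qq D) (qq G0) := hs0.1.isCoprime
  have hd1 : IsCoprime (qq D) (qq G1) := hs1.1.isCoprime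
  have hd2 : IsCoprime (qq D) (qq (G0 - G1)) := hs2.1.isCoprime
  have hCop : Cop D G0 G1 := by
    refine ⟨fin4 _ hG0 hG1 hG2 hD0, fin4 _ hs0.2.2 hs1.2.2 hs2.2.2 hs0.2.1, ?_⟩
    refine fin4 _ (fin4 _ ?_ ?_ ?_ ?_) (fin4 _ ?_ ?_ ?_ ?_) (fin4 _ ?_ ?_ ?_ ?_)
      (fin4 _ ?_ ?_ ?_ ?_)
    all_goals first
      | (intro h; exact absurd rfl h)
      | intro _
    · exact hc01
    · exact hc02
    · exact hd0.symm
    · exact hc01.symm
    · exact hc12
    · exact hd1.symm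
    · exact hc02.symm
    · exact hc12.symm
    · exact hd2.symm
    · exact hd0
    · exact hd1
    · exact hd2
  refine ⟨D, G0, G1, h0.symm, h1.symm, hCop, ?_⟩
  refine RK.fin3 _ ?_ ?_ ?_
  · intro S
    refine num_eq (B := G1) hD0 hG0 hd0.symm hc01 S _ fun q => ?_
    rw [mem_filter, Multiset.mem_toFinset, h0, h1]
    rfl
  · intro S
    refine num_eq (B := G0 - G1) hD0 hG1 hd1.symm hc12 S _ fun q => ?_
    rw [mem_filter, Multiset.mem_toFinset, h1, h2]
    rfl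
  · intro S
    refine num_eq (B := G0) hD0 hG2 hd2.symm hc02.symm S _ fun q => ?_
    rw [mem_filter, Multiset.mem_toFinset, h2, h0]
    rfl

/-- the rank quantity -/
noncomputable def rk (A B : ℤ) : ℕ := Module.finrank ℤ (EAB A B).toAffine.Point

/-- the interval without the singular fibres -/
noncomputable def JJ (F0 F1 : ℤ[X]) (x : ℤ) (X : ℕ) : Finset ℤ :=
  (Ioc x (x + X)).filter (fun t => F0.eval t ≠ 0 ∧ F1.eval t ≠ 0 ∧ F0.eval t ≠ F1.eval t)

/-- **the moments** -/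
theorem main (F0 F1 : ℤ[X]) (hsq : ∀ c : Fin 3, Squarefree (qq (FF F0 F1 c))) {δ : ℝ}
    (h0 : 0 < δ) (h1 : δ ≤ 1)
    (hcond : ∀ c : Fin 3, (2 : ℝ) ^ δ * ((num F0 F1 c (fun _ => True) : ℝ) +
      num F0 F1 c (fun q => ∃ s : ℚ[X], q ∣ qq (gam F0 F1 c) - s ^ 2)) ≤
      2 * ((num F0 F1 (c + 1) (fun _ => True) : ℝ) + num F0 F1 (c + 2) (fun _ => True)))
    (L : ℕ) :
    ∃ C : ℝ, ∀ (x : ℤ) (X : ℕ), 1 ≤ X → x.natAbs ≤ X ^ L →
      ∑ t ∈ JJ F0 F1 x X, ((2 : ℝ) ^ rk (F0.eval t) (F1.eval t)) ^ δ ≤ C * X := by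
  classical
  obtain ⟨D, G0, G1, hF0, hF1, hCop, hnum⟩ := exists_data F0 F1 hsq
  set n : Fin 4 → ℕ := fun c => cnt (GG D G0 G1 c) (fun _ => True) with hn
  set m : Fin 4 → ℕ := fun c => if c = 3 then 0 else cnt (GG D G0 G1 c) (SqQ (KP D G0 G1 c 0))
    with hm
  have hnn : ∀ t : ℤ, 0 ≤ ((2 : ℝ) ^ rk (F0.eval t) (F1.eval t)) ^ δ := fun t => by positivity
  have hJJ : ∀ x X, JJ F0 F1 x X ⊆ NX.II (PQ D G0 G1) x X := by
    intro x X t ht
    unfold JJ at ht
    unfold NX.II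
    rw [mem_filter] at ht ⊢
    obtain ⟨h2, h3, h4, h5⟩ := ht
    refine ⟨h2, ?_⟩
    rw [hF0, eval_mul] at h3
    rw [hF1, eval_mul] at h4
    rw [hF0, hF1, eval_mul, eval_mul] at h5
    rw [PQ_eval, eval_sub]
    refine mul_ne_zero (left_ne_zero_of_mul h3) (mul_ne_zero (right_ne_zero_of_mul h3)
      (mul_ne_zero (right_ne_zero_of_mul h4) (sub_ne_zero.2 fun h => h5 (by rw [h]))))
  have hcard : ∀ x X, ((JJ F0 F1 x X).card : ℝ) ≤ X := by
    intro x X
    have h3 : (JJ F0 F1 x X).card ≤ X := by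
      unfold JJ
      refine (card_filter_le _ _).trans ?_
      rw [Int.card_Ioc]
      simp
    exact_mod_cast h3
  -- the numbers
  have e0 : (num F0 F1 0 (fun _ => True)) = n 0 := hnum 0 _
  have e1 : (num F0 F1 1 (fun _ => True)) = n 1 := hnum 1 _
  have e2 : (num F0 F1 2 (fun _ => True)) = n 2 := hnum 2 _
  have g0 : gam F0 F1 0 = KP D G0 G1 0 0 := by
    show -F1 = -(D * G1)
    rw [hF1]
  have g1 : gam F0 F1 1 = KP D G0 G1 1 0 := by
    show -F0 = -(D * G0)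
    rw [hF0]
  have g2 : gam F0 F1 2 = KP D G0 G1 2 0 := by
    show F0 = D * G0
    rw [hF0]
  have m0 : (num F0 F1 0 (fun q => ∃ s : ℚ[X], q ∣ qq (gam F0 F1 0) - s ^ 2)) = m 0 := by
    rw [hnum 0, g0]
    rfl
  have m1 : (num F0 F1 1 (fun q => ∃ s : ℚ[X], q ∣ qq (gam F0 F1 1) - s ^ 2)) = m 1 := by
    rw [hnum 1, g1]
    rfl
  have m2 : (num F0 F1 2 (fun q => ∃ s : ℚ[X], q ∣ qq (gam F0 F1 2) - s ^ 2)) = m 2 := by
    rw [hnum 2, g2]
    rfl
  have c0 := hcond 0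
  have c1 := hcond 1
  have c2 := hcond 2
  rw [show (0 : Fin 3) + 1 = 1 from rfl, show (0 : Fin 3) + 2 = 2 from rfl, e0, e1, e2, m0] at c0
  rw [show (1 : Fin 3) + 1 = 2 from rfl, show (1 : Fin 3) + 2 = 0 from rfl, e0, e1, e2, m1] at c1
  rw [show (2 : Fin 3) + 1 = 0 from rfl, show (2 : Fin 3) + 2 = 1 from rfl, e0, e1, e2, m2] at c2
  have hcond4 : ∀ c : Fin 4, c ≠ 3 →
      (2 : ℝ) ^ δ * (n c + m c) ≤ 2 * ((n 0 : ℝ) + n 1 + n 2 - n c) := by
    refine fin4 _ (fun _ => ?_) (fun _ => ?_) (fun _ => ?_) (fun h => absurd rfl h)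
    · linarith
    · linarith
    · linarith
  have ht0 : (0 : ℝ) < (2 : ℝ) ^ δ := by positivity
  have hnc : ∀ c : Fin 4, c ≠ 3 → (n 0 : ℝ) + n 1 + n 2 - n c = 0 → n c = 0 := by
    intro c hc h
    have h2 := hcond4 c hc
    rw [h, mul_zero] at h2
    have h3 : (0 : ℝ) ≤ n c := Nat.cast_nonneg _
    have h4 : (0 : ℝ) ≤ m c := Nat.cast_nonneg _
    have h5 : (n c : ℝ) + m c ≤ 0 := by
      by_contra hcon
      push Not at hcon
      have := mul_pos ht0 hcon
      linarith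
    have h6 : (n c : ℝ) = 0 := by linarith
    exact_mod_cast h6
  rcases Nat.eq_zero_or_pos (n 0 + n 1 + n 2 + n 3) with hN | hN
  · -- constant polynomials
    have hz : ∀ c, ∃ k : ℤ, GG D G0 G1 c = C k := by
      intro c
      have hc : n c = 0 := by
        revert c
        refine fin4 _ ?_ ?_ ?_ ?_ <;> omega
      obtain ⟨k, _, hk⟩ := cnt_zero (hCop.ne c) hc
      exact ⟨k, hk⟩
    obtain ⟨k0, hk0⟩ := hz 0
    obtain ⟨k1, hk1⟩ := hz 1
    obtain ⟨k3, hk3⟩ := hz 3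
    rw [GG0] at hk0
    rw [GG1] at hk1
    rw [GG3] at hk3
    refine ⟨((2 : ℝ) ^ rk (k3 * k0) (k3 * k1)) ^ δ, fun x X _ _ => ?_⟩
    have h2 : ∀ t ∈ JJ F0 F1 x X, ((2 : ℝ) ^ rk (F0.eval t) (F1.eval t)) ^ δ =
        ((2 : ℝ) ^ rk (k3 * k0) (k3 * k1)) ^ δ := by
      intro t _
      rw [hF0, hF1, hk0, hk1, hk3, eval_mul, eval_mul, eval_C, eval_C, eval_C]
    rw [sum_congr rfl h2, sum_const, nsmul_eq_mul, mul_comm]
    exact mul_le_mul_of_nonneg_left (hcard x X) (by positivity)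
  · have hpos : ∀ c : Fin 4, c ≠ 3 → n c < n 0 + n 1 + n 2 + n 3 := by
      intro c hc
      by_contra hcon
      push Not at hcon
      have hle : n c ≤ n 0 + n 1 + n 2 := by
        revert c
        refine fin4 _ ?_ ?_ ?_ ?_
        · intro _ _; omega
        · intro _ _; omega
        · intro _ _; omega
        · intro h; exact absurd rfl h
      have h3 : n 3 = 0 := by omega
      have h4 : n 0 + n 1 + n 2 = n c := by omega
      have h5 : (n 0 : ℝ) + n 1 + n 2 - n c = 0 := by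
        have : ((n 0 + n 1 + n 2 : ℕ) : ℝ) = n c := by exact_mod_cast h4
        push_cast at this
        linarith
      have h6 := hnc c hc h5
      omega
    obtain ⟨X0, B, hB⟩ := fam_moments hCop hn hm hpos h0 h1 hcond4 L
    set N : ℤ := (X0 : ℤ) ^ L + X0 with hNN
    set S : ℝ := ∑ t ∈ Icc (-N) N, ((2 : ℝ) ^ rk (F0.eval t) (F1.eval t)) ^ δ with hS
    have hS0 : 0 ≤ S := sum_nonneg fun t _ => hnn t
    refine ⟨|B| + S, fun x X hX hx => ?_⟩
    have hXr : (1 : ℝ) ≤ X := by exact_mod_cast hX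
    rcases Nat.lt_or_ge X X0 with hXX | hXX
    · have h1 : ∑ t ∈ JJ F0 F1 x X, ((2 : ℝ) ^ rk (F0.eval t) (F1.eval t)) ^ δ ≤ S := by
        refine sum_le_sum_of_subset_of_nonneg ?_ fun t _ _ => hnn t
        intro t ht
        unfold JJ at ht
        rw [mem_filter, mem_Ioc] at ht
        rw [mem_Icc]
        have h2 : (x.natAbs : ℤ) ≤ (X0 : ℤ) ^ L := by
          exact_mod_cast hx.trans (Nat.pow_le_pow_left hXX.le L)
        have h3 : (X : ℤ) ≤ X0 := by exact_mod_cast hXX.le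
        omega
      have h4 : 0 ≤ |B| := abs_nonneg _
      nlinarith
    · have h1 := hB x X hx hXX
      have h2 : ∑ t ∈ JJ F0 F1 x X, ((2 : ℝ) ^ rk (F0.eval t) (F1.eval t)) ^ δ ≤
          ∑ t ∈ NX.II (PQ D G0 G1) x X, ((2 : ℝ) ^ Module.finrank ℤ
            (EAB ((D * G0).eval t) ((D * G1).eval t)).toAffine.Point) ^ δ := by
        rw [← hF0, ← hF1]
        exact sum_le_sum_of_subset_of_nonneg (hJJ x X) fun t _ _ => hnn t
      have h3 := le_abs_self B
      nlinarith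

end Run7.h69.FZ
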