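import Mathlib
import Pool.Agent.V11306.CMb

/-!
# The isogenies of degree two between `y² = x³ + D x` and `y² = x³ - 4 D x`
-/

set_option autoImplicit false
set_option linter.unusedSectionVars false

namespace Run7.h69.QD

open WeierstrassCurve WeierstrassCurve.Affine Pool.Agent.V11306.CM

variable {D : ℚ}

lemma del (hD : D ≠ 0) : (E 0 D).Δ ≠ 0 := by
  rw [E_delta]
  have h : (16 : ℚ) * D ^ 2 * (0 ^ 2 - 4 * D) = -64 * D ^ 3 := by ring
  rw [h]
  exact mul_ne_zero (by norm_num) (pow_ne_zero 3 hD)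

lemma n4 (hD : D ≠ 0) : -4 * D ≠ 0 := mul_ne_zero (by norm_num) hD

lemma eqn {x y : ℚ} : (E 0 D).Equation x y ↔ y ^ 2 = x ^ 3 + D * x := by
  rw [E_eq]
  constructor
  · intro h; linear_combination h
  · intro h; linear_combination h

lemma ns (hD : D ≠ 0) {x y : ℚ} (h : y ^ 2 = x ^ 3 + D * x) : (E 0 D).Nonsingular x y :=
  E_ns (del hD) (by linear_combination h)

/-- the isogeny -/
def iso (hD : D ≠ 0) : (E 0 D).Point →+ (E 0 (-4 * D)).Point :=
  phiHom (a := 0) (b := D) (a' := 0) (b' := -4 * D) (by ring) (by ring) (del (n4 hD)) hD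

lemma iso_zero (hD : D ≠ 0) {x y : ℚ} (h : (E 0 D).Nonsingular x y) (hx : x = 0) :
    iso hD (.some x y h) = 0 := by
  exact phi_of_zero (K := ℚ) (by ring) (by ring) (del (n4 hD)) h hx

lemma img {x y : ℚ} (hx : x ≠ 0) (he : y ^ 2 = x ^ 3 + D * x) :
    (y * (x ^ 2 - D) / x ^ 2) ^ 2 = (y ^ 2 / x ^ 2) ^ 3 + (-4 * D) * (y ^ 2 / x ^ 2) := by
  have h1 : y ^ 2 / x ^ 2 = x + D / x := by
    rw [he]; field_simp
  have h2 : (y * (x ^ 2 - D) / x ^ 2) ^ 2 = (y ^ 2 / x ^ 2) * (x - D / x) ^ 2 := by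
    field_simp
  rw [h2, h1]
  field_simp
  ring

lemma iso_ne (hD : D ≠ 0) {x y : ℚ} (h : (E 0 D).Nonsingular x y) (hx : x ≠ 0) :
    iso hD (.some x y h) = .some (y ^ 2 / x ^ 2) (y * (x ^ 2 - D) / x ^ 2)
      (ns (n4 hD) (img hx (eqn.1 h.1))) := by
  exact phi_of_ne (K := ℚ) (by ring) (by ring) (del (n4 hD)) h hx

/-- scaling -/
def sc (hD : D ≠ 0) : (E 0 (-4 * (-4 * D))).Point →+ (E 0 D).Point :=
  affHom (a := 0) (b := -4 * (-4 * D)) (a' := 0) (b' := D) (α := 1 / 4) (β := 0) (γ := 1 / 8)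
    (by norm_num) (by ring) (by ring) (by ring) (del hD) (by norm_num)

lemma sc_some (hD : D ≠ 0) {x y : ℚ} (h : (E 0 (-4 * (-4 * D))).Nonsingular x y) :
    ∃ h', sc hD (.some x y h) = .some (1 / 4 * x + 0) (1 / 8 * y) h' := ⟨_, rfl⟩

/-- the dual isogeny -/
def psi (hD : D ≠ 0) : (E 0 (-4 * D)).Point →+ (E 0 D).Point := (sc hD).comp (iso (n4 hD))

/-- the composition is the multiplication by two -/
lemma psi_phi (hD : D ≠ 0) (P : (E 0 D).Point) : psi hD (iso hD P) = P + P := by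
  rcases P with _ | ⟨x, y, h⟩
  · rw [← Point.zero_def, map_zero, map_zero, add_zero]
  have he := eqn.1 h.1
  show sc hD (iso (n4 hD) _) = _
  by_cases hx : x = 0
  · have hy : y = 0 := by
      rw [hx] at he
      have : y ^ 2 = 0 := by rw [he]; ring
      exact pow_eq_zero_iff (two_ne_zero) |>.mp this
    rw [iso_zero hD h hx, map_zero, map_zero]
    symm
    apply Point.add_of_Y_eq rfl
    rw [E_negY, hy, neg_zero]
  rw [iso_ne hD h hx]
  by_cases hy : y = 0
  · have h2 : y ^ 2 / x ^ 2 = 0 := by rw [hy]; simp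
    rw [iso_zero (n4 hD) _ h2, map_zero]
    symm
    apply Point.add_of_Y_eq rfl
    rw [E_negY, hy, neg_zero]
  have hX : y ^ 2 / x ^ 2 ≠ 0 := div_ne_zero (pow_ne_zero 2 hy) (pow_ne_zero 2 hx)
  rw [iso_ne (n4 hD) _ hX]
  obtain ⟨h', e'⟩ := sc_some hD (ns (n4 (n4 hD)) (img hX (img hx he)))
  rw [e']
  symm
  set x3 : ℚ := (x ^ 2 - D) ^ 2 / (4 * y ^ 2) with hx3
  set y3 : ℚ := (x ^ 2 - D) * (x ^ 4 + 6 * D * x ^ 2 + D ^ 2) / (8 * y ^ 3) with hy3
  have h6 : y ^ 4 = x ^ 2 * (x ^ 2 + D) ^ 2 := by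
    have : y ^ 4 = (y ^ 2) ^ 2 := by ring
    rw [this, he]; ring
  have hn3 : (E 0 D).Nonsingular x3 y3 := by
    apply ns hD
    rw [hx3, hy3]
    field_simp
    linear_combination (-1024 * D * (x ^ 2 - D) ^ 2) * h6
  have hs : (Point.some x y h : (E 0 D).Point) + Point.some x y h = Point.some x3 y3 hn3 := by
    apply col_add (l := (3 * x ^ 2 + D) / (2 * y)) (v := -x * (x ^ 2 - D) / (2 * y))
    refine ⟨?_, ?_, ?_, ?_, ?_, ?_⟩
    · field_simp
      linear_combination 2 * he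
    · field_simp
      linear_combination 2 * he
    · rw [hx3, hy3]
      field_simp
      linear_combination (32 * x * (x ^ 2 - D)) * he
    · rw [hx3]
      field_simp
      linear_combination (32 * x) * he
    · rw [hx3]
      field_simp
      linear_combination (8 * x ^ 2 - 8 * D) * he
    · rw [hx3]
      field_simp
      ring
  rw [hs]
  simp only [Point.some.injEq]
  constructor
  · rw [hx3]
    field_simp
    ring
  · rw [hy3]
    field_simp
    linear_combination (-1 : ℚ) * (x ^ 2 - D) * h6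

/-- the points with a square first coordinate are in the image -/
lemma iso_image (hD : D ≠ 0) {X Y w : ℚ} (h : (E 0 (-4 * D)).Nonsingular X Y) (hw : w ≠ 0)
    (hX : X = w ^ 2) : ∃ P : (E 0 D).Point, iso hD P = .some X Y h := by
  have he := eqn.1 h.1
  set u : ℚ := Y / w with hu
  have hY : Y = u * w := by rw [hu]; field_simp
  have hu2 : u ^ 2 = w ^ 4 - 4 * D := by
    have h1 : w ^ 2 * u ^ 2 = w ^ 2 * (w ^ 4 - 4 * D) := by
      rw [hY, hX] at he
      linear_combination he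
    exact mul_left_cancel₀ (pow_ne_zero 2 hw) h1
  set x : ℚ := (w ^ 2 + u) / 2 with hx
  have hxx : x * (w ^ 2 - x) = D := by
    rw [hx]
    linear_combination (-1 / 4 : ℚ) * hu2
  have hx0 : x ≠ 0 := by
    intro h0
    rw [h0, zero_mul] at hxx
    exact hD hxx.symm
  have hxy : (x * w) ^ 2 = x ^ 3 + D * x := by
    rw [← hxx]; ring
  refine ⟨.some x (x * w) (ns hD hxy), ?_⟩
  rw [iso_ne hD _ hx0]
  simp only [Point.some.injEq]
  constructor
  · rw [hX]
    field_simp
  · have h1 : x ^ 2 - D = x * u := by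
      rw [← hxx, hx]; ring
    rw [h1, hY]
    field_simp

lemma psi_image (hD : D ≠ 0) {X Y w : ℚ} (h : (E 0 D).Nonsingular X Y) (hw : w ≠ 0)
    (hX : X = w ^ 2) : ∃ P : (E 0 (-4 * D)).Point, psi hD P = .some X Y h := by
  have he := eqn.1 h.1
  have h1 : (E 0 (-4 * (-4 * D))).Nonsingular (4 * X) (8 * Y) :=
    ns (n4 (n4 hD)) (by linear_combination 64 * he)
  obtain ⟨P, hP⟩ := iso_image (n4 hD) (w := 2 * w) h1 (mul_ne_zero two_ne_zero hw)
    (by rw [hX]; ring)
  refine ⟨P, ?_⟩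
  show sc hD (iso (n4 hD) P) = _
  rw [hP]
  obtain ⟨h', e'⟩ := sc_some hD h1
  rw [e']
  simp only [Point.some.injEq]
  constructor <;> ring

/-- the point `(0, 0)` -/
def T0 (hD : D ≠ 0) : (E 0 D).Point := .some 0 0 (ns hD (by ring))

/-- the points whose first coordinates have a square product -/
lemma coset {H : Type} [AddCommGroup H] (hD : D ≠ 0) (f : H →+ (E 0 D).Point)
    (hf : ∀ (X Y w : ℚ) (h : (E 0 D).Nonsingular X Y), w ≠ 0 → X = w ^ 2 →
      ∃ P : H, f P = .some X Y h)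
    {x y x' y' : ℚ} (h : (E 0 D).Nonsingular x y) (h' : (E 0 D).Nonsingular x' y')
    (hx : x ≠ 0) (hx' : x' ≠ 0) (hsq : IsSquare (x * x')) :
    ∃ q : H, (Point.some x y h : (E 0 D).Point) = .some x' y' h' + f q ∨
      (Point.some x y h : (E 0 D).Point) = (.some x' y' h' + T0 hD) + f q := by
  have hn' : (E 0 D).Nonsingular x' (-y') := by
    apply ns hD
    have := eqn.1 h'.1
    linear_combination this
  have hneg : (Point.some x' (-y') hn' : (E 0 D).Point) = - .some x' y' h' := by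
    rw [Point.neg_some]
    simp only [E_negY]
  by_cases hxy : x = x' ∧ y = (E 0 D).negY x' (-y')
  · obtain ⟨h1, h2⟩ := hxy
    rw [E_negY, neg_neg] at h2
    refine ⟨0, Or.inl ?_⟩
    rw [map_zero, add_zero]
    simp only [Point.some.injEq]
    exact ⟨h1, h2⟩
  · obtain ⟨x₃, y₃, l, v, h₃, e, hc⟩ := vieta h hn' hxy
    have e2 : (Point.some x y h : (E 0 D).Point) = .some x' y' h' + .some x₃ y₃ h₃ := by
      rw [← e, hneg]
      abel
    by_cases hx3 : x₃ = 0
    · refine ⟨0, Or.inr ?_⟩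
      rw [map_zero, add_zero, e2]
      have hy3 : y₃ = 0 := by
        have h4 := eqn.1 h₃.1
        rw [hx3] at h4
        have : y₃ ^ 2 = 0 := by rw [h4]; ring
        exact pow_eq_zero_iff (two_ne_zero) |>.mp this
      congr 1
      unfold T0
      simp only [Point.some.injEq]
      exact ⟨hx3, hy3⟩
    · obtain ⟨r, hr⟩ := hsq
      have hs3 := hc.s3
      have hr0 : r ≠ 0 := by
        rintro rfl
        rw [mul_zero] at hr
        exact mul_ne_zero hx hx' hr
      have hv : v ≠ 0 := by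
        rintro rfl
        have h5 : x * x' * x₃ ≠ 0 := mul_ne_zero (mul_ne_zero hx hx') hx3
        apply h5
        rw [hs3]; ring
      obtain ⟨q, hq⟩ := hf x₃ y₃ (v / r) h₃ (div_ne_zero hv hr0) (by
        rw [hr] at hs3
        field_simp
        linear_combination hs3)
      exact ⟨q, Or.inl (by rw [e2, hq])⟩

end Run7.h69.QD
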