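import Mathlib
import Pool.Agent.W214.RK2.Desc4
import Pool.Agent.W342.RK2.LocL

/-!
# Local conditions and representatives for `y² = x³ + D x`
-/

set_option autoImplicit false
set_option linter.unusedSectionVars false

namespace Run7.h69.QD

open Finset Pool.Agent.W262.RK Pool.Agent.W22.RK Pool.Agent.W342.RK2 Pool.Agent.W214.RK2

/-- one local condition -/
def L1 (κ : ℤ) (neg : Bool) (p : ℕ) (v h : Bool) : Prop := h = (v && xor neg (sg0 p κ))

lemma L1_zero (κ : ℤ) (neg : Bool) (p : ℕ) : L1 κ neg p false false := by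
  simp [L1]

lemma L1_xor {κ : ℤ} {neg : Bool} {p : ℕ} {a b c d : Bool} (h1 : L1 κ neg p a b)
    (h2 : L1 κ neg p c d) : L1 κ neg p (xor a c) (xor b d) := by
  unfold L1 at *
  rw [h1, h2]
  cases a <;> cases c <;> simp

lemma LLcc {c : ℤ} {p : ℕ} (hp : p.Prime) (hc : ¬ (p : ℤ) ∣ c) {neg v w h g : Bool}
    (h1 : L1 c neg p v h) (h2 : L1 (-c) neg p w g) : LL 3 (fun _ => c) neg p v w h g := by
  have : Fact p.Prime := ⟨hp⟩
  have hcc : sg0 p (c * c) = false := by
    rw [sg0_mul hc hc]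
    simp
  unfold LL L1 at *
  rw [if_neg (by decide), if_neg (by decide), if_neg (by decide)]
  rw [h1, h2, hcc]
  cases v <;> cases w <;> cases neg <;> cases sg0 p c <;> cases sg0 p (-c) <;> simp

lemma val_sum {q : ℕ} [Fact q.Prime] {D x y : ℚ} (hD : D ≠ 0) (hx : x ≠ 0)
    (he : y ^ 2 = x ^ 3 + D * x) (hne : 2 * padicValRat q x ≠ padicValRat q D) :
    y ≠ 0 ∧ 2 * padicValRat q y =
      padicValRat q x + min (2 * padicValRat q x) (padicValRat q D) := by
  have hx2 : x ^ 2 ≠ 0 := pow_ne_zero 2 hx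
  have v2 : padicValRat q (x ^ 2) = 2 * padicValRat q x := by
    rw [padicValRat.pow]
    norm_num
  have hxD : x ^ 2 + D ≠ 0 := by
    intro h0
    apply hne
    have : D = -(x ^ 2) := by linear_combination h0
    rw [this, padicValRat.neg, v2]
  have he' : y ^ 2 = x * (x ^ 2 + D) := by rw [he]; ring
  have hy : y ≠ 0 := by
    rintro rfl
    exact mul_ne_zero hx hxD (by rw [← he']; ring)
  refine ⟨hy, ?_⟩
  have h1 : padicValRat q (y ^ 2) = 2 * padicValRat q y := by
    rw [padicValRat.pow]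
    norm_num
  rw [← h1, he', padicValRat.mul hx hxD]
  congr 1
  rcases lt_or_gt_of_ne hne with h | h
  · rw [v_add hx2 hD hxD (by rw [v2]; exact h), v2, min_eq_left h.le]
  · rw [add_comm, v_add hD hx2 (by rw [add_comm]; exact hxD) (by rw [v2]; exact h),
      min_eq_right h.le]

/-- the valuations at the good primes -/
lemma good4 {q : ℕ} (hq : q.Prime) {D x y : ℚ} (hD : D ≠ 0) (h4 : (4 : ℤ) ∣ padicValRat q D)
    (hx : x ≠ 0) (he : y ^ 2 = x ^ 3 + D * x) : Even (padicValRat q x) := by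
  have : Fact q.Prime := ⟨hq⟩
  obtain ⟨k, hk⟩ := h4
  by_cases hne : 2 * padicValRat q x = padicValRat q D
  · exact ⟨k, by omega⟩
  · obtain ⟨_, h1⟩ := val_sum hD hx he hne
    rcases le_total (2 * padicValRat q x) (padicValRat q D) with h | h
    · rw [min_eq_left h] at h1
      exact ⟨padicValRat q y - padicValRat q x, by omega⟩
    · rw [min_eq_right h] at h1
      exact ⟨padicValRat q y - 2 * k, by omega⟩

/-- the local image at a prime dividing `D` to an odd power -/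
lemma loc_odd {p : ℕ} [hp : Fact p.Prime] (hp2 : p ≠ 2) {D x y : ℚ} (hD : D ≠ 0)
    (hodd : ¬ Even (padicValRat p D)) (hx : x ≠ 0) (he : y ^ 2 = x ^ 3 + D * x) :
    IsSquare ((x : ℚ) : ℚ_[p]) ∨ IsSquare ((x * D : ℚ) : ℚ_[p]) := by
  have hne : 2 * padicValRat p x ≠ padicValRat p D := by
    intro h
    exact hodd ⟨padicValRat p x, by omega⟩
  obtain ⟨hy, _⟩ := val_sum hD hx he hne
  have hx2 : x ^ 2 ≠ 0 := pow_ne_zero 2 hx
  have v2 : padicValRat p (x ^ 2) = 2 * padicValRat p x := by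
    rw [padicValRat.pow]
    norm_num
  have hyc : ((y : ℚ) : ℚ_[p]) ≠ 0 := by exact_mod_cast hy
  have hxc : ((x : ℚ) : ℚ_[p]) ≠ 0 := by exact_mod_cast hx
  have hDc : ((D : ℚ) : ℚ_[p]) ≠ 0 := by exact_mod_cast hD
  rcases lt_or_gt_of_ne hne with h | h
  · left
    have h1 := isSquare_one_add_rat (p := p) hp2 (D / x ^ 2) (Or.inr (by
      rw [padicValRat.div hD hx2, v2]
      omega))
    obtain ⟨z, hz⟩ := h1
    have hz' : (1 : ℚ_[p]) + D / x ^ 2 = z * z := by
      rw [← hz]; push_cast; ring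
    have hz0 : z ≠ 0 := by
      rintro rfl
      rw [mul_zero] at hz'
      have h3 : ((x : ℚ) : ℚ_[p]) ^ 2 + D = 0 := by
        have := hz'
        field_simp at this
        linear_combination this
      have h4 : x ^ 2 + D = 0 := by exact_mod_cast h3
      have h5 : y ^ 2 = 0 := by rw [he]; linear_combination x * h4
      exact hy (pow_eq_zero_iff (two_ne_zero) |>.mp h5)
    have he' : ((y : ℚ) : ℚ_[p]) ^ 2 = x ^ 3 + D * x := by exact_mod_cast he
    refine ⟨y / (x * z), ?_⟩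
    field_simp
    have h6 : (x : ℚ_[p]) ^ 2 + D = x ^ 2 * (z * z) := by
      rw [← hz']; field_simp
    rw [he']
    linear_combination (-(x : ℚ_[p])) * h6
  · right
    have h1 := isSquare_one_add_rat (p := p) hp2 (x ^ 2 / D) (Or.inr (by
      rw [padicValRat.div hx2 hD, v2]
      omega))
    obtain ⟨z, hz⟩ := h1
    have hz' : (1 : ℚ_[p]) + x ^ 2 / D = z * z := by
      rw [← hz]; push_cast; ring
    have hz0 : z ≠ 0 := by
      rintro rfl
      rw [mul_zero] at hz'
      have h3 : ((x : ℚ) : ℚ_[p]) ^ 2 + D = 0 := by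
        have := hz'
        field_simp at this
        linear_combination this
      have h4 : x ^ 2 + D = 0 := by exact_mod_cast h3
      have h5 : y ^ 2 = 0 := by rw [he]; linear_combination x * h4
      exact hy (pow_eq_zero_iff (two_ne_zero) |>.mp h5)
    have he' : ((y : ℚ) : ℚ_[p]) ^ 2 = x ^ 3 + D * x := by exact_mod_cast he
    refine ⟨y / z, ?_⟩
    push_cast
    field_simp
    have h6 : (x : ℚ_[p]) ^ 2 + D = D * (z * z) := by
      rw [← hz']; field_simp; ring
    rw [he']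
    linear_combination (-(x : ℚ_[p])) * h6

/-- the local condition -/
lemma local_cond {p : ℕ} [hp : Fact p.Prime] (hp2 : p ≠ 2) {D : ℚ} {κ F : ℤ} (hD : D ≠ 0)
    (hDF : IsSquare (D * ((κ * F : ℤ) : ℚ))) (hκ : ¬ (p : ℤ) ∣ κ) (hF1 : (p : ℤ) ∣ F)
    (hF2 : ¬ (p : ℤ) ^ 2 ∣ F) {neg : Bool} (hneg : neg = true ↔ jacobiSym (F / p) p = -1)
    {x y : ℚ} (hx : x ≠ 0) (he : y ^ 2 = x ^ 3 + D * x) {e : ℤ} (hsf : Squarefree e)
    (hxe : IsSquare ((x * e : ℚ) : ℚ_[p])) : L1 κ neg p (dv p e) (sgn p e) := by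
  have hpi : Prime (p : ℤ) := Nat.prime_iff_prime_int.1 hp.out
  have hp0 : (p : ℤ) ≠ 0 := hpi.ne_zero
  have he2 : ¬ (p : ℤ) ^ 2 ∣ e := by
    intro h
    have h1 := hsf (p : ℤ) (by rw [← pow_two]; exact h)
    exact hpi.not_isUnit h1
  have hkF : ¬ (p : ℤ) ^ 2 ∣ κ * F := by
    intro h
    have hco : IsCoprime ((p : ℤ) ^ 2) κ :=
      IsCoprime.pow_left ((Prime.coprime_iff_not_dvd hpi).2 hκ)
    exact hF2 (hco.dvd_of_dvd_mul_left h)
  have hF0 : F ≠ 0 := by rintro rfl; exact hF2 (dvd_zero _)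
  have hκ0 : κ ≠ 0 := by rintro rfl; exact hκ (dvd_zero _)
  have hkF0 : κ * F ≠ 0 := mul_ne_zero hκ0 hF0
  obtain ⟨q, hq⟩ := hF1
  have hnq : ¬ (p : ℤ) ∣ q := by
    intro h
    apply hF2
    rw [hq, pow_two]
    exact mul_dvd_mul_left _ h
  have hvF : padicValRat p ((κ * F : ℤ) : ℚ) = 1 := by
    have hq0 : q ≠ 0 := by rintro rfl; exact hnq (dvd_zero _)
    have hpq : ((p : ℕ) : ℚ) ≠ 0 := by exact_mod_cast hp.out.ne_zero
    rw [hq]
    push_cast
    rw [padicValRat.mul (by exact_mod_cast hκ0) (mul_ne_zero hpq (by exact_mod_cast hq0)),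
      padicValRat.mul hpq (by exact_mod_cast hq0), v_int hκ, v_int hnq,
      padicValRat.self hp.out.one_lt]
    norm_num
  have hodd : ¬ Even (padicValRat p D) := by
    intro h1
    have h2 := val_sq (p := p) (mul_ne_zero hD (by exact_mod_cast hkF0))
      (hDF.map (Rat.castHom ℚ_[p]))
    rw [padicValRat.mul hD (by exact_mod_cast hkF0), hvF] at h2
    rcases h1 with ⟨a, ha⟩
    rcases h2 with ⟨b, hb⟩
    omega
  rcases loc_odd hp2 hD hodd hx he with h | h
  · have h1 := cmpx (p := p) (f := 1) hx he2 (by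
      intro h2
      have := Int.isUnit_iff.1 (isUnit_of_dvd_one h2)
      have h3 := hp.out.one_lt
      rcases this with h4 | h4
      · nlinarith
      · nlinarith) hxe (by simpa using h)
    rw [dv_unit not_dvd_one, sgn_unit not_dvd_one, sg0_one] at h1
    rw [h1.1, h1.2]
    exact L1_zero _ _ _
  · have hxk : IsSquare ((x * ((κ * F : ℤ)) : ℚ) : ℚ_[p]) := by
      obtain ⟨a, ha⟩ := h
      obtain ⟨b, hb⟩ := hDF.map (Rat.castHom ℚ_[p])
      have hDc : ((D : ℚ) : ℚ_[p]) ≠ 0 := by exact_mod_cast hD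
      refine ⟨a * b / D, ?_⟩
      have hb' : ((D : ℚ) : ℚ_[p]) * (((κ * F : ℤ) : ℚ) : ℚ_[p]) = b * b := by
        rw [← hb]
        show _ = (((D * ((κ * F : ℤ) : ℚ)) : ℚ) : ℚ_[p])
        rw [Rat.cast_mul]
      have ha' : ((x : ℚ) : ℚ_[p]) * D = a * a := by
        rw [← ha]; push_cast; ring
      rw [Rat.cast_mul]
      field_simp
      linear_combination ((D : ℚ) : ℚ_[p]) * (((κ * F : ℤ) : ℚ) : ℚ_[p]) * ha' + a * a * hb'
    have h1 := cmpx (p := p) (f := κ * F) hx he2 hkF hxe hxk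
    have e1 : κ * F = (p : ℤ) * (κ * q) := by rw [hq]; ring
    rw [e1, dv_mul, sgn_mul, sg0_mul hκ hnq] at h1
    have hq2 : F / p = q := by rw [hq, Int.mul_ediv_cancel_left _ hp0]
    rw [hq2] at hneg
    have h5 : sg0 p q = neg := by
      unfold sg0
      by_cases h6 : neg = true
      · rw [h6, decide_eq_true_eq]; exact hneg.1 h6
      · have h7 : ¬ jacobiSym q p = -1 := fun h8 => h6 (hneg.2 h8)
        rw [Bool.not_eq_true] at h6
        rw [h6, decide_eq_false_iff_not]; exact h7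
    rw [h1.1, h1.2, h5]
    unfold L1
    cases neg <;> cases sg0 p κ <;> rfl

end Run7.h69.QD
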