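import Mathlib
import Pool.Agent.Run7.h69.QD1
import Pool.Agent.Run7.h69.QD2
import Pool.Agent.Q286.EQ.MW

/-!
# Descent by the isogenies of degree two for `y² = x³ + D x`
-/

set_option autoImplicit false
set_option linter.unusedSectionVars false

namespace Run7.h69.QD

open Finset Pool.Agent.W262.RK Pool.Agent.W214.RK2
open WeierstrassCurve WeierstrassCurve.Affine Pool.Agent.V11306.CM

open Classical in
/-- the number of the divisors with the local conditions -/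
noncomputable def N1 (m : ℕ) (L : ℕ → Bool → Bool → Prop) : ℕ :=
  ((m.divisors).filter (fun d : ℕ => ∀ p ∈ m.primeFactors, L p (dv p d) (sgn p d))).card

lemma one_le_N1 (m : ℕ) (hm : m ≠ 0) (L : ℕ → Bool → Bool → Prop)
    (hL : ∀ p, p.Prime → p ∣ m → L p false false) : 1 ≤ N1 m L := by
  classical
  unfold N1
  rw [Nat.one_le_iff_ne_zero, Finset.card_ne_zero]
  refine ⟨1, Finset.mem_filter.mpr ⟨Nat.mem_divisors.mpr ⟨one_dvd _, hm⟩, fun p hp => ?_⟩⟩
  rw [Nat.mem_primeFactors] at hp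
  have h2 : dv p ((1 : ℕ) : ℤ) = false := by
    unfold dv
    rw [decide_eq_false_iff_not]
    intro h
    have h3 : p ∣ 1 := by exact_mod_cast h
    exact hp.1.one_lt.ne' (Nat.dvd_one.mp h3)
  have h3 : sgn p ((1 : ℕ) : ℤ) = false := by
    unfold sgn sg0
    simp
  rw [h2, h3]
  exact hL p hp.1 hp.2.1

/-- the product structure -/
lemma N1_mul (m : ℕ) (L L' : ℕ → Bool → Bool → Prop)
    (M : ℕ → Bool → Bool → Bool → Bool → Prop)
    (h : ∀ p, p.Prime → p ∣ m → ∀ v w h g, L p v h → L' p w g → M p v w h g) :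
    N1 m L * N1 m L' ≤ NL m M := by
  classical
  unfold N1 NL
  rw [← card_product]
  apply card_le_card
  intro d hd
  rw [mem_product, mem_filter, mem_filter] at hd
  rw [mem_filter, mem_product]
  exact ⟨⟨hd.1.1, hd.2.1⟩, fun p hp => h p (Nat.prime_of_mem_primeFactors hp)
    (Nat.dvd_of_mem_primeFactors hp) _ _ _ _ (hd.1.2 p hp) (hd.2.2 p hp)⟩

/-- representatives of the square classes of the first coordinates -/
lemma reps (D : ℚ) (m : ℕ) (hm : Squarefree m) (OP : Finset ℕ) (L : ℕ → Bool → Bool → Prop)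
    (hLx : ∀ p, p.Prime → p ∣ m → ∀ a b c d, L p a b → L p c d → L p (xor a c) (xor b d))
    (hgood : ∀ q, q.Prime → ¬ q ∣ m → q ∉ OP → ∀ x y : ℚ, x ≠ 0 → y ^ 2 = x ^ 3 + D * x →
      Even (padicValRat q x))
    (hloc : ∀ p, p.Prime → p ∣ m → ∀ x y : ℚ, x ≠ 0 → y ^ 2 = x ^ 3 + D * x → ∀ e : ℤ,
      Squarefree e → IsSquare (x * e) → L p (dv p e) (sgn p e)) :
    ∃ S : Finset (ℚ × ℚ), S.card ≤ 2 ^ (OP.card + 1) * N1 m L ∧
      (∀ s ∈ S, s.1 ≠ 0 ∧ s.2 ^ 2 = s.1 ^ 3 + D * s.1) ∧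
      ∀ x y : ℚ, x ≠ 0 → y ^ 2 = x ^ 3 + D * x → ∃ s ∈ S, IsSquare (x * s.1) := by
  classical
  set F : Finset ℕ := (m.divisors).filter (fun d : ℕ =>
    ∀ p ∈ m.primeFactors, L p (dv p d) (sgn p d)) with hF
  have hFcard : F.card = N1 m L := by
    unfold N1
    rw [hF]
  let X : Type := {P : ℚ × ℚ // P.1 ≠ 0 ∧ P.2 ^ 2 = P.1 ^ 3 + D * P.1}
  let out : X → Bool × (OP → Bool) := fun P =>
    (decide (0 < P.1.1), fun q => decide (Even (padicValRat q.1 P.1.1)))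
  have hcmp : ∀ P P' : X, out P = out P' → (0 < P.1.1 ↔ 0 < P'.1.1) ∧
      (∀ q : ℕ, q.Prime → ¬ q ∣ m →
        (Even (padicValRat q P.1.1) ↔ Even (padicValRat q P'.1.1))) := by
    intro P P' ho
    have h1 : decide (0 < P.1.1) = decide (0 < P'.1.1) := congrArg Prod.fst ho
    refine ⟨decide_eq_decide.mp h1, fun q hq hqm => ?_⟩
    by_cases hD : q ∈ OP
    · have h4 := congrFun (congrArg Prod.snd ho) ⟨q, hD⟩
      exact decide_eq_decide.mp h4
    · exact ⟨fun _ => hgood q hq hqm hD _ _ P'.2.1 P'.2.2,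
        fun _ => hgood q hq hqm hD _ _ P.2.1 P.2.2⟩
  have hsqs : ∀ P P' : X, out P = out P' →
      IsSquare (P.1.1 * P'.1.1 * (dd m P.1.1 P'.1.1 : ℚ)) := by
    intro P P' ho
    obtain ⟨c1, c2⟩ := hcmp P P' ho
    exact dd_sq m hm _ _ P.2.1 P'.2.1 c1 (fun q hq hqm => c2 q hq hqm)
  have hFmem : ∀ P P' : X, out P = out P' → dd m P.1.1 P'.1.1 ∈ F := by
    intro P P' ho
    have s1 := hsqs P P' ho
    rw [hF, Finset.mem_filter]
    refine ⟨Nat.mem_divisors.mpr ⟨dd_dvd m hm _ _, hm.ne_zero⟩, fun p hp => ?_⟩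
    rw [Nat.mem_primeFactors] at hp
    obtain ⟨e1, he1, hxe1⟩ := exists_rep P.1.1 P.2.1
    obtain ⟨f1, hf1, hxf1⟩ := exists_rep P'.1.1 P'.2.1
    have l1 := hloc p hp.1 hp.2.1 P.1.1 P.1.2 P.2.1 P.2.2 e1 he1 hxe1
    have l2 := hloc p hp.1 hp.2.1 P'.1.1 P'.1.2 P'.2.1 P'.2.2 f1 hf1 hxf1
    obtain ⟨k1, k2⟩ := dd_key m hm _ _ P.2.1 P'.2.1 s1 e1 f1 he1 hf1 hxe1 hxf1 p hp.1
    rw [k1, k2]
    exact hLx p hp.1 hp.2.1 _ _ _ _ l1 l2
  by_cases hX : Nonempty X
  · let rep : Bool × (OP → Bool) → X := Function.invFun out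
    have hrep : ∀ P : X, out (rep (out P)) = out P := fun P => Function.invFun_eq ⟨P, rfl⟩
    let key : X → (Bool × (OP → Bool)) × ℕ := fun P => (out P, dd m P.1.1 (rep (out P)).1.1)
    refine ⟨((Finset.univ : Finset (Bool × (OP → Bool))) ×ˢ F).image
      (fun k => (Function.invFun key k).1), ?_, ?_, ?_⟩
    · refine Finset.card_image_le.trans ?_
      rw [Finset.card_product, Finset.card_univ, hFcard, Fintype.card_prod, Fintype.card_bool,
        Fintype.card_fun, Fintype.card_bool, Fintype.card_coe, pow_succ, mul_comm (2 ^ OP.card) 2]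
    · intro s hs
      rw [mem_image] at hs
      obtain ⟨k, _, rfl⟩ := hs
      exact (Function.invFun key k).2
    · intro x y hx he
      set P : X := ⟨(x, y), hx, he⟩ with hP
      have hkeyF : key P ∈ (Finset.univ : Finset (Bool × (OP → Bool))) ×ˢ F := by
        rw [Finset.mem_product]
        exact ⟨Finset.mem_univ _, hFmem P _ (hrep P).symm⟩
      set P2 : X := Function.invFun key (key P) with hP2
      have hkey2 : key P2 = key P := Function.invFun_eq ⟨P, rfl⟩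
      have ho2 : out P2 = out P := congrArg Prod.fst hkey2
      have ht1 : dd m P2.1.1 (rep (out P2)).1.1 = dd m P.1.1 (rep (out P)).1.1 :=
        congrArg (fun z => z.2) hkey2
      refine ⟨P2.1, mem_image.2 ⟨key P, hkeyF, rfl⟩, ?_⟩
      set R : X := rep (out P) with hR
      rw [ho2] at ht1
      have s1 := hsqs P R (hrep P).symm
      have s3 := hsqs P2 R (ho2.trans (hrep P).symm)
      rw [ht1] at s3
      have hd1 : dd m P.1.1 R.1.1 ≠ 0 := (hm.squarefree_of_dvd (dd_dvd m hm _ _)).ne_zero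
      have hd' : (dd m P.1.1 R.1.1 : ℚ) ≠ 0 := by exact_mod_cast hd1
      apply Pool.Agent.W599.RK.IsSquare.cancel
        (a := (R.1.1 * (dd m P.1.1 R.1.1 : ℚ)) ^ 2) (IsSquare.sq _)
      · have h3 := s1.mul s3
        have e : (R.1.1 * (dd m P.1.1 R.1.1 : ℚ)) ^ 2 * (x * P2.1.1) =
            P.1.1 * R.1.1 * (dd m P.1.1 R.1.1 : ℚ) * (P2.1.1 * R.1.1 * (dd m P.1.1 R.1.1 : ℚ)) := by
          simp only [hP]
          ring
        rw [e]
        exact h3
      · exact pow_ne_zero 2 (mul_ne_zero R.2.1 hd')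
  · refine ⟨∅, by simp, by simp, fun x y hx he => absurd ⟨⟨(x, y), hx, he⟩⟩ hX⟩

/-- representatives modulo the image of an isogeny -/
lemma cover {H : Type} [AddCommGroup H] {D : ℚ} (hD : D ≠ 0) (f : H →+ (E 0 D).Point)
    (hf : ∀ (X Y w : ℚ) (h : (E 0 D).Nonsingular X Y), w ≠ 0 → X = w ^ 2 →
      ∃ P : H, f P = .some X Y h) (S : Finset (ℚ × ℚ))
    (hS : ∀ s ∈ S, s.1 ≠ 0 ∧ s.2 ^ 2 = s.1 ^ 3 + D * s.1)
    (hcov : ∀ x y : ℚ, x ≠ 0 → y ^ 2 = x ^ 3 + D * x → ∃ s ∈ S, IsSquare (x * s.1)) :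
    ∃ T : Finset (E 0 D).Point, T.card ≤ 2 * S.card + 2 ∧
      ∀ P : (E 0 D).Point, ∃ t ∈ T, ∃ q : H, P = t + f q := by
  classical
  let pt : S → (E 0 D).Point := fun s => .some s.1.1 s.1.2 (ns hD (hS s.1 s.2).2)
  set T1 : Finset (E 0 D).Point := (Finset.univ : Finset S).image pt with hT1
  set T2 : Finset (E 0 D).Point := (Finset.univ : Finset S).image (fun s => pt s + T0 hD) with hT2
  refine ⟨T1 ∪ T2 ∪ {0, T0 hD}, ?_, ?_⟩
  · have h1 : T1.card ≤ S.card := by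
      refine card_image_le.trans ?_
      rw [card_univ, Fintype.card_coe]
    have h2 : T2.card ≤ S.card := by
      refine card_image_le.trans ?_
      rw [card_univ, Fintype.card_coe]
    have h3 : ({0, T0 hD} : Finset (E 0 D).Point).card ≤ 2 := card_le_two
    have h4 := card_union_le (T1 ∪ T2) {0, T0 hD}
    have h5 := card_union_le T1 T2
    omega
  · intro P
    rcases P with _ | ⟨x, y, h⟩
    · exact ⟨0, by simp, 0, by rw [map_zero, add_zero]; rfl⟩
    · by_cases hx : x = 0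
      · refine ⟨T0 hD, by simp, 0, ?_⟩
        rw [map_zero, add_zero]
        unfold T0
        simp only [Point.some.injEq]
        refine ⟨hx, ?_⟩
        have h4 := eqn.1 h.1
        rw [hx] at h4
        have : y ^ 2 = 0 := by rw [h4]; ring
        exact pow_eq_zero_iff (two_ne_zero) |>.mp this
      · obtain ⟨s, hs, hsq⟩ := hcov x y hx (eqn.1 h.1)
        obtain ⟨q, hq⟩ := coset hD f hf h (ns hD (hS s hs).2) hx (hS s hs).1 hsq
        rcases hq with hq | hq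
        · refine ⟨pt ⟨s, hs⟩, ?_, q, hq⟩
          rw [mem_union, mem_union]
          exact Or.inl (Or.inl (mem_image.2 ⟨⟨s, hs⟩, mem_univ _, rfl⟩))
        · refine ⟨pt ⟨s, hs⟩ + T0 hD, ?_, q, hq⟩
          rw [mem_union, mem_union]
          exact Or.inl (Or.inr (mem_image.2 ⟨⟨s, hs⟩, mem_univ _, rfl⟩))

/-- the descent -/
theorem descent (D : ℚ) (hD : D ≠ 0) (m : ℕ) (hm : Squarefree m) (OP : Finset ℕ)
    (L L' : ℕ → Bool → Bool → Prop) (M : ℕ → Bool → Bool → Bool → Bool → Prop)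
    (hL0 : ∀ p, p.Prime → p ∣ m → L p false false)
    (hL0' : ∀ p, p.Prime → p ∣ m → L' p false false)
    (hLx : ∀ p, p.Prime → p ∣ m → ∀ a b c d, L p a b → L p c d → L p (xor a c) (xor b d))
    (hLx' : ∀ p, p.Prime → p ∣ m → ∀ a b c d, L' p a b → L' p c d → L' p (xor a c) (xor b d))
    (hM : ∀ p, p.Prime → p ∣ m → ∀ v w h g, L p v h → L' p w g → M p v w h g)
    (hgood : ∀ q, q.Prime → ¬ q ∣ m → q ∉ OP → ∀ x y : ℚ, x ≠ 0 → y ^ 2 = x ^ 3 + D * x →
      Even (padicValRat q x))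
    (hgood' : ∀ q, q.Prime → ¬ q ∣ m → q ∉ OP → ∀ x y : ℚ, x ≠ 0 →
      y ^ 2 = x ^ 3 + (-4 * D) * x → Even (padicValRat q x))
    (hloc : ∀ p, p.Prime → p ∣ m → ∀ x y : ℚ, x ≠ 0 → y ^ 2 = x ^ 3 + D * x → ∀ e : ℤ,
      Squarefree e → IsSquare (x * e) → L p (dv p e) (sgn p e))
    (hloc' : ∀ p, p.Prime → p ∣ m → ∀ x y : ℚ, x ≠ 0 → y ^ 2 = x ^ 3 + (-4 * D) * x →
      ∀ e : ℤ, Squarefree e → IsSquare (x * e) → L' p (dv p e) (sgn p e)) :
    2 ^ Module.finrank ℤ (E 0 D).Point ≤ 4 ^ (OP.card + 3) * NL m M := by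
  classical
  obtain ⟨S, hS1, hS2, hS3⟩ := reps D m hm OP L hLx hgood hloc
  obtain ⟨S', hS1', hS2', hS3'⟩ := reps (-4 * D) m hm OP L' hLx' hgood' hloc'
  obtain ⟨T, hT1, hT2⟩ := cover hD (psi hD) (fun X Y w h hw hX => psi_image hD h hw hX) S hS2 hS3
  obtain ⟨T', hT1', hT2'⟩ := cover (n4 hD) (iso hD)
    (fun X Y w h hw hX => iso_image hD h hw hX) S' hS2' hS3'
  have hfg : AddGroup.FG (E 0 D).Point := Pool.Agent.Q286.EQ.mordell_weil ℚ (E 0 D) (del hD)
  have hN := one_le_N1 m hm.ne_zero L hL0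
  have hN' := one_le_N1 m hm.ne_zero L' hL0'
  have hNN := N1_mul m L L' M hM
  refine Pool.Agent.W505.RK.rkb (E 0 D).Point hfg (4 ^ (OP.card + 3) * NL m M)
    ((T ×ˢ T').image (fun k => k.1 + psi hD k.2)) ?_ ?_
  · refine card_image_le.trans ?_
    rw [card_product]
    have e1 : 1 ≤ 2 ^ OP.card := Nat.one_le_two_pow
    have e2 : T.card ≤ 2 ^ (OP.card + 3) * N1 m L := by
      have h1 : 1 ≤ 2 ^ (OP.card + 1) * N1 m L := Nat.mul_pos (by positivity) hN
      have h2 : 2 ^ (OP.card + 3) * N1 m L = 4 * (2 ^ (OP.card + 1) * N1 m L) := by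
        rw [pow_add, pow_add]; ring
      omega
    have e3 : T'.card ≤ 2 ^ (OP.card + 3) * N1 m L' := by
      have h1 : 1 ≤ 2 ^ (OP.card + 1) * N1 m L' := Nat.mul_pos (by positivity) hN'
      have h2 : 2 ^ (OP.card + 3) * N1 m L' = 4 * (2 ^ (OP.card + 1) * N1 m L') := by
        rw [pow_add, pow_add]; ring
      omega
    calc T.card * T'.card ≤ (2 ^ (OP.card + 3) * N1 m L) * (2 ^ (OP.card + 3) * N1 m L') :=
          Nat.mul_le_mul e2 e3
      _ = 4 ^ (OP.card + 3) * (N1 m L * N1 m L') := by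
          rw [show (4 : ℕ) = 2 * 2 from rfl, mul_pow]; ring
      _ ≤ _ := Nat.mul_le_mul_left _ hNN
  · intro g
    obtain ⟨t, ht, q, hq⟩ := hT2 g
    obtain ⟨t', ht', q', hq'⟩ := hT2' q
    refine ⟨t + psi hD t', mem_image.2 ⟨(t, t'), mem_product.2 ⟨ht, ht'⟩, rfl⟩, q', ?_⟩
    rw [hq, hq', map_add, psi_phi, add_assoc]

end Run7.h69.QD
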