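import Mathlib
import Pool.Agent.Run7.h69.RK
import Pool.Agent.Run7.h69.QD3

/-!
# Moments of `2 ^ rank` for the curves `y² = x³ + f(t) x`: the case of good data
-/

set_option autoImplicit false
set_option linter.unusedSectionVars false

namespace Run7.h69.QD

open Finset Polynomial
open Pool.Agent.W262.RK hiding lk ff s1 s2
open Pool.Agent.V11306.CM (E)

/-- the decomposition of the polynomial -/
structure Dec (f h g1 h1 : ℤ[X]) (c1 : ℤ) (z : ℕ) : Prop where
  ne : c1 ≠ 0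
  le : c1.natAbs ≤ z
  eq : f = g1 ^ 4 * h1 ^ 2 * h
  dvd : h1 ∣ C c1 * h

variable {f h g1 h1 : ℤ[X]} {c1 : ℤ} {z : ℕ}

/-- the primes outside of the exceptional set -/
lemma out (hd : Dec f h g1 h1 c1 z) {t : ℤ} {y : ℕ} (h0 : f.eval t ≠ 0) {q : ℕ} (hq : q.Prime)
    (hzq : z < q) (hq1 : ¬ q ∣ t1 h z y t)
    (hq2 : q ∉ (h.eval t).natAbs.primeFactors.filter (y < ·))
    (hq3 : q ∉ (t2 h z y t).primeFactors) : ¬ (q : ℤ) ∣ h.eval t := by
  intro hdv
  have hf : f.eval t = (g1.eval t) ^ 4 * (h1.eval t) ^ 2 * h.eval t := by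
    rw [hd.eq, eval_mul, eval_mul, eval_pow, eval_pow]
  have hh0 : h.eval t ≠ 0 := by
    intro h2
    rw [hf, h2, mul_zero] at h0
    exact h0 rfl
  rcases Nat.lt_or_ge y q with hyq | hyq
  · apply hq2
    rw [mem_filter, Nat.mem_primeFactors]
    exact ⟨⟨hq, Int.natCast_dvd.1 hdv, Int.natAbs_ne_zero.2 hh0⟩, hyq⟩
  · have hPS : q ∈ PS z y := mem_PS.2 ⟨⟨hzq, hyq⟩, hq⟩
    have hsq : (q : ℤ) ^ 2 ∣ h.eval t := by
      by_contra hcon
      exact hq1 ((CN.dvd_t1 hq).2 ⟨hPS, hdv, hcon⟩)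
    apply hq3
    rw [Nat.mem_primeFactors]
    exact ⟨hq, (CN.dvd_t2 hq).2 ⟨hPS, hsq⟩, Nat.one_le_iff_ne_zero.1 (NX.dpos (NX.t2_dvd z y t))⟩

/-- the valuation of the coefficient at these primes -/
lemma val4 (hd : Dec f h g1 h1 c1 z) {t : ℤ} (h0 : f.eval t ≠ 0) {q : ℕ} (hq : q.Prime)
    (hzq : z < q) (hqh : ¬ (q : ℤ) ∣ h.eval t) :
    (4 : ℤ) ∣ padicValRat q ((f.eval t : ℤ) : ℚ) := by
  have : Fact q.Prime := ⟨hq⟩
  have hqi : Prime (q : ℤ) := Nat.prime_iff_prime_int.1 hq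
  have hf : f.eval t = (g1.eval t) ^ 4 * (h1.eval t) ^ 2 * h.eval t := by
    rw [hd.eq, eval_mul, eval_mul, eval_pow, eval_pow]
  have hqc : ¬ (q : ℤ) ∣ c1 := by
    intro h2
    have h3 := Nat.le_of_dvd (Int.natAbs_pos.2 hd.ne) (Int.natCast_dvd.1 h2)
    have h4 := hd.le
    omega
  have hqh1 : ¬ (q : ℤ) ∣ h1.eval t := by
    intro h2
    have h3 : h1.eval t ∣ c1 * h.eval t := by
      obtain ⟨r, hr⟩ := hd.dvd
      exact ⟨r.eval t, by rw [← eval_mul, ← hr, eval_mul, eval_C]⟩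
    rcases hqi.dvd_or_dvd (h2.trans h3) with h4 | h4
    · exact hqc h4
    · exact hqh h4
  have hfq : ((f.eval t : ℤ) : ℚ) = ((g1.eval t : ℤ) : ℚ) ^ 4 *
      (((h1.eval t) ^ 2 * h.eval t : ℤ) : ℚ) := by
    rw [hf]; push_cast; ring
  have hne : ((f.eval t : ℤ) : ℚ) ≠ 0 := by exact_mod_cast h0
  rw [hfq] at hne
  have hg := left_ne_zero_of_mul hne
  have hh := right_ne_zero_of_mul hne
  have hg0 : ((g1.eval t : ℤ) : ℚ) ≠ 0 := fun h2 => hg (by rw [h2]; norm_num)
  have hnd : ¬ (q : ℤ) ∣ (h1.eval t) ^ 2 * h.eval t := by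
    intro h2
    rcases hqi.dvd_or_dvd h2 with h3 | h3
    · exact hqh1 (hqi.dvd_of_dvd_pow h3)
    · exact hqh h3
  rw [hfq, padicValRat.mul hg hh, padicValRat.pow, Pool.Agent.W22.RK.v_int hnd, add_zero]
  exact ⟨_, rfl⟩

/-- the rank is bounded by the local count -/
lemma rank (hd : Dec f h g1 h1 c1 z) (hz : 2 ≤ z) {t : ℤ} {y N : ℕ} (hy : 1 ≤ y)
    (h0 : f.eval t ≠ 0) (hN : (h.eval t).natAbs < (y + 1) ^ N) :
    2 ^ Module.finrank ℤ (E 0 ((f.eval t : ℤ) : ℚ)).Point ≤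
      4 ^ (z + 3) * 4 ^ N * 4 ^ ((t2 h z y t).primeFactors.card) *
        NL (t1 h z y t) (LE (fun _ => 1) (ng h t (t1 h z y t))) := by
  classical
  set D : ℚ := ((f.eval t : ℤ) : ℚ) with hD
  have hD0 : D ≠ 0 := by rw [hD]; exact_mod_cast h0
  set F := h.eval t with hF
  set s := t1 h z y t with hs
  have hf : f.eval t = (g1.eval t) ^ 4 * (h1.eval t) ^ 2 * F := by
    rw [hd.eq, eval_mul, eval_mul, eval_pow, eval_pow]
  have hF0 : F ≠ 0 := by
    intro h2
    rw [hf, h2, mul_zero] at h0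
    exact h0 rfl
  have hDF : IsSquare (D * ((1 * F : ℤ) : ℚ)) := by
    refine ⟨((g1.eval t) ^ 2 * h1.eval t * F : ℤ), ?_⟩
    rw [hD, hf]
    push_cast
    ring
  have hDF' : IsSquare ((-4 * D) * ((-1 * F : ℤ) : ℚ)) := by
    refine ⟨(2 * ((g1.eval t) ^ 2 * h1.eval t * F) : ℤ), ?_⟩
    rw [hD, hf]
    push_cast
    ring
  have hsd : s ∣ PP z y := NX.t1_dvd z y t
  have hs0 : s ≠ 0 := Nat.one_le_iff_ne_zero.1 (NX.dpos hsd)
  set OP : Finset ℕ := ((Icc 1 z) ∪ F.natAbs.primeFactors.filter (y < ·)) ∪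
    (t2 h z y t).primeFactors with hOP
  have hmem : ∀ q : ℕ, q.Prime → ¬ q ∣ s → q ∉ OP → z < q ∧ ¬ (q : ℤ) ∣ F := by
    intro q hq hqs hqO
    rw [hOP, mem_union, mem_union, not_or, not_or, mem_Icc] at hqO
    have hzq : z < q := by
      by_contra hc
      exact hqO.1.1 ⟨hq.one_lt.le, not_lt.1 hc⟩
    exact ⟨hzq, out hd h0 hq hzq hqs hqO.1.2 hqO.2⟩
  have hone : ∀ p : ℕ, p.Prime → ¬ (p : ℤ) ∣ 1 := by
    intro p hp h2
    have := Nat.le_of_dvd one_pos (Int.natCast_dvd_natCast.1 (by simpa using h2))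
    have := hp.one_lt
    omega
  have hdes := descent D hD0 s ((PP_squarefree z y).squarefree_of_dvd hsd) OP
    (fun p => L1 1 (decide (p ∈ ng h t s)) p) (fun p => L1 (-1) (decide (p ∈ ng h t s)) p)
    (LE (fun _ => 1) (ng h t s))
    (fun p _ _ => L1_zero _ _ _) (fun p _ _ => L1_zero _ _ _)
    (fun p _ _ a b c d h2 h3 => L1_xor h2 h3) (fun p _ _ a b c d h2 h3 => L1_xor h2 h3)
    (fun p hp _ v w u g h2 h3 => LLcc hp (hone p hp) h2 h3)
    (fun q hq hqs hqO x y hx he => by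
      obtain ⟨hzq, hqF⟩ := hmem q hq hqs hqO
      exact good4 hq hD0 (val4 hd h0 hq hzq hqF) hx he)
    (fun q hq hqs hqO x y hx he => by
      obtain ⟨hzq, hqF⟩ := hmem q hq hqs hqO
      have : Fact q.Prime := ⟨hq⟩
      refine good4 hq (n4 hD0) ?_ hx he
      have h2 : padicValRat q (-4 : ℚ) = 0 := by
        have h3 : ¬ (q : ℤ) ∣ (-4 : ℤ) := by
          intro h4
          rw [Int.dvd_neg] at h4
          have h5 : q ∣ 2 ^ 2 := by exact_mod_cast h4
          have h6 := Nat.le_of_dvd (by norm_num) (hq.dvd_of_dvd_pow h5)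
          omega
        exact_mod_cast Pool.Agent.W22.RK.v_int h3
      rw [padicValRat.mul (by norm_num) hD0, h2, zero_add]
      exact val4 hd h0 hq hzq hqF)
    (fun p hp hps x y hx he e hsf hxe => by
      have : Fact p.Prime := ⟨hp⟩
      obtain ⟨hzp, h2, h3⟩ := RK.t1_pf hp hps
      refine local_cond (by omega) hD0 hDF (hone p hp) h2 h3 ?_ hx he hsf
        (hxe.map (Rat.castHom ℚ_[p]))
      rw [decide_eq_true_eq]
      unfold ng
      rw [mem_filter, Nat.mem_primeFactors]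
      exact ⟨fun h => h.2, fun h => ⟨⟨hp, hps, hs0⟩, h⟩⟩)
    (fun p hp hps x y hx he e hsf hxe => by
      have : Fact p.Prime := ⟨hp⟩
      obtain ⟨hzp, h2, h3⟩ := RK.t1_pf hp hps
      refine local_cond (by omega) (n4 hD0) hDF' (fun h4 => hone p hp ?_) h2 h3 ?_ hx he hsf
        (hxe.map (Rat.castHom ℚ_[p]))
      · rwa [Int.dvd_neg] at h4
      · rw [decide_eq_true_eq]
        unfold ng
        rw [mem_filter, Nat.mem_primeFactors]
        exact ⟨fun h => h.2, fun h => ⟨⟨hp, hps, hs0⟩, h⟩⟩)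
  refine hdes.trans (Nat.mul_le_mul_right _ ?_)
  have hlarge : (F.natAbs.primeFactors.filter (y < ·)).card ≤ N := by
    set S := F.natAbs.primeFactors.filter (y < ·) with hS
    have h1 : (y + 1) ^ S.card ≤ ∏ q ∈ S, q :=
      Finset.pow_card_le_prod _ _ _ (fun q hq => by
        have := (mem_filter.1 hq).2
        omega)
    have h2 : ∏ q ∈ S, q ∣ F.natAbs :=
      (prod_dvd_prod_of_subset _ _ _ (filter_subset _ _)).trans (Nat.prod_primeFactors_dvd _)
    have h3 : ∏ q ∈ S, q ≤ F.natAbs :=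
      Nat.le_of_dvd (Nat.pos_of_ne_zero (Int.natAbs_ne_zero.2 hF0)) h2
    have h4 : (y + 1) ^ S.card < (y + 1) ^ N := (h1.trans h3).trans_lt hN
    exact ((Nat.pow_lt_pow_iff_right (by omega)).1 h4).le
  have hc : OP.card ≤ z + N + (t2 h z y t).primeFactors.card := by
    rw [hOP]
    refine (card_union_le _ _).trans (add_le_add
      ((card_union_le _ _).trans (add_le_add ?_ hlarge)) le_rfl)
    simp
  calc (4 : ℕ) ^ (OP.card + 3) ≤ 4 ^ ((z + 3) + N + (t2 h z y t).primeFactors.card) :=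
        Nat.pow_le_pow_right (by norm_num) (by omega)
    _ = _ := by rw [pow_add, pow_add]

open Classical in
/-- the moments for good data -/
theorem moments {g m : ℕ} (M : ℕ) (hd : Dec f h g1 h1 c1 z) (hz : Gd h z)
    (hg : 1 ≤ g) (hM : Mer h g) (hU : Utw h z)
    (hκk : ∀ i : XP.Ik m, (XP.κk (fun _ => 1) i).natAbs ≤ z) (hk : 2 * h.natDegree ≤ 4 ^ m)
    (hk2 : 2 * g ≤ 4 ^ m) :
    ∃ (X0 : ℕ) (B : ℝ), ∀ (x : ℤ) (X : ℕ), x.natAbs ≤ X ^ M → X0 ≤ X →
      ∑ t ∈ NX.II h x X, (if f.eval t = 0 then (0 : ℝ) else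
        ((2 : ℝ) ^ Module.finrank ℤ (E 0 ((f.eval t : ℤ) : ℚ)).Point) ^ m) ≤ B * X := by
  have hz2 : 2 ≤ z := by have := hz.big; omega
  have hκ0 : ∀ k : Fin 3, (fun _ => 1 : Fin 3 → ℤ) k ≠ 0 := fun _ => one_ne_zero
  have hκz : ∀ k : Fin 3, ((fun _ => 1 : Fin 3 → ℤ) k).natAbs ≤ z := fun _ => by
    simp only [Int.natAbs_one]
    omega
  obtain ⟨C', hC'⟩ := avg_bound
    (Pool.Agent.W655.RK.blw_of (_root_.W37.RK.bl_of Pool.Agent.W505.RK.ls)) hz hg hM hU hκ0 hκz
    hκk hk hk2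
  obtain ⟨C, K, y0, hC0, hK1, hcn⟩ := CN.count hz hM
  obtain ⟨c, L, hcL⟩ := RK.growth h
  -- the size of the values
  set L1 : ℕ := (M + 3) * L + 1 with hL1
  set y1 : ℕ := y0 + c + 3 with hy1
  have hval : ∀ (x : ℤ) (X : ℕ), x.natAbs ≤ X ^ M → y1 ≤ X → ∀ t ∈ Ioc x (x + X),
      (h.eval t).natAbs ≤ X ^ L1 := by
    intro x X hx hX t ht
    rw [mem_Ioc] at ht
    have hX2 : 2 ≤ X := by omega
    have h1 : t.natAbs + 1 ≤ x.natAbs + X + 1 := by omega
    have h2 : x.natAbs + X + 1 ≤ X ^ (M + 3) := by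
      have h3 : X ^ (M + 3) = X ^ M * (X ^ 3) := pow_add _ _ _
      have h4 : 1 ≤ X ^ M := Nat.one_le_pow _ _ (by omega)
      have h5 : X + 1 + 1 ≤ X ^ 3 := by nlinarith [Nat.mul_le_mul hX2 hX2, sq_nonneg (X - 2)]
      calc x.natAbs + X + 1 ≤ X ^ M * 1 + 1 * (X + 1) := by omega
        _ ≤ X ^ M * 1 + X ^ M * (X + 1) := Nat.add_le_add_left (Nat.mul_le_mul_right _ h4) _
        _ = X ^ M * (X + 1 + 1) := by ring
        _ ≤ X ^ M * X ^ 3 := Nat.mul_le_mul_left _ h5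
        _ = _ := h3.symm
    calc (h.eval t).natAbs ≤ c * (t.natAbs + 1) ^ L := hcL t
      _ ≤ X * (X ^ (M + 3)) ^ L :=
          Nat.mul_le_mul (by omega) (Nat.pow_le_pow_left (h1.trans h2) _)
      _ = X ^ L1 := by rw [hL1, ← pow_mul, pow_succ, mul_comm]
  obtain ⟨X0, B, hB⟩ := NX.nt (f := h) (z := z) (G := NBk m (fun _ => 1))
    (R := fun t => if f.eval t = 0 then (0 : ℝ) else
      ((2 : ℝ) ^ Module.finrank ℤ (E 0 ((f.eval t : ℤ) : ℚ)).Point) ^ m)
    (Q := fun x X => x.natAbs ≤ X ^ M ∧ y1 ≤ X) (A := 4 ^ m) (C := C * (4 ^ (z + 3)) ^ m)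
    (D := (4 ^ L1) ^ m) (C' := C') (g := g) (K := K) (y0 := y1)
    hz (NBk_nonneg m _) (fun t => by split_ifs <;> positivity) (by positivity) (by positivity)
    (one_le_pow₀ (one_le_pow₀ (by norm_num)))
    (fun y s e hse => subk m hz2 hκ0 hκz hse) hC' (by
      intro x X y Y k hQ hy0 hzy hyK hXk s v u hs hv hu hsvu
      obtain ⟨hx, hX⟩ := hQ
      have hy00 : y0 ≤ y := by omega
      set S := (NX.II h x X).filter (fun t : ℤ => t1 h z y t = s ∧ t2 h z y t = v ∧
        (u : ℤ) ∣ h.eval t) with hS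
      set G : Finset ℕ → ℝ := fun E => (NL s (LE (fun _ => 1) E) : ℝ) ^ m with hG
      have hG0 : ∀ E, 0 ≤ G E := fun E => by simp only [hG]; positivity
      have h1 : ∀ t ∈ S, (if f.eval t = 0 then (0 : ℝ) else
          ((2 : ℝ) ^ Module.finrank ℤ (E 0 ((f.eval t : ℤ) : ℚ)).Point) ^ m) ≤
          (4 ^ (z + 3)) ^ m * ((4 ^ L1) ^ m) ^ k * (4 ^ m) ^ v.primeFactors.card *
            G (ng h t s) := by
        intro t ht
        split_ifs with hft
        · have := hG0 (ng h t s)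
          positivity
        rw [hS, mem_filter] at ht
        obtain ⟨ht1, hts, htv, _⟩ := ht
        unfold NX.II at ht1
        rw [mem_filter] at ht1
        have hN : (h.eval t).natAbs < (y + 1) ^ (k * L1) := by
          calc (h.eval t).natAbs ≤ X ^ L1 := hval x X hx hX t ht1.1
            _ < ((y + 1) ^ k) ^ L1 := Nat.pow_lt_pow_left hXk (by omega)
            _ = _ := by rw [← pow_mul]
        have hr := rank hd hz2 (t := t) (y := y) (N := k * L1) (by omega) hft hN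
        rw [hts, htv] at hr
        have hr' : (2 : ℝ) ^ Module.finrank ℤ (E 0 ((f.eval t : ℤ) : ℚ)).Point ≤
            4 ^ (z + 3) * 4 ^ (k * L1) * 4 ^ (v.primeFactors.card) *
              (NL s (LE (fun _ => 1) (ng h t s)) : ℝ) := by exact_mod_cast hr
        refine (pow_le_pow_left₀ (by positivity) hr' m).trans (le_of_eq ?_)
        simp only [hG]
        rw [mul_pow, mul_pow, mul_pow]
        congr 2
        · congr 1
          rw [← pow_mul, ← pow_mul, ← pow_mul]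
          congr 1
          ring
        · rw [← pow_mul, ← pow_mul, mul_comm]
      have hneg : ∀ t ∈ S, ng h t s ∈ s.primeFactors.powerset := by
        intro t _
        rw [mem_powerset]
        exact filter_subset _ _
      have h2 : ∑ t ∈ S, G (ng h t s) =
          ∑ E ∈ s.primeFactors.powerset,
            ((S.filter (fun t : ℤ => ng h t s = E)).card : ℝ) * G E := by
        rw [← sum_fiberwise_of_maps_to hneg]
        refine sum_congr rfl fun E _ => ?_
        rw [← nsmul_eq_mul, ← sum_const]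
        refine sum_congr rfl fun t ht => ?_
        rw [(mem_filter.1 ht).2]
      set Q : ℝ := C * X * (1 / 2) ^ s.primeFactors.card * gm (br h) s * (gm (br h) v / v) *
        gm (ru h) u / (Real.log y) ^ g with hQ
      have h3 : ∀ E ∈ s.primeFactors.powerset,
          ((S.filter (fun t : ℤ => ng h t s = E)).card : ℝ) * G E ≤ Q * G E := by
        intro E _
        refine mul_le_mul_of_nonneg_right ?_ (hG0 E)
        refine le_trans ?_ (hcn x X y Y hy00 hzy hyK s v u hs hv hu hsvu E)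
        have h4 : S.filter (fun t : ℤ => ng h t s = E) ⊆
            (Ioc x (x + X)).filter (fun t : ℤ => t1 h z y t = s ∧ t2 h z y t = v ∧
              (u : ℤ) ∣ h.eval t ∧ ng h t s = E) := by
          intro t ht
          rw [mem_filter, hS, mem_filter] at ht
          unfold NX.II at ht
          rw [mem_filter] at ht
          rw [mem_filter]
          exact ⟨ht.1.1.1, ht.1.2.1, ht.1.2.2.1, ht.1.2.2.2, ht.2⟩
        exact_mod_cast card_le_card h4
      calc ∑ t ∈ S, (if f.eval t = 0 then (0 : ℝ) else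
              ((2 : ℝ) ^ Module.finrank ℤ (E 0 ((f.eval t : ℤ) : ℚ)).Point) ^ m)
          ≤ ∑ t ∈ S, (4 ^ (z + 3)) ^ m * ((4 ^ L1) ^ m) ^ k * (4 ^ m) ^ v.primeFactors.card *
            G (ng h t s) := sum_le_sum h1
        _ = (4 ^ (z + 3)) ^ m * ((4 ^ L1) ^ m) ^ k * (4 ^ m) ^ v.primeFactors.card *
              ∑ E ∈ s.primeFactors.powerset,
                ((S.filter (fun t : ℤ => ng h t s = E)).card : ℝ) * G E := by
            rw [← mul_sum, h2]
        _ ≤ (4 ^ (z + 3)) ^ m * ((4 ^ L1) ^ m) ^ k * (4 ^ m) ^ v.primeFactors.card *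
              ∑ E ∈ s.primeFactors.powerset, Q * G E :=
            mul_le_mul_of_nonneg_left (sum_le_sum h3) (by positivity)
        _ = _ := by
            have e1 : NBk m (fun _ => 1) s = (1 / 2) ^ s.primeFactors.card *
                ∑ E ∈ s.primeFactors.powerset, G E := rfl
            have e2 : NX.bV h (4 ^ m) v = (4 ^ m) ^ v.primeFactors.card *
                (gm (br h) v / v) := rfl
            rw [← mul_sum, e1, e2, hQ]
            ring)
  refine ⟨X0 + y1, B, fun x X hx hX => ?_⟩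
  exact hB x X ⟨hx, by omega⟩ (by omega)

end Run7.h69.QD
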