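import Mathlib
import Pool.Agent.Run7.h69.QD4
import Pool.Agent.Run7.h69.UT2
import Pool.Agent.Run7.h69.SC

/-!
# Moments of `2 ^ rank` for the curves `y² = x³ + f(t) x`
-/

set_option autoImplicit false
set_option linter.unusedSectionVars false

namespace Run7.h69.QD

open Finset Polynomial
open Pool.Agent.V11306.CM (E)

/-- the quantity to be averaged -/
noncomputable def rq (d : ℤ) : ℝ := (2 : ℝ) ^ Module.finrank ℤ (E 0 (d : ℚ)).Point

lemma one_le_rq (d : ℤ) : 1 ≤ rq d := one_le_pow₀ (by norm_num)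

lemma rq_pow (d m : ℤ) (hm : m ≠ 0) : rq (m ^ 4 * d) = rq d := by
  unfold rq
  congr 1
  symm
  apply SC.finrank_eq (ρ := (m : ℚ))
  refine ⟨by exact_mod_cast hm, ?_, ?_, ?_, ?_, ?_⟩
  · simp [E]
  · simp [E]
  · simp [E]
  · simp only [E]; push_cast; ring
  · simp [E]

/-- a squarefree polynomial all of whose factors of positive degree divide `h` -/
lemma dvd_of (h : ℤ[X]) (a : ℤ[X]) : a ≠ 0 → Squarefree a →
    (∀ q : ℤ[X], Irreducible q → 0 < q.natDegree → q ∣ a → q ∣ h) →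
    ∃ c : ℤ, c ≠ 0 ∧ a ∣ C c * h := by
  induction a using WfDvdMonoid.induction_on_irreducible with
  | zero => intro h; exact absurd rfl h
  | unit u hu => intro _ _ _; exact ⟨1, one_ne_zero, hu.dvd⟩
  | mul a i ha hi ih =>
    intro _ hsq hq
    have hsqa : Squarefree a := hsq.squarefree_of_dvd (Dvd.intro_left _ rfl)
    obtain ⟨c, hc, hd⟩ := ih ha hsqa (fun q h1 h2 h3 => hq q h1 h2 (h3.mul_left _))
    rcases Nat.eq_zero_or_pos i.natDegree with hi0 | hi0
    · obtain ⟨b, hb⟩ := natDegree_eq_zero.1 hi0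
      have hb0 : b ≠ 0 := by
        rintro rfl
        rw [map_zero] at hb
        exact hi.ne_zero hb.symm
      refine ⟨b * c, mul_ne_zero hb0 hc, ?_⟩
      rw [map_mul, mul_assoc, ← hb]
      exact mul_dvd_mul_left _ hd
    · refine ⟨c, hc, ?_⟩
      have hrel : IsRelPrime i a := (squarefree_mul_iff.1 hsq).1
      exact hrel.mul_dvd ((hq i hi hi0 (dvd_mul_right _ _)).mul_left _) hd

/-- the decomposition -/
theorem dec (f : ℤ[X]) (hf : f ≠ 0)
    (hm : ∀ q : ℤ[X], Irreducible q → 0 < q.natDegree → multiplicity q f % 4 ≠ 2) :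
    ∃ (h g1 h1 : ℤ[X]) (c1 : ℤ), c1 ≠ 0 ∧ f = g1 ^ 4 * h1 ^ 2 * h ∧ Squarefree h ∧ h ≠ 0 ∧
      g1 ≠ 0 ∧ h1 ≠ 0 ∧ h1 ∣ C c1 * h := by
  obtain ⟨g, h, hfg, hsq, h0, hg0⟩ := UT.sq_mul f hf
  obtain ⟨g1, h1, hgg, hsq1, h10, hg10⟩ := UT.sq_mul g hg0
  have hf' : f = g1 ^ 4 * h1 ^ 2 * h := by rw [hfg, hgg]; ring
  obtain ⟨c1, hc1, hd⟩ := dvd_of h h1 h10 hsq1 (by
    intro q hq hqd hqh1
    by_contra hqh
    apply hm q hq hqd
    have hqp : Prime q := hq.prime
    obtain ⟨h2, rfl⟩ := hqh1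
    have hqh2 : ¬ q ∣ h2 := by
      rintro ⟨b, rfl⟩
      exact hq.not_isUnit (hsq1 q ⟨b, by ring⟩)
    obtain ⟨n, g2, hg2, hg12⟩ := WfDvdMonoid.max_power_factor hg10 hq
    have hfe : f = q ^ (4 * n + 2) * (g2 ^ 4 * h2 ^ 2 * h) := by
      rw [hf', hg12]; ring
    have hnd : ¬ q ∣ g2 ^ 4 * h2 ^ 2 * h := by
      intro h3
      rcases hqp.dvd_or_dvd h3 with h4 | h4
      · rcases hqp.dvd_or_dvd h4 with h5 | h5
        · exact hg2 (hqp.dvd_of_dvd_pow h5)
        · exact hqh2 (hqp.dvd_of_dvd_pow h5)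
      · exact hqh h4
    have hmul : multiplicity q f = 4 * n + 2 := by
      apply multiplicity_eq_of_dvd_of_not_dvd
      · rw [hfe]; exact dvd_mul_right _ _
      · rw [hfe, pow_succ]
        intro h3
        exact hnd ((mul_dvd_mul_iff_left (pow_ne_zero _ hq.ne_zero)).1 h3)
    rw [hmul]
    omega)
  exact ⟨h, g1, h1, c1, hc1, hf', hsq, h0, hg10, h10, hd⟩

open Classical in
/-- long intervals -/
theorem sqf {f h g1 h1 : ℤ[X]} {c1 : ℤ} (hc1 : c1 ≠ 0) (hf : f = g1 ^ 4 * h1 ^ 2 * h)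
    (hdv : h1 ∣ C c1 * h) (hsq : Squarefree h) (h0 : h ≠ 0) (hd : 0 < h.natDegree) (k M : ℕ) :
    ∃ (X0 : ℕ) (B : ℝ), ∀ (x : ℤ) (X : ℕ), x.natAbs ≤ X ^ M → X0 ≤ X →
      ∑ t ∈ NX.II f x X, rq (f.eval t) ^ k ≤ B * X := by
  obtain ⟨hsep, g, z0, hg1, hg2, hM, hU⟩ := UT.sqf h hsq h0
  obtain ⟨z1, hz1⟩ := UT.good h h0 hsep
  set m : ℕ := k + 2 * h.natDegree with hm
  have hm4 : 2 * h.natDegree ≤ 4 ^ m := by
    calc 2 * h.natDegree ≤ m := by omega
      _ ≤ 4 ^ m := (Nat.lt_pow_self (by norm_num)).le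
  set z : ℕ := z0 + z1 + c1.natAbs +
    ∑ i : XP.Ik m, (XP.κk (fun _ => 1) i).natAbs with hz
  obtain ⟨X0, B, hB⟩ := moments (f := f) (h := h) (g1 := g1) (h1 := h1) (c1 := c1) (z := z)
    (g := g) (m := m) M ⟨hc1, by omega, hf, hdv⟩ (hz1 z (by omega)) (hg1 hd) hM
    (hU z (by omega))
    (fun i => by
      have h1 := single_le_sum (f := fun i : XP.Ik m => (XP.κk (fun _ => 1) i).natAbs)
        (fun _ _ => Nat.zero_le _) (mem_univ i)
      omega) hm4 (by omega)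
  refine ⟨X0, B, fun x X hx hX => le_trans ?_ (hB x X hx hX)⟩
  have hsub : NX.II f x X ⊆ NX.II h x X := by
    intro t ht
    unfold NX.II at ht ⊢
    rw [mem_filter] at ht ⊢
    refine ⟨ht.1, fun h2 => ht.2 ?_⟩
    rw [hf, eval_mul, h2, mul_zero]
  refine le_trans ?_ (sum_le_sum_of_subset_of_nonneg hsub fun t _ _ => by
    split_ifs <;> positivity)
  refine sum_le_sum fun t ht => ?_
  unfold NX.II at ht
  rw [mem_filter] at ht
  rw [if_neg ht.2]
  exact pow_le_pow_right₀ (one_le_rq _) (by omega)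

/-- **the moments** -/
theorem main (f : ℤ[X]) (hf : f ≠ 0)
    (hmul : ∀ q : ℤ[X], Irreducible q → 0 < q.natDegree → multiplicity q f % 4 ≠ 2) (k M : ℕ) :
    ∃ C : ℝ, ∀ (x : ℤ) (X : ℕ), 1 ≤ X → x.natAbs ≤ X ^ M →
      ∑ t ∈ NX.II f x X, rq (f.eval t) ^ k ≤ C * X := by
  classical
  obtain ⟨h, g1, h1, c1, hc1, hfe, hsq, h0, hg10, h10, hdv⟩ := dec f hf hmul
  have hnn : ∀ t : ℤ, 0 ≤ rq (f.eval t) ^ k := fun t => by
    have := one_le_rq (f.eval t)
    positivity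
  rcases Nat.eq_zero_or_pos h.natDegree with hd | hd
  · obtain ⟨c, hc⟩ := natDegree_eq_zero.1 hd
    have hc0 : c ≠ 0 := by
      rintro rfl
      rw [map_zero] at hc
      exact h0 hc.symm
    have hd1 : h1.natDegree = 0 := by
      have h2 := natDegree_le_of_dvd hdv (mul_ne_zero (by simpa using hc1) h0)
      rw [← hc, ← C_mul, natDegree_C] at h2
      omega
    obtain ⟨b, hb⟩ := natDegree_eq_zero.1 hd1
    have hval : ∀ t : ℤ, f.eval t = (g1.eval t) ^ 4 * (b ^ 2 * c) := by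
      intro t
      rw [hfe, ← hc, ← hb, eval_mul, eval_mul, eval_pow, eval_pow, eval_C, eval_C]
      ring
    refine ⟨rq (b ^ 2 * c) ^ k, fun x X _ _ => ?_⟩
    have h2 : ∀ t ∈ NX.II f x X, rq (f.eval t) ^ k = rq (b ^ 2 * c) ^ k := by
      intro t ht
      unfold NX.II at ht
      rw [mem_filter] at ht
      have hg : g1.eval t ≠ 0 := by
        intro h3
        apply ht.2
        rw [hval, h3]
        ring
      rw [hval, rq_pow _ _ hg]
    rw [sum_congr rfl h2, sum_const, nsmul_eq_mul, mul_comm]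
    have h3 : ((NX.II f x X).card : ℝ) ≤ X := by
      have h3 : (NX.II f x X).card ≤ X := by
        unfold NX.II
        refine (card_filter_le _ _).trans ?_
        rw [Int.card_Ioc]
        simp
      exact_mod_cast h3
    have h4 : (0 : ℝ) ≤ rq (b ^ 2 * c) ^ k := by
      have := one_le_rq (b ^ 2 * c)
      positivity
    exact mul_le_mul_of_nonneg_left h3 h4
  · obtain ⟨X0, B, hB⟩ := sqf hc1 hfe hdv hsq h0 hd k M
    set N : ℤ := (X0 : ℤ) ^ M + X0 with hN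
    set S : ℝ := ∑ t ∈ Icc (-N) N, rq (f.eval t) ^ k with hS
    have hS0 : 0 ≤ S := sum_nonneg fun t _ => hnn t
    refine ⟨|B| + S, fun x X hX hx => ?_⟩
    have hXr : (1 : ℝ) ≤ X := by exact_mod_cast hX
    rcases Nat.lt_or_ge X X0 with hXX | hXX
    · have h1 : ∑ t ∈ NX.II f x X, rq (f.eval t) ^ k ≤ S := by
        refine sum_le_sum_of_subset_of_nonneg ?_ fun t _ _ => hnn t
        intro t ht
        unfold NX.II at ht
        rw [mem_filter, mem_Ioc] at ht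
        rw [mem_Icc]
        have h2 : (x.natAbs : ℤ) ≤ (X0 : ℤ) ^ M := by
          exact_mod_cast hx.trans (Nat.pow_le_pow_left hXX.le M)
        have h3 : (X : ℤ) ≤ X0 := by exact_mod_cast hXX.le
        omega
      have h4 : 0 ≤ |B| := abs_nonneg _
      nlinarith
    · have h1 := hB x X hx hXX
      have h2 := le_abs_self B
      nlinarith

end Run7.h69.QD
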