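import Mathlib

/-!
# Quadratic fields: coordinates, and the unramified odd primes
-/

set_option autoImplicit false
set_option linter.unusedSectionVars false

namespace Run7.h69.CL

open NumberField Module

/-- `K` is the quadratic field generated by a square root `θ` of `D` -/
structure Quad (K : Type) [Field K] [NumberField K] (D : ℤ) (θ : K) : Prop where
  rk : finrank ℚ K = 2
  ns : ¬ ∃ q : ℚ, q ^ 2 = D
  sq : θ ^ 2 = D

variable {K : Type} [Field K] [NumberField K] {D : ℤ} {θ : K}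

lemma Quad.basis (h : Quad K D θ) : ∃ b : Basis (Fin 2) ℚ K, b 0 = 1 ∧ b 1 = θ := by
  have hli : LinearIndependent ℚ ![(1:K), θ] := by
    rw [LinearIndependent.pair_iff]
    intro s t hst
    by_cases ht : t = 0
    · subst ht
      simp only [zero_smul, add_zero, smul_eq_zero, one_ne_zero, or_false] at hst
      exact ⟨hst, rfl⟩
    · exfalso
      have htK : (t : K) ≠ 0 := by exact_mod_cast ht
      have h3 : θ = ((-s / t : ℚ) : K) := by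
        rw [Rat.smul_def, Rat.smul_def, mul_one] at hst
        push_cast
        rw [eq_div_iff htK]
        linear_combination hst
      have hx := h.sq
      rw [h3] at hx
      exact h.ns ⟨-s / t, by exact_mod_cast hx⟩
  refine ⟨basisOfLinearIndependentOfCardEqFinrank hli (by simp [h.rk]), ?_, ?_⟩ <;> simp

lemma repr_eq (b : Basis (Fin 2) ℚ K) (h0 : b 0 = 1) (h1 : b 1 = θ) (p q : ℚ) :
    b.repr ((p:K) + q * θ) 0 = p ∧ b.repr ((p:K) + q * θ) 1 = q := by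
  have h : (p:K) + q * θ = p • b 0 + q • b 1 := by
    rw [h0, h1, Rat.smul_def, Rat.smul_def, mul_one]
  rw [h]
  simp

lemma Quad.coord (h : Quad K D θ) (α : K) : ∃ p q : ℚ, α = (p:K) + q * θ := by
  obtain ⟨b, h0, h1⟩ := h.basis
  refine ⟨b.repr α 0, b.repr α 1, ?_⟩
  have h := b.sum_repr α
  rw [Fin.sum_univ_two, h0, h1, Rat.smul_def, Rat.smul_def, mul_one] at h
  exact h.symm

lemma mat (h : Quad K D θ) (b : Basis (Fin 2) ℚ K) (h0 : b 0 = 1) (h1 : b 1 = θ) (p q : ℚ) :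
    Algebra.leftMulMatrix b ((p:K) + q * θ) = !![p, D * q; q, p] := by
  have e0 : ((p:K) + q * θ) * b 0 = (p:K) + q * θ := by rw [h0, mul_one]
  have e1 : ((p:K) + q * θ) * b 1 = ((D * q : ℚ) : K) + p * θ := by
    rw [h1]
    push_cast
    linear_combination (q:K) * h.sq
  ext i j
  rw [Algebra.leftMulMatrix_eq_repr_mul]
  fin_cases j
  · simp only [Fin.zero_eta, e0]
    fin_cases i
    · simpa using (repr_eq b h0 h1 p q).1
    · simpa using (repr_eq b h0 h1 p q).2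
  · simp only [Fin.mk_one, e1]
    fin_cases i
    · simpa using (repr_eq b h0 h1 (D * q) p).1
    · simpa using (repr_eq b h0 h1 (D * q) p).2

lemma Quad.tr (h : Quad K D θ) (p q : ℚ) : Algebra.trace ℚ K ((p:K) + q * θ) = 2 * p := by
  obtain ⟨b, h0, h1⟩ := h.basis
  rw [Algebra.trace_eq_matrix_trace b, mat h b h0 h1]
  simp [Matrix.trace, Fin.sum_univ_two]
  ring

lemma Quad.nm (h : Quad K D θ) (p q : ℚ) :
    Algebra.norm ℚ ((p:K) + q * θ) = p ^ 2 - D * q ^ 2 := by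
  obtain ⟨b, h0, h1⟩ := h.basis
  rw [Algebra.norm_eq_matrix_det b, mat h b h0 h1, Matrix.det_fin_two]
  simp
  ring

lemma Quad.D_ne (h : Quad K D θ) : D ≠ 0 := by
  rintro rfl
  exact h.ns ⟨0, by simp⟩

lemma Quad.theta_ne (h : Quad K D θ) : θ ≠ 0 := by
  rintro rfl
  have := h.sq
  have h2 : (D : K) = 0 := by rw [← this]; ring
  exact h.D_ne (by exact_mod_cast h2)

/-- the square root as an integer -/
lemma Quad.int (h : Quad K D θ) : ∃ T : 𝓞 K, (T : K) = θ ∧ T ^ 2 = (D : 𝓞 K) := by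
  have hint : IsIntegral ℤ θ := by
    apply IsIntegral.of_pow (n := 2) (by norm_num)
    rw [h.sq]
    exact isIntegral_algebraMap (R := ℤ) (x := D)
  obtain ⟨T, hT⟩ : ∃ T : 𝓞 K, (T : K) = θ := ⟨⟨θ, hint⟩, rfl⟩
  refine ⟨T, hT, ?_⟩
  apply RingOfIntegers.ext
  have : ((T ^ 2 : 𝓞 K) : K) = (T : K) ^ 2 := rfl
  rw [this, hT, h.sq]
  simp

/-- twice the discriminant factor times an integer has integral coordinates -/
lemma Quad.two_mul (h : Quad K D θ) {T : 𝓞 K} (hT : (T : K) = θ) (a : 𝓞 K) :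
    ∃ u v : ℤ, u = Algebra.trace ℤ (𝓞 K) a ∧ v = Algebra.trace ℤ (𝓞 K) (a * T) ∧
      (2 * D : ℤ) * a = ((D * u : ℤ) : 𝓞 K) + ((v : ℤ) : 𝓞 K) * T := by
  obtain ⟨p, q, hpq⟩ := h.coord (a : K)
  refine ⟨Algebra.trace ℤ (𝓞 K) a, Algebra.trace ℤ (𝓞 K) (a * T), rfl, rfl, ?_⟩
  have hmul : ∀ x y : 𝓞 K, ((x * y : 𝓞 K) : K) = (x : K) * (y : K) := fun _ _ => rfl
  have hadd : ∀ x y : 𝓞 K, ((x + y : 𝓞 K) : K) = (x : K) + (y : K) := fun _ _ => rfl
  have e1 : ((Algebra.trace ℤ (𝓞 K) a : ℤ) : ℚ) = 2 * p := by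
    rw [Algebra.coe_trace_int, hpq, h.tr]
  have e2 : ((Algebra.trace ℤ (𝓞 K) (a * T) : ℤ) : ℚ) = 2 * (D * q) := by
    have e3 : ((a * T : 𝓞 K) : K) = (((D * q : ℚ)) : K) + p * θ := by
      rw [hmul, hT, hpq]
      push_cast
      linear_combination (q : K) * h.sq
    rw [Algebra.coe_trace_int, e3, h.tr]
  apply RingOfIntegers.ext
  rw [hmul, hadd, hmul, hT, hpq]
  simp only [map_intCast]
  have e4 : ((Algebra.trace ℤ (𝓞 K) a : ℤ) : K) = ((2 * p : ℚ) : K) := by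
    rw [← e1]; push_cast; rfl
  have e5 : ((Algebra.trace ℤ (𝓞 K) (a * T) : ℤ) : K) = ((2 * (D * q) : ℚ) : K) := by
    rw [← e2]; push_cast; rfl
  push_cast at e4 e5 ⊢
  rw [e4, e5]
  ring

/-- no nilpotents modulo a prime not dividing `2 D` -/
lemma Quad.sq_dvd (h : Quad K D θ) {q : ℕ} (hq : q.Prime) (hq2 : q ≠ 2) (hqD : ¬ (q : ℤ) ∣ D)
    {a : 𝓞 K} (ha : (q : 𝓞 K) ∣ a ^ 2) : (q : 𝓞 K) ∣ a := by
  obtain ⟨T, hT, hT2⟩ := h.int
  obtain ⟨u, v, hu, hv, huv⟩ := h.two_mul hT a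
  have hqi : Prime (q : ℤ) := Nat.prime_iff_prime_int.1 hq
  obtain ⟨w, hw⟩ := ha
  have hq2' : ¬ (q : ℤ) ∣ 2 := by
    intro h1
    have h2 : q ∣ 2 := by exact_mod_cast h1
    exact hq2 ((Nat.prime_dvd_prime_iff_eq hq Nat.prime_two).1 h2)
  -- the square
  have hsq : (((D * u) ^ 2 + v ^ 2 * D : ℤ) : 𝓞 K) + ((2 * (D * u) * v : ℤ) : 𝓞 K) * T =
      ((q : ℤ) : 𝓞 K) * (((2 * D) ^ 2 : ℤ) * w) := by
    have e1 : ((2 * D : ℤ) * a) ^ 2 = (((D * u : ℤ) : 𝓞 K) + ((v : ℤ) : 𝓞 K) * T) ^ 2 := by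
      rw [huv]
    have e2 : ((2 * D : ℤ) * a) ^ 2 = ((q : ℤ) : 𝓞 K) * (((2 * D) ^ 2 : ℤ) * w) := by
      rw [mul_pow, hw]
      push_cast
      ring
    rw [← e2, e1]
    push_cast
    linear_combination -(v : 𝓞 K) ^ 2 * hT2
  have trI : ∀ (c : ℤ) (x : 𝓞 K), Algebra.trace ℤ (𝓞 K) ((c : 𝓞 K) * x) =
      c * Algebra.trace ℤ (𝓞 K) x := by
    intro c x
    have : (c : 𝓞 K) * x = c • x := by rw [zsmul_eq_mul]
    rw [this, map_smul, smul_eq_mul]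
  have hzero : ((0 : ℚ) : K) + (1 : ℚ) * θ = θ := by push_cast; ring
  have hone : ((1 : ℚ) : K) + (0 : ℚ) * θ = 1 := by push_cast; ring
  have trT : Algebra.trace ℤ (𝓞 K) T = 0 := by
    have e1 : ((Algebra.trace ℤ (𝓞 K) T : ℤ) : ℚ) = 0 := by
      rw [Algebra.coe_trace_int, hT, ← hzero, h.tr]; ring
    exact_mod_cast e1
  have tr1 : Algebra.trace ℤ (𝓞 K) 1 = 2 := by
    have e1 : ((Algebra.trace ℤ (𝓞 K) (1 : 𝓞 K) : ℤ) : ℚ) = 2 := by
      have e0 : ((1 : 𝓞 K) : K) = 1 := rfl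
      rw [Algebra.coe_trace_int, e0, ← hone, h.tr]; ring
    exact_mod_cast e1
  have trc : ∀ c : ℤ, Algebra.trace ℤ (𝓞 K) (c : 𝓞 K) = 2 * c := by
    intro c
    have := trI c 1
    rw [mul_one, tr1] at this
    rw [this]; ring
  have k1 : (q : ℤ) ∣ 2 * ((D * u) ^ 2 + v ^ 2 * D) := by
    have e1 := congrArg (Algebra.trace ℤ (𝓞 K)) hsq
    rw [map_add, trc, trI, trT, mul_zero, add_zero, trI] at e1
    exact ⟨_, e1⟩
  have k2 : (q : ℤ) ∣ 2 * (2 * (D * u) * v * D) := by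
    have e0 : ((((D * u) ^ 2 + v ^ 2 * D : ℤ) : 𝓞 K) + ((2 * (D * u) * v : ℤ) : 𝓞 K) * T) * T =
        (((D * u) ^ 2 + v ^ 2 * D : ℤ) : 𝓞 K) * T + ((2 * (D * u) * v * D : ℤ) : 𝓞 K) := by
      push_cast
      linear_combination (2 * (D * u) * v : 𝓞 K) * hT2
    have e1 := congrArg (fun x => Algebra.trace ℤ (𝓞 K) (x * T)) hsq
    change Algebra.trace ℤ (𝓞 K) (_ * T) = Algebra.trace ℤ (𝓞 K) (_ * T) at e1
    rw [e0, map_add, trI, trT, mul_zero, zero_add, trc,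
      mul_assoc ((q : ℤ) : 𝓞 K), trI] at e1
    exact ⟨_, e1⟩
  have k1' : (q : ℤ) ∣ D * u ^ 2 + v ^ 2 := by
    have e : 2 * ((D * u) ^ 2 + v ^ 2 * D) = 2 * (D * (D * u ^ 2 + v ^ 2)) := by ring
    rw [e] at k1
    rcases hqi.dvd_or_dvd k1 with h1 | h1
    · exact absurd h1 hq2'
    · rcases hqi.dvd_or_dvd h1 with h2 | h2
      · exact absurd h2 hqD
      · exact h2
  have k2' : (q : ℤ) ∣ u * v := by
    have e : 2 * (2 * (D * u) * v * D) = 2 * (2 * (D * (D * (u * v)))) := by ring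
    rw [e] at k2
    rcases hqi.dvd_or_dvd k2 with h1 | h1
    · exact absurd h1 hq2'
    rcases hqi.dvd_or_dvd h1 with h1 | h1
    · exact absurd h1 hq2'
    rcases hqi.dvd_or_dvd h1 with h1 | h1
    · exact absurd h1 hqD
    rcases hqi.dvd_or_dvd h1 with h1 | h1
    · exact absurd h1 hqD
    exact h1
  have k3 : (q : ℤ) ∣ u ∧ (q : ℤ) ∣ v := by
    rcases hqi.dvd_or_dvd k2' with h1 | h1
    · refine ⟨h1, ?_⟩
      have h2 : (q : ℤ) ∣ D * u ^ 2 := (h1.pow two_ne_zero).mul_left _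
      exact hqi.dvd_of_dvd_pow ((dvd_add_right h2).1 k1')
    · refine ⟨?_, h1⟩
      have h2 : (q : ℤ) ∣ v ^ 2 := h1.pow two_ne_zero
      have h3 := (dvd_add_left h2).1 k1'
      rcases hqi.dvd_or_dvd h3 with h4 | h4
      · exact absurd h4 hqD
      · exact hqi.dvd_of_dvd_pow h4
  obtain ⟨⟨u', hu'⟩, ⟨v', hv'⟩⟩ := k3
  have hco : IsCoprime (q : ℤ) (2 * D) := by
    rw [Prime.coprime_iff_not_dvd hqi]
    intro h1
    rcases hqi.dvd_or_dvd h1 with h2 | h2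
    · exact hq2' h2
    · exact hqD h2
  obtain ⟨r, s, hrs⟩ := hco
  have hrs' : ((r : ℤ) : 𝓞 K) * (q : 𝓞 K) + ((s : ℤ) : 𝓞 K) * ((2 * D : ℤ) : 𝓞 K) = 1 := by
    have := congrArg (fun x : ℤ => (x : 𝓞 K)) hrs
    push_cast at this ⊢
    exact this
  refine ⟨(r : 𝓞 K) * a + (s : 𝓞 K) * ((D * u' : ℤ) + (v' : ℤ) * T), ?_⟩
  have e1 : ((2 * D : ℤ) : 𝓞 K) * a = (q : 𝓞 K) * ((D * u' : ℤ) + (v' : ℤ) * T) := by
    rw [huv, hu', hv']
    push_cast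
    ring
  calc a = (((r : ℤ) : 𝓞 K) * (q : 𝓞 K) + ((s : ℤ) : 𝓞 K) * ((2 * D : ℤ) : 𝓞 K)) * a := by
        rw [hrs', one_mul]
    _ = (q : 𝓞 K) * ((r : 𝓞 K) * a) + (s : 𝓞 K) * (((2 * D : ℤ) : 𝓞 K) * a) := by ring
    _ = _ := by rw [e1]; ring

/-- such a prime is not ramified -/
lemma Quad.unram (h : Quad K D θ) {q : ℕ} (hq : q.Prime) (hq2 : q ≠ 2) (hqD : ¬ (q : ℤ) ∣ D)
    {P : Ideal (𝓞 K)} (hP : P.IsPrime) :
    ¬ Ideal.span {(q : 𝓞 K)} ≤ P ^ 2 := by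
  intro hle
  have hq0 : (q : 𝓞 K) ≠ 0 := by exact_mod_cast hq.ne_zero
  have hs0 : Ideal.span {(q : 𝓞 K)} ≠ ⊥ := by
    rw [Ne, Ideal.span_singleton_eq_bot]; exact hq0
  obtain ⟨Q, hQ⟩ := Ideal.dvd_iff_le.2 hle
  -- `(q) = P ^ 2 * Q`
  obtain ⟨R, hR⟩ : ∃ R : Ideal (𝓞 K), R = P * Q := ⟨_, rfl⟩
  have e1 : Ideal.span {(q : 𝓞 K)} = P * R := by rw [hQ, hR]; ring
  have hR0 : R ≠ 0 := by
    intro h0
    rw [h0, mul_zero] at e1
    exact hs0 e1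
  have hlt : ¬ R ≤ Ideal.span {(q : 𝓞 K)} := by
    intro hle2
    rw [← Ideal.dvd_iff_le, e1] at hle2
    obtain ⟨c, hc⟩ := hle2
    have h1 : R * 1 = R * (P * c) := by
      rw [mul_one]
      calc R = P * R * c := hc
        _ = _ := by ring
    have h2 := mul_left_cancel₀ hR0 h1
    apply hP.ne_top
    have h3 : P ∣ 1 := ⟨c, h2⟩
    exact Ideal.isUnit_iff.1 (isUnit_of_dvd_one h3)
  obtain ⟨a, haR, haq⟩ := SetLike.not_le_iff_exists.1 hlt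
  apply haq
  have hRP : R ≤ P := Ideal.dvd_iff_le.1 ⟨Q, hR⟩
  have haP : a ∈ P := hRP haR
  have h2 : a ^ 2 ∈ Ideal.span {(q : 𝓞 K)} := by
    have e2 : a ^ 2 = a * a := by ring
    rw [e1, e2]
    exact Ideal.mul_mem_mul haP haR
  rw [Ideal.mem_span_singleton] at h2
  exact Ideal.mem_span_singleton.2 (h.sq_dvd hq hq2 hqD h2)

end Run7.h69.CL
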