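import Mathlib
import Pool.Agent.Run7.h69.CL1

/-!
# The classes of order two that are squares
-/

set_option autoImplicit false
set_option linter.unusedSectionVars false

namespace Run7.h69.CL

open NumberField Module UniqueFactorizationMonoid

variable {K : Type} [Field K] [NumberField K] {D : ℤ} {θ : K}

/-- the valuation of a rational integer whose ideal is a square up to a square -/
lemma Quad.even (h : Quad K D θ) {q : ℕ} (hq : q.Prime) (hq2 : q ≠ 2) (hqD : ¬ (q : ℤ) ∣ D)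
    {I J : Ideal (𝓞 K)} {X : ℤ} (hX : X ≠ 0) (hI : I ≠ 0)
    (hIJ : Ideal.span {(X : 𝓞 K)} * I ^ 2 = J ^ 2) : Even (padicValRat q ((X : ℤ) : ℚ)) := by
  classical
  have : Fact q.Prime := ⟨hq⟩
  have hq0 : (q : 𝓞 K) ≠ 0 := by exact_mod_cast hq.ne_zero
  have hnu : ¬ IsUnit (q : 𝓞 K) := by
    intro hu
    have h1 := hu.map (Algebra.norm ℤ)
    have h2 : Algebra.norm ℤ (q : 𝓞 K) = (q : ℤ) ^ 2 := by
      have h3 := Algebra.norm_algebraMap (R := ℤ) (S := 𝓞 K) (q : ℤ)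
      rw [RingOfIntegers.rank, h.rk] at h3
      simpa using h3
    rw [h2, Int.isUnit_iff] at h1
    have h3 : (1 : ℤ) < q := by exact_mod_cast hq.one_lt
    rcases h1 with h1 | h1 <;> nlinarith
  obtain ⟨P, hPm, hqP⟩ := Ideal.exists_le_maximal (Ideal.span {(q : 𝓞 K)})
    (fun h1 => hnu (Ideal.span_singleton_eq_top.1 h1))
  have hP : P.IsPrime := hPm.isPrime
  have hur := h.unram hq hq2 hqD hP
  have hqmem : (q : 𝓞 K) ∈ P := hqP (Ideal.mem_span_singleton_self _)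
  have hP0 : P ≠ ⊥ := by
    rintro rfl
    exact hq0 (by simpa using hqmem)
  obtain ⟨v, X', hX', hXv⟩ : ∃ (v : ℕ) (X' : ℤ), ¬ (q : ℤ) ∣ X' ∧ X = (q : ℤ) ^ v * X' := by
    obtain ⟨c, hc, he⟩ := (Int.finiteMultiplicity_iff.2 ⟨by simpa using hq.ne_one, hX⟩ :
      FiniteMultiplicity (q : ℤ) X).exists_eq_pow_mul_and_not_dvd
    exact ⟨_, c, he, hc⟩
  have hX'0 : X' ≠ 0 := by rintro rfl; exact hX' (dvd_zero _)
  have hval : padicValRat q ((X : ℤ) : ℚ) = v := by
    rw [hXv]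
    push_cast
    have hqq : (q : ℚ) ≠ 0 := by exact_mod_cast hq.ne_zero
    rw [padicValRat.mul (pow_ne_zero _ hqq) (by exact_mod_cast hX'0), padicValRat.pow,
      padicValRat.self hq.one_lt, padicValRat.of_int, padicValInt.eq_zero_of_not_dvd hX']
    simp
  have hX'P : ((X' : ℤ) : 𝓞 K) ∉ P := by
    intro h1
    have hco : IsCoprime (q : ℤ) X' :=
      (Prime.coprime_iff_not_dvd (Nat.prime_iff_prime_int.1 hq)).2 hX'
    obtain ⟨r, s, hrs⟩ := hco
    apply hP.ne_top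
    rw [Ideal.eq_top_iff_one]
    have h2 : (r : 𝓞 K) * (q : 𝓞 K) + (s : 𝓞 K) * (X' : 𝓞 K) = 1 := by
      have := congrArg (fun x : ℤ => (x : 𝓞 K)) hrs
      push_cast at this ⊢
      exact this
    rw [← h2]
    exact P.add_mem (P.mul_mem_left _ hqmem) (P.mul_mem_left _ h1)
  -- the counts
  have c1 : (normalizedFactors (Ideal.span {(q : 𝓞 K)})).count P = 1 :=
    Ideal.count_normalizedFactors_eq (n := 1) (by rwa [pow_one]) hur
  have c2 : (normalizedFactors (Ideal.span {((X' : ℤ) : 𝓞 K)})).count P = 0 :=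
    Ideal.count_normalizedFactors_eq (n := 0) (by simp) (by
      rw [zero_add, pow_one]
      intro h1
      exact hX'P (h1 (Ideal.mem_span_singleton_self _)))
  have hs0 : Ideal.span {(q : 𝓞 K)} ≠ 0 := by
    rw [Ne, Ideal.zero_eq_bot, Ideal.span_singleton_eq_bot]; exact hq0
  have hs1 : Ideal.span {((X' : ℤ) : 𝓞 K)} ≠ 0 := by
    rw [Ne, Ideal.zero_eq_bot, Ideal.span_singleton_eq_bot]; exact_mod_cast hX'0
  have hs2 : Ideal.span {((X : ℤ) : 𝓞 K)} = Ideal.span {(q : 𝓞 K)} ^ v *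
      Ideal.span {((X' : ℤ) : 𝓞 K)} := by
    rw [Ideal.span_singleton_pow, Ideal.span_singleton_mul_span_singleton, hXv]
    congr 2
    push_cast
    rfl
  have c3 : (normalizedFactors (Ideal.span {((X : ℤ) : 𝓞 K)})).count P = v := by
    rw [hs2, normalizedFactors_mul (pow_ne_zero _ hs0) hs1, normalizedFactors_pow,
      Multiset.count_add, Multiset.count_nsmul, c1, c2]
    simp
  have hsX : Ideal.span {((X : ℤ) : 𝓞 K)} ≠ 0 := by
    rw [Ne, Ideal.zero_eq_bot, Ideal.span_singleton_eq_bot]; exact_mod_cast hX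
  have c4 : (normalizedFactors (Ideal.span {(X : 𝓞 K)} * I ^ 2)).count P =
      (normalizedFactors (J ^ 2)).count P := by rw [hIJ]
  rw [normalizedFactors_mul hsX (pow_ne_zero _ hI), normalizedFactors_pow, normalizedFactors_pow,
      Multiset.count_add, Multiset.count_nsmul, Multiset.count_nsmul, c3] at c4
  rw [hval, Int.even_coe_nat, Nat.even_iff]
  omega

/-- the classes of ideals whose fourth power has a generator of positive norm, squared -/
def Pos (c : ClassGroup (𝓞 K)) : Prop :=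
  ∃ (I : nonZeroDivisors (Ideal (𝓞 K))) (α : 𝓞 K), c = ClassGroup.mk0 I ^ 2 ∧
    (I : Ideal (𝓞 K)) ^ 4 = Ideal.span {α} ∧ 0 < Algebra.norm ℤ α

/-- the data of such a class -/
structure Dat (K : Type) [Field K] [NumberField K] (D : ℤ) (c : ClassGroup (𝓞 K)) (X : ℤ) :
    Prop where
  ne : X ≠ 0
  form : ∃ a b : ℚ, (X : ℚ) = a ^ 2 - D * b ^ 2
  ideal : ∃ (I : nonZeroDivisors (Ideal (𝓞 K))) (Γ : 𝓞 K), c = ClassGroup.mk0 I ^ 2 ∧ Γ ≠ 0 ∧
    Ideal.span {(X : 𝓞 K)} * (I : Ideal (𝓞 K)) ^ 4 = Ideal.span {Γ} ^ 2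

lemma Quad.dat (h : Quad K D θ) {c : ClassGroup (𝓞 K)} (hc : Pos c) : ∃ X : ℤ, Dat K D c X := by
  obtain ⟨I, α, hI, hα, hN⟩ := hc
  obtain ⟨T, hT, hT2⟩ := h.int
  have hI0 : (I : Ideal (𝓞 K)) ≠ 0 := nonZeroDivisors.coe_ne_zero I
  have hα0 : α ≠ 0 := by
    rintro rfl
    rw [Algebra.norm_zero] at hN
    exact lt_irrefl _ hN
  set n : ℕ := Ideal.absNorm (I : Ideal (𝓞 K)) with hn
  have hn0 : n ≠ 0 := by
    rw [hn, Ne, Ideal.absNorm_eq_zero_iff]
    exact hI0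
  have hNn : Algebra.norm ℤ α = (n : ℤ) ^ 4 := by
    have h1 : (Algebra.norm ℤ α).natAbs = n ^ 4 := by
      rw [← Ideal.absNorm_span_singleton, ← hα, map_pow]
    have h2 : (Algebra.norm ℤ α) = ((Algebra.norm ℤ α).natAbs : ℤ) :=
      (Int.natAbs_of_nonneg hN.le).symm
    rw [h2, h1]
    push_cast
    rfl
  obtain ⟨p, r, hpr⟩ := h.coord (α : K)
  have hN' : p ^ 2 - D * r ^ 2 = (n : ℚ) ^ 4 := by
    rw [← h.nm, ← hpr, ← Algebra.coe_norm_int, hNn]
    push_cast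
    rfl
  set t : ℤ := Algebra.trace ℤ (𝓞 K) α with ht
  have htp : (t : ℚ) = 2 * p := by
    rw [ht, Algebra.coe_trace_int, hpr, h.tr]
  have hmul : ∀ x y : 𝓞 K, ((x * y : 𝓞 K) : K) = (x : K) * (y : K) := fun _ _ => rfl
  have hadd : ∀ x y : 𝓞 K, ((x + y : 𝓞 K) : K) = (x : K) + (y : K) := fun _ _ => rfl
  have hpow : ∀ (x : 𝓞 K) (k : ℕ), ((x ^ k : 𝓞 K) : K) = (x : K) ^ k := fun _ _ => rfl
  have htK : ((t : ℤ) : K) = ((2 * p : ℚ) : K) := by
    rw [← htp]; push_cast; rfl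
  have hNK : ((p ^ 2 - D * r ^ 2 : ℚ) : K) = ((n : ℚ) ^ 4 : ℚ) := by rw [hN']
  push_cast at hNK htK
  have hnK : (n : K) ≠ 0 := by exact_mod_cast hn0
  by_cases hcase : 2 * (n : ℤ) ^ 4 + (n : ℤ) ^ 2 * t = 0
  · -- `α = - n ^ 2`
    have h1 : (2 * (n : ℚ) ^ 4 + (n : ℚ) ^ 2 * t : ℚ) = 0 := by exact_mod_cast hcase
    have hnq : (n : ℚ) ≠ 0 := by exact_mod_cast hn0
    have h2 : p = -(n : ℚ) ^ 2 := by
      rw [htp] at h1
      have h3 : (n : ℚ) ^ 2 * ((n : ℚ) ^ 2 + p) = 0 := by linear_combination h1 / 2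
      rcases mul_eq_zero.1 h3 with h4 | h4
      · exact absurd h4 (pow_ne_zero 2 hnq)
      · linear_combination h4
    have hDq : (D : ℚ) ≠ 0 := by exact_mod_cast h.D_ne
    have h3 : r = 0 := by
      rw [h2] at hN'
      have h4 : (D : ℚ) * r ^ 2 = 0 := by linear_combination -hN'
      rcases mul_eq_zero.1 h4 with h5 | h5
      · exact absurd h5 hDq
      · exact pow_eq_zero_iff (two_ne_zero) |>.mp h5
    refine ⟨-D, neg_ne_zero.2 h.D_ne, ⟨0, 1, by push_cast; ring⟩, I, (n : 𝓞 K) * T, hI, ?_, ?_⟩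
    · refine mul_ne_zero (by exact_mod_cast hn0) ?_
      rintro rfl
      apply h.theta_ne
      rw [← hT]; rfl
    · rw [hα, Ideal.span_singleton_mul_span_singleton, Ideal.span_singleton_pow]
      congr 2
      apply RingOfIntegers.ext
      rw [hmul, hpow, hmul, hT, hpr, h2, h3]
      have h5 := h.sq
      simp only [map_intCast, map_natCast]
      push_cast
      linear_combination -((n : K) ^ 2) * h5
  · refine ⟨2 * (n : ℤ) ^ 4 + (n : ℤ) ^ 2 * t, hcase,
      ⟨(n : ℚ) ^ 2 + p, r, ?_⟩, I, (n : 𝓞 K) * ((n : 𝓞 K) ^ 2 + α), hI, ?_, ?_⟩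
    · push_cast
      rw [htp]
      linear_combination -hN'
    · intro h0
      apply hcase
      rcases mul_eq_zero.1 h0 with h1 | h1
      · exact absurd h1 (by exact_mod_cast hn0)
      · have h2 : (α : K) = ((-(n : ℚ) ^ 2 : ℚ) : K) + (0 : ℚ) * θ := by
          have h3 : α = -(n : 𝓞 K) ^ 2 := by linear_combination h1
          have h4 : ((-(n : 𝓞 K) ^ 2 : 𝓞 K) : K) = -((n : 𝓞 K) : K) ^ 2 := rfl
          rw [h3, h4]
          push_cast
          simp
        have h3 : (t : ℚ) = 2 * (-(n : ℚ) ^ 2) := by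
          rw [ht, Algebra.coe_trace_int, h2, h.tr]
        have h4 : ((2 * (n : ℤ) ^ 4 + (n : ℤ) ^ 2 * t : ℤ) : ℚ) = 0 := by
          push_cast
          rw [h3]
          ring
        exact_mod_cast h4
    · rw [hα, Ideal.span_singleton_mul_span_singleton, Ideal.span_singleton_pow]
      congr 2
      apply RingOfIntegers.ext
      rw [hmul, hpow, hmul, hadd, hpow, hpr]
      have h5 := h.sq
      simp only [map_intCast, map_natCast]
      push_cast
      rw [htK]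
      linear_combination (-(n : K) ^ 2 * r ^ 2) * h5 + (n : K) ^ 2 * hNK

end Run7.h69.CL
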