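import Mathlib
import Pool.Agent.Run7.h69.CL2

/-!
# The classes of order two that are squares: injectivity, and the sign
-/

set_option autoImplicit false
set_option linter.unusedSectionVars false

namespace Run7.h69.CL

open NumberField Module UniqueFactorizationMonoid

variable {K : Type} [Field K] [NumberField K] {D : ℤ} {θ : K}

/-- the valuation of the data -/
lemma Quad.dat_even (h : Quad K D θ) {c : ClassGroup (𝓞 K)} {X : ℤ} (hX : Dat K D c X) {q : ℕ}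
    (hq : q.Prime) (hq2 : q ≠ 2) (hqD : ¬ (q : ℤ) ∣ D) : Even (padicValRat q ((X : ℤ) : ℚ)) := by
  obtain ⟨I, Γ, hI, hΓ, he⟩ := hX.ideal
  have hI0 : (I : Ideal (𝓞 K)) ≠ 0 := nonZeroDivisors.coe_ne_zero I
  refine h.even hq hq2 hqD hX.ne (I := (I : Ideal (𝓞 K)) ^ 2) (J := Ideal.span {Γ})
    (pow_ne_zero 2 hI0) ?_
  rw [← he, ← pow_mul]

lemma ideal_sq {A B : Ideal (𝓞 K)} (h : A ^ 2 = B ^ 2) : A = B := by
  have h1 : A ∣ B := (pow_dvd_pow_iff_dvd (two_ne_zero)).1 (h ▸ dvd_rfl)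
  have h2 : B ∣ A := (pow_dvd_pow_iff_dvd (two_ne_zero)).1 (h ▸ dvd_rfl)
  exact le_antisymm (Ideal.dvd_iff_le.1 h2) (Ideal.dvd_iff_le.1 h1)

/-- the square class determines the ideal class -/
lemma dat_inj {c c' : ClassGroup (𝓞 K)} {X X' : ℤ} (h : Dat K D c X) (h' : Dat K D c' X')
    (hc' : c' ^ 2 = 1) (hs : IsSquare (X * X')) : c = c' := by
  obtain ⟨I, Γ, hI, hΓ, he⟩ := h.ideal
  obtain ⟨I', Γ', hI', hΓ', he'⟩ := h'.ideal
  obtain ⟨w, hw⟩ := hs
  have hw0 : w ≠ 0 := by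
    rintro rfl
    rw [mul_zero] at hw
    exact mul_ne_zero h.ne h'.ne hw
  have h1 : (Ideal.span {(w : 𝓞 K)} * ((I : Ideal (𝓞 K)) ^ 2 * (I' : Ideal (𝓞 K)) ^ 2)) ^ 2 =
      (Ideal.span {Γ * Γ'}) ^ 2 := by
    have e1 : Ideal.span {Γ * Γ'} = Ideal.span {Γ} * Ideal.span {Γ'} :=
      (Ideal.span_singleton_mul_span_singleton _ _).symm
    have e2 : Ideal.span {(w : 𝓞 K)} ^ 2 = Ideal.span {(X : 𝓞 K)} * Ideal.span {(X' : 𝓞 K)} := by
      rw [Ideal.span_singleton_mul_span_singleton, Ideal.span_singleton_pow]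
      congr 2
      have := congrArg (fun x : ℤ => (x : 𝓞 K)) hw
      push_cast at this
      rw [this]
      ring
    rw [e1, mul_pow (Ideal.span {Γ}), ← he, ← he', mul_pow, e2]
    ring
  have h2 := ideal_sq h1
  have h3 : ClassGroup.mk0 (I ^ 2 * I' ^ 2) = ClassGroup.mk0 1 := by
    rw [ClassGroup.mk0_eq_mk0_iff]
    refine ⟨(w : 𝓞 K), Γ * Γ', by exact_mod_cast hw0, mul_ne_zero hΓ hΓ', ?_⟩
    simpa using h2
  rw [map_mul, map_pow, map_pow, ← hI, ← hI', map_one] at h3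
  have h4 : c * c' = c' * c' := by rw [h3, ← pow_two, hc']
  exact mul_right_cancel h4

/-- the classes of order two that are squares -/
def S4 (K : Type) [Field K] [NumberField K] : Set (ClassGroup (𝓞 K)) :=
  {c | c ^ 2 = 1 ∧ IsSquare c}

lemma exists_gen {c : ClassGroup (𝓞 K)} (hc : c ∈ S4 K) :
    ∃ (I : nonZeroDivisors (Ideal (𝓞 K))) (α : 𝓞 K), c = ClassGroup.mk0 I ^ 2 ∧
      (I : Ideal (𝓞 K)) ^ 4 = Ideal.span {α} ∧ Algebra.norm ℤ α ≠ 0 := by
  obtain ⟨hc2, b, hb⟩ := hc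
  obtain ⟨I, hI⟩ := ClassGroup.mk0_surjective b
  have h4 : ClassGroup.mk0 (I ^ 4) = 1 := by
    rw [map_pow, hI]
    calc b ^ 4 = (b * b) ^ 2 := by rw [← pow_two, ← pow_mul]
      _ = 1 := by rw [← hb, hc2]
  rw [ClassGroup.mk0_eq_one_iff] at h4
  obtain ⟨α, hα⟩ := (Submodule.isPrincipal_iff _).1 h4
  have hα' : (I : Ideal (𝓞 K)) ^ 4 = Ideal.span {α} := by
    simpa using hα
  have hI0 : (I : Ideal (𝓞 K)) ≠ 0 := nonZeroDivisors.coe_ne_zero I
  refine ⟨I, α, by rw [hI, hb, pow_two], hα', ?_⟩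
  intro h0
  rw [Algebra.norm_eq_zero_iff] at h0
  rw [h0] at hα'
  apply pow_ne_zero 4 hI0
  rw [hα']
  simp

/-- the sign costs a factor of two -/
lemma card_S4 : Nat.card (S4 K) ≤ 2 * Nat.card {c : S4 K // Pos (c : ClassGroup (𝓞 K))} := by
  classical
  have : Fintype (S4 K) := Fintype.ofFinite _
  have h1 := Fintype.card_subtype_compl (α := S4 K) (fun c => Pos (c : ClassGroup (𝓞 K)))
  have h2 := Fintype.card_subtype_le (α := S4 K) (fun c => Pos (c : ClassGroup (𝓞 K)))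
  have h3 : Fintype.card {c : S4 K // ¬ Pos (c : ClassGroup (𝓞 K))} ≤
      Fintype.card {c : S4 K // Pos (c : ClassGroup (𝓞 K))} := by
    by_cases hne : ∃ c0 : S4 K, ¬ Pos (c0 : ClassGroup (𝓞 K))
    · obtain ⟨⟨c0, hc0⟩, hn0⟩ := hne
      obtain ⟨I0, α0, hI0, hα0, hN0⟩ := exists_gen hc0
      have hneg : ∀ (c : ClassGroup (𝓞 K)) (I : nonZeroDivisors (Ideal (𝓞 K))) (α : 𝓞 K),
          ¬ Pos c → c = ClassGroup.mk0 I ^ 2 → (I : Ideal (𝓞 K)) ^ 4 = Ideal.span {α} →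
          Algebra.norm ℤ α ≠ 0 → Algebra.norm ℤ α < 0 := by
        intro c I α hp h1 h2 h3
        rcases lt_or_gt_of_ne h3 with h4 | h4
        · exact h4
        · exact absurd ⟨I, α, h1, h2, h4⟩ hp
      have hN0' := hneg c0 I0 α0 hn0 hI0 hα0 hN0
      have hpos : ∀ c : S4 K, ¬ Pos (c : ClassGroup (𝓞 K)) →
          ((c : ClassGroup (𝓞 K)) * c0 ∈ S4 K) ∧ Pos ((c : ClassGroup (𝓞 K)) * c0) := by
        intro c hc
        obtain ⟨I, α, hI, hα, hN⟩ := exists_gen c.2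
        have hN' := hneg c I α hc hI hα hN
        refine ⟨⟨?_, ?_⟩, I * I0, α * α0, ?_, ?_, ?_⟩
        · rw [mul_pow, c.2.1, hc0.1, one_mul]
        · exact c.2.2.mul hc0.2
        · rw [hI, hI0, map_mul, mul_pow]
        · rw [← Ideal.span_singleton_mul_span_singleton, ← hα, ← hα0, ← mul_pow]
          rfl
        · rw [map_mul]
          exact mul_pos_of_neg_of_neg hN' hN0'
      refine Fintype.card_le_of_injective
        (fun c => (⟨⟨(c.1 : ClassGroup (𝓞 K)) * c0, (hpos c.1 c.2).1⟩, (hpos c.1 c.2).2⟩ :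
          {c : S4 K // Pos (c : ClassGroup (𝓞 K))})) ?_
      intro c c' hcc
      have h4 : (c.1 : ClassGroup (𝓞 K)) * c0 = (c'.1 : ClassGroup (𝓞 K)) * c0 :=
        congrArg (fun x => ((x.1 : S4 K) : ClassGroup (𝓞 K))) hcc
      exact Subtype.ext (Subtype.ext (mul_right_cancel h4))
    · push Not at hne
      have : IsEmpty {c : S4 K // ¬ Pos (c : ClassGroup (𝓞 K))} := ⟨fun c => c.2 (hne c.1)⟩
      rw [Fintype.card_eq_zero]
      exact Nat.zero_le _
  rw [Nat.card_eq_fintype_card, Nat.card_eq_fintype_card]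
  omega

end Run7.h69.CL
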