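import Mathlib
import Pool.Agent.Run7.h69.CL3
import Pool.Agent.Run7.h69.QD3
import Pool.Agent.Run7.h69.XP

/-!
# The number of the classes of order two that are squares is bounded by the local count
-/

set_option autoImplicit false
set_option linter.unusedSectionVars false

namespace Run7.h69.CL

open Finset NumberField Pool.Agent.W262.RK Pool.Agent.W22.RK Pool.Agent.W342.RK2
  Pool.Agent.W214.RK2
open Run7.h69.QD

/-- representatives of the square classes of a family of rational numbers -/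
lemma reps {X : Type} (x : X → ℚ) (m : ℕ) (hm : Squarefree m) (OP : Finset ℕ)
    (L : ℕ → Bool → Bool → Prop)
    (hLx : ∀ p, p.Prime → p ∣ m → ∀ a b c d, L p a b → L p c d → L p (xor a c) (xor b d))
    (hx0 : ∀ P, x P ≠ 0)
    (hgood : ∀ q, q.Prime → ¬ q ∣ m → q ∉ OP → ∀ P, Even (padicValRat q (x P)))
    (hloc : ∀ p, p.Prime → p ∣ m → ∀ P, ∀ e : ℤ,
      Squarefree e → IsSquare (x P * e) → L p (dv p e) (sgn p e)) :
    ∃ S : Finset X, S.card ≤ 2 ^ (OP.card + 1) * N1 m L ∧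
      ∀ P, ∃ s ∈ S, IsSquare (x P * x s) := by
  classical
  set F : Finset ℕ := (m.divisors).filter (fun d : ℕ =>
    ∀ p ∈ m.primeFactors, L p (dv p d) (sgn p d)) with hF
  have hFcard : F.card = N1 m L := by
    unfold N1
    rw [hF]
  let out : X → Bool × (OP → Bool) := fun P =>
    (decide (0 < x P), fun q => decide (Even (padicValRat q.1 (x P))))
  have hcmp : ∀ P P' : X, out P = out P' → (0 < x P ↔ 0 < x P') ∧
      (∀ q : ℕ, q.Prime → ¬ q ∣ m →
        (Even (padicValRat q (x P)) ↔ Even (padicValRat q (x P')))) := by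
    intro P P' ho
    have h1 : decide (0 < x P) = decide (0 < x P') := congrArg Prod.fst ho
    refine ⟨decide_eq_decide.mp h1, fun q hq hqm => ?_⟩
    by_cases hD : q ∈ OP
    · have h4 := congrFun (congrArg Prod.snd ho) ⟨q, hD⟩
      exact decide_eq_decide.mp h4
    · exact ⟨fun _ => hgood q hq hqm hD P', fun _ => hgood q hq hqm hD P⟩
  have hsqs : ∀ P P' : X, out P = out P' →
      IsSquare (x P * x P' * (dd m (x P) (x P') : ℚ)) := by
    intro P P' ho
    obtain ⟨c1, c2⟩ := hcmp P P' ho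
    exact dd_sq m hm _ _ (hx0 P) (hx0 P') c1 (fun q hq hqm => c2 q hq hqm)
  have hFmem : ∀ P P' : X, out P = out P' → dd m (x P) (x P') ∈ F := by
    intro P P' ho
    have s1 := hsqs P P' ho
    rw [hF, Finset.mem_filter]
    refine ⟨Nat.mem_divisors.mpr ⟨dd_dvd m hm _ _, hm.ne_zero⟩, fun p hp => ?_⟩
    rw [Nat.mem_primeFactors] at hp
    obtain ⟨e1, he1, hxe1⟩ := exists_rep (x P) (hx0 P)
    obtain ⟨f1, hf1, hxf1⟩ := exists_rep (x P') (hx0 P')
    have l1 := hloc p hp.1 hp.2.1 P e1 he1 hxe1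
    have l2 := hloc p hp.1 hp.2.1 P' f1 hf1 hxf1
    obtain ⟨k1, k2⟩ := dd_key m hm _ _ (hx0 P) (hx0 P') s1 e1 f1 he1 hf1 hxe1 hxf1 p hp.1
    rw [k1, k2]
    exact hLx p hp.1 hp.2.1 _ _ _ _ l1 l2
  by_cases hXn : Nonempty X
  · let rep : Bool × (OP → Bool) → X := Function.invFun out
    have hrep : ∀ P : X, out (rep (out P)) = out P := fun P => Function.invFun_eq ⟨P, rfl⟩
    let key : X → (Bool × (OP → Bool)) × ℕ := fun P => (out P, dd m (x P) (x (rep (out P))))
    refine ⟨((Finset.univ : Finset (Bool × (OP → Bool))) ×ˢ F).image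
      (fun k => Function.invFun key k), ?_, ?_⟩
    · refine Finset.card_image_le.trans ?_
      rw [Finset.card_product, Finset.card_univ, hFcard, Fintype.card_prod, Fintype.card_bool,
        Fintype.card_fun, Fintype.card_bool, Fintype.card_coe, pow_succ, mul_comm (2 ^ OP.card) 2]
    · intro P
      have hkeyF : key P ∈ (Finset.univ : Finset (Bool × (OP → Bool))) ×ˢ F := by
        rw [Finset.mem_product]
        exact ⟨Finset.mem_univ _, hFmem P _ (hrep P).symm⟩
      set P2 : X := Function.invFun key (key P) with hP2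
      have hkey2 : key P2 = key P := Function.invFun_eq ⟨P, rfl⟩
      have ho2 : out P2 = out P := congrArg Prod.fst hkey2
      have ht1 : dd m (x P2) (x (rep (out P2))) = dd m (x P) (x (rep (out P))) :=
        congrArg (fun z => z.2) hkey2
      refine ⟨P2, mem_image.2 ⟨key P, hkeyF, rfl⟩, ?_⟩
      set R : X := rep (out P) with hR
      rw [ho2] at ht1
      have s1 := hsqs P R (hrep P).symm
      have s3 := hsqs P2 R (ho2.trans (hrep P).symm)
      rw [ht1] at s3
      have hd1 : dd m (x P) (x R) ≠ 0 := (hm.squarefree_of_dvd (dd_dvd m hm _ _)).ne_zero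
      have hd' : (dd m (x P) (x R) : ℚ) ≠ 0 := by exact_mod_cast hd1
      apply Pool.Agent.W599.RK.IsSquare.cancel
        (a := (x R * (dd m (x P) (x R) : ℚ)) ^ 2) (IsSquare.sq _)
      · have h3 := s1.mul s3
        have e : (x R * (dd m (x P) (x R) : ℚ)) ^ 2 * (x P * x P2) =
            x P * x R * (dd m (x P) (x R) : ℚ) * (x P2 * x R * (dd m (x P) (x R) : ℚ)) := by
          ring
        rw [e]
        exact h3
      · exact pow_ne_zero 2 (mul_ne_zero (hx0 R) hd')
  · refine ⟨∅, by simp, fun P => absurd ⟨P⟩ hXn⟩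

/-- a norm from a ramified quadratic extension of the `p`-adic numbers -/
lemma loc_norm {p : ℕ} [hp : Fact p.Prime] (hp2 : p ≠ 2) {D a b X : ℚ} (hD : D ≠ 0)
    (hodd : ¬ Even (padicValRat p D)) (hX : X ≠ 0) (he : X = a ^ 2 - D * b ^ 2) :
    IsSquare ((X : ℚ) : ℚ_[p]) ∨ IsSquare ((X * (-D) : ℚ) : ℚ_[p]) := by
  have hDc : ((D : ℚ) : ℚ_[p]) ≠ 0 := by exact_mod_cast hD
  by_cases ha : a = 0
  · right
    refine ⟨D * b, ?_⟩
    rw [he, ha]
    push_cast
    ring
  by_cases hb : b = 0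
  · left
    refine ⟨a, ?_⟩
    rw [he, hb]
    push_cast
    ring
  have ha2 : a ^ 2 ≠ 0 := pow_ne_zero 2 ha
  have hb2 : b ^ 2 ≠ 0 := pow_ne_zero 2 hb
  have hac : ((a : ℚ) : ℚ_[p]) ≠ 0 := by exact_mod_cast ha
  have hbc : ((b : ℚ) : ℚ_[p]) ≠ 0 := by exact_mod_cast hb
  have va : padicValRat p (a ^ 2) = 2 * padicValRat p a := by
    rw [padicValRat.pow]
    norm_num
  have vb : padicValRat p (D * b ^ 2) = padicValRat p D + 2 * padicValRat p b := by
    rw [padicValRat.mul hD hb2, padicValRat.pow]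
    norm_num
  have hne : 2 * padicValRat p a ≠ padicValRat p D + 2 * padicValRat p b := by
    intro h
    exact hodd ⟨padicValRat p a - padicValRat p b, by omega⟩
  rcases lt_or_gt_of_ne hne with h | h
  · left
    obtain ⟨z, hz⟩ := isSquare_one_add_rat (p := p) hp2 (-(D * b ^ 2) / a ^ 2) (Or.inr (by
      rw [padicValRat.div (neg_ne_zero.2 (mul_ne_zero hD hb2)) ha2, padicValRat.neg, va, vb]
      omega))
    refine ⟨a * z, ?_⟩
    have hz' : (a : ℚ_[p]) ^ 2 * (z * z) = a ^ 2 - D * b ^ 2 := by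
      rw [← hz]
      push_cast
      field_simp
      ring
    rw [he]
    push_cast
    linear_combination -hz'
  · right
    obtain ⟨z, hz⟩ := isSquare_one_add_rat (p := p) hp2 (-(a ^ 2) / (D * b ^ 2)) (Or.inr (by
      rw [padicValRat.div (neg_ne_zero.2 ha2) (mul_ne_zero hD hb2), padicValRat.neg, va, vb]
      omega))
    refine ⟨D * b * z, ?_⟩
    have hz' : (D : ℚ_[p]) ^ 2 * b ^ 2 * (z * z) = -D * (a ^ 2 - D * b ^ 2) := by
      rw [← hz]
      push_cast
      field_simp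
      ring
    rw [he]
    push_cast
    linear_combination -hz'

/-- the local condition -/
lemma local_cond {p : ℕ} [hp : Fact p.Prime] {D : ℚ} {κ F : ℤ} (hD : D ≠ 0)
    (hDF : IsSquare (D * ((κ * F : ℤ) : ℚ))) (hκ : ¬ (p : ℤ) ∣ κ) (hF1 : (p : ℤ) ∣ F)
    (hF2 : ¬ (p : ℤ) ^ 2 ∣ F) {neg : Bool} (hneg : neg = true ↔ jacobiSym (F / p) p = -1)
    {x : ℚ} (hx : x ≠ 0) (hor : IsSquare ((x : ℚ) : ℚ_[p]) ∨ IsSquare ((x * D : ℚ) : ℚ_[p]))
    {e : ℤ} (hsf : Squarefree e)
    (hxe : IsSquare ((x * e : ℚ) : ℚ_[p])) : L1 κ neg p (dv p e) (sgn p e) := by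
  have hpi : Prime (p : ℤ) := Nat.prime_iff_prime_int.1 hp.out
  have hp0 : (p : ℤ) ≠ 0 := hpi.ne_zero
  have he2 : ¬ (p : ℤ) ^ 2 ∣ e := by
    intro h
    have h1 := hsf (p : ℤ) (by rw [← pow_two]; exact h)
    exact hpi.not_isUnit h1
  have hkF : ¬ (p : ℤ) ^ 2 ∣ κ * F := by
    intro h
    have hco : IsCoprime ((p : ℤ) ^ 2) κ :=
      IsCoprime.pow_left ((Prime.coprime_iff_not_dvd hpi).2 hκ)
    exact hF2 (hco.dvd_of_dvd_mul_left h)
  obtain ⟨q, hq⟩ := hF1
  have hnq : ¬ (p : ℤ) ∣ q := by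
    intro h
    apply hF2
    rw [hq, pow_two]
    exact mul_dvd_mul_left _ h
  rcases hor with h | h
  · have h1 := cmpx (p := p) (f := 1) hx he2 (by
      intro h2
      have := Int.isUnit_iff.1 (isUnit_of_dvd_one h2)
      have h3 := hp.out.one_lt
      rcases this with h4 | h4
      · nlinarith
      · nlinarith) hxe (by simpa using h)
    rw [dv_unit not_dvd_one, sgn_unit not_dvd_one, sg0_one] at h1
    rw [h1.1, h1.2]
    exact L1_zero _ _ _
  · have hxk : IsSquare ((x * ((κ * F : ℤ)) : ℚ) : ℚ_[p]) := by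
      obtain ⟨a, ha⟩ := h
      obtain ⟨b, hb⟩ := hDF.map (Rat.castHom ℚ_[p])
      have hDc : ((D : ℚ) : ℚ_[p]) ≠ 0 := by exact_mod_cast hD
      refine ⟨a * b / D, ?_⟩
      have hb' : ((D : ℚ) : ℚ_[p]) * (((κ * F : ℤ) : ℚ) : ℚ_[p]) = b * b := by
        rw [← hb]
        show _ = (((D * ((κ * F : ℤ) : ℚ)) : ℚ) : ℚ_[p])
        rw [Rat.cast_mul]
      have ha' : ((x : ℚ) : ℚ_[p]) * D = a * a := by
        rw [← ha]; push_cast; ring
      rw [Rat.cast_mul]
      field_simp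
      linear_combination ((D : ℚ) : ℚ_[p]) * (((κ * F : ℤ) : ℚ) : ℚ_[p]) * ha' + a * a * hb'
    have h1 := cmpx (p := p) (f := κ * F) hx he2 hkF hxe hxk
    have e1 : κ * F = (p : ℤ) * (κ * q) := by rw [hq]; ring
    rw [e1, dv_mul, sgn_mul, sg0_mul hκ hnq] at h1
    have hq2 : F / p = q := by rw [hq, Int.mul_ediv_cancel_left _ hp0]
    rw [hq2] at hneg
    have h5 : sg0 p q = neg := by
      unfold sg0
      by_cases h6 : neg = true
      · rw [h6, decide_eq_true_eq]; exact hneg.1 h6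
      · have h7 : ¬ jacobiSym q p = -1 := fun h8 => h6 (hneg.2 h8)
        rw [Bool.not_eq_true] at h6
        rw [h6, decide_eq_false_iff_not]; exact h7
    rw [h1.1, h1.2, h5]
    unfold L1
    cases neg <;> cases sg0 p κ <;> rfl

/-- the bound by the local count -/
theorem bound {K : Type} [Field K] [NumberField K] {F : ℤ} {θ : K} (h : Quad K F θ) (s : ℕ)
    (hs : Squarefree s) (OP : Finset ℕ) (E : Finset ℕ)
    (hs2 : ∀ p, p.Prime → p ∣ s → p ≠ 2 ∧ (p : ℤ) ∣ F ∧ ¬ (p : ℤ) ^ 2 ∣ F)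
    (hOP : ∀ q, q.Prime → ¬ q ∣ s → q ∉ OP → q ≠ 2 ∧ ¬ (q : ℤ) ∣ F)
    (hE : ∀ p, p.Prime → p ∣ s → (p ∈ E ↔ jacobiSym (F / p) p = -1)) :
    Nat.card (S4 K) ≤ 4 ^ (OP.card + 1) * NL s (LE (fun _ => 1) E) := by
  classical
  have hF0 := h.D_ne
  have hFq : (F : ℚ) ≠ 0 := by exact_mod_cast hF0
  set XT : Type := {c : S4 K // Pos (c : ClassGroup (𝓞 K))} with hXT
  have hdat : ∀ c : XT, ∃ X : ℤ, Dat K F ((c.1 : S4 K) : ClassGroup (𝓞 K)) X := fun c =>
    h.dat c.2
  choose X hX using hdat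
  set L : ℕ → Bool → Bool → Prop := fun p => L1 (-1) (decide (p ∈ E)) p with hL
  have hval : ∀ p : ℕ, p.Prime → p ∣ s → ¬ Even (padicValRat p (F : ℚ)) := by
    intro p hp hps
    have : Fact p.Prime := ⟨hp⟩
    obtain ⟨h2, ⟨q, hq⟩, h4⟩ := hs2 p hp hps
    have hnq : ¬ (p : ℤ) ∣ q := by
      intro h
      apply h4
      rw [hq, pow_two]
      exact mul_dvd_mul_left _ h
    have hq0 : q ≠ 0 := by rintro rfl; exact hnq (dvd_zero _)
    have hpq : ((p : ℕ) : ℚ) ≠ 0 := by exact_mod_cast hp.ne_zero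
    rw [hq]
    push_cast
    rw [padicValRat.mul hpq (by exact_mod_cast hq0), v_int hnq, padicValRat.self hp.one_lt]
    norm_num
  obtain ⟨S, hS1, hS2⟩ := reps (fun c : XT => ((X c : ℤ) : ℚ)) s hs OP L
    (fun p _ _ a b c d h2 h3 => L1_xor h2 h3)
    (fun c => by exact_mod_cast (hX c).ne)
    (fun q hq hqs hqO c => by
      obtain ⟨h2, h3⟩ := hOP q hq hqs hqO
      exact h.dat_even (hX c) hq h2 h3)
    (fun p hp hps c e hsf hxe => by
      have : Fact p.Prime := ⟨hp⟩
      obtain ⟨h2, h3, h4⟩ := hs2 p hp hps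
      obtain ⟨a, b, hab⟩ := (hX c).form
      have hone : ¬ (p : ℤ) ∣ -1 := by
        rw [Int.dvd_neg]
        intro h5
        have := Nat.le_of_dvd one_pos (Int.natCast_dvd_natCast.1 (by simpa using h5))
        have := hp.one_lt
        omega
      refine local_cond (D := -(F : ℚ)) (κ := -1) (F := F) (neg_ne_zero.2 hFq)
        ⟨F, by push_cast; ring⟩ hone h3 h4 ?_ (by exact_mod_cast (hX c).ne)
        (loc_norm h2 hFq (hval p hp hps) (by exact_mod_cast (hX c).ne) hab) hsf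
        (hxe.map (Rat.castHom ℚ_[p]))
      rw [decide_eq_true_eq]
      exact hE p hp hps)
  have hall : ∀ c : XT, c ∈ S := by
    intro c
    obtain ⟨c', hc', hsq⟩ := hS2 c
    have h1 : IsSquare (X c * X c') := by
      have h2 : IsSquare ((X c * X c' : ℤ) : ℚ) := by exact_mod_cast hsq
      exact Rat.isSquare_intCast_iff.1 h2
    have h2 := dat_inj (hX c) (hX c') c'.1.2.1 h1
    have h3 : c = c' := Subtype.ext (Subtype.ext h2)
    rw [h3]
    exact hc'
  have hXTle : Nat.card XT ≤ S.card := by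
    have : Fintype XT := Fintype.ofFinite _
    rw [Nat.card_eq_fintype_card]
    have h1 : (Finset.univ : Finset XT) ⊆ S := fun c _ => hall c
    simpa using card_le_card h1
  have hN : N1 s L ≤ NL s (LE (fun _ => 1) E) := by
    have h1 := one_le_N1 s hs.ne_zero (fun p => L1 1 (decide (p ∈ E)) p)
      (fun p _ _ => L1_zero _ _ _)
    have h2 := N1_mul s (fun p => L1 1 (decide (p ∈ E)) p) L (LE (fun _ => 1) E)
      (fun p hp _ v w u g h2 h3 => LLcc hp (by
        intro h5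
        have := Nat.le_of_dvd one_pos (Int.natCast_dvd_natCast.1 (by simpa using h5))
        have := hp.one_lt
        omega) h2 h3)
    exact (Nat.le_mul_of_pos_left _ h1).trans h2
  calc Nat.card (S4 K) ≤ 2 * Nat.card XT := card_S4
    _ ≤ 2 * S.card := by omega
    _ ≤ 2 * (2 ^ (OP.card + 1) * NL s (LE (fun _ => 1) E)) :=
        Nat.mul_le_mul_left _ (hS1.trans (Nat.mul_le_mul_left _ hN))
    _ = 2 * 2 ^ (OP.card + 1) * NL s (LE (fun _ => 1) E) := by ring
    _ ≤ _ := by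
        refine Nat.mul_le_mul_right _ ?_
        rw [show (4 : ℕ) = 2 * 2 from rfl, mul_pow]
        refine Nat.mul_le_mul_right _ ?_
        calc 2 = 2 ^ 1 := rfl
          _ ≤ _ := Nat.pow_le_pow_right (by norm_num) (by omega)

end Run7.h69.CL
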