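import Mathlib
import Pool.Agent.Run7.h69.CL4
import Pool.Agent.Run7.h69.GM

/-!
# All moments of the 4-rank of the class groups of quadratic fields in polynomial families
-/

set_option autoImplicit false
set_option linter.unusedSectionVars false

namespace Run7.h69.CL

open Finset Polynomial NumberField
open Pool.Agent.W262.RK hiding lk ff s1 s2

/-- the field generated by the square roots of `d` -/
abbrev KF (d : ℤ) : Type := ((X : ℚ[X]) ^ 2 - C (d : ℚ)).SplittingField

instance (d : ℤ) : NumberField (KF d) := NumberField.of_module_finite ℚ (KF d)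

lemma rat_sq {d : ℤ} (hd : ¬ IsSquare d) : ¬ ∃ q : ℚ, q ^ 2 = d := by
  rintro ⟨q, hq⟩
  apply hd
  rw [← Rat.isSquare_intCast_iff]
  exact ⟨q, by rw [← hq, pow_two]⟩

lemma exists_root (d : ℤ) : ∃ θ : KF d, θ ^ 2 = (d : KF d) := by
  have hdeg : ((X : ℚ[X]) ^ 2 - C (d : ℚ)).degree ≠ 0 := by
    rw [degree_X_pow_sub_C (by norm_num)]
    norm_num
  obtain ⟨θ, hθ⟩ := (SplittingField.splits ((X : ℚ[X]) ^ 2 - C (d : ℚ))).exists_eval_eq_zero
    (by rwa [degree_map])
  refine ⟨θ, ?_⟩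
  rw [eval_map, eval₂_sub, eval₂_pow, eval₂_X, eval₂_C, sub_eq_zero] at hθ
  rw [hθ]
  simp

lemma isSF (d : ℤ) : @IsSplittingField ℚ (KF d) _ _ DivisionRing.toRatAlgebra
    ((X : ℚ[X]) ^ 2 - C (d : ℚ)) := by
  have h := IsSplittingField.splittingField ((X : ℚ[X]) ^ 2 - C (d : ℚ))
  convert h
  exact Subsingleton.elim _ _

lemma finrank_KF {d : ℤ} (hd : ¬ IsSquare d) : Module.finrank ℚ (KF d) = 2 := by
  obtain ⟨θ, hθ⟩ := exists_root d
  have hirr : Irreducible ((X : ℚ[X]) ^ 2 - C (d : ℚ)) :=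
    X_pow_sub_C_irreducible_of_prime Nat.prime_two (fun b hb => rat_sq hd ⟨b, hb⟩)
  have hmon : ((X : ℚ[X]) ^ 2 - C (d : ℚ)).Monic := monic_X_pow_sub_C _ (by norm_num)
  have hev : aeval θ ((X : ℚ[X]) ^ 2 - C (d : ℚ)) = 0 := by
    rw [map_sub, map_pow, aeval_X, aeval_C, hθ]
    simp
  have hmin : minpoly ℚ θ = (X : ℚ[X]) ^ 2 - C (d : ℚ) :=
    (minpoly.eq_of_irreducible_of_monic hirr hev hmon).symm
  have htop : IntermediateField.adjoin ℚ {θ} = ⊤ := by
    rw [eq_top_iff]
    intro x _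
    have hx : x ∈ Algebra.adjoin ℚ (((X : ℚ[X]) ^ 2 - C (d : ℚ)).rootSet (KF d)) := by
      have h1 := @IsSplittingField.adjoin_rootSet ℚ (KF d) _ _ DivisionRing.toRatAlgebra
        ((X : ℚ[X]) ^ 2 - C (d : ℚ)) (isSF d)
      rw [h1]
      trivial
    have hle : Algebra.adjoin ℚ (((X : ℚ[X]) ^ 2 - C (d : ℚ)).rootSet (KF d)) ≤
        (IntermediateField.adjoin ℚ {θ}).toSubalgebra := by
      rw [Algebra.adjoin_le_iff]
      intro y hy
      have h1 : y ^ 2 = θ ^ 2 := by
        have h2 := (mem_rootSet.1 hy).2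
        rw [map_sub, map_pow, aeval_X, aeval_C, sub_eq_zero] at h2
        rw [h2, hθ]
        simp
      have hθm : θ ∈ IntermediateField.adjoin ℚ {θ} := IntermediateField.mem_adjoin_simple_self ℚ θ
      rcases sq_eq_sq_iff_eq_or_eq_neg.1 h1 with h2 | h2
      · rw [h2]; exact hθm
      · rw [h2]; exact neg_mem hθm
    exact hle hx
  have h1 := IntermediateField.adjoin.finrank (K := ℚ) (x := θ)
    (Algebra.IsIntegral.isIntegral θ)
  rw [htop, hmin, natDegree_X_pow_sub_C, IntermediateField.finrank_top'] at h1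
  exact h1

/-- the square root of `h(t)` in the field generated by the square root of `g(t) ^ 2 h(t)` -/
lemma quad {d e m : ℤ} (hd : ¬ IsSquare d) (he : d = m ^ 2 * e) : ∃ θ : KF d, Quad (KF d) e θ := by
  obtain ⟨θ, hθ⟩ := exists_root d
  have hd0 : d ≠ 0 := by
    rintro rfl
    exact hd ⟨0, by simp⟩
  have hm : m ≠ 0 := by
    rintro rfl
    rw [he] at hd0
    simp at hd0
  have hm' : (m : KF d) ≠ 0 := by exact_mod_cast hm
  refine ⟨θ / m, finrank_KF hd, ?_, ?_⟩
  · apply rat_sq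
    rintro ⟨r, hr⟩
    exact hd ⟨m * r, by rw [he, hr]; ring⟩
  · rw [div_pow, hθ, he]
    push_cast
    field_simp

/-- the number of the classes that are squares and of order two -/
noncomputable def q4 (d : ℤ) : ℝ := if IsSquare d then 0 else Nat.card (S4 (KF d))

lemma q4_or (d : ℤ) : 1 ≤ q4 d ∨ q4 d = 0 := by
  unfold q4
  split_ifs with h
  · exact Or.inr rfl
  · left
    have h1 : (1 : ClassGroup (𝓞 (KF d))) ∈ S4 (KF d) := ⟨by simp, ⟨1, by simp⟩⟩
    have : Nonempty (S4 (KF d)) := ⟨⟨1, h1⟩⟩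
    have h2 : 0 < Nat.card (S4 (KF d)) := Nat.card_pos
    exact_mod_cast h2

/-- the bound for the values of a polynomial -/
lemma bdd {f g h : ℤ[X]} (hfg : f = g ^ 2 * h) {z : ℕ} (hz : 2 ≤ z) :
    GM.Bdd h z (4 ^ (z + 1)) (fun t => q4 (f.eval t)) := by
  classical
  intro t y N hy h0 hN
  have hval : f.eval t = (g.eval t) ^ 2 * h.eval t := by
    rw [hfg, eval_mul, eval_pow]
  show q4 (f.eval t) ≤ _
  unfold q4
  split_ifs with hsq
  · positivity
  obtain ⟨θ, hθ⟩ := quad hsq hval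
  set F := h.eval t with hF
  set s := t1 h z y t with hs
  have hsd : s ∣ PP z y := NX.t1_dvd z y t
  have hs0 : s ≠ 0 := Nat.one_le_iff_ne_zero.1 (NX.dpos hsd)
  set OP : Finset ℕ := ((Icc 1 z) ∪ F.natAbs.primeFactors.filter (y < ·)) ∪
    (t2 h z y t).primeFactors with hOP
  have hd : QD.Dec h h 1 1 1 z := ⟨one_ne_zero, by simp; omega, by simp, one_dvd _⟩
  have hb := bound hθ s ((PP_squarefree z y).squarefree_of_dvd hsd) OP (ng h t s)
    (fun p hp hps => by
      obtain ⟨hzp, h2, h3⟩ := RK.t1_pf hp hps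
      exact ⟨by omega, h2, h3⟩)
    (fun q hq hqs hqO => by
      rw [hOP, mem_union, mem_union, not_or, not_or, mem_Icc] at hqO
      have hzq : z < q := by
        by_contra hc
        exact hqO.1.1 ⟨hq.one_lt.le, not_lt.1 hc⟩
      exact ⟨by omega, QD.out hd h0 hq hzq hqs hqO.1.2 hqO.2⟩)
    (fun p hp hps => by
      unfold ng
      rw [mem_filter, Nat.mem_primeFactors]
      exact ⟨fun h => h.2, fun h => ⟨⟨hp, hps, hs0⟩, h⟩⟩)
  have hlarge : (F.natAbs.primeFactors.filter (y < ·)).card ≤ N := by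
    set S := F.natAbs.primeFactors.filter (y < ·) with hS
    have h1 : (y + 1) ^ S.card ≤ ∏ q ∈ S, q :=
      Finset.pow_card_le_prod _ _ _ (fun q hq => by
        have := (mem_filter.1 hq).2
        omega)
    have h2 : ∏ q ∈ S, q ∣ F.natAbs :=
      (prod_dvd_prod_of_subset _ _ _ (filter_subset _ _)).trans (Nat.prod_primeFactors_dvd _)
    have h3 : ∏ q ∈ S, q ≤ F.natAbs :=
      Nat.le_of_dvd (Nat.pos_of_ne_zero (Int.natAbs_ne_zero.2 h0)) h2
    have h4 : (y + 1) ^ S.card < (y + 1) ^ N := (h1.trans h3).trans_lt hN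
    exact ((Nat.pow_lt_pow_iff_right (by omega)).1 h4).le
  have hc : OP.card ≤ z + N + (t2 h z y t).primeFactors.card := by
    rw [hOP]
    refine (card_union_le _ _).trans (add_le_add
      ((card_union_le _ _).trans (add_le_add ?_ hlarge)) le_rfl)
    simp
  have hb2 : Nat.card (S4 (KF (f.eval t))) ≤ 4 ^ (z + 1) * 4 ^ N *
      4 ^ ((t2 h z y t).primeFactors.card) * NL s (LE (fun _ => 1) (ng h t s)) := by
    refine hb.trans (Nat.mul_le_mul_right _ ?_)
    calc (4 : ℕ) ^ (OP.card + 1) ≤ 4 ^ ((z + 1) + N + (t2 h z y t).primeFactors.card) :=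
          Nat.pow_le_pow_right (by norm_num) (by omega)
      _ = _ := by rw [pow_add, pow_add]
  exact_mod_cast hb2

/-- the constant families -/
lemma const {f g h : ℤ[X]} (hfg : f = g ^ 2 * h) (hd : h.natDegree = 0) :
    ∃ B : ℝ, ∀ t, q4 (f.eval t) ≤ B := by
  classical
  obtain ⟨c, hc⟩ := natDegree_eq_zero.1 hd
  by_cases hc0 : c = 0
  · refine ⟨0, fun t => ?_⟩
    unfold q4
    rw [if_pos]
    rw [hfg, ← hc, hc0]
    simp
  refine ⟨4 ^ ((2 * c).natAbs.primeFactors.card + 1) * NL 1 (LE (fun _ => 1) ∅), fun t => ?_⟩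
  have hval : f.eval t = (g.eval t) ^ 2 * c := by
    rw [hfg, eval_mul, eval_pow, ← hc, eval_C]
  unfold q4
  split_ifs with hsq
  · positivity
  obtain ⟨θ, hθ⟩ := quad hsq hval
  have hb := bound hθ 1 squarefree_one ((2 * c).natAbs.primeFactors) ∅
    (fun p hp hps => absurd (Nat.dvd_one.1 hps) hp.ne_one)
    (fun q hq hqs hqO => by
      rw [Nat.mem_primeFactors] at hqO
      have h2c : (2 * c).natAbs ≠ 0 := Int.natAbs_ne_zero.2 (mul_ne_zero two_ne_zero hc0)
      refine ⟨?_, ?_⟩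
      · rintro rfl
        apply hqO
        refine ⟨Nat.prime_two, ?_, h2c⟩
        rw [← Int.natCast_dvd]
        exact Dvd.intro _ rfl
      · intro h3
        apply hqO
        refine ⟨hq, ?_, h2c⟩
        rw [← Int.natCast_dvd]
        exact h3.mul_left _)
    (fun p hp hps => absurd (Nat.dvd_one.1 hps) hp.ne_one)
  exact_mod_cast hb

/-- **the moments of the 4-rank** -/
theorem main (f : ℤ[X]) (k M : ℕ) :
    ∃ C : ℝ, ∀ (x : ℤ) (X : ℕ), 1 ≤ X → x.natAbs ≤ X ^ M →
      ∑ t ∈ (Ioc x (x + X)).filter (fun t => ¬ IsSquare (f.eval t)),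
        (Nat.card (S4 (KF (f.eval t))) : ℝ) ^ k ≤ C * X := by
  classical
  by_cases hf : f = 0
  · refine ⟨0, fun x X _ _ => ?_⟩
    have : (Ioc x (x + X)).filter (fun t => ¬ IsSquare (f.eval t)) = ∅ := by
      rw [filter_eq_empty_iff]
      intro t _ h
      apply h
      rw [hf]
      simp
    rw [this, sum_empty, zero_mul]
  obtain ⟨g, h, hfg, hsq, h0, hg0⟩ := UT.sq_mul f hf
  have hval : ∀ t : ℤ, f.eval t = (g.eval t) ^ 2 * h.eval t := by
    intro t
    rw [hfg, eval_mul, eval_pow]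
  have hle : ∀ (x : ℤ) (X : ℕ), ∑ t ∈ (Ioc x (x + X)).filter (fun t => ¬ IsSquare (f.eval t)),
        (Nat.card (S4 (KF (f.eval t))) : ℝ) ^ k ≤ ∑ t ∈ NX.II h x X, q4 (f.eval t) ^ k := by
    intro x X
    have e1 : ∀ t ∈ (Ioc x (x + X)).filter (fun t => ¬ IsSquare (f.eval t)),
        (Nat.card (S4 (KF (f.eval t))) : ℝ) ^ k = q4 (f.eval t) ^ k := by
      intro t ht
      rw [mem_filter] at ht
      unfold q4
      rw [if_neg ht.2]
    rw [sum_congr rfl e1]
    refine sum_le_sum_of_subset_of_nonneg ?_ fun t _ _ => ?_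
    · intro t ht
      rw [mem_filter] at ht
      unfold NX.II
      rw [mem_filter]
      refine ⟨ht.1, fun h2 => ht.2 ?_⟩
      rw [hval, h2]
      simp
    · rcases q4_or (f.eval t) with h1 | h1
      · exact pow_nonneg (by linarith) k
      · rw [h1]; positivity
  rcases Nat.eq_zero_or_pos h.natDegree with hd | hd
  · obtain ⟨B, hB⟩ := const hfg hd
    refine ⟨|B| ^ k, fun x X _ _ => (hle x X).trans ?_⟩
    calc ∑ t ∈ NX.II h x X, q4 (f.eval t) ^ k ≤ ∑ t ∈ NX.II h x X, |B| ^ k := by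
          refine sum_le_sum fun t _ => pow_le_pow_left₀ ?_ ((hB t).trans (le_abs_self B)) k
          rcases q4_or (f.eval t) with h1 | h1 <;> linarith
      _ = (NX.II h x X).card * |B| ^ k := by rw [sum_const, nsmul_eq_mul]
      _ ≤ X * |B| ^ k := by
          refine mul_le_mul_of_nonneg_right ?_ (by positivity)
          have h3 : (NX.II h x X).card ≤ X := by
            unfold NX.II
            refine (card_filter_le _ _).trans ?_
            rw [Int.card_Ioc]
            simp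
          exact_mod_cast h3
      _ = _ := mul_comm _ _
  · obtain ⟨z, hz, hmain⟩ := GM.main hsq h0 hd 2 k M
    obtain ⟨C, hC⟩ := hmain (4 ^ (z + 1)) (fun t => q4 (f.eval t)) (by positivity)
      (fun t => q4_or _) (bdd hfg hz)
    exact ⟨C, fun x X hX hx => (hle x X).trans (hC x X hX hx)⟩

end Run7.h69.CL
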