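import Mathlib
import Pool.Agent.Run7.h69.CL5

/-!
# The 4-rank as a quotient
-/

set_option autoImplicit false
set_option linter.unusedSectionVars false

namespace Run7.h69.CL

open Finset Polynomial NumberField

lemma four_two (A : Type) [CommGroup A] [Finite A] :
    Nat.card {c : A // c ^ 4 = 1} =
      Nat.card {c : A // c ^ 2 = 1} * Nat.card {c : A // c ^ 2 = 1 ∧ IsSquare c} := by
  set A4 : Subgroup A := (powMonoidHom 4 : A →* A).ker with hA4
  set φ : A4 →* A := (powMonoidHom 2 : A →* A).comp A4.subtype with hφ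
  have hm4 : ∀ c : A, c ∈ A4 ↔ c ^ 4 = 1 := fun c => by
    rw [hA4, MonoidHom.mem_ker, powMonoidHom_apply]
  have h1 := φ.ker.card_mul_index
  rw [Subgroup.index_ker] at h1
  have e4 : Nat.card A4 = Nat.card {c : A // c ^ 4 = 1} :=
    Nat.card_congr (Equiv.subtypeEquivRight hm4)
  have ek : Nat.card φ.ker = Nat.card {c : A // c ^ 2 = 1} := by
    refine Nat.card_congr ⟨fun c => ⟨(c.1 : A), ?_⟩, fun c => ⟨⟨c.1, ?_⟩, ?_⟩, ?_, ?_⟩
    · have h2 := c.2
      rw [MonoidHom.mem_ker] at h2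
      exact h2
    · rw [hm4]
      calc c.1 ^ 4 = (c.1 ^ 2) ^ 2 := by rw [← pow_mul]
        _ = 1 := by rw [c.2, one_pow]
    · rw [MonoidHom.mem_ker]
      exact c.2
    · intro c; rfl
    · intro c; rfl
  have er : Nat.card φ.range = Nat.card {c : A // c ^ 2 = 1 ∧ IsSquare c} := by
    refine Nat.card_congr (Equiv.subtypeEquivRight fun c => ?_)
    rw [MonoidHom.mem_range]
    constructor
    · rintro ⟨b, hb⟩
      have hb' : (b : A) ^ 2 = c := hb
      refine ⟨?_, b, by rw [← hb', pow_two]⟩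
      rw [← hb', ← pow_mul]
      exact (hm4 _).1 b.2
    · rintro ⟨h2, b, hb⟩
      refine ⟨⟨b, (hm4 _).2 ?_⟩, ?_⟩
      · calc b ^ 4 = (b * b) ^ 2 := by rw [← pow_two, ← pow_mul]
          _ = 1 := by rw [← hb, h2]
      · show b ^ 2 = c
        rw [hb, pow_two]
  rw [← e4, ← h1, ek, er]

/-- the quotient is the number of the classes of order two that are squares -/
lemma quot_eq (K : Type) [Field K] [NumberField K] :
    (Nat.card {c : ClassGroup (𝓞 K) // c ^ 4 = 1} : ℝ) /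
      Nat.card {c : ClassGroup (𝓞 K) // c ^ 2 = 1} = Nat.card (S4 K) := by
  have h1 := four_two (ClassGroup (𝓞 K))
  have h2 : 0 < Nat.card {c : ClassGroup (𝓞 K) // c ^ 2 = 1} := by
    have : Nonempty {c : ClassGroup (𝓞 K) // c ^ 2 = 1} := ⟨⟨1, by simp⟩⟩
    exact Nat.card_pos
  have h3 : (Nat.card {c : ClassGroup (𝓞 K) // c ^ 2 = 1} : ℝ) ≠ 0 := by
    exact_mod_cast h2.ne'
  rw [div_eq_iff h3, h1]
  push_cast
  rw [mul_comm]
  rfl

end Run7.h69.CL
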