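import Mathlib
import Pool.Agent.Run7.h69.EX
import Pool.Agent.Run7.h69.XP2

/-!
# Systems of several symbol conditions on divisors, the twist by the sign
-/

set_option autoImplicit false
set_option linter.unusedSectionVars false

namespace Run7.h69

open Finset
open Pool.Agent.W262.RK hiding lk ff s1 s2
open Pool.Agent.W762.RK2 (Pr Pr_prime sg sg_sg0 Jr_dvd_ne ind prod_ind avg)
open AT (k1)
open XP (bz zmod2 sz sz_zero sz_one sz_add sz_sum Jr_prod)

namespace JA

open EX (Bk dot ch)

variable {K : ℕ}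

/-- the local conditions -/
def Cb (kc : Fin K → Bk K → ℤ) (neg : Bool) (p : ℕ) (v h : Bk K) : Prop :=
  ∀ l, h l = xor (v l && neg) (sg0 p (kc l v))

open Classical in
/-- the number of the solutions; `E` is the set of the primes with negative sign -/
noncomputable def NJ (kc : Fin K → Bk K → ℤ) (s : ℕ) (E : Finset ℕ) : ℕ :=
  ((Fintype.piFinset (fun _ : Fin K => s.divisors)).filter (fun d => ∀ p ∈ s.primeFactors,
    Cb kc (decide (p ∈ E)) p (fun l => dv p (d l)) (fun l => sgn p (d l)))).card

/-- the average over the signs -/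
noncomputable def BJ (kc : Fin K → Bk K → ℤ) (s : ℕ) : ℝ :=
  (1 / 2) ^ s.primeFactors.card * ∑ E ∈ s.primeFactors.powerset, (NJ kc s E : ℝ)

lemma BJ_nonneg (kc : Fin K → Bk K → ℤ) (s : ℕ) : 0 ≤ BJ kc s := by
  unfold BJ
  positivity

/-- the local indicator -/
noncomputable def In (kc : Fin K → Bk K → ℤ) (d : Fin K → ℕ) (neg : Bool) (p : ℕ) : ℝ :=
  ind (Cb kc neg p (fun l => dv p (d l)) (fun l => sgn p (d l)))

lemma BJ_eq (kc : Fin K → Bk K → ℤ) (s : ℕ) :
    BJ kc s = ∑ d ∈ Fintype.piFinset (fun _ : Fin K => s.divisors),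
      ∏ p ∈ s.primeFactors, (In kc d true p + In kc d false p) / 2 := by
  classical
  have h1 : ∀ E : Finset ℕ, (NJ kc s E : ℝ) =
      ∑ d ∈ Fintype.piFinset (fun _ : Fin K => s.divisors),
        ∏ p ∈ s.primeFactors, In kc d (decide (p ∈ E)) p := by
    intro E
    unfold NJ
    rw [Finset.card_filter]
    push_cast
    refine Finset.sum_congr rfl fun d _ => ?_
    have h2 := prod_ind s.primeFactors fun p => Cb kc (decide (p ∈ E)) p
      (fun l => dv p (d l)) (fun l => sgn p (d l))
    unfold In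
    rw [h2]
    unfold ind
    congr
  unfold BJ
  rw [Finset.sum_congr rfl fun E _ => h1 E, Finset.sum_comm, Finset.mul_sum]
  refine Finset.sum_congr rfl fun d _ => ?_
  exact avg s.primeFactors s.primeFactors (Finset.Subset.refl _) (In kc d)
    (fun p hp hpA => absurd hp hpA)

/-- the constant of an index -/
def kq (kc : Fin K → Bk K → ℤ) (v x : Bk K) : ℤ := ∏ l, (if x l = true then kc l v else 1)

lemma one_id (v neg h c : Bool) :
    ind (h = xor (v && neg) c) = ∑ x : Bool, 1 / 2 * (if x = true then sg c else 1) *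
      (if neg = true then sz (bz x * bz v) else 1) * (if x = true then sg h else 1) := by
  have h11 : (1 : ZMod 2) + 1 = 0 := by decide
  cases v <;> cases neg <;> cases h <;> cases c <;>
    simp [ind, sg, bz, sz_zero, sz_one] <;> norm_num

lemma prod_sum_bool (f : Fin K → Bool → ℝ) : ∏ l, ∑ x : Bool, f l x = ∑ x : Bk K, ∏ l, f l (x l) := by
  rw [Finset.prod_univ_sum, Fintype.piFinset_univ]

lemma ind_all (P : Fin K → Prop) : ind (∀ l, P l) = ∏ l, ind (P l) := by
  classical
  unfold ind
  by_cases h : ∀ l, P l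
  · rw [if_pos h]
    exact (Finset.prod_eq_one fun l _ => if_pos (h l)).symm
  · rw [if_neg h]
    obtain ⟨l, hl⟩ := not_forall.1 h
    exact (Finset.prod_eq_zero (mem_univ l) (if_neg hl)).symm

/-- the local identity -/
lemma loc_id (kc : Fin K → Bk K → ℤ) {p : ℕ} (hp : p.Prime) (v h : Bk K)
    (hk : ∀ l, ¬ (p : ℤ) ∣ kc l v) :
    (ind (Cb kc true p v h) + ind (Cb kc false p v h)) / 2 =
      ∑ x : Bk K, if dot x v = 0 then (1 / 2) ^ K * Jr (kq kc v x) p * ch x h else 0 := by
  classical
  have h0 : ∀ neg : Bool, ind (Cb kc neg p v h) =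
      ∏ l, ind (h l = xor (v l && neg) (sg0 p (kc l v))) := by
    intro neg
    exact ind_all (fun l => h l = xor (v l && neg) (sg0 p (kc l v)))
  have h1 : ∀ neg : Bool, ind (Cb kc neg p v h) =
      ∑ x : Bk K, (1 / 2) ^ K * Jr (kq kc v x) p *
        (if neg = true then sz (dot x v) else 1) * ch x h := by
    intro neg
    rw [h0, prod_congr rfl fun l _ => one_id (v l) neg (h l) (sg0 p (kc l v)),
      prod_sum_bool]
    refine sum_congr rfl fun x _ => ?_
    rw [prod_mul_distrib, prod_mul_distrib, prod_mul_distrib, prod_const]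
    have h2 : ∏ l : Fin K, (if neg = true then sz (bz (x l) * bz (v l)) else 1) =
        if neg = true then sz (dot x v) else 1 := by
      cases neg
      · simp
      · simp only [if_true]
        unfold dot
        rw [sz_sum]
    have h3 : ∏ l : Fin K, (if x l = true then sg (sg0 p (kc l v)) else 1) =
        Jr (kq kc v x) p := by
      unfold kq
      rw [Jr_prod]
      refine prod_congr rfl fun l _ => ?_
      split_ifs
      · exact (Jr_dvd_ne hp (hk l)).symm
      · exact (AT.Jr_one_left p).symm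
    rw [h2, h3]
    unfold ch
    simp only [card_univ, Fintype.card_fin]
  rw [h1, h1, ← sum_add_distrib, sum_div]
  refine sum_congr rfl fun x _ => ?_
  simp only [if_true, Bool.false_eq_true, if_false]
  rcases zmod2 (dot x v) with h2 | h2
  · rw [h2, sz_zero, if_pos rfl]
    ring
  · rw [h2, sz_one, if_neg (by decide)]
    ring

/-- the index set -/
def IJ (K : ℕ) : Type := {i : Bk K × Bk K // dot i.2 i.1 = 0}

instance (K : ℕ) : Fintype (IJ K) := by unfold IJ; infer_instance

instance (K : ℕ) : DecidableEq (IJ K) := by unfold IJ; infer_instance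

/-- the vector -/
def vc (i : IJ K) : Bk K := i.1.1

/-- the character -/
def cr (i : IJ K) : Bk K := i.1.2

lemma dot_vc (i : IJ K) : dot (cr i) (vc i) = 0 := i.2

/-- the coefficient -/
noncomputable def aj (kc : Fin K → Bk K → ℤ) (b : ℕ → ℝ) (i : IJ K) (p : ℕ) : ℝ :=
  (1 / 2) ^ K * b p * Jr (kq kc (vc i) (cr i)) p

lemma sum_IJ (F : Bk K × Bk K → ℝ) :
    ∑ i : IJ K, F i.1 = ∑ w : Bk K × Bk K, if dot w.2 w.1 = 0 then F w else 0 := by
  rw [← Finset.sum_filter]
  exact (Finset.sum_subtype (univ.filter fun w : Bk K × Bk K => dot w.2 w.1 = 0)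
    (fun w => by simp) F).symm

lemma hT (kc : Fin K → Bk K → ℤ) (b : ℕ → ℝ) {p : ℕ} (hp : p.Prime)
    (hk : ∀ l v, ¬ (p : ℤ) ∣ kc l v) (v h : Bk K) :
    b p * ((ind (Cb kc true p v h) + ind (Cb kc false p v h)) / 2) =
      ∑ i, if vc i = v then aj kc b i p * ch (cr i) h else 0 := by
  classical
  rw [loc_id kc hp v h (fun l => hk l v), Finset.mul_sum]
  have h1 := sum_IJ (K := K) (fun w => if w.1 = v then
    (1 / 2) ^ K * b p * Jr (kq kc w.1 w.2) p * ch w.2 h else 0)
  have h2 : ∑ i : IJ K, (if vc i = v then aj kc b i p * ch (cr i) h else 0) =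
      ∑ i : IJ K, (fun w : Bk K × Bk K => if w.1 = v then
        (1 / 2) ^ K * b p * Jr (kq kc w.1 w.2) p * ch w.2 h else 0) i.1 := rfl
  rw [h2, h1, Fintype.sum_prod_type]
  symm
  refine (Finset.sum_eq_single v ?_ ?_).trans ?_
  · intro w _ hw
    refine sum_eq_zero fun x _ => ?_
    simp only [if_neg hw, ite_self]
  · intro h3
    exact absurd (mem_univ v) h3
  · refine sum_congr rfl fun x _ => ?_
    by_cases h3 : dot x v = 0
    · simp only [if_pos h3, if_true]
      ring
    · simp only [if_neg h3, mul_zero]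

/-- the link -/
def LJ (i i' : IJ K) : Bool := EX.LX vc cr i i'

lemma LJ_self (i : IJ K) : LJ i i = false := by
  unfold LJ EX.LX
  rw [decide_eq_false_iff_not, not_not]
  exact i.2

/-- the expansion -/
theorem expand (kc : Fin K → Bk K → ℤ) (b : ℕ → ℝ) {z : ℕ} (h0 : ∀ l v, kc l v ≠ 0)
    (hz : ∀ l v, (kc l v).natAbs ≤ z) (y : ℕ) :
    ∑ s ∈ (PP z y).divisors, BJ kc s * gm b s =
      ∑ d ∈ Tup (IJ K) z y, (∏ i, gm (aj kc b i) (d i)) *
        Pool.Agent.W262.RK.Sym LJ k1 d := by
  classical
  have h1 := EX.expand (k := K) (z := z) (κ := Empty) (fun m _ => m.elim) (vec := vc) (chr := cr)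
    dot_vc (a := aj kc b)
    (T := fun p v h => b p * ((ind (Cb kc true p v h) + ind (Cb kc false p v h)) / 2))
    (fun p hp hzp v h => hT kc b hp (fun l v hd => by
      have h3 := Nat.le_of_dvd (Int.natAbs_pos.mpr (h0 l v)) (Int.natCast_dvd.1 hd)
      have h4 := hz l v
      omega) v h) y
  have h2 : (Tup (IJ K) z y).filter (fun d => EX.okU (fun (m : Empty) (_ : Bk K) => m.elim) vc
      (BT.supp d)) = Tup (IJ K) z y := by
    refine filter_true_of_mem fun d _ => ?_
    intro m
    exact m.elim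
  rw [h2] at h1
  have h3 : ∀ s ∈ (PP z y).divisors, BJ kc s * gm b s =
      ∑ d ∈ Fintype.piFinset (fun _ : Fin K => s.divisors),
        (if EX.okD (fun (m : Empty) (_ : Bk K) => m.elim) s d then
          ∏ p ∈ s.primeFactors, (b p * ((ind (Cb kc true p (fun l => dv p (d l))
            (fun l => sgn p (d l))) + ind (Cb kc false p (fun l => dv p (d l))
            (fun l => sgn p (d l)))) / 2)) else 0) := by
    intro s _
    rw [BJ_eq, sum_mul]
    refine sum_congr rfl fun d _ => ?_
    have hok : EX.okD (fun (m : Empty) (_ : Bk K) => m.elim) s d := fun m => m.elim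
    rw [if_pos hok]
    unfold gm In
    rw [← prod_mul_distrib]
    exact prod_congr rfl fun p _ => mul_comm _ _
  rw [sum_congr rfl h3]
  exact h1

end JA

end Run7.h69
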