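import Mathlib
import Pool.Agent.Run7.h69.JA1
import Pool.Agent.Run7.h69.AV
import Pool.Agent.W125.RK2.SUBB

/-!
# The average of the number of the solutions of the symbol conditions
-/

set_option autoImplicit false
set_option linter.unusedSectionVars false

namespace Run7.h69

open Finset Polynomial
open Pool.Agent.W262.RK hiding lk ff s1 s2
open Pool.Agent.W655.RK (PS_prime PS_lt PS_le sum_inv_sq)
open Pool.Agent.W125.RK2 (sig sig_dvd sig_inj dv_sig sgn_sig card_div sum_inter)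
open AT (k1)
open XP (bz zmod2 sz sz_zero sz_one sz_add sz_sum Jr_prod)

namespace JA

open EX (Bk dot ch)

lemma two (x x' : Bool) :
    ∑ v : Bool, sz (bz x * bz v) * sz (bz x' * bz v) = if x = x' then 2 else 0 := by
  have h11 : (1 : ZMod 2) + 1 = 0 := by decide
  simp only [Fintype.sum_bool, bz]
  cases x <;> cases x' <;> simp [sz_zero, sz_one, h11] <;> norm_num

lemma bz_comm (x v : Bool) : bz x * bz v = bz v * bz x := mul_comm _ _

lemma sz_dot {k : ℕ} (x v : Bk k) : sz (dot x v) = ∏ l, sz (bz (x l) * bz (v l)) := by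
  unfold dot
  exact sz_sum _ _

lemma twok {k : ℕ} (x x' : Bk k) :
    ∑ v : Bk k, sz (dot x v) * sz (dot x' v) = if x = x' then 2 ^ k else 0 := by
  have h1 : ∀ v : Bk k, sz (dot x v) * sz (dot x' v) =
      ∏ l, (sz (bz (x l) * bz (v l)) * sz (bz (x' l) * bz (v l))) := by
    intro v
    rw [sz_dot, sz_dot, ← prod_mul_distrib]
  rw [sum_congr rfl fun v _ => h1 v]
  have h2 := Finset.prod_univ_sum (fun _ : Fin k => (univ : Finset Bool))
    (fun l w => sz (bz (x l) * bz w) * sz (bz (x' l) * bz w))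
  rw [Fintype.piFinset_univ] at h2
  rw [← h2]
  rw [prod_congr rfl fun l _ => two (x l) (x' l)]
  by_cases h : x = x'
  · rw [if_pos h, h]
    simp
  · rw [if_neg h]
    have : ∃ l, x l ≠ x' l := by
      by_contra hcon
      push Not at hcon
      exact h (funext hcon)
    obtain ⟨l, hl⟩ := this
    exact prod_eq_zero (mem_univ l) (if_neg hl)

/-- the sign of the alternating pairing -/
noncomputable def Ms {k : ℕ} (u w : Bk k × Bk k) : ℝ := sz (dot u.2 w.1) * sz (dot w.2 u.1)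

lemma dot_comm {k : ℕ} (x v : Bk k) : dot x v = dot v x := by
  unfold dot
  exact sum_congr rfl fun l _ => bz_comm _ _

lemma Ms_orth {k : ℕ} (u u' : Bk k × Bk k) :
    ∑ w : Bk k × Bk k, Ms u w * Ms u' w = if u = u' then 4 ^ k else 0 := by
  have h1 : ∀ w : Bk k × Bk k, Ms u w * Ms u' w =
      (sz (dot u.2 w.1) * sz (dot u'.2 w.1)) * (sz (dot u.1 w.2) * sz (dot u'.1 w.2)) := by
    intro w
    unfold Ms
    rw [dot_comm w.2 u.1, dot_comm w.2 u'.1]
    ring
  rw [sum_congr rfl fun w _ => h1 w, Fintype.sum_prod_type]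
  simp only
  rw [← sum_mul_sum, twok, twok]
  by_cases h2 : u.2 = u'.2
  · by_cases h3 : u.1 = u'.1
    · have h4 : u = u' := Prod.ext h3 h2
      rw [if_pos h2, if_pos h3, if_pos h4, ← mul_pow]
      norm_num
    · have h4 : u ≠ u' := fun h => h3 (by rw [h])
      rw [if_neg h3, if_neg h4, mul_zero]
  · have h4 : u ≠ u' := fun h => h2 (by rw [h])
    rw [if_neg h2, if_neg h4, zero_mul]

/-- the largest unlinked set -/
theorem comb {k : ℕ} (U : Finset (IJ k)) (hU : ∀ i ∈ U, ∀ j ∈ U, LJ i j = LJ j i) :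
    U.card ≤ 2 ^ k := by
  classical
  have hM : ∀ i ∈ U, ∀ j ∈ U, Ms i.1 j.1 = 1 := by
    intro i hi j hj
    have h := hU i hi j hj
    unfold LJ EX.LX vc cr at h
    have h2 : dot j.1.2 i.1.1 = dot i.1.2 j.1.1 := by
      have h3 := decide_eq_decide.1 h
      rcases zmod2 (dot j.1.2 i.1.1) with h4 | h4 <;> rcases zmod2 (dot i.1.2 j.1.1) with h5 | h5
      · rw [h4, h5]
      · rw [h4, h5] at h3
        exact absurd (h3.2 (by decide)) (by simp)
      · rw [h4, h5] at h3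
        exact absurd (h3.1 (by decide)) (by simp)
      · rw [h4, h5]
    unfold Ms
    rw [h2]
    rcases zmod2 (dot i.1.2 j.1.1) with h5 | h5 <;> rw [h5]
    · rw [sz_zero]; norm_num
    · rw [sz_one]; norm_num
  set S : Bk k × Bk k → ℝ := fun w => ∑ i ∈ U, Ms i.1 w with hS
  have h1 : ∑ w ∈ U, S w.1 = (U.card : ℝ) ^ 2 := by
    have : ∀ w ∈ U, S w.1 = U.card := by
      intro w hw
      simp only [hS]
      rw [sum_congr rfl fun i hi => hM i hi w hw]
      simp
    rw [sum_congr rfl this]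
    simp
    ring
  have h2 : ∑ w : Bk k × Bk k, S w ^ 2 = 4 ^ k * (U.card : ℝ) := by
    have e1 : ∀ w, S w ^ 2 = ∑ i ∈ U, ∑ j ∈ U, Ms i.1 w * Ms j.1 w := by
      intro w
      simp only [hS]
      rw [sq, sum_mul_sum]
    rw [sum_congr rfl fun w _ => e1 w, sum_comm]
    rw [sum_congr rfl fun i _ => sum_comm]
    have e2 : ∀ i ∈ U, ∑ j ∈ U, ∑ w : Bk k × Bk k, Ms i.1 w * Ms j.1 w = 4 ^ k := by
      intro i hi
      rw [sum_congr rfl fun j _ => Ms_orth i.1 j.1, sum_eq_single i]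
      · rw [if_pos rfl]
      · intro j _ hji
        rw [if_neg]
        intro h
        exact hji (Subtype.ext h.symm)
      · intro h
        exact absurd hi h
    rw [sum_congr rfl e2]
    simp
    ring
  have h3 : (∑ w ∈ U, S w.1) ^ 2 ≤ U.card * ∑ w ∈ U, S w.1 ^ 2 := by
    exact sq_sum_le_card_mul_sum_sq
  have h4 : ∑ w ∈ U, S w.1 ^ 2 ≤ ∑ w : Bk k × Bk k, S w ^ 2 := by
    have e1 : ∑ w ∈ U, S w.1 ^ 2 = ∑ w ∈ U.image (fun i : IJ k => i.1), S w ^ 2 := by
      rw [sum_image]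
      intro i _ j _ hij
      exact Subtype.ext hij
    rw [e1]
    exact sum_le_sum_of_subset_of_nonneg (subset_univ _) fun w _ _ => sq_nonneg _
  rw [h1] at h3
  rw [h2] at h4
  have h5 : ((U.card : ℝ) ^ 2) ^ 2 ≤ U.card * (4 ^ k * U.card) :=
    h3.trans (mul_le_mul_of_nonneg_left h4 (Nat.cast_nonneg _))
  rcases Nat.eq_zero_or_pos U.card with h6 | h6
  · rw [h6]; positivity
  have h7 : (0 : ℝ) < U.card := by exact_mod_cast h6
  have h8 : (U.card : ℝ) ^ 2 ≤ 4 ^ k := by
    have h9 : (U.card : ℝ) ^ 2 * (U.card : ℝ) ^ 2 ≤ 4 ^ k * (U.card : ℝ) ^ 2 := by nlinarith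
    exact le_of_mul_le_mul_right h9 (by positivity)
  have h10 : (U.card : ℝ) ^ 2 ≤ ((2 : ℝ) ^ k) ^ 2 := by
    calc (U.card : ℝ) ^ 2 ≤ 4 ^ k := h8
      _ = ((2 : ℝ) ^ k) ^ 2 := by rw [← pow_mul, mul_comm k 2, pow_mul]; norm_num
  have h11 : (U.card : ℝ) ≤ (2 : ℝ) ^ k := le_of_sq_le_sq h10 (by positivity)
  exact_mod_cast h11


lemma kq_ne {K : ℕ} {kc : Fin K → Bk K → ℤ} (h : ∀ l v, kc l v ≠ 0) (v x : Bk K) :
    kq kc v x ≠ 0 := by
  unfold kq
  refine prod_ne_zero_iff.2 fun l _ => ?_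
  split_ifs
  · exact h _ _
  · exact one_ne_zero

/-- the average is bounded by `(log y) ^ g` -/
theorem avg_bound (hb : BLW) {f : ℤ[X]} {z g k : ℕ} {kc : Fin k → Bk k → ℤ} (hz : Gd f z)
    (hg : 1 ≤ g)
    (hM : Mer f g) (hU : Utw f z) (h0 : ∀ l v, kc l v ≠ 0) (h1z : ∀ l v, (kc l v).natAbs ≤ z)
    (hκk : ∀ i : IJ k, (kq kc (vc i) (cr i)).natAbs ≤ z) (hk : 2 * f.natDegree ≤ 2 ^ k)
    (hk2 : 2 * g ≤ 2 ^ k) :
    ∃ C : ℝ, ∀ y, z < y → ∑ s ∈ (PP z y).divisors, BJ kc s * gm (br f) s ≤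
      C * (Real.log y) ^ g := by
  have hz2 : 2 ≤ z := by have := hz.big; omega
  have h4 : (0 : ℝ) < 2 ^ k := by positivity
  have hq : ((1 : ℝ) / 2) ^ k = 1 / 2 ^ k := by rw [div_pow, one_pow]
  have hgr : (1 : ℝ) ≤ g := by exact_mod_cast hg
  have hkr : 2 * (f.natDegree : ℝ) ≤ 2 ^ k := by exact_mod_cast hk
  have hk2r : 2 * (g : ℝ) ≤ 2 ^ k := by exact_mod_cast hk2
  obtain ⟨Cb, hCb0, hCb⟩ := sum_br hz hM
  obtain ⟨K, hK, hsq⟩ := sum_inv_sq
  set e : IJ k → ℝ := fun _ => (1 / 2) ^ k * g with he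
  set b : IJ k → ℕ → ℝ := fun _ p => (1 / 2) ^ k * br f p with hbdef
  obtain ⟨C, B, hB⟩ := AT.bd_of (ι := IJ k) (e := e) (a := fun i => aj kc (br f) i) (b := b)
    (z := z) hz2
    (fun i => by simp only [he]; positivity)
    (fun i => by
      simp only [he]
      rw [hq, one_div_mul_eq_div, div_le_iff₀ h4]
      linarith)
    (fun i p hp hpz => by
      have h1 := br_nonneg hz hp hpz
      simp only [hbdef, aj]
      rw [abs_mul, abs_of_nonneg (by positivity : 0 ≤ (1 / 2 : ℝ) ^ k * br f p)]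
      exact mul_le_of_le_one_right (by positivity) (abs_Jr_le _ _))
    (fun i p hp hpz => by
      have h1 := br_le hz hp hpz
      have hp0 : (0 : ℝ) < p := by exact_mod_cast hp.pos
      simp only [hbdef]
      rw [hq]
      calc 1 / 2 ^ k * br f p ≤ 1 / 2 ^ k * (2 * (f.natDegree : ℝ) * (1 / (p : ℝ))) :=
            mul_le_mul_of_nonneg_left h1 (by positivity)
        _ = (2 * (f.natDegree : ℝ) / 2 ^ k) * (1 / (p : ℝ)) := by ring
        _ ≤ 1 * (1 / (p : ℝ)) := by
            apply mul_le_mul_of_nonneg_right _ (by positivity)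
            rw [div_le_one h4]
            exact hkr
        _ = _ := one_mul _)
    (fun i => by
      refine ⟨(1 / 2) ^ k * Cb, fun y hy => ?_⟩
      simp only [hbdef, he]
      rw [← mul_sum, mul_assoc, ← mul_add]
      exact mul_le_mul_of_nonneg_left (hCb y hy) (by positivity))
    (fun i => by
      obtain ⟨B0, C1, h⟩ := hU (kq kc (vc i) (cr i)) (kq_ne h0 _ _) (hκk i)
      refine ⟨(1 / 2) ^ k * B0, (1 / 2) ^ k * (C1 + 2 * (f.natDegree : ℝ) ^ 2 * K),
        fun y r x hy hr hrs hrp => ?_⟩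
      have h1 := h y r x hy hr hrs hrp
      have h2 : ∑ p ∈ PS z y, aj kc (br f) i p * (Jr p r * x4 x p) ≤
          (1 / 2) ^ k * (∑ p ∈ PS z y, (rho f p : ℝ) / p * (Jr p r * Jr (kq kc (vc i) (cr i)) p * x4 x p) +
            2 * (f.natDegree : ℝ) ^ 2 * ∑ p ∈ PS z y, (1 / (p : ℝ) ^ 2)) := by
        rw [mul_sum, ← sum_add_distrib, mul_sum]
        apply sum_le_sum
        intro p hp
        obtain ⟨d1, d2, d3⟩ := br_diff hz (PS_prime hp) (PS_lt hp)
        set c : ℝ := Jr p r * Jr (kq kc (vc i) (cr i)) p * x4 x p with hc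
        have hc1 : |c| ≤ 1 := by
          rw [hc, abs_mul, abs_mul]
          exact mul_le_one₀ (mul_le_one₀ (abs_Jr_le _ _) (abs_nonneg _) (abs_Jr_le _ _))
            (abs_nonneg _) (abs_x4_le _ _)
        have hc2 := (abs_le.1 hc1)
        have e1 : aj kc (br f) i p * (Jr p r * x4 x p) = (1 / 2) ^ k * (br f p * c) := by
          unfold aj
          rw [hc]
          ring
        rw [e1]
        apply mul_le_mul_of_nonneg_left _ (by positivity)
        nlinarith
      refine h2.trans ?_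
      have e0 : (1 / 2 : ℝ) ^ k * B0 * Real.log (Real.log r) +
          (1 / 2) ^ k * (C1 + 2 * (f.natDegree : ℝ) ^ 2 * K) =
          (1 / 2) ^ k * (B0 * Real.log (Real.log r) + (C1 + 2 * (f.natDegree : ℝ) ^ 2 * K)) := by
        ring
      rw [e0]
      apply mul_le_mul_of_nonneg_left _ (by positivity)
      have h3 := mul_le_mul_of_nonneg_left (hsq (PS z y))
        (by positivity : 0 ≤ 2 * (f.natDegree : ℝ) ^ 2)
      linarith)
  obtain ⟨C', hC'⟩ := AT.main (L := LJ) hb hB LJ_self (g : ℝ) (by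
    intro U hU
    have h1 := comb U hU
    have h2 : (U.card : ℝ) ≤ 2 ^ k := by exact_mod_cast h1
    simp only [he]
    rw [sum_const, nsmul_eq_mul, hq]
    calc (U.card : ℝ) * (1 / 2 ^ k * g) = (U.card / 2 ^ k) * g := by ring
      _ ≤ 1 * g := by
          apply mul_le_mul_of_nonneg_right _ (by linarith)
          rw [div_le_one h4]
          exact h2
      _ = g := one_mul _)
  refine ⟨C', fun y hy => ?_⟩
  rw [expand kc (br f) h0 h1z]
  refine (le_trans (le_abs_self _) (hC' y hy)).trans (le_of_eq ?_)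
  rw [Real.rpow_natCast]


/-! ## submultiplicativity -/

/-- the constants are multiplicative up to squares -/
def Hm {K : ℕ} (kc : Fin K → Bk K → ℤ) : Prop := ∀ l v v', ∃ c : ℤ,
  kc l v * kc l v' = kc l (fun i => xor (v i) (v' i)) * c ^ 2

lemma sg0_mul {p : ℕ} (hp : p.Prime) {a b : ℤ} (ha : ¬ (p : ℤ) ∣ a) (hb : ¬ (p : ℤ) ∣ b) :
    sg0 p (a * b) = xor (sg0 p a) (sg0 p b) := by
  unfold sg0
  rw [jacobiSym.mul_left]
  have h : ∀ c : ℤ, ¬ (p : ℤ) ∣ c → jacobiSym c p = 1 ∨ jacobiSym c p = -1 := by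
    intro c hc
    apply jacobiSym.eq_one_or_neg_one
    have h1 : (p : ℕ).Coprime c.natAbs :=
      (Nat.Prime.coprime_iff_not_dvd hp).2 fun h3 => hc (Int.natCast_dvd.2 h3)
    exact h1.symm
  rcases h a ha with h1 | h1 <;> rcases h b hb with h2 | h2 <;> rw [h1, h2] <;> decide

lemma sg0_sq {p : ℕ} (hp : p.Prime) {a c : ℤ} (ha : ¬ (p : ℤ) ∣ a) (hc : ¬ (p : ℤ) ∣ c) :
    sg0 p (a * c ^ 2) = sg0 p a := by
  have hc2 : ¬ (p : ℤ) ∣ c * c := fun h =>
    ((Nat.prime_iff_prime_int.1 hp).dvd_or_dvd h).elim hc hc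
  rw [sq, sg0_mul hp ha hc2, sg0_mul hp hc hc]
  cases sg0 p a <;> cases sg0 p c <;> rfl

lemma Cb_xor {K : ℕ} {kc : Fin K → Bk K → ℤ} (hm : Hm kc) {p : ℕ} (hp : p.Prime)
    (hk : ∀ l v, ¬ (p : ℤ) ∣ kc l v) {neg : Bool} {v v' h h' : Bk K} (h1 : Cb kc neg p v h)
    (h2 : Cb kc neg p v' h') :
    Cb kc neg p (fun i => xor (v i) (v' i)) (fun i => xor (h i) (h' i)) := by
  intro l
  obtain ⟨c, hc⟩ := hm l v v'
  have hnn : ¬ (p : ℤ) ∣ kc l v * kc l v' := fun h3 =>
    ((Nat.prime_iff_prime_int.1 hp).dvd_or_dvd h3).elim (hk _ _) (hk _ _)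
  have hcn : ¬ (p : ℤ) ∣ c := fun h3 => hnn (by
    rw [hc, sq]
    exact Dvd.dvd.mul_left (Dvd.dvd.mul_left h3 _) _)
  have h3 : xor (sg0 p (kc l v)) (sg0 p (kc l v')) = sg0 p (kc l (fun i => xor (v i) (v' i))) := by
    rw [← sg0_mul hp (hk _ _) (hk _ _), hc, sg0_sq hp (hk _ _) hcn]
  have h4 := h1 l
  have h5 := h2 l
  simp only
  rw [h4, h5, ← h3]
  cases v l <;> cases v' l <;> cases neg <;> cases sg0 p (kc l v) <;> cases sg0 p (kc l v') <;> rfl

open Classical in
lemma subJ {K : ℕ} {kc : Fin K → Bk K → ℤ} (hm : Hm kc) {s e : ℕ} (E : Finset ℕ)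
    (hse : Squarefree (s * e)) (hk : ∀ p : ℕ, p.Prime → p ∣ s → ∀ l v, ¬ (p : ℤ) ∣ kc l v) :
    NJ kc (s * e) E ≤ (2 ^ K) ^ e.primeFactors.card * NJ kc s E := by
  have he := hse.squarefree_of_dvd (Dvd.intro_left s rfl)
  have hs0 : s ≠ 0 := left_ne_zero_of_mul hse.ne_zero
  have he0 : e ≠ 0 := right_ne_zero_of_mul hse.ne_zero
  unfold NJ
  set A := (Fintype.piFinset (fun _ : Fin K => (s * e).divisors)).filter (fun d =>
    ∀ p ∈ (s * e).primeFactors,
    Cb kc (decide (p ∈ E)) p (fun l => dv p (d l)) (fun l => sgn p (d l))) with hA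
  set B := (Fintype.piFinset (fun _ : Fin K => s.divisors)).filter (fun d =>
    ∀ p ∈ s.primeFactors,
    Cb kc (decide (p ∈ E)) p (fun l => dv p (d l)) (fun l => sgn p (d l))) with hB
  have hAm : ∀ d ∈ A, (∀ l, d l ∣ s * e) ∧ ∀ p, p.Prime → p ∣ s →
      Cb kc (decide (p ∈ E)) p (fun l => dv p (d l)) (fun l => sgn p (d l)) := by
    intro d hd
    rw [hA, mem_filter, Fintype.mem_piFinset] at hd
    exact ⟨fun l => (Nat.mem_divisors.1 (hd.1 l)).1, fun p hp hpm => hd.2 p
      (Nat.mem_primeFactors.2 ⟨hp, hpm.trans (Dvd.intro _ rfl), hse.ne_zero⟩)⟩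
  set f : (Fin K → ℕ) → Fin K → ℕ := fun d l => (d l).gcd e with hf
  have hfib : ∀ a ∈ A.image f, (A.filter (fun x => f x = a)).card ≤ B.card := by
    intro a ha
    obtain ⟨b, hb, rfl⟩ := mem_image.1 ha
    have hb' := hAm b hb
    have hbs : ∀ l, Squarefree (b l) := fun l => hse.squarefree_of_dvd (hb'.1 l)
    apply Finset.card_le_card_of_injOn (fun d : Fin K → ℕ => fun l => sig (d l) (b l))
    · intro d hd
      rw [mem_coe, mem_filter] at hd
      have hd' := hAm d hd.1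
      have hds : ∀ l, Squarefree (d l) := fun l => hse.squarefree_of_dvd (hd'.1 l)
      have e1 : ∀ l, (d l).gcd e = (b l).gcd e := fun l => congrFun hd.2 l
      rw [mem_coe, hB, mem_filter, Fintype.mem_piFinset]
      refine ⟨fun l => Nat.mem_divisors.2 ⟨sig_dvd hse (hd'.1 l) (hb'.1 l) (e1 l), hs0⟩, ?_⟩
      intro p hp
      have hpp := Nat.prime_of_mem_primeFactors hp
      have hpm := Nat.dvd_of_mem_primeFactors hp
      have h1 := Cb_xor hm hpp (hk p hpp hpm) (hd'.2 p hpp hpm) (hb'.2 p hpp hpm)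
      have h2 : (fun l => dv p ((sig (d l) (b l) : ℕ) : ℤ)) =
          fun l => xor (dv p (d l : ℤ)) (dv p (b l : ℤ)) :=
        funext fun l => dv_sig (hds l) (hbs l) hpp
      have h3 : (fun l => sgn p ((sig (d l) (b l) : ℕ) : ℤ)) =
          fun l => xor (sgn p (d l : ℤ)) (sgn p (b l : ℤ)) :=
        funext fun l => sgn_sig (hds l) (hbs l) hpp
      show Cb kc (decide (p ∈ E)) p (fun l => dv p ((sig (d l) (b l) : ℕ) : ℤ))
        (fun l => sgn p ((sig (d l) (b l) : ℕ) : ℤ))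
      rw [h2, h3]
      exact h1
    · intro d hd d' hd' h
      rw [mem_coe, mem_filter] at hd hd'
      have g := hAm d hd.1
      have g' := hAm d' hd'.1
      funext l
      exact sig_inj hse (g.1 l) (g'.1 l) (hb'.1 l) (congrFun hd.2 l) (congrFun hd'.2 l)
        (congrFun h l)
  have h1 := Finset.card_le_mul_card_image A B.card hfib
  have h2 : (A.image f).card ≤ (2 ^ K) ^ e.primeFactors.card := by
    have h3 : A.image f ⊆ Fintype.piFinset (fun _ : Fin K => e.divisors) := by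
      intro a ha
      obtain ⟨b, hb, rfl⟩ := mem_image.1 ha
      rw [Fintype.mem_piFinset]
      exact fun l => Nat.mem_divisors.2 ⟨Nat.gcd_dvd_right _ _, he0⟩
    refine (Finset.card_le_card h3).trans ?_
    rw [Fintype.card_piFinset_const, card_div he, ← pow_mul, ← pow_mul, mul_comm]
  calc A.card ≤ B.card * (A.image f).card := h1
    _ ≤ B.card * (2 ^ K) ^ e.primeFactors.card := Nat.mul_le_mul_left _ h2
    _ = (2 ^ K) ^ e.primeFactors.card * B.card := mul_comm _ _

lemma NJ_congr {K : ℕ} (kc : Fin K → Bk K → ℤ) {s : ℕ} {E E' : Finset ℕ}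
    (h : ∀ p ∈ s.primeFactors, (p ∈ E ↔ p ∈ E')) : NJ kc s E = NJ kc s E' := by
  classical
  unfold NJ
  congr 1
  apply Finset.filter_congr
  intro d _
  refine forall_congr' fun p => ?_
  refine imp_congr_right fun hp => ?_
  have : decide (p ∈ E) = decide (p ∈ E') := decide_eq_decide.2 (h p hp)
  rw [this]

theorem subB {K : ℕ} {kc : Fin K → Bk K → ℤ} (hm : Hm kc) {z y s e : ℕ}
    (h0 : ∀ l v, kc l v ≠ 0) (h1z : ∀ l v, (kc l v).natAbs ≤ z) (h : s * e ∣ PP z y) :
    BJ kc (s * e) ≤ (2 ^ K) ^ e.primeFactors.card * BJ kc s := by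
  classical
  have hse : s * e ∈ (PP z y).divisors := Nat.mem_divisors.2 ⟨h, PP_ne_zero z y⟩
  have hsq := dv_squarefree hse
  have hcop := Nat.coprime_of_squarefree_mul hsq
  have hdis : Disjoint s.primeFactors e.primeFactors := hcop.disjoint_primeFactors
  have hk : ∀ p : ℕ, p.Prime → p ∣ s → ∀ l v, ¬ (p : ℤ) ∣ kc l v := by
    intro p hp hps l v hd
    have hzp : z < p := (dv_prime hse hp (hps.mul_right _)).1
    have h3 := Nat.le_of_dvd (Int.natAbs_pos.mpr (h0 l v)) (Int.natCast_dvd.1 hd)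
    have h4 := h1z l v
    omega
  have h1 : ∀ E : Finset ℕ, (NJ kc (s * e) E : ℝ) ≤
      (2 ^ K) ^ e.primeFactors.card * (NJ kc s (E ∩ s.primeFactors) : ℝ) := by
    intro E
    have h2 := subJ hm E hsq hk
    rw [NJ_congr kc (s := s) (E := E) (E' := E ∩ s.primeFactors) (fun p hp => by
      rw [mem_inter]
      exact ⟨fun h => ⟨h, hp⟩, fun h => h.1⟩)] at h2
    exact_mod_cast h2
  have hpf : (s * e).primeFactors = s.primeFactors ∪ e.primeFactors := hcop.primeFactors_mul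
  have hcard : (s * e).primeFactors.card = s.primeFactors.card + e.primeFactors.card := by
    rw [hpf, card_union_of_disjoint hdis]
  unfold BJ
  calc (1 / 2 : ℝ) ^ (s * e).primeFactors.card *
        ∑ E ∈ (s * e).primeFactors.powerset, (NJ kc (s * e) E : ℝ)
      ≤ (1 / 2 : ℝ) ^ (s * e).primeFactors.card *
        ∑ E ∈ (s * e).primeFactors.powerset, (2 ^ K) ^ e.primeFactors.card *
          (NJ kc s (E ∩ s.primeFactors) : ℝ) :=
        mul_le_mul_of_nonneg_left (sum_le_sum fun E _ => h1 E) (by positivity)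
    _ = (1 / 2 : ℝ) ^ (s.primeFactors.card + e.primeFactors.card) *
        ((2 ^ K) ^ e.primeFactors.card * (2 ^ e.primeFactors.card *
          ∑ E ∈ s.primeFactors.powerset, (NJ kc s E : ℝ))) := by
        rw [hcard, ← mul_sum, hpf,
          sum_inter s.primeFactors e.primeFactors hdis fun E => (NJ kc s E : ℝ)]
    _ = _ := by
        rw [pow_add]
        have h5 : (1 / 2 : ℝ) ^ e.primeFactors.card * 2 ^ e.primeFactors.card = 1 := by
          rw [← mul_pow]; norm_num
        calc (1 / 2 : ℝ) ^ s.primeFactors.card * (1 / 2 : ℝ) ^ e.primeFactors.card *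
            ((2 ^ K) ^ e.primeFactors.card * (2 ^ e.primeFactors.card *
              ∑ E ∈ s.primeFactors.powerset, (NJ kc s E : ℝ)))
            = ((1 / 2 : ℝ) ^ e.primeFactors.card * 2 ^ e.primeFactors.card) *
              ((2 ^ K) ^ e.primeFactors.card * ((1 / 2 : ℝ) ^ s.primeFactors.card *
                ∑ E ∈ s.primeFactors.powerset, (NJ kc s E : ℝ))) := by ring
          _ = _ := by rw [h5, one_mul]

/-! ## powers -/

/-- the constants of the power -/
def kp {K : ℕ} (m : ℕ) (kc : Fin K → Bk K → ℤ) (L : Fin (m * K)) (V : Bk (m * K)) : ℤ :=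
  kc (finProdFinEquiv.symm L).2 (fun l => V (finProdFinEquiv ((finProdFinEquiv.symm L).1, l)))

lemma kp_ne {K : ℕ} {m : ℕ} {kc : Fin K → Bk K → ℤ} (h : ∀ l v, kc l v ≠ 0) (L : Fin (m * K))
    (V : Bk (m * K)) : kp m kc L V ≠ 0 := h _ _

lemma kp_Hm {K : ℕ} {m : ℕ} {kc : Fin K → Bk K → ℤ} (h : Hm kc) : Hm (kp m kc) :=
  fun _ _ _ => h _ _ _

open Classical in
lemma NJ_pow {K : ℕ} (m : ℕ) (kc : Fin K → Bk K → ℤ) (s : ℕ) (E : Finset ℕ) :
    NJ (kp m kc) s E = (NJ kc s E) ^ m := by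
  have h1 := Fintype.card_piFinset_const ((Fintype.piFinset (fun _ : Fin K => s.divisors)).filter
    (fun d => ∀ p ∈ s.primeFactors,
    Cb kc (decide (p ∈ E)) p (fun l => dv p (d l)) (fun l => sgn p (d l)))) m
  unfold NJ
  rw [← h1]
  refine Finset.card_bij (fun d _ i l => d (finProdFinEquiv (i, l))) ?_ ?_ ?_
  · intro d hd
    rw [mem_filter, Fintype.mem_piFinset] at hd
    rw [Fintype.mem_piFinset]
    intro i
    rw [mem_filter, Fintype.mem_piFinset]
    refine ⟨fun l => hd.1 _, fun p hp l => ?_⟩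
    have h2 := hd.2 p hp (finProdFinEquiv (i, l))
    unfold kp at h2
    simp only [Equiv.symm_apply_apply] at h2
    exact h2
  · intro d _ d' _ h
    funext L
    have h2 := congrFun (congrFun h (finProdFinEquiv.symm L).1) (finProdFinEquiv.symm L).2
    simp only [Prod.mk.eta, Equiv.apply_symm_apply] at h2
    exact h2
  · intro D hD
    rw [Fintype.mem_piFinset] at hD
    refine ⟨fun L => D (finProdFinEquiv.symm L).1 (finProdFinEquiv.symm L).2, ?_, ?_⟩
    · rw [mem_filter, Fintype.mem_piFinset]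
      refine ⟨fun L => ?_, fun p hp L => ?_⟩
      · have h2 := hD (finProdFinEquiv.symm L).1
        rw [mem_filter, Fintype.mem_piFinset] at h2
        exact h2.1 _
      · have h2 := hD (finProdFinEquiv.symm L).1
        rw [mem_filter, Fintype.mem_piFinset] at h2
        have h3 := h2.2 p hp (finProdFinEquiv.symm L).2
        unfold kp
        simp only [Equiv.symm_apply_apply]
        exact h3
    · funext i l
      simp only [Equiv.symm_apply_apply]

end JA

end Run7.h69
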