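import Mathlib
import Pool.Agent.Run7.h69.RK
import Pool.Agent.Run7.h69.UT2
import Pool.Agent.Run7.h69.JA2

/-!
# Moments of quantities bounded by the number of the solutions of the symbol conditions
-/

set_option autoImplicit false
set_option linter.unusedSectionVars false

namespace Run7.h69.JM

open Finset Polynomial
open Pool.Agent.W262.RK hiding lk ff s1 s2

open EX (Bk)
open JA (NJ BJ BJ_nonneg Hm kp kp_ne kp_Hm NJ_pow subB IJ kq vc cr)

variable {h : ℤ[X]} {z K : ℕ} {kc : Fin K → Bk K → ℤ}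

/-- the quantity is bounded by the local count -/
def Bdd (kc : Fin K → Bk K → ℤ) (h : ℤ[X]) (z : ℕ) (A B0 : ℝ) (R : ℤ → ℝ) : Prop :=
  ∀ (t : ℤ) (y N : ℕ), 1 ≤ y → h.eval t ≠ 0 → (h.eval t).natAbs < (y + 1) ^ N →
    R t ≤ A * B0 ^ N * B0 ^ ((t2 h z y t).primeFactors.card) *
      (NJ kc (t1 h z y t) (ng h t (t1 h z y t)) : ℝ)

open Classical in
/-- the moments for good data -/
theorem moments {g m : ℕ} (M : ℕ) {A B0 : ℝ} (hA : 0 ≤ A) (hB0 : 2 ^ K ≤ B0) {R : ℤ → ℝ}
    (hR0 : ∀ t, 0 ≤ R t)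
    (hR : Bdd kc h z A B0 R) (hz : Gd h z)
    (hg : 1 ≤ g) (hM : Mer h g) (hU : Utw h z) (hm : Hm kc) (h0 : ∀ l v, kc l v ≠ 0)
    (h1z : ∀ l v, (kc l v).natAbs ≤ z)
    (hκk : ∀ i : IJ (m * K), (kq (kp m kc) (vc i) (cr i)).natAbs ≤ z)
    (hk : 2 * h.natDegree ≤ 2 ^ (m * K)) (hk2 : 2 * g ≤ 2 ^ (m * K)) :
    ∃ (X0 : ℕ) (B : ℝ), ∀ (x : ℤ) (X : ℕ), x.natAbs ≤ X ^ M → X0 ≤ X →
      ∑ t ∈ NX.II h x X, R t ^ m ≤ B * X := by
  have hz2 : 2 ≤ z := by have := hz.big; omega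
  have hB1 : (1 : ℝ) ≤ B0 := le_trans (one_le_pow₀ (by norm_num)) hB0
  have hB00 : (0 : ℝ) ≤ B0 := by linarith
  obtain ⟨C', hC'⟩ := JA.avg_bound
    (Pool.Agent.W655.RK.blw_of (_root_.W37.RK.bl_of Pool.Agent.W505.RK.ls)) hz hg hM hU
    (fun l v => kp_ne h0 l v) (fun l v => h1z _ _)
    hκk hk hk2
  obtain ⟨C, Kc, y0, hC0, hK1, hcn⟩ := CN.count hz hM
  obtain ⟨c, L, hcL⟩ := RK.growth h
  -- the size of the values
  set L1 : ℕ := (M + 3) * L + 1 with hL1
  set y1 : ℕ := y0 + c + 3 with hy1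
  have hval : ∀ (x : ℤ) (X : ℕ), x.natAbs ≤ X ^ M → y1 ≤ X → ∀ t ∈ Ioc x (x + X),
      (h.eval t).natAbs ≤ X ^ L1 := by
    intro x X hx hX t ht
    rw [mem_Ioc] at ht
    have hX2 : 2 ≤ X := by omega
    have h1 : t.natAbs + 1 ≤ x.natAbs + X + 1 := by omega
    have h2 : x.natAbs + X + 1 ≤ X ^ (M + 3) := by
      have h3 : X ^ (M + 3) = X ^ M * (X ^ 3) := pow_add _ _ _
      have h4 : 1 ≤ X ^ M := Nat.one_le_pow _ _ (by omega)
      have h5 : X + 1 + 1 ≤ X ^ 3 := by nlinarith [Nat.mul_le_mul hX2 hX2, sq_nonneg (X - 2)]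
      calc x.natAbs + X + 1 ≤ X ^ M * 1 + 1 * (X + 1) := by omega
        _ ≤ X ^ M * 1 + X ^ M * (X + 1) := Nat.add_le_add_left (Nat.mul_le_mul_right _ h4) _
        _ = X ^ M * (X + 1 + 1) := by ring
        _ ≤ X ^ M * X ^ 3 := Nat.mul_le_mul_left _ h5
        _ = _ := h3.symm
    calc (h.eval t).natAbs ≤ c * (t.natAbs + 1) ^ L := hcL t
      _ ≤ X * (X ^ (M + 3)) ^ L :=
          Nat.mul_le_mul (by omega) (Nat.pow_le_pow_left (h1.trans h2) _)
      _ = X ^ L1 := by rw [hL1, ← pow_mul, pow_succ, mul_comm]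
  obtain ⟨X0, B, hB⟩ := NX.nt (f := h) (z := z) (G := BJ (kp m kc))
    (R := fun t => R t ^ m)
    (Q := fun x X => x.natAbs ≤ X ^ M ∧ y1 ≤ X) (A := B0 ^ m) (C := C * A ^ m)
    (D := (B0 ^ L1) ^ m) (C' := C') (g := g) (K := Kc) (y0 := y1)
    hz (BJ_nonneg _) (fun t => pow_nonneg (hR0 t) m) (by positivity) (by positivity)
    (one_le_pow₀ (one_le_pow₀ hB1))
    (fun y s e hse => (subB (kp_Hm hm) (fun l v => kp_ne h0 l v) (fun l v => h1z _ _) hse).trans
      (mul_le_mul_of_nonneg_right (pow_le_pow_left₀ (by positivity) (by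
        rw [mul_comm m K, pow_mul]
        exact pow_le_pow_left₀ (by positivity) hB0 m) _) (BJ_nonneg _ _))) hC' (by
      intro x X y Y k hQ hy0 hzy hyK hXk s v u hs hv hu hsvu
      obtain ⟨hx, hX⟩ := hQ
      have hy00 : y0 ≤ y := by omega
      set S := (NX.II h x X).filter (fun t : ℤ => t1 h z y t = s ∧ t2 h z y t = v ∧
        (u : ℤ) ∣ h.eval t) with hS
      set G : Finset ℕ → ℝ := fun E => (NJ kc s E : ℝ) ^ m with hG
      have hG0 : ∀ E, 0 ≤ G E := fun E => by simp only [hG]; positivity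
      have h1 : ∀ t ∈ S, R t ^ m ≤
          A ^ m * ((B0 ^ L1) ^ m) ^ k * (B0 ^ m) ^ v.primeFactors.card *
            G (ng h t s) := by
        intro t ht
        rw [hS, mem_filter] at ht
        obtain ⟨ht1, hts, htv, _⟩ := ht
        unfold NX.II at ht1
        rw [mem_filter] at ht1
        have hN : (h.eval t).natAbs < (y + 1) ^ (k * L1) := by
          calc (h.eval t).natAbs ≤ X ^ L1 := hval x X hx hX t ht1.1
            _ < ((y + 1) ^ k) ^ L1 := Nat.pow_lt_pow_left hXk (by omega)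
            _ = _ := by rw [← pow_mul]
        have hr := hR t y (k * L1) (by omega) ht1.2 hN
        rw [hts, htv] at hr
        refine (pow_le_pow_left₀ (hR0 t) hr m).trans (le_of_eq ?_)
        simp only [hG]
        rw [mul_pow, mul_pow, mul_pow]
        congr 2
        · congr 1
          rw [← pow_mul, ← pow_mul, ← pow_mul]
          congr 1
          ring
        · rw [← pow_mul, ← pow_mul, mul_comm]
      have hneg : ∀ t ∈ S, ng h t s ∈ s.primeFactors.powerset := by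
        intro t _
        rw [mem_powerset]
        exact filter_subset _ _
      have h2 : ∑ t ∈ S, G (ng h t s) =
          ∑ E ∈ s.primeFactors.powerset,
            ((S.filter (fun t : ℤ => ng h t s = E)).card : ℝ) * G E := by
        rw [← sum_fiberwise_of_maps_to hneg]
        refine sum_congr rfl fun E _ => ?_
        rw [← nsmul_eq_mul, ← sum_const]
        refine sum_congr rfl fun t ht => ?_
        rw [(mem_filter.1 ht).2]
      set Q : ℝ := C * X * (1 / 2) ^ s.primeFactors.card * gm (br h) s * (gm (br h) v / v) *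
        gm (ru h) u / (Real.log y) ^ g with hQ
      have h3 : ∀ E ∈ s.primeFactors.powerset,
          ((S.filter (fun t : ℤ => ng h t s = E)).card : ℝ) * G E ≤ Q * G E := by
        intro E _
        refine mul_le_mul_of_nonneg_right ?_ (hG0 E)
        refine le_trans ?_ (hcn x X y Y hy00 hzy hyK s v u hs hv hu hsvu E)
        have h4 : S.filter (fun t : ℤ => ng h t s = E) ⊆
            (Ioc x (x + X)).filter (fun t : ℤ => t1 h z y t = s ∧ t2 h z y t = v ∧
              (u : ℤ) ∣ h.eval t ∧ ng h t s = E) := by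
          intro t ht
          rw [mem_filter, hS, mem_filter] at ht
          unfold NX.II at ht
          rw [mem_filter] at ht
          rw [mem_filter]
          exact ⟨ht.1.1.1, ht.1.2.1, ht.1.2.2.1, ht.1.2.2.2, ht.2⟩
        exact_mod_cast card_le_card h4
      calc ∑ t ∈ S, R t ^ m
          ≤ ∑ t ∈ S, A ^ m * ((B0 ^ L1) ^ m) ^ k * (B0 ^ m) ^ v.primeFactors.card *
            G (ng h t s) := sum_le_sum h1
        _ = A ^ m * ((B0 ^ L1) ^ m) ^ k * (B0 ^ m) ^ v.primeFactors.card *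
              ∑ E ∈ s.primeFactors.powerset,
                ((S.filter (fun t : ℤ => ng h t s = E)).card : ℝ) * G E := by
            rw [← mul_sum, h2]
        _ ≤ A ^ m * ((B0 ^ L1) ^ m) ^ k * (B0 ^ m) ^ v.primeFactors.card *
              ∑ E ∈ s.primeFactors.powerset, Q * G E :=
            mul_le_mul_of_nonneg_left (sum_le_sum h3) (by positivity)
        _ = _ := by
            have e1 : BJ (kp m kc) s = (1 / 2) ^ s.primeFactors.card *
                ∑ E ∈ s.primeFactors.powerset, G E := by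
              unfold BJ
              congr 1
              refine sum_congr rfl fun E _ => ?_
              rw [NJ_pow m kc s E]
              push_cast
              rfl
            have e2 : NX.bV h (B0 ^ m) v = (B0 ^ m) ^ v.primeFactors.card *
                (gm (br h) v / v) := rfl
            rw [← mul_sum, e1, e2, hQ]
            ring)
  refine ⟨X0 + y1, B, fun x X hx hX => ?_⟩
  exact hB x X ⟨hx, by omega⟩ (by omega)

/-- squarefree polynomials of positive degree, long intervals -/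
theorem sqf (hK : 1 ≤ K) (hm : Hm kc) (hc0 : ∀ l v, kc l v ≠ 0)
    (hsq : Squarefree h) (h0 : h ≠ 0) (hd : 0 < h.natDegree) (z00 k M : ℕ) :
    ∃ z : ℕ, z00 ≤ z ∧ ∀ (A B0 : ℝ) (R : ℤ → ℝ), 0 ≤ A → 2 ^ K ≤ B0 →
      (∀ t, 1 ≤ R t ∨ R t = 0) → Bdd kc h z A B0 R →
    ∃ (X0 : ℕ) (B : ℝ), ∀ (x : ℤ) (X : ℕ), x.natAbs ≤ X ^ M → X0 ≤ X →
      ∑ t ∈ NX.II h x X, R t ^ k ≤ B * X := by
  classical
  obtain ⟨hsep, g, z0, hg1, hg2, hM, hU⟩ := UT.sqf h hsq h0
  obtain ⟨z1, hz1⟩ := UT.good h h0 hsep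
  set m : ℕ := k + 2 * h.natDegree with hmdef
  have hmK : m ≤ m * K := Nat.le_mul_of_pos_right _ hK
  have hm4 : 2 * h.natDegree ≤ 2 ^ (m * K) := by
    calc 2 * h.natDegree ≤ m * K := by omega
      _ ≤ 2 ^ (m * K) := (Nat.lt_pow_self (by norm_num)).le
  set z : ℕ := z0 + z1 + z00 +
    ∑ i : IJ (m * K), (kq (kp m kc) (vc i) (cr i)).natAbs +
    ∑ l : Fin K, ∑ v : Bk K, (kc l v).natAbs with hz
  refine ⟨z, by omega, fun A B0 R hA hB0 hR1 hR => ?_⟩
  have hR0 : ∀ t, 0 ≤ R t := fun t => by rcases hR1 t with h1 | h1 <;> linarith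
  obtain ⟨X0, B, hB⟩ := moments (h := h) (z := z) (g := g) (m := m) M hA hB0 hR0 hR
    (hz1 z (by omega)) (hg1 hd) hM (hU z (by omega)) hm hc0
    (fun l v => by
      have h1 := single_le_sum (f := fun l : Fin K => ∑ v : Bk K, (kc l v).natAbs)
        (fun _ _ => Nat.zero_le _) (mem_univ l)
      have h2 := single_le_sum (f := fun v : Bk K => (kc l v).natAbs)
        (fun _ _ => Nat.zero_le _) (mem_univ v)
      omega)
    (fun i => by
      have h1 := single_le_sum (f := fun i : IJ (m * K) => (kq (kp m kc) (vc i) (cr i)).natAbs)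
        (fun _ _ => Nat.zero_le _) (mem_univ i)
      omega) hm4 (by omega)
  have hA1 : ∀ t, R t ^ k ≤ 1 + R t ^ m := by
    intro t
    rcases hR1 t with h1 | h1
    · have := pow_le_pow_right₀ h1 (show k ≤ m by omega)
      linarith
    · rw [h1]
      have h2 : (0 : ℝ) ^ k ≤ 1 := by
        rcases Nat.eq_zero_or_pos k with h3 | h3
        · rw [h3]; simp
        · rw [zero_pow (by omega)]; norm_num
      have h3 : (0 : ℝ) ≤ 0 ^ m := by positivity
      linarith
  refine ⟨X0, 1 + B, fun x X hx hX => ?_⟩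
  calc ∑ t ∈ NX.II h x X, R t ^ k ≤ ∑ t ∈ NX.II h x X, (1 + R t ^ m) :=
        sum_le_sum fun t _ => hA1 t
    _ = (NX.II h x X).card + ∑ t ∈ NX.II h x X, R t ^ m := by
        rw [sum_add_distrib]
        simp
    _ ≤ X + B * X := by
        refine add_le_add ?_ (hB x X hx hX)
        have h3 : (NX.II h x X).card ≤ X := by
          unfold NX.II
          refine (card_filter_le _ _).trans ?_
          rw [Int.card_Ioc]
          simp
        exact_mod_cast h3
    _ = (1 + B) * X := by ring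

/-- all intervals -/
theorem main (hK : 1 ≤ K) (hm : Hm kc) (hc0 : ∀ l v, kc l v ≠ 0)
    (hsq : Squarefree h) (h0 : h ≠ 0) (hd : 0 < h.natDegree) (z00 k M : ℕ) :
    ∃ z : ℕ, z00 ≤ z ∧ ∀ (A B0 : ℝ) (R : ℤ → ℝ), 0 ≤ A → 2 ^ K ≤ B0 →
      (∀ t, 1 ≤ R t ∨ R t = 0) → Bdd kc h z A B0 R →
    ∃ C : ℝ, ∀ (x : ℤ) (X : ℕ), 1 ≤ X → x.natAbs ≤ X ^ M →
      ∑ t ∈ NX.II h x X, R t ^ k ≤ C * X := by
  classical
  obtain ⟨z, hz, hmain⟩ := sqf hK hm hc0 hsq h0 hd z00 k M
  refine ⟨z, hz, fun A B0 R hA hB0 hR1 hR => ?_⟩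
  have hR0 : ∀ t, 0 ≤ R t := fun t => by rcases hR1 t with h1 | h1 <;> linarith
  obtain ⟨X0, B, hB⟩ := hmain A B0 R hA hB0 hR1 hR
  set N : ℤ := (X0 : ℤ) ^ M + X0 with hN
  set S : ℝ := ∑ t ∈ Icc (-N) N, R t ^ k with hS
  have hnn : ∀ t : ℤ, 0 ≤ R t ^ k := fun t => pow_nonneg (hR0 t) k
  have hS0 : 0 ≤ S := sum_nonneg fun t _ => hnn t
  refine ⟨|B| + S, fun x X hX hx => ?_⟩
  have hXr : (1 : ℝ) ≤ X := by exact_mod_cast hX
  rcases Nat.lt_or_ge X X0 with hXX | hXX
  · have h1 : ∑ t ∈ NX.II h x X, R t ^ k ≤ S := by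
      refine sum_le_sum_of_subset_of_nonneg ?_ fun t _ _ => hnn t
      intro t ht
      unfold NX.II at ht
      rw [mem_filter, mem_Ioc] at ht
      rw [mem_Icc]
      have h2 : (x.natAbs : ℤ) ≤ (X0 : ℤ) ^ M := by
        exact_mod_cast hx.trans (Nat.pow_le_pow_left hXX.le M)
      have h3 : (X : ℤ) ≤ X0 := by exact_mod_cast hXX.le
      omega
    have h4 : 0 ≤ |B| := abs_nonneg _
    nlinarith
  · have h1 := hB x X hx hXX
    have h2 := le_abs_self B
    nlinarith

end Run7.h69.JM
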