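import Mathlib
import Pool.Agent.Run7.h69.JA2
import Pool.Agent.Run7.h69.JB1
import Pool.Agent.Run7.h69.CL4

/-!
# The local conditions at the primes that divide the twist exactly once
-/

set_option autoImplicit false
set_option linter.unusedSectionVars false

namespace Run7.h69.JB

open Finset
open Pool.Agent.Y713.SE (Dat)
open Pool.Agent.Y164.HG (Tm)
open Pool.Agent.W262.RK (dv sgn sg0)
open EX (Bk)
open XP (bz zmod2)

/-! ## the constants -/

section const
variable {n : ℕ}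

/-- the product of the differences -/
def g0 (a : Fin n → ℤ) (i : Fin n) : ℤ := ∏ k ∈ univ.erase i, (a i - a k)

/-- the constants -/
def kcf (a : Fin n → ℤ) (i : Fin n) (M : Fin n → Bool) : ℤ :=
  (∏ k ∈ univ.erase i, (if M k = true then a i - a k else 1)) *
    (if M i = true then - g0 a i else 1)

lemma isq_prod {ι F : Type} [Field F] (s : Finset ι) (f : ι → F) (h : ∀ i ∈ s, IsSquare (f i)) :
    IsSquare (∏ i ∈ s, f i) :=
  Finset.prod_induction f IsSquare (fun _ _ ha hb => ha.mul hb) ⟨1, by simp⟩ h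

lemma sub_ne {a : Fin n → ℤ} (ha : Function.Injective a) {i k : Fin n} (h : k ≠ i) :
    a i - a k ≠ 0 := sub_ne_zero.2 fun h' => h (ha h').symm

lemma g0_ne {a : Fin n → ℤ} (ha : Function.Injective a) (i : Fin n) : g0 a i ≠ 0 :=
  prod_ne_zero_iff.2 fun k hk => sub_ne ha (ne_of_mem_erase hk)

lemma kcf_ne {a : Fin n → ℤ} (ha : Function.Injective a) (i : Fin n) (M : Fin n → Bool) :
    kcf a i M ≠ 0 := by
  unfold kcf
  refine mul_ne_zero (prod_ne_zero_iff.2 fun k hk => ?_) ?_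
  · split_ifs
    · exact sub_ne ha (ne_of_mem_erase hk)
    · exact one_ne_zero
  · split_ifs
    · exact neg_ne_zero.2 (g0_ne ha i)
    · exact one_ne_zero

lemma ib (A : ℤ) (u u' : Bool) : (if u = true then A else 1) * (if u' = true then A else 1) =
    (if (xor u u') = true then A else 1) * (if (u && u') = true then A else 1) ^ 2 := by
  cases u <;> cases u' <;> simp [sq]

lemma kcf_mul (a : Fin n → ℤ) (i : Fin n) (M M' : Fin n → Bool) :
    ∃ c : ℤ, kcf a i M * kcf a i M' = kcf a i (fun k => xor (M k) (M' k)) * c ^ 2 := by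
  refine ⟨(∏ k ∈ univ.erase i, (if (M k && M' k) = true then a i - a k else 1)) *
    (if (M i && M' i) = true then - g0 a i else 1), ?_⟩
  have h1 : (∏ k ∈ univ.erase i, (if M k = true then a i - a k else 1)) *
      (∏ k ∈ univ.erase i, (if M' k = true then a i - a k else 1)) =
      (∏ k ∈ univ.erase i, (if (xor (M k) (M' k)) = true then a i - a k else 1)) *
      (∏ k ∈ univ.erase i, (if (M k && M' k) = true then a i - a k else 1)) ^ 2 := by
    rw [← prod_mul_distrib, ← prod_pow, ← prod_mul_distrib]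
    exact prod_congr rfl fun k _ => ib _ _ _
  have h2 := ib (- g0 a i) (M i) (M' i)
  unfold kcf
  calc _ = ((∏ k ∈ univ.erase i, (if M k = true then a i - a k else 1)) *
      (∏ k ∈ univ.erase i, (if M' k = true then a i - a k else 1))) *
      ((if M i = true then - g0 a i else 1) * (if M' i = true then - g0 a i else 1)) := by ring
    _ = _ := by
      rw [h1, h2]
      ring

end const

section ext
variable {K : ℕ}

lemma bz_xor (a b : Bool) : bz (xor a b) = bz a + bz b := by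
  have h11 : (1 : ZMod 2) + 1 = 0 := by decide
  unfold bz
  cases a <;> cases b <;> simp [h11]

lemma bz_inj {a b : Bool} (h : bz a = bz b) : a = b := by
  unfold bz at h
  cases a <;> cases b <;> simp at h ⊢

/-- the parity -/
def par (v : Bk K) : Bool := decide ((∑ l, bz (v l)) = 1)

lemma bz_par (v : Bk K) : bz (par v) = ∑ l, bz (v l) := by
  unfold par
  rcases zmod2 (∑ l, bz (v l)) with h | h
  · rw [h]
    simp [bz]
  · rw [h]
    simp [bz]

/-- the extension by the parity -/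
def ex (v : Bk K) : Fin (K + 1) → Bool := Fin.snoc v (par v)

lemma ex_xor (v v' : Bk K) : ex (fun l => xor (v l) (v' l)) = fun k => xor (ex v k) (ex v' k) := by
  funext k
  refine Fin.lastCases ?_ (fun l => ?_) k
  · unfold ex
    simp only [Fin.snoc_last]
    apply bz_inj
    rw [bz_xor, bz_par, bz_par, bz_par, ← sum_add_distrib]
    exact sum_congr rfl fun l _ => bz_xor _ _
  · unfold ex
    simp only [Fin.snoc_castSucc]

/-- the constants for the first coordinates -/
def kc (a : Fin (K + 1) → ℤ) (l : Fin K) (v : Bk K) : ℤ := kcf a l.castSucc (ex v)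

lemma kc_ne {a : Fin (K + 1) → ℤ} (ha : Function.Injective a) (l : Fin K) (v : Bk K) :
    kc a l v ≠ 0 := kcf_ne ha _ _

lemma kc_Hm (a : Fin (K + 1) → ℤ) : JA.Hm (kc a) := by
  intro l v v'
  obtain ⟨c, hc⟩ := kcf_mul a l.castSucc (ex v) (ex v')
  refine ⟨c, ?_⟩
  unfold kc
  rw [hc]
  have := ex_xor v v'
  rw [this]

lemma ex_of {M : Fin (K + 1) → Bool} (h : ∑ k, bz (M k) = 0) :
    ex (fun l => M l.castSucc) = M := by
  funext k
  refine Fin.lastCases ?_ (fun l => ?_) k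
  · unfold ex
    simp only [Fin.snoc_last]
    apply bz_inj
    rw [bz_par]
    rw [Fin.sum_univ_castSucc] at h
    have h2 : ∀ x y : ZMod 2, x + y = 0 → x = y := by decide
    exact h2 _ _ h
  · unfold ex
    simp only [Fin.snoc_castSucc]

end ext

/-! ## the classes of the torsion points -/

section tors
variable {n : ℕ} {F : Type} [Field F] (D : Dat 2 n F)

/-- the product of the differences -/
noncomputable def ge (i : Fin n) : F := ∏ j ∈ univ.erase i, (D.e i - D.e j)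

lemma ge_ne (i : Fin n) : ge D i ≠ 0 := prod_ne_zero_iff.2 fun j hj =>
  sub_ne_zero.2 fun h' => (ne_of_mem_erase hj) (D.he h').symm

lemma Ts_eq (m : Fin n → ℕ) (i : Fin n) : Ts D m i =
    ∏ k, (if k = i then -(D.δ * ge D i)⁻¹ else D.e i - D.e k) ^ m k := by
  classical
  unfold Ts Tm
  rw [← mul_prod_erase univ _ (mem_univ i), ← mul_prod_erase univ
    (fun k => (if k = i then -(D.δ * ge D i)⁻¹ else D.e i - D.e k) ^ m k) (mem_univ i)]
  rw [if_pos rfl, if_pos rfl, ← mul_assoc, ← mul_pow]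
  congr 1
  · unfold ge
    ring
  · refine prod_congr rfl fun k hk => ?_
    rw [if_neg (ne_of_mem_erase hk), if_neg (ne_of_mem_erase hk)]

lemma prod_Ts (hn : Odd n) (m : Fin n → ℕ) : ∏ i, Ts D m i = (-(D.δ)⁻¹) ^ ∑ k, m k := by
  classical
  rw [prod_congr rfl fun i _ => Ts_eq D m i, prod_comm]
  rw [prod_congr rfl fun k _ => prod_pow _ _ _, ← prod_pow_eq_pow_sum]
  refine prod_congr rfl fun k _ => ?_
  congr 1
  rw [← mul_prod_erase univ _ (mem_univ k), if_pos rfl]
  have h1 : ∏ x ∈ univ.erase k, (if k = x then -(D.δ * ge D x)⁻¹ else D.e x - D.e k) =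
      (-1) ^ (n - 1) * ge D k := by
    unfold ge
    have h2 : (univ.erase k).card = n - 1 := by
      rw [card_erase_of_mem (mem_univ k), card_univ, Fintype.card_fin]
    rw [← h2, ← prod_const, ← prod_mul_distrib]
    refine prod_congr rfl fun x hx => ?_
    rw [if_neg (ne_of_mem_erase hx).symm]
    ring
  rw [h1]
  have h3 : ((-1 : F)) ^ (n - 1) = 1 := by
    obtain ⟨r, hr⟩ := hn
    rw [hr, Nat.add_sub_cancel, pow_mul]
    simp
  have h4 := ge_ne D k
  have h5 := D.hδ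
  rw [h3, one_mul]
  field_simp

lemma sq_pow_mul (x : F) (m : ℕ) : IsSquare (x ^ m * (if m % 2 = 1 then x else 1)) := by
  rcases Nat.mod_two_eq_zero_or_one m with h | h
  · rw [if_neg (by omega), mul_one]
    exact ⟨x ^ (m / 2), by rw [← pow_add]; congr 1; omega⟩
  · rw [if_pos h]
    exact ⟨x ^ (m / 2 + 1), by rw [← pow_add, ← pow_succ]; congr 1; omega⟩

lemma sq_inv_mul {x : F} (hx : x ≠ 0) (m : ℕ) :
    IsSquare ((x⁻¹) ^ m * (if m % 2 = 1 then x else 1)) := by
  rcases Nat.mod_two_eq_zero_or_one m with h | h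
  · rw [if_neg (by omega), mul_one]
    exact ⟨x⁻¹ ^ (m / 2), by rw [← pow_add]; congr 1; omega⟩
  · rw [if_pos h]
    refine ⟨x⁻¹ ^ (m / 2), ?_⟩
    have h1 : m = m / 2 + m / 2 + 1 := by omega
    conv_lhs => rw [h1]
    rw [pow_succ, mul_assoc, inv_mul_cancel₀ hx, mul_one, pow_add]

end tors

/-- the integer attached to a torsion point -/
def TT {n : ℕ} (a : Fin n → ℤ) (G : ℤ) (i : Fin n) (M : Fin n → Bool) : ℤ :=
  kcf a i M * (if M i = true then G else 1)

/-- the classes of the torsion points are the classes of the integers -/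
lemma Ts_TT {n : ℕ} (D : Dat 2 n ℚ) {a : Fin n → ℤ} {G : ℤ} {c : ℚ} (hc : c ≠ 0)
    (hδ : D.δ = c ^ 2 * G) (he : ∀ i, D.e i = a i)
    (m : Fin n → ℕ) (i : Fin n) :
    IsSquare (Ts D m i * (TT a G i (fun k => decide (m k % 2 = 1)) : ℚ)) := by
  classical
  have hG : (G : ℚ) ≠ 0 := by
    intro h
    apply D.hδ
    rw [hδ, h, mul_zero]
  have hge : ge D i = (g0 a i : ℚ) := by
    unfold ge g0
    push_cast
    exact prod_congr rfl fun k _ => by rw [he, he]
  have hge0 : (g0 a i : ℚ) ≠ 0 := hge ▸ ge_ne D i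
  rw [Ts_eq, ← mul_prod_erase univ _ (mem_univ i), if_pos rfl]
  unfold TT kcf
  have h1 : IsSquare (∏ k ∈ univ.erase i, (((a i - a k : ℤ) : ℚ) ^ m k *
      (if m k % 2 = 1 then ((a i - a k : ℤ) : ℚ) else 1))) :=
    isq_prod _ _ fun k _ => sq_pow_mul _ _
  have h2 : IsSquare ((((-(G * g0 a i) : ℤ) : ℚ)⁻¹) ^ m i *
      (if m i % 2 = 1 then ((-(G * g0 a i) : ℤ) : ℚ) else 1)) := by
    apply sq_inv_mul
    push_cast
    exact neg_ne_zero.2 (mul_ne_zero hG hge0)
  have h3 := h1.mul (h2.mul (IsSquare.sq ((c⁻¹) ^ m i)))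
  rw [prod_mul_distrib] at h3
  have e1 : ∏ k ∈ univ.erase i, (if k = i then -(D.δ * ge D i)⁻¹ else D.e i - D.e k) ^ m k =
      ∏ k ∈ univ.erase i, ((a i - a k : ℤ) : ℚ) ^ m k := by
    refine prod_congr rfl fun k hk => ?_
    rw [if_neg (ne_of_mem_erase hk), he, he]
    push_cast
    rfl
  have e2 : (-(D.δ * ge D i)⁻¹) ^ m i = (((-(G * g0 a i) : ℤ) : ℚ)⁻¹) ^ m i * ((c⁻¹) ^ m i) ^ 2 := by
    rw [hδ, hge, ← pow_mul, mul_comm (m i) 2, pow_mul, ← mul_pow]
    congr 1
    push_cast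
    field_simp
  rw [e1, e2]
  have e3 : ((∏ k ∈ univ.erase i, (if decide (m k % 2 = 1) = true then a i - a k else 1) : ℤ) : ℚ) =
      ∏ k ∈ univ.erase i, (if m k % 2 = 1 then ((a i - a k : ℤ) : ℚ) else 1) := by
    push_cast
    refine prod_congr rfl fun k _ => ?_
    by_cases h4 : m k % 2 = 1
    · simp [h4]
    · simp [h4]
  rw [Int.cast_mul, Int.cast_mul, e3]
  have e4 : (((if decide (m i % 2 = 1) = true then - g0 a i else 1 : ℤ) : ℤ) : ℚ) *
      ((if decide (m i % 2 = 1) = true then G else 1 : ℤ) : ℚ) =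
      if m i % 2 = 1 then ((-(G * g0 a i) : ℤ) : ℚ) else 1 := by
    by_cases h4 : m i % 2 = 1
    · simp [h4]
      ring
    · simp [h4]
  have e5 : ∀ A B P Q R S : ℚ, B * S * A * (P * Q * R) = A * P * (B * (Q * R) * S) :=
    fun _ _ _ _ _ _ => by ring
  rw [e5, e4]
  exact h3

/-! ## the local conditions -/

section loc
variable {p : ℕ} [hp : Fact p.Prime]

lemma ndvd_kcf {n : ℕ} {a : Fin n → ℤ} (hsub : ∀ i k, i ≠ k → ¬ (p : ℤ) ∣ a i - a k) (i : Fin n)
    (M : Fin n → Bool) : ¬ (p : ℤ) ∣ kcf a i M := by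
  have hpi : Prime (p : ℤ) := Nat.prime_iff_prime_int.1 hp.out
  have h1 : ¬ (p : ℤ) ∣ 1 := fun h => hpi.not_isUnit (isUnit_of_dvd_one h)
  unfold kcf
  intro h
  rcases hpi.dvd_or_dvd h with h2 | h2
  · obtain ⟨k, hk, h3⟩ := (hpi.dvd_finsetProd_iff _).1 h2
    split_ifs at h3
    · exact hsub _ _ (ne_of_mem_erase hk).symm h3
    · exact h1 h3
  · split_ifs at h2
    · rw [Int.dvd_neg] at h2
      obtain ⟨k, hk, h3⟩ := (hpi.dvd_finsetProd_iff _).1 h2
      exact hsub _ _ (ne_of_mem_erase hk).symm h3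
    · exact h1 h2

/-- the symbols of the class of a torsion point -/
lemma TT_sym {n : ℕ} {a : Fin n → ℤ} {G : ℤ} (hsub : ∀ i k, i ≠ k → ¬ (p : ℤ) ∣ a i - a k)
    (hG1 : (p : ℤ) ∣ G) (hG2 : ¬ (p : ℤ) ^ 2 ∣ G) {neg : Bool}
    (hneg : neg = true ↔ jacobiSym (G / p) p = -1) (i : Fin n) (M : Fin n → Bool) :
    ¬ (p : ℤ) ^ 2 ∣ TT a G i M ∧ dv p (TT a G i M) = M i ∧
      sgn p (TT a G i M) = xor (M i && neg) (sg0 p (kcf a i M)) := by
  have hpi : Prime (p : ℤ) := Nat.prime_iff_prime_int.1 hp.out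
  have hp0 : (p : ℤ) ≠ 0 := hpi.ne_zero
  have hk := ndvd_kcf hsub i M
  obtain ⟨q, hq⟩ := hG1
  have hnq : ¬ (p : ℤ) ∣ q := by
    intro h
    apply hG2
    rw [hq, pow_two]
    exact mul_dvd_mul_left _ h
  have h5 : sg0 p q = neg := by
    have hq2 : G / p = q := by rw [hq, Int.mul_ediv_cancel_left _ hp0]
    rw [hq2] at hneg
    unfold sg0
    by_cases h6 : neg = true
    · rw [h6, decide_eq_true_eq]; exact hneg.1 h6
    · have h7 : ¬ jacobiSym q p = -1 := fun h8 => h6 (hneg.2 h8)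
      rw [Bool.not_eq_true] at h6
      rw [h6, decide_eq_false_iff_not]; exact h7
  unfold TT
  by_cases hM : M i = true
  · rw [if_pos hM, hM]
    have e1 : kcf a i M * G = (p : ℤ) * (q * kcf a i M) := by rw [hq]; ring
    refine ⟨?_, ?_, ?_⟩
    · intro h
      rw [e1, pow_two] at h
      have h2 := (mul_dvd_mul_iff_left hp0).1 h
      exact (hpi.dvd_or_dvd h2).elim hnq hk
    · rw [e1, Pool.Agent.W342.RK2.dv_mul]
    · rw [e1, Pool.Agent.W342.RK2.sgn_mul, Pool.Agent.W342.RK2.sg0_mul hnq hk, h5]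
      rfl
  · rw [if_neg hM, mul_one]
    rw [Bool.not_eq_true] at hM
    refine ⟨fun h => hk ((Dvd.intro_left _ (by rw [pow_two])).trans h), ?_, ?_⟩
    · rw [Pool.Agent.W342.RK2.dv_unit hk, hM]
    · rw [Pool.Agent.W342.RK2.sgn_unit hk, hM]
      simp

lemma sq_cast {x : ℚ} (h : IsSquare x) : IsSquare ((x : ℚ) : ℚ_[p]) := by
  obtain ⟨y, hy⟩ := h
  exact ⟨y, by rw [hy]; push_cast; rfl⟩

/-- the local condition for the classes -/
theorem loc_cond {n : ℕ} (hn : Odd n) (D : Dat 2 n ℚ) {a : Fin n → ℤ} {G : ℤ} {c0 : ℚ}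
    (hc0' : c0 ≠ 0) (hδ : D.δ = c0 ^ 2 * G) (he : ∀ i, D.e i = a i) (hsub : ∀ i k, i ≠ k → ¬ (p : ℤ) ∣ a i - a k)
    (hG1 : (p : ℤ) ∣ G) (hG2 : ¬ (p : ℤ) ^ 2 ∣ G) {neg : Bool}
    (hneg : neg = true ↔ jacobiSym (G / p) p = -1) {b : Fin n → ℚ} (hb : ∀ i, b i ≠ 0)
    (hprod : IsSquare (∏ i, b i)) {m : Fin n → ℕ} (hm : Even (∑ k, m k))
    (hloc : ∀ i j, IsSquare ((b i * b j * (Ts D m i * Ts D m j) : ℚ) : ℚ_[p]))
    {f : Fin n → ℤ} (hf : ∀ i, Squarefree (f i)) (hbf : ∀ i, IsSquare (b i * f i)) :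
    ∃ M : Fin n → Bool, ∑ k, bz (M k) = 0 ∧
      ∀ i, dv p (f i) = M i ∧ sgn p (f i) = xor (M i && neg) (sg0 p (kcf a i M)) := by
  classical
  have hpi : Prime (p : ℤ) := Nat.prime_iff_prime_int.1 hp.out
  refine ⟨fun k => decide (m k % 2 = 1), ?_, fun i => ?_⟩
  · have h1 : ∀ k, bz (decide (m k % 2 = 1)) = (m k : ZMod 2) := by
      intro k
      rcases Nat.mod_two_eq_zero_or_one (m k) with h | h
      · rw [h]
        have h2 : ((m k : ℕ) : ZMod 2) = 0 := (ZMod.natCast_eq_zero_iff _ _).2 (Nat.dvd_of_mod_eq_zero h)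
        rw [h2]
        simp [bz]
      · rw [h]
        have h2 : ((m k : ℕ) : ZMod 2) = 1 := by
          have h3 : m k = 2 * (m k / 2) + 1 := by omega
          rw [h3]
          push_cast
          have h4 : (2 : ZMod 2) = 0 := by decide
          rw [h4]
          simp
        rw [h2]
        simp [bz]
    rw [sum_congr rfl fun k _ => h1 k, ← Nat.cast_sum]
    exact (ZMod.natCast_eq_zero_iff _ _).2 hm.two_dvd
  · set c : Fin n → ℚ := fun i => b i * Ts D m i with hc
    have hc0 : ∀ i, c i ≠ 0 := fun i => mul_ne_zero (hb i) (Ts_ne D m i)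
    have hcc : ∀ i, ((c i : ℚ) : ℚ_[p]) ≠ 0 := fun i => by exact_mod_cast hc0 i
    have h1 : ∀ j, IsSquare ((c i * c j : ℚ) : ℚ_[p]) := by
      intro j
      have h2 := hloc i j
      have e : b i * b j * (Ts D m i * Ts D m j) = c i * c j := by simp only [hc]; ring
      rwa [e] at h2
    have h2 : IsSquare ((∏ j, c j : ℚ) : ℚ_[p]) := by
      have h3 : ∏ j, c j = (∏ j, b j) * ∏ j, Ts D m j := by simp only [hc, prod_mul_distrib]
      rw [h3]
      apply sq_cast
      refine hprod.mul ?_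
      rw [prod_Ts D hn]
      exact hm.isSquare_pow _
    have h3 : IsSquare ((∏ j, (c i * c j) : ℚ) : ℚ_[p]) := by
      push_cast
      exact isq_prod _ _ fun j _ => by
        have := h1 j
        push_cast at this
        exact this
    have h4 : IsSquare ((c i : ℚ) : ℚ_[p]) := by
      have e1 : ∏ j, (c i * c j) = c i ^ n * ∏ j, c j := by
        rw [prod_mul_distrib, prod_const, card_univ, Fintype.card_fin]
      rw [e1] at h3
      obtain ⟨r, hr⟩ := hn
      have e3 : c i ^ n = c i ^ (2 * r + 1) := congrArg (fun k => c i ^ k) hr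
      have e2 : c i ^ n * ∏ j, c j = ((c i ^ r) ^ 2 * ∏ j, c j) * c i := by
        rw [e3]
        ring
      rw [e2] at h3
      push_cast at h3
      push_cast at h2
      refine Pool.Agent.W599.RK.IsSquare.cancel ?_ h3 ?_
      · exact (IsSquare.sq _).mul h2
      · refine mul_ne_zero (pow_ne_zero _ (pow_ne_zero _ (hcc i))) ?_
        exact prod_ne_zero_iff.2 fun j _ => hcc j
    have h5 : IsSquare ((b i * (TT a G i (fun k => decide (m k % 2 = 1)) : ℤ) : ℚ) : ℚ_[p]) := by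
      have h6 : IsSquare ((Ts D m i * (TT a G i (fun k => decide (m k % 2 = 1)) : ℚ) : ℚ) : ℚ_[p]) :=
        sq_cast (Ts_TT D hc0' hδ he m i)
      have h7 : ((Ts D m i : ℚ) : ℚ_[p]) ≠ 0 := by exact_mod_cast Ts_ne D m i
      have h8 := h4.mul h6
      refine Pool.Agent.W599.RK.IsSquare.cancel (a := (((Ts D m i : ℚ) : ℚ_[p])) ^ 2)
        (IsSquare.sq _) ?_ (pow_ne_zero _ h7)
      have e1 : ((c i : ℚ) : ℚ_[p]) = ((b i : ℚ) : ℚ_[p]) * ((Ts D m i : ℚ) : ℚ_[p]) := by
        have : c i = b i * Ts D m i := rfl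
        rw [this]
        push_cast
        rfl
      rw [e1] at h8
      have e2 : (((Ts D m i : ℚ) : ℚ_[p])) ^ 2 *
          ((b i * (TT a G i (fun k => decide (m k % 2 = 1)) : ℤ) : ℚ) : ℚ_[p]) =
          ((b i : ℚ) : ℚ_[p]) * ((Ts D m i : ℚ) : ℚ_[p]) *
          ((Ts D m i * (TT a G i (fun k => decide (m k % 2 = 1)) : ℚ) : ℚ) : ℚ_[p]) := by
        push_cast
        ring
      rw [e2]
      exact h8
    obtain ⟨t1, t2, t3⟩ := TT_sym hsub hG1 hG2 hneg i (fun k => decide (m k % 2 = 1))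
    have hf2 : ¬ (p : ℤ) ^ 2 ∣ f i := by
      intro h
      have h1 := hf i (p : ℤ) (by rw [← pow_two]; exact h)
      exact hpi.not_isUnit h1
    have h9 := Pool.Agent.W342.RK2.cmpx (p := p) (hb i) hf2 t1 (sq_cast (hbf i)) h5
    rw [h9.1, h9.2, t2, t3]
    exact ⟨rfl, rfl⟩

end loc

end Run7.h69.JB
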