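import Mathlib
import Pool.Agent.Run7.h69.JB2

/-!
# Counting families of square classes with local conditions
-/

set_option autoImplicit false
set_option linter.unusedSectionVars false

namespace Run7.h69.JB

open Finset
open Pool.Agent.W262.RK (dv sgn sg0)
open Pool.Agent.W214.RK2 (dd dd_sq dd_dvd dd_key exists_rep)
open EX (Bk)

open Classical in
lemma repsJ {X : Type} {K : ℕ} (x : X → Fin K → ℚ) (m : ℕ) (hm : Squarefree m) (OP : Finset ℕ)
    (C : ℕ → Bk K → Bk K → Prop)
    (hC : ∀ p : ℕ, p.Prime → p ∣ m → ∀ v h v' h', C p v h → C p v' h' →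
      C p (fun l => xor (v l) (v' l)) (fun l => xor (h l) (h' l)))
    (hx0 : ∀ P l, x P l ≠ 0)
    (hgood : ∀ q : ℕ, q.Prime → ¬ q ∣ m → q ∉ OP → ∀ P l, Even (padicValRat q (x P l)))
    (hloc : ∀ p : ℕ, p.Prime → p ∣ m → ∀ P, ∀ f : Fin K → ℤ, (∀ l, Squarefree (f l)) →
      (∀ l, IsSquare (x P l * f l)) → C p (fun l => dv p (f l)) (fun l => sgn p (f l)))
    (S : Finset X) (hinj : ∀ P ∈ S, ∀ P' ∈ S, (∀ l, IsSquare (x P l * x P' l)) → P = P') :
    S.card ≤ (2 ^ (OP.card + 1)) ^ K *
      ((Fintype.piFinset (fun _ : Fin K => m.divisors)).filter (fun d => ∀ p ∈ m.primeFactors,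
        C p (fun l => dv p (d l)) (fun l => sgn p (d l)))).card := by
  set F := (Fintype.piFinset (fun _ : Fin K => m.divisors)).filter (fun d => ∀ p ∈ m.primeFactors,
        C p (fun l => dv p (d l)) (fun l => sgn p (d l))) with hF
  let out : X → Fin K → Bool × (OP → Bool) := fun P l =>
    (decide (0 < x P l), fun q => decide (Even (padicValRat q.1 (x P l))))
  have hcmp : ∀ P P' : X, out P = out P' → ∀ l, (0 < x P l ↔ 0 < x P' l) ∧
      (∀ q : ℕ, q.Prime → ¬ q ∣ m →
        (Even (padicValRat q (x P l)) ↔ Even (padicValRat q (x P' l)))) := by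
    intro P P' ho l
    have h0 := congrFun ho l
    have h1 : decide (0 < x P l) = decide (0 < x P' l) := congrArg Prod.fst h0
    refine ⟨decide_eq_decide.mp h1, fun q hq hqm => ?_⟩
    by_cases hD : q ∈ OP
    · have h4 := congrFun (congrArg Prod.snd h0) ⟨q, hD⟩
      exact decide_eq_decide.mp h4
    · exact ⟨fun _ => hgood q hq hqm hD P' l, fun _ => hgood q hq hqm hD P l⟩
  have hsqs : ∀ P P' : X, out P = out P' → ∀ l,
      IsSquare (x P l * x P' l * (dd m (x P l) (x P' l) : ℚ)) := by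
    intro P P' ho l
    obtain ⟨c1, c2⟩ := hcmp P P' ho l
    exact dd_sq m hm _ _ (hx0 P l) (hx0 P' l) c1 (fun q hq hqm => c2 q hq hqm)
  have hFmem : ∀ P P' : X, out P = out P' → (fun l => dd m (x P l) (x P' l)) ∈ F := by
    intro P P' ho
    have s1 := hsqs P P' ho
    rw [hF, Finset.mem_filter, Fintype.mem_piFinset]
    refine ⟨fun l => Nat.mem_divisors.mpr ⟨dd_dvd m hm _ _, hm.ne_zero⟩, fun p hp => ?_⟩
    rw [Nat.mem_primeFactors] at hp
    have he := fun l => exists_rep (x P l) (hx0 P l)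
    choose e1 he1 hxe1 using he
    have hf := fun l => exists_rep (x P' l) (hx0 P' l)
    choose f1 hf1 hxf1 using hf
    have l1 := hloc p hp.1 hp.2.1 P e1 he1 hxe1
    have l2 := hloc p hp.1 hp.2.1 P' f1 hf1 hxf1
    have h3 := hC p hp.1 hp.2.1 _ _ _ _ l1 l2
    have k := fun l => dd_key m hm _ _ (hx0 P l) (hx0 P' l) (s1 l) (e1 l) (f1 l) (he1 l) (hf1 l)
      (hxe1 l) (hxf1 l) p hp.1
    have e3 : (fun l => dv p ((dd m (x P l) (x P' l) : ℕ) : ℤ)) =
        fun l => xor (dv p (e1 l)) (dv p (f1 l)) := funext fun l => (k l).1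
    have e4 : (fun l => sgn p ((dd m (x P l) (x P' l) : ℕ) : ℤ)) =
        fun l => xor (sgn p (e1 l)) (sgn p (f1 l)) := funext fun l => (k l).2
    rw [e3, e4]
    exact h3
  have hfib : ∀ o ∈ (univ : Finset (Fin K → Bool × (OP → Bool))),
      (S.filter (fun P => out P = o)).card ≤ F.card := by
    intro o _
    rcases (S.filter (fun P => out P = o)).eq_empty_or_nonempty with h0 | ⟨P0, hP0⟩
    · rw [h0, card_empty]
      exact Nat.zero_le _
    rw [mem_filter] at hP0
    refine Finset.card_le_card_of_injOn (fun P => fun l => dd m (x P l) (x P0 l)) ?_ ?_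
    · intro P hP
      rw [mem_coe, mem_filter] at hP
      exact hFmem P P0 (hP.2.trans hP0.2.symm)
    · intro P hP P' hP' h
      rw [mem_coe, mem_filter] at hP hP'
      refine hinj P hP.1 P' hP'.1 fun l => ?_
      have s1 := hsqs P P0 (hP.2.trans hP0.2.symm) l
      have s2 := hsqs P' P0 (hP'.2.trans hP0.2.symm) l
      have h2 : dd m (x P l) (x P0 l) = dd m (x P' l) (x P0 l) := congrFun h l
      rw [← h2] at s2
      have hd1 : dd m (x P l) (x P0 l) ≠ 0 := (hm.squarefree_of_dvd (dd_dvd m hm _ _)).ne_zero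
      have hd' : (dd m (x P l) (x P0 l) : ℚ) ≠ 0 := by exact_mod_cast hd1
      apply Pool.Agent.W599.RK.IsSquare.cancel
        (a := (x P0 l * (dd m (x P l) (x P0 l) : ℚ)) ^ 2) (IsSquare.sq _)
      · have h3 := s1.mul s2
        have e : (x P0 l * (dd m (x P l) (x P0 l) : ℚ)) ^ 2 * (x P l * x P' l) =
            x P l * x P0 l * (dd m (x P l) (x P0 l) : ℚ) *
              (x P' l * x P0 l * (dd m (x P l) (x P0 l) : ℚ)) := by
          ring
        rw [e]
        exact h3
      · exact pow_ne_zero 2 (mul_ne_zero (hx0 P0 l) hd')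
  have h1 := Finset.card_le_mul_card_image_of_maps_to (s := S) (t := univ) (f := out)
    (fun _ _ => mem_univ _) F.card hfib
  refine h1.trans ?_
  rw [mul_comm, Finset.card_univ, Fintype.card_fun, Fintype.card_prod, Fintype.card_bool,
    Fintype.card_fun, Fintype.card_bool, Fintype.card_coe, Fintype.card_fin, pow_succ,
    mul_comm (2 ^ OP.card) 2]

end Run7.h69.JB
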