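import Mathlib
import Pool.Agent.Run7.h69.JB3

/-!
# The places of the rational numbers
-/

set_option autoImplicit false
set_option linter.unusedSectionVars false

namespace Run7.h69.JB

open IsDedekindDomain Rat.HeightOneSpectrum
open Pool.Agent.Y713.SE (Pw Dat)

/-- the place -/
noncomputable def pl (p : ℕ) (hp : p.Prime) : HeightOneSpectrum ℤ :=
  (primesEquiv (R := ℤ)).symm ⟨p, hp⟩

lemma pl_eq (p : ℕ) (hp : p.Prime) : primesEquiv (pl p hp) = (⟨p, hp⟩ : Nat.Primes) :=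
  Equiv.apply_symm_apply _ _

lemma pl_ideal (p : ℕ) (hp : p.Prime) : (pl p hp).asIdeal = Ideal.span {(p : ℤ)} := by
  have h1 : (pl p hp).asIdeal =
      (Ideal.span {(p : ℤ)}).map (Rat.IsIntegralClosure.intEquiv ℤ).symm := rfl
  rw [h1, Ideal.map_span, Set.image_singleton]
  congr 2
  exact map_natCast _ _

lemma val_self (p : ℕ) (hp : p.Prime) : (pl p hp).valuation ℚ (p : ℚ) = WithZero.exp (-1 : ℤ) := by
  have h3 : (p : ℚ) = algebraMap ℤ ℚ (p : ℤ) := by simp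
  rw [h3, (pl p hp).valuation_of_algebraMap]
  exact (pl p hp).intValuation_singleton (by exact_mod_cast hp.ne_zero) (pl_ideal p hp)

lemma isEquiv_of {v : HeightOneSpectrum ℤ} {P : Nat.Primes} (h : primesEquiv v = P) :
    haveI : Fact P.1.Prime := ⟨P.2⟩
    (v.valuation ℚ).IsEquiv (Rat.padicValuation P.1) := by
  subst h
  exact valuation_equiv_padicValuation v

lemma val_eq (p : ℕ) (hp : p.Prime) {x : ℚ} (hx : x ≠ 0) :
    (pl p hp).valuation ℚ x = WithZero.exp (-(padicValRat p x)) := by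
  haveI : Fact p.Prime := ⟨hp⟩
  set k := padicValRat p x with hk
  have hp0 : (p : ℚ) ≠ 0 := by exact_mod_cast hp.ne_zero
  have hpk : (p : ℚ) ^ k ≠ 0 := zpow_ne_zero _ hp0
  have hv : padicValRat p ((p : ℚ) ^ k) = k := by
    rw [padicValRat.zpow, padicValRat.self hp.one_lt, mul_one]
  have h1 : Rat.padicValuation p (x / (p : ℚ) ^ k) = 1 := by
    have h2 : x / (p : ℚ) ^ k ≠ 0 := div_ne_zero hx hpk
    have h3 : padicValRat p (x / (p : ℚ) ^ k) = 0 := by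
      rw [padicValRat.div hx hpk, hv, hk, sub_self]
    simp only [Rat.padicValuation, Valuation.coe_mk, MonoidWithZeroHom.coe_mk, ZeroHom.coe_mk,
      if_neg h2, h3, neg_zero, WithZero.exp_zero]
  have h2 := (isEquiv_of (pl_eq p hp)).eq_one_iff_eq_one.2 h1
  rw [map_div₀, map_zpow₀, val_self, ← WithZero.exp_zsmul] at h2
  have h3 : (WithZero.exp (k • (-1 : ℤ)) : WithZero (Multiplicative ℤ)) ≠ 0 := WithZero.exp_ne_zero
  rw [div_eq_one_iff_eq h3] at h2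
  rw [h2]
  congr 1
  simp

lemma val_one {p : ℕ} (hp : p.Prime) {r : ℤ} (hr : ¬ (p : ℤ) ∣ r) :
    (pl p hp).valuation ℚ (r : ℚ) = 1 := by
  haveI : Fact p.Prime := ⟨hp⟩
  have hr0 : (r : ℚ) ≠ 0 := by
    intro h
    apply hr
    have : r = 0 := by exact_mod_cast h
    rw [this]
    exact dvd_zero _
  rw [val_eq p hp hr0, Pool.Agent.W22.RK.v_int hr, neg_zero, WithZero.exp_zero]

lemma pw_even {p : ℕ} (hp : p.Prime) {x : ℚ} (hx : x ≠ 0)
    (h : Pw 2 ((pl p hp).valuation ℚ x)) : Even (padicValRat p x) := by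
  obtain ⟨β, hβ⟩ := h
  rw [val_eq p hp hx] at hβ
  have hβ0 : β ≠ 0 := by
    rintro rfl
    rw [zero_pow two_ne_zero] at hβ
    exact WithZero.exp_ne_zero hβ
  obtain ⟨m, rfl⟩ : ∃ m : ℤ, β = WithZero.exp m := ⟨WithZero.log β, (WithZero.exp_log hβ0).symm⟩
  rw [← WithZero.exp_nsmul, WithZero.exp_inj] at hβ
  simp only [nsmul_eq_mul, Nat.cast_ofNat] at hβ
  exact ⟨-m, by omega⟩

lemma not_pw {p : ℕ} (hp : p.Prime) {r : ℤ} (h1 : (p : ℤ) ∣ r) (h2 : ¬ (p : ℤ) ^ 2 ∣ r) {c : ℚ}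
    (hc : c ≠ 0) : ¬ Pw 2 ((pl p hp).valuation ℚ (c ^ 2 * r : ℚ)) := by
  haveI : Fact p.Prime := ⟨hp⟩
  obtain ⟨q, hq⟩ := h1
  have hnq : ¬ (p : ℤ) ∣ q := by
    intro h
    apply h2
    rw [hq, pow_two]
    exact mul_dvd_mul_left _ h
  have hq0 : q ≠ 0 := by rintro rfl; exact hnq (dvd_zero _)
  have hp0 : ((p : ℕ) : ℚ) ≠ 0 := by exact_mod_cast hp.ne_zero
  intro h
  have hr0 : (r : ℚ) ≠ 0 := by
    rw [hq]
    push_cast
    exact mul_ne_zero hp0 (by exact_mod_cast hq0)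
  have h3 := pw_even hp (mul_ne_zero (pow_ne_zero 2 hc) hr0) h
  rw [padicValRat.mul (pow_ne_zero 2 hc) hr0, padicValRat.pow, hq] at h3
  push_cast at h3
  rw [padicValRat.mul hp0 (by exact_mod_cast hq0), Pool.Agent.W22.RK.v_int hnq,
    padicValRat.self hp.one_lt] at h3
  obtain ⟨k, hk⟩ := h3
  omega

lemma sq_of_eq {v : HeightOneSpectrum ℤ} {P : Nat.Primes} (h : primesEquiv v = P) {r : ℚ}
    (hr : ∃ y : v.adicCompletion ℚ, algebraMap ℚ (v.adicCompletion ℚ) r = y ^ 2) :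
    haveI : Fact P.1.Prime := ⟨P.2⟩
    IsSquare ((r : ℚ) : ℚ_[P.1]) := by
  subst h
  obtain ⟨y, hy⟩ := hr
  have h1 := congrArg (adicCompletion.padicEquiv v) hy
  refine ⟨adicCompletion.padicEquiv v y, ?_⟩
  rw [map_pow] at h1
  have h2 : (adicCompletion.padicEquiv v) (algebraMap ℚ (v.adicCompletion ℚ) r) =
      algebraMap ℚ _ r := (adicCompletion.padicEquiv v).toAlgEquiv.commutes r
  rw [h2] at h1
  rw [← pow_two, ← h1]
  simp

lemma sq_of {p : ℕ} (hp : p.Prime) {r : ℚ}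
    (hr : ∃ y : (pl p hp).adicCompletion ℚ, algebraMap ℚ ((pl p hp).adicCompletion ℚ) r = y ^ 2) :
    haveI : Fact p.Prime := ⟨hp⟩
    IsSquare ((r : ℚ) : ℚ_[p]) := sq_of_eq (pl_eq p hp) hr

end Run7.h69.JB
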