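import Mathlib
import Pool.Agent.Run7.h69.JB4
import Pool.Agent.Y164.HG.Kda
import Pool.Agent.Y164.HG.Rk

/-!
# The number of the Selmer classes of a twist is bounded by the number of the solutions of the symbol
conditions
-/

set_option autoImplicit false
set_option linter.unusedSectionVars false

namespace Run7.h69.JB

open Finset IsDedekindDomain
open Pool.Agent.Y713.SE Pool.Agent.Y713.SE.Dat
open Pool.Agent.Y164.HG (mm mm_ne mm_rel kd_ne)
open Pool.Agent.Y31.HG.Adj (sq_PT)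
open Pool.Agent.W262.RK (dv sgn sg0)
open Pool.Agent.W214.RK2 (exists_rep)
open EX (Bk)
open XP (bz zmod2)

section
variable {n : ℕ} {K : Type} [Field K] (D : Dat 2 n K) {L : Type} [Field L] [Algebra K L]

lemma cl_add (m m' : Fin n → ℕ) : cl ((D.base L).PT (m + m')) =
    cl ((D.base L).PT m) * cl ((D.base L).PT m') := by
  rw [cl_PT, cl_PT, cl_PT, ← Finset.prod_mul_distrib]
  exact Finset.prod_congr rfl fun k _ => by rw [Pi.add_apply, pow_add]

/-- equal classes modulo squares give equal cocycles -/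
theorem same_of [IsGalois K L] {χ χ' : (L ≃ₐ[K] L) → Fin n → ℕ} (kd : D.KD χ) (kd' : D.KD χ')
    (h : ∀ i j, IsSquare (kd.d i j * kd'.d i j)) (σ : L ≃ₐ[K] L) :
    cl ((D.base L).PT (χ σ)) = cl ((D.base L).PT (χ' σ)) := by
  let k2 : D.KD (fun σ => χ σ + χ' σ) :=
    { θ := fun i j => kd.θ i j * kd'.θ i j
      d := fun i j => kd.d i j * kd'.d i j
      h0 := fun i j => mul_ne_zero (kd.h0 i j) (kd'.h0 i j)
      hθ := fun τ i j => by
        have h1 := kd.hθ τ i j
        have h2 := kd'.hθ τ i j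
        rw [Pi.add_apply, Pi.add_apply, pow_add, pow_add, map_mul]
        linear_combination ((D.base L).ζ ^ χ' τ j * τ (kd'.θ i j)) * h1 +
          ((D.base L).ζ ^ χ τ i * kd.θ i j) * h2
      hd := fun i j => by rw [mul_pow, kd.hd, kd'.hd, map_mul] }
  have h1 : cl ((D.base L).PT (χ σ + χ' σ)) = 1 := by
    apply (D.base L).cl_PT_of_modEq
    intro i j
    obtain ⟨y, hy⟩ := h i j
    exact D.modEq_of_pow k2 (y := y) (by
      show kd.d i j * kd'.d i j = y ^ 2
      rw [hy, pow_two]) σ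
  rw [cl_add] at h1
  have h2 := sq_PT D (L := L) (χ' σ)
  exact mul_right_cancel (h1.trans h2.symm)

/-- a torsion point has a representative with even sum -/
lemma exists_even (hn : Odd n) (m : Fin n → ℕ) :
    ∃ m' : Fin n → ℕ, cl ((D.base L).PT m') = cl ((D.base L).PT m) ∧ Even (∑ k, m' k) := by
  rcases Nat.even_or_odd (∑ k, m k) with h | h
  · exact ⟨m, rfl, h⟩
  · refine ⟨m + fun _ => 1, ?_, ?_⟩
    · rw [cl_add, (D.base L).cl_PT_of_modEq (m := fun _ => 1) fun i j => rfl, mul_one]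
    · simp only [Pi.add_apply, sum_add_distrib, sum_const, card_univ, Fintype.card_fin, smul_eq_mul,
        mul_one]
      exact h.add_odd hn

lemma prod_mm (hn : Odd n) {χ : (L ≃ₐ[K] L) → Fin n → ℕ} [IsGalois K L] (kd : D.KD χ) (i0 : Fin n) :
    IsSquare (∏ i, mm D kd i0 i) := by
  unfold mm
  rw [prod_mul_distrib, prod_const, card_univ, Fintype.card_fin]
  obtain ⟨r, hr⟩ := hn
  have e3 : (∏ j, kd.d j i0) ^ n = (∏ j, kd.d j i0) ^ (2 * r + 1) :=
    congrArg (fun k => (∏ j, kd.d j i0) ^ k) hr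
  rw [e3]
  exact ⟨(∏ j, kd.d j i0) ^ (r + 1), by ring⟩

end

section place
variable {n : ℕ} {K : Type} [Field K] (D : Dat 2 n K) {L : Type} [Field L] [Algebra K L]
  [IsGalois K L]
variable {R : Type} [CommRing R] [IsDedekindDomain R] [Algebra R K] [IsFractionRing R K]
variable {v : HeightOneSpectrum R} {Ω : Type} [Field Ω] [Algebra (v.adicCompletion K) Ω]
  [Algebra K Ω] [IsScalarTower K (v.adicCompletion K) Ω] [IsSepClosed Ω]
  [IsGalois (v.adicCompletion K) Ω]

/-- good places, the twist is a unit times a square -/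
theorem good_place' {p : ℕ} [ExpChar Ω p] (hv : D.Sep1 v) {c δ0 : K} (hc : c ≠ 0)
    (hcδ : D.δ = c ^ 2 * δ0) (hδ : v.valuation K δ0 = 1)
    (hℓ : v.valuation K ((2 : ℕ) : K) = 1) {χ : (L ≃ₐ[K] L) → Fin n → ℕ}
    (ht : D.Triv (v.adicCompletion K) Ω (fun σ => cl ((D.base L).PT (χ σ))))
    (kd : D.KD χ) (i j : Fin n) : Pw 2 (v.valuation K (kd.d i j)) := by
  obtain ⟨S, hS⟩ := exists_LSv v 2 Ω hℓ
  replace hS : Cpt S := hS
  obtain ⟨ι, P, hP⟩ := ht
  obtain ⟨χv, h1, h2⟩ := D.transfer (Q := 1) (χ' := χ) hP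
    (fun σ => by rw [map_one, div_one, div_one]) kd
  rw [map_one, div_one] at h1
  obtain ⟨B, hB, hBinv, hBc⟩ := D.exists_B h1
  have hone : ∀ i j, i ≠ j → S.nrm ((D.base Ω).e i - (D.base Ω).e j) = 1 := fun i j hij => by
    rw [D.e_sub]
    exact hS.one (hv i j hij)
  have hδ0' : S.nrm (algebraMap K Ω δ0) = 1 := hS.one hδ
  have hcv : algebraMap K (v.adicCompletion K) c ≠ 0 := (_root_.map_ne_zero _).2 hc
  set w : ℝ := S.nrm (algebraMap (v.adicCompletion K) Ω (algebraMap K (v.adicCompletion K) c)) with hw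
  have hGw : S.Gam w := ⟨_, hcv, rfl⟩
  have hδ' : S.nrm (D.base Ω).δ = w ^ 2 := by
    have e1 : (D.base Ω).δ = algebraMap K Ω D.δ := rfl
    rw [e1, hcδ, map_mul, map_mul, map_pow, map_pow, hδ0', mul_one, hw,
      ← IsScalarTower.algebraMap_apply]
  obtain ⟨μ, g, m, hμ, hg, hL⟩ := D.tame1 S (p := p) hone hB hBinv
  have hL' : ∀ i, D.Lam S i B = μ * (g i / w ^ m i) ^ 2 *
      D.Lam S i ((D.base Ω).PT (fun _ => 0)) := by
    intro i
    rw [hL, D.Lam_PT_sep1 hS hv, D.Lam_PT_sep1 hS hv, hδ']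
    rw [pow_zero, mul_one, div_pow, ← pow_mul, inv_pow, ← pow_mul, mul_comm 2 (m i)]
    ring
  have hcl : cl B * (D.base Ω).sC P = cl ((D.base Ω).PT (fun _ => 0)) * P := by
    rw [hBc, cl_PT]; simp
  have hθ0 : ι (kd.θ i j) ≠ 0 := (_root_.map_ne_zero _).2 (kd.h0 i j)
  obtain ⟨x, hx, hxθ⟩ := D.gam_of S h1 hθ0 (fun τ => h2 τ i j) hB hBinv hcl hμ
    (fun i => (hg i).div (hGw.pow _)) hL'
  have h3 : S.nrm (algebraMap (v.adicCompletion K) Ω (algebraMap K (v.adicCompletion K) (kd.d i j))) =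
      S.nrm (algebraMap (v.adicCompletion K) Ω x) ^ 2 := by
    rw [hxθ, ← map_pow, ← map_pow, kd.hd, AlgHom.commutes, ← IsScalarTower.algebraMap_apply]
  exact hS.pw rfl h3

end place

section generic
variable {n : ℕ} {K : Type} [Field K] (R : Type) [CommRing R] [IsDedekindDomain R] [Algebra R K]
  [IsFractionRing R K] (D : Dat 2 n K)

/-- a locally trivial cocycle with values in the torsion -/
structure SelC where
  /-- the exponents -/
  χ : (SeparableClosure K ≃ₐ[K] SeparableClosure K) → Fin n → ℕ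
  /-- the cocycle condition -/
  hc : D.Coc (fun σ => cl ((D.base (SeparableClosure K)).PT (χ σ)))
  /-- local triviality -/
  ht : ∀ v : HeightOneSpectrum R, D.Triv (v.adicCompletion K)
    (SeparableClosure (v.adicCompletion K))
    (fun σ => cl ((D.base (SeparableClosure K)).PT (χ σ)))

variable {R D}

/-- the cocycles agree -/
def SelC.Same (P P' : SelC R D) : Prop := ∀ σ, cl ((D.base (SeparableClosure K)).PT (P.χ σ)) =
  cl ((D.base (SeparableClosure K)).PT (P'.χ σ))

/-- the Kummer data -/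
noncomputable def kdP (P : SelC R D) : D.KD P.χ := (D.exists_KD P.hc).some

/-- the classes -/
noncomputable def bb (i0 : Fin n) (P : SelC R D) (i : Fin n) : K := mm D (kdP P) i0 i

lemma bb_ne (i0 : Fin n) (P : SelC R D) (i : Fin n) : bb i0 P i ≠ 0 := mm_ne D (kdP P) i0 i

lemma bb_sq (hn : Odd n) (i0 : Fin n) (P : SelC R D) : IsSquare (∏ i, bb i0 P i) :=
  prod_mm D hn (kdP P) i0

/-- the good places -/
theorem bb_good (i0 : Fin n) (P : SelC R D) {v : HeightOneSpectrum R} (hv : D.Sep1 v)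
    {c δ0 : K} (hc : c ≠ 0) (hcδ : D.δ = c ^ 2 * δ0) (hδ : v.valuation K δ0 = 1)
    (h2 : v.valuation K ((2 : ℕ) : K) = 1) (i : Fin n) :
    Pw 2 (v.valuation K (bb i0 P i)) := by
  obtain ⟨p, hexp⟩ := ExpChar.exists K
  haveI := hexp
  haveI : ExpChar (SeparableClosure (v.adicCompletion K)) p :=
    expChar_of_injective_algebraMap
      (algebraMap K (SeparableClosure (v.adicCompletion K))).injective p
  have h1 := fun i j => good_place' D (p := p) hv hc hcδ hδ h2 (P.ht v) (kdP P) i j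
  unfold bb mm
  rw [map_mul, map_prod]
  exact (h1 _ _).mul (Finset.prod_induction _ (Pw 2) (fun _ _ ha hb => ha.mul hb) Pw.one
    fun j _ => h1 _ _)

/-- the places that ramify in the twist -/
theorem bb_twist (hn : Odd n) (i0 : Fin n) (P : SelC R D) {v : HeightOneSpectrum R}
    (hv : D.Sep1 v) (hδ : ¬ Pw 2 (v.valuation K D.δ)) (h2 : v.valuation K ((2 : ℕ) : K) = 1) :
    ∃ m : Fin n → ℕ, Even (∑ k, m k) ∧ ∀ i j, ∃ y : v.adicCompletion K,
      algebraMap K (v.adicCompletion K) (bb i0 P i * bb i0 P j * (Ts D m i * Ts D m j)) = y ^ 2 := by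
  obtain ⟨p, hexp⟩ := ExpChar.exists K
  haveI := hexp
  haveI : ExpChar (SeparableClosure K) p :=
    expChar_of_injective_algebraMap (algebraMap K (SeparableClosure K)).injective p
  haveI : ExpChar (SeparableClosure (v.adicCompletion K)) p :=
    expChar_of_injective_algebraMap
      (algebraMap K (SeparableClosure (v.adicCompletion K))).injective p
  obtain ⟨m0, hm0⟩ := D.twist_place (p := p) hv hδ h2 (P.ht v)
  obtain ⟨m, hm1, hm2⟩ := exists_even D (L := SeparableClosure K) hn m0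
  refine ⟨m, hm2, fun i j => ?_⟩
  obtain ⟨Q, χ', hQ, hχ', hc'⟩ := D.exists_adj (p := p) m P.hc
  obtain ⟨kd'⟩ := D.exists_KD hc'
  obtain ⟨w, hw⟩ := hm0 Q χ' kd' (by rw [← hm1]; exact hQ) hχ' i j
  obtain ⟨x, hx0, hx⟩ := adj D (kdP P) kd' hQ hχ' i j
  obtain ⟨z, hz0, hz⟩ := mm_rel D (kdP P) i0 i j
  have hx0' : algebraMap K (v.adicCompletion K) x ≠ 0 := (_root_.map_ne_zero _).2 hx0
  refine ⟨algebraMap K (v.adicCompletion K) z * w / algebraMap K (v.adicCompletion K) x, ?_⟩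
  have e : bb i0 P i * bb i0 P j * (Ts D m i * Ts D m j) = z ^ 2 * kd'.d i j / x ^ 2 := by
    have e1 : bb i0 P i * bb i0 P j = z ^ 2 * (kdP P).d i j := hz
    rw [e1, hx]
    field_simp
  rw [e, map_div₀, map_mul, map_pow, map_pow, hw]
  ring

/-- the classes determine the cocycle -/
theorem bb_inj (i0 : Fin n) (P P' : SelC R D) (h : ∀ i, IsSquare (bb i0 P i * bb i0 P' i)) :
    P.Same P' := by
  refine same_of D (kdP P) (kdP P') fun i j => ?_
  obtain ⟨z, hz0, hz⟩ := mm_rel D (kdP P) i0 i j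
  obtain ⟨z', hz0', hz'⟩ := mm_rel D (kdP P') i0 i j
  refine Pool.Agent.W599.RK.IsSquare.cancel (a := (z * z') ^ 2) (IsSquare.sq _) ?_
    (pow_ne_zero _ (mul_ne_zero hz0 hz0'))
  have h1 := (h i).mul (h j)
  have e : (z * z') ^ 2 * ((kdP P).d i j * (kdP P').d i j) =
      bb i0 P i * bb i0 P' i * (bb i0 P j * bb i0 P' j) := by
    have e1 : bb i0 P i * bb i0 P j = z ^ 2 * (kdP P).d i j := hz
    have e2 : bb i0 P' i * bb i0 P' j = z' ^ 2 * (kdP P').d i j := hz'
    calc (z * z') ^ 2 * ((kdP P).d i j * (kdP P').d i j) =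
        (z ^ 2 * (kdP P).d i j) * (z' ^ 2 * (kdP P').d i j) := by ring
      _ = (bb i0 P i * bb i0 P j) * (bb i0 P' i * bb i0 P' j) := by rw [e1, e2]
      _ = _ := by ring
  rw [e]
  exact h1

end generic

end Run7.h69.JB
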