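import Mathlib
import Pool.Agent.Run7.h69.JB5

/-!
# The number of the Selmer classes of a twist is bounded by the number of the solutions of the symbol
conditions
-/

set_option autoImplicit false
set_option linter.unusedSectionVars false

namespace Run7.h69.JB

open Finset IsDedekindDomain
open Pool.Agent.Y713.SE Pool.Agent.Y713.SE.Dat
open Pool.Agent.W262.RK (dv sgn sg0)
open Pool.Agent.W214.RK2 (exists_rep)
open EX (Bk)
open XP (bz zmod2)

section place
variable {n : ℕ} {D : Dat 2 n ℚ} {a : Fin n → ℤ} {G : ℤ}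

lemma sep1 {q : ℕ} (hq : q.Prime) (he : ∀ i, D.e i = a i)
    (hsub : ∀ i k, i ≠ k → ¬ (q : ℤ) ∣ a i - a k) : D.Sep1 (pl q hq) := by
  intro i j hij
  rw [he, he, ← Int.cast_sub]
  exact val_one hq (hsub i j hij)

lemma val2 {q : ℕ} (hq : q.Prime) (h2 : q ≠ 2) : (pl q hq).valuation ℚ ((2 : ℕ) : ℚ) = 1 := by
  have h := val_one hq (r := 2) (by
    intro h
    have h3 : q ∣ 2 := by exact_mod_cast h
    exact h2 ((Nat.prime_dvd_prime_iff_eq hq Nat.prime_two).1 h3))
  exact_mod_cast h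

end place

/-- the number of the Selmer classes -/
theorem sel_bound {K : ℕ} (hn : Odd (K + 1)) {D : Dat 2 (K + 1) ℚ} {a : Fin (K + 1) → ℤ}
    {G : ℤ} {c : ℚ} (hc : c ≠ 0) (hδ : D.δ = c ^ 2 * G) (he : ∀ i, D.e i = a i) (s : ℕ)
    (hs : Squarefree s) (OP : Finset ℕ) (E : Finset ℕ)
    (hs2 : ∀ p : ℕ, p.Prime → p ∣ s → p ≠ 2 ∧ (p : ℤ) ∣ G ∧ ¬ (p : ℤ) ^ 2 ∣ G ∧
      ∀ i k, i ≠ k → ¬ (p : ℤ) ∣ a i - a k)
    (hOP : ∀ q : ℕ, q.Prime → ¬ q ∣ s → q ∉ OP → q ≠ 2 ∧ ¬ (q : ℤ) ∣ G ∧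
      ∀ i k, i ≠ k → ¬ (q : ℤ) ∣ a i - a k)
    (hE : ∀ p : ℕ, p.Prime → p ∣ s → (p ∈ E ↔ jacobiSym (G / p) p = -1))
    (S : Finset (SelC ℤ D)) (hinj : ∀ P ∈ S, ∀ P' ∈ S, P.Same P' → P = P') :
    S.card ≤ (2 ^ (OP.card + 1)) ^ K * JA.NJ (kc a) s E := by
  classical
  set i0 : Fin (K + 1) := Fin.last K with hi0
  set b : SelC ℤ D → Fin (K + 1) → ℚ := fun P i => bb i0 P i with hb
  have hb0 : ∀ P i, b P i ≠ 0 := fun P i => bb_ne i0 P i
  have hbsq : ∀ P, IsSquare (∏ i, b P i) := fun P => bb_sq hn i0 P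
  have hneg : ∀ p : ℕ, p.Prime → p ∣ s →
      (decide (p ∈ E) = true ↔ jacobiSym (G / p) p = -1) := by
    intro p hp hps
    rw [decide_eq_true_eq]
    exact hE p hp hps
  have hloc : ∀ p : ℕ, p.Prime → p ∣ s → ∀ P, ∀ f : Fin K → ℤ, (∀ l, Squarefree (f l)) →
      (∀ l, IsSquare (b P l.castSucc * f l)) →
      JA.Cb (kc a) (decide (p ∈ E)) p (fun l => dv p (f l)) (fun l => sgn p (f l)) := by
    intro p hp hps P f hf hbf
    haveI : Fact p.Prime := ⟨hp⟩
    obtain ⟨h2, hG1, hG2, hsub⟩ := hs2 p hp hps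
    obtain ⟨m, hm, hml0⟩ := bb_twist hn i0 P (sep1 hp he hsub)
      (by rw [hδ]; exact not_pw hp hG1 hG2 hc) (val2 hp h2)
    have hml : ∀ i j, IsSquare ((b P i * b P j * (Ts D m i * Ts D m j) : ℚ) : ℚ_[p]) :=
      fun i j => by
        obtain ⟨y, hy⟩ := hml0 i j
        exact sq_of hp ⟨y, by rw [← hy]⟩
    obtain ⟨f1, hf1, hbf1⟩ := exists_rep (b P i0) (hb0 P i0)
    obtain ⟨M, hM1, hM2⟩ := loc_cond (p := p) hn D hc hδ he hsub hG1 hG2 (hneg p hp hps) (hb0 P)
      (hbsq P) hm hml (f := Fin.snoc f f1)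
      (fun i => by
        refine Fin.lastCases ?_ (fun l => ?_) i
        · simp only [Fin.snoc_last]; exact hf1
        · simp only [Fin.snoc_castSucc]; exact hf l)
      (fun i => by
        refine Fin.lastCases ?_ (fun l => ?_) i
        · simp only [Fin.snoc_last]; exact hbf1
        · simp only [Fin.snoc_castSucc]; exact hbf l)
    intro l
    have h3 : ∀ l : Fin K, dv p (f l) = M l.castSucc := fun l => by
      have := (hM2 l.castSucc).1
      simpa only [Fin.snoc_castSucc] using this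
    have h4 := (hM2 l.castSucc).2
    simp only [Fin.snoc_castSucc] at h4
    have h5 : (fun l => dv p (f l)) = fun l => M l.castSucc := funext h3
    show sgn p (f l) = xor (dv p (f l) && decide (p ∈ E)) (sg0 p (kcf a l.castSucc
      (ex fun l => dv p (f l))))
    rw [h5, ex_of hM1, h4, h3 l]
  have key := repsJ (X := SelC ℤ D) (K := K) (fun P l => b P l.castSucc) s hs OP
    (fun p => JA.Cb (kc a) (decide (p ∈ E)) p)
    (fun p hp hps v h v' h' h1 h2 => by
      haveI : Fact p.Prime := ⟨hp⟩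
      exact JA.Cb_xor (kc_Hm a) hp (fun l w => ndvd_kcf (hs2 p hp hps).2.2.2 _ _) h1 h2)
    (fun P l => hb0 P _)
    (fun q hq hqs hqO P l => by
      obtain ⟨h2, hG, hsub⟩ := hOP q hq hqs hqO
      haveI : Fact q.Prime := ⟨hq⟩
      exact pw_even hq (hb0 P _) (bb_good i0 P (sep1 hq he hsub) hc hδ
        (val_one hq hG) (val2 hq h2) _))
    hloc S (fun P hP P' hP' h => by
      refine hinj P hP P' hP' (bb_inj i0 P P' ?_)
      have hall : ∀ i, IsSquare (b P i * b P' i) := by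
        intro i
        refine Fin.lastCases ?_ (fun l => h l) i
        have h1 := (hbsq P).mul (hbsq P')
        rw [Fin.prod_univ_castSucc, Fin.prod_univ_castSucc] at h1
        have h2 : IsSquare (∏ l : Fin K, (b P l.castSucc * b P' l.castSucc)) :=
          isq_prod _ _ fun l _ => h l
        refine Pool.Agent.W599.RK.IsSquare.cancel h2 ?_
          (prod_ne_zero_iff.2 fun l _ => mul_ne_zero (hb0 P _) (hb0 P' _))
        rw [prod_mul_distrib]
        have e5 : ∀ A B U V : ℚ, A * B * (U * V) = A * U * (B * V) := fun _ _ _ _ => by ring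
        rw [e5]
        exact h1
      exact hall)
  exact key

end Run7.h69.JB
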