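import Mathlib
import Pool.Agent.Run7.h69.JB6
import Pool.Agent.Y288.HG.Inj
import Pool.Agent.Y500.HG.Ext

/-!
# Selmer classes from rational points and from classes of order two
-/

set_option autoImplicit false
set_option linter.unusedSectionVars false

namespace Run7.h69.JB

open Finset IsDedekindDomain
open Pool.Agent.Y713.SE Pool.Agent.Y713.SE.Dat
open Pool.Agent.Y164.HG (sC_inv sq_eq_of)

section grp
variable {G : Type} [CommGroup G]

lemma eq_inv_of_sq {T : G} (h : T ^ 2 = 1) : T = T⁻¹ := by
  rw [sq] at h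
  exact eq_inv_of_mul_eq_one_left h

lemma grp1 {A B C E F : G} (h2 : F ^ 2 = A ^ 2 / C ^ 2) (h3 : B ^ 2 = E ^ 2) :
    (F / (A / B / (C / E))) ^ 2 = 1 := by
  rw [div_pow, div_pow, div_pow, div_pow, h2, h3, div_div_div_cancel_right, div_self']

lemma grp2 {f f' A B C E : G} (h : f / (A / C) = f' / (B / E)) : f / f' = A / B / (C / E) := by
  rw [div_div_div_comm, div_eq_div_iff_mul_eq_mul]
  rw [div_eq_div_iff_mul_eq_mul] at h
  rw [h, mul_comm]

lemma grp3 {F A B B' C E E' : G} (h : F / (A / B / (C / E)) = F / (A / B' / (C / E'))) :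
    B' / B = E' / E := by
  have h3 : A / B / (C / E) = A / B' / (C / E') := div_right_injective h
  rw [div_div_div_comm, div_div_div_comm A B' C E'] at h3
  have h4 : B / E = B' / E' := div_right_injective h3
  rw [div_eq_div_iff_mul_eq_mul] at h4
  rw [div_eq_div_iff_mul_eq_mul, mul_comm E' B, h4]

end grp

section
variable {n : ℕ} {K : Type} [Field K] (D : Dat 2 n K)

lemma root_ex (b : ClassGroup (D.base (SeparableClosure K)).A) : ∃ Q, Q ^ 2 = b := by
  obtain ⟨p, hexp⟩ := ExpChar.exists K
  haveI := hexp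
  haveI : ExpChar (SeparableClosure K) p :=
    expChar_of_injective_algebraMap (algebraMap K (SeparableClosure K)).injective p
  obtain ⟨Q, hQ⟩ := (D.base (SeparableClosure K)).phi_surj (p := p) b
  rw [sC_inv] at hQ
  exact ⟨Q, sq_eq_of hQ⟩

lemma tors_ex {T : ClassGroup (D.base (SeparableClosure K)).A} (h : T ^ 2 = 1) :
    ∃ m : Fin n → ℕ, cl ((D.base (SeparableClosure K)).PT m) = T := by
  obtain ⟨p, hexp⟩ := ExpChar.exists K
  haveI := hexp
  haveI : ExpChar (SeparableClosure K) p :=
    expChar_of_injective_algebraMap (algebraMap K (SeparableClosure K)).injective p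
  have h4 : T = (D.base (SeparableClosure K)).sC T := by
    rw [sC_inv]
    exact eq_inv_of_sq h
  obtain ⟨m', hm⟩ := (D.base (SeparableClosure K)).phi_ker (p := p) h4.symm
  exact ⟨m', by rw [hm, (D.base (SeparableClosure K)).cl_PT]⟩

/-- invariant classes are defined over the base field -/
lemma desc {U : ClassGroup (D.base (SeparableClosure K)).A}
    (hU : ∀ σ : SeparableClosure K ≃ₐ[K] SeparableClosure K, D.mC (au σ) U = U) :
    ∃ y : ClassGroup (D.base K).A, D.mC (Algebra.ofId K (SeparableClosure K)) y = U := by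
  obtain ⟨B, hB, hBc, hBinv⟩ := D.exists_can U
  obtain ⟨I0, hI0⟩ := Pool.Agent.Y500.HG.t 2 n K D (SeparableClosure K) B
    (fun σ => hBinv σ (hU σ))
  have hI0' : I0 ≠ ⊥ := by
    rintro rfl
    apply hB
    rw [← hI0]
    exact Ideal.map_bot
  exact ⟨cl I0, by rw [D.mC_cl _ hI0', hI0, hBc]⟩

variable (R : Type) [CommRing R] [IsDedekindDomain R] [Algebra R K] [IsFractionRing R K]

/-- a locally trivial cocycle whose square is a coboundary -/
structure ShC where
  /-- the cocycle -/
  c : (SeparableClosure K ≃ₐ[K] SeparableClosure K) → ClassGroup (D.base (SeparableClosure K)).A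
  /-- the cocycle condition -/
  hc : D.Coc c
  /-- local triviality -/
  ht : ∀ v : HeightOneSpectrum R, D.Triv (v.adicCompletion K)
    (SeparableClosure (v.adicCompletion K)) c
  /-- the square is a coboundary -/
  h2 : D.Cob (fun σ => c σ ^ 2)

variable {R D}

/-- a root -/
noncomputable def ShC.rt (s : ShC D R) : ClassGroup (D.base (SeparableClosure K)).A :=
  Classical.choose (root_ex D (Classical.choose s.h2))

lemma ShC.hrt (s : ShC D R) (σ : SeparableClosure K ≃ₐ[K] SeparableClosure K) :
    s.c σ ^ 2 = D.mC (au σ) s.rt ^ 2 / s.rt ^ 2 := by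
  have h1 : s.rt ^ 2 = Classical.choose s.h2 :=
    Classical.choose_spec (root_ex D (Classical.choose s.h2))
  have h2 := Classical.choose_spec s.h2 σ
  rw [← map_pow, h1]
  exact h2

/-- half of a point -/
noncomputable def half (x : ClassGroup (D.base K).A) : ClassGroup (D.base (SeparableClosure K)).A :=
  Classical.choose (root_ex D (D.mC (Algebra.ofId K (SeparableClosure K)) x))

lemma half_sq (x : ClassGroup (D.base K).A) :
    half x ^ 2 = D.mC (Algebra.ofId K (SeparableClosure K)) x :=
  Classical.choose_spec (root_ex D (D.mC (Algebra.ofId K (SeparableClosure K)) x))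

lemma half_inv (x : ClassGroup (D.base K).A)
    (σ : SeparableClosure K ≃ₐ[K] SeparableClosure K) : D.mC (au σ) (half x) ^ 2 = half x ^ 2 := by
  rw [← map_pow, half_sq, mC_mC]
  congr 2
  exact Subsingleton.elim _ _

lemma selOf_ex (x : ClassGroup (D.base K).A) (s : ShC D R) : ∃ P : SelC R D,
    ∀ σ, cl ((D.base (SeparableClosure K)).PT (P.χ σ)) =
      s.c σ / (D.mC (au σ) (s.rt / half x) / (s.rt / half x)) := by
  have h1 : ∀ σ : SeparableClosure K ≃ₐ[K] SeparableClosure K, ∃ m : Fin n → ℕ,
      cl ((D.base (SeparableClosure K)).PT m) =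
        s.c σ / (D.mC (au σ) (s.rt / half x) / (s.rt / half x)) := by
    intro σ
    apply tors_ex
    rw [_root_.map_div]
    exact grp1 (s.hrt σ) (half_inv x σ)
  choose χ hχ using h1
  have hfun : (fun σ => cl ((D.base (SeparableClosure K)).PT (χ σ))) =
      fun σ => s.c σ / (D.mC (au σ) (s.rt / half x) / (s.rt / half x)) := funext hχ
  refine ⟨⟨χ, ?_, fun v => ?_⟩, hχ⟩
  · rw [hfun]
    exact s.hc.div D _
  · rw [hfun]
    exact (s.ht v).div D _

/-- the Selmer class of a point and a class of order two -/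
noncomputable def selOf (x : ClassGroup (D.base K).A) (s : ShC D R) : SelC R D :=
  Classical.choose (selOf_ex x s)

lemma selOf_spec (x : ClassGroup (D.base K).A) (s : ShC D R) : ∀ σ,
    cl ((D.base (SeparableClosure K)).PT ((selOf x s).χ σ)) =
      s.c σ / (D.mC (au σ) (s.rt / half x) / (s.rt / half x)) :=
  Classical.choose_spec (selOf_ex x s)

/-- the Selmer class determines the class and the point modulo squares -/
theorem selOf_same (x x' : ClassGroup (D.base K).A) (s s' : ShC D R)
    (h : (selOf x s).Same (selOf x' s')) :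
    D.Cob (fun σ => s.c σ / s'.c σ) ∧ (s = s' → ∃ y, x' = x * y ^ 2) := by
  have h1 : ∀ σ, s.c σ / (D.mC (au σ) (s.rt / half x) / (s.rt / half x)) =
      s'.c σ / (D.mC (au σ) (s'.rt / half x') / (s'.rt / half x')) := by
    intro σ
    rw [← selOf_spec, ← selOf_spec]
    exact h σ
  constructor
  · refine ⟨(s.rt / half x) / (s'.rt / half x'), fun σ => ?_⟩
    rw [_root_.map_div]
    exact grp2 (h1 σ)
  · rintro rfl
    have hU : ∀ σ : SeparableClosure K ≃ₐ[K] SeparableClosure K,
        D.mC (au σ) (half x' / half x) = half x' / half x := by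
      intro σ
      have h2 := h1 σ
      rw [_root_.map_div, _root_.map_div (D.mC (au σ)) s.rt (half x')] at h2
      rw [_root_.map_div]
      exact grp3 h2
    obtain ⟨y, hy⟩ := desc D hU
    refine ⟨y, ?_⟩
    apply Pool.Agent.Y288.HG.Inj.t 2 n K D (SeparableClosure K)
    rw [map_mul, map_pow, hy, ← half_sq, ← half_sq, div_pow, mul_div_cancel]

end

end Run7.h69.JB
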