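import Mathlib
import Pool.Agent.Run7.h69.JB7
import Pool.Agent.Y713.SE.StmT

/-!
# The group `J(K) / 2` and the group `Ш(J)[2]`
-/

set_option autoImplicit false
set_option linter.unusedSectionVars false

namespace Run7.h69.JB

open Finset IsDedekindDomain Polynomial
open Pool.Agent.Y713.SE Pool.Agent.Y713.SE.Dat
open Pool.Agent.Y713.Jac (J mapJ Cochain IsCocycle IsCoboundary IsLocallyTrivial IsTrivialOver)

section defs
variable {K : Type} [Field K] (F : K[X]) (R : Type) [CommRing R] [IsDedekindDomain R] [Algebra R K]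
  [IsFractionRing R K]

/-- the group `J(K) / 2 J(K)` -/
abbrev MW2 : Type := J 2 F K ⧸ (powMonoidHom 2 : J 2 F K →* J 2 F K).range

/-- the cocycles that are zero over the completions and whose double is zero -/
abbrev Coc2 : Type := {f : Cochain 2 F // IsCocycle 2 F f ∧ IsLocallyTrivial 2 F R f ∧
  IsCoboundary 2 F (fun σ => f σ ^ 2)}

/-- the cocycles modulo the coboundaries -/
instance setoid2 : Setoid (Coc2 F R) where
  r f g := IsCoboundary 2 F (fun σ => f.1 σ / g.1 σ)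
  iseqv :=
    { refl := fun f => ⟨1, fun σ => by
        show f.1 σ / f.1 σ = _
        rw [div_self', map_one, div_one]⟩
      symm := fun {f g} h => by
        obtain ⟨Q, hQ⟩ := h
        refine ⟨Q⁻¹, fun σ => ?_⟩
        have h1 : f.1 σ / g.1 σ = mapJ 2 F σ.toAlgHom Q / Q := hQ σ
        show g.1 σ / f.1 σ = _
        rw [← inv_div, h1, inv_div, map_inv, inv_div_inv]
      trans := fun {f g h} h1 h2 => by
        obtain ⟨Q, hQ⟩ := h1
        obtain ⟨Q', hQ'⟩ := h2
        refine ⟨Q * Q', fun σ => ?_⟩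
        have h1 : f.1 σ / g.1 σ = mapJ 2 F σ.toAlgHom Q / Q := hQ σ
        have h2 : g.1 σ / h.1 σ = mapJ 2 F σ.toAlgHom Q' / Q' := hQ' σ
        show f.1 σ / h.1 σ = _
        rw [← div_mul_div_cancel (f.1 σ) (g.1 σ) (h.1 σ), h1, h2, map_mul,
          mul_div_mul_comm] }

/-- the elements of order two of the Tate-Shafarevich group -/
abbrev Sha2 : Type := Quotient (setoid2 F R)

lemma nonempty2 : Nonempty (MW2 F × Sha2 F R) :=
  ⟨(1, Quotient.mk _ ⟨fun _ => 1, ⟨IsLocallyConstant.const _, fun σ τ => by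
    rw [map_one, mul_one]⟩, fun v => ⟨IsSepClosed.lift, 1, fun τ σ h => by
      rw [map_one, map_one, div_one]⟩, ⟨1, fun σ => by
      show (1 : J 2 F (SeparableClosure K)) ^ 2 = _
      rw [map_one, div_one, one_pow]⟩⟩)⟩

end defs

section trans
variable {n : ℕ} {K : Type} [Field K] (D : Dat 2 n K) {R : Type} [CommRing R] [IsDedekindDomain R]
  [Algebra R K] [IsFractionRing R K]

/-- the cocycle with values in the class group -/
noncomputable def toShC (f : Coc2 D.f R) : ShC D R where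
  c := fun σ => (D.Te (SeparableClosure K)).symm (f.1 σ)
  hc := by
    refine ⟨f.2.1.1.comp _, fun σ τ => ?_⟩
    show (D.Te (SeparableClosure K)).symm (f.1 (σ * τ)) = _
    rw [f.2.1.2, map_mul, D.Te_symm_nat]
  ht := by
    intro v
    obtain ⟨ι, P, h⟩ := f.2.2.1 v
    refine ⟨ι, (D.Te _).symm P, fun τ σ hτσ => ?_⟩
    have h1 := congrArg (D.Te _).symm (h τ σ hτσ)
    rw [D.Te_symm_nat, _root_.map_div, D.Te_symm_nat] at h1
    exact h1
  h2 := by
    obtain ⟨Q, hQ⟩ := f.2.2.2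
    refine ⟨(D.Te _).symm Q, fun σ => ?_⟩
    have h1 := congrArg (D.Te _).symm (hQ σ)
    rw [map_pow, _root_.map_div, D.Te_symm_nat] at h1
    exact h1

/-- the Selmer class of a pair -/
noncomputable def toSel (w : MW2 D.f × Sha2 D.f R) : SelC R D :=
  selOf ((D.Te K).symm (Quotient.out w.1)) (toShC D (Quotient.out w.2))

theorem toSel_inj (w w' : MW2 D.f × Sha2 D.f R) (h : (toSel D w).Same (toSel D w')) : w = w' := by
  obtain ⟨h1, h2⟩ := selOf_same _ _ _ _ h
  have e2 : w.2 = w'.2 := by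
    rw [← Quotient.out_eq w.2, ← Quotient.out_eq w'.2]
    apply Quotient.sound
    obtain ⟨Q, hQ⟩ := h1
    refine ⟨D.Te _ Q, fun σ => ?_⟩
    apply (D.Te _).symm.injective
    rw [_root_.map_div, _root_.map_div, D.Te_symm_nat, MulEquiv.symm_apply_apply]
    exact hQ σ
  have e1 : w.1 = w'.1 := by
    obtain ⟨y, hy⟩ := h2 (by rw [e2])
    rw [← QuotientGroup.out_eq' w.1, ← QuotientGroup.out_eq' w'.1, QuotientGroup.eq]
    refine ⟨D.Te K y, ?_⟩
    have h3 := congrArg (D.Te K) hy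
    rw [MulEquiv.apply_symm_apply, map_mul, MulEquiv.apply_symm_apply, map_pow] at h3
    rw [powMonoidHom_apply]
    have h4 : Quotient.out w'.1 = Quotient.out w.1 * (D.Te K y) ^ 2 := h3
    rw [h4, inv_mul_cancel_left]
  exact Prod.ext e1 e2

end trans

/-- a type all whose finite subsets are small is finite and small -/
lemma card_le_of_finset {W : Type} {B : ℕ} (h : ∀ S : Finset W, S.card ≤ B) :
    Finite W ∧ Nat.card W ≤ B := by
  have hf : Finite W := by
    by_contra hinf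
    rw [not_finite_iff_infinite] at hinf
    obtain ⟨S, hS⟩ := Infinite.exists_subset_card_eq W (B + 1)
    have := h S
    omega
  refine ⟨hf, ?_⟩
  haveI := Fintype.ofFinite W
  rw [Nat.card_eq_fintype_card]
  exact h univ

/-- the bound by the number of the solutions of the symbol conditions -/
theorem card_bound {K : ℕ} (hn : Odd (K + 1)) {D : Dat 2 (K + 1) ℚ} {a : Fin (K + 1) → ℤ}
    {G : ℤ} {c : ℚ} (hc : c ≠ 0) (hδ : D.δ = c ^ 2 * G) (he : ∀ i, D.e i = a i) (s : ℕ)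
    (hs : Squarefree s) (OP : Finset ℕ) (E : Finset ℕ)
    (hs2 : ∀ p : ℕ, p.Prime → p ∣ s → p ≠ 2 ∧ (p : ℤ) ∣ G ∧ ¬ (p : ℤ) ^ 2 ∣ G ∧
      ∀ i k, i ≠ k → ¬ (p : ℤ) ∣ a i - a k)
    (hOP : ∀ q : ℕ, q.Prime → ¬ q ∣ s → q ∉ OP → q ≠ 2 ∧ ¬ (q : ℤ) ∣ G ∧
      ∀ i k, i ≠ k → ¬ (q : ℤ) ∣ a i - a k)
    (hE : ∀ p : ℕ, p.Prime → p ∣ s → (p ∈ E ↔ jacobiSym (G / p) p = -1)) :
    Finite (MW2 D.f × Sha2 D.f ℤ) ∧ Nat.card (MW2 D.f × Sha2 D.f ℤ) ≤
      (2 ^ (OP.card + 1)) ^ K * JA.NJ (kc a) s E := by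
  classical
  apply card_le_of_finset
  intro S
  have hinj : Function.Injective (toSel (R := ℤ) D) := fun w w' h => toSel_inj D w w' (by
    rw [h]
    exact fun σ => rfl)
  rw [← card_image_of_injective S hinj]
  refine sel_bound hn hc hδ he s hs OP E hs2 hOP hE _ ?_
  intro P hP P' hP' h
  obtain ⟨w, _, rfl⟩ := mem_image.1 hP
  obtain ⟨w', _, rfl⟩ := mem_image.1 hP'
  rw [toSel_inj D w w' h]

end Run7.h69.JB
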