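import Mathlib
import Pool.Agent.Run7.h69.JB8
import Pool.Agent.Run7.h69.JA3
import Pool.Agent.Run7.h69.QD4

/-!
# The moments for the Jacobians of the twists by the values of a polynomial
-/

set_option autoImplicit false
set_option linter.unusedSectionVars false

namespace Run7.h69.JB

open Finset Polynomial
open Pool.Agent.W262.RK hiding lk ff s1 s2
open Pool.Agent.Y713.SE (Dat)

/-- the polynomial of the twist -/
noncomputable def cur {n : ℕ} (a : Fin n → ℤ) (d : ℤ) : ℚ[X] :=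
  C (d : ℚ) * ∏ i, (X - C (a i : ℚ))

/-- the data of the twist -/
noncomputable def dat {n : ℕ} {a : Fin n → ℤ} (ha : Function.Injective a) (hn : Odd n) {d : ℤ}
    (hd : d ≠ 0) : Dat 2 n ℚ where
  hp := Nat.prime_two
  hne := by norm_num
  ζ := -1
  hζ := by
    refine IsPrimitiveRoot.mk_of_lt _ (by norm_num) (by norm_num) ?_
    intro l hl1 hl2
    have : l = 1 := by omega
    rw [this, pow_one]
    norm_num
  δ := d
  hδ := by exact_mod_cast hd
  e := fun i => a i
  he := fun i j h => ha (by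
    have h1 : (a i : ℚ) = a j := h
    exact_mod_cast h1)
  hn := by
    rw [← even_iff_two_dvd, Nat.not_even_iff_odd]
    exact hn

lemma dat_f {n : ℕ} {a : Fin n → ℤ} (ha : Function.Injective a) (hn : Odd n) {d : ℤ}
    (hd : d ≠ 0) : (dat ha hn hd).f = cur a d := rfl

/-- the number of the classes -/
noncomputable def nW {n : ℕ} (a : Fin n → ℤ) (d : ℤ) : ℕ :=
  Nat.card (MW2 (cur a d) × Sha2 (cur a d) ℤ)

section
variable {K : ℕ} {a : Fin (K + 1) → ℤ} (ha : Function.Injective a) (hn : Odd (K + 1))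

include ha hn in
/-- the bound for one twist -/
theorem one_bound {d G m : ℤ} (hd : d ≠ 0) (hdG : d = m ^ 2 * G) (s : ℕ)
    (hs : Squarefree s) (OP : Finset ℕ) (E : Finset ℕ)
    (hs2 : ∀ p : ℕ, p.Prime → p ∣ s → p ≠ 2 ∧ (p : ℤ) ∣ G ∧ ¬ (p : ℤ) ^ 2 ∣ G ∧
      ∀ i k, i ≠ k → ¬ (p : ℤ) ∣ a i - a k)
    (hOP : ∀ q : ℕ, q.Prime → ¬ q ∣ s → q ∉ OP → q ≠ 2 ∧ ¬ (q : ℤ) ∣ G ∧
      ∀ i k, i ≠ k → ¬ (q : ℤ) ∣ a i - a k)
    (hE : ∀ p : ℕ, p.Prime → p ∣ s → (p ∈ E ↔ jacobiSym (G / p) p = -1)) :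
    Finite (MW2 (cur a d) × Sha2 (cur a d) ℤ) ∧
      nW a d ≤ (2 ^ K) ^ (OP.card + 1) * JA.NJ (kc a) s E := by
  have hm : (m : ℚ) ≠ 0 := by
    intro h
    apply hd
    have : m = 0 := by exact_mod_cast h
    rw [hdG, this]
    simp
  have h := card_bound hn (D := dat ha hn hd) (a := a) (G := G) (c := m) hm (by
    show (d : ℚ) = _
    rw [hdG]
    push_cast
    ring) (fun _ => rfl) s hs OP E hs2 hOP hE
  rw [← pow_mul, mul_comm (OP.card + 1) K, pow_mul] at h
  exact h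

include ha hn in
/-- finiteness -/
theorem fin (d : ℤ) (hd : d ≠ 0) : Finite (MW2 (cur a d) × Sha2 (cur a d) ℤ) := by
  classical
  set Pr : ℤ := 2 * d * ∏ i : Fin (K + 1), ∏ k ∈ univ.erase i, (a i - a k) with hPr
  have hPr0 : Pr ≠ 0 := mul_ne_zero (mul_ne_zero two_ne_zero hd)
    (prod_ne_zero_iff.2 fun i _ => prod_ne_zero_iff.2 fun k hk => sub_ne ha (ne_of_mem_erase hk))
  refine (one_bound ha hn hd (m := 1) (G := d) (by ring) 1 squarefree_one Pr.natAbs.primeFactors ∅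
    (fun p hp hps => absurd (Nat.dvd_one.1 hps) hp.ne_one)
    (fun q hq hqs hqO => ?_)
    (fun p hp hps => absurd (Nat.dvd_one.1 hps) hp.ne_one)).1
  have hq2 : ¬ (q : ℤ) ∣ Pr := by
    intro h
    apply hqO
    rw [Nat.mem_primeFactors]
    exact ⟨hq, Int.natCast_dvd.1 h, Int.natAbs_ne_zero.2 hPr0⟩
  refine ⟨?_, fun h => hq2 ?_, fun i k hik h => hq2 ?_⟩
  · rintro rfl
    apply hq2
    rw [hPr, mul_assoc]
    exact Dvd.intro _ rfl
  · rw [hPr]
    exact (h.mul_left 2).mul_right _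
  · rw [hPr]
    refine Dvd.dvd.mul_left ?_ _
    refine (h.trans ?_).trans (dvd_prod_of_mem _ (mem_univ i))
    exact dvd_prod_of_mem (fun k => a i - a k) (mem_erase.2 ⟨hik.symm, mem_univ k⟩)

/-- the quantity -/
noncomputable def Rq (a : Fin (K + 1) → ℤ) (d : ℤ) : ℝ := if d = 0 then 0 else nW a d

include ha hn in
lemma Rq_or (d : ℤ) : 1 ≤ Rq a d ∨ Rq a d = 0 := by
  unfold Rq
  split_ifs with h
  · exact Or.inr rfl
  · left
    have := fin ha hn d h
    have : Nonempty (MW2 (cur a d) × Sha2 (cur a d) ℤ) := nonempty2 _ _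
    have h2 : 0 < nW a d := Nat.card_pos
    exact_mod_cast h2

include ha hn in
/-- the bound for the values of a polynomial -/
lemma bdd {f g h : ℤ[X]} (hfg : f = g ^ 2 * h) {z : ℕ} (hz : 2 ≤ z)
    (hza : ∀ i k, (a i - a k).natAbs ≤ z) :
    JM.Bdd (kc a) h z ((2 ^ K) ^ (z + 1)) (2 ^ K) (fun t => Rq a (f.eval t)) := by
  classical
  intro t y N hy h0 hN
  have hval : f.eval t = (g.eval t) ^ 2 * h.eval t := by
    rw [hfg, eval_mul, eval_pow]
  show Rq a (f.eval t) ≤ _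
  unfold Rq
  split_ifs with hft
  · positivity
  set F := h.eval t with hF
  set s := t1 h z y t with hs
  have hsd : s ∣ PP z y := NX.t1_dvd z y t
  have hs0 : s ≠ 0 := Nat.one_le_iff_ne_zero.1 (NX.dpos hsd)
  set OP : Finset ℕ := ((Icc 1 z) ∪ F.natAbs.primeFactors.filter (y < ·)) ∪
    (t2 h z y t).primeFactors with hOP
  have hd : QD.Dec h h 1 1 1 z := ⟨one_ne_zero, by simp; omega, by simp, one_dvd _⟩
  have hbig : ∀ q : ℕ, q.Prime → z < q → ∀ i k, i ≠ k → ¬ (q : ℤ) ∣ a i - a k := by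
    intro q hq hzq i k hik h
    have h1 := Nat.le_of_dvd (Int.natAbs_pos.2 (sub_ne ha hik.symm)) (Int.natCast_dvd.1 h)
    have h2 := hza i k
    omega
  have hb := (one_bound ha hn hft hval s ((PP_squarefree z y).squarefree_of_dvd hsd) OP
    (ng h t s)
    (fun p hp hps => by
      obtain ⟨hzp, h2, h3⟩ := RK.t1_pf hp hps
      exact ⟨by omega, h2, h3, hbig p hp hzp⟩)
    (fun q hq hqs hqO => by
      rw [hOP, mem_union, mem_union, not_or, not_or, mem_Icc] at hqO
      have hzq : z < q := by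
        by_contra hc
        exact hqO.1.1 ⟨hq.one_lt.le, not_lt.1 hc⟩
      exact ⟨by omega, QD.out hd h0 hq hzq hqs hqO.1.2 hqO.2, hbig q hq hzq⟩)
    (fun p hp hps => by
      unfold ng
      rw [mem_filter, Nat.mem_primeFactors]
      exact ⟨fun h => h.2, fun h => ⟨⟨hp, hps, hs0⟩, h⟩⟩)).2
  have hlarge : (F.natAbs.primeFactors.filter (y < ·)).card ≤ N := by
    set S := F.natAbs.primeFactors.filter (y < ·) with hS
    have h1 : (y + 1) ^ S.card ≤ ∏ q ∈ S, q :=
      Finset.pow_card_le_prod _ _ _ (fun q hq => by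
        have := (mem_filter.1 hq).2
        omega)
    have h2 : ∏ q ∈ S, q ∣ F.natAbs :=
      (prod_dvd_prod_of_subset _ _ _ (filter_subset _ _)).trans (Nat.prod_primeFactors_dvd _)
    have h3 : ∏ q ∈ S, q ≤ F.natAbs :=
      Nat.le_of_dvd (Nat.pos_of_ne_zero (Int.natAbs_ne_zero.2 h0)) h2
    have h4 : (y + 1) ^ S.card < (y + 1) ^ N := (h1.trans h3).trans_lt hN
    exact ((Nat.pow_lt_pow_iff_right (by omega)).1 h4).le
  have hc : OP.card ≤ z + N + (t2 h z y t).primeFactors.card := by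
    rw [hOP]
    refine (card_union_le _ _).trans (add_le_add
      ((card_union_le _ _).trans (add_le_add ?_ hlarge)) le_rfl)
    simp
  have hb2 : nW a (f.eval t) ≤ (2 ^ K) ^ (z + 1) * (2 ^ K) ^ N *
      (2 ^ K) ^ ((t2 h z y t).primeFactors.card) * JA.NJ (kc a) s (ng h t s) := by
    refine hb.trans (Nat.mul_le_mul_right _ ?_)
    calc ((2 : ℕ) ^ K) ^ (OP.card + 1) ≤ (2 ^ K) ^ ((z + 1) + N + (t2 h z y t).primeFactors.card) :=
          Nat.pow_le_pow_right (Nat.pos_of_ne_zero (by positivity)) (by omega)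
      _ = _ := by rw [pow_add, pow_add]
  exact_mod_cast hb2

include ha hn in
/-- the constant families -/
lemma const {f g h : ℤ[X]} (hfg : f = g ^ 2 * h) (hd : h.natDegree = 0) :
    ∃ B : ℝ, ∀ t, Rq a (f.eval t) ≤ B := by
  classical
  obtain ⟨c, hc⟩ := natDegree_eq_zero.1 hd
  by_cases hc0 : c = 0
  · refine ⟨0, fun t => ?_⟩
    unfold Rq
    rw [if_pos]
    rw [hfg, ← hc, hc0]
    simp
  set Pr : ℤ := 2 * c * ∏ i : Fin (K + 1), ∏ k ∈ univ.erase i, (a i - a k) with hPr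
  have hPr0 : Pr ≠ 0 := mul_ne_zero (mul_ne_zero two_ne_zero hc0)
    (prod_ne_zero_iff.2 fun i _ => prod_ne_zero_iff.2 fun k hk => sub_ne ha (ne_of_mem_erase hk))
  refine ⟨(2 ^ K) ^ (Pr.natAbs.primeFactors.card + 1) * JA.NJ (kc a) 1 ∅, fun t => ?_⟩
  have hval : f.eval t = (g.eval t) ^ 2 * c := by
    rw [hfg, eval_mul, eval_pow, ← hc, eval_C]
  unfold Rq
  split_ifs with hft
  · positivity
  have hb := (one_bound ha hn hft hval 1 squarefree_one Pr.natAbs.primeFactors ∅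
    (fun p hp hps => absurd (Nat.dvd_one.1 hps) hp.ne_one)
    (fun q hq hqs hqO => by
      have hq2 : ¬ (q : ℤ) ∣ Pr := by
        intro h
        apply hqO
        rw [Nat.mem_primeFactors]
        exact ⟨hq, Int.natCast_dvd.1 h, Int.natAbs_ne_zero.2 hPr0⟩
      refine ⟨?_, fun h => hq2 ?_, fun i k hik h => hq2 ?_⟩
      · rintro rfl
        apply hq2
        rw [hPr, mul_assoc]
        exact Dvd.intro _ rfl
      · rw [hPr]
        exact (h.mul_left 2).mul_right _
      · rw [hPr]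
        refine Dvd.dvd.mul_left ?_ _
        refine (h.trans ?_).trans (dvd_prod_of_mem _ (mem_univ i))
        exact dvd_prod_of_mem (fun k => a i - a k) (mem_erase.2 ⟨hik.symm, mem_univ k⟩))
    (fun p hp hps => absurd (Nat.dvd_one.1 hps) hp.ne_one)).2
  exact_mod_cast hb

include ha hn in
/-- **the moments** -/
theorem main (hK : 1 ≤ K) (f : ℤ[X]) (k M : ℕ) :
    ∃ C : ℝ, ∀ (x : ℤ) (X : ℕ), 1 ≤ X → x.natAbs ≤ X ^ M →
      ∑ t ∈ (Ioc x (x + X)).filter (fun t => f.eval t ≠ 0),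
        (nW a (f.eval t) : ℝ) ^ k ≤ C * X := by
  classical
  by_cases hf : f = 0
  · refine ⟨0, fun x X _ _ => ?_⟩
    have : (Ioc x (x + X)).filter (fun t => f.eval t ≠ 0) = ∅ := by
      rw [filter_eq_empty_iff]
      intro t _ h
      apply h
      rw [hf]
      simp
    rw [this, sum_empty, zero_mul]
  obtain ⟨g, h, hfg, hsq, h0, hg0⟩ := UT.sq_mul f hf
  have hval : ∀ t : ℤ, f.eval t = (g.eval t) ^ 2 * h.eval t := by
    intro t
    rw [hfg, eval_mul, eval_pow]
  have hR0 : ∀ d, 0 ≤ Rq a d := fun d => by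
    rcases Rq_or ha hn d with h1 | h1 <;> linarith
  have hle : ∀ (x : ℤ) (X : ℕ), ∑ t ∈ (Ioc x (x + X)).filter (fun t => f.eval t ≠ 0),
        (nW a (f.eval t) : ℝ) ^ k ≤ ∑ t ∈ NX.II h x X, Rq a (f.eval t) ^ k := by
    intro x X
    have e1 : ∀ t ∈ (Ioc x (x + X)).filter (fun t => f.eval t ≠ 0),
        (nW a (f.eval t) : ℝ) ^ k = Rq a (f.eval t) ^ k := by
      intro t ht
      rw [mem_filter] at ht
      unfold Rq
      rw [if_neg ht.2]
    rw [sum_congr rfl e1]
    refine sum_le_sum_of_subset_of_nonneg ?_ fun t _ _ => pow_nonneg (hR0 _) k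
    intro t ht
    rw [mem_filter] at ht
    unfold NX.II
    rw [mem_filter]
    refine ⟨ht.1, fun h2 => ht.2 ?_⟩
    rw [hval, h2]
    simp
  rcases Nat.eq_zero_or_pos h.natDegree with hd | hd
  · obtain ⟨B, hB⟩ := const ha hn hfg hd
    refine ⟨|B| ^ k, fun x X _ _ => (hle x X).trans ?_⟩
    calc ∑ t ∈ NX.II h x X, Rq a (f.eval t) ^ k ≤ ∑ t ∈ NX.II h x X, |B| ^ k :=
          sum_le_sum fun t _ => pow_le_pow_left₀ (hR0 _) ((hB t).trans (le_abs_self B)) k
      _ = (NX.II h x X).card * |B| ^ k := by rw [sum_const, nsmul_eq_mul]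
      _ ≤ X * |B| ^ k := by
          refine mul_le_mul_of_nonneg_right ?_ (by positivity)
          have h3 : (NX.II h x X).card ≤ X := by
            unfold NX.II
            refine (card_filter_le _ _).trans ?_
            rw [Int.card_Ioc]
            simp
          exact_mod_cast h3
      _ = _ := mul_comm _ _
  · set z0 : ℕ := 2 + ∑ i : Fin (K + 1), ∑ k : Fin (K + 1), (a i - a k).natAbs with hz0
    obtain ⟨z, hz, hmain⟩ := JM.main (kc := kc a) hK (kc_Hm a) (kc_ne ha) hsq h0 hd z0 k M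
    obtain ⟨C, hC⟩ := hmain ((2 ^ K) ^ (z + 1)) (2 ^ K) (fun t => Rq a (f.eval t)) (by positivity)
      le_rfl (fun t => Rq_or ha hn _) (bdd ha hn hfg (by omega) (fun i k => by
        have h1 := single_le_sum (f := fun i : Fin (K + 1) => ∑ k : Fin (K + 1),
          (a i - a k).natAbs) (fun _ _ => Nat.zero_le _) (mem_univ i)
        have h2 := single_le_sum (f := fun k : Fin (K + 1) => (a i - a k).natAbs)
          (fun _ _ => Nat.zero_le _) (mem_univ k)
        omega))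
    exact ⟨C, fun x X hX hx => (hle x X).trans (hC x X hX hx)⟩

end

end Run7.h69.JB
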