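import Mathlib
import Pool.Agent.Run7.h69.CN

/-!
# The number of `t` with given small prime factors of `h(t)` and given signs, such that other
polynomials have no small prime factors at `t`
-/

set_option autoImplicit false
set_option linter.unusedSectionVars false

namespace Run7.h69

open Finset Polynomial
open Pool.Agent.W262.RK hiding lk ff s1 s2
open Pool.Agent.W655.RK (PS_prime PS_lt PS_le)
open Pool.Agent.W372.RK2 (sq_pow_dvd card_W WW)

namespace KA

open CN (Rt mem_Rt Good Phi Phi_mem congr_of md gm_mul gm_id gm_coprime)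

/-- the data: `h' ∣ h`, and the roots of `h` modulo `p` are roots of `Q` or of `h'` -/
structure Dat (h h' Q : ℤ[X]) (z : ℕ) : Prop where
  gh : Gd h z
  gh' : Gd h' z
  gF : Gd (Q * h') z
  dv : h' ∣ h
  cop : ∀ p : ℕ, p.Prime → z < p → ∀ t : ℤ, (p : ℤ) ∣ h.eval t → ¬ (p : ℤ) ∣ Q.eval t →
    (p : ℤ) ∣ h'.eval t

/-- the values of `Q` have no small prime factors -/
def Rough (Q : ℤ[X]) (z y : ℕ) (t : ℤ) : Prop := ∀ p ∈ PS z y, ¬ (p : ℤ) ∣ Q.eval t

noncomputable instance (Q : ℤ[X]) (z y : ℕ) : DecidablePred (Rough Q z y) := fun t => by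
  unfold Rough
  infer_instance

variable {h h' Q : ℤ[X]} {z y Y s v u : ℕ} {t : ℤ}

/-- the sieve weight -/
noncomputable def bq (h' Q : ℤ[X]) (p : ℕ) : ℝ :=
  (rho h' p : ℝ) / ((p : ℝ) - (Q * h').natDegree)

/-- the possible values -/
noncomputable def Cod (h' : ℤ[X]) (s v u : ℕ) (E : Finset ℕ) :
    Finset (((s * v * u).primeFactors → ℕ) × (s.primeFactors → ℕ)) :=
  Fintype.piFinset (fun p : (s * v * u).primeFactors => Rt h' p.1) ×ˢ
    Fintype.piFinset (fun p : s.primeFactors => WW E p.1)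

lemma Phi_mem' (hD : Dat h h' Q z) (hzy : z ≤ y) (hyY : y ≤ Y) (g : Good h z y s v u t)
    (hu : u ∣ PP y Y) (hr : Rough Q z Y t) {E : Finset ℕ} (hE : ng h t s = E) :
    Phi h s v u t ∈ Cod h' s v u E := by
  have h1 := Phi_mem hD.gh g hu hE
  unfold CN.Cod at h1
  rw [mem_product] at h1
  unfold Cod
  rw [mem_product, Fintype.mem_piFinset]
  refine ⟨?_, h1.2⟩
  rintro ⟨p, hp0⟩
  have hp : p.Prime := Nat.prime_of_mem_primeFactors hp0
  have hd := Nat.dvd_of_mem_primeFactors hp0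
  unfold Phi
  simp only
  have key : ∀ (a b : ℕ), z ≤ a → b ≤ Y → p ∈ PS a b → (p : ℤ) ∣ h.eval t →
      (t % (p : ℤ)).toNat ∈ Rt h' p := by
    intro a b ha hb hP hdv
    have h2 := mem_PS.1 hP
    exact mem_Rt hp (hD.cop p hp (by omega) t hdv
      (hr p (mem_PS.2 ⟨⟨by omega, by omega⟩, hp⟩)))
  rcases hp.dvd_mul.1 hd with h | h
  · rcases hp.dvd_mul.1 h with h | h
    · exact key z y le_rfl hyY (g.fs hp h).1 (g.fs hp h).2.1
    · exact key z y le_rfl hyY (g.fv hp h).1
        ((dvd_pow_self (p : ℤ) two_ne_zero).trans (g.fv hp h).2)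
  · exact key y Y hzy le_rfl (g.fu hu hp h).1 (g.fu hu hp h).2

lemma card_Cod (hz : 2 ≤ z) (hs : s ∣ PP z y) (E : Finset ℕ) :
    ((Cod h' s v u E).card : ℝ) ≤
      gm (fun p => (rho h' p : ℝ)) (s * v * u) * ((1 / 2) ^ s.primeFactors.card * s) :=
  CN.card_Cod (f := h') hz hs E

/-- the count -/
theorem count {g : ℕ} (hD : Dat h h' Q z) (hM : Mer (Q * h') g) :
    ∃ (C : ℝ) (K y0 : ℕ), 0 ≤ C ∧ 1 ≤ K ∧ ∀ (x : ℤ) (X y Y : ℕ), y0 ≤ y → z < y → y ≤ Y →
    y ^ K ≤ X →
    ∀ s v u : ℕ, s ∣ PP z y → v ∣ PP z y → u ∣ PP y Y → (s * v * u) ^ 8 ≤ X → ∀ E : Finset ℕ,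
    (((Ioc x (x + X)).filter (fun t : ℤ => Rough Q z Y t ∧ t1 h z y t = s ∧ t2 h z y t = v ∧
      (u : ℤ) ∣ h.eval t ∧ ng h t s = E)).card : ℝ) ≤
      C * X * (1 / 2) ^ s.primeFactors.card * gm (bq h' Q) s * (gm (bq h' Q) v / v) *
        gm (ru h') u / (Real.log y) ^ g := by
  classical
  obtain ⟨C, K, y0, hC, hK, hSV⟩ := SV.sieve hD.gF hM
  refine ⟨C, K, y0, hC, hK, ?_⟩
  intro x X y Y hy0 hzy hyY hX s v u hs hv hu hsvu E
  have hzb := hD.gF.big
  have hz2 : 2 ≤ z := by omega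
  have hs' : s ∈ (PP z y).divisors := Nat.mem_divisors.2 ⟨hs, PP_ne_zero z y⟩
  have hv' : v ∈ (PP z y).divisors := Nat.mem_divisors.2 ⟨hv, PP_ne_zero z y⟩
  have hu' : u ∈ (PP y Y).divisors := Nat.mem_divisors.2 ⟨hu, PP_ne_zero y Y⟩
  have hs0 := dv_ne_zero hs'
  have hv0 := dv_ne_zero hv'
  have hu0 := dv_ne_zero hu'
  have hsq := dv_squarefree hs'
  have hvq := dv_squarefree hv'
  have huq := dv_squarefree hu'
  have hlog : 0 ≤ (Real.log y) ^ g := pow_nonneg (Real.log_natCast_nonneg y) _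
  have hbr : ∀ {w : ℕ}, w ∈ (PP z y).divisors → 0 ≤ gm (bq h' Q) w := fun hw =>
    AT.gm_nonneg (fun p hp hpz => by
      unfold bq
      have h1 : ((Q * h').natDegree : ℝ) ≤ p := by exact_mod_cast (by omega)
      exact div_nonneg (Nat.cast_nonneg _) (by linarith)) hw
  have hru : 0 ≤ gm (ru h') u := prod_nonneg fun p _ => by unfold ru; positivity
  set T := (Ioc x (x + X)).filter (fun t : ℤ => Rough Q z Y t ∧ t1 h z y t = s ∧
      t2 h z y t = v ∧ (u : ℤ) ∣ h.eval t ∧ ng h t s = E) with hT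
  have hgood : ∀ t ∈ T, Good h z y s v u t ∧ ng h t s = E ∧ Rough Q z Y t := by
    intro t ht
    rw [hT, mem_filter] at ht
    exact ⟨⟨ht.2.2.1, ht.2.2.2.1, ht.2.2.2.2.1⟩, ht.2.2.2.2.2, ht.2.1⟩
  rcases T.eq_empty_or_nonempty with hTe | ⟨t0, ht0⟩
  · rw [hTe, card_empty, Nat.cast_zero]
    apply div_nonneg _ hlog
    have h1 := hbr hs'
    have h2 := hbr hv'
    positivity
  set m := md s v u with hm
  have hm1 : 1 ≤ m := by
    rw [hm]
    unfold md
    exact Nat.succ_le_of_lt (by positivity)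
  have hm4 : m ^ 4 ≤ X := by
    refine le_trans ?_ hsvu
    have h1 : m ≤ (s * v * u) ^ 2 := by
      rw [hm]
      unfold md
      have h3 : 1 ≤ u := Nat.one_le_iff_ne_zero.2 hu0
      calc s ^ 2 * v ^ 2 * u ≤ s ^ 2 * v ^ 2 * (u * u) :=
            Nat.mul_le_mul_left _ (Nat.le_mul_of_pos_left u h3)
        _ = (s * v * u) ^ 2 := by ring
    calc m ^ 4 ≤ ((s * v * u) ^ 2) ^ 4 := Nat.pow_le_pow_left h1 4
      _ = (s * v * u) ^ 8 := by rw [← pow_mul]
  have hg0 := (hgood t0 ht0).1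
  have hcsv : s.Coprime v := by
    apply Nat.coprime_of_dvd
    intro p hp hps hpv
    exact (hg0.fs hp hps).2.2 (hg0.fv hp hpv).2
  have hcu : (s * v).Coprime u := by
    apply Nat.coprime_of_dvd
    intro p hp hps hpu
    have h8 := PS_lt (hg0.fu hu hp hpu).1
    have h9 : p ≤ y := by
      rcases hp.dvd_mul.1 hps with h | h
      · exact PS_le (hg0.fs hp h).1
      · exact PS_le (hg0.fv hp h).1
    omega
  -- bound for a fibre
  set B : ℝ := C * (X / m) * (∏ p ∈ m.primeFactors.filter (fun p => p ∈ PS z y),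
        (p : ℝ) / ((p : ℝ) - (Q * h').natDegree)) / (Real.log y) ^ g with hBdef
  have hfib : ∀ φ, ((T.filter (fun t : ℤ => Phi h s v u t = φ)).card : ℝ) ≤ B := by
    intro φ
    rcases (T.filter (fun t : ℤ => Phi h s v u t = φ)).eq_empty_or_nonempty with
      he | ⟨r, hr⟩
    · rw [he, card_empty, Nat.cast_zero]
      exact le_trans (Nat.cast_nonneg _) (hSV x X y hy0 hzy hX m 0 hm1 hm4)
    · refine le_trans ?_ (hSV x X y hy0 hzy hX m r hm1 hm4)
      rw [Nat.cast_le]
      apply card_le_card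
      intro t ht
      rw [mem_filter] at ht hr
      have g := (hgood t ht.1).1
      have g' := (hgood r hr.1).1
      have htX : t ∈ Ioc x (x + X) := (mem_filter.1 ht.1).1
      have hrough := (hgood t ht.1).2.2
      rw [mem_filter]
      refine ⟨htX, ?_, ?_⟩
      · exact congr_of hD.gh hzy hs hv hu g g' (ht.2.trans hr.2.symm)
      · intro p hpP hpm hpF
        have hp := (mem_PS.1 hpP).2
        have hpI : Prime (p : ℤ) := Nat.prime_iff_prime_int.1 hp
        have hpf : (p : ℤ) ∣ h.eval t := by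
          rw [eval_mul] at hpF
          rcases hpI.dvd_or_dvd hpF with h1 | h1
          · have h2 := mem_PS.1 hpP
            exact absurd h1 (hrough p (mem_PS.2 ⟨⟨by omega, by omega⟩, hp⟩))
          · exact h1.trans (eval_dvd hD.dv)
        apply hpm
        rw [hm]
        unfold md
        by_cases h2 : (p : ℤ) ^ 2 ∣ h.eval t
        · have h3 : p ∣ v := by
            rw [← g.hv]
            exact (CN.dvd_t2 hp).2 ⟨hpP, h2⟩
          exact ((h3.pow two_ne_zero).mul_left _).mul_right _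
        · have h3 : p ∣ s := by
            rw [← g.hs]
            exact (CN.dvd_t1 hp).2 ⟨hpP, hpf, h2⟩
          exact ((h3.pow two_ne_zero).mul_right _).mul_right _
  have hB0 : 0 ≤ B := le_trans (Nat.cast_nonneg _) (hSV x X y hy0 hzy hX m 0 hm1 hm4)
  have hcard : (T.card : ℝ) ≤ ((Cod h' s v u E).card : ℝ) * B := by
    rw [card_eq_sum_card_fiberwise (f := fun t : ℤ => Phi h s v u t)
      (t := Cod h' s v u E)
      (fun t ht => Phi_mem' hD hzy.le hyY (hgood t ht).1 hu (hgood t ht).2.2 (hgood t ht).2.1)]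
    rw [Nat.cast_sum]
    refine (sum_le_sum fun φ _ => hfib φ).trans ?_
    rw [sum_const, nsmul_eq_mul]
  refine hcard.trans ((mul_le_mul_of_nonneg_right (card_Cod hz2 hs E) hB0).trans ?_)
  -- the product over the primes
  have hpf : m.primeFactors.filter (fun p => p ∈ PS z y) = (s * v).primeFactors := by
    ext p
    rw [mem_filter, Nat.mem_primeFactors, Nat.mem_primeFactors]
    constructor
    · rintro ⟨⟨hp, hd, -⟩, hpP⟩
      refine ⟨hp, ?_, mul_ne_zero hs0 hv0⟩
      rw [hm] at hd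
      unfold md at hd
      rcases hp.dvd_mul.1 hd with h | h
      · rcases hp.dvd_mul.1 h with h | h
        · exact (hp.dvd_of_dvd_pow h).mul_right _
        · exact (hp.dvd_of_dvd_pow h).mul_left _
      · exfalso
        have h1 := PS_lt (hg0.fu hu hp h).1
        have h2 := PS_le hpP
        omega
    · rintro ⟨hp, hd, -⟩
      have h1 : p ∈ PS z y := by
        rcases hp.dvd_mul.1 hd with h | h
        · exact (hg0.fs hp h).1
        · exact (hg0.fv hp h).1
      refine ⟨⟨hp, ?_, by omega⟩, h1⟩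
      rw [hm]
      unfold md
      rcases hp.dvd_mul.1 hd with h | h
      · exact ((h.pow two_ne_zero).mul_right _).mul_right _
      · exact ((h.pow two_ne_zero).mul_left _).mul_right _
  have hprod : ∏ p ∈ m.primeFactors.filter (fun p => p ∈ PS z y),
      (p : ℝ) / ((p : ℝ) - (Q * h').natDegree) =
      (s * gm (fun p => 1 / ((p : ℝ) - (Q * h').natDegree)) s) *
        (v * gm (fun p => 1 / ((p : ℝ) - (Q * h').natDegree)) v) := by
    rw [hpf]
    have h1 : ∏ p ∈ (s * v).primeFactors, (p : ℝ) / ((p : ℝ) - (Q * h').natDegree) =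
        gm (fun p => (p : ℝ) * (1 / ((p : ℝ) - (Q * h').natDegree))) (s * v) := by
      unfold gm
      exact prod_congr rfl fun p _ => by ring
    rw [h1, gm_coprime _ hcsv, gm_mul, gm_mul, gm_id hsq, gm_id hvq]
  have hρ : gm (fun p => (rho h' p : ℝ)) (s * v * u) = gm (fun p => (rho h' p : ℝ)) s *
      gm (fun p => (rho h' p : ℝ)) v * gm (fun p => (rho h' p : ℝ)) u := by
    rw [gm_coprime _ hcu, gm_coprime _ hcsv]
  have hb : ∀ w : ℕ, gm (bq h' Q) w = gm (fun p => (rho h' p : ℝ)) w *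
      gm (fun p => 1 / ((p : ℝ) - (Q * h').natDegree)) w := by
    intro w
    rw [← gm_mul]
    unfold gm
    exact prod_congr rfl fun p _ => by unfold bq; ring
  have hru' : gm (ru h') u * u = gm (fun p => (rho h' p : ℝ)) u := by
    conv_lhs => rw [← gm_id huq]
    rw [← gm_mul]
    unfold gm
    refine prod_congr rfl fun p hp => ?_
    have : (p : ℝ) ≠ 0 := by exact_mod_cast (Nat.prime_of_mem_primeFactors hp).ne_zero
    unfold ru
    field_simp
  have hsr : (s : ℝ) ≠ 0 := Nat.cast_ne_zero.2 hs0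
  have hvr : (v : ℝ) ≠ 0 := Nat.cast_ne_zero.2 hv0
  have hur : (u : ℝ) ≠ 0 := Nat.cast_ne_zero.2 hu0
  have hmr : (m : ℝ) = (s : ℝ) ^ 2 * (v : ℝ) ^ 2 * u := by
    rw [hm]
    unfold md
    push_cast
    ring
  rw [hBdef, hprod, hρ, hb s, hb v, ← hru', hmr]
  apply le_of_eq
  field_simp

end KA

end Run7.h69
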