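import Mathlib
import Pool.Agent.Run7.h69.KA1
import Pool.Agent.Run7.h69.RX
import Pool.Agent.Run7.h69.JA2

/-!
# Changing the weights
-/

set_option autoImplicit false
set_option linter.unusedSectionVars false

namespace Run7.h69

open Finset Polynomial
open Pool.Agent.W262.RK hiding lk ff s1 s2
open Pool.Agent.W655.RK (PS_prime PS_lt PS_le sum_inv_sq)
open Pool.Agent.W591.RK2 (sum_dv)

namespace KA

/-- the expansion of a product -/
lemma gm_expand (a η : ℕ → ℝ) {n : ℕ} (hn : Squarefree n) :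
    gm (fun p => a p * (1 + η p)) n = ∑ d ∈ n.divisors, gm a n * gm η d := by
  rw [CN.gm_mul, ← mul_sum]
  congr 1
  have hm : (ArithmeticFunction.prodPrimeFactors η).IsMultiplicative :=
    ArithmeticFunction.IsMultiplicative.prodPrimeFactors η
  have h1 := hm.prodPrimeFactors_one_add_of_squarefree hn
  have h2 : ∀ p ∈ n.primeFactors, 1 + η p = 1 + (ArithmeticFunction.prodPrimeFactors η) p := by
    intro p hp
    have hp' := Nat.prime_of_mem_primeFactors hp
    rw [ArithmeticFunction.prodPrimeFactors_apply hp'.ne_zero, hp'.primeFactors, prod_singleton]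
  unfold gm
  rw [prod_congr rfl h2, h1]
  refine sum_congr rfl fun d hd => ?_
  rw [ArithmeticFunction.prodPrimeFactors_apply (Nat.pos_of_mem_divisors hd).ne']

theorem chg (z y : ℕ) (a η G : ℕ → ℝ) (A : ℝ) (hA : 0 ≤ A)
    (ha : ∀ p ∈ PS z y, 0 ≤ a p) (hη : ∀ p ∈ PS z y, 0 ≤ η p) (hG : ∀ s, 0 ≤ G s)
    (hg : ∀ s e, s * e ∣ PP z y → G (s * e) ≤ A ^ e.primeFactors.card * G s) :
    ∑ s ∈ (PP z y).divisors, G s * gm (fun p => a p * (1 + η p)) s ≤
      Real.exp (∑ p ∈ PS z y, A * a p * η p) *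
        ∑ s ∈ (PP z y).divisors, G s * gm a s := by
  classical
  set F : ℕ × ℕ → ℝ := fun x =>
    (A ^ x.2.primeFactors.card * gm a x.2 * gm η x.2) * (G x.1 * gm a x.1) with hF
  have hR : (∑ e ∈ (PP z y).divisors, A ^ e.primeFactors.card * gm a e * gm η e) *
        ∑ s ∈ (PP z y).divisors, G s * gm a s =
      ∑ x ∈ (PP z y).divisors ×ˢ (PP z y).divisors, F x := by
    rw [sum_mul_sum, sum_product, sum_comm]
  have hFn : ∀ x ∈ (PP z y).divisors ×ˢ (PP z y).divisors, 0 ≤ F x := by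
    intro x hx
    rw [mem_product] at hx
    have h1 := RX.gm_nn ha (Nat.dvd_of_mem_divisors hx.1)
    have h2 := RX.gm_nn ha (Nat.dvd_of_mem_divisors hx.2)
    have h3 := RX.gm_nn hη (Nat.dvd_of_mem_divisors hx.2)
    exact mul_nonneg (mul_nonneg (mul_nonneg (by positivity) h2) h3)
      (mul_nonneg (hG _) h1)
  have hL : ∀ s ∈ (PP z y).divisors, G s * gm (fun p => a p * (1 + η p)) s =
      ∑ e ∈ s.divisors, G s * gm a s * gm η e := by
    intro s hs
    rw [gm_expand a η (dv_squarefree hs), mul_sum]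
    exact sum_congr rfl fun e _ => by ring
  have hexp : ∑ e ∈ (PP z y).divisors, A ^ e.primeFactors.card * gm a e * gm η e ≤
      Real.exp (∑ p ∈ PS z y, A * a p * η p) := by
    have h1 : ∀ e ∈ (PP z y).divisors, A ^ e.primeFactors.card * gm a e * gm η e =
        ∏ p ∈ e.primeFactors, (A * a p * η p) := by
      intro e _
      unfold gm
      rw [← prod_const, ← prod_mul_distrib, ← prod_mul_distrib]
    rw [sum_congr rfl h1, sum_dv z y (fun p => A * a p * η p), Real.exp_sum]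
    have hnn : ∀ p ∈ PS z y, 0 ≤ A * a p * η p := by
      intro p hp
      exact mul_nonneg (mul_nonneg hA (ha p hp)) (hη p hp)
    refine prod_le_prod (fun p hp => by linarith [hnn p hp]) fun p _ => ?_
    linarith [Real.add_one_le_exp (A * a p * η p)]
  refine le_trans ?_ (mul_le_mul_of_nonneg_right hexp
    (sum_nonneg fun s hs => mul_nonneg (hG s) (RX.gm_nn ha (Nat.dvd_of_mem_divisors hs))))
  rw [sum_congr rfl hL, sum_sigma', hR]
  set φ : (Σ _ : ℕ, ℕ) → ℕ × ℕ := fun x => (x.1 / x.2, x.2) with hφ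
  have key : ∀ x ∈ (PP z y).divisors.sigma (fun s => s.divisors), x.2 ∣ x.1 ∧ x.1 ∣ PP z y := by
    intro x hx
    rw [mem_sigma] at hx
    exact ⟨Nat.dvd_of_mem_divisors hx.2, Nat.dvd_of_mem_divisors hx.1⟩
  have hinj : Set.InjOn φ ((PP z y).divisors.sigma (fun s => s.divisors) : Set _) := by
    intro x hx x' hx' hxx
    have k1 := key x (Finset.mem_coe.1 hx)
    have k2 := key x' (Finset.mem_coe.1 hx')
    have e2 : x.2 = x'.2 := congrArg Prod.snd hxx
    have e1 : x.1 / x.2 = x'.1 / x'.2 := congrArg Prod.fst hxx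
    have e3 : x.1 = x'.1 := by
      have h4 := Nat.div_mul_cancel k1.1
      have h5 := Nat.div_mul_cancel k2.1
      rw [← h4, ← h5, e1, e2]
    cases x; cases x'
    simp only at e2 e3
    subst e2; subst e3; rfl
  have hmaps : ∀ x ∈ (PP z y).divisors.sigma (fun s => s.divisors),
      φ x ∈ (PP z y).divisors ×ˢ (PP z y).divisors := by
    intro x hx
    have k := key x hx
    rw [mem_product]
    exact ⟨Nat.mem_divisors.2 ⟨(Nat.div_dvd_of_dvd k.1).trans k.2, PP_ne_zero z y⟩,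
      Nat.mem_divisors.2 ⟨k.1.trans k.2, PP_ne_zero z y⟩⟩
  have hterm : ∀ x ∈ (PP z y).divisors.sigma (fun s => s.divisors),
      G x.1 * gm a x.1 * gm η x.2 ≤ F (φ x) := by
    intro x hx
    have k := key x hx
    have e0 : (x.1 / x.2) * x.2 = x.1 := Nat.div_mul_cancel k.1
    have h1 : G x.1 ≤ A ^ x.2.primeFactors.card * G (x.1 / x.2) := by
      have := hg (x.1 / x.2) x.2 (by rw [e0]; exact k.2)
      rwa [e0] at this
    have hsq : Squarefree ((x.1 / x.2) * x.2) := by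
      rw [e0]
      exact (dv_squarefree (Nat.mem_divisors.2 ⟨k.2, PP_ne_zero z y⟩))
    have h2 : gm a x.1 = gm a (x.1 / x.2) * gm a x.2 := by
      conv_lhs => rw [← e0]
      exact RX.gm_cop a (Nat.coprime_of_squarefree_mul hsq)
    have n1 : 0 ≤ gm a (x.1 / x.2) := RX.gm_nn ha ((Nat.div_dvd_of_dvd k.1).trans k.2)
    have n2 : 0 ≤ gm a x.2 := RX.gm_nn ha (k.1.trans k.2)
    have n3 : 0 ≤ gm η x.2 := RX.gm_nn hη (k.1.trans k.2)
    have h4 : F (φ x) = A ^ x.2.primeFactors.card * G (x.1 / x.2) *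
        (gm a (x.1 / x.2) * gm a x.2 * gm η x.2) := by
      simp only [hF, hφ]
      ring
    rw [h4, h2]
    calc G x.1 * (gm a (x.1 / x.2) * gm a x.2) * gm η x.2
        = G x.1 * (gm a (x.1 / x.2) * gm a x.2 * gm η x.2) := by ring
      _ ≤ _ := mul_le_mul_of_nonneg_right h1 (mul_nonneg (mul_nonneg n1 n2) n3)
  calc ∑ x ∈ (PP z y).divisors.sigma (fun s => s.divisors), G x.1 * gm a x.1 * gm η x.2
      ≤ ∑ x ∈ (PP z y).divisors.sigma (fun s => s.divisors), F (φ x) := sum_le_sum hterm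
    _ = ∑ w ∈ ((PP z y).divisors.sigma (fun s => s.divisors)).image φ, F w :=
        (sum_image hinj).symm
    _ ≤ ∑ x ∈ (PP z y).divisors ×ˢ (PP z y).divisors, F x := by
        refine sum_le_sum_of_subset_of_nonneg ?_ fun x hx _ => hFn x hx
        intro w hw
        obtain ⟨x, hx, rfl⟩ := mem_image.1 hw
        exact hmaps x hx

variable {h h' Q : ℤ[X]} {z : ℕ}

lemma bq_eq (hD : Dat h h' Q z) (hQ : h'.natDegree ≤ (Q * h').natDegree) {p : ℕ} (hpz : z < p) :
    ∃ η : ℝ, η = (((Q * h').natDegree : ℝ) - h'.natDegree) / (p - (Q * h').natDegree) ∧ 0 ≤ η ∧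
      η ≤ 2 * ((Q * h').natDegree : ℝ) * (1 / p) ∧ bq h' Q p = br h' p * (1 + η) := by
  have h2 : (2 * (Q * h').natDegree + 3 : ℝ) ≤ p := by
    have := hD.gF.big
    exact_mod_cast (by omega : 2 * (Q * h').natDegree + 3 ≤ p)
  have h3 : (h'.natDegree : ℝ) ≤ (Q * h').natDegree := by exact_mod_cast hQ
  have hn : (0 : ℝ) ≤ h'.natDegree := Nat.cast_nonneg _
  have hp0 : (0 : ℝ) < p := by linarith
  have hpn : (0 : ℝ) < (p : ℝ) - (Q * h').natDegree := by linarith
  have hpn' : (0 : ℝ) < (p : ℝ) - h'.natDegree := by linarith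
  refine ⟨_, rfl, div_nonneg (by linarith) hpn.le, ?_, ?_⟩
  · rw [mul_one_div, div_le_div_iff₀ hpn hp0]
    nlinarith
  · unfold bq br
    field_simp
    ring

lemma bq_bd (hD : Dat h h' Q z) {p : ℕ} (hp : p.Prime) (hpz : z < p) : 0 ≤ bq h' Q p ∧
    bq h' Q p ≤ (2 * (h'.natDegree : ℝ)) / p := by
  have h1 : (rho h' p : ℝ) ≤ h'.natDegree := by exact_mod_cast hD.gh'.few p hp hpz
  have h2 : (2 * (Q * h').natDegree + 3 : ℝ) ≤ p := by
    have := hD.gF.big
    exact_mod_cast (by omega : 2 * (Q * h').natDegree + 3 ≤ p)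
  have hn : (0 : ℝ) ≤ h'.natDegree := Nat.cast_nonneg _
  have hn' : (0 : ℝ) ≤ (Q * h').natDegree := Nat.cast_nonneg _
  have hp0 : (0 : ℝ) < p := by linarith
  have hpn : (0 : ℝ) < (p : ℝ) - (Q * h').natDegree := by linarith
  unfold bq
  refine ⟨div_nonneg (Nat.cast_nonneg _) hpn.le, ?_⟩
  rw [div_le_div_iff₀ hpn hp0]
  nlinarith

/-- the average with the new weights -/
theorem avg (hD : Dat h h' Q z) (hQ : h'.natDegree ≤ (Q * h').natDegree) {G : ℕ → ℝ} {A C' : ℝ}
    {g : ℕ} (hA : 0 ≤ A) (hG : ∀ s, 0 ≤ G s)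
    (hsub : ∀ y s e, s * e ∣ PP z y → G (s * e) ≤ A ^ e.primeFactors.card * G s)
    (havg : ∀ y : ℕ, z < y → ∑ s ∈ (PP z y).divisors, G s * gm (br h') s ≤
      C' * (Real.log y) ^ g) :
    ∃ C : ℝ, ∀ y : ℕ, z < y → ∑ s ∈ (PP z y).divisors, G s * gm (bq h' Q) s ≤
      C * (Real.log y) ^ g := by
  obtain ⟨K, hK, hsq⟩ := sum_inv_sq
  set D : ℝ := ((Q * h').natDegree : ℝ) with hDd
  have hD0 : 0 ≤ D := Nat.cast_nonneg _
  set d : ℝ := (h'.natDegree : ℝ) with hdd
  have hd0 : 0 ≤ d := Nat.cast_nonneg _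
  set η : ℕ → ℝ := fun p => (D - d) / (p - D) with hη
  refine ⟨Real.exp (A * (2 * d) * (2 * D) * K) * C', fun y hy => ?_⟩
  have hη1 : ∀ p ∈ PS z y, 0 ≤ η p ∧ η p ≤ 2 * D * (1 / p) ∧
      bq h' Q p = br h' p * (1 + η p) := by
    intro p hp
    obtain ⟨e, he, h1, h2, h3⟩ := bq_eq hD hQ (PS_lt hp)
    have h4 : η p = e := he.symm
    rw [h4]
    exact ⟨h1, h2, h3⟩
  have hbr : ∀ p ∈ PS z y, 0 ≤ br h' p := fun p hp => br_nonneg hD.gh' (PS_prime hp) (PS_lt hp)
  have h1 := chg z y (br h') η G A hA hbr (fun p hp => (hη1 p hp).1) hG (fun s e => hsub y s e)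
  have h2 : ∑ s ∈ (PP z y).divisors, G s * gm (bq h' Q) s =
      ∑ s ∈ (PP z y).divisors, G s * gm (fun p => br h' p * (1 + η p)) s := by
    refine sum_congr rfl fun s hs => ?_
    congr 1
    unfold gm
    refine prod_congr rfl fun p hp => ?_
    have hpp := Nat.prime_of_mem_primeFactors hp
    exact (hη1 p ((prime_dvd_PP hpp).1 ((Nat.dvd_of_mem_primeFactors hp).trans
      (Nat.dvd_of_mem_divisors hs)))).2.2
  rw [h2]
  refine h1.trans ?_
  have h3 : ∑ p ∈ PS z y, A * br h' p * η p ≤ A * (2 * d) * (2 * D) * K := by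
    calc ∑ p ∈ PS z y, A * br h' p * η p
        ≤ ∑ p ∈ PS z y, A * (2 * d) * (2 * D) * (1 / (p : ℝ) ^ 2) := by
          refine sum_le_sum fun p hp => ?_
          have e1 := br_le hD.gh' (PS_prime hp) (PS_lt hp)
          have e2 := hbr p hp
          have e3 := (hη1 p hp).1
          have e4 := (hη1 p hp).2.1
          have e5 : br h' p * η p ≤ (2 * d * (1 / p)) * (2 * D * (1 / p)) :=
            mul_le_mul e1 e4 e3 (by positivity)
          calc A * br h' p * η p = A * (br h' p * η p) := by ring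
            _ ≤ A * ((2 * d * (1 / p)) * (2 * D * (1 / p))) := mul_le_mul_of_nonneg_left e5 hA
            _ = _ := by ring
      _ = A * (2 * d) * (2 * D) * ∑ p ∈ PS z y, (1 / (p : ℝ) ^ 2) := by rw [mul_sum]
      _ ≤ _ := mul_le_mul_of_nonneg_left (hsq _) (by positivity)
  have h0 : 0 ≤ ∑ s ∈ (PP z y).divisors, G s * gm (br h') s :=
    sum_nonneg fun s hs => mul_nonneg (hG s) (RX.gm_nn hbr (Nat.dvd_of_mem_divisors hs))
  calc Real.exp (∑ p ∈ PS z y, A * br h' p * η p) *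
        ∑ s ∈ (PP z y).divisors, G s * gm (br h') s
      ≤ Real.exp (A * (2 * d) * (2 * D) * K) *
        ∑ s ∈ (PP z y).divisors, G s * gm (br h') s :=
        mul_le_mul_of_nonneg_right (Real.exp_le_exp.2 h3) h0
    _ ≤ Real.exp (A * (2 * d) * (2 * D) * K) * (C' * (Real.log y) ^ g) :=
        mul_le_mul_of_nonneg_left (havg y hy) (Real.exp_pos _).le
    _ = _ := by ring

end KA

end Run7.h69
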