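import Mathlib
import Pool.Agent.Run7.h69.MA1
import Pool.Agent.Run7.h69.CN
import Pool.Agent.Run7.h69.KA2

/-!
# The count for the values of a binary form with one fixed variable
-/

set_option autoImplicit false
set_option linter.unusedSectionVars false

namespace Run7.h69

open Finset Polynomial
open Pool.Agent.W262.RK hiding lk ff s1 s2
open Pool.Agent.W655.RK (PS_prime PS_lt PS_le)
open Pool.Agent.W372.RK2 (sq_pow_dvd card_W WW)

namespace MA

open CN (Rt mem_Rt Good Phi Phi_mem md gm_mul gm_id gm_coprime mod_eq_dvd)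

variable {h : ℤ[X]} {z y Y s v u : ℕ} {t w : ℤ}

/-- the derivative of the scaled polynomial -/
lemma deriv_scale (f : ℤ[X]) (w : ℤ) (t : ℤ) {p : ℕ} (hp : p.Prime) (hw : ¬ (p : ℤ) ∣ w)
    (hd : (p : ℤ) ∣ (derivative (f.scaleRoots w)).eval t) :
    ((derivative f).map (Int.castRingHom (ZMod p))).eval ((t : ZMod p) * (w : ZMod p)⁻¹) = 0 := by
  have : Fact p.Prime := ⟨hp⟩
  have hw0 : (w : ZMod p) ≠ 0 := by
    rw [Ne, ZMod.intCast_zmod_eq_zero_iff_dvd]
    exact hw
  set φ := Int.castRingHom (ZMod p) with hφ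
  -- the map of the scaled polynomial is a composition
  have h1 : (f.scaleRoots w).map φ = C ((w : ZMod p) ^ f.natDegree) *
      (f.map φ).comp (C (w : ZMod p)⁻¹ * X) := by
    ext n
    rw [coeff_map, coeff_scaleRoots, coeff_C_mul, comp_C_mul_X_coeff, coeff_map]
    rw [map_mul, map_pow]
    show φ (f.coeff n) * (w : ZMod p) ^ (f.natDegree - n) =
      (w : ZMod p) ^ f.natDegree * (φ (f.coeff n) * ((w : ZMod p)⁻¹) ^ n)
    rcases Nat.lt_or_ge f.natDegree n with hn | hn
    · rw [coeff_eq_zero_of_natDegree_lt hn]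
      simp
    · have e : (w : ZMod p) ^ f.natDegree = (w : ZMod p) ^ (f.natDegree - n) * (w : ZMod p) ^ n := by
        rw [← pow_add]
        congr 1
        omega
      rw [e]
      have e2 : (w : ZMod p) ^ n * ((w : ZMod p)⁻¹) ^ n = 1 := by
        rw [← mul_pow, mul_inv_cancel₀ hw0, one_pow]
      calc φ (f.coeff n) * (w : ZMod p) ^ (f.natDegree - n)
          = φ (f.coeff n) * (w : ZMod p) ^ (f.natDegree - n) *
            ((w : ZMod p) ^ n * ((w : ZMod p)⁻¹) ^ n) := by rw [e2, mul_one]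
        _ = _ := by ring
  rw [SV.dvd_eval_iff, ← derivative_map, h1, derivative_C_mul, derivative_comp] at hd
  rw [eval_mul, eval_C, eval_mul, eval_comp] at hd
  have e3 : (derivative (C (w : ZMod p)⁻¹ * (X : (ZMod p)[X]))).eval ((t : ℤ) : ZMod p) =
      (w : ZMod p)⁻¹ := by
    rw [derivative_C_mul, derivative_X, mul_one, eval_C]
  have e4 : (C (w : ZMod p)⁻¹ * (X : (ZMod p)[X])).eval ((t : ℤ) : ZMod p) =
      (t : ZMod p) * (w : ZMod p)⁻¹ := by
    rw [eval_mul, eval_C, eval_X, mul_comm]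
  rw [e3, e4] at hd
  have hwi : (w : ZMod p)⁻¹ ≠ 0 := inv_ne_zero hw0
  have h5 := (mul_eq_zero.1 hd).resolve_left (pow_ne_zero _ hw0)
  rw [← derivative_map]
  exact (mul_eq_zero.1 h5).resolve_left hwi

/-- simple roots -/
lemma simp_scale (hz : Gd h z) {p : ℕ} (hp : p.Prime) (hpz : z < p) (hw : ¬ (p : ℤ) ∣ w)
    (ht : (p : ℤ) ∣ (h.scaleRoots w).eval t) :
    ¬ (p : ℤ) ∣ (derivative (h.scaleRoots w)).eval t := by
  intro hd
  have : Fact p.Prime := ⟨hp⟩
  have h1 := (dvd_scale h hp hw t).1 ht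
  have h2 := deriv_scale h w t hp hw hd
  set c : ℤ := (((t : ZMod p) * (w : ZMod p)⁻¹).val : ℤ) with hc
  have hcc : (c : ZMod p) = (t : ZMod p) * (w : ZMod p)⁻¹ := by
    rw [hc]
    push_cast
    exact ZMod.natCast_zmod_val _
  rw [← hcc, ← SV.dvd_eval_iff] at h1 h2
  exact hz.simp p hp hpz c h1 h2

/-- uniqueness in Hensel's lemma -/
lemma hensel (hz : Gd h z) {p : ℕ} (hp : p.Prime) (hpz : z < p) (hw : ¬ (p : ℤ) ∣ w) {t t' : ℤ}
    (ht : (p : ℤ) ∣ (h.scaleRoots w).eval t') (h1 : (p : ℤ) ∣ t - t')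
    (h2 : (p : ℤ) ^ 2 ∣ (h.scaleRoots w).eval t - (h.scaleRoots w).eval t') :
    (p : ℤ) ^ 2 ∣ t - t' := by
  obtain ⟨k, hk⟩ := Polynomial.binomExpansion (h.scaleRoots w) t' (t - t')
  have e : t' + (t - t') = t := by ring
  rw [e] at hk
  have h3 : (h.scaleRoots w).eval t - (h.scaleRoots w).eval t' =
      (t - t') * ((derivative (h.scaleRoots w)).eval t' + k * (t - t')) := by
    rw [hk]; ring
  rw [h3] at h2
  have hpp := Nat.prime_iff_prime_int.1 hp
  have h4 : ¬ (p : ℤ) ∣ (derivative (h.scaleRoots w)).eval t' + k * (t - t') := by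
    intro h5
    apply simp_scale hz hp hpz hw ht
    exact (dvd_add_left (h1.mul_left k)).1 h5
  exact hpp.pow_dvd_of_dvd_mul_right 2 h4 h2

/-- the number of the roots of the scaled polynomial -/
lemma rho_scale (f : ℤ[X]) {p : ℕ} (hp : p.Prime) (hw : ¬ (p : ℤ) ∣ w) :
    rho (f.scaleRoots w) p = rho f p := by
  classical
  have : Fact p.Prime := ⟨hp⟩
  have hw0 : (w : ZMod p) ≠ 0 := by
    rw [Ne, ZMod.intCast_zmod_eq_zero_iff_dvd]
    exact hw
  set F : (ZMod p)[X] := f.map (Int.castRingHom (ZMod p)) with hF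
  set F1 : ZMod p → ℕ := fun b => if F.eval b = 0 then 1 else 0 with hF1
  have h1 : rho (f.scaleRoots w) p =
      ∑ x ∈ range p, (fun b : ZMod p => F1 (b * (w : ZMod p)⁻¹)) (x : ZMod p) := by
    show ((Finset.range p).filter (fun a : ℕ => (p : ℤ) ∣ (f.scaleRoots w).eval (a : ℤ))).card = _
    rw [card_filter]
    refine sum_congr rfl fun x _ => ?_
    simp only [hF1]
    refine if_congr ?_ rfl rfl
    rw [dvd_scale f hp hw]
    push_cast
    rfl
  have h2 : rho f p = ∑ x ∈ range p, F1 (x : ZMod p) := by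
    show ((Finset.range p).filter (fun a : ℕ => (p : ℤ) ∣ f.eval (a : ℤ))).card = _
    rw [card_filter]
    refine sum_congr rfl fun x _ => ?_
    simp only [hF1]
    refine if_congr ?_ rfl rfl
    rw [SV.dvd_eval_iff]
    push_cast
    rfl
  rw [h1, h2, SV.sum_zmod (fun b : ZMod p => F1 (b * (w : ZMod p)⁻¹)), SV.sum_zmod F1]
  have hb : Function.Bijective (fun b : ZMod p => b * (w : ZMod p)⁻¹) := by
    apply Function.bijective_iff_has_inverse.2
    refine ⟨fun c => c * w, fun b => ?_, fun c => ?_⟩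
    · field_simp
    · field_simp
  exact hb.sum_comp F1

end MA

end Run7.h69
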