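import Mathlib
import Pool.Agent.Run7.h69.MA2

/-!
# The count for the values of a binary form with one fixed variable, continued
-/

set_option autoImplicit false
set_option linter.unusedSectionVars false

namespace Run7.h69

open Finset Polynomial
open Pool.Agent.W262.RK hiding lk ff s1 s2
open Pool.Agent.W655.RK (PS_prime PS_lt PS_le)
open Pool.Agent.W372.RK2 (sq_pow_dvd card_W WW)

namespace MA

open CN (Rt mem_Rt Good Phi Phi_mem md gm_mul gm_id gm_coprime mod_eq_dvd)

variable {h : ℤ[X]} {z y Y s v u : ℕ} {t w : ℤ}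

/-- the value of the scaled polynomial modulo `w` -/
lemma scale_mod (f : ℤ[X]) (w t : ℤ) :
    w ∣ (f.scaleRoots w).eval t - f.leadingCoeff * t ^ f.natDegree := by
  rw [eval_eq_sum_range, natDegree_scaleRoots, sum_range_succ]
  have h1 : (f.scaleRoots w).coeff f.natDegree * t ^ f.natDegree =
      f.leadingCoeff * t ^ f.natDegree := by
    rw [coeff_scaleRoots, Nat.sub_self, pow_zero, mul_one]
    rfl
  rw [h1, add_sub_cancel_right]
  refine dvd_sum fun i hi => ?_
  rw [mem_range] at hi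
  rw [coeff_scaleRoots]
  exact ((dvd_pow_self w (by omega)).mul_left _).mul_right _

/-- the prime divisors of the values do not divide `w` -/
lemma not_dvd (hlc : h.leadingCoeff ≠ 0) (hlz : h.leadingCoeff.natAbs ≤ z) {p : ℕ} (hp : p.Prime)
    (hpz : z < p) (hc : IsCoprime t w) (hd : (p : ℤ) ∣ (h.scaleRoots w).eval t) :
    ¬ (p : ℤ) ∣ w := by
  intro hw
  have hpI := Nat.prime_iff_prime_int.1 hp
  have h1 : (p : ℤ) ∣ h.leadingCoeff * t ^ h.natDegree :=
    (dvd_sub_right hd).1 (hw.trans (scale_mod h w t))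
  rcases hpI.dvd_or_dvd h1 with h2 | h2
  · have h3 := Nat.le_of_dvd (Int.natAbs_pos.2 hlc) (Int.natCast_dvd.1 h2)
    omega
  · have h3 := hpI.dvd_of_dvd_pow h2
    obtain ⟨a, b, hab⟩ := hc
    apply hpI.not_dvd_one
    rw [← hab]
    exact dvd_add (h3.mul_left _) (hw.mul_left _)

/-- two counted `t` with the same residues are congruent -/
lemma congr_of (hz : Gd h z) (hlc : h.leadingCoeff ≠ 0) (hlz : h.leadingCoeff.natAbs ≤ z)
    (hzy : z < y) (hs : s ∣ PP z y) (hv : v ∣ PP z y)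
    (hu : u ∣ PP y Y) {t t' : ℤ} (hc : IsCoprime t w) (g : Good (h.scaleRoots w) z y s v u t)
    (g' : Good (h.scaleRoots w) z y s v u t')
    (h : Phi (h.scaleRoots w) s v u t = Phi (h.scaleRoots w) s v u t') :
    ((md s v u : ℕ) : ℤ) ∣ t - t' := by
  have hs0 : s ≠ 0 := fun h => PP_ne_zero z y (Nat.eq_zero_of_zero_dvd (h ▸ hs))
  have hv0 : v ≠ 0 := fun h => PP_ne_zero z y (Nat.eq_zero_of_zero_dvd (h ▸ hv))
  have hu0 : u ≠ 0 := fun h => PP_ne_zero y Y (Nat.eq_zero_of_zero_dvd (h ▸ hu))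
  have hsq := (PP_squarefree z y).squarefree_of_dvd hs
  have hvq := (PP_squarefree z y).squarefree_of_dvd hv
  have huq := (PP_squarefree y Y).squarefree_of_dvd hu
  have h1 : ∀ p : ℕ, p.Prime → p ∣ s * v * u → (p : ℤ) ∣ t - t' := by
    intro p hp hd
    have h2 := congrFun (congrArg Prod.fst h) ⟨p, Nat.mem_primeFactors.2
      ⟨hp, hd, mul_ne_zero (mul_ne_zero hs0 hv0) hu0⟩⟩
    exact mod_eq_dvd hp h2
  have h2 : ((s : ℤ)) ^ 2 ∣ t - t' := by
    apply sq_pow_dvd hsq 2
    intro p hp hps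
    obtain ⟨a1, a2, a3⟩ := g.fs hp hps
    obtain ⟨b1, b2, b3⟩ := g'.fs hp hps
    apply hensel hz hp (PS_lt a1) (not_dvd hlc hlz hp (PS_lt a1) hc a2) b2
      (h1 p hp ((hps.mul_right _).mul_right _))
    have h3 := congrFun (congrArg Prod.snd h) ⟨p, Nat.mem_primeFactors.2 ⟨hp, hps, hs0⟩⟩
    have h4 : (p : ℤ) ∣ (Polynomial.scaleRoots _ w).eval t / p -
      (Polynomial.scaleRoots _ w).eval t' / p := mod_eq_dvd hp h3
    have e1 := (Int.mul_ediv_cancel' a2).symm
    have e2 := (Int.mul_ediv_cancel' b2).symm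
    rw [e1, e2, ← mul_sub, sq]
    exact mul_dvd_mul_left _ h4
  have h3 : ((v : ℤ)) ^ 2 ∣ t - t' := by
    apply sq_pow_dvd hvq 2
    intro p hp hps
    obtain ⟨a1, a2⟩ := g.fv hp hps
    obtain ⟨b1, b2⟩ := g'.fv hp hps
    have a3 := (dvd_pow_self (p : ℤ) two_ne_zero).trans a2
    exact hensel hz hp (PS_lt a1) (not_dvd hlc hlz hp (PS_lt a1) hc a3)
      ((dvd_pow_self (p : ℤ) two_ne_zero).trans b2)
      (h1 p hp ((hps.mul_left _).mul_right _)) (dvd_sub a2 b2)
  have h4 : (u : ℤ) ∣ t - t' := by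
    have := sq_pow_dvd huq 1 (t - t') (fun p hp hps => by
      rw [pow_one]
      exact h1 p hp (hps.mul_left _))
    rwa [pow_one] at this
  have hcop1 : IsCoprime ((s : ℤ) ^ 2) ((v : ℤ) ^ 2) := by
    apply IsCoprime.pow
    rw [Nat.isCoprime_iff_coprime]
    apply Nat.coprime_of_dvd
    intro p hp hps hpv
    exact (g.fs hp hps).2.2 (g.fv hp hpv).2
  have hcop2 : IsCoprime ((s : ℤ) ^ 2 * (v : ℤ) ^ 2) (u : ℤ) := by
    rw [← mul_pow]
    apply IsCoprime.pow_left
    rw [← Nat.cast_mul, Nat.isCoprime_iff_coprime]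
    apply Nat.coprime_of_dvd
    intro p hp hps hpu
    have h8 := PS_lt (g.fu hu hp hpu).1
    have h9 : p ≤ y := by
      rcases hp.dvd_mul.1 hps with h | h
      · exact PS_le (g.fs hp h).1
      · exact PS_le (g.fv hp h).1
    omega
  unfold md
  push_cast
  exact hcop2.mul_dvd (hcop1.mul_dvd h2 h3) h4

/-- the factor of the primes dividing `w` -/
noncomputable def sg (h : ℤ[X]) (z : ℕ) (w : ℤ) : ℝ :=
  ∏ p ∈ w.natAbs.primeFactors.filter (fun p => z < p), (p : ℝ) / ((p : ℝ) - h.natDegree)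

lemma prod_sub {F : ℕ → ℝ} {S T : Finset ℕ} (hST : S ⊆ T) (hF : ∀ p ∈ T, 1 ≤ F p) :
    ∏ p ∈ S, F p ≤ ∏ p ∈ T, F p := by
  classical
  rw [← prod_sdiff hST]
  refine le_mul_of_one_le_left (prod_nonneg fun p hp => by linarith [hF p (hST hp)]) ?_
  calc (1 : ℝ) = ∏ p ∈ T \ S, (1 : ℝ) := by rw [prod_const_one]
    _ ≤ _ := prod_le_prod (fun _ _ => zero_le_one) fun p hp => hF p (mem_sdiff.1 hp).1

lemma one_le_fac (hz : Gd h z) {p : ℕ} (hpz : z < p) : 1 ≤ (p : ℝ) / ((p : ℝ) - h.natDegree) := by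
  have h2 : (2 * h.natDegree + 3 : ℝ) ≤ p := by
    have := hz.big
    exact_mod_cast (by omega : 2 * h.natDegree + 3 ≤ p)
  have hn : (0 : ℝ) ≤ h.natDegree := Nat.cast_nonneg _
  rw [le_div_iff₀ (by linarith)]
  linarith

lemma one_le_sg (hz : Gd h z) (w : ℤ) : 1 ≤ sg h z w := by
  unfold sg
  calc (1 : ℝ) = ∏ p ∈ w.natAbs.primeFactors.filter (fun p => z < p), (1 : ℝ) := by
        rw [prod_const_one]
    _ ≤ _ := prod_le_prod (fun _ _ => zero_le_one) fun p hp => one_le_fac hz (mem_filter.1 hp).2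

lemma prod_split (hz : Gd h z) (hw : w ≠ 0) {m : ℕ} (hm : m ≠ 0) (y : ℕ) :
    ∏ p ∈ (PS z y).filter (fun p => p ∣ m ∨ (p : ℤ) ∣ w), (p : ℝ) / ((p : ℝ) - h.natDegree) ≤
      (∏ p ∈ m.primeFactors.filter (fun p => p ∈ PS z y), (p : ℝ) / ((p : ℝ) - h.natDegree)) *
        sg h z w := by
  classical
  set F : ℕ → ℝ := fun p => (p : ℝ) / ((p : ℝ) - h.natDegree) with hF
  have hF1 : ∀ p : ℕ, z < p → 1 ≤ F p := fun p hp => one_le_fac hz hp
  set S1 := m.primeFactors.filter (fun p => p ∈ PS z y) with hS1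
  set S2 := w.natAbs.primeFactors.filter (fun p => z < p) with hS2
  have hsub : (PS z y).filter (fun p => p ∣ m ∨ (p : ℤ) ∣ w) ⊆ S1 ∪ S2 := by
    intro p hp
    rw [mem_filter] at hp
    rw [mem_union, hS1, hS2, mem_filter, mem_filter, Nat.mem_primeFactors, Nat.mem_primeFactors]
    have h1 := mem_PS.1 hp.1
    rcases hp.2 with h2 | h2
    · exact Or.inl ⟨⟨h1.2, h2, hm⟩, hp.1⟩
    · exact Or.inr ⟨⟨h1.2, Int.natCast_dvd.1 h2, Int.natAbs_ne_zero.2 hw⟩, h1.1.1⟩
  have hz1 : ∀ p ∈ S1 ∪ S2, z < p := by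
    intro p hp
    rcases mem_union.1 hp with h1 | h1
    · exact PS_lt (mem_filter.1 h1).2
    · exact (mem_filter.1 h1).2
  have h1 := prod_sub hsub fun p hp => hF1 p (hz1 p hp)
  refine h1.trans ?_
  have h2 := prod_union_inter (s₁ := S1) (s₂ := S2) (f := F)
  have h3 : 1 ≤ ∏ p ∈ S1 ∩ S2, F p := by
    calc (1 : ℝ) = ∏ p ∈ S1 ∩ S2, (1 : ℝ) := by rw [prod_const_one]
      _ ≤ _ := prod_le_prod (fun _ _ => zero_le_one) fun p hp =>
        hF1 p (hz1 p (mem_union_left _ (mem_inter.1 hp).1))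
  have h4 : 0 ≤ ∏ p ∈ S1 ∪ S2, F p := prod_nonneg fun p hp => by linarith [hF1 p (hz1 p hp)]
  show _ ≤ (∏ p ∈ S1, F p) * ∏ p ∈ S2, F p
  rw [← h2]
  exact le_mul_of_one_le_right h4 h3

set_option maxHeartbeats 1000000 in
open Classical in
/-- the count -/
theorem count {g : ℕ} (hz : Gd h z) (hM : Mer h g) (hlc : h.leadingCoeff ≠ 0)
    (hlz : h.leadingCoeff.natAbs ≤ z) :
    ∃ (C : ℝ) (K y0 : ℕ), 0 ≤ C ∧ 1 ≤ K ∧ ∀ (w x : ℤ) (X y Y : ℕ), w ≠ 0 → y0 ≤ y → z < y →
    y ^ K ≤ X →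
    ∀ s v u : ℕ, s ∣ PP z y → v ∣ PP z y → u ∣ PP y Y → (s * v * u) ^ 8 ≤ X → ∀ E : Finset ℕ,
    (((Ioc x (x + X)).filter (fun t : ℤ => IsCoprime t w ∧ t1 (h.scaleRoots w) z y t = s ∧
      t2 (h.scaleRoots w) z y t = v ∧
      (u : ℤ) ∣ (h.scaleRoots w).eval t ∧ ng (h.scaleRoots w) t s = E)).card : ℝ) ≤
      sg h z w * (C * X * (1 / 2) ^ s.primeFactors.card * gm (br h) s * (gm (br h) v / v) *
        gm (ru h) u / (Real.log y) ^ g) := by
  obtain ⟨C, K, y0, hC, hK, hSV⟩ := MA.sieve hz hM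
  refine ⟨C, K, y0, hC, hK, ?_⟩
  intro w x X y Y hw hy0 hzy hX s v u hs hv hu hsvu E
  set f := h.scaleRoots w with hf
  have hfd : f.natDegree = h.natDegree := natDegree_scaleRoots h w
  have hsg1 := one_le_sg hz w
  have hzb := hz.big
  have hz2 : 2 ≤ z := by omega
  have hs' : s ∈ (PP z y).divisors := Nat.mem_divisors.2 ⟨hs, PP_ne_zero z y⟩
  have hv' : v ∈ (PP z y).divisors := Nat.mem_divisors.2 ⟨hv, PP_ne_zero z y⟩
  have hu' : u ∈ (PP y Y).divisors := Nat.mem_divisors.2 ⟨hu, PP_ne_zero y Y⟩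
  have hs0 := dv_ne_zero hs'
  have hv0 := dv_ne_zero hv'
  have hu0 := dv_ne_zero hu'
  have hsq := dv_squarefree hs'
  have hvq := dv_squarefree hv'
  have huq := dv_squarefree hu'
  have hlog : 0 ≤ (Real.log y) ^ g := pow_nonneg (Real.log_natCast_nonneg y) _
  have hbr : ∀ {w : ℕ}, w ∈ (PP z y).divisors → 0 ≤ gm (br h) w := fun hw =>
    AT.gm_nonneg (fun p hp hpz => br_nonneg hz hp hpz) hw
  have hru : 0 ≤ gm (ru h) u := prod_nonneg fun p _ => by unfold ru; positivity
  set T := (Ioc x (x + X)).filter (fun t : ℤ => IsCoprime t w ∧ t1 f z y t = s ∧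
      t2 f z y t = v ∧ (u : ℤ) ∣ f.eval t ∧ ng f t s = E) with hT
  have hgood : ∀ t ∈ T, Good f z y s v u t ∧ ng f t s = E ∧ IsCoprime t w := by
    intro t ht
    rw [hT, mem_filter] at ht
    exact ⟨⟨ht.2.2.1, ht.2.2.2.1, ht.2.2.2.2.1⟩, ht.2.2.2.2.2, ht.2.1⟩
  rcases T.eq_empty_or_nonempty with hTe | ⟨t0, ht0⟩
  · rw [hTe, card_empty, Nat.cast_zero]
    refine mul_nonneg (by linarith) (div_nonneg ?_ hlog)
    have h1 := hbr hs'
    have h2 := hbr hv'
    positivity
  have hnd : ∀ t ∈ T, ∀ p : ℕ, p.Prime → z < p → (p : ℤ) ∣ f.eval t → ¬ (p : ℤ) ∣ w :=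
    fun t ht p hp hpz hd => not_dvd hlc hlz hp hpz (hgood t ht).2.2 hd
  set m := md s v u with hm
  have hm1 : 1 ≤ m := by
    rw [hm]
    unfold md
    exact Nat.succ_le_of_lt (by positivity)
  have hm4 : m ^ 4 ≤ X := by
    refine le_trans ?_ hsvu
    have h1 : m ≤ (s * v * u) ^ 2 := by
      rw [hm]
      unfold md
      have h3 : 1 ≤ u := Nat.one_le_iff_ne_zero.2 hu0
      calc s ^ 2 * v ^ 2 * u ≤ s ^ 2 * v ^ 2 * (u * u) :=
            Nat.mul_le_mul_left _ (Nat.le_mul_of_pos_left u h3)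
        _ = (s * v * u) ^ 2 := by ring
    calc m ^ 4 ≤ ((s * v * u) ^ 2) ^ 4 := Nat.pow_le_pow_left h1 4
      _ = (s * v * u) ^ 8 := by rw [← pow_mul]
  have hg0 := (hgood t0 ht0).1
  have hcsv : s.Coprime v := by
    apply Nat.coprime_of_dvd
    intro p hp hps hpv
    exact (hg0.fs hp hps).2.2 (hg0.fv hp hpv).2
  have hcu : (s * v).Coprime u := by
    apply Nat.coprime_of_dvd
    intro p hp hps hpu
    have h8 := PS_lt (hg0.fu hu hp hpu).1
    have h9 : p ≤ y := by
      rcases hp.dvd_mul.1 hps with h | h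
      · exact PS_le (hg0.fs hp h).1
      · exact PS_le (hg0.fv hp h).1
    omega
  -- the primes do not divide w
  have hpw : ∀ p : ℕ, p.Prime → p ∣ s * v * u → ¬ (p : ℤ) ∣ w := by
    intro p hp hd
    rcases hp.dvd_mul.1 hd with h1 | h1
    · rcases hp.dvd_mul.1 h1 with h2 | h2
      · exact hnd t0 ht0 p hp (PS_lt (hg0.fs hp h2).1) (hg0.fs hp h2).2.1
      · exact hnd t0 ht0 p hp (PS_lt (hg0.fv hp h2).1)
          ((dvd_pow_self (p : ℤ) two_ne_zero).trans (hg0.fv hp h2).2)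
    · have h3 := PS_lt (hg0.fu hu hp h1).1
      exact hnd t0 ht0 p hp (by omega) (hg0.fu hu hp h1).2
  -- bound for a fibre
  set D : ℝ := (∏ p ∈ m.primeFactors.filter (fun p => p ∈ PS z y),
        (p : ℝ) / ((p : ℝ) - h.natDegree)) with hD
  set B : ℝ := C * (X / m) * (D * sg h z w) / (Real.log y) ^ g with hBdef
  have hsieve : ∀ r : ℤ, (((Ioc x (x + X)).filter (fun t : ℤ => (m : ℤ) ∣ t - r ∧ ∀ p ∈ PS z y,
      ¬ (p ∣ m ∨ (p : ℤ) ∣ w) → ¬ (p : ℤ) ∣ f.eval t)).card : ℝ) ≤ B := by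
    intro r
    refine (hSV w x X y hy0 hzy hX m r hm1 hm4).trans ?_
    rw [hBdef]
    refine div_le_div_of_nonneg_right ?_ hlog
    refine mul_le_mul_of_nonneg_left (prod_split hz hw (by omega) y) (by positivity)
  have hfib : ∀ φ, ((T.filter (fun t : ℤ => Phi f s v u t = φ)).card : ℝ) ≤ B := by
    intro φ
    rcases (T.filter (fun t : ℤ => Phi f s v u t = φ)).eq_empty_or_nonempty with
      he | ⟨r, hr⟩
    · rw [he, card_empty, Nat.cast_zero]
      exact le_trans (Nat.cast_nonneg _) (hsieve 0)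
    · refine le_trans ?_ (hsieve r)
      rw [Nat.cast_le]
      apply card_le_card
      intro t ht
      rw [mem_filter] at ht hr
      have g := (hgood t ht.1).1
      have g' := (hgood r hr.1).1
      have htX : t ∈ Ioc x (x + X) := (mem_filter.1 ht.1).1
      rw [mem_filter]
      refine ⟨htX, ?_, ?_⟩
      · exact congr_of hz hlc hlz hzy hs hv hu (hgood t ht.1).2.2 g g' (ht.2.trans hr.2.symm)
      · intro p hpP hpm hpf
        have hp := (mem_PS.1 hpP).2
        apply hpm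
        left
        rw [hm]
        unfold md
        by_cases h2 : (p : ℤ) ^ 2 ∣ f.eval t
        · have h3 : p ∣ v := by
            rw [← g.hv]
            exact (CN.dvd_t2 hp).2 ⟨hpP, h2⟩
          exact ((h3.pow two_ne_zero).mul_left _).mul_right _
        · have h3 : p ∣ s := by
            rw [← g.hs]
            exact (CN.dvd_t1 hp).2 ⟨hpP, hpf, h2⟩
          exact ((h3.pow two_ne_zero).mul_right _).mul_right _
  have hB0 : 0 ≤ B := le_trans (Nat.cast_nonneg _) (hsieve 0)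
  have hPhi : ∀ t ∈ T, Phi f s v u t ∈ CN.Cod f s v u E := by
    intro t ht
    have g := (hgood t ht).1
    have hE := (hgood t ht).2.1
    unfold Phi CN.Cod
    rw [mem_product, Fintype.mem_piFinset, Fintype.mem_piFinset]
    constructor
    · rintro ⟨p, hp0⟩
      have hp : p.Prime := Nat.prime_of_mem_primeFactors hp0
      have hd := Nat.dvd_of_mem_primeFactors hp0
      simp only
      apply mem_Rt hp
      rcases hp.dvd_mul.1 hd with h | h
      · rcases hp.dvd_mul.1 h with h | h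
        · exact (g.fs hp h).2.1
        · exact (dvd_pow_self (p : ℤ) two_ne_zero).trans (g.fv hp h).2
      · exact (g.fu hu hp h).2
    · rintro ⟨p, hp3⟩
      have hp : p.Prime := Nat.prime_of_mem_primeFactors hp3
      have hps := Nat.dvd_of_mem_primeFactors hp3
      unfold WW
      simp only
      obtain ⟨hP, hd, hd2⟩ := g.fs hp hps
      have hpos : (0 : ℤ) < p := by exact_mod_cast hp.pos
      have h0 : 0 ≤ (f.eval t / (p : ℤ)) % (p : ℤ) := Int.emod_nonneg _ hpos.ne'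
      rw [mem_filter, mem_range]
      constructor
      · have h1 := Int.emod_lt_of_pos (f.eval t / (p : ℤ)) hpos
        omega
      · rw [Int.toNat_of_nonneg h0, ← jacobiSym.mod_left]
        split_ifs with hpE
        · rw [← hE] at hpE
          unfold ng at hpE
          rw [mem_filter] at hpE
          exact hpE.2
        · have h1 : jacobiSym (f.eval t / (p : ℤ)) p ≠ -1 := by
            intro h
            apply hpE
            rw [← hE]
            unfold ng
            exact mem_filter.2 ⟨hp3, h⟩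
          have h2 : jacobiSym (f.eval t / (p : ℤ)) p ≠ 0 := by
            have : NeZero p := ⟨hp.ne_zero⟩
            rw [Ne, jacobiSym.eq_zero_iff_not_coprime, not_not, Int.gcd_comm]
            rw [Int.gcd_eq_natAbs, Int.natAbs_natCast]
            apply (hp.coprime_iff_not_dvd).2
            intro h
            apply hd2
            have h3 : (p : ℤ) ∣ f.eval t / (p : ℤ) := Int.natCast_dvd.2 h
            have h4 : f.eval t = p * (f.eval t / p) := (Int.mul_ediv_cancel' hd).symm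
            rw [h4, sq]
            exact mul_dvd_mul_left _ h3
          rcases jacobiSym.trichotomy (f.eval t / (p : ℤ)) p with h | h | h
          · exact absurd h h2
          · exact h
          · exact absurd h h1
  have hcard : (T.card : ℝ) ≤ ((CN.Cod f s v u E).card : ℝ) * B := by
    rw [card_eq_sum_card_fiberwise (f := fun t : ℤ => Phi f s v u t)
      (t := CN.Cod f s v u E) hPhi]
    rw [Nat.cast_sum]
    refine (sum_le_sum fun φ _ => hfib φ).trans ?_
    rw [sum_const, nsmul_eq_mul]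
  refine hcard.trans ((mul_le_mul_of_nonneg_right (CN.card_Cod hz2 hs E) hB0).trans ?_)
  -- the product over the primes
  have hpf : m.primeFactors.filter (fun p => p ∈ PS z y) = (s * v).primeFactors := by
    ext p
    rw [mem_filter, Nat.mem_primeFactors, Nat.mem_primeFactors]
    constructor
    · rintro ⟨⟨hp, hd, -⟩, hpP⟩
      refine ⟨hp, ?_, mul_ne_zero hs0 hv0⟩
      rw [hm] at hd
      unfold md at hd
      rcases hp.dvd_mul.1 hd with h | h
      · rcases hp.dvd_mul.1 h with h | h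
        · exact (hp.dvd_of_dvd_pow h).mul_right _
        · exact (hp.dvd_of_dvd_pow h).mul_left _
      · exfalso
        have h1 := PS_lt (hg0.fu hu hp h).1
        have h2 := PS_le hpP
        omega
    · rintro ⟨hp, hd, -⟩
      have h1 : p ∈ PS z y := by
        rcases hp.dvd_mul.1 hd with h | h
        · exact (hg0.fs hp h).1
        · exact (hg0.fv hp h).1
      refine ⟨⟨hp, ?_, by omega⟩, h1⟩
      rw [hm]
      unfold md
      rcases hp.dvd_mul.1 hd with h | h
      · exact ((h.pow two_ne_zero).mul_right _).mul_right _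
      · exact ((h.pow two_ne_zero).mul_left _).mul_right _
  have hprod : D = (s * gm (fun p => 1 / ((p : ℝ) - h.natDegree)) s) *
        (v * gm (fun p => 1 / ((p : ℝ) - h.natDegree)) v) := by
    rw [hD, hpf]
    have h1 : ∏ p ∈ (s * v).primeFactors, (p : ℝ) / ((p : ℝ) - h.natDegree) =
        gm (fun p => (p : ℝ) * (1 / ((p : ℝ) - h.natDegree))) (s * v) := by
      unfold gm
      exact prod_congr rfl fun p _ => by ring
    rw [h1, gm_coprime _ hcsv, gm_mul, gm_mul, gm_id hsq, gm_id hvq]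
  have hρ0 : gm (fun p => (rho f p : ℝ)) (s * v * u) = gm (fun p => (rho h p : ℝ)) (s * v * u) := by
    unfold gm
    refine prod_congr rfl fun p hp => ?_
    have e : rho f p = rho h p := rho_scale h (Nat.prime_of_mem_primeFactors hp)
      (hpw p (Nat.prime_of_mem_primeFactors hp) (Nat.dvd_of_mem_primeFactors hp))
    show ((rho f p : ℕ) : ℝ) = ((rho h p : ℕ) : ℝ)
    rw [e]
  have hρ : gm (fun p => (rho h p : ℝ)) (s * v * u) = gm (fun p => (rho h p : ℝ)) s *
      gm (fun p => (rho h p : ℝ)) v * gm (fun p => (rho h p : ℝ)) u := by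
    rw [gm_coprime _ hcu, gm_coprime _ hcsv]
  have hb : ∀ w : ℕ, gm (br h) w = gm (fun p => (rho h p : ℝ)) w *
      gm (fun p => 1 / ((p : ℝ) - h.natDegree)) w := by
    intro w
    rw [← gm_mul]
    unfold gm
    exact prod_congr rfl fun p _ => by unfold br; ring
  have hru' : gm (ru h) u * u = gm (fun p => (rho h p : ℝ)) u := by
    conv_lhs => rw [← gm_id huq]
    rw [← gm_mul]
    unfold gm
    refine prod_congr rfl fun p hp => ?_
    have : (p : ℝ) ≠ 0 := by exact_mod_cast (Nat.prime_of_mem_primeFactors hp).ne_zero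
    unfold ru
    field_simp
  have hsr : (s : ℝ) ≠ 0 := Nat.cast_ne_zero.2 hs0
  have hvr : (v : ℝ) ≠ 0 := Nat.cast_ne_zero.2 hv0
  have hur : (u : ℝ) ≠ 0 := Nat.cast_ne_zero.2 hu0
  have hmr : (m : ℝ) = (s : ℝ) ^ 2 * (v : ℝ) ^ 2 * u := by
    rw [hm]
    unfold md
    push_cast
    ring
  rw [hBdef, hprod, hρ0, hρ, hb s, hb v, ← hru', hmr]
  apply le_of_eq
  field_simp

end MA

end Run7.h69
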