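import Mathlib
import Pool.Agent.Run7.h69.MA3
import Pool.Agent.Run7.h69.NA
import Pool.Agent.Run7.h69.JA3

/-!
# Moments over the values of a binary form with one fixed variable
-/

set_option autoImplicit false
set_option linter.unusedSectionVars false

namespace Run7.h69

open Finset Polynomial
open Pool.Agent.W262.RK hiding lk ff s1 s2
open Pool.Agent.W655.RK (PS_prime PS_lt PS_le)

namespace MA

open EX (Bk)
open JA (NJ BJ BJ_nonneg Hm kp kp_ne kp_Hm NJ_pow subB IJ kq vc cr)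

variable {h : ℤ[X]} {z K : ℕ} {kc : Fin K → Bk K → ℤ}

/-- the quantity is bounded by the local count -/
def Bd2 (kc : Fin K → Bk K → ℤ) (h : ℤ[X]) (z : ℕ) (A B0 : ℝ) (R : ℤ → ℤ → ℝ) : Prop :=
  ∀ (w t : ℤ) (y N : ℕ), 1 ≤ y → (h.scaleRoots w).eval t ≠ 0 →
    ((h.scaleRoots w).eval t).natAbs < (y + 1) ^ N →
    R w t ≤ A * B0 ^ N * B0 ^ ((t2 (h.scaleRoots w) z y t).primeFactors.card) *
      (NJ kc (t1 (h.scaleRoots w) z y t) (ng (h.scaleRoots w) t (t1 (h.scaleRoots w) z y t)) : ℝ)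

/-- the growth of a binary form -/
lemma growth2 (h : ℤ[X]) : ∃ c L : ℕ, ∀ t w : ℤ,
    ((h.scaleRoots w).eval t).natAbs ≤ c * (t.natAbs + w.natAbs + 1) ^ L := by
  refine ⟨∑ i ∈ range (h.natDegree + 1), (h.coeff i).natAbs, h.natDegree, fun t w => ?_⟩
  rw [eval_eq_sum_range, natDegree_scaleRoots, sum_mul]
  refine (Int.natAbs_sum_le _ _).trans (sum_le_sum fun i hi => ?_)
  rw [mem_range] at hi
  rw [coeff_scaleRoots, Int.natAbs_mul, Int.natAbs_mul, Int.natAbs_pow, Int.natAbs_pow, mul_assoc]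
  refine Nat.mul_le_mul_left _ ?_
  have h1 : (t.natAbs + w.natAbs + 1) ^ h.natDegree =
      (t.natAbs + w.natAbs + 1) ^ (h.natDegree - i) * (t.natAbs + w.natAbs + 1) ^ i := by
    rw [← pow_add]
    congr 1
    omega
  rw [h1]
  exact Nat.mul_le_mul (Nat.pow_le_pow_left (by omega) _) (Nat.pow_le_pow_left (by omega) _)

/-- the pairs with the second coordinate `w` -/
noncomputable def SW (h : ℤ[X]) (w x : ℤ) (X : ℕ) : Finset ℤ :=
  open Classical in
  (Ioc x (x + X)).filter (fun t => IsCoprime t w ∧ (h.scaleRoots w).eval t ≠ 0)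

open Classical in
/-- the moments for good data -/
theorem moments {g m : ℕ} (M : ℕ) {A B0 : ℝ} (hA : 0 ≤ A) (hB0 : 2 ^ K ≤ B0) {R : ℤ → ℤ → ℝ}
    (hR0 : ∀ w t, 0 ≤ R w t)
    (hR : Bd2 kc h z A B0 R) (hz : Gd h z) (hlc : h.leadingCoeff ≠ 0)
    (hlz : h.leadingCoeff.natAbs ≤ z) (hMF : Mer h g) (hm : Hm kc) (h0 : ∀ l v, kc l v ≠ 0)
    (h1z : ∀ l v, (kc l v).natAbs ≤ z)
    {C' : ℝ} (hC' : ∀ y : ℕ, z < y → ∑ s ∈ (PP z y).divisors, BJ (kp m kc) s * gm (br h) s ≤
      C' * (Real.log y) ^ g) :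
    ∃ (X0 : ℕ) (B : ℝ), ∀ (w x : ℤ) (X : ℕ), w ≠ 0 → x.natAbs ≤ X ^ M → w.natAbs ≤ X ^ M →
      X0 ≤ X → ∑ t ∈ SW h w x X, R w t ^ m ≤ B * X * sg h z w := by
  have hz2 : 2 ≤ z := by have := hz.big; omega
  have hB1 : (1 : ℝ) ≤ B0 := le_trans (one_le_pow₀ (by norm_num)) hB0
  have hB00 : (0 : ℝ) ≤ B0 := by linarith
  have hsub : ∀ y s e, s * e ∣ PP z y → BJ (kp m kc) (s * e) ≤
      (B0 ^ m) ^ e.primeFactors.card * BJ (kp m kc) s := fun y s e hse =>
    (subB (kp_Hm hm) (fun l v => kp_ne h0 l v) (fun l v => h1z _ _) hse).trans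
      (mul_le_mul_of_nonneg_right (pow_le_pow_left₀ (by positivity) (by
        rw [mul_comm m K, pow_mul]
        exact pow_le_pow_left₀ (by positivity) hB0 m) _) (BJ_nonneg _ _))
  obtain ⟨C, Kc, y0, hC0, hK1, hcn⟩ := count hz hMF hlc hlz
  obtain ⟨c, L, hcL⟩ := growth2 h
  -- the size of the values
  set L1 : ℕ := (M + 4) * L + 1 with hL1
  set y1 : ℕ := y0 + c + 4 with hy1
  have hval : ∀ (w x : ℤ) (X : ℕ), x.natAbs ≤ X ^ M → w.natAbs ≤ X ^ M → y1 ≤ X →
      ∀ t ∈ Ioc x (x + X), ((h.scaleRoots w).eval t).natAbs ≤ X ^ L1 := by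
    intro w x X hx hw hX t ht
    rw [mem_Ioc] at ht
    have hX2 : 2 ≤ X := by omega
    have h1 : t.natAbs + w.natAbs + 1 ≤ x.natAbs + X ^ M + X + 1 := by omega
    have h2 : x.natAbs + X ^ M + X + 1 ≤ X ^ (M + 4) := by
      have h3 : X ^ (M + 4) = X ^ M * (X ^ 4) := pow_add _ _ _
      have h4 : 1 ≤ X ^ M := Nat.one_le_pow _ _ (by omega)
      have h5 : X + 1 + 2 ≤ X ^ 4 := by
        have e1 : 4 * 4 ≤ X * X := Nat.mul_le_mul (by omega) (by omega)
        have e2 : X * X * 16 ≤ X * X * (X * X) := Nat.mul_le_mul_left _ (by omega)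
        have e3 : X ≤ X * X := Nat.le_mul_of_pos_left X (by omega)
        have e4 : X ^ 4 = X * X * (X * X) := by ring
        omega
      calc x.natAbs + X ^ M + X + 1 ≤ X ^ M * 2 + 1 * (X + 1) := by omega
        _ ≤ X ^ M * 2 + X ^ M * (X + 1) := Nat.add_le_add_left (Nat.mul_le_mul_right _ h4) _
        _ = X ^ M * (X + 1 + 2) := by ring
        _ ≤ X ^ M * X ^ 4 := Nat.mul_le_mul_left _ h5
        _ = _ := h3.symm
    calc ((h.scaleRoots w).eval t).natAbs ≤ c * (t.natAbs + w.natAbs + 1) ^ L := hcL t w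
      _ ≤ X * (X ^ (M + 4)) ^ L :=
          Nat.mul_le_mul (by omega) (Nat.pow_le_pow_left (h1.trans h2) _)
      _ = X ^ L1 := by rw [hL1, ← pow_mul, pow_succ, mul_comm]
  have hdeg : (0 : ℝ) ≤ 2 * (h.natDegree : ℝ) := by positivity
  have hsgp : ∀ w, 0 < sg h z w := fun w => by linarith [one_le_sg hz w]
  have hbr2 : ∀ p : ℕ, p.Prime → z < p → 0 ≤ br h p ∧ br h p ≤ 2 * (h.natDegree : ℝ) / p := by
    intro p hp hpz
    refine ⟨br_nonneg hz hp hpz, ?_⟩
    have h1 := br_le hz hp hpz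
    rwa [mul_one_div] at h1
  obtain ⟨X0, B, hB⟩ := NA.nt (Ω := ℤ × ℤ) (I := ℤ × ℤ)
    (F := fun q => (h.scaleRoots q.1).eval q.2)
    (S := fun i X => ({i.1} : Finset ℤ) ×ˢ (SW h i.1 i.2 X)) (N := fun X : ℕ => (X : ℝ))
    (b := br h) (bv := br h) (r := ru h) (z := z) (G := BJ (kp m kc))
    (R := fun q => R q.1 q.2 ^ m / sg h z q.1) (M := 2 * (h.natDegree : ℝ))
    (Q := fun i X => i.1 ≠ 0 ∧ i.2.natAbs ≤ X ^ M ∧ i.1.natAbs ≤ X ^ M ∧ y1 ≤ X)
    (A := B0 ^ m) (C := C * A ^ m)
    (D := (B0 ^ L1) ^ m) (C' := C') (g := g) (K := Kc) (y0 := y1)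
    hz2 hdeg hbr2 hbr2
    (fun p hp hpz => by
      have h1 : (rho h p : ℝ) ≤ h.natDegree := by exact_mod_cast hz.few p hp hpz
      have hp0 : (0 : ℝ) < p := by exact_mod_cast hp.pos
      refine ⟨NX.ru_nonneg h p, ?_⟩
      unfold ru
      rw [div_le_div_iff_of_pos_right hp0]
      have : (0 : ℝ) ≤ h.natDegree := Nat.cast_nonneg _
      linarith)
    (fun X => Nat.cast_nonneg _)
    (BJ_nonneg _) (fun q => div_nonneg (pow_nonneg (hR0 _ _) m) (hsgp _).le)
    (by positivity) (by positivity)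
    (one_le_pow₀ (one_le_pow₀ hB1))
    hsub hC' (by
      rintro ⟨w, x⟩ X y Y k hQ hy0 hzy hyK hXk s v u hs hv hu hsvu
      obtain ⟨hw, hx, hwX, hX⟩ := hQ
      simp only at hw hx hwX ⊢
      have hy00 : y0 ≤ y := by omega
      set f := h.scaleRoots w with hf
      set S := (SW h w x X).filter (fun t : ℤ => NA.T1 z y (f.eval t) = s ∧
        NA.T2 z y (f.eval t) = v ∧ (u : ℤ) ∣ f.eval t) with hS
      have hsum : ∑ q ∈ (({w} : Finset ℤ) ×ˢ SW h w x X).filter (fun q : ℤ × ℤ =>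
          NA.T1 z y ((h.scaleRoots q.1).eval q.2) = s ∧
          NA.T2 z y ((h.scaleRoots q.1).eval q.2) = v ∧ (u : ℤ) ∣ (h.scaleRoots q.1).eval q.2),
            R q.1 q.2 ^ m / sg h z q.1 = (∑ t ∈ S, R w t ^ m) / sg h z w := by
        rw [sum_filter, sum_product, sum_singleton, hS, sum_filter, sum_div]
        refine sum_congr rfl fun t _ => ?_
        simp only
        split_ifs
        · rfl
        · rw [zero_div]
      rw [hsum, div_le_iff₀ (hsgp w)]
      set G : Finset ℕ → ℝ := fun E => (NJ kc s E : ℝ) ^ m with hG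
      have hG0 : ∀ E, 0 ≤ G E := fun E => by simp only [hG]; positivity
      have h1 : ∀ t ∈ S, R w t ^ m ≤
          A ^ m * ((B0 ^ L1) ^ m) ^ k * (B0 ^ m) ^ v.primeFactors.card *
            G (ng f t s) := by
        intro t ht
        rw [hS, mem_filter] at ht
        obtain ⟨ht1, hts, htv, _⟩ := ht
        unfold SW at ht1
        rw [mem_filter] at ht1
        have hN : (f.eval t).natAbs < (y + 1) ^ (k * L1) := by
          calc (f.eval t).natAbs ≤ X ^ L1 := hval w x X hx hwX hX t ht1.1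
            _ < ((y + 1) ^ k) ^ L1 := Nat.pow_lt_pow_left hXk (by omega)
            _ = _ := by rw [← pow_mul]
        have hr := hR w t y (k * L1) (by omega) ht1.2.2 hN
        have hts' : t1 f z y t = s := hts
        have htv' : t2 f z y t = v := htv
        rw [← hf, hts', htv'] at hr
        refine (pow_le_pow_left₀ (hR0 w t) hr m).trans (le_of_eq ?_)
        simp only [hG]
        rw [mul_pow, mul_pow, mul_pow]
        congr 2
        · congr 1
          rw [← pow_mul, ← pow_mul, ← pow_mul]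
          congr 1
          ring
        · rw [← pow_mul, ← pow_mul, mul_comm]
      have hneg : ∀ t ∈ S, ng f t s ∈ s.primeFactors.powerset := by
        intro t _
        rw [mem_powerset]
        exact filter_subset _ _
      have h2 : ∑ t ∈ S, G (ng f t s) =
          ∑ E ∈ s.primeFactors.powerset,
            ((S.filter (fun t : ℤ => ng f t s = E)).card : ℝ) * G E := by
        rw [← sum_fiberwise_of_maps_to hneg]
        refine sum_congr rfl fun E _ => ?_
        rw [← nsmul_eq_mul, ← sum_const]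
        refine sum_congr rfl fun t ht => ?_
        rw [(mem_filter.1 ht).2]
      set Q' : ℝ := sg h z w * (C * X * (1 / 2) ^ s.primeFactors.card * gm (br h) s *
        (gm (br h) v / v) * gm (ru h) u / (Real.log y) ^ g) with hQ'
      have h3 : ∀ E ∈ s.primeFactors.powerset,
          ((S.filter (fun t : ℤ => ng f t s = E)).card : ℝ) * G E ≤ Q' * G E := by
        intro E _
        refine mul_le_mul_of_nonneg_right ?_ (hG0 E)
        refine le_trans ?_ (hcn w x X y Y hw hy00 hzy hyK s v u hs hv hu hsvu E)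
        have h4 : S.filter (fun t : ℤ => ng f t s = E) ⊆
            (Ioc x (x + X)).filter (fun t : ℤ => IsCoprime t w ∧
              t1 (h.scaleRoots w) z y t = s ∧ t2 (h.scaleRoots w) z y t = v ∧
              (u : ℤ) ∣ (h.scaleRoots w).eval t ∧ ng (h.scaleRoots w) t s = E) := by
          intro t ht
          rw [mem_filter, hS, mem_filter] at ht
          unfold SW at ht
          rw [mem_filter] at ht
          rw [mem_filter]
          exact ⟨ht.1.1.1, ht.1.1.2.1, ht.1.2.1, ht.1.2.2.1, ht.1.2.2.2, ht.2⟩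
        exact_mod_cast card_le_card h4
      calc ∑ t ∈ S, R w t ^ m
          ≤ ∑ t ∈ S, A ^ m * ((B0 ^ L1) ^ m) ^ k * (B0 ^ m) ^ v.primeFactors.card *
            G (ng f t s) := sum_le_sum h1
        _ = A ^ m * ((B0 ^ L1) ^ m) ^ k * (B0 ^ m) ^ v.primeFactors.card *
              ∑ E ∈ s.primeFactors.powerset,
                ((S.filter (fun t : ℤ => ng f t s = E)).card : ℝ) * G E := by
            rw [← mul_sum, h2]
        _ ≤ A ^ m * ((B0 ^ L1) ^ m) ^ k * (B0 ^ m) ^ v.primeFactors.card *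
              ∑ E ∈ s.primeFactors.powerset, Q' * G E :=
            mul_le_mul_of_nonneg_left (sum_le_sum h3) (by positivity)
        _ = _ := by
            have e1 : BJ (kp m kc) s = (1 / 2) ^ s.primeFactors.card *
                ∑ E ∈ s.primeFactors.powerset, G E := by
              unfold BJ
              congr 1
              refine sum_congr rfl fun E _ => ?_
              rw [NJ_pow m kc s E]
              push_cast
              rfl
            have e2 : NA.bV (br h) (B0 ^ m) v = (B0 ^ m) ^ v.primeFactors.card *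
                (gm (br h) v / v) := rfl
            rw [← mul_sum, e1, e2, hQ']
            ring)
  refine ⟨X0 + y1, B, fun w x X hw hx hwX hX => ?_⟩
  have h1 := hB (w, x) X ⟨hw, hx, hwX, by omega⟩ (by omega)
  rw [sum_product, sum_singleton] at h1
  have h2 : (∑ t ∈ SW h w x X, R w t ^ m) / sg h z w ≤ B * X := by
    rw [sum_div]
    exact h1
  rwa [div_le_iff₀ (hsgp w)] at h2

end MA

end Run7.h69
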