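import Mathlib
import Pool.Agent.Run7.h69.MA3
import Pool.Agent.Run7.h69.NX

/-!
# The factor of the primes dividing `w` is bounded on average
-/

set_option autoImplicit false
set_option linter.unusedSectionVars false

namespace Run7.h69

open Finset Polynomial
open Pool.Agent.W262.RK hiding lk ff s1 s2
open Pool.Agent.W655.RK (PS_prime PS_lt PS_le sum_inv_sq)
open Pool.Agent.W591.RK2 (sum_dv)

namespace MA

variable {h : ℤ[X]} {z : ℕ}

/-- powers of the logarithm -/
lemma log_pow_lin (r : ℕ) : ∃ c : ℝ, 0 ≤ c ∧ ∀ X : ℕ, 1 ≤ X → (Real.log X) ^ r ≤ c * X := by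
  set δ : ℝ := 1 / (r + 1) with hδ
  have hδ0 : 0 < δ := by positivity
  refine ⟨(1 / δ) ^ r, by positivity, fun X hX => ?_⟩
  have hXr : (1 : ℝ) ≤ X := by exact_mod_cast hX
  have hl : 0 ≤ Real.log X := Real.log_nonneg hXr
  have h1 : Real.log X ≤ (X : ℝ) ^ δ / δ := Real.log_le_rpow_div (by linarith) hδ0
  have h2 : ((X : ℝ) ^ δ) ^ r ≤ X := by
    rw [← Real.rpow_natCast, ← Real.rpow_mul (by linarith)]
    calc (X : ℝ) ^ (δ * r) ≤ (X : ℝ) ^ (1 : ℝ) := by
          apply Real.rpow_le_rpow_of_exponent_le hXr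
          rw [hδ, one_div_mul_eq_div, div_le_one (by positivity)]
          linarith
      _ = X := Real.rpow_one _
  calc (Real.log X) ^ r ≤ ((X : ℝ) ^ δ / δ) ^ r := pow_le_pow_left₀ hl h1 _
    _ = (1 / δ) ^ r * ((X : ℝ) ^ δ) ^ r := by
        rw [← mul_pow]
        congr 1
        ring
    _ ≤ _ := mul_le_mul_of_nonneg_left h2 (by positivity)

/-- the factor of one prime -/
lemma fac_le (hz : Gd h z) {p : ℕ} (hpz : z < p) :
    (p : ℝ) / ((p : ℝ) - h.natDegree) ≤ 1 + 2 * (h.natDegree : ℝ) / p := by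
  have h2 : (2 * h.natDegree + 3 : ℝ) ≤ p := by
    have := hz.big
    exact_mod_cast (by omega : 2 * h.natDegree + 3 ≤ p)
  have hn : (0 : ℝ) ≤ h.natDegree := Nat.cast_nonneg _
  have hp0 : (0 : ℝ) < p := by linarith
  have hpn : (0 : ℝ) < (p : ℝ) - h.natDegree := by linarith
  rw [div_le_iff₀ hpn]
  have e : (1 + 2 * (h.natDegree : ℝ) / p) * ((p : ℝ) - h.natDegree) =
      p + h.natDegree * ((p - 2 * h.natDegree) / p) := by
    field_simp
    ring
  rw [e]
  have h3 : 0 ≤ (h.natDegree : ℝ) * ((p - 2 * h.natDegree) / p) :=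
    mul_nonneg hn (div_nonneg (by linarith) hp0.le)
  linarith

/-- multiples in a short interval -/
lemma card_mult (y : ℤ) (X e : ℕ) (he : 0 < e) :
    (((Ioc y (y + X)).filter (fun w : ℤ => (e : ℤ) ∣ w)).card : ℝ) ≤ X / e + 1 := by
  have he' : (0 : ℤ) < e := by exact_mod_cast he
  have h0 := Int.Ioc_filter_dvd_card y (y + X) he'
  have h1 : (⌊((y + X : ℤ) : ℚ) / ((e : ℤ) : ℚ)⌋ : ℚ) ≤ ((y + X : ℤ) : ℚ) / ((e : ℤ) : ℚ) :=
    Int.floor_le _
  have h2 : ((y : ℤ) : ℚ) / ((e : ℤ) : ℚ) < (⌊((y : ℤ) : ℚ) / ((e : ℤ) : ℚ)⌋ : ℚ) + 1 :=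
    Int.lt_floor_add_one _
  have h3 : ((max (⌊((y + X : ℤ) : ℚ) / ((e : ℤ) : ℚ)⌋ - ⌊((y : ℤ) : ℚ) / ((e : ℤ) : ℚ)⌋) 0 : ℤ) : ℚ)
      ≤ X / e + 1 := by
    push_cast
    apply max_le
    · have h4 : ((y : ℚ) + X) / e - y / e = X / e := by
        rw [← sub_div]
        ring
      push_cast at h1 h2
      linarith
    · positivity
  rw [← h0] at h3
  have h6 : ((((Ioc y (y + X)).filter (fun w : ℤ => (e : ℤ) ∣ w)).card : ℕ) : ℚ) ≤ X / e + 1 := by
    exact_mod_cast h3
  have h7 : (((((Ioc y (y + X)).filter (fun w : ℤ => (e : ℤ) ∣ w)).card : ℕ) : ℚ) : ℝ) ≤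
      (((X : ℚ) / e + 1 : ℚ) : ℝ) := by exact_mod_cast h6
  push_cast at h7
  exact h7

/-- the product over the small primes dividing `w` -/
lemma small_expand {w : ℤ} (hw : w ≠ 0) (X : ℕ) (κ : ℕ → ℝ) :
    ∏ p ∈ (PS z X).filter (fun p : ℕ => (p : ℤ) ∣ w), (1 + κ p) =
      ∑ e ∈ (PP z X).divisors, (if (e : ℤ) ∣ w then gm κ e else 0) := by
  classical
  rw [prod_one_add, ← sum_filter]
  refine sum_bij' (fun t _ => ∏ p ∈ t, p) (fun e _ => e.primeFactors) ?_ ?_ ?_ ?_ ?_
  · intro t ht
    rw [mem_powerset] at ht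
    have hpr : ∀ p ∈ t, p.Prime := fun p hp => PS_prime (mem_filter.1 (ht hp)).1
    rw [mem_filter, Nat.mem_divisors]
    refine ⟨⟨prod_dvd_prod_of_subset _ _ _ fun p hp => (mem_filter.1 (ht hp)).1,
      PP_ne_zero z X⟩, ?_⟩
    exact prodS_dvd hpr fun p hp => (mem_filter.1 (ht hp)).2
  · intro e he
    rw [mem_filter, Nat.mem_divisors] at he
    rw [mem_powerset]
    intro p hp
    have hpp := Nat.prime_of_mem_primeFactors hp
    have hpe := Nat.dvd_of_mem_primeFactors hp
    exact mem_filter.2 ⟨(prime_dvd_PP hpp).1 (hpe.trans he.1.1),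
      (Int.natCast_dvd_natCast.2 hpe).trans he.2⟩
  · intro t ht
    rw [mem_powerset] at ht
    exact Nat.primeFactors_prod fun p hp => PS_prime (mem_filter.1 (ht hp)).1
  · intro e he
    rw [mem_filter, Nat.mem_divisors] at he
    exact Nat.prod_primeFactors_of_squarefree ((PP_squarefree z X).squarefree_of_dvd he.1.1)
  · intro t ht
    rw [mem_powerset] at ht
    unfold gm
    rw [Nat.primeFactors_prod fun p hp => PS_prime (mem_filter.1 (ht hp)).1]

/-- the factor is at most the product over the small primes times a constant -/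
lemma sg_le (hz : Gd h z) {w : ℤ} (hw : w ≠ 0) {X N : ℕ} (hX : 1 ≤ X)
    (hN : w.natAbs < (X + 1) ^ N) :
    sg h z w ≤ 2 ^ N * ∏ p ∈ (PS z X).filter (fun p : ℕ => (p : ℤ) ∣ w),
      (1 + 2 * (h.natDegree : ℝ) / p) := by
  classical
  have hn : (0 : ℝ) ≤ h.natDegree := Nat.cast_nonneg _
  set S := w.natAbs.primeFactors.filter (fun p => z < p) with hS
  have h1 : sg h z w ≤ ∏ p ∈ S, (1 + 2 * (h.natDegree : ℝ) / p) := by
    unfold sg
    refine prod_le_prod (fun p hp => ?_) fun p hp => fac_le hz (mem_filter.1 hp).2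
    have := one_le_fac hz (mem_filter.1 hp).2
    linarith
  refine h1.trans ?_
  rw [← prod_filter_mul_prod_filter_not S (fun p => p ≤ X), mul_comm]
  have h2 : S.filter (fun p => p ≤ X) ⊆ (PS z X).filter (fun p : ℕ => (p : ℤ) ∣ w) := by
    intro p hp
    rw [mem_filter, hS, mem_filter, Nat.mem_primeFactors] at hp
    rw [mem_filter, mem_PS]
    exact ⟨⟨⟨hp.1.2, hp.2⟩, hp.1.1.1⟩, Int.natCast_dvd.2 hp.1.1.2.1⟩
  have h3 : ∏ p ∈ S.filter (fun p => ¬ p ≤ X), (1 + 2 * (h.natDegree : ℝ) / p) ≤ 2 ^ N := by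
    set S' := S.filter (fun p => ¬ p ≤ X) with hS'
    have hcard : S'.card ≤ N := by
      have e1 : (X + 1) ^ S'.card ≤ ∏ p ∈ S', p :=
        Finset.pow_card_le_prod _ _ _ (fun p hp => by
          have := (mem_filter.1 hp).2
          omega)
      have e2 : ∏ p ∈ S', p ∣ w.natAbs :=
        (prod_dvd_prod_of_subset _ _ _ ((filter_subset _ _).trans (filter_subset _ _))).trans
          (Nat.prod_primeFactors_dvd _)
      have e3 : ∏ p ∈ S', p ≤ w.natAbs :=
        Nat.le_of_dvd (Nat.pos_of_ne_zero (Int.natAbs_ne_zero.2 hw)) e2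
      have e4 : (X + 1) ^ S'.card < (X + 1) ^ N := (e1.trans e3).trans_lt hN
      exact ((Nat.pow_lt_pow_iff_right (by omega)).1 e4).le
    calc ∏ p ∈ S', (1 + 2 * (h.natDegree : ℝ) / p) ≤ ∏ p ∈ S', (2 : ℝ) := by
          refine prod_le_prod (fun p _ => by positivity) fun p hp => ?_
          have hpz : z < p := (mem_filter.1 (mem_filter.1 hp).1).2
          have h2 : (2 * h.natDegree + 3 : ℝ) ≤ p := by
            have := hz.big
            exact_mod_cast (by omega : 2 * h.natDegree + 3 ≤ p)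
          have h4 : 2 * (h.natDegree : ℝ) / p ≤ 1 := by
            rw [div_le_one (by linarith)]
            linarith
          linarith
      _ = 2 ^ S'.card := by rw [prod_const]
      _ ≤ 2 ^ N := pow_le_pow_right₀ (by norm_num) hcard
  have h4 : ∏ p ∈ S.filter (fun p => p ≤ X), (1 + 2 * (h.natDegree : ℝ) / p) ≤
      ∏ p ∈ (PS z X).filter (fun p : ℕ => (p : ℤ) ∣ w), (1 + 2 * (h.natDegree : ℝ) / p) :=
    prod_sub h2 fun p _ => by
      have : 0 ≤ 2 * (h.natDegree : ℝ) / p := by positivity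
      linarith
  exact mul_le_mul h3 h4 (prod_nonneg fun p _ => by positivity) (by positivity)

/-- the average of the factor -/
theorem sum_sg (hz : Gd h z) (M : ℕ) : ∃ C : ℝ, 0 ≤ C ∧ ∀ (y : ℤ) (X : ℕ), 3 ≤ X →
    y.natAbs ≤ X ^ M → ∑ w ∈ (Ioc y (y + X)).filter (fun w => w ≠ 0), sg h z w ≤ C * X := by
  classical
  obtain ⟨K, hK, hsq⟩ := sum_inv_sq
  obtain ⟨C0, hC0⟩ := Pool.Agent.Helper256.KM.mertens_inv
  set d : ℝ := (h.natDegree : ℝ) with hd
  have hd0 : 0 ≤ d := Nat.cast_nonneg _
  set κ : ℕ → ℝ := fun p => 2 * d / p with hκ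
  have hκ0 : ∀ p, 0 ≤ κ p := fun p => by simp only [hκ]; positivity
  obtain ⟨c, hc0, hc⟩ := log_pow_lin (2 * h.natDegree)
  refine ⟨2 ^ (M + 2) * (Real.exp (2 * d * K) + Real.exp (2 * d * |C0|) * c), by positivity,
    fun y X hX hy => ?_⟩
  have hX1 : 1 ≤ X := by omega
  have hXr : (3 : ℝ) ≤ X := by exact_mod_cast hX
  have hN : ∀ w ∈ Ioc y (y + X), w.natAbs < (X + 1) ^ (M + 2) := by
    intro w hw
    rw [mem_Ioc] at hw
    have h1 : w.natAbs ≤ X ^ M + X := by omega
    have h2 : X ^ M + X < (X + 1) ^ (M + 2) := by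
      have e1 : X ^ M ≤ (X + 1) ^ M := Nat.pow_le_pow_left (by omega) M
      have e2 : 1 ≤ (X + 1) ^ M := Nat.one_le_pow _ _ (by omega)
      calc X ^ M + X ≤ (X + 1) ^ M * 1 + 1 * X := by omega
        _ ≤ (X + 1) ^ M * 1 + (X + 1) ^ M * X := Nat.add_le_add_left (Nat.mul_le_mul_right _ e2) _
        _ = (X + 1) ^ M * (X + 1) := by ring
        _ < (X + 1) ^ M * (X + 1) ^ 2 := by
            apply Nat.mul_lt_mul_of_pos_left _ (by omega)
            nlinarith
        _ = _ := by rw [← pow_add]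
    omega
  have hgm : ∀ e ∈ (PP z X).divisors, 0 ≤ gm κ e := fun e _ => prod_nonneg fun p _ => hκ0 p
  calc ∑ w ∈ (Ioc y (y + X)).filter (fun w => w ≠ 0), sg h z w
      ≤ ∑ w ∈ (Ioc y (y + X)).filter (fun w => w ≠ 0), 2 ^ (M + 2) *
          ∑ e ∈ (PP z X).divisors, (if (e : ℤ) ∣ w then gm κ e else 0) := by
        refine sum_le_sum fun w hw => ?_
        rw [mem_filter] at hw
        rw [← small_expand hw.2 X κ]
        exact sg_le hz hw.2 hX1 (hN w hw.1)
    _ ≤ ∑ w ∈ Ioc y (y + X), 2 ^ (M + 2) *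
          ∑ e ∈ (PP z X).divisors, (if (e : ℤ) ∣ w then gm κ e else 0) := by
        refine sum_le_sum_of_subset_of_nonneg (filter_subset _ _) fun w _ _ => ?_
        refine mul_nonneg (by positivity) (sum_nonneg fun e he => ?_)
        split_ifs
        · exact hgm e he
        · exact le_rfl
    _ = 2 ^ (M + 2) * ∑ e ∈ (PP z X).divisors, gm κ e *
          (((Ioc y (y + X)).filter (fun w : ℤ => (e : ℤ) ∣ w)).card : ℝ) := by
        rw [← mul_sum, sum_comm]
        congr 1
        refine sum_congr rfl fun e _ => ?_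
        rw [← sum_filter, sum_const, nsmul_eq_mul, mul_comm]
    _ ≤ 2 ^ (M + 2) * ∑ e ∈ (PP z X).divisors, gm κ e * (X / e + 1) := by
        refine mul_le_mul_of_nonneg_left (sum_le_sum fun e he => ?_) (by positivity)
        exact mul_le_mul_of_nonneg_left (card_mult y X e (Nat.pos_of_mem_divisors he)) (hgm e he)
    _ = 2 ^ (M + 2) * (X * ∑ e ∈ (PP z X).divisors, gm (fun p => κ p * (1 / p)) e +
          ∑ e ∈ (PP z X).divisors, gm κ e) := by
        congr 1
        rw [mul_sum, ← sum_add_distrib]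
        refine sum_congr rfl fun e he => ?_
        have h1 : gm (fun p => κ p * (1 / p)) e = gm κ e * (1 / e) := by
          rw [CN.gm_mul]
          congr 1
          unfold gm
          rw [prod_div_distrib, prod_const_one, ← Nat.cast_prod,
            Nat.prod_primeFactors_of_squarefree (dv_squarefree he)]
        rw [h1]
        ring
    _ ≤ 2 ^ (M + 2) * (X * Real.exp (2 * d * K) + Real.exp (2 * d * |C0|) * (c * X)) := by
        refine mul_le_mul_of_nonneg_left (add_le_add (mul_le_mul_of_nonneg_left ?_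
          (by positivity)) ?_) (by positivity)
        · unfold gm
          rw [sum_dv z X (fun p => κ p * (1 / p))]
          calc ∏ p ∈ PS z X, (1 + κ p * (1 / p)) ≤ Real.exp (∑ p ∈ PS z X, κ p * (1 / p)) := by
                rw [Real.exp_sum]
                refine prod_le_prod (fun p _ => ?_) fun p _ => ?_
                · have := mul_nonneg (hκ0 p) (by positivity : (0 : ℝ) ≤ 1 / p)
                  linarith
                · linarith [Real.add_one_le_exp (κ p * (1 / p))]
            _ ≤ Real.exp (2 * d * K) := by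
                apply Real.exp_le_exp.2
                calc ∑ p ∈ PS z X, κ p * (1 / p) = 2 * d * ∑ p ∈ PS z X, 1 / (p : ℝ) ^ 2 := by
                      rw [mul_sum]
                      refine sum_congr rfl fun p _ => ?_
                      simp only [hκ]
                      ring
                  _ ≤ _ := mul_le_mul_of_nonneg_left (hsq _) (by positivity)
        · unfold gm
          rw [sum_dv z X κ]
          have hl : 0 < Real.log X := Real.log_pos (by linarith)
          calc ∏ p ∈ PS z X, (1 + κ p) ≤ Real.exp (∑ p ∈ PS z X, κ p) := by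
                rw [Real.exp_sum]
                refine prod_le_prod (fun p _ => ?_) fun p _ => ?_
                · have := hκ0 p
                  linarith
                · linarith [Real.add_one_le_exp (κ p)]
            _ ≤ Real.exp (2 * d * |C0| + (2 * h.natDegree : ℕ) * Real.log (Real.log X)) := by
                apply Real.exp_le_exp.2
                have e1 : ∑ p ∈ PS z X, κ p = 2 * d * ∑ p ∈ PS z X, 1 / (p : ℝ) := by
                  rw [mul_sum]
                  refine sum_congr rfl fun p _ => ?_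
                  simp only [hκ]
                  ring
                have e2 : ∑ p ∈ PS z X, 1 / (p : ℝ) ≤
                    ∑ p ∈ (Icc 1 X).filter Nat.Prime, (1 : ℝ) / p := by
                  refine sum_le_sum_of_subset_of_nonneg ?_ fun _ _ _ => by positivity
                  intro p hp
                  exact mem_filter.2 ⟨mem_Icc.2 ⟨(PS_prime hp).one_lt.le, PS_le hp⟩,
                    PS_prime hp⟩
                have e3 := (abs_le.1 (hC0 X hX)).2
                have e4 := le_abs_self C0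
                rw [e1]
                push_cast
                calc 2 * d * ∑ p ∈ PS z X, 1 / (p : ℝ) ≤
                      2 * d * (Real.log (Real.log X) + |C0|) :=
                      mul_le_mul_of_nonneg_left (by linarith) (by positivity)
                  _ = _ := by ring
            _ = Real.exp (2 * d * |C0|) * (Real.log X) ^ (2 * h.natDegree) := by
                rw [Real.exp_add, Real.exp_nat_mul, Real.exp_log hl]
            _ ≤ _ := mul_le_mul_of_nonneg_left (hc X hX1) (Real.exp_pos _).le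
    _ = _ := by ring

end MA

end Run7.h69
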