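import Mathlib
import Pool.Agent.Run7.h69.MA4
import Pool.Agent.Run7.h69.MA5

/-!
# Moments over the values of a binary form in boxes
-/

set_option autoImplicit false
set_option linter.unusedSectionVars false

namespace Run7.h69

open Finset Polynomial
open Pool.Agent.W262.RK hiding lk ff s1 s2
open Pool.Agent.W655.RK (PS_prime PS_lt PS_le)

namespace MA

open EX (Bk)
open JA (NJ BJ BJ_nonneg Hm kp kp_ne kp_Hm NJ_pow subB IJ kq vc cr)

variable {h : ℤ[X]} {z K : ℕ} {kc : Fin K → Bk K → ℤ}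

lemma mem_SW {w x t : ℤ} {X : ℕ} : t ∈ SW h w x X ↔
    t ∈ Ioc x (x + X) ∧ IsCoprime t w ∧ (h.scaleRoots w).eval t ≠ 0 := by
  classical
  unfold SW
  rw [mem_filter]

lemma card_SW (w x : ℤ) (X : ℕ) : ((SW h w x X).card : ℝ) ≤ X := by
  have h1 : (SW h w x X).card ≤ (Ioc x (x + X)).card :=
    card_le_card fun t ht => (mem_SW.1 ht).1
  rw [Int.card_Ioc] at h1
  have h2 : (SW h w x X).card ≤ X := by omega
  exact_mod_cast h2

/-- the moments over boxes -/
theorem box (hK : 1 ≤ K) (hm : Hm kc) (hc0 : ∀ l v, kc l v ≠ 0)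
    (hsq : Squarefree h) (h0 : h ≠ 0) (hd : 0 < h.natDegree) (z00 k M : ℕ) :
    ∃ z : ℕ, z00 ≤ z ∧ ∀ (A B0 : ℝ) (R : ℤ → ℤ → ℝ), 0 ≤ A → 2 ^ K ≤ B0 →
      (∀ w t, 1 ≤ R w t ∨ R w t = 0) → Bd2 kc h z A B0 R →
    ∃ C : ℝ, ∀ (x y : ℤ) (X : ℕ), 1 ≤ X → x.natAbs ≤ X ^ M → y.natAbs ≤ X ^ M →
      ∑ w ∈ Ioc y (y + X), ∑ t ∈ SW h w x X, R w t ^ k ≤ C * (X : ℝ) ^ 2 := by
  classical
  obtain ⟨hsep, g, z0, hg1, hg2, hM, hU⟩ := UT.sqf h hsq h0
  obtain ⟨z1, hz1⟩ := UT.good h h0 hsep
  set m : ℕ := k + 2 * h.natDegree with hmdef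
  have hmK : m ≤ m * K := Nat.le_mul_of_pos_right _ hK
  have hm4 : 2 * h.natDegree ≤ 2 ^ (m * K) := by
    calc 2 * h.natDegree ≤ m * K := by omega
      _ ≤ 2 ^ (m * K) := (Nat.lt_pow_self (by norm_num)).le
  set z : ℕ := z0 + z1 + z00 + h.leadingCoeff.natAbs +
    ∑ i : IJ (m * K), (kq (kp m kc) (vc i) (cr i)).natAbs +
    ∑ l : Fin K, ∑ v : Bk K, (kc l v).natAbs with hz
  have hkcz : ∀ l v, (kc l v).natAbs ≤ z := fun l v => by
    have h1 := single_le_sum (f := fun l : Fin K => ∑ v : Bk K, (kc l v).natAbs)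
      (fun _ _ => Nat.zero_le _) (mem_univ l)
    have h2 := single_le_sum (f := fun v : Bk K => (kc l v).natAbs)
      (fun _ _ => Nat.zero_le _) (mem_univ v)
    omega
  refine ⟨z, by omega, fun A B0 R hA hB0 hR1 hR => ?_⟩
  have hR0 : ∀ w t, 0 ≤ R w t := fun w t => by rcases hR1 w t with h1 | h1 <;> linarith
  have hz' := hz1 z (by omega)
  obtain ⟨C1, hC1⟩ := JA.avg_bound
        (Pool.Agent.W655.RK.blw_of (_root_.W37.RK.bl_of Pool.Agent.W505.RK.ls))
        hz' (hg1 hd) hM (hU z (by omega))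
        (fun l v => kp_ne (m := m) hc0 l v) (fun l v => hkcz _ _)
        (fun i => by
          have h1 := single_le_sum (f := fun i : IJ (m * K) =>
            (kq (kp m kc) (vc i) (cr i)).natAbs) (fun _ _ => Nat.zero_le _) (mem_univ i)
          omega) hm4 (by omega)
  obtain ⟨X0, B, hB⟩ := moments (h := h) (z := z) (g := g) (m := m) (M + 2)
    hA hB0 hR0 hR hz' (leadingCoeff_ne_zero.2 h0) (by omega) hM hm hc0 hkcz hC1
  obtain ⟨C2, hC20, hC2⟩ := sum_sg hz' M
  have hA1 : ∀ w t, R w t ^ k ≤ 1 + R w t ^ m := by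
    intro w t
    rcases hR1 w t with h1 | h1
    · have := pow_le_pow_right₀ h1 (show k ≤ m by omega)
      linarith
    · rw [h1]
      have h2 : (0 : ℝ) ^ k ≤ 1 := by
        rcases Nat.eq_zero_or_pos k with h3 | h3
        · rw [h3]; simp
        · rw [zero_pow (by omega)]; norm_num
      have h3 : (0 : ℝ) ≤ 0 ^ m := by positivity
      linarith
  have hnn : ∀ w t : ℤ, 0 ≤ R w t ^ k := fun w t => pow_nonneg (hR0 w t) k
  set X1 : ℕ := X0 + 3 with hX1
  set N : ℤ := (X1 : ℤ) ^ M + X1 with hN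
  set S : ℝ := ∑ w ∈ Icc (-N) N, ∑ t ∈ Icc (-N) N, R w t ^ k with hS
  have hS0 : 0 ≤ S := sum_nonneg fun w _ => sum_nonneg fun t _ => hnn w t
  set C00 : ℝ := R 0 1 ^ k + R 0 (-1) ^ k with hC00
  have hC000 : 0 ≤ C00 := add_nonneg (hnn _ _) (hnn _ _)
  refine ⟨S + (1 + |B| * C2) + C00, fun x y X hX hx hy => ?_⟩
  have hXr : (1 : ℝ) ≤ X := by exact_mod_cast hX
  have hX2 : (1 : ℝ) ≤ (X : ℝ) ^ 2 := one_le_pow₀ hXr
  have hBC : 0 ≤ 1 + |B| * C2 := by positivity
  rcases Nat.lt_or_ge X X1 with hXX | hXX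
  · have h1 : ∑ w ∈ Ioc y (y + X), ∑ t ∈ SW h w x X, R w t ^ k ≤ S := by
      have h2 : ∀ a : ℤ, a.natAbs ≤ X ^ M → Ioc a (a + X) ⊆ Icc (-N) N := by
        intro a ha t ht
        rw [mem_Ioc] at ht
        rw [mem_Icc]
        have h2 : (a.natAbs : ℤ) ≤ (X1 : ℤ) ^ M := by
          exact_mod_cast ha.trans (Nat.pow_le_pow_left hXX.le M)
        have h3 : (X : ℤ) ≤ X1 := by exact_mod_cast hXX.le
        omega
      calc ∑ w ∈ Ioc y (y + X), ∑ t ∈ SW h w x X, R w t ^ k
          ≤ ∑ w ∈ Ioc y (y + X), ∑ t ∈ Icc (-N) N, R w t ^ k :=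
            sum_le_sum fun w _ => sum_le_sum_of_subset_of_nonneg
              (fun t ht => h2 x hx (mem_SW.1 ht).1) fun t _ _ => hnn w t
        _ ≤ _ := sum_le_sum_of_subset_of_nonneg (h2 y hy) fun w _ _ =>
            sum_nonneg fun t _ => hnn w t
    nlinarith
  · have hw0 : ∑ t ∈ SW h 0 x X, R 0 t ^ k ≤ C00 := by
      have hsub : SW h 0 x X ⊆ {1, -1} := by
        intro t ht
        have h1 := (mem_SW.1 ht).2.1
        rw [isCoprime_zero_right, Int.isUnit_iff] at h1
        rw [mem_insert, mem_singleton]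
        exact h1
      calc ∑ t ∈ SW h 0 x X, R 0 t ^ k ≤ ∑ t ∈ ({1, -1} : Finset ℤ), R 0 t ^ k :=
            sum_le_sum_of_subset_of_nonneg hsub fun t _ _ => hnn 0 t
        _ = C00 := by
            rw [sum_pair (by norm_num)]
    have hsplit : ∑ w ∈ Ioc y (y + X), ∑ t ∈ SW h w x X, R w t ^ k ≤
        ∑ w ∈ (Ioc y (y + X)).filter (fun w => w ≠ 0), ∑ t ∈ SW h w x X, R w t ^ k + C00 := by
      rw [← sum_filter_add_sum_filter_not (Ioc y (y + X)) (fun w => w ≠ 0)]
      refine add_le_add le_rfl ?_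
      calc ∑ w ∈ (Ioc y (y + X)).filter (fun w => ¬ w ≠ 0), ∑ t ∈ SW h w x X, R w t ^ k
          ≤ ∑ w ∈ ({0} : Finset ℤ), ∑ t ∈ SW h w x X, R w t ^ k := by
            refine sum_le_sum_of_subset_of_nonneg (fun w hw => ?_)
              fun w _ _ => sum_nonneg fun t _ => hnn w t
            rw [mem_singleton]
            exact not_not.1 (mem_filter.1 hw).2
        _ = ∑ t ∈ SW h 0 x X, R 0 t ^ k := sum_singleton _ _
        _ ≤ C00 := hw0
    have hpow : ∀ n : ℕ, X ^ n ≤ X ^ (n + 2) := fun n =>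
      Nat.pow_le_pow_right (by omega) (by omega)
    have hmain : ∑ w ∈ (Ioc y (y + X)).filter (fun w => w ≠ 0),
        ∑ t ∈ SW h w x X, R w t ^ k ≤ (1 + |B| * C2) * (X : ℝ) ^ 2 := by
      calc ∑ w ∈ (Ioc y (y + X)).filter (fun w => w ≠ 0), ∑ t ∈ SW h w x X, R w t ^ k
          ≤ ∑ w ∈ (Ioc y (y + X)).filter (fun w => w ≠ 0), (X + |B| * X * sg h z w) := by
            refine sum_le_sum fun w hw => ?_
            rw [mem_filter, mem_Ioc] at hw
            have hwX : w.natAbs ≤ X ^ (M + 2) := by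
              have e1 : w.natAbs ≤ X ^ M + X := by omega
              have e2 : X ^ M + X ≤ X ^ (M + 2) := by
                have e3 : 1 ≤ X ^ M := Nat.one_le_pow _ _ (by omega)
                calc X ^ M + X ≤ X ^ M * 1 + X ^ M * X := by nlinarith
                  _ = X ^ M * (1 + X) := by ring
                  _ ≤ X ^ M * X ^ 2 := Nat.mul_le_mul_left _ (by nlinarith)
                  _ = _ := by rw [← pow_add]
              omega
            have h1 := hB w x X hw.2 (hx.trans (hpow M)) hwX (by omega)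
            have hs0 : 0 ≤ X * sg h z w :=
              mul_nonneg (Nat.cast_nonneg _) (by linarith [one_le_sg hz' w])
            calc ∑ t ∈ SW h w x X, R w t ^ k ≤ ∑ t ∈ SW h w x X, (1 + R w t ^ m) :=
                  sum_le_sum fun t _ => hA1 w t
              _ = (SW h w x X).card + ∑ t ∈ SW h w x X, R w t ^ m := by
                  rw [sum_add_distrib]
                  simp
              _ ≤ X + B * X * sg h z w := add_le_add (card_SW w x X) h1
              _ ≤ X + |B| * X * sg h z w := by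
                  have e1 : B * X * sg h z w = B * (X * sg h z w) := by ring
                  have e2 : |B| * X * sg h z w = |B| * (X * sg h z w) := by ring
                  rw [e1, e2]
                  exact add_le_add le_rfl (mul_le_mul_of_nonneg_right (le_abs_self B) hs0)
        _ = ((Ioc y (y + X)).filter (fun w => w ≠ 0)).card * X +
              |B| * X * ∑ w ∈ (Ioc y (y + X)).filter (fun w => w ≠ 0), sg h z w := by
            rw [sum_add_distrib, sum_const, nsmul_eq_mul, mul_sum]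
        _ ≤ X * X + |B| * X * (C2 * X) := by
            refine add_le_add ?_ (mul_le_mul_of_nonneg_left (hC2 y X (by omega) hy)
              (by positivity))
            refine mul_le_mul_of_nonneg_right ?_ (by positivity)
            have h3 : ((Ioc y (y + X)).filter (fun w => w ≠ 0)).card ≤ X := by
              refine (card_filter_le _ _).trans ?_
              rw [Int.card_Ioc]
              simp
            exact_mod_cast h3
        _ = (1 + |B| * C2) * (X : ℝ) ^ 2 := by ring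
    refine (hsplit.trans (add_le_add hmain le_rfl)).trans ?_
    nlinarith

end MA

end Run7.h69
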