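import Mathlib
import Pool.Agent.Run7.h69.MA6
import Pool.Agent.Run7.h69.JB9

/-!
# The Jacobians of the twists by the values of a binary form
-/

set_option autoImplicit false
set_option linter.unusedSectionVars false

namespace Run7.h69

open Finset Polynomial
open Pool.Agent.W262.RK hiding lk ff s1 s2

namespace MA

open JB

variable {K : ℕ} {a : Fin (K + 1) → ℤ} (ha : Function.Injective a) (hn : Odd (K + 1))

include ha hn in
/-- uniform bound for the square class of a constant -/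
lemma const2 (c : ℤ) : ∃ B : ℝ, ∀ d m : ℤ, d = m ^ 2 * c → Rq a d ≤ B := by
  classical
  by_cases hc0 : c = 0
  · refine ⟨0, fun d m h => ?_⟩
    unfold Rq
    rw [if_pos]
    rw [h, hc0, mul_zero]
  set Pr : ℤ := 2 * c * ∏ i : Fin (K + 1), ∏ k ∈ univ.erase i, (a i - a k) with hPr
  have hPr0 : Pr ≠ 0 := mul_ne_zero (mul_ne_zero two_ne_zero hc0)
    (prod_ne_zero_iff.2 fun i _ => prod_ne_zero_iff.2 fun k hk => sub_ne ha (ne_of_mem_erase hk))
  refine ⟨(2 ^ K) ^ (Pr.natAbs.primeFactors.card + 1) * JA.NJ (kc a) 1 ∅, fun d m hval => ?_⟩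
  unfold Rq
  split_ifs with hft
  · positivity
  have hb := (one_bound ha hn hft hval 1 squarefree_one Pr.natAbs.primeFactors ∅
    (fun p hp hps => absurd (Nat.dvd_one.1 hps) hp.ne_one)
    (fun q hq hqs hqO => by
      have hq2 : ¬ (q : ℤ) ∣ Pr := by
        intro h
        apply hqO
        rw [Nat.mem_primeFactors]
        exact ⟨hq, Int.natCast_dvd.1 h, Int.natAbs_ne_zero.2 hPr0⟩
      refine ⟨?_, fun h => hq2 ?_, fun i k hik h => hq2 ?_⟩
      · rintro rfl
        apply hq2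
        rw [hPr, mul_assoc]
        exact Dvd.intro _ rfl
      · rw [hPr]
        exact (h.mul_left 2).mul_right _
      · rw [hPr]
        refine Dvd.dvd.mul_left ?_ _
        refine (h.trans ?_).trans (dvd_prod_of_mem _ (mem_univ i))
        exact dvd_prod_of_mem (fun k => a i - a k) (mem_erase.2 ⟨hik.symm, mem_univ k⟩))
    (fun p hp hps => absurd (Nat.dvd_one.1 hps) hp.ne_one)).2
  exact_mod_cast hb

include ha hn in
/-- the moments for the form with the dehomogenization `f` -/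
theorem jac (hK : 1 ≤ K) (f : ℤ[X]) (hf : f ≠ 0) (k M : ℕ) :
    ∃ C : ℝ, ∀ (x y : ℤ) (X : ℕ), 1 ≤ X → x.natAbs ≤ X ^ M → y.natAbs ≤ X ^ M →
      ∑ w ∈ Ioc y (y + X), ∑ t ∈ SW f w x X, (nW a ((f.scaleRoots w).eval t) : ℝ) ^ k ≤
        C * (X : ℝ) ^ 2 := by
  classical
  obtain ⟨g, h, hfg, hsq, h0, hg0⟩ := UT.sq_mul f hf
  have hsc : ∀ w : ℤ, f.scaleRoots w = (g.scaleRoots w) ^ 2 * h.scaleRoots w := by
    intro w
    rw [hfg, mul_scaleRoots_of_noZeroDivisors, pow_two, mul_scaleRoots_of_noZeroDivisors, pow_two]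
  have hval : ∀ w t : ℤ, (f.scaleRoots w).eval t =
      ((g.scaleRoots w).eval t) ^ 2 * (h.scaleRoots w).eval t := by
    intro w t
    rw [hsc, eval_mul, eval_pow]
  have hR0 : ∀ d, 0 ≤ Rq a d := fun d => by
    rcases Rq_or ha hn d with h1 | h1 <;> linarith
  have hle : ∀ (w x : ℤ) (X : ℕ), ∑ t ∈ SW f w x X, (nW a ((f.scaleRoots w).eval t) : ℝ) ^ k ≤
      ∑ t ∈ SW h w x X, Rq a ((f.scaleRoots w).eval t) ^ k := by
    intro w x X
    have e1 : ∀ t ∈ SW f w x X, (nW a ((f.scaleRoots w).eval t) : ℝ) ^ k =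
        Rq a ((f.scaleRoots w).eval t) ^ k := by
      intro t ht
      unfold Rq
      rw [if_neg (mem_SW.1 ht).2.2]
    rw [sum_congr rfl e1]
    refine sum_le_sum_of_subset_of_nonneg ?_ fun t _ _ => pow_nonneg (hR0 _) k
    intro t ht
    have h1 := mem_SW.1 ht
    refine mem_SW.2 ⟨h1.1, h1.2.1, fun h2 => h1.2.2 ?_⟩
    rw [hval, h2, mul_zero]
  rcases Nat.eq_zero_or_pos h.natDegree with hd | hd
  · obtain ⟨c, hc⟩ := natDegree_eq_zero.1 hd
    obtain ⟨B, hB⟩ := const2 ha hn c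
    refine ⟨|B| ^ k, fun x y X _ _ _ => ?_⟩
    have hb : ∀ w t : ℤ, Rq a ((f.scaleRoots w).eval t) ≤ |B| := by
      intro w t
      refine (hB _ ((g.scaleRoots w).eval t) ?_).trans (le_abs_self B)
      rw [hval, ← hc]
      congr 1
      rw [scaleRoots_C, eval_C]
    calc ∑ w ∈ Ioc y (y + X), ∑ t ∈ SW f w x X, (nW a ((f.scaleRoots w).eval t) : ℝ) ^ k
        ≤ ∑ w ∈ Ioc y (y + X), ∑ t ∈ SW h w x X, |B| ^ k :=
          sum_le_sum fun w _ => (hle w x X).trans (sum_le_sum fun t _ =>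
            pow_le_pow_left₀ (hR0 _) (hb w t) k)
      _ ≤ ∑ w ∈ Ioc y (y + X), X * |B| ^ k := by
          refine sum_le_sum fun w _ => ?_
          rw [sum_const, nsmul_eq_mul]
          exact mul_le_mul_of_nonneg_right (card_SW w x X) (by positivity)
      _ = |B| ^ k * (X : ℝ) ^ 2 := by
          rw [sum_const, Int.card_Ioc, nsmul_eq_mul]
          have : (y + X - y).toNat = X := by simp
          rw [this]
          ring
  · set z0 : ℕ := 2 + ∑ i : Fin (K + 1), ∑ k : Fin (K + 1), (a i - a k).natAbs with hz0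
    obtain ⟨z, hz, hmain⟩ := box (kc := kc a) hK (kc_Hm a) (kc_ne ha) hsq h0 hd z0 k M
    obtain ⟨C, hC⟩ := hmain ((2 ^ K) ^ (z + 1)) (2 ^ K)
      (fun w t => Rq a ((f.scaleRoots w).eval t)) (by positivity)
      le_rfl (fun w t => Rq_or ha hn _) (fun w => bdd ha hn (hsc w) (by omega) (fun i k => by
        have h1 := single_le_sum (f := fun i : Fin (K + 1) => ∑ k : Fin (K + 1),
          (a i - a k).natAbs) (fun _ _ => Nat.zero_le _) (mem_univ i)
        have h2 := single_le_sum (f := fun k : Fin (K + 1) => (a i - a k).natAbs)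
          (fun _ _ => Nat.zero_le _) (mem_univ k)
        omega))
    exact ⟨C, fun x y X hX hx hy => (sum_le_sum fun w _ => hle w x X).trans (hC x y X hX hx hy)⟩

end MA

end Run7.h69
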