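import Mathlib
import Pool.Agent.Run7.h69.MA7

/-!
# Arbitrary binary forms
-/

set_option autoImplicit false
set_option linter.unusedSectionVars false

namespace Run7.h69

open Finset Polynomial
open Pool.Agent.W262.RK hiding lk ff s1 s2

namespace MA

/-- the binary form with the coefficients `c` -/
def form {d : ℕ} (c : Fin (d + 1) → ℤ) (u v : ℤ) : ℤ :=
  ∑ i : Fin (d + 1), c i * u ^ (i : ℕ) * v ^ (d - (i : ℕ))

variable {d : ℕ} {c : Fin (d + 1) → ℤ}

/-- a value that does not vanish -/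
lemma exists_shear (hc : c ≠ 0) : ∃ κ : ℕ, form c 1 (-(κ : ℤ)) ≠ 0 := by
  classical
  by_contra hcon
  push Not at hcon
  set p : ℤ[X] := ∑ i : Fin (d + 1), C (c i) * X ^ (d - (i : ℕ)) with hp
  have hroot : ∀ κ : ℕ, p.IsRoot (-(κ : ℤ)) := by
    intro κ
    rw [IsRoot.def, hp, eval_finset_sum]
    have h1 := hcon κ
    unfold form at h1
    rw [← h1]
    refine sum_congr rfl fun i _ => ?_
    rw [eval_mul, eval_C, eval_pow, eval_X, one_pow, mul_one]
  have hp0 : p = 0 := by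
    apply eq_zero_of_infinite_isRoot
    refine Set.Infinite.mono (s := Set.range (fun κ : ℕ => -(κ : ℤ))) ?_ ?_
    · rintro _ ⟨κ, rfl⟩
      exact hroot κ
    · apply Set.infinite_range_of_injective
      intro a b hab
      simpa using hab
  apply hc
  funext i
  have h1 : p.coeff (d - (i : ℕ)) = c i := by
    rw [hp, finset_sum_coeff, sum_eq_single i]
    · rw [coeff_C_mul, coeff_X_pow_self, mul_one]
    · intro j _ hj
      rw [coeff_C_mul, coeff_X_pow, if_neg, mul_zero]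
      intro h
      apply hj
      have hi := i.2
      have hj2 := j.2
      apply Fin.ext
      omega
    · intro h
      exact absurd (mem_univ i) h
  rw [hp0, coeff_zero] at h1
  exact h1.symm

/-- the sheared polynomial -/
noncomputable def shear (c : Fin (d + 1) → ℤ) (κ : ℤ) : ℤ[X] :=
  ∑ i : Fin (d + 1), C (c i) * X ^ (i : ℕ) * (1 - C κ * X) ^ (d - (i : ℕ))

lemma natDegree_lin (κ : ℤ) : (1 - C κ * X : ℤ[X]).natDegree ≤ 1 := by
  compute_degree

lemma coeff_lin_pow (κ : ℤ) (n : ℕ) : ((1 - C κ * X : ℤ[X]) ^ n).coeff n = (-κ) ^ n := by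
  have h := coeff_pow_of_natDegree_le (p := (1 - C κ * X : ℤ[X])) (m := n) (n := 1)
    (natDegree_lin κ)
  rw [mul_one] at h
  rw [h]
  congr 1
  rw [coeff_sub, coeff_C_mul, coeff_X_one, mul_one, coeff_one]
  simp

lemma shear_coeff (c : Fin (d + 1) → ℤ) (κ : ℤ) : (shear c κ).coeff d = form c 1 (-κ) := by
  unfold shear form
  rw [finset_sum_coeff]
  refine sum_congr rfl fun i _ => ?_
  have hi := i.2
  rw [mul_assoc, coeff_C_mul, coeff_X_pow_mul', if_pos (by omega), coeff_lin_pow, one_pow, mul_one]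

lemma shear_natDegree_le (c : Fin (d + 1) → ℤ) (κ : ℤ) : (shear c κ).natDegree ≤ d := by
  unfold shear
  refine natDegree_sum_le_of_forall_le _ _ fun i _ => ?_
  have hi := i.2
  have h1 : ((1 - C κ * X : ℤ[X]) ^ (d - (i : ℕ))).natDegree ≤ d - (i : ℕ) := by
    have := natDegree_pow_le_of_le (d - (i : ℕ)) (natDegree_lin κ)
    rwa [mul_one] at this
  calc (C (c i) * X ^ (i : ℕ) * (1 - C κ * X) ^ (d - (i : ℕ)) : ℤ[X]).natDegree
      ≤ (C (c i) * X ^ (i : ℕ) : ℤ[X]).natDegree +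
        ((1 - C κ * X : ℤ[X]) ^ (d - (i : ℕ))).natDegree := natDegree_mul_le
    _ ≤ (i : ℕ) + (d - (i : ℕ)) := add_le_add (natDegree_C_mul_X_pow_le _ _) h1
    _ = d := by omega

lemma shear_natDegree {κ : ℤ} (h : form c 1 (-κ) ≠ 0) : (shear c κ).natDegree = d := by
  refine le_antisymm (shear_natDegree_le c κ) ?_
  apply le_natDegree_of_ne_zero
  rw [shear_coeff]
  exact h

/-- the values of the sheared form -/
lemma shear_eval {κ : ℤ} (h : form c 1 (-κ) ≠ 0) (w u : ℤ) :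
    ((shear c κ).scaleRoots w).eval u = form c u (w - κ * u) := by
  have hd := shear_natDegree h
  rcases eq_or_ne w 0 with hw | hw
  · subst hw
    have h1 := scale_mod (shear c κ) 0 u
    rw [zero_dvd_iff, sub_eq_zero] at h1
    rw [h1, hd]
    have h2 : (shear c κ).leadingCoeff = form c 1 (-κ) := by
      unfold leadingCoeff
      rw [hd, shear_coeff]
    rw [h2]
    unfold form
    rw [sum_mul]
    refine sum_congr rfl fun i _ => ?_
    have hi := i.2
    have e : u ^ d = u ^ (i : ℕ) * u ^ (d - (i : ℕ)) := by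
      rw [← pow_add]
      congr 1
      omega
    rw [e, one_pow, mul_one, zero_sub, ← neg_mul, mul_pow]
    ring
  · have hw' : (w : ℚ) ≠ 0 := by exact_mod_cast hw
    have h1 := scaleRoots_eval₂_mul (p := shear c κ) (Int.castRingHom ℚ) ((u : ℚ) / w) w
    have h2 : (Int.castRingHom ℚ) w * ((u : ℚ) / w) = (Int.castRingHom ℚ) u := by
      show (w : ℚ) * ((u : ℚ) / w) = (u : ℚ)
      field_simp
    rw [h2, eval₂_at_apply, hd] at h1
    have h3 : (((((shear c κ).scaleRoots w).eval u : ℤ)) : ℚ) = ((form c u (w - κ * u) : ℤ) : ℚ) := by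
      refine Eq.trans h1 ?_
      show (w : ℚ) ^ d * _ = _
      unfold shear form
      rw [eval₂_finset_sum, mul_sum]
      push_cast
      refine sum_congr rfl fun i _ => ?_
      have hi := i.2
      rw [eval₂_mul, eval₂_mul, eval₂_C, eval₂_pow, eval₂_X, eval₂_pow, eval₂_sub, eval₂_one,
        eval₂_mul, eval₂_C, eval₂_X]
      show (w : ℚ) ^ d * ((c i : ℚ) * ((u : ℚ) / w) ^ (i : ℕ) *
        (1 - (κ : ℚ) * ((u : ℚ) / w)) ^ (d - (i : ℕ))) = _
      have e : (w : ℚ) ^ d = (w : ℚ) ^ (i : ℕ) * (w : ℚ) ^ (d - (i : ℕ)) := by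
        rw [← pow_add]
        congr 1
        omega
      have e1 : (w : ℚ) ^ (i : ℕ) * ((u : ℚ) / w) ^ (i : ℕ) = (u : ℚ) ^ (i : ℕ) := by
        have e0 : (w : ℚ) * ((u : ℚ) / w) = (u : ℚ) := by field_simp
        rw [← mul_pow, e0]
      have e2 : (w : ℚ) ^ (d - (i : ℕ)) * (1 - (κ : ℚ) * ((u : ℚ) / w)) ^ (d - (i : ℕ)) =
          ((w : ℚ) - κ * u) ^ (d - (i : ℕ)) := by
        have e0 : (w : ℚ) * (1 - (κ : ℚ) * ((u : ℚ) / w)) = (w : ℚ) - κ * u := by field_simp
        rw [← mul_pow, e0]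
      calc (w : ℚ) ^ d * ((c i : ℚ) * ((u : ℚ) / w) ^ (i : ℕ) *
            (1 - (κ : ℚ) * ((u : ℚ) / w)) ^ (d - (i : ℕ)))
          = (c i : ℚ) * ((w : ℚ) ^ (i : ℕ) * ((u : ℚ) / w) ^ (i : ℕ)) *
            ((w : ℚ) ^ (d - (i : ℕ)) * (1 - (κ : ℚ) * ((u : ℚ) / w)) ^ (d - (i : ℕ))) := by
            rw [e]; ring
        _ = _ := by rw [e1, e2]
    exact_mod_cast h3

open JB in
open Classical in
/-- the moments for arbitrary binary forms -/
theorem jac_form {K : ℕ} {a : Fin (K + 1) → ℤ} (ha : Function.Injective a) (hn : Odd (K + 1))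
    (hK : 1 ≤ K) (hc : c ≠ 0) (k M : ℕ) :
    ∃ C : ℝ, ∀ (x y : ℤ) (X : ℕ), 1 ≤ X → x.natAbs ≤ X ^ M → y.natAbs ≤ X ^ M →
      ∑ q ∈ (Ioc x (x + X) ×ˢ Ioc y (y + X)).filter
          (fun q => IsCoprime q.1 q.2 ∧ form c q.1 q.2 ≠ 0),
        (nW a (form c q.1 q.2) : ℝ) ^ k ≤ C * (X : ℝ) ^ 2 := by
  obtain ⟨κ, hκ⟩ := exists_shear hc
  set f := shear c (κ : ℤ) with hf
  have hf0 : f ≠ 0 := by
    intro h0
    have h1 := shear_coeff c (κ : ℤ)
    rw [← hf, h0, coeff_zero] at h1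
    exact hκ h1.symm
  obtain ⟨C, hC⟩ := jac ha hn hK f hf0 k (M + 1)
  refine ⟨C * (1 + κ) ^ 2, fun x y X hX hx hy => ?_⟩
  set X' : ℕ := (1 + κ) * X with hX'
  have hXX : X ≤ X' := Nat.le_mul_of_pos_left _ (by omega)
  have hb1 : X ^ M ≤ X' ^ (M + 1) := by
    calc X ^ M ≤ X' ^ M := Nat.pow_le_pow_left hXX M
      _ ≤ X' ^ (M + 1) := Nat.pow_le_pow_right (by omega) (by omega)
  set y' : ℤ := y + κ * x with hy'
  have hb2 : y'.natAbs ≤ X' ^ (M + 1) := by
    have e1 : y'.natAbs ≤ y.natAbs + κ * x.natAbs := by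
      rw [hy']
      refine (Int.natAbs_add_le _ _).trans ?_
      rw [Int.natAbs_mul, Int.natAbs_natCast]
    calc y'.natAbs ≤ y.natAbs + κ * x.natAbs := e1
      _ ≤ X ^ M + κ * X ^ M := add_le_add hy (Nat.mul_le_mul_left _ hx)
      _ = (1 + κ) * X ^ M := by ring
      _ ≤ X' * X' ^ M := Nat.mul_le_mul (Nat.le_mul_of_pos_right _ hX)
          (Nat.pow_le_pow_left hXX M)
      _ = X' ^ (M + 1) := by ring
  have h1 := hC x y' X' (by omega) (hx.trans hb1) hb2
  refine le_trans ?_ (h1.trans (le_of_eq ?_))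
  · rw [sum_sigma']
    set φ : ℤ × ℤ → (Σ _ : ℤ, ℤ) := fun q => ⟨q.2 + κ * q.1, q.1⟩ with hφ
    have hinj : Set.InjOn φ ((((Ioc x (x + X) ×ˢ Ioc y (y + X)).filter
        (fun q => IsCoprime q.1 q.2 ∧ form c q.1 q.2 ≠ 0)) : Finset (ℤ × ℤ)) : Set (ℤ × ℤ)) := by
      intro q _ q' _ h
      have e2 : q.1 = q'.1 := by
        have := congrArg Sigma.snd h
        exact this
      have e1 : q.2 + κ * q.1 = q'.2 + κ * q'.1 := by
        have := congrArg Sigma.fst h
        exact this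
      rw [e2] at e1
      exact Prod.ext e2 (by linarith)
    set G : (Σ _ : ℤ, ℤ) → ℝ := fun p => (nW a ((f.scaleRoots p.1).eval p.2) : ℝ) ^ k with hG
    have hval : ∀ q : ℤ × ℤ, (f.scaleRoots (q.2 + κ * q.1)).eval q.1 = form c q.1 q.2 := by
      intro q
      rw [hf, shear_eval hκ]
      have e : q.2 + κ * q.1 - κ * q.1 = q.2 := by ring
      rw [e]
    calc ∑ q ∈ (Ioc x (x + X) ×ˢ Ioc y (y + X)).filter
          (fun q => IsCoprime q.1 q.2 ∧ form c q.1 q.2 ≠ 0), (nW a (form c q.1 q.2) : ℝ) ^ k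
        = ∑ q ∈ (Ioc x (x + X) ×ˢ Ioc y (y + X)).filter
          (fun q => IsCoprime q.1 q.2 ∧ form c q.1 q.2 ≠ 0), G (φ q) := by
          refine sum_congr rfl fun q _ => ?_
          simp only [hG, hφ]
          rw [hval]
      _ = ∑ p ∈ ((Ioc x (x + X) ×ˢ Ioc y (y + X)).filter
          (fun q => IsCoprime q.1 q.2 ∧ form c q.1 q.2 ≠ 0)).image φ, G p :=
          (sum_image hinj).symm
      _ ≤ _ := by
          refine sum_le_sum_of_subset_of_nonneg ?_ fun p _ _ => by positivity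
          intro p hp
          rw [mem_image] at hp
          obtain ⟨q, hq, rfl⟩ := hp
          rw [mem_filter, mem_product, mem_Ioc, mem_Ioc] at hq
          obtain ⟨⟨⟨hq1, hq2⟩, hq3, hq4⟩, hq5, hq6⟩ := hq
          have hX'z : (X' : ℤ) = (1 + κ) * X := by rw [hX']; push_cast; ring
          have hκ0 : (0 : ℤ) ≤ κ := Int.natCast_nonneg κ
          have hXz : (0 : ℤ) ≤ X := Int.natCast_nonneg X
          rw [mem_sigma]
          refine ⟨?_, mem_SW.2 ⟨?_, ?_, ?_⟩⟩
          · simp only [hφ]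
            rw [mem_Ioc, hy', hX'z]
            constructor <;> nlinarith
          · simp only [hφ]
            rw [mem_Ioc, hX'z]
            constructor <;> nlinarith
          · simp only [hφ]
            exact hq5.add_mul_right_right κ
          · simp only [hφ]
            rw [hval]
            exact hq6
  · rw [hX']
    push_cast
    ring

end MA

end Run7.h69
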