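import Mathlib
import Pool.Agent.Run7.h69.KA2
import Pool.Agent.Run7.h69.NA
import Pool.Agent.Run7.h69.JA3

/-!
# Moments over the `t` at which other polynomials have no small prime factors
-/

set_option autoImplicit false
set_option linter.unusedSectionVars false

namespace Run7.h69

open Finset Polynomial
open Pool.Agent.W262.RK hiding lk ff s1 s2
open Pool.Agent.W655.RK (PS_prime PS_lt PS_le)

namespace KA

open EX (Bk)
open JA (NJ BJ BJ_nonneg Hm kp kp_ne kp_Hm NJ_pow subB IJ kq vc cr)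
open JM (Bdd)

variable {h h' Q : ℤ[X]} {z K : ℕ} {kc : Fin K → Bk K → ℤ}

/-- the `t` of the interval with `h(t) ≠ 0` at which `Q` has no prime factors in `(z, √X]` -/
noncomputable def SS (h Q : ℤ[X]) (z : ℕ) (x : ℤ) (X : ℕ) : Finset ℤ :=
  (Ioc x (x + X)).filter (fun t => h.eval t ≠ 0 ∧ Rough Q z (Nat.sqrt X) t)

/-- the divisors of the medium primes are small -/
lemma dvd_PP_sqrt {y Y u X : ℕ} (hu : u ∣ PP y Y) (h : u ^ 2 ≤ X) : u ∣ PP y (Nat.sqrt X) := by
  have hsq := (PP_squarefree y Y).squarefree_of_dvd hu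
  have hu0 : 0 < u := NX.dpos hu
  have h1 : u ≤ Nat.sqrt X := Nat.le_sqrt'.2 h
  rw [← Nat.prod_primeFactors_of_squarefree hsq]
  unfold PP
  apply prod_dvd_prod_of_subset
  intro p hp
  have hpp := Nat.prime_of_mem_primeFactors hp
  have h2 := mem_PS.1 ((prime_dvd_PP hpp).1 ((Nat.dvd_of_mem_primeFactors hp).trans hu))
  exact mem_PS.2 ⟨⟨h2.1.1, (Nat.le_of_dvd hu0 (Nat.dvd_of_mem_primeFactors hp)).trans h1⟩, hpp⟩

/-- logarithms -/
lemma log_pow_le {X y k r : ℕ} (hy : 3 ≤ y) (hX : y ≤ X) (hk : X < (y + 1) ^ k) :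
    1 / (Real.log y) ^ r ≤ (4 ^ r) ^ k * (1 / (Real.log X) ^ r) := by
  have hyr : (3 : ℝ) ≤ y := by exact_mod_cast hy
  have hXr : (y : ℝ) ≤ X := by exact_mod_cast hX
  have hly : 0 < Real.log y := Real.log_pos (by linarith)
  have hlX : 0 < Real.log X := Real.log_pos (by linarith)
  have h1 : Real.log X ≤ 4 ^ k * Real.log y := by
    have h2 : (X : ℝ) ≤ (y : ℝ) ^ (2 * k) := by
      have h3 : X ≤ y ^ (2 * k) := by
        calc X ≤ (y + 1) ^ k := hk.le
          _ ≤ (y ^ 2) ^ k := Nat.pow_le_pow_left (by nlinarith) k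
          _ = _ := by rw [← pow_mul]
      exact_mod_cast h3
    have h3 : Real.log X ≤ (2 * k : ℕ) * Real.log y := by
      rw [← Real.log_pow]
      exact Real.log_le_log (by linarith) h2
    have h4 : ((2 * k : ℕ) : ℝ) ≤ 4 ^ k := by
      have h5 : ∀ n : ℕ, 2 * n ≤ 4 ^ n := by
        intro n
        induction n with
        | zero => simp
        | succ n ih => rw [pow_succ]; have : 1 ≤ 4 ^ n := Nat.one_le_pow _ _ (by norm_num); omega
      exact_mod_cast h5 k
    exact h3.trans (mul_le_mul_of_nonneg_right h4 hly.le)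
  have h2 : (Real.log X) ^ r ≤ (4 ^ r) ^ k * (Real.log y) ^ r := by
    calc (Real.log X) ^ r ≤ (4 ^ k * Real.log y) ^ r := pow_le_pow_left₀ hlX.le h1 r
      _ = _ := by rw [mul_pow, ← pow_mul, ← pow_mul, mul_comm k r]
  rw [mul_one_div, div_le_div_iff₀ (by positivity) (by positivity), one_mul]
  exact h2

open Classical in
/-- the moments for good data -/
theorem moments {g r m : ℕ} (M : ℕ) {A B0 : ℝ} (hA : 0 ≤ A) (hB0 : 2 ^ K ≤ B0) {R : ℤ → ℝ}
    (hR0 : ∀ t, 0 ≤ R t)
    (hR : Bdd kc h z A B0 R) (hD : Dat h h' Q z) (hQd : h'.natDegree ≤ (Q * h').natDegree)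
    (hMF : Mer (Q * h') (g + r)) (hm : Hm kc) (h0 : ∀ l v, kc l v ≠ 0)
    (h1z : ∀ l v, (kc l v).natAbs ≤ z)
    {C1 : ℝ} (havg : ∀ y : ℕ, z < y → ∑ s ∈ (PP z y).divisors, BJ (kp m kc) s * gm (br h') s ≤
      C1 * (Real.log y) ^ g) :
    ∃ (X0 : ℕ) (B : ℝ), ∀ (x : ℤ) (X : ℕ), x.natAbs ≤ X ^ M → X0 ≤ X →
      ∑ t ∈ SS h Q z x X, R t ^ m ≤ B * (X / (Real.log X) ^ r) := by
  have hz2 : 2 ≤ z := by have := hD.gh.big; omega
  have hB1 : (1 : ℝ) ≤ B0 := le_trans (one_le_pow₀ (by norm_num)) hB0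
  have hB00 : (0 : ℝ) ≤ B0 := by linarith
  have hsub : ∀ y s e, s * e ∣ PP z y → BJ (kp m kc) (s * e) ≤
      (B0 ^ m) ^ e.primeFactors.card * BJ (kp m kc) s := fun y s e hse =>
    (subB (kp_Hm hm) (fun l v => kp_ne h0 l v) (fun l v => h1z _ _) hse).trans
      (mul_le_mul_of_nonneg_right (pow_le_pow_left₀ (by positivity) (by
        rw [mul_comm m K, pow_mul]
        exact pow_le_pow_left₀ (by positivity) hB0 m) _) (BJ_nonneg _ _))
  obtain ⟨C', hC'⟩ := avg hD hQd (pow_nonneg hB00 m) (BJ_nonneg _) hsub havg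
  obtain ⟨C, Kc, y0, hC0, hK1, hcn⟩ := count hD hMF
  obtain ⟨c, L, hcL⟩ := RK.growth h
  -- the size of the values
  set L1 : ℕ := (M + 3) * L + 1 with hL1
  set y1 : ℕ := y0 + c + 3 with hy1
  have hval : ∀ (x : ℤ) (X : ℕ), x.natAbs ≤ X ^ M → y1 ≤ X → ∀ t ∈ Ioc x (x + X),
      (h.eval t).natAbs ≤ X ^ L1 := by
    intro x X hx hX t ht
    rw [mem_Ioc] at ht
    have hX2 : 2 ≤ X := by omega
    have h1 : t.natAbs + 1 ≤ x.natAbs + X + 1 := by omega
    have h2 : x.natAbs + X + 1 ≤ X ^ (M + 3) := by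
      have h3 : X ^ (M + 3) = X ^ M * (X ^ 3) := pow_add _ _ _
      have h4 : 1 ≤ X ^ M := Nat.one_le_pow _ _ (by omega)
      have h5 : X + 1 + 1 ≤ X ^ 3 := by nlinarith [Nat.mul_le_mul hX2 hX2, sq_nonneg (X - 2)]
      calc x.natAbs + X + 1 ≤ X ^ M * 1 + 1 * (X + 1) := by omega
        _ ≤ X ^ M * 1 + X ^ M * (X + 1) := Nat.add_le_add_left (Nat.mul_le_mul_right _ h4) _
        _ = X ^ M * (X + 1 + 1) := by ring
        _ ≤ X ^ M * X ^ 3 := Nat.mul_le_mul_left _ h5
        _ = _ := h3.symm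
    calc (h.eval t).natAbs ≤ c * (t.natAbs + 1) ^ L := hcL t
      _ ≤ X * (X ^ (M + 3)) ^ L :=
          Nat.mul_le_mul (by omega) (Nat.pow_le_pow_left (h1.trans h2) _)
      _ = X ^ L1 := by rw [hL1, ← pow_mul, pow_succ, mul_comm]
  have hdeg : (0 : ℝ) ≤ 2 * (h'.natDegree : ℝ) := by positivity
  obtain ⟨X0, B, hB⟩ := NA.nt (Ω := ℤ) (I := ℤ) (F := fun t => h.eval t)
    (S := fun x X => SS h Q z x X) (N := fun X : ℕ => (X : ℝ) / (Real.log X) ^ r)
    (b := bq h' Q) (bv := bq h' Q) (r := ru h') (z := z) (G := BJ (kp m kc))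
    (R := fun t => R t ^ m) (M := 2 * (h'.natDegree : ℝ))
    (Q := fun x X => x.natAbs ≤ X ^ M ∧ y1 ≤ X) (A := B0 ^ m) (C := C * A ^ m)
    (D := (B0 ^ L1) ^ m * 4 ^ r) (C' := C') (g := g) (K := Kc + 2) (y0 := y1)
    hz2 hdeg (fun p hp hpz => bq_bd hD hp hpz) (fun p hp hpz => bq_bd hD hp hpz)
    (fun p hp hpz => by
      have h1 : (rho h' p : ℝ) ≤ h'.natDegree := by exact_mod_cast hD.gh'.few p hp hpz
      have hp0 : (0 : ℝ) < p := by exact_mod_cast hp.pos
      refine ⟨NX.ru_nonneg h' p, ?_⟩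
      unfold ru
      rw [div_le_div_iff_of_pos_right hp0]
      have : (0 : ℝ) ≤ h'.natDegree := Nat.cast_nonneg _
      linarith)
    (fun X => div_nonneg (Nat.cast_nonneg _) (pow_nonneg (Real.log_natCast_nonneg _) _))
    (BJ_nonneg _) (fun t => pow_nonneg (hR0 t) m) (by positivity) (by positivity)
    (one_le_mul_of_one_le_of_one_le (one_le_pow₀ (one_le_pow₀ hB1)) (one_le_pow₀ (by norm_num)))
    hsub hC' (by
      intro x X y Y k hQ hy0 hzy hyK hXk s v u hs hv hu hsvu
      obtain ⟨hx, hX⟩ := hQ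
      have hy00 : y0 ≤ y := by omega
      have hy3 : 3 ≤ y := by omega
      have hyKc : y ^ Kc ≤ X := le_trans (Nat.pow_le_pow_right (by omega) (by omega)) hyK
      have hy2 : y ^ 2 ≤ X := le_trans (Nat.pow_le_pow_right (by omega) (by omega)) hyK
      have hysq : y ≤ Nat.sqrt X := Nat.le_sqrt'.2 hy2
      have hyX : y ≤ X := hysq.trans (Nat.sqrt_le_self X)
      have hu' : u ∣ PP y (Nat.sqrt X) := by
        apply dvd_PP_sqrt hu
        have h1 : 1 ≤ s * v := Nat.mul_pos (NX.dpos hs) (NX.dpos hv)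
        have hu1 := NX.dpos hu
        calc u ^ 2 ≤ (s * v * u) ^ 2 := Nat.pow_le_pow_left (Nat.le_mul_of_pos_left u h1) 2
          _ ≤ (s * v * u) ^ 8 := Nat.pow_le_pow_right (Nat.mul_pos h1 hu1) (by norm_num)
          _ ≤ X := hsvu
      set S := (SS h Q z x X).filter (fun t : ℤ => NA.T1 z y (h.eval t) = s ∧
        NA.T2 z y (h.eval t) = v ∧ (u : ℤ) ∣ h.eval t) with hS
      set G : Finset ℕ → ℝ := fun E => (NJ kc s E : ℝ) ^ m with hG
      have hG0 : ∀ E, 0 ≤ G E := fun E => by simp only [hG]; positivity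
      have h1 : ∀ t ∈ S, R t ^ m ≤
          A ^ m * ((B0 ^ L1) ^ m) ^ k * (B0 ^ m) ^ v.primeFactors.card *
            G (ng h t s) := by
        intro t ht
        rw [hS, mem_filter] at ht
        obtain ⟨ht1, hts, htv, _⟩ := ht
        unfold SS at ht1
        rw [mem_filter] at ht1
        have hN : (h.eval t).natAbs < (y + 1) ^ (k * L1) := by
          calc (h.eval t).natAbs ≤ X ^ L1 := hval x X hx hX t ht1.1
            _ < ((y + 1) ^ k) ^ L1 := Nat.pow_lt_pow_left hXk (by omega)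
            _ = _ := by rw [← pow_mul]
        have hr := hR t y (k * L1) (by omega) ht1.2.1 hN
        have hts' : t1 h z y t = s := hts
        have htv' : t2 h z y t = v := htv
        rw [hts', htv'] at hr
        refine (pow_le_pow_left₀ (hR0 t) hr m).trans (le_of_eq ?_)
        simp only [hG]
        rw [mul_pow, mul_pow, mul_pow]
        congr 2
        · congr 1
          rw [← pow_mul, ← pow_mul, ← pow_mul]
          congr 1
          ring
        · rw [← pow_mul, ← pow_mul, mul_comm]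
      have hneg : ∀ t ∈ S, ng h t s ∈ s.primeFactors.powerset := by
        intro t _
        rw [mem_powerset]
        exact filter_subset _ _
      have h2 : ∑ t ∈ S, G (ng h t s) =
          ∑ E ∈ s.primeFactors.powerset,
            ((S.filter (fun t : ℤ => ng h t s = E)).card : ℝ) * G E := by
        rw [← sum_fiberwise_of_maps_to hneg]
        refine sum_congr rfl fun E _ => ?_
        rw [← nsmul_eq_mul, ← sum_const]
        refine sum_congr rfl fun t ht => ?_
        rw [(mem_filter.1 ht).2]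
      have hs' : s ∈ (PP z y).divisors := Nat.mem_divisors.2 ⟨hs, PP_ne_zero z y⟩
      have hv' : v ∈ (PP z y).divisors := Nat.mem_divisors.2 ⟨hv, PP_ne_zero z y⟩
      have hbs : 0 ≤ gm (bq h' Q) s := AT.gm_nonneg (fun p hp hpz => (bq_bd hD hp hpz).1) hs'
      have hbv : 0 ≤ gm (bq h' Q) v := AT.gm_nonneg (fun p hp hpz => (bq_bd hD hp hpz).1) hv'
      have hru : 0 ≤ gm (ru h') u := NX.gmr_nonneg h' u
      have hly : 0 < Real.log y := Real.log_pos (by exact_mod_cast (by omega : 1 < y))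
      set W : ℝ := C * X * (1 / 2) ^ s.primeFactors.card * gm (bq h' Q) s *
        (gm (bq h' Q) v / v) * gm (ru h') u / (Real.log y) ^ g with hW
      have hW0 : 0 ≤ W := by positivity
      set Q' : ℝ := C * X * (1 / 2) ^ s.primeFactors.card * gm (bq h' Q) s *
        (gm (bq h' Q) v / v) * gm (ru h') u / (Real.log y) ^ (g + r) with hQ'
      have hQW : Q' ≤ W * ((4 ^ r) ^ k * (1 / (Real.log X) ^ r)) := by
        have e1 : Q' = W * (1 / (Real.log y) ^ r) := by
          rw [hQ', hW, pow_add]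
          field_simp
        rw [e1]
        exact mul_le_mul_of_nonneg_left (log_pow_le hy3 hyX hXk) hW0
      have h3 : ∀ E ∈ s.primeFactors.powerset,
          ((S.filter (fun t : ℤ => ng h t s = E)).card : ℝ) * G E ≤ Q' * G E := by
        intro E _
        refine mul_le_mul_of_nonneg_right ?_ (hG0 E)
        refine le_trans ?_ (hcn x X y (Nat.sqrt X) hy00 hzy hysq hyKc s v u hs hv hu' hsvu E)
        have h4 : S.filter (fun t : ℤ => ng h t s = E) ⊆
            (Ioc x (x + X)).filter (fun t : ℤ => Rough Q z (Nat.sqrt X) t ∧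
              t1 h z y t = s ∧ t2 h z y t = v ∧
              (u : ℤ) ∣ h.eval t ∧ ng h t s = E) := by
          intro t ht
          rw [mem_filter, hS, mem_filter] at ht
          unfold SS at ht
          rw [mem_filter] at ht
          rw [mem_filter]
          exact ⟨ht.1.1.1, ht.1.1.2.2, ht.1.2.1, ht.1.2.2.1, ht.1.2.2.2, ht.2⟩
        exact_mod_cast card_le_card h4
      have hGs : 0 ≤ ∑ E ∈ s.primeFactors.powerset, G E := sum_nonneg fun E _ => hG0 E
      calc ∑ t ∈ S, R t ^ m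
          ≤ ∑ t ∈ S, A ^ m * ((B0 ^ L1) ^ m) ^ k * (B0 ^ m) ^ v.primeFactors.card *
            G (ng h t s) := sum_le_sum h1
        _ = A ^ m * ((B0 ^ L1) ^ m) ^ k * (B0 ^ m) ^ v.primeFactors.card *
              ∑ E ∈ s.primeFactors.powerset,
                ((S.filter (fun t : ℤ => ng h t s = E)).card : ℝ) * G E := by
            rw [← mul_sum, h2]
        _ ≤ A ^ m * ((B0 ^ L1) ^ m) ^ k * (B0 ^ m) ^ v.primeFactors.card *
              ∑ E ∈ s.primeFactors.powerset, Q' * G E :=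
            mul_le_mul_of_nonneg_left (sum_le_sum h3) (by positivity)
        _ = A ^ m * ((B0 ^ L1) ^ m) ^ k * (B0 ^ m) ^ v.primeFactors.card *
              (Q' * ∑ E ∈ s.primeFactors.powerset, G E) := by rw [← mul_sum]
        _ ≤ A ^ m * ((B0 ^ L1) ^ m) ^ k * (B0 ^ m) ^ v.primeFactors.card *
              ((W * ((4 ^ r) ^ k * (1 / (Real.log X) ^ r))) *
                ∑ E ∈ s.primeFactors.powerset, G E) :=
            mul_le_mul_of_nonneg_left (mul_le_mul_of_nonneg_right hQW hGs) (by positivity)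
        _ = _ := by
            have e1 : BJ (kp m kc) s = (1 / 2) ^ s.primeFactors.card *
                ∑ E ∈ s.primeFactors.powerset, G E := by
              unfold BJ
              congr 1
              refine sum_congr rfl fun E _ => ?_
              rw [NJ_pow m kc s E]
              push_cast
              rfl
            have e2 : NA.bV (bq h' Q) (B0 ^ m) v = (B0 ^ m) ^ v.primeFactors.card *
                (gm (bq h' Q) v / v) := rfl
            rw [e1, e2, hW, mul_pow ((B0 ^ L1) ^ m) (4 ^ r) k]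
            ring)
  refine ⟨X0 + y1, B, fun x X hx hX => ?_⟩
  exact hB x X ⟨hx, by omega⟩ (by omega)

end KA

end Run7.h69
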