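import Mathlib
import Pool.Agent.Run7.h69.KA3

/-!
# Moments over the `t` at which irreducible polynomials have no small prime factors
-/

set_option autoImplicit false
set_option linter.unusedSectionVars false

namespace Run7.h69

open Finset Polynomial
open Pool.Agent.W262.RK hiding lk ff s1 s2
open Pool.Agent.W655.RK (PS_prime PS_lt PS_le)

namespace KA

open EX (Bk)
open JA (NJ BJ BJ_nonneg Hm kp kp_ne kp_Hm NJ_pow subB IJ kq vc cr)
open JM (Bdd)

section alg

variable {r : ℕ} {q : Fin r → ℤ[X]} (hq : ∀ i, Irreducible (q i))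
  (hqa : ∀ i j, i ≠ j → ¬ Associated (q i) (q j))

include hq hqa in
/-- the part of `h` prime to the `q i` -/
lemma part {h : ℤ[X]} (hsq : Squarefree h) (h0 : h ≠ 0) (I : Finset (Fin r)) :
    ∃ h' : ℤ[X], h' ≠ 0 ∧ h' ∣ h ∧ h ∣ (∏ i ∈ I, q i) * h' ∧ Squarefree ((∏ i ∈ I, q i) * h') := by
  classical
  induction I using Finset.induction_on with
  | empty => exact ⟨h, h0, dvd_rfl, by simp, by simpa using hsq⟩
  | insert i I hi ih =>
    obtain ⟨h1, h10, h1d, h1m, h1s⟩ := ih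
    by_cases hd : q i ∣ h1
    · obtain ⟨h2, rfl⟩ := hd
      have e : (∏ k ∈ insert i I, q k) * h2 = (∏ k ∈ I, q k) * (q i * h2) := by
        rw [prod_insert hi]; ring
      refine ⟨h2, ?_, (Dvd.intro_left _ rfl).trans h1d, ?_, ?_⟩
      · rintro rfl
        exact h10 (mul_zero _)
      · rw [e]; exact h1m
      · rw [e]; exact h1s
    · have e : (∏ k ∈ insert i I, q k) * h1 = q i * ((∏ k ∈ I, q k) * h1) := by
        rw [prod_insert hi]; ring
      refine ⟨h1, h10, h1d, ?_, ?_⟩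
      · rw [e]; exact h1m.mul_left _
      · rw [e, squarefree_mul_iff]
        refine ⟨((hq i).isRelPrime_iff_not_dvd).2 fun h3 => ?_, (hq i).squarefree, h1s⟩
        have hpr := (hq i).prime
        rcases hpr.dvd_or_dvd h3 with h4 | h4
        · obtain ⟨j, hj, hjd⟩ := hpr.exists_mem_finset_dvd h4
          have hij : i ≠ j := by
            rintro rfl
            exact hi hj
          exact hqa i j hij ((hq i).associated_of_dvd (hq j) hjd)
        · exact hd h4

include hq in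
/-- Mertens' theorem for the product -/
lemma mer {h' : ℤ[X]} {g : ℕ} (hqd : ∀ i, 0 < (q i).natDegree) (hM : Mer h' g)
    (hs : Squarefree ((∏ i, q i) * h')) (I : Finset (Fin r)) :
    ∃ n : ℕ, I.card ≤ n ∧ Mer ((∏ i ∈ I, q i) * h') (g + n) := by
  classical
  induction I using Finset.induction_on with
  | empty => exact ⟨0, by simp, by simpa using hM⟩
  | insert i I hi ih =>
    obtain ⟨n, hn, hMn⟩ := ih
    have e : (∏ k ∈ insert i I, q k) * h' = q i * ((∏ k ∈ I, q k) * h') := by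
      rw [prod_insert hi]; ring
    have hnd : ¬ q i ∣ (∏ k ∈ I, q k) * h' := by
      intro hd
      have h1 : q i * q i ∣ (∏ i, q i) * h' := by
        refine (mul_dvd_mul_left (q i) hd).trans ?_
        rw [← e]
        exact mul_dvd_mul_right (prod_dvd_prod_of_subset _ _ _ (subset_univ _)) _
      exact (hq i).not_isUnit (hs (q i) h1)
    have hcop := UT.irr_cop (q i) _ (hq i) hnd
    obtain ⟨u, v, N, hN, huv⟩ := UT.bez hcop
    obtain ⟨g', z0', hg1', -, hM', -⟩ := UT.irr (q i) (hq i)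
    refine ⟨g' + n, ?_, ?_⟩
    · rw [card_insert_of_notMem hi]
      have := hg1' (hqd i)
      omega
    · rw [e, show g + (g' + n) = g' + (g + n) by ring]
      exact UT.mer_add hM' hMn (p0 := N.natAbs) fun p hp hpN => UT.rho_add hN huv hp hpN

end alg

variable {h : ℤ[X]} {K : ℕ} {kc : Fin K → Bk K → ℤ}

/-- the average for a constant polynomial -/
lemma avg_const {z m : ℕ} {c : ℤ} (hc : c ≠ 0) (hcz : c.natAbs ≤ z) (y : ℕ) :
    ∑ s ∈ (PP z y).divisors, BJ (kp m kc) s * gm (br (C c)) s ≤ BJ (kp m kc) 1 * (Real.log y) ^ 0 := by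
  rw [pow_zero, mul_one]
  have h1 : ∀ s ∈ (PP z y).divisors, s ≠ 1 → BJ (kp m kc) s * gm (br (C c)) s = 0 := by
    intro s hs hs1
    have h2 : s.primeFactors.Nonempty := Nat.nonempty_primeFactors.2 (by
      have := Nat.pos_of_mem_divisors hs
      omega)
    obtain ⟨p, hp⟩ := h2
    have hpp := Nat.prime_of_mem_primeFactors hp
    have h3 := PS_lt ((prime_dvd_PP hpp).1 ((Nat.dvd_of_mem_primeFactors hp).trans
      (Nat.dvd_of_mem_divisors hs)))
    have h4 : br (C c) p = 0 := by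
      unfold br
      rw [UT.rho_C hc (by omega)]
      simp
    unfold gm
    rw [prod_eq_zero hp h4, mul_zero]
  rw [sum_eq_single 1 h1 (fun h => absurd (Nat.one_mem_divisors.2 (PP_ne_zero z y)) h)]
  simp [gm]

/-- the moments over the `t` with rough values of the `q i` -/
theorem sqf {r : ℕ} {q : Fin r → ℤ[X]} (hq : ∀ i, Irreducible (q i))
    (hqa : ∀ i j, i ≠ j → ¬ Associated (q i) (q j)) (hqd : ∀ i, 0 < (q i).natDegree)
    (hK : 1 ≤ K) (hm : Hm kc) (hc0 : ∀ l v, kc l v ≠ 0)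
    (hsq : Squarefree h) (h0 : h ≠ 0) (z00 k M : ℕ) (hk : 1 ≤ k) :
    ∃ z : ℕ, z00 ≤ z ∧ ∀ (A B0 : ℝ) (R : ℤ → ℝ), 0 ≤ A → 2 ^ K ≤ B0 →
      (∀ t, 1 ≤ R t ∨ R t = 0) → Bdd kc h z A B0 R →
    ∃ (X0 : ℕ) (B : ℝ), 0 ≤ B ∧ ∀ (x : ℤ) (X : ℕ), x.natAbs ≤ X ^ M → X0 ≤ X →
      ∑ t ∈ SS h (∏ i, q i) z x X, R t ^ k ≤ B * (X / (Real.log X) ^ r) := by
  classical
  obtain ⟨h', h0', hd1, hd2, hs2⟩ := part hq hqa hsq h0 univ
  set Q : ℤ[X] := ∏ i, q i with hQ
  have hQ0 : Q ≠ 0 := prod_ne_zero_iff.2 fun i _ => (hq i).ne_zero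
  have hs' : Squarefree h' := hs2.squarefree_of_dvd (Dvd.intro_left _ rfl)
  obtain ⟨hsep, -⟩ := UT.sqf h hsq h0
  obtain ⟨hsep', g, z0, hg1, hg2, hM, hU⟩ := UT.sqf h' hs' h0'
  obtain ⟨hsepF, -⟩ := UT.sqf (Q * h') hs2 (mul_ne_zero hQ0 h0')
  obtain ⟨z1, hz1⟩ := UT.good h h0 hsep
  obtain ⟨z2, hz2⟩ := UT.good h' h0' hsep'
  obtain ⟨z3, hz3⟩ := UT.good (Q * h') (mul_ne_zero hQ0 h0') hsepF
  obtain ⟨n, hn, hMF⟩ := mer hq hqd hM hs2 univ
  rw [card_univ, Fintype.card_fin] at hn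
  have hQd : h'.natDegree ≤ (Q * h').natDegree := by
    rw [natDegree_mul hQ0 h0']
    omega
  set m : ℕ := k + 2 * h'.natDegree with hmdef
  have hmK : m ≤ m * K := Nat.le_mul_of_pos_right _ hK
  have hm4 : 2 * h'.natDegree ≤ 2 ^ (m * K) := by
    calc 2 * h'.natDegree ≤ m * K := by omega
      _ ≤ 2 ^ (m * K) := (Nat.lt_pow_self (by norm_num)).le
  set z : ℕ := z0 + z1 + z2 + z3 + z00 + h'.leadingCoeff.natAbs +
    ∑ i : IJ (m * K), (kq (kp m kc) (vc i) (cr i)).natAbs +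
    ∑ l : Fin K, ∑ v : Bk K, (kc l v).natAbs with hz
  have hkcz : ∀ l v, (kc l v).natAbs ≤ z := fun l v => by
    have h1 := single_le_sum (f := fun l : Fin K => ∑ v : Bk K, (kc l v).natAbs)
      (fun _ _ => Nat.zero_le _) (mem_univ l)
    have h2 := single_le_sum (f := fun v : Bk K => (kc l v).natAbs)
      (fun _ _ => Nat.zero_le _) (mem_univ v)
    omega
  refine ⟨z, by omega, fun A B0 R hA hB0 hR1 hR => ?_⟩
  have hR0 : ∀ t, 0 ≤ R t := fun t => by rcases hR1 t with h1 | h1 <;> linarith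
  have hD : Dat h h' Q z := by
    refine ⟨hz1 z (by omega), hz2 z (by omega), hz3 z (by omega), hd1, ?_⟩
    intro p hp hpz t ht hQt
    have h1 : (p : ℤ) ∣ (Q * h').eval t := ht.trans (eval_dvd hd2)
    rw [eval_mul] at h1
    exact ((Nat.prime_iff_prime_int.1 hp).dvd_or_dvd h1).resolve_left hQt
  have havg : ∃ C1 : ℝ, ∀ y : ℕ, z < y → ∑ s ∈ (PP z y).divisors,
      BJ (kp m kc) s * gm (br h') s ≤ C1 * (Real.log y) ^ g := by
    rcases Nat.eq_zero_or_pos h'.natDegree with hd | hd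
    · obtain ⟨c, hc⟩ := natDegree_eq_zero.1 hd
      have hc0 : c ≠ 0 := by
        rintro rfl
        rw [map_zero] at hc
        exact h0' hc.symm
      have hg0 : g = 0 := by omega
      have hcz : c.natAbs ≤ z := by
        have : h'.leadingCoeff = c := by rw [← hc, leadingCoeff_C]
        rw [← this]
        omega
      refine ⟨BJ (kp m kc) 1, fun y _ => ?_⟩
      rw [hg0, ← hc]
      exact avg_const hc0 hcz y
    · exact JA.avg_bound
        (Pool.Agent.W655.RK.blw_of (_root_.W37.RK.bl_of Pool.Agent.W505.RK.ls))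
        (hz2 z (by omega)) (hg1 hd) hM (hU z (by omega))
        (fun l v => kp_ne hc0 l v) (fun l v => hkcz _ _)
        (fun i => by
          have h1 := single_le_sum (f := fun i : IJ (m * K) =>
            (kq (kp m kc) (vc i) (cr i)).natAbs) (fun _ _ => Nat.zero_le _) (mem_univ i)
          omega) hm4 (by omega)
  obtain ⟨C1, hC1⟩ := havg
  obtain ⟨X0, B, hB⟩ := moments (h := h) (h' := h') (Q := Q) (z := z) (g := g) (r := n) (m := m) M
    hA hB0 hR0 hR hD hQd hMF hm hc0 hkcz hC1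
  refine ⟨X0 + 3, |B|, abs_nonneg _, fun x X hx hX => ?_⟩
  have hXr : (3 : ℝ) ≤ X := by exact_mod_cast (by omega : 3 ≤ X)
  have hl1 : 1 ≤ Real.log X := by
    rw [Real.le_log_iff_exp_le (by linarith)]
    have := Real.exp_one_lt_d9
    linarith
  calc ∑ t ∈ SS h Q z x X, R t ^ k ≤ ∑ t ∈ SS h Q z x X, R t ^ m := by
        refine sum_le_sum fun t _ => ?_
        rcases hR1 t with h1 | h1
        · exact pow_le_pow_right₀ h1 (by omega)
        · rw [h1, zero_pow (by omega), zero_pow (by omega)]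
    _ ≤ B * (X / (Real.log X) ^ n) := hB x X hx (by omega)
    _ ≤ |B| * (X / (Real.log X) ^ n) :=
        mul_le_mul_of_nonneg_right (le_abs_self B) (by positivity)
    _ ≤ |B| * (X / (Real.log X) ^ r) := by
        refine mul_le_mul_of_nonneg_left ?_ (abs_nonneg _)
        exact div_le_div_of_nonneg_left (Nat.cast_nonneg _) (by positivity)
          (pow_le_pow_right₀ hl1 hn)

end KA

end Run7.h69
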