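import Mathlib
import Pool.Agent.Run7.h69.KA4

/-!
# Moments over the `t` at which irreducible polynomials have prime values
-/

set_option autoImplicit false
set_option linter.unusedSectionVars false

namespace Run7.h69

open Finset Polynomial
open Pool.Agent.W262.RK hiding lk ff s1 s2
open Pool.Agent.W655.RK (PS_prime PS_lt PS_le)

namespace KA

/-- powers of the logarithm -/
lemma log_pow_sqrt (r : ℕ) : ∃ c : ℝ, 0 ≤ c ∧ ∀ X : ℕ, 1 ≤ X →
    ((Real.log X) ^ r) ^ 2 ≤ c * √(X : ℝ) := by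
  set δ : ℝ := 1 / (4 * (r + 1)) with hδ
  have hδ0 : 0 < δ := by positivity
  refine ⟨((1 / δ) ^ r) ^ 2, by positivity, fun X hX => ?_⟩
  have hXr : (1 : ℝ) ≤ X := by exact_mod_cast hX
  have hl : 0 ≤ Real.log X := Real.log_nonneg hXr
  have h1 : Real.log X ≤ (X : ℝ) ^ δ / δ := Real.log_le_rpow_div (by linarith) hδ0
  have h2 : ((X : ℝ) ^ δ) ^ (r * 2) ≤ √(X : ℝ) := by
    rw [Real.sqrt_eq_rpow, ← Real.rpow_natCast, ← Real.rpow_mul (by linarith)]
    apply Real.rpow_le_rpow_of_exponent_le hXr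
    rw [hδ]
    push_cast
    rw [one_div_mul_eq_div, div_le_div_iff₀ (by positivity) (by norm_num)]
    linarith
  calc ((Real.log X) ^ r) ^ 2 = (Real.log X) ^ (r * 2) := by rw [pow_mul]
    _ ≤ ((X : ℝ) ^ δ / δ) ^ (r * 2) := pow_le_pow_left₀ hl h1 _
    _ = ((1 / δ) ^ r) ^ 2 * ((X : ℝ) ^ δ) ^ (r * 2) := by
        rw [← pow_mul, ← mul_pow]
        congr 1
        ring
    _ ≤ _ := mul_le_mul_of_nonneg_left h2 (by positivity)

section

variable {r : ℕ} {q : Fin r → ℤ[X]} {h : ℤ[X]} {z : ℕ}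

/-- the `t` with small values -/
lemma small_card (hqd : ∀ i, 0 < (q i).natDegree) (S : Finset ℤ) (s : ℕ)
    (hS : ∀ t ∈ S, ∃ i, ((q i).eval t).natAbs ≤ s) :
    S.card ≤ (∑ i, (q i).natDegree) * (2 * s + 1) := by
  classical
  have hsub : S ⊆ univ.biUnion (fun i : Fin r => (Icc (-(s : ℤ)) s).biUnion
      (fun c => (q i - C c).roots.toFinset)) := by
    intro t ht
    obtain ⟨i, hi⟩ := hS t ht
    rw [mem_biUnion]
    refine ⟨i, mem_univ i, ?_⟩
    rw [mem_biUnion]
    refine ⟨(q i).eval t, mem_Icc.2 ⟨by omega, by omega⟩, ?_⟩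
    have hne : q i - C ((q i).eval t) ≠ 0 := by
      intro h0
      have h1 : q i = C ((q i).eval t) := sub_eq_zero.1 h0
      have h2 := hqd i
      rw [h1, natDegree_C] at h2
      omega
    rw [Multiset.mem_toFinset, mem_roots hne, IsRoot.def, eval_sub, eval_C, sub_self]
  calc S.card ≤ _ := card_le_card hsub
    _ ≤ ∑ i : Fin r, ((Icc (-(s : ℤ)) s).biUnion
      (fun c => (q i - C c).roots.toFinset)).card := card_biUnion_le
    _ ≤ ∑ i : Fin r, ∑ c ∈ Icc (-(s : ℤ)) s, ((q i - C c).roots.toFinset).card :=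
        sum_le_sum fun i _ => card_biUnion_le
    _ ≤ ∑ i : Fin r, ∑ c ∈ Icc (-(s : ℤ)) s, (q i).natDegree := by
        refine sum_le_sum fun i _ => sum_le_sum fun c _ => ?_
        calc ((q i - C c).roots.toFinset).card ≤ (q i - C c).roots.card :=
              Multiset.toFinset_card_le _
          _ ≤ (q i - C c).natDegree := card_roots' _
          _ = (q i).natDegree := natDegree_sub_C
    _ = _ := by
        rw [sum_mul]
        refine sum_congr rfl fun i _ => ?_
        rw [sum_const, Int.card_Icc, smul_eq_mul, mul_comm]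
        congr 1
        omega

open Classical in
/-- from rough values to prime values -/
theorem primes (hqd : ∀ i, 0 < (q i).natDegree) {R : ℤ → ℝ} (hR : ∀ t, 0 ≤ R t) {k M : ℕ}
    (h1 : ∃ (X0 : ℕ) (B : ℝ), 0 ≤ B ∧ ∀ (x : ℤ) (X : ℕ), x.natAbs ≤ X ^ M → X0 ≤ X →
      ∑ t ∈ SS h (∏ i, q i) z x X, R t ^ k ≤ B * (X / (Real.log X) ^ r))
    (h2 : ∃ C : ℝ, ∀ (x : ℤ) (X : ℕ), 1 ≤ X → x.natAbs ≤ X ^ M →
      ∑ t ∈ NX.II h x X, R t ^ (2 * k) ≤ C * X) :
    ∃ C : ℝ, ∀ (x : ℤ) (X : ℕ), 2 ≤ X → x.natAbs ≤ X ^ M →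
      ∑ t ∈ (NX.II h x X).filter (fun t => ∀ i, ((q i).eval t).natAbs.Prime), R t ^ k ≤
        C * (X / (Real.log X) ^ r) := by
  obtain ⟨X0, B, hB0, hB⟩ := h1
  obtain ⟨C', hC'⟩ := h2
  obtain ⟨c, hc0, hc⟩ := log_pow_sqrt r
  set C : ℝ := |C'| with hC0
  have hCnn : 0 ≤ C := abs_nonneg _
  have hC : ∀ (x : ℤ) (X : ℕ), 1 ≤ X → x.natAbs ≤ X ^ M →
      ∑ t ∈ NX.II h x X, R t ^ (2 * k) ≤ C * X := fun x X hX hx =>
    (hC' x X hX hx).trans (mul_le_mul_of_nonneg_right (le_abs_self _) (Nat.cast_nonneg _))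
  set D : ℕ := ∑ i, (q i).natDegree with hD
  set C4 : ℝ := √(3 * D * C * c) with hC4
  have hC40 : 0 ≤ C4 := Real.sqrt_nonneg _
  have hC4s : C4 ^ 2 = 3 * D * C * c := Real.sq_sqrt (by positivity)
  set L0 : ℝ := (Real.log X0 + 1) ^ r with hL0
  have hL00 : 0 ≤ L0 := pow_nonneg (by have := Real.log_natCast_nonneg X0; linarith) _
  have hk0 : ∀ t, 0 ≤ R t ^ k := fun t => pow_nonneg (hR t) k
  refine ⟨B + C4 + (1 + C) * L0, fun x X hX hx => ?_⟩
  have hXr : (2 : ℝ) ≤ X := by exact_mod_cast hX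
  have hlX : 0 < Real.log X := Real.log_pos (by linarith)
  have hN0 : 0 ≤ X / (Real.log X) ^ r := by positivity
  set T := (NX.II h x X).filter (fun t => ∀ i, ((q i).eval t).natAbs.Prime) with hT
  have hTI : T ⊆ NX.II h x X := filter_subset _ _
  rcases Nat.lt_or_ge X X0 with hXX | hXX
  · have e1 : ∑ t ∈ T, R t ^ k ≤ (1 + C) * X := by
      calc ∑ t ∈ T, R t ^ k ≤ ∑ t ∈ NX.II h x X, R t ^ k :=
            sum_le_sum_of_subset_of_nonneg hTI fun t _ _ => hk0 t
        _ ≤ ∑ t ∈ NX.II h x X, (1 + R t ^ (2 * k)) := by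
            refine sum_le_sum fun t _ => ?_
            rw [mul_comm 2 k, pow_mul]
            nlinarith [sq_nonneg (R t ^ k - 1), hk0 t]
        _ = (NX.II h x X).card + ∑ t ∈ NX.II h x X, R t ^ (2 * k) := by
            rw [sum_add_distrib]
            simp
        _ ≤ X + C * X := by
            refine add_le_add ?_ (hC x X (by omega) hx)
            have h3 : (NX.II h x X).card ≤ X := by
              unfold NX.II
              refine (card_filter_le _ _).trans ?_
              rw [Int.card_Ioc]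
              simp
            exact_mod_cast h3
        _ = _ := by ring
    have e2 : (Real.log X) ^ r ≤ L0 := by
      apply pow_le_pow_left₀ hlX.le
      have : Real.log X ≤ Real.log X0 :=
        Real.log_le_log (by linarith) (by exact_mod_cast hXX.le)
      linarith
    have e3 : (X : ℝ) ≤ L0 * (X / (Real.log X) ^ r) := by
      rw [mul_div_assoc', le_div_iff₀ (by positivity), mul_comm]
      exact mul_le_mul_of_nonneg_right e2 (by positivity)
    calc ∑ t ∈ T, R t ^ k ≤ (1 + C) * X := e1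
      _ ≤ (1 + C) * (L0 * (X / (Real.log X) ^ r)) :=
          mul_le_mul_of_nonneg_left e3 (by linarith)
      _ = ((1 + C) * L0) * (X / (Real.log X) ^ r) := by ring
      _ ≤ _ := by
          refine mul_le_mul_of_nonneg_right ?_ hN0
          linarith
  · set s := Nat.sqrt X with hs
    have hs1 : 1 ≤ s := Nat.le_sqrt'.2 (by omega)
    set Sm := T.filter (fun t => ∃ i, ((q i).eval t).natAbs ≤ s) with hSm
    have hcov : T ⊆ SS h (∏ i, q i) z x X ∪ Sm := by
      intro t ht
      rw [mem_union]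
      by_cases hsm : ∃ i, ((q i).eval t).natAbs ≤ s
      · exact Or.inr (mem_filter.2 ⟨ht, hsm⟩)
      · left
        rw [hT, mem_filter] at ht
        have ht1 := ht.1
        unfold NX.II at ht1
        rw [mem_filter] at ht1
        unfold SS
        rw [mem_filter]
        refine ⟨ht1.1, ht1.2, fun p hp hpd => hsm ?_⟩
        have hpp := PS_prime hp
        rw [eval_prod] at hpd
        obtain ⟨i, -, hi⟩ := ((Nat.prime_iff_prime_int.1 hpp).dvd_finsetProd_iff _).1 hpd
        refine ⟨i, ?_⟩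
        have h3 := (Nat.prime_dvd_prime_iff_eq hpp (ht.2 i)).1 (Int.natCast_dvd.1 hi)
        rw [← h3]
        exact PS_le hp
    have e1 : ∑ t ∈ Sm, R t ^ k ≤ C4 * (X / (Real.log X) ^ r) := by
      have hcard : (Sm.card : ℝ) ≤ 3 * D * √(X : ℝ) := by
        have h3 := small_card hqd Sm s fun t ht => (mem_filter.1 ht).2
        have h4 : Sm.card ≤ D * (3 * s) :=
          h3.trans (Nat.mul_le_mul_left _ (by omega))
        have h5 : (s : ℝ) ≤ √(X : ℝ) := by
          apply Real.le_sqrt_of_sq_le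
          have : s ^ 2 ≤ X := Nat.sqrt_le' X
          exact_mod_cast this
        calc (Sm.card : ℝ) ≤ ((D * (3 * s) : ℕ) : ℝ) := by exact_mod_cast h4
          _ = 3 * D * s := by push_cast; ring
          _ ≤ _ := mul_le_mul_of_nonneg_left h5 (by positivity)
      have hsq : ∑ t ∈ Sm, (R t ^ k) ^ 2 ≤ C * X := by
        calc ∑ t ∈ Sm, (R t ^ k) ^ 2 = ∑ t ∈ Sm, R t ^ (2 * k) :=
              sum_congr rfl fun t _ => by rw [← pow_mul, mul_comm k 2]
          _ ≤ ∑ t ∈ NX.II h x X, R t ^ (2 * k) :=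
              sum_le_sum_of_subset_of_nonneg ((filter_subset _ _).trans hTI)
                fun t _ _ => pow_nonneg (hR t) _
          _ ≤ _ := hC x X (by omega) hx
      have hcs : (∑ t ∈ Sm, R t ^ k) ^ 2 ≤ Sm.card * ∑ t ∈ Sm, (R t ^ k) ^ 2 :=
        sq_sum_le_card_mul_sum_sq
      have hw := Real.sq_sqrt (by positivity : (0 : ℝ) ≤ X)
      have hL := hc X (by omega)
      have hLp : 0 < (Real.log X) ^ r := by positivity
      have hfin : (∑ t ∈ Sm, R t ^ k) ^ 2 ≤ (C4 * (X / (Real.log X) ^ r)) ^ 2 := by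
        calc (∑ t ∈ Sm, R t ^ k) ^ 2 ≤ Sm.card * ∑ t ∈ Sm, (R t ^ k) ^ 2 := hcs
          _ ≤ (3 * D * √(X : ℝ)) * (C * X) :=
              mul_le_mul hcard hsq (sum_nonneg fun t _ => sq_nonneg _) (by positivity)
          _ ≤ (C4 * (X / (Real.log X) ^ r)) ^ 2 := by
              rw [mul_pow, hC4s, div_pow, mul_div_assoc', le_div_iff₀ (by positivity)]
              calc 3 * D * √(X : ℝ) * (C * X) * ((Real.log X) ^ r) ^ 2
                  ≤ 3 * D * √(X : ℝ) * (C * X) * (c * √(X : ℝ)) :=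
                    mul_le_mul_of_nonneg_left hL (by positivity)
                _ = 3 * D * C * c * X * (√(X : ℝ)) ^ 2 := by ring
                _ = _ := by rw [hw]; ring
      exact le_of_sq_le_sq hfin (by positivity)
    calc ∑ t ∈ T, R t ^ k ≤ ∑ t ∈ SS h (∏ i, q i) z x X ∪ Sm, R t ^ k :=
          sum_le_sum_of_subset_of_nonneg hcov fun t _ _ => hk0 t
      _ ≤ ∑ t ∈ SS h (∏ i, q i) z x X, R t ^ k + ∑ t ∈ Sm, R t ^ k := by
          rw [← sum_union_inter]
          exact le_add_of_nonneg_right (sum_nonneg fun t _ => hk0 t)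
      _ ≤ B * (X / (Real.log X) ^ r) + C4 * (X / (Real.log X) ^ r) :=
          add_le_add (hB x X hx hXX) e1
      _ = (B + C4) * (X / (Real.log X) ^ r) := by ring
      _ ≤ _ := by
          refine mul_le_mul_of_nonneg_right ?_ hN0
          have : 0 ≤ (1 + C) * L0 := by positivity
          linarith

end

end KA

end Run7.h69
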