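import Mathlib
import Pool.Agent.Run7.h69.KA5
import Pool.Agent.Run7.h69.JB9

/-!
# The Jacobians of the twists by the values of a polynomial at the `t` with prime values
-/

set_option autoImplicit false
set_option linter.unusedSectionVars false

namespace Run7.h69

open Finset Polynomial
open Pool.Agent.W262.RK hiding lk ff s1 s2

namespace KA

open JB

variable {K : ℕ} {a : Fin (K + 1) → ℤ} (ha : Function.Injective a) (hn : Odd (K + 1))

include ha hn in
open Classical in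
theorem jac_pos (hK : 1 ≤ K) (f : ℤ[X]) {r : ℕ} {q : Fin r → ℤ[X]} (hq : ∀ i, Irreducible (q i))
    (hqa : ∀ i j, i ≠ j → ¬ Associated (q i) (q j)) (hqd : ∀ i, 0 < (q i).natDegree)
    (k M : ℕ) (hk : 1 ≤ k) :
    ∃ C : ℝ, ∀ (x : ℤ) (X : ℕ), 2 ≤ X → x.natAbs ≤ X ^ M →
      ∑ t ∈ (Ioc x (x + X)).filter (fun t => f.eval t ≠ 0 ∧
        ∀ i, ((q i).eval t).natAbs.Prime),
        (nW a (f.eval t) : ℝ) ^ k ≤ C * (X / (Real.log X) ^ r) := by
  by_cases hf : f = 0
  · refine ⟨0, fun x X _ _ => ?_⟩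
    have : (Ioc x (x + X)).filter (fun t => f.eval t ≠ 0 ∧
        ∀ i, ((q i).eval t).natAbs.Prime) = ∅ := by
      rw [filter_eq_empty_iff]
      intro t _ h
      apply h.1
      rw [hf]
      simp
    rw [this, sum_empty, zero_mul]
  obtain ⟨g, h, hfg, hsq, h0, hg0⟩ := UT.sq_mul f hf
  have hval : ∀ t : ℤ, f.eval t = (g.eval t) ^ 2 * h.eval t := by
    intro t
    rw [hfg, eval_mul, eval_pow]
  have hR0 : ∀ d, 0 ≤ Rq a d := fun d => by
    rcases Rq_or ha hn d with h1 | h1 <;> linarith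
  set z0 : ℕ := 2 + ∑ i : Fin (K + 1), ∑ k : Fin (K + 1), (a i - a k).natAbs with hz0
  obtain ⟨z, hz, hmain⟩ := sqf (kc := kc a) hq hqa hqd hK (kc_Hm a) (kc_ne ha) hsq h0 z0 k M hk
  have h1 := hmain ((2 ^ K) ^ (z + 1)) (2 ^ K) (fun t => Rq a (f.eval t)) (by positivity)
      le_rfl (fun t => Rq_or ha hn _) (bdd ha hn hfg (by omega) (fun i k => by
        have h1 := single_le_sum (f := fun i : Fin (K + 1) => ∑ k : Fin (K + 1),
          (a i - a k).natAbs) (fun _ _ => Nat.zero_le _) (mem_univ i)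
        have h2 := single_le_sum (f := fun k : Fin (K + 1) => (a i - a k).natAbs)
          (fun _ _ => Nat.zero_le _) (mem_univ k)
        omega))
  have h2 : ∃ C : ℝ, ∀ (x : ℤ) (X : ℕ), 1 ≤ X → x.natAbs ≤ X ^ M →
      ∑ t ∈ NX.II h x X, Rq a (f.eval t) ^ (2 * k) ≤ C * X := by
    obtain ⟨C, hC⟩ := JB.main ha hn hK f (2 * k) M
    refine ⟨C, fun x X hX hx => le_trans ?_ (hC x X hX hx)⟩
    have e1 : ∀ t ∈ (Ioc x (x + X)).filter (fun t => f.eval t ≠ 0),
        (nW a (f.eval t) : ℝ) ^ (2 * k) = Rq a (f.eval t) ^ (2 * k) := by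
      intro t ht
      rw [mem_filter] at ht
      unfold Rq
      rw [if_neg ht.2]
    rw [sum_congr rfl e1]
    have e2 : ∑ t ∈ NX.II h x X, Rq a (f.eval t) ^ (2 * k) =
        ∑ t ∈ (NX.II h x X).filter (fun t => f.eval t ≠ 0), Rq a (f.eval t) ^ (2 * k) := by
      rw [sum_filter]
      refine sum_congr rfl fun t _ => ?_
      split_ifs with h3
      · rfl
      · unfold Rq
        rw [if_pos (not_not.1 h3), zero_pow (by omega)]
    rw [e2]
    refine sum_le_sum_of_subset_of_nonneg ?_ fun t _ _ => pow_nonneg (hR0 _) _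
    intro t ht
    rw [mem_filter] at ht
    have ht1 := ht.1
    unfold NX.II at ht1
    rw [mem_filter] at ht1
    exact mem_filter.2 ⟨ht1.1, ht.2⟩
  obtain ⟨C, hC⟩ := primes (h := h) (z := z) hqd (fun t => hR0 _) h1 h2
  refine ⟨C, fun x X hX hx => le_trans ?_ (hC x X hX hx)⟩
  have e1 : ∀ t ∈ (Ioc x (x + X)).filter (fun t => f.eval t ≠ 0 ∧
        ∀ i, ((q i).eval t).natAbs.Prime),
      (nW a (f.eval t) : ℝ) ^ k = Rq a (f.eval t) ^ k := by
    intro t ht
    rw [mem_filter] at ht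
    unfold Rq
    rw [if_neg ht.2.1]
  rw [sum_congr rfl e1]
  refine sum_le_sum_of_subset_of_nonneg ?_ fun t _ _ => pow_nonneg (hR0 _) k
  intro t ht
  rw [mem_filter] at ht
  rw [mem_filter]
  refine ⟨?_, ht.2.2⟩
  unfold NX.II
  rw [mem_filter]
  refine ⟨ht.1, fun h2 => ht.2.1 ?_⟩
  rw [hval, h2]
  simp

include ha hn in
open Classical in
theorem jac (hK : 1 ≤ K) (f : ℤ[X]) {r : ℕ} {q : Fin r → ℤ[X]} (hq : ∀ i, Irreducible (q i))
    (hqa : ∀ i j, i ≠ j → ¬ Associated (q i) (q j)) (hqd : ∀ i, 0 < (q i).natDegree)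
    (k M : ℕ) :
    ∃ C : ℝ, ∀ (x : ℤ) (X : ℕ), 2 ≤ X → x.natAbs ≤ X ^ M →
      ∑ t ∈ (Ioc x (x + X)).filter (fun t => f.eval t ≠ 0 ∧
        ∀ i, ((q i).eval t).natAbs.Prime),
        (nW a (f.eval t) : ℝ) ^ k ≤ C * (X / (Real.log X) ^ r) := by
  obtain ⟨C, hC⟩ := jac_pos ha hn hK f hq hqa hqd (k + 1) M (by omega)
  refine ⟨C, fun x X hX hx => le_trans (sum_le_sum fun t ht => ?_) (hC x X hX hx)⟩
  rw [mem_filter] at ht
  have h1 : (1 : ℝ) ≤ nW a (f.eval t) := by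
    rcases Rq_or ha hn (f.eval t) with h2 | h2
    · unfold Rq at h2
      rwa [if_neg ht.2.1] at h2
    · unfold Rq at h2
      rw [if_neg ht.2.1] at h2
      have := fin ha hn (f.eval t) ht.2.1
      have : Nonempty (MW2 (cur a (f.eval t)) × Sha2 (cur a (f.eval t)) ℤ) := nonempty2 _ _
      have h3 : 0 < nW a (f.eval t) := Nat.card_pos
      exact_mod_cast h3
  exact pow_le_pow_right₀ h1 (by omega)

end KA

end Run7.h69
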