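import Mathlib
import Pool.Agent.Run7.h69.QA1
import Pool.Agent.Run7.h69.KA3
import Pool.Agent.Run7.h69.LD4

/-!
# Moments of `2 ^ rank` in a family, over the `t` at which another polynomial has no small prime
factors, given the average of the local counts
-/

set_option autoImplicit false
set_option linter.unusedSectionVars false

namespace Run7.h69.QA

open Finset Polynomial
open Pool.Agent.W262.RK hiding lk ff s1 s2
open FM
open KA (Dat Rough bq SS bq_bd dvd_PP_sqrt log_pow_le)

variable {D G0 G1 Q : ℤ[X]} {z : ℕ}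

lemma GS_mul' (δ : ℝ) {s : ℕ} :
    GS D G0 G1 δ s * gm (bq (PQ D G0 G1) Q) s =
      ((1 / 2) ^ s.primeFactors.card *
        gm (fun p => 1 / ((p : ℝ) - (Q * PQ D G0 G1).natDegree)) s) *
        ∑ τ ∈ TS D G0 G1 s, (NL s (LT D G0 G1 (ex s τ)) : ℝ) ^ δ := by
  unfold GS
  rcases (TS D G0 G1 s).eq_empty_or_nonempty with h | ⟨τ, hτ⟩
  · rw [h, sum_empty]
    ring
  · have h1 : ∀ p ∈ s.primeFactors, (rho (PQ D G0 G1) p : ℝ) ≠ 0 := by
      intro p hp
      have h2 := ex_root hτ hp
      have h3 : (CN.Rt (PQ D G0 G1) p).card ≠ 0 := card_ne_zero_of_mem h2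
      rw [CN.card_Rt] at h3
      exact_mod_cast h3
    have h2 : (∏ p ∈ s.primeFactors, 1 / (2 * (rho (PQ D G0 G1) p : ℝ))) *
        gm (bq (PQ D G0 G1) Q) s = (1 / 2) ^ s.primeFactors.card *
        gm (fun p => 1 / ((p : ℝ) - (Q * PQ D G0 G1).natDegree)) s := by
      unfold gm
      rw [← prod_const, ← prod_mul_distrib, ← prod_mul_distrib]
      refine prod_congr rfl fun p hp => ?_
      have h3 := h1 p hp
      unfold bq
      field_simp
    rw [← h2]
    ring

/-- the moments -/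
theorem moments {δ C1 : ℝ} {g r : ℕ} (M : ℕ) (hδ0 : 0 ≤ δ) (hδ1 : δ ≤ 1)
    (hz : Gd (PQ D G0 G1) z) (hzF : Gd (Q * PQ D G0 G1) z) (hQ0 : Q ≠ 0) (hP0 : PQ D G0 G1 ≠ 0)
    (hM : Mer (Q * PQ D G0 G1) (g + r))
    (havg : ∀ y : ℕ, z < y → ∑ s ∈ (PP z y).divisors, GS D G0 G1 δ s * gm (br (PQ D G0 G1)) s ≤
      C1 * (Real.log y) ^ g) :
    ∃ (X0 : ℕ) (B : ℝ), ∀ (x : ℤ) (X : ℕ), x.natAbs ≤ X ^ M → X0 ≤ X →
      ∑ t ∈ SS (PQ D G0 G1) Q z x X, ((2 : ℝ) ^ Module.finrank ℤ
        (EAB ((D * G0).eval t) ((D * G1).eval t)).toAffine.Point) ^ δ ≤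
          B * (X / (Real.log X) ^ r) := by
  classical
  set f := PQ D G0 G1 with hf
  have hD : Dat f f Q z := ⟨hz, hz, hzF, dvd_rfl, fun p _ _ t ht _ => ht⟩
  have hQd : f.natDegree ≤ (Q * f).natDegree := by
    rw [natDegree_mul hQ0 hP0]
    omega
  have hz2 : 2 ≤ z := by have := hz.big; omega
  obtain ⟨C', hC'⟩ := KA.avg hD hQd (G := GS D G0 G1 δ) (A := 4) (by norm_num) (GS_nonneg δ)
    (fun y s e hse => subG hδ0 hδ1 hz hse) havg
  obtain ⟨C, K, y0, hC0, hK1, hcn⟩ := QA.count hz hzF hM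
  obtain ⟨c, L, hcL⟩ := RK.growth f
  -- the size of the values
  set L1 : ℕ := (M + 3) * L + 1 with hL1
  set y1 : ℕ := y0 + c + 3 with hy1
  have hval : ∀ (x : ℤ) (X : ℕ), x.natAbs ≤ X ^ M → y1 ≤ X → ∀ t ∈ Ioc x (x + X),
      (f.eval t).natAbs ≤ X ^ L1 := by
    intro x X hx hX t ht
    rw [mem_Ioc] at ht
    have hX2 : 2 ≤ X := by omega
    have h1 : t.natAbs + 1 ≤ x.natAbs + X + 1 := by omega
    have h2 : x.natAbs + X + 1 ≤ X ^ (M + 3) := by
      have h3 : X ^ (M + 3) = X ^ M * (X ^ 3) := pow_add _ _ _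
      have h4 : 1 ≤ X ^ M := Nat.one_le_pow _ _ (by omega)
      have h5 : X + 1 + 1 ≤ X ^ 3 := by nlinarith [Nat.mul_le_mul hX2 hX2, sq_nonneg (X - 2)]
      calc x.natAbs + X + 1 ≤ X ^ M * 1 + 1 * (X + 1) := by omega
        _ ≤ X ^ M * 1 + X ^ M * (X + 1) := Nat.add_le_add_left (Nat.mul_le_mul_right _ h4) _
        _ = X ^ M * (X + 1 + 1) := by ring
        _ ≤ X ^ M * X ^ 3 := Nat.mul_le_mul_left _ h5
        _ = _ := h3.symm
    calc (f.eval t).natAbs ≤ c * (t.natAbs + 1) ^ L := hcL t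
      _ ≤ X * (X ^ (M + 3)) ^ L :=
          Nat.mul_le_mul (by omega) (Nat.pow_le_pow_left (h1.trans h2) _)
      _ = X ^ L1 := by rw [hL1, ← pow_mul, pow_succ, mul_comm]
  have hdeg : (0 : ℝ) ≤ 2 * (f.natDegree : ℝ) := by positivity
  obtain ⟨X0, B, hB⟩ := NA.nt (Ω := ℤ) (I := ℤ) (F := fun t => f.eval t)
    (S := fun x X => SS f Q z x X) (N := fun X : ℕ => (X : ℝ) / (Real.log X) ^ r)
    (b := bq f Q) (bv := bq f Q) (r := ru f) (z := z) (G := GS D G0 G1 δ)
    (R := fun t => ((2 : ℝ) ^ Module.finrank ℤ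
      (EAB ((D * G0).eval t) ((D * G1).eval t)).toAffine.Point) ^ δ)
    (M := 2 * (f.natDegree : ℝ))
    (Q := fun x X => x.natAbs ≤ X ^ M ∧ y1 ≤ X) (A := 4) (C := C * 4 ^ (z + 2))
    (D := 4 ^ L1 * 4 ^ r) (C' := C') (g := g) (K := K + 2) (y0 := y1)
    hz2 hdeg (fun p hp hpz => bq_bd hD hp hpz) (fun p hp hpz => bq_bd hD hp hpz)
    (fun p hp hpz => by
      have h1 : (rho f p : ℝ) ≤ f.natDegree := by exact_mod_cast hz.few p hp hpz
      have hp0 : (0 : ℝ) < p := by exact_mod_cast hp.pos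
      refine ⟨NX.ru_nonneg f p, ?_⟩
      unfold ru
      rw [div_le_div_iff_of_pos_right hp0]
      have : (0 : ℝ) ≤ f.natDegree := Nat.cast_nonneg _
      linarith)
    (fun X => div_nonneg (Nat.cast_nonneg _) (pow_nonneg (Real.log_natCast_nonneg _) _))
    (GS_nonneg δ) (fun t => by positivity) (by norm_num) (by positivity)
    (one_le_mul_of_one_le_of_one_le (one_le_pow₀ (by norm_num)) (one_le_pow₀ (by norm_num)))
    (fun y s e hse => subG hδ0 hδ1 hz hse) hC' (by
      intro x X y Y k hQ hy0 hzy hyK hXk s v u hs hv hu hsvu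
      obtain ⟨hx, hX⟩ := hQ
      have hy00 : y0 ≤ y := by omega
      have hy3 : 3 ≤ y := by omega
      have hyKc : y ^ K ≤ X := le_trans (Nat.pow_le_pow_right (by omega) (by omega)) hyK
      have hy2 : y ^ 2 ≤ X := le_trans (Nat.pow_le_pow_right (by omega) (by omega)) hyK
      have hysq : y ≤ Nat.sqrt X := Nat.le_sqrt'.2 hy2
      have hyX : y ≤ X := hysq.trans (Nat.sqrt_le_self X)
      have hu' : u ∣ PP y (Nat.sqrt X) := by
        apply dvd_PP_sqrt hu
        have h1 : 1 ≤ s * v := Nat.mul_pos (NX.dpos hs) (NX.dpos hv)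
        have hu1 := NX.dpos hu
        calc u ^ 2 ≤ (s * v * u) ^ 2 := Nat.pow_le_pow_left (Nat.le_mul_of_pos_left u h1) 2
          _ ≤ (s * v * u) ^ 8 := Nat.pow_le_pow_right (Nat.mul_pos h1 hu1) (by norm_num)
          _ ≤ X := hsvu
      have hs0 : s ≠ 0 := Nat.one_le_iff_ne_zero.1 (NX.dpos hs)
      set S := (SS f Q z x X).filter (fun t : ℤ => NA.T1 z y (f.eval t) = s ∧
        NA.T2 z y (f.eval t) = v ∧ (u : ℤ) ∣ f.eval t) with hS
      set Gt : (s.primeFactors → ℕ × Bool) → ℝ :=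
        fun τ => (NL s (LT D G0 G1 (ex s τ)) : ℝ) ^ δ with hG
      have hG0 : ∀ τ, 0 ≤ Gt τ := fun τ => by rw [hG]; positivity
      set tt : ℤ → (s.primeFactors → ℕ × Bool) := fun t p => ty f t s p.1 with htt
      have hex : ∀ t, NL s (LT D G0 G1 (ex s (tt t))) = NL s (LT D G0 G1 (ty f t s)) := by
        intro t
        apply LT_congr
        intro p hp
        unfold ex
        rw [dif_pos hp]
      have h1 : ∀ t ∈ S, ((2 : ℝ) ^ Module.finrank ℤ
          (EAB ((D * G0).eval t) ((D * G1).eval t)).toAffine.Point) ^ δ ≤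
          4 ^ (z + 2) * (4 ^ L1) ^ k * 4 ^ v.primeFactors.card * Gt (tt t) := by
        intro t ht
        rw [hS, mem_filter] at ht
        obtain ⟨ht1, hts, htv, _⟩ := ht
        unfold SS at ht1
        rw [mem_filter] at ht1
        have hN : (f.eval t).natAbs < (y + 1) ^ (k * L1) := by
          calc (f.eval t).natAbs ≤ X ^ L1 := hval x X hx hX t ht1.1
            _ < ((y + 1) ^ k) ^ L1 := Nat.pow_lt_pow_left hXk (by omega)
            _ = _ := by rw [← pow_mul]
        have hr := rank hz (t := t) (y := y) (N := k * L1) (by omega) ht1.2.1 hN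
        have hts' : t1 f z y t = s := hts
        have htv' : t2 f z y t = v := htv
        rw [← hf, hts', htv'] at hr
        have hr' : (2 : ℝ) ^ Module.finrank ℤ
            (EAB ((D * G0).eval t) ((D * G1).eval t)).toAffine.Point ≤
            4 ^ (z + 2) * 4 ^ (k * L1) * 4 ^ (v.primeFactors.card) *
              (NL s (LT D G0 G1 (ty f t s)) : ℝ) := by exact_mod_cast hr
        have h2 : ∀ n : ℕ, ((4 : ℝ) ^ n) ^ δ ≤ 4 ^ n := by
          intro n
          calc ((4 : ℝ) ^ n) ^ δ ≤ ((4 : ℝ) ^ n) ^ (1 : ℝ) :=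
                Real.rpow_le_rpow_of_exponent_le (one_le_pow₀ (by norm_num)) hδ1
            _ = _ := Real.rpow_one _
        refine (Real.rpow_le_rpow (by positivity) hr' hδ0).trans ?_
        rw [← pow_add, ← pow_add, Real.mul_rpow (by positivity) (Nat.cast_nonneg _)]
        rw [hG]
        simp only
        rw [hex, ← pow_mul, mul_comm L1 k, ← pow_add, ← pow_add]
        exact mul_le_mul_of_nonneg_right (h2 _) (by positivity)
      have hneg : ∀ t ∈ S, tt t ∈ TS D G0 G1 s := by
        intro t ht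
        rw [hS, mem_filter] at ht
        have hts' : t1 f z y t = s := ht.2.1
        unfold TS
        rw [Fintype.mem_piFinset]
        rintro ⟨p, hp⟩
        unfold Ty
        rw [mem_product]
        refine ⟨?_, mem_univ _⟩
        have hpp := Nat.prime_of_mem_primeFactors hp
        have h3 := Nat.dvd_of_mem_primeFactors hp
        rw [← hts'] at h3
        exact CN.mem_Rt hpp (RK.t1_pf hpp h3).2.1
      have h2 : ∑ t ∈ S, Gt (tt t) = ∑ τ ∈ TS D G0 G1 s,
            ((S.filter (fun t : ℤ => tt t = τ)).card : ℝ) * Gt τ := by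
        rw [← sum_fiberwise_of_maps_to hneg]
        refine sum_congr rfl fun E _ => ?_
        rw [← nsmul_eq_mul, ← sum_const]
        refine sum_congr rfl fun t ht => ?_
        rw [(mem_filter.1 ht).2]
      have hv' : v ∈ (PP z y).divisors := Nat.mem_divisors.2 ⟨hv, PP_ne_zero z y⟩
      have hs' : s ∈ (PP z y).divisors := Nat.mem_divisors.2 ⟨hs, PP_ne_zero z y⟩
      have hbv : 0 ≤ gm (bq f Q) v := AT.gm_nonneg (fun p hp hpz => (bq_bd hD hp hpz).1) hv'
      have hbi : 0 ≤ gm (fun p => 1 / ((p : ℝ) - (Q * f).natDegree)) s :=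
        AT.gm_nonneg (fun p hp hpz => by
          have h1 := hzF.big
          have h3 : ((Q * f).natDegree : ℝ) ≤ p := by exact_mod_cast (by omega)
          exact div_nonneg zero_le_one (by linarith)) hs'
      have hru : 0 ≤ gm (ru f) u := NX.gmr_nonneg f u
      have hly : 0 < Real.log y := Real.log_pos (by exact_mod_cast (by omega : 1 < y))
      set W : ℝ := C * X * (1 / 2) ^ s.primeFactors.card *
        gm (fun p => 1 / ((p : ℝ) - (Q * f).natDegree)) s *
        (gm (bq f Q) v / v) * gm (ru f) u / (Real.log y) ^ g with hW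
      have hW0 : 0 ≤ W := by positivity
      set Q' : ℝ := C * X * (1 / 2) ^ s.primeFactors.card *
        gm (fun p => 1 / ((p : ℝ) - (Q * f).natDegree)) s *
        (gm (bq f Q) v / v) * gm (ru f) u / (Real.log y) ^ (g + r) with hQ'
      have hQW : Q' ≤ W * ((4 ^ r) ^ k * (1 / (Real.log X) ^ r)) := by
        have e1 : Q' = W * (1 / (Real.log y) ^ r) := by
          rw [hQ', hW, pow_add]
          field_simp
        rw [e1]
        exact mul_le_mul_of_nonneg_left (log_pow_le hy3 hyX hXk) hW0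
      have h3 : ∀ τ ∈ TS D G0 G1 s,
          ((S.filter (fun t : ℤ => tt t = τ)).card : ℝ) * Gt τ ≤ Q' * Gt τ := by
        intro τ _
        refine mul_le_mul_of_nonneg_right ?_ (hG0 τ)
        refine le_trans ?_ (hcn x X y (Nat.sqrt X) hy00 hzy hysq hyKc s v u hs hv hu' hsvu
          (s.primeFactors.filter (fun p => (ex s τ p).2 = true)) (fun p => (ex s τ p).1))
        have h4 : S.filter (fun t : ℤ => tt t = τ) ⊆
            (Ioc x (x + X)).filter (fun t : ℤ => Rough Q z (Nat.sqrt X) t ∧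
              (t1 f z y t = s ∧ t2 f z y t = v ∧
              (u : ℤ) ∣ f.eval t ∧
              ng f t s = s.primeFactors.filter (fun p => (ex s τ p).2 = true)) ∧
              ∀ p ∈ s.primeFactors, (t % (p : ℤ)).toNat = (ex s τ p).1) := by
          intro t ht
          rw [mem_filter, hS, mem_filter] at ht
          unfold SS at ht
          rw [mem_filter] at ht
          obtain ⟨⟨⟨h5, h6, h6'⟩, h7, h8, h9⟩, h10⟩ := ht
          have h11 : ∀ p ∈ s.primeFactors, ex s τ p = ty f t s p := by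
            intro p hp
            unfold ex
            rw [dif_pos hp, ← h10]
          rw [mem_filter]
          refine ⟨h5, h6', ⟨h7, h8, h9, ?_⟩, fun p hp => ?_⟩
          · ext p
            rw [mem_filter]
            constructor
            · intro hp
              have hp1 : p ∈ s.primeFactors := by
                unfold ng at hp
                exact (mem_filter.1 hp).1
              refine ⟨hp1, ?_⟩
              rw [h11 p hp1]
              unfold ty
              simpa using hp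
            · rintro ⟨hp1, hp2⟩
              rw [h11 p hp1] at hp2
              unfold ty at hp2
              simpa using hp2
          · rw [h11 p hp]
            rfl
        exact_mod_cast card_le_card h4
      have hGs : 0 ≤ ∑ τ ∈ TS D G0 G1 s, Gt τ := sum_nonneg fun τ _ => hG0 τ
      calc ∑ t ∈ S, ((2 : ℝ) ^ Module.finrank ℤ
              (EAB ((D * G0).eval t) ((D * G1).eval t)).toAffine.Point) ^ δ
          ≤ ∑ t ∈ S, 4 ^ (z + 2) * (4 ^ L1) ^ k * 4 ^ v.primeFactors.card * Gt (tt t) :=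
            sum_le_sum h1
        _ = 4 ^ (z + 2) * (4 ^ L1) ^ k * 4 ^ v.primeFactors.card *
              ∑ τ ∈ TS D G0 G1 s,
                ((S.filter (fun t : ℤ => tt t = τ)).card : ℝ) * Gt τ := by
            rw [← mul_sum, h2]
        _ ≤ 4 ^ (z + 2) * (4 ^ L1) ^ k * 4 ^ v.primeFactors.card *
              ∑ τ ∈ TS D G0 G1 s, Q' * Gt τ :=
            mul_le_mul_of_nonneg_left (sum_le_sum h3) (by positivity)
        _ = 4 ^ (z + 2) * (4 ^ L1) ^ k * 4 ^ v.primeFactors.card *
              (Q' * ∑ τ ∈ TS D G0 G1 s, Gt τ) := by rw [← mul_sum]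
        _ ≤ 4 ^ (z + 2) * (4 ^ L1) ^ k * 4 ^ v.primeFactors.card *
              ((W * ((4 ^ r) ^ k * (1 / (Real.log X) ^ r))) *
                ∑ τ ∈ TS D G0 G1 s, Gt τ) :=
            mul_le_mul_of_nonneg_left (mul_le_mul_of_nonneg_right hQW hGs) (by positivity)
        _ = _ := by
            have e1 := GS_mul' (D := D) (G0 := G0) (G1 := G1) (Q := Q) δ (s := s)
            have e2 : NA.bV (bq f Q) 4 v = 4 ^ v.primeFactors.card * (gm (bq f Q) v / v) := rfl
            rw [← hf] at e1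
            rw [e1, e2, hW, mul_pow (4 ^ L1) (4 ^ r) k]
            ring)
  refine ⟨X0 + y1, B, fun x X hx hX => ?_⟩
  exact hB x X ⟨hx, by omega⟩ (by omega)

end Run7.h69.QA
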