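import Mathlib
import Pool.Agent.Run7.h69.QA2
import Pool.Agent.Run7.h69.FZ
import Pool.Agent.Run7.h69.KA4

/-!
# The moments over rough values for given data
-/

set_option autoImplicit false
set_option linter.unusedSectionVars false

namespace Run7.h69.QA

open Finset Polynomial
open Pool.Agent.W262.RK hiding lk ff s1 s2
open FM
open PK (xs TX MX cnt qq SqQ)
open UniqueFactorizationMonoid
open KA (Dat Rough bq SS)

variable {D G0 G1 : ℤ[X]} {z : ℕ}

section alg

variable {r : ℕ} {q : Fin r → ℤ[X]} (hq : ∀ i, Irreducible (q i))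
  (hqa : ∀ i j, i ≠ j → ¬ Associated (q i) (q j)) {f : ℤ[X]} (hqf : ∀ i, ¬ q i ∣ f)

include hq hqa hqf in
lemma ndv {I : Finset (Fin r)} {i : Fin r} (hi : i ∉ I) : ¬ q i ∣ (∏ k ∈ I, q k) * f := by
  classical
  intro h
  have hpr := (hq i).prime
  rcases hpr.dvd_or_dvd h with h | h
  · obtain ⟨j, hj, hjd⟩ := hpr.exists_mem_finset_dvd h
    have hij : i ≠ j := by
      rintro rfl
      exact hi hj
    exact hqa i j hij ((hq i).associated_of_dvd (hq j) hjd)
  · exact hqf i h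

include hq hqa hqf in
lemma sepP (hf : (f.map (Int.castRingHom ℚ)).Separable) (I : Finset (Fin r)) :
    (((∏ i ∈ I, q i) * f).map (Int.castRingHom ℚ)).Separable := by
  classical
  induction I using Finset.induction_on with
  | empty => simpa using hf
  | insert i I hi ih =>
    have e : (∏ k ∈ insert i I, q k) * f = q i * ((∏ k ∈ I, q k) * f) := by
      rw [prod_insert hi]; ring
    rw [e, Polynomial.map_mul]
    exact (UT.irr_sep (q i) (hq i)).mul ih (UT.irr_cop (q i) _ (hq i) (ndv hq hqa hqf hi))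

include hq hqa hqf in
lemma merP (hqd : ∀ i, 0 < (q i).natDegree) {g : ℕ} (hM : Mer f g) (I : Finset (Fin r)) :
    ∃ n : ℕ, I.card ≤ n ∧ Mer ((∏ i ∈ I, q i) * f) (g + n) := by
  classical
  induction I using Finset.induction_on with
  | empty => exact ⟨0, by simp, by simpa using hM⟩
  | insert i I hi ih =>
    obtain ⟨n, hn, hMn⟩ := ih
    have e : (∏ k ∈ insert i I, q k) * f = q i * ((∏ k ∈ I, q k) * f) := by
      rw [prod_insert hi]; ring
    have hcop := UT.irr_cop (q i) _ (hq i) (ndv hq hqa hqf hi)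
    obtain ⟨u, v, N, hN, huv⟩ := UT.bez hcop
    obtain ⟨g', z0', hg1', -, hM', -⟩ := UT.irr (q i) (hq i)
    refine ⟨g' + n, ?_, ?_⟩
    · rw [card_insert_of_notMem hi]
      have := hg1' (hqd i)
      omega
    · rw [e, show g + (g' + n) = g' + (g + n) by ring]
      exact UT.mer_add hM' hMn (p0 := N.natAbs) fun p hp hpN => UT.rho_add hN huv hp hpN

end alg

/-- **the analytic data exist** -/
theorem exists_fam (h : Cop D G0 G1) (z00 : ℕ) : ∃ z M : ℕ, z00 ≤ z ∧
    Fam D G0 G1 z M (fun c => cnt (GG D G0 G1 c) (fun _ => True))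
      (fun c => if c = 3 then 0 else cnt (GG D G0 G1 c) (SqQ (KP D G0 G1 c 0))) := by
  classical
  set n : Fin 4 → ℕ := fun c => cnt (GG D G0 G1 c) (fun _ => True) with hn
  have hS : ∀ i : Fin 4 × (Bool × Bool) × (Bool × Bool), ∃ z0 : ℕ, ∀ z, z0 ≤ z →
      TX (GG D G0 G1 i.1) (kcP D G0 G1 i.1 i.2.1 i.2.2) z ∧
        MX (GG D G0 G1 i.1) (kcP D G0 G1 i.1 i.2.1 i.2.2)
          (cnt (GG D G0 G1 i.1) (SqQ (kcP D G0 G1 i.1 i.2.1 i.2.2))) z := fun i =>
    PK.sums _ _ (h.sq i.1) (h.ne i.1) (cop_kcP h i.1 i.2.1 i.2.2)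
  choose z0 hz0 using hS
  have hsep : ((PQ D G0 G1).map (Int.castRingHom ℚ)).Separable :=
    (PerfectField.separable_iff_squarefree).2 (sq_PQ h)
  obtain ⟨z1, hz1⟩ := UT.good (PQ D G0 G1) (ne_PQ h) hsep
  have hK : ∀ c : Fin 4, ∃ k : ℕ, n c = 0 → ∀ p : ℕ, k < p → rho (GG D G0 G1 c) p = 0 := by
    intro c
    by_cases h0 : n c = 0
    · obtain ⟨k, hk, hk2⟩ := cnt_zero (h.ne c) h0
      refine ⟨k.natAbs, fun _ p hp => ?_⟩
      rw [hk2]
      exact UT.rho_C hk hp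
    · exact ⟨0, fun h1 => absurd h1 h0⟩
  choose k hk using hK
  set M : ℕ := 1 + 2 * (PQ D G0 G1).natDegree + 2 * (n 0 + n 1 + n 2 + n 3) with hM
  set z : ℕ := 16 * M + z1 + ∑ i, z0 i + ∑ c, k c + z00 with hz
  have hz0' : ∀ i, z0 i ≤ z := by
    intro i
    have := single_le_sum (f := z0) (fun _ _ => Nat.zero_le _) (mem_univ i)
    omega
  have hk' : ∀ c, k c ≤ z := by
    intro c
    have := single_le_sum (f := k) (fun _ _ => Nat.zero_le _) (mem_univ c)
    omega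
  have hgd := hz1 z (by omega)
  have hone : ∀ c, kcP D G0 G1 c (false, false) (false, false) = 1 := fun c => by
    unfold kcP
    rw [if_pos (Or.inl rfl)]
  have hm1 : ∀ c, MX (GG D G0 G1 c) 1 (n c) z := by
    intro c
    have h1 := (hz0 (c, (false, false), (false, false)) z (hz0' _)).2
    simp only [hone, cnt_one] at h1
    exact h1
  refine ⟨z, M, by omega, ⟨hgd, mer_of hgd hm1, by omega, by omega, by omega, by omega,
    fun c v x => (hz0 (c, v, x) z (hz0' _)).1, hm1, fun c hc => ?_,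
    fun c h0 p _ hp => hk c h0 p (lt_of_le_of_lt (hk' c) hp)⟩⟩
  have h1 := (hz0 (c, (true, true), (true, true)) z (hz0' _)).2
  have h2 : kcP D G0 G1 c (true, true) (true, true) = KP D G0 G1 c 0 := by
    unfold kcP
    rw [if_neg (by decide), if_neg hc]
  simp only [h2] at h1
  rw [if_neg hc]
  exact h1


/-- the moments for given data -/
theorem fam_moments (h : Cop D G0 G1) {n m : Fin 4 → ℕ}
    (hn : n = fun c => cnt (GG D G0 G1 c) (fun _ => True))
    (hm : m = fun c => if c = 3 then 0 else cnt (GG D G0 G1 c) (SqQ (KP D G0 G1 c 0)))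
    (hpos : ∀ c : Fin 4, c ≠ 3 → n c < n 0 + n 1 + n 2 + n 3) {δ : ℝ} (h0 : 0 < δ) (h1 : δ ≤ 1)
    (hcond : ∀ c : Fin 4, c ≠ 3 →
      (2 : ℝ) ^ δ * (n c + m c) ≤ 2 * ((n 0 : ℝ) + n 1 + n 2 - n c))
    {r : ℕ} {q : Fin r → ℤ[X]} (hq : ∀ i, Irreducible (q i))
    (hqa : ∀ i j, i ≠ j → ¬ Associated (q i) (q j)) (hqd : ∀ i, 0 < (q i).natDegree)
    (hqf : ∀ i, ¬ q i ∣ PQ D G0 G1) (L : ℕ) :
    ∃ (z X0 : ℕ) (B : ℝ), 0 ≤ B ∧ Gd (PQ D G0 G1) z ∧
      ∀ (x : ℤ) (X : ℕ), x.natAbs ≤ X ^ L → X0 ≤ X →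
      ∑ t ∈ SS (PQ D G0 G1) (∏ i, q i) z x X, ((2 : ℝ) ^ Module.finrank ℤ
        (EAB ((D * G0).eval t) ((D * G1).eval t)).toAffine.Point) ^ δ ≤
          B * (X / (Real.log X) ^ r) := by
  classical
  have hP0 := ne_PQ h
  have hsep : ((PQ D G0 G1).map (Int.castRingHom ℚ)).Separable :=
    (PerfectField.separable_iff_squarefree).2 (sq_PQ h)
  have hQ0 : (∏ i, q i) ≠ 0 := prod_ne_zero_iff.2 fun i _ => (hq i).ne_zero
  obtain ⟨z1, hz1⟩ := UT.good ((∏ i, q i) * PQ D G0 G1) (mul_ne_zero hQ0 hP0)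
    (sepP hq hqa hqf hsep univ)
  obtain ⟨z, M, hzz, F⟩ := exists_fam h z1
  rw [← hn, ← hm] at F
  have hmn : ∀ c, m c ≤ n c := by
    intro c
    rw [hm, hn]
    simp only
    split_ifs
    · exact Nat.zero_le _
    · exact cnt_mono _ fun _ _ => trivial
  obtain ⟨C', hC'⟩ := avg F hmn hpos h0 h1 (fun c hc => cond_of h0 hc (hcond c hc))
  obtain ⟨n', hn', hM'⟩ := merP hq hqa hqf hqd F.mer univ
  rw [card_univ, Fintype.card_fin] at hn'
  obtain ⟨X0, B, hB⟩ := moments L h0.le h1 F.gd (hz1 z hzz) hQ0 hP0 hM' hC'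
  refine ⟨z, X0 + 3, |B|, abs_nonneg _, F.gd, fun x X hx hX => ?_⟩
  have hXr : (3 : ℝ) ≤ X := by exact_mod_cast (by omega : 3 ≤ X)
  have hl1 : 1 ≤ Real.log X := by
    rw [Real.le_log_iff_exp_le (by linarith)]
    have := Real.exp_one_lt_d9
    linarith
  refine (hB x X hx (by omega)).trans ?_
  calc B * (X / (Real.log X) ^ n') ≤ |B| * (X / (Real.log X) ^ n') :=
        mul_le_mul_of_nonneg_right (le_abs_self B) (by positivity)
    _ ≤ |B| * (X / (Real.log X) ^ r) := by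
        refine mul_le_mul_of_nonneg_left ?_ (abs_nonneg _)
        exact div_le_div_of_nonneg_left (Nat.cast_nonneg _) (by positivity)
          (pow_le_pow_right₀ hl1 hn')

end Run7.h69.QA
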