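import Mathlib
import Pool.Agent.Run7.h69.QA3
import Pool.Agent.Run7.h69.KA6

/-!
# From rough values to prime values
-/

set_option autoImplicit false
set_option linter.unusedSectionVars false

namespace Run7.h69.QA

open Finset Polynomial
open Pool.Agent.W262.RK hiding lk ff s1 s2
open Pool.Agent.W655.RK (PS_prime PS_lt PS_le)
open FM
open KA (SS small_card log_pow_sqrt)

/-- `a ^ ω(n)` is at most a constant times `n` -/
lemma pow_omega (a : ℕ) (ha : 1 ≤ a) :
    ∃ C : ℕ, 1 ≤ C ∧ ∀ n : ℕ, n ≠ 0 → a ^ n.primeFactors.card ≤ C * n := by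
  classical
  refine ⟨a ^ a, Nat.one_le_pow _ _ ha, fun n hn => ?_⟩
  have h1 : n.primeFactors.card = (n.primeFactors.filter (fun p => p < a)).card +
      (n.primeFactors.filter (fun p => ¬ p < a)).card :=
    (card_filter_add_card_filter_not (s := n.primeFactors) (fun p => p < a)).symm
  rw [h1, pow_add]
  refine Nat.mul_le_mul ?_ ?_
  · refine Nat.pow_le_pow_right ha ?_
    calc _ ≤ (range a).card := card_le_card fun p hp => mem_range.2 (mem_filter.1 hp).2
      _ = a := card_range a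
  · calc a ^ (n.primeFactors.filter (fun p => ¬ p < a)).card =
        ∏ p ∈ n.primeFactors.filter (fun p => ¬ p < a), a := by rw [prod_const]
      _ ≤ ∏ p ∈ n.primeFactors.filter (fun p => ¬ p < a), p :=
          prod_le_prod' fun p hp => by have := (mem_filter.1 hp).2; omega
      _ ≤ n := Nat.le_of_dvd (Nat.pos_of_ne_zero hn)
          ((prod_dvd_prod_of_subset _ _ _ (filter_subset _ _)).trans (Nat.prod_primeFactors_dvd n))

/-- the trivial bound -/
lemma NL_le {m : ℕ} (hm : Squarefree m) (L : ℕ → Bool → Bool → Bool → Bool → Prop) :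
    NL m L ≤ 4 ^ m.primeFactors.card := by
  classical
  have h1 : m.divisors.card ≤ 2 ^ m.primeFactors.card := by
    rw [Nat.card_divisors hm.ne_zero, ← prod_const]
    refine prod_le_prod' fun p _ => ?_
    have := hm.natFactorization_le_one p
    omega
  unfold NL
  calc _ ≤ (m.divisors ×ˢ m.divisors).card := card_filter_le _ _
    _ = m.divisors.card * m.divisors.card := card_product _ _
    _ ≤ 2 ^ m.primeFactors.card * 2 ^ m.primeFactors.card := Nat.mul_le_mul h1 h1
    _ = _ := by rw [← mul_pow]; norm_num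

variable {D G0 G1 : ℤ[X]} {z : ℕ}

lemma crude1 (hz : Gd (PQ D G0 G1) z) {t : ℤ} (h0 : (PQ D G0 G1).eval t ≠ 0) :
    2 ^ Module.finrank ℤ (EAB ((D * G0).eval t) ((D * G1).eval t)).toAffine.Point ≤
      4 ^ (z + 3) * 16 ^ (((PQ D G0 G1).eval t).natAbs.primeFactors.card) := by
  set n := ((PQ D G0 G1).eval t).natAbs with hn
  have hn0 : n ≠ 0 := by rw [hn]; exact Int.natAbs_ne_zero.2 h0
  have hr := rank hz (t := t) (y := n + 1) (N := 1) (by omega) h0 (by rw [pow_one]; omega)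
  have hd1 : t1 (PQ D G0 G1) z (n + 1) t ∣ PP z (n + 1) := NX.t1_dvd z (n + 1) t
  have hsq := (PP_squarefree z (n + 1)).squarefree_of_dvd hd1
  have h1 : (t1 (PQ D G0 G1) z (n + 1) t).primeFactors ⊆ n.primeFactors := by
    intro p hp
    have hpp := Nat.prime_of_mem_primeFactors hp
    have h2 := (RK.t1_pf hpp (Nat.dvd_of_mem_primeFactors hp)).2.1
    exact Nat.mem_primeFactors.2 ⟨hpp, by rw [hn]; exact Int.natCast_dvd.1 h2, hn0⟩
  have h2 : (t2 (PQ D G0 G1) z (n + 1) t).primeFactors ⊆ n.primeFactors := by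
    intro p hp
    have hpp := Nat.prime_of_mem_primeFactors hp
    have h3 := ((CN.dvd_t2 hpp).1 (Nat.dvd_of_mem_primeFactors hp)).2
    have h4 : (p : ℤ) ∣ (PQ D G0 G1).eval t := (dvd_pow_self (p : ℤ) two_ne_zero).trans h3
    exact Nat.mem_primeFactors.2 ⟨hpp, by rw [hn]; exact Int.natCast_dvd.1 h4, hn0⟩
  refine hr.trans ?_
  calc 4 ^ (z + 2) * 4 ^ 1 * 4 ^ ((t2 (PQ D G0 G1) z (n + 1) t).primeFactors.card) *
        NL (t1 (PQ D G0 G1) z (n + 1) t) (LT D G0 G1 (ty (PQ D G0 G1) t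
          (t1 (PQ D G0 G1) z (n + 1) t)))
      ≤ 4 ^ (z + 2) * 4 ^ 1 * 4 ^ n.primeFactors.card * 4 ^ n.primeFactors.card := by
        refine Nat.mul_le_mul (Nat.mul_le_mul_left _
          (Nat.pow_le_pow_right (by norm_num) (card_le_card h2))) ?_
        exact (NL_le hsq _).trans (Nat.pow_le_pow_right (by norm_num) (card_le_card h1))
    _ = _ := by
        rw [show (16 : ℕ) = 4 * 4 by norm_num, mul_pow, pow_succ 4 (z + 2)]
        ring

/-- a crude bound for the rank -/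
lemma crude (hz : Gd (PQ D G0 G1) z) (M : ℕ) :
    ∃ C : ℝ, 1 ≤ C ∧ ∀ (x : ℤ) (X : ℕ), 1 ≤ X → x.natAbs ≤ X ^ M →
      ∀ t ∈ NX.II (PQ D G0 G1) x X, ((2 : ℝ) ^ Module.finrank ℤ
        (EAB ((D * G0).eval t) ((D * G1).eval t)).toAffine.Point) ^ 4 ≤ C * X := by
  obtain ⟨c, L, hcL⟩ := RK.growth (PQ D G0 G1)
  set e : ℕ := (M + 1) * L + 1 with he
  obtain ⟨C1, hC1, hom⟩ := pow_omega ((16 ^ 4) ^ e) (Nat.one_le_pow _ _ (by norm_num))
  set K : ℕ := ((4 ^ (z + 3)) ^ 4) ^ e * C1 * (c * 3 ^ L) + 1 with hK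
  refine ⟨K, by exact_mod_cast (by omega : 1 ≤ K), fun x X hX hx t ht => ?_⟩
  unfold NX.II at ht
  rw [mem_filter, mem_Ioc] at ht
  obtain ⟨⟨ht1, ht2⟩, ht0⟩ := ht
  set n := ((PQ D G0 G1).eval t).natAbs with hn
  have hn0 : n ≠ 0 := by rw [hn]; exact Int.natAbs_ne_zero.2 ht0
  have h1 : t.natAbs + 1 ≤ 3 * X ^ (M + 1) := by
    have h3 : X ^ M ≤ X ^ (M + 1) := Nat.pow_le_pow_right hX (by omega)
    have h4 : X ^ 1 ≤ X ^ (M + 1) := Nat.pow_le_pow_right hX (by omega)
    have h5 : 1 ≤ X ^ (M + 1) := Nat.one_le_pow _ _ hX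
    rw [pow_one] at h4
    omega
  have h2 : n ≤ (c * 3 ^ L) * X ^ e := by
    calc n ≤ c * (t.natAbs + 1) ^ L := hcL t
      _ ≤ c * (3 * X ^ (M + 1)) ^ L := Nat.mul_le_mul_left _ (Nat.pow_le_pow_left h1 L)
      _ = (c * 3 ^ L) * X ^ ((M + 1) * L) := by rw [mul_pow, ← pow_mul]; ring
      _ ≤ (c * 3 ^ L) * X ^ e := Nat.mul_le_mul_left _ (Nat.pow_le_pow_right hX (by omega))
  set r := Module.finrank ℤ (EAB ((D * G0).eval t) ((D * G1).eval t)).toAffine.Point with hr
  have h3 : ((2 ^ r) ^ 4) ^ e ≤ (K * X) ^ e := by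
    calc ((2 ^ r) ^ 4) ^ e ≤ ((4 ^ (z + 3) * 16 ^ n.primeFactors.card) ^ 4) ^ e :=
          Nat.pow_le_pow_left (Nat.pow_le_pow_left (crude1 hz ht0) 4) e
      _ = ((4 ^ (z + 3)) ^ 4) ^ e * ((16 ^ 4) ^ e) ^ n.primeFactors.card := by
          rw [mul_pow, mul_pow]
          congr 1
          rw [← pow_mul, ← pow_mul, ← pow_mul, ← pow_mul]
          congr 1
          ring
      _ ≤ ((4 ^ (z + 3)) ^ 4) ^ e * (C1 * n) := Nat.mul_le_mul_left _ (hom n hn0)
      _ ≤ ((4 ^ (z + 3)) ^ 4) ^ e * (C1 * ((c * 3 ^ L) * X ^ e)) :=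
          Nat.mul_le_mul_left _ (Nat.mul_le_mul_left _ h2)
      _ = (((4 ^ (z + 3)) ^ 4) ^ e * C1 * (c * 3 ^ L)) * X ^ e := by ring
      _ ≤ K * X ^ e := Nat.mul_le_mul_right _ (by omega)
      _ ≤ K ^ e * X ^ e := Nat.mul_le_mul_right _ (Nat.le_self_pow (by omega) K)
      _ = _ := by rw [mul_pow]
  have h4 : (2 ^ r) ^ 4 ≤ K * X := (Nat.pow_le_pow_iff_left (by omega : e ≠ 0)).1 h3
  exact_mod_cast h4

section

variable {r : ℕ} {q : Fin r → ℤ[X]} {h : ℤ[X]}

open Classical in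
/-- from rough values to prime values -/
theorem primes (hqd : ∀ i, 0 < (q i).natDegree) {R : ℤ → ℝ} (hR : ∀ t, 0 ≤ R t) {M : ℕ}
    (h1 : ∃ (X0 : ℕ) (B : ℝ), 0 ≤ B ∧ ∀ (x : ℤ) (X : ℕ), x.natAbs ≤ X ^ M → X0 ≤ X →
      ∑ t ∈ SS h (∏ i, q i) z x X, R t ≤ B * (X / (Real.log X) ^ r))
    (h2 : ∃ C : ℝ, 1 ≤ C ∧ ∀ (x : ℤ) (X : ℕ), 1 ≤ X → x.natAbs ≤ X ^ M →
      ∀ t ∈ NX.II h x X, R t ^ 4 ≤ C * X) :
    ∃ C : ℝ, ∀ (x : ℤ) (X : ℕ), 2 ≤ X → x.natAbs ≤ X ^ M →
      ∑ t ∈ (NX.II h x X).filter (fun t => ∀ i, ((q i).eval t).natAbs.Prime), R t ≤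
        C * (X / (Real.log X) ^ r) := by
  obtain ⟨X0, B, hB0, hB⟩ := h1
  obtain ⟨C, hC1, hC⟩ := h2
  obtain ⟨c, hc0, hc⟩ := log_pow_sqrt r
  set D : ℕ := ∑ i, (q i).natDegree with hD
  set C4 : ℝ := (3 * D) ^ 4 * C * c ^ 2 + 1 with hC4
  have hC41 : 1 ≤ C4 := by
    rw [hC4]
    have : 0 ≤ (3 * (D : ℝ)) ^ 4 * C * c ^ 2 := by positivity
    linarith
  set L0 : ℝ := (Real.log X0 + 1) ^ r with hL0
  have hL00 : 0 ≤ L0 := pow_nonneg (by have := Real.log_natCast_nonneg X0; linarith) _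
  refine ⟨B + C4 + (C * X0) * L0, fun x X hX hx => ?_⟩
  have hXr : (2 : ℝ) ≤ X := by exact_mod_cast hX
  have hlX : 0 < Real.log X := Real.log_pos (by linarith)
  have hN0 : 0 ≤ X / (Real.log X) ^ r := by positivity
  set T := (NX.II h x X).filter (fun t => ∀ i, ((q i).eval t).natAbs.Prime) with hT
  have hTI : T ⊆ NX.II h x X := filter_subset _ _
  have hCX : 1 ≤ C * X := by nlinarith
  have hRle : ∀ t ∈ T, R t ≤ C * X := by
    intro t ht
    have h3 := hC x X (by omega) hx t (hTI ht)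
    by_contra hcon
    push Not at hcon
    have h4 : C * X < R t ^ 4 := by
      calc C * X < R t := hcon
        _ ≤ R t ^ 4 := le_self_pow₀ (by linarith) (by norm_num)
    linarith
  rcases Nat.lt_or_ge X X0 with hXX | hXX
  · have e1 : ∑ t ∈ T, R t ≤ (C * X0) * X := by
      have hcard : (T.card : ℝ) ≤ X := by
        have h3 : T.card ≤ X := by
          refine (card_le_card hTI).trans ?_
          unfold NX.II
          refine (card_filter_le _ _).trans ?_
          rw [Int.card_Ioc]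
          simp
        exact_mod_cast h3
      have hXX0 : (X : ℝ) ≤ X0 := by exact_mod_cast hXX.le
      calc ∑ t ∈ T, R t ≤ ∑ t ∈ T, C * X := sum_le_sum hRle
        _ = T.card * (C * X) := by rw [sum_const, nsmul_eq_mul]
        _ ≤ X * (C * X0) := mul_le_mul hcard (mul_le_mul_of_nonneg_left hXX0 (by linarith))
            (by linarith) (by linarith)
        _ = _ := by ring
    have e2 : (Real.log X) ^ r ≤ L0 := by
      apply pow_le_pow_left₀ hlX.le
      have : Real.log X ≤ Real.log X0 :=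
        Real.log_le_log (by linarith) (by exact_mod_cast hXX.le)
      linarith
    have e3 : (X : ℝ) ≤ L0 * (X / (Real.log X) ^ r) := by
      rw [mul_div_assoc', le_div_iff₀ (by positivity), mul_comm]
      exact mul_le_mul_of_nonneg_right e2 (by positivity)
    calc ∑ t ∈ T, R t ≤ (C * X0) * X := e1
      _ ≤ (C * X0) * (L0 * (X / (Real.log X) ^ r)) :=
          mul_le_mul_of_nonneg_left e3 (by positivity)
      _ = ((C * X0) * L0) * (X / (Real.log X) ^ r) := by ring
      _ ≤ _ := by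
          refine mul_le_mul_of_nonneg_right ?_ hN0
          linarith
  · set s := Nat.sqrt X with hs
    have hs1 : 1 ≤ s := Nat.le_sqrt'.2 (by omega)
    set Sm := T.filter (fun t => ∃ i, ((q i).eval t).natAbs ≤ s) with hSm
    have hcov : T ⊆ SS h (∏ i, q i) z x X ∪ Sm := by
      intro t ht
      rw [mem_union]
      by_cases hsm : ∃ i, ((q i).eval t).natAbs ≤ s
      · exact Or.inr (mem_filter.2 ⟨ht, hsm⟩)
      · left
        rw [hT, mem_filter] at ht
        have ht1 := ht.1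
        unfold NX.II at ht1
        rw [mem_filter] at ht1
        unfold SS
        rw [mem_filter]
        refine ⟨ht1.1, ht1.2, fun p hp hpd => hsm ?_⟩
        have hpp := PS_prime hp
        rw [eval_prod] at hpd
        obtain ⟨i, -, hi⟩ := ((Nat.prime_iff_prime_int.1 hpp).dvd_finsetProd_iff _).1 hpd
        refine ⟨i, ?_⟩
        have h3 := (Nat.prime_dvd_prime_iff_eq hpp (ht.2 i)).1 (Int.natCast_dvd.1 hi)
        rw [← h3]
        exact PS_le hp
    have e1 : ∑ t ∈ Sm, R t ≤ C4 * (X / (Real.log X) ^ r) := by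
      have hcard : (Sm.card : ℝ) ≤ 3 * D * √(X : ℝ) := by
        have h3 := small_card hqd Sm s fun t ht => (mem_filter.1 ht).2
        have h4 : Sm.card ≤ D * (3 * s) :=
          h3.trans (Nat.mul_le_mul_left _ (by omega))
        have h5 : (s : ℝ) ≤ √(X : ℝ) := by
          apply Real.le_sqrt_of_sq_le
          have : s ^ 2 ≤ X := Nat.sqrt_le' X
          exact_mod_cast this
        calc (Sm.card : ℝ) ≤ ((D * (3 * s) : ℕ) : ℝ) := by exact_mod_cast h4
          _ = 3 * D * s := by push_cast; ring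
          _ ≤ _ := mul_le_mul_of_nonneg_left h5 (by positivity)
      have hmax : (∑ t ∈ Sm, R t) ^ 4 ≤ (Sm.card : ℝ) ^ 4 * (C * X) := by
        rcases Sm.eq_empty_or_nonempty with he | hne
        · rw [he]
          simp
        · obtain ⟨t0, ht0, hmx⟩ := exists_max_image Sm R hne
          have h3 : ∑ t ∈ Sm, R t ≤ Sm.card * R t0 := by
            calc ∑ t ∈ Sm, R t ≤ ∑ _t ∈ Sm, R t0 := sum_le_sum hmx
              _ = _ := by rw [sum_const, nsmul_eq_mul]
          calc (∑ t ∈ Sm, R t) ^ 4 ≤ (Sm.card * R t0) ^ 4 :=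
                pow_le_pow_left₀ (sum_nonneg fun t _ => hR t) h3 4
            _ = (Sm.card : ℝ) ^ 4 * R t0 ^ 4 := by rw [mul_pow]
            _ ≤ _ := mul_le_mul_of_nonneg_left
                (hC x X (by omega) hx t0 (hTI (mem_filter.1 ht0).1)) (by positivity)
      have hw := Real.sq_sqrt (by positivity : (0 : ℝ) ≤ X)
      have hL := hc X (by omega)
      have hLp : 0 < (Real.log X) ^ r := by positivity
      have hL2 : ((Real.log X) ^ r) ^ 4 ≤ c ^ 2 * X := by
        calc ((Real.log X) ^ r) ^ 4 = (((Real.log X) ^ r) ^ 2) ^ 2 := by ring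
          _ ≤ (c * √(X : ℝ)) ^ 2 := pow_le_pow_left₀ (by positivity) hL 2
          _ = _ := by rw [mul_pow, hw]
      have hfin : (∑ t ∈ Sm, R t) ^ 4 ≤ (C4 * (X / (Real.log X) ^ r)) ^ 4 := by
        calc (∑ t ∈ Sm, R t) ^ 4 ≤ (Sm.card : ℝ) ^ 4 * (C * X) := hmax
          _ ≤ (3 * D * √(X : ℝ)) ^ 4 * (C * X) :=
              mul_le_mul_of_nonneg_right (pow_le_pow_left₀ (Nat.cast_nonneg _) hcard 4)
                (by linarith)
          _ = ((3 * D) ^ 4 * C) * X ^ 3 := by
              have : √(X : ℝ) ^ 4 = (X : ℝ) ^ 2 := by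
                calc √(X : ℝ) ^ 4 = (√(X : ℝ) ^ 2) ^ 2 := by ring
                  _ = _ := by rw [hw]
              rw [mul_pow (3 * (D : ℝ)), this]
              ring
          _ ≤ (C4 * (X / (Real.log X) ^ r)) ^ 4 := by
              rw [mul_pow C4, div_pow, mul_div_assoc', le_div_iff₀ (by positivity)]
              calc (3 * (D : ℝ)) ^ 4 * C * X ^ 3 * ((Real.log X) ^ r) ^ 4
                  ≤ (3 * (D : ℝ)) ^ 4 * C * X ^ 3 * (c ^ 2 * X) :=
                    mul_le_mul_of_nonneg_left hL2 (by positivity)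
                _ = ((3 * (D : ℝ)) ^ 4 * C * c ^ 2) * X ^ 4 := by ring
                _ ≤ C4 * X ^ 4 := by
                    refine mul_le_mul_of_nonneg_right ?_ (by positivity)
                    rw [hC4]
                    linarith
                _ ≤ C4 ^ 4 * X ^ 4 := by
                    refine mul_le_mul_of_nonneg_right ?_ (by positivity)
                    exact le_self_pow₀ hC41 (by norm_num)
      exact le_of_pow_le_pow_left₀ (by norm_num) (by positivity) hfin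
    calc ∑ t ∈ T, R t ≤ ∑ t ∈ SS h (∏ i, q i) z x X ∪ Sm, R t :=
          sum_le_sum_of_subset_of_nonneg hcov fun t _ _ => hR t
      _ ≤ ∑ t ∈ SS h (∏ i, q i) z x X, R t + ∑ t ∈ Sm, R t := by
          rw [← sum_union_inter]
          exact le_add_of_nonneg_right (sum_nonneg fun t _ => hR t)
      _ ≤ B * (X / (Real.log X) ^ r) + C4 * (X / (Real.log X) ^ r) :=
          add_le_add (hB x X hx hXX) e1
      _ = (B + C4) * (X / (Real.log X) ^ r) := by ring
      _ ≤ _ := by
          refine mul_le_mul_of_nonneg_right ?_ hN0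
          have : 0 ≤ (C * X0) * L0 := by positivity
          linarith

end

end Run7.h69.QA
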