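import Mathlib
import Pool.Agent.Run7.h69.QA4

/-!
# Moments of `2 ^ rank` in the families `y² = x (x - F₀(t)) (x - F₁(t))`, at the `t` with prime values
-/

set_option autoImplicit false
set_option linter.unusedSectionVars false

namespace Run7.h69.QA

open Finset Polynomial
open Pool.Agent.W262.RK hiding lk ff s1 s2
open PK (cnt qq SqQ)
open FM hiding fam_moments moments exists_fam
open UniqueFactorizationMonoid
open FZ (FF gam num exists_data rk JJ)

open Classical in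
/-- **the moments** -/
theorem main (F0 F1 : ℤ[X]) (hsq : ∀ c : Fin 3, Squarefree (qq (FF F0 F1 c))) {δ : ℝ}
    (h0 : 0 < δ) (h1 : δ ≤ 1)
    (hcond : ∀ c : Fin 3, (2 : ℝ) ^ δ * ((num F0 F1 c (fun _ => True) : ℝ) +
      num F0 F1 c (fun q => ∃ s : ℚ[X], q ∣ qq (gam F0 F1 c) - s ^ 2)) ≤
      2 * ((num F0 F1 (c + 1) (fun _ => True) : ℝ) + num F0 F1 (c + 2) (fun _ => True)))
    {r : ℕ} {q : Fin r → ℤ[X]} (hq : ∀ i, Irreducible (q i))
    (hqa : ∀ i j, i ≠ j → ¬ Associated (q i) (q j)) (hqd : ∀ i, 0 < (q i).natDegree)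
    (hqF : ∀ i c, ¬ q i ∣ FF F0 F1 c) (L : ℕ) :
    ∃ C : ℝ, ∀ (x : ℤ) (X : ℕ), 2 ≤ X → x.natAbs ≤ X ^ L →
      ∑ t ∈ (JJ F0 F1 x X).filter (fun t => ∀ i, ((q i).eval t).natAbs.Prime),
        ((2 : ℝ) ^ rk (F0.eval t) (F1.eval t)) ^ δ ≤ C * (X / (Real.log X) ^ r) := by
  obtain ⟨D, G0, G1, hF0, hF1, hCop, hnum⟩ := exists_data F0 F1 hsq
  set n : Fin 4 → ℕ := fun c => cnt (GG D G0 G1 c) (fun _ => True) with hn
  set m : Fin 4 → ℕ := fun c => if c = 3 then 0 else cnt (GG D G0 G1 c) (SqQ (KP D G0 G1 c 0))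
    with hm
  have hnn : ∀ t : ℤ, 0 ≤ ((2 : ℝ) ^ rk (F0.eval t) (F1.eval t)) ^ δ := fun t => by positivity
  have hJJ : ∀ x X, JJ F0 F1 x X ⊆ NX.II (PQ D G0 G1) x X := by
    intro x X t ht
    unfold JJ at ht
    unfold NX.II
    rw [mem_filter] at ht ⊢
    obtain ⟨h2, h3, h4, h5⟩ := ht
    refine ⟨h2, ?_⟩
    rw [hF0, eval_mul] at h3
    rw [hF1, eval_mul] at h4
    rw [hF0, hF1, eval_mul, eval_mul] at h5
    rw [PQ_eval, eval_sub]
    refine mul_ne_zero (left_ne_zero_of_mul h3) (mul_ne_zero (right_ne_zero_of_mul h3)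
      (mul_ne_zero (right_ne_zero_of_mul h4) (sub_ne_zero.2 fun h => h5 (by rw [h]))))
  have hqf : ∀ i, ¬ q i ∣ PQ D G0 G1 := by
    intro i hi
    have hpr := (hq i).prime
    have hF2 : F0 - F1 = D * (G0 - G1) := by rw [hF0, hF1]; ring
    have hP : PQ D G0 G1 ∣ F0 * (F1 * (F0 - F1)) := by
      rw [hF2, hF0, hF1]
      unfold PQ
      exact ⟨D * D, by ring⟩
    rcases hpr.dvd_or_dvd (hi.trans hP) with h2 | h2
    · exact hqF i 0 h2
    · rcases hpr.dvd_or_dvd h2 with h3 | h3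
      · exact hqF i 1 h3
      · exact hqF i 2 h3
  -- the numbers
  have e0 : (num F0 F1 0 (fun _ => True)) = n 0 := hnum 0 _
  have e1 : (num F0 F1 1 (fun _ => True)) = n 1 := hnum 1 _
  have e2 : (num F0 F1 2 (fun _ => True)) = n 2 := hnum 2 _
  have g0 : gam F0 F1 0 = KP D G0 G1 0 0 := by
    show -F1 = -(D * G1)
    rw [hF1]
  have g1 : gam F0 F1 1 = KP D G0 G1 1 0 := by
    show -F0 = -(D * G0)
    rw [hF0]
  have g2 : gam F0 F1 2 = KP D G0 G1 2 0 := by
    show F0 = D * G0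
    rw [hF0]
  have m0 : (num F0 F1 0 (fun q => ∃ s : ℚ[X], q ∣ qq (gam F0 F1 0) - s ^ 2)) = m 0 := by
    rw [hnum 0, g0]
    rfl
  have m1 : (num F0 F1 1 (fun q => ∃ s : ℚ[X], q ∣ qq (gam F0 F1 1) - s ^ 2)) = m 1 := by
    rw [hnum 1, g1]
    rfl
  have m2 : (num F0 F1 2 (fun q => ∃ s : ℚ[X], q ∣ qq (gam F0 F1 2) - s ^ 2)) = m 2 := by
    rw [hnum 2, g2]
    rfl
  have c0 := hcond 0
  have c1 := hcond 1
  have c2 := hcond 2
  rw [show (0 : Fin 3) + 1 = 1 from rfl, show (0 : Fin 3) + 2 = 2 from rfl, e0, e1, e2, m0] at c0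
  rw [show (1 : Fin 3) + 1 = 2 from rfl, show (1 : Fin 3) + 2 = 0 from rfl, e0, e1, e2, m1] at c1
  rw [show (2 : Fin 3) + 1 = 0 from rfl, show (2 : Fin 3) + 2 = 1 from rfl, e0, e1, e2, m2] at c2
  have hcond4 : ∀ c : Fin 4, c ≠ 3 →
      (2 : ℝ) ^ δ * (n c + m c) ≤ 2 * ((n 0 : ℝ) + n 1 + n 2 - n c) := by
    refine fin4 _ (fun _ => ?_) (fun _ => ?_) (fun _ => ?_) (fun h => absurd rfl h)
    · linarith
    · linarith
    · linarith
  have ht0 : (0 : ℝ) < (2 : ℝ) ^ δ := by positivity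
  have hnc : ∀ c : Fin 4, c ≠ 3 → (n 0 : ℝ) + n 1 + n 2 - n c = 0 → n c = 0 := by
    intro c hc h
    have h2 := hcond4 c hc
    rw [h, mul_zero] at h2
    have h3 : (0 : ℝ) ≤ n c := Nat.cast_nonneg _
    have h4 : (0 : ℝ) ≤ m c := Nat.cast_nonneg _
    have h5 : (n c : ℝ) + m c ≤ 0 := by
      by_contra hcon
      push Not at hcon
      have := mul_pos ht0 hcon
      linarith
    have h6 : (n c : ℝ) = 0 := by linarith
    exact_mod_cast h6
  rcases Nat.eq_zero_or_pos (n 0 + n 1 + n 2 + n 3) with hN | hN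
  · -- constant polynomials
    have hz : ∀ c, ∃ k : ℤ, GG D G0 G1 c = C k := by
      intro c
      have hc : n c = 0 := by
        revert c
        refine fin4 _ ?_ ?_ ?_ ?_ <;> omega
      obtain ⟨k, _, hk⟩ := cnt_zero (hCop.ne c) hc
      exact ⟨k, hk⟩
    obtain ⟨k0, hk0⟩ := hz 0
    obtain ⟨k1, hk1⟩ := hz 1
    obtain ⟨k3, hk3⟩ := hz 3
    rw [GG0] at hk0
    rw [GG1] at hk1
    rw [GG3] at hk3
    obtain ⟨C, hC⟩ := KA.jac (K := 2) (a := fun i : Fin 3 => ((i : ℕ) : ℤ))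
      (fun i j hij => by simpa [Fin.ext_iff] using hij) (by decide) (by norm_num) 1 hq hqa hqd 0 L
    refine ⟨((2 : ℝ) ^ rk (k3 * k0) (k3 * k1)) ^ δ * C, fun x X hX hx => ?_⟩
    have h2 : ∀ t ∈ (JJ F0 F1 x X).filter (fun t => ∀ i, ((q i).eval t).natAbs.Prime),
        ((2 : ℝ) ^ rk (F0.eval t) (F1.eval t)) ^ δ =
        ((2 : ℝ) ^ rk (k3 * k0) (k3 * k1)) ^ δ := by
      intro t _
      rw [hF0, hF1, hk0, hk1, hk3, eval_mul, eval_mul, eval_C, eval_C, eval_C]
    have h3 : (((JJ F0 F1 x X).filter (fun t => ∀ i, ((q i).eval t).natAbs.Prime)).card : ℝ) ≤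
        C * (X / (Real.log X) ^ r) := by
      refine le_trans ?_ (hC x X hX hx)
      simp only [pow_zero, sum_const, nsmul_eq_mul, mul_one]
      have h4 : (JJ F0 F1 x X).filter (fun t => ∀ i, ((q i).eval t).natAbs.Prime) ⊆
          (Ioc x (x + X)).filter (fun t => (1 : ℤ[X]).eval t ≠ 0 ∧
            ∀ i, ((q i).eval t).natAbs.Prime) := by
        intro t ht
        unfold JJ at ht
        rw [mem_filter, mem_filter] at ht
        rw [mem_filter]
        exact ⟨ht.1.1, by simp, ht.2⟩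
      exact_mod_cast card_le_card h4
    rw [sum_congr rfl h2, sum_const, nsmul_eq_mul, mul_comm, mul_assoc]
    exact mul_le_mul_of_nonneg_left h3 (by positivity)
  · have hpos : ∀ c : Fin 4, c ≠ 3 → n c < n 0 + n 1 + n 2 + n 3 := by
      intro c hc
      by_contra hcon
      push Not at hcon
      have hle : n c ≤ n 0 + n 1 + n 2 := by
        revert c
        refine fin4 _ ?_ ?_ ?_ ?_
        · intro _ _; omega
        · intro _ _; omega
        · intro _ _; omega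
        · intro h; exact absurd rfl h
      have h3 : n 3 = 0 := by omega
      have h4 : n 0 + n 1 + n 2 = n c := by omega
      have h5 : (n 0 : ℝ) + n 1 + n 2 - n c = 0 := by
        have : ((n 0 + n 1 + n 2 : ℕ) : ℝ) = n c := by exact_mod_cast h4
        push_cast at this
        linarith
      have h6 := hnc c hc h5
      omega
    obtain ⟨z, X0, B, hB0, hz, hB⟩ := fam_moments hCop hn hm hpos h0 h1 hcond4 hq hqa hqd hqf L
    obtain ⟨C0, hC0, hcr⟩ := crude hz L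
    obtain ⟨C, hC⟩ := primes (h := PQ D G0 G1) (M := L) (q := q) hqd
      (R := fun t => ((2 : ℝ) ^ Module.finrank ℤ
        (EAB ((D * G0).eval t) ((D * G1).eval t)).toAffine.Point) ^ δ)
      (fun t => by positivity) ⟨X0, B, hB0, hB⟩
      ⟨C0, hC0, fun x X hX hx t ht => le_trans (pow_le_pow_left₀ (by positivity) (by
          calc ((2 : ℝ) ^ Module.finrank ℤ
                (EAB ((D * G0).eval t) ((D * G1).eval t)).toAffine.Point) ^ δ
              ≤ ((2 : ℝ) ^ Module.finrank ℤ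
                (EAB ((D * G0).eval t) ((D * G1).eval t)).toAffine.Point) ^ (1 : ℝ) :=
                Real.rpow_le_rpow_of_exponent_le (one_le_pow₀ (by norm_num)) h1
            _ = _ := Real.rpow_one _) 4) (hcr x X hX hx t ht)⟩
    refine ⟨C, fun x X hX hx => le_trans ?_ (hC x X hX hx)⟩
    rw [← hF0, ← hF1]
    exact sum_le_sum_of_subset_of_nonneg (filter_subset_filter _ (hJJ x X)) fun t _ _ => hnn t

end Run7.h69.QA
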