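import Mathlib
import Pool.Agent.Run7.h69.RA1

/-!
# The local conditions of a homogeneous family
-/

set_option autoImplicit false
set_option linter.unusedSectionVars false

namespace Run7.h69.RA

open Finset Polynomial
open Pool.Agent.W262.RK hiding lk ff s1 s2
open FM hiding excl KP_ndvd locH xcl rank
open MA (dvd_scale)
open CN (Rt)

/-- equal up to the square of a unit modulo `p` -/
def Qs (p : ℕ) (a b : ℤ) : Prop := ∃ c : ℤ, ¬ (p : ℤ) ∣ c ∧ (p : ℤ) ∣ a - c ^ 2 * b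

lemma Qs.mul {p : ℕ} (hp : p.Prime) {a b a' b' : ℤ} (h : Qs p a b) (h' : Qs p a' b') :
    Qs p (a * a') (b * b') := by
  obtain ⟨c, hc, h1⟩ := h
  obtain ⟨c', hc', h1'⟩ := h'
  have hpi : Prime (p : ℤ) := Nat.prime_iff_prime_int.1 hp
  refine ⟨c * c', fun h => (hpi.dvd_or_dvd h).elim hc hc', ?_⟩
  have e : a * a' - (c * c') ^ 2 * (b * b') =
      (a - c ^ 2 * b) * a' + c ^ 2 * b * (a' - c' ^ 2 * b') := by ring
  rw [e]
  exact dvd_add (h1.mul_right _) (h1'.mul_left _)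

lemma Qs.neg {p : ℕ} {a b : ℤ} (h : Qs p a b) : Qs p (-a) (-b) := by
  obtain ⟨c, hc, h1⟩ := h
  refine ⟨c, hc, ?_⟩
  have e : -a - c ^ 2 * -b = -(a - c ^ 2 * b) := by ring
  rw [e, dvd_neg]
  exact h1

lemma sg0_eq {p : ℕ} (hp : p.Prime) {a b : ℤ} (h : Qs p a b) : sg0 p a = sg0 p b := by
  obtain ⟨c, hc, h1⟩ := h
  have hpi : Prime (p : ℤ) := Nat.prime_iff_prime_int.1 hp
  unfold sg0
  have h2 : jacobiSym a p = jacobiSym (c ^ 2 * b) p := jac_congr h1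
  have h3 : jacobiSym (c ^ 2) p = 1 := by
    apply jacobiSym.sq_one'
    rw [← Int.isCoprime_iff_gcd_eq_one]
    exact IsCoprime.symm ((Prime.coprime_iff_not_dvd hpi).2 hc)
  rw [h2, jacobiSym.mul_left, h3, one_mul]

/-- the local conditions depend on the constants up to squares -/
lemma LL_eq {p : ℕ} (hp : p.Prime) (c : Fin 4) {κ κ' : Fin 3 → ℤ} (neg : Bool)
    (h : ∀ k, Qs p (κ k) (κ' k)) : LL c κ neg p = LL c κ' neg p := by
  funext v w a b
  unfold LL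
  rw [sg0_eq hp (h 0), sg0_eq hp (h 1), sg0_eq hp ((h 0).mul hp (h 1)),
    sg0_eq hp ((h 0).mul hp (h 2)), sg0_eq hp (h 0).neg, sg0_eq hp (h 2).neg]

variable {D G0 G1 : ℤ[X]} {z : ℕ}

/-- the degrees are compatible -/
structure Deg (D G0 G1 : ℤ[X]) : Prop where
  d1 : G1.natDegree = G0.natDegree
  d2 : (G0 - G1).natDegree = G0.natDegree
  ev : Even (D.natDegree + G0.natDegree)

lemma scale_sub {A B : ℤ[X]} (h : B.natDegree = A.natDegree) (h2 : (A - B).natDegree = A.natDegree)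
    (w : ℤ) : (A - B).scaleRoots w = A.scaleRoots w - B.scaleRoots w := by
  ext n
  rw [coeff_sub, coeff_scaleRoots, coeff_scaleRoots, coeff_scaleRoots, h, h2, coeff_sub]
  ring

lemma scale_mul (A B : ℤ[X]) (w : ℤ) :
    (A * B).scaleRoots w = A.scaleRoots w * B.scaleRoots w := by
  exact mul_scaleRoots_of_noZeroDivisors A B w

lemma PQ_scale (hD : Deg D G0 G1) (w : ℤ) :
    PQ (D.scaleRoots w) (G0.scaleRoots w) (G1.scaleRoots w) = (PQ D G0 G1).scaleRoots w := by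
  unfold PQ
  rw [scale_mul, scale_mul, scale_mul, scale_sub hD.d1 hD.d2]

/-- the base residue -/
noncomputable def rs (p : ℕ) (w t : ℤ) : ℕ := ((t : ZMod p) * (w : ZMod p)⁻¹).val

lemma rs_cast {p : ℕ} (hp : p.Prime) (w t : ℤ) :
    (((rs p w t : ℕ) : ℤ) : ZMod p) = (t : ZMod p) * (w : ZMod p)⁻¹ := by
  have : Fact p.Prime := ⟨hp⟩
  unfold rs
  push_cast
  exact ZMod.natCast_zmod_val _

/-- divisibility at the base residue -/
lemma dvd_rs (f : ℤ[X]) {p : ℕ} (hp : p.Prime) {w : ℤ} (hw : ¬ (p : ℤ) ∣ w) (t : ℤ) :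
    (p : ℤ) ∣ (f.scaleRoots w).eval t ↔ (p : ℤ) ∣ f.eval ((rs p w t : ℕ) : ℤ) := by
  rw [dvd_scale f hp hw, SV.dvd_eval_iff, rs_cast hp]

/-- the value at the base residue -/
lemma val_rs (f : ℤ[X]) {p : ℕ} (hp : p.Prime) {w : ℤ} (hw : ¬ (p : ℤ) ∣ w) (t : ℤ) :
    (p : ℤ) ∣ (f.scaleRoots w).eval t - w ^ f.natDegree * f.eval ((rs p w t : ℕ) : ℤ) := by
  have : Fact p.Prime := ⟨hp⟩
  have hw0 : (w : ZMod p) ≠ 0 := by
    rw [Ne, ZMod.intCast_zmod_eq_zero_iff_dvd]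
    exact hw
  have h1 := scaleRoots_eval₂_mul (p := f) (Int.castRingHom (ZMod p))
    ((t : ZMod p) * (w : ZMod p)⁻¹) w
  have h2 : (Int.castRingHom (ZMod p)) w * ((t : ZMod p) * (w : ZMod p)⁻¹) = (t : ZMod p) := by
    show (w : ZMod p) * ((t : ZMod p) * (w : ZMod p)⁻¹) = (t : ZMod p)
    field_simp
  rw [h2] at h1
  rw [← ZMod.intCast_zmod_eq_zero_iff_dvd]
  have e1 : (((f.scaleRoots w).eval t : ℤ) : ZMod p) =
      eval₂ (Int.castRingHom (ZMod p)) (t : ZMod p) (f.scaleRoots w) := by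
    have := (Polynomial.hom_eval₂ (f.scaleRoots w) (RingHom.id ℤ) (Int.castRingHom (ZMod p)) t)
    simpa [eval₂_id] using this
  have e2 : ((f.eval ((rs p w t : ℕ) : ℤ) : ℤ) : ZMod p) =
      eval₂ (Int.castRingHom (ZMod p)) ((t : ZMod p) * (w : ZMod p)⁻¹) f := by
    rw [← rs_cast hp w t]
    have := (Polynomial.hom_eval₂ f (RingHom.id ℤ) (Int.castRingHom (ZMod p))
      ((rs p w t : ℕ) : ℤ))
    simpa [eval₂_id] using this
  push_cast
  rw [e1, e2, h1]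
  simp

end Run7.h69.RA
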