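import Mathlib
import Pool.Agent.Run7.h69.RA2

/-!
# The rank in a homogeneous family
-/

set_option autoImplicit false
set_option linter.unusedSectionVars false

namespace Run7.h69.RA

open Finset Polynomial
open Pool.Agent.W262.RK hiding lk ff s1 s2
open FM hiding excl KP_ndvd locH xcl rank
open MA (dvd_scale)
open CN (Rt)
open Pool.Agent.W125.RK2 (NL_congr)

variable {D G0 G1 : ℤ[X]} {z : ℕ}

lemma scale_neg (A : ℤ[X]) (w : ℤ) : (-A).scaleRoots w = -A.scaleRoots w := by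
  ext n
  rw [coeff_neg, coeff_scaleRoots, coeff_scaleRoots, natDegree_neg, coeff_neg]
  ring

lemma Qs_even (f : ℤ[X]) (hev : Even f.natDegree) {p : ℕ} (hp : p.Prime) {w : ℤ}
    (hw : ¬ (p : ℤ) ∣ w) (t : ℤ) :
    Qs p ((f.scaleRoots w).eval t) (f.eval ((rs p w t : ℕ) : ℤ)) := by
  obtain ⟨j, hj⟩ := hev
  have hpi : Prime (p : ℤ) := Nat.prime_iff_prime_int.1 hp
  refine ⟨w ^ j, fun h => hw (hpi.dvd_of_dvd_pow h), ?_⟩
  have h1 := val_rs f hp hw t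
  rwa [hj, pow_add, ← sq] at h1

/-- nonzero factors -/
structure Nz (D G0 G1 : ℤ[X]) : Prop where
  a : D ≠ 0
  b : G0 ≠ 0
  c : G1 ≠ 0
  d : G0 - G1 ≠ 0

lemma KP_scale (hD : Deg D G0 G1) (w : ℤ) (c : Fin 4) (k : Fin 3) :
    KP (D.scaleRoots w) (G0.scaleRoots w) (G1.scaleRoots w) c k =
      (KP D G0 G1 c k).scaleRoots w := by
  unfold KP
  split_ifs
  · rw [scale_neg, scale_mul]
  · rw [scale_neg, scale_mul]
  · rw [scale_mul]
  · rw [scale_mul, scale_sub hD.d1 hD.d2]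
  · rw [scale_mul, scale_sub hD.d1 hD.d2]
  · rw [scale_mul]

lemma KP_even (hD : Deg D G0 G1) (hn : Nz D G0 G1) (c : Fin 4) (k : Fin 3) :
    Even (KP D G0 G1 c k).natDegree := by
  have h1 := hD.ev
  have h2 := hD.d1
  have h3 := hD.d2
  unfold KP
  split_ifs
  · rw [natDegree_neg, natDegree_mul hn.a hn.c, h2]
    exact h1
  · rw [natDegree_neg, natDegree_mul hn.a hn.b]
    exact h1
  · rw [natDegree_mul hn.a hn.b]
    exact h1
  · rw [natDegree_mul hn.c hn.d, h2, h3]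
    exact ⟨_, rfl⟩
  · rw [natDegree_mul hn.b hn.d, h3]
    exact ⟨_, rfl⟩
  · rw [natDegree_mul hn.b hn.c, h2]
    exact ⟨_, rfl⟩

lemma cl_scale {p : ℕ} (hp : p.Prime) {w : ℤ} (hw : ¬ (p : ℤ) ∣ w) (t : ℤ) :
    cl (D.scaleRoots w) (G0.scaleRoots w) (G1.scaleRoots w) p t =
      cl D G0 G1 p ((rs p w t : ℕ) : ℤ) := by
  unfold cl
  simp only [dvd_rs _ hp hw]

/-- the base type -/
noncomputable def tyW (P : ℤ[X]) (w t : ℤ) (s p : ℕ) : ℕ × Bool :=
  (rs p w t, decide (p ∈ ng (P.scaleRoots w) t s))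

lemma rs_congr {p : ℕ} {w t t' : ℤ} (h : (p : ℤ) ∣ t - t') : rs p w t = rs p w t' := by
  unfold rs
  have h1 : (t : ZMod p) = (t' : ZMod p) := by
    rw [← sub_eq_zero, ← Int.cast_sub, ZMod.intCast_zmod_eq_zero_iff_dvd]
    exact h
  rw [h1]

lemma LT_scale (hD : Deg D G0 G1) (hn : Nz D G0 G1) {p : ℕ} (hp : p.Prime) {w : ℤ}
    (hw : ¬ (p : ℤ) ∣ w) (t : ℤ) (s : ℕ) :
    FM.LT (D.scaleRoots w) (G0.scaleRoots w) (G1.scaleRoots w)
      (ty ((PQ D G0 G1).scaleRoots w) t s) p = FM.LT D G0 G1 (tyW (PQ D G0 G1) w t s) p := by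
  unfold FM.LT ty tyW
  simp only
  have hr : rs p w (((t % (p : ℤ)).toNat : ℕ) : ℤ) = rs p w t :=
    rs_congr (by rw [← neg_sub, dvd_neg]; exact emod_nat hp t)
  rw [cl_scale hp hw, hr]
  apply LL_eq hp
  intro k
  rw [KP_scale hD]
  have h1 := Qs_even (KP D G0 G1 (cl D G0 G1 p ((rs p w t : ℕ) : ℤ)) k) (KP_even hD hn _ _) hp hw
    (((t % (p : ℤ)).toNat : ℕ) : ℤ)
  rwa [hr] at h1

/-- the rank is bounded by the local count -/
lemma rankW (hz : Gd (PQ D G0 G1) z) (hD : Deg D G0 G1) (hn : Nz D G0 G1)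
    (hlc : (PQ D G0 G1).leadingCoeff ≠ 0) (hlz : (PQ D G0 G1).leadingCoeff.natAbs ≤ z) {w t : ℤ}
    (hc : IsCoprime t w) {y N : ℕ} (hy : 1 ≤ y)
    (h0 : ((PQ D G0 G1).scaleRoots w).eval t ≠ 0)
    (hN : (((PQ D G0 G1).scaleRoots w).eval t).natAbs < (y + 1) ^ N) :
    2 ^ Module.finrank ℤ (EAB (((D * G0).scaleRoots w).eval t)
      (((D * G1).scaleRoots w).eval t)).toAffine.Point ≤
      4 ^ (z + 2) * 4 ^ N * 4 ^ ((t2 ((PQ D G0 G1).scaleRoots w) z y t).primeFactors.card) *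
        NL (t1 ((PQ D G0 G1).scaleRoots w) z y t)
          (FM.LT D G0 G1 (tyW (PQ D G0 G1) w t (t1 ((PQ D G0 G1).scaleRoots w) z y t))) := by
  have hP := PQ_scale hD w
  have hz2 : 2 ≤ z := by have := hz.big; omega
  have hnd : ∀ p : ℕ, p.Prime → z < p → (p : ℤ) ∣ ((PQ D G0 G1).scaleRoots w).eval t →
      ¬ (p : ℤ) ∣ w := fun p hp hpz hd => MA.not_dvd hlc hlz hp hpz hc hd
  have h1 := RA.rank (D := D.scaleRoots w) (G0 := G0.scaleRoots w) (G1 := G1.scaleRoots w) hz2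
    (t := t) (fun p hp hpz hd => by
      rw [hP] at hd ⊢
      exact fun a ha => MA.simp_scale hz hp hpz (hnd p hp hpz hd) ha) (y := y) (N := N) hy
    (by rw [hP]; exact h0) (by rw [hP]; exact hN)
  rw [hP, ← scale_mul, ← scale_mul] at h1
  refine h1.trans (le_of_eq ?_)
  congr 1
  apply NL_congr
  intro p hp
  have hpp := Nat.prime_of_mem_primeFactors hp
  have h2 := RK.t1_pf hpp (Nat.dvd_of_mem_primeFactors hp)
  exact LT_scale hD hn hpp (hnd p hpp h2.1 h2.2.1) t _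

end Run7.h69.RA
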