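import Mathlib
import Pool.Agent.Run7.h69.RA3

/-!
# The count for the values of a binary form with given residues
-/

set_option autoImplicit false
set_option linter.unusedSectionVars false

namespace Run7.h69

open Finset Polynomial
open Pool.Agent.W262.RK hiding lk ff s1 s2
open Pool.Agent.W655.RK (PS_prime PS_lt PS_le)
open Pool.Agent.W372.RK2 (sq_pow_dvd card_W WW)

namespace RA

open CN (Rt mem_Rt Good Phi Phi_mem md gm_mul gm_id gm_coprime mod_eq_dvd)
open MA (sg one_le_sg not_dvd congr_of prod_split rho_scale)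

variable {h : ℤ[X]} {z y Y s v u : ℕ} {t w : ℤ}

set_option maxHeartbeats 1000000 in
open Classical in
/-- the count -/
theorem count {g : ℕ} (hz : Gd h z) (hM : Mer h g) (hlc : h.leadingCoeff ≠ 0)
    (hlz : h.leadingCoeff.natAbs ≤ z) :
    ∃ (C : ℝ) (K y0 : ℕ), 0 ≤ C ∧ 1 ≤ K ∧ ∀ (w x : ℤ) (X y Y : ℕ), w ≠ 0 → y0 ≤ y → z < y →
    y ^ K ≤ X →
    ∀ s v u : ℕ, s ∣ PP z y → v ∣ PP z y → u ∣ PP y Y → (s * v * u) ^ 8 ≤ X → ∀ (E : Finset ℕ)
    (R : ℕ → ℕ),
    (((Ioc x (x + X)).filter (fun t : ℤ => (IsCoprime t w ∧ t1 (h.scaleRoots w) z y t = s ∧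
      t2 (h.scaleRoots w) z y t = v ∧
      (u : ℤ) ∣ (h.scaleRoots w).eval t ∧ ng (h.scaleRoots w) t s = E) ∧
      ∀ p ∈ s.primeFactors, (t % (p : ℤ)).toNat = R p)).card : ℝ) ≤
      sg h z w * (C * X * (1 / 2) ^ s.primeFactors.card *
        gm (fun p => 1 / ((p : ℝ) - h.natDegree)) s * (gm (br h) v / v) *
        gm (ru h) u / (Real.log y) ^ g) := by
  obtain ⟨C, K, y0, hC, hK, hSV⟩ := MA.sieve hz hM
  refine ⟨C, K, y0, hC, hK, ?_⟩
  intro w x X y Y hw hy0 hzy hX s v u hs hv hu hsvu E R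
  set f := h.scaleRoots w with hf
  have hfd : f.natDegree = h.natDegree := natDegree_scaleRoots h w
  have hsg1 := one_le_sg hz w
  have hzb := hz.big
  have hz2 : 2 ≤ z := by omega
  have hs' : s ∈ (PP z y).divisors := Nat.mem_divisors.2 ⟨hs, PP_ne_zero z y⟩
  have hv' : v ∈ (PP z y).divisors := Nat.mem_divisors.2 ⟨hv, PP_ne_zero z y⟩
  have hu' : u ∈ (PP y Y).divisors := Nat.mem_divisors.2 ⟨hu, PP_ne_zero y Y⟩
  have hs0 := dv_ne_zero hs'
  have hv0 := dv_ne_zero hv'
  have hu0 := dv_ne_zero hu'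
  have hsq := dv_squarefree hs'
  have hvq := dv_squarefree hv'
  have huq := dv_squarefree hu'
  have hlog : 0 ≤ (Real.log y) ^ g := pow_nonneg (Real.log_natCast_nonneg y) _
  have hbr : ∀ {w : ℕ}, w ∈ (PP z y).divisors → 0 ≤ gm (br h) w := fun hw =>
    AT.gm_nonneg (fun p hp hpz => br_nonneg hz hp hpz) hw
  have hru : 0 ≤ gm (ru h) u := prod_nonneg fun p _ => by unfold ru; positivity
  have hinv : ∀ {w : ℕ}, w ∈ (PP z y).divisors → 0 ≤ gm (fun p => 1 / ((p : ℝ) - h.natDegree)) w :=
    fun hw => AT.gm_nonneg (fun p hp hpz => by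
      have h1 : (2 * h.natDegree + 2 : ℝ) ≤ p := by exact_mod_cast (by omega : 2 * h.natDegree + 2 ≤ p)
      have h2 : (0 : ℝ) ≤ h.natDegree := Nat.cast_nonneg _
      apply div_nonneg zero_le_one
      linarith) hw
  set T := (Ioc x (x + X)).filter (fun t : ℤ => (IsCoprime t w ∧ t1 f z y t = s ∧
      t2 f z y t = v ∧ (u : ℤ) ∣ f.eval t ∧ ng f t s = E) ∧
      ∀ p ∈ s.primeFactors, (t % (p : ℤ)).toNat = R p) with hT
  have hres : ∀ t ∈ T, ∀ p ∈ s.primeFactors, (t % (p : ℤ)).toNat = R p := by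
    intro t ht
    rw [hT, mem_filter] at ht
    exact ht.2.2
  have hgood : ∀ t ∈ T, Good f z y s v u t ∧ ng f t s = E ∧ IsCoprime t w := by
    intro t ht
    rw [hT, mem_filter] at ht
    exact ⟨⟨ht.2.1.2.1, ht.2.1.2.2.1, ht.2.1.2.2.2.1⟩, ht.2.1.2.2.2.2, ht.2.1.1⟩
  rcases T.eq_empty_or_nonempty with hTe | ⟨t0, ht0⟩
  · rw [hTe, card_empty, Nat.cast_zero]
    refine mul_nonneg (by linarith) (div_nonneg ?_ hlog)
    have h1 := hinv hs'
    have h2 := hbr hv'
    positivity
  have hnd : ∀ t ∈ T, ∀ p : ℕ, p.Prime → z < p → (p : ℤ) ∣ f.eval t → ¬ (p : ℤ) ∣ w :=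
    fun t ht p hp hpz hd => not_dvd hlc hlz hp hpz (hgood t ht).2.2 hd
  set m := md s v u with hm
  have hm1 : 1 ≤ m := by
    rw [hm]
    unfold md
    exact Nat.succ_le_of_lt (by positivity)
  have hm4 : m ^ 4 ≤ X := by
    refine le_trans ?_ hsvu
    have h1 : m ≤ (s * v * u) ^ 2 := by
      rw [hm]
      unfold md
      have h3 : 1 ≤ u := Nat.one_le_iff_ne_zero.2 hu0
      calc s ^ 2 * v ^ 2 * u ≤ s ^ 2 * v ^ 2 * (u * u) :=
            Nat.mul_le_mul_left _ (Nat.le_mul_of_pos_left u h3)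
        _ = (s * v * u) ^ 2 := by ring
    calc m ^ 4 ≤ ((s * v * u) ^ 2) ^ 4 := Nat.pow_le_pow_left h1 4
      _ = (s * v * u) ^ 8 := by rw [← pow_mul]
  have hg0 := (hgood t0 ht0).1
  have hcsv : s.Coprime v := by
    apply Nat.coprime_of_dvd
    intro p hp hps hpv
    exact (hg0.fs hp hps).2.2 (hg0.fv hp hpv).2
  have hcu : (s * v).Coprime u := by
    apply Nat.coprime_of_dvd
    intro p hp hps hpu
    have h8 := PS_lt (hg0.fu hu hp hpu).1
    have h9 : p ≤ y := by
      rcases hp.dvd_mul.1 hps with h | h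
      · exact PS_le (hg0.fs hp h).1
      · exact PS_le (hg0.fv hp h).1
    omega
  -- the primes do not divide w
  have hpw : ∀ p : ℕ, p.Prime → p ∣ s * v * u → ¬ (p : ℤ) ∣ w := by
    intro p hp hd
    rcases hp.dvd_mul.1 hd with h1 | h1
    · rcases hp.dvd_mul.1 h1 with h2 | h2
      · exact hnd t0 ht0 p hp (PS_lt (hg0.fs hp h2).1) (hg0.fs hp h2).2.1
      · exact hnd t0 ht0 p hp (PS_lt (hg0.fv hp h2).1)
          ((dvd_pow_self (p : ℤ) two_ne_zero).trans (hg0.fv hp h2).2)
    · have h3 := PS_lt (hg0.fu hu hp h1).1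
      exact hnd t0 ht0 p hp (by omega) (hg0.fu hu hp h1).2
  -- bound for a fibre
  set D : ℝ := (∏ p ∈ m.primeFactors.filter (fun p => p ∈ PS z y),
        (p : ℝ) / ((p : ℝ) - h.natDegree)) with hD
  set B : ℝ := C * (X / m) * (D * sg h z w) / (Real.log y) ^ g with hBdef
  have hsieve : ∀ r : ℤ, (((Ioc x (x + X)).filter (fun t : ℤ => (m : ℤ) ∣ t - r ∧ ∀ p ∈ PS z y,
      ¬ (p ∣ m ∨ (p : ℤ) ∣ w) → ¬ (p : ℤ) ∣ f.eval t)).card : ℝ) ≤ B := by
    intro r
    refine (hSV w x X y hy0 hzy hX m r hm1 hm4).trans ?_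
    rw [hBdef]
    refine div_le_div_of_nonneg_right ?_ hlog
    refine mul_le_mul_of_nonneg_left (prod_split hz hw (by omega) y) (by positivity)
  have hfib : ∀ φ, ((T.filter (fun t : ℤ => Phi f s v u t = φ)).card : ℝ) ≤ B := by
    intro φ
    rcases (T.filter (fun t : ℤ => Phi f s v u t = φ)).eq_empty_or_nonempty with
      he | ⟨r, hr⟩
    · rw [he, card_empty, Nat.cast_zero]
      exact le_trans (Nat.cast_nonneg _) (hsieve 0)
    · refine le_trans ?_ (hsieve r)
      rw [Nat.cast_le]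
      apply card_le_card
      intro t ht
      rw [mem_filter] at ht hr
      have g := (hgood t ht.1).1
      have g' := (hgood r hr.1).1
      have htX : t ∈ Ioc x (x + X) := (mem_filter.1 ht.1).1
      rw [mem_filter]
      refine ⟨htX, ?_, ?_⟩
      · exact congr_of hz hlc hlz hzy hs hv hu (hgood t ht.1).2.2 g g' (ht.2.trans hr.2.symm)
      · intro p hpP hpm hpf
        have hp := (mem_PS.1 hpP).2
        apply hpm
        left
        rw [hm]
        unfold md
        by_cases h2 : (p : ℤ) ^ 2 ∣ f.eval t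
        · have h3 : p ∣ v := by
            rw [← g.hv]
            exact (CN.dvd_t2 hp).2 ⟨hpP, h2⟩
          exact ((h3.pow two_ne_zero).mul_left _).mul_right _
        · have h3 : p ∣ s := by
            rw [← g.hs]
            exact (CN.dvd_t1 hp).2 ⟨hpP, hpf, h2⟩
          exact ((h3.pow two_ne_zero).mul_right _).mul_right _
  have hB0 : 0 ≤ B := le_trans (Nat.cast_nonneg _) (hsieve 0)
  have hPhi : ∀ t ∈ T, Phi f s v u t ∈ CN2.Cod2 f s v u E R := by
    intro t ht
    have g := (hgood t ht).1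
    have hE := (hgood t ht).2.1
    unfold Phi CN2.Cod2
    rw [mem_product, Fintype.mem_piFinset, Fintype.mem_piFinset]
    constructor
    · rintro ⟨p, hp0⟩
      have hp : p.Prime := Nat.prime_of_mem_primeFactors hp0
      have hd := Nat.dvd_of_mem_primeFactors hp0
      simp only
      by_cases hps0 : p ∣ s
      · rw [if_pos hps0, mem_singleton]
        exact hres t ht p (Nat.mem_primeFactors.2 ⟨hp, hps0, hs0⟩)
      rw [if_neg hps0]
      apply mem_Rt hp
      rcases hp.dvd_mul.1 hd with h | h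
      · rcases hp.dvd_mul.1 h with h | h
        · exact (g.fs hp h).2.1
        · exact (dvd_pow_self (p : ℤ) two_ne_zero).trans (g.fv hp h).2
      · exact (g.fu hu hp h).2
    · rintro ⟨p, hp3⟩
      have hp : p.Prime := Nat.prime_of_mem_primeFactors hp3
      have hps := Nat.dvd_of_mem_primeFactors hp3
      unfold WW
      simp only
      obtain ⟨hP, hd, hd2⟩ := g.fs hp hps
      have hpos : (0 : ℤ) < p := by exact_mod_cast hp.pos
      have h0 : 0 ≤ (f.eval t / (p : ℤ)) % (p : ℤ) := Int.emod_nonneg _ hpos.ne'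
      rw [mem_filter, mem_range]
      constructor
      · have h1 := Int.emod_lt_of_pos (f.eval t / (p : ℤ)) hpos
        omega
      · rw [Int.toNat_of_nonneg h0, ← jacobiSym.mod_left]
        split_ifs with hpE
        · rw [← hE] at hpE
          unfold ng at hpE
          rw [mem_filter] at hpE
          exact hpE.2
        · have h1 : jacobiSym (f.eval t / (p : ℤ)) p ≠ -1 := by
            intro h
            apply hpE
            rw [← hE]
            unfold ng
            exact mem_filter.2 ⟨hp3, h⟩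
          have h2 : jacobiSym (f.eval t / (p : ℤ)) p ≠ 0 := by
            have : NeZero p := ⟨hp.ne_zero⟩
            rw [Ne, jacobiSym.eq_zero_iff_not_coprime, not_not, Int.gcd_comm]
            rw [Int.gcd_eq_natAbs, Int.natAbs_natCast]
            apply (hp.coprime_iff_not_dvd).2
            intro h
            apply hd2
            have h3 : (p : ℤ) ∣ f.eval t / (p : ℤ) := Int.natCast_dvd.2 h
            have h4 : f.eval t = p * (f.eval t / p) := (Int.mul_ediv_cancel' hd).symm
            rw [h4, sq]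
            exact mul_dvd_mul_left _ h3
          rcases jacobiSym.trichotomy (f.eval t / (p : ℤ)) p with h | h | h
          · exact absurd h h2
          · exact h
          · exact absurd h h1
  have hcard : (T.card : ℝ) ≤ ((CN2.Cod2 f s v u E R).card : ℝ) * B := by
    rw [card_eq_sum_card_fiberwise (f := fun t : ℤ => Phi f s v u t)
      (t := CN2.Cod2 f s v u E R) hPhi]
    rw [Nat.cast_sum]
    refine (sum_le_sum fun φ _ => hfib φ).trans ?_
    rw [sum_const, nsmul_eq_mul]
  refine hcard.trans ((mul_le_mul_of_nonneg_right (CN2.card_Cod2 hz2 hs hcsv hcu E R) hB0).trans ?_)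
  -- the product over the primes
  have hpf : m.primeFactors.filter (fun p => p ∈ PS z y) = (s * v).primeFactors := by
    ext p
    rw [mem_filter, Nat.mem_primeFactors, Nat.mem_primeFactors]
    constructor
    · rintro ⟨⟨hp, hd, -⟩, hpP⟩
      refine ⟨hp, ?_, mul_ne_zero hs0 hv0⟩
      rw [hm] at hd
      unfold md at hd
      rcases hp.dvd_mul.1 hd with h | h
      · rcases hp.dvd_mul.1 h with h | h
        · exact (hp.dvd_of_dvd_pow h).mul_right _
        · exact (hp.dvd_of_dvd_pow h).mul_left _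
      · exfalso
        have h1 := PS_lt (hg0.fu hu hp h).1
        have h2 := PS_le hpP
        omega
    · rintro ⟨hp, hd, -⟩
      have h1 : p ∈ PS z y := by
        rcases hp.dvd_mul.1 hd with h | h
        · exact (hg0.fs hp h).1
        · exact (hg0.fv hp h).1
      refine ⟨⟨hp, ?_, by omega⟩, h1⟩
      rw [hm]
      unfold md
      rcases hp.dvd_mul.1 hd with h | h
      · exact ((h.pow two_ne_zero).mul_right _).mul_right _
      · exact ((h.pow two_ne_zero).mul_left _).mul_right _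
  have hprod : D = (s * gm (fun p => 1 / ((p : ℝ) - h.natDegree)) s) *
        (v * gm (fun p => 1 / ((p : ℝ) - h.natDegree)) v) := by
    rw [hD, hpf]
    have h1 : ∏ p ∈ (s * v).primeFactors, (p : ℝ) / ((p : ℝ) - h.natDegree) =
        gm (fun p => (p : ℝ) * (1 / ((p : ℝ) - h.natDegree))) (s * v) := by
      unfold gm
      exact prod_congr rfl fun p _ => by ring
    rw [h1, gm_coprime _ hcsv, gm_mul, gm_mul, gm_id hsq, gm_id hvq]
  have hρ0 : ∀ n : ℕ, n ∣ s * v * u → gm (fun p => (rho f p : ℝ)) n =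
      gm (fun p => (rho h p : ℝ)) n := by
    intro n hn
    unfold gm
    refine prod_congr rfl fun p hp => ?_
    have e : rho f p = rho h p := rho_scale h (Nat.prime_of_mem_primeFactors hp)
      (hpw p (Nat.prime_of_mem_primeFactors hp) ((Nat.dvd_of_mem_primeFactors hp).trans hn))
    show ((rho f p : ℕ) : ℝ) = ((rho h p : ℕ) : ℝ)
    rw [e]
  have hb : ∀ w : ℕ, gm (br h) w = gm (fun p => (rho h p : ℝ)) w *
      gm (fun p => 1 / ((p : ℝ) - h.natDegree)) w := by
    intro w
    rw [← gm_mul]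
    unfold gm
    exact prod_congr rfl fun p _ => by unfold br; ring
  have hru' : gm (ru h) u * u = gm (fun p => (rho h p : ℝ)) u := by
    conv_lhs => rw [← gm_id huq]
    rw [← gm_mul]
    unfold gm
    refine prod_congr rfl fun p hp => ?_
    have : (p : ℝ) ≠ 0 := by exact_mod_cast (Nat.prime_of_mem_primeFactors hp).ne_zero
    unfold ru
    field_simp
  have hsr : (s : ℝ) ≠ 0 := Nat.cast_ne_zero.2 hs0
  have hvr : (v : ℝ) ≠ 0 := Nat.cast_ne_zero.2 hv0
  have hur : (u : ℝ) ≠ 0 := Nat.cast_ne_zero.2 hu0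
  have hmr : (m : ℝ) = (s : ℝ) ^ 2 * (v : ℝ) ^ 2 * u := by
    rw [hm]
    unfold md
    push_cast
    ring
  rw [hBdef, hprod, hρ0 v ((Dvd.intro_left s rfl).mul_right u), hρ0 u (Dvd.intro_left _ rfl), hb v,
    ← hru', hmr]
  apply le_of_eq
  field_simp

end RA

end Run7.h69
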