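import Mathlib
import Pool.Agent.Run7.h69.RA4

/-!
# Moments in a homogeneous family with one fixed variable
-/

set_option autoImplicit false
set_option linter.unusedSectionVars false

namespace Run7.h69.RA

open Finset Polynomial
open Pool.Agent.W262.RK hiding lk ff s1 s2
open FM hiding excl KP_ndvd locH xcl rank moments
open MA (dvd_scale sg one_le_sg SW growth2)
open CN (Rt)

variable {D G0 G1 : ℤ[X]} {z : ℕ}

/-- the quantity -/
noncomputable def RR (D G0 G1 : ℤ[X]) (δ : ℝ) (w t : ℤ) : ℝ :=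
  ((2 : ℝ) ^ Module.finrank ℤ (EAB (((D * G0).scaleRoots w).eval t)
      (((D * G1).scaleRoots w).eval t)).toAffine.Point) ^ δ

lemma RR_nonneg (δ : ℝ) (w t : ℤ) : 0 ≤ RR D G0 G1 δ w t := by
  unfold RR
  positivity

/-- the residue in terms of the base residue -/
lemma res_eq {p : ℕ} (hp : p.Prime) {w : ℤ} (hw : ¬ (p : ℤ) ∣ w) (t : ℤ) :
    (t % (p : ℤ)).toNat = ((((rs p w t : ℕ) : ℤ) * w) % (p : ℤ)).toNat := by
  have : Fact p.Prime := ⟨hp⟩
  have hw0 : (w : ZMod p) ≠ 0 := by
    rw [Ne, ZMod.intCast_zmod_eq_zero_iff_dvd]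
    exact hw
  congr 1
  rw [← ZMod.intCast_eq_intCast_iff']
  rw [Int.cast_mul, rs_cast hp w t]
  field_simp

open Classical in
/-- the moments -/
theorem moments {δ C' : ℝ} {g : ℕ} (M : ℕ) (hδ0 : 0 ≤ δ) (hδ1 : δ ≤ 1)
    (hz : Gd (PQ D G0 G1) z) (hD : Deg D G0 G1) (hn : Nz D G0 G1)
    (hlc : (PQ D G0 G1).leadingCoeff ≠ 0)
    (hlz : (PQ D G0 G1).leadingCoeff.natAbs ≤ z) (hM : Mer (PQ D G0 G1) g)
    (havg : ∀ y : ℕ, z < y → ∑ s ∈ (PP z y).divisors, GS D G0 G1 δ s * gm (br (PQ D G0 G1)) s ≤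
      C' * (Real.log y) ^ g) :
    ∃ (X0 : ℕ) (B : ℝ), ∀ (w x : ℤ) (X : ℕ), w ≠ 0 → x.natAbs ≤ X ^ M → w.natAbs ≤ X ^ M →
      X0 ≤ X → ∑ t ∈ SW (PQ D G0 G1) w x X, RR D G0 G1 δ w t ≤ B * X * sg (PQ D G0 G1) z w := by
  set h := PQ D G0 G1 with hh
  have hz2 : 2 ≤ z := by have := hz.big; omega
  obtain ⟨C, K, y0, hC0, hK1, hcn⟩ := RA.count hz hM hlc hlz
  obtain ⟨c, L, hcL⟩ := growth2 h
  -- the size of the values
  set L1 : ℕ := (M + 4) * L + 1 with hL1
  set y1 : ℕ := y0 + c + 4 with hy1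
  have hval : ∀ (w x : ℤ) (X : ℕ), x.natAbs ≤ X ^ M → w.natAbs ≤ X ^ M → y1 ≤ X →
      ∀ t ∈ Ioc x (x + X), ((h.scaleRoots w).eval t).natAbs ≤ X ^ L1 := by
    intro w x X hx hw hX t ht
    rw [mem_Ioc] at ht
    have hX2 : 2 ≤ X := by omega
    have h1 : t.natAbs + w.natAbs + 1 ≤ x.natAbs + X ^ M + X + 1 := by omega
    have h2 : x.natAbs + X ^ M + X + 1 ≤ X ^ (M + 4) := by
      have h3 : X ^ (M + 4) = X ^ M * (X ^ 4) := pow_add _ _ _
      have h4 : 1 ≤ X ^ M := Nat.one_le_pow _ _ (by omega)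
      have h5 : X + 1 + 2 ≤ X ^ 4 := by
        have e1 : 4 * 4 ≤ X * X := Nat.mul_le_mul (by omega) (by omega)
        have e2 : X * X * 16 ≤ X * X * (X * X) := Nat.mul_le_mul_left _ (by omega)
        have e3 : X ≤ X * X := Nat.le_mul_of_pos_left X (by omega)
        have e4 : X ^ 4 = X * X * (X * X) := by ring
        omega
      calc x.natAbs + X ^ M + X + 1 ≤ X ^ M * 2 + 1 * (X + 1) := by omega
        _ ≤ X ^ M * 2 + X ^ M * (X + 1) := Nat.add_le_add_left (Nat.mul_le_mul_right _ h4) _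
        _ = X ^ M * (X + 1 + 2) := by ring
        _ ≤ X ^ M * X ^ 4 := Nat.mul_le_mul_left _ h5
        _ = _ := h3.symm
    calc ((h.scaleRoots w).eval t).natAbs ≤ c * (t.natAbs + w.natAbs + 1) ^ L := hcL t w
      _ ≤ X * (X ^ (M + 4)) ^ L :=
          Nat.mul_le_mul (by omega) (Nat.pow_le_pow_left (h1.trans h2) _)
      _ = X ^ L1 := by rw [hL1, ← pow_mul, pow_succ, mul_comm]
  have hdeg : (0 : ℝ) ≤ 2 * (h.natDegree : ℝ) := by positivity
  have hsgp : ∀ w, 0 < sg h z w := fun w => by linarith [one_le_sg hz w]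
  have hbr2 : ∀ p : ℕ, p.Prime → z < p → 0 ≤ br h p ∧ br h p ≤ 2 * (h.natDegree : ℝ) / p := by
    intro p hp hpz
    refine ⟨br_nonneg hz hp hpz, ?_⟩
    have h1 := br_le hz hp hpz
    rwa [mul_one_div] at h1
  obtain ⟨X0, B, hB⟩ := NA.nt (Ω := ℤ × ℤ) (I := ℤ × ℤ)
    (F := fun q => (h.scaleRoots q.1).eval q.2)
    (S := fun i X => ({i.1} : Finset ℤ) ×ˢ (SW h i.1 i.2 X)) (N := fun X : ℕ => (X : ℝ))
    (b := br h) (bv := br h) (r := ru h) (z := z) (G := GS D G0 G1 δ)
    (R := fun q => RR D G0 G1 δ q.1 q.2 / sg h z q.1) (M := 2 * (h.natDegree : ℝ))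
    (Q := fun i X => i.1 ≠ 0 ∧ i.2.natAbs ≤ X ^ M ∧ i.1.natAbs ≤ X ^ M ∧ y1 ≤ X)
    (A := 4) (C := C * 4 ^ (z + 2))
    (D := 4 ^ L1) (C' := C') (g := g) (K := K) (y0 := y1)
    hz2 hdeg hbr2 hbr2
    (fun p hp hpz => by
      have h1 : (rho h p : ℝ) ≤ h.natDegree := by exact_mod_cast hz.few p hp hpz
      have hp0 : (0 : ℝ) < p := by exact_mod_cast hp.pos
      refine ⟨NX.ru_nonneg h p, ?_⟩
      unfold ru
      rw [div_le_div_iff_of_pos_right hp0]
      have : (0 : ℝ) ≤ h.natDegree := Nat.cast_nonneg _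
      linarith)
    (fun X => Nat.cast_nonneg _)
    (GS_nonneg δ) (fun q => div_nonneg (RR_nonneg _ _ _) (hsgp _).le)
    (by norm_num) (by positivity)
    (one_le_pow₀ (by norm_num))
    (fun y s e hse => subG hδ0 hδ1 hz hse) havg (by
      rintro ⟨w, x⟩ X y Y k hQ hy0 hzy hyK hXk s v u hs hv hu hsvu
      obtain ⟨hw, hx, hwX, hX⟩ := hQ
      simp only at hw hx hwX ⊢
      have hy00 : y0 ≤ y := by omega
      have hs0 : s ≠ 0 := Nat.one_le_iff_ne_zero.1 (NX.dpos hs)
      set f := h.scaleRoots w with hf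
      set S := (SW h w x X).filter (fun t : ℤ => NA.T1 z y (f.eval t) = s ∧
        NA.T2 z y (f.eval t) = v ∧ (u : ℤ) ∣ f.eval t) with hS
      have hsum : ∑ q ∈ (({w} : Finset ℤ) ×ˢ SW h w x X).filter (fun q : ℤ × ℤ =>
          NA.T1 z y ((h.scaleRoots q.1).eval q.2) = s ∧
          NA.T2 z y ((h.scaleRoots q.1).eval q.2) = v ∧ (u : ℤ) ∣ (h.scaleRoots q.1).eval q.2),
            RR D G0 G1 δ q.1 q.2 / sg h z q.1 = (∑ t ∈ S, RR D G0 G1 δ w t) / sg h z w := by
        rw [sum_filter, sum_product, sum_singleton, hS, sum_filter, sum_div]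
        refine sum_congr rfl fun t _ => ?_
        simp only
        split_ifs
        · rfl
        · rw [zero_div]
      rw [hsum, div_le_iff₀ (hsgp w)]
      set Gt : (s.primeFactors → ℕ × Bool) → ℝ :=
        fun τ => (NL s (FM.LT D G0 G1 (ex s τ)) : ℝ) ^ δ with hG
      have hG0 : ∀ τ, 0 ≤ Gt τ := fun τ => by rw [hG]; positivity
      set tt : ℤ → (s.primeFactors → ℕ × Bool) := fun t p => tyW h w t s p.1 with htt
      have hex : ∀ t, NL s (FM.LT D G0 G1 (ex s (tt t))) = NL s (FM.LT D G0 G1 (tyW h w t s)) := by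
        intro t
        apply LT_congr
        intro p hp
        unfold ex
        rw [dif_pos hp]
      have hpw : ∀ t ∈ S, ∀ p ∈ s.primeFactors, ¬ (p : ℤ) ∣ w ∧ (p : ℤ) ∣ f.eval t := by
        intro t ht p hp
        rw [hS, mem_filter] at ht
        obtain ⟨ht1, hts, _, _⟩ := ht
        have ht2 := (MA.mem_SW.1 ht1).2.1
        have hpp := Nat.prime_of_mem_primeFactors hp
        have hts' : t1 f z y t = s := hts
        have h3 := Nat.dvd_of_mem_primeFactors hp
        rw [← hts'] at h3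
        have h4 := RK.t1_pf hpp h3
        exact ⟨MA.not_dvd hlc hlz hpp h4.1 ht2 h4.2.1, h4.2.1⟩
      have h1 : ∀ t ∈ S, RR D G0 G1 δ w t ≤
          4 ^ (z + 2) * (4 ^ L1) ^ k * 4 ^ v.primeFactors.card * Gt (tt t) := by
        intro t ht
        rw [hS, mem_filter] at ht
        obtain ⟨ht1, hts, htv, _⟩ := ht
        have ht2 := MA.mem_SW.1 ht1
        have hN : (f.eval t).natAbs < (y + 1) ^ (k * L1) := by
          calc (f.eval t).natAbs ≤ X ^ L1 := hval w x X hx hwX hX t ht2.1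
            _ < ((y + 1) ^ k) ^ L1 := Nat.pow_lt_pow_left hXk (by omega)
            _ = _ := by rw [← pow_mul]
        have hr := rankW hz hD hn hlc hlz ht2.2.1 (y := y) (N := k * L1) (by omega) ht2.2.2 hN
        have hts' : t1 f z y t = s := hts
        have htv' : t2 f z y t = v := htv
        rw [← hh, ← hf, hts', htv'] at hr
        have hr' : (2 : ℝ) ^ Module.finrank ℤ (EAB (((D * G0).scaleRoots w).eval t)
            (((D * G1).scaleRoots w).eval t)).toAffine.Point ≤
            4 ^ (z + 2) * 4 ^ (k * L1) * 4 ^ (v.primeFactors.card) *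
              (NL s (FM.LT D G0 G1 (tyW h w t s)) : ℝ) := by exact_mod_cast hr
        have h2 : ∀ n : ℕ, ((4 : ℝ) ^ n) ^ δ ≤ 4 ^ n := by
          intro n
          calc ((4 : ℝ) ^ n) ^ δ ≤ ((4 : ℝ) ^ n) ^ (1 : ℝ) :=
                Real.rpow_le_rpow_of_exponent_le (one_le_pow₀ (by norm_num)) hδ1
            _ = _ := Real.rpow_one _
        unfold RR
        refine (Real.rpow_le_rpow (by positivity) hr' hδ0).trans ?_
        rw [← pow_add, ← pow_add, Real.mul_rpow (by positivity) (Nat.cast_nonneg _)]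
        rw [hG]
        simp only
        rw [hex, ← pow_mul, mul_comm L1 k, ← pow_add, ← pow_add]
        exact mul_le_mul_of_nonneg_right (h2 _) (by positivity)
      have hneg : ∀ t ∈ S, tt t ∈ TS D G0 G1 s := by
        intro t ht
        unfold TS
        rw [Fintype.mem_piFinset]
        rintro ⟨p, hp⟩
        unfold Ty
        rw [mem_product]
        refine ⟨?_, mem_univ _⟩
        have hpp := Nat.prime_of_mem_primeFactors hp
        have h3 := hpw t ht p hp
        have : Fact p.Prime := ⟨hpp⟩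
        unfold CN.Rt
        rw [mem_filter, mem_range]
        refine ⟨ZMod.val_lt _, ?_⟩
        exact (dvd_rs h hpp h3.1 t).1 h3.2
      have h2 : ∑ t ∈ S, Gt (tt t) = ∑ τ ∈ TS D G0 G1 s,
            ((S.filter (fun t : ℤ => tt t = τ)).card : ℝ) * Gt τ := by
        rw [← sum_fiberwise_of_maps_to hneg]
        refine sum_congr rfl fun E _ => ?_
        rw [← nsmul_eq_mul, ← sum_const]
        refine sum_congr rfl fun t ht => ?_
        rw [(mem_filter.1 ht).2]
      set Q : ℝ := sg h z w * (C * X * (1 / 2) ^ s.primeFactors.card *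
        gm (fun p => 1 / ((p : ℝ) - h.natDegree)) s * (gm (br h) v / v) *
        gm (ru h) u / (Real.log y) ^ g) with hQ
      have h3 : ∀ τ ∈ TS D G0 G1 s,
          ((S.filter (fun t : ℤ => tt t = τ)).card : ℝ) * Gt τ ≤ Q * Gt τ := by
        intro τ _
        refine mul_le_mul_of_nonneg_right ?_ (hG0 τ)
        refine le_trans ?_ (hcn w x X y Y hw hy00 hzy hyK s v u hs hv hu hsvu
          (s.primeFactors.filter (fun p => (ex s τ p).2 = true))
          (fun p => (((((ex s τ p).1 : ℕ) : ℤ) * w) % (p : ℤ)).toNat))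
        have h4 : S.filter (fun t : ℤ => tt t = τ) ⊆
            (Ioc x (x + X)).filter (fun t : ℤ => (IsCoprime t w ∧
              t1 (h.scaleRoots w) z y t = s ∧ t2 (h.scaleRoots w) z y t = v ∧
              (u : ℤ) ∣ (h.scaleRoots w).eval t ∧ ng (h.scaleRoots w) t s =
                s.primeFactors.filter (fun p => (ex s τ p).2 = true)) ∧
              ∀ p ∈ s.primeFactors, (t % (p : ℤ)).toNat =
                (((((ex s τ p).1 : ℕ) : ℤ) * w) % (p : ℤ)).toNat) := by
          intro t ht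
          have htS := (mem_filter.1 ht).1
          have hp0 := hpw t htS
          rw [mem_filter, hS, mem_filter] at ht
          obtain ⟨⟨h5, h7, h8, h9⟩, h10⟩ := ht
          have h6 := MA.mem_SW.1 h5
          have h11 : ∀ p ∈ s.primeFactors, ex s τ p = tyW h w t s p := by
            intro p hp
            unfold ex
            rw [dif_pos hp, ← h10]
          rw [mem_filter]
          refine ⟨h6.1, ⟨h6.2.1, h7, h8, h9, ?_⟩, fun p hp => ?_⟩
          · ext p
            rw [mem_filter]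
            constructor
            · intro hp
              have hp1 : p ∈ s.primeFactors := by
                unfold ng at hp
                exact (mem_filter.1 hp).1
              refine ⟨hp1, ?_⟩
              rw [h11 p hp1]
              unfold tyW
              simpa using hp
            · rintro ⟨hp1, hp2⟩
              rw [h11 p hp1] at hp2
              unfold tyW at hp2
              simpa using hp2
          · rw [h11 p hp]
            exact res_eq (Nat.prime_of_mem_primeFactors hp) (hp0 p hp).1 t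
        exact_mod_cast card_le_card h4
      calc ∑ t ∈ S, RR D G0 G1 δ w t
          ≤ ∑ t ∈ S, 4 ^ (z + 2) * (4 ^ L1) ^ k * 4 ^ v.primeFactors.card * Gt (tt t) :=
            sum_le_sum h1
        _ = 4 ^ (z + 2) * (4 ^ L1) ^ k * 4 ^ v.primeFactors.card *
              ∑ τ ∈ TS D G0 G1 s,
                ((S.filter (fun t : ℤ => tt t = τ)).card : ℝ) * Gt τ := by
            rw [← mul_sum, h2]
        _ ≤ 4 ^ (z + 2) * (4 ^ L1) ^ k * 4 ^ v.primeFactors.card *
              ∑ τ ∈ TS D G0 G1 s, Q * Gt τ :=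
            mul_le_mul_of_nonneg_left (sum_le_sum h3) (by positivity)
        _ = _ := by
            have e1 := GS_mul hz δ (s := s)
            have e2 : NA.bV (br h) 4 v = 4 ^ v.primeFactors.card * (gm (br h) v / v) := rfl
            rw [← hh] at e1
            rw [← mul_sum, e1, e2, hQ]
            ring)
  refine ⟨X0 + y1, B, fun w x X hw hx hwX hX => ?_⟩
  have h1 := hB (w, x) X ⟨hw, hx, hwX, by omega⟩ (by omega)
  rw [sum_product, sum_singleton] at h1
  have h2 : (∑ t ∈ SW h w x X, RR D G0 G1 δ w t) / sg h z w ≤ B * X := by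
    rw [sum_div]
    exact h1
  rwa [div_le_iff₀ (hsgp w)] at h2

end Run7.h69.RA
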