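import Mathlib
import Pool.Agent.Run7.h69.RA5
import Pool.Agent.Run7.h69.QA3

/-!
# Moments in a homogeneous family over boxes
-/

set_option autoImplicit false
set_option linter.unusedSectionVars false

namespace Run7.h69.RA

open Finset Polynomial
open Pool.Agent.W262.RK hiding lk ff s1 s2
open FM hiding excl KP_ndvd locH xcl rank moments exists_fam fam_moments
open PK (cnt qq SqQ)
open UniqueFactorizationMonoid
open MA (sg one_le_sg SW mem_SW sum_sg)
open FZ (FF gam num exists_data rk)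

variable {D G0 G1 : ℤ[X]} {z : ℕ}

lemma Nz_of (h : Cop D G0 G1) : Nz D G0 G1 := ⟨h.ne 3, h.ne 0, h.ne 1, h.ne 2⟩

/-- the moments over boxes for given data -/
theorem box (h : Cop D G0 G1) (hD : Deg D G0 G1) {n m : Fin 4 → ℕ}
    (hn : n = fun c => cnt (GG D G0 G1 c) (fun _ => True))
    (hm : m = fun c => if c = 3 then 0 else cnt (GG D G0 G1 c) (SqQ (KP D G0 G1 c 0)))
    (hpos : ∀ c : Fin 4, c ≠ 3 → n c < n 0 + n 1 + n 2 + n 3) {δ : ℝ} (h0 : 0 < δ) (h1 : δ ≤ 1)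
    (hcond : ∀ c : Fin 4, c ≠ 3 →
      (2 : ℝ) ^ δ * (n c + m c) ≤ 2 * ((n 0 : ℝ) + n 1 + n 2 - n c)) (M : ℕ) :
    ∃ C : ℝ, ∀ (x y : ℤ) (X : ℕ), 1 ≤ X → x.natAbs ≤ X ^ M → y.natAbs ≤ X ^ M →
      ∑ w ∈ Ioc y (y + X), ∑ t ∈ SW (PQ D G0 G1) w x X, RR D G0 G1 δ w t ≤ C * (X : ℝ) ^ 2 := by
  classical
  obtain ⟨z, M', hzz, F⟩ := QA.exists_fam h ((PQ D G0 G1).leadingCoeff.natAbs)
  rw [← hn, ← hm] at F
  have hmn : ∀ c, m c ≤ n c := by
    intro c
    rw [hm, hn]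
    simp only
    split_ifs
    · exact Nat.zero_le _
    · exact cnt_mono _ fun _ _ => trivial
  obtain ⟨C', hC'⟩ := avg F hmn hpos h0 h1 (fun c hc => cond_of h0 hc (hcond c hc))
  have hP0 := ne_PQ h
  obtain ⟨X0, B, hB⟩ := moments (M + 2) h0.le h1 F.gd hD (Nz_of h) (leadingCoeff_ne_zero.2 hP0)
    hzz F.mer hC'
  obtain ⟨C2, hC20, hC2⟩ := sum_sg F.gd M
  have hz' := F.gd
  set P := PQ D G0 G1 with hP
  set R : ℤ → ℤ → ℝ := RR D G0 G1 δ with hR
  have hnn : ∀ w t : ℤ, 0 ≤ R w t := fun w t => RR_nonneg δ w t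
  set X1 : ℕ := X0 + 3 with hX1
  set N : ℤ := (X1 : ℤ) ^ M + X1 with hN
  set S : ℝ := ∑ w ∈ Icc (-N) N, ∑ t ∈ Icc (-N) N, R w t with hS
  have hS0 : 0 ≤ S := sum_nonneg fun w _ => sum_nonneg fun t _ => hnn w t
  set C00 : ℝ := R 0 1 + R 0 (-1) with hC00
  have hC000 : 0 ≤ C00 := add_nonneg (hnn _ _) (hnn _ _)
  refine ⟨S + (1 + |B| * C2) + C00, fun x y X hX hx hy => ?_⟩
  have hXr : (1 : ℝ) ≤ X := by exact_mod_cast hX
  have hX2 : (1 : ℝ) ≤ (X : ℝ) ^ 2 := one_le_pow₀ hXr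
  have hBC : 0 ≤ 1 + |B| * C2 := by positivity
  rcases Nat.lt_or_ge X X1 with hXX | hXX
  · have h1 : ∑ w ∈ Ioc y (y + X), ∑ t ∈ SW P w x X, R w t ≤ S := by
      have h2 : ∀ a : ℤ, a.natAbs ≤ X ^ M → Ioc a (a + X) ⊆ Icc (-N) N := by
        intro a ha t ht
        rw [mem_Ioc] at ht
        rw [mem_Icc]
        have h2 : (a.natAbs : ℤ) ≤ (X1 : ℤ) ^ M := by
          exact_mod_cast ha.trans (Nat.pow_le_pow_left hXX.le M)
        have h3 : (X : ℤ) ≤ X1 := by exact_mod_cast hXX.le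
        omega
      calc ∑ w ∈ Ioc y (y + X), ∑ t ∈ SW P w x X, R w t
          ≤ ∑ w ∈ Ioc y (y + X), ∑ t ∈ Icc (-N) N, R w t :=
            sum_le_sum fun w _ => sum_le_sum_of_subset_of_nonneg
              (fun t ht => h2 x hx (mem_SW.1 ht).1) fun t _ _ => hnn w t
        _ ≤ _ := sum_le_sum_of_subset_of_nonneg (h2 y hy) fun w _ _ =>
            sum_nonneg fun t _ => hnn w t
    nlinarith
  · have hw0 : ∑ t ∈ SW P 0 x X, R 0 t ≤ C00 := by
      have hsub : SW P 0 x X ⊆ {1, -1} := by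
        intro t ht
        have h1 := (mem_SW.1 ht).2.1
        rw [isCoprime_zero_right, Int.isUnit_iff] at h1
        rw [mem_insert, mem_singleton]
        exact h1
      calc ∑ t ∈ SW P 0 x X, R 0 t ≤ ∑ t ∈ ({1, -1} : Finset ℤ), R 0 t :=
            sum_le_sum_of_subset_of_nonneg hsub fun t _ _ => hnn 0 t
        _ = C00 := by
            rw [sum_pair (by norm_num)]
    have hsplit : ∑ w ∈ Ioc y (y + X), ∑ t ∈ SW P w x X, R w t ≤
        ∑ w ∈ (Ioc y (y + X)).filter (fun w => w ≠ 0), ∑ t ∈ SW P w x X, R w t + C00 := by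
      rw [← sum_filter_add_sum_filter_not (Ioc y (y + X)) (fun w => w ≠ 0)]
      refine add_le_add le_rfl ?_
      calc ∑ w ∈ (Ioc y (y + X)).filter (fun w => ¬ w ≠ 0), ∑ t ∈ SW P w x X, R w t
          ≤ ∑ w ∈ ({0} : Finset ℤ), ∑ t ∈ SW P w x X, R w t := by
            refine sum_le_sum_of_subset_of_nonneg (fun w hw => ?_)
              fun w _ _ => sum_nonneg fun t _ => hnn w t
            rw [mem_singleton]
            exact not_not.1 (mem_filter.1 hw).2
        _ = ∑ t ∈ SW P 0 x X, R 0 t := sum_singleton _ _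
        _ ≤ C00 := hw0
    have hpow : ∀ n : ℕ, X ^ n ≤ X ^ (n + 2) := fun n =>
      Nat.pow_le_pow_right (by omega) (by omega)
    have hmain : ∑ w ∈ (Ioc y (y + X)).filter (fun w => w ≠ 0),
        ∑ t ∈ SW P w x X, R w t ≤ (1 + |B| * C2) * (X : ℝ) ^ 2 := by
      calc ∑ w ∈ (Ioc y (y + X)).filter (fun w => w ≠ 0), ∑ t ∈ SW P w x X, R w t
          ≤ ∑ w ∈ (Ioc y (y + X)).filter (fun w => w ≠ 0), (|B| * X * sg P z w) := by
            refine sum_le_sum fun w hw => ?_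
            rw [mem_filter, mem_Ioc] at hw
            have hwX : w.natAbs ≤ X ^ (M + 2) := by
              have e1 : w.natAbs ≤ X ^ M + X := by omega
              have e2 : X ^ M + X ≤ X ^ (M + 2) := by
                have e3 : 1 ≤ X ^ M := Nat.one_le_pow _ _ (by omega)
                calc X ^ M + X ≤ X ^ M * 1 + X ^ M * X := by nlinarith
                  _ = X ^ M * (1 + X) := by ring
                  _ ≤ X ^ M * X ^ 2 := Nat.mul_le_mul_left _ (by nlinarith)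
                  _ = _ := by rw [← pow_add]
              omega
            have h1 := hB w x X hw.2 (hx.trans (hpow M)) hwX (by omega)
            have hs0 : 0 ≤ X * sg P z w :=
              mul_nonneg (Nat.cast_nonneg _) (by linarith [one_le_sg hz' w])
            refine h1.trans ?_
            have e1 : B * X * sg P z w = B * (X * sg P z w) := by ring
            have e2 : |B| * X * sg P z w = |B| * (X * sg P z w) := by ring
            rw [e1, e2]
            exact mul_le_mul_of_nonneg_right (le_abs_self B) hs0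
        _ = |B| * X * ∑ w ∈ (Ioc y (y + X)).filter (fun w => w ≠ 0), sg P z w := by
            rw [mul_sum]
        _ ≤ |B| * X * (C2 * X) := mul_le_mul_of_nonneg_left (hC2 y X (by omega) hy)
              (by positivity)
        _ = (|B| * C2) * (X : ℝ) ^ 2 := by ring
        _ ≤ (1 + |B| * C2) * (X : ℝ) ^ 2 := by
            refine mul_le_mul_of_nonneg_right ?_ (by positivity)
            linarith
    refine (hsplit.trans (add_le_add hmain le_rfl)).trans ?_
    nlinarith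

open Classical in
/-- the coprime pairs of the box without the singular fibres -/
noncomputable def JB (F0 F1 : ℤ[X]) (x y : ℤ) (X : ℕ) : Finset (ℤ × ℤ) :=
  (Ioc x (x + X) ×ˢ Ioc y (y + X)).filter (fun q => IsCoprime q.1 q.2 ∧
    (F0.scaleRoots q.2).eval q.1 ≠ 0 ∧ (F1.scaleRoots q.2).eval q.1 ≠ 0 ∧
    (F0.scaleRoots q.2).eval q.1 ≠ (F1.scaleRoots q.2).eval q.1)

lemma card_JB (F0 F1 : ℤ[X]) (x y : ℤ) (X : ℕ) : ((JB F0 F1 x y X).card : ℝ) ≤ (X : ℝ) ^ 2 := by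
  have h3 : (JB F0 F1 x y X).card ≤ X ^ 2 := by
    unfold JB
    refine (card_filter_le _ _).trans ?_
    rw [card_product, Int.card_Ioc, Int.card_Ioc]
    simp [sq]
  exact_mod_cast h3

/-- **the moments** -/
theorem main (F0 F1 : ℤ[X]) (hsq : ∀ c : Fin 3, Squarefree (qq (FF F0 F1 c))) {δ : ℝ}
    (h0 : 0 < δ) (h1 : δ ≤ 1)
    (hcond : ∀ c : Fin 3, (2 : ℝ) ^ δ * ((num F0 F1 c (fun _ => True) : ℝ) +
      num F0 F1 c (fun q => ∃ s : ℚ[X], q ∣ qq (gam F0 F1 c) - s ^ 2)) ≤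
      2 * ((num F0 F1 (c + 1) (fun _ => True) : ℝ) + num F0 F1 (c + 2) (fun _ => True)))
    (hd1 : F1.natDegree = F0.natDegree) (hd2 : (F0 - F1).natDegree = F0.natDegree)
    (hev : Even F0.natDegree) (L : ℕ) :
    ∃ C : ℝ, ∀ (x y : ℤ) (X : ℕ), 1 ≤ X → x.natAbs ≤ X ^ L → y.natAbs ≤ X ^ L →
      ∑ q ∈ JB F0 F1 x y X, ((2 : ℝ) ^ rk ((F0.scaleRoots q.2).eval q.1)
        ((F1.scaleRoots q.2).eval q.1)) ^ δ ≤ C * (X : ℝ) ^ 2 := by
  classical
  obtain ⟨D, G0, G1, hF0, hF1, hCop, hnum⟩ := exists_data F0 F1 hsq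
  set n : Fin 4 → ℕ := fun c => cnt (GG D G0 G1 c) (fun _ => True) with hn
  set m : Fin 4 → ℕ := fun c => if c = 3 then 0 else cnt (GG D G0 G1 c) (SqQ (KP D G0 G1 c 0))
    with hm
  have hNz := Nz_of hCop
  have hsubD : F0 - F1 = D * (G0 - G1) := by rw [hF0, hF1]; ring
  have hDeg : Deg D G0 G1 := by
    have e0 : F0.natDegree = D.natDegree + G0.natDegree := by
      rw [hF0, natDegree_mul hNz.a hNz.b]
    have e1 : F1.natDegree = D.natDegree + G1.natDegree := by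
      rw [hF1, natDegree_mul hNz.a hNz.c]
    have e2 : (F0 - F1).natDegree = D.natDegree + (G0 - G1).natDegree := by
      rw [hsubD, natDegree_mul hNz.a hNz.d]
    exact ⟨by omega, by omega, by rw [← e0]; exact hev⟩
  have hnn : ∀ w t : ℤ, 0 ≤ RR D G0 G1 δ w t := fun w t => RR_nonneg δ w t
  have hval : ∀ q : ℤ × ℤ, ((2 : ℝ) ^ rk ((F0.scaleRoots q.2).eval q.1)
        ((F1.scaleRoots q.2).eval q.1)) ^ δ = RR D G0 G1 δ q.2 q.1 := by
    intro q
    rw [hF0, hF1]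
    rfl
  -- the numbers
  have e0 : (num F0 F1 0 (fun _ => True)) = n 0 := hnum 0 _
  have e1 : (num F0 F1 1 (fun _ => True)) = n 1 := hnum 1 _
  have e2 : (num F0 F1 2 (fun _ => True)) = n 2 := hnum 2 _
  have g0 : gam F0 F1 0 = KP D G0 G1 0 0 := by
    show -F1 = -(D * G1)
    rw [hF1]
  have g1 : gam F0 F1 1 = KP D G0 G1 1 0 := by
    show -F0 = -(D * G0)
    rw [hF0]
  have g2 : gam F0 F1 2 = KP D G0 G1 2 0 := by
    show F0 = D * G0
    rw [hF0]
  have m0 : (num F0 F1 0 (fun q => ∃ s : ℚ[X], q ∣ qq (gam F0 F1 0) - s ^ 2)) = m 0 := by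
    rw [hnum 0, g0]
    rfl
  have m1 : (num F0 F1 1 (fun q => ∃ s : ℚ[X], q ∣ qq (gam F0 F1 1) - s ^ 2)) = m 1 := by
    rw [hnum 1, g1]
    rfl
  have m2 : (num F0 F1 2 (fun q => ∃ s : ℚ[X], q ∣ qq (gam F0 F1 2) - s ^ 2)) = m 2 := by
    rw [hnum 2, g2]
    rfl
  have c0 := hcond 0
  have c1 := hcond 1
  have c2 := hcond 2
  rw [show (0 : Fin 3) + 1 = 1 from rfl, show (0 : Fin 3) + 2 = 2 from rfl, e0, e1, e2, m0] at c0
  rw [show (1 : Fin 3) + 1 = 2 from rfl, show (1 : Fin 3) + 2 = 0 from rfl, e0, e1, e2, m1] at c1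
  rw [show (2 : Fin 3) + 1 = 0 from rfl, show (2 : Fin 3) + 2 = 1 from rfl, e0, e1, e2, m2] at c2
  have hcond4 : ∀ c : Fin 4, c ≠ 3 →
      (2 : ℝ) ^ δ * (n c + m c) ≤ 2 * ((n 0 : ℝ) + n 1 + n 2 - n c) := by
    refine fin4 _ (fun _ => ?_) (fun _ => ?_) (fun _ => ?_) (fun h => absurd rfl h)
    · linarith
    · linarith
    · linarith
  have ht0 : (0 : ℝ) < (2 : ℝ) ^ δ := by positivity
  have hnc : ∀ c : Fin 4, c ≠ 3 → (n 0 : ℝ) + n 1 + n 2 - n c = 0 → n c = 0 := by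
    intro c hc h
    have h2 := hcond4 c hc
    rw [h, mul_zero] at h2
    have h3 : (0 : ℝ) ≤ n c := Nat.cast_nonneg _
    have h4 : (0 : ℝ) ≤ m c := Nat.cast_nonneg _
    have h5 : (n c : ℝ) + m c ≤ 0 := by
      by_contra hcon
      push Not at hcon
      have := mul_pos ht0 hcon
      linarith
    have h6 : (n c : ℝ) = 0 := by linarith
    exact_mod_cast h6
  rcases Nat.eq_zero_or_pos (n 0 + n 1 + n 2 + n 3) with hN | hN
  · -- constant polynomials
    have hz : ∀ c, ∃ k : ℤ, GG D G0 G1 c = C k := by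
      intro c
      have hc : n c = 0 := by
        revert c
        refine fin4 _ ?_ ?_ ?_ ?_ <;> omega
      obtain ⟨k, _, hk⟩ := cnt_zero (hCop.ne c) hc
      exact ⟨k, hk⟩
    obtain ⟨k0, hk0⟩ := hz 0
    obtain ⟨k1, hk1⟩ := hz 1
    obtain ⟨k3, hk3⟩ := hz 3
    rw [GG0] at hk0
    rw [GG1] at hk1
    rw [GG3] at hk3
    refine ⟨((2 : ℝ) ^ rk (k3 * k0) (k3 * k1)) ^ δ, fun x y X _ _ _ => ?_⟩
    have h2 : ∀ q ∈ JB F0 F1 x y X, ((2 : ℝ) ^ rk ((F0.scaleRoots q.2).eval q.1)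
        ((F1.scaleRoots q.2).eval q.1)) ^ δ = ((2 : ℝ) ^ rk (k3 * k0) (k3 * k1)) ^ δ := by
      intro q _
      have e : ∀ k : ℤ, (C k : ℤ[X]).scaleRoots q.2 = C k := fun k => by
        ext j
        rw [coeff_scaleRoots, natDegree_C, Nat.zero_sub, pow_zero, mul_one]
      rw [hF0, hF1, hk0, hk1, hk3, ← C_mul, ← C_mul, e, e, eval_C, eval_C]
    rw [sum_congr rfl h2, sum_const, nsmul_eq_mul, mul_comm]
    exact mul_le_mul_of_nonneg_left (card_JB F0 F1 x y X) (by positivity)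
  · have hpos : ∀ c : Fin 4, c ≠ 3 → n c < n 0 + n 1 + n 2 + n 3 := by
      intro c hc
      by_contra hcon
      push Not at hcon
      have hle : n c ≤ n 0 + n 1 + n 2 := by
        revert c
        refine fin4 _ ?_ ?_ ?_ ?_
        · intro _ _; omega
        · intro _ _; omega
        · intro _ _; omega
        · intro h; exact absurd rfl h
      have h3 : n 3 = 0 := by omega
      have h4 : n 0 + n 1 + n 2 = n c := by omega
      have h5 : (n 0 : ℝ) + n 1 + n 2 - n c = 0 := by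
        have : ((n 0 + n 1 + n 2 : ℕ) : ℝ) = n c := by exact_mod_cast h4
        push_cast at this
        linarith
      have h6 := hnc c hc h5
      omega
    obtain ⟨C, hC⟩ := box hCop hDeg hn hm hpos h0 h1 hcond4 L
    refine ⟨C, fun x y X hX hx hy => le_trans ?_ (hC x y X hX hx hy)⟩
    rw [sum_congr rfl fun q _ => hval q]
    have e : ∑ w ∈ Ioc y (y + X), ∑ t ∈ SW (PQ D G0 G1) w x X, RR D G0 G1 δ w t =
        ∑ q ∈ (Ioc x (x + X) ×ˢ Ioc y (y + X)).filter (fun q : ℤ × ℤ => IsCoprime q.1 q.2 ∧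
          ((PQ D G0 G1).scaleRoots q.2).eval q.1 ≠ 0), RR D G0 G1 δ q.2 q.1 := by
      rw [sum_filter, sum_product_right]
      refine sum_congr rfl fun w _ => ?_
      rw [← sum_filter]
      refine sum_congr ?_ fun t _ => rfl
      ext t
      rw [mem_SW, mem_filter]
    rw [e]
    refine sum_le_sum_of_subset_of_nonneg ?_ fun q _ _ => hnn _ _
    intro q hq
    unfold JB at hq
    rw [mem_filter] at hq ⊢
    refine ⟨hq.1, hq.2.1, ?_⟩
    obtain ⟨-, -, h5, h6, h7⟩ := hq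
    rw [← PQ_scale hDeg, PQ_eval, eval_sub]
    rw [hF0, scale_mul, eval_mul] at h5 h7
    rw [hF1, scale_mul, eval_mul] at h6 h7
    refine mul_ne_zero (left_ne_zero_of_mul h5) (mul_ne_zero (right_ne_zero_of_mul h5)
      (mul_ne_zero (right_ne_zero_of_mul h6) (sub_ne_zero.2 fun h => h7 (by rw [h]))))

end Run7.h69.RA
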