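import Mathlib
import Pool.Agent.Run7.h69.RA6
import Pool.Agent.Y700.VC

/-!
# The fibre over a rational number
-/

set_option autoImplicit false
set_option linter.unusedSectionVars false

namespace Run7.h69.RA

open Finset Polynomial
open Pool.Agent.W262.RK (EAB)
open FZ (rk)

/-- the curve `y² = x (x - a) (x - b)` over `ℚ` -/
def EQ (a b : ℚ) : WeierstrassCurve ℚ := ⟨0, -(a + b), 0, a * b, 0⟩

/-- the homogenisation -/
lemma hom_eval (A : ℤ[X]) (u v : ℤ) (hv : v ≠ 0) :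
    (((A.scaleRoots v).eval u : ℤ) : ℚ) = (v : ℚ) ^ A.natDegree * aeval ((u : ℚ) / v) A := by
  have hv0 : (v : ℚ) ≠ 0 := Int.cast_ne_zero.2 hv
  have h1 := scaleRoots_eval₂_mul (p := A) (Int.castRingHom ℚ) ((u : ℚ) / v) v
  have h2 : (Int.castRingHom ℚ) v * ((u : ℚ) / v) = (u : ℚ) := by
    show (v : ℚ) * ((u : ℚ) / v) = (u : ℚ)
    field_simp
  rw [h2] at h1
  have e1 : (((A.scaleRoots v).eval u : ℤ) : ℚ) =
      eval₂ (Int.castRingHom ℚ) (u : ℚ) (A.scaleRoots v) := by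
    have := (Polynomial.hom_eval₂ (A.scaleRoots v) (RingHom.id ℤ) (Int.castRingHom ℚ) u)
    simpa [eval₂_id] using this
  rw [e1, h1]
  rfl

/-- the rank of the fibre -/
lemma rank_fibre (A B : ℤ[X]) (hd : B.natDegree = A.natDegree) (hev : Even A.natDegree)
    (u v : ℤ) (hv : v ≠ 0) (hA : (A.scaleRoots v).eval u ≠ 0) (hB : (B.scaleRoots v).eval u ≠ 0)
    (hAB : (A.scaleRoots v).eval u ≠ (B.scaleRoots v).eval u) :
    Module.finrank ℤ (EQ (aeval ((u : ℚ) / v) A) (aeval ((u : ℚ) / v) B)).toAffine.Point =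
      rk ((A.scaleRoots v).eval u) ((B.scaleRoots v).eval u) := by
  obtain ⟨k, hk⟩ := hev
  have hv0 : (v : ℚ) ≠ 0 := Int.cast_ne_zero.2 hv
  set a : ℚ := aeval ((u : ℚ) / v) A with ha
  set b : ℚ := aeval ((u : ℚ) / v) B with hb
  have h1 : (((A.scaleRoots v).eval u : ℤ) : ℚ) = ((v : ℚ) ^ k) ^ 2 * a := by
    rw [hom_eval A u v hv, hk, pow_add, ← ha]
    ring
  have h2 : (((B.scaleRoots v).eval u : ℤ) : ℚ) = ((v : ℚ) ^ k) ^ 2 * b := by
    rw [hom_eval B u v hv, hd, hk, pow_add, ← hb]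
    ring
  set a' : ℤ := (A.scaleRoots v).eval u with ha'
  set b' : ℤ := (B.scaleRoots v).eval u with hb'
  have hVR : Pool.Agent.Y700.VR (EAB a' b') (EQ a b) ((v : ℚ) ^ k) 0 0 0 := by
    refine ⟨pow_ne_zero _ hv0, ?_, ?_, ?_, ?_, ?_⟩
    · simp [EAB, EQ]
    · simp only [EAB, EQ]
      push_cast
      rw [h1, h2]
      ring
    · simp [EAB, EQ]
    · simp only [EAB, EQ]
      push_cast
      rw [h1, h2]
      ring
    · simp [EAB, EQ]
  have hΔ : (EQ a b).Δ ≠ 0 := by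
    have e : (EQ a b).Δ = 16 * (a ^ 2 * b ^ 2 * (a - b) ^ 2) := by
      simp only [WeierstrassCurve.Δ, WeierstrassCurve.b₂, WeierstrassCurve.b₄,
        WeierstrassCurve.b₆, WeierstrassCurve.b₈, EQ]
      ring
    rw [e]
    have g1 : a ≠ 0 := by
      rintro h
      rw [h, mul_zero] at h1
      exact hA (by exact_mod_cast h1)
    have g2 : b ≠ 0 := by
      rintro h
      rw [h, mul_zero] at h2
      exact hB (by exact_mod_cast h2)
    have g3 : a - b ≠ 0 := sub_ne_zero.2 fun h => hAB (by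
      rw [h, ← h2] at h1
      exact_mod_cast h1)
    positivity
  exact (hVR.equiv hΔ).toIntLinearEquiv.finrank_eq

end Run7.h69.RA
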