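import Mathlib
import Pool.Agent.Run7.h69.PA4

/-!
# Packing of separated points
-/

set_option autoImplicit false
set_option linter.unusedSectionVars false

namespace Run7.h69

namespace PA

open Finset

variable {G : Type} [AddCommGroup G] {h : G → ℝ} {C : ℝ}

/-- the growth of balls -/
theorem ball_growth (hG : AddGroup.FG G) (h0 : h 0 = 0) (hnn : ∀ P, 0 ≤ h P) (hC : 0 ≤ C)
    (hpar : ∀ P Q, |h (P + Q) + h (P - Q) - 2 * (h P + h Q)| ≤ C) {T : ℝ} (hT : 100 * C ≤ T)
    (hfin : ∀ X : ℝ, {P : G | h P ≤ X}.Finite)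
    {N : ℕ} (hN : ∀ S : Finset G, (∀ P ∈ S, h P ≤ C) → S.card ≤ N) :
    (hfin (5 * T)).toFinset.card ≤
      N * (hfin (T / 32)).toFinset.card * 64 ^ Module.finrank ℤ G := by
  classical
  obtain ⟨φ, hφ⟩ := coord hG 64 (by norm_num)
  set F := (hfin (5 * T)).toFinset with hF
  set F' := (hfin (T / 32)).toFinset with hF'
  have memF : ∀ P, P ∈ F ↔ h P ≤ 5 * T := fun P => by rw [hF, Set.Finite.mem_toFinset]; rfl
  have memF' : ∀ P, P ∈ F' ↔ h P ≤ T / 32 := fun P => by rw [hF', Set.Finite.mem_toFinset]; rfl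
  have h1 : (F.image φ).card ≤ 64 ^ Module.finrank ℤ G := by
    refine (card_le_univ _).trans (le_of_eq ?_)
    rw [Fintype.card_fun, ZMod.card, Fintype.card_fin]
  refine (card_le_mul_card_image F (N * F'.card) fun v hv => ?_).trans
    (Nat.mul_le_mul_left _ h1)
  obtain ⟨Q, hQ, hQv⟩ := mem_image.1 hv
  rw [memF] at hQ
  have hch : ∀ P : G, ∃ R : G, φ P = φ Q → ∃ τ : G, P - Q = 64 • R + τ ∧ IsOfFinAddOrder τ := by
    intro P
    by_cases hP : φ P = φ Q
    · obtain ⟨R, τ, h2, h3⟩ := hφ P Q hP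
      exact ⟨R, fun _ => ⟨τ, h2, h3⟩⟩
    · exact ⟨0, fun h => absurd h hP⟩
  choose ρ hρ using hch
  set S := F.filter (fun P => φ P = v) with hS
  have memS : ∀ P ∈ S, h P ≤ 5 * T ∧ φ P = φ Q := fun P hP => by
    rw [hS, mem_filter, memF] at hP
    exact ⟨hP.1, by rw [hP.2, hQv]⟩
  have h2 : (S.image ρ).card ≤ F'.card := by
    apply card_le_card
    intro R hR
    obtain ⟨P, hP, rfl⟩ := mem_image.1 hR
    obtain ⟨hPT, hPQ⟩ := memS P hP
    obtain ⟨τ, hτ1, hτ⟩ := hρ P hPQ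
    rw [memF']
    have hτh := h_tors h0 hpar hτ
    have hτ0 := hnn τ
    have e1 : h (Q + τ) ≤ 10 * T + 3 * C := by
      have h2 := hpar Q τ
      rw [abs_le] at h2
      have h3 := hnn (Q - τ)
      linarith [h2.2]
    have e2 : h (P - (Q + τ)) ≤ 30 * T + 7 * C := by
      have h2 := hpar P (Q + τ)
      rw [abs_le] at h2
      have h3 := hnn (P + (Q + τ))
      linarith [h2.2]
    have e3 : P - (Q + τ) = (2 ^ 6 : ℕ) • ρ P := by
      have : P - (Q + τ) = P - Q - τ := by abel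
      rw [this, hτ1]
      norm_num
    have e4 := h_pow h0 hpar (ρ P) 6
    rw [← e3] at e4
    linarith
  refine (card_le_mul_card_image S N fun R hR => ?_).trans (Nat.mul_le_mul_left _ h2)
  have hinj : Set.InjOn (fun P => P - Q - 64 • R)
      ((S.filter (fun P => ρ P = R) : Finset G) : Set G) := by
    intro P _ P' _ hPP
    have h3 : P - Q - 64 • R = P' - Q - 64 • R := hPP
    exact sub_left_injective (sub_left_injective h3)
  rw [← card_image_of_injOn hinj]
  apply hN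
  intro τ' hτ'
  obtain ⟨P, hP, rfl⟩ := mem_image.1 hτ'
  rw [mem_filter] at hP
  obtain ⟨τ, hτ1, hτ⟩ := hρ P (memS P hP.1).2
  have e1 : P - Q - 64 • R = τ := by rw [hτ1, hP.2]; abel
  rw [e1]
  have := h_tors h0 hpar hτ
  linarith

/-- **packing** -/
theorem pack (hG : AddGroup.FG G) (h0 : h 0 = 0) (hnn : ∀ P, 0 ≤ h P) (hC : 0 ≤ C)
    (hneg : ∀ P, h (-P) = h P)
    (hpar : ∀ P Q, |h (P + Q) + h (P - Q) - 2 * (h P + h Q)| ≤ C) {T : ℝ} (hT : 100 * C ≤ T)
    (hT0 : 0 < T) (hfin : ∀ X : ℝ, {P : G | h P ≤ X}.Finite)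
    {N : ℕ} (hN : ∀ S : Finset G, (∀ P ∈ S, h P ≤ C) → S.card ≤ N)
    (S : Finset G) (hS : ∀ P ∈ S, h P ≤ 2 * T)
    (hsep : ∀ P ∈ S, ∀ Q ∈ S, P ≠ Q → T / 4 ≤ h (P - Q)) :
    S.card ≤ N * 64 ^ Module.finrank ℤ G := by
  classical
  have hg := ball_growth hG h0 hnn hC hpar hT hfin hN
  set F := (hfin (5 * T)).toFinset with hF
  set F' := (hfin (T / 32)).toFinset with hF'
  have memF : ∀ P, P ∈ F ↔ h P ≤ 5 * T := fun P => by rw [hF, Set.Finite.mem_toFinset]; rfl
  have memF' : ∀ P, P ∈ F' ↔ h P ≤ T / 32 := fun P => by rw [hF', Set.Finite.mem_toFinset]; rfl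
  have hpos : 0 < F'.card := by
    rw [card_pos]
    refine ⟨0, ?_⟩
    rw [memF', h0]
    positivity
  have h1 : (S ×ˢ F').card ≤ F.card := by
    refine card_le_card_of_injOn (fun q => q.1 + q.2) ?_ ?_
    · rintro ⟨P, R⟩ hq
      rw [mem_coe, mem_product] at hq
      rw [mem_coe, memF]
      have h2 := hS P hq.1
      have h3 := (memF' R).1 hq.2
      have h4 := hpar P R
      rw [abs_le] at h4
      have h5 := hnn (P - R)
      simp only
      linarith [h4.2]
    · rintro ⟨P, R⟩ hq ⟨P', R'⟩ hq' heq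
      rw [mem_coe, mem_product] at hq hq'
      simp only at heq hq hq'
      by_cases hPP : P = P'
      · rw [hPP] at heq ⊢
        rw [add_left_cancel heq]
      · exfalso
        have h2 := hsep P hq.1 P' hq'.1 hPP
        have h3 : P - P' = R' - R := by
          rw [sub_eq_sub_iff_add_eq_add, heq, add_comm]
        rw [h3] at h2
        have h4 := hpar R' R
        rw [abs_le] at h4
        have h5 := hnn (R' + R)
        have h6 := (memF' R).1 hq.2
        have h7 := (memF' R').1 hq'.2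
        linarith [h4.2]
  rw [card_product] at h1
  have h2 : S.card * F'.card ≤ N * 64 ^ Module.finrank ℤ G * F'.card := by
    calc S.card * F'.card ≤ F.card := h1
      _ ≤ N * F'.card * 64 ^ Module.finrank ℤ G := hg
      _ = _ := by ring
  exact Nat.le_of_mul_le_mul_right h2 hpos

end PA

end Run7.h69
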