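import Mathlib
import Pool.Agent.Run7.h69.PA5
import Pool.Agent.Run7.h69.PB1

/-!
# Separation of the large integral points
-/

set_option autoImplicit false
set_option linter.unusedSectionVars false

namespace Run7.h69

namespace PA

open Finset Height
open WeierstrassCurve WeierstrassCurve.Affine

/-- the height of a fraction of integers -/
lemma height_frac {n d : ℤ} (hd : d ≠ 0) {M : ℝ} (h1 : |(n : ℝ)| ≤ M) (h2 : |(d : ℝ)| ≤ M) :
    logHeight₁ ((n : ℚ) / d) ≤ Real.log M := by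
  have hdr : (0 : ℝ) < |(d : ℝ)| := abs_pos.2 (by exact_mod_cast hd)
  have hM : 0 < M := hdr.trans_le h2
  set q : ℚ := (n : ℚ) / d with hq
  rw [Rat.logHeight₁_eq_log_max]
  apply Real.log_le_log
  · have : 0 < max q.num.natAbs q.den := lt_of_lt_of_le q.den_pos (le_max_right _ _)
    exact_mod_cast this
  · rw [Nat.cast_max, max_le_iff]
    have hden : (q.den : ℤ) ∣ d := by
      rw [hq, ← Rat.divInt_eq_div]
      exact Rat.den_dvd n d
    obtain ⟨k, hk⟩ := hden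
    have hk0 : k ≠ 0 := by
      rintro rfl
      exact hd (by rw [hk, mul_zero])
    have hk1 : (1 : ℝ) ≤ |(k : ℝ)| := by exact_mod_cast Int.one_le_abs hk0
    have hnum : (n : ℝ) = q.num * k := by
      have h3 : (n : ℚ) = q * d := by
        rw [hq]
        have : (d : ℚ) ≠ 0 := by exact_mod_cast hd
        field_simp
      have h4 : (n : ℚ) = q.num * k := by
        rw [h3, hk]
        push_cast
        have h5 : q * q.den = q.num := Rat.mul_den_eq_num q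
        linear_combination (k : ℚ) * h5
      exact_mod_cast h4
    constructor
    · rw [Nat.cast_natAbs, Int.cast_abs]
      calc |(q.num : ℝ)| ≤ |(q.num : ℝ)| * |(k : ℝ)| := le_mul_of_one_le_right (abs_nonneg _) hk1
        _ = |(n : ℝ)| := by rw [hnum, abs_mul]
        _ ≤ M := h1
    · calc (q.den : ℝ) ≤ q.den * |(k : ℝ)| := le_mul_of_one_le_right (by positivity) hk1
        _ = |(d : ℝ)| := by
            rw [hk]
            push_cast
            rw [abs_mul, abs_of_nonneg (by positivity : (0 : ℝ) ≤ q.den)]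
        _ ≤ M := h2

/-- heights of integers divided by `D` -/
lemma height_int {X D : ℤ} (hX : X ≠ 0) (hD : D ≠ 0) :
    Real.log |(X : ℝ)| - Real.log |(D : ℝ)| ≤ logHeight₁ ((X : ℚ) / D) ∧
    logHeight₁ ((X : ℚ) / D) ≤ Real.log |(X : ℝ)| + Real.log |(D : ℝ)| := by
  have hDq : (D : ℚ) ≠ 0 := by exact_mod_cast hD
  have hX1 : (1 : ℝ) ≤ |(X : ℝ)| := by exact_mod_cast Int.one_le_abs hX
  have hD1 : (1 : ℝ) ≤ |(D : ℝ)| := by exact_mod_cast Int.one_le_abs hD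
  constructor
  · have h1 : logHeight₁ (X : ℚ) ≤ logHeight₁ ((X : ℚ) / D) + logHeight₁ (D : ℚ) := by
      have h2 := logHeight₁_mul_le ((X : ℚ) / D) (D : ℚ)
      rwa [div_mul_cancel₀ _ hDq] at h2
    have h2 : logHeight₁ (D : ℚ) ≤ Real.log |(D : ℝ)| := by
      have h3 := height_frac (n := D) (d := 1) one_ne_zero (M := |(D : ℝ)|) le_rfl
        (by simpa using hD1)
      simpa using h3
    have h3 : Real.log |(X : ℝ)| ≤ logHeight₁ (X : ℚ) := by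
      rw [Rat.logHeight₁_eq_log_max]
      apply Real.log_le_log (by linarith)
      rw [Nat.cast_max]
      refine le_max_of_le_left ?_
      rw [Rat.num_intCast, Nat.cast_natAbs, Int.cast_abs]
    linarith
  · rw [← Real.log_mul (by linarith) (by linarith)]
    apply height_frac hD
    · nlinarith
    · nlinarith

/-- **the sum of two integral points with different abscissas** -/
theorem height_sum {A B D X₁ Y₁ X₂ Y₂ : ℤ} (hD : D ≠ 0)
    (h₁ : (WW (A : ℚ) (B : ℚ)).toAffine.Nonsingular X₁ Y₁)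
    (h₂ : (WW (A : ℚ) (B : ℚ)).toAffine.Nonsingular X₂ Y₂) (hX : X₁ ≠ X₂) {z Z : ℝ}
    (hz1 : 1 ≤ z) (hzZ : z ≤ Z) (hX₁ : |(X₁ : ℝ)| ≤ Z) (hX₂ : |(X₂ : ℝ)| ≤ Z)
    (hprod : |(X₁ : ℝ)| * |(X₂ : ℝ)| ≤ z * Z) (hA : |(A : ℝ)| ≤ z) (hB : |(B : ℝ)| ≤ z)
    (hY : |(Y₁ : ℝ)| * |(Y₂ : ℝ)| ≤ 4 * (z * Z ^ 2)) :
    hh (D : ℚ) (Point.some _ _ h₁ + Point.some _ _ h₂) ≤
      Real.log (16 * |(D : ℝ)| * (z * Z ^ 2)) := by
  have hDq : (D : ℚ) ≠ 0 := by exact_mod_cast hD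
  have hD1 : (1 : ℝ) ≤ |(D : ℝ)| := by exact_mod_cast Int.one_le_abs hD
  have hXq : (X₁ : ℚ) ≠ X₂ := by exact_mod_cast hX
  have hd : (X₁ : ℚ) - X₂ ≠ 0 := sub_ne_zero.2 hXq
  rw [Point.add_of_X_ne hXq, hh_some hDq, addX, Affine.slope_of_X_ne hXq]
  have e1 := eqn.1 h₁.1
  have e2 := eqn.1 h₂.1
  set n : ℤ := X₁ * X₂ * (X₁ + X₂) - 2 * (A + B) * X₁ * X₂ + A * B * (X₁ + X₂) - 2 * Y₁ * Y₂
    with hn
  set d : ℤ := D * (X₁ - X₂) ^ 2 with hd'
  have hd0 : d ≠ 0 := mul_ne_zero hD (pow_ne_zero 2 (sub_ne_zero.2 hX))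
  have e3 : ((((Y₁ : ℚ) - Y₂) / (X₁ - X₂)) ^ 2 + (A + B) - X₁ - X₂) / D = (n : ℚ) / d := by
    rw [hn, hd']
    push_cast
    field_simp
    linear_combination e1 + e2
  rw [e3]
  have hz0 : 0 ≤ z := by linarith
  have hZ0 : 0 ≤ Z := by linarith
  have hZ1 : 1 ≤ Z := by linarith
  have hbase : 0 ≤ z * Z ^ 2 := by positivity
  have hsum : |(X₁ : ℝ) + X₂| ≤ 2 * Z := (abs_add_le _ _).trans (by linarith)
  apply height_frac hd0
  · rw [hn]
    push_cast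
    have t1 : |(X₁ : ℝ) * X₂ * (X₁ + X₂)| ≤ 2 * (z * Z ^ 2) := by
      rw [abs_mul, abs_mul]
      calc |(X₁ : ℝ)| * |(X₂ : ℝ)| * |(X₁ : ℝ) + X₂| ≤ (z * Z) * (2 * Z) := by gcongr
        _ = _ := by ring
    have t2 : |2 * ((A : ℝ) + B) * X₁ * X₂| ≤ 4 * (z * Z ^ 2) := by
      have : 2 * ((A : ℝ) + B) * X₁ * X₂ = 2 * (((A : ℝ) + B) * (X₁ * X₂)) := by ring
      rw [this, abs_mul, abs_mul, abs_mul, abs_of_pos (by norm_num : (0 : ℝ) < 2)]
      calc 2 * (|(A : ℝ) + B| * (|(X₁ : ℝ)| * |(X₂ : ℝ)|)) ≤ 2 * ((2 * z) * (z * Z)) := by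
            have : |(A : ℝ) + B| ≤ 2 * z := (abs_add_le _ _).trans (by linarith)
            gcongr
        _ = 4 * (z * (z * Z)) := by ring
        _ ≤ 4 * (z * (Z * Z)) := by gcongr
        _ = _ := by ring
    have t3 : |(A : ℝ) * B * (X₁ + X₂)| ≤ 2 * (z * Z ^ 2) := by
      rw [abs_mul, abs_mul]
      calc |(A : ℝ)| * |(B : ℝ)| * |(X₁ : ℝ) + X₂| ≤ (z * z) * (2 * Z) := by gcongr
        _ = 2 * (z * (z * Z)) := by ring
        _ ≤ 2 * (z * (Z * Z)) := by gcongr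
        _ = _ := by ring
    have t4 : |2 * (Y₁ : ℝ) * Y₂| ≤ 8 * (z * Z ^ 2) := by
      rw [abs_mul, abs_mul, abs_of_pos (by norm_num : (0 : ℝ) < 2)]
      linarith
    calc |(X₁ : ℝ) * X₂ * (X₁ + X₂) - 2 * (A + B) * X₁ * X₂ + A * B * (X₁ + X₂) - 2 * Y₁ * Y₂|
        ≤ |(X₁ : ℝ) * X₂ * (X₁ + X₂)| + |2 * ((A : ℝ) + B) * X₁ * X₂| +
          |(A : ℝ) * B * (X₁ + X₂)| + |2 * (Y₁ : ℝ) * Y₂| := by
          refine (abs_sub _ _).trans (add_le_add ?_ le_rfl)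
          refine (abs_add_le _ _).trans (add_le_add ?_ le_rfl)
          exact abs_sub _ _
      _ ≤ 16 * (z * Z ^ 2) := by linarith
      _ = 16 * 1 * (z * Z ^ 2) := by ring
      _ ≤ _ := by gcongr
  · rw [hd']
    push_cast
    rw [abs_mul, abs_pow]
    have h3 : |(X₁ : ℝ) - X₂| ≤ 2 * Z := (abs_sub _ _).trans (by linarith)
    calc |(D : ℝ)| * |(X₁ : ℝ) - X₂| ^ 2 ≤ |(D : ℝ)| * (2 * Z) ^ 2 := by gcongr
      _ = 4 * |(D : ℝ)| * (1 * Z ^ 2) := by ring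
      _ ≤ 16 * |(D : ℝ)| * (z * Z ^ 2) := by gcongr; norm_num

end PA

end Run7.h69
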