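import Mathlib
import Pool.Agent.Run7.h69.PB2

/-!
# The integral points of a twist
-/

set_option autoImplicit false
set_option linter.unusedSectionVars false

namespace Run7.h69

namespace PA

open Finset Height
open WeierstrassCurve WeierstrassCurve.Affine

/-- sets with bounded finite subsets are finite -/
lemma finite_of {α : Type} {S : Set α} {N : ℕ}
    (h : ∀ s : Finset α, (∀ p ∈ s, p ∈ S) → s.card ≤ N) : S.Finite := by
  by_contra hinf
  obtain ⟨s, hs, hcard⟩ := Set.Infinite.exists_subset_card_eq hinf (N + 1)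
  have h1 := h s fun p hp => hs hp
  omega

/-- the logarithm of the abscissa -/
noncomputable def lx {A B : ℚ} : (WW A B).toAffine.Point → ℝ
  | 0 => 0
  | .some x _ _ => Real.log |(x : ℝ)|

/-- integral points -/
def Int2 {A B : ℚ} (P : (WW A B).toAffine.Point) : Prop :=
  ∃ (X Y : ℤ) (h : (WW A B).toAffine.Nonsingular (X : ℚ) (Y : ℚ)), P = .some _ _ h

/-- the data for a given `a`, `b` -/
lemma setup (a b : ℤ) (ha : a ≠ 0) (hb : b ≠ 0) (hab : a ≠ b) :
    ∃ C : ℝ, 0 ≤ C ∧ ∀ (D : ℤ), D ≠ 0 →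
      AddGroup.FG (WW ((a : ℚ) * D) ((b : ℚ) * D)).toAffine.Point ∧
      ∀ P Q : (WW ((a : ℚ) * D) ((b : ℚ) * D)).toAffine.Point,
        |hh (D : ℚ) (P + Q) + hh (D : ℚ) (P - Q) - 2 * (hh (D : ℚ) P + hh (D : ℚ) Q)| ≤ C := by
  have haq : (a : ℚ) ≠ 0 := by exact_mod_cast ha
  have hbq : (b : ℚ) ≠ 0 := by exact_mod_cast hb
  have habq : (a : ℚ) ≠ b := by exact_mod_cast hab
  obtain ⟨C1, hC1⟩ := para haq hbq habq
  refine ⟨|C1|, abs_nonneg _, fun D hD => ⟨?_, fun P Q => ?_⟩⟩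
  · have hcurve : (WW ((a : ℚ) * D) ((b : ℚ) * D)).Δ ≠ 0 := by
      have hDq : (D : ℚ) ≠ 0 := by exact_mod_cast hD
      have e : (WW ((a : ℚ) * D) ((b : ℚ) * D)).Δ = 16 * (a ^ 2 * b ^ 2 * (a - b) ^ 2 * D ^ 6) := by
        unfold WW WeierstrassCurve.Δ WeierstrassCurve.b₂ WeierstrassCurve.b₄ WeierstrassCurve.b₆
          WeierstrassCurve.b₈
        simp only
        ring
      rw [e]
      have := sub_ne_zero.2 habq
      positivity
    exact Pool.Agent.Q286.EQ.mordell_weil ℚ _ hcurve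
  · have hDq : (D : ℚ) ≠ 0 := by exact_mod_cast hD
    exact (hC1 D hDq P Q).trans (le_abs_self _)

/-- **one window** -/
theorem window (a b : ℤ) (ha : a ≠ 0) (hb : b ≠ 0) (hab : a ≠ b) :
    ∃ (K : ℝ) (N : ℕ), 0 ≤ K ∧ ∀ (D : ℤ), D ≠ 0 → ∀ T : ℝ, 10 * Real.log |(D : ℝ)| + K ≤ T →
      ∀ S : Finset (WW ((a : ℚ) * D) ((b : ℚ) * D)).toAffine.Point,
        (∀ P ∈ S, Int2 P ∧ T ≤ lx P ∧ lx P ≤ 2 * T) →
        S.card ≤ N * 64 ^ Module.finrank ℤ (WW ((a : ℚ) * D) ((b : ℚ) * D)).toAffine.Point := by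
  classical
  obtain ⟨C, hC0, hset⟩ := setup a b ha hb hab
  obtain ⟨N, hN⟩ := northcott C
  have hl0 : 0 ≤ Real.log (|(a : ℝ)| + |(b : ℝ)| + 1) := by
    apply Real.log_nonneg
    linarith [abs_nonneg (a : ℝ), abs_nonneg (b : ℝ)]
  refine ⟨50 * C + 8 + Real.log (|(a : ℝ)| + |(b : ℝ)| + 1), N, by positivity,
    fun D hD T hT S hS => ?_⟩
  have hDq : (D : ℚ) ≠ 0 := by exact_mod_cast hD
  have hD1 : (1 : ℝ) ≤ |(D : ℝ)| := by exact_mod_cast Int.one_le_abs hD
  have hlD : 0 ≤ Real.log |(D : ℝ)| := Real.log_nonneg hD1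
  have hT8 : 8 ≤ T := by linarith
  obtain ⟨hfg, hpar⟩ := hset D hD
  have hl16 : Real.log 16 ≤ 3 := by
    have h1 : Real.log 16 = 4 * Real.log 2 := by
      rw [show (16 : ℝ) = 2 ^ 4 by norm_num, Real.log_pow]
      norm_num
    have := Real.log_two_lt_d9
    linarith
  refine pack hfg (h := hh (D : ℚ)) (C := C) hh_zero hh_nonneg hC0 hh_neg hpar (T := 2 * T)
    (by linarith) (by linarith) (fun X => ?_) (fun S hS => hN _ _ D hDq S hS) S (fun P hP => ?_)
    (fun P hP Q hQ hPQ => ?_)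
  · obtain ⟨M, hM⟩ := northcott X
    exact finite_of fun s hs => hM _ _ D hDq s hs
  · obtain ⟨⟨X, Y, h, rfl⟩, h1, h2⟩ := hS P hP
    have h1' : T ≤ Real.log |((X : ℚ) : ℝ)| := h1
    have h2' : Real.log |((X : ℚ) : ℝ)| ≤ 2 * T := h2
    have hc : ((X : ℚ) : ℝ) = (X : ℝ) := by push_cast; rfl
    rw [hc] at h1' h2'
    have hX0 : X ≠ 0 := by
      rintro rfl
      rw [Int.cast_zero, abs_zero, Real.log_zero] at h1'
      linarith
    rw [hh_some hDq]
    have := (height_int hX0 hD).2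
    linarith
  · obtain ⟨⟨X₁, Y₁, h₁, e₁⟩, h1, h2⟩ := hS P hP
    obtain ⟨⟨X₂, Y₂, h₂, e₂⟩, h3, h4⟩ := hS Q hQ
    have hc : ∀ X : ℤ, ((X : ℚ) : ℝ) = (X : ℝ) := fun X => by push_cast; rfl
    rw [e₁] at h1 h2
    rw [e₂] at h3 h4
    have h1' : T ≤ Real.log |(X₁ : ℝ)| := by rw [← hc]; exact h1
    have h3' : T ≤ Real.log |(X₂ : ℝ)| := by rw [← hc]; exact h3
    have hX0 : ∀ X : ℤ, T ≤ Real.log |(X : ℝ)| → X ≠ 0 := by
      rintro X hX rfl
      rw [Int.cast_zero, abs_zero, Real.log_zero] at hX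
      linarith
    have hX₁ := hX0 X₁ h1'
    have hX₂ := hX0 X₂ h3'
    have hP1 : Real.log |(X₁ : ℝ)| - Real.log |(D : ℝ)| ≤ hh (D : ℚ) P := by
      rw [e₁, hh_some hDq]
      exact (height_int hX₁ hD).1
    have hQ1 : Real.log |(X₂ : ℝ)| - Real.log |(D : ℝ)| ≤ hh (D : ℚ) Q := by
      rw [e₂, hh_some hDq]
      exact (height_int hX₂ hD).1
    by_cases hXX : X₁ = X₂
    · have h5 : P = Q ∨ P = -Q := by
        rw [e₁, e₂]
        apply Point.X_eq_iff.1
        rw [hXX]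
      rcases h5 with h5 | h5
      · exact absurd h5 hPQ
      · have h6 : P - Q = P + P := by rw [h5]; abel
        rw [h6]
        have h7 := hpar P P
        rw [sub_self, hh_zero, abs_le] at h7
        linarith [h7.1]
    · -- the bound for the sum
      set z : ℝ := min |(X₁ : ℝ)| |(X₂ : ℝ)| with hz
      set Z : ℝ := max |(X₁ : ℝ)| |(X₂ : ℝ)| with hZ
      have hx1 : (1 : ℝ) ≤ |(X₁ : ℝ)| := by exact_mod_cast Int.one_le_abs hX₁
      have hx2 : (1 : ℝ) ≤ |(X₂ : ℝ)| := by exact_mod_cast Int.one_le_abs hX₂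
      have hz1 : 1 ≤ z := le_min hx1 hx2
      have hzZ : z ≤ Z := (min_le_left _ _).trans (le_max_left _ _)
      have hzzZ : z * Z = |(X₁ : ℝ)| * |(X₂ : ℝ)| := min_mul_max _ _
      have hlz : T ≤ Real.log z := by
        rcases min_choice |(X₁ : ℝ)| |(X₂ : ℝ)| with h | h
        · rw [hz, h]; exact h1'
        · rw [hz, h]; exact h3'
      have hz0 : 0 < z := by linarith
      have hZ0 : 0 < Z := by linarith
      have habz : (|(a : ℝ)| + |(b : ℝ)| + 1) * |(D : ℝ)| ≤ z := by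
        rw [← Real.log_le_log_iff (by positivity) hz0, Real.log_mul (by positivity) (by positivity)]
        linarith
      have haD : |((a * D : ℤ) : ℝ)| ≤ z := by
        push_cast
        rw [abs_mul]
        nlinarith [abs_nonneg (a : ℝ), abs_nonneg (b : ℝ), abs_nonneg (D : ℝ)]
      have hbD : |((b * D : ℤ) : ℝ)| ≤ z := by
        push_cast
        rw [abs_mul]
        nlinarith [abs_nonneg (a : ℝ), abs_nonneg (b : ℝ), abs_nonneg (D : ℝ)]
      have hYb : ∀ X Y : ℤ, (WW ((a : ℚ) * D) ((b : ℚ) * D)).toAffine.Nonsingular (X : ℚ) (Y : ℚ) →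
          z ≤ |(X : ℝ)| → |(Y : ℝ)| ^ 2 ≤ 4 * |(X : ℝ)| ^ 3 := by
        intro X Y h hzX
        have h5 := eqn.1 h.1
        have h6 : (Y : ℝ) ^ 2 = X * (X - ((a * D : ℤ) : ℝ)) * (X - ((b * D : ℤ) : ℝ)) := by
          have h7 : ((Y : ℚ)) ^ 2 = X * (X - ((a * D : ℤ) : ℚ)) * (X - ((b * D : ℤ) : ℚ)) := by
            rw [h5]
            push_cast
            ring
          exact_mod_cast h7
        have hlin : ∀ c : ℝ, |c| ≤ z → |(X : ℝ) - c| ≤ 2 * |(X : ℝ)| := by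
          intro c hc
          refine (abs_sub _ _).trans ?_
          linarith
        calc |(Y : ℝ)| ^ 2 = |(X : ℝ)| * |(X : ℝ) - ((a * D : ℤ) : ℝ)| *
              |(X : ℝ) - ((b * D : ℤ) : ℝ)| := by
              rw [← abs_pow, h6, abs_mul, abs_mul]
          _ ≤ |(X : ℝ)| * (2 * |(X : ℝ)|) * (2 * |(X : ℝ)|) := by
              have := hlin _ haD
              have := hlin _ hbD
              gcongr
          _ = _ := by ring
      have hY : |(Y₁ : ℝ)| * |(Y₂ : ℝ)| ≤ 4 * (z * Z ^ 2) := by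
        have h5 := hYb X₁ Y₁ h₁ (min_le_left _ _)
        have h6 := hYb X₂ Y₂ h₂ (min_le_right _ _)
        apply abs_le_of_sq_le_sq' _ (by positivity) |>.2
        calc (|(Y₁ : ℝ)| * |(Y₂ : ℝ)|) ^ 2 = |(Y₁ : ℝ)| ^ 2 * |(Y₂ : ℝ)| ^ 2 := by ring
          _ ≤ (4 * |(X₁ : ℝ)| ^ 3) * (4 * |(X₂ : ℝ)| ^ 3) := by gcongr
          _ = 16 * (z * Z) ^ 3 := by rw [hzzZ]; ring
          _ = 16 * (z ^ 2 * Z ^ 3 * z) := by ring
          _ ≤ 16 * (z ^ 2 * Z ^ 3 * Z) := by gcongr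
          _ = _ := by ring
      have hsum : hh (D : ℚ) (P + Q) ≤ Real.log (16 * |(D : ℝ)| * (z * Z ^ 2)) := by
        have hA' : ((a * D : ℤ) : ℚ) = (a : ℚ) * D := by push_cast; rfl
        have hB' : ((b * D : ℤ) : ℚ) = (b : ℚ) * D := by push_cast; rfl
        have key : ∀ (A' B' : ℚ) (hA' : ((a * D : ℤ) : ℚ) = A') (hB' : ((b * D : ℤ) : ℚ) = B')
            (h₁ : (WW A' B').toAffine.Nonsingular (X₁ : ℚ) (Y₁ : ℚ))
            (h₂ : (WW A' B').toAffine.Nonsingular (X₂ : ℚ) (Y₂ : ℚ)),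
            hh (D : ℚ) (Point.some _ _ h₁ + Point.some _ _ h₂) ≤
              Real.log (16 * |(D : ℝ)| * (z * Z ^ 2)) := by
          rintro _ _ rfl rfl h₁ h₂
          exact height_sum hD h₁ h₂ hXX hz1 hzZ (le_max_left _ _) (le_max_right _ _)
            (le_of_eq hzzZ.symm) haD hbD hY
        rw [e₁, e₂]
        exact key _ _ hA' hB' h₁ h₂
      have hlog : Real.log (16 * |(D : ℝ)| * (z * Z ^ 2)) =
          Real.log 16 + Real.log |(D : ℝ)| + (Real.log z + 2 * Real.log Z) := by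
        rw [Real.log_mul (by positivity) (by positivity), Real.log_mul (by norm_num) (by positivity),
          Real.log_mul (by positivity) (by positivity), Real.log_pow]
        push_cast
        rfl
      have hlzZ : Real.log z + Real.log Z = Real.log |(X₁ : ℝ)| + Real.log |(X₂ : ℝ)| := by
        rw [← Real.log_mul (by positivity) (by positivity), hzzZ,
          Real.log_mul (by positivity) (by positivity)]
      have h7 := hpar P Q
      rw [abs_le] at h7
      rw [hlog] at hsum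
      linarith [h7.1]

end PA

end Run7.h69
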