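import Mathlib
import Pool.Agent.Run7.h69.PB3
import Pool.Agent.Run7.h69.PA6

/-!
# The number of the integral points up to a given size
-/

set_option autoImplicit false
set_option linter.unusedSectionVars false

namespace Run7.h69

namespace PA

open Finset Height
open WeierstrassCurve WeierstrassCurve.Affine

/-- **all windows**: `R` is a bound for the logarithm of `D` and `U` a bound for the number of the
points with small abscissa -/
theorem windows (a b : ℤ) (ha : a ≠ 0) (hb : b ≠ 0) (hab : a ≠ b) :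
    ∃ (K : ℝ) (N : ℕ), 0 ≤ K ∧ ∀ (D : ℤ), D ≠ 0 → ∀ (R : ℝ), Real.log |(D : ℝ)| ≤ R → 0 ≤ R →
      ∀ U : ℕ, (∀ S : Finset (WW ((a : ℚ) * D) ((b : ℚ) * D)).toAffine.Point,
        (∀ P ∈ S, Int2 P ∧ lx P ≤ 10 * R + K) → S.card ≤ U) →
      ∀ (J : ℕ) (S : Finset (WW ((a : ℚ) * D) ((b : ℚ) * D)).toAffine.Point),
        (∀ P ∈ S, Int2 P ∧ lx P ≤ 2 ^ J * (10 * R + K)) →
        S.card ≤ U + J * (N * 64 ^ Module.finrank ℤ
          (WW ((a : ℚ) * D) ((b : ℚ) * D)).toAffine.Point) := by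
  classical
  obtain ⟨K, N, hK, hw⟩ := window a b ha hb hab
  refine ⟨K, N, hK, fun D hD R hDR hR U hU J => ?_⟩
  induction J with
  | zero =>
    intro S hS
    rw [zero_mul, add_zero]
    apply hU
    intro P hP
    have := hS P hP
    rw [pow_zero, one_mul] at this
    exact this
  | succ J ih =>
    intro S hS
    set B := N * 64 ^ Module.finrank ℤ (WW ((a : ℚ) * D) ((b : ℚ) * D)).toAffine.Point with hB
    set T : ℝ := 2 ^ J * (10 * R + K) with hT
    have h1 := ih (S.filter (fun P => lx P ≤ T)) (fun P hP => by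
      rw [mem_filter] at hP
      exact ⟨(hS P hP.1).1, hP.2⟩)
    have hT1 : 10 * Real.log |(D : ℝ)| + K ≤ T := by
      have h2 : (1 : ℝ) ≤ 2 ^ J := one_le_pow₀ (by norm_num)
      have h3 : 0 ≤ 10 * R + K := by positivity
      nlinarith
    have h2 := hw D hD T hT1 (S.filter (fun P => ¬ lx P ≤ T)) (fun P hP => by
      rw [mem_filter] at hP
      refine ⟨(hS P hP.1).1, (not_le.1 hP.2).le, ?_⟩
      have := (hS P hP.1).2
      rw [hT]
      rw [pow_succ] at this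
      linarith)
    have h3 := card_filter_add_card_filter_not (s := S) (fun P => lx P ≤ T)
    have h4 : (J + 1) * B = J * B + B := by ring
    rw [h4]
    omega

/-- the height of an integral point -/
lemma hh_int {A B : ℚ} {D : ℤ} (hD : D ≠ 0) {P : (WW A B).toAffine.Point} (hP : Int2 P) {R T : ℝ}
    (hR : Real.log |(D : ℝ)| ≤ R) (hR0 : 0 ≤ R) (hT : lx P ≤ T) (hT0 : 0 ≤ T) :
    hh (D : ℚ) P ≤ T + R := by
  obtain ⟨X, Y, h, rfl⟩ := hP
  have hDq : (D : ℚ) ≠ 0 := by exact_mod_cast hD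
  rw [hh_some hDq]
  by_cases hX : X = 0
  · rw [hX, Int.cast_zero, zero_div, logHeight₁_zero]
    positivity
  · have h1 := (height_int hX hD).2
    have h2 : Real.log |((X : ℚ) : ℝ)| ≤ T := hT
    have hc : ((X : ℚ) : ℝ) = (X : ℝ) := by push_cast; rfl
    rw [hc] at h2
    linarith

/-- **the integral points of a twist** -/
theorem total (a b : ℤ) (ha : a ≠ 0) (hb : b ≠ 0) (hab : a ≠ b) :
    ∃ (K : ℝ) (N : ℕ), 0 ≤ K ∧
      (∀ (D : ℤ), D ≠ 0 → ∀ (R L : ℝ) (m : ℕ), Real.log |(D : ℝ)| ≤ R → 0 ≤ R → 1 ≤ m →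
        (∀ d s : ℤ, D = d * s ^ 2 → L ≤ Real.log |(d : ℝ)|) →
        100 * (R + K) < 4 ^ m * (L / 4 - K) →
        ∀ (J : ℕ) (S : Finset (WW ((a : ℚ) * D) ((b : ℚ) * D)).toAffine.Point),
          (∀ P ∈ S, Int2 P ∧ lx P ≤ 2 ^ J * (10 * R + K)) →
          S.card ≤ (J + 1) * (N * (2 ^ (m + 6)) ^ Module.finrank ℤ
            (WW ((a : ℚ) * D) ((b : ℚ) * D)).toAffine.Point)) ∧
      ∀ R : ℝ, 0 ≤ R → ∃ U : ℕ, ∀ (D : ℤ), D ≠ 0 → Real.log |(D : ℝ)| ≤ R →
        ∀ (J : ℕ) (S : Finset (WW ((a : ℚ) * D) ((b : ℚ) * D)).toAffine.Point),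
          (∀ P ∈ S, Int2 P ∧ lx P ≤ 2 ^ J * (10 * R + K)) →
          S.card ≤ (J + 1) * (U * 64 ^ Module.finrank ℤ
            (WW ((a : ℚ) * D) ((b : ℚ) * D)).toAffine.Point) := by
  classical
  obtain ⟨K1, N1, hK1, hw⟩ := windows a b ha hb hab
  obtain ⟨C, N2, hC, hp⟩ := points_le a b ha hb hab
  refine ⟨K1 + C, N1 + N2, by positivity, ?_, ?_⟩
  · intro D hD R L m hDR hR hm hL hbig J S hS
    set r := Module.finrank ℤ (WW ((a : ℚ) * D) ((b : ℚ) * D)).toAffine.Point with hr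
    have hJ1 : (1 : ℝ) ≤ 2 ^ J := one_le_pow₀ (by norm_num)
    -- a larger radius
    have h1 := hw D hD (R + C) (by linarith) (by linarith) (N2 * (2 ^ m) ^ r)
      (fun S hS => hp D hD L (10 * (R + C) + K1 + R) m hm hL (by
        have h2 : (4 : ℝ) ^ m * (L / 4 - (K1 + C)) ≤ 4 ^ m * (L / 4 - C) :=
          mul_le_mul_of_nonneg_left (by linarith) (by positivity)
        linarith) S (fun P hP => hh_int hD (hS P hP).1 hDR hR (hS P hP).2 (by linarith)))
      J S (fun P hP => ⟨(hS P hP).1, (hS P hP).2.trans (by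
        apply mul_le_mul_of_nonneg_left _ (by positivity)
        linarith)⟩)
    refine h1.trans ?_
    rw [← hr]
    have e1 : N2 * (2 ^ m) ^ r ≤ N2 * (2 ^ (m + 6)) ^ r :=
      Nat.mul_le_mul_left _ (Nat.pow_le_pow_left (Nat.pow_le_pow_right (by norm_num) (by omega)) r)
    have e2 : N1 * 64 ^ r ≤ N1 * (2 ^ (m + 6)) ^ r := by
      apply Nat.mul_le_mul_left
      apply Nat.pow_le_pow_left
      calc 64 = 2 ^ 6 := by norm_num
        _ ≤ 2 ^ (m + 6) := Nat.pow_le_pow_right (by norm_num) (by omega)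
    calc N2 * (2 ^ m) ^ r + J * (N1 * 64 ^ r)
        ≤ N2 * (2 ^ (m + 6)) ^ r + J * (N1 * (2 ^ (m + 6)) ^ r) :=
          Nat.add_le_add e1 (Nat.mul_le_mul_left _ e2)
      _ ≤ (N2 * (2 ^ (m + 6)) ^ r + J * (N1 * (2 ^ (m + 6)) ^ r)) +
          (N1 * (2 ^ (m + 6)) ^ r + J * (N2 * (2 ^ (m + 6)) ^ r)) := Nat.le_add_right _ _
      _ = _ := by ring
  · intro R hR
    obtain ⟨U, hU⟩ := northcott (10 * (R + C) + K1 + R)
    refine ⟨U + N1, fun D hD hDR J S hS => ?_⟩
    have hDq : (D : ℚ) ≠ 0 := by exact_mod_cast hD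
    set r := Module.finrank ℤ (WW ((a : ℚ) * D) ((b : ℚ) * D)).toAffine.Point with hr
    have h1 := hw D hD (R + C) (by linarith) (by linarith) U
      (fun S hS => hU _ _ D hDq S fun P hP =>
        hh_int hD (hS P hP).1 hDR hR (hS P hP).2 (by linarith))
      J S (fun P hP => ⟨(hS P hP).1, (hS P hP).2.trans (by
        apply mul_le_mul_of_nonneg_left _ (by positivity)
        linarith)⟩)
    refine h1.trans ?_
    rw [← hr]
    have e1 : U ≤ U * 64 ^ r := Nat.le_mul_of_pos_right _ (by positivity)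
    calc U + J * (N1 * 64 ^ r) ≤ U * 64 ^ r + J * (N1 * 64 ^ r) := Nat.add_le_add_right e1 _
      _ ≤ (U * 64 ^ r + J * (N1 * 64 ^ r)) + (N1 * 64 ^ r + J * (U * 64 ^ r)) :=
          Nat.le_add_right _ _
      _ = _ := by ring

end PA

end Run7.h69
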