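import Mathlib
import Pool.Agent.Run7.h69.PB4
import Pool.Agent.Run7.h69.TM

/-!
# Moments of the number of the integral points
-/

set_option autoImplicit false
set_option linter.unusedSectionVars false

namespace Run7.h69

namespace PA

open Finset Height Polynomial
open WeierstrassCurve WeierstrassCurve.Affine

/-- the integral points -/
def ipts (φ : ℤ[X]) (a b d : ℤ) (Z : ℝ) : Set (ℤ × ℤ) :=
  {p | p.2 ^ 2 = φ.eval p.1 * (φ.eval p.1 - a * d) * (φ.eval p.1 - b * d) ∧ |(p.1 : ℝ)| ≤ Z}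

/-- from the curve to the elliptic curve -/
theorem ipts_le {a b d : ℤ} (ha : a ≠ 0) (hb : b ≠ 0) (hab : a ≠ b) (hd : d ≠ 0) {φ : ℤ[X]}
    (hφ : 0 < φ.natDegree) {Z T : ℝ} {U : ℕ}
    (hT : ∀ x : ℤ, |(x : ℝ)| ≤ Z → Real.log |((φ.eval x : ℤ) : ℝ)| ≤ T)
    (hU : ∀ S : Finset (WW ((a : ℚ) * d) ((b : ℚ) * d)).toAffine.Point,
      (∀ P ∈ S, Int2 P ∧ lx P ≤ T) → S.card ≤ U)
    (S : Finset (ℤ × ℤ)) (hS : ∀ p ∈ S, p ∈ ipts φ a b d Z) : S.card ≤ φ.natDegree * U := by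
  classical
  have hdq : (d : ℚ) ≠ 0 := by exact_mod_cast hd
  have haq : (a : ℚ) ≠ 0 := by exact_mod_cast ha
  have hbq : (b : ℚ) ≠ 0 := by exact_mod_cast hb
  have habq : (a : ℚ) ≠ b := by exact_mod_cast hab
  have hcurve : (WW ((a : ℚ) * d) ((b : ℚ) * d)).Δ ≠ 0 := by
    have e : (WW ((a : ℚ) * d) ((b : ℚ) * d)).Δ = 16 * (a ^ 2 * b ^ 2 * (a - b) ^ 2 * d ^ 6) := by
      unfold WW WeierstrassCurve.Δ WeierstrassCurve.b₂ WeierstrassCurve.b₄ WeierstrassCurve.b₆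
        WeierstrassCurve.b₈
      simp only
      ring
    rw [e]
    have := sub_ne_zero.2 habq
    positivity
  have hns : ∀ p ∈ S, (WW ((a : ℚ) * d) ((b : ℚ) * d)).toAffine.Nonsingular
      ((φ.eval p.1 : ℤ) : ℚ) (p.2 : ℚ) := by
    intro p hp
    rw [← Affine.equation_iff_nonsingular_of_Δ_ne_zero hcurve, eqn]
    have h1 := (hS p hp).1
    exact_mod_cast h1
  set g : ℤ × ℤ → (WW ((a : ℚ) * d) ((b : ℚ) * d)).toAffine.Point := fun p =>
    if h : p ∈ S then .some _ _ (hns p h) else 0 with hg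
  have hgS : ∀ p (hp : p ∈ S), g p = .some _ _ (hns p hp) := fun p hp => by
    rw [hg]
    simp only
    rw [dif_pos hp]
  have h1 : (S.image g).card ≤ U := by
    apply hU
    intro P hP
    obtain ⟨p, hp, rfl⟩ := mem_image.1 hP
    rw [hgS p hp]
    refine ⟨⟨_, _, hns p hp, rfl⟩, ?_⟩
    show Real.log |(((φ.eval p.1 : ℤ) : ℚ) : ℝ)| ≤ T
    have hc : (((φ.eval p.1 : ℤ) : ℚ) : ℝ) = ((φ.eval p.1 : ℤ) : ℝ) := by push_cast; rfl
    rw [hc]
    exact hT p.1 (hS p hp).2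
  refine (card_le_mul_card_image S φ.natDegree fun P hP => ?_).trans
    (Nat.mul_le_mul_left _ h1)
  obtain ⟨q, hq, rfl⟩ := mem_image.1 hP
  have h2 : (S.filter (fun p => g p = g q)) ⊆
      (φ - Polynomial.C (φ.eval q.1)).roots.toFinset ×ˢ {q.2} := by
    intro p hp
    rw [mem_filter] at hp
    obtain ⟨hp, hpq⟩ := hp
    rw [hgS p hp, hgS q hq, Point.some.injEq] at hpq
    have h3 : φ.eval p.1 = φ.eval q.1 := by exact_mod_cast hpq.1
    have h4 : p.2 = q.2 := by exact_mod_cast hpq.2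
    rw [mem_product, mem_singleton, Multiset.mem_toFinset, mem_roots']
    refine ⟨⟨fun h0 => ?_, ?_⟩, h4⟩
    · have h5 : φ = Polynomial.C (φ.eval q.1) := sub_eq_zero.1 h0
      rw [h5, natDegree_C] at hφ
      exact absurd hφ (lt_irrefl _)
    · rw [IsRoot.def, eval_sub, eval_C, h3, sub_self]
  refine (card_le_card h2).trans ?_
  rw [card_product, card_singleton, mul_one]
  refine (Multiset.toFinset_card_le _).trans ((card_roots' _).trans ?_)
  exact (natDegree_sub_C).le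

/-- the size of the values of a polynomial -/
lemma log_eval (φ : ℤ[X]) : ∃ c : ℝ, 1 ≤ c ∧ ∀ (Z : ℝ), 1 ≤ Z → ∀ x : ℤ, |(x : ℝ)| ≤ Z →
    Real.log |((φ.eval x : ℤ) : ℝ)| ≤ c * (1 + Real.log Z) := by
  obtain ⟨c, L, hcL⟩ := RK.growth φ
  refine ⟨1 + Real.log (c + 1) + L, ?_, fun Z hZ x hx => ?_⟩
  · have h1 : 0 ≤ Real.log ((c : ℝ) + 1) := Real.log_nonneg (by linarith [Nat.cast_nonneg (α := ℝ) c])
    have h2 : (0 : ℝ) ≤ L := Nat.cast_nonneg L
    linarith
  have hlZ : 0 ≤ Real.log Z := Real.log_nonneg hZ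
  have hl1 : 0 ≤ Real.log ((c : ℝ) + 1) := Real.log_nonneg (by linarith [Nat.cast_nonneg (α := ℝ) c])
  have hL0 : (0 : ℝ) ≤ L := Nat.cast_nonneg L
  have hR : (0 : ℝ) ≤ (1 + Real.log (c + 1) + L) * (1 + Real.log Z) := by positivity
  by_cases h0 : φ.eval x = 0
  · rw [h0, Int.cast_zero, abs_zero, Real.log_zero]
    exact hR
  have h1 := hcL x
  have h2 : |((φ.eval x : ℤ) : ℝ)| ≤ c * (|(x : ℝ)| + 1) ^ L := by
    have h3 : (((φ.eval x).natAbs : ℕ) : ℝ) ≤ ((c * (x.natAbs + 1) ^ L : ℕ) : ℝ) := by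
      exact_mod_cast h1
    push_cast at h3
    rwa [Nat.cast_natAbs, Nat.cast_natAbs, Int.cast_abs, Int.cast_abs] at h3
  have hpos : 0 < |((φ.eval x : ℤ) : ℝ)| := abs_pos.2 (by exact_mod_cast h0)
  have h3 : |((φ.eval x : ℤ) : ℝ)| ≤ ((c : ℝ) + 1) * (2 * Z) ^ L := by
    refine h2.trans ?_
    have h4 : |(x : ℝ)| + 1 ≤ 2 * Z := by linarith
    have h5 := abs_nonneg (x : ℝ)
    gcongr
    linarith
  calc Real.log |((φ.eval x : ℤ) : ℝ)| ≤ Real.log (((c : ℝ) + 1) * (2 * Z) ^ L) :=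
        Real.log_le_log hpos h3
    _ = Real.log ((c : ℝ) + 1) + L * (Real.log 2 + Real.log Z) := by
        rw [Real.log_mul (by positivity) (by positivity), Real.log_pow,
          Real.log_mul (by norm_num) (by positivity)]
    _ ≤ Real.log ((c : ℝ) + 1) + L * (1 + Real.log Z) := by
        have := Real.log_two_lt_d9
        gcongr
        linarith
    _ ≤ _ := by nlinarith [mul_nonneg hl1 hlZ]

/-- the number of the windows -/
lemma exists_J {c : ℝ} (hc : 1 ≤ c) : ∃ C : ℝ, 0 ≤ C ∧ ∀ ρ : ℝ, 0 ≤ ρ →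
    ∃ J : ℕ, c * (2 + ρ) ≤ 2 ^ J ∧ ((J + 1 : ℕ) : ℝ) ≤ C * Real.log (2 + ρ) := by
  have hl2 : 0 < Real.log 2 := Real.log_pos (by norm_num)
  have hlc : 0 ≤ Real.log c := Real.log_nonneg hc
  refine ⟨(Real.log c / Real.log 2 + 2) / Real.log 2 + 1 / Real.log 2, by positivity,
    fun ρ hρ => ⟨⌈Real.logb 2 (c * (2 + ρ))⌉₊, ?_, ?_⟩⟩
  · have h1 : Real.logb 2 (c * (2 + ρ)) ≤ ⌈Real.logb 2 (c * (2 + ρ))⌉₊ := Nat.le_ceil _
    rw [← Real.rpow_natCast]
    calc c * (2 + ρ) = (2 : ℝ) ^ Real.logb 2 (c * (2 + ρ)) :=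
          (Real.rpow_logb (by norm_num) (by norm_num) (by positivity)).symm
      _ ≤ _ := Real.rpow_le_rpow_of_exponent_le (by norm_num) h1
  · have hlρ : Real.log 2 ≤ Real.log (2 + ρ) := Real.log_le_log (by norm_num) (by linarith)
    have e1 : Real.logb 2 (c * (2 + ρ)) = Real.log c / Real.log 2 + Real.log (2 + ρ) / Real.log 2 := by
      rw [← Real.log_div_log, Real.log_mul (by positivity) (by positivity), add_div]
    have h0 : 0 ≤ Real.logb 2 (c * (2 + ρ)) := by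
      rw [e1]
      have : 0 ≤ Real.log (2 + ρ) := by linarith
      positivity
    have h1 := (Nat.ceil_lt_add_one h0).le
    push_cast
    have h2 : 1 ≤ Real.log (2 + ρ) / Real.log 2 := by rwa [one_le_div hl2]
    have h3 : 0 ≤ Real.log c / Real.log 2 + 2 := by positivity
    have h4 : (Real.log c / Real.log 2 + 2) / Real.log 2 * Real.log (2 + ρ) =
        (Real.log c / Real.log 2 + 2) * (Real.log (2 + ρ) / Real.log 2) := by ring
    have h5 : 1 / Real.log 2 * Real.log (2 + ρ) = Real.log (2 + ρ) / Real.log 2 := by ring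
    rw [add_mul, h4, h5]
    nlinarith

open Classical in
/-- **the moments** -/
theorem imoments (a b : ℤ) (ha : a ≠ 0) (hb : b ≠ 0) (hab : a ≠ b) (φ : ℤ[X])
    (hφ : 0 < φ.natDegree) (f : ℤ[X]) (k M : ℕ) (δ : ℝ) (hδ : 0 < δ) :
    ∃ C : ℝ, ∀ (x : ℤ) (H : ℕ) (Z : ℝ), 2 ≤ H → x.natAbs ≤ H ^ M → 1 ≤ Z →
      ∑ t ∈ (Ioc x (x + H)).filter (fun t => f.eval t ≠ 0 ∧
          ∀ d s : ℤ, f.eval t = d * s ^ 2 → (H : ℝ) ^ δ ≤ |(d : ℝ)|),
        ((ipts φ a b (f.eval t) Z).ncard : ℝ) ^ k ≤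
          C * H * Real.log (2 + Real.log Z / Real.log H) ^ k := by
  obtain ⟨K, N, hK0, htot, hsm⟩ := total a b ha hb hab
  obtain ⟨c, hc1, hc⟩ := log_eval φ
  obtain ⟨C3, hC30, hJ⟩ := exists_J hc1
  obtain ⟨cf, Lf, hcf⟩ := RK.growth f
  -- the size of the values of `f`
  set L1 : ℕ := (M + 3) * Lf + cf + 1 with hL1
  have hval : ∀ (x : ℤ) (H : ℕ), 2 ≤ H → x.natAbs ≤ H ^ M → ∀ t ∈ Ioc x (x + H), f.eval t ≠ 0 →
      Real.log |((f.eval t : ℤ) : ℝ)| ≤ L1 * Real.log H := by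
    intro x H hH hx t ht h0
    rw [mem_Ioc] at ht
    have h1 : t.natAbs + 1 ≤ x.natAbs + H + 1 := by omega
    have h2 : x.natAbs + H + 1 ≤ H ^ (M + 3) := by
      have h3 : H ^ (M + 3) = H ^ M * (H ^ 3) := pow_add _ _ _
      have h4 : 1 ≤ H ^ M := Nat.one_le_pow _ _ (by omega)
      have h5 : H + 1 + 1 ≤ H ^ 3 := by nlinarith [Nat.mul_le_mul hH hH, sq_nonneg (H - 2)]
      calc x.natAbs + H + 1 ≤ H ^ M * 1 + 1 * (H + 1) := by omega
        _ ≤ H ^ M * 1 + H ^ M * (H + 1) := Nat.add_le_add_left (Nat.mul_le_mul_right _ h4) _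
        _ = H ^ M * (H + 1 + 1) := by ring
        _ ≤ H ^ M * H ^ 3 := Nat.mul_le_mul_left _ h5
        _ = _ := h3.symm
    have h3 : (f.eval t).natAbs ≤ H ^ L1 := by
      calc (f.eval t).natAbs ≤ cf * (t.natAbs + 1) ^ Lf := hcf t
        _ ≤ H ^ cf * (H ^ (M + 3)) ^ Lf := Nat.mul_le_mul
            ((Nat.lt_pow_self (by omega : 1 < H)).le) (Nat.pow_le_pow_left (h1.trans h2) _)
        _ = H ^ ((M + 3) * Lf + cf) := by rw [← pow_mul, ← pow_add, add_comm]
        _ ≤ H ^ L1 := Nat.pow_le_pow_right (by omega) (by omega)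
    have h4 : |((f.eval t : ℤ) : ℝ)| ≤ (H : ℝ) ^ L1 := by
      have h5 : (((f.eval t).natAbs : ℕ) : ℝ) ≤ ((H ^ L1 : ℕ) : ℝ) := by exact_mod_cast h3
      push_cast at h5
      rwa [Nat.cast_natAbs, Int.cast_abs] at h5
    have hpos : 0 < |((f.eval t : ℤ) : ℝ)| := abs_pos.2 (by exact_mod_cast h0)
    calc _ ≤ Real.log ((H : ℝ) ^ L1) := Real.log_le_log hpos h4
      _ = _ := Real.log_pow _ _
  -- the exponent
  obtain ⟨m0, hm0⟩ := pow_unbounded_of_one_lt (8 * (100 * L1 + 1) / δ) (by norm_num : (1 : ℝ) < 4)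
  set m : ℕ := m0 + 1 with hm
  have hm1 : 8 * (100 * (L1 : ℝ) + 1) < 4 ^ m * δ := by
    have h1 : 8 * (100 * (L1 : ℝ) + 1) < 4 ^ m0 * δ := by rwa [div_lt_iff₀ hδ] at hm0
    have h2 : (4 : ℝ) ^ m0 * δ ≤ 4 ^ m * δ :=
      mul_le_mul_of_nonneg_right (pow_le_pow_right₀ (by norm_num) (by omega)) hδ.le
    linarith
  set Λ : ℝ := 8 * K / δ + 100 * K + 1 with hΛ
  obtain ⟨H0, hH0⟩ := exists_nat_ge (Real.exp Λ)
  -- the small `H`
  have hH00 : (1 : ℝ) ≤ H0 := by
    refine le_trans ?_ hH0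
    apply Real.one_le_exp
    positivity
  obtain ⟨U, hU⟩ := hsm (L1 * Real.log H0) (mul_nonneg (Nat.cast_nonneg _) (Real.log_nonneg hH00))
  have hnc : ∀ (S : Set (ℤ × ℤ)) (K : ℕ), (∀ s : Finset (ℤ × ℤ), (∀ p ∈ s, p ∈ S) → s.card ≤ K) →
      S.ncard ≤ K := by
    intro S K h
    rw [Set.ncard_eq_toFinset_card S (finite_of h)]
    exact h _ fun p hp => (finite_of h).mem_toFinset.1 hp
  -- the bound for one curve
  have hone : ∀ (x : ℤ) (H : ℕ) (Z : ℝ), 2 ≤ H → x.natAbs ≤ H ^ M → 1 ≤ Z → ∀ t ∈ Ioc x (x + H),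
      f.eval t ≠ 0 → (∀ d s : ℤ, f.eval t = d * s ^ 2 → (H : ℝ) ^ δ ≤ |(d : ℝ)|) →
      ((ipts φ a b (f.eval t) Z).ncard : ℝ) ≤
        (φ.natDegree * (N + U) : ℕ) * (C3 * Real.log (2 + Real.log Z / Real.log H)) *
          TM.rr a b (f.eval t) ^ (m + 6) := by
    intro x H Z hH hx hZ t ht h0 hcond
    set D := f.eval t with hD
    have hHr : (2 : ℝ) ≤ H := by exact_mod_cast hH
    have hHpos : (0 : ℝ) < H := by linarith
    set l : ℝ := Real.log H with hl
    have hl2 : Real.log 2 ≤ l := Real.log_le_log (by norm_num) hHr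
    have hl20 : 0.6931471803 < Real.log 2 := Real.log_two_gt_d9
    have hl0 : 0 < l := by linarith
    have hlZ : 0 ≤ Real.log Z := Real.log_nonneg hZ
    set ρ : ℝ := Real.log Z / l with hρ
    have hρ0 : 0 ≤ ρ := by positivity
    have hρl : Real.log Z = ρ * l := by rw [hρ]; field_simp
    obtain ⟨J, hJ1, hJ2⟩ := hJ ρ hρ0
    have hDl : Real.log |(D : ℝ)| ≤ L1 * l := hval x H hH hx t ht h0
    have hL1r : (1 : ℝ) ≤ L1 := by
      have : 1 ≤ L1 := by omega
      exact_mod_cast this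
    set r := Module.finrank ℤ (WW ((a : ℚ) * D) ((b : ℚ) * D)).toAffine.Point with hr
    have hT : ∀ R : ℝ, L1 * l ≤ R → ∀ x : ℤ, |(x : ℝ)| ≤ Z →
        Real.log |((φ.eval x : ℤ) : ℝ)| ≤ 2 ^ J * (10 * R + K) := by
      intro R hR x hx
      refine (hc Z hZ x hx).trans ?_
      have h1 : 1 + Real.log Z ≤ (2 + ρ) * l := by
        rw [hρl]
        nlinarith
      have h2 : l ≤ 10 * R + K := by nlinarith
      calc c * (1 + Real.log Z) ≤ c * ((2 + ρ) * l) := by gcongr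
        _ = c * (2 + ρ) * l := by ring
        _ ≤ 2 ^ J * (10 * R + K) := by gcongr
    have hcount : (ipts φ a b D Z).ncard ≤
        φ.natDegree * ((J + 1) * ((N + U) * (2 ^ (m + 6)) ^ r)) := by
      apply hnc
      intro S hS
      rcases Nat.lt_or_ge H H0 with hHH | hHH
      · have hlH0 : l ≤ Real.log H0 := Real.log_le_log hHpos (by exact_mod_cast hHH.le)
        refine ipts_le ha hb hab h0 hφ (hT (L1 * Real.log H0) (by gcongr)) (fun S hS => ?_) S hS
        refine (hU D h0 (hDl.trans (by gcongr)) J S hS).trans ?_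
        apply Nat.mul_le_mul_left
        apply Nat.mul_le_mul (Nat.le_add_left _ _)
        apply Nat.pow_le_pow_left
        calc 64 = 2 ^ 6 := by norm_num
          _ ≤ 2 ^ (m + 6) := Nat.pow_le_pow_right (by norm_num) (by omega)
      · have hlΛ : Λ ≤ l := by
          rw [hl, Real.le_log_iff_exp_le hHpos]
          exact hH0.trans (by exact_mod_cast hHH)
        refine ipts_le ha hb hab h0 hφ (hT (L1 * l) le_rfl) (fun S hS => ?_) S hS
        refine (htot D h0 (L1 * l) (δ * l) m hDl (by positivity) (by omega) (fun e s hes => ?_) ?_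
          J S hS).trans ?_
        · have h1 := hcond e s hes
          rw [hl, ← Real.log_rpow hHpos]
          exact Real.log_le_log (by positivity) h1
        · have h1 : 8 * K / δ ≤ l := by
            have : 0 ≤ 100 * K := by positivity
            linarith
          have h2 : 8 * K ≤ δ * l := by
            have := (div_le_iff₀ hδ).1 h1
            linarith [mul_comm δ l]
          have h3 : 100 * K + 1 ≤ l := by
            have : 0 ≤ 8 * K / δ := by positivity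
            linarith
          have h4 : 0 < (4 : ℝ) ^ m := by positivity
          have h5 : 4 ^ m * (δ * l / 8) ≤ 4 ^ m * (δ * l / 4 - K) :=
            mul_le_mul_of_nonneg_left (by linarith) h4.le
          have h6 : (100 * (L1 : ℝ) + 1) * l ≤ 4 ^ m * (δ * l / 8) := by nlinarith
          have h7 : 100 * (L1 * l + K) < (100 * (L1 : ℝ) + 1) * l := by nlinarith
          linarith
        · apply Nat.mul_le_mul_left
          exact Nat.mul_le_mul_right _ (Nat.le_add_right _ _)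
    have hrr : TM.rr a b D ^ (m + 6) = ((2 : ℝ) ^ (m + 6)) ^ r := by
      have h4 : (WW ((a : ℚ) * D) ((b : ℚ) * D)) =
          Pool.Agent.W262.RK.EAB (a * D) (b * D) := by
        unfold WW Pool.Agent.W262.RK.EAB
        push_cast
        rfl
      unfold TM.rr
      rw [hr, h4, ← pow_mul, ← pow_mul, mul_comm]
    have hcr : ((ipts φ a b D Z).ncard : ℝ) ≤
        (φ.natDegree * (N + U) : ℕ) * ((J + 1 : ℕ) : ℝ) * ((2 : ℝ) ^ (m + 6)) ^ r := by
      have h1 : ((ipts φ a b D Z).ncard : ℝ) ≤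
          ((φ.natDegree * ((J + 1) * ((N + U) * (2 ^ (m + 6)) ^ r)) : ℕ) : ℝ) := by
        exact_mod_cast hcount
      refine h1.trans (le_of_eq ?_)
      push_cast
      ring
    rw [hrr]
    refine hcr.trans ?_
    gcongr
  obtain ⟨C', hC'⟩ := TM.main ha hb hab f ((m + 6) * k) M
  refine ⟨((φ.natDegree * (N + U) : ℕ) * C3 : ℝ) ^ k * |C'|, fun x H Z hH hx hZ => ?_⟩
  set J := (Ioc x (x + H)).filter (fun t => f.eval t ≠ 0 ∧
          ∀ d s : ℤ, f.eval t = d * s ^ 2 → (H : ℝ) ^ δ ≤ |(d : ℝ)|) with hJdef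
  set W : ℝ := Real.log (2 + Real.log Z / Real.log H) with hW
  have hW0 : 0 ≤ W := by
    apply Real.log_nonneg
    have h1 : 0 ≤ Real.log Z := Real.log_nonneg hZ
    have h2 : 0 ≤ Real.log H := Real.log_natCast_nonneg H
    have : 0 ≤ Real.log Z / Real.log H := by positivity
    linarith
  have h1 : ∀ t ∈ J, ((ipts φ a b (f.eval t) Z).ncard : ℝ) ^ k ≤
      (((φ.natDegree * (N + U) : ℕ) * C3 : ℝ) ^ k * W ^ k) *
        TM.rr a b (f.eval t) ^ ((m + 6) * k) := by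
    intro t ht
    rw [hJdef, mem_filter] at ht
    refine (pow_le_pow_left₀ (Nat.cast_nonneg _) (hone x H Z hH hx hZ t ht.1 ht.2.1 ht.2.2)
      k).trans (le_of_eq ?_)
    rw [mul_pow, mul_pow, mul_pow, mul_pow, ← pow_mul]
    ring
  have h2 := hC' x H (by omega) hx
  have h3 : ∑ t ∈ J, TM.rr a b (f.eval t) ^ ((m + 6) * k) ≤
      ∑ t ∈ NX.II f x H, TM.rr a b (f.eval t) ^ ((m + 6) * k) := by
    refine sum_le_sum_of_subset_of_nonneg ?_ fun t _ _ => by
      have := TM.one_le_rr a b (f.eval t)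
      positivity
    intro t ht
    rw [hJdef, mem_filter] at ht
    unfold NX.II
    rw [mem_filter]
    exact ⟨ht.1, ht.2.1⟩
  calc _ ≤ ∑ t ∈ J, (((φ.natDegree * (N + U) : ℕ) * C3 : ℝ) ^ k * W ^ k) *
        TM.rr a b (f.eval t) ^ ((m + 6) * k) := sum_le_sum h1
    _ = (((φ.natDegree * (N + U) : ℕ) * C3 : ℝ) ^ k * W ^ k) *
        ∑ t ∈ J, TM.rr a b (f.eval t) ^ ((m + 6) * k) := by rw [mul_sum]
    _ ≤ (((φ.natDegree * (N + U) : ℕ) * C3 : ℝ) ^ k * W ^ k) * (|C'| * H) := by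
        apply mul_le_mul_of_nonneg_left _ (by positivity)
        exact (h3.trans h2).trans (mul_le_mul_of_nonneg_right (le_abs_self _) (by positivity))
    _ = _ := by ring

end PA

end Run7.h69
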